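import Mathlib

/-! The parts of this file: H18.FatBasic, H21.HD.Defs. -/

section

namespace Pool.Agent.H18.Fat

open MvPolynomial Finset

/-- The exponent vectors of degree `d` in `n` variables. -/
noncomputable def mons (n d : ℕ) : Finset (Fin n →₀ ℕ) := finsuppAntidiag univ d

theorem mem_mons {n d : ℕ} {α : Fin n →₀ ℕ} : α ∈ mons n d ↔ α.degree = d := by
  unfold mons
  rw [mem_finsuppAntidiag, Finsupp.degree_eq_sum]
  simp

/-- Taylor coefficients of monomials. -/
noncomputable def tc {n : ℕ} (q : Fin n → ℂ) (α β : Fin n →₀ ℕ) : ℂ :=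
  ∏ j, (((α j).choose (β j) : ℂ) * q j ^ (α j - β j))

/-- Coefficient vectors to homogeneous polynomials. -/
noncomputable def toPoly (n d : ℕ) : (mons n d → ℂ) →ₗ[ℂ] MvPolynomial (Fin n) ℂ where
  toFun f := ∑ α : mons n d, monomial α.1 (f α)
  map_add' f g := by
    rw [← sum_add_distrib]
    exact sum_congr rfl fun α _ => by simp
  map_smul' c f := by
    rw [RingHom.id_apply, smul_sum]
    exact sum_congr rfl fun α _ => by simp [smul_monomial]

theorem toPoly_apply {n d : ℕ} (f : mons n d → ℂ) :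
    toPoly n d f = ∑ α : mons n d, monomial α.1 (f α) := rfl

/-- Termwise Euler relation. -/
theorem tc_euler {n : ℕ} (q : Fin n → ℂ) (α β : Fin n →₀ ℕ) :
    ∑ j, q j * ((β j : ℂ) + 1) * tc q α (β + Finsupp.single j 1) =
      ((α.degree : ℂ) - (β.degree : ℂ)) * tc q α β := by
  classical
  have h1 : ∀ j, q j * ((β j : ℂ) + 1) * tc q α (β + Finsupp.single j 1) =
      ((α j : ℂ) - (β j : ℂ)) * tc q α β := by
    intro j
    unfold tc
    rw [← mul_prod_erase univ _ (mem_univ j), ← mul_prod_erase univ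
      (fun i => (((α i).choose (β i) : ℂ) * q i ^ (α i - β i))) (mem_univ j)]
    have h2 : ∏ x ∈ univ.erase j, (((α x).choose ((β + Finsupp.single j 1 : Fin n →₀ ℕ) x) : ℂ) *
        q x ^ (α x - (β + Finsupp.single j 1 : Fin n →₀ ℕ) x)) =
        ∏ x ∈ univ.erase j, (((α x).choose (β x) : ℂ) * q x ^ (α x - β x)) := by
      refine prod_congr rfl fun x hx => ?_
      have hx' : j ≠ x := fun h => (ne_of_mem_erase hx) h.symm
      simp [Finsupp.single_eq_of_ne hx'.symm]
    rw [h2]
    simp only [Finsupp.add_apply, Finsupp.single_eq_same]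
    have h3 : ((α j).choose (β j + 1) : ℂ) * ((β j : ℂ) + 1) =
        ((α j).choose (β j) : ℂ) * ((α j : ℂ) - (β j : ℂ)) := by
      rcases le_or_gt (β j) (α j) with h | h
      · have := Nat.choose_succ_right_eq (α j) (β j)
        have h4 : (((α j).choose (β j + 1) * (β j + 1) : ℕ) : ℂ) =
          (((α j).choose (β j) * (α j - β j) : ℕ) : ℂ) := by rw [this]
        push_cast [Nat.cast_sub h] at h4
        exact h4
      · rw [Nat.choose_eq_zero_of_lt h, Nat.choose_eq_zero_of_lt (by omega)]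
        simp
    have h4 : q j * ((β j : ℂ) + 1) *
        (((α j).choose (β j + 1) : ℂ) * q j ^ (α j - (β j + 1))) =
        ((α j : ℂ) - (β j : ℂ)) * (((α j).choose (β j) : ℂ) * q j ^ (α j - β j)) := by
      rcases lt_or_ge (β j) (α j) with h | h
      · have h5 : α j - β j = (α j - (β j + 1)) + 1 := by omega
        rw [h5, pow_succ]
        linear_combination (q j * q j ^ (α j - (β j + 1))) * h3
      · have h6 : (α j).choose (β j + 1) = 0 := Nat.choose_eq_zero_of_lt (by omega)
        rw [h6] at h3 ⊢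
        simp only [Nat.cast_zero, zero_mul, mul_zero] at h3 ⊢
        linear_combination (q j ^ (α j - β j)) * h3
    linear_combination
      (∏ x ∈ univ.erase j, (((α x).choose (β x) : ℂ) * q x ^ (α x - β x))) * h4
  rw [sum_congr rfl fun j _ => h1 j, ← sum_mul, sum_sub_distrib, Finsupp.degree_eq_sum,
    Finsupp.degree_eq_sum]
  push_cast
  rfl

end Pool.Agent.H18.Fat

end

section

/-!
Project HD (general fat points in high dimension): definitions, part 1.
-/

namespace Pool.Agent.H21.HD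

open MvPolynomial
open scoped Classical

/-- The linear form with coefficient vector `v`. -/
noncomputable def lin {σ : Type*} [Fintype σ] (v : σ → ℂ) : MvPolynomial σ ℂ :=
  ∑ s, C (v s) * X s

/-- The degree `d` part of the ideal generated by the powers `lin (v p) ^ e p`. -/
noncomputable def powSpan {σ P : Type*} [Fintype σ] (d : ℕ) (v : P → σ → ℂ) (e : P → ℕ) :
    Submodule ℂ (MvPolynomial σ ℂ) :=
  Submodule.span ℂ {F | ∃ p, ∃ g : MvPolynomial σ ℂ, e p ≤ d ∧ g.IsHomogeneous (d - e p) ∧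
    F = g * lin (v p) ^ e p}

/-- The powers `lin (v p) ^ e p` are independent in degree `d`. -/
def Indep {σ P : Type*} [Fintype σ] [Fintype P] (d : ℕ) (v : P → σ → ℂ) (e : P → ℕ) : Prop :=
  ∀ g : P → MvPolynomial σ ℂ, (∀ p, (g p).IsHomogeneous (d - e p)) →
    ∑ p, g p * lin (v p) ^ e p = 0 → ∀ p, g p = 0

/-- `φ_0 = 1` and `φ_{j+1} = φ_j - ∑_{e ≤ j} κ_{e+1} binom(j, e) φ_{j-e}`; thus `φ_j / j!` is the
coefficient of `t^j` in `exp (t - ∑_e κ_e t^e / e!)`. -/
noncomputable def phi (κ : ℕ → ℝ) : ℕ → ℝ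
  | 0 => 1
  | (j + 1) => phi κ j - ∑ e : Fin (j + 1), κ (e + 1) * (j.choose e : ℝ) * phi κ (j - e)

/-- `fro r e I j = ∑_{T ⊆ I} (-1)^{|T|} binom(r + j - ∑_T e, r)`, the coefficient of `t^j` in
`∏_{i ∈ I} (1 - t^{e i}) / (1 - t)^{r+1}`. -/
def fro {P : Type*} (r : ℕ) (e : P → ℕ) (I : Finset P) (j : ℕ) : ℤ :=
  ∑ T ∈ I.powerset, (-1) ^ T.card *
    (if ∑ i ∈ T, e i ≤ j then ((r + j - ∑ i ∈ T, e i).choose r : ℤ) else 0)

/-- The load of the exponent `i`. -/
noncomputable def load {P : Type} (r : ℕ) (e : P → ℕ) (I : Finset P) (i : ℕ) : ℝ :=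
  (i.factorial : ℝ) * ((I.filter (fun p => e p = i)).card : ℝ) / ((r : ℝ) + 1) ^ i

/-- The function `f` depends only on the coordinates in `T`. -/
def DepOn {ι : Type*} {B : ι → Type*} (T : Finset ι) (f : (∀ i, B i) → ℂ) : Prop :=
  ∀ x y, (∀ i ∈ T, x i = y i) → f x = f y

/-- The function `F` is polynomial in the parameters. -/
def PolyFun {σ : Type*} (F : (σ → ℂ) → ℂ) : Prop := ∃ N : MvPolynomial σ ℂ, ∀ x, F x = eval x N

theorem PolyFun.const {σ : Type*} (c : ℂ) : PolyFun (fun _ : σ → ℂ => c) := ⟨C c, by simp⟩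

theorem PolyFun.coord {σ : Type*} (s : σ) : PolyFun (fun x : σ → ℂ => x s) := ⟨X s, by simp⟩

theorem PolyFun.add {σ : Type*} {F G : (σ → ℂ) → ℂ} (hF : PolyFun F) (hG : PolyFun G) :
    PolyFun (fun x => F x + G x) := by
  obtain ⟨M, hM⟩ := hF
  obtain ⟨N, hN⟩ := hG
  exact ⟨M + N, fun x => by simp only [map_add, hM, hN]⟩

theorem PolyFun.mul {σ : Type*} {F G : (σ → ℂ) → ℂ} (hF : PolyFun F) (hG : PolyFun G) :
    PolyFun (fun x => F x * G x) := by
  obtain ⟨M, hM⟩ := hF
  obtain ⟨N, hN⟩ := hG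
  exact ⟨M * N, fun x => by simp only [map_mul, hM, hN]⟩

theorem PolyFun.sum {σ κ : Type*} (S : Finset κ) (F : κ → (σ → ℂ) → ℂ)
    (hF : ∀ k ∈ S, PolyFun (F k)) : PolyFun (fun x => ∑ k ∈ S, F k x) := by
  classical
  induction S using Finset.induction_on with
  | empty => simpa using PolyFun.const (σ := σ) 0
  | insert a s ha ih =>
    have h1 := hF a (Finset.mem_insert_self a s)
    have h2 := ih fun k hk => hF k (Finset.mem_insert_of_mem hk)
    have h3 := h1.add h2
    have h4 : (fun x => ∑ k ∈ insert a s, F k x) = fun x => F a x + ∑ k ∈ s, F k x := by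
      funext x
      rw [Finset.sum_insert ha]
    rw [h4]
    exact h3

theorem PolyFun.prod {σ κ : Type*} (S : Finset κ) (F : κ → (σ → ℂ) → ℂ)
    (hF : ∀ k ∈ S, PolyFun (F k)) : PolyFun (fun x => ∏ k ∈ S, F k x) := by
  classical
  induction S using Finset.induction_on with
  | empty => simpa using PolyFun.const (σ := σ) 1
  | insert a s ha ih =>
    have h1 := hF a (Finset.mem_insert_self a s)
    have h2 := ih fun k hk => hF k (Finset.mem_insert_of_mem hk)
    have h3 := h1.mul h2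
    have h4 : (fun x => ∏ k ∈ insert a s, F k x) = fun x => F a x * ∏ k ∈ s, F k x := by
      funext x
      rw [Finset.prod_insert ha]
    rw [h4]
    exact h3

/-- Finitely many nonzero polynomials have a common point of nonvanishing. -/
theorem exists_common {σ κ : Type*} (S : Finset κ) (G : κ → MvPolynomial σ ℂ)
    (hG : ∀ i ∈ S, G i ≠ 0) : ∃ x : σ → ℂ, ∀ i ∈ S, eval x (G i) ≠ 0 := by
  classical
  have h1 : ∏ i ∈ S, G i ≠ 0 := Finset.prod_ne_zero_iff.2 hG
  obtain ⟨x, hx⟩ : ∃ x : σ → ℂ, eval x (∏ i ∈ S, G i) ≠ 0 := by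
    by_contra hcon
    push Not at hcon
    apply h1
    apply MvPolynomial.funext
    intro x
    rw [hcon x, map_zero]
  refine ⟨x, fun i hi => ?_⟩
  rw [map_prod] at hx
  exact Finset.prod_ne_zero_iff.1 hx i hi

end Pool.Agent.H21.HD

end
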