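import Pool.Agent.H94.LP2.M01
import Pool.Agent.H94.LP2.M04

/-! The parts of this file: H21.HD.FroA, H21.HD.FroB, H21.NX.Arith, H21.NX.NumA, H51.TB.Solve, H51.TB.Sect. -/

section

/-!
Recursions for fro.
-/

namespace Pool.Agent.H21.HD

open scoped Classical

/-- Adding a point. -/
theorem fro_insert {P : Type} (r : ℕ) (e : P → ℕ) (I : Finset P) (i : P) (hi : i ∉ I) (j : ℕ) :
    fro r e (insert i I) j = fro r e I j - (if e i ≤ j then fro r e I (j - e i) else 0) := by
  unfold fro
  rw [Finset.sum_powerset_insert hi, sub_eq_add_neg]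
  congr 1
  by_cases hij : e i ≤ j
  · rw [if_pos hij, ← Finset.sum_neg_distrib]
    refine Finset.sum_congr rfl fun T hT => ?_
    have hiT : i ∉ T := fun h => hi (Finset.mem_powerset.1 hT h)
    rw [Finset.card_insert_of_notMem hiT, Finset.sum_insert hiT, pow_succ]
    by_cases h2 : ∑ x ∈ T, e x ≤ j - e i
    · have h3 : e i + ∑ x ∈ T, e x ≤ j := by omega
      rw [if_pos h2, if_pos h3]
      have h4 : r + j - (e i + ∑ x ∈ T, e x) = r + (j - e i) - ∑ x ∈ T, e x := by omega
      rw [h4]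
      ring
    · have h3 : ¬ (e i + ∑ x ∈ T, e x ≤ j) := by omega
      rw [if_neg h2, if_neg h3]
      ring
  · rw [if_neg hij, neg_zero]
    refine Finset.sum_eq_zero fun T hT => ?_
    have hiT : i ∉ T := fun h => hi (Finset.mem_powerset.1 hT h)
    rw [Finset.sum_insert hiT, if_neg (by omega), mul_zero]

namespace FroAX

theorem fro_empty {P : Type} (r : ℕ) (e : P → ℕ) (j : ℕ) :
    fro r e (∅ : Finset P) j = ((r + j).choose r : ℤ) := by
  simp [fro]

/-- Hockey stick. -/
theorem hockey (r j : ℕ) :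
    ∑ t ∈ Finset.range j, ((r + (j - 1 - t)).choose r : ℤ) = ((r + j).choose (r + 1) : ℤ) := by
  rw [Finset.sum_range_reflect (fun i => ((r + i).choose r : ℤ)) j]
  induction j with
  | zero => simp
  | succ n ih =>
    rw [Finset.sum_range_succ, ih]
    have := Nat.choose_succ_succ (r + n) r
    push_cast [← Nat.add_assoc] at this ⊢
    rw [Nat.succ_eq_add_one] at this
    rw [this]
    push_cast
    ring

theorem base (r j : ℕ) :
    (j : ℤ) * ((r + j).choose r : ℤ) = ((r : ℤ) + 1) *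
      ∑ t ∈ Finset.range j, ((r + (j - 1 - t)).choose r : ℤ) := by
  rw [hockey]
  have h := Nat.choose_succ_right_eq (r + j) r
  have h2 : r + j - r = j := by omega
  rw [h2] at h
  have h3 : (((r + j).choose (r + 1) * (r + 1) : ℕ) : ℤ) = (((r + j).choose r * j : ℕ) : ℤ) := by
    rw [h]
  push_cast at h3
  linarith

/-- Telescoping over the multiples of `c`. -/
theorem tele (c : ℕ) (hc : 1 ≤ c) (F : ℕ → ℤ) (j : ℕ) :
    ∑ t ∈ Finset.range j, (if c ∣ t + 1 then
      (F (j - 1 - t) - (if c ≤ j - 1 - t then F (j - 1 - t - c) else 0)) else 0) =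
      if c ≤ j then F (j - c) else 0 := by
  induction j using Nat.strong_induction_on with
  | _ j ih =>
    by_cases hcj : c ≤ j
    · obtain ⟨m, rfl⟩ := Nat.exists_eq_add_of_le hcj
      rw [if_pos hcj, Finset.sum_range_add]
      have h1 : ∑ x ∈ Finset.range c, (if c ∣ x + 1 then
          (F (c + m - 1 - x) - (if c ≤ c + m - 1 - x then F (c + m - 1 - x - c) else 0)) else 0)
          = F m - (if c ≤ m then F (m - c) else 0) := by
        rw [Finset.sum_eq_single (c - 1)]
        · have h2 : c - 1 + 1 = c := by omega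
          have h3 : c + m - 1 - (c - 1) = m := by omega
          rw [h2, if_pos (dvd_refl c), h3]
        · intro b hb hbc
          have hb' := Finset.mem_range.1 hb
          rw [if_neg]
          intro hd
          have := Nat.le_of_dvd (Nat.succ_pos b) hd
          omega
        · intro h
          exact absurd (Finset.mem_range.2 (by omega)) h
      rw [h1]
      have h4 : ∑ x ∈ Finset.range m, (if c ∣ c + x + 1 then
          (F (c + m - 1 - (c + x)) - (if c ≤ c + m - 1 - (c + x) then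
            F (c + m - 1 - (c + x) - c) else 0)) else 0)
          = if c ≤ m then F (m - c) else 0 := by
        rw [← ih m (by omega)]
        refine Finset.sum_congr rfl fun x hx => ?_
        have h5 : c + m - 1 - (c + x) = m - 1 - x := by omega
        have h6 : (c ∣ c + x + 1) ↔ (c ∣ x + 1) := by
          rw [Nat.add_assoc]
          exact Nat.dvd_add_right (dvd_refl c)
        rw [h5]
        simp only [h6]
      rw [h4]
      have h7 : c + m - c = m := by omega
      rw [h7]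
      ring
    · rw [if_neg hcj]
      refine Finset.sum_eq_zero fun t ht => ?_
      have ht' := Finset.mem_range.1 ht
      rw [if_neg]
      intro hd
      have := Nat.le_of_dvd (Nat.succ_pos t) hd
      omega

end FroAX

/-- The logarithmic derivative recursion. -/
theorem fro_rec {P : Type} (r : ℕ) (e : P → ℕ) (I : Finset P) (he : ∀ i ∈ I, 1 ≤ e i) (j : ℕ) :
    (j : ℤ) * fro r e I j = ∑ t ∈ Finset.range j,
      (((r : ℤ) + 1) - ∑ i ∈ I.filter (fun i => e i ∣ t + 1), (e i : ℤ)) *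
        fro r e I (j - 1 - t) := by
  induction I using Finset.induction_on generalizing j with
  | empty =>
    simp only [FroAX.fro_empty, Finset.filter_empty, Finset.sum_empty, sub_zero]
    rw [FroAX.base, Finset.mul_sum]
  | insert a s ha ih =>
    have he' : ∀ i ∈ s, 1 ≤ e i := fun i hi => he i (Finset.mem_insert_of_mem hi)
    have hea : 1 ≤ e a := he a (Finset.mem_insert_self a s)
    have ih' := ih he'
    set L : ℕ → ℤ := fun t => (((r : ℤ) + 1) - ∑ i ∈ s.filter (fun i => e i ∣ t + 1), (e i : ℤ))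
      with hL
    have hfil : ∀ t, (((r : ℤ) + 1) - ∑ i ∈ (insert a s).filter (fun i => e i ∣ t + 1),
        (e i : ℤ)) = L t - (if e a ∣ t + 1 then (e a : ℤ) else 0) := by
      intro t
      rw [Finset.filter_insert]
      by_cases hd : e a ∣ t + 1
      · rw [if_pos hd, if_pos hd, Finset.sum_insert]
        · simp only [hL]
          ring
        · intro h
          exact ha (Finset.mem_filter.1 h).1
      · rw [if_neg hd, if_neg hd, sub_zero]
    have hins : ∀ j, fro r e (insert a s) j =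
        fro r e s j - (if e a ≤ j then fro r e s (j - e a) else 0) :=
      fun j => fro_insert r e s a ha j
    have hsum : ∑ t ∈ Finset.range j,
        (((r : ℤ) + 1) - ∑ i ∈ (insert a s).filter (fun i => e i ∣ t + 1), (e i : ℤ)) *
          fro r e (insert a s) (j - 1 - t) =
        ∑ t ∈ Finset.range j, L t * fro r e s (j - 1 - t) -
        ∑ t ∈ Finset.range j, L t * (if e a ≤ j - 1 - t then fro r e s (j - 1 - t - e a) else 0) -
        (e a : ℤ) * ∑ t ∈ Finset.range j, (if e a ∣ t + 1 then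
          (fro r e s (j - 1 - t) - (if e a ≤ j - 1 - t then fro r e s (j - 1 - t - e a) else 0))
            else 0) := by
      rw [Finset.mul_sum, ← Finset.sum_sub_distrib, ← Finset.sum_sub_distrib]
      refine Finset.sum_congr rfl fun t _ => ?_
      rw [hfil, hins]
      by_cases hd : e a ∣ t + 1
      · rw [if_pos hd, if_pos hd]
        ring
      · rw [if_neg hd, if_neg hd]
        ring
    rw [hsum, FroAX.tele (e a) hea, ← ih' j, hins]
    have hmid : ∑ t ∈ Finset.range j,
        L t * (if e a ≤ j - 1 - t then fro r e s (j - 1 - t - e a) else 0) =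
        if e a ≤ j then ((j - e a : ℕ) : ℤ) * fro r e s (j - e a) else 0 := by
      by_cases haj : e a ≤ j
      · rw [if_pos haj, ih' (j - e a)]
        obtain ⟨m, rfl⟩ := Nat.exists_eq_add_of_le haj
        have h7 : e a + m - e a = m := by omega
        rw [h7, Nat.add_comm (e a) m, Finset.sum_range_add]
        have h8 : ∑ x ∈ Finset.range (e a), L (m + x) * (if e a ≤ m + e a - 1 - (m + x) then
            fro r e s (m + e a - 1 - (m + x) - e a) else 0) = 0 := by
          refine Finset.sum_eq_zero fun x hx => ?_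
          rw [if_neg (by omega), mul_zero]
        rw [h8, add_zero]
        refine Finset.sum_congr rfl fun t ht => ?_
        have ht' := Finset.mem_range.1 ht
        have h9 : e a ≤ m + e a - 1 - t := by omega
        have h10 : m + e a - 1 - t - e a = m - 1 - t := by omega
        rw [if_pos h9, h10]
      · rw [if_neg haj]
        refine Finset.sum_eq_zero fun t ht => ?_
        have ht' := Finset.mem_range.1 ht
        rw [if_neg (by omega), mul_zero]
    rw [hmid]
    by_cases haj : e a ≤ j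
    · rw [if_pos haj, if_pos haj, Nat.cast_sub haj]
      ring
    · rw [if_neg haj, if_neg haj]
      ring

end Pool.Agent.H21.HD

end

section

/-!
Further lemmas on `fro`.
-/

namespace Pool.Agent.H21.HD

open scoped Classical

lemma fro_zero {P : Type} (r : ℕ) (e : P → ℕ) (I : Finset P) (he : ∀ i ∈ I, 1 ≤ e i) :
    fro r e I 0 = 1 := by
  unfold fro
  rw [Finset.sum_eq_single ∅]
  · simp
  · intro T hT hne
    obtain ⟨i, hi⟩ := Finset.nonempty_iff_ne_empty.2 hne
    rw [if_neg, mul_zero]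
    have h2 : e i ≤ ∑ i ∈ T, e i := Finset.single_le_sum (fun _ _ => Nat.zero_le _) hi
    have h3 := he i (Finset.mem_powerset.1 hT hi)
    omega
  · intro h2
    exact absurd (Finset.empty_mem_powerset I) h2

lemma fro_map {P R : Type} (r : ℕ) (f : P ↪ R) (e : R → ℕ) (I : Finset P) (j : ℕ) :
    fro r e (I.map f) j = fro r (fun p => e (f p)) I j := by
  induction I using Finset.induction_on generalizing j with
  | empty => simp [fro]
  | insert a s ha ih =>
    rw [Finset.map_insert, fro_insert r e _ _ (by simpa using ha), fro_insert r _ s a ha, ih]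
    simp only [ih]

/-- Adding simple points. -/
lemma fro_simple {P : Type} (r d : ℕ) (e : P → ℕ) (I S : Finset P) (hd : Disjoint I S)
    (he : ∀ i ∈ I, 1 ≤ e i) (hd1 : 1 ≤ d) (hS : ∀ i ∈ S, e i = d) :
    fro r e (I ∪ S) d = fro r e I d - S.card := by
  induction S using Finset.induction_on with
  | empty => simp
  | insert a s ha ih =>
    have h1 : a ∉ I := fun h => (Finset.disjoint_left.1 hd h) (Finset.mem_insert_self a s)
    have h2 : a ∉ I ∪ s := by
      rw [Finset.mem_union]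
      tauto
    have h3 : Disjoint I s := hd.mono_right (Finset.subset_insert a s)
    have h4 : ∀ i ∈ s, e i = d := fun i hi => hS i (Finset.mem_insert_of_mem hi)
    rw [Finset.union_insert, fro_insert r e _ a h2, ih h3 h4, hS a (Finset.mem_insert_self a s),
      if_pos le_rfl, Nat.sub_self, fro_zero, Finset.card_insert_of_notMem ha]
    · push_cast
      ring
    · intro i hi
      rcases Finset.mem_union.1 hi with h5 | h5
      · exact he i h5
      · rw [h4 i h5]
        exact hd1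

/-- Points with large exponents do not contribute. -/
lemma fro_union_large {P : Type} (r j : ℕ) (e : P → ℕ) (I S : Finset P) (hd : Disjoint I S)
    (hS : ∀ i ∈ S, j < e i) : fro r e (I ∪ S) j = fro r e I j := by
  induction S using Finset.induction_on with
  | empty => simp
  | insert a s ha ih =>
    have h1 : a ∉ I := fun h => (Finset.disjoint_left.1 hd h) (Finset.mem_insert_self a s)
    have h2 : a ∉ I ∪ s := by
      rw [Finset.mem_union]
      tauto
    rw [Finset.union_insert, fro_insert r e _ a h2, ih (hd.mono_right (Finset.subset_insert a s))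
      fun i hi => hS i (Finset.mem_insert_of_mem hi), if_neg, sub_zero]
    have := hS a (Finset.mem_insert_self a s)
    omega

end Pool.Agent.H21.HD

end

section

/-!
# Module Arith: arithmetic for the Horace steps
-/

namespace Pool.Agent.H21.NX

/-- There are enough points. `E0 = ell s S`, `Z` is the length of the other conditions. -/
theorem fit_arith (s S B μ α ρ f τ Z E0 F0 Eμ Fμ : ℕ) (h1 : (μ + s) * Eμ = (s + 1) * Fμ)
    (h2 : (S + s) * E0 = (s + 1) * F0) (h3 : F0 ≤ Z + f * Fμ) (h4 : (s + 1) * Z ≤ (B + s) * τ)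
    (h5 : α * Eμ + ρ + τ = E0) (h6 : μ ≤ B) (h7 : B + 1 ≤ S)
    (h8 : 4 * ((B + s) * (ρ * Eμ)) ≤ E0) (h9 : 0 < E0) : α + ρ ≤ f := by
  by_contra hcon
  have h10 : f ≤ α + ρ := by omega
  have e1 : (s + 1) * (f * Fμ) ≤ (B + s) * (α * Eμ + ρ * Eμ) := by
    calc (s + 1) * (f * Fμ) = f * ((s + 1) * Fμ) := by ring
      _ = f * ((μ + s) * Eμ) := by rw [h1]
      _ ≤ (α + ρ) * ((B + s) * Eμ) := by
          refine Nat.mul_le_mul h10 (Nat.mul_le_mul_right _ (by omega))
      _ = (B + s) * (α * Eμ + ρ * Eμ) := by ring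
  have e2 : (S + s) * E0 ≤ (B + s) * τ + (B + s) * (α * Eμ + ρ * Eμ) := by
    calc (S + s) * E0 = (s + 1) * F0 := h2
      _ ≤ (s + 1) * (Z + f * Fμ) := Nat.mul_le_mul_left _ h3
      _ = (s + 1) * Z + (s + 1) * (f * Fμ) := by ring
      _ ≤ _ := Nat.add_le_add h4 e1
  have e3 : (B + s) * τ + (B + s) * (α * Eμ + ρ * Eμ) ≤ (B + s) * E0 + (B + s) * (ρ * Eμ) := by
    rw [← Nat.mul_add, ← Nat.mul_add]
    refine Nat.mul_le_mul_left _ ?_
    omega
  have e4 : (B + s) * E0 + E0 ≤ (S + s) * E0 := by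
    calc (B + s) * E0 + E0 = (B + 1 + s) * E0 := by ring
      _ ≤ (S + s) * E0 := Nat.mul_le_mul_right _ (by omega)
  omega

/-- The bound `4 (B + s) ρ Eμ ≤ E0` from the numerical conditions. `E1 = ell s (S - 1)`. -/
theorem room_arith (d s S B ρ E0 E1 Eμ : ℕ) (h1 : E1 * (S - 1 + s) = E0 * (S - 1))
    (h2 : 4 * (d + 1) * (ρ * Eμ) ≤ E1) (h3 : B + 1 ≤ S) (h4 : S ≤ d + 1) (h5 : 2 ≤ S) :
    4 * ((B + s) * (ρ * Eμ)) ≤ E0 := by
  have h6 : 0 < S - 1 := by omega
  refine Nat.le_of_mul_le_mul_right ?_ h6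
  calc 4 * ((B + s) * (ρ * Eμ)) * (S - 1) = (B + s) * (4 * (S - 1) * (ρ * Eμ)) := by ring
    _ ≤ (S - 1 + s) * (4 * (d + 1) * (ρ * Eμ)) := by
        refine Nat.mul_le_mul (by omega) (Nat.mul_le_mul_right _ (by omega))
    _ ≤ (S - 1 + s) * E1 := Nat.mul_le_mul_left _ h2
    _ = E0 * (S - 1) := by rw [← h1]; ring

/-- The load after a step. -/
theorem load_arith (d s x S τ' R E0 E1 : ℕ) (h1 : E1 * (S - 1 + s) = E0 * (S - 1))
    (h2 : (x + s) * τ' ≤ x * E0 + (x + s) * R) (h3 : 4 * (d + 1) * R ≤ E1) (h4 : x + 2 ≤ S)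
    (h5 : S ≤ d + 1) (h6 : d + 1 ≤ s) : 4 * (d + 1) * τ' ≤ (4 * (d + 1) - 1) * E1 := by
  obtain ⟨k, rfl⟩ : ∃ k, S = k + 1 := ⟨S - 1, by omega⟩
  rw [Nat.add_sub_cancel] at h1
  have hk : 0 < k := by omega
  have hxs : 0 < x + s := by omega
  have hpos : 0 < k * (x + s) := Nat.mul_pos hk hxs
  refine Nat.le_of_mul_le_mul_left ?_ hpos
  have e1 : k * (x + s) * (4 * (d + 1) * τ') ≤
      4 * (d + 1) * (x * (k + s)) * E1 + k * (x + s) * E1 := by
    calc k * (x + s) * (4 * (d + 1) * τ') = 4 * (d + 1) * k * ((x + s) * τ') := by ring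
      _ ≤ 4 * (d + 1) * k * (x * E0 + (x + s) * R) := Nat.mul_le_mul_left _ h2
      _ = 4 * (d + 1) * x * (E0 * k) + k * (x + s) * (4 * (d + 1) * R) := by ring
      _ = 4 * (d + 1) * x * (E1 * (k + s)) + k * (x + s) * (4 * (d + 1) * R) := by rw [h1]
      _ ≤ 4 * (d + 1) * x * (E1 * (k + s)) + k * (x + s) * E1 :=
          Nat.add_le_add_left (Nat.mul_le_mul_left _ h3) _
      _ = _ := by ring
  have e2 : 4 * (d + 1) * (x * (k + s)) + 2 * (k * (x + s)) ≤ 4 * (d + 1) * (k * (x + s)) := by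
    obtain ⟨j, rfl⟩ : ∃ j, k = x + 1 + j := ⟨k - x - 1, by omega⟩
    have e3 : 2 * ((x + 1 + j) * (x + s)) ≤ 4 * (d + 1) * (s * (j + 1)) := by
      calc 2 * ((x + 1 + j) * (x + s)) ≤ 2 * ((d + 1) * (s + s)) := by
            refine Nat.mul_le_mul_left _ (Nat.mul_le_mul (by omega) (by omega))
        _ = 4 * (d + 1) * (s * 1) := by ring
        _ ≤ _ := Nat.mul_le_mul_left _ (Nat.mul_le_mul_left _ (by omega))
    calc 4 * (d + 1) * (x * (x + 1 + j + s)) + 2 * ((x + 1 + j) * (x + s)) ≤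
        4 * (d + 1) * (x * (x + 1 + j + s)) + 4 * (d + 1) * (s * (j + 1)) :=
          Nat.add_le_add_left e3 _
      _ = 4 * (d + 1) * ((x + 1 + j) * (x + s)) := by ring
  refine le_trans e1 ?_
  obtain ⟨K, hK⟩ : ∃ K, 4 * (d + 1) = K + 1 := ⟨4 * (d + 1) - 1, by omega⟩
  rw [hK] at e2 ⊢
  rw [Nat.add_sub_cancel]
  have e4 : (K + 1) * (x * (k + s)) + k * (x + s) ≤ K * (k * (x + s)) := by nlinarith
  calc (K + 1) * (x * (k + s)) * E1 + k * (x + s) * E1 =
      ((K + 1) * (x * (k + s)) + k * (x + s)) * E1 := by ring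
    _ ≤ (K * (k * (x + s))) * E1 := Nat.mul_le_mul_right _ e4
    _ = k * (x + s) * (K * E1) := by ring

/-- The number of the remaining points at the end. -/
theorem rest_arith (s S B f τ Z E0 F0 Fμ K : ℕ) (h2 : (S + s) * E0 = (s + 1) * F0)
    (h3 : F0 ≤ Z + f * Fμ) (h4 : (s + 1) * Z ≤ (B + s) * τ) (h5 : (K + 1) * τ ≤ K * E0)
    (h6 : B ≤ S) (h7 : 1 ≤ B) : E0 ≤ (K + 1) * (f * Fμ) := by
  have h8 : 0 < s + 1 := by omega
  refine Nat.le_of_mul_le_mul_left ?_ h8
  have e1 : (K + 1) * ((S + s) * E0) ≤ (B + s) * (K * E0) + (K + 1) * ((s + 1) * (f * Fμ)) := by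
    calc (K + 1) * ((S + s) * E0) = (K + 1) * ((s + 1) * F0) := by rw [h2]
      _ ≤ (K + 1) * ((s + 1) * (Z + f * Fμ)) :=
          Nat.mul_le_mul_left _ (Nat.mul_le_mul_left _ h3)
      _ = (K + 1) * ((s + 1) * Z) + (K + 1) * ((s + 1) * (f * Fμ)) := by ring
      _ ≤ (K + 1) * ((B + s) * τ) + (K + 1) * ((s + 1) * (f * Fμ)) :=
          Nat.add_le_add_right (Nat.mul_le_mul_left _ h4) _
      _ = (B + s) * ((K + 1) * τ) + (K + 1) * ((s + 1) * (f * Fμ)) := by ring
      _ ≤ _ := Nat.add_le_add_right (Nat.mul_le_mul_left _ h5) _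
  have e2 : (B + s) * (K * E0) + (B + s) * E0 ≤ (K + 1) * ((S + s) * E0) := by
    calc (B + s) * (K * E0) + (B + s) * E0 = (K + 1) * ((B + s) * E0) := by ring
      _ ≤ _ := Nat.mul_le_mul_left _ (Nat.mul_le_mul_right _ (by omega))
  have e3 : (s + 1) * E0 ≤ (B + s) * E0 := Nat.mul_le_mul_right _ (by omega)
  calc (s + 1) * E0 ≤ (K + 1) * ((s + 1) * (f * Fμ)) := by omega
    _ = (s + 1) * ((K + 1) * (f * Fμ)) := by ring

end Pool.Agent.H21.NX

end

section

/-!
# Module NumA: upper and lower bounds for `ell`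

`ell n c = binom(c + n - 1, n) = binom(c + n - 1, c - 1)` for `c ≥ 1` (`Nat.choose_symm_diff`);
`Nat.choose_le_pow`, `Nat.pow_le_choose` (or `Nat.pow_sub_le_descFactorial`,
`Nat.choose_eq_descFactorial_div_factorial`; or induction with `ell_mul_add`-type identities).
-/

namespace Pool.Agent.H21.NX

open Pool.Agent.H18.Ex

private theorem numA_ell_eq (s k : ℕ) : ell s (k + 1) = (k + s).choose k := by
  unfold ell
  rw [show k + 1 + s - 1 = k + s by omega, Nat.choose_symm_add]

private theorem numA_choose_le (n k : ℕ) : n.choose k ≤ n ^ k := by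
  have h1 : n.choose k ≤ n.descFactorial k := by
    rw [Nat.descFactorial_eq_factorial_mul_choose]
    exact Nat.le_mul_of_pos_left _ (Nat.factorial_pos k)
  exact h1.trans (Nat.descFactorial_le_pow n k)

private theorem numA_le_choose (n k : ℕ) : (n + 1 - k) ^ k ≤ (k + 1) ^ (k + 1) * n.choose k := by
  have h1 := Nat.pow_sub_le_descFactorial n k
  rw [Nat.descFactorial_eq_factorial_mul_choose] at h1
  refine h1.trans (Nat.mul_le_mul_right _ ?_)
  calc k.factorial ≤ (k + 1).factorial := Nat.factorial_le (Nat.le_succ k)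
    _ ≤ (k + 1) ^ (k + 1) := Nat.factorial_le_pow (k + 1)

theorem ell_le_pow (s c : ℕ) (hc : 1 ≤ c) (h : c ≤ s) : ell s c ≤ (2 * s) ^ (c - 1) := by
  obtain ⟨k, rfl⟩ : ∃ k, c = k + 1 := ⟨c - 1, by omega⟩
  rw [numA_ell_eq, Nat.add_sub_cancel]
  exact (numA_choose_le _ _).trans (Nat.pow_le_pow_left (by omega) _)

theorem ell_succ_le_pow (s c : ℕ) (hc : 1 ≤ c) (h : c ≤ s) :
    ell (s + 1) c ≤ (2 * s) ^ (c - 1) := by
  obtain ⟨k, rfl⟩ : ∃ k, c = k + 1 := ⟨c - 1, by omega⟩
  rw [numA_ell_eq, Nat.add_sub_cancel]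
  exact (numA_choose_le _ _).trans (Nat.pow_le_pow_left (by omega) _)

theorem pow_le_ell (s c : ℕ) (hc : 1 ≤ c) : s ^ (c - 1) ≤ c ^ c * ell s c := by
  obtain ⟨k, rfl⟩ : ∃ k, c = k + 1 := ⟨c - 1, by omega⟩
  rw [numA_ell_eq, Nat.add_sub_cancel]
  refine le_trans (Nat.pow_le_pow_left ?_ _) (numA_le_choose (k + s) k)
  omega

theorem pow_le_ell_succ (s c : ℕ) (hc : 1 ≤ c) : s ^ (c - 1) ≤ c ^ c * ell (s + 1) c := by
  obtain ⟨k, rfl⟩ : ∃ k, c = k + 1 := ⟨c - 1, by omega⟩
  rw [numA_ell_eq, Nat.add_sub_cancel]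
  refine le_trans (Nat.pow_le_pow_left ?_ _) (numA_le_choose (k + (s + 1)) k)
  omega

end Pool.Agent.H21.NX

end

section

/-!
# Module D9 (TB): the Diophantine system

The unknowns are integers `z s ρ` (`ρ < μ`, `s + ρ + 1 ≤ d`).  `z s ρ` contributes
`z s ρ * v s ρ` to the positions `j` with `s ≤ j ≤ s + ρ` (`j < d`).

Step 1.  `z₁ s 0 = P s / v s 0` (integer division), so that the remaining `P' s = P s - z₁ s 0 * v s 0`
is in `[0, v s 0) ⊂ [0, B)`, `|z₁ s 0| ≤ E + 1` (indeed `≤ E` if `E ≥ 1`).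

Step 2 (`μ ≥ 2`; for `μ = 1` step 1 is the solution since `v s 0 = 1`).  For a vector `Q` (on
`[0, d)`) let `Q^i = ∑_{j ≡ i mod μ} Q j`, `0 ≤ i < μ`.  Choose `x t ∈ [0, q)`, `t = 1, …, μ - 1`, with
`x t * v 0 (μ - 1 - t) ≡ P'^(μ - 1 - t) - P'^(μ - t) (mod q)` (`hcop`), and subtract
`x t * v 0 (μ - 1 - t)` on the positions `[0, μ - 1 - t]`.  Then all `Q^i` are congruent mod `q`:
the vector subtracted for `t` changes `Q^i - Q^(i+1)` only for `i = μ - 1 - t`.
Step 3.  Subtract unit windows `[s, s + μ - 1]` (`z s (μ - 1)`, `v = 1`) from the right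
(`s = d - μ, …, 0`) such that the entries `j ≥ μ - 1` become zero; this does not change the differences
`Q^i - Q^(i')`.  The remaining entries `r i`, `i < μ - 1`, are `Q^i - Q^(μ-1)`, hence divisible by `q`.
Step 4.  `q * 1_{i} = q * 1_{[i, i + μ - 1]} - q * 1_{[i + 1, i + μ - 1]}`: use `z i (μ - 1)` and
`z (i + 1) (μ - 2)` (`v = q`, `1 ≤ i + 1`, `i + 1 + μ ≤ d`).
All coefficients are bounded by a constant (depending on `d`) times `q * B`.
(If `(s, ρ)` is used in several steps the values are added.)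
-/

namespace Pool.Agent.H51.TB

open Finset

/-- `f` is represented on `[0, d)` with coefficients bounded by `C` -/
private def Solve_Rep (d μ : ℕ) (v : ℕ → ℕ → ℤ) (C : ℤ) (f : ℕ → ℤ) : Prop :=
  ∃ z : ℕ → ℕ → ℤ, (∀ s ρ, |z s ρ| ≤ C) ∧
    ∀ j < d, f j = ∑ s ∈ range d, ∑ ρ ∈ range μ,
      if s ≤ j ∧ j ≤ s + ρ ∧ s + ρ + 1 ≤ d then z s ρ * v s ρ else 0

private theorem Solve_mono {d μ : ℕ} {v : ℕ → ℕ → ℤ} {C C' : ℤ} {f : ℕ → ℤ}
    (h : Solve_Rep d μ v C f) (hC : C ≤ C') : Solve_Rep d μ v C' f := by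
  obtain ⟨z, h1, h2⟩ := h
  exact ⟨z, fun s ρ => (h1 s ρ).trans hC, h2⟩

private theorem Solve_congr {d μ : ℕ} {v : ℕ → ℕ → ℤ} {C : ℤ} {f g : ℕ → ℤ}
    (h : Solve_Rep d μ v C f) (hfg : ∀ j < d, g j = f j) : Solve_Rep d μ v C g := by
  obtain ⟨z, h1, h2⟩ := h
  exact ⟨z, h1, fun j hj => (hfg j hj).trans (h2 j hj)⟩

private theorem Solve_zero (d μ : ℕ) (v : ℕ → ℕ → ℤ) : Solve_Rep d μ v 0 (fun _ => 0) := by
  refine ⟨fun _ _ => 0, fun s ρ => by simp, fun j _ => ?_⟩
  simp

private theorem Solve_add {d μ : ℕ} {v : ℕ → ℕ → ℤ} {C C' : ℤ} {f g : ℕ → ℤ}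
    (h : Solve_Rep d μ v C f) (h' : Solve_Rep d μ v C' g) :
    Solve_Rep d μ v (C + C') (fun j => f j + g j) := by
  obtain ⟨z, h1, h2⟩ := h
  obtain ⟨z', h1', h2'⟩ := h'
  refine ⟨fun s ρ => z s ρ + z' s ρ, fun s ρ => ?_, fun j hj => ?_⟩
  · exact (abs_add_le _ _).trans (add_le_add (h1 s ρ) (h1' s ρ))
  · simp only
    rw [h2 j hj, h2' j hj, ← Finset.sum_add_distrib]
    refine Finset.sum_congr rfl fun s _ => ?_
    rw [← Finset.sum_add_distrib]
    refine Finset.sum_congr rfl fun ρ _ => ?_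
    split_ifs
    · ring
    · ring

private theorem Solve_sum {d μ : ℕ} {v : ℕ → ℕ → ℤ} (S : Finset ℕ) (C : ℕ → ℤ)
    (f : ℕ → ℕ → ℤ) (h : ∀ i ∈ S, Solve_Rep d μ v (C i) (f i)) :
    Solve_Rep d μ v (∑ i ∈ S, C i) (fun j => ∑ i ∈ S, f i j) := by
  classical
  induction S using Finset.induction_on with
  | empty => simpa using Solve_zero d μ v
  | insert a S ha ih =>
    have h1 := h a (Finset.mem_insert_self a S)
    have h2 := ih fun i hi => h i (Finset.mem_insert_of_mem hi)
    have h3 := Solve_add h1 h2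
    rw [Finset.sum_insert ha]
    refine Solve_congr h3 fun j _ => ?_
    rw [Finset.sum_insert ha]

private theorem Solve_basic {d μ : ℕ} (v : ℕ → ℕ → ℤ) {s0 ρ0 : ℕ} (hρ : ρ0 < μ)
    (hs : s0 + ρ0 + 1 ≤ d) (x : ℤ) :
    Solve_Rep d μ v |x| (fun j => if s0 ≤ j ∧ j ≤ s0 + ρ0 then x * v s0 ρ0 else 0) := by
  refine ⟨fun s ρ => if s = s0 ∧ ρ = ρ0 then x else 0, fun s ρ => ?_, fun j _ => ?_⟩
  · simp only
    split_ifs
    · exact le_rfl
    · rw [abs_zero]
      exact abs_nonneg x
  · rw [Finset.sum_eq_single s0, Finset.sum_eq_single ρ0]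
    · simp only [if_true, and_self]
      by_cases h : s0 ≤ j ∧ j ≤ s0 + ρ0
      · rw [if_pos h, if_pos ⟨h.1, h.2, hs⟩]
      · rw [if_neg h, if_neg fun h' => h ⟨h'.1, h'.2.1⟩]
    · intro ρ _ hne
      beta_reduce
      rw [if_neg (fun h' : s0 = s0 ∧ ρ = ρ0 => hne h'.2), zero_mul, ite_self]
    · intro h
      exact absurd (Finset.mem_range.2 hρ) h
    · intro s _ hne
      refine Finset.sum_eq_zero fun ρ _ => ?_
      beta_reduce
      rw [if_neg (fun h' : s = s0 ∧ ρ = ρ0 => hne h'.1), zero_mul, ite_self]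
    · intro h
      exact absurd (Finset.mem_range.2 (by omega)) h

/-- unit windows -/
private theorem Solve_win {d μ : ℕ} (hμ : 1 ≤ μ) {v : ℕ → ℕ → ℤ}
    (hv : ∀ s, s + μ ≤ d → v s (μ - 1) = 1) {s0 : ℕ} (hs : s0 + μ ≤ d) (x : ℤ) :
    Solve_Rep d μ v |x| (fun j => if s0 ≤ j ∧ j < s0 + μ then x else 0) := by
  refine Solve_congr (Solve_basic v (show μ - 1 < μ by omega) (show s0 + (μ - 1) + 1 ≤ d by omega) x)
    fun j _ => ?_
  rw [hv s0 hs, mul_one]
  by_cases h : s0 ≤ j ∧ j < s0 + μ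
  · rw [if_pos h, if_pos ⟨h.1, by omega⟩]
  · rw [if_neg h, if_neg fun h' => h ⟨h'.1, by omega⟩]

private theorem Solve_shift {d μ : ℕ} (hμ : 1 ≤ μ) {v : ℕ → ℕ → ℤ}
    (hv : ∀ s, s + μ ≤ d → v s (μ - 1) = 1) {j0 : ℕ} (h1 : μ ≤ j0) (h2 : j0 < d) (x : ℤ) :
    Solve_Rep d μ v (2 * |x|) (fun j => (if j = j0 then x else 0) -
      (if j = j0 - μ then x else 0)) := by
  have h3 := Solve_add (Solve_win hμ hv (show j0 - μ + 1 + μ ≤ d by omega) x)
    (Solve_win hμ hv (show j0 - μ + μ ≤ d by omega) (-x))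
  rw [abs_neg, ← two_mul] at h3
  refine Solve_congr h3 fun j _ => ?_
  by_cases e1 : j = j0
  · rw [if_pos e1, if_neg (by omega), if_pos (by omega), if_neg (by omega)]
    ring
  · by_cases e2 : j = j0 - μ
    · rw [if_neg e1, if_pos e2, if_neg (by omega), if_pos (by omega)]
      ring
    · rw [if_neg e1, if_neg e2]
      by_cases e3 : j0 - μ + 1 ≤ j ∧ j < j0 - μ + 1 + μ
      · rw [if_pos e3, if_pos (by omega)]
        ring
      · rw [if_neg e3, if_neg (by omega)]
        ring

private theorem Solve_mod {d μ : ℕ} (hμ : 1 ≤ μ) {v : ℕ → ℕ → ℤ}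
    (hv : ∀ s, s + μ ≤ d → v s (μ - 1) = 1) (x : ℤ) (j0 : ℕ) (h2 : j0 < d) :
    Solve_Rep d μ v (2 * j0 * |x|) (fun j => (if j = j0 then x else 0) -
      (if j = j0 % μ then x else 0)) := by
  induction j0 using Nat.strong_induction_on with
  | _ j0 ih =>
    rcases Nat.lt_or_ge j0 μ with h | h
    · refine Solve_mono (Solve_congr (Solve_zero d μ v) fun j _ => ?_) (by positivity)
      rw [Nat.mod_eq_of_lt h, sub_self]
    · have h3 := Solve_add (Solve_shift hμ hv h h2 x) (ih (j0 - μ) (by omega) (by omega))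
      refine Solve_mono (Solve_congr h3 fun j _ => ?_) ?_
      · rw [Nat.mod_eq_sub_mod h]
        ring
      · have e1 : ((j0 - μ : ℕ) : ℤ) + 1 ≤ (j0 : ℤ) := by omega
        have e2 : (((j0 - μ : ℕ) : ℤ) + 1) * |x| ≤ (j0 : ℤ) * |x| :=
          mul_le_mul_of_nonneg_right e1 (abs_nonneg x)
        linarith

/-- the class sums -/
private def Solve_cls (d μ : ℕ) (f : ℕ → ℤ) (i : ℕ) : ℤ :=
  ∑ j0 ∈ range d, if i = j0 % μ then f j0 else 0

private theorem Solve_fold {d μ : ℕ} (hμ : 1 ≤ μ) {v : ℕ → ℕ → ℤ}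
    (hv : ∀ s, s + μ ≤ d → v s (μ - 1) = 1) {f : ℕ → ℤ} {M : ℤ} (hf : ∀ j < d, |f j| ≤ M) :
    Solve_Rep d μ v (2 * d ^ 2 * M) (fun j => f j - Solve_cls d μ f j) := by
  have h1 := Solve_sum (range d) (fun j0 => 2 * j0 * |f j0|)
    (fun j0 j => (if j = j0 then f j0 else 0) - (if j = j0 % μ then f j0 else 0))
    (fun j0 hj0 => Solve_mod hμ hv (f j0) j0 (Finset.mem_range.1 hj0))
  refine Solve_mono (Solve_congr h1 fun j hj => ?_) ?_
  · rw [Finset.sum_sub_distrib, Finset.sum_ite_eq (range d) j f, if_pos (Finset.mem_range.2 hj)]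
    rfl
  · calc ∑ j0 ∈ range d, 2 * (j0 : ℤ) * |f j0| ≤ ∑ _j0 ∈ range d, 2 * (d : ℤ) * M := by
          refine Finset.sum_le_sum fun j0 hj0 => ?_
          have e1 := Finset.mem_range.1 hj0
          have e2 : (j0 : ℤ) ≤ d := by exact_mod_cast e1.le
          exact mul_le_mul (by linarith) (hf j0 e1) (abs_nonneg _) (by positivity)
      _ = 2 * d ^ 2 * M := by
          rw [Finset.sum_const, Finset.card_range, nsmul_eq_mul]
          ring

private theorem Solve_cls_le {d μ : ℕ} {f : ℕ → ℤ} {M : ℤ} (hM : 0 ≤ M)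
    (hf : ∀ j < d, |f j| ≤ M) (i : ℕ) : |Solve_cls d μ f i| ≤ d * M := by
  unfold Solve_cls
  refine (Finset.abs_sum_le_sum_abs _ _).trans ?_
  calc ∑ j0 ∈ range d, |if i = j0 % μ then f j0 else 0| ≤ ∑ _j0 ∈ range d, M := by
        refine Finset.sum_le_sum fun j0 hj0 => ?_
        split_ifs
        · exact hf j0 (Finset.mem_range.1 hj0)
        · rw [abs_zero]
          exact hM
    _ = d * M := by rw [Finset.sum_const, Finset.card_range, nsmul_eq_mul]

private theorem Solve_cls_sub (d μ : ℕ) (f g : ℕ → ℤ) (i : ℕ) :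
    Solve_cls d μ (fun j => f j - g j) i = Solve_cls d μ f i - Solve_cls d μ g i := by
  unfold Solve_cls
  rw [← Finset.sum_sub_distrib]
  refine Finset.sum_congr rfl fun j _ => ?_
  split_ifs
  · rfl
  · ring

private theorem Solve_cls_sum (d μ : ℕ) (S : Finset ℕ) (f : ℕ → ℕ → ℤ) (i : ℕ) :
    Solve_cls d μ (fun j => ∑ t ∈ S, f t j) i = ∑ t ∈ S, Solve_cls d μ (f t) i := by
  unfold Solve_cls
  rw [Finset.sum_comm]
  refine Finset.sum_congr rfl fun j _ => ?_
  split_ifs
  · rfl
  · rw [Finset.sum_const_zero]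

private theorem Solve_cls_ind {d μ i' k : ℕ} (h1 : i' < μ) (h2 : k < μ) (h3 : μ ≤ d) (x : ℤ) :
    Solve_cls d μ (fun j => if 0 ≤ j ∧ j ≤ 0 + i' then x else 0) k =
      if k ≤ i' then x else 0 := by
  unfold Solve_cls
  by_cases h : k ≤ i'
  · rw [if_pos h, Finset.sum_eq_single k]
    · rw [Nat.mod_eq_of_lt h2, if_pos rfl]
      beta_reduce
      rw [if_pos ⟨Nat.zero_le _, by omega⟩]
    · intro j _ hj
      by_cases h4 : j ≤ i'
      · rw [Nat.mod_eq_of_lt (by omega), if_neg (Ne.symm hj)]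
      · beta_reduce
        rw [if_neg (fun h' : 0 ≤ j ∧ j ≤ 0 + i' => h4 (by omega)), ite_self]
    · intro h'
      exact absurd (Finset.mem_range.2 (by omega)) h'
  · rw [if_neg h]
    refine Finset.sum_eq_zero fun j _ => ?_
    by_cases h4 : j ≤ i'
    · rw [Nat.mod_eq_of_lt (by omega), if_neg (by omega)]
    · beta_reduce
      rw [if_neg (fun h' : 0 ≤ j ∧ j ≤ 0 + i' => h4 (by omega)), ite_self]

/-- the points of the first period -/
private theorem Solve_point {d μ : ℕ} (hμ : 1 ≤ μ) (h2 : 2 * μ ≤ d) {v : ℕ → ℕ → ℤ} {q : ℤ}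
    (hq : 1 ≤ q) (hv : ∀ s, s + μ ≤ d → v s (μ - 1) = 1)
    (hvq : 2 ≤ μ → ∀ s, 1 ≤ s → s + μ ≤ d → v s (μ - 2) = q) {i : ℕ} (hi : i < μ - 1) {x : ℤ}
    (hx : q ∣ x) : Solve_Rep d μ v (2 * |x|) (fun j => if j = i then x else 0) := by
  obtain ⟨c, rfl⟩ := hx
  have h3 := Solve_add (Solve_win hμ hv (show i + μ ≤ d by omega) (q * c))
    (Solve_basic v (show μ - 2 < μ by omega) (show i + 1 + (μ - 2) + 1 ≤ d by omega) (-c))
  rw [hvq (by omega) (i + 1) (by omega) (by omega), abs_neg] at h3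
  refine Solve_mono (Solve_congr h3 fun j _ => ?_) ?_
  · by_cases e1 : j = i
    · rw [if_pos e1, if_pos (by omega), if_neg (by omega)]
      ring
    · rw [if_neg e1]
      by_cases e2 : i ≤ j ∧ j < i + μ
      · rw [if_pos e2, if_pos (by omega)]
        ring
      · rw [if_neg e2, if_neg (by omega)]
        ring
  · have e1 : |c| ≤ |q * c| := by
      rw [abs_mul, abs_of_nonneg (by linarith : (0 : ℤ) ≤ q)]
      nlinarith [abs_nonneg c]
    linarith

private theorem Solve_last {d μ : ℕ} (hμ : 1 ≤ μ) (h2 : 2 * μ ≤ d) {v : ℕ → ℕ → ℤ} {q : ℤ}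
    (hq : 1 ≤ q) (hv : ∀ s, s + μ ≤ d → v s (μ - 1) = 1)
    (hvq : 2 ≤ μ → ∀ s, 1 ≤ s → s + μ ≤ d → v s (μ - 2) = q) {f : ℕ → ℤ} {M : ℤ} (hM : 0 ≤ M)
    (hf : ∀ j < d, |f j| ≤ M)
    (hdvd : ∀ i < μ - 1, q ∣ Solve_cls d μ f i - Solve_cls d μ f (μ - 1)) :
    Solve_Rep d μ v (d * M + d * (2 * (2 * (d * M)))) (Solve_cls d μ f) := by
  have h1 := Solve_win hμ hv (show 0 + μ ≤ d by omega) (Solve_cls d μ f (μ - 1))
  have h3 := Solve_sum (range (μ - 1))
    (fun i => 2 * |Solve_cls d μ f i - Solve_cls d μ f (μ - 1)|)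
    (fun i j => if j = i then Solve_cls d μ f i - Solve_cls d μ f (μ - 1) else 0)
    (fun i hi => Solve_point hμ h2 hq hv hvq (Finset.mem_range.1 hi) (hdvd i (Finset.mem_range.1 hi)))
  refine Solve_mono (Solve_congr (Solve_add h1 h3) fun j _ => ?_) ?_
  · rw [Finset.sum_ite_eq (range (μ - 1)) j
      (fun i => Solve_cls d μ f i - Solve_cls d μ f (μ - 1))]
    by_cases e1 : j < μ - 1
    · rw [if_pos (Finset.mem_range.2 e1), if_pos (by omega)]
      ring
    · rw [if_neg (fun h => e1 (Finset.mem_range.1 h)), add_zero]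
      by_cases e2 : j = μ - 1
      · rw [if_pos (by omega), e2]
      · rw [if_neg (by omega)]
        unfold Solve_cls
        refine Finset.sum_eq_zero fun j0 _ => ?_
        have := Nat.mod_lt j0 (show 0 < μ by omega)
        rw [if_neg (by omega)]
  · have e1 := Solve_cls_le (μ := μ) hM hf (μ - 1)
    have e2 : ∑ i ∈ range (μ - 1), 2 * |Solve_cls d μ f i - Solve_cls d μ f (μ - 1)| ≤
        d * (2 * (2 * (d * M))) := by
      calc ∑ i ∈ range (μ - 1), 2 * |Solve_cls d μ f i - Solve_cls d μ f (μ - 1)|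
          ≤ ∑ _i ∈ range (μ - 1), 2 * (2 * (d * M)) := by
            refine Finset.sum_le_sum fun i _ => ?_
            have e3 := Solve_cls_le (μ := μ) hM hf i
            have e4 := abs_sub (Solve_cls d μ f i) (Solve_cls d μ f (μ - 1))
            linarith
        _ = ((μ - 1 : ℕ) : ℤ) * (2 * (2 * (d * M))) := by
            rw [Finset.sum_const, Finset.card_range, nsmul_eq_mul]
        _ ≤ d * (2 * (2 * (d * M))) := by
            have e5 : ((μ - 1 : ℕ) : ℤ) ≤ d := by omega
            exact mul_le_mul_of_nonneg_right e5 (by positivity)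
    exact add_le_add e1 e2

private theorem Solve_cop {a q : ℤ} (hq : 1 ≤ q) (h : IsCoprime a q) (b : ℤ) :
    ∃ y : ℤ, 0 ≤ y ∧ y < q ∧ q ∣ b - y * a := by
  obtain ⟨u, w, huw⟩ := h
  refine ⟨(u * b) % q, Int.emod_nonneg _ (by omega), Int.emod_lt_of_pos _ (by omega), ?_⟩
  refine ⟨b * w + (u * b / q) * a, ?_⟩
  have e1 := Int.emod_add_mul_ediv (u * b) q
  linear_combination (-b) * huw + (-a) * e1

theorem solve (d μ : ℕ) (hμ : 1 ≤ μ) (h2 : 2 * μ ≤ d) : ∃ K : ℕ, 1 ≤ K ∧
    ∀ (v : ℕ → ℕ → ℤ) (q B E : ℤ) (P : ℕ → ℤ), 1 ≤ q → 1 ≤ B →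
    (∀ s, s + μ ≤ d → v s (μ - 1) = 1) →
    (2 ≤ μ → ∀ s, 1 ≤ s → s + μ ≤ d → v s (μ - 2) = q) →
    (∀ t, 1 ≤ t → t < μ → IsCoprime (v 0 (μ - 1 - t)) q) →
    (∀ s < d, 1 ≤ v s 0) → (∀ s < d, ∀ ρ < μ, |v s ρ| ≤ B) →
    K * (q * B) ≤ E → (∀ s < d, |P s| ≤ E * v s 0) →
    ∃ z : ℕ → ℕ → ℤ, (∀ s ρ, |z s ρ| ≤ 2 * E) ∧
      ∀ j < d, P j = ∑ s ∈ range d, ∑ ρ ∈ range μ,
        if s ≤ j ∧ j ≤ s + ρ ∧ s + ρ + 1 ≤ d then z s ρ * v s ρ else 0 := by
  refine ⟨1 + d + d ^ 2 + 6 * d ^ 3, by omega, ?_⟩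
  intro v q B E P hq hB hv hvq hcop hv0 hvB hK hP
  show Solve_Rep d μ v (2 * E) P
  have hqB : 1 ≤ q * B := by nlinarith
  have hqB2 : B ≤ q * B := by nlinarith
  have hqB3 : q ≤ q * B := by nlinarith
  have hd1 : (1 : ℤ) ≤ d := by omega
  have hμd : (μ : ℤ) ≤ d := by omega
  have hE0 : 0 ≤ E := le_trans (by positivity) hK
  -- step 1
  obtain ⟨P', hP'⟩ : ∃ P' : ℕ → ℤ, P' = fun s => P s % v s 0 := ⟨_, rfl⟩
  have hP'B : ∀ j < d, |P' j| ≤ B := by
    intro j hj
    have h1 := hv0 j hj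
    have h3 := (le_abs_self _).trans (hvB j hj 0 (by omega))
    have h4 := Int.emod_nonneg (P j) (show v j 0 ≠ 0 by omega)
    have h5 := Int.emod_lt_of_pos (P j) (show 0 < v j 0 by omega)
    rw [hP']
    simp only
    rw [abs_of_nonneg h4]
    omega
  have hR1 : Solve_Rep d μ v E (fun j => P j - P' j) := by
    refine ⟨fun s ρ => if s < d ∧ ρ = 0 then P s / v s 0 else 0, fun s ρ => ?_, fun j hj => ?_⟩
    · simp only
      split_ifs with h
      · have h1 := hv0 s h.1
        have h3 := abs_le.1 (hP s h.1)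
        rw [abs_le]
        constructor
        · rw [Int.le_ediv_iff_mul_le (by omega)]
          linarith [h3.1]
        · refine Int.ediv_le_of_le_mul (by omega) h3.2
      · rw [abs_zero]
        exact hE0
    · rw [Finset.sum_eq_single j, Finset.sum_eq_single 0]
      · rw [if_pos ⟨le_rfl, le_rfl, hj⟩, hP']
        beta_reduce
        rw [if_pos ⟨hj, rfl⟩]
        have := Int.emod_add_mul_ediv (P j) (v j 0)
        linear_combination (-1 : ℤ) * this
      · intro ρ _ hρ
        beta_reduce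
        rw [if_neg (fun h' : j < d ∧ ρ = 0 => hρ h'.2), zero_mul, ite_self]
      · intro h
        exact absurd (Finset.mem_range.2 (by omega)) h
      · intro s _ hs
        refine Finset.sum_eq_zero fun ρ _ => ?_
        by_cases h0 : ρ = 0
        · rw [h0, if_neg (by omega)]
        · beta_reduce
          rw [if_neg (fun h' : s < d ∧ ρ = 0 => h0 h'.2), zero_mul, ite_self]
      · intro h
        exact absurd (Finset.mem_range.2 hj) h
  -- step 2
  have hy : ∀ i : ℕ, ∃ y : ℤ, 0 ≤ y ∧ y < q ∧ (i < μ - 1 →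
      q ∣ (Solve_cls d μ P' i - Solve_cls d μ P' (i + 1)) - y * v 0 i) := by
    intro i
    by_cases hi : i < μ - 1
    · have h1 := hcop (μ - 1 - i) (by omega) (by omega)
      have e1 : μ - 1 - (μ - 1 - i) = i := by omega
      rw [e1] at h1
      obtain ⟨y, hy1, hy2, hy3⟩ := Solve_cop hq h1 (Solve_cls d μ P' i - Solve_cls d μ P' (i + 1))
      exact ⟨y, hy1, hy2, fun _ => hy3⟩
    · exact ⟨0, le_rfl, by omega, fun h => absurd h hi⟩
  choose y hy0 hyq hyd using hy
  have hR2 := Solve_sum (range (μ - 1)) (fun i => |y i|)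
    (fun i j => if 0 ≤ j ∧ j ≤ 0 + i then y i * v 0 i else 0)
    (fun i hi => by
      have hi' := Finset.mem_range.1 hi
      exact Solve_basic v (show i < μ by omega) (show 0 + i + 1 ≤ d by omega) (y i))
  obtain ⟨Q, hQ⟩ : ∃ Q : ℕ → ℤ, Q = fun j => P' j -
    ∑ i ∈ range (μ - 1), if 0 ≤ j ∧ j ≤ 0 + i then y i * v 0 i else 0 := ⟨_, rfl⟩
  obtain ⟨M, hM⟩ : ∃ M : ℤ, M = d * (q * B) := ⟨_, rfl⟩
  have hM0 : 0 ≤ M := by rw [hM]; positivity
  have hQM : ∀ j < d, |Q j| ≤ M := by
    intro j hj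
    rw [hQ]
    simp only
    refine (abs_sub _ _).trans ?_
    have h1 : |∑ i ∈ range (μ - 1), if 0 ≤ j ∧ j ≤ 0 + i then y i * v 0 i else 0| ≤
        ((μ - 1 : ℕ) : ℤ) * (q * B) := by
      refine (Finset.abs_sum_le_sum_abs _ _).trans ?_
      calc ∑ i ∈ range (μ - 1), |if 0 ≤ j ∧ j ≤ 0 + i then y i * v 0 i else 0|
          ≤ ∑ _i ∈ range (μ - 1), q * B := by
            refine Finset.sum_le_sum fun i hi => ?_
            have hi' := Finset.mem_range.1 hi
            split_ifs
            · rw [abs_mul]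
              refine mul_le_mul ?_ (hvB 0 (by omega) i (by omega)) (abs_nonneg _) (by omega)
              rw [abs_of_nonneg (hy0 i)]
              exact (hyq i).le
            · rw [abs_zero]
              omega
        _ = ((μ - 1 : ℕ) : ℤ) * (q * B) := by
            rw [Finset.sum_const, Finset.card_range, nsmul_eq_mul]
    have h3 := hP'B j hj
    have h4 : (((μ - 1 : ℕ) : ℤ) + 1) * (q * B) ≤ d * (q * B) :=
      mul_le_mul_of_nonneg_right (by omega) (by omega)
    rw [hM]
    linarith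
  -- the class sums of `Q`
  have hcls : ∀ k < μ, Solve_cls d μ Q k = Solve_cls d μ P' k -
      ∑ i ∈ range (μ - 1), if k ≤ i then y i * v 0 i else 0 := by
    intro k hk
    rw [hQ, Solve_cls_sub, Solve_cls_sum]
    congr 1
    refine Finset.sum_congr rfl fun i hi => ?_
    have hi' := Finset.mem_range.1 hi
    exact Solve_cls_ind (by omega) hk (by omega) _
  have hstep : ∀ k < μ - 1, q ∣ Solve_cls d μ Q k - Solve_cls d μ Q (k + 1) := by
    intro k hk
    have h1 : (∑ i ∈ range (μ - 1), if k ≤ i then y i * v 0 i else 0) -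
        (∑ i ∈ range (μ - 1), if k + 1 ≤ i then y i * v 0 i else 0) = y k * v 0 k := by
      rw [← Finset.sum_sub_distrib, Finset.sum_eq_single k]
      · rw [if_pos le_rfl, if_neg (by omega), sub_zero]
      · intro i _ hi
        by_cases h3 : k ≤ i
        · rw [if_pos h3, if_pos (by omega), sub_self]
        · rw [if_neg h3, if_neg (by omega), sub_self]
      · intro h
        exact absurd (Finset.mem_range.2 hk) h
    rw [hcls k (by omega), hcls (k + 1) (by omega)]
    have h3 := hyd k hk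
    rw [← h1] at h3
    have e : Solve_cls d μ P' k - (∑ i ∈ range (μ - 1), if k ≤ i then y i * v 0 i else 0) -
        (Solve_cls d μ P' (k + 1) -
          ∑ i ∈ range (μ - 1), if k + 1 ≤ i then y i * v 0 i else 0) =
        Solve_cls d μ P' k - Solve_cls d μ P' (k + 1) -
          ((∑ i ∈ range (μ - 1), if k ≤ i then y i * v 0 i else 0) -
            ∑ i ∈ range (μ - 1), if k + 1 ≤ i then y i * v 0 i else 0) := by ring
    rw [e]
    exact h3
  have hdvd' : ∀ t ≤ μ - 1, q ∣ Solve_cls d μ Q (μ - 1 - t) - Solve_cls d μ Q (μ - 1) := by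
    intro t
    induction t with
    | zero =>
      intro _
      rw [Nat.sub_zero, sub_self]
      exact dvd_zero q
    | succ t ih =>
      intro ht
      have h1 := ih (by omega)
      have h3 := hstep (μ - 1 - (t + 1)) (by omega)
      have e1 : μ - 1 - (t + 1) + 1 = μ - 1 - t := by omega
      rw [e1] at h3
      have h4 := dvd_add h3 h1
      rwa [sub_add_sub_cancel] at h4
  have hdvd : ∀ i < μ - 1, q ∣ Solve_cls d μ Q i - Solve_cls d μ Q (μ - 1) := by
    intro i hi
    have h1 := hdvd' (μ - 1 - i) (by omega)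
    have e1 : μ - 1 - (μ - 1 - i) = i := by omega
    rwa [e1] at h1
  have hR3 := Solve_fold hμ hv hQM
  have hR4 := Solve_last hμ h2 hq hv hvq hM0 hQM hdvd
  have hR := Solve_add (Solve_add hR1 hR2) (Solve_add hR3 hR4)
  refine Solve_mono (Solve_congr hR fun j _ => ?_) ?_
  · rw [hQ]
    ring
  · have h1 : ∑ i ∈ range (μ - 1), |y i| ≤ d * (q * B) := by
      calc ∑ i ∈ range (μ - 1), |y i| ≤ ∑ _i ∈ range (μ - 1), q * B := by
            refine Finset.sum_le_sum fun i _ => ?_
            rw [abs_of_nonneg (hy0 i)]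
            exact (hyq i).le.trans hqB3
        _ = ((μ - 1 : ℕ) : ℤ) * (q * B) := by
            rw [Finset.sum_const, Finset.card_range, nsmul_eq_mul]
        _ ≤ d * (q * B) := mul_le_mul_of_nonneg_right (by omega) (by omega)
    have h3 : (d : ℤ) * (q * B) + (2 * d ^ 2 * M + (d * M + d * (2 * (2 * (d * M))))) =
        ((d : ℤ) + d ^ 2 + 6 * d ^ 3) * (q * B) := by
      rw [hM]
      ring
    have h4 : ((d : ℤ) + d ^ 2 + 6 * d ^ 3) * (q * B) ≤ E := by
      refine le_trans ?_ hK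
      push_cast
      refine mul_le_mul_of_nonneg_right ?_ (by omega)
      linarith
    linarith

end Pool.Agent.H51.TB

end

section

/-!
# Module U1 (TB2): sections

If the general dimension is not `0`, there are nonzero solutions with polynomial coefficients.

Proof.  Let `K` be the fraction field of `R = MvPolynomial (κ × ν) ℂ` and `Mx` the matrix over `R` of all
conditions (rows `Σ i, S.R (m i)`, finite; columns `E`).  If `Mx` has a nonzero kernel vector over `K`, clear
denominators.  Otherwise its rank over `K` is `card E`, so some square submatrix with all columns has a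
nonzero determinant, a polynomial; at a position where it does not vanish `V m p = ⊥`, so `gd m = 0`.
(Compare the proof of `exists_poly_solution` in `Pool/Agent/H18/Ex/OnePar.lean`.  Alternatively: let
`r < card E` be the largest rank at a position, take an `r`-minor which is a nonzero polynomial, add one
column and use Cramer's rule; all `(r+1)`-minors vanish identically.)
-/

namespace Pool.Agent.H51.TB

open Finset MvPolynomial

variable {E ν T : Type} [Fintype E] (S : Sys E ν T) {κ : Type}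

private theorem Sect_solution {α ρ σ : Type} [Fintype ρ] [Fintype α]
    (Mx : ρ → α → MvPolynomial σ ℂ)
    (h : ∀ t : σ → ℂ, ∃ f : α → ℂ, (∀ r, ∑ a, f a * eval t (Mx r a) = 0) ∧ ∃ a, f a ≠ 0) :
    ∃ F : α → MvPolynomial σ ℂ, (∀ r, ∑ a, Mx r a * F a = 0) ∧ ∃ a, F a ≠ 0 := by
  classical
  let K := FractionRing (MvPolynomial σ ℂ)
  let φ : MvPolynomial σ ℂ →+* K := algebraMap (MvPolynomial σ ℂ) K
  have hφ : Function.Injective φ := IsFractionRing.injective (MvPolynomial σ ℂ) K
  let Mk : Matrix ρ α K := fun r a => φ (Mx r a)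
  by_cases hker : LinearMap.ker Mk.mulVecLin = ⊥
  · exfalso
    obtain ⟨g, hg⟩ := LinearMap.exists_leftInverse_of_injective Mk.mulVecLin hker
    let B : Matrix α ρ K := LinearMap.toMatrix' g
    have hB : B * Mk = 1 := by
      have h1 : LinearMap.toMatrix' (g ∘ₗ Mk.mulVecLin) = 1 := by
        rw [hg, LinearMap.toMatrix'_id]
      rw [LinearMap.toMatrix'_comp] at h1
      rw [← h1]
      congr 1
      rw [← Matrix.toLin'_apply', LinearMap.toMatrix'_toLin']
    obtain ⟨δ, hδ⟩ := IsLocalization.exist_integer_multiples_of_finite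
      (nonZeroDivisors (MvPolynomial σ ℂ)) (fun x : α × ρ => B x.1 x.2)
    choose B' hB' using hδ
    have hδ0 : (δ : MvPolynomial σ ℂ) ≠ 0 := nonZeroDivisors.coe_ne_zero δ
    have key : ∀ a a' : α, ∑ r, B' (a, r) * Mx r a' = if a = a' then (δ : MvPolynomial σ ℂ) else 0 := by
      intro a a'
      apply hφ
      rw [map_sum]
      have h1 : ∀ r, φ (B' (a, r) * Mx r a') = φ δ * (B a r * Mk r a') := by
        intro r
        rw [map_mul]
        have h2 := hB' (a, r)
        rw [Algebra.smul_def] at h2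
        rw [show φ (B' (a, r)) = φ δ * B a r from h2]
        show φ δ * B a r * φ (Mx r a') = φ δ * (B a r * φ (Mx r a'))
        ring
      rw [sum_congr rfl fun r _ => h1 r, ← mul_sum]
      have h3 : ∑ r, B a r * Mk r a' = (B * Mk) a a' := rfl
      rw [h3, hB, Matrix.one_apply]
      split_ifs with hh
      · rw [mul_one]
      · rw [mul_zero, map_zero]
    obtain ⟨t, ht⟩ : ∃ t : σ → ℂ, eval t (δ : MvPolynomial σ ℂ) ≠ 0 := by
      by_contra hcon
      push Not at hcon
      apply hδ0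
      exact MvPolynomial.funext fun t => by rw [hcon t, map_zero]
    obtain ⟨f, hf, a, hfa⟩ := h t
    apply hfa
    have h4 : eval t (δ : MvPolynomial σ ℂ) * f a = 0 := by
      have h5 : ∑ a' : α, (∑ r, eval t (B' (a, r)) * eval t (Mx r a')) * f a' = 0 := by
        simp only [sum_mul]
        rw [sum_comm]
        refine sum_eq_zero fun r _ => ?_
        have h6 := hf r
        have h7 : ∑ a' : α, eval t (B' (a, r)) * eval t (Mx r a') * f a' =
            eval t (B' (a, r)) * ∑ a' : α, f a' * eval t (Mx r a') := by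
          rw [mul_sum]
          exact sum_congr rfl fun a' _ => by ring
        rw [h7, h6, mul_zero]
      have h8 : ∀ a' : α, (∑ r, eval t (B' (a, r)) * eval t (Mx r a')) =
          if a = a' then eval t (δ : MvPolynomial σ ℂ) else 0 := by
        intro a'
        have h9 := congrArg (eval t) (key a a')
        rw [map_sum] at h9
        simp only [map_mul] at h9
        rw [h9]
        split_ifs
        · rfl
        · exact map_zero _
      rw [sum_congr rfl fun a' _ => by rw [h8 a']] at h5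
      rw [Finset.sum_eq_single a] at h5
      · rw [if_pos rfl] at h5
        exact h5
      · intro b _ hb
        rw [if_neg (fun h => hb h.symm), zero_mul]
      · intro hh
        exact absurd (mem_univ _) hh
    rcases mul_eq_zero.1 h4 with h5 | h5
    · exact absurd h5 ht
    · exact h5
  · obtain ⟨v, hv, hv0⟩ := (Submodule.ne_bot_iff _).1 hker
    rw [LinearMap.mem_ker, Matrix.mulVecLin_apply] at hv
    obtain ⟨a₀, ha₀⟩ : ∃ a, v a ≠ 0 := by
      by_contra hcon
      push Not at hcon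
      exact hv0 (funext hcon)
    obtain ⟨δ, hδ⟩ := IsLocalization.exist_integer_multiples_of_finite
      (nonZeroDivisors (MvPolynomial σ ℂ)) v
    choose F hF' using hδ
    have hδ0 : (δ : MvPolynomial σ ℂ) ≠ 0 := nonZeroDivisors.coe_ne_zero δ
    have hFa : ∀ a : α, φ (F a) = φ δ * v a := by
      intro a
      have h2 := hF' a
      rw [Algebra.smul_def] at h2
      exact h2
    refine ⟨F, ?_, a₀, ?_⟩
    · intro r
      apply hφ
      rw [map_zero, map_sum]
      have h1 : ∑ a : α, φ (Mx r a * F a) = φ δ * ∑ a : α, Mk r a * v a := by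
        rw [mul_sum]
        refine sum_congr rfl fun a _ => ?_
        rw [map_mul, hFa a]
        show φ (Mx r a) * (φ δ * v a) = φ δ * (φ (Mx r a) * v a)
        ring
      rw [h1]
      have h2 : ∑ a : α, Mk r a * v a = Mk.mulVec v r := rfl
      rw [h2, hv]
      show φ δ * 0 = 0
      rw [mul_zero]
    · intro hz
      have h1 := hFa a₀
      rw [hz, map_zero] at h1
      rcases mul_eq_zero.1 h1.symm with h2 | h2
      · apply hδ0
        apply hφ
        rw [h2, map_zero]
      · exact ha₀ h2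

theorem exists_section [Fintype κ] (m : κ → T) (h : S.gd m ≠ 0) :
    ∃ F : E → MvPolynomial (κ × ν) ℂ, (∃ e, F e ≠ 0) ∧
      ∀ i (r : S.R (m i)), ∑ e, rename (fun v => (i, v)) (S.co (m i) r e) * F e = 0 := by
  classical
  have hfin : ∀ i, Finite (S.R (m i)) := fun i => S.fin (m i)
  let _ : Fintype (Σ i, S.R (m i)) := Fintype.ofFinite _
  obtain ⟨F, hF, hne⟩ := Sect_solution (ρ := Σ i, S.R (m i)) (σ := κ × ν)
    (fun x e => rename (fun v => (x.1, v)) (S.co (m x.1) x.2 e)) (by
      intro t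
      have h1 : Module.finrank ℂ (S.V m fun i v => t (i, v)) ≠ 0 := by
        intro h0
        apply h
        unfold Sys.gd
        exact Nat.sInf_eq_zero.2 (Or.inl ⟨_, h0⟩)
      have h2 : S.V m (fun i v => t (i, v)) ≠ ⊥ := by
        intro hb
        rw [hb] at h1
        exact h1 (finrank_bot ℂ (E → ℂ))
      obtain ⟨f, hf, hf0⟩ := (Submodule.ne_bot_iff _).1 h2
      refine ⟨f, fun r => ?_, ?_⟩
      · have h3 := hf r.1 r.2
        rw [← h3]
        refine sum_congr rfl fun e _ => ?_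
        rw [eval_rename, mul_comm]
        rfl
      · by_contra hcon
        push Not at hcon
        exact hf0 (funext hcon))
  exact ⟨F, hne, fun i r => hF ⟨i, r⟩⟩

/-- The values of a section are solutions. -/
theorem section_mem (m : κ → T) (F : E → MvPolynomial (κ × ν) ℂ)
    (hF : ∀ i (r : S.R (m i)), ∑ e, rename (fun v => (i, v)) (S.co (m i) r e) * F e = 0)
    (p : κ → ν → ℂ) : (fun e => eval (fun x : κ × ν => p x.1 x.2) (F e)) ∈ S.V m p := by
  rw [S.mem_V]
  intro i r
  have h1 := congrArg (eval (fun x : κ × ν => p x.1 x.2)) (hF i r)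
  rw [map_sum, map_zero] at h1
  rw [← h1]
  refine sum_congr rfl fun e _ => ?_
  rw [map_mul, eval_rename]
  rfl

end Pool.Agent.H51.TB

end
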