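import Pool.Agent.H94.LP2.H18.FatDefs
import Pool.Agent.H94.LP2.M01
import Pool.Agent.H94.LP2.M04

/-! The parts of this file: H18.FatBasic_3, H18.FatBasic_2, H18.FatToric, H18.Ta.Rk, H51.TB.Asy. -/

section

namespace Pool.Agent.H18.Fat

open MvPolynomial Finset

theorem card_mons (n d : ℕ) : (mons (n + 1) d).card = (d + n).choose n := by
  unfold mons
  rw [card_finsuppAntidiag_nat_eq_choose]
  simp only [card_univ, Fintype.card_fin]
  have h : n + 1 + d - 1 = d + n := by omega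
  rw [h]
  exact Nat.choose_symm_add

theorem coeff_toPoly {n d : ℕ} (f : mons n d → ℂ) (α : mons n d) :
    coeff α.1 (toPoly n d f) = f α := by
  classical
  rw [toPoly_apply, coeff_sum]
  simp only [coeff_monomial, Subtype.coe_inj]
  simp

theorem toPoly_injective (n d : ℕ) : Function.Injective (toPoly n d) := by
  intro f g h
  funext α
  rw [← coeff_toPoly f α, ← coeff_toPoly g α, h]

theorem toPoly_isHomogeneous {n d : ℕ} (f : mons n d → ℂ) : (toPoly n d f).IsHomogeneous d := by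
  rw [toPoly_apply]
  apply IsHomogeneous.sum
  intro α _
  exact isHomogeneous_monomial _ (mem_mons.1 α.2)

theorem exists_toPoly {n d : ℕ} {F : MvPolynomial (Fin n) ℂ} (hF : F.IsHomogeneous d) :
    toPoly n d (fun α => coeff α.1 F) = F := by
  classical
  ext β
  by_cases hβ : β ∈ mons n d
  · exact coeff_toPoly (fun α => coeff α.1 F) ⟨β, hβ⟩
  · rw [mem_mons] at hβ
    rw [hF.coeff_eq_zero hβ, (toPoly_isHomogeneous _).coeff_eq_zero hβ]

end Pool.Agent.H18.Fat

end

section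

namespace Pool.Agent.H18.Fat

open MvPolynomial Finset

theorem coeff_shift_monomial {n : ℕ} (q : Fin n → ℂ) (α β : Fin n →₀ ℕ) (c : ℂ) :
    coeff β (shift q (monomial α c)) = c * tc q α β := by
  classical
  unfold shift
  rw [aeval_monomial, algebraMap_eq, coeff_C_mul, Finsupp.prod_fintype _ _ (by intro i; simp)]
  congr 1
  have h1 : ∀ j : Fin n, (X j + C (q j) : MvPolynomial (Fin n) ℂ) ^ (α j) =
      ∑ b ∈ range (α j + 1), monomial (Finsupp.single j b)
        (((α j).choose b : ℂ) * q j ^ (α j - b)) := by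
    intro j
    rw [add_pow]
    refine sum_congr rfl fun b _ => ?_
    rw [X_pow_eq_monomial, ← C_pow, mul_assoc, mul_comm (C (q j ^ (α j - b)))]
    rw [← C_eq_coe_nat, ← C_mul, mul_comm, C_mul_monomial, mul_one]
  simp_rw [h1]
  rw [prod_univ_sum, coeff_sum]
  have h2 : ∀ x ∈ Fintype.piFinset fun j => range (α j + 1),
      coeff β (∏ j, monomial (Finsupp.single j (x j))
        (((α j).choose (x j) : ℂ) * q j ^ (α j - x j)) : MvPolynomial (Fin n) ℂ) =
      if x = ⇑β then tc q α β else 0 := by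
    intro x _
    rw [← monomial_sum_prod, coeff_monomial]
    have h4 : (∑ j, Finsupp.single j (x j)) = Finsupp.equivFunOnFinite.symm x := by
      rw [Finsupp.equivFunOnFinite_symm_eq_sum]
    rw [h4]
    by_cases hx : x = ⇑β
    · subst hx
      simp [tc]
    · rw [if_neg, if_neg hx]
      intro h5
      apply hx
      rw [← h5]
      simp
  rw [sum_congr rfl h2, sum_ite_eq']
  split_ifs with h
  · rfl
  · rw [Fintype.mem_piFinset] at h
    push Not at h
    obtain ⟨j, hj⟩ := h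
    rw [mem_range] at hj
    symm
    unfold tc
    apply prod_eq_zero (mem_univ j)
    rw [Nat.choose_eq_zero_of_lt (by omega)]
    simp

theorem coeff_shift_toPoly {n d : ℕ} (q : Fin n → ℂ) (β : Fin n →₀ ℕ) (f : mons n d → ℂ) :
    coeff β (shift q (toPoly n d f)) = ∑ α : mons n d, f α * tc q α.1 β := by
  rw [toPoly_apply]
  unfold shift
  rw [map_sum, coeff_sum]
  exact sum_congr rfl fun α _ => coeff_shift_monomial q α.1 β _

theorem coeff_shift_euler {n d : ℕ} (q : Fin n → ℂ) (β : Fin n →₀ ℕ) (f : mons n d → ℂ) :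
    ∑ j, q j * ((β j : ℂ) + 1) * coeff (β + Finsupp.single j 1) (shift q (toPoly n d f)) =
      ((d : ℂ) - (β.degree : ℂ)) * coeff β (shift q (toPoly n d f)) := by
  simp_rw [coeff_shift_toPoly, mul_sum]
  rw [sum_comm]
  refine sum_congr rfl fun α _ => ?_
  have h := tc_euler q α.1 β
  rw [mem_mons.1 α.2] at h
  have h2 : ∀ j, q j * ((β j : ℂ) + 1) * (f α * tc q α.1 (β + Finsupp.single j 1)) =
      f α * (q j * ((β j : ℂ) + 1) * tc q α.1 (β + Finsupp.single j 1)) := by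
    intro j; ring
  rw [sum_congr rfl fun j _ => h2 j, ← mul_sum, h]
  ring

end Pool.Agent.H18.Fat

end

section

namespace Pool.Agent.H18.Fat

open MvPolynomial Finset

/-! ### General points -/

theorem ForGeneralPoints.mono {r k : ℕ} {P Q : (Fin k → Fin (r + 1) → ℂ) → Prop}
    (h : ForGeneralPoints r k P) (hPQ : ∀ p, P p → Q p) : ForGeneralPoints r k Q := by
  obtain ⟨G, hG, hG'⟩ := h
  exact ⟨G, hG, fun p hp => hPQ p (hG' p hp)⟩

theorem ForGeneralPoints.and {r k : ℕ} {P Q : (Fin k → Fin (r + 1) → ℂ) → Prop}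
    (h : ForGeneralPoints r k P) (h' : ForGeneralPoints r k Q) :
    ForGeneralPoints r k fun p => P p ∧ Q p := by
  obtain ⟨G, hG, hG'⟩ := h
  obtain ⟨H, hH, hH'⟩ := h'
  refine ⟨G * H, mul_ne_zero hG hH, fun p hp => ?_⟩
  rw [map_mul] at hp
  exact ⟨hG' p (left_ne_zero_of_mul hp), hH' p (right_ne_zero_of_mul hp)⟩

theorem ForGeneralPoints.coord_ne_zero (r k : ℕ) :
    ForGeneralPoints r k fun p => ∀ i j, p i j ≠ 0 := by
  classical
  refine ⟨∏ x : Fin k × Fin (r + 1), X x, ?_, ?_⟩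
  · exact prod_ne_zero_iff.2 fun x _ => X_ne_zero x
  · intro p hp i j
    rw [map_prod] at hp
    have := prod_ne_zero_iff.1 hp (i, j) (mem_univ _)
    simpa using this

/-! ### Semicontinuity of the dimension -/

/-- All exponent vectors of degree smaller than `m`. -/
noncomputable def full (n m : ℕ) : Finset (Fin n →₀ ℕ) := by
  classical
  exact (range m).biUnion fun t => mons n t

theorem mem_full {n m : ℕ} {β : Fin n →₀ ℕ} : β ∈ full n m ↔ β.degree < m := by
  classical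
  unfold full
  rw [mem_biUnion]
  constructor
  · rintro ⟨t, ht, hβ⟩
    rw [mem_mons] at hβ
    rw [hβ]
    exact mem_range.1 ht
  · intro h
    exact ⟨_, mem_range.2 h, mem_mons.2 rfl⟩

/-- All linear conditions. -/
noncomputable def fullMat (r d : ℕ) {k : ℕ} (p : Fin k → Fin (r + 1) → ℂ) (m : Fin k → ℕ) :
    Matrix (Σ i : Fin k, {β // β ∈ full (r + 1) (m i)}) (mons (r + 1) d) ℂ :=
  fun x α => tc (p x.1) α.1 x.2.1

noncomputable def genFullMat (r d : ℕ) {k : ℕ} (m : Fin k → ℕ) :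
    Matrix (Σ i : Fin k, {β // β ∈ full (r + 1) (m i)}) (mons (r + 1) d)
      (MvPolynomial (Fin k × Fin (r + 1)) ℂ) :=
  fun x α => ∏ j, (C ((α.1 j).choose (x.2.1 j) : ℂ) * X (x.1, j) ^ (α.1 j - x.2.1 j))

theorem genFullMat_map {r d k : ℕ} (m : Fin k → ℕ) (p : Fin k → Fin (r + 1) → ℂ) :
    (genFullMat r d m).map (eval fun x : Fin k × Fin (r + 1) => p x.1 x.2) =
      fullMat r d p m := by
  ext x α
  simp [genFullMat, fullMat, tc]

/-! ### Further points impose at most their length -/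

/-! ### Linear changes of coordinates -/

/-- `F(Ax)`. -/
noncomputable def linSubst {n : ℕ} (A : Matrix (Fin n) (Fin n) ℂ) :
    MvPolynomial (Fin n) ℂ →ₐ[ℂ] MvPolynomial (Fin n) ℂ :=
  aeval fun i => ∑ j, C (A i j) * X j

theorem linSubst_shift {n : ℕ} (A : Matrix (Fin n) (Fin n) ℂ) (q : Fin n → ℂ)
    (F : MvPolynomial (Fin n) ℂ) :
    shift q (linSubst A F) = linSubst A (shift (A.mulVec q) F) := by
  have h : (aeval (fun j => X j + C (q j)) :
      MvPolynomial (Fin n) ℂ →ₐ[ℂ] MvPolynomial (Fin n) ℂ).comp (linSubst A) =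
      (linSubst A).comp (aeval (fun j => X j + C (A.mulVec q j))) := by
    apply algHom_ext
    intro i
    simp only [linSubst, AlgHom.comp_apply, aeval_X, map_sum, map_mul, aeval_C, algebraMap_eq,
      map_add, mul_add, sum_add_distrib, Matrix.mulVec, dotProduct]
  exact DFunLike.congr_fun h F

theorem linSubst_isHomogeneous {n d : ℕ} (A : Matrix (Fin n) (Fin n) ℂ)
    {F : MvPolynomial (Fin n) ℂ} (hF : F.IsHomogeneous d) : (linSubst A F).IsHomogeneous d := by
  have h : ∀ i, (∑ j, C (A i j) * X j : MvPolynomial (Fin n) ℂ).IsHomogeneous 1 := by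
    intro i
    apply IsHomogeneous.sum
    intro j _
    exact (isHomogeneous_C_mul_X _ _)
  have := hF.aeval _ h
  simpa [linSubst] using this

/-- Linear substitutions do not decrease the order at the origin. -/
theorem linSubst_order {n m : ℕ} (A : Matrix (Fin n) (Fin n) ℂ) {G : MvPolynomial (Fin n) ℂ}
    (hG : ∀ β : Fin n →₀ ℕ, β.degree < m → coeff β G = 0) :
    ∀ β : Fin n →₀ ℕ, β.degree < m → coeff β (linSubst A G) = 0 := by
  rw [← mem_pow_idealOfVars_iff'] at hG ⊢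
  have h1 := Ideal.mem_map_of_mem (linSubst A) hG
  rw [Ideal.map_pow] at h1
  refine Ideal.pow_right_mono ?_ m h1
  rw [idealOfVars, Ideal.map_span, Ideal.span_le]
  rintro _ ⟨_, ⟨i, rfl⟩, rfl⟩
  simp only [linSubst, aeval_X, SetLike.mem_coe]
  exact Ideal.sum_mem _ fun j _ => Ideal.mul_mem_left _ _ (Ideal.subset_span ⟨j, rfl⟩)

theorem vanishes_linSubst {n m : ℕ} {A : Matrix (Fin n) (Fin n) ℂ} {q : Fin n → ℂ}
    {F : MvPolynomial (Fin n) ℂ} (h : VanishesToOrder F (A.mulVec q) m) :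
    VanishesToOrder (linSubst A F) q m := by
  unfold VanishesToOrder
  rw [linSubst_shift]
  exact linSubst_order A h

/-! ### Coordinate points -/

end Pool.Agent.H18.Fat

end

section

/-!
# Module Rk (TA): the ranks are a permutation of the layers
-/

namespace Pool.Agent.H18.Ta

open Finset

theorem rk_inj {ℓ u j : ℕ} (h : u + j < ℓ) {s t : ℕ} (hs : s < ℓ) (ht : t < ℓ)
    (he : rk ℓ u j s = rk ℓ u j t) : s = t := by
  unfold rk at he
  split_ifs at he <;> omega

end Pool.Agent.H18.Ta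

end

section

/-!
# Module D3 (TB): asymptotics

`multichoose v p = v (v + 1) ⋯ (v + p - 1) / p!`, `ell (n - 1) (k + 1) = binom (n - 1 + k, k) =
multichoose n k`.
-/

namespace Pool.Agent.H51.TB

open Finset Pool.Agent.H18.Ex

private theorem Asy_fac (v p : ℕ) :
    (p.factorial : ℝ) * (Nat.multichoose v p : ℝ) = ∏ i ∈ range p, ((v : ℝ) + i) := by
  have h : p.factorial * Nat.multichoose v p = v.ascFactorial p := by
    rw [Nat.multichoose_eq, Nat.ascFactorial_eq_factorial_mul_choose']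
  have h2 := Nat.ascFactorial_eq_prod_range v p
  rw [← h] at h2
  exact_mod_cast h2

private theorem Asy_ell (n k : ℕ) (hn : 1 ≤ n) : ell (n - 1) (k + 1) = Nat.multichoose n k := by
  rw [Nat.multichoose_eq]
  unfold ell
  rw [show k + 1 + (n - 1) - 1 = (n - 1) + k by omega, show n + k - 1 = (n - 1) + k by omega,
    Nat.choose_symm_add]

/-- the ratio as a function of `r = (a - b) / n` and `t = 1 / n` -/
private noncomputable def Asy_Phi (s p q : ℕ) (x : ℝ × ℝ) : ℝ :=
  ((p + q).choose q : ℝ) * ((∏ i ∈ range p, (1 / 2 + x.1 / 2 + ((i : ℝ) - s) * x.2)) *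
    ∏ j ∈ range q, (1 / 2 - x.1 / 2 + ((j : ℝ) - s) * x.2)) /
    ∏ i ∈ range (p + q), (1 + (i : ℝ) * x.2)

private theorem Asy_cont (s p q : ℕ) : ContinuousAt (Asy_Phi s p q) (0, 0) := by
  unfold Asy_Phi
  refine ContinuousAt.div ?_ ?_ ?_
  · fun_prop
  · fun_prop
  · simp

private theorem Asy_zero (s p q : ℕ) :
    Asy_Phi s p q (0, 0) = ((p + q).choose q : ℝ) / 2 ^ (p + q) := by
  unfold Asy_Phi
  simp only [zero_div, add_zero, mul_zero, sub_zero, prod_const, card_range, one_pow, div_one]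
  rw [← pow_add, one_div, inv_pow, div_eq_mul_inv]

private theorem Asy_id (s p q a b : ℕ) (ha : s ≤ a) (hb : s ≤ b) (hn : 1 ≤ a + b) :
    ((Nat.multichoose (a - s) p * Nat.multichoose (b - s) q : ℕ) : ℝ) =
      Asy_Phi s p q (((a : ℝ) - b) / ((a + b : ℕ) : ℝ), 1 / ((a + b : ℕ) : ℝ)) *
        (Nat.multichoose (a + b) (p + q) : ℝ) := by
  have hn0 : (0 : ℝ) < ((a + b : ℕ) : ℝ) := by exact_mod_cast hn
  set n : ℝ := ((a + b : ℕ) : ℝ) with hnd
  have hab : n = (a : ℝ) + b := by rw [hnd]; push_cast; ring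
  set PA : ℝ := ∏ i ∈ range p, (1 / 2 + ((a : ℝ) - b) / n / 2 + ((i : ℝ) - s) * (1 / n)) with hPA
  set PB : ℝ := ∏ j ∈ range q, (1 / 2 - ((a : ℝ) - b) / n / 2 + ((j : ℝ) - s) * (1 / n)) with hPB
  set PN : ℝ := ∏ i ∈ range (p + q), (1 + (i : ℝ) * (1 / n)) with hPN
  have hPN0 : 0 < PN := prod_pos fun i _ => by positivity
  have hA : (p.factorial : ℝ) * (Nat.multichoose (a - s) p : ℝ) = n ^ p * PA := by
    rw [Asy_fac, hPA, ← card_range p, ← prod_const, card_range, ← prod_mul_distrib]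
    refine prod_congr rfl fun i _ => ?_
    rw [Nat.cast_sub ha, hab]
    have : (a : ℝ) + b ≠ 0 := by rw [← hab]; exact hn0.ne'
    field_simp
    ring
  have hB : (q.factorial : ℝ) * (Nat.multichoose (b - s) q : ℝ) = n ^ q * PB := by
    rw [Asy_fac, hPB, ← card_range q, ← prod_const, card_range, ← prod_mul_distrib]
    refine prod_congr rfl fun i _ => ?_
    rw [Nat.cast_sub hb, hab]
    have : (a : ℝ) + b ≠ 0 := by rw [← hab]; exact hn0.ne'
    field_simp
    ring
  have hN : ((p + q).factorial : ℝ) * (Nat.multichoose (a + b) (p + q) : ℝ) =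
      n ^ (p + q) * PN := by
    rw [Asy_fac, hPN, ← card_range (p + q), ← prod_const, card_range, ← prod_mul_distrib]
    refine prod_congr rfl fun i _ => ?_
    rw [← hnd]
    field_simp
  have hC : ((p + q).choose q : ℝ) * p.factorial * q.factorial = ((p + q).factorial : ℝ) := by
    have := Nat.add_choose_mul_factorial_mul_factorial p q
    exact_mod_cast this
  have hΦ : Asy_Phi s p q (((a : ℝ) - b) / n, 1 / n) =
      ((p + q).choose q : ℝ) * (PA * PB) / PN := rfl
  rw [hΦ]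
  have hp0 : (0 : ℝ) < p.factorial := by exact_mod_cast p.factorial_pos
  have hq0 : (0 : ℝ) < q.factorial := by exact_mod_cast q.factorial_pos
  have hpq0 : (0 : ℝ) < (p + q).factorial := by exact_mod_cast (p + q).factorial_pos
  have hpq : (0 : ℝ) < p.factorial * q.factorial * (p + q).factorial := by positivity
  push_cast
  refine mul_left_cancel₀ hpq.ne' ?_
  have e1 : (p.factorial : ℝ) * q.factorial * (p + q).factorial *
      ((Nat.multichoose (a - s) p : ℝ) * (Nat.multichoose (b - s) q : ℝ)) =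
      (p + q).factorial * ((p.factorial * (Nat.multichoose (a - s) p : ℝ)) *
        (q.factorial * (Nat.multichoose (b - s) q : ℝ))) := by ring
  have e2 : (p.factorial : ℝ) * q.factorial * (p + q).factorial *
      (((p + q).choose q : ℝ) * (PA * PB) / PN * (Nat.multichoose (a + b) (p + q) : ℝ)) =
      (((p + q).choose q : ℝ) * p.factorial * q.factorial) * (PA * PB) / PN *
        ((p + q).factorial * (Nat.multichoose (a + b) (p + q) : ℝ)) := by ring
  rw [e1, e2, hA, hB, hN, hC, pow_add]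
  field_simp

private theorem Asy_gen (s p q : ℕ) (δ : ℝ) (hδ : 0 < δ) : ∃ ε : ℝ, 0 < ε ∧ ∃ n₀ : ℕ,
    ∀ a b : ℕ, s ≤ a → s ≤ b → 1 ≤ a → n₀ ≤ a + b → |(a : ℝ) - b| ≤ ε * (a + b : ℕ) →
    |((Nat.multichoose (a - s) p * Nat.multichoose (b - s) q : ℕ) : ℝ) -
      ((p + q).choose q : ℝ) / 2 ^ (p + q) * (ell (a + b - 1) (p + q + 1) : ℝ)| ≤
      δ * (ell (a + b - 1) (p + q + 1) : ℝ) := by
  obtain ⟨η, hη, h⟩ := Metric.continuousAt_iff.1 (Asy_cont s p q) δ hδ
  refine ⟨η / 2, by linarith, ⌊1 / η⌋₊ + 1, ?_⟩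
  intro a b ha hb ha1 hn hab
  have hn1 : 1 ≤ a + b := by omega
  have hn0 : (0 : ℝ) < ((a + b : ℕ) : ℝ) := by exact_mod_cast hn1
  have ht : 1 / ((a + b : ℕ) : ℝ) < η := by
    have h1 : 1 / η < ((a + b : ℕ) : ℝ) := by
      have h2 := Nat.lt_floor_add_one (1 / η)
      have h3 : ((⌊1 / η⌋₊ + 1 : ℕ) : ℝ) ≤ ((a + b : ℕ) : ℝ) := by exact_mod_cast hn
      push_cast at h3 ⊢
      linarith
    rw [div_lt_iff₀ hη] at h1
    rw [div_lt_iff₀ hn0]
    linarith
  have hr : |((a : ℝ) - b) / ((a + b : ℕ) : ℝ)| < η := by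
    rw [abs_div, abs_of_pos hn0, div_lt_iff₀ hn0]
    have : 0 < η * ((a + b : ℕ) : ℝ) := by positivity
    linarith
  have h1 := @h (((a : ℝ) - b) / ((a + b : ℕ) : ℝ), 1 / ((a + b : ℕ) : ℝ)) (by
    rw [Prod.dist_eq, Real.dist_eq, Real.dist_eq, max_lt_iff]
    simp only [sub_zero]
    refine ⟨hr, ?_⟩
    rw [abs_of_pos (by positivity)]
    exact ht)
  rw [Real.dist_eq, Asy_zero] at h1
  rw [Asy_id s p q a b ha hb hn1, Asy_ell (a + b) (p + q) hn1, ← sub_mul, abs_mul,
    abs_of_nonneg (Nat.cast_nonneg (α := ℝ) (Nat.multichoose (a + b) (p + q)))]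
  exact mul_le_mul_of_nonneg_right h1.le (Nat.cast_nonneg _)

theorem asy (p q : ℕ) (δ : ℝ) (hδ : 0 < δ) : ∃ ε : ℝ, 0 < ε ∧ ∃ n₀ : ℕ, ∀ a b : ℕ, 1 ≤ a → 1 ≤ b →
    n₀ ≤ a + b → |(a : ℝ) - b| ≤ ε * (a + b : ℕ) →
    |((Nat.multichoose (a - 1) p * Nat.multichoose (b - 1) q : ℕ) : ℝ) -
      ((p + q).choose q : ℝ) / 2 ^ (p + q) * (ell (a + b - 1) (p + q + 1) : ℝ)| ≤
      δ * (ell (a + b - 1) (p + q + 1) : ℝ) := by
  obtain ⟨ε, hε, n₀, h⟩ := Asy_gen 1 p q δ hδ
  exact ⟨ε, hε, n₀, fun a b ha hb hn hab => h a b ha hb ha hn hab⟩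

theorem asy' (p q : ℕ) (δ : ℝ) (hδ : 0 < δ) : ∃ ε : ℝ, 0 < ε ∧ ∃ n₀ : ℕ, ∀ a b : ℕ, 1 ≤ a → 1 ≤ b →
    n₀ ≤ a + b → |(a : ℝ) - b| ≤ ε * (a + b : ℕ) →
    |((Nat.multichoose a p * Nat.multichoose b q : ℕ) : ℝ) -
      ((p + q).choose q : ℝ) / 2 ^ (p + q) * (ell (a + b - 1) (p + q + 1) : ℝ)| ≤
      δ * (ell (a + b - 1) (p + q + 1) : ℝ) := by
  obtain ⟨ε, hε, n₀, h⟩ := Asy_gen 0 p q δ hδ
  exact ⟨ε, hε, n₀, fun a b ha hb hn hab => h a b (Nat.zero_le _) (Nat.zero_le _) ha hn hab⟩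

end Pool.Agent.H51.TB

end
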