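import Pool.Agent.H94.LP2.M02
import Pool.Agent.H94.LP2.M05

/-! The parts of this file: H21.HD.BridgeD, H21.NX.LensA, H51.TB.LBas. -/

section

/-!
Pairs with large multiplicities.
-/

namespace Pool.Agent.H21.HD

open MvPolynomial Pool.Agent.H18.Fat
open scoped Classical

namespace BridgeDX

theorem range_toPoly' (n d : ℕ) :
    LinearMap.range (toPoly n d) = homogeneousSubmodule (Fin n) ℂ d := by
  ext F
  constructor
  · rintro ⟨f, rfl⟩
    exact toPoly_isHomogeneous f
  · intro hF
    exact ⟨_, exists_toPoly hF⟩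

theorem finrank_homog' (r d : ℕ) :
    Module.finrank ℂ (homogeneousSubmodule (Fin (r + 1)) ℂ d) = (d + r).choose r := by
  rw [← range_toPoly', LinearMap.finrank_range_of_inj (toPoly_injective (r + 1) d),
    Module.finrank_fintype_fun_eq_card, Fintype.card_coe, card_mons]

end BridgeDX

open BridgeDX

end Pool.Agent.H21.HD

end

section

/-!
# Module LensA: lengths and bounds for the Horace step (only multiset arithmetic and `ell`)

Facts about `ell` (H18/Ex/Ell): `ell_zero`, `ell_one`, `ell_mono`, `ell_pos`, `ell_succ`.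
-/

namespace Pool.Agent.H21.NX

open Finset Pool.Agent.H18.Ex

/-- `ell s c * (c + s) = ell s (c + 1) * c` (see the proof of `ell_ratio`). -/
theorem ell_mul_add (s c : ℕ) (hs : 1 ≤ s) : ell s c * (c + s) = ell s (c + 1) * c := by
  rcases Nat.eq_zero_or_pos c with h | h
  · subst h
    rw [ell_zero hs, mul_zero, zero_mul]
  unfold ell
  have := Nat.choose_mul_succ_eq (c + s - 1) s
  rw [show c + s - 1 + 1 = c + s by omega, show c + s - s = c by omega] at this
  rw [show c + 1 + s - 1 = c + s by omega]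
  exact this

/-- `(c + s) * ell s c = (s + 1) * ell (s + 1) c` (see the proof of `ell_le_mul`; `c = 0` too). -/
theorem ell_succ_mul (s c : ℕ) (hs : 1 ≤ s) : (c + s) * ell s c = (s + 1) * ell (s + 1) c := by
  rcases Nat.eq_zero_or_pos c with h | h
  · subst h
    rw [ell_zero hs, ell_zero (by omega)]
    simp
  unfold ell
  have := Nat.add_one_mul_choose_eq (c + s - 1) s
  rw [show c + s - 1 + 1 = c + s by omega] at this
  rw [show c + (s + 1) - 1 = c + s by omega, this, mul_comm]

/-- `(x + s) * ell s (c - 1) ≤ x * ell s c` for `c ≤ x + 1`. -/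
theorem ell_pred_le (s c x : ℕ) (hs : 1 ≤ s) (hc : c ≤ x + 1) :
    (x + s) * ell s (c - 1) ≤ x * ell s c := by
  rcases Nat.eq_zero_or_pos c with h | h
  · subst h
    rw [Nat.zero_sub, ell_zero hs, mul_zero]
    exact Nat.zero_le _
  obtain ⟨k, rfl⟩ : ∃ k, c = k + 1 := ⟨c - 1, by omega⟩
  rw [Nat.add_sub_cancel]
  have key := ell_mul_add s k hs
  have h1 : 0 < k + s := by omega
  refine Nat.le_of_mul_le_mul_right ?_ h1
  calc (x + s) * ell s k * (k + s) = (x + s) * (ell s k * (k + s)) := by ring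
    _ = ((x + s) * k) * ell s (k + 1) := by rw [key]; ring
    _ ≤ (x * (k + s)) * ell s (k + 1) := by
        refine Nat.mul_le_mul_right _ ?_
        have : s * k ≤ s * x := Nat.mul_le_mul_left _ (by omega)
        nlinarith
    _ = x * ell s (k + 1) * (k + s) := by ring

/-- The weight of a condition which may be empty. -/
def wgt (s : ℕ) (x : ℕ × ℕ) : ℕ := if x.2 ≤ x.1 then ell (s + 1) x.1 + 1 - x.2 else 0

theorem ell_pred_add (s c : ℕ) (hc : 1 ≤ c) : ell (s + 1) (c - 1) + ell s c = ell (s + 1) c := by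
  obtain ⟨k, rfl⟩ : ∃ k, c = k + 1 := ⟨c - 1, by omega⟩
  rw [Nat.add_sub_cancel, ← ell_succ]

theorem wgt_here (s c e : ℕ) (h1 : 1 ≤ e) (h2 : e ≤ 2) (h3 : e ≤ c) :
    wgt s (c - 1, e) + ell s c = ell (s + 1) c + 1 - e := by
  have h := ell_pred_add s c (by omega)
  unfold wgt
  simp only
  split_ifs with h4
  · have := ell_pos (s + 1) (m := c - 1) (by omega)
    omega
  · have hce : c = e := by omega
    subst hce
    have h5 : ell (s + 1) (c - 1) + 1 = c := by
      obtain h6 | h6 : c = 1 ∨ c = 2 := by omega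
      · rw [h6, Nat.sub_self, ell_zero (by omega)]
      · rw [h6, ell_one]
    omega

end Pool.Agent.H21.NX

end

section

/-!
# Module B1 (TB): the system of a level, first facts
-/

namespace Pool.Agent.H51.TB

open Finset MvPolynomial Pool.Agent.H18.Ex Pool.Agent.H21.NX Pool.Agent.H18.Ta

private theorem LBas_eval {a b : ℕ} (q : Z a b → ℂ) (α β : Z a b → ℕ) :
    eval q (tcr (fun i => (X i : MvPolynomial (Z a b) ℂ)) α β) = tcr q α β := by
  unfold tcr
  rw [map_prod]
  refine prod_congr rfl fun i _ => ?_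
  rw [map_mul, map_natCast, map_pow, eval_X]

/-- The conditions in terms of `tcr` (`MvPolynomial.eval` of the coefficients, `tcr_map` in
`Pool/Agent/H18/Ex/Gen.lean`). -/
theorem mem_LV {a b d j : ℕ} {κ : Type} (m : κ → Finset (ℕ × ℕ)) (p : κ → Z a b → ℂ)
    (f : {α // α ∈ Bx a b d j} → ℂ) :
    f ∈ (LSys a b d j).V m p ↔ ∀ i (β : Z a b → ℕ), (xd β, yd β) ∈ m i →
      ∑ α : {α // α ∈ Bx a b d j}, tcr (p i) α.1 β * f α = 0 := by
  rw [Sys.mem_V]
  constructor
  · intro h i β hβ
    have h1 := h i ⟨β, hβ⟩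
    refine Eq.trans (sum_congr rfl fun α _ => ?_) h1
    rw [← LBas_eval (p i) α.1 β]
    rfl
  · intro h i r
    have h1 := h i r.1 r.2
    refine Eq.trans (sum_congr rfl fun α _ => ?_) h1
    rw [← LBas_eval (p i) α.1 r.1]
    rfl

theorem dom_of_subset {a b d j : ℕ} {Λ Λ' : Finset (ℕ × ℕ)} (h : Λ ⊆ Λ') :
    (LSys a b d j).Dom Λ' Λ := by
  intro q f hf
  rw [mem_LV] at hf ⊢
  exact fun i β hβ => hf i β (h hβ)

private theorem LBas_card_Sx {ι : Type} [Fintype ι] [DecidableEq ι] (n : ℕ) :
    (Sx ι n).card = Nat.multichoose (Fintype.card ι) n := by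
  rw [← card_univ, ← card_finsuppAntidiag_nat_eq_multichoose]
  symm
  apply card_bij (fun (α : ι →₀ ℕ) _ => (⇑α : ι → ℕ))
  · intro α hα
    rw [mem_finsuppAntidiag] at hα
    exact mem_Sx.2 hα.1
  · intro α _ β _ h
    exact DFunLike.coe_injective h
  · intro f hf
    refine ⟨Finsupp.equivFunOnFinite.symm f, ?_, rfl⟩
    rw [mem_finsuppAntidiag]
    exact ⟨mem_Sx.1 hf, subset_univ _⟩

/-- The exponents of the level `j` are pairs of a multi-index of degree `d - j` in `a` variables and
one of degree `j` in `b` variables (`multichoose a (d - j)` and `multichoose b j` of them;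
e.g. `Finset.card_piAntidiag`, or `Sym.card_sym_eq_multichoose`). -/
theorem card_Bx {a b d j : ℕ} (hj : j ≤ d) : (Bx a b d j).card = bet a b d j := by
  unfold bet
  have h1 := LBas_card_Sx (ι := Fin a) (d - j)
  have h2 := LBas_card_Sx (ι := Fin b) j
  rw [Fintype.card_fin] at h1 h2
  rw [← h1, ← h2, ← card_product]
  apply card_bij (fun (α : Z a b → ℕ) _ => ((fun i => α (Sum.inl i), fun i => α (Sum.inr i)) : (Fin a → ℕ) × (Fin b → ℕ)))
  · intro α hα
    rw [mem_Bx] at hα
    rw [mem_product, mem_Sx, mem_Sx]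
    constructor
    · change xd α = d - j
      omega
    · exact hα.2
  · intro α _ β _ h
    rw [Prod.mk.injEq] at h
    funext z
    rcases z with i | i
    · exact congrFun h.1 i
    · exact congrFun h.2 i
  · intro f hf
    rw [mem_product, mem_Sx, mem_Sx] at hf
    refine ⟨Sum.elim f.1 f.2, ?_, rfl⟩
    rw [mem_Bx]
    have h3 : xd (Sum.elim f.1 f.2 : Z a b → ℕ) = ∑ i, f.1 i := rfl
    have h4 : yd (Sum.elim f.1 f.2 : Z a b → ℕ) = ∑ i, f.2 i := rfl
    omega

/-- `∑_j bet = binom(a + b - 1 + d, d) = ell (a + b - 1) (d + 1)` (Vandermonde for `multichoose`; or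
count `Sx (Z a b) d`). -/
theorem sum_bet {a b : ℕ} (ha : 1 ≤ a) (hb : 1 ≤ b) (d : ℕ) :
    ∑ j ∈ range (d + 1), bet a b d j = ell (a + b - 1) (d + 1) := by
  have h1 := LBas_card_Sx (ι := Z a b) d
  rw [Fintype.card_sum, Fintype.card_fin, Fintype.card_fin] at h1
  have h2 : (Sx (Z a b) d).card = ∑ j ∈ range (d + 1), (Bx a b d j).card := by
    unfold Bx
    apply card_eq_sum_card_fiberwise
    intro α hα
    rw [Finset.mem_coe, mem_Sx, Fintype.sum_sum_type] at hα
    rw [Finset.mem_coe, mem_range]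
    unfold yd
    omega
  have h3 : ∑ j ∈ range (d + 1), bet a b d j = ∑ j ∈ range (d + 1), (Bx a b d j).card := by
    refine sum_congr rfl fun j hj => ?_
    rw [mem_range] at hj
    rw [card_Bx (by omega)]
  rw [h3, ← h2, h1, Nat.multichoose_eq]
  unfold ell
  have h4 : d + 1 + (a + b - 1) - 1 = a + b + d - 1 := by omega
  rw [h4]
  have h5 : a + b + d - 1 = (a + b - 1) + d := by omega
  rw [h5]
  exact (Nat.choose_symm_add (a := a + b - 1) (b := d)).symm

end Pool.Agent.H51.TB

end
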