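import Pool.Agent.H94.LP2.M01
import Pool.Agent.H94.LP2.M04

/-! The parts of this file: H21.HD.PowSpanL, H51.TB.Grow, H51.TB.Gn, H51.TB.Gd, H51.TB.Gs, H51.TB.Sw. -/

section

/-!
Powers of linear forms span.
-/

namespace Pool.Agent.H21.HD

open MvPolynomial
open scoped Classical

namespace PowSpanLX

theorem coeff_lin_pow {τ : Type} [Fintype τ] (v : τ → ℂ) (s : τ →₀ ℕ) (e : ℕ) :
    coeff s (lin v ^ e) = if s.degree = e then (s.multinomial : ℂ) * ∏ t, v t ^ s t else 0 := by
  have h1 : lin v = (Finsupp.equivFunOnFinite.symm v).linearCombination ℂ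
      (X : τ → MvPolynomial τ ℂ) := by
    rw [Finsupp.linearCombination_apply, Finsupp.sum_fintype _ _ (fun i => by rw [zero_smul])]
    unfold lin
    refine Finset.sum_congr rfl fun t _ => ?_
    rw [smul_eq_C_mul]
    rfl
  rw [h1, coeff_linearCombination_X_pow]
  have h2 : s.sum (fun _ m => m) = s.degree := rfl
  rw [h2, Finsupp.prod_fintype _ _ (fun i => by rw [pow_zero])]
  rfl

theorem multinomial_ne_zero {τ : Type} (s : τ →₀ ℕ) : (s.multinomial : ℂ) ≠ 0 := by
  rw [Nat.cast_ne_zero]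
  unfold Finsupp.multinomial
  exact (Nat.multinomial_pos _ _).ne'

theorem mem_anti {τ : Type} [Fintype τ] (e : ℕ) (s : τ →₀ ℕ) :
    s ∈ Finset.finsuppAntidiag (Finset.univ : Finset τ) e ↔ s.degree = e := by
  rw [Finset.mem_finsuppAntidiag, Finsupp.degree_eq_sum]
  simp

/-- A homogeneous polynomial is the sum of its monomials. -/
theorem homog_eq {τ : Type} [Fintype τ] {e : ℕ} {F : MvPolynomial τ ℂ} (hF : F.IsHomogeneous e) :
    F = ∑ s ∈ Finset.finsuppAntidiag (Finset.univ : Finset τ) e, monomial s (coeff s F) := by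
  ext s
  rw [coeff_sum]
  simp only [coeff_monomial]
  rw [Finset.sum_ite_eq']
  split_ifs with h
  · rfl
  · rw [mem_anti] at h
    exact hF.coeff_eq_zero h

theorem span_all (τ : Type) [Fintype τ] (e : ℕ) :
    homogeneousSubmodule τ ℂ e = Submodule.span ℂ (Set.range fun v : τ → ℂ => lin v ^ e) := by
  apply le_antisymm
  · intro F hF
    by_contra hcon
    obtain ⟨f, hfF, hker⟩ := Submodule.exists_le_ker_of_notMem hcon
    apply hfF
    have h0 : ∀ v : τ → ℂ, f (lin v ^ e) = 0 := fun v =>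
      hker (Submodule.subset_span ⟨v, rfl⟩)
    set S := Finset.finsuppAntidiag (Finset.univ : Finset τ) e with hS
    have hhom : ∀ v : τ → ℂ, (lin v ^ e).IsHomogeneous e := by
      intro v
      have h1 : (lin v).IsHomogeneous 1 := by
        unfold lin
        apply IsHomogeneous.sum
        intro t _
        exact isHomogeneous_C_mul_X _ _
      have := h1.pow e
      rwa [one_mul] at this
    have hP : ∑ s ∈ S, monomial s ((s.multinomial : ℂ) * f (monomial s 1)) = 0 := by
      apply MvPolynomial.funext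
      intro v
      rw [map_sum, map_zero, ← h0 v]
      conv_rhs => rw [homog_eq (hhom v), map_sum]
      refine Finset.sum_congr rfl fun s hs => ?_
      rw [coeff_lin_pow, if_pos ((mem_anti e s).1 hs), eval_monomial,
        Finsupp.prod_fintype _ _ (fun i => by rw [pow_zero])]
      have : (monomial s) ((s.multinomial : ℂ) * ∏ t, v t ^ s t) =
          ((s.multinomial : ℂ) * ∏ t, v t ^ s t) • (monomial s (1 : ℂ)) := by
        rw [smul_monomial, smul_eq_mul, mul_one]
      rw [this, map_smul, smul_eq_mul]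
      ring
    have hcoef : ∀ s ∈ S, f (monomial s 1) = 0 := by
      intro s hs
      have h1 : coeff s (∑ s ∈ S, monomial s ((s.multinomial : ℂ) * f (monomial s 1))) = 0 := by
        rw [hP, coeff_zero]
      rw [coeff_sum] at h1
      simp only [coeff_monomial] at h1
      rw [Finset.sum_ite_eq', if_pos hs] at h1
      rcases mul_eq_zero.1 h1 with h | h
      · exact absurd h (multinomial_ne_zero s)
      · exact h
    rw [homog_eq hF, map_sum]
    refine Finset.sum_eq_zero fun s hs => ?_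
    have : (monomial s) (coeff s F) = coeff s F • (monomial s (1 : ℂ)) := by
      rw [smul_monomial, smul_eq_mul, mul_one]
    rw [this, map_smul, hcoef s hs, smul_zero]
  · rw [Submodule.span_le]
    rintro _ ⟨v, rfl⟩
    have h1 : (lin v).IsHomogeneous 1 := by
      unfold lin
      apply IsHomogeneous.sum
      intro t _
      exact isHomogeneous_C_mul_X _ _
    have := h1.pow e
    rw [one_mul] at this
    exact this

theorem finrank_le (τ : Type) [Fintype τ] (e : ℕ) :
    Module.finrank ℂ (homogeneousSubmodule τ ℂ e) ≤ (Fintype.card τ + e - 1).choose e := by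
  set S := Finset.finsuppAntidiag (Finset.univ : Finset τ) e with hS
  have h1 : homogeneousSubmodule τ ℂ e ≤
      Submodule.span ℂ ((S.image fun s => monomial s (1 : ℂ) : Finset (MvPolynomial τ ℂ)) :
        Set (MvPolynomial τ ℂ)) := by
    intro F hF
    rw [homog_eq hF]
    refine Submodule.sum_mem _ fun s hs => ?_
    have : (monomial s) (coeff s F) = coeff s F • (monomial s (1 : ℂ)) := by
      rw [smul_monomial, smul_eq_mul, mul_one]
    rw [this]
    refine Submodule.smul_mem _ _ (Submodule.subset_span ?_)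
    exact Finset.mem_coe.2 (Finset.mem_image_of_mem _ hs)
  have h2 := Submodule.finrank_mono h1
  refine h2.trans ?_
  refine (finrank_span_finset_le_card _).trans ?_
  refine Finset.card_image_le.trans ?_
  rw [hS, Finset.card_finsuppAntidiag_nat_eq_choose, Finset.card_univ]

end PowSpanLX

open PowSpanLX in
/-- The powers of linear forms span: a family of `dim S_e` linear forms whose `e`-th powers span
the forms of degree `e`. -/
theorem pow_span (τ : Type) [Fintype τ] [Nonempty τ] (e : ℕ) :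
    ∃ w : Fin ((Fintype.card τ - 1 + e).choose e) → τ → ℂ,
      homogeneousSubmodule τ ℂ e ≤ Submodule.span ℂ (Set.range fun k => lin (w k) ^ e) := by
  have hcard : 1 ≤ Fintype.card τ := Fintype.card_pos
  have hle := finrank_le τ e
  rw [show Fintype.card τ + e - 1 = Fintype.card τ - 1 + e by omega] at hle
  have hfin : Module.Finite ℂ (homogeneousSubmodule τ ℂ e) :=
    Module.Finite.iff_fg.2 (homogeneousSubmodule_fg _ _ e)
  rw [span_all] at hfin hle
  obtain ⟨f, hf1, hf2, -⟩ := Submodule.exists_fun_fin_finrank_span_eq ℂ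
    (Set.range fun v : τ → ℂ => lin v ^ e)
  choose v hv using hf1
  refine ⟨fun k => if hk : (k : ℕ) < Module.finrank ℂ
    (Submodule.span ℂ (Set.range fun v : τ → ℂ => lin v ^ e)) then v ⟨k, hk⟩ else 0, ?_⟩
  refine ((span_all τ e).trans hf2.symm).le.trans ?_
  apply Submodule.span_mono
  rintro _ ⟨i, rfl⟩
  refine ⟨⟨i, lt_of_lt_of_le i.2 hle⟩, ?_⟩
  change lin (dite ((i : ℕ) < _) _ _) ^ e = f i
  rw [dif_pos i.2]
  exact hv i

end Pool.Agent.H21.HD

end

section

/-!
# Module D4 (TB): growth of `ell`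

`ell n (k + 1) = binom (n + k, k)`; `n^k ≤ k! * ell n (k + 1)`, `ell n (k + 1) ≤ (2 n)^k` for
`k ≤ n`.
-/

namespace Pool.Agent.H51.TB

open Finset Pool.Agent.H18.Ex

private theorem Grow_eq (n k : ℕ) : ell n (k + 1) = (n + k).choose k := by
  unfold ell
  have h : k + 1 + n - 1 = n + k := by omega
  rw [h]
  have h2 := Nat.choose_symm_add (a := n) (b := k)
  exact h2

/-- the lower bound -/
private theorem Grow_lo (n k : ℕ) : (n : ℝ) ^ k ≤ (k.factorial : ℝ) * (ell n (k + 1) : ℝ) := by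
  rw [Grow_eq]
  have h1 : n ^ k ≤ k.factorial * (n + k).choose k := by
    rw [← Nat.ascFactorial_eq_factorial_mul_choose]
    exact (Nat.pow_le_pow_left (Nat.le_succ n) k).trans (Nat.pow_succ_le_ascFactorial (n + 1) k)
  exact_mod_cast h1

/-- the upper bound -/
private theorem Grow_hi {n c : ℕ} (hc : 1 ≤ c) (h : c ≤ n + 1) :
    (ell n c : ℝ) ≤ (2 * (n : ℝ)) ^ (c - 1) := by
  obtain ⟨k, rfl⟩ : ∃ k, c = k + 1 := ⟨c - 1, by omega⟩
  rw [Grow_eq, Nat.add_sub_cancel]
  have h1 : (n + k).choose k ≤ (2 * n) ^ k :=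
    (Nat.choose_le_pow (n + k) k).trans (Nat.pow_le_pow_left (by omega) k)
  exact_mod_cast h1

private theorem Grow_hi' {n c : ℕ} (hc : 1 ≤ c) (h : c ≤ n) :
    (ell (n - 1) c : ℝ) ≤ (2 * (n : ℝ)) ^ (c - 1) := by
  refine (Grow_hi hc (by omega)).trans ?_
  apply pow_le_pow_left₀ (by positivity)
  have h1 : ((n - 1 : ℕ) : ℝ) ≤ (n : ℝ) := by
    exact_mod_cast Nat.sub_le n 1
  linarith

/-- the common estimate -/
private theorem Grow_key (d : ℕ) (K : ℝ) : ∃ n₀ : ℕ, ∀ n : ℕ, n₀ ≤ n → d + 2 ≤ n ∧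
    ∀ e : ℕ, e ≤ 2 * d → |K| * ((d.factorial : ℝ) ^ 2 * (2 * (n : ℝ)) ^ e) ≤
      ((n - 1 : ℕ) : ℝ) ^ (e + 1) := by
  obtain ⟨N, hN⟩ := exists_nat_ge (|K| * ((d.factorial : ℝ) ^ 2 * (4 : ℝ) ^ (2 * d)))
  refine ⟨N + d + 2, fun n hn => ⟨by omega, fun e he => ?_⟩⟩
  have h1 : (1 : ℝ) ≤ ((n - 1 : ℕ) : ℝ) := by
    exact_mod_cast (by omega : 1 ≤ n - 1)
  have h2 : 2 * (n : ℝ) ≤ 4 * ((n - 1 : ℕ) : ℝ) := by
    have : 2 * n ≤ 4 * (n - 1) := by omega
    exact_mod_cast this
  have h3 : (2 * (n : ℝ)) ^ e ≤ (4 : ℝ) ^ (2 * d) * ((n - 1 : ℕ) : ℝ) ^ e := by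
    calc (2 * (n : ℝ)) ^ e ≤ (4 * ((n - 1 : ℕ) : ℝ)) ^ e :=
          pow_le_pow_left₀ (by positivity) h2 e
      _ = (4 : ℝ) ^ e * ((n - 1 : ℕ) : ℝ) ^ e := mul_pow _ _ _
      _ ≤ (4 : ℝ) ^ (2 * d) * ((n - 1 : ℕ) : ℝ) ^ e := by
          apply mul_le_mul_of_nonneg_right _ (by positivity)
          exact pow_le_pow_right₀ (by norm_num) he
  have h4 : (N : ℝ) ≤ ((n - 1 : ℕ) : ℝ) := by
    exact_mod_cast (by omega : N ≤ n - 1)
  have h5 : 0 ≤ |K| := abs_nonneg K
  calc |K| * ((d.factorial : ℝ) ^ 2 * (2 * (n : ℝ)) ^ e)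
      ≤ |K| * ((d.factorial : ℝ) ^ 2 * ((4 : ℝ) ^ (2 * d) * ((n - 1 : ℕ) : ℝ) ^ e)) := by
        apply mul_le_mul_of_nonneg_left _ h5
        apply mul_le_mul_of_nonneg_left h3 (by positivity)
    _ = (|K| * ((d.factorial : ℝ) ^ 2 * (4 : ℝ) ^ (2 * d))) * ((n - 1 : ℕ) : ℝ) ^ e := by ring
    _ ≤ ((n - 1 : ℕ) : ℝ) * ((n - 1 : ℕ) : ℝ) ^ e := by
        apply mul_le_mul_of_nonneg_right (hN.trans h4) (by positivity)
    _ = ((n - 1 : ℕ) : ℝ) ^ (e + 1) := by ring

/-- the form used for a product on the left and one factor on the right -/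
private theorem Grow_fin {d n : ℕ} {K P : ℝ} (hd : 1 ≤ d) (hn : d + 2 ≤ n) (hP0 : 0 ≤ P)
    (hP : P ≤ (2 * (n : ℝ)) ^ (d - 1))
    (hk : ∀ e : ℕ, e ≤ 2 * d → |K| * ((d.factorial : ℝ) ^ 2 * (2 * (n : ℝ)) ^ e) ≤
      ((n - 1 : ℕ) : ℝ) ^ (e + 1)) : K * P ≤ (ell (n - 1) (d + 1) : ℝ) := by
  have h1 := hk (d - 1) (by omega)
  rw [show d - 1 + 1 = d by omega] at h1
  have h2 := Grow_lo (n - 1) d
  have hf : (1 : ℝ) ≤ (d.factorial : ℝ) := by exact_mod_cast Nat.one_le_iff_ne_zero.mpr (Nat.factorial_ne_zero d)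
  have h3 : (d.factorial : ℝ) * (K * P) ≤ (d.factorial : ℝ) * (ell (n - 1) (d + 1) : ℝ) := by
    calc (d.factorial : ℝ) * (K * P) ≤ (d.factorial : ℝ) * (|K| * P) := by
          apply mul_le_mul_of_nonneg_left _ (by positivity)
          exact mul_le_mul_of_nonneg_right (le_abs_self K) hP0
      _ ≤ (d.factorial : ℝ) * (|K| * (2 * (n : ℝ)) ^ (d - 1)) := by
          apply mul_le_mul_of_nonneg_left _ (by positivity)
          exact mul_le_mul_of_nonneg_left hP (abs_nonneg K)
      _ ≤ (d.factorial : ℝ) ^ 2 * (|K| * (2 * (n : ℝ)) ^ (d - 1)) := by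
          apply mul_le_mul_of_nonneg_right _ (by positivity)
          nlinarith
      _ = |K| * ((d.factorial : ℝ) ^ 2 * (2 * (n : ℝ)) ^ (d - 1)) := by ring
      _ ≤ _ := h1.trans h2
  exact le_of_mul_le_mul_left h3 (by linarith)

/-- Three factors against two, the exponent is larger by one (`t + M + μ ≤ t + d`). -/
theorem grow_three (d : ℕ) (K : ℝ) : ∃ n₀ : ℕ, ∀ n : ℕ, n₀ ≤ n → ∀ t M μ : ℕ, 1 ≤ t → 1 ≤ M →
    1 ≤ μ → t ≤ d → M + μ ≤ d →
    K * ((ell n (t + 1) : ℝ) * ell n M * ell (n - 1) μ) ≤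
      (ell (n - 1) t : ℝ) * ell (n - 1) (d + 1) := by
  obtain ⟨n₀, h⟩ := Grow_key d K
  refine ⟨n₀, fun n hn t M μ ht hM hμ htd hMμ => ?_⟩
  obtain ⟨hnd, hk⟩ := h n hn
  have a1 := Grow_hi (n := n) (c := t + 1) (by omega) (by omega)
  have a2 := Grow_hi (n := n) (c := M) hM (by omega)
  have a3 := Grow_hi' (n := n) (c := μ) hμ (by omega)
  rw [Nat.add_sub_cancel] at a1
  have b1 := Grow_lo (n - 1) (t - 1)
  have b2 := Grow_lo (n - 1) d
  rw [show t - 1 + 1 = t by omega] at b1
  have hn1 : (1 : ℝ) ≤ 2 * (n : ℝ) := by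
    exact_mod_cast (by omega : 1 ≤ 2 * n)
  have c1 : (ell n (t + 1) : ℝ) * ell n M * ell (n - 1) μ ≤ (2 * (n : ℝ)) ^ (t + d - 2) := by
    calc (ell n (t + 1) : ℝ) * ell n M * ell (n - 1) μ
        ≤ (2 * (n : ℝ)) ^ t * (2 * (n : ℝ)) ^ (M - 1) * (2 * (n : ℝ)) ^ (μ - 1) := by
          gcongr
      _ = (2 * (n : ℝ)) ^ (t + (M - 1) + (μ - 1)) := by rw [pow_add, pow_add]
      _ ≤ (2 * (n : ℝ)) ^ (t + d - 2) := pow_le_pow_right₀ hn1 (by omega)
  have c2 := hk (t + d - 2) (by omega)
  rw [show t + d - 2 + 1 = t - 1 + d by omega, pow_add] at c2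
  have hf1 : (1 : ℝ) ≤ ((t - 1).factorial : ℝ) := by
    exact_mod_cast Nat.one_le_iff_ne_zero.mpr (Nat.factorial_ne_zero _)
  have hf2 : ((t - 1).factorial : ℝ) ≤ (d.factorial : ℝ) := by
    exact_mod_cast Nat.factorial_le (by omega : t - 1 ≤ d)
  set x : ℝ := (ell (n - 1) t : ℝ) with hx
  set y : ℝ := (ell (n - 1) (d + 1) : ℝ) with hy
  have hx0 : 0 ≤ x := Nat.cast_nonneg _
  have hy0 : 0 ≤ y := Nat.cast_nonneg _
  have h3 : (d.factorial : ℝ) ^ 2 * (K * ((ell n (t + 1) : ℝ) * ell n M * ell (n - 1) μ)) ≤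
      (d.factorial : ℝ) ^ 2 * (x * y) := by
    calc (d.factorial : ℝ) ^ 2 * (K * ((ell n (t + 1) : ℝ) * ell n M * ell (n - 1) μ))
        ≤ (d.factorial : ℝ) ^ 2 * (|K| * (2 * (n : ℝ)) ^ (t + d - 2)) := by
          apply mul_le_mul_of_nonneg_left _ (by positivity)
          exact mul_le_mul (le_abs_self K) c1 (by positivity) (abs_nonneg K)
      _ = |K| * ((d.factorial : ℝ) ^ 2 * (2 * (n : ℝ)) ^ (t + d - 2)) := by ring
      _ ≤ ((n - 1 : ℕ) : ℝ) ^ (t - 1) * ((n - 1 : ℕ) : ℝ) ^ d := c2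
      _ ≤ (((t - 1).factorial : ℝ) * x) * ((d.factorial : ℝ) * y) := by
          gcongr
      _ ≤ ((d.factorial : ℝ) * x) * ((d.factorial : ℝ) * y) := by
          gcongr
      _ = (d.factorial : ℝ) ^ 2 * (x * y) := by ring
  have hpos : (0 : ℝ) < (d.factorial : ℝ) ^ 2 := by positivity
  exact le_of_mul_le_mul_left h3 hpos

/-- For the dominating class. -/
theorem grow_big (d : ℕ) (K : ℝ) : ∃ n₀ : ℕ, ∀ n : ℕ, n₀ ≤ n → ∀ M : ℕ, 1 ≤ M → M ≤ d →
    K * ((ell n (d + 1 - M) : ℝ) * ell n M) ≤ (ell (n - 1) (d + 1) : ℝ) := by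
  obtain ⟨n₀, h⟩ := Grow_key d K
  refine ⟨n₀, fun n hn M hM hMd => ?_⟩
  obtain ⟨hnd, hk⟩ := h n hn
  refine Grow_fin (by omega) hnd (by positivity) ?_ hk
  have a1 := Grow_hi (n := n) (c := d + 1 - M) (by omega) (by omega)
  have a2 := Grow_hi (n := n) (c := M) hM (by omega)
  calc (ell n (d + 1 - M) : ℝ) * ell n M
      ≤ (2 * (n : ℝ)) ^ (d + 1 - M - 1) * (2 * (n : ℝ)) ^ (M - 1) := by gcongr
    _ = (2 * (n : ℝ)) ^ (d - 1) := by
        rw [← pow_add]
        congr 1
        omega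

/-- `K * n * ell n μ * ell (n - 1) μ ≤ ell (n - 1) (d + 1)` if `2 μ ≤ d`. -/
theorem grow_sq (d : ℕ) (K : ℝ) : ∃ n₀ : ℕ, ∀ n : ℕ, n₀ ≤ n → ∀ μ : ℕ, 1 ≤ μ → 2 * μ ≤ d →
    K * ((n : ℝ) * ell n μ * ell (n - 1) μ) ≤ (ell (n - 1) (d + 1) : ℝ) := by
  obtain ⟨n₀, h⟩ := Grow_key d K
  refine ⟨n₀, fun n hn μ hμ hμd => ?_⟩
  obtain ⟨hnd, hk⟩ := h n hn
  refine Grow_fin (by omega) hnd (by positivity) ?_ hk
  have a1 := Grow_hi (n := n) (c := μ) hμ (by omega)
  have a2 := Grow_hi' (n := n) (c := μ) hμ (by omega)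
  have hn0 : (0 : ℝ) ≤ (n : ℝ) := Nat.cast_nonneg n
  have hn1 : (1 : ℝ) ≤ 2 * (n : ℝ) := by
    exact_mod_cast (by omega : 1 ≤ 2 * n)
  have hn2 : (n : ℝ) ≤ 2 * (n : ℝ) := by linarith
  calc (n : ℝ) * ell n μ * ell (n - 1) μ
      ≤ (2 * (n : ℝ)) * (2 * (n : ℝ)) ^ (μ - 1) * (2 * (n : ℝ)) ^ (μ - 1) := by gcongr
    _ = (2 * (n : ℝ)) ^ (1 + (μ - 1) + (μ - 1)) := by rw [pow_add, pow_add, pow_one]
    _ ≤ (2 * (n : ℝ)) ^ (d - 1) := pow_le_pow_right₀ hn1 (by omega)

/-- The length of a point is small. -/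
theorem grow_one (d : ℕ) (K : ℝ) : ∃ n₀ : ℕ, ∀ n : ℕ, n₀ ≤ n → ∀ m : ℕ, m ≤ d →
    K * (ell n m : ℝ) ≤ (ell (n - 1) (d + 1) : ℝ) := by
  obtain ⟨n₀, h⟩ := Grow_key d K
  refine ⟨n₀, fun n hn m hm => ?_⟩
  obtain ⟨hnd, hk⟩ := h n hn
  rcases Nat.eq_zero_or_pos m with rfl | hm0
  · have h0 : ell n 0 = 0 := by
      unfold ell
      exact Nat.choose_eq_zero_of_lt (by omega)
    rw [h0, Nat.cast_zero, mul_zero]
    exact Nat.cast_nonneg _
  · refine Grow_fin (by omega) hnd (by positivity) ?_ hk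
    have a1 := Grow_hi (n := n) (c := m) hm0 (by omega)
    have hn1 : (1 : ℝ) ≤ 2 * (n : ℝ) := by
      exact_mod_cast (by omega : 1 ≤ 2 * n)
    exact a1.trans (pow_le_pow_right₀ hn1 (by omega))

end Pool.Agent.H51.TB

end

section

/-!
# Module A1 (TB): general positions

Everything is as in `Pool/Agent/H21/NX/GenA.lean` (with `Fin (r + 1)` replaced by `ν`), and
`SwapX.gen_fix` of `Pool/Agent/H21/NX/Swap.lean` for the last statement.
-/

namespace Pool.Agent.H51.TB

open Finset MvPolynomial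

variable {κ κ' ν : Type}

private theorem GnX.eval_aeval {σ τ : Type*} (a : τ → ℂ) (g : σ → MvPolynomial τ ℂ)
    (G : MvPolynomial σ ℂ) : eval a (aeval g G) = eval (fun x => eval a (g x)) G := by
  induction G using MvPolynomial.induction_on with
  | C c => simp
  | add p q hp hq => rw [map_add, map_add, map_add, hp, hq]
  | mul_X p i hp => rw [map_mul, map_mul, map_mul, hp, aeval_X, eval_X]

private theorem GnX.exists_eval_ne_zero {τ : Type*} {G : MvPolynomial τ ℂ} (hG : G ≠ 0) :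
    ∃ a, eval a G ≠ 0 := by
  by_contra hcon
  push Not at hcon
  exact hG (MvPolynomial.funext fun a => by rw [hcon a, map_zero])

theorem Gn.mono {P Q : (κ → ν → ℂ) → Prop} (h : Gn κ ν P) (hPQ : ∀ p, P p → Q p) : Gn κ ν Q := by
  obtain ⟨G, hG, h⟩ := h
  exact ⟨G, hG, fun p hp => hPQ p (h p hp)⟩

theorem Gn.and {P Q : (κ → ν → ℂ) → Prop} (h : Gn κ ν P) (h' : Gn κ ν Q) :
    Gn κ ν fun p => P p ∧ Q p := by
  obtain ⟨G, hG, h⟩ := h
  obtain ⟨G', hG', h'⟩ := h'
  refine ⟨G * G', mul_ne_zero hG hG', fun p hp => ?_⟩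
  rw [map_mul] at hp
  exact ⟨h p (left_ne_zero_of_mul hp), h' p (right_ne_zero_of_mul hp)⟩

/-- A nonzero polynomial over `ℂ` has a non-root (`MvPolynomial.funext`). -/
theorem Gn.exists {P : (κ → ν → ℂ) → Prop} (h : Gn κ ν P) : ∃ p, P p := by
  obtain ⟨G, hG, h⟩ := h
  obtain ⟨a, ha⟩ := GnX.exists_eval_ne_zero hG
  exact ⟨fun i j => a (i, j), h (fun i j => a (i, j)) ha⟩

theorem Gn.all {α : Type} (s : Finset α) {P : α → (κ → ν → ℂ) → Prop}
    (h : ∀ a ∈ s, Gn κ ν (P a)) : Gn κ ν fun p => ∀ a ∈ s, P a p := by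
  classical
  induction s using Finset.induction_on with
  | empty => exact ⟨1, one_ne_zero, fun p _ a ha => absurd ha (Finset.notMem_empty a)⟩
  | insert a s has ih =>
    have h1 := h a (Finset.mem_insert_self a s)
    have h2 := ih fun b hb => h b (Finset.mem_insert_of_mem hb)
    refine (h1.and h2).mono fun p hp b hb => ?_
    rcases Finset.mem_insert.mp hb with rfl | hb
    · exact hp.1
    · exact hp.2 b hb

/-- Use `MvPolynomial.rename` with the injective map `(i, j) ↦ (φ i, j)`. -/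
theorem Gn.comap (φ : κ' → κ) (hφ : Function.Injective φ) {P : (κ' → ν → ℂ) → Prop}
    (h : Gn κ' ν P) : Gn κ ν fun p => P fun i => p (φ i) := by
  obtain ⟨G, hG, h⟩ := h
  have hinj : Function.Injective (fun x : κ' × ν => (φ x.1, x.2)) := by
    intro x y hxy
    have h1 := congrArg Prod.fst hxy
    have h2 := congrArg Prod.snd hxy
    exact Prod.ext (hφ h1) h2
  refine ⟨rename (fun x : κ' × ν => (φ x.1, x.2)) G, ?_, fun p hp => ?_⟩
  · intro h0
    apply hG
    apply rename_injective _ hinj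
    rw [h0, map_zero]
  · apply h
    rw [eval_rename] at hp
    exact hp

/-- Fixing some of the points at (general) positions. -/
theorem Gn.fix {P : (κ ⊕ κ' → ν → ℂ) → Prop} (h : Gn (κ ⊕ κ') ν P) :
    ∃ p₀ : κ → ν → ℂ, Gn κ' ν fun q => P (Sum.elim p₀ q) := by
  obtain ⟨G, hG0, hG⟩ := h
  obtain ⟨a, ha⟩ := GnX.exists_eval_ne_zero hG0
  let p₀ : κ → ν → ℂ := fun i j => a (Sum.inl i, j)
  let G' : MvPolynomial (κ' × ν) ℂ := aeval (fun x : (κ ⊕ κ') × ν =>
    Sum.elim (fun i => (C (p₀ i x.2) : MvPolynomial (κ' × ν) ℂ)) (fun k => X (k, x.2)) x.1) G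
  have hG' : ∀ y : κ' → ν → ℂ, eval (fun x => y x.1 x.2) G' =
      eval (fun x : (κ ⊕ κ') × ν => Sum.elim p₀ y x.1 x.2) G := by
    intro y
    simp only [G']
    rw [GnX.eval_aeval]
    refine congrArg (fun f : (κ ⊕ κ') × ν → ℂ => eval f G) (funext fun x => ?_)
    obtain ⟨i | u, j⟩ := x
    · simp
    · simp
  refine ⟨p₀, G', ?_, fun y hy => ?_⟩
  · intro h0
    have h1 := hG' fun k j => a (Sum.inr k, j)
    rw [h0, map_zero] at h1
    apply ha
    have h2 : a = fun x : (κ ⊕ κ') × ν => Sum.elim p₀ (fun k j => a (Sum.inr k, j)) x.1 x.2 := by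
      funext x
      obtain ⟨i | k, j⟩ := x <;> rfl
    rw [h2]
    exact h1.symm
  · exact hG _ (by rw [← hG']; exact hy)

end Pool.Agent.H51.TB

end

section

/-!
# Module A2 (TB): the general dimension, first facts

As in `Pool/Agent/H21/NX/GenB.lean` and `SwapX.fat_elim`, `SwapX.finrank_sup` in
`Pool/Agent/H21/NX/Swap.lean`.  For `gn_gd`: the matrix of all conditions (rows `Σ i, S.R (m i)`,
columns `E`, entries `rename (fun v => (i, v)) (S.co (m i) r e)`) and `exists_poly_rank`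
(`Pool/Agent/H18/FatToric.lean`): the rank at general positions is at least the rank at a
position where the minimum `gd m` is attained; `finrank ker + finrank range = card E`.
-/

namespace Pool.Agent.H51.TB

open Finset MvPolynomial

variable {E ν T : Type} [Fintype E] (S : Sys E ν T) {κ κ' : Type}

/-- The values of the conditions as polynomials in the position. -/
private noncomputable def GdX.lam {E ν : Type} [Fintype E] (c : E → MvPolynomial ν ℂ) :
    (E → ℂ) →ₗ[ℂ] MvPolynomial ν ℂ where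
  toFun w := ∑ e, w e • c e
  map_add' := fun w w' => by
    simp only [Pi.add_apply, add_smul, sum_add_distrib]
  map_smul' := fun a w => by
    simp only [Pi.smul_apply, smul_eq_mul, mul_smul, smul_sum, RingHom.id_apply]

private theorem GdX.eval_lam {E ν : Type} [Fintype E] (c : E → MvPolynomial ν ℂ) (q : ν → ℂ)
    (w : E → ℂ) : eval q (GdX.lam c w) = ∑ e, eval q (c e) * w e := by
  unfold GdX.lam
  simp only [LinearMap.coe_mk, AddHom.coe_mk]
  rw [map_sum]
  refine sum_congr rfl fun e _ => ?_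
  rw [smul_eval, mul_comm]

private theorem GdX.mem_V_lam (m : κ → T) (p : κ → ν → ℂ) (f : E → ℂ) :
    f ∈ S.V m p ↔ ∀ i (r : S.R (m i)), eval (p i) (GdX.lam (S.co (m i) r) f) = 0 := by
  rw [S.mem_V]
  constructor
  · intro h i r
    rw [GdX.eval_lam]
    exact h i r
  · intro h i r
    have := h i r
    rwa [GdX.eval_lam] at this

/-- Points of a family with independent values. -/
private theorem GdX.exists_det_ne_zero {ι X : Type} [Fintype ι] [DecidableEq ι] (v : X → ι → ℂ)
    (h : ∀ c : ι → ℂ, (∀ x, ∑ τ, c τ * v x τ = 0) → c = 0) :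
    ∃ x : ι → X, (Matrix.of fun τ τ' => v (x τ) τ').det ≠ 0 := by
  classical
  have hspan : Submodule.span ℂ (Set.range v) = ⊤ := by
    by_contra hne
    obtain ⟨f, hf0, hf⟩ := Submodule.exists_le_ker_of_lt_top _ (lt_top_iff_ne_top.mpr hne)
    have hfe : ∀ w : ι → ℂ, f w = ∑ τ, f (Pi.single τ 1) * w τ := by
      intro w
      conv_lhs => rw [← Finset.univ_sum_single w]
      rw [map_sum]
      refine Finset.sum_congr rfl fun τ _ => ?_
      have : (Pi.single τ (w τ) : ι → ℂ) = w τ • Pi.single τ 1 := by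
        rw [← Pi.single_smul, smul_eq_mul, mul_one]
      rw [this, map_smul, smul_eq_mul, mul_comm]
    have hc := h (fun τ => f (Pi.single τ 1)) (fun x => by
      rw [← hfe]
      exact LinearMap.mem_ker.mp (hf (Submodule.subset_span ⟨x, rfl⟩)))
    apply hf0
    ext w
    have := congrFun hc w
    simpa using this
  obtain ⟨b, hb, hbs, hbl⟩ := exists_linearIndependent ℂ (Set.range v)
  rw [hspan] at hbs
  let B : Module.Basis b ℂ (ι → ℂ) := Module.Basis.mk hbl (by
    rw [Subtype.range_coe_subtype, Set.ofPred_mem_eq, hbs])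
  have hfin : Finite b := Module.Finite.finite_basis B
  let _ : Fintype b := Fintype.ofFinite b
  have hcard : Fintype.card ι = Fintype.card b := by
    rw [← Module.finrank_eq_card_basis B, Module.finrank_fintype_fun_eq_card]
  let e : ι ≃ b := Fintype.equivOfCardEq hcard
  have hx : ∀ τ : ι, ∃ x : X, v x = (e τ : ι → ℂ) := fun τ => hb (e τ).2
  choose x hx using hx
  refine ⟨x, ?_⟩
  have hli : LinearIndependent ℂ (Matrix.of fun τ τ' => v (x τ) τ').row := by
    have : (Matrix.of fun τ τ' => v (x τ) τ').row = fun τ => (e τ : ι → ℂ) := by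
      funext τ
      exact hx τ
    rw [this]
    exact hbl.comp e e.injective
  rw [Matrix.linearIndependent_rows_iff_isUnit, Matrix.isUnit_iff_isUnit_det] at hli
  exact hli.ne_zero

/-- Semicontinuity. -/
private theorem GdX.gn_finrank_le (m : κ → T) (p₀ : κ → ν → ℂ) :
    Gn κ ν fun p => Module.finrank ℂ (S.V m p) ≤ Module.finrank ℂ (S.V m p₀) := by
  classical
  obtain ⟨W', hW'⟩ := Submodule.exists_isCompl (S.V m p₀)
  let b := Module.finBasis ℂ W'
  let v : (Σ a, S.R (m a)) → Fin (Module.finrank ℂ W') → ℂ := fun x τ =>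
    eval (p₀ x.1) (GdX.lam (S.co (m x.1) x.2) (b τ : E → ℂ))
  obtain ⟨x, hx⟩ := GdX.exists_det_ne_zero v (by
    intro c hc
    have h1 : ((∑ τ, c τ • b τ : W') : E → ℂ) ∈ S.V m p₀ := by
      rw [GdX.mem_V_lam]
      intro a s
      have h2 := hc ⟨a, s⟩
      rw [Submodule.coe_sum, map_sum, map_sum, ← h2]
      refine Finset.sum_congr rfl fun τ _ => ?_
      rw [Submodule.coe_smul, map_smul, smul_eval]
    have h3 : ((∑ τ, c τ • b τ : W') : E → ℂ) = 0 := by
      have := Submodule.disjoint_def.mp hW'.disjoint _ h1 (∑ τ, c τ • b τ : W').2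
      exact this
    have h4 : (∑ τ, c τ • b τ : W') = 0 := Subtype.ext h3
    have h5 := Fintype.linearIndependent_iff.mp b.linearIndependent c h4
    exact funext h5)
  let M : Matrix (Fin (Module.finrank ℂ W')) (Fin (Module.finrank ℂ W')) (MvPolynomial (κ × ν) ℂ) :=
    Matrix.of fun τ τ' => rename (fun j => ((x τ).1, j))
      (GdX.lam (S.co (m (x τ).1) (x τ).2) (b τ' : E → ℂ))
  have hM : ∀ p : κ → ν → ℂ, eval (fun x => p x.1 x.2) M.det =
      (Matrix.of fun τ τ' => eval (p (x τ).1)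
        (GdX.lam (S.co (m (x τ).1) (x τ).2) (b τ' : E → ℂ))).det := by
    intro p
    rw [RingHom.map_det]
    congr 1
    ext τ τ'
    rw [RingHom.mapMatrix_apply, Matrix.map_apply]
    simp only [M, Matrix.of_apply]
    rw [eval_rename]
    rfl
  refine ⟨M.det, ?_, fun p hp => ?_⟩
  · intro h0
    apply hx
    have := hM p₀
    rw [h0, map_zero] at this
    exact this.symm
  · rw [hM] at hp
    let Φ : (E → ℂ) →ₗ[ℂ] (Fin (Module.finrank ℂ W') → ℂ) :=
      LinearMap.pi fun τ => (aeval (p (x τ).1)).toLinearMap ∘ₗ GdX.lam (S.co (m (x τ).1) (x τ).2)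
    have hΦ : ∀ w τ, Φ w τ = eval (p (x τ).1) (GdX.lam (S.co (m (x τ).1) (x τ).2) w) := by
      intro w τ
      simp only [Φ, LinearMap.pi_apply, LinearMap.comp_apply, AlgHom.toLinearMap_apply]
      rw [aeval_eq_eval]
    have hle : S.V m p ≤ LinearMap.ker Φ := by
      intro w hw
      rw [LinearMap.mem_ker]
      funext τ
      rw [hΦ]
      exact (GdX.mem_V_lam S m p w).mp hw (x τ).1 (x τ).2
    have hsurj : LinearMap.range Φ = ⊤ := by
      rw [LinearMap.range_eq_top]
      intro y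
      rw [← isUnit_iff_ne_zero, ← Matrix.isUnit_iff_isUnit_det] at hp
      obtain ⟨c, hc⟩ := (Matrix.mulVec_surjective_iff_isUnit.mpr hp) y
      refine ⟨∑ τ', c τ' • (b τ' : E → ℂ), ?_⟩
      rw [← hc]
      funext τ
      rw [hΦ, map_sum, map_sum, Matrix.mulVec, dotProduct]
      refine Finset.sum_congr rfl fun τ' _ => ?_
      rw [map_smul, smul_eval, Matrix.of_apply, mul_comm]
    have h1 := LinearMap.finrank_range_add_finrank_ker Φ
    rw [hsurj, finrank_top, Module.finrank_fintype_fun_eq_card, Fintype.card_fin] at h1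
    have h2 := Submodule.finrank_add_eq_of_isCompl hW'
    have h3 := Submodule.finrank_mono hle
    omega

/-- The conditions of two families of points. -/
theorem V_elim (m : κ → T) (n : κ' → T) (p : κ → ν → ℂ) (q : κ' → ν → ℂ) :
    S.V (Sum.elim m n) (Sum.elim p q) = S.V m p ⊓ S.V n q := by
  ext f
  rw [Submodule.mem_inf, S.mem_V, S.mem_V, S.mem_V]
  constructor
  · intro h
    exact ⟨fun i => h (Sum.inl i), fun i => h (Sum.inr i)⟩
  · rintro ⟨h1, h2⟩ (i | i)
    · exact h1 i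
    · exact h2 i

theorem finrank_V_sup (m : κ → T) (n : κ' → T) (p : κ → ν → ℂ) (q : κ' → ν → ℂ) :
    Module.finrank ℂ (S.V m p ⊔ S.V n q : Submodule ℂ (E → ℂ)) +
      Module.finrank ℂ (S.V (Sum.elim m n) (Sum.elim p q)) =
      Module.finrank ℂ (S.V m p) + Module.finrank ℂ (S.V n q) := by
  rw [V_elim]
  exact Submodule.finrank_sup_add_finrank_inf_eq _ _

theorem gd_le (m : κ → T) (p : κ → ν → ℂ) : S.gd m ≤ Module.finrank ℂ (S.V m p) := by
  exact Nat.sInf_le ⟨p, rfl⟩

theorem gd_attained (m : κ → T) : ∃ p : κ → ν → ℂ, Module.finrank ℂ (S.V m p) = S.gd m := by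
  obtain ⟨p, hp⟩ := Nat.sInf_mem (Set.range_nonempty
    fun p : κ → ν → ℂ => Module.finrank ℂ (S.V m p))
  exact ⟨p, hp⟩

theorem gd_le_card (m : κ → T) : S.gd m ≤ Fintype.card E := by
  obtain ⟨p, hp⟩ := gd_attained S m
  rw [← hp]
  have := Submodule.finrank_le (S.V m p)
  rwa [Module.finrank_fintype_fun_eq_card] at this

/-- The minimal dimension is attained at general positions. -/
theorem gn_gd [Fintype κ] (m : κ → T) :
    Gn κ ν fun p => Module.finrank ℂ (S.V m p) = S.gd m := by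
  obtain ⟨p₀, hp₀⟩ := gd_attained S m
  refine (GdX.gn_finrank_le S m p₀).mono fun p hp => ?_
  rw [hp₀] at hp
  exact le_antisymm hp (gd_le S m p)

theorem gd_comp_equiv (e : κ' ≃ κ) (m : κ → T) : S.gd (fun i => m (e i)) = S.gd m := by
  have key : ∀ p : κ → ν → ℂ, S.V (fun i => m (e i)) (fun i => p (e i)) = S.V m p := by
    intro p
    ext f
    rw [S.mem_V, S.mem_V]
    constructor
    · intro h i
      obtain ⟨j, rfl⟩ := e.surjective i
      exact h j
    · intro h i
      exact h (e i)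
  apply le_antisymm
  · obtain ⟨p₀, hp₀⟩ := gd_attained S m
    rw [← hp₀, ← key p₀]
    exact gd_le S _ _
  · obtain ⟨p₀, hp₀⟩ := gd_attained S (fun i => m (e i))
    have h1 := key fun j => p₀ (e.symm j)
    simp only [Equiv.symm_apply_apply] at h1
    rw [← hp₀, h1]
    exact gd_le S _ _

/-- Fewer points: the dimension is larger. -/
theorem gd_elim_le [Fintype κ] [Fintype κ'] (m : κ → T) (n : κ' → T) :
    S.gd (Sum.elim m n) ≤ S.gd m := by
  obtain ⟨p₀, hp₀⟩ := gd_attained S m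
  rw [← hp₀]
  refine (gd_le S (Sum.elim m n) (Sum.elim p₀ 0)).trans (Submodule.finrank_mono ?_)
  rw [V_elim]
  exact inf_le_left

theorem gd_unit (t : T) : S.gd (fun _ : Unit => t) + S.size t = Fintype.card E := by
  have h1 := gd_le_card S fun _ : Unit => t
  unfold Sys.size
  omega

end Pool.Agent.H51.TB

end

section

/-!
# Module A3 (TB): the general dimension, adding points

As in `Pool/Agent/H21/NX/GenB.lean` (`le_gdim_elim`, `gdim_submod`, `gdim_simple`).
-/

namespace Pool.Agent.H51.TB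

open Finset MvPolynomial

variable {E ν T : Type} [Fintype E] (S : Sys E ν T) {κ : Type}

private theorem GsX.comp_elim {α β γ : Type} (p : β → γ) (f : α → β) (b : β) :
    (fun i => p (Sum.elim f (fun _ : Unit => b) i)) =
      Sum.elim (fun i => p (f i)) fun _ : Unit => p b := by
  funext i
  rcases i with i | i <;> rfl

private theorem GsX.elim_inj {α β : Type} (f : α → β) (b : β) (hf : Function.Injective f)
    (hb : ∀ a, f a ≠ b) : Function.Injective (Sum.elim f fun _ : Unit => b) := by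
  rintro (x | x) (y | y) h
  · exact congrArg Sum.inl (hf h)
  · exact absurd h (hb x)
  · exact absurd h.symm (hb y)
  · rfl

/-- One more point imposes at most `size t` conditions: at general positions
`finrank (V m ⊓ V t) ≥ finrank V m + finrank V t - card E`. -/
theorem gd_le_ad [Fintype κ] (m : κ → T) (t : T) : S.gd m ≤ S.gd (ad m t) + S.size t := by
  obtain ⟨P, hP1, hP2⟩ := ((gn_gd S (ad m t)).and ((gn_gd S fun _ : Unit => t).comap
    (fun _ : Unit => (Sum.inr () : κ ⊕ Unit)) (fun _ _ _ => rfl))).exists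
  have e : P = Sum.elim (fun i => P (Sum.inl i)) fun _ : Unit => P (Sum.inr ()) := by
    funext x
    rcases x with i | i <;> rfl
  have h1 := finrank_V_sup S m (fun _ : Unit => t) (fun i => P (Sum.inl i))
    (fun _ : Unit => P (Sum.inr ()))
  rw [← e] at h1
  change _ + Module.finrank ℂ (S.V (ad m t) P) = _ at h1
  rw [hP1, hP2] at h1
  have h2 := Submodule.finrank_le (S.V m (fun i => P (Sum.inl i)) ⊔
    S.V (fun _ : Unit => t) fun _ : Unit => P (Sum.inr ()))
  rw [Module.finrank_fintype_fun_eq_card] at h2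
  have h3 := gd_le S m fun i => P (Sum.inl i)
  have h4 := gd_unit S t
  omega

theorem gd_ad_le [Fintype κ] (m : κ → T) (t : T) : S.gd (ad m t) ≤ S.gd m := by
  exact gd_elim_le S m fun _ : Unit => t

/-- Submodularity: at general positions `V(m, t)` and `V(m, u)` are subspaces of `V(m)` with
intersection `V(m, t, u)`. -/
theorem gd_submod [Fintype κ] (m : κ → T) (t u : T) :
    S.gd (ad m t) + S.gd (ad m u) ≤ S.gd m + S.gd (ad (ad m t) u) := by
  have hinj : Function.Injective (fun i : κ => (Sum.inl (Sum.inl i) : (κ ⊕ Unit) ⊕ Unit)) :=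
    fun a b h => Sum.inl_injective (Sum.inl_injective h)
  obtain ⟨P, hP1, hP2⟩ := ((gn_gd S (ad (ad m t) u)).and
    ((gn_gd S m).comap (fun i : κ => (Sum.inl (Sum.inl i) : (κ ⊕ Unit) ⊕ Unit)) hinj)).exists
  let P₁ : κ ⊕ Unit → ν → ℂ := fun i => P (Sum.inl i)
  let P₂ : κ ⊕ Unit → ν → ℂ :=
    Sum.elim (fun i => P (Sum.inl (Sum.inl i))) fun j => P (Sum.inr j)
  let P₀ : κ → ν → ℂ := fun i => P (Sum.inl (Sum.inl i))
  have h1 := Submodule.finrank_sup_add_finrank_inf_eq (S.V (ad m t) P₁) (S.V (ad m u) P₂)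
  have h2 : S.V (ad m t) P₁ ⊔ S.V (ad m u) P₂ ≤ S.V m P₀ := by
    refine sup_le (fun w hw => ?_) (fun w hw => ?_)
    · rw [S.mem_V] at hw ⊢
      exact fun i => hw (Sum.inl i)
    · rw [S.mem_V] at hw ⊢
      exact fun i => hw (Sum.inl i)
  have h3 : S.V (ad m t) P₁ ⊓ S.V (ad m u) P₂ = S.V (ad (ad m t) u) P := by
    ext w
    rw [Submodule.mem_inf, S.mem_V, S.mem_V, S.mem_V]
    constructor
    · rintro ⟨hF1, hF2⟩ (i | j)
      · exact hF1 i
      · exact hF2 (Sum.inr j)
    · intro hF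
      refine ⟨fun i => hF (Sum.inl i), ?_⟩
      rintro (i | j)
      · exact hF (Sum.inl (Sum.inl i))
      · exact hF (Sum.inr j)
  have h4 := Submodule.finrank_mono h2
  have h5 := gd_le S (ad m t) P₁
  have h6 := gd_le S (ad m u) P₂
  rw [h3, hP1] at h1
  have hP2' : Module.finrank ℂ (S.V m P₀) = S.gd m := hP2
  omega

/-- If a further point (of positive size) imposes no condition then the dimension is `0`: for
general positions `V m p ≤ V t q`; fix a general `q` (`Gn.fix`), then `V t q ≠ ⊤`, so there is a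
functional `φ ≠ 0` with `V t q ≤ ker φ`; apply `hS`. -/
theorem gd_simple (hS : S.Span) [Fintype κ] (m : κ → T) (t : T) (ht : 1 ≤ S.size t)
    (h : S.gd (ad m t) = S.gd m) : S.gd m = 0 := by
  have c1 : Gn (Unit ⊕ κ) ν fun p => Module.finrank ℂ (S.V (ad m t)
      (Sum.elim (fun a => p (Sum.inr a)) fun _ : Unit => p (Sum.inl ()))) = S.gd (ad m t) := by
    have h1 := (gn_gd S (ad m t)).comap
      (Sum.elim (Sum.inr : κ → Unit ⊕ κ) fun _ : Unit => Sum.inl ())
      (GsX.elim_inj _ _ Sum.inr_injective fun a ha => by cases ha)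
    refine h1.mono fun p hp => ?_
    rwa [GsX.comp_elim] at hp
  have c2 : Gn (Unit ⊕ κ) ν fun p =>
      Module.finrank ℂ (S.V m (fun a => p (Sum.inr a))) = S.gd m :=
    (gn_gd S m).comap (Sum.inr : κ → Unit ⊕ κ) Sum.inr_injective
  have c3 : Gn (Unit ⊕ κ) ν fun p =>
      Module.finrank ℂ (S.V (fun _ : Unit => t) (fun u : Unit => p (Sum.inl u))) =
        S.gd fun _ : Unit => t :=
    (gn_gd S fun _ : Unit => t).comap (Sum.inl : Unit → Unit ⊕ κ) Sum.inl_injective
  obtain ⟨p₀, hfix⟩ := ((c1.and c2).and c3).fix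
  have hX : S.V (fun _ : Unit => t) p₀ < ⊤ := by
    rw [lt_top_iff_ne_top]
    intro htop
    obtain ⟨y, hy⟩ := hfix.exists
    have h1 := hy.2
    change Module.finrank ℂ (S.V (fun _ : Unit => t) p₀) = _ at h1
    rw [htop, finrank_top, Module.finrank_fintype_fun_eq_card] at h1
    have h2 := gd_unit S t
    omega
  obtain ⟨φ, hφ0, hφ⟩ := Submodule.exists_le_ker_of_lt_top _ hX
  refine hS κ m φ hφ0 (hfix.mono fun y hy => ?_)
  obtain ⟨⟨h1, h2⟩, -⟩ := hy
  change Module.finrank ℂ (S.V (Sum.elim m fun _ : Unit => t) (Sum.elim y p₀)) = _ at h1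
  change Module.finrank ℂ (S.V m y) = _ at h2
  rw [V_elim, h, ← h2] at h1
  exact (inf_eq_left.mp (Submodule.eq_of_le_of_finrank_eq inf_le_left h1)).trans hφ

end Pool.Agent.H51.TB

end

section

/-!
# Module A4 (TB): the swap lemma

As `swap_step` in `Pool/Agent/H21/NX/Swap.lean`: `gdim r d` is replaced by `S.gd`, the homogeneous
forms of degree `d` by all of `E → ℂ` (dimension `Fintype.card E`), `M` by the dominating type `b`
(`hb` is used where the original uses `m a ≤ M`), `gl_lemma` by the hypothesis `hS : S.Span`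
(a proper subspace is contained in the kernel of a functional `φ ≠ 0`), `gen_fix` by `Gn.fix`.
-/

namespace Pool.Agent.H51.TB

open Finset MvPolynomial

/-- The index of the point used at `a`: `y a` if `a ∈ A`, else `x a`. -/
private def SwX.zt {κ : Type} [DecidableEq κ] (A : Finset κ) (a : κ) : κ ⊕ (κ ⊕ Unit) :=
  if a ∈ A then Sum.inr (Sum.inl a) else Sum.inl a

private theorem SwX.zt_inj {κ : Type} [DecidableEq κ] (A : Finset κ) :
    Function.Injective (SwX.zt A) := by
  intro a b h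
  unfold SwX.zt at h
  split_ifs at h with h1 h2 h2
  · exact Sum.inl_injective (Sum.inr_injective h)
  · exact Sum.inl_injective h

private theorem SwX.zt_ne_ell {κ : Type} [DecidableEq κ] (A : Finset κ) (a : κ) :
    SwX.zt A a ≠ Sum.inr (Sum.inr ()) := by
  unfold SwX.zt
  split_ifs
  · intro h
    cases h
  · intro h
    cases h

private theorem SwX.zt_ne_y {κ : Type} [DecidableEq κ] (A : Finset κ) (a b : κ) (hb : b ∉ A) :
    SwX.zt A a ≠ Sum.inr (Sum.inl b) := by
  unfold SwX.zt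
  split_ifs with h1
  · intro h
    have := Sum.inl_injective (Sum.inr_injective h)
    exact hb (this ▸ h1)
  · intro h
    cases h

private theorem SwX.elim_inj {α β : Type} (f : α → β) (b : β) (hf : Function.Injective f)
    (hb : ∀ a, f a ≠ b) : Function.Injective (Sum.elim f fun _ : Unit => b) := by
  rintro (x | x) (y | y) h
  · exact congrArg Sum.inl (hf h)
  · exact absurd h (hb x)
  · exact absurd h.symm (hb y)
  · rfl

private theorem SwX.comp_elim {α β γ : Type} (p : β → γ) (f : α → β) (b : β) :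
    (fun i => p (Sum.elim f (fun _ : Unit => b) i)) =
      Sum.elim (fun i => p (f i)) fun _ : Unit => p b := by
  funext i
  rcases i with i | i <;> rfl

private theorem SwX.dom {E ν T : Type} [Fintype E] (S : Sys E ν T) {b t : T} (h : S.Dom b t)
    (q : ν → ℂ) (f : E → ℂ)
    (hf : ∀ r : S.R b, ∑ e, eval q (S.co b r e) * f e = 0) (r : S.R t) :
    ∑ e, eval q (S.co t r e) * f e = 0 := by
  have h1 : f ∈ S.V (fun _ : Unit => b) fun _ => q := fun _ r => hf r
  exact h q h1 () r

/-- Pulling back a general statement along points where the other coordinates are fixed. -/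
private theorem SwX.gen_fix {ν κ : Type} (G : MvPolynomial ((κ ⊕ (κ ⊕ Unit)) × ν) ℂ)
    (p₀ : κ ⊕ (κ ⊕ Unit) → ν → ℂ) (h0 : eval (fun x => p₀ x.1 x.2) G ≠ 0)
    (P : (κ → ν → ℂ) → Prop)
    (hP : ∀ y : κ → ν → ℂ,
      eval (fun x : (κ ⊕ (κ ⊕ Unit)) × ν =>
        (Sum.elim (fun a => p₀ (Sum.inl a))
          (Sum.elim y fun _ : Unit => p₀ (Sum.inr (Sum.inr ())))) x.1 x.2) G ≠ 0 → P y) :
    Gn κ ν P := by
  let s : (κ ⊕ (κ ⊕ Unit)) × ν → MvPolynomial (κ × ν) ℂ := fun x =>
    Sum.elim (fun a => C (p₀ (Sum.inl a) x.2))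
      (Sum.elim (fun a => X (a, x.2)) fun _ : Unit => C (p₀ (Sum.inr (Sum.inr ())) x.2)) x.1
  have hea : ∀ (y : κ × ν → ℂ) (F : MvPolynomial ((κ ⊕ (κ ⊕ Unit)) × ν) ℂ),
      eval y (aeval s F) = eval (fun x => eval y (s x)) F := by
    intro y F
    induction F using MvPolynomial.induction_on with
    | C c => simp
    | add p q hp hq => rw [map_add, map_add, map_add, hp, hq]
    | mul_X p i hp => rw [map_mul, map_mul, map_mul, hp, aeval_X, eval_X]
  have hs : ∀ y : κ → ν → ℂ, eval (fun x => y x.1 x.2) (aeval s G) =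
      eval (fun x : (κ ⊕ (κ ⊕ Unit)) × ν =>
        (Sum.elim (fun a => p₀ (Sum.inl a))
          (Sum.elim y fun _ : Unit => p₀ (Sum.inr (Sum.inr ())))) x.1 x.2) G := by
    intro y
    rw [hea]
    refine congrArg (fun f : (κ ⊕ (κ ⊕ Unit)) × ν → ℂ => eval f G) (funext fun x => ?_)
    obtain ⟨x, j⟩ := x
    rcases x with a | a | a <;> simp [s]
  refine ⟨aeval s G, ?_, ?_⟩
  · intro h
    have h1 := hs fun a => p₀ (Sum.inr (Sum.inl a))
    rw [h, map_zero] at h1
    apply h0
    rw [h1]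
    refine congrArg (fun f : (κ ⊕ (κ ⊕ Unit)) × ν → ℂ => eval f G) (funext fun x => ?_)
    obtain ⟨x, j⟩ := x
    rcases x with a | a | a <;> rfl
  · intro y hy
    rw [hs] at hy
    exact hP y hy

variable {E ν T : Type} [Fintype E] (S : Sys E ν T) {κ : Type}

theorem swap (hS : S.Span) [Fintype κ] [DecidableEq κ] (m : κ → T) (t b : T)
    (hb : ∀ i, S.Dom b (m i))
    (hc : S.gd m + S.gd (ad (ad m b) t) = S.gd (ad m t) + S.gd (ad m b)) :
    S.gd m = 0 ∨ S.gd m = S.gd (ad m t) + S.size t := by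
  -- the point `ℓ`
  let ℓ : κ ⊕ (κ ⊕ Unit) := Sum.inr (Sum.inr ())
  let yy : κ → κ ⊕ (κ ⊕ Unit) := fun a => Sum.inr (Sum.inl a)
  -- the general conditions
  have c1 : ∀ A ∈ (univ : Finset (Finset κ)), Gn (κ ⊕ (κ ⊕ Unit)) ν fun p =>
      Module.finrank ℂ (S.V m (fun a => p (SwX.zt A a))) = S.gd m := fun A _ =>
    Gn.comap (SwX.zt A) (SwX.zt_inj A) (gn_gd S m)
  have c2 : Gn (κ ⊕ (κ ⊕ Unit)) ν fun p =>
      Module.finrank ℂ (S.V (fun _ : Unit => t) (fun _ : Unit => p ℓ)) =
        S.gd fun _ : Unit => t :=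
    Gn.comap (fun _ : Unit => ℓ) (fun _ _ _ => rfl) (gn_gd S fun _ : Unit => t)
  have c3 : ∀ A ∈ (univ : Finset (Finset κ)), Gn (κ ⊕ (κ ⊕ Unit)) ν fun p =>
      Module.finrank ℂ (S.V (Sum.elim m fun _ : Unit => t)
        (Sum.elim (fun a => p (SwX.zt A a)) fun _ : Unit => p ℓ)) = S.gd (ad m t) := by
    intro A _
    have h := Gn.comap (Sum.elim (SwX.zt A) fun _ : Unit => ℓ)
      (SwX.elim_inj _ _ (SwX.zt_inj A) (SwX.zt_ne_ell A)) (gn_gd S (ad m t))
    refine h.mono fun p hp => ?_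
    rwa [SwX.comp_elim] at hp
  have c4 : ∀ A ∈ (univ : Finset (Finset κ)), Gn (κ ⊕ (κ ⊕ Unit)) ν fun p =>
      ∀ a ∈ (univ : Finset κ), a ∉ A → Module.finrank ℂ (S.V (Sum.elim m fun _ : Unit => b)
        (Sum.elim (fun a => p (SwX.zt A a)) fun _ : Unit => p (yy a))) = S.gd (ad m b) := by
    intro A _
    refine Gn.all _ fun a _ => ?_
    by_cases ha : a ∈ A
    · refine (c2).mono fun p _ h => absurd ha h
    · have h := Gn.comap (Sum.elim (SwX.zt A) fun _ : Unit => yy a)
        (SwX.elim_inj _ _ (SwX.zt_inj A) fun b => SwX.zt_ne_y A b a ha)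
        (gn_gd S (ad m b))
      refine h.mono fun p hp _ => ?_
      rwa [SwX.comp_elim] at hp
  have c5 : ∀ A ∈ (univ : Finset (Finset κ)), Gn (κ ⊕ (κ ⊕ Unit)) ν fun p =>
      ∀ a ∈ (univ : Finset κ), a ∉ A → Module.finrank ℂ (S.V
        (Sum.elim (Sum.elim m fun _ : Unit => b) fun _ : Unit => t)
        (Sum.elim (Sum.elim (fun a => p (SwX.zt A a)) fun _ : Unit => p (yy a))
          fun _ : Unit => p ℓ)) = S.gd (ad (ad m b) t) := by
    intro A _
    refine Gn.all _ fun a _ => ?_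
    by_cases ha : a ∈ A
    · refine (c2).mono fun p _ h => absurd ha h
    · have h := Gn.comap (Sum.elim (Sum.elim (SwX.zt A) fun _ : Unit => yy a) fun _ : Unit => ℓ)
        (SwX.elim_inj _ _ (SwX.elim_inj _ _ (SwX.zt_inj A) fun b => SwX.zt_ne_y A b a ha) (by
          rintro (b | b)
          · exact SwX.zt_ne_ell A b
          · intro h
            exact absurd (Sum.inr_injective h) Sum.inl_ne_inr))
        (gn_gd S (ad (ad m b) t))
      refine h.mono fun p hp _ => ?_
      rwa [SwX.comp_elim, SwX.comp_elim] at hp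
  have hall := ((Gn.all _ c1).and c2).and (((Gn.all _ c3).and (Gn.all _ c4)).and
    (Gn.all _ c5))
  -- the key inclusion for general points
  have hkey : Gn (κ ⊕ (κ ⊕ Unit)) ν fun p =>
      Module.finrank ℂ (S.V m (fun a => p (Sum.inl a)) ⊔
        S.V (fun _ : Unit => t) (fun _ : Unit => p ℓ) : Submodule ℂ (E → ℂ)) +
          S.gd (ad m t) = S.gd m + S.gd (fun _ : Unit => t) ∧
      S.V m (fun a => p (yy a)) ≤ S.V m (fun a => p (Sum.inl a)) ⊔
        S.V (fun _ : Unit => t) (fun _ : Unit => p ℓ) := by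
    refine hall.mono ?_
    rintro p ⟨⟨h1, h2⟩, ⟨h3, h4⟩, h5⟩
    let XT : Finset κ → Submodule ℂ (E → ℂ) := fun A =>
      S.V m (fun a => p (SwX.zt A a)) ⊔ S.V (fun _ : Unit => t) (fun _ : Unit => p ℓ)
    have hX : ∀ A, Module.finrank ℂ (XT A) + S.gd (ad m t) =
        S.gd m + S.gd (fun _ : Unit => t) := by
      intro A
      have h := finrank_V_sup S m (fun _ : Unit => t) (fun a => p (SwX.zt A a))
        (fun _ : Unit => p ℓ)
      rw [h1 A (mem_univ _), h2, h3 A (mem_univ _)] at h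
      exact h
    have hstep : ∀ (A : Finset κ) (a : κ), a ∉ A → XT A = XT (insert a A) := by
      intro A a ha
      let U : Submodule ℂ (E → ℂ) :=
        S.V (Sum.elim m fun _ : Unit => b)
          (Sum.elim (fun a => p (SwX.zt A a)) fun _ : Unit => p (yy a)) ⊔
          S.V (fun _ : Unit => t) (fun _ : Unit => p ℓ)
      have hW : Module.finrank ℂ U + S.gd (ad (ad m b) t) =
          S.gd (ad m b) + S.gd (fun _ : Unit => t) := by
        have h := finrank_V_sup S (Sum.elim m fun _ : Unit => b) (fun _ : Unit => t)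
          (Sum.elim (fun a => p (SwX.zt A a)) fun _ : Unit => p (yy a)) (fun _ : Unit => p ℓ)
        rw [h4 A (mem_univ _) a (mem_univ _) ha, h2, h5 A (mem_univ _) a (mem_univ _) ha] at h
        exact h
      have hW1 : U ≤ XT A := by
        refine sup_le_sup_right ?_ _
        rw [V_elim]
        exact inf_le_left
      have hW2 : U ≤ XT (insert a A) := by
        refine sup_le_sup_right ?_ _
        intro w hw
        rw [S.mem_V] at hw ⊢
        intro c
        by_cases hc : c = a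
        · subst hc
          have h6 := hw (Sum.inr ())
          have h7 : SwX.zt (insert c A) c = yy c := by
            unfold SwX.zt
            rw [if_pos (mem_insert_self c A)]
          rw [h7]
          exact SwX.dom S (hb c) _ w h6
        · have h6 := hw (Sum.inl c)
          have h7 : SwX.zt (insert a A) c = SwX.zt A c := by
            unfold SwX.zt
            by_cases hbT : c ∈ A
            · rw [if_pos hbT, if_pos (mem_insert_of_mem hbT)]
            · rw [if_neg hbT, if_neg]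
              intro h
              rcases mem_insert.1 h with h | h
              · exact hc h
              · exact hbT h
          rw [h7]
          exact h6
      have e1 : U = XT A := by
        refine Submodule.eq_of_le_of_finrank_eq hW1 ?_
        have := hX A
        omega
      have e2 : U = XT (insert a A) := by
        refine Submodule.eq_of_le_of_finrank_eq hW2 ?_
        have := hX (insert a A)
        omega
      rw [← e1, e2]
    have hind : ∀ A : Finset κ, XT A = XT ∅ := by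
      intro A
      induction A using Finset.induction_on with
      | empty => rfl
      | insert a A ha ih => rw [← hstep A a ha, ih]
    have z0 : (fun a => p (SwX.zt (∅ : Finset κ) a)) = fun a => p (Sum.inl a) := by
      funext a
      unfold SwX.zt
      rw [if_neg (Finset.notMem_empty a)]
    have z1 : (fun a => p (SwX.zt (univ : Finset κ) a)) = fun a => p (yy a) := by
      funext a
      unfold SwX.zt
      rw [if_pos (mem_univ a)]
    constructor
    · have e : XT ∅ = S.V m (fun a => p (Sum.inl a)) ⊔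
          S.V (fun _ : Unit => t) (fun _ : Unit => p ℓ) := by
        simp only [XT]
        rw [z0]
      have h := hX ∅
      rw [e] at h
      exact h
    · have h := hind univ
      simp only [XT] at h
      rw [z0, z1] at h
      rw [← h]
      exact le_sup_left
  obtain ⟨G, hG0, hG⟩ := hkey
  obtain ⟨v, hv⟩ : ∃ a, eval a G ≠ 0 := by
    by_contra hcon
    push Not at hcon
    exact hG0 (MvPolynomial.funext fun a => by rw [hcon a, map_zero])
  let p₀ : κ ⊕ (κ ⊕ Unit) → ν → ℂ := fun i j => v (i, j)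
  have hp₀ : eval (fun x => p₀ x.1 x.2) G ≠ 0 := hv
  let X : Submodule ℂ (E → ℂ) :=
    S.V m (fun a => p₀ (Sum.inl a)) ⊔ S.V (fun _ : Unit => t) (fun _ : Unit => p₀ ℓ)
  by_cases hX : X = ⊤
  · right
    have h1 := (hG p₀ hp₀).1
    change Module.finrank ℂ X + _ = _ at h1
    rw [hX, finrank_top, Module.finrank_fintype_fun_eq_card] at h1
    have h2 := gd_unit S t
    omega
  · left
    obtain ⟨φ, hφ0, hφ⟩ := Submodule.exists_le_ker_of_lt_top X (lt_top_iff_ne_top.mpr hX)
    refine hS κ m φ hφ0 ?_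
    refine SwX.gen_fix G p₀ hp₀ _ fun y hy => ?_
    exact ((hG (Sum.elim (fun a => p₀ (Sum.inl a))
      (Sum.elim y fun _ : Unit => p₀ (Sum.inr (Sum.inr ())))) hy).2).trans hφ

end Pool.Agent.H51.TB

end
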