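import Pool.Agent.H94.LP2.M03
import Pool.Agent.H94.LP2.M06
import Pool.Agent.H94.LP2.M07

/-! The parts of this file: H21.NX.Defs_1, H21.NX.LensA_1, H21.NX.LensB, H51.TB.LRank. -/

section

/-!
# Project NX: exactness in high dimension, definitions

`ell n m = binom(m + n - 1, n)` is the length of a point of multiplicity `m` in dimension `n`.
Forms of degree `σ` in `s + 2` variables (dimension `s + 1`): `ell (s + 1) (σ + 1)` exponents;
the exponents with `a l = 0` (dimension `s`): `ell s (σ + 1)`.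
-/

namespace Pool.Agent.H21.NX

open Finset MvPolynomial Pool.Agent.H18.Fat Pool.Agent.H18.Ex

/-- The total length of a multiset of multiplicities in dimension `n`. -/
def tot (n : ℕ) (S : Multiset ℕ) : ℕ := (S.map (ell n)).sum

/-- The forced conditions on `x_l = 0` given by a multiset of pairs `(c, e)`. -/
def fk {ι : Type} (l : ι) (Φ : Multiset (ℕ × ℕ)) : Multiset (Kind ι) :=
  Φ.map fun x => Kind.forced l x.1 x.2

/-- The trace length (dimension `s`) of forced conditions. -/
def tl (s : ℕ) (Φ : Multiset (ℕ × ℕ)) : ℕ := (Φ.map fun x => ell s x.1).sum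

/-- The length (dimension `s + 1`) of forced conditions. -/
def fl (s : ℕ) (Φ : Multiset (ℕ × ℕ)) : ℕ := (Φ.map fun x => ell (s + 1) x.1 + 1 - x.2).sum

/-- The forced conditions after a Horace step: `Φ` were forced before, the points of `N0` and
`α` points of multiplicity `μ` are put on the hyperplane, `ρ` points of multiplicity `μ` are
differential. -/
def nxt (Φ : Multiset (ℕ × ℕ)) (N0 : Multiset ℕ) (μ α ρ : ℕ) : Multiset (ℕ × ℕ) :=
  (Φ.map (fun x : ℕ × ℕ => (x.1 - 1, x.2)) + N0.map (fun m => (m - 1, 1)) +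
    Multiset.replicate α (μ - 1, 1) + Multiset.replicate ρ (μ, 2)).filter fun x : ℕ × ℕ => x.2 ≤ x.1

/-- The multiplicities of the traces in the Horace step. -/
def trc (Φ : Multiset (ℕ × ℕ)) (N0 : Multiset ℕ) (μ α ρ : ℕ) : Multiset ℕ :=
  Φ.map Prod.fst + N0 + Multiset.replicate α μ + Multiset.replicate ρ 1

/-- The numerical conditions. -/
structure Num (d s μ M A : ℕ) : Prop where
  hμ : 2 ≤ μ
  hμM : μ ≤ M
  h2 : 2 * μ + M ≤ d + 1
  hds : d + 1 ≤ s
  nc : ∀ c, 2 ≤ c → c ≤ μ →
    4 * (d + 1) * (ell s c * ell s (Bc M μ c) + ell s μ) * ell s μ ≤ ell s (d - μ + c)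
  q : ∀ c, 1 ≤ c → c ≤ μ → ell s (Bc M μ c) ^ 2 ≤ A * ell s c
  f1 : ell (s + 1) (d - μ + 1) + ell (s + 1) M + ell s (Bc M μ 1) ^ 2 ≤ A
  f2 : 8 * (d + 1) * ell (s + 1) μ * ell (s + 1) (d + 2 - 2 * μ) ≤ ell s (d - μ + 2)

end Pool.Agent.H21.NX

end

section

/-!
# Module LensA: lengths and bounds for the Horace step (only multiset arithmetic and `ell`)

Facts about `ell` (H18/Ex/Ell): `ell_zero`, `ell_one`, `ell_mono`, `ell_pos`, `ell_succ`.
-/

namespace Pool.Agent.H21.NX

open Finset Pool.Agent.H18.Ex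

theorem OKF_nxt {B B' : ℕ} {Φ : Multiset (ℕ × ℕ)} {N0 : Multiset ℕ} {μ α ρ : ℕ}
    (hΦ : OKF B Φ) (hN0 : ∀ m ∈ N0, m ≤ B) (hB : B ≤ B' + 1) (hμ : μ ≤ B' + 1)
    (hρ : ρ = 0 ∨ μ ≤ B') : OKF B' (nxt Φ N0 μ α ρ) := by
  intro y hy
  unfold nxt at hy
  rw [Multiset.mem_filter, Multiset.mem_add, Multiset.mem_add, Multiset.mem_add,
    Multiset.mem_map, Multiset.mem_map, Multiset.mem_replicate, Multiset.mem_replicate] at hy
  obtain ⟨((⟨x, hx, rfl⟩ | ⟨m, hm, rfl⟩) | ⟨hα, rfl⟩) | ⟨hρ', rfl⟩, h2⟩ := hy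
  · have h := hΦ x hx
    simp only at h2 ⊢
    omega
  · have h := hN0 m hm
    simp only at h2 ⊢
    omega
  · simp only at h2 ⊢
    omega
  · simp only at h2 ⊢
    omega

theorem fl_filter (s : ℕ) (S : Multiset (ℕ × ℕ)) :
    fl s (S.filter fun x : ℕ × ℕ => x.2 ≤ x.1) = (S.map (wgt s)).sum := by
  induction S using Multiset.induction_on with
  | empty => rfl
  | cons a S ih =>
    rw [Multiset.map_cons, Multiset.sum_cons, ← ih]
    by_cases h : a.2 ≤ a.1
    · rw [Multiset.filter_cons_of_pos (p := fun x : ℕ × ℕ => x.2 ≤ x.1) S h, wgt, if_pos h, fl,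
        Multiset.map_cons, Multiset.sum_cons]
      rfl
    · rw [Multiset.filter_cons_of_neg (p := fun x : ℕ × ℕ => x.2 ≤ x.1) S h, wgt, if_neg h,
        zero_add]

/-- Lengths: the total length drops by the length of the trace. -/
theorem fl_nxt {B : ℕ} {Φ : Multiset (ℕ × ℕ)} {N0 : Multiset ℕ} {μ α ρ : ℕ} (s : ℕ)
    (hs : 1 ≤ s) (hΦ : OKF B Φ) (hN0 : ∀ m ∈ N0, 1 ≤ m) (hμ : 1 ≤ μ) (hρ : ρ = 0 ∨ 2 ≤ μ) :
    fl s (nxt Φ N0 μ α ρ) + (tl s Φ + tot s N0 + α * ell s μ + ρ) =
      fl s Φ + tot (s + 1) N0 + (α + ρ) * ell (s + 1) μ := by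
  unfold nxt
  rw [fl_filter]
  simp only [Multiset.map_add, Multiset.sum_add, Multiset.map_map, Multiset.map_replicate,
    Multiset.sum_replicate, smul_eq_mul]
  have h1 : (Φ.map (wgt s ∘ fun x : ℕ × ℕ => (x.1 - 1, x.2))).sum + tl s Φ = fl s Φ := by
    unfold tl fl
    rw [← Multiset.sum_map_add]
    refine congrArg _ (Multiset.map_congr rfl fun x hx => ?_)
    have h := hΦ x hx
    exact wgt_here s x.1 x.2 h.1 h.2.1 h.2.2.1
  have h2 : (N0.map (wgt s ∘ fun m => (m - 1, 1))).sum + tot s N0 = tot (s + 1) N0 := by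
    unfold tot
    rw [← Multiset.sum_map_add]
    refine congrArg _ (Multiset.map_congr rfl fun m hm => ?_)
    exact wgt_here s m 1 le_rfl (by omega) (hN0 m hm)
  have h3 : α * wgt s (μ - 1, 1) + α * ell s μ = α * ell (s + 1) μ := by
    rw [← mul_add, wgt_here s μ 1 le_rfl (by omega) hμ, Nat.add_sub_cancel]
  have h4 : ρ * wgt s (μ, 2) + ρ = ρ * ell (s + 1) μ := by
    rcases hρ with h | h
    · rw [h]
      simp
    · unfold wgt
      rw [if_pos h]
      simp only
      have h5 := ell_pos (s + 1) hμ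
      calc ρ * (ell (s + 1) μ + 1 - 2) + ρ = ρ * ((ell (s + 1) μ + 1 - 2) + 1) := by ring
        _ = ρ * ell (s + 1) μ := by
            congr 1
            omega
  rw [add_mul]
  omega

theorem tl_filter_le (s : ℕ) (S : Multiset (ℕ × ℕ)) :
    tl s (S.filter fun x : ℕ × ℕ => x.2 ≤ x.1) ≤ tl s S := by
  induction S using Multiset.induction_on with
  | empty => exact le_rfl
  | cons a S ih =>
    have h2 : tl s (a ::ₘ S) = ell s a.1 + tl s S := by
      rw [tl, Multiset.map_cons, Multiset.sum_cons]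
      rfl
    by_cases h : a.2 ≤ a.1
    · rw [Multiset.filter_cons_of_pos (p := fun x : ℕ × ℕ => x.2 ≤ x.1) S h, h2, tl,
        Multiset.map_cons, Multiset.sum_cons]
      exact Nat.add_le_add_left ih _
    · rw [Multiset.filter_cons_of_neg (p := fun x : ℕ × ℕ => x.2 ≤ x.1) S h, h2]
      omega

theorem tl_add (s : ℕ) (S T : Multiset (ℕ × ℕ)) : tl s (S + T) = tl s S + tl s T := by
  simp only [tl, Multiset.map_add, Multiset.sum_add]

theorem tl_replicate (s n : ℕ) (x : ℕ × ℕ) :
    tl s (Multiset.replicate n x) = n * ell s x.1 := by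
  simp only [tl, Multiset.map_replicate, Multiset.sum_replicate, smul_eq_mul]

/-- The new traces. -/
theorem tl_nxt {B : ℕ} {Φ : Multiset (ℕ × ℕ)} {N0 : Multiset ℕ} {μ α ρ : ℕ} (s x : ℕ)
    (hs : 1 ≤ s) (hΦ : OKF B Φ) (hN0 : ∀ m ∈ N0, m ≤ B) (hμ : μ ≤ x + 1) (hB : B ≤ x + 1) :
    (x + s) * tl s (nxt Φ N0 μ α ρ) ≤
      x * (tl s Φ + tot s N0 + α * ell s μ) + (x + s) * (ρ * ell s μ) := by
  have h1 : (x + s) * tl s (Φ.map fun y : ℕ × ℕ => (y.1 - 1, y.2)) ≤ x * tl s Φ := by
    unfold tl
    rw [Multiset.map_map, ← Multiset.sum_map_mul_left, ← Multiset.sum_map_mul_left]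
    refine Multiset.sum_map_le_sum_map _ _ fun y hy => ?_
    have h := hΦ y hy
    exact ell_pred_le s y.1 x hs (by omega)
  have h2 : (x + s) * tl s (N0.map fun m => (m - 1, 1)) ≤ x * tot s N0 := by
    unfold tl tot
    rw [Multiset.map_map, ← Multiset.sum_map_mul_left, ← Multiset.sum_map_mul_left]
    refine Multiset.sum_map_le_sum_map _ _ fun y hy => ?_
    have h := hN0 y hy
    exact ell_pred_le s y x hs (by omega)
  have h3 : (x + s) * (α * ell s (μ - 1)) ≤ x * (α * ell s μ) := by
    have := Nat.mul_le_mul_left α (ell_pred_le s μ x hs hμ)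
    calc (x + s) * (α * ell s (μ - 1)) = α * ((x + s) * ell s (μ - 1)) := by ring
      _ ≤ α * (x * ell s μ) := this
      _ = x * (α * ell s μ) := by ring
  unfold nxt
  refine (Nat.mul_le_mul_left _ (tl_filter_le s _)).trans ?_
  rw [tl_add, tl_add, tl_add, tl_replicate, tl_replicate]
  simp only
  rw [mul_add, mul_add, mul_add, mul_add, mul_add]
  omega

end Pool.Agent.H21.NX

end

section

/-!
# Module LensB: lengths and bounds for the Horace step (only multiset arithmetic and `ell`)

Facts about `ell` (H18/Ex/Ell): `ell_zero`, `ell_one`, `ell_mono`, `ell_pos`, `ell_succ`.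
-/

namespace Pool.Agent.H21.NX

open Finset Pool.Agent.H18.Ex

/-- The main batch of `a` points of multiplicity `c ≥ 2`. -/
theorem nxt_batch (Ψ : Multiset (ℕ × ℕ)) (a c μ α ρ : ℕ) (hc : 2 ≤ c) :
    nxt (Ψ + Multiset.replicate a (c, 1)) 0 μ α ρ =
      nxt Ψ 0 μ α ρ + Multiset.replicate a (c - 1, 1) := by
  have h : (Multiset.replicate a (c - 1, 1)).filter (fun x : ℕ × ℕ => x.2 ≤ x.1) =
      Multiset.replicate a (c - 1, 1) := by
    rw [Multiset.filter_eq_self]
    intro x hx
    rw [Multiset.eq_of_mem_replicate hx]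
    simp only
    omega
  unfold nxt
  simp only [Multiset.map_add, Multiset.map_replicate, Multiset.filter_add, h]
  abel

/-- In the first step `α` points of multiplicity `μ ≥ 2` become the main batch. -/
theorem nxt_start (N0 : Multiset ℕ) (μ α ρ : ℕ) (hμ : 2 ≤ μ) :
    nxt 0 N0 μ α ρ = nxt 0 N0 μ 0 ρ + Multiset.replicate α (μ - 1, 1) := by
  have h : (Multiset.replicate α (μ - 1, 1)).filter (fun x : ℕ × ℕ => x.2 ≤ x.1) =
      Multiset.replicate α (μ - 1, 1) := by
    rw [Multiset.filter_eq_self]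
    intro x hx
    rw [Multiset.eq_of_mem_replicate hx]
    simp only
    omega
  unfold nxt
  simp only [Multiset.filter_add, h, Multiset.replicate_zero, Multiset.filter_zero]
  abel

/-- The length of a forced condition is at least the length of its trace. -/
theorem tl_le_fl {B : ℕ} {Φ : Multiset (ℕ × ℕ)} (s : ℕ) (hs : 1 ≤ s) (hΦ : OKF B Φ) :
    tl s Φ ≤ fl s Φ := by
  have _ := hs
  unfold tl fl
  refine Multiset.sum_map_le_sum_map _ _ fun x hx => ?_
  have h := hΦ x hx
  have h2 := wgt_here s x.1 x.2 h.1 h.2.1 h.2.2.1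
  omega

/-- `(s + 1) * fl ≤ (B + s) * tl`. -/
theorem fl_le_tl {B : ℕ} {Φ : Multiset (ℕ × ℕ)} (s : ℕ) (hs : 1 ≤ s) (hΦ : OKF B Φ) :
    (s + 1) * fl s Φ ≤ (B + s) * tl s Φ := by
  unfold tl fl
  rw [← Multiset.sum_map_mul_left, ← Multiset.sum_map_mul_left]
  refine Multiset.sum_map_le_sum_map _ _ fun x hx => ?_
  have h := hΦ x hx
  calc (s + 1) * (ell (s + 1) x.1 + 1 - x.2) ≤ (s + 1) * ell (s + 1) x.1 :=
        Nat.mul_le_mul_left _ (by omega)
    _ = (x.1 + s) * ell s x.1 := (ell_succ_mul s x.1 hs).symm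
    _ ≤ (B + s) * ell s x.1 := Nat.mul_le_mul_right _ (by omega)

theorem tot_succ_le {B : ℕ} {N0 : Multiset ℕ} (s : ℕ) (hs : 1 ≤ s) (hN0 : ∀ m ∈ N0, m ≤ B) :
    (s + 1) * tot (s + 1) N0 ≤ (B + s) * tot s N0 := by
  unfold tot
  rw [← Multiset.sum_map_mul_left, ← Multiset.sum_map_mul_left]
  refine Multiset.sum_map_le_sum_map _ _ fun x hx => ?_
  rw [← ell_succ_mul s x hs]
  exact Nat.mul_le_mul_right _ (by have := hN0 x hx; omega)

theorem tot_le_tot_succ {N0 : Multiset ℕ} (s : ℕ) (hs : 1 ≤ s) :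
    tot s N0 ≤ tot (s + 1) N0 := by
  unfold tot
  refine Multiset.sum_map_le_sum_map _ _ fun x _ => ?_
  rcases Nat.eq_zero_or_pos x with h | h
  · rw [h, ell_zero hs]
    exact Nat.zero_le _
  · rw [← ell_pred_add s x h]
    exact Nat.le_add_left _ _

theorem tot_add (n : ℕ) (S T : Multiset ℕ) : tot n (S + T) = tot n S + tot n T := by
  simp only [tot, Multiset.map_add, Multiset.sum_add]

theorem tot_replicate (n k x : ℕ) : tot n (Multiset.replicate k x) = k * ell n x := by
  simp only [tot, Multiset.map_replicate, Multiset.sum_replicate, smul_eq_mul]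

theorem tot_filter_le (n t : ℕ) (S : Multiset ℕ) : tot n (S.filter (t ≤ ·)) ≤ tot n S := by
  conv_rhs => rw [← Multiset.filter_add_not (t ≤ ·) S, tot_add]
  exact Nat.le_add_right _ _

theorem filter_replicate_lt (k x t : ℕ) (h : x < t) :
    (Multiset.replicate k x).filter (t ≤ ·) = 0 := by
  rw [Multiset.filter_eq_nil]
  intro y hy
  rw [Multiset.eq_of_mem_replicate hy]
  omega

/-- The conditions of the window theorem for a trace which contains `a` points of multiplicity
`c` and `ρ` simple points, with `ell c * ell B ≤ ρ` and `ell B ^ 2 ≤ a * ell c`: for `2 ≤ t ≤ c`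
the simple points are not in the filter, for `t > c` neither are the points of multiplicity `c`. -/
theorem window_cond (s : ℕ) (hs : 1 ≤ s) (T1 : Multiset ℕ) (a c ρ B E : ℕ) (hcB : c ≤ B)
    (hc1 : 1 ≤ c) (hT1 : ∀ t ∈ T1, t ≤ B) (hρ : ell s c * ell s B ≤ ρ)
    (ha : ell s B ^ 2 ≤ a * ell s c) (hE : tot s T1 + a * ell s c + ρ ≤ E) (t : ℕ) (ht : 2 ≤ t)
    (htB : t ≤ B) :
    tot s ((T1 + Multiset.replicate a c + Multiset.replicate ρ 1).filter (t ≤ ·)) +
      (ell s t - 1) * (ell s B - 1) ≤ E := by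
  have _ := hs
  have _ := hcB
  have _ := hc1
  have _ := hT1
  rw [Multiset.filter_add, Multiset.filter_add, filter_replicate_lt ρ 1 t (by omega), add_zero,
    tot_add]
  have h1 := tot_filter_le s t T1
  have h2 := tot_filter_le s t (Multiset.replicate a c)
  rw [tot_replicate] at h2
  rcases Nat.lt_or_ge c t with h | h
  · rw [filter_replicate_lt a c t h]
    have h3 : (ell s t - 1) * (ell s B - 1) ≤ ell s B ^ 2 := by
      rw [pow_two]
      exact Nat.mul_le_mul ((Nat.sub_le _ _).trans (ell_mono s htB)) (Nat.sub_le _ _)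
    have h4 : tot s (0 : Multiset ℕ) = 0 := rfl
    omega
  · have h3 : (ell s t - 1) * (ell s B - 1) ≤ ell s c * ell s B :=
      Nat.mul_le_mul ((Nat.sub_le _ _).trans (ell_mono s h)) (Nat.sub_le _ _)
    omega

/-- The conditions of the window theorem for a trace with `τ + ell B ^ 2 ≤ E`, `τ` the length of
the part without the `q` simple points. -/
theorem window_cond' (s : ℕ) (hs : 1 ≤ s) (T1 : Multiset ℕ) (q B E : ℕ)
    (hE : tot s T1 + ell s B ^ 2 ≤ E) (t : ℕ) (ht : 2 ≤ t) (htB : t ≤ B) :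
    tot s ((T1 + Multiset.replicate q 1).filter (t ≤ ·)) +
      (ell s t - 1) * (ell s B - 1) ≤ E := by
  have _ := hs
  rw [Multiset.filter_add, filter_replicate_lt q 1 t (by omega), add_zero]
  have h1 := tot_filter_le s t T1
  have h3 : (ell s t - 1) * (ell s B - 1) ≤ ell s B ^ 2 := by
    rw [pow_two]
    exact Nat.mul_le_mul ((Nat.sub_le _ _).trans (ell_mono s htB)) (Nat.sub_le _ _)
  omega

theorem tot_trc (s : ℕ) (Φ : Multiset (ℕ × ℕ)) (N0 : Multiset ℕ) (μ α ρ : ℕ) :
    tot s (trc Φ N0 μ α ρ) = tl s Φ + tot s N0 + α * ell s μ + ρ := by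
  unfold trc
  rw [tot_add, tot_add, tot_add, tot_replicate, tot_replicate, ell_one, mul_one]
  congr 3
  unfold tot tl
  rw [Multiset.map_map]
  rfl

end Pool.Agent.H21.NX

end

section

/-!
# Module B2 (TB): the size of a type on a level

Lower bound: at the position `q` with `q = 1` at the first `X`-variable and at the first
`Y`-variable and `q = 0` at the others, consider the conditions `β` which vanish at these two
variables and have bidegree `g ∈ Λ`; there are `multichoose (a-1) gx * multichoose (b-1) gy` of them for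
each `g`.  `tcr q α β` is `1` if `α = β` off the two special variables and `0` otherwise, and for `α` on
the level `j` this determines `α` (first `X`-coordinate `d - j - gx`, first `Y`-coordinate `j - gy`).
So these conditions say that the coefficients of different exponents vanish.

Upper bound: the number of conditions is at most the number of multi-indices `β : Z a b → ℕ` of degree
less than `t`, which is `ell (a + b) t`.
-/

namespace Pool.Agent.H51.TB

open Finset MvPolynomial Pool.Agent.H18.Ex Pool.Agent.H21.NX Pool.Agent.H18.Ta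

private theorem LRank_card_Sx {ι : Type} [Fintype ι] [DecidableEq ι] (n : ℕ) :
    (Sx ι n).card = Nat.multichoose (Fintype.card ι) n := by
  rw [← card_univ, ← card_finsuppAntidiag_nat_eq_multichoose]
  symm
  apply card_bij (fun (α : ι →₀ ℕ) _ => (⇑α : ι → ℕ))
  · intro α hα
    rw [mem_finsuppAntidiag] at hα
    exact mem_Sx.2 hα.1
  · intro α _ β _ h
    exact DFunLike.coe_injective h
  · intro f hf
    refine ⟨Finsupp.equivFunOnFinite.symm f, ?_, rfl⟩
    rw [mem_finsuppAntidiag]
    exact ⟨mem_Sx.1 hf, subset_univ _⟩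

/-- the special variables -/
private def LRank_sp {a b : ℕ} : Z (a + 1) (b + 1) → Prop
  | Sum.inl i => i = 0
  | Sum.inr i => i = 0

private instance {a b : ℕ} : DecidablePred (LRank_sp (a := a) (b := b)) := fun z => by
  rcases z with i | i <;> unfold LRank_sp <;> infer_instance

/-- the special position -/
private noncomputable def LRank_q (a b : ℕ) (z : Z (a + 1) (b + 1)) : ℂ := if LRank_sp z then 1 else 0

/-- `α` with the special coordinates removed -/
private def LRank_red {a b : ℕ} (α : Z (a + 1) (b + 1) → ℕ) (z : Z (a + 1) (b + 1)) : ℕ :=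
  if LRank_sp z then 0 else α z

private theorem LRank_sp_inl {a b : ℕ} : LRank_sp (Sum.inl 0 : Z (a + 1) (b + 1)) := rfl

private theorem LRank_sp_inr {a b : ℕ} : LRank_sp (Sum.inr 0 : Z (a + 1) (b + 1)) := rfl

private theorem LRank_nsp_inl {a b : ℕ} (i : Fin a) : ¬ LRank_sp (Sum.inl i.succ : Z (a + 1) (b + 1)) :=
  fun h => Fin.succ_ne_zero i h

private theorem LRank_nsp_inr {a b : ℕ} (i : Fin b) : ¬ LRank_sp (Sum.inr i.succ : Z (a + 1) (b + 1)) :=
  fun h => Fin.succ_ne_zero i h

private theorem LRank_xd {a b : ℕ} (α : Z (a + 1) (b + 1) → ℕ) :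
    xd α = α (Sum.inl 0) + xd (LRank_red α) := by
  unfold xd
  rw [Fin.sum_univ_succ, Fin.sum_univ_succ (fun i => LRank_red α (Sum.inl i))]
  have h0 : LRank_red α (Sum.inl 0) = 0 := by
    unfold LRank_red
    rw [if_pos LRank_sp_inl]
  have h1 : ∀ i : Fin a, LRank_red α (Sum.inl i.succ) = α (Sum.inl i.succ) := by
    intro i
    unfold LRank_red
    rw [if_neg (LRank_nsp_inl i)]
  rw [h0, Nat.zero_add]
  rw [sum_congr rfl fun i _ => h1 i]

private theorem LRank_yd {a b : ℕ} (α : Z (a + 1) (b + 1) → ℕ) :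
    yd α = α (Sum.inr 0) + yd (LRank_red α) := by
  unfold yd
  rw [Fin.sum_univ_succ, Fin.sum_univ_succ (fun i => LRank_red α (Sum.inr i))]
  have h0 : LRank_red α (Sum.inr 0) = 0 := by
    unfold LRank_red
    rw [if_pos LRank_sp_inr]
  have h1 : ∀ i : Fin b, LRank_red α (Sum.inr i.succ) = α (Sum.inr i.succ) := by
    intro i
    unfold LRank_red
    rw [if_neg (LRank_nsp_inr i)]
  rw [h0, Nat.zero_add]
  rw [sum_congr rfl fun i _ => h1 i]

private theorem LRank_eq {a b d j : ℕ} {α α' : Z (a + 1) (b + 1) → ℕ} (h : α ∈ Bx (a + 1) (b + 1) d j)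
    (h' : α' ∈ Bx (a + 1) (b + 1) d j) (hr : LRank_red α = LRank_red α') : α = α' := by
  rw [mem_Bx] at h h'
  have hx := LRank_xd α
  have hx' := LRank_xd α'
  have hy := LRank_yd α
  have hy' := LRank_yd α'
  rw [hr] at hx hy
  funext z
  by_cases hz : LRank_sp z
  · rcases z with i | i
    · have : i = 0 := hz
      subst this
      omega
    · have : i = 0 := hz
      subst this
      omega
  · have := congrFun hr z
    unfold LRank_red at this
    rwa [if_neg hz, if_neg hz] at this

private theorem LRank_tcr {a b : ℕ} (α β : Z (a + 1) (b + 1) → ℕ) :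
    tcr (LRank_q a b) α (LRank_red β) = if LRank_red α = LRank_red β then 1 else 0 := by
  unfold tcr
  split_ifs with h
  · apply prod_eq_one
    intro z _
    have h1 := congrFun h z
    unfold LRank_q
    by_cases hz : LRank_sp z
    · have h2 : LRank_red β z = 0 := by
        unfold LRank_red
        rw [if_pos hz]
      rw [if_pos hz, h2]
      simp
    · have h2 : LRank_red α z = α z := by
        unfold LRank_red
        rw [if_neg hz]
      rw [if_neg hz, ← h1, h2]
      simp
  · have h1 : ∃ z, LRank_red α z ≠ LRank_red β z := by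
      by_contra hc
      push Not at hc
      exact h (funext hc)
    obtain ⟨z, hz⟩ := h1
    apply prod_eq_zero (mem_univ z)
    have hsp : ¬ LRank_sp z := by
      intro hs
      apply hz
      unfold LRank_red
      rw [if_pos hs, if_pos hs]
    have h2 : LRank_red α z = α z := by
      unfold LRank_red
      rw [if_neg hsp]
    rw [h2] at hz
    unfold LRank_q
    rw [if_neg hsp]
    rcases Nat.lt_or_gt_of_ne hz with h3 | h3
    · rw [Nat.choose_eq_zero_of_lt h3]
      simp
    · rw [zero_pow (by omega), mul_zero]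

/-- the exponents whose coefficients vanish -/
private def LRank_T (a b d j : ℕ) (Λ : Finset (ℕ × ℕ)) : Finset (Z (a + 1) (b + 1) → ℕ) :=
  (Bx (a + 1) (b + 1) d j).filter fun α => (xd (LRank_red α), yd (LRank_red α)) ∈ Λ

private theorem LRank_card_fib {a b d j : ℕ} (hj : j ≤ d) (g : ℕ × ℕ) (hg : j + g.1 ≤ d ∧ g.2 ≤ j) :
    ((Bx (a + 1) (b + 1) d j).filter fun α => (xd (LRank_red α), yd (LRank_red α)) = g).card =
      Nat.multichoose a g.1 * Nat.multichoose b g.2 := by
  have h1 := LRank_card_Sx (ι := Fin a) g.1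
  have h2 := LRank_card_Sx (ι := Fin b) g.2
  rw [Fintype.card_fin] at h1 h2
  rw [← h1, ← h2, ← card_product]
  symm
  have hext : ∀ (u : Fin a → ℕ) (v : Fin b → ℕ), xd (LRank_red (Sum.elim (Fin.cons (d - j - g.1) u : Fin (a + 1) → ℕ)
      (Fin.cons (j - g.2) v : Fin (b + 1) → ℕ))) = ∑ i, u i := by
    intro u v
    unfold xd
    rw [Fin.sum_univ_succ]
    have h0 : LRank_red (Sum.elim (Fin.cons (d - j - g.1) u : Fin (a + 1) → ℕ) (Fin.cons (j - g.2) v : Fin (b + 1) → ℕ))
        (Sum.inl 0) = 0 := by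
      unfold LRank_red
      rw [if_pos LRank_sp_inl]
    rw [h0, Nat.zero_add]
    refine sum_congr rfl fun i _ => ?_
    unfold LRank_red
    rw [if_neg (LRank_nsp_inl i)]
    simp
  have hext' : ∀ (u : Fin a → ℕ) (v : Fin b → ℕ), yd (LRank_red (Sum.elim (Fin.cons (d - j - g.1) u : Fin (a + 1) → ℕ)
      (Fin.cons (j - g.2) v : Fin (b + 1) → ℕ))) = ∑ i, v i := by
    intro u v
    unfold yd
    rw [Fin.sum_univ_succ]
    have h0 : LRank_red (Sum.elim (Fin.cons (d - j - g.1) u : Fin (a + 1) → ℕ) (Fin.cons (j - g.2) v : Fin (b + 1) → ℕ))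
        (Sum.inr 0) = 0 := by
      unfold LRank_red
      rw [if_pos LRank_sp_inr]
    rw [h0, Nat.zero_add]
    refine sum_congr rfl fun i _ => ?_
    unfold LRank_red
    rw [if_neg (LRank_nsp_inr i)]
    simp
  apply card_bij (fun (w : (Fin a → ℕ) × (Fin b → ℕ)) _ =>
    (Sum.elim (Fin.cons (d - j - g.1) w.1 : Fin (a + 1) → ℕ) (Fin.cons (j - g.2) w.2 : Fin (b + 1) → ℕ) : Z (a + 1) (b + 1) → ℕ))
  · intro w hw
    rw [mem_product, mem_Sx, mem_Sx] at hw
    rw [mem_filter, mem_Bx]
    have hx := LRank_xd (Sum.elim (Fin.cons (d - j - g.1) w.1 : Fin (a + 1) → ℕ) (Fin.cons (j - g.2) w.2 : Fin (b + 1) → ℕ))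
    have hy := LRank_yd (Sum.elim (Fin.cons (d - j - g.1) w.1 : Fin (a + 1) → ℕ) (Fin.cons (j - g.2) w.2 : Fin (b + 1) → ℕ))
    rw [hext, hw.1] at hx
    rw [hext', hw.2] at hy
    simp only [Sum.elim_inl, Sum.elim_inr, Fin.cons_zero] at hx hy
    refine ⟨⟨by omega, by omega⟩, ?_⟩
    rw [hext, hext', hw.1, hw.2]
  · intro w _ w' _ h
    ext i
    · have := congrFun h (Sum.inl i.succ)
      simpa using this
    · have := congrFun h (Sum.inr i.succ)
      simpa using this
  · intro α hα
    rw [mem_filter, mem_Bx] at hα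
    obtain ⟨⟨h3, h4⟩, h5⟩ := hα
    have hx := LRank_xd α
    have hy := LRank_yd α
    have h6 : xd (LRank_red α) = g.1 := by rw [← h5]
    have h7 : yd (LRank_red α) = g.2 := by rw [← h5]
    have h8 : xd α = α (Sum.inl 0) + ∑ i : Fin a, α (Sum.inl i.succ) := by
      unfold xd
      exact Fin.sum_univ_succ _
    have h9 : yd α = α (Sum.inr 0) + ∑ i : Fin b, α (Sum.inr i.succ) := by
      unfold yd
      exact Fin.sum_univ_succ _
    refine ⟨(fun i => α (Sum.inl i.succ), fun i => α (Sum.inr i.succ)), ?_, ?_⟩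
    · rw [mem_product, mem_Sx, mem_Sx]
      constructor
      · change ∑ i : Fin a, α (Sum.inl i.succ) = g.1
        omega
      · change ∑ i : Fin b, α (Sum.inr i.succ) = g.2
        omega
    · funext z
      rcases z with i | i
      · refine Fin.cases ?_ (fun i => ?_) i
        · change d - j - g.1 = α (Sum.inl 0)
          omega
        · rfl
      · refine Fin.cases ?_ (fun i => ?_) i
        · change j - g.2 = α (Sum.inr 0)
          omega
        · rfl

private theorem LRank_card_T {a b d j : ℕ} (hj : j ≤ d) (Λ : Finset (ℕ × ℕ))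
    (hΛ : ∀ g ∈ Λ, j + g.1 ≤ d ∧ g.2 ≤ j) :
    (LRank_T a b d j Λ).card = ∑ g ∈ Λ, Eg (a + 1) (b + 1) g := by
  have h1 : (LRank_T a b d j Λ).card =
      ∑ g ∈ Λ, ((LRank_T a b d j Λ).filter fun α => (xd (LRank_red α), yd (LRank_red α)) = g).card := by
    apply card_eq_sum_card_fiberwise
    intro α hα
    unfold LRank_T at hα
    rw [Finset.mem_coe, mem_filter] at hα
    exact hα.2
  rw [h1]
  refine sum_congr rfl fun g hg => ?_
  rw [show Eg (a + 1) (b + 1) g = Nat.multichoose a g.1 * Nat.multichoose b g.2 from rfl,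
    ← LRank_card_fib hj g (hΛ g hg)]
  congr 1
  unfold LRank_T
  rw [filter_filter]
  apply filter_congr
  intro α _
  constructor
  · exact fun h => h.2
  · intro h
    exact ⟨by rw [h]; exact hg, h⟩

theorem le_size {a b d j : ℕ} (ha : 1 ≤ a) (hb : 1 ≤ b) (hj : j ≤ d) (Λ : Finset (ℕ × ℕ))
    (hΛ : ∀ g ∈ Λ, j + g.1 ≤ d ∧ g.2 ≤ j) : ∑ g ∈ Λ, Eg a b g ≤ (LSys a b d j).size Λ := by
  obtain ⟨a, rfl⟩ : ∃ a', a = a' + 1 := ⟨a - 1, by omega⟩
  obtain ⟨b, rfl⟩ : ∃ b', b = b' + 1 := ⟨b - 1, by omega⟩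
  rw [← LRank_card_T hj Λ hΛ]
  let T : Finset {α // α ∈ Bx (a + 1) (b + 1) d j} := univ.filter fun α => α.1 ∈ LRank_T a b d j Λ
  have hT : T.card = (LRank_T a b d j Λ).card := by
    apply card_bij (fun (α : {α // α ∈ Bx (a + 1) (b + 1) d j}) _ => α.1)
    · intro α hα
      exact (mem_filter.1 hα).2
    · intro α _ β _ h
      exact Subtype.ext h
    · intro α hα
      have h1 : α ∈ Bx (a + 1) (b + 1) d j := by
        unfold LRank_T at hα
        exact (mem_filter.1 hα).1
      exact ⟨⟨α, h1⟩, mem_filter.2 ⟨mem_univ _, hα⟩, rfl⟩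
  -- the solutions vanish on `T`
  have hvan : ∀ f ∈ (LSys (a + 1) (b + 1) d j).V (fun _ : Unit => Λ) (fun _ => LRank_q a b), ∀ α ∈ T, f α = 0 := by
    intro f hf α hα
    rw [mem_LV] at hf
    have hα' : (xd (LRank_red α.1), yd (LRank_red α.1)) ∈ Λ := by
      have := (mem_filter.1 hα).2
      unfold LRank_T at this
      exact (mem_filter.1 this).2
    have h1 := hf () (LRank_red α.1) hα'
    rw [sum_eq_single α] at h1
    · rw [LRank_tcr, if_pos rfl, one_mul] at h1
      exact h1
    · intro β _ hβ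
      rw [LRank_tcr, if_neg, zero_mul]
      intro h
      exact hβ (Subtype.ext (LRank_eq β.2 α.2 h))
    · intro h
      exact absurd (mem_univ α) h
  have hfin : Module.finrank ℂ ((LSys (a + 1) (b + 1) d j).V (fun _ : Unit => Λ) (fun _ => LRank_q a b)) ≤
      Fintype.card {α // α ∈ Bx (a + 1) (b + 1) d j} - T.card := by
    let φ : (LSys (a + 1) (b + 1) d j).V (fun _ : Unit => Λ) (fun _ => LRank_q a b) →ₗ[ℂ] ({α // α ∉ T} → ℂ) :=
      (LinearMap.funLeft ℂ ℂ (fun α : {α // α ∉ T} => α.1)).comp (Submodule.subtype _)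
    have hφ : Function.Injective φ := by
      rw [← LinearMap.ker_eq_bot, LinearMap.ker_eq_bot']
      intro f hf
      apply Subtype.ext
      funext α
      by_cases hα : α ∈ T
      · exact hvan f.1 f.2 α hα
      · exact congrFun hf ⟨α, hα⟩
    have h1 := LinearMap.finrank_le_finrank_of_injective hφ
    rw [Module.finrank_fintype_fun_eq_card] at h1
    have h2 : Fintype.card {α // α ∉ T} = Fintype.card {α // α ∈ Bx (a + 1) (b + 1) d j} - T.card := by
      rw [Fintype.card_subtype_compl, Fintype.card_coe, Fintype.card_coe]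
    rw [h2] at h1
    exact h1
  have hgd := gd_le (LSys (a + 1) (b + 1) d j) (fun _ : Unit => Λ) (fun _ => LRank_q a b)
  have hc : T.card ≤ Fintype.card {α // α ∈ Bx (a + 1) (b + 1) d j} := card_le_univ T
  unfold Sys.size
  omega

theorem size_le {a b d j : ℕ} (ha : 1 ≤ a) (Λ : Finset (ℕ × ℕ)) (t : ℕ)
    (hΛ : ∀ g ∈ Λ, g.1 + g.2 < t) : (LSys a b d j).size Λ ≤ ell (a + b) t := by
  obtain ⟨p, hp⟩ := gd_attained (LSys a b d j) (fun _ : Unit => Λ)
  have : Finite {β : Z a b → ℕ // (xd β, yd β) ∈ Λ} := finite_idx a b Λ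
  letI : Fintype {β : Z a b → ℕ // (xd β, yd β) ∈ Λ} := Fintype.ofFinite _
  -- the number of conditions
  have hcard : Fintype.card {β : Z a b → ℕ // (xd β, yd β) ∈ Λ} ≤ ell (a + b) t := by
    rcases Nat.eq_zero_or_pos t with rfl | ht
    · have : IsEmpty {β : Z a b → ℕ // (xd β, yd β) ∈ Λ} := ⟨fun β => by
        have := hΛ _ β.2
        omega⟩
      rw [Fintype.card_eq_zero]
      exact Nat.zero_le _
    · have hsum : ∀ β : Z a b → ℕ, ∑ z, β z = xd β + yd β := fun β => Fintype.sum_sum_type β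
      let ψ : {β : Z a b → ℕ // (xd β, yd β) ∈ Λ} → {x // x ∈ Sx (Option (Z a b)) (t - 1)} := fun β =>
        ⟨fun o => o.elim (t - 1 - ∑ z, β.1 z) β.1, by
          rw [mem_Sx, Fintype.sum_option]
          have h1 := hΛ _ β.2
          have h2 := hsum β.1
          simp only [Option.elim_none, Option.elim_some]
          omega⟩
      have hψ : Function.Injective ψ := by
        intro β γ h
        apply Subtype.ext
        funext z
        have h1 := congrArg Subtype.val h
        exact congrFun h1 (some z)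
      have h1 := Fintype.card_le_of_injective ψ hψ
      rw [Fintype.card_coe, LRank_card_Sx, Fintype.card_option, Fintype.card_sum, Fintype.card_fin, Fintype.card_fin,
        Nat.multichoose_eq] at h1
      refine h1.trans (le_of_eq ?_)
      unfold ell
      have h2 : a + b + 1 + (t - 1) - 1 = (a + b) + (t - 1) := by omega
      have h3 : t + (a + b) - 1 = (a + b) + (t - 1) := by omega
      rw [h2, h3]
      exact (Nat.choose_symm_add (a := a + b) (b := t - 1)).symm
  -- the linear map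
  let L : ({α // α ∈ Bx a b d j} → ℂ) →ₗ[ℂ] ({β : Z a b → ℕ // (xd β, yd β) ∈ Λ} → ℂ) :=
    { toFun := fun f β => ∑ α : {α // α ∈ Bx a b d j}, tcr (p ()) α.1 β.1 * f α
      map_add' := by
        intro f g
        funext β
        simp only [Pi.add_apply, mul_add, sum_add_distrib]
      map_smul' := by
        intro c f
        funext β
        simp only [Pi.smul_apply, smul_eq_mul, RingHom.id_apply, mul_sum]
        exact sum_congr rfl fun α _ => by ring }
  have hker : LinearMap.ker L = (LSys a b d j).V (fun _ : Unit => Λ) p := by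
    ext f
    rw [LinearMap.mem_ker, mem_LV]
    constructor
    · intro h i β hβ
      exact congrFun h ⟨β, hβ⟩
    · intro h
      funext β
      exact h () β.1 β.2
  have hrn := LinearMap.finrank_range_add_finrank_ker L
  rw [hker, hp, Module.finrank_fintype_fun_eq_card] at hrn
  have hr : Module.finrank ℂ (LinearMap.range L) ≤ Fintype.card {β : Z a b → ℕ // (xd β, yd β) ∈ Λ} := by
    have := Submodule.finrank_le (LinearMap.range L)
    rwa [Module.finrank_fintype_fun_eq_card] at this
  unfold Sys.size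
  omega

end Pool.Agent.H51.TB

end
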