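import Pool.Agent.H94.LP2.M03
import Pool.Agent.H94.LP2.M06

/-! The parts of this file: H18.FatBasic_1, H18.FatLin_1, H18.FatPerfect, H18.FatToric_2, H18.FatToric_1, H18.FatToric_3, H21.HD.BridgeC, H21.NX.GenB_1, H21.NX.GenB_2, H21.NX.GenB_3. -/

section

namespace Pool.Agent.H18.Fat

open MvPolynomial Finset

theorem coeff_shift {n : ℕ} (q : Fin n → ℂ) (β : Fin n →₀ ℕ) (F : MvPolynomial (Fin n) ℂ) :
    coeff β (shift q F) = ∑ α ∈ F.support, coeff α F * tc q α β := by
  classical
  conv_lhs => rw [F.as_sum]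
  unfold shift
  rw [map_sum, coeff_sum]
  exact sum_congr rfl fun α _ => coeff_shift_monomial q α β _

/-- For a point with nonzero first coordinate only the derivatives in the other directions
matter. -/
theorem vanishes_of_affine {n d : ℕ} {q : Fin (n + 1) → ℂ} (hq : q 0 ≠ 0)
    (f : mons (n + 1) d → ℂ) {m : ℕ}
    (h : ∀ β : Fin (n + 1) →₀ ℕ, β 0 = 0 → β.degree < m →
      coeff β (shift q (toPoly (n + 1) d f)) = 0) :
    VanishesToOrder (toPoly (n + 1) d f) q m := by
  have key : ∀ t : ℕ, ∀ β : Fin (n + 1) →₀ ℕ, β 0 = t → β.degree < m →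
      coeff β (shift q (toPoly (n + 1) d f)) = 0 := by
    intro t
    induction t with
    | zero => exact h
    | succ t ih =>
      intro β hβ hdeg
      -- `β = β' + e_0`
      obtain ⟨β', hβ'⟩ : ∃ β' : Fin (n + 1) →₀ ℕ, β = β' + Finsupp.single 0 1 := by
        refine ⟨β - Finsupp.single 0 1, ?_⟩
        ext j
        simp only [Finsupp.add_apply, Finsupp.tsub_apply]
        by_cases hj : j = 0
        · subst hj
          simp
          omega
        · simp [Finsupp.single_eq_of_ne hj]
      have h0 : β' 0 = t := by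
        have := congrArg (fun b => b 0) hβ'
        simp at this
        omega
      have hd : β.degree = β'.degree + 1 := by
        rw [hβ']
        simp
      have he := coeff_shift_euler q β' f
      have hz : coeff β' (shift q (toPoly (n + 1) d f)) = 0 := ih β' h0 (by omega)
      rw [hz, mul_zero, Fin.sum_univ_succ] at he
      have hz2 : ∀ j : Fin n, coeff (β' + Finsupp.single j.succ 1)
          (shift q (toPoly (n + 1) d f)) = 0 := by
        intro j
        apply ih
        · simp [h0]
        · simp only [map_add, Finsupp.degree_single]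
          omega
      simp only [hz2, mul_zero, sum_const_zero, add_zero] at he
      rw [← hβ'] at he
      rcases mul_eq_zero.1 he with h1 | h1
      · exfalso
        rcases mul_eq_zero.1 h1 with h2 | h2
        · exact hq h2
        · have : ((β' 0 : ℂ) + 1) ≠ 0 := Nat.cast_add_one_ne_zero (β' 0)
          exact this h2
      · exact h1
  intro β hβ
  exact key _ β rfl hβ

end Pool.Agent.H18.Fat

end

section

namespace Pool.Agent.H18.Fat

open MvPolynomial Finset

/-- Exponent vectors not involving the variable `0`, of degree smaller than `m`. -/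
noncomputable def aff (r m : ℕ) : Finset (Fin (r + 1) →₀ ℕ) := by
  classical
  exact if m = 0 then ∅ else (mons (r + 1) (m - 1)).image (fun γ => γ.erase 0)

theorem mem_aff {r m : ℕ} {β : Fin (r + 1) →₀ ℕ} :
    β ∈ aff r m ↔ β 0 = 0 ∧ β.degree < m := by
  classical
  unfold aff
  split_ifs with h
  · subst h
    simp
  · rw [mem_image]
    constructor
    · rintro ⟨γ, hγ, rfl⟩
      rw [mem_mons] at hγ
      have := degree_erase_zero γ
      refine ⟨by simp, by omega⟩
    · rintro ⟨h0, h1⟩
      refine ⟨β + Finsupp.single 0 (m - 1 - β.degree), ?_, ?_⟩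
      · rw [mem_mons]
        simp only [map_add, Finsupp.degree_single]
        omega
      · ext j
        by_cases hj : j = 0
        · subst hj
          simp [h0]
        · simp [Finsupp.erase_ne hj, Finsupp.single_eq_of_ne hj]

theorem card_aff {r : ℕ} (hr : 1 ≤ r) (m : ℕ) : (aff r m).card = (m + r - 1).choose r := by
  classical
  unfold aff
  split_ifs with h
  · subst h
    rw [card_empty, Nat.choose_eq_zero_of_lt (by omega)]
  · rw [card_image_of_injOn, card_mons]
    · congr 1
      omega
    · intro γ hγ γ' hγ' he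
      have h1 := mem_mons.1 hγ
      have h2 := mem_mons.1 hγ'
      have h3 := degree_erase_zero γ
      have h4 := degree_erase_zero γ'
      simp only at he
      rw [he] at h3
      have h5 : γ 0 = γ' 0 := by omega
      ext j
      by_cases hj : j = 0
      · subst hj
        exact h5
      · have := congrArg (fun b => b j) he
        simpa [Finsupp.erase_ne hj] using this

section

variable {ι : Type*} [Fintype ι]

/-- Indices of the linear conditions. -/
abbrev Cond (r : ℕ) (m : ι → ℕ) : Type _ := Σ i : ι, {β // β ∈ aff r (m i)}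

theorem card_cond {r : ℕ} (hr : 1 ≤ r) (m : ι → ℕ) :
    Fintype.card (Cond r m) = ∑ i, (m i + r - 1).choose r := by
  rw [Fintype.card_sigma]
  refine sum_congr rfl fun i _ => ?_
  rw [Fintype.card_coe, card_aff hr]

end

end Pool.Agent.H18.Fat

end

section

namespace Pool.Agent.H18.Fat

open MvPolynomial Finset

/-! ### Counting -/

/-! ### Adding simple points -/

instance finiteDimensional_fatForms {r d : ℕ} {ι : Type*} (p : ι → Fin (r + 1) → ℂ)
    (m : ι → ℕ) : FiniteDimensional ℂ (fatForms r d p m) := by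
  have h1 : fatForms r d p m ≤ LinearMap.range (toPoly (r + 1) d) := by
    intro F hF
    exact ⟨_, exists_toPoly hF.1⟩
  exact Submodule.finiteDimensional_of_le h1

theorem vanishesToOrder_one {n : ℕ} (F : MvPolynomial (Fin n) ℂ) (q : Fin n → ℂ) :
    VanishesToOrder F q 1 ↔ eval q F = 0 := by
  have h1 : coeff 0 (shift q F) = eval q F := by
    unfold shift
    rw [← constantCoeff_eq]
    have h2 : (constantCoeff.comp (aeval (fun j => X j + C (q j) :
        Fin n → MvPolynomial (Fin n) ℂ)).toRingHom) = eval q := by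
      apply ringHom_ext
      · intro c
        simp [algebraMap_eq]
      · intro i
        simp
    exact DFunLike.congr_fun h2 F
  constructor
  · intro h
    rw [← h1]
    exact h 0 (by simp)
  · intro h β hβ
    have : β = 0 := by
      rw [← Finsupp.degree_eq_zero_iff]
      omega
    rw [this, h1, h]

end Pool.Agent.H18.Fat

end

section

namespace Pool.Agent.H18.Fat

open MvPolynomial Finset

/-! ### General points -/

/-! ### Semicontinuity of the dimension -/

theorem toPoly_mem_fatForms_full {r d k : ℕ} (p : Fin k → Fin (r + 1) → ℂ)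
    (m : Fin k → ℕ) (f : mons (r + 1) d → ℂ) :
    toPoly (r + 1) d f ∈ fatForms r d p m ↔ (fullMat r d p m).mulVec f = 0 := by
  constructor
  · intro h
    funext x
    have h1 := h.2 x.1 x.2.1 (mem_full.1 x.2.2)
    rw [coeff_shift_toPoly] at h1
    rw [Pi.zero_apply, ← h1]
    unfold Matrix.mulVec dotProduct fullMat
    exact sum_congr rfl fun α _ => mul_comm _ _
  · intro h
    refine ⟨toPoly_isHomogeneous f, fun i β hdeg => ?_⟩
    have h1 := congrFun h ⟨i, β, mem_full.2 hdeg⟩
    rw [coeff_shift_toPoly]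
    rw [Pi.zero_apply] at h1
    rw [← h1]
    unfold Matrix.mulVec dotProduct fullMat
    exact sum_congr rfl fun α _ => mul_comm _ _

theorem rank_full_add_finrank {r d k : ℕ} (p : Fin k → Fin (r + 1) → ℂ) (m : Fin k → ℕ) :
    Module.finrank ℂ (LinearMap.range (fullMat r d p m).mulVecLin) +
      Module.finrank ℂ (fatForms r d p m) = (d + r).choose r := by
  have h1 : fatForms r d p m = Submodule.map (toPoly (r + 1) d)
      (LinearMap.ker (fullMat r d p m).mulVecLin) := by
    ext F
    constructor
    · intro h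
      refine ⟨fun α => coeff α.1 F, ?_, exists_toPoly h.1⟩
      rw [SetLike.mem_coe, LinearMap.mem_ker, Matrix.mulVecLin_apply]
      rw [← toPoly_mem_fatForms_full, exists_toPoly h.1]
      exact h
    · rintro ⟨f, hf, rfl⟩
      rw [SetLike.mem_coe, LinearMap.mem_ker, Matrix.mulVecLin_apply] at hf
      exact (toPoly_mem_fatForms_full p m f).2 hf
  rw [h1, ← (Submodule.equivMapOfInjective _ (toPoly_injective _ _) _).finrank_eq,
    LinearMap.finrank_range_add_finrank_ker, Module.finrank_fintype_fun_eq_card,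
    Fintype.card_coe, card_mons]

/-! ### Further points impose at most their length -/

/-! ### Linear changes of coordinates -/

/-! ### Coordinate points -/

end Pool.Agent.H18.Fat

end

section

namespace Pool.Agent.H18.Fat

open MvPolynomial Finset

/-! ### General points -/

/-! ### Semicontinuity of the dimension -/

/-- The rank of a matrix with polynomial entries does not drop at general parameters. -/
theorem exists_poly_rank {σ R K : Type*} [Fintype R] [Fintype K] [DecidableEq K]
    (N : Matrix R K (MvPolynomial σ ℂ)) (a₀ : σ → ℂ) :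
    ∃ G : MvPolynomial σ ℂ, eval a₀ G ≠ 0 ∧
      ∀ a, eval a G ≠ 0 →
        Module.finrank ℂ (LinearMap.range (N.map (eval a₀)).mulVecLin) ≤
          Module.finrank ℂ (LinearMap.range (N.map (eval a)).mulVecLin) := by
  classical
  set ρ := Module.finrank ℂ (LinearMap.range (N.map (eval a₀)).mulVecLin) with hρ
  let b := Module.finBasis ℂ (LinearMap.range (N.map (eval a₀)).mulVecLin)
  have hb : ∀ i, ∃ v, (N.map (eval a₀)).mulVecLin v = (b i : R → ℂ) := fun i => (b i).2
  choose v hv using hb
  let B : Matrix K (Fin ρ) ℂ := Matrix.of fun x i => v i x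
  have hBmul : ∀ (A : Matrix R K ℂ) (c : Fin ρ → ℂ),
      (A * B).mulVec c = ∑ i, c i • A.mulVec (v i) := by
    intro A c
    rw [← Matrix.mulVec_mulVec]
    have h1 : B.mulVec c = ∑ i, c i • v i := by
      funext x
      simp only [B, Matrix.mulVec, dotProduct, Matrix.of_apply, Finset.sum_apply, Pi.smul_apply,
        smul_eq_mul]
      exact sum_congr rfl fun i _ => mul_comm _ _
    rw [h1, Matrix.mulVec_sum]
    exact sum_congr rfl fun i _ => Matrix.mulVec_smul _ _ _
  have hinj : LinearMap.ker ((N.map (eval a₀)) * B).mulVecLin = ⊥ := by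
    rw [LinearMap.ker_eq_bot']
    intro c hc
    rw [Matrix.mulVecLin_apply, hBmul] at hc
    have h2 : ∑ i, c i • b i = 0 := by
      apply Subtype.ext
      rw [Submodule.coe_sum]
      simp only [Submodule.coe_smul, Submodule.coe_zero]
      rw [← hc]
      refine sum_congr rfl fun i _ => ?_
      rw [← hv i, Matrix.mulVecLin_apply]
    have h3 := Fintype.linearIndependent_iff.1 b.linearIndependent c h2
    funext i
    exact h3 i
  let N' : Matrix R (Fin ρ) (MvPolynomial σ ℂ) := N * B.map (C : ℂ → MvPolynomial σ ℂ)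
  have hN' : ∀ a : σ → ℂ, N'.map (eval a) = (N.map (eval a)) * B := by
    intro a
    have hB' : (B.map (C : ℂ → MvPolynomial σ ℂ)).map (eval a) = B := by
      ext i j
      simp
    change (N * (B.map (C : ℂ → MvPolynomial σ ℂ))).map (eval a) = _
    rw [Matrix.map_mul, hB']
  rw [← hN'] at hinj
  obtain ⟨G, hG1, hG2⟩ := exists_poly_injective N' a₀ hinj
  refine ⟨G, hG1, fun a ha => ?_⟩
  have h4 := hG2 a ha
  rw [hN'] at h4
  have h5 : LinearMap.range ((N.map (eval a)) * B).mulVecLin ≤
      LinearMap.range (N.map (eval a)).mulVecLin := by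
    rintro _ ⟨x, rfl⟩
    refine ⟨B.mulVec x, ?_⟩
    rw [Matrix.mulVecLin_apply, Matrix.mulVecLin_apply, Matrix.mulVec_mulVec]
  have h6 := LinearMap.finrank_range_add_finrank_ker ((N.map (eval a)) * B).mulVecLin
  rw [h4, finrank_bot, add_zero, Module.finrank_fintype_fun_eq_card, Fintype.card_fin] at h6
  rw [← h6]
  exact Submodule.finrank_mono h5

/-- Upper semicontinuity of `dim V_d(Γ)`. -/
theorem general_finrank_le {r k : ℕ} (d : ℕ) (p₀ : Fin k → Fin (r + 1) → ℂ) (m : Fin k → ℕ) :
    ForGeneralPoints r k fun p =>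
      Module.finrank ℂ (fatForms r d p m) ≤ Module.finrank ℂ (fatForms r d p₀ m) := by
  classical
  obtain ⟨G, hG1, hG2⟩ := exists_poly_rank (genFullMat r d m)
    (fun x : Fin k × Fin (r + 1) => p₀ x.1 x.2)
  refine ⟨G, ?_, fun p hp => ?_⟩
  · intro h0
    apply hG1
    rw [h0, map_zero]
  · have h1 := hG2 _ hp
    rw [genFullMat_map, genFullMat_map] at h1
    have h2 := rank_full_add_finrank (d := d) p m
    have h3 := rank_full_add_finrank (d := d) p₀ m
    omega

/-! ### Further points impose at most their length -/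

/-! ### Linear changes of coordinates -/

/-! ### Coordinate points -/

end Pool.Agent.H18.Fat

end

section

namespace Pool.Agent.H18.Fat

open MvPolynomial Finset

/-! ### General points -/

/-! ### Semicontinuity of the dimension -/

/-! ### Further points impose at most their length -/

theorem finrank_add_length_ge {r d : ℕ} (hr : 1 ≤ r) {ι κ : Type*} [Fintype κ]
    (p : ι → Fin (r + 1) → ℂ) (m : ι → ℕ) (q : κ → Fin (r + 1) → ℂ) (hq : ∀ j, q j 0 ≠ 0)
    (n : κ → ℕ) :
    Module.finrank ℂ (fatForms r d p m) ≤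
      Module.finrank ℂ (fatForms r d (Sum.elim p q) (Sum.elim m n)) +
        ∑ j, (n j + r - 1).choose r := by
  classical
  let W := fatForms r d p m
  -- the evaluation map
  let φ : W →ₗ[ℂ] (Cond r n → ℂ) :=
    { toFun := fun F x => coeff x.2.1 (shift (q x.1) F.1)
      map_add' := fun F G => by
        funext x
        simp [shift]
      map_smul' := fun c F => by
        funext x
        simp [shift] }
  have hφ : ∀ (F : W) (x : Cond r n), φ F x = coeff x.2.1 (shift (q x.1) F.1) := fun _ _ => rfl
  have h1 := LinearMap.finrank_range_add_finrank_ker φ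
  have h2 : Module.finrank ℂ (LinearMap.range φ) ≤ ∑ j, (n j + r - 1).choose r := by
    rw [← card_cond hr n, ← Module.finrank_fintype_fun_eq_card (R := ℂ)]
    exact Submodule.finrank_le _
  have h3 : Module.finrank ℂ (LinearMap.ker φ) ≤
      Module.finrank ℂ (fatForms r d (Sum.elim p q) (Sum.elim m n)) := by
    rw [(Submodule.equivMapOfInjective _ (Submodule.subtype_injective W)
      (LinearMap.ker φ)).finrank_eq]
    apply Submodule.finrank_mono
    rintro _ ⟨F, hF, rfl⟩
    refine ⟨F.2.1, ?_⟩
    rintro (i | j)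
    · exact F.2.2 i
    · change VanishesToOrder F.1 (q j) (n j)
      rw [← exists_toPoly F.2.1]
      apply vanishes_of_affine (hq j)
      intro β h0 hβ
      rw [exists_toPoly F.2.1]
      have h4 : φ F = 0 := hF
      have h5 := congrFun h4 ⟨j, β, mem_aff.2 ⟨h0, hβ⟩⟩
      rw [hφ] at h5
      exact h5
  change Module.finrank ℂ W ≤ _
  omega

/-! ### Linear changes of coordinates -/

/-! ### Coordinate points -/

end Pool.Agent.H18.Fat

end

section

/-!
Adding a point.
-/

namespace Pool.Agent.H21.HD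

open MvPolynomial Pool.Agent.H18.Fat
open scoped Classical

namespace BridgeCX

/-- The derivative in the direction `P`. -/
noncomputable def dd {n : ℕ} (P : Fin n → ℂ) : MvPolynomial (Fin n) ℂ →ₗ[ℂ] MvPolynomial (Fin n) ℂ :=
  ∑ j, P j • (pderiv j : Derivation ℂ (MvPolynomial (Fin n) ℂ) (MvPolynomial (Fin n) ℂ)).toLinearMap

theorem dd_apply {n : ℕ} (P : Fin n → ℂ) (F : MvPolynomial (Fin n) ℂ) :
    dd P F = ∑ j, P j • pderiv j F := by
  unfold dd
  rw [LinearMap.sum_apply]
  rfl

theorem shift_pderiv {n : ℕ} (q : Fin n → ℂ) (j : Fin n) (F : MvPolynomial (Fin n) ℂ) :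
    shift q (pderiv j F) = pderiv j (shift q F) := by
  unfold shift
  induction F using MvPolynomial.induction_on with
  | C a => simp
  | add F G hF hG => simp only [map_add, hF, hG]
  | mul_X F i hF =>
    rw [pderiv_mul, map_add, map_mul, map_mul, map_mul, pderiv_mul, hF, aeval_X, map_add,
      pderiv_C, add_zero]
    have hx : aeval (fun j => X j + C (q j) : Fin n → MvPolynomial (Fin n) ℂ)
        (pderiv j (X i : MvPolynomial (Fin n) ℂ)) = pderiv j (X i : MvPolynomial (Fin n) ℂ) := by
      by_cases hij : i = j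
      · subst hij
        rw [pderiv_X_self, map_one]
      · rw [pderiv_X_of_ne hij, map_zero]
    rw [hx]

theorem coeff_shift_dd {n : ℕ} (P q : Fin n → ℂ) (F : MvPolynomial (Fin n) ℂ)
    (β : Fin n →₀ ℕ) :
    coeff β (shift q (dd P F)) =
      ∑ j, P j * ((β j : ℂ) + 1) * coeff (β + Finsupp.single j 1) (shift q F) := by
  rw [dd_apply]
  have h1 : shift q (∑ j, P j • pderiv j F) = ∑ j, P j • pderiv j (shift q F) := by
    have h2 : shift q (∑ j, P j • pderiv j F) = ∑ j, P j • shift q (pderiv j F) := by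
      unfold shift
      rw [map_sum]
      exact Finset.sum_congr rfl fun j _ => by rw [map_smul]
    rw [h2]
    exact Finset.sum_congr rfl fun j _ => by rw [shift_pderiv]
  rw [h1, coeff_sum]
  refine Finset.sum_congr rfl fun j _ => ?_
  rw [coeff_smul, coeff_pderiv, smul_eq_mul]
  ring

theorem dd_isHomogeneous {n d : ℕ} (P : Fin n → ℂ) {F : MvPolynomial (Fin n) ℂ}
    (hF : F.IsHomogeneous d) : (dd P F).IsHomogeneous (d - 1) := by
  rw [dd_apply]
  apply IsHomogeneous.sum
  intro j _
  rw [smul_eq_C_mul]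
  simpa using (isHomogeneous_C (Fin n) (P j)).mul (hF.pderiv (i := j))

theorem dd_vanishes {n m : ℕ} (P q : Fin n → ℂ) {F : MvPolynomial (Fin n) ℂ}
    (hF : VanishesToOrder F q m) : VanishesToOrder (dd P F) q (m - 1) := by
  intro β hβ
  rw [coeff_shift_dd]
  refine Finset.sum_eq_zero fun j _ => ?_
  rw [hF (β + Finsupp.single j 1) (by
    simp only [map_add, Finsupp.degree_single]
    omega), mul_zero]

theorem vanishes_of_dd {n d m : ℕ} (P : Fin n → ℂ) {F : MvPolynomial (Fin n) ℂ}
    (hF : F.IsHomogeneous d) (hm : m ≤ d) (h : VanishesToOrder (dd P F) P m) :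
    VanishesToOrder F P m := by
  intro β hβ
  have h1 := h β hβ
  rw [coeff_shift_dd] at h1
  have h2 := coeff_shift_euler P β (fun α : mons n d => coeff α.1 F)
  rw [exists_toPoly hF, h1] at h2
  have h3 : (d : ℂ) - (β.degree : ℂ) ≠ 0 := by
    intro h4
    have h5 : (d : ℂ) = (β.degree : ℂ) := sub_eq_zero.1 h4
    have h6 : d = β.degree := by exact_mod_cast h5
    omega
  exact (mul_eq_zero.1 h2.symm).resolve_left h3

theorem iter_isHomogeneous {n : ℕ} (P : Fin n → ℂ) (e : ℕ) :
    ∀ {d : ℕ} {F : MvPolynomial (Fin n) ℂ}, F.IsHomogeneous d →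
      (((dd P) ^ e) F).IsHomogeneous (d - e) := by
  induction e with
  | zero =>
    intro d F hF
    simpa using hF
  | succ e ih =>
    intro d F hF
    rw [pow_succ, Module.End.mul_apply]
    have h1 := ih (dd_isHomogeneous P hF)
    have h2 : d - 1 - e = d - (e + 1) := by omega
    rwa [h2] at h1

theorem iter_vanishes {n : ℕ} (P q : Fin n → ℂ) (e : ℕ) :
    ∀ {m : ℕ} {F : MvPolynomial (Fin n) ℂ}, VanishesToOrder F q m →
      VanishesToOrder (((dd P) ^ e) F) q (m - e) := by
  induction e with
  | zero =>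
    intro m F hF
    simpa using hF
  | succ e ih =>
    intro m F hF
    rw [pow_succ, Module.End.mul_apply]
    have h1 := ih (dd_vanishes P q hF)
    have h2 : m - 1 - e = m - (e + 1) := by omega
    rwa [h2] at h1

theorem vanishes_of_iter {n : ℕ} (P : Fin n → ℂ) (e : ℕ) :
    ∀ {d : ℕ} {F : MvPolynomial (Fin n) ℂ}, F.IsHomogeneous d → e ≤ d →
      ((dd P) ^ e) F = 0 → VanishesToOrder F P (d + 1 - e) := by
  induction e with
  | zero =>
    intro d F _ _ h
    rw [pow_zero, Module.End.one_apply] at h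
    subst h
    intro β _
    simp [shift]
  | succ e ih =>
    intro d F hF he h
    rw [pow_succ, Module.End.mul_apply] at h
    have h1 := ih (dd_isHomogeneous P hF) (by omega) h
    have h2 : d - 1 + 1 - e = d + 1 - (e + 1) := by omega
    rw [h2] at h1
    exact vanishes_of_dd P hF (by omega) h1

theorem finite_fat {r d : ℕ} {ι : Type*} (p : ι → Fin (r + 1) → ℂ) (m : ι → ℕ) :
    Module.Finite ℂ (fatForms r d p m) := by
  have h1 : fatForms r d p m ≤ LinearMap.range (toPoly (r + 1) d) := fun F hF =>
    ⟨_, exists_toPoly hF.1⟩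
  exact Module.Finite.of_injective (Submodule.inclusion h1) (Submodule.inclusion_injective h1)

end BridgeCX

open BridgeCX

/-- Adding a point of multiplicity `d + 1 - e` imposes at most as many conditions as there are
forms of degree `d - e` with the other multiplicities lowered by `e`. -/
theorem finrank_fat_le_add {r : ℕ} {ι : Type} [Fintype ι] (d : ℕ)
    (p : ι → Fin (r + 1) → ℂ) (m : ι → ℕ) (i₀ : ι) (e : ℕ) (he : e ≤ d) (hi₀ : m i₀ = 0) :
    Module.finrank ℂ (fatForms r d p m) ≤
      Module.finrank ℂ (fatForms r d p (Function.update m i₀ (d + 1 - e))) +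
        Module.finrank ℂ (fatForms r (d - e) p (fun i => m i - e)) := by
  have hfin1 := finite_fat (d := d) p m
  have hfin2 := finite_fat (d := d) p (Function.update m i₀ (d + 1 - e))
  have hfin3 := finite_fat (d := d - e) p (fun i => m i - e)
  let T : fatForms r d p m →ₗ[ℂ] MvPolynomial (Fin (r + 1)) ℂ :=
    ((dd (p i₀)) ^ e).comp (fatForms r d p m).subtype
  have hT : ∀ F : fatForms r d p m, T F = ((dd (p i₀)) ^ e) F.1 := fun _ => rfl
  have h1 := LinearMap.finrank_range_add_finrank_ker T
  have h2 : Module.finrank ℂ (LinearMap.range T) ≤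
      Module.finrank ℂ (fatForms r (d - e) p (fun i => m i - e)) := by
    apply Submodule.finrank_mono
    rintro _ ⟨F, rfl⟩
    rw [hT]
    exact ⟨iter_isHomogeneous _ e F.2.1, fun i => iter_vanishes _ _ e (F.2.2 i)⟩
  have h3 : Module.finrank ℂ (LinearMap.ker T) ≤
      Module.finrank ℂ (fatForms r d p (Function.update m i₀ (d + 1 - e))) := by
    rw [(Submodule.equivMapOfInjective _ (Submodule.subtype_injective (fatForms r d p m))
      (LinearMap.ker T)).finrank_eq]
    apply Submodule.finrank_mono
    rintro _ ⟨F, hF, rfl⟩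
    refine ⟨F.2.1, fun i => ?_⟩
    by_cases hi : i = i₀
    · subst hi
      rw [Function.update_self]
      exact vanishes_of_iter _ e F.2.1 he hF
    · rw [Function.update_of_ne hi]
      exact F.2.2 i
  omega

end Pool.Agent.H21.HD

end

section

/-!
# Module GenB: the general dimension

Useful: `general_finrank_le`, `finrank_add_length_ge` (H18/FatToric), `finite_fat` (H21/HD/BridgeC),
`Nat.sInf_mem`, `Nat.sInf_le`, `Submodule.finrank_mono`, `Submodule.finrank_sup_add_finrank_inf_eq`,
`finrank_homog'` (H21/HD/BridgeD).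
-/

namespace Pool.Agent.H21.NX

open Finset MvPolynomial Pool.Agent.H18.Fat Pool.Agent.H18.Ex

namespace GenBX

end GenBX

open GenBX

/-- The minimal dimension is attained at general points: transport `general_finrank_le` along
`Fintype.equivFin`. -/
theorem gen_gdim (r d : ℕ) {κ : Type} [Fintype κ] (m : κ → ℕ) :
    Gen r κ fun p => Module.finrank ℂ (fatForms r d p m) = gdim r d m := by
  classical
  obtain ⟨p₀, hp₀⟩ := gdim_attained r d m
  let e := Fintype.equivFin κ
  have h1 : Gen r (Fin (Fintype.card κ)) fun p =>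
      Module.finrank ℂ (fatForms r d p fun i => m (e.symm i)) ≤
        Module.finrank ℂ (fatForms r d (fun i => p₀ (e.symm i)) fun i => m (e.symm i)) :=
    general_finrank_le d (fun i => p₀ (e.symm i)) (fun i => m (e.symm i))
  have h2 := h1.comap e.symm e.symm.injective
  refine h2.mono fun p hp => ?_
  rw [fat_comp_equiv e.symm p m, fat_comp_equiv e.symm p₀ m, hp₀] at hp
  exact le_antisymm hp (gdim_le r d m p)

/-- Further points impose at most their length (`finrank_add_length_ge`, with
`Gen.coord_ne_zero`). -/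
theorem le_gdim_elim (r d : ℕ) (hr : 1 ≤ r) {κ κ' : Type} [Fintype κ] [Fintype κ'] (m : κ → ℕ)
    (n : κ' → ℕ) : gdim r d m ≤ gdim r d (Sum.elim m n) + ∑ j, ell r (n j) := by
  obtain ⟨P, hP1, hP2⟩ := ((gen_gdim r d (Sum.elim m n)).and (Gen.coord_ne_zero r (κ ⊕ κ'))).exists
  have h1 := finrank_add_length_ge (d := d) hr (fun i => P (Sum.inl i)) m
    (fun j => P (Sum.inr j)) (fun j => hP2 _ _) n
  have h2 : (Sum.elim (fun i => P (Sum.inl i)) fun j => P (Sum.inr j)) = P := by
    funext x
    rcases x with i | j <;> rfl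
  rw [h2, hP1] at h1
  exact (gdim_le r d m _).trans h1

end Pool.Agent.H21.NX

end

section

/-!
# Module GenB: the general dimension

Useful: `general_finrank_le`, `finrank_add_length_ge` (H18/FatToric), `finite_fat` (H21/HD/BridgeC),
`Nat.sInf_mem`, `Nat.sInf_le`, `Submodule.finrank_mono`, `Submodule.finrank_sup_add_finrank_inf_eq`,
`finrank_homog'` (H21/HD/BridgeD).
-/

namespace Pool.Agent.H21.NX

open Finset MvPolynomial Pool.Agent.H18.Fat

namespace GenBX

theorem finite_fat {r d : ℕ} {ι : Type*} (p : ι → Fin (r + 1) → ℂ) (m : ι → ℕ) :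
    Module.Finite ℂ (fatForms r d p m) :=
  Pool.Agent.H21.HD.BridgeCX.finite_fat p m

end GenBX

open GenBX

theorem gdim_elim_le (r d : ℕ) {κ κ' : Type} [Fintype κ] [Fintype κ'] (m : κ → ℕ) (n : κ' → ℕ) :
    gdim r d (Sum.elim m n) ≤ gdim r d m := by
  obtain ⟨p₀, hp₀⟩ := gdim_attained r d m
  have := finite_fat (d := d) p₀ m
  rw [← hp₀]
  exact (gdim_le r d (Sum.elim m n) (Sum.elim p₀ 0)).trans
    (Submodule.finrank_mono (fat_comp_le Sum.inl (Sum.elim p₀ 0) (Sum.elim m n)))

theorem gdim_empty (r d : ℕ) (m : Fin 0 → ℕ) : gdim r d m = (d + r).choose r := by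
  obtain ⟨p₀, hp₀⟩ := gdim_attained r d m
  have h : fatForms r d p₀ m = homogeneousSubmodule (Fin (r + 1)) ℂ d := by
    ext F
    exact ⟨fun hF => hF.1, fun hF => ⟨hF, fun i => i.elim0⟩⟩
  rw [← hp₀, h, Pool.Agent.H21.HD.BridgeDX.finrank_homog']

end Pool.Agent.H21.NX

end

section

/-!
# Module GenB: the general dimension

Useful: `general_finrank_le`, `finrank_add_length_ge` (H18/FatToric), `finite_fat` (H21/HD/BridgeC),
`Nat.sInf_mem`, `Nat.sInf_le`, `Submodule.finrank_mono`, `Submodule.finrank_sup_add_finrank_inf_eq`,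
`finrank_homog'` (H21/HD/BridgeD).
-/

namespace Pool.Agent.H21.NX

open Finset MvPolynomial Pool.Agent.H18.Fat Pool.Agent.H18.Ex

namespace GenBX

end GenBX

open GenBX

/-- Submodularity: at general points `V(m, n)` and `V(m, n')` are subspaces of `V(m)` with
intersection `V(m, n, n')`. -/
theorem gdim_submod (r d : ℕ) {κ κ₁ κ₂ : Type} [Fintype κ] [Fintype κ₁] [Fintype κ₂] (m : κ → ℕ)
    (n₁ : κ₁ → ℕ) (n₂ : κ₂ → ℕ) :
    gdim r d (Sum.elim m n₁) + gdim r d (Sum.elim m n₂) ≤
      gdim r d m + gdim r d (Sum.elim (Sum.elim m n₁) n₂) := by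
  have hinj : Function.Injective (fun i : κ => (Sum.inl (Sum.inl i) : (κ ⊕ κ₁) ⊕ κ₂)) :=
    fun a b h => Sum.inl_injective (Sum.inl_injective h)
  obtain ⟨P, hP1, hP2⟩ := ((gen_gdim r d (Sum.elim (Sum.elim m n₁) n₂)).and
    ((gen_gdim r d m).comap (fun i : κ => (Sum.inl (Sum.inl i) : (κ ⊕ κ₁) ⊕ κ₂)) hinj)).exists
  let P₁ : κ ⊕ κ₁ → Fin (r + 1) → ℂ := fun i => P (Sum.inl i)
  let P₂ : κ ⊕ κ₂ → Fin (r + 1) → ℂ :=
    Sum.elim (fun i => P (Sum.inl (Sum.inl i))) fun j => P (Sum.inr j)
  let P₀ : κ → Fin (r + 1) → ℂ := fun i => P (Sum.inl (Sum.inl i))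
  have hf1 := finite_fat (d := d) P₁ (Sum.elim m n₁)
  have hf2 := finite_fat (d := d) P₂ (Sum.elim m n₂)
  have hf0 := finite_fat (d := d) P₀ m
  have h1 := Submodule.finrank_sup_add_finrank_inf_eq (fatForms r d P₁ (Sum.elim m n₁))
    (fatForms r d P₂ (Sum.elim m n₂))
  have h2 : fatForms r d P₁ (Sum.elim m n₁) ⊔ fatForms r d P₂ (Sum.elim m n₂) ≤
      fatForms r d P₀ m :=
    sup_le (fun F hF => ⟨hF.1, fun i => hF.2 (Sum.inl i)⟩)
      (fun F hF => ⟨hF.1, fun i => hF.2 (Sum.inl i)⟩)
  have h3 : fatForms r d P₁ (Sum.elim m n₁) ⊓ fatForms r d P₂ (Sum.elim m n₂) =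
      fatForms r d P (Sum.elim (Sum.elim m n₁) n₂) := by
    ext F
    constructor
    · rintro ⟨hF1, hF2⟩
      refine ⟨hF1.1, ?_⟩
      rintro (i | j)
      · exact hF1.2 i
      · exact hF2.2 (Sum.inr j)
    · intro hF
      refine ⟨⟨hF.1, fun i => hF.2 (Sum.inl i)⟩, hF.1, ?_⟩
      rintro (i | j)
      · exact hF.2 (Sum.inl (Sum.inl i))
      · exact hF.2 (Sum.inr j)
  have h4 := Submodule.finrank_mono h2
  have h5 := gdim_le r d (Sum.elim m n₁) P₁
  have h6 := gdim_le r d (Sum.elim m n₂) P₂
  rw [h3, hP1] at h1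
  have hP2' : Module.finrank ℂ (fatForms r d P₀ m) = gdim r d m := hP2
  omega

/-- If adding a general simple point does not lower the dimension then the dimension is `0`:
a nonzero form does not vanish at a general point (`vanishesToOrder_one`, `MvPolynomial.funext`). -/
theorem gdim_simple (r d : ℕ) {κ : Type} [Fintype κ] (m : κ → ℕ) (t : ℕ) (ht : 1 ≤ t)
    (h : gdim r d (Sum.elim m fun _ : Unit => t) = gdim r d m) : gdim r d m = 0 := by
  have hgen := (gen_gdim r d (Sum.elim m fun _ : Unit => t)).and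
    ((gen_gdim r d m).comap (fun i : κ => (Sum.inl i : κ ⊕ Unit)) Sum.inl_injective)
  obtain ⟨G, hG0, hG⟩ := hgen
  obtain ⟨a, ha⟩ : ∃ a, eval a G ≠ 0 := by
    by_contra hcon
    push Not at hcon
    exact hG0 (MvPolynomial.funext fun a => by rw [hcon a, map_zero])
  let p₀ : κ → Fin (r + 1) → ℂ := fun i j => a (Sum.inl i, j)
  let G' : MvPolynomial (Fin (r + 1)) ℂ := aeval (fun x : (κ ⊕ Unit) × Fin (r + 1) =>
    Sum.elim (fun i => (C (p₀ i x.2) : MvPolynomial (Fin (r + 1)) ℂ)) (fun _ => X x.2) x.1) G
  have hG' : ∀ q : Fin (r + 1) → ℂ, eval q G' =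
      eval (fun x : (κ ⊕ Unit) × Fin (r + 1) => Sum.elim p₀ (fun _ => q) x.1 x.2) G := by
    intro q
    simp only [G']
    rw [eval_aeval']
    refine congrArg (fun f : (κ ⊕ Unit) × Fin (r + 1) → ℂ => eval f G) (funext fun x => ?_)
    obtain ⟨i | u, j⟩ := x
    · simp
    · simp
  have hval : ∀ q : Fin (r + 1) → ℂ, eval q G' ≠ 0 →
      fatForms r d p₀ m ≤ fatForms r d (Sum.elim p₀ fun _ : Unit => q)
        (Sum.elim m fun _ : Unit => t) ∧
        Module.finrank ℂ (fatForms r d p₀ m) = gdim r d m := by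
    intro q hq
    rw [hG'] at hq
    obtain ⟨h1, h2⟩ := hG (Sum.elim p₀ fun _ => q) hq
    have h2' : Module.finrank ℂ (fatForms r d p₀ m) = gdim r d m := h2
    refine ⟨?_, h2'⟩
    have hf0 := finite_fat (d := d) p₀ m
    have hle : fatForms r d (Sum.elim p₀ fun _ : Unit => q) (Sum.elim m fun _ : Unit => t) ≤
        fatForms r d p₀ m := fun F hF => ⟨hF.1, fun i => hF.2 (Sum.inl i)⟩
    exact (Submodule.eq_of_le_of_finrank_eq hle (by rw [h1, h2', h])).ge
  have hq₀ : eval (fun j => a (Sum.inr (), j)) G' ≠ 0 := by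
    rw [hG']
    have : (fun x : (κ ⊕ Unit) × Fin (r + 1) =>
        Sum.elim p₀ (fun _ => fun j => a (Sum.inr (), j)) x.1 x.2) = a := by
      funext x
      obtain ⟨i | u, j⟩ := x
      · rfl
      · rfl
    rw [this]
    exact ha
  have hG'0 : G' ≠ 0 := fun h0 => hq₀ (by rw [h0, map_zero])
  rw [← (hval _ hq₀).2]
  have hbot : fatForms r d p₀ m = ⊥ := by
    rw [Submodule.eq_bot_iff]
    intro F hF
    have h1 : F * G' = 0 := by
      apply MvPolynomial.funext
      intro q
      rw [map_mul, map_zero]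
      by_cases hq : eval q G' = 0
      · rw [hq, mul_zero]
      · have h2 := (hval q hq).1 hF
        have h3 : VanishesToOrder F q t := h2.2 (Sum.inr ())
        have h4 := (vanishesToOrder_one F q).1 (vanishes_anti ht h3)
        rw [h4, zero_mul]
    exact (mul_eq_zero.1 h1).resolve_right hG'0
  rw [hbot, finrank_bot]

end Pool.Agent.H21.NX

end
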