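import Pool.Agent.H94.LP2.M02
import Pool.Agent.H94.LP2.M03

/-! The parts of this file: H18.Ex.Peel, H18.Ex.Bridge, H18.Ex.Multi, H18.Ex.Peel_1. -/

section

/-!
# Module Peel: one Horace step for configurations

The region `A` has dimension `n + 1`, its layer `A₀ = A ∩ {a l = 0}` dimension `n` and `f`
exponents.
-/

namespace Pool.Agent.H18.Ex

open Finset

/-- A maximal submultiset with bounded weight. -/
theorem exists_maximal_fill (N I₀ : Multiset ℕ) (g : ℕ → ℕ) (a : ℕ) (hI₀ : I₀ ≤ N)
    (h : (I₀.map g).sum ≤ a) :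
    ∃ I, I₀ ≤ I ∧ I ≤ N ∧ (I.map g).sum ≤ a ∧ ∀ m ∈ N - I, a < (I.map g).sum + g m := by
  induction hk : (N - I₀).card using Nat.strong_induction_on generalizing I₀ with
  | _ k ih =>
    by_cases hm : ∃ m ∈ N - I₀, (I₀.map g).sum + g m ≤ a
    · obtain ⟨m, hmem, hle⟩ := hm
      have h1 : m ::ₘ I₀ ≤ N := by
        have h2 : ({m} : Multiset ℕ) ≤ N - I₀ := Multiset.singleton_le.2 hmem
        calc m ::ₘ I₀ = {m} + I₀ := (Multiset.singleton_add m I₀).symm
          _ ≤ (N - I₀) + I₀ := add_le_add_left h2 I₀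
          _ = N := tsub_add_cancel_of_le hI₀
      have h3 : ((m ::ₘ I₀).map g).sum ≤ a := by
        rw [Multiset.map_cons, Multiset.sum_cons]
        omega
      have h4 : (N - (m ::ₘ I₀)).card < k := by
        rw [← hk, Multiset.card_sub h1, Multiset.card_sub hI₀, Multiset.card_cons]
        have h5 := Multiset.card_le_card h1
        rw [Multiset.card_cons] at h5
        omega
      obtain ⟨I, hI1, hI2, hI3, hI4⟩ := ih _ h4 (m ::ₘ I₀) h1 h3 rfl
      exact ⟨I, le_trans (Multiset.le_cons_self I₀ m) hI1, hI2, hI3, hI4⟩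
    · push Not at hm
      exact ⟨I₀, le_rfl, hI₀, h, hm⟩

/-- Pigeonhole: a multiset of at least `M * r` numbers in `[1, M]` contains some number at
least `r` times. -/
theorem exists_replicate_le (N : Multiset ℕ) (M r : ℕ) (hN : ∀ m ∈ N, 1 ≤ m ∧ m ≤ M)
    (h : M * r ≤ N.card) (hM : 1 ≤ M) (hr : 1 ≤ r) : ∃ μ ∈ N, Multiset.replicate r μ ≤ N := by
  by_contra hcon
  push Not at hcon
  have h1 : ∀ μ ∈ N.toFinset, N.count μ ≤ r - 1 := by
    intro μ hμ
    have h2 := hcon μ (Multiset.mem_toFinset.1 hμ)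
    rw [← Multiset.le_count_iff_replicate_le] at h2
    omega
  have h3 : N.card ≤ N.toFinset.card * (r - 1) := by
    rw [← Multiset.toFinset_sum_count_eq N]
    refine le_trans (Finset.sum_le_card_nsmul _ _ _ h1) ?_
    rw [smul_eq_mul]
  have h4 : N.toFinset ⊆ Finset.Icc 1 M := by
    intro μ hμ
    exact Finset.mem_Icc.2 (hN μ (Multiset.mem_toFinset.1 hμ))
  have h5 : N.toFinset.card ≤ M := by
    have := Finset.card_le_card h4
    rw [Nat.card_Icc] at this
    omega
  have h6 : N.toFinset.card * (r - 1) ≤ M * (r - 1) := Nat.mul_le_mul_right _ h5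
  have h7 : M * (r - 1) < M * r := Nat.mul_lt_mul_of_pos_left (by omega) (by omega)
  omega

section PeelAux

/-- The traces of a multiset of forced conditions. -/
def trS (n : ℕ) (S : Multiset (ℕ × ℕ)) : ℕ := (S.map fun x => ell n x.1).sum

/-- The lengths of a multiset of forced conditions. -/
def flS (n : ℕ) (S : Multiset (ℕ × ℕ)) : ℕ := (S.map fun x => ell (n + 1) x.1 + 1 - x.2).sum

theorem trS_add (n : ℕ) (S T : Multiset (ℕ × ℕ)) : trS n (S + T) = trS n S + trS n T := by
  unfold trS
  rw [Multiset.map_add, Multiset.sum_add]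

theorem flS_add (n : ℕ) (S T : Multiset (ℕ × ℕ)) : flS n (S + T) = flS n S + flS n T := by
  unfold flS
  rw [Multiset.map_add, Multiset.sum_add]

private theorem shf_zero : shf 0 = 0 := rfl

private theorem shf_cons (x : ℕ × ℕ) (S : Multiset (ℕ × ℕ)) :
    shf (x ::ₘ S) = if x.2 ≤ x.1 - 1 then (x.1 - 1, x.2) ::ₘ shf S else shf S := by
  unfold shf
  rw [Multiset.map_cons]
  by_cases h : x.2 ≤ x.1 - 1
  · rw [if_pos h]
    exact Multiset.filter_cons_of_pos (p := fun y : ℕ × ℕ => y.2 ≤ y.1) _ h
  · rw [if_neg h]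
    exact Multiset.filter_cons_of_neg (p := fun y : ℕ × ℕ => y.2 ≤ y.1) _ h

theorem mem_shf {x : ℕ × ℕ} {S : Multiset (ℕ × ℕ)} (hx : x ∈ shf S) :
    ∃ y ∈ S, x = (y.1 - 1, y.2) ∧ y.2 ≤ y.1 - 1 := by
  unfold shf at hx
  rw [Multiset.mem_filter, Multiset.mem_map] at hx
  obtain ⟨⟨y, hy, rfl⟩, h⟩ := hx
  exact ⟨y, hy, rfl, h⟩

theorem trS_shf {n M : ℕ} (hn : 1 ≤ n) (S : Multiset (ℕ × ℕ))
    (hS : ∀ x ∈ S, 1 ≤ x.2 ∧ x.2 ≤ 2 ∧ x.2 ≤ x.1 ∧ x.1 ≤ M) :
    M * trS n (shf S) ≤ (M - 1) * trS n S := by
  induction S using Multiset.induction_on with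
  | empty => simp [shf_zero, trS]
  | cons x S ih =>
    have ih' := ih fun y hy => hS y (Multiset.mem_cons_of_mem hy)
    have hx := hS x (Multiset.mem_cons_self x S)
    have h1 : trS n (x ::ₘ S) = ell n x.1 + trS n S := by
      unfold trS
      rw [Multiset.map_cons, Multiset.sum_cons]
    rw [shf_cons, h1]
    by_cases h : x.2 ≤ x.1 - 1
    · rw [if_pos h]
      have h2 : trS n ((x.1 - 1, x.2) ::ₘ shf S) = ell n (x.1 - 1) + trS n (shf S) := by
        unfold trS
        rw [Multiset.map_cons, Multiset.sum_cons]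
      rw [h2]
      have h3 := ell_ratio (n := n) (c := x.1 - 1) (M := M) hn (by omega)
      have h4 : x.1 - 1 + 1 = x.1 := by omega
      rw [h4] at h3
      rw [Nat.mul_add, Nat.mul_add]
      exact Nat.add_le_add h3 ih'
    · rw [if_neg h, Nat.mul_add]
      exact le_trans ih' (Nat.le_add_left _ _)

theorem flS_shf {n M : ℕ} (S : Multiset (ℕ × ℕ))
    (hS : ∀ x ∈ S, 1 ≤ x.2 ∧ x.2 ≤ 2 ∧ x.2 ≤ x.1 ∧ x.1 ≤ M) :
    flS n S = flS n (shf S) + trS n S := by
  induction S using Multiset.induction_on with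
  | empty => simp [shf_zero, trS, flS]
  | cons x S ih =>
    have ih' := ih fun y hy => hS y (Multiset.mem_cons_of_mem hy)
    obtain ⟨hx1, hx2, hx3, -⟩ := hS x (Multiset.mem_cons_self x S)
    have h1 : trS n (x ::ₘ S) = ell n x.1 + trS n S := by
      unfold trS
      rw [Multiset.map_cons, Multiset.sum_cons]
    have h0 : flS n (x ::ₘ S) = (ell (n + 1) x.1 + 1 - x.2) + flS n S := by
      unfold flS
      rw [Multiset.map_cons, Multiset.sum_cons]
    have h5 := ell_succ n (x.1 - 1)
    have h4 : x.1 - 1 + 1 = x.1 := by omega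
    rw [h4] at h5
    have h6 := ell_pos n (m := x.1) (by omega)
    rw [shf_cons, h1, h0, ih']
    by_cases h : x.2 ≤ x.1 - 1
    · rw [if_pos h]
      have h2 : flS n ((x.1 - 1, x.2) ::ₘ shf S) =
          (ell (n + 1) (x.1 - 1) + 1 - x.2) + flS n (shf S) := by
        unfold flS
        rw [Multiset.map_cons, Multiset.sum_cons]
      rw [h2]
      have h7 := ell_pos (n + 1) (m := x.1 - 1) (by omega)
      omega
    · rw [if_neg h]
      have h8 : ell (n + 1) (x.1 - 1) = x.2 - 1 := by
        have h9 : x.1 = x.2 := by omega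
        rw [h9]
        have h10 : x.2 = 1 ∨ x.2 = 2 := by omega
        rcases h10 with h10 | h10
        · rw [h10]
          exact ell_zero (by omega)
        · rw [h10]
          exact ell_one _
      omega

variable {ι : Type} [DecidableEq ι]

theorem map_finset_sum {α β γ : Type*} (g : α → β) (s : Finset γ) (F : γ → Multiset α) :
    (∑ i ∈ s, F i).map g = ∑ i ∈ s, (F i).map g :=
  map_sum (Multiset.mapAddMonoidHom g) F s

variable [Fintype ι]

/-- The roles of the conditions. -/
def roles (c : Cfg ι) (l : ι) (I : Multiset ℕ) (μ t u : ℕ) : Multiset (Role ι) :=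
  (c.N - I - Multiset.replicate t μ).map (fun m => Role.stay (Kind.free m)) +
    Multiset.replicate (c.s - u) (Role.stay (Kind.free 1)) +
    ∑ l' ∈ univ.erase l, (c.Φ l').map (fun x => Role.stay (Kind.forced l' x.1 x.2)) +
    (c.Φ l).map (fun x => Role.here x.1 x.2) + I.map (fun m => Role.ord m) +
    Multiset.replicate t Role.dif + Multiset.replicate u (Role.ord 1)

theorem roles_before (c : Cfg ι) (l : ι) {I : Multiset ℕ} (hI : I ≤ c.N) {μ t u : ℕ}
    (ht : Multiset.replicate t μ ≤ c.N - I) (hu : u ≤ c.s) :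
    (roles c l I μ t u).map (Role.before l μ) = c.kinds := by
  have h1 : c.N = (c.N - I - Multiset.replicate t μ) + I + Multiset.replicate t μ := by
    rw [add_right_comm, tsub_add_cancel_of_le ht, tsub_add_cancel_of_le hI]
  have h2 : Multiset.replicate c.s (Kind.free 1 : Kind ι) =
      Multiset.replicate (c.s - u) (Kind.free 1) + Multiset.replicate u (Kind.free 1) := by
    rw [← Multiset.replicate_add, Nat.sub_add_cancel hu]
  have h3 : ∑ l', (c.Φ l').map (fun x => Kind.forced l' x.1 x.2) =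
      ∑ l' ∈ univ.erase l, (c.Φ l').map (fun x => Kind.forced l' x.1 x.2) +
        (c.Φ l).map (fun x => Kind.forced l x.1 x.2) :=
    (Finset.sum_erase_add univ _ (Finset.mem_univ l)).symm
  have h4 : c.kinds = ((c.N - I - Multiset.replicate t μ) + I +
      Multiset.replicate t μ).map Kind.free + Multiset.replicate c.s (Kind.free 1) +
      ∑ l', (c.Φ l').map (fun x => Kind.forced l' x.1 x.2) := by
    rw [← h1]
    rfl
  rw [h4, h2, h3]
  unfold roles
  simp only [Multiset.map_add, map_finset_sum, Multiset.map_map, Multiset.map_replicate,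
    Function.comp_def, Role.before]
  abel

private theorem sum_ell_zero {n : ℕ} (hn : 1 ≤ n) {α : Type*} (S : Multiset α) :
    (S.map fun _ => ell n 0).sum = 0 := by
  rw [ell_zero hn]
  simp

theorem roles_layer {n M : ℕ} (hn : 1 ≤ n) {c : Cfg ι} (hc : c.OK M) (l : ι)
    (I : Multiset ℕ) (μ t u : ℕ) :
    (((roles c l I μ t u).map Role.layer).map (ell n)).sum =
      c.tr n l + (I.map (ell n)).sum + t + u := by
  have h1 : ((c.Φ l).map fun x => ell n (if x.2 ≤ x.1 then x.1 else 0)).sum = c.tr n l := by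
    unfold Cfg.tr
    congr 1
    refine Multiset.map_congr rfl fun x hx => ?_
    rw [if_pos (hc.hΦ l x hx).2.2.1]
  unfold roles
  simp only [Multiset.map_add, map_finset_sum, Multiset.map_map, Multiset.map_replicate,
    Function.comp_def, Role.layer, Multiset.sum_add]
  rw [h1, sum_ell_zero hn]
  have h2 : (∑ l' ∈ univ.erase l, (c.Φ l').map fun _ => ell n 0).sum = 0 := by
    have h3 : (∑ l' ∈ univ.erase l, (c.Φ l').map fun _ => ell n 0).sum =
        ∑ l' ∈ univ.erase l, ((c.Φ l').map fun _ => ell n 0).sum :=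
      map_sum (Multiset.sumAddMonoidHom) _ _
    rw [h3]
    exact Finset.sum_eq_zero fun l' _ => sum_ell_zero hn _
  rw [h2, ell_one, Multiset.sum_replicate, Multiset.sum_replicate, Multiset.sum_replicate,
    ell_zero hn]
  simp

theorem roles_notAt (c : Cfg ι) (l : ι) (I : Multiset ℕ) (μ t u : ℕ) (k : Kind ι)
    (hk : Role.stay k ∈ roles c l I μ t u) : k.NotAt l := by
  unfold roles at hk
  simp only [Multiset.mem_add] at hk
  rcases hk with (((((h | h) | h) | h) | h) | h) | h
  · obtain ⟨m, _, hm⟩ := Multiset.mem_map.1 h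
    cases hm
    trivial
  · have h1 := (Multiset.mem_replicate.1 h).2
    cases h1
    trivial
  · obtain ⟨l', hl', h1⟩ := Multiset.mem_sum.1 h
    obtain ⟨x, _, hx⟩ := Multiset.mem_map.1 h1
    cases hx
    exact Finset.ne_of_mem_erase hl'
  · obtain ⟨m, _, hm⟩ := Multiset.mem_map.1 h
    cases hm
  · obtain ⟨m, _, hm⟩ := Multiset.mem_map.1 h
    cases hm
  · have h1 := (Multiset.mem_replicate.1 h).2
    cases h1
  · have h1 := (Multiset.mem_replicate.1 h).2
    cases h1

theorem roles_layer_le {M : ℕ} (hM : 1 ≤ M) {c : Cfg ι} (hc : c.OK M) (l : ι)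
    {I : Multiset ℕ} (hI : I ≤ c.N) (μ t u : ℕ) :
    ∀ m ∈ (roles c l I μ t u).map Role.layer, m ≤ M := by
  intro m hm
  obtain ⟨r, hr, rfl⟩ := Multiset.mem_map.1 hm
  unfold roles at hr
  simp only [Multiset.mem_add] at hr
  rcases hr with (((((h | h) | h) | h) | h) | h) | h
  · obtain ⟨m, _, rfl⟩ := Multiset.mem_map.1 h
    exact Nat.zero_le _
  · rw [(Multiset.mem_replicate.1 h).2]
    exact Nat.zero_le _
  · obtain ⟨l', hl', h1⟩ := Multiset.mem_sum.1 h
    obtain ⟨x, _, rfl⟩ := Multiset.mem_map.1 h1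
    exact Nat.zero_le _
  · obtain ⟨x, hx, rfl⟩ := Multiset.mem_map.1 h
    have h2 := hc.hΦ l x hx
    change (if x.2 ≤ x.1 then x.1 else 0) ≤ M
    rw [if_pos h2.2.2.1]
    exact h2.2.2.2
  · obtain ⟨m', hm', rfl⟩ := Multiset.mem_map.1 h
    exact (hc.hN m' (Multiset.mem_of_le hI hm')).2
  · rw [(Multiset.mem_replicate.1 h).2]
    exact hM
  · rw [(Multiset.mem_replicate.1 h).2]
    exact hM

omit [DecidableEq ι] [Fintype ι] in
theorem sum_map_N {n : ℕ} (c : Cfg ι) {I : Multiset ℕ} (hI : I ≤ c.N) {μ t : ℕ}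
    (ht : Multiset.replicate t μ ≤ c.N - I) :
    (c.N.map (ell (n + 1))).sum = ((c.N - I - Multiset.replicate t μ).map (ell (n + 1))).sum +
      (I.map (ell (n + 1))).sum + t * ell (n + 1) μ := by
  have h1 : c.N = (c.N - I - Multiset.replicate t μ) + I + Multiset.replicate t μ := by
    rw [add_right_comm, tsub_add_cancel_of_le ht, tsub_add_cancel_of_le hI]
  conv_lhs => rw [h1]
  rw [Multiset.map_add, Multiset.map_add, Multiset.sum_add, Multiset.sum_add,
    Multiset.map_replicate, Multiset.sum_replicate, smul_eq_mul]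

end PeelAux

variable {ι : Type} [Fintype ι] [DecidableEq ι]

theorem card_le_sum_ell {n M : ℕ} {I : Multiset ℕ} (hI : ∀ m ∈ I, 2 ≤ m ∧ m ≤ M) :
    I.card ≤ (I.map (ell n)).sum ∧ (I.map (ell n)).sum ≤ ell n M * I.card := by
  induction I using Multiset.induction_on with
  | empty => simp
  | cons m I ih =>
    have ih' := ih fun m' hm' => hI m' (Multiset.mem_cons_of_mem hm')
    have h7 := hI m (Multiset.mem_cons_self m I)
    rw [Multiset.card_cons, Multiset.map_cons, Multiset.sum_cons, Nat.mul_add, Nat.mul_one]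
    have h8 := ell_pos n (m := m) (by omega)
    have h9 := ell_mono n h7.2
    constructor
    · omega
    · omega

end Pool.Agent.H18.Ex

end

section

/-!
# Module Bridge: replacing forced simple points by free simple points
-/

namespace Pool.Agent.H18.Ex

open Finset

variable {ι : Type} [Fintype ι] [DecidableEq ι]

/-- The functional with coefficients `t`. -/
noncomputable def fnl (A : Finset (ι → ℕ)) (t : (ι → ℕ) → ℂ) : (A → ℂ) →ₗ[ℂ] ℂ :=
  ∑ a : A, (LinearMap.proj a : (A → ℂ) →ₗ[ℂ] ℂ).smulRight (t a.1)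

omit [Fintype ι] [DecidableEq ι] in
theorem fnl_apply (A : Finset (ι → ℕ)) (t : (ι → ℕ) → ℂ) (f : A → ℂ) :
    fnl A t f = ∑ a : A, f a * t a.1 := by
  unfold fnl
  simp [LinearMap.sum_apply]

/-- The space of the forms (coefficient functions on `A`) satisfying the conditions. -/
noncomputable def solSpace {κ : Type} (A : Finset (ι → ℕ)) (k : κ → Kind ι)
    (pos : κ → ι → ℂ) : Submodule ℂ (A → ℂ) :=
  ⨅ i, ⨅ b, ⨅ (_ : (k i).Idx b), LinearMap.ker (fnl A fun a => tcr ((k i).pt (pos i)) a b)

theorem mem_solSpace {κ : Type} {A : Finset (ι → ℕ)} {k : κ → Kind ι} {pos : κ → ι → ℂ}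
    {f : A → ℂ} : f ∈ solSpace A k pos ↔
      ∀ i b, (k i).Idx b → ∑ a : A, f a * tcr ((k i).pt (pos i)) a.1 b = 0 := by
  unfold solSpace
  simp only [Submodule.mem_iInf, LinearMap.mem_ker, fnl_apply]

theorem mem_solSpace_of_sat {κ : Type} {A : Finset (ι → ℕ)} {k : κ → Kind ι}
    {pos : κ → ι → ℂ} {f : (ι → ℕ) → ℂ} (h : ∀ i, Sat A f (k i) (pos i)) :
    (fun a : A => f a.1) ∈ solSpace A k pos := by
  rw [mem_solSpace]
  intro i b hb
  have h1 := h i b hb
  rw [← Finset.sum_coe_sort] at h1
  exact h1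

/-- Extension by zero. -/
noncomputable def extz (A : Finset (ι → ℕ)) (f : A → ℂ) : (ι → ℕ) → ℂ :=
  fun a => if h : a ∈ A then f ⟨a, h⟩ else 0

theorem extz_sum (A : Finset (ι → ℕ)) (f : A → ℂ) (t : (ι → ℕ) → ℂ) :
    ∑ a ∈ A, extz A f a * t a = ∑ a : A, f a * t a.1 := by
  rw [← Finset.sum_coe_sort]
  refine Finset.sum_congr rfl fun a _ => ?_
  unfold extz
  rw [dif_pos a.2]

theorem extz_eq_zero (A : Finset (ι → ℕ)) (f : A → ℂ) (h : ∀ a ∈ A, extz A f a = 0) :
    f = 0 := by
  funext a
  have h1 := h a.1 a.2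
  unfold extz at h1
  rw [dif_pos a.2] at h1
  exact h1

/-- General positions for the bridge. -/
theorem bridge_positions {κ : Type} [Fintype κ] (A A' : Finset (ι → ℕ)) (l : ι)
    (k : κ → Kind ι) (s : ℕ)
    (h1 : GI A (Sum.elim k fun _ : Fin s => Kind.free 1))
    (h2 : GI A' fun i => (k i).dn l) :
    ∃ (pos : κ → ι → ℂ) (pos' : Fin s → ι → ℂ),
      InjAt A (Sum.elim k fun _ : Fin s => Kind.free 1) (Sum.elim pos pos') ∧
      InjAt A' (fun i => (k i).dn l) pos ∧ ∀ i j, pos i j ≠ 0 := by
  obtain ⟨G1, hG1, hG1'⟩ := h1.general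
  obtain ⟨G2, hG2, hG2'⟩ := h2.general
  set φ : κ × ι → (κ ⊕ Fin s) × ι := fun x => (Sum.inl x.1, x.2) with hφ
  have hφi : Function.Injective φ := by
    rintro ⟨a, b⟩ ⟨c, d⟩ h
    simp only [hφ, Prod.mk.injEq, Sum.inl.injEq] at h
    exact Prod.ext h.1 h.2
  have h3 : G1 * MvPolynomial.rename φ G2 * ∏ x, MvPolynomial.X x ≠ 0 := by
    refine mul_ne_zero (mul_ne_zero hG1 ?_) ?_
    · intro h
      apply hG2
      apply MvPolynomial.rename_injective φ hφi
      rw [h, map_zero]
    · exact Finset.prod_ne_zero_iff.2 fun x _ => MvPolynomial.X_ne_zero x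
  obtain ⟨z, hz⟩ : ∃ z : (κ ⊕ Fin s) × ι → ℂ,
      MvPolynomial.eval z (G1 * MvPolynomial.rename φ G2 * ∏ x, MvPolynomial.X x) ≠ 0 := by
    by_contra hcon
    push Not at hcon
    apply h3
    apply MvPolynomial.funext
    intro z
    rw [hcon z, map_zero]
  rw [map_mul, map_mul, map_prod, MvPolynomial.eval_rename] at hz
  have hz1 := left_ne_zero_of_mul (left_ne_zero_of_mul hz)
  have hz2 := right_ne_zero_of_mul (left_ne_zero_of_mul hz)
  have hz3 := right_ne_zero_of_mul hz
  refine ⟨fun i j => z (Sum.inl i, j), fun i j => z (Sum.inr i, j), ?_, ?_, ?_⟩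
  · apply hG1'
    have h4 : (fun x : (κ ⊕ Fin s) × ι =>
        (Sum.elim (fun i j => z (Sum.inl i, j)) (fun i j => z (Sum.inr i, j)) :
          κ ⊕ Fin s → ι → ℂ) x.1 x.2) = z := by
      funext x
      rcases x with ⟨x | x, y⟩ <;> rfl
    rw [h4]
    exact hz1
  · apply hG2'
    exact hz2
  · intro i j
    have h5 := Finset.prod_ne_zero_iff.1 hz3 (Sum.inl i, j) (Finset.mem_univ _)
    rwa [MvPolynomial.eval_X] at h5

/-- Bridging: `s` simple points on the hyperplane `x_l = 0` may be replaced by `s` free simple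
points, provided the forms satisfying the other conditions inject into the layer.

Proof.  By openness (`GI.general`, applied to the two families restricted to `κ`; for `h1` view
the positions of `κ ⊕ Fin s` and specialise) choose positions of `κ` with nonzero coordinates such
that (1) for suitable positions of the `s` free simple points `InjAt` holds, and (2)
`InjAt A' (dn l ∘ k) pos`.  Let `V` be the space of `f : A → ℂ` satisfying the conditions
`k i` at `pos i`.  By (1) `V` injects into `ℂ^s`, so `finrank V ≤ s`.  By (2) the restriction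
`V → (A.filter (a l = 0) → ℂ)` is injective: if `f = 0` on the layer, then
`a ↦ f (a + e_l)` satisfies the conditions `dn l (k i)` (`sat_resid_of_notAt` for kinds not forced
at `l`, `sat_resid_forced` for `forced l`), so it is `0`.  Let `W` be the image of `V`,
`finrank W ≤ s`; `kill` gives the positions `q j` of the points on the hyperplane
(`forced l 1 1` at `q` is `∑_{a ∈ A, a l = 0} f a * ∏ q^a = 0`, by `layer_sum`, the `l`-th coordinate
being irrelevant on the layer). -/
theorem bridge {κ : Type} [Fintype κ] (A A' : Finset (ι → ℕ)) (l : ι)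
    (hA : ∀ a, a ∈ A' ↔ Function.update a l (a l + 1) ∈ A) (k : κ → Kind ι) (s : ℕ)
    (h1 : GI A (Sum.elim k fun _ : Fin s => Kind.free 1))
    (h2 : GI A' fun i => (k i).dn l) :
    GI A (Sum.elim k fun _ : Fin s => Kind.forced l 1 1) := by
  obtain ⟨pos, pos', hp1, hp2, hp3⟩ := bridge_positions A A' l k s h1 h2
  -- the solution space has dimension at most `s`
  set V := solSpace A k pos with hV
  have hVs : Module.finrank ℂ V ≤ s := by
    let T : V →ₗ[ℂ] (Fin s → ℂ) :=
      (LinearMap.pi fun j => evl A (pos' j)).comp V.subtype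
    have hT : Function.Injective T := by
      rw [← LinearMap.ker_eq_bot, LinearMap.ker_eq_bot']
      intro f hf
      have h3 : extz A f.1 = extz A f.1 := rfl
      apply Subtype.ext
      apply extz_eq_zero A f.1
      apply hp1
      rintro (i | j)
      · intro b hb
        change ∑ a ∈ A, extz A f.1 a * tcr ((k i).pt (pos i)) a b = 0
        rw [extz_sum A f.1 (fun a => tcr ((k i).pt (pos i)) a b)]
        exact (mem_solSpace.1 f.2) i b hb
      · intro b hb
        have hb' : ∑ i, b i < 1 := hb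
        have hb0 : b = 0 := by
          funext i
          have h4 : b i ≤ ∑ i, b i := Finset.single_le_sum (fun _ _ => Nat.zero_le _)
            (Finset.mem_univ i)
          change b i = 0
          omega
        subst hb0
        change ∑ a ∈ A, extz A f.1 a * tcr (pos' j) a 0 = 0
        rw [extz_sum A f.1 (fun a => tcr (pos' j) a 0)]
        have h5 := congrFun hf j
        rw [← evl_apply]
        exact h5
    have h6 := LinearMap.finrank_le_finrank_of_injective hT
    rwa [Module.finrank_fin_fun] at h6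
  -- restriction to the layer
  set A0 := A.filter (fun a => a l = 0) with hA0
  have hsub : ∀ a : A0, a.1 ∈ A := fun a => (Finset.mem_filter.1 a.2).1
  let r : (A → ℂ) →ₗ[ℂ] (A0 → ℂ) :=
    LinearMap.pi fun a => LinearMap.proj (⟨a.1, hsub a⟩ : A)
  obtain ⟨q, hq⟩ := kill A0 s (V.map r) ((Submodule.finrank_map_le r V).trans hVs)
  refine ⟨Sum.elim pos q, fun f hf => ?_⟩
  have hfk : ∀ i, Sat A f (k i) (pos i) := fun i => hf (Sum.inl i)
  -- the form vanishes on the layer
  have h0 : ∀ a ∈ A, a l = 0 → f a = 0 := by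
    have h7 : r (fun a : A => f a.1) = 0 := by
      apply hq
      · exact Submodule.mem_map_of_mem (mem_solSpace_of_sat hfk)
      · intro j
        have h8 := hf (Sum.inr j) 0 (by
          change ∑ i, (0 : ι → ℕ) i < 1 ∧ (0 : ι → ℕ) l + 1 ≤ 1
          constructor
          · simp
          · simp)
        change ∑ a ∈ A, f a * tcr (Function.update (q j) l 0) a 0 = 0 at h8
        rw [layer_sum A l f _ (by simp) 0 rfl] at h8
        rw [← h8, ← hA0, ← Finset.sum_coe_sort A0]
        refine Finset.sum_congr rfl fun a _ => ?_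
        have hal : a.1 l = 0 := (Finset.mem_filter.1 a.2).2
        rw [tcr_zero_right, tcr_zero_right]
        congr 1
        refine Finset.prod_congr rfl fun i _ => ?_
        by_cases hi : i = l
        · subst hi
          rw [hal, pow_zero, pow_zero]
        · rw [Function.update_of_ne hi]
    intro a ha hal
    have ha0 : a ∈ A0 := Finset.mem_filter.2 ⟨ha, hal⟩
    exact congrFun h7 ⟨a, ha0⟩
  -- the residual vanishes
  have h9 : ∀ a ∈ A', f (Function.update a l (a l + 1)) = 0 := by
    apply hp2 (fun a => f (Function.update a l (a l + 1)))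
    intro i
    have h10 := hfk i
    change Sat A' (fun a => f (Function.update a l (a l + 1))) (Kind.dn l (k i)) (pos i)
    cases hki : k i with
    | free m =>
      rw [hki] at h10
      exact sat_resid_of_notAt A A' l hA f h0 (Kind.free m) trivial (pos i) (hp3 i l) h10
    | forced l' c e =>
      rw [hki] at h10
      change Sat A' _ (if l' = l then Kind.forced l' (c - 1) e else Kind.forced l' c e) (pos i)
      split_ifs with hl
      · subst hl
        exact sat_resid_forced A A' l' hA f c e (pos i) h10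
      · exact sat_resid_of_notAt A A' l hA f h0 (Kind.forced l' c e) hl (pos i) (hp3 i l) h10
  intro a ha
  by_cases hal : a l = 0
  · exact h0 a ha hal
  · have h11 : Function.update (Function.update a l (a l - 1)) l
        ((Function.update a l (a l - 1)) l + 1) = a := by
      rw [Function.update_self, Function.update_idem]
      have h12 : a l - 1 + 1 = a l := by omega
      rw [h12, Function.update_eq_self]
    have h13 : Function.update a l (a l - 1) ∈ A' := by
      rw [hA, h11]
      exact ha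
    have h14 := h9 _ h13
    rwa [h11] at h14

end Pool.Agent.H18.Ex

end

section

/-!
# Module Multi: the geometric lemmas for multisets of conditions

Useful: `Fin.univ_val_map`, `List.ofFn_get`, `Equiv.ofFiberEquiv`, `Multiset.count_map`,
`Multiset.map_univ_val_equiv`.
-/

namespace Pool.Agent.H18.Ex

open Finset

variable {ι : Type} [Fintype ι] [DecidableEq ι]

/-- Two families with the same multiset of values differ by a bijection of the index types
(`Equiv.ofFiberEquiv`, the fibres have the same cardinality by `Multiset.count_map`). -/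
theorem exists_equiv_of_map_eq {κ κ' X : Type} [Fintype κ] [Fintype κ'] (k : κ → X) (k' : κ' → X)
    (h : (univ : Finset κ).val.map k = (univ : Finset κ').val.map k') :
    ∃ e : κ ≃ κ', ∀ i, k i = k' (e i) := by
  classical
  have hc : ∀ x : X, Nonempty ({a // k a = x} ≃ {b // k' b = x}) := by
    intro x
    rw [← Fintype.card_eq, Fintype.card_subtype, Fintype.card_subtype]
    have h1 := congrArg (Multiset.count x) h
    rw [Multiset.count_map, Multiset.count_map] at h1
    rw [Finset.card_def, Finset.card_def, Finset.filter_val, Finset.filter_val]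
    simpa only [eq_comm] using h1
  refine ⟨Equiv.ofFiberEquiv fun x => (hc x).some, fun i => ?_⟩
  exact (Equiv.ofFiberEquiv_map (fun x => (hc x).some) i).symm

theorem GI.of_comp {κ κ' : Type} {A : Finset (ι → ℕ)} {k' : κ' → Kind ι} (e : κ → κ')
    (he : Function.Injective e) (h : GI A fun i => k' (e i)) : GI A k' := by
  classical
  obtain ⟨pos, hpos⟩ := h
  refine ⟨fun j => if hj : ∃ i, e i = j then pos hj.choose else fun _ => 0, fun f hf => ?_⟩
  refine hpos f fun i => ?_
  have h1 := hf (e i)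
  have h2 : ∃ i', e i' = e i := ⟨i, rfl⟩
  have h3 : h2.choose = i := he h2.choose_spec
  have h4 : (fun j => if hj : ∃ i, e i = j then pos hj.choose else fun _ => 0) (e i) = pos i := by
    show (if hj : ∃ i', e i' = e i then pos hj.choose else fun _ => 0) = pos i
    rw [dif_pos h2, h3]
  rw [h4] at h1
  exact h1

/-- `GM` does not depend on the presentation of the multiset. -/
theorem GM_iff {κ : Type} [Fintype κ] (A : Finset (ι → ℕ)) (k : κ → Kind ι) :
    GM A ((univ : Finset κ).val.map k) ↔ GI A k := by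
  constructor
  · rintro ⟨n, k0, hk0, hG⟩
    obtain ⟨e, he⟩ := exists_equiv_of_map_eq k0 k hk0
    refine GI.of_comp e e.injective ?_
    have : (fun i => k (e i)) = k0 := funext fun i => (he i).symm
    rw [this]
    exact hG
  · intro hG
    refine ⟨Fintype.card κ, fun i => k ((Fintype.equivFin κ).symm i), ?_, ?_⟩
    · have h1 := Multiset.map_univ_val_equiv (Fintype.equivFin κ).symm
      rw [← h1, Multiset.map_map]
      rfl
    · refine GI.of_comp (Fintype.equivFin κ) (Fintype.equivFin κ).injective ?_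
      simpa using hG

theorem multi_exists_fin {X : Type} (T : Multiset X) :
    ∃ (m : ℕ) (t : Fin m → X), (univ : Finset (Fin m)).val.map t = T := by
  induction T using Quotient.inductionOn with
  | h L =>
    refine ⟨L.length, L.get, ?_⟩
    rw [Fin.univ_val_map, List.ofFn_get]
    rfl

theorem multi_map_sum {κ κ' X : Type} [Fintype κ] [Fintype κ'] (k : κ → X) (k' : κ' → X) :
    (univ : Finset (κ ⊕ κ')).val.map (Sum.elim k k')
      = (univ : Finset κ).val.map k + (univ : Finset κ').val.map k' := by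
  rw [← Finset.univ_disjSum_univ, Finset.val_disjSum, Multiset.disjSum, Multiset.map_add,
    Multiset.map_map, Multiset.map_map]
  rfl

theorem GM.mono {A : Finset (ι → ℕ)} {S S' : Multiset (Kind ι)} (h : S ≤ S') (hS : GM A S) :
    GM A S' := by
  obtain ⟨T, rfl⟩ := Multiset.le_iff_exists_add.1 h
  obtain ⟨n, k, rfl, hG⟩ := hS
  obtain ⟨m, t, rfl⟩ := multi_exists_fin T
  rw [← multi_map_sum, GM_iff]
  exact GI.of_comp Sum.inl Sum.inl_injective hG

theorem GM.of_card (A : Finset (ι → ℕ)) (T : Multiset ℕ) (S : Multiset (Kind ι))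
    (hT : ∀ m ∈ T, 1 ≤ m) (h : A.card ≤ T.card) : GM A (T.map Kind.free + S) := by
  refine GM.mono (Multiset.le_add_right _ _) ?_
  obtain ⟨m, t, rfl⟩ := multi_exists_fin T
  rw [Multiset.map_map, GM_iff]
  rw [Multiset.card_map, Finset.card_val, Finset.card_univ, Fintype.card_fin] at h
  refine GI.of_card A _ (Fin.castLEEmb h) fun j => ⟨t (Fin.castLEEmb h j), hT _ ?_, rfl⟩
  exact Multiset.mem_map.2 ⟨_, (by rw [Finset.mem_val]; exact Finset.mem_univ _), rfl⟩

theorem GM.step (A A' : Finset (ι → ℕ)) (l : ι)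
    (hA : ∀ a, a ∈ A' ↔ Function.update a l (a l + 1) ∈ A) (μ : ℕ) (hμ : 1 ≤ μ)
    (S : Multiset (Role ι)) (hS : ∀ k, Role.stay k ∈ S → k.NotAt l)
    (h0 : GM (A.filter fun a => a l = 0) (S.map fun r => Kind.free r.layer))
    (h1 : GM A' (S.map (Role.after l μ))) : GM A (S.map (Role.before l μ)) := by
  obtain ⟨m, ρ, rfl⟩ := multi_exists_fin S
  rw [Multiset.map_map, GM_iff] at h0 h1
  rw [Multiset.map_map, GM_iff]
  refine Pool.Agent.H18.Ex.step A A' l hA μ hμ ρ (fun i k hik => ?_) h0 h1
  exact hS k (Multiset.mem_map.2 ⟨i, (by rw [Finset.mem_val]; exact Finset.mem_univ _), hik⟩)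

theorem GM.bridge (A A' : Finset (ι → ℕ)) (l : ι)
    (hA : ∀ a, a ∈ A' ↔ Function.update a l (a l + 1) ∈ A) (S : Multiset (Kind ι)) (s : ℕ)
    (h1 : GM A (S + Multiset.replicate s (Kind.free 1)))
    (h2 : GM A' (S.map (Kind.dn l))) :
    GM A (S + Multiset.replicate s (Kind.forced l 1 1)) := by
  obtain ⟨m, k, rfl⟩ := multi_exists_fin S
  have hr : ∀ x : Kind ι, Multiset.replicate s x
      = (univ : Finset (Fin s)).val.map (fun _ => x) := by
    intro x
    rw [Multiset.map_const', Finset.card_val, Finset.card_univ, Fintype.card_fin]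
  rw [hr, ← multi_map_sum, GM_iff] at h1
  rw [hr, ← multi_map_sum, GM_iff]
  rw [Multiset.map_map, GM_iff] at h2
  exact Pool.Agent.H18.Ex.bridge A A' l hA k s h1 h2

end Pool.Agent.H18.Ex

end

section

/-!
# Module Peel: one Horace step for configurations

The region `A` has dimension `n + 1`, its layer `A₀ = A ∩ {a l = 0}` dimension `n` and `f`
exponents.
-/

namespace Pool.Agent.H18.Ex

open Finset

section PeelAux

variable {ι : Type} [DecidableEq ι]

/-- The configuration after a step: the points of `I` become ordinary forced points, `t` points of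
multiplicity `μ` become differential points, `u` simple points are used. -/
def peelCfg (c : Cfg ι) (l : ι) (I : Multiset ℕ) (μ t u : ℕ) : Cfg ι where
  N := c.N - I - Multiset.replicate t μ
  s := c.s - u
  Φ := Function.update c.Φ l (shf (c.Φ l) + I.map (fun m => (m - 1, 1)) +
    Multiset.replicate t (μ, 2))

private theorem peelCfg_Φ_self (c : Cfg ι) (l : ι) (I : Multiset ℕ) (μ t u : ℕ) :
    (peelCfg c l I μ t u).Φ l = shf (c.Φ l) + I.map (fun m => (m - 1, 1)) +
      Multiset.replicate t (μ, 2) := Function.update_self _ _ _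

private theorem peelCfg_Φ_ne (c : Cfg ι) {l l' : ι} (h : l' ≠ l) (I : Multiset ℕ) (μ t u : ℕ) :
    (peelCfg c l I μ t u).Φ l' = c.Φ l' := Function.update_of_ne h _ _

private theorem peelCfg_OK {M : ℕ} {c : Cfg ι} (hc : c.OK M) (l : ι) {I : Multiset ℕ}
    (hI : I ≤ c.N) {μ t u : ℕ} (hμ : t ≠ 0 → 2 ≤ μ ∧ μ ≤ M) : (peelCfg c l I μ t u).OK M := by
  refine ⟨fun m hm => hc.hN m ?_, fun l' x hx => ?_⟩
  · exact Multiset.mem_of_le (le_trans tsub_le_self tsub_le_self) hm
  · by_cases h : l' = l
    · subst h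
      rw [peelCfg_Φ_self, Multiset.mem_add, Multiset.mem_add] at hx
      rcases hx with (hx | hx) | hx
      · obtain ⟨y, hy, rfl, h1⟩ := mem_shf hx
        have h2 := hc.hΦ l' y hy
        refine ⟨h2.1, h2.2.1, h1, ?_⟩
        change y.1 - 1 ≤ M
        omega
      · obtain ⟨m, hm, rfl⟩ := Multiset.mem_map.1 hx
        have h2 := hc.hN m (Multiset.mem_of_le hI hm)
        refine ⟨le_rfl, by norm_num, ?_, ?_⟩
        · change 1 ≤ m - 1
          omega
        · change m - 1 ≤ M
          omega
      · have h1 := Multiset.mem_replicate.1 hx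
        have h2 := hμ h1.1
        rw [h1.2]
        exact ⟨by norm_num, le_rfl, h2.1, h2.2⟩
    · rw [peelCfg_Φ_ne c h] at hx
      exact hc.hΦ l' x hx

variable [Fintype ι]

private theorem roles_after (c : Cfg ι) (l : ι) (I : Multiset ℕ) (μ t u : ℕ) :
    (peelCfg c l I μ t u).kinds ≤ (roles c l I μ t u).map (Role.after l μ) := by
  have h3 : ∑ l', ((peelCfg c l I μ t u).Φ l').map (fun x => Kind.forced l' x.1 x.2) =
      ∑ l' ∈ univ.erase l, (c.Φ l').map (fun x => Kind.forced l' x.1 x.2) +
        (shf (c.Φ l) + I.map (fun m => (m - 1, 1)) + Multiset.replicate t (μ, 2)).map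
          (fun x : ℕ × ℕ => Kind.forced l x.1 x.2) := by
    rw [← Finset.sum_erase_add univ _ (Finset.mem_univ l), peelCfg_Φ_self]
    congr 1
    refine Finset.sum_congr rfl fun l' hl' => ?_
    rw [peelCfg_Φ_ne c (Finset.ne_of_mem_erase hl')]
  have h4 : (peelCfg c l I μ t u).kinds = (c.N - I - Multiset.replicate t μ).map Kind.free +
      Multiset.replicate (c.s - u) (Kind.free 1) +
      ∑ l', ((peelCfg c l I μ t u).Φ l').map (fun x => Kind.forced l' x.1 x.2) := rfl
  have h5 : (shf (c.Φ l)).map (fun x => Kind.forced l x.1 x.2) ≤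
      (c.Φ l).map (fun x => Kind.forced l (x.1 - 1) x.2) := by
    have h6 : shf (c.Φ l) ≤ (c.Φ l).map fun x => (x.1 - 1, x.2) := Multiset.filter_le _ _
    have h7 := Multiset.map_le_map (f := fun x : ℕ × ℕ => Kind.forced l x.1 x.2) h6
    rw [Multiset.map_map] at h7
    exact h7
  rw [h4, h3]
  unfold roles
  simp only [Multiset.map_add, map_finset_sum, Multiset.map_map, Multiset.map_replicate,
    Function.comp_def, Role.after]
  calc (c.N - I - Multiset.replicate t μ).map Kind.free +
      Multiset.replicate (c.s - u) (Kind.free 1) +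
      (∑ l' ∈ univ.erase l, (c.Φ l').map (fun x => Kind.forced l' x.1 x.2) +
        ((shf (c.Φ l)).map (fun x => Kind.forced l x.1 x.2) +
          I.map (fun m => Kind.forced l (m - 1) 1) +
          Multiset.replicate t (Kind.forced l μ 2)))
      ≤ (c.N - I - Multiset.replicate t μ).map Kind.free +
      Multiset.replicate (c.s - u) (Kind.free 1) +
      (∑ l' ∈ univ.erase l, (c.Φ l').map (fun x => Kind.forced l' x.1 x.2) +
        ((c.Φ l).map (fun x => Kind.forced l (x.1 - 1) x.2) +
          I.map (fun m => Kind.forced l (m - 1) 1) +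
          Multiset.replicate t (Kind.forced l μ 2))) := by
        gcongr
    _ = (c.N - I - Multiset.replicate t μ).map (fun m => Kind.free m) +
      Multiset.replicate (c.s - u) (Kind.free 1) +
      ∑ l' ∈ univ.erase l, (c.Φ l').map (fun x => Kind.forced l' x.1 x.2) +
      (c.Φ l).map (fun x => Kind.forced l (x.1 - 1) x.2) +
      I.map (fun m => Kind.forced l (m - 1) 1) +
      Multiset.replicate t (Kind.forced l μ 2) := by abel
    _ ≤ _ := Multiset.le_add_right _ _

private theorem peelCfg_GM (n M : ℕ) (hn : 1 ≤ n) (hM : 1 ≤ M) (A A' : Finset (ι → ℕ)) (l : ι)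
    (hA : ∀ a, a ∈ A' ↔ Function.update a l (a l + 1) ∈ A) (f : ℕ)
    (hf : (A.filter fun a => a l = 0).card = f) (hE : Exa n M (A.filter fun a => a l = 0))
    (c : Cfg ι) (hc : c.OK M) {I : Multiset ℕ} (hI : I ≤ c.N) {μ t u : ℕ} (hμ1 : 1 ≤ μ)
    (ht : Multiset.replicate t μ ≤ c.N - I) (hu : u ≤ c.s)
    (hsum : c.tr n l + (I.map (ell n)).sum + t + u = f)
    (h : GM A' (peelCfg c l I μ t u).kinds) : GM A c.kinds := by
  rw [← roles_before c l hI ht hu]
  apply GM.step A A' l hA μ hμ1
  · exact roles_notAt c l I μ t u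
  · have h1 := hE ((roles c l I μ t u).map Role.layer) (roles_layer_le hM hc l hI μ t u)
      (by rw [roles_layer hn hc l I μ t u, hsum, hf])
    rw [Multiset.map_map] at h1
    exact h1
  · exact GM.mono (roles_after c l I μ t u) h

omit [Fintype ι] in
private theorem peelCfg_tr {n M : ℕ} (hn : 1 ≤ n) {c : Cfg ι} (hc : c.OK M) (l : ι)
    {I : Multiset ℕ} (hI : I ≤ c.N) (μ t u : ℕ) :
    M * (peelCfg c l I μ t u).tr n l ≤ (M - 1) * (c.tr n l + (I.map (ell n)).sum) +
      M * (t * ell n μ) := by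
  have h1 : (peelCfg c l I μ t u).tr n l = trS n (shf (c.Φ l)) +
      trS n (I.map (fun m => (m - 1, 1))) + trS n (Multiset.replicate t (μ, 2)) := by
    unfold Cfg.tr
    rw [peelCfg_Φ_self, ← trS_add, ← trS_add]
    rfl
  have h2 : trS n (Multiset.replicate t (μ, 2)) = t * ell n μ := by
    unfold trS
    rw [Multiset.map_replicate, Multiset.sum_replicate, smul_eq_mul]
  have h3 := trS_shf hn (c.Φ l) (fun x hx => hc.hΦ l x hx)
  have h4 : trS n (c.Φ l) = c.tr n l := rfl
  have h5 : M * trS n (I.map (fun m => (m - 1, 1))) ≤ (M - 1) * (I.map (ell n)).sum := by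
    have h6 : ∀ m ∈ I, 2 ≤ m ∧ m ≤ M := fun m hm => hc.hN m (Multiset.mem_of_le hI hm)
    clear h1 h2 h3 h4 hI
    unfold trS
    rw [Multiset.map_map]
    induction I using Multiset.induction_on with
    | empty => simp
    | cons m I ih =>
      have ih' := ih fun m' hm' => h6 m' (Multiset.mem_cons_of_mem hm')
      have h7 := h6 m (Multiset.mem_cons_self m I)
      rw [Multiset.map_cons, Multiset.map_cons, Multiset.sum_cons, Multiset.sum_cons,
        Nat.mul_add, Nat.mul_add]
      have h8 := ell_ratio (n := n) (c := m - 1) (M := M) hn (by omega)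
      have h9 : m - 1 + 1 = m := by omega
      rw [h9] at h8
      exact Nat.add_le_add h8 ih'
  rw [h1, h2, Nat.mul_add, Nat.mul_add, Nat.mul_add]
  rw [h4] at h3
  omega

private theorem peelCfg_sz {n M : ℕ} {c : Cfg ι} (hc : c.OK M) (l : ι)
    {I : Multiset ℕ} (hI : I ≤ c.N) {μ t u : ℕ} (hμ1 : 1 ≤ μ)
    (ht : Multiset.replicate t μ ≤ c.N - I) (hu : u ≤ c.s) :
    (peelCfg c l I μ t u).sz n + (c.tr n l + (I.map (ell n)).sum + t + u) = c.sz n := by
  have h1 : (peelCfg c l I μ t u).fl n l = flS n (shf (c.Φ l)) +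
      flS n (I.map (fun m => (m - 1, 1))) + flS n (Multiset.replicate t (μ, 2)) := by
    unfold Cfg.fl
    rw [peelCfg_Φ_self, ← flS_add, ← flS_add]
    rfl
  have h2 : flS n (Multiset.replicate t (μ, 2)) + t = t * ell (n + 1) μ := by
    unfold flS
    rw [Multiset.map_replicate, Multiset.sum_replicate, smul_eq_mul]
    have h3 := ell_pos (n + 1) hμ1
    change t * (ell (n + 1) μ + 1 - 2) + t = t * ell (n + 1) μ
    have h4 : ell (n + 1) μ = (ell (n + 1) μ + 1 - 2) + 1 := by omega
    conv_rhs => rw [h4]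
    ring
  have h3 := flS_shf (n := n) (c.Φ l) (fun x hx => hc.hΦ l x hx)
  have h4 : flS n (c.Φ l) = c.fl n l := rfl
  have h4' : trS n (c.Φ l) = c.tr n l := rfl
  have h5 : flS n (I.map (fun m => (m - 1, 1))) + (I.map (ell n)).sum =
      (I.map (ell (n + 1))).sum := by
    have h6 : ∀ m ∈ I, 2 ≤ m ∧ m ≤ M := fun m hm => hc.hN m (Multiset.mem_of_le hI hm)
    clear h1 h2 h3 h4 h4' hI ht
    unfold flS
    rw [Multiset.map_map]
    induction I using Multiset.induction_on with
    | empty => simp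
    | cons m I ih =>
      have ih' := ih fun m' hm' => h6 m' (Multiset.mem_cons_of_mem hm')
      have h7 := h6 m (Multiset.mem_cons_self m I)
      rw [Multiset.map_cons, Multiset.map_cons, Multiset.map_cons, Multiset.sum_cons,
        Multiset.sum_cons, Multiset.sum_cons, ← ih']
      have h8 := ell_succ n (m - 1)
      have h9 : m - 1 + 1 = m := by omega
      rw [h9] at h8
      simp only [Function.comp_apply]
      omega
  have h6 : ∑ l', (peelCfg c l I μ t u).fl n l' =
      ∑ l' ∈ univ.erase l, c.fl n l' + (peelCfg c l I μ t u).fl n l := by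
    rw [← Finset.sum_erase_add univ _ (Finset.mem_univ l)]
    congr 1
    refine Finset.sum_congr rfl fun l' hl' => ?_
    unfold Cfg.fl
    rw [peelCfg_Φ_ne c (Finset.ne_of_mem_erase hl')]
  have h7 : ∑ l', c.fl n l' = ∑ l' ∈ univ.erase l, c.fl n l' + c.fl n l :=
    (Finset.sum_erase_add univ _ (Finset.mem_univ l)).symm
  have h8 := sum_map_N (n := n) c hI ht
  have h9 : (peelCfg c l I μ t u).nsz n =
      ((c.N - I - Multiset.replicate t μ).map (ell (n + 1))).sum + (c.s - u) := rfl
  have h10 : c.nsz n = (c.N.map (ell (n + 1))).sum + c.s := rfl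
  unfold Cfg.sz
  rw [h6, h7, h9, h10]
  omega

end PeelAux

variable {ι : Type} [Fintype ι] [DecidableEq ι]

/-- One step for configurations, with a prescribed set `I₀` of points to be put on the hyperplane.

Proof.  Put `a = f - c.tr n l` and `g = ell n`; let `I₀ ≤ I ≤ c.N` be maximal with
`∑_I g ≤ a` (`exists_maximal_fill`), `ρ = a - ∑_I g`; `I.card ≤ a ≤ f` since `g ≥ 1`.

Case (i) `g0 n M ≤ (c.N - I).card`.  Then `ρ < g m ≤ ell n M` for any `m ∈ c.N - I`, and by
`exists_replicate_le` there is `μ ∈ c.N - I` occurring at least `ell n M ≥ ρ` times.  Apply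
`GM.step` to the multiset of roles
`(c.N - I - replicate ρ μ).map (stay ∘ free) + replicate c.s (stay (free 1))
 + ∑_{l' ≠ l} (c.Φ l').map (stay ∘ forced l') + (c.Φ l).map here + I.map ord + replicate ρ dif`.
Its `before` is `c.kinds`; its layer is `Multiset.map Kind.free` of multiplicities `≤ M` with
`∑ ell n = c.tr n l + ∑_I g + ρ = f = |A₀|`, so `GM` holds by `Exa n M A₀` (zeros allowed); its
`after` is `c'.kinds` plus some further (trivial) conditions, where `c'.N = c.N - I - replicate ρ μ`,
`c'.s = c.s`, `c'.Φ l = shf (c.Φ l) + I.map (m - 1, 1) + replicate ρ (μ, 2)` (use `GM.mono`).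
Case (ii) `(c.N - I).card < g0 n M`.  Then `c.N.card < f + g0 n M`, so
`c.nsz n ≤ ell (n + 1) M * (f + g0 n M) + c.s`, hence `ρ ≤ f ≤ c.s`; use `ρ` simple points as
`ord 1` (any `μ`, e.g. `1`, no `dif`): `c'.N = c.N - I`, `c'.s = c.s - ρ`,
`c'.Φ l = shf (c.Φ l) + I.map (m - 1, 1)`.

Numbers: `M * c'.tr n l ≤ (M - 1) * (c.tr n l + ∑_I g) + M * ρ * ell n M` by `ell_ratio`;
`c'.sz n + f = c.sz n` by `ell_succ`.  If `c.N.card < g0 n M` and there is room for all of `c.N`
then `I = c.N` (maximality), case (ii), `c'.N = 0`. -/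
theorem peel (n M : ℕ) (hn : 1 ≤ n) (hM : 1 ≤ M) (A A' : Finset (ι → ℕ)) (l : ι)
    (hA : ∀ a, a ∈ A' ↔ Function.update a l (a l + 1) ∈ A) (f : ℕ)
    (hf : (A.filter fun a => a l = 0).card = f) (hE : Exa n M (A.filter fun a => a l = 0))
    (c : Cfg ι) (hc : c.OK M) (I₀ : Multiset ℕ) (hI₀ : I₀ ≤ c.N)
    (hroom : c.tr n l + (I₀.map (ell n)).sum ≤ f)
    (hav : ell (n + 1) M * (f + g0 n M) + f ≤ c.nsz n) :
    ∃ c' : Cfg ι, c'.OK M ∧ (GM A' c'.kinds → GM A c.kinds) ∧
      (∀ l' ≠ l, c'.Φ l' = c.Φ l') ∧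
      M * c'.tr n l ≤ (M - 1) * f + M * ell n M ^ 2 ∧
      c'.sz n + f = c.sz n ∧
      (c'.s = c.s ∨ c'.N.card < g0 n M) ∧
      c'.N.card ≤ c.N.card ∧
      (c.N.card < g0 n M → g0 n M * ell n M + c.tr n l ≤ f → c'.N = 0) ∧
      (c.N = 0 → c'.N = 0 ∧ c'.Φ l = shf (c.Φ l)) ∧
      shf (c.Φ l) + I₀.map (fun m => (m - 1, 1)) ≤ c'.Φ l := by
  obtain ⟨I, hI1, hI2, hI3, hI4⟩ := exists_maximal_fill c.N I₀ (ell n) (f - c.tr n l) hI₀
    (by omega)
  set ρ := f - c.tr n l - (I.map (ell n)).sum with hρ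
  have hIN : ∀ m ∈ I, 2 ≤ m ∧ m ≤ M := fun m hm => hc.hN m (Multiset.mem_of_le hI2 hm)
  have hcard := card_le_sum_ell (n := n) hIN
  have hg0 : 1 ≤ g0 n M := by
    unfold g0
    exact Nat.mul_pos (by omega) (ell_pos n hM)
  have hsub : (c.N - I).card = c.N.card - I.card := Multiset.card_sub hI2
  have hIc : I.card ≤ c.N.card := Multiset.card_le_card hI2
  have hmapI : shf (c.Φ l) + I₀.map (fun m => (m - 1, 1)) ≤
      shf (c.Φ l) + I.map (fun m => (m - 1, 1)) := by
    gcongr
  by_cases hcase : g0 n M ≤ (c.N - I).card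
  · -- case (i)
    have hNI : ∀ m ∈ c.N - I, 1 ≤ m ∧ m ≤ M := by
      intro m hm
      have := hc.hN m (Multiset.mem_of_le tsub_le_self hm)
      omega
    obtain ⟨μ, hμ, hrep⟩ := exists_replicate_le (c.N - I) M (ell n M) hNI hcase hM
      (ell_pos n hM)
    have hμ2 := hc.hN μ (Multiset.mem_of_le tsub_le_self hμ)
    have hρle : ρ ≤ ell n M := by
      have h1 := hI4 μ hμ
      have h2 := ell_mono n hμ2.2
      omega
    have ht : Multiset.replicate ρ μ ≤ c.N - I :=
      le_trans (Multiset.replicate_le_replicate μ |>.2 hρle) hrep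
    have hsum : c.tr n l + (I.map (ell n)).sum + ρ + 0 = f := by omega
    refine ⟨peelCfg c l I μ ρ 0, peelCfg_OK hc l hI2 (fun _ => hμ2),
      peelCfg_GM n M hn hM A A' l hA f hf hE c hc hI2 (by omega) ht (Nat.zero_le _) hsum,
      fun l' hl' => peelCfg_Φ_ne c hl' I μ ρ 0, ?_, ?_, Or.inl rfl, ?_, ?_, ?_, ?_⟩
    · refine le_trans (peelCfg_tr hn hc l hI2 μ ρ 0) (Nat.add_le_add ?_ ?_)
      · exact Nat.mul_le_mul_left _ (by omega)
      · apply Nat.mul_le_mul_left
        rw [pow_two]
        exact Nat.mul_le_mul hρle (ell_mono n hμ2.2)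
    · have h1 := peelCfg_sz (n := n) hc l hI2 (by omega : 1 ≤ μ) ht (Nat.zero_le c.s)
      rw [hsum] at h1
      exact h1
    · exact Multiset.card_le_card (le_trans tsub_le_self tsub_le_self)
    · intro h
      omega
    · intro h
      rw [h] at hcase hsub
      rw [hsub] at hcase
      simp at hcase
      omega
    · rw [peelCfg_Φ_self]
      exact le_trans hmapI (Multiset.le_add_right _ _)
  · -- case (ii)
    push Not at hcase
    have hρs : ρ ≤ c.s := by
      have h1 : c.nsz n ≤ ell (n + 1) M * c.N.card + c.s := by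
        unfold Cfg.nsz
        exact Nat.add_le_add_right (card_le_sum_ell (n := n + 1) hc.hN).2 _
      have h2 : ell (n + 1) M * c.N.card ≤ ell (n + 1) M * (f + g0 n M) :=
        Nat.mul_le_mul_left _ (by omega)
      omega
    have hsum : c.tr n l + (I.map (ell n)).sum + 0 + ρ = f := by omega
    have ht : Multiset.replicate 0 1 ≤ c.N - I := Multiset.zero_le _
    have hNeq : (peelCfg c l I 1 0 ρ).N = c.N - I := by
      change c.N - I - Multiset.replicate 0 1 = c.N - I
      rw [Multiset.replicate_zero, tsub_zero]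
    refine ⟨peelCfg c l I 1 0 ρ, peelCfg_OK hc l hI2 (fun h => absurd rfl h),
      peelCfg_GM n M hn hM A A' l hA f hf hE c hc hI2 le_rfl ht hρs hsum,
      fun l' hl' => peelCfg_Φ_ne c hl' I 1 0 ρ, ?_, ?_, Or.inr ?_, ?_, ?_, ?_, ?_⟩
    · refine le_trans (peelCfg_tr hn hc l hI2 1 0 ρ) (Nat.add_le_add ?_ ?_)
      · exact Nat.mul_le_mul_left _ (by omega)
      · rw [zero_mul, mul_zero]
        exact Nat.zero_le _
    · have h1 := peelCfg_sz (n := n) hc l hI2 (le_refl 1) ht hρs
      rw [hsum] at h1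
      exact h1
    · rw [hNeq]
      exact hcase
    · rw [hNeq]
      exact Multiset.card_le_card tsub_le_self
    · intro hN hroom'
      rw [hNeq]
      by_contra hne
      obtain ⟨m, hm⟩ := Multiset.exists_mem_of_ne_zero hne
      have h1 := hI4 m hm
      have h2 : m ::ₘ I ≤ c.N := by
        have h3 : ({m} : Multiset ℕ) ≤ c.N - I := Multiset.singleton_le.2 hm
        calc m ::ₘ I = {m} + I := (Multiset.singleton_add m I).symm
          _ ≤ (c.N - I) + I := add_le_add_left h3 I
          _ = c.N := tsub_add_cancel_of_le hI2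
      have h4 := (card_le_sum_ell (n := n) (I := m ::ₘ I)
        fun m' hm' => hc.hN m' (Multiset.mem_of_le h2 hm')).2
      rw [Multiset.map_cons, Multiset.sum_cons] at h4
      have h5 := Multiset.card_le_card h2
      have h6 : ell n M * (m ::ₘ I).card ≤ ell n M * g0 n M := Nat.mul_le_mul_left _ (by omega)
      rw [Nat.mul_comm (ell n M) (g0 n M)] at h6
      omega
    · intro h
      have hI0 : I = 0 := by
        rw [h] at hI2
        exact Multiset.le_zero.1 hI2
      refine ⟨?_, ?_⟩
      · rw [hNeq, h, hI0]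
        rfl
      · rw [peelCfg_Φ_self, hI0]
        simp
    · rw [peelCfg_Φ_self]
      exact le_trans hmapI (Multiset.le_add_right _ _)

end Pool.Agent.H18.Ex

end
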