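import Pool.Agent.H94.LP2.M02
import Pool.Agent.H94.LP2.M05
import Pool.Agent.H94.LP2.M07

/-! The parts of this file: H21.HD.BridgeA, H21.HD.BridgeB, H21.NX.GL. -/

section

/-!
Apolarity.
-/

namespace Pool.Agent.H21.HD

open MvPolynomial Pool.Agent.H18.Fat
open scoped Classical

namespace BridgeAX

/-- The factorial of an exponent vector. -/
noncomputable def fact {n : ℕ} (α : Fin n →₀ ℕ) : ℂ := ∏ j, ((α j).factorial : ℂ)

theorem fact_ne_zero {n : ℕ} (α : Fin n →₀ ℕ) : fact α ≠ 0 :=
  Finset.prod_ne_zero_iff.2 fun j _ => Nat.cast_ne_zero.2 (Nat.factorial_ne_zero _)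

theorem fact_add_single {n : ℕ} (β : Fin n →₀ ℕ) (j : Fin n) :
    fact (β + Finsupp.single j 1) = ((β j : ℂ) + 1) * fact β := by
  unfold fact
  rw [← Finset.mul_prod_erase Finset.univ _ (Finset.mem_univ j),
    ← Finset.mul_prod_erase Finset.univ (fun i => ((β i).factorial : ℂ)) (Finset.mem_univ j)]
  have h2 : ∏ x ∈ Finset.univ.erase j,
      (((β + Finsupp.single j 1 : Fin n →₀ ℕ) x).factorial : ℂ) =
      ∏ x ∈ Finset.univ.erase j, ((β x).factorial : ℂ) := by
    refine Finset.prod_congr rfl fun x hx => ?_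
    have hx' : x ≠ j := Finset.ne_of_mem_erase hx
    simp [Finsupp.single_eq_of_ne hx']
  rw [h2]
  simp only [Finsupp.add_apply, Finsupp.single_eq_same]
  rw [Nat.factorial_succ]
  push_cast
  ring

/-- The apolar pairing. -/
noncomputable def pair {n d : ℕ} (f : mons n d → ℂ) : MvPolynomial (Fin n) ℂ →ₗ[ℂ] ℂ where
  toFun G := ∑ α : mons n d, fact α.1 * f α * coeff α.1 G
  map_add' G H := by
    rw [← Finset.sum_add_distrib]
    exact Finset.sum_congr rfl fun α _ => by rw [coeff_add]; ring
  map_smul' c G := by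
    rw [RingHom.id_apply, smul_eq_mul, Finset.mul_sum]
    exact Finset.sum_congr rfl fun α _ => by rw [coeff_smul, smul_eq_mul]; ring

theorem pair_apply {n d : ℕ} (f : mons n d → ℂ) (G : MvPolynomial (Fin n) ℂ) :
    pair f G = ∑ α : mons n d, fact α.1 * f α * coeff α.1 G := by
  simp only [pair, LinearMap.coe_mk, AddHom.coe_mk]

theorem pair_monomial {n d : ℕ} (f : mons n d → ℂ) (β : mons n d) :
    pair f (monomial β.1 1) = fact β.1 * f β := by
  rw [pair_apply, Finset.sum_eq_single β]
  · rw [coeff_monomial, if_pos rfl, mul_one]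
  · intro α _ hα
    rw [coeff_monomial, if_neg (fun h => hα (Subtype.ext h.symm)), mul_zero]
  · intro h
    exact absurd (Finset.mem_univ _) h

theorem coeff_shift_top {n d : ℕ} (q : Fin n → ℂ) (f : mons n d → ℂ) (β : mons n d) :
    coeff β.1 (shift q (toPoly n d f)) = f β := by
  rw [coeff_shift_toPoly, Finset.sum_eq_single β]
  · have : tc q β.1 β.1 = 1 := by
      unfold tc
      refine Finset.prod_eq_one fun j _ => ?_
      simp
    rw [this, mul_one]
  · intro α _ hα
    have : tc q α.1 β.1 = 0 := by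
      obtain ⟨j, hj⟩ : ∃ j, α.1 j < β.1 j := by
        by_contra hcon
        push Not at hcon
        apply hα
        have h1 := mem_mons.1 α.2
        have h2 := mem_mons.1 β.2
        rw [Finsupp.degree_eq_sum] at h1 h2
        have h3 := (Finset.sum_eq_sum_iff_of_le (fun j _ => hcon j)).1 (h2.trans h1.symm)
        apply Subtype.ext
        ext j
        exact (h3 j (Finset.mem_univ j)).symm
      unfold tc
      apply Finset.prod_eq_zero (Finset.mem_univ j)
      rw [Nat.choose_eq_zero_of_lt hj]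
      simp
    rw [this, mul_zero]
  · intro h
    exact absurd (Finset.mem_univ _) h

/-- Apolarity for monomials times powers of a linear form. -/
theorem pair_monomial_mul_lin_pow {n d : ℕ} (q : Fin n → ℂ) (f : mons n d → ℂ) (e : ℕ) :
    ∀ β : Fin n →₀ ℕ, β.degree + e = d →
      pair f (monomial β 1 * lin q ^ e) =
        (e.factorial : ℂ) * fact β * coeff β (shift q (toPoly n d f)) := by
  induction e with
  | zero =>
    intro β hβ
    have hβ' : β ∈ mons n d := mem_mons.2 (by omega)
    rw [pow_zero, mul_one, pair_monomial f ⟨β, hβ'⟩, coeff_shift_top q f ⟨β, hβ'⟩]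
    simp
  | succ e ih =>
    intro β hβ
    have h1 : (monomial β 1 * lin q ^ (e + 1) : MvPolynomial (Fin n) ℂ) =
        ∑ j, q j • (monomial (β + Finsupp.single j 1) 1 * lin q ^ e) := by
      have h2 : (monomial β 1 * lin q ^ (e + 1) : MvPolynomial (Fin n) ℂ) =
          (monomial β 1 * lin q) * lin q ^ e := by
        rw [pow_succ]
        ring
      rw [h2]
      have h3 : (monomial β 1 * lin q : MvPolynomial (Fin n) ℂ) =
          ∑ j, q j • monomial (β + Finsupp.single j 1) 1 := by
        unfold lin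
        rw [Finset.mul_sum]
        refine Finset.sum_congr rfl fun j _ => ?_
        rw [X, C_mul_monomial, monomial_mul, smul_monomial, smul_eq_mul]
        simp
      rw [h3, Finset.sum_mul]
      exact Finset.sum_congr rfl fun j _ => by rw [smul_mul_assoc]
    rw [h1, map_sum]
    have h4 : ∀ j : Fin n, pair f (q j • (monomial (β + Finsupp.single j 1) 1 * lin q ^ e)) =
        ((e.factorial : ℂ) * fact β) * (q j * ((β j : ℂ) + 1) *
          coeff (β + Finsupp.single j 1) (shift q (toPoly n d f))) := by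
      intro j
      rw [map_smul, ih (β + Finsupp.single j 1) (by
        simp only [map_add, Finsupp.degree_single]
        omega), fact_add_single, smul_eq_mul]
      ring
    rw [Finset.sum_congr rfl fun j _ => h4 j, ← Finset.mul_sum, coeff_shift_euler q β f]
    have h5 : (d : ℂ) - (β.degree : ℂ) = (e : ℂ) + 1 := by
      rw [← hβ]
      push_cast
      ring
    rw [h5, Nat.factorial_succ]
    push_cast
    ring

theorem pair_mul_lin_pow_eq_zero {n d m : ℕ} (q : Fin n → ℂ) (f : mons n d → ℂ)
    (hf : VanishesToOrder (toPoly n d f) q m) {e : ℕ} (he : e ≤ d) (hme : d < m + e)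
    {g : MvPolynomial (Fin n) ℂ} (hg : g.IsHomogeneous (d - e)) :
    pair f (g * lin q ^ e) = 0 := by
  rw [g.as_sum, Finset.sum_mul, map_sum]
  refine Finset.sum_eq_zero fun β hβ => ?_
  have h1 : β.degree = d - e := by
    by_contra hne
    exact (mem_support_iff.1 hβ) (hg.coeff_eq_zero hne)
  have h2 : (monomial β (coeff β g) : MvPolynomial (Fin n) ℂ) =
      coeff β g • monomial β 1 := by
    rw [smul_monomial, smul_eq_mul, mul_one]
  rw [h2, smul_mul_assoc, map_smul, pair_monomial_mul_lin_pow q f e β (by omega),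
    hf β (by omega), mul_zero, smul_zero]

theorem lin_isHomogeneous {σ : Type*} [Fintype σ] (v : σ → ℂ) : (lin v).IsHomogeneous 1 :=
  IsHomogeneous.sum _ _ _ fun s _ => isHomogeneous_C_mul_X _ _

theorem powSpan_le {σ P : Type*} [Fintype σ] (d : ℕ) (v : P → σ → ℂ) (e : P → ℕ) :
    powSpan d v e ≤ homogeneousSubmodule σ ℂ d := by
  unfold powSpan
  rw [Submodule.span_le]
  rintro F ⟨p, g, he, hg, rfl⟩
  rw [SetLike.mem_coe, mem_homogeneousSubmodule]
  have h1 := hg.mul ((lin_isHomogeneous (v p)).pow (e p))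
  have h2 : d - e p + 1 * e p = d := by omega
  rwa [h2] at h1

theorem range_toPoly (n d : ℕ) :
    LinearMap.range (toPoly n d) = homogeneousSubmodule (Fin n) ℂ d := by
  ext F
  constructor
  · rintro ⟨f, rfl⟩
    exact toPoly_isHomogeneous f
  · intro hF
    exact ⟨_, exists_toPoly hF⟩

theorem finrank_comap {n d : ℕ} {W : Submodule ℂ (MvPolynomial (Fin n) ℂ)}
    (hW : W ≤ homogeneousSubmodule (Fin n) ℂ d) :
    Module.finrank ℂ (W.comap (toPoly n d)) = Module.finrank ℂ W := by
  have h1 : (W.comap (toPoly n d)).map (toPoly n d) = W := by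
    apply Submodule.map_comap_eq_of_le
    rw [range_toPoly]
    exact hW
  conv_rhs => rw [← h1]
  exact (Submodule.equivMapOfInjective _ (toPoly_injective _ _) _).finrank_eq

end BridgeAX

open BridgeAX in
/-- Apolarity: the forms vanishing at the fat points annihilate the powers. -/
theorem finrank_fat_add_powSpan {r : ℕ} {ι : Type} [Fintype ι] (d : ℕ)
    (p : ι → Fin (r + 1) → ℂ) (m : ι → ℕ) :
    Module.finrank ℂ (fatForms r d p m) +
      Module.finrank ℂ (powSpan d p (fun i => d + 1 - m i)) ≤ (d + r).choose r := by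
  have h1 : fatForms r d p m ≤ homogeneousSubmodule (Fin (r + 1)) ℂ d := fun F hF => hF.1
  rw [← finrank_comap h1, ← finrank_comap (powSpan_le d p (fun i => d + 1 - m i))]
  set W₁ := (fatForms r d p m).comap (toPoly (r + 1) d) with hW₁
  set W₂ := (powSpan d p (fun i => d + 1 - m i)).comap (toPoly (r + 1) d) with hW₂
  -- the pairing as a map to the dual
  let u : (mons (r + 1) d → ℂ) →ₗ[ℂ] Module.Dual ℂ (mons (r + 1) d → ℂ) :=
    { toFun := fun f => (pair f).comp (toPoly (r + 1) d)
      map_add' := fun f g => by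
        ext x
        simp only [LinearMap.comp_apply, LinearMap.add_apply, pair_apply, Pi.add_apply]
        rw [← Finset.sum_add_distrib]
        exact Finset.sum_congr rfl fun α _ => by ring
      map_smul' := fun c f => by
        ext x
        simp only [LinearMap.comp_apply, LinearMap.smul_apply, pair_apply, Pi.smul_apply,
          RingHom.id_apply, smul_eq_mul]
        rw [Finset.mul_sum]
        exact Finset.sum_congr rfl fun α _ => by ring }
  have hu : ∀ f x, u f x = pair f (toPoly (r + 1) d x) := fun _ _ => by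
    simp only [u, LinearMap.coe_mk, AddHom.coe_mk, LinearMap.comp_apply]
  have huinj : Function.Injective u := by
    rw [← LinearMap.ker_eq_bot, LinearMap.ker_eq_bot']
    intro f hf
    funext β
    have h2 : u f (Pi.single β 1) = 0 := by rw [hf]; rfl
    rw [hu, pair_apply, Finset.sum_eq_single β] at h2
    · rw [coeff_toPoly, Pi.single_eq_same, mul_one] at h2
      exact (mul_eq_zero.1 h2).resolve_left (fact_ne_zero _)
    · intro α _ hα
      rw [coeff_toPoly, Pi.single_eq_of_ne hα, mul_zero]
    · intro h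
      exact absurd (Finset.mem_univ _) h
  have hmap : W₁.map u ≤ W₂.dualAnnihilator := by
    rintro _ ⟨f, hf, rfl⟩
    rw [Submodule.mem_dualAnnihilator]
    intro x hx
    rw [hu]
    have h3 : toPoly (r + 1) d x ∈ powSpan d p (fun i => d + 1 - m i) := hx
    have h4 : powSpan d p (fun i => d + 1 - m i) ≤ LinearMap.ker (pair f) := by
      unfold powSpan
      rw [Submodule.span_le]
      rintro F ⟨i, g, he, hg, rfl⟩
      rw [SetLike.mem_coe, LinearMap.mem_ker]
      simp only at he hg ⊢
      exact pair_mul_lin_pow_eq_zero (p i) f (hf.2 i) he (by omega) hg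
    exact LinearMap.mem_ker.1 (h4 h3)
  have h5 : Module.finrank ℂ W₁ ≤ Module.finrank ℂ W₂.dualAnnihilator := by
    rw [(Submodule.equivMapOfInjective u huinj W₁).finrank_eq]
    exact Submodule.finrank_mono hmap
  have h6 := Subspace.finrank_add_finrank_dualAnnihilator_eq W₂
  rw [Module.finrank_fintype_fun_eq_card, Fintype.card_coe, card_mons] at h6
  omega

end Pool.Agent.H21.HD

end

section

/-!
Consequences of apolarity.
-/

namespace Pool.Agent.H21.HD

open MvPolynomial Pool.Agent.H18.Fat
open scoped Classical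

namespace BridgeBX

open BridgeAX

theorem finrank_homog (n d : ℕ) :
    Module.finrank ℂ (homogeneousSubmodule (Fin n) ℂ d) = (mons n d).card := by
  rw [← range_toPoly, LinearMap.finrank_range_of_inj (toPoly_injective n d),
    Module.finrank_fintype_fun_eq_card, Fintype.card_coe]

theorem finite_homog (n d : ℕ) :
    Module.Finite ℂ (homogeneousSubmodule (Fin n) ℂ d) := by
  rw [← range_toPoly]
  infer_instance

theorem finite_of_le {n d : ℕ} {W : Submodule ℂ (MvPolynomial (Fin n) ℂ)}
    (hW : W ≤ homogeneousSubmodule (Fin n) ℂ d) : Module.Finite ℂ W := by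
  have := finite_homog n d
  exact Module.Finite.of_injective (Submodule.inclusion hW) (Submodule.inclusion_injective hW)

end BridgeBX

open BridgeAX BridgeBX

/-- If the powers span then no form vanishes at the fat points. -/
theorem fat_eq_bot_of_span {r : ℕ} {ι : Type} [Fintype ι] (d : ℕ)
    (p : ι → Fin (r + 1) → ℂ) (m : ι → ℕ)
    (h : homogeneousSubmodule (Fin (r + 1)) ℂ d ≤ powSpan d p (fun i => d + 1 - m i)) :
    Module.finrank ℂ (fatForms r d p m) = 0 := by
  have h1 := finrank_fat_add_powSpan d p m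
  have h2 : powSpan d p (fun i => d + 1 - m i) = homogeneousSubmodule (Fin (r + 1)) ℂ d :=
    le_antisymm (powSpan_le d p _) h
  rw [h2, finrank_homog, card_mons] at h1
  omega

/-- If the powers are independent then the fat points impose independent conditions. -/
theorem finrank_fat_of_indep {r : ℕ} {ι : Type} [Fintype ι] (d : ℕ)
    (p : ι → Fin (r + 1) → ℂ) (m : ι → ℕ) (hm : ∀ i, 1 ≤ m i ∧ m i ≤ d)
    (h : Indep d p (fun i => d + 1 - m i)) :
    (Module.finrank ℂ (fatForms r d p m) : ℤ) ≤
      ((d + r).choose r : ℤ) - ∑ i, ((m i + r - 1).choose r : ℤ) := by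
  have h1 := finrank_fat_add_powSpan d p m
  -- the sum map
  let Φ : (∀ i, (mons (r + 1) (m i - 1) → ℂ)) →ₗ[ℂ] MvPolynomial (Fin (r + 1)) ℂ :=
    { toFun := fun f => ∑ i, toPoly (r + 1) (m i - 1) (f i) * lin (p i) ^ (d + 1 - m i)
      map_add' := fun f g => by
        rw [← Finset.sum_add_distrib]
        refine Finset.sum_congr rfl fun i _ => ?_
        rw [Pi.add_apply, map_add, add_mul]
      map_smul' := fun c f => by
        rw [RingHom.id_apply, Finset.smul_sum]
        refine Finset.sum_congr rfl fun i _ => ?_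
        rw [Pi.smul_apply, map_smul, smul_mul_assoc] }
  have hΦ : ∀ f, Φ f = ∑ i, toPoly (r + 1) (m i - 1) (f i) * lin (p i) ^ (d + 1 - m i) :=
    fun _ => rfl
  have hdeg : ∀ i, d - (d + 1 - m i) = m i - 1 := fun i => by
    have := hm i
    omega
  have hinj : Function.Injective Φ := by
    rw [← LinearMap.ker_eq_bot, LinearMap.ker_eq_bot']
    intro f hf
    rw [hΦ] at hf
    have h2 := h (fun i => toPoly (r + 1) (m i - 1) (f i)) (fun i => by
      change (toPoly (r + 1) (m i - 1) (f i)).IsHomogeneous (d - (d + 1 - m i))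
      rw [hdeg i]
      exact toPoly_isHomogeneous _) hf
    funext i
    apply toPoly_injective (r + 1) (m i - 1)
    rw [h2 i]
    exact (map_zero _).symm
  have hrange : LinearMap.range Φ ≤ powSpan d p (fun i => d + 1 - m i) := by
    rintro _ ⟨f, rfl⟩
    rw [hΦ]
    refine Submodule.sum_mem _ fun i _ => ?_
    refine Submodule.subset_span ⟨i, toPoly (r + 1) (m i - 1) (f i), ?_, ?_, rfl⟩
    · have := hm i
      change d + 1 - m i ≤ d
      omega
    · change (toPoly (r + 1) (m i - 1) (f i)).IsHomogeneous (d - (d + 1 - m i))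
      rw [hdeg i]
      exact toPoly_isHomogeneous _
  have := finite_of_le (powSpan_le d p (fun i => d + 1 - m i))
  have h3 := Submodule.finrank_mono hrange
  rw [LinearMap.finrank_range_of_inj hinj, Module.finrank_pi_fintype] at h3
  have h4 : ∑ i, Module.finrank ℂ (mons (r + 1) (m i - 1) → ℂ) =
      ∑ i, (m i + r - 1).choose r := by
    refine Finset.sum_congr rfl fun i _ => ?_
    rw [Module.finrank_fintype_fun_eq_card, Fintype.card_coe, card_mons]
    have := hm i
    congr 1
    omega
  rw [h4] at h3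
  have h5 : ((∑ i, (m i + r - 1).choose r : ℕ) : ℤ) = ∑ i, ((m i + r - 1).choose r : ℤ) := by
    push_cast
    rfl
  rw [← h5]
  omega

end Pool.Agent.H21.HD

end

section

/-!
# Module GL: the span of the spaces `V_d(Γ)`

If `V_d(Γ)` is, for general `Γ`, contained in a fixed subspace `X` not containing all forms of
degree `d`, then `V_d(Γ) = 0` for general `Γ`.

Proof.  Let `φ` be a linear functional killing `X` but not all forms of degree `d`
(`Submodule.exists_le_ker_of_notMem`), and `G ≠ 0` the polynomial of `h`; take `p₀` with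
`G(p₀) ≠ 0` and show `fatForms r d p₀ m = ⊥` (then `gdim_le`).  Let `F ∈ fatForms r d p₀ m`.  For
a square matrix `A` put `p_A i = adjugate(A) *ᵥ p₀ i`.  Then `linSubst A F` (`F(Ax)`) is
homogeneous of degree `d` and vanishes to order `m i` at `p_A i` if `det A ≠ 0`, since
`A p_A i = det A • p₀ i` (`linSubst_shift`, `vanishes_linSubst` etc. in H18/FatToric; vanishing of
a homogeneous form at `c • q`, `c ≠ 0`, is the same as at `q`: `linSubst` with a scalar matrix).  So
`φ(linSubst A F) = 0` whenever `det A * G(p_A) ≠ 0`; both sides are polynomials in the entries of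
`A`, and `det A * G(p_A)` is not the zero polynomial (value `G(p₀)` at `A = 1`), hence
`φ(linSubst A F) = 0` for all `A`.  For the rank one matrix `A i j = c i * v j` one has
`linSubst A F = C (F(c)) * lin v ^ d` (`lin` from H21/HD/Defs), so `F(c) * φ(lin v ^ d) = 0`
for all `c`, `v`.  If `F ≠ 0` there is `c` with `F(c) ≠ 0`, so `φ` kills all `lin v ^ d`, which span
the forms of degree `d` (`Pool.Agent.H21.HD.PowSpanLX.span_all`): contradiction.
-/

namespace Pool.Agent.H21.NX

open Finset MvPolynomial Pool.Agent.H18.Fat Pool.Agent.H21.HD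

namespace GLX

/-- Homogeneous polynomials and scalar multiples of the arguments. -/
theorem aeval_mul_homog {n d : ℕ} {S : Type*} [CommRing S] [Algebra ℂ S]
    {F : MvPolynomial (Fin n) ℂ} (hF : F.IsHomogeneous d) (z : S) (f : Fin n → S) :
    aeval (fun i => z * f i) F = z ^ d * aeval f F := by
  rw [aeval_def, aeval_def, eval₂_eq', eval₂_eq', mul_sum]
  refine sum_congr rfl fun s hs => ?_
  have h1 : s.degree = d := by
    by_contra hne
    exact (mem_support_iff.1 hs) (hF.coeff_eq_zero hne)
  have h2 : ∏ i, (z * f i) ^ s i = z ^ d * ∏ i, f i ^ s i := by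
    simp_rw [mul_pow]
    rw [prod_mul_distrib, prod_pow_eq_pow_sum, ← Finsupp.degree_eq_sum, h1]
  rw [h2]
  ring

theorem linSubst_scalar {n d : ℕ} {F : MvPolynomial (Fin n) ℂ} (hF : F.IsHomogeneous d) (c : ℂ) :
    linSubst (c • (1 : Matrix (Fin n) (Fin n) ℂ)) F = C (c ^ d) * F := by
  have h1 : linSubst (c • (1 : Matrix (Fin n) (Fin n) ℂ)) F =
      aeval (fun i => (C c : MvPolynomial (Fin n) ℂ) * X i) F := by
    unfold linSubst
    refine congrArg (fun f : Fin n → MvPolynomial (Fin n) ℂ => aeval f F) (funext fun i => ?_)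
    rw [sum_eq_single i]
    · simp
    · intro j _ hj
      simp [Ne.symm hj]
    · intro h
      exact absurd (mem_univ i) h
  rw [h1, aeval_mul_homog hF, C_pow, aeval_X_left, AlgHom.id_apply]

theorem vanishes_smul {n d m : ℕ} {F : MvPolynomial (Fin n) ℂ} (hF : F.IsHomogeneous d)
    {q : Fin n → ℂ} (h : VanishesToOrder F q m) {c : ℂ} (hc : c ≠ 0) :
    VanishesToOrder F (c • q) m := by
  have h1 : ((c⁻¹ • (1 : Matrix (Fin n) (Fin n) ℂ)).mulVec (c • q)) = q := by
    rw [Matrix.smul_mulVec, Matrix.one_mulVec, smul_smul, inv_mul_cancel₀ hc, one_smul]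
  have h2 : VanishesToOrder (linSubst (c⁻¹ • (1 : Matrix (Fin n) (Fin n) ℂ)) F) (c • q) m :=
    vanishes_linSubst (by rw [h1]; exact h)
  rw [linSubst_scalar hF] at h2
  intro β hβ
  have h3 := h2 β hβ
  unfold shift at h3 ⊢
  rw [map_mul, aeval_C, algebraMap_eq, coeff_C_mul] at h3
  rcases mul_eq_zero.1 h3 with h4 | h4
  · exact absurd h4 (pow_ne_zero _ (inv_ne_zero hc))
  · exact h4

/-- The generic substitution. -/
noncomputable def gF {n : ℕ} :
    MvPolynomial (Fin n) ℂ →+* MvPolynomial (Fin n) (MvPolynomial (Fin n × Fin n) ℂ) :=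
  eval₂Hom (C.comp C) (fun i => ∑ j, C (X (i, j)) * X j)

theorem map_gF {n : ℕ} (A : Matrix (Fin n) (Fin n) ℂ) (F : MvPolynomial (Fin n) ℂ) :
    MvPolynomial.map (eval fun x : Fin n × Fin n => A x.1 x.2) (gF F) = linSubst A F := by
  have h : (MvPolynomial.map (eval fun x : Fin n × Fin n => A x.1 x.2)).comp gF =
      (linSubst A).toRingHom := by
    apply ringHom_ext
    · intro c
      simp [gF, linSubst]
    · intro i
      simp [gF, linSubst]
  exact DFunLike.congr_fun h F

theorem aeval_C_eq {n : ℕ} (c : Fin n → ℂ) (F : MvPolynomial (Fin n) ℂ) :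
    aeval (fun i => (C (c i) : MvPolynomial (Fin n) ℂ)) F = C (eval c F) := by
  induction F using MvPolynomial.induction_on with
  | C c => simp
  | add p q hp hq => rw [map_add, map_add, map_add, hp, hq]
  | mul_X p i hp => rw [map_mul, map_mul, map_mul, hp, aeval_X, eval_X]

theorem homog_eq' {n d : ℕ} {F : MvPolynomial (Fin n) ℂ} (hF : F.IsHomogeneous d) :
    F = ∑ s ∈ mons n d, monomial s (coeff s F) := by
  classical
  ext s
  rw [coeff_sum]
  simp only [coeff_monomial]
  rw [Finset.sum_ite_eq']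
  split_ifs with h
  · rfl
  · rw [mem_mons] at h
    exact hF.coeff_eq_zero h

theorem eval_aeval' {σ τ : Type*} (a : τ → ℂ) (g : σ → MvPolynomial τ ℂ)
    (G : MvPolynomial σ ℂ) : eval a (aeval g G) = eval (fun x => eval a (g x)) G := by
  induction G using MvPolynomial.induction_on with
  | C c => simp
  | add p q hp hq => rw [map_add, map_add, map_add, hp, hq]
  | mul_X p i hp => rw [map_mul, map_mul, map_mul, hp, aeval_X, eval_X]

theorem functional_poly {n d : ℕ} (φ : MvPolynomial (Fin n) ℂ →ₗ[ℂ] ℂ)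
    {F : MvPolynomial (Fin n) ℂ} (hF : F.IsHomogeneous d) :
    ∃ Q : MvPolynomial (Fin n × Fin n) ℂ, ∀ A : Matrix (Fin n) (Fin n) ℂ,
      eval (fun x => A x.1 x.2) Q = φ (linSubst A F) := by
  refine ⟨∑ t ∈ mons n d, coeff t (gF F) * C (φ (monomial t 1)), fun A => ?_⟩
  conv_rhs => rw [homog_eq' (linSubst_isHomogeneous A hF), map_sum]
  rw [map_sum]
  refine sum_congr rfl fun t _ => ?_
  rw [map_mul, eval_C]
  have h1 : (monomial t) (coeff t (linSubst A F)) =
      (coeff t (linSubst A F)) • (monomial t (1 : ℂ)) := by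
    rw [smul_monomial, smul_eq_mul, mul_one]
  rw [h1, map_smul, smul_eq_mul, ← map_gF, coeff_map]

end GLX

open GLX

/-- Step 1: the polynomial identity in the entries of the matrix. -/
theorem gl_all {r d : ℕ} {κ : Type} [Fintype κ] (m : κ → ℕ)
    (φ : MvPolynomial (Fin (r + 1)) ℂ →ₗ[ℂ] ℂ) (G : MvPolynomial (κ × Fin (r + 1)) ℂ)
    (hG : ∀ p : κ → Fin (r + 1) → ℂ, eval (fun x => p x.1 x.2) G ≠ 0 →
      ∀ F ∈ fatForms r d p m, φ F = 0)
    (p₀ : κ → Fin (r + 1) → ℂ) (hp₀ : eval (fun x => p₀ x.1 x.2) G ≠ 0)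
    (F : MvPolynomial (Fin (r + 1)) ℂ) (hF : F ∈ fatForms r d p₀ m)
    (A : Matrix (Fin (r + 1)) (Fin (r + 1)) ℂ) : φ (linSubst A F) = 0 := by
  classical
  obtain ⟨Q, hQ⟩ := functional_poly φ hF.1
  -- the polynomial `det A * G(p_A)`
  let N := Matrix.mvPolynomialX (Fin (r + 1)) (Fin (r + 1)) ℂ
  have hN : ∀ A : Matrix (Fin (r + 1)) (Fin (r + 1)) ℂ,
      (eval fun x : Fin (r + 1) × Fin (r + 1) => A x.1 x.2).mapMatrix N = A :=
    fun A => Matrix.mvPolynomialX_mapMatrix_eval A
  let D : MvPolynomial (Fin (r + 1) × Fin (r + 1)) ℂ :=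
    N.det * aeval (fun x : κ × Fin (r + 1) => ∑ j, N.adjugate x.2 j * C (p₀ x.1 j)) G
  have hD : ∀ A : Matrix (Fin (r + 1)) (Fin (r + 1)) ℂ,
      eval (fun x => A x.1 x.2) D = A.det *
        eval (fun x : κ × Fin (r + 1) => (A.adjugate.mulVec (p₀ x.1)) x.2) G := by
    intro A
    have h1 : eval (fun x : Fin (r + 1) × Fin (r + 1) => A x.1 x.2) N.det = A.det := by
      rw [RingHom.map_det, hN]
    have h2 : ∀ i j, eval (fun x : Fin (r + 1) × Fin (r + 1) => A x.1 x.2) (N.adjugate i j) =
        A.adjugate i j := by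
      intro i j
      have h3 := RingHom.map_adjugate (eval fun x : Fin (r + 1) × Fin (r + 1) => A x.1 x.2) N
      rw [hN] at h3
      have h4 := congrFun (congrFun h3 i) j
      simpa using h4
    simp only [D, map_mul, h1]
    rw [eval_aeval']
    have h6 : (fun x : κ × Fin (r + 1) => eval (fun x : Fin (r + 1) × Fin (r + 1) => A x.1 x.2)
        (∑ j, N.adjugate x.2 j * C (p₀ x.1 j))) =
        fun x : κ × Fin (r + 1) => (A.adjugate.mulVec (p₀ x.1)) x.2 := by
      funext x
      rw [map_sum]
      simp only [map_mul, h2, eval_C]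
      rfl
    rw [h6]
  have hQD : Q * D = 0 := by
    apply MvPolynomial.funext
    intro a
    let A : Matrix (Fin (r + 1)) (Fin (r + 1)) ℂ := Matrix.of fun i j => a (i, j)
    have ha : a = fun x : Fin (r + 1) × Fin (r + 1) => A x.1 x.2 := by
      funext x
      rfl
    rw [map_mul, map_zero, ha, hQ, hD]
    by_cases hdet : A.det = 0
    · rw [hdet, zero_mul, mul_zero]
    by_cases hGA : eval (fun x : κ × Fin (r + 1) => (A.adjugate.mulVec (p₀ x.1)) x.2) G = 0
    · rw [hGA, mul_zero, mul_zero]
    have h1 : φ (linSubst A F) = 0 := by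
      refine hG (fun i => A.adjugate.mulVec (p₀ i)) hGA _ ?_
      refine ⟨linSubst_isHomogeneous A hF.1, fun i => ?_⟩
      apply vanishes_linSubst
      have h2 : A.mulVec (A.adjugate.mulVec (p₀ i)) = A.det • p₀ i := by
        rw [Matrix.mulVec_mulVec, Matrix.mul_adjugate, Matrix.smul_mulVec, Matrix.one_mulVec]
      rw [h2]
      exact vanishes_smul hF.1 (hF.2 i) hdet
    rw [h1, zero_mul]
  have hD0 : D ≠ 0 := by
    intro h0
    have h1 := hD 1
    rw [h0, map_zero, Matrix.det_one, one_mul] at h1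
    apply hp₀
    rw [h1]
    have h2 : (fun x : κ × Fin (r + 1) => p₀ x.1 x.2) = fun x : κ × Fin (r + 1) =>
        ((1 : Matrix (Fin (r + 1)) (Fin (r + 1)) ℂ).adjugate.mulVec (p₀ x.1)) x.2 := by
      funext x
      rw [Matrix.adjugate_one, Matrix.one_mulVec]
    rw [h2]
  have hQ0 : Q = 0 := (mul_eq_zero.1 hQD).resolve_right hD0
  rw [← hQ, hQ0, map_zero]

/-- Step 2: rank one matrices. -/
theorem linSubst_rank_one {r d : ℕ} (F : MvPolynomial (Fin (r + 1)) ℂ) (hF : F.IsHomogeneous d)
    (c v : Fin (r + 1) → ℂ) :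
    linSubst (Matrix.of fun i j => c i * v j) F = C (eval c F) * lin v ^ d := by
  have h1 : linSubst (Matrix.of fun i j => c i * v j) F =
      aeval (fun i => lin v * (C (c i) : MvPolynomial (Fin (r + 1)) ℂ)) F := by
    unfold linSubst lin
    refine congrArg (fun f : Fin (r + 1) → MvPolynomial (Fin (r + 1)) ℂ => aeval f F)
      (funext fun i => ?_)
    rw [sum_mul]
    refine sum_congr rfl fun j _ => ?_
    rw [Matrix.of_apply, C_mul]
    ring
  rw [h1, aeval_mul_homog hF, mul_comm, aeval_C_eq]

theorem gl_lemma (r d : ℕ) {κ : Type} [Fintype κ] (m : κ → ℕ)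
    (X : Submodule ℂ (MvPolynomial (Fin (r + 1)) ℂ))
    (hX : ¬ homogeneousSubmodule (Fin (r + 1)) ℂ d ≤ X)
    (h : Gen r κ fun p => fatForms r d p m ≤ X) : gdim r d m = 0 := by
  classical
  obtain ⟨F₀, hF₀, hF₀X⟩ := SetLike.not_le_iff_exists.1 hX
  obtain ⟨φ, hφF₀, hφ⟩ := Submodule.exists_le_ker_of_notMem hF₀X
  obtain ⟨G, hG0, hG⟩ := h
  obtain ⟨a, ha⟩ : ∃ a, eval a G ≠ 0 := by
    by_contra hcon
    push Not at hcon
    exact hG0 (MvPolynomial.funext fun a => by rw [hcon a, map_zero])
  let p₀ : κ → Fin (r + 1) → ℂ := fun i j => a (i, j)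
  have hp₀ : eval (fun x : κ × Fin (r + 1) => p₀ x.1 x.2) G ≠ 0 := ha
  have hbot : fatForms r d p₀ m = ⊥ := by
    rw [Submodule.eq_bot_iff]
    intro F hF
    by_contra hF0
    obtain ⟨c, hc⟩ : ∃ c, eval c F ≠ 0 := by
      by_contra hcon
      push Not at hcon
      exact hF0 (MvPolynomial.funext fun a => by rw [hcon a, map_zero])
    have h1 : ∀ v : Fin (r + 1) → ℂ, φ (lin v ^ d) = 0 := by
      intro v
      have h2 := gl_all m φ G (fun p hp F hF => hφ (hG p hp hF)) p₀ hp₀ F hF
        (Matrix.of fun i j => c i * v j)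
      rw [linSubst_rank_one F hF.1, ← smul_eq_C_mul, map_smul, smul_eq_mul] at h2
      exact (mul_eq_zero.1 h2).resolve_left hc
    have h3 : homogeneousSubmodule (Fin (r + 1)) ℂ d ≤ LinearMap.ker φ := by
      rw [PowSpanLX.span_all, Submodule.span_le]
      rintro _ ⟨v, rfl⟩
      exact h1 v
    exact hφF₀ (h3 hF₀)
  have h4 := gdim_le r d m p₀
  rw [hbot, finrank_bot] at h4
  omega

end Pool.Agent.H21.NX

end
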