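import Pool.Agent.H94.LP2.M09
import Pool.Agent.H94.LP2.M11
import Pool.Agent.H94.LP2.M13
import Pool.Agent.H94.LP2.M14
import Pool.Agent.H94.LP2.M15

/-! The parts of this file: H21.NX.Single, H21.NX.Stage, H21.NX.Swap, H21.NX.Chain, H21.NX.Window, H21.NX.Trace, H21.NX.Stage_1, H21.NX.PeelAll. -/

section

/-!
# Module Single: one general point imposes independent conditions

Proof: `≥` is `le_gdim_elim` with the empty family (`gdim_empty`) or `finrank_fatForms_ge`.  `≤`:
`finrank_fat_add_powSpan` (H21/HD/BridgeA) at any point `p ≠ 0`, say all coordinates `1`: the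
degree `d` part of the ideal generated by `lin p ^ (d + 1 - t)` contains the image of the injective
map `g ↦ g * lin p ^ (d + 1 - t)` from forms of degree `t - 1`, of dimension
`binom(t - 1 + r, r) = ell r t` (`1 ≤ t ≤ d + 1`); for `t = 0` use `ell_zero`.  (Or put the
point at `(1, 0, …, 0)` and count monomials.)
-/

namespace Pool.Agent.H21.NX

open Finset MvPolynomial Pool.Agent.H18.Fat Pool.Agent.H18.Ex

theorem gdim_single (r d : ℕ) (hr : 1 ≤ r) (t : ℕ) (ht : t ≤ d + 1) :
    gdim r d (fun _ : Unit => t) + ell r t = (d + r).choose r := by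
  apply le_antisymm
  · -- upper bound
    obtain ⟨p, hp⟩ : ∃ p : Unit → Fin (r + 1) → ℂ, ∀ i j, p i j = 1 := ⟨fun _ _ => 1, fun _ _ => rfl⟩
    have h1 := gdim_le r d (fun _ : Unit => t) p
    rcases Nat.eq_zero_or_pos t with h0 | h0
    · subst h0
      rw [ell_zero hr, add_zero]
      have h2 := Pool.Agent.H21.HD.finrank_fat_add_powSpan d p (fun _ : Unit => 0)
      omega
    · rcases Nat.lt_or_ge d t with hd | hd
      · have htd : t = d + 1 := by omega
        subst htd
        have h2 : Module.finrank ℂ (fatForms r d p (fun _ : Unit => d + 1)) = 0 := by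
          apply Pool.Agent.H21.HD.fat_eq_bot_of_span
          intro F hF
          refine Submodule.subset_span ⟨(), F, ?_, ?_, ?_⟩
          · simp
          · simpa using hF
          · simp
        have h3 : ell r (d + 1) = (d + r).choose r := by
          unfold ell
          congr 1
          omega
        rw [h3]
        omega
      · have hlin : Pool.Agent.H21.HD.lin (p ()) ≠ 0 := by
          intro h
          have h2 := congrArg (MvPolynomial.coeff (Finsupp.single (0 : Fin (r + 1)) 1)) h
          unfold Pool.Agent.H21.HD.lin at h2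
          rw [MvPolynomial.coeff_sum, MvPolynomial.coeff_zero,
            Finset.sum_eq_single (0 : Fin (r + 1))] at h2
          · rw [MvPolynomial.coeff_C_mul, MvPolynomial.coeff_X, hp] at h2
            norm_num at h2
          · intro b _ hb
            rw [MvPolynomial.coeff_C_mul, MvPolynomial.coeff_X, if_neg, mul_zero]
            intro h3
            exact hb (Finsupp.single_left_injective one_ne_zero h3)
          · intro h3
            exact absurd (mem_univ _) h3
        have h2 := Pool.Agent.H21.HD.finrank_fat_of_indep d p (fun _ : Unit => t)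
          (fun _ => ⟨h0, hd⟩) (by
            intro g _ hsum i
            rw [Fintype.sum_unique] at hsum
            rcases mul_eq_zero.1 hsum with h3 | h3
            · exact h3
            · exact absurd (eq_zero_of_pow_eq_zero h3) hlin)
        rw [Fintype.sum_unique] at h2
        unfold ell
        omega
  · -- lower bound
    have h1 := le_gdim_elim r d hr (fun _ : Fin 0 => 0) (fun _ : Unit => t)
    rw [gdim_empty, Fintype.sum_unique] at h1
    have h2 := gdim_comp_equiv r d (Equiv.emptySum (Fin 0) Unit).symm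
      (Sum.elim (fun _ : Fin 0 => 0) (fun _ : Unit => t))
    rw [← h2] at h1
    exact h1

end Pool.Agent.H21.NX

end

section

/-!
# Module Stage: one Horace step along `x_l = 0`

Proof of `stage`: `GM.step` (H18/Ex/Multi) with the multiset of roles
`Φ.map (here c e) + N0.map ord + replicate α (ord μ) + replicate ρ dif +
replicate f (stay (free μ))`, `A = Sx σ`, `A' = Sx (σ - 1)` (`Sx_resid`).  Its `before` is the
given multiset of conditions; its layers are `trc Φ N0 μ α ρ` and `f` zeros (`trace_GM`, applied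
to `trc Φ N0 μ α ρ`, and `GM.mono`); its `after` contains `fk l (nxt Φ N0 μ α ρ)` and
`replicate f (free μ)` (`GM.mono`; the filter in `nxt` only removes conditions).
-/

namespace Pool.Agent.H21.NX

open Finset Pool.Agent.H18.Ex

namespace StageX

/-- The roles. -/
def roles {ι : Type} (Φ : Multiset (ℕ × ℕ)) (N0 : Multiset ℕ) (μ α ρ f : ℕ) :
    Multiset (Role ι) :=
  Φ.map (fun x => Role.here x.1 x.2) + N0.map Role.ord + Multiset.replicate α (Role.ord μ) +
    Multiset.replicate ρ Role.dif + Multiset.replicate f (Role.stay (Kind.free μ))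

theorem roles_before {ι : Type} (l : ι) (Φ : Multiset (ℕ × ℕ)) (N0 : Multiset ℕ)
    (μ α ρ f : ℕ) :
    (roles Φ N0 μ α ρ f).map (Role.before l μ) = fk l Φ + N0.map Kind.free +
      Multiset.replicate (α + ρ + f) (Kind.free μ) := by
  unfold roles fk
  simp only [Multiset.map_add, Multiset.map_map, Multiset.map_replicate, Multiset.replicate_add]
  have e1 : (Role.before l μ ∘ fun x : ℕ × ℕ => Role.here x.1 x.2) =
      fun x : ℕ × ℕ => Kind.forced l x.1 x.2 := rfl
  have e2 : (Role.before l μ ∘ (Role.ord : ℕ → Role ι)) = (Kind.free : ℕ → Kind ι) := rfl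
  have e3 : Role.before l μ (Role.ord μ : Role ι) = Kind.free μ := rfl
  have e4 : Role.before l μ (Role.dif : Role ι) = Kind.free μ := rfl
  have e5 : Role.before l μ (Role.stay (Kind.free μ) : Role ι) = Kind.free μ := rfl
  rw [e1, e2, e3, e4, e5]
  simp only [add_assoc]

theorem roles_layer {ι : Type} (Φ : Multiset (ℕ × ℕ)) (N0 : Multiset ℕ) (μ α ρ f : ℕ)
    (hΦ : ∀ x ∈ Φ, x.2 ≤ x.1) :
    ((trc Φ N0 μ α ρ).map (Kind.free : ℕ → Kind ι)) ≤
      (roles Φ N0 μ α ρ f).map (fun r : Role ι => (Kind.free r.layer : Kind ι)) := by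
  unfold roles trc
  simp only [Multiset.map_add, Multiset.map_map, Multiset.map_replicate]
  refine le_trans (le_of_eq ?_) (Multiset.le_add_right _ _)
  have e1 : Multiset.map ((Kind.free : ℕ → Kind ι) ∘ Prod.fst) Φ =
      Multiset.map ((fun r : Role ι => (Kind.free r.layer : Kind ι)) ∘
        fun x : ℕ × ℕ => Role.here x.1 x.2) Φ := by
    refine Multiset.map_congr rfl fun x hx => ?_
    have h := hΦ x hx
    simp only [Function.comp, Role.layer, h, if_true]
  rw [e1]
  rfl

theorem roles_after {ι : Type} (l : ι) (Φ : Multiset (ℕ × ℕ)) (N0 : Multiset ℕ)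
    (μ α ρ f : ℕ) :
    fk l (nxt Φ N0 μ α ρ) + Multiset.replicate f (Kind.free μ) ≤
      (roles Φ N0 μ α ρ f).map (Role.after l μ) := by
  have h1 : fk l (nxt Φ N0 μ α ρ) ≤ fk l
      (Φ.map (fun x : ℕ × ℕ => (x.1 - 1, x.2)) + N0.map (fun m => (m - 1, 1)) +
        Multiset.replicate α (μ - 1, 1) + Multiset.replicate ρ (μ, 2)) :=
    Multiset.map_le_map (Multiset.filter_le _ _)
  refine le_trans (add_le_add h1 le_rfl) (le_of_eq ?_)
  unfold roles fk
  simp only [Multiset.map_add, Multiset.map_map, Multiset.map_replicate]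
  rfl

end StageX

end Pool.Agent.H21.NX

end

section

/-!
# Module Swap: the swap lemma

Write `c(A, t) = dim V(A) - dim V(A, t)` for general points (the number of conditions which a
further general point of multiplicity `t` imposes).  Suppose that adding a general point `b` of
multiplicity `M ≥ m a` (all `a`) does not change it: `c(A, t) = c(A + b, t)`.  Then `V(A) = 0` or
`c(A, t) = N - dim V(t)` (the value for empty `A`).

Proof.  Positions: `κ ⊕ κ ⊕ Unit` (points `x a`, `y a`, and `ℓ`), general.  For `T ⊆ κ` let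
`z_T a = y a` for `a ∈ T` and `x a` otherwise, and `X(T) = V(z_T) ⊔ V(ℓ)` (`ℓ` of multiplicity
`t`).  By generality (finitely many conditions `gen_gdim`, pulled back along injections by
`Gen.comap`) `finrank X(T) + gdim (m, t) = gdim m + gdim t` for all `T`
(`Submodule.finrank_sup_add_finrank_inf_eq`, `V(z_T) ⊓ V(ℓ) = V(z_T, ℓ)`), and for `a ∉ T`, `b = y a`
with multiplicity `M`, the space `V(z_T, b) ⊔ V(ℓ)` has dimension
`gdim (m, M) + gdim t - gdim (m, M, t)`, the same number by `hc`; it is contained in `X(T)` and in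
`X(insert a T)` (the point `z_{insert a T} a = b` has multiplicity `m a ≤ M`), so
`X(T) = X(insert a T)`.  By induction `X(∅) = X(univ)`, so `V(y) ≤ V(x) ⊔ V(ℓ)` for general
`(x, y, ℓ)`.  Fix general `(x, ℓ)` such that this holds for general `y` (a nonzero polynomial in
`(x, ℓ, y)` is nonzero at some `(x₀, ℓ₀)` as a polynomial in `y`).  If `X = V(x₀) ⊔ V(ℓ₀)` does
not contain all forms of degree `d`, then `gl_lemma` gives `gdim m = 0`; otherwise
`finrank X = binom(d + r, r)`.
-/

namespace Pool.Agent.H21.NX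

open Finset MvPolynomial Pool.Agent.H18.Fat Pool.Agent.H18.Ex

namespace SwapX

theorem fat_elim {r d : ℕ} {κ κ' : Type} (p : κ → Fin (r + 1) → ℂ) (q : κ' → Fin (r + 1) → ℂ)
    (m : κ → ℕ) (n : κ' → ℕ) :
    fatForms r d (Sum.elim p q) (Sum.elim m n) = fatForms r d p m ⊓ fatForms r d q n := by
  ext F
  constructor
  · intro h
    exact ⟨⟨h.1, fun i => h.2 (Sum.inl i)⟩, ⟨h.1, fun i => h.2 (Sum.inr i)⟩⟩
  · rintro ⟨h1, h2⟩
    refine ⟨h1.1, ?_⟩
    rintro (i | i)
    · exact h1.2 i
    · exact h2.2 i

theorem fin_fat {r d : ℕ} {κ : Type} (p : κ → Fin (r + 1) → ℂ) (m : κ → ℕ) :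
    FiniteDimensional ℂ (fatForms r d p m) := Pool.Agent.H21.HD.BridgeCX.finite_fat p m

theorem finrank_sup {r d : ℕ} {κ κ' : Type} (p : κ → Fin (r + 1) → ℂ)
    (q : κ' → Fin (r + 1) → ℂ) (m : κ → ℕ) (n : κ' → ℕ) :
    Module.finrank ℂ (fatForms r d p m ⊔ fatForms r d q n : Submodule ℂ _) +
      Module.finrank ℂ (fatForms r d (Sum.elim p q) (Sum.elim m n)) =
      Module.finrank ℂ (fatForms r d p m) + Module.finrank ℂ (fatForms r d q n) := by
  have h1 := fin_fat (d := d) p m
  have h2 := fin_fat (d := d) q n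
  rw [fat_elim]
  exact Submodule.finrank_sup_add_finrank_inf_eq _ _

/-- The index of the point used at `a`: `y a` if `a ∈ T`, else `x a`. -/
def zt {κ : Type} [DecidableEq κ] (T : Finset κ) (a : κ) : κ ⊕ (κ ⊕ Unit) :=
  if a ∈ T then Sum.inr (Sum.inl a) else Sum.inl a

theorem zt_inj {κ : Type} [DecidableEq κ] (T : Finset κ) : Function.Injective (zt T) := by
  intro a b h
  unfold zt at h
  split_ifs at h with h1 h2 h2
  · exact Sum.inl_injective (Sum.inr_injective h)
  · exact Sum.inl_injective h

theorem zt_ne_ell {κ : Type} [DecidableEq κ] (T : Finset κ) (a : κ) :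
    zt T a ≠ Sum.inr (Sum.inr ()) := by
  unfold zt
  split_ifs
  · intro h
    cases h
  · intro h
    cases h

theorem zt_ne_y {κ : Type} [DecidableEq κ] (T : Finset κ) (a b : κ) (hb : b ∉ T) :
    zt T a ≠ Sum.inr (Sum.inl b) := by
  unfold zt
  split_ifs with h1
  · intro h
    have := Sum.inl_injective (Sum.inr_injective h)
    exact hb (this ▸ h1)
  · intro h
    cases h

theorem elim_inj {α β : Type} (f : α → β) (b : β) (hf : Function.Injective f)
    (hb : ∀ a, f a ≠ b) : Function.Injective (Sum.elim f fun _ : Unit => b) := by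
  rintro (x | x) (y | y) h
  · exact congrArg Sum.inl (hf h)
  · exact absurd h (hb x)
  · exact absurd h.symm (hb y)
  · rfl

theorem comp_elim {α β γ : Type} (p : β → γ) (f : α → β) (b : β) :
    (fun i => p (Sum.elim f (fun _ : Unit => b) i)) =
      Sum.elim (fun i => p (f i)) fun _ : Unit => p b := by
  funext i
  rcases i with i | i <;> rfl

/-- Pulling back a general statement along points where the other coordinates are fixed. -/
theorem gen_fix {r : ℕ} {κ : Type} (G : MvPolynomial ((κ ⊕ (κ ⊕ Unit)) × Fin (r + 1)) ℂ)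
    (p₀ : κ ⊕ (κ ⊕ Unit) → Fin (r + 1) → ℂ) (h0 : eval (fun x => p₀ x.1 x.2) G ≠ 0)
    (P : (κ → Fin (r + 1) → ℂ) → Prop)
    (hP : ∀ y : κ → Fin (r + 1) → ℂ,
      eval (fun x : (κ ⊕ (κ ⊕ Unit)) × Fin (r + 1) =>
        (Sum.elim (fun a => p₀ (Sum.inl a))
          (Sum.elim y fun _ : Unit => p₀ (Sum.inr (Sum.inr ())))) x.1 x.2) G ≠ 0 → P y) :
    Gen r κ P := by
  let s : (κ ⊕ (κ ⊕ Unit)) × Fin (r + 1) → MvPolynomial (κ × Fin (r + 1)) ℂ := fun x =>
    Sum.elim (fun a => C (p₀ (Sum.inl a) x.2))
      (Sum.elim (fun a => X (a, x.2)) fun _ : Unit => C (p₀ (Sum.inr (Sum.inr ())) x.2)) x.1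
  have hs : ∀ y : κ → Fin (r + 1) → ℂ, eval (fun x => y x.1 x.2) (aeval s G) =
      eval (fun x : (κ ⊕ (κ ⊕ Unit)) × Fin (r + 1) =>
        (Sum.elim (fun a => p₀ (Sum.inl a))
          (Sum.elim y fun _ : Unit => p₀ (Sum.inr (Sum.inr ())))) x.1 x.2) G := by
    intro y
    have h1 : eval (fun x => y x.1 x.2) (aeval s G) =
        ((aeval (fun x => y x.1 x.2) : MvPolynomial (κ × Fin (r + 1)) ℂ →ₐ[ℂ] ℂ).comp
          (aeval s)) G := by
      rw [AlgHom.comp_apply, aeval_eq_eval]
    rw [h1, comp_aeval, aeval_eq_eval]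
    congr 1
    congr 1
    funext x
    obtain ⟨x, j⟩ := x
    rcases x with a | a | a <;> simp [s]
  refine ⟨aeval s G, ?_, ?_⟩
  · intro h
    have h1 := hs fun a => p₀ (Sum.inr (Sum.inl a))
    rw [h, map_zero] at h1
    apply h0
    rw [h1]
    congr 1
    congr 1
    funext x
    obtain ⟨x, j⟩ := x
    rcases x with a | a | a <;> rfl
  · intro y hy
    rw [hs] at hy
    exact hP y hy

end SwapX

open SwapX

theorem swap_step (r d : ℕ) {κ : Type} [Fintype κ] [DecidableEq κ] (m : κ → ℕ) (t M : ℕ)
    (hm : ∀ a, m a ≤ M)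
    (hc : gdim r d m +
        gdim r d (Sum.elim (Sum.elim m fun _ : Unit => M) fun _ : Unit => t) =
      gdim r d (Sum.elim m fun _ : Unit => t) + gdim r d (Sum.elim m fun _ : Unit => M)) :
    gdim r d m = 0 ∨ gdim r d m + gdim r d (fun _ : Unit => t) =
      gdim r d (Sum.elim m fun _ : Unit => t) + (d + r).choose r := by
  -- the point `ℓ`
  let ℓ : κ ⊕ (κ ⊕ Unit) := Sum.inr (Sum.inr ())
  let yy : κ → κ ⊕ (κ ⊕ Unit) := fun a => Sum.inr (Sum.inl a)
  -- the general conditions
  have c1 : ∀ T ∈ (univ : Finset (Finset κ)), Gen r (κ ⊕ (κ ⊕ Unit)) fun p =>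
      Module.finrank ℂ (fatForms r d (fun a => p (zt T a)) m) = gdim r d m := fun T _ =>
    Gen.comap (zt T) (zt_inj T) (gen_gdim r d m)
  have c2 : Gen r (κ ⊕ (κ ⊕ Unit)) fun p =>
      Module.finrank ℂ (fatForms r d (fun _ : Unit => p ℓ) fun _ : Unit => t) =
        gdim r d fun _ : Unit => t :=
    Gen.comap (fun _ : Unit => ℓ) (fun _ _ _ => rfl) (gen_gdim r d fun _ : Unit => t)
  have c3 : ∀ T ∈ (univ : Finset (Finset κ)), Gen r (κ ⊕ (κ ⊕ Unit)) fun p =>
      Module.finrank ℂ (fatForms r d (Sum.elim (fun a => p (zt T a)) fun _ : Unit => p ℓ)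
        (Sum.elim m fun _ : Unit => t)) = gdim r d (Sum.elim m fun _ : Unit => t) := by
    intro T _
    have h := Gen.comap (Sum.elim (zt T) fun _ : Unit => ℓ)
      (elim_inj _ _ (zt_inj T) (zt_ne_ell T)) (gen_gdim r d (Sum.elim m fun _ : Unit => t))
    refine h.mono fun p hp => ?_
    rwa [comp_elim] at hp
  have c4 : ∀ T ∈ (univ : Finset (Finset κ)), Gen r (κ ⊕ (κ ⊕ Unit)) fun p =>
      ∀ a ∈ (univ : Finset κ), a ∉ T → Module.finrank ℂ (fatForms r d
        (Sum.elim (fun a => p (zt T a)) fun _ : Unit => p (yy a))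
        (Sum.elim m fun _ : Unit => M)) = gdim r d (Sum.elim m fun _ : Unit => M) := by
    intro T _
    refine Gen.all _ fun a _ => ?_
    by_cases ha : a ∈ T
    · refine (c2).mono fun p _ h => absurd ha h
    · have h := Gen.comap (Sum.elim (zt T) fun _ : Unit => yy a)
        (elim_inj _ _ (zt_inj T) fun b => zt_ne_y T b a ha)
        (gen_gdim r d (Sum.elim m fun _ : Unit => M))
      refine h.mono fun p hp _ => ?_
      rwa [comp_elim] at hp
  have c5 : ∀ T ∈ (univ : Finset (Finset κ)), Gen r (κ ⊕ (κ ⊕ Unit)) fun p =>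
      ∀ a ∈ (univ : Finset κ), a ∉ T → Module.finrank ℂ (fatForms r d
        (Sum.elim (Sum.elim (fun a => p (zt T a)) fun _ : Unit => p (yy a)) fun _ : Unit => p ℓ)
        (Sum.elim (Sum.elim m fun _ : Unit => M) fun _ : Unit => t)) =
          gdim r d (Sum.elim (Sum.elim m fun _ : Unit => M) fun _ : Unit => t) := by
    intro T _
    refine Gen.all _ fun a _ => ?_
    by_cases ha : a ∈ T
    · refine (c2).mono fun p _ h => absurd ha h
    · have h := Gen.comap (Sum.elim (Sum.elim (zt T) fun _ : Unit => yy a) fun _ : Unit => ℓ)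
        (elim_inj _ _ (elim_inj _ _ (zt_inj T) fun b => zt_ne_y T b a ha) (by
          rintro (b | b)
          · exact zt_ne_ell T b
          · intro h
            exact absurd (Sum.inr_injective h) Sum.inl_ne_inr))
        (gen_gdim r d (Sum.elim (Sum.elim m fun _ : Unit => M) fun _ : Unit => t))
      refine h.mono fun p hp _ => ?_
      rwa [comp_elim, comp_elim] at hp
  have hall := ((Gen.all _ c1).and c2).and (((Gen.all _ c3).and (Gen.all _ c4)).and
    (Gen.all _ c5))
  -- the key inclusion for general points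
  have hkey : Gen r (κ ⊕ (κ ⊕ Unit)) fun p =>
      Module.finrank ℂ (fatForms r d (fun a => p (Sum.inl a)) m ⊔
        fatForms r d (fun _ : Unit => p ℓ) fun _ : Unit => t : Submodule ℂ _) +
          gdim r d (Sum.elim m fun _ : Unit => t) = gdim r d m + gdim r d (fun _ : Unit => t) ∧
      fatForms r d (fun a => p (yy a)) m ≤ fatForms r d (fun a => p (Sum.inl a)) m ⊔
        fatForms r d (fun _ : Unit => p ℓ) fun _ : Unit => t := by
    refine hall.mono ?_
    rintro p ⟨⟨h1, h2⟩, ⟨h3, h4⟩, h5⟩
    let XT : Finset κ → Submodule ℂ (MvPolynomial (Fin (r + 1)) ℂ) := fun T =>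
      fatForms r d (fun a => p (zt T a)) m ⊔ fatForms r d (fun _ : Unit => p ℓ) fun _ : Unit => t
    have hX : ∀ T, Module.finrank ℂ (XT T) + gdim r d (Sum.elim m fun _ : Unit => t) =
        gdim r d m + gdim r d (fun _ : Unit => t) := by
      intro T
      have h := finrank_sup (d := d) (fun a => p (zt T a)) (fun _ : Unit => p ℓ) m
        (fun _ : Unit => t)
      rw [h1 T (mem_univ _), h2, h3 T (mem_univ _)] at h
      exact h
    have hfin : ∀ T, FiniteDimensional ℂ (XT T) := by
      intro T
      have h1 := fin_fat (d := d) (fun a => p (zt T a)) m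
      have h2 := fin_fat (d := d) (fun _ : Unit => p ℓ) fun _ : Unit => t
      exact inferInstanceAs (FiniteDimensional ℂ
        (fatForms r d (fun a => p (zt T a)) m ⊔ fatForms r d (fun _ : Unit => p ℓ)
          fun _ : Unit => t : Submodule ℂ _))
    have hstep : ∀ (T : Finset κ) (a : κ), a ∉ T → XT T = XT (insert a T) := by
      intro T a ha
      let W : Submodule ℂ (MvPolynomial (Fin (r + 1)) ℂ) :=
        fatForms r d (Sum.elim (fun a => p (zt T a)) fun _ : Unit => p (yy a))
          (Sum.elim m fun _ : Unit => M) ⊔ fatForms r d (fun _ : Unit => p ℓ) fun _ : Unit => t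
      have hW : Module.finrank ℂ W +
          gdim r d (Sum.elim (Sum.elim m fun _ : Unit => M) fun _ : Unit => t) =
          gdim r d (Sum.elim m fun _ : Unit => M) + gdim r d (fun _ : Unit => t) := by
        have h := finrank_sup (d := d) (Sum.elim (fun a => p (zt T a)) fun _ : Unit => p (yy a))
          (fun _ : Unit => p ℓ) (Sum.elim m fun _ : Unit => M) (fun _ : Unit => t)
        rw [h4 T (mem_univ _) a (mem_univ _) ha, h2, h5 T (mem_univ _) a (mem_univ _) ha] at h
        exact h
      have hW1 : W ≤ XT T := by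
        refine sup_le_sup_right ?_ _
        rw [fat_elim]
        exact inf_le_left
      have hW2 : W ≤ XT (insert a T) := by
        refine sup_le_sup_right ?_ _
        intro F hF
        refine ⟨hF.1, fun b => ?_⟩
        by_cases hb : b = a
        · subst hb
          have h6 := hF.2 (Sum.inr ())
          have h7 : zt (insert b T) b = yy b := by
            unfold zt
            rw [if_pos (mem_insert_self b T)]
          change VanishesToOrder F (p (zt (insert b T) b)) (m b)
          rw [h7]
          intro β hβ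
          exact h6 β (lt_of_lt_of_le hβ (hm b))
        · have h6 := hF.2 (Sum.inl b)
          have h7 : zt (insert a T) b = zt T b := by
            unfold zt
            by_cases hbT : b ∈ T
            · rw [if_pos hbT, if_pos (mem_insert_of_mem hbT)]
            · rw [if_neg hbT, if_neg]
              intro h
              rcases mem_insert.1 h with h | h
              · exact hb h
              · exact hbT h
          change VanishesToOrder F (p (zt (insert a T) b)) (m b)
          rw [h7]
          exact h6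
      have e1 : W = XT T := by
        have := hfin T
        refine Submodule.eq_of_le_of_finrank_eq hW1 ?_
        have := hX T
        omega
      have e2 : W = XT (insert a T) := by
        have := hfin (insert a T)
        refine Submodule.eq_of_le_of_finrank_eq hW2 ?_
        have := hX (insert a T)
        omega
      rw [← e1, e2]
    have hind : ∀ T : Finset κ, XT T = XT ∅ := by
      intro T
      induction T using Finset.induction_on with
      | empty => rfl
      | insert a T ha ih => rw [← hstep T a ha, ih]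
    have z0 : (fun a => p (zt (∅ : Finset κ) a)) = fun a => p (Sum.inl a) := by
      funext a
      unfold zt
      rw [if_neg (Finset.notMem_empty a)]
    have z1 : (fun a => p (zt (univ : Finset κ) a)) = fun a => p (yy a) := by
      funext a
      unfold zt
      rw [if_pos (mem_univ a)]
    constructor
    · have e : XT ∅ = fatForms r d (fun a => p (Sum.inl a)) m ⊔
          fatForms r d (fun _ : Unit => p ℓ) fun _ : Unit => t := by
        simp only [XT]
        rw [z0]
      have h := hX ∅
      rw [e] at h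
      exact h
    · have h := hind univ
      simp only [XT] at h
      rw [z0, z1] at h
      rw [← h]
      exact le_sup_left
  obtain ⟨G, hG0, hG⟩ := hkey
  obtain ⟨v, hv⟩ : ∃ v, eval v G ≠ 0 := by
    by_contra hcon
    push Not at hcon
    exact hG0 (MvPolynomial.funext fun v => by rw [hcon v, map_zero])
  let p₀ : κ ⊕ (κ ⊕ Unit) → Fin (r + 1) → ℂ := fun i j => v (i, j)
  have hp₀ : eval (fun x => p₀ x.1 x.2) G ≠ 0 := hv
  let X : Submodule ℂ (MvPolynomial (Fin (r + 1)) ℂ) :=
    fatForms r d (fun a => p₀ (Sum.inl a)) m ⊔ fatForms r d (fun _ : Unit => p₀ ℓ) fun _ : Unit => t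
  by_cases hX : homogeneousSubmodule (Fin (r + 1)) ℂ d ≤ X
  · right
    have h1 := (hG p₀ hp₀).1
    have h2 : X = homogeneousSubmodule (Fin (r + 1)) ℂ d := by
      refine le_antisymm (sup_le ?_ ?_) hX
      · intro F hF
        exact hF.1
      · intro F hF
        exact hF.1
    have h3 : Module.finrank ℂ X = (d + r).choose r := by
      rw [h2, Pool.Agent.H21.HD.BridgeDX.finrank_homog']
    change Module.finrank ℂ X + _ = _ at h1
    rw [h3] at h1
    omega
  · left
    refine gl_lemma r d m X hX ?_
    refine gen_fix G p₀ hp₀ _ fun y hy => ?_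
    exact (hG (Sum.elim (fun a => p₀ (Sum.inl a))
      (Sum.elim y fun _ : Unit => p₀ (Sum.inr (Sum.inr ())))) hy).2

end Pool.Agent.H21.NX

end

section

/-!
# Module Chain: the decoupling theorem

Proof.  Let `A_j = (m, M, …, M)` (`j` copies), `g_j = gdim A_j`, `c_j = g_j - gdim (A_j, t)`.  All
`g_j`, `j ≤ ell r t - 1`, are nonzero (`gdim_elim_le`, `hne`).  Suppose `c_0 ≠ ell r t`; then
`c_0 ≤ ell r t - 1` (`le_gdim_elim`), so `1 ≤ t`.  By `gdim_submod` `c_{j+1} ≤ c_j`; if
`c_{j+1} = c_j` then `swap_step` gives `c_j = N - gdim t = ell r t` (`gdim_single`), but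
`c_j ≤ c_0 < ell r t`.  So `c_{j+1} ≤ c_j - 1` for `j < ell r t - 1` and `c_{ell r t - 1} = 0`,
that is, `gdim (A_j, t) = gdim A_j` for `j = ell r t - 1`; by `gdim_simple` `g_j = 0`,
a contradiction.  (Use `gdim_comp_equiv` to compare `Sum.elim (Sum.elim m (fun _ : Fin j => M))
(fun _ : Unit => M)` and `Sum.elim m (fun _ : Fin (j + 1) => M)`.)
-/

namespace Pool.Agent.H21.NX

open Finset MvPolynomial Pool.Agent.H18.Fat Pool.Agent.H18.Ex

namespace ChainX

variable (r d : ℕ) {κ : Type} [Fintype κ] [DecidableEq κ] (m : κ → ℕ) (t M : ℕ)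

/-- An equivalence of index types. -/
noncomputable def eqv (κ : Type) (j : ℕ) : (κ ⊕ Fin j) ⊕ Unit ≃ κ ⊕ Fin (j + 1) :=
  (Equiv.sumAssoc κ (Fin j) Unit).trans
    (Equiv.sumCongr (Equiv.refl κ) (Fintype.equivOfCardEq (by simp)))

theorem g_succ (j : ℕ) :
    gdim r d (Sum.elim (Sum.elim m fun _ : Fin j => M) fun _ : Unit => M) =
      gdim r d (Sum.elim m fun _ : Fin (j + 1) => M) := by
  rw [← gdim_comp_equiv r d (eqv κ j)]
  congr 1
  funext i
  rcases i with (i | i) | i <;> rfl

theorem G_succ (j : ℕ) :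
    gdim r d (Sum.elim (Sum.elim (Sum.elim m fun _ : Fin j => M) fun _ : Unit => M)
        fun _ : Unit => t) =
      gdim r d (Sum.elim (Sum.elim m fun _ : Fin (j + 1) => M) fun _ : Unit => t) := by
  rw [← gdim_comp_equiv r d (Equiv.sumCongr (eqv κ j) (Equiv.refl Unit))]
  congr 1
  funext i
  rcases i with ((i | i) | i) | i <;> rfl

theorem g_zero : gdim r d (Sum.elim m fun _ : Fin 0 => M) = gdim r d m := by
  rw [← gdim_comp_equiv r d (Equiv.sumEmpty κ (Fin 0))]
  congr 1
  funext i
  rcases i with i | i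
  · rfl
  · exact i.elim0

theorem G_zero : gdim r d (Sum.elim (Sum.elim m fun _ : Fin 0 => M) fun _ : Unit => t) =
    gdim r d (Sum.elim m fun _ : Unit => t) := by
  rw [← gdim_comp_equiv r d (Equiv.sumCongr (Equiv.sumEmpty κ (Fin 0)) (Equiv.refl Unit))]
  congr 1
  funext i
  rcases i with (i | i) | i
  · rfl
  · exact i.elim0
  · rfl

end ChainX

open ChainX in
theorem decouple (r d : ℕ) (hr : 1 ≤ r) {κ : Type} [Fintype κ] [DecidableEq κ] (m : κ → ℕ)
    (t M : ℕ) (hm : ∀ a, m a ≤ M) (ht : t ≤ M) (htd : t ≤ d + 1)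
    (hne : gdim r d (Sum.elim m fun _ : Fin (ell r t - 1) => M) ≠ 0) :
    gdim r d m = gdim r d (Sum.elim m fun _ : Unit => t) + ell r t := by
  have _ := ht
  set g : ℕ → ℕ := fun j => gdim r d (Sum.elim m fun _ : Fin j => M) with hg
  set G : ℕ → ℕ := fun j =>
    gdim r d (Sum.elim (Sum.elim m fun _ : Fin j => M) fun _ : Unit => t) with hG
  have h1 : ∀ j, G j ≤ g j := fun j => gdim_elim_le r d _ _
  have h2 : ∀ j, g j ≤ G j + ell r t := fun j => by
    have := le_gdim_elim r d hr (Sum.elim m fun _ : Fin j => M) (fun _ : Unit => t)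
    simpa using this
  have h3 : ∀ j, g (j + 1) ≤ g j := fun j => by
    have := gdim_elim_le r d (Sum.elim m fun _ : Fin j => M) (fun _ : Unit => M)
    rw [g_succ] at this
    exact this
  have h3' : ∀ j k, j ≤ k → g k ≤ g j := fun j k hjk => by
    induction k, hjk using Nat.le_induction with
    | base => exact le_rfl
    | succ k _ ih => exact (h3 k).trans ih
  have h4 : ∀ j, G j + g (j + 1) ≤ g j + G (j + 1) := fun j => by
    have := gdim_submod r d (Sum.elim m fun _ : Fin j => M) (fun _ : Unit => M)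
      (fun _ : Unit => t)
    rw [g_succ, G_succ] at this
    change g (j + 1) + G j ≤ g j + G (j + 1) at this
    omega
  have h5 : ∀ j, g j ≠ 0 → G j + g (j + 1) = g j + G (j + 1) → g j = G j + ell r t := by
    intro j hj he
    have hmj : ∀ a, (Sum.elim m fun _ : Fin j => M) a ≤ M := by
      rintro (a | a)
      · exact hm a
      · exact le_rfl
    have := swap_step r d (Sum.elim m fun _ : Fin j => M) t M hmj (by
      rw [g_succ, G_succ]
      change g j + G (j + 1) = G j + g (j + 1)
      exact he.symm)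
    have h6 := gdim_single r d hr t htd
    rcases this with h | h
    · exact absurd h hj
    · change g j + _ = G j + _ at h
      omega
  have hg0 : g 0 = gdim r d m := g_zero r d m M
  have hG0 : G 0 = gdim r d (Sum.elim m fun _ : Unit => t) := G_zero r d m t M
  rw [← hg0, ← hG0]
  by_contra hcon
  have a1 := h1 0
  have a2 := h2 0
  have hpos : 1 ≤ ell r t := by omega
  have ht1 : 1 ≤ t := by
    by_contra h
    have h0 : t = 0 := by omega
    rw [h0, ell_zero hr] at hpos
    omega
  have key : ∀ j, j ≤ ell r t - 1 → g j - G j + j ≤ ell r t - 1 := by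
    intro j
    induction j with
    | zero => intro _; omega
    | succ j ih =>
      intro hj
      have i1 := ih (by omega)
      have i2 := h4 j
      have i3 := h1 j
      have i4 := h1 (j + 1)
      have i5 : g j ≠ 0 := by
        intro h0
        have := h3' j (ell r t - 1) (by omega)
        change gdim r d _ ≤ _ at this
        omega
      have i6 : G j + g (j + 1) ≠ g j + G (j + 1) := fun he => by
        have := h5 j i5 he
        omega
      omega
  have k1 := key _ le_rfl
  have k2 := h1 (ell r t - 1)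
  have k3 : G (ell r t - 1) = g (ell r t - 1) := by omega
  exact hne (gdim_simple r d _ t ht1 k3)

end Pool.Agent.H21.NX

end

section

/-!
# Module Window: the uniform window theorem

Proof.  `gdimL l = gdim (fun i : Fin l.length => l.get i)`.  Induction on a list sorted
increasingly (`t :: l`, all elements of `l` are `≥ t`): the conditions for `l` follow from those
for `t :: l`.  Let `N = binom(d + r, r)` and `g = gdimL l = N - tot l`.  If `t = 0` nothing changes
(`ell_zero`; `gdim_elim_le` and `le_gdim_elim`).  If `t ≥ 2`: by `hc` for `t`,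
`ell r t + tot l + (ell r t - 1) * (ell r M - 1) ≤ N`, so
`N - tot l - (ell r t - 1) * ell r M ≥ 1` and `gdim (l, M, …, M) ≠ 0` with `ell r t - 1` copies of
`M` (`le_gdim_elim`); `decouple` gives `gdimL (t :: l) = g - ell r t`; `t ≤ d + 1` because
`ell r t ≤ N`.  If `t = 1`: `decouple` if `g ≠ 0` (`ell r 1 - 1 = 0` copies), and if `g = 0`
then `gdim_elim_le`.
-/

namespace Pool.Agent.H21.NX

open Finset MvPolynomial Pool.Agent.H18.Fat Pool.Agent.H18.Ex

namespace WindowX

theorem ell_lt_succ (r c : ℕ) (hr : 1 ≤ r) (hc : 1 ≤ c) : ell r c < ell r (c + 1) := by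
  obtain ⟨n, rfl⟩ : ∃ n, r = n + 1 := ⟨r - 1, by omega⟩
  rw [ell_succ]
  have : 1 ≤ ell n (c + 1) := ell_pos n (by omega)
  omega

theorem choose_eq_ell (r d : ℕ) : (d + r).choose r = ell r (d + 1) := by
  unfold ell
  rw [show d + 1 + r - 1 = d + r by omega]

theorem le_of_ell_le (r d t : ℕ) (hr : 1 ≤ r) (h : ell r t ≤ (d + r).choose r) : t ≤ d + 1 := by
  by_contra hlt
  have h1 : ell r (d + 1) < ell r (d + 1 + 1) := ell_lt_succ r (d + 1) hr (by omega)
  have h2 : ell r (d + 1 + 1) ≤ ell r t := ell_mono r (by omega)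
  rw [choose_eq_ell] at h
  omega

theorem sum_unit_ell (r t : ℕ) : ∑ _j : Unit, ell r t = ell r t := by
  simp

/-- The list `t :: l` as the family `(l, t)`. -/
theorem gdim_cons (r d t : ℕ) (l : List ℕ) :
    gdim r d (fun i : Fin (t :: l).length => (t :: l).get i) =
      gdim r d (Sum.elim (fun i : Fin l.length => l.get i) fun _ : Unit => t) := by
  rw [← gdim_comp_equiv r d ((finSuccEquiv l.length).trans (Equiv.optionEquivSumPUnit.{0, 0} _))
    (Sum.elim (fun i : Fin l.length => l.get i) fun _ : Unit => t)]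
  congr 1
  funext i
  refine Fin.cases ?_ (fun j => ?_) i
  · simp
  · simp

end WindowX

open WindowX

theorem window_list (r d : ℕ) (hr : 1 ≤ r) (M : ℕ) (l : List ℕ) (hs : l.Pairwise (· ≤ ·))
    (hM : ∀ x ∈ l, x ≤ M)
    (hc : ∀ x ∈ l, 2 ≤ x → ((l.filter (x ≤ ·)).map (ell r)).sum +
      (ell r x - 1) * (ell r M - 1) ≤ (d + r).choose r) :
    gdim r d (fun i : Fin l.length => l.get i) = (d + r).choose r - (l.map (ell r)).sum := by
  induction l with
  | nil =>
    rw [List.map_nil, List.sum_nil, Nat.sub_zero]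
    exact gdim_empty r d _
  | cons t l ih =>
    rw [List.pairwise_cons] at hs
    have hM' : ∀ x ∈ l, x ≤ M := fun x hx => hM x (List.mem_cons_of_mem _ hx)
    have htM : t ≤ M := hM t List.mem_cons_self
    have ih' := ih hs.2 hM' (by
      intro x hx h2
      have h3 := hc x (List.mem_cons_of_mem _ hx) h2
      refine le_trans (Nat.add_le_add_right ?_ _) h3
      rw [List.filter_cons]
      split_ifs
      · rw [List.map_cons, List.sum_cons]
        exact Nat.le_add_left _ _
      · exact le_rfl)
    rw [gdim_cons, List.map_cons, List.sum_cons]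
    have hle : gdim r d (Sum.elim (fun i : Fin l.length => l.get i) fun _ : Unit => t) ≤
      gdim r d (fun i : Fin l.length => l.get i) := gdim_elim_le r d _ _
    have hge : gdim r d (fun i : Fin l.length => l.get i) ≤
        gdim r d (Sum.elim (fun i : Fin l.length => l.get i) fun _ : Unit => t) +
          ∑ _j : Unit, ell r t := le_gdim_elim r d hr _ _
    rw [sum_unit_ell] at hge
    -- the main case
    have hmain : 1 ≤ t → t ≤ d + 1 →
        (l.map (ell r)).sum + (ell r t - 1) * ell r M < (d + r).choose r →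
        gdim r d (Sum.elim (fun i : Fin l.length => l.get i) fun _ : Unit => t) =
          (d + r).choose r - (ell r t + (l.map (ell r)).sum) := by
      intro _ htd hlt
      have h5 : gdim r d (fun i : Fin l.length => l.get i) ≤
          gdim r d (Sum.elim (fun i : Fin l.length => l.get i)
            fun _ : Fin (ell r t - 1) => M) + ∑ _j : Fin (ell r t - 1), ell r M :=
        le_gdim_elim r d hr _ _
      rw [Finset.sum_const, Finset.card_univ, Fintype.card_fin, smul_eq_mul] at h5
      have h6 := decouple r d hr (fun i : Fin l.length => l.get i) t M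
        (fun a => hM' _ (List.get_mem l a)) htM htd (by omega)
      omega
    rcases Nat.lt_or_ge t 2 with ht | ht
    · rcases Nat.eq_zero_or_pos t with h0 | h0
      · subst h0
        rw [ell_zero hr] at hge ⊢
        omega
      · have h1 : t = 1 := by omega
        subst h1
        rcases Nat.eq_zero_or_pos (gdim r d (fun i : Fin l.length => l.get i)) with hg | hg
        · omega
        · refine hmain le_rfl (by omega) ?_
          rw [ell_one]
          omega
    · have h3 := hc t List.mem_cons_self ht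
      rw [List.filter_eq_self.2 (by
        intro a ha
        rw [List.mem_cons] at ha
        rcases ha with rfl | ha
        · simp
        · simpa using hs.1 a ha), List.map_cons, List.sum_cons] at h3
      have h4 : 1 ≤ ell r t := ell_pos r (by omega)
      have h5 : 1 ≤ ell r M := ell_pos r (by omega)
      refine hmain (by omega) (le_of_ell_le r d t hr (by omega)) ?_
      obtain ⟨a, ha⟩ : ∃ a, ell r t = a + 1 := ⟨ell r t - 1, by omega⟩
      obtain ⟨b, hb⟩ : ∃ b, ell r M = b + 1 := ⟨ell r M - 1, by omega⟩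
      rw [ha, hb, Nat.add_sub_cancel, Nat.add_sub_cancel] at h3
      rw [ha, hb, Nat.add_sub_cancel, Nat.mul_add, Nat.mul_one]
      omega

theorem window_multiset (r d : ℕ) (hr : 1 ≤ r) (M : ℕ) {κ : Type} [Fintype κ] (m : κ → ℕ)
    (T : Multiset ℕ) (hT : (univ : Finset κ).val.map m = T) (hM : ∀ x ∈ T, x ≤ M)
    (hc : ∀ x ∈ T, 2 ≤ x → tot r (T.filter (x ≤ ·)) +
      (ell r x - 1) * (ell r M - 1) ≤ (d + r).choose r) :
    gdim r d m = (d + r).choose r - tot r T := by
  classical
  set l : List ℕ := T.sort (· ≤ ·) with hl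
  have hlT : (l : Multiset ℕ) = T := Multiset.sort_eq _ _
  have hcard : ∀ c, Fintype.card {a : κ // m a = c} =
      Fintype.card {i : Fin l.length // l.get i = c} := by
    intro c
    have e1 : Fintype.card {a : κ // m a = c} = T.count c := by
      rw [← hT, Multiset.count_map, Fintype.card_subtype]
      unfold Finset.card
      rw [Finset.filter_val]
      congr 1
      refine Multiset.filter_congr fun a _ => ?_
      exact eq_comm
    have e2 : Fintype.card {i : Fin l.length // l.get i = c} = T.count c := by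
      have e3 : ((univ : Finset (Fin l.length)).val.map l.get) = T := by
        rw [← hlT, Fin.univ_val_map, List.ofFn_get]
      rw [← e3, Multiset.count_map, Fintype.card_subtype]
      unfold Finset.card
      rw [Finset.filter_val]
      congr 1
      refine Multiset.filter_congr fun a _ => ?_
      exact eq_comm
    rw [e1, e2]
  let e : κ ≃ Fin l.length := Equiv.ofFiberEquiv (f := m) (g := l.get)
    fun c => Fintype.equivOfCardEq (hcard c)
  have he : (fun a => l.get (e a)) = m := funext fun a => Equiv.ofFiberEquiv_map _ a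
  have hmem : ∀ x, x ∈ l ↔ x ∈ T := fun x => by rw [← hlT, Multiset.mem_coe]
  have h1 := window_list r d hr M l (Multiset.pairwise_sort T (· ≤ ·))
    (fun x hx => hM x ((hmem x).1 hx))
    (by
      intro x hx h2
      refine le_trans (le_of_eq ?_) (hc x ((hmem x).1 hx) h2)
      congr 1
      unfold tot
      rw [← hlT, Multiset.filter_coe, Multiset.map_coe, Multiset.sum_coe])
  have h2 : gdim r d m = gdim r d (fun i : Fin l.length => l.get i) := by
    rw [← gdim_comp_equiv r d e (fun i : Fin l.length => l.get i), he]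
  rw [h2, h1]
  unfold tot
  rw [← hlT, Multiset.map_coe, Multiset.sum_coe]

theorem window_fin (r d : ℕ) (hr : 1 ≤ r) (M : ℕ) {k : ℕ} (m : Fin k → ℕ) (hM : ∀ i, m i ≤ M)
    (hc : ∀ i, 2 ≤ m i → ∑ j ∈ univ.filter (fun j => m i ≤ m j), ell r (m j) +
      (ell r (m i) - 1) * (ell r M - 1) ≤ (d + r).choose r) :
    ForGeneralPoints r k fun p => ImposesMaximalConditions r d p m := by
  have hw := window_multiset r d hr M m _ rfl
    (by
      intro x hx
      rw [Multiset.mem_map] at hx
      obtain ⟨i, _, rfl⟩ := hx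
      exact hM i)
    (by
      intro x hx h2
      rw [Multiset.mem_map] at hx
      obtain ⟨i, _, rfl⟩ := hx
      refine le_trans (le_of_eq ?_) (hc i h2)
      congr 1
      unfold tot
      rw [Multiset.filter_map, Multiset.map_map]
      rfl)
  have hg : Gen r (Fin k) fun p => ImposesMaximalConditions r d p m := by
    refine (gen_gdim r d m).mono fun p hp => ?_
    unfold ImposesMaximalConditions
    rw [hp, hw]
    have e1 : ∑ i, (((m i + r - 1).choose r : ℕ) : ℤ) =
        ((tot r ((univ : Finset (Fin k)).val.map m) : ℕ) : ℤ) := by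
      have e2 : tot r ((univ : Finset (Fin k)).val.map m) = ∑ i, (m i + r - 1).choose r := by
        unfold tot
        rw [Multiset.map_map]
        rfl
      rw [e2, Nat.cast_sum]
    rw [e1]
    omega
  exact hg

end Pool.Agent.H21.NX

end

section

/-!
# Module Trace: exactness from the window theorem, in the language `GM`
-/

namespace Pool.Agent.H21.NX

open Finset MvPolynomial Pool.Agent.H18.Fat Pool.Agent.H18.Ex

private theorem trace_GI (s d : ℕ) (hs : 1 ≤ s) (T : Multiset ℕ) (M : ℕ) (hM : ∀ t ∈ T, t ≤ M)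
    (hc : ∀ t ∈ T, 2 ≤ t → tot s (T.filter (t ≤ ·)) + (ell s t - 1) * (ell s M - 1) ≤
      ell s (d + 1)) (ht : ell s (d + 1) ≤ tot s T) {k : ℕ} (m : Fin k → ℕ)
    (hm : (univ : Finset (Fin k)).val.map m = T) :
    GI (Sx (Fin (s + 1)) d) fun i => Kind.free (m i) := by
  have he : ell s (d + 1) = (d + s).choose s := by
    unfold ell
    rw [show d + 1 + s - 1 = d + s by omega]
  rw [he] at ht
  simp only [he] at hc
  have h1 := window_multiset s d hs M m T hm hM hc
  rw [Nat.sub_eq_zero_of_le ht] at h1
  have h2 : gdim s d m ∈ Set.range fun p : Fin k → Fin (s + 1) → ℂ =>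
      Module.finrank ℂ (fatForms s d p m) := Nat.sInf_mem (Set.range_nonempty _)
  obtain ⟨p, hp⟩ := h2
  exact GI_of_fat p m (Eq.trans hp h1)

/-- `multi_exists_fin` (H18/Ex/Multi), `window_multiset`, `Gen.exists` for `gen_gdim`, `GI_of_fat`,
`GM_iff`. -/
theorem window_GM (s d : ℕ) (hs : 1 ≤ s) (T : Multiset ℕ) (M : ℕ) (hM : ∀ t ∈ T, t ≤ M)
    (hc : ∀ t ∈ T, 2 ≤ t → tot s (T.filter (t ≤ ·)) + (ell s t - 1) * (ell s M - 1) ≤
      ell s (d + 1)) (ht : ell s (d + 1) ≤ tot s T) :
    GM (Sx (Fin (s + 1)) d) (T.map Kind.free) := by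
  obtain ⟨k, m, hm⟩ := multi_exists_fin T
  have h := trace_GI s d hs T M hM hc ht m hm
  rw [← hm, Multiset.map_map]
  exact (GM_iff _ _).2 h

/-- The same on the hyperplane `x_l = 0` (`GI_layer`). -/
theorem trace_GM (s d : ℕ) (hs : 1 ≤ s) (l : Fin (s + 2)) (T : Multiset ℕ) (M : ℕ)
    (hM : ∀ t ∈ T, t ≤ M)
    (hc : ∀ t ∈ T, 2 ≤ t → tot s (T.filter (t ≤ ·)) + (ell s t - 1) * (ell s M - 1) ≤
      ell s (d + 1)) (ht : ell s (d + 1) ≤ tot s T) :
    GM ((Sx (Fin (s + 2)) d).filter fun a => a l = 0) (T.map Kind.free) := by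
  obtain ⟨k, m, hm⟩ := multi_exists_fin T
  have h := GI_layer l m (trace_GI s d hs T M hM hc ht m hm)
  rw [← hm, Multiset.map_map]
  exact (GM_iff _ _).2 h

end Pool.Agent.H21.NX

end

section

/-!
# Module Stage: one Horace step along `x_l = 0`

Proof of `stage`: `GM.step` (H18/Ex/Multi) with the multiset of roles
`Φ.map (here c e) + N0.map ord + replicate α (ord μ) + replicate ρ dif +
replicate f (stay (free μ))`, `A = Sx σ`, `A' = Sx (σ - 1)` (`Sx_resid`).  Its `before` is the
given multiset of conditions; its layers are `trc Φ N0 μ α ρ` and `f` zeros (`trace_GM`, applied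
to `trc Φ N0 μ α ρ`, and `GM.mono`); its `after` contains `fk l (nxt Φ N0 μ α ρ)` and
`replicate f (free μ)` (`GM.mono`; the filter in `nxt` only removes conditions).
-/

namespace Pool.Agent.H21.NX

open Finset Pool.Agent.H18.Ex

namespace StageX

end StageX

theorem stage (s : ℕ) (hs : 1 ≤ s) (l : Fin (s + 2)) (σ : ℕ) (hσ : 1 ≤ σ)
    (Φ : Multiset (ℕ × ℕ)) (N0 : Multiset ℕ) (μ α ρ f M : ℕ) (hμ : 1 ≤ μ)
    (hΦ : ∀ x ∈ Φ, x.2 ≤ x.1) (hM : ∀ t ∈ trc Φ N0 μ α ρ, t ≤ M)
    (hc : ∀ t ∈ trc Φ N0 μ α ρ, 2 ≤ t → tot s ((trc Φ N0 μ α ρ).filter (t ≤ ·)) +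
      (ell s t - 1) * (ell s M - 1) ≤ ell s (σ + 1))
    (ht : ell s (σ + 1) ≤ tl s Φ + tot s N0 + α * ell s μ + ρ)
    (h1 : GM (Sx (Fin (s + 2)) (σ - 1)) (fk l (nxt Φ N0 μ α ρ) +
      Multiset.replicate f (Kind.free μ))) :
    GM (Sx (Fin (s + 2)) σ) (fk l Φ + N0.map Kind.free +
      Multiset.replicate (α + ρ + f) (Kind.free μ)) := by
  rw [← StageX.roles_before l Φ N0 μ α ρ f]
  refine GM.step (Sx (Fin (s + 2)) σ) (Sx (Fin (s + 2)) (σ - 1)) l (Sx_resid σ hσ l) μ hμ _
    ?_ ?_ ?_
  · intro k hk
    have hk' : k = Kind.free μ := by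
      unfold StageX.roles at hk
      simp only [Multiset.mem_add, Multiset.mem_map, Multiset.mem_replicate] at hk
      rcases hk with (((⟨x, _, hx⟩ | ⟨x, _, hx⟩) | ⟨_, hx⟩) | ⟨_, hx⟩) | ⟨_, hx⟩
      · cases hx
      · cases hx
      · cases hx
      · cases hx
      · cases hx
        rfl
    rw [hk']
    trivial
  · refine GM.mono (StageX.roles_layer Φ N0 μ α ρ f hΦ) ?_
    refine trace_GM s σ hs l (trc Φ N0 μ α ρ) M hM hc ?_
    refine le_trans ht (le_of_eq ?_)
    unfold tot trc tl
    simp only [Multiset.map_add, Multiset.sum_add, Multiset.map_map, Multiset.map_replicate,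
      Multiset.sum_replicate, smul_eq_mul, ell_one, mul_one]
    rfl
  · exact GM.mono (StageX.roles_after l Φ N0 μ α ρ f) h1

end Pool.Agent.H21.NX

end

section

/-!
# Module PeelAll: complete peeling with many free simple points

Proof of `peel_all`: induction on `B`.  If `B = 0` then `Φ = 0` and `N0 = 0`, and `GM.of_card`
with `card_Sx`.  In the step let `q = ell s S - tl s Φ - tot s N0`.  If `S = 1` then `B = 1` and
`ell s 1 = 1` forces `Φ = 0`, `N0 = 0` (all their lengths are positive), and `GM.of_card` again.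
Otherwise apply `stage` with `μ = 1`, `α = q`, `ρ = 0`, `f = p - q`, `M = B`, `σ = S - 1`
(`window_cond'`), and the induction hypothesis to `nxt Φ N0 1 q 0` (`OKF_nxt`), `N0 = 0`, `S - 1`.
* `q ≤ p`: `(s + 1) * (fl Φ + tot (s + 1) N0) ≤ (B + s) * τ` with `τ = tl Φ + tot s N0`
  (`fl_le_tl`, `tot_succ_le`) and `(s + 1) * ell (s + 1) S = (S + s) * ell s S` (`ell_succ_mul`),
  so `(s + 1) p ≥ (S + s) ell s S - (B + s) τ ≥ (s + 1) (ell s S - τ)` since `τ ≤ ell s S`,
  `B ≤ S`.
* lengths: `fl_nxt` and `ell (s + 1) S = ell (s + 1) (S - 1) + ell s S`.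
* traces: with `x = B - 1`, `tl_nxt` gives `(x + s) * τ' ≤ x * (τ + q * ell s 1) ≤ ...`; careful:
  the simple points disappear, so use `tl_nxt` only for the part without them, that is
  `nxt Φ N0 1 q 0 = nxt Φ N0 1 0 0`; so `(x + s) τ' ≤ x τ`, `(x + s) * ell s (B - 1) ≤ x * ell s B`
  (`ell_pred_le`) and `x * ell s S * (S - 1 + s) ... `: from `τ + ell s B ^ 2 ≤ ell s S` follows
  `(x + s) * (τ' + ell s (B - 1) ^ 2) ≤ x * ell s S`, and
  `x * ell s S ≤ (x + s) * ell s (S - 1)` because `ell s (S - 1) * (S - 1 + s) = ell s S * (S - 1)`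
  and `x ≤ S - 1`.
-/

namespace Pool.Agent.H21.NX

open Finset Pool.Agent.H18.Ex

namespace PeelAllX

theorem of_simple (s : ℕ) (S : ℕ) (hS : 1 ≤ S) (T : Multiset (Kind (Fin (s + 2)))) (p : ℕ)
    (h : ell (s + 1) S ≤ p) :
    GM (Sx (Fin (s + 2)) (S - 1)) (T + Multiset.replicate p (Kind.free 1)) := by
  have h1 : Multiset.replicate p (Kind.free 1 : Kind (Fin (s + 2))) =
      (Multiset.replicate p 1).map Kind.free := by
    rw [Multiset.map_replicate]
  rw [h1, add_comm T]
  refine GM.of_card _ _ _ (fun m hm => ?_) ?_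
  · rw [Multiset.eq_of_mem_replicate hm]
  · rw [Multiset.card_replicate, card_Sx (s + 1) (S - 1), Nat.sub_add_cancel hS]
    exact h

theorem nxt_simple (Φ : Multiset (ℕ × ℕ)) (N0 : Multiset ℕ) (q : ℕ) :
    nxt Φ N0 1 q 0 = nxt Φ N0 1 0 0 := by
  unfold nxt
  simp only [Multiset.filter_add, Multiset.replicate_zero, add_zero]
  have : Multiset.filter (fun x : ℕ × ℕ => x.2 ≤ x.1) (Multiset.replicate q (1 - 1, 1)) = 0 := by
    rw [Multiset.filter_eq_nil]
    intro a ha
    rw [Multiset.eq_of_mem_replicate ha]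
    simp
  rw [this, add_zero]

end PeelAllX

open PeelAllX in
theorem peel_all (s : ℕ) (hs : 1 ≤ s) (l : Fin (s + 2)) (B : ℕ) :
    ∀ (S : ℕ) (Φ : Multiset (ℕ × ℕ)) (N0 : Multiset ℕ) (p : ℕ), OKF B Φ →
      (∀ m ∈ N0, 1 ≤ m ∧ m ≤ B) → 1 ≤ S → B ≤ S →
      tl s Φ + tot s N0 + ell s B ^ 2 ≤ ell s S →
      ell (s + 1) S ≤ fl s Φ + tot (s + 1) N0 + p →
      GM (Sx (Fin (s + 2)) (S - 1)) (fk l Φ + N0.map Kind.free +
        Multiset.replicate p (Kind.free 1)) := by
  induction B with
  | zero =>
    intro S Φ N0 p hΦ hN0 hS _ _ hl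
    have h1 : Φ = 0 := by
      rw [Multiset.eq_zero_iff_forall_notMem]
      intro x hx
      have := hΦ x hx
      omega
    have h2 : N0 = 0 := by
      rw [Multiset.eq_zero_iff_forall_notMem]
      intro m hm
      have := hN0 m hm
      omega
    subst h1 h2
    refine of_simple s S hS _ p ?_
    simpa [fl, tot] using hl
  | succ B ih =>
    intro S Φ N0 p hΦ hN0 hS hBS htr hl
    have hfl : (s + 1) * fl s Φ ≤ (B + 1 + s) * tl s Φ := fl_le_tl s hs hΦ
    have hto : (s + 1) * tot (s + 1) N0 ≤ (B + 1 + s) * tot s N0 :=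
      tot_succ_le s hs fun m hm => (hN0 m hm).2
    rcases Nat.lt_or_ge S 2 with hS2 | hS2
    · -- S = 1
      have hS1 : S = 1 := by omega
      have hB0 : B = 0 := by omega
      subst hS1 hB0
      rw [ell_one] at htr
      have h1 : tl s Φ = 0 := by omega
      have h2 : tot s N0 = 0 := by omega
      rw [h1, mul_zero] at hfl
      rw [h2, mul_zero] at hto
      have h3 : fl s Φ = 0 := by
        rcases Nat.mul_eq_zero.1 (Nat.le_zero.1 hfl) with h | h
        · omega
        · exact h
      have h4 : tot (s + 1) N0 = 0 := by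
        rcases Nat.mul_eq_zero.1 (Nat.le_zero.1 hto) with h | h
        · omega
        · exact h
      refine of_simple s 1 le_rfl _ p ?_
      omega
    · -- the step
      obtain ⟨S, rfl⟩ : ∃ S', S = S' + 1 := ⟨S - 1, by omega⟩
      have hS1 : 1 ≤ S := by omega
      have hBS' : B ≤ S := by omega
      set τ := tl s Φ + tot s N0 with hτ
      have hτL : τ ≤ ell s (S + 1) := le_trans (Nat.le_add_right _ _) htr
      obtain ⟨q, hq⟩ : ∃ q, ell s (S + 1) = τ + q := ⟨ell s (S + 1) - τ, by omega⟩
      have hmul : (S + 1 + s) * ell s (S + 1) = (s + 1) * ell (s + 1) (S + 1) :=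
        ell_succ_mul s (S + 1) hs
      have hqp : q ≤ p := by
        by_contra hcon
        rw [not_le] at hcon
        have h1 : (s + 1) * ell (s + 1) (S + 1) ≤
            (s + 1) * (fl s Φ + tot (s + 1) N0 + p) := Nat.mul_le_mul_left _ hl
        have h2 : (s + 1) * (fl s Φ + tot (s + 1) N0) ≤ (B + 1 + s) * τ := by
          rw [hτ, mul_add, mul_add]
          exact add_le_add hfl hto
        have h3 : (s + 1) * (p + 1) ≤ (s + 1) * q := Nat.mul_le_mul_left _ hcon
        have h4 : B * τ ≤ S * (τ + q) := Nat.mul_le_mul hBS' (Nat.le_add_right _ _)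
        rw [← hmul, hq] at h1
        linarith only [h1, h2, h3, h4]
      have hp : q + 0 + (p - q) = p := by omega
      rw [← hp, Nat.add_sub_cancel]
      have htrc : trc Φ N0 1 q 0 = Φ.map Prod.fst + N0 + Multiset.replicate q 1 := by
        unfold trc
        rw [Multiset.replicate_zero, add_zero]
      have htot : tot s (Φ.map Prod.fst + N0) = τ := by
        rw [hτ]
        unfold tot tl
        rw [Multiset.map_add, Multiset.sum_add, Multiset.map_map]
        rfl
      have hM : ∀ t ∈ trc Φ N0 1 q 0, t ≤ B + 1 := by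
        intro t ht
        rw [htrc, Multiset.mem_add, Multiset.mem_add, Multiset.mem_map] at ht
        rcases ht with (⟨x, hx, rfl⟩ | ht) | ht
        · exact (hΦ x hx).2.2.2
        · exact (hN0 t ht).2
        · rw [Multiset.eq_of_mem_replicate ht]
          omega
      refine stage s hs l S hS1 Φ N0 1 q 0 (p - q) (B + 1) le_rfl (fun x hx => (hΦ x hx).2.2.1)
        hM ?_ ?_ ?_
      · intro t ht ht2
        have htB := hM t ht
        rw [htrc]
        refine window_cond' s hs _ q (B + 1) _ ?_ t ht2 htB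
        rw [htot]
        exact htr
      · rw [ell_one, mul_one, add_zero, hq]
      · have hΦ' : OKF B (nxt Φ N0 1 q 0) :=
          OKF_nxt hΦ (fun m hm => (hN0 m hm).2) le_rfl (by omega) (Or.inl rfl)
        have key := ih S (nxt Φ N0 1 q 0) 0 (p - q) hΦ' (by simp) hS1 hBS' ?_ ?_
        · rw [Multiset.map_zero, add_zero] at key
          exact key
        · -- traces
          rw [nxt_simple]
          have h0 : tot s (0 : Multiset ℕ) = 0 := rfl
          rw [h0, add_zero]
          have h1 := tl_nxt (α := 0) (ρ := 0) (μ := 1) s B hs hΦ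
            (fun m hm => (hN0 m hm).2) (by omega) le_rfl
          rw [zero_mul, mul_zero, add_zero, add_zero, ← hτ] at h1
          have h2 : (B + s) * ell s B ≤ B * ell s (B + 1) := by
            have := ell_pred_le s (B + 1) B hs le_rfl
            rwa [Nat.add_sub_cancel] at this
          have h3 : ell s B ≤ ell s (B + 1) := ell_mono s (Nat.le_succ B)
          have h4 : ell s S * (S + s) = ell s (S + 1) * S := ell_mul_add s S hs
          set T' := tl s (nxt Φ N0 1 0 0) with hT'
          -- (B + s) * (T' + ell s B ^ 2) ≤ B * ell s (S + 1)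
          have h5 : (B + s) * (T' + ell s B ^ 2) ≤ B * ell s (S + 1) := by
            calc (B + s) * (T' + ell s B ^ 2) = (B + s) * T' + ((B + s) * ell s B) * ell s B := by
                  ring
              _ ≤ B * τ + (B * ell s (B + 1)) * ell s (B + 1) :=
                  add_le_add h1 (Nat.mul_le_mul h2 h3)
              _ = B * (τ + ell s (B + 1) ^ 2) := by ring
              _ ≤ B * ell s (S + 1) := Nat.mul_le_mul_left _ htr
          have h6 : B * ell s (S + 1) ≤ (B + s) * ell s S := by
            refine Nat.le_of_mul_le_mul_right ?_ hS1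
            calc B * ell s (S + 1) * S = B * (ell s (S + 1) * S) := by ring
              _ = B * (S + s) * ell s S := by rw [← h4]; ring
              _ ≤ ((B + s) * S) * ell s S := by
                  refine Nat.mul_le_mul_right _ ?_
                  calc B * (S + s) = B * S + B * s := Nat.mul_add B S s
                    _ ≤ B * S + S * s := Nat.add_le_add_left (Nat.mul_le_mul_right s hBS') _
                    _ = (B + s) * S := by ring
              _ = (B + s) * ell s S * S := by ring
          exact Nat.le_of_mul_le_mul_left (h5.trans h6) (by omega)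
        · -- lengths
          have h1 := fl_nxt (μ := 1) (α := q) (ρ := 0) s hs hΦ (fun m hm => (hN0 m hm).1)
            le_rfl (Or.inl rfl)
          rw [ell_one, ell_one, mul_one, mul_one, add_zero, add_zero, ← hτ] at h1
          have h2 := ell_succ s S
          have h0 : tot (s + 1) (0 : Multiset ℕ) = 0 := rfl
          rw [h0]
          omega

end Pool.Agent.H21.NX

end
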