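import Pool.Agent.H94.LP2.M02
import Pool.Agent.H94.LP2.M05

/-! The parts of this file: H21.NX.Conv, H21.NX.Layer, H51.TB.Theta, H51.TB.Tot, H51.TB.Lead, H51.TB.UDefs. -/

section

/-!
# Module Conv: conversions between `fatForms` and `GI`/`GM`

Templates: `sat_of_vanishes`, `exists_special` (H18/Ex/Final).
-/

namespace Pool.Agent.H21.NX

open Finset MvPolynomial Pool.Agent.H18.Fat Pool.Agent.H18.Ex

namespace ConvX

theorem mem_Sx_coe {n d : ℕ} {α : Fin n →₀ ℕ} : (⇑α : Fin n → ℕ) ∈ Sx (Fin n) d ↔ α ∈ mons n d := by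
  rw [mem_Sx, mem_mons, Finsupp.degree_eq_sum]

theorem finite_fat' {r d : ℕ} {ι : Type} (p : ι → Fin (r + 1) → ℂ) (m : ι → ℕ) :
    Module.Finite ℂ (fatForms r d p m) := by
  have h1 : fatForms r d p m ≤ LinearMap.range (toPoly (r + 1) d) := fun F hF =>
    ⟨_, exists_toPoly hF.1⟩
  exact Module.Finite.of_injective (Submodule.inclusion h1) (Submodule.inclusion_injective h1)

end ConvX

open ConvX

/-- `ell n (σ + 1) = binom(σ + n, n)` exponents (`card_mons`, or stars and bars). -/
theorem card_Sx (n σ : ℕ) : (Sx (Fin (n + 1)) σ).card = ell n (σ + 1) := by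
  unfold ell
  rw [show σ + 1 + n - 1 = σ + n by omega, ← card_mons]
  symm
  apply card_bij (fun (α : Fin (n + 1) →₀ ℕ) _ => (⇑α : Fin (n + 1) → ℕ))
  · intro α hα
    exact mem_Sx_coe.2 hα
  · intro α _ β _ h
    exact DFunLike.coe_injective h
  · intro a ha
    refine ⟨Finsupp.equivFunOnFinite.symm a, ?_, rfl⟩
    rw [← mem_Sx_coe]
    exact ha

theorem Sx_resid {ι : Type} [Fintype ι] [DecidableEq ι] (σ : ℕ) (hσ : 1 ≤ σ) (l : ι)
    (a : ι → ℕ) : a ∈ Sx ι (σ - 1) ↔ Function.update a l (a l + 1) ∈ Sx ι σ := by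
  rw [mem_Sx, mem_Sx, Finset.sum_update_of_mem (mem_univ l),
    ← Finset.add_sum_erase univ a (mem_univ l), Finset.sdiff_singleton_eq_erase]
  omega

/-- A function on `Sx` satisfying the conditions is the coefficient function of a form in
`fatForms`, which is zero. -/
theorem GI_of_fat {n d : ℕ} {κ : Type} (p : κ → Fin (n + 1) → ℂ) (m : κ → ℕ)
    (h : Module.finrank ℂ (fatForms n d p m) = 0) :
    GI (Sx (Fin (n + 1)) d) fun i => Kind.free (m i) := by
  classical
  refine ⟨p, fun f hf => ?_⟩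
  have hfin := finite_fat' (d := d) p m
  have hbot : fatForms n d p m = ⊥ := Submodule.finrank_eq_zero.1 h
  have hmem : toPoly (n + 1) d (fun α => f (⇑α.1)) ∈ fatForms n d p m := by
    refine ⟨toPoly_isHomogeneous _, fun i β hβ => ?_⟩
    rw [coeff_shift_toPoly]
    have h1 := hf i (⇑β) (by
      rw [Finsupp.degree_eq_sum] at hβ
      exact hβ)
    rw [← h1]
    apply sum_bij (fun (α : mons (n + 1) d) _ => (⇑α.1 : Fin (n + 1) → ℕ))
    · intro α _
      exact mem_Sx_coe.2 α.2
    · intro α _ α' _ hαα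
      exact Subtype.ext (DFunLike.coe_injective hαα)
    · intro a ha
      refine ⟨⟨Finsupp.equivFunOnFinite.symm a, ?_⟩, mem_univ _, rfl⟩
      rw [← mem_Sx_coe]
      exact ha
    · intro α _
      rfl
  rw [hbot, Submodule.mem_bot] at hmem
  have h0 : (fun α : mons (n + 1) d => f (⇑α.1)) = 0 := by
    apply toPoly_injective (n + 1) d
    rw [hmem, map_zero]
  intro a ha
  have hm : Finsupp.equivFunOnFinite.symm a ∈ mons (n + 1) d := by
    rw [← mem_Sx_coe]
    exact ha
  exact congrFun h0 ⟨_, hm⟩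

end Pool.Agent.H21.NX

end

section

/-!
# Module Layer: forms not involving a variable
-/

namespace Pool.Agent.H21.NX

open Finset MvPolynomial Pool.Agent.H18.Fat Pool.Agent.H18.Ex

/-- insertion of the value `c` at the coordinate `l` -/
private def lins {α : Type} {n : ℕ} (l : Fin (n + 1)) (c : α) (a : Fin n → α) : Fin (n + 1) → α :=
  l.insertNth (α := fun _ => α) c a

private theorem lins_same {α : Type} {n : ℕ} (l : Fin (n + 1)) (c : α) (a : Fin n → α) :
    lins l c a l = c := by
  unfold lins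
  simp

private theorem lins_succ {α : Type} {n : ℕ} (l : Fin (n + 1)) (c : α) (a : Fin n → α)
    (i : Fin n) : lins l c a (l.succAbove i) = a i := by
  unfold lins
  simp

private theorem lins_eta {α : Type} {n : ℕ} (l : Fin (n + 1)) (c : α) (a : Fin (n + 1) → α)
    (h : a l = c) : lins l c (fun i => a (l.succAbove i)) = a := by
  funext i
  rcases Fin.eq_self_or_eq_succAbove l i with h1 | ⟨j, h1⟩
  · rw [h1, lins_same, h]
  · rw [h1, lins_succ]

private theorem lins_inj {α : Type} {n : ℕ} (l : Fin (n + 1)) (c : α) :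
    Function.Injective (lins l c : (Fin n → α) → Fin (n + 1) → α) := by
  intro a b h
  funext i
  rw [← lins_succ l c a i, h, lins_succ]

private theorem lins_sum {n : ℕ} (l : Fin (n + 1)) (a : Fin n → ℕ) :
    ∑ i, lins l 0 a i = ∑ i, a i := by
  rw [Fin.sum_univ_succAbove _ l, lins_same, zero_add]
  exact sum_congr rfl fun i _ => lins_succ l 0 a i

private theorem lins_tcr {n : ℕ} (l : Fin (n + 1)) (q : Fin n → ℂ) (a b : Fin n → ℕ) :
    tcr (lins l 1 q) (lins l 0 a) (lins l 0 b) = tcr q a b := by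
  unfold tcr
  rw [Fin.prod_univ_succAbove _ l]
  simp only [lins_same, lins_succ]
  simp

/-- Forms not involving the variable `l`.  Positions: insert any value (say `1`) at the
coordinate `l` (`Fin.insertNth`).  For `a l = 0` the Taylor coefficients `tcr q a b` with
`b l ≥ 1` are zero and those with `b l = 0` are the Taylor coefficients in the other variables
(`Fin.succAbove`, `Fin.prod_univ_succAbove`, `Fin.sum_univ_succAbove`). -/
theorem GI_layer {n σ : ℕ} {κ : Type} (l : Fin (n + 1)) (m : κ → ℕ)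
    (h : GI (Sx (Fin n) σ) fun i => Kind.free (m i)) :
    GI ((Sx (Fin (n + 1)) σ).filter fun a => a l = 0) fun i => Kind.free (m i) := by
  obtain ⟨pos, hpos⟩ := h
  refine ⟨fun i => lins l 1 (pos i), fun f hf => ?_⟩
  have key : ∀ a ∈ Sx (Fin n) σ, f (lins l 0 a) = 0 := by
    refine hpos (fun a => f (lins l 0 a)) fun i b hb => ?_
    have h1 := hf i (lins l 0 b) (by
      show ∑ j, lins l 0 b j < m i
      rw [lins_sum]
      exact hb)
    rw [← h1]
    refine sum_nbij (fun a => lins l 0 a) ?_ ?_ ?_ ?_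
    · intro a ha
      rw [mem_filter, mem_Sx, lins_sum]
      exact ⟨mem_Sx.1 ha, lins_same _ _ _⟩
    · intro a _ a' _ haa
      exact lins_inj l 0 haa
    · intro a ha
      rw [mem_coe, mem_filter, mem_Sx] at ha
      refine ⟨fun j => a (l.succAbove j), ?_, lins_eta l 0 a ha.2⟩
      rw [mem_coe, mem_Sx, ← ha.1, Fin.sum_univ_succAbove _ l, ha.2, zero_add]
    · intro a _
      show f (lins l 0 a) * tcr (pos i) a b =
        f (lins l 0 a) * tcr (lins l 1 (pos i)) (lins l 0 a) (lins l 0 b)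
      rw [lins_tcr]
  intro a ha
  rw [mem_filter, mem_Sx] at ha
  have h2 := key (fun j => a (l.succAbove j)) (by
    rw [mem_Sx, ← ha.1, Fin.sum_univ_succAbove _ l, ha.2, zero_add])
  rwa [lins_eta l 0 a ha.2] at h2

end Pool.Agent.H21.NX

end

section

/-!
# Module D6 (TB): the proportions

Let `Ψ j = (∑_{i ≤ j} binom (m - 1, i)) / 2^(m - 1)` (`= 1` for `j ≥ m - 1`), `D = d + 1 - m ≥ m`.
`Gl d m s j = Ψ (j - D) + (if s ≤ j then Ψ j - Ψ (j - D) else 0)` (`Ψ (j - D) = 0` if `j < D`).  So with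
`C j = ∑_{s ≤ j} θ s` the equations say `Ψ (j - D) + (Ψ j - Ψ (j - D)) C j = Φ j`, that is,
`C j = Φ j / Ψ j` for `j < D`, `1 - C j = (1 - Φ j) / (1 - Ψ (j - D))` for `j ≥ D` (there `Ψ j = 1`);
for `m - 1 ≤ j < D` both formulas agree (`Ψ j = 1`).  At `j = d` the equation is `1 = 1` if `C d = 1`
(`Ψ d = 1`, `Φ d = 1`).
Put `C j` as above for `j < d`, `C d = 1`, `θ s = C s - C (s - 1)`, `C (-1) = 0`.  `C` is strictly
increasing: for `j < D`, `Φ j / Ψ j` is (up to a constant) a quotient of the partial sums of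
`binom (d, i)` and of `binom (m - 1, i)`, and the quotient `binom (d, i) / binom (m - 1, i)` increases
strictly in `i ≤ m - 1` (`m - 1 < d`), while for `j ≥ m - 1` the denominator is constant; for `j ≥ D`
use the symmetry `1 - Φ j = Φ (d - 1 - j)`, `1 - Ψ (j - D) = Ψ (d - 1 - j)`, so
`1 - C j = Φ (d - 1 - j) / Ψ (d - 1 - j)`.  The overlap `m - 1 ≤ D - 1` of the two ranges makes `C`
strictly increasing on `[0, d]`.
-/

namespace Pool.Agent.H51.TB

open Finset

/-- the partial sums of the binomial coefficients -/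
private def Theta_A (d j : ℕ) : ℕ := ∑ i ∈ range (j + 1), d.choose i

private theorem Theta_Phi (d j : ℕ) : Phi d j = (Theta_A d j : ℝ) / 2 ^ d := by
  unfold Phi Theta_A; push_cast; rfl

private theorem Theta_A_pos (d j : ℕ) : 0 < Theta_A d j := by
  unfold Theta_A
  refine Finset.sum_pos' (fun _ _ => Nat.zero_le _) ⟨0, by simp, by simp⟩

private theorem Theta_Phi_pos (d j : ℕ) : 0 < Phi d j := by
  rw [Theta_Phi]
  have := Theta_A_pos d j
  positivity

private theorem Theta_A_top {d j : ℕ} (h : d ≤ j) : Theta_A d j = 2 ^ d := by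
  unfold Theta_A
  rw [← Nat.sum_range_choose d]
  refine (Finset.sum_subset (Finset.range_subset_range.2 (by omega)) fun i _ hi => ?_).symm
  exact Nat.choose_eq_zero_of_lt (by simpa using hi)

private theorem Theta_Phi_top {d j : ℕ} (h : d ≤ j) : Phi d j = 1 := by
  rw [Theta_Phi, Theta_A_top h]; push_cast; field_simp

private theorem Theta_A_symm {d j : ℕ} (h : j < d) : Theta_A d j + Theta_A d (d - 1 - j) = 2 ^ d := by
  unfold Theta_A
  rw [← Nat.sum_range_choose d, ← Finset.sum_range_add_sum_Ico _ (show j + 1 ≤ d + 1 by omega)]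
  congr 1
  rw [Finset.sum_Ico_eq_sum_range, show d + 1 - (j + 1) = d - 1 - j + 1 by omega,
    ← Finset.sum_range_reflect]
  refine Finset.sum_congr rfl fun k hk => ?_
  rw [mem_range] at hk
  exact Nat.choose_symm_of_eq_add (by omega)

private theorem Theta_Phi_symm {d j : ℕ} (h : j < d) : Phi d j + Phi d (d - 1 - j) = 1 := by
  rw [Theta_Phi, Theta_Phi, ← add_div]
  have := Theta_A_symm h
  rw [div_eq_one_iff_eq (by positivity)]
  exact_mod_cast this

private theorem Theta_cross {d M i k : ℕ} (hMd : M ≤ d) (hik : i ≤ k) :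
    d.choose i * M.choose k ≤ d.choose k * M.choose i := by
  rcases lt_or_ge M k with h | h
  · rw [Nat.choose_eq_zero_of_lt h]; simp
  · have h1 : M.choose k * k.choose i = M.choose i * (M - i).choose (k - i) := Nat.choose_mul hik
    have h2 : d.choose k * k.choose i = d.choose i * (d - i).choose (k - i) := Nat.choose_mul hik
    have h3 : (M - i).choose (k - i) ≤ (d - i).choose (k - i) := Nat.choose_le_choose _ (by omega)
    have h4 : 0 < k.choose i := Nat.choose_pos hik
    refine Nat.le_of_mul_le_mul_right (c := k.choose i) ?_ h4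
    calc d.choose i * M.choose k * k.choose i = d.choose i * (M.choose k * k.choose i) := by ring
      _ = d.choose i * M.choose i * (M - i).choose (k - i) := by rw [h1]; ring
      _ ≤ d.choose i * M.choose i * (d - i).choose (k - i) := Nat.mul_le_mul_left _ h3
      _ = d.choose k * M.choose i * k.choose i := by
        rw [show d.choose k * M.choose i * k.choose i = M.choose i * (d.choose k * k.choose i) by ring, h2]; ring

private theorem Theta_choose_lt {d M k : ℕ} (hMd : M < d) (hk : 1 ≤ k) (hkd : k ≤ d) :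
    M.choose k < d.choose k := by
  rcases lt_or_ge M k with h | h
  · rw [Nat.choose_eq_zero_of_lt h]; exact Nat.choose_pos hkd
  · obtain ⟨k', rfl⟩ : ∃ k', k = k' + 1 := ⟨k - 1, by omega⟩
    have h1 : (M + 1).choose (k' + 1) = M.choose k' + M.choose (k' + 1) := Nat.choose_succ_succ _ _
    have h2 : 0 < M.choose k' := Nat.choose_pos (by omega)
    have h3 : (M + 1).choose (k' + 1) ≤ d.choose (k' + 1) := Nat.choose_le_choose _ (by omega)
    omega

private noncomputable def Theta_Q (d M j : ℕ) : ℝ := Phi d j / Phi M j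

private theorem Theta_Q_pos (d M j : ℕ) : 0 < Theta_Q d M j :=
  div_pos (Theta_Phi_pos d j) (Theta_Phi_pos M j)

private theorem Theta_Q_lt {d M j : ℕ} (hMd : M < d) (hj : j + 1 ≤ d) :
    Theta_Q d M j < Theta_Q d M (j + 1) := by
  unfold Theta_Q
  rw [div_lt_div_iff₀ (Theta_Phi_pos _ _) (Theta_Phi_pos _ _), Theta_Phi, Theta_Phi, Theta_Phi, Theta_Phi]
  have hA : Theta_A d (j + 1) = Theta_A d j + d.choose (j + 1) := by
    unfold Theta_A; rw [Finset.sum_range_succ _ (j + 1)]
  have hB : Theta_A M (j + 1) = Theta_A M j + M.choose (j + 1) := by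
    unfold Theta_A; rw [Finset.sum_range_succ _ (j + 1)]
  have key : Theta_A d j * M.choose (j + 1) < d.choose (j + 1) * Theta_A M j := by
    unfold Theta_A
    rw [Finset.sum_mul, Finset.mul_sum]
    refine Finset.sum_lt_sum (fun i hi => Theta_cross hMd.le ?_) ⟨0, by simp, ?_⟩
    · rw [mem_range] at hi; omega
    · simpa using Theta_choose_lt hMd (by omega) hj
  have h1 : Theta_A d j * Theta_A M (j + 1) < Theta_A d (j + 1) * Theta_A M j := by
    rw [hA, hB]; nlinarith
  have h2 : ((Theta_A d j : ℝ) * Theta_A M (j + 1)) < Theta_A d (j + 1) * Theta_A M j := by exact_mod_cast h1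
  have e1 : (Theta_A d j : ℝ) / 2 ^ d * (Theta_A M (j + 1) / 2 ^ M) =
      (Theta_A d j * Theta_A M (j + 1)) / (2 ^ d * 2 ^ M) := by ring
  have e2 : (Theta_A d (j + 1) : ℝ) / 2 ^ d * (Theta_A M j / 2 ^ M) =
      (Theta_A d (j + 1) * Theta_A M j) / (2 ^ d * 2 ^ M) := by ring
  rw [e1, e2]
  exact div_lt_div_of_pos_right h2 (by positivity)

private theorem Theta_Gl_le {d m s j : ℕ} (hm : 1 ≤ m) (h : s ≤ j) : Gl d m s j = Phi (m - 1) j := by
  unfold Gl Phi
  congr 1
  have e1 : ∀ i, (if i ≤ j ∧ (s ≤ j ∨ i + (d + 1) ≤ j + m) then ((m - 1).choose i : ℝ) else 0) =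
      if i ≤ j then ((m - 1).choose i : ℝ) else 0 := fun i => by simp [h]
  simp only [e1]
  rw [← Finset.sum_filter]
  refine Finset.sum_subset (fun i hi => ?_) fun i hi hi' => ?_
  · simp only [mem_filter, mem_range] at hi ⊢; omega
  · simp only [mem_filter, mem_range, not_and] at hi hi'
    have : m - 1 < i := by
      by_contra hc
      exact hi' (by omega) (by omega)
    exact_mod_cast Nat.choose_eq_zero_of_lt this

private theorem Theta_Gl_gt {d m s j : ℕ} (hm : 1 ≤ m) (hmd : m ≤ d) (h : j < s) :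
    Gl d m s j = if d + 1 - m ≤ j then Phi (m - 1) (j - (d + 1 - m)) else 0 := by
  unfold Gl
  have e1 : ∀ i, (if i ≤ j ∧ (s ≤ j ∨ i + (d + 1) ≤ j + m) then ((m - 1).choose i : ℝ) else 0) =
      if i + (d + 1 - m) ≤ j then ((m - 1).choose i : ℝ) else 0 := fun i => by
    by_cases hc : i + (d + 1 - m) ≤ j
    · rw [if_pos hc, if_pos ⟨by omega, Or.inr (by omega)⟩]
    · rw [if_neg hc, if_neg]
      rintro ⟨h1, h2⟩
      rcases h2 with h2 | h2 <;> omega
  simp only [e1]
  split_ifs with hD
  · unfold Phi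
    congr 1
    rw [← Finset.sum_filter]
    refine Finset.sum_subset (fun i hi => ?_) fun i hi hi' => ?_
    · simp only [mem_filter, mem_range] at hi ⊢; omega
    · simp only [mem_filter, mem_range, not_and] at hi hi'
      have : m - 1 < i := by
        by_contra hc
        exact hi' (by omega) (by omega)
      exact_mod_cast Nat.choose_eq_zero_of_lt this
  · rw [Finset.sum_eq_zero, zero_div]
    intro i _
    rw [if_neg (by omega)]

theorem theta (d m : ℕ) (hm : 1 ≤ m) (h2 : 2 * m ≤ d + 1) : ∃ θ : ℕ → ℝ, (∀ s ≤ d, 0 < θ s) ∧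
    ∑ s ∈ range (d + 1), θ s = 1 ∧
    ∀ j ≤ d, ∑ s ∈ range (d + 1), θ s * Gl d m s j = Phi d j := by
  classical
  obtain ⟨M, rfl⟩ : ∃ M, m = M + 1 := ⟨m - 1, by omega⟩
  obtain ⟨D, hD⟩ : ∃ D, D = d - M := ⟨_, rfl⟩
  have hMd : M < d := by omega
  have hDM : M + 1 ≤ D := by omega
  set T : ℕ → ℝ := fun n => if n = 0 then 0 else if n ≤ D then Theta_Q d M (n - 1) else
    if n ≤ d then 1 - Theta_Q d M (d - n) else 1 with hT
  have hT0 : T 0 = 0 := by simp [hT]
  have hT1 : ∀ n, 1 ≤ n → n ≤ D → T n = Theta_Q d M (n - 1) := fun n h1 h2 => by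
    simp only [hT]; rw [if_neg (by omega), if_pos h2]
  have hTd : T (d + 1) = 1 := by
    simp only [hT]; rw [if_neg (by omega), if_neg (by omega), if_neg (by omega)]
  have hT2 : ∀ n, D ≤ n → n ≤ d → T n = 1 - Theta_Q d M (d - n) := fun n h1 h2 => by
    rcases Nat.lt_or_ge D n with h | h
    · simp only [hT]; rw [if_neg (by omega), if_neg (by omega), if_pos h2]
    · have hn : n = D := by omega
      subst hn
      rw [hT1 _ (by omega) le_rfl]
      unfold Theta_Q
      rw [Theta_Phi_top (show M ≤ n - 1 by omega), Theta_Phi_top (show M ≤ d - n by omega)]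
      have := Theta_Phi_symm (d := d) (j := n - 1) (by omega)
      rw [show d - 1 - (n - 1) = d - n by omega] at this
      rw [div_one, div_one]; linarith
  have hmono : ∀ n ≤ d, T n < T (n + 1) := by
    intro n hn
    rcases Nat.eq_zero_or_pos n with h0 | h0
    · subst h0
      rw [hT0, hT1 _ (by omega) (by omega)]
      exact Theta_Q_pos _ _ _
    · rcases Nat.lt_or_ge n D with h1 | h1
      · rw [hT1 n (by omega) h1.le, hT1 (n + 1) (by omega) (by omega)]
        have := Theta_Q_lt (j := n - 1) hMd (by omega)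
        rwa [show n - 1 + 1 = n + 1 - 1 by omega] at this
      · rcases Nat.lt_or_ge n d with h2 | h2
        · rw [hT2 n h1 h2.le, hT2 (n + 1) (by omega) (by omega)]
          have := Theta_Q_lt (j := d - (n + 1)) hMd (by omega)
          rw [show d - (n + 1) + 1 = d - n by omega] at this
          linarith
        · have hnd : n = d := by omega
          subst hnd
          rw [hTd, hT2 n h1 le_rfl]
          have := Theta_Q_pos n M (n - n)
          linarith
  have hsum : ∀ n, ∑ s ∈ range n, (T (s + 1) - T s) = T n := fun n => by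
    rw [Finset.sum_range_sub, hT0, sub_zero]
  refine ⟨fun s => T (s + 1) - T s, fun s hs => sub_pos.2 (hmono s hs), by rw [hsum, hTd], fun j hj => ?_⟩
  rw [← Finset.sum_range_add_sum_Ico _ (show j + 1 ≤ d + 1 by omega)]
  have e1 : ∑ s ∈ range (j + 1), (T (s + 1) - T s) * Gl d (M + 1) s j = T (j + 1) * Phi M j := by
    rw [← hsum (j + 1), Finset.sum_mul]
    refine Finset.sum_congr rfl fun s hs => ?_
    rw [mem_range] at hs
    rw [Theta_Gl_le (by omega) (by omega), show M + 1 - 1 = M by omega]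
  have e2 : ∑ s ∈ Ico (j + 1) (d + 1), (T (s + 1) - T s) * Gl d (M + 1) s j =
      (1 - T (j + 1)) * (if D ≤ j then Phi M (j - D) else 0) := by
    have e3 : ∑ s ∈ Ico (j + 1) (d + 1), (T (s + 1) - T s) = 1 - T (j + 1) := by
      have := Finset.sum_range_add_sum_Ico (fun s => T (s + 1) - T s) (show j + 1 ≤ d + 1 by omega)
      rw [hsum, hsum, hTd] at this
      linarith
    rw [← e3, Finset.sum_mul]
    refine Finset.sum_congr rfl fun s hs => ?_
    rw [mem_Ico] at hs
    rw [Theta_Gl_gt (by omega) (by omega) (by omega), show d + 1 - (M + 1) = D by omega,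
      show M + 1 - 1 = M by omega]
  rw [e1, e2]
  rcases Nat.lt_or_ge j D with h1 | h1
  · rw [if_neg (by omega), mul_zero, add_zero, hT1 (j + 1) (by omega) (by omega), show j + 1 - 1 = j by omega]
    unfold Theta_Q
    exact div_mul_cancel₀ _ (Theta_Phi_pos _ _).ne'
  · rw [if_pos h1, Theta_Phi_top (show M ≤ j by omega), mul_one]
    rcases Nat.lt_or_ge j d with h2 | h2
    · rw [hT2 (j + 1) (by omega) (by omega), show d - (j + 1) = d - 1 - j by omega]
      have f1 := Theta_Phi_symm (d := d) (j := j) h2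
      have f2 := Theta_Phi_symm (d := M) (j := j - D) (by omega)
      rw [show M - 1 - (j - D) = d - 1 - j by omega] at f2
      have f3 : Theta_Q d M (d - 1 - j) * Phi M (d - 1 - j) = Phi d (d - 1 - j) := by
        unfold Theta_Q
        exact div_mul_cancel₀ _ (Theta_Phi_pos _ _).ne'
      have f4 : Phi M (j - D) = 1 - Phi M (d - 1 - j) := by linarith
      rw [f4]
      linear_combination -f3 - f1
    · have hjd : j = d := by omega
      subst hjd
      rw [hTd, Theta_Phi_top le_rfl]; ring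

end Pool.Agent.H51.TB

end

section

/-!
# Module D1 (TB): the total number of conditions

`∑_{j ≤ d} wt j = ∑_{g} Eg g * #{j ≤ d : g ∈ Lam d m c j}`.  For `|g| = k < m ≤ d + 1` the levels `j` of
the window `[gy, d - gx]` (`d - k + 1` of them) have the different window ranks `wr = 0, …, d - k`
(`rk` is injective on the levels), so `#{j : g ∈ Lam j} = min (m - k) (d - k + 1) = m - k`.  And
`∑_{|g| = k} Eg g = multichoose (a + b - 2) k` (Vandermonde: `multichoose` counts multisets; or
`PowerSeries`/generating functions; or induction), `∑_{k < m} (m - k) multichoose (a + b - 2) k =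
ell (a + b - 1) m` (`m = 1`: both `1`; induction on `m` with
`∑_{k ≤ m} multichoose (v) k = multichoose (v + 1) m`, twice).
-/

namespace Pool.Agent.H51.TB

open Finset Pool.Agent.H18.Ex Pool.Agent.H21.NX Pool.Agent.H18.Ta

/-- Vandermonde. -/
theorem sum_multichoose (v w k : ℕ) :
    ∑ g ∈ antidiagonal k, Nat.multichoose v g.1 * Nat.multichoose w g.2 =
      Nat.multichoose (v + w) k := by
  induction v generalizing k with
  | zero =>
    rw [Nat.zero_add]
    cases k with
    | zero =>
      rw [Finset.Nat.antidiagonal_zero, Finset.sum_singleton, Nat.multichoose_zero_right,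
        Nat.multichoose_zero_right]
    | succ k =>
      rw [Finset.Nat.sum_antidiagonal_succ, Nat.multichoose_zero_right, Nat.one_mul]
      rw [Finset.sum_eq_zero (fun p _ => by rw [Nat.multichoose_zero_succ, Nat.zero_mul]), Nat.add_zero]
  | succ v ihv =>
    induction k with
    | zero =>
      rw [Finset.Nat.antidiagonal_zero, Finset.sum_singleton, Nat.multichoose_zero_right,
        Nat.multichoose_zero_right, Nat.multichoose_zero_right]
    | succ k ihk =>
      have e1 := ihv (k + 1)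
      rw [Finset.Nat.sum_antidiagonal_succ, Nat.multichoose_zero_right] at e1
      rw [Finset.Nat.sum_antidiagonal_succ, Nat.multichoose_zero_right]
      have e2 : ∑ p ∈ antidiagonal k, Nat.multichoose (v + 1) (p.1 + 1) * Nat.multichoose w p.2 =
          ∑ p ∈ antidiagonal k, Nat.multichoose v (p.1 + 1) * Nat.multichoose w p.2 +
            ∑ p ∈ antidiagonal k, Nat.multichoose (v + 1) p.1 * Nat.multichoose w p.2 := by
        rw [← Finset.sum_add_distrib]
        refine Finset.sum_congr rfl (fun p _ => ?_)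
        rw [Nat.multichoose_succ_succ, Nat.add_mul]
      rw [e2, ihk, ← Nat.add_assoc, e1, show v + 1 + w = (v + w) + 1 by omega,
        Nat.multichoose_succ_succ]

private theorem Tot_rank (W : Finset ℕ) (f : ℕ → ℕ) (hf : ∀ i ∈ W, ∀ j ∈ W, f i = f j → i = j) (n : ℕ)
    (hn : n ≤ W.card) :
    (W.filter fun j => (W.filter fun i => f i < f j).card < n).card = n := by
  classical
  set r : ℕ → ℕ := fun j => (W.filter fun i => f i < f j).card with hr
  have hmono : ∀ i ∈ W, ∀ j ∈ W, f i < f j → r i < r j := by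
    intro i hi j _ h
    refine Finset.card_lt_card ?_
    refine (Finset.ssubset_iff_of_subset ?_).2 ⟨i, Finset.mem_filter.2 ⟨hi, h⟩, ?_⟩
    · intro t ht
      rw [Finset.mem_filter] at ht ⊢
      exact ⟨ht.1, ht.2.trans h⟩
    · intro h'
      exact absurd (Finset.mem_filter.1 h').2 (lt_irrefl _)
  have hinj : Set.InjOn r (W : Set ℕ) := by
    intro i hi j hj h
    have hi' := Finset.mem_coe.1 hi
    have hj' := Finset.mem_coe.1 hj
    rcases lt_trichotomy (f i) (f j) with h1 | h1 | h1
    · exact absurd h (hmono i hi' j hj' h1).ne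
    · exact hf i hi' j hj' h1
    · exact absurd h (hmono j hj' i hi' h1).ne'
  have himg : W.image r = range W.card := by
    refine Finset.eq_of_subset_of_card_le ?_ ?_
    · intro k hk
      obtain ⟨j, hj, rfl⟩ := Finset.mem_image.1 hk
      rw [Finset.mem_range]
      refine Finset.card_lt_card ?_
      refine (Finset.ssubset_iff_of_subset (Finset.filter_subset _ _)).2 ⟨j, hj, ?_⟩
      intro h'
      exact absurd (Finset.mem_filter.1 h').2 (lt_irrefl _)
    · rw [Finset.card_image_of_injOn hinj, Finset.card_range]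
  have h1 : (W.filter fun j => r j < n).image r = range n := by
    ext k
    rw [Finset.mem_image, Finset.mem_range]
    constructor
    · rintro ⟨j, hj, rfl⟩
      exact (Finset.mem_filter.1 hj).2
    · intro hk
      have hk' : k ∈ W.image r := by
        rw [himg, Finset.mem_range]
        omega
      obtain ⟨j, hj, rfl⟩ := Finset.mem_image.1 hk'
      exact ⟨j, Finset.mem_filter.2 ⟨hj, hk⟩, rfl⟩
  have h2 : ((W.filter fun j => r j < n).image r).card = (W.filter fun j => r j < n).card :=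
    Finset.card_image_of_injOn (hinj.mono (by
      intro j hj
      exact Finset.mem_coe.2 (Finset.mem_filter.1 (Finset.mem_coe.1 hj)).1))
  rw [h1, Finset.card_range] at h2
  exact h2.symm

/-- Each bidegree `g`, `|g| < m`, is used on exactly `m - |g|` levels. -/
theorem card_levels {d m : ℕ} (hm : m ≤ d + 1) {c : ℕ × ℕ} (hc : c.1 + c.2 ≤ d) (g : ℕ × ℕ)
    (hg : g.1 + g.2 < m) :
    ((range (d + 1)).filter fun j => g ∈ Lam d m c j).card = m - (g.1 + g.2) := by
  classical
  set W : Finset ℕ := (range (d + 1)).filter fun i => g.2 ≤ i ∧ i + g.1 ≤ d with hW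
  have hWc : W.card = d + 1 - (g.1 + g.2) := by
    have e : W = Finset.Icc g.2 (d - g.1) := by
      ext i
      rw [hW, Finset.mem_filter, Finset.mem_range, Finset.mem_Icc]
      omega
    rw [e, Nat.card_Icc]
    omega
  have hwr : ∀ j, wr d c g j =
      (W.filter fun i => rk (d + 1) c.1 c.2 i < rk (d + 1) c.1 c.2 j).card := by
    intro j
    unfold wr
    rw [hW, Finset.filter_filter]
    congr 1
    refine Finset.filter_congr (fun i _ => ?_)
    tauto
  have key := Tot_rank W (rk (d + 1) c.1 c.2) (by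
    intro i hi j hj h
    rw [hW, Finset.mem_filter, Finset.mem_range] at hi hj
    exact rk_inj (by omega) hi.1 hj.1 h) (m - (g.1 + g.2)) (by omega)
  rw [← key]
  congr 1
  ext j
  rw [Finset.mem_filter, Finset.mem_filter, ← hwr j]
  unfold Lam
  rw [hW, Finset.mem_filter, Finset.mem_filter, Finset.mem_product, Finset.mem_range, Finset.mem_range,
    Finset.mem_range]
  constructor
  · rintro ⟨h1, -, h2, h3, h4⟩
    exact ⟨⟨h1, h2, h3⟩, by omega⟩
  · rintro ⟨⟨h1, h2, h3⟩, h4⟩
    exact ⟨h1, ⟨by omega, by omega⟩, h2, h3, by omega⟩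

private theorem Tot_sum1 (v : ℕ) : ∀ m : ℕ, ∑ k ∈ range (m + 1), Nat.multichoose v k =
    Nat.multichoose (v + 1) m := by
  intro m
  induction m with
  | zero => rw [Finset.sum_range_one, Nat.multichoose_zero_right, Nat.multichoose_zero_right]
  | succ m ih =>
    rw [Finset.sum_range_succ, ih, Nat.multichoose_succ_succ, Nat.add_comm]

private theorem Tot_sum2 (v : ℕ) : ∀ m : ℕ, ∑ k ∈ range m, (m - k) * Nat.multichoose v k =
    (v + m).choose (v + 1) := by
  intro m
  induction m with
  | zero =>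
    rw [Finset.sum_range_zero, Nat.add_zero, Nat.choose_eq_zero_of_lt (Nat.lt_succ_self v)]
  | succ m ih =>
    have e1 : ∑ k ∈ range (m + 1), (m + 1 - k) * Nat.multichoose v k =
        ∑ k ∈ range (m + 1), (m - k) * Nat.multichoose v k + ∑ k ∈ range (m + 1), Nat.multichoose v k := by
      rw [← Finset.sum_add_distrib]
      refine Finset.sum_congr rfl (fun k hk => ?_)
      rw [Finset.mem_range] at hk
      rw [show m + 1 - k = (m - k) + 1 by omega, Nat.add_mul, Nat.one_mul]
    have e2 : ∑ k ∈ range (m + 1), (m - k) * Nat.multichoose v k = (v + m).choose (v + 1) := by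
      rw [Finset.sum_range_succ, Nat.sub_self, Nat.zero_mul, Nat.add_zero, ih]
    rw [e1, e2, Tot_sum1, Nat.multichoose_eq, show v + 1 + m - 1 = v + m by omega,
      show v + (m + 1) = (v + m) + 1 by omega, Nat.choose_succ_succ,
      ← Nat.choose_symm_of_eq_add (show v + m = m + v by omega), Nat.add_comm]

theorem sum_wt {a b d m : ℕ} (ha : 1 ≤ a) (hb : 1 ≤ b) (hm : m ≤ d + 1) {c : ℕ × ℕ}
    (hc : c.1 + c.2 ≤ d) : ∑ j ∈ range (d + 1), wt a b d m c j = ell (a + b - 1) m := by
  classical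
  have hLam : ∀ j, Lam d m c j ⊆ range m ×ˢ range m := fun j => Finset.filter_subset _ _
  have e1 : ∀ j, wt a b d m c j = ∑ g ∈ range m ×ˢ range m, if g ∈ Lam d m c j then Eg a b g else 0 := by
    intro j
    unfold wt
    rw [← Finset.sum_filter]
    refine Finset.sum_congr ?_ (fun _ _ => rfl)
    ext g
    rw [Finset.mem_filter]
    exact ⟨fun h => ⟨hLam j h, h⟩, fun h => h.2⟩
  have e2 : ∑ j ∈ range (d + 1), wt a b d m c j =
      ∑ g ∈ range m ×ˢ range m, (m - (g.1 + g.2)) * Eg a b g := by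
    rw [Finset.sum_congr rfl (fun j _ => e1 j), Finset.sum_comm]
    refine Finset.sum_congr rfl (fun g _ => ?_)
    rw [← Finset.sum_filter, Finset.sum_const, smul_eq_mul]
    by_cases hg : g.1 + g.2 < m
    · rw [card_levels hm hc g hg]
    · have e3 : (range (d + 1)).filter (fun j => g ∈ Lam d m c j) = ∅ := by
        refine Finset.filter_eq_empty_iff.2 ?_
        intro j _ h
        unfold Lam at h
        rw [Finset.mem_filter] at h
        omega
      rw [e3, Finset.card_empty, Nat.zero_mul, show m - (g.1 + g.2) = 0 by omega, Nat.zero_mul]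
  have e4 : ∑ g ∈ range m ×ˢ range m, (m - (g.1 + g.2)) * Eg a b g =
      ∑ k ∈ range m, ∑ g ∈ antidiagonal k, (m - k) * Eg a b g := by
    have hfib := Finset.sum_fiberwise_of_maps_to (s := (range m ×ˢ range m).filter (fun g => g.1 + g.2 < m))
      (t := range m) (g := fun g : ℕ × ℕ => g.1 + g.2) (by
        intro g hg
        exact Finset.mem_range.2 (Finset.mem_filter.1 hg).2) (fun g => (m - (g.1 + g.2)) * Eg a b g)
    have h1 : ∑ g ∈ (range m ×ˢ range m).filter (fun g => g.1 + g.2 < m), (m - (g.1 + g.2)) * Eg a b g =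
        ∑ g ∈ range m ×ˢ range m, (m - (g.1 + g.2)) * Eg a b g := by
      refine Finset.sum_filter_of_ne ?_
      intro g _ h
      by_contra h'
      exact h (by rw [show m - (g.1 + g.2) = 0 by omega, Nat.zero_mul])
    rw [← h1, ← hfib]
    refine Finset.sum_congr rfl (fun k hk => ?_)
    rw [Finset.mem_range] at hk
    have h2 : ((range m ×ˢ range m).filter (fun g : ℕ × ℕ => g.1 + g.2 < m)).filter (fun g => g.1 + g.2 = k) =
        antidiagonal k := by
      ext g
      rw [Finset.mem_filter, Finset.mem_filter, Finset.mem_product, Finset.mem_range, Finset.mem_range,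
        Finset.HasAntidiagonal.mem_antidiagonal]
      omega
    rw [h2]
    refine Finset.sum_congr rfl (fun g hg => ?_)
    rw [Finset.HasAntidiagonal.mem_antidiagonal.1 hg]
  rw [e2, e4]
  have e5 : ∀ k ∈ range m, ∑ g ∈ antidiagonal k, (m - k) * Eg a b g =
      (m - k) * Nat.multichoose (a + b - 2) k := by
    intro k _
    rw [← Finset.mul_sum]
    unfold Eg
    rw [sum_multichoose, show a - 1 + (b - 1) = a + b - 2 by omega]
  rw [Finset.sum_congr rfl e5, Tot_sum2]
  unfold ell
  rw [show a + b - 2 + 1 = a + b - 1 by omega, show a + b - 2 + m = m + (a + b - 1) - 1 by omega]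

end Pool.Agent.H51.TB

end

section

/-!
# Module D5 (TB): the leading part of the conditions

`Pre a b d m c j = ∑_g Eg g * #{i ≤ j : g ∈ Lam d m c i}` (`|g| < m`).  The `g` with `|g| ≤ m - 2`
contribute at most `(d + 1) * ∑_{|g| ≤ m - 2} Eg g ≤ (d + 1) * ell (a + b - 1) (m - 1)`, which is small
compared with `ell (a + b - 1) m`.  For `|g| = m - 1`: `g ∈ Lam d m c i` iff `i` is in the window
`[gy, d - gx]` and no level of the window has a smaller rank, that is, `i` is the level of the window of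
smallest rank, which is `max gy (min (st c) (d - gx))`.  It is `≤ j` iff `gy ≤ j` and
(`st c ≤ j` or `d - gx ≤ j`), and `d - gx = gy + d + 1 - m`.  By `asy` (for the finitely many `g`)
`Eg g` is about `binom (m-1, gy) / 2^(m-1) * ell (a + b - 1) m`.

Second statement: `bet a b d i = multichoose a (d - i) * multichoose b i` and `asy'`.
-/

namespace Pool.Agent.H51.TB

open Finset Pool.Agent.H18.Ex Pool.Agent.H21.NX Pool.Agent.H18.Ta

private theorem Lead_unif (N : ℕ) (P : ℕ → ℕ → ℕ → Prop)
    (h : ∀ q < N, ∃ ε : ℝ, 0 < ε ∧ ∃ n₀ : ℕ, ∀ a b : ℕ, 1 ≤ a → 1 ≤ b → n₀ ≤ a + b →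
      |(a : ℝ) - b| ≤ ε * (a + b : ℕ) → P q a b) :
    ∃ ε : ℝ, 0 < ε ∧ ∃ n₀ : ℕ, ∀ a b : ℕ, 1 ≤ a → 1 ≤ b → n₀ ≤ a + b →
      |(a : ℝ) - b| ≤ ε * (a + b : ℕ) → ∀ q < N, P q a b := by
  induction N with
  | zero => exact ⟨1, one_pos, 0, fun a b _ _ _ _ q hq => absurd hq (by omega)⟩
  | succ N ih =>
    obtain ⟨ε₁, hε₁, n₁, h₁⟩ := ih fun q hq => h q (by omega)
    obtain ⟨ε₂, hε₂, n₂, h₂⟩ := h N (by omega)
    refine ⟨min ε₁ ε₂, lt_min hε₁ hε₂, max n₁ n₂, fun a b ha hb hn hab q hq => ?_⟩
    have hpos : (0 : ℝ) ≤ (a + b : ℕ) := Nat.cast_nonneg _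
    have e1 : |(a : ℝ) - b| ≤ ε₁ * (a + b : ℕ) :=
      hab.trans (mul_le_mul_of_nonneg_right (min_le_left _ _) hpos)
    have e2 : |(a : ℝ) - b| ≤ ε₂ * (a + b : ℕ) :=
      hab.trans (mul_le_mul_of_nonneg_right (min_le_right _ _) hpos)
    rcases Nat.lt_or_ge q N with hqN | hqN
    · exact h₁ a b ha hb (le_trans (le_max_left _ _) hn) e1 q hqN
    · have : q = N := by omega
      subst this
      exact h₂ a b ha hb (le_trans (le_max_right _ _) hn) e2

private theorem Lead_swap (a b d m : ℕ) (c : ℕ × ℕ) (N : ℕ) :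
    ∑ i ∈ range N, wt a b d m c i =
      ∑ g ∈ range m ×ˢ range m, Eg a b g * ((range N).filter fun i => g ∈ Lam d m c i).card := by
  have h1 : ∀ i, wt a b d m c i = ∑ g ∈ range m ×ˢ range m, if g ∈ Lam d m c i then Eg a b g else 0 := by
    intro i
    unfold wt
    rw [Finset.sum_ite_mem]
    congr 1
    refine (Finset.inter_eq_right.2 ?_).symm
    unfold Lam
    exact Finset.filter_subset _ _
  simp only [h1]
  rw [Finset.sum_comm]
  refine Finset.sum_congr rfl fun g _ => ?_
  rw [← Finset.sum_filter, Finset.sum_const, smul_eq_mul, mul_comm]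

private theorem Lead_mem {d m : ℕ} {c g : ℕ × ℕ} {i : ℕ} : g ∈ Lam d m c i ↔
    g.2 ≤ i ∧ i + g.1 ≤ d ∧ g.1 + g.2 + wr d c g i < m := by
  unfold Lam
  rw [mem_filter, mem_product, mem_range, mem_range]
  constructor
  · exact fun h => h.2
  · exact fun h => ⟨⟨by omega, by omega⟩, h⟩

/-- the level with the smallest rank in a window -/
private theorem Lead_min {d u ρ lo hi i : ℕ} (hc : u + ρ ≤ d) (hlh : lo ≤ hi) (hhi : hi ≤ d) (h1 : lo ≤ i)
    (h2 : i ≤ hi) {x : ℕ} (hx : x = max lo (min (st (u, ρ)) hi)) :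
    rk (d + 1) u ρ x ≤ rk (d + 1) u ρ i := by
  unfold st at hx
  unfold rk
  simp only at hx
  split_ifs at hx ⊢ <;> omega

private theorem Lead_star {d m : ℕ} {c g : ℕ × ℕ} {i : ℕ} (hc : c.1 + c.2 ≤ d) (hm : m ≤ d)
    (hg : g.1 + g.2 + 1 = m) (hi : i ≤ d) :
    g ∈ Lam d m c i ↔ i = max g.2 (min (st c) (d - g.1)) := by
  rw [Lead_mem]
  set x := max g.2 (min (st c) (d - g.1)) with hx
  have hx1 : g.2 ≤ x := le_max_left _ _
  have hx2 : x + g.1 ≤ d := by
    have : x ≤ d - g.1 := max_le (by omega) (min_le_right _ _)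
    omega
  have hmin : ∀ i', g.2 ≤ i' → i' + g.1 ≤ d → rk (d + 1) c.1 c.2 x ≤ rk (d + 1) c.1 c.2 i' := fun i' h1 h2 =>
    Lead_min (lo := g.2) (hi := d - g.1) hc (by omega) (by omega) h1 (by omega) hx
  have hwr : ∀ i', wr d c g i' = 0 ↔ ∀ i'' ≤ d, g.2 ≤ i'' → i'' + g.1 ≤ d →
      ¬ rk (d + 1) c.1 c.2 i'' < rk (d + 1) c.1 c.2 i' := by
    intro i'
    unfold wr
    rw [Finset.card_eq_zero, Finset.filter_eq_empty_iff]
    constructor
    · intro h i'' h1 h2 h3 h4
      exact h (mem_range.2 (by omega)) ⟨h2, h3, h4⟩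
    · intro h i'' h1 h2
      exact h i'' (by rw [mem_range] at h1; omega) h2.1 h2.2.1 h2.2.2
  constructor
  · rintro ⟨h1, h2, h3⟩
    have h4 : wr d c g i = 0 := by omega
    have h5 := (hwr i).1 h4 x (by omega) hx1 hx2
    have h6 := hmin i h1 h2
    exact rk_inj (ℓ := d + 1) (u := c.1) (j := c.2) (by omega) (by omega) (by omega) (by omega)
  · intro hix
    rw [hix]
    have h4 : wr d c g x = 0 := (hwr x).2 fun i'' _ h2 h3 h4 => by
      have := hmin i'' h2 h3
      omega
    exact ⟨hx1, hx2, by omega⟩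

private theorem Lead_card {d m j : ℕ} {c g : ℕ × ℕ} (hc : c.1 + c.2 ≤ d) (hm : m ≤ d)
    (hg : g.1 + g.2 + 1 = m) (hj : j ≤ d) :
    ((range (j + 1)).filter fun i => g ∈ Lam d m c i).card =
      if g.2 ≤ j ∧ (st c ≤ j ∨ g.2 + (d + 1) ≤ j + m) then 1 else 0 := by
  have h1 : ((range (j + 1)).filter fun i => g ∈ Lam d m c i) =
      (range (j + 1)).filter fun i => i = max g.2 (min (st c) (d - g.1)) := by
    refine Finset.filter_congr fun i hi => ?_
    rw [mem_range] at hi
    exact Lead_star hc hm hg (by omega)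
  rw [h1, Finset.filter_eq']
  have h2 : (max g.2 (min (st c) (d - g.1)) ∈ range (j + 1)) ↔
      (g.2 ≤ j ∧ (st c ≤ j ∨ g.2 + (d + 1) ≤ j + m)) := by
    rw [mem_range, Nat.lt_succ_iff, max_le_iff, min_le_iff]
    have : d - g.1 ≤ j ↔ g.2 + (d + 1) ≤ j + m := by omega
    rw [this]
  by_cases h3 : g.2 ≤ j ∧ (st c ≤ j ∨ g.2 + (d + 1) ≤ j + m)
  · rw [if_pos h3, if_pos (h2.2 h3), Finset.card_singleton]
  · rw [if_neg h3, if_neg fun h => h3 (h2.1 h), Finset.card_empty]

private theorem Lead_ratio {n c : ℕ} (hn : 1 ≤ n) : ell n c * (c + n) = ell n (c + 1) * c := by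
  rcases Nat.eq_zero_or_pos c with h | h
  · subst h
    rw [ell_zero hn]; simp
  · unfold ell
    have := Nat.choose_mul_succ_eq (c + n - 1) n
    rw [show c + n - 1 + 1 = c + n by omega, show c + n - n = c by omega] at this
    rw [show c + 1 + n - 1 = c + n by omega]
    exact this

/-- the contribution of the bidegrees `g` with `|g| ≤ m - 2` -/
private theorem Lead_small {a b d m j : ℕ} (ha : 1 ≤ a) (hb : 1 ≤ b) (hm : 1 ≤ m) (hmd : m ≤ d) (hj : j ≤ d)
    {c : ℕ × ℕ} (hc : c.1 + c.2 ≤ d) :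
    ∑ g ∈ (range m ×ˢ range m).filter (fun g => ¬ (g.1 + g.2 + 1 = m)),
      Eg a b g * ((range (j + 1)).filter fun i => g ∈ Lam d m c i).card ≤
      (d + 1) * ell (a + b - 1) (m - 1) := by
  have h1 := sum_wt (d := d) (m := m - 1) ha hb (by omega) hc
  rw [Lead_swap] at h1
  rw [← h1, Finset.mul_sum]
  have h2 : ∑ g ∈ (range m ×ˢ range m).filter (fun g => ¬ (g.1 + g.2 + 1 = m)),
      Eg a b g * ((range (j + 1)).filter fun i => g ∈ Lam d m c i).card ≤
      ∑ g ∈ (range (m - 1) ×ˢ range (m - 1)).filter (fun g => g.1 + g.2 < m - 1),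
      (d + 1) * (Eg a b g * ((range (d + 1)).filter fun i => g ∈ Lam d (m - 1) c i).card) := by
    rw [← Finset.sum_filter_add_sum_filter_not _ (fun g : ℕ × ℕ => g.1 + g.2 < m - 1)]
    have e1 : ∑ g ∈ ((range m ×ˢ range m).filter (fun g => ¬ (g.1 + g.2 + 1 = m))).filter
        (fun g : ℕ × ℕ => ¬ (g.1 + g.2 < m - 1)),
        Eg a b g * ((range (j + 1)).filter fun i => g ∈ Lam d m c i).card = 0 := by
      refine Finset.sum_eq_zero fun g hg => ?_
      simp only [mem_filter, mem_product, mem_range] at hg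
      have : ((range (j + 1)).filter fun i => g ∈ Lam d m c i) = ∅ := by
        rw [Finset.filter_eq_empty_iff]
        intro i _ hi
        rw [Lead_mem] at hi
        omega
      rw [this, Finset.card_empty, mul_zero]
    rw [e1, add_zero]
    have e2 : ((range m ×ˢ range m).filter (fun g => ¬ (g.1 + g.2 + 1 = m))).filter
        (fun g : ℕ × ℕ => g.1 + g.2 < m - 1) =
        (range (m - 1) ×ˢ range (m - 1)).filter (fun g => g.1 + g.2 < m - 1) := by
      ext g
      simp only [mem_filter, mem_product, mem_range]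
      omega
    rw [e2]
    refine Finset.sum_le_sum fun g hg => ?_
    simp only [mem_filter, mem_product, mem_range] at hg
    have e3 := card_levels (d := d) (m := m - 1) (by omega) hc g hg.2
    rw [e3]
    have e4 : ((range (j + 1)).filter fun i => g ∈ Lam d m c i).card ≤ d + 1 := by
      refine (Finset.card_filter_le _ _).trans ?_
      rw [card_range]; omega
    have e5 : 1 ≤ m - 1 - (g.1 + g.2) := by omega
    calc Eg a b g * ((range (j + 1)).filter fun i => g ∈ Lam d m c i).card ≤ Eg a b g * (d + 1) :=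
          Nat.mul_le_mul_left _ e4
      _ = (d + 1) * (Eg a b g * 1) := by ring
      _ ≤ (d + 1) * (Eg a b g * (m - 1 - (g.1 + g.2))) :=
          Nat.mul_le_mul_left _ (Nat.mul_le_mul_left _ e5)
  refine h2.trans (Finset.sum_le_sum_of_subset (Finset.filter_subset _ _))

private theorem Lead_top {a b d m j : ℕ} (hm : 1 ≤ m) (hmd : m ≤ d) (hj : j ≤ d)
    {c : ℕ × ℕ} (hc : c.1 + c.2 ≤ d) :
    ∑ g ∈ (range m ×ˢ range m).filter (fun g => g.1 + g.2 + 1 = m),
      Eg a b g * ((range (j + 1)).filter fun i => g ∈ Lam d m c i).card =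
      ∑ q ∈ range m, Eg a b (m - 1 - q, q) *
        (if q ≤ j ∧ (st c ≤ j ∨ q + (d + 1) ≤ j + m) then 1 else 0) := by
  refine Finset.sum_nbij' (fun g => g.2) (fun q => (m - 1 - q, q)) ?_ ?_ ?_ ?_ ?_
  · intro g hg
    simp only [mem_filter, mem_product, mem_range] at hg ⊢
    exact hg.1.2
  · intro q hq
    simp only [mem_filter, mem_product, mem_range] at hq ⊢
    omega
  · rintro ⟨x, y⟩ hg
    simp only [mem_filter, mem_product, mem_range] at hg ⊢
    rw [Prod.mk.injEq]
    omega
  · intro q hq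
    rfl
  · rintro ⟨x, y⟩ hg
    simp only [mem_filter, mem_product, mem_range] at hg
    have hx : x = m - 1 - y := by omega
    subst hx
    rw [Lead_card hc hmd (by simp only; omega) hj]

theorem lead (d m : ℕ) (hm : 1 ≤ m) (hmd : m ≤ d) (δ : ℝ) (hδ : 0 < δ) :
    ∃ ε : ℝ, 0 < ε ∧ ∃ n₀ : ℕ, ∀ a b : ℕ, 1 ≤ a → 1 ≤ b → n₀ ≤ a + b →
    |(a : ℝ) - b| ≤ ε * (a + b : ℕ) → ∀ c ∈ KK d, ∀ j ≤ d,
    |(Pre a b d m c j : ℝ) - Gl d m (st c) j * (ell (a + b - 1) m : ℝ)| ≤
      δ * (ell (a + b - 1) m : ℝ) := by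
  have hm0 : (0 : ℝ) < m := by exact_mod_cast hm
  obtain ⟨ε, hε, n₀, h⟩ := Lead_unif m (fun q a b =>
    |(Eg a b (m - 1 - q, q) : ℝ) - ((m - 1).choose q : ℝ) / 2 ^ (m - 1) * (ell (a + b - 1) m : ℝ)| ≤
      δ / (2 * m) * (ell (a + b - 1) m : ℝ)) (fun q hq => by
    obtain ⟨ε, hε, n₀, h⟩ := asy (m - 1 - q) q (δ / (2 * m)) (by positivity)
    refine ⟨ε, hε, n₀, fun a b ha hb hn hab => ?_⟩
    have := h a b ha hb hn hab
    rw [show m - 1 - q + q = m - 1 by omega, show m - 1 + 1 = m by omega] at this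
    exact this)
  obtain ⟨N, hN⟩ := exists_nat_ge (2 * (d + 1) * d / δ : ℝ)
  refine ⟨ε, hε, max n₀ (N + 2), fun a b ha hb hn hab c hc j hj => ?_⟩
  rw [mem_KK] at hc
  have hq := h a b ha hb (le_trans (le_max_left _ _) hn) hab
  have hn2 : N + 2 ≤ a + b := le_trans (le_max_right _ _) hn
  set n := a + b - 1 with hndef
  set L : ℝ := (ell n m : ℝ) with hL
  have hL0 : 0 ≤ L := Nat.cast_nonneg _
  -- the decomposition
  have hPre : (Pre a b d m c j : ℝ) =
      ((∑ q ∈ range m, Eg a b (m - 1 - q, q) *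
        (if q ≤ j ∧ (st c ≤ j ∨ q + (d + 1) ≤ j + m) then 1 else 0) : ℕ) : ℝ) +
      ((∑ g ∈ (range m ×ˢ range m).filter (fun g => ¬ (g.1 + g.2 + 1 = m)),
        Eg a b g * ((range (j + 1)).filter fun i => g ∈ Lam d m c i).card : ℕ) : ℝ) := by
    unfold Pre
    rw [Lead_swap, ← Finset.sum_filter_add_sum_filter_not _ (fun g : ℕ × ℕ => g.1 + g.2 + 1 = m),
      Lead_top hm hmd hj hc, Nat.cast_add]
  have hsmall := Lead_small ha hb hm hmd hj hc
  set Bn : ℕ := ∑ g ∈ (range m ×ˢ range m).filter (fun g => ¬ (g.1 + g.2 + 1 = m)),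
        Eg a b g * ((range (j + 1)).filter fun i => g ∈ Lam d m c i).card with hBn
  have hB1 : (Bn : ℝ) ≤ (d + 1) * (ell n (m - 1) : ℝ) := by exact_mod_cast hsmall
  have hn1 : 1 ≤ n := by omega
  have hnR : (0 : ℝ) < n := by exact_mod_cast hn1
  have hratio : (ell n (m - 1) : ℝ) * n ≤ L * d := by
    have h1 := Lead_ratio (c := m - 1) hn1
    rw [show m - 1 + 1 = m by omega] at h1
    have h2 : ell n (m - 1) * n ≤ ell n m * d := by
      calc ell n (m - 1) * n ≤ ell n (m - 1) * (m - 1 + n) := Nat.mul_le_mul_left _ (by omega)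
        _ = ell n m * (m - 1) := h1
        _ ≤ ell n m * d := Nat.mul_le_mul_left _ (by omega)
    rw [hL]
    exact_mod_cast h2
  have hNn : (2 * (d + 1) * d / δ : ℝ) ≤ n := by
    refine hN.trans ?_
    exact_mod_cast (by omega : N ≤ n)
  have hB2 : (Bn : ℝ) ≤ δ / 2 * L := by
    rw [div_le_iff₀ hδ] at hNn
    have h1 : (d + 1) * (ell n (m - 1) : ℝ) * n ≤ δ / 2 * L * n := by
      calc (d + 1) * (ell n (m - 1) : ℝ) * n = (d + 1) * ((ell n (m - 1) : ℝ) * n) := by ring
        _ ≤ (d + 1) * (L * d) := by gcongr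
        _ = L * (2 * (d + 1) * d) / 2 := by ring
        _ ≤ L * (n * δ) / 2 := by gcongr
        _ = δ / 2 * L * n := by ring
    have h2 : (d + 1) * (ell n (m - 1) : ℝ) ≤ δ / 2 * L := le_of_mul_le_mul_right h1 hnR
    exact hB1.trans h2
  have hA : |((∑ q ∈ range m, Eg a b (m - 1 - q, q) *
        (if q ≤ j ∧ (st c ≤ j ∨ q + (d + 1) ≤ j + m) then 1 else 0) : ℕ) : ℝ) - Gl d m (st c) j * L| ≤
      δ / 2 * L := by
    have e1 : Gl d m (st c) j * L = ∑ q ∈ range m,
        (if q ≤ j ∧ (st c ≤ j ∨ q + (d + 1) ≤ j + m) then ((m - 1).choose q : ℝ) / 2 ^ (m - 1) * L else 0) := by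
      unfold Gl
      rw [Finset.sum_div, Finset.sum_mul]
      refine Finset.sum_congr rfl fun q _ => ?_
      split_ifs <;> simp
    rw [e1]
    push_cast
    rw [← Finset.sum_sub_distrib]
    refine (Finset.abs_sum_le_sum_abs _ _).trans ?_
    calc ∑ q ∈ range m, |(Eg a b (m - 1 - q, q) : ℝ) *
          (if q ≤ j ∧ (st c ≤ j ∨ q + (d + 1) ≤ j + m) then 1 else 0) -
          (if q ≤ j ∧ (st c ≤ j ∨ q + (d + 1) ≤ j + m) then ((m - 1).choose q : ℝ) / 2 ^ (m - 1) * L else 0)|
        ≤ ∑ q ∈ range m, δ / (2 * m) * L := by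
          refine Finset.sum_le_sum fun q hq' => ?_
          rw [mem_range] at hq'
          split_ifs
          · rw [mul_one]; exact hq q hq'
          · rw [mul_zero, sub_zero, abs_zero]; positivity
      _ = δ / 2 * L := by
          rw [Finset.sum_const, card_range, nsmul_eq_mul]
          field_simp
  rw [hPre, abs_le]
  rw [abs_le] at hA
  have hBn0 : (0 : ℝ) ≤ Bn := Nat.cast_nonneg _
  constructor <;> linarith

theorem lead_bet (d : ℕ) (δ : ℝ) (hδ : 0 < δ) :
    ∃ ε : ℝ, 0 < ε ∧ ∃ n₀ : ℕ, ∀ a b : ℕ, 1 ≤ a → 1 ≤ b → n₀ ≤ a + b →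
    |(a : ℝ) - b| ≤ ε * (a + b : ℕ) → ∀ j ≤ d,
    |((∑ i ∈ range (j + 1), bet a b d i : ℕ) : ℝ) - Phi d j * (ell (a + b - 1) (d + 1) : ℝ)| ≤
      δ * (ell (a + b - 1) (d + 1) : ℝ) := by
  obtain ⟨ε, hε, n₀, h⟩ := Lead_unif (d + 1) (fun q a b =>
    |(bet a b d q : ℝ) - (d.choose q : ℝ) / 2 ^ d * (ell (a + b - 1) (d + 1) : ℝ)| ≤
      δ / (d + 1) * (ell (a + b - 1) (d + 1) : ℝ)) (fun q hq => by
    obtain ⟨ε, hε, n₀, h⟩ := asy' (d - q) q (δ / (d + 1)) (by positivity)
    refine ⟨ε, hε, n₀, fun a b ha hb hn hab => ?_⟩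
    have := h a b ha hb hn hab
    rw [show d - q + q = d by omega] at this
    exact this)
  refine ⟨ε, hε, n₀, fun a b ha hb hn hab j hj => ?_⟩
  have hq := h a b ha hb hn hab
  set L : ℝ := (ell (a + b - 1) (d + 1) : ℝ) with hL
  have hL0 : 0 ≤ L := Nat.cast_nonneg _
  have e1 : Phi d j * L = ∑ i ∈ range (j + 1), (d.choose i : ℝ) / 2 ^ d * L := by
    unfold Phi
    rw [Finset.sum_div, Finset.sum_mul]
  rw [e1]
  push_cast
  rw [← Finset.sum_sub_distrib]
  refine (Finset.abs_sum_le_sum_abs _ _).trans ?_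
  calc ∑ i ∈ range (j + 1), |(bet a b d i : ℝ) - (d.choose i : ℝ) / 2 ^ d * L|
      ≤ ∑ i ∈ range (j + 1), δ / (d + 1) * L := by
        refine Finset.sum_le_sum fun i hi => ?_
        rw [mem_range] at hi
        exact hq i (by omega)
    _ = (j + 1 : ℕ) * (δ / (d + 1) * L) := by
        rw [Finset.sum_const, card_range, nsmul_eq_mul]
    _ ≤ (d + 1 : ℕ) * (δ / (d + 1) * L) := by
        refine mul_le_mul_of_nonneg_right ?_ (by positivity)
        exact_mod_cast (by omega : j + 1 ≤ d + 1)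
    _ = δ * L := by push_cast; field_simp

end Pool.Agent.H51.TB

end

section

/-!
# Project TB, second stage: definitions

`ASys A`: all conditions on the forms with exponents in `A` (`LSys a b d j = ASys (Bx a b d j)`).
`Bu a b d j o e`: the exponents of the level `j` with exponent at most `e` at the `X`-variable `o`.  These
are the exponents of the forms vanishing to order `d - e` at the coordinate point `o`.
-/

namespace Pool.Agent.H51.TB

open Finset MvPolynomial Pool.Agent.H18.Ex Pool.Agent.H21.NX Pool.Agent.H18.Ta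

/-- The system of all conditions on the forms with exponents in `A`. -/
noncomputable def ASys {a b : ℕ} (A : Finset (Z a b → ℕ)) :
    Sys {α // α ∈ A} (Z a b) (Finset (ℕ × ℕ)) where
  R := fun Λ => {β : Z a b → ℕ // (xd β, yd β) ∈ Λ}
  fin := finite_idx a b
  co := fun _ β α => tcr (fun i => (X i : MvPolynomial (Z a b) ℂ)) α.1 β.1

theorem ASys_Bx (a b d j : ℕ) : ASys (Bx a b d j) = LSys a b d j := rfl

/-- The exponents of the level `j` with exponent at most `e` at the variable `o`. -/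
def Bu (a b d j : ℕ) (o : Fin a) (e : ℕ) : Finset (Z a b → ℕ) :=
  (Bx a b d j).filter fun α => α (Sum.inl o) ≤ e

/-- Sections: forms whose coefficients are polynomials in the positions of the points and which
satisfy the conditions identically. -/
def Sec {a b : ℕ} {κ : Type} (A : Finset (Z a b → ℕ)) (m : κ → Finset (ℕ × ℕ))
    (F : (Z a b → ℕ) → MvPolynomial (κ × Z a b) ℂ) : Prop :=
  ∀ i (β : Z a b → ℕ), (xd β, yd β) ∈ m i → ∑ α ∈ A, F α * tcr (fun v => X (i, v)) α β = 0

/-- The exponent `α + e_c - e_o`. -/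
def sh {a b : ℕ} (o c : Fin a) (α : Z a b → ℕ) : Z a b → ℕ :=
  Function.update (Function.update α (Sum.inl o) (α (Sum.inl o) - 1)) (Sum.inl c)
    (α (Sum.inl c) + 1)

/-- The Lie derivative along the vector field `x_o ∂/∂x_c` (on the positions and on the forms). -/
noncomputable def Lie {a b : ℕ} {κ : Type} [Fintype κ] (o c : Fin a)
    (F : (Z a b → ℕ) → MvPolynomial (κ × Z a b) ℂ) :
    (Z a b → ℕ) → MvPolynomial (κ × Z a b) ℂ := fun α =>
  (∑ i : κ, X (i, Sum.inl o) * pderiv (i, Sum.inl c) (F α)) +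
    if 1 ≤ α (Sum.inl o) then ((α (Sum.inl c) + 1 : ℕ) : MvPolynomial (κ × Z a b) ℂ) * F (sh o c α)
    else 0

end Pool.Agent.H51.TB

end
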