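import Pool.Agent.H94.LP2.M07
import Pool.Agent.H94.LP2.M09
import Pool.Agent.H94.LP2.M13

/-! The parts of this file: H18.Ex.Final, H18.FatLin_2, H51.TB.LieD, H51.TB.UPt, H51.TB.URank. -/

section

/-!
# Module Final: translation to fat points in projective space
-/

namespace Pool.Agent.H18.Ex

open Finset Pool.Agent.H18.Fat

/-- The coefficient function of a polynomial. -/
noncomputable def cf {n : ℕ} (F : MvPolynomial (Fin n) ℂ) (a : Fin n → ℕ) : ℂ :=
  F.coeff (Finsupp.equivFunOnFinite.symm a)

/-- The condition at a free point from the order of vanishing. -/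
theorem sat_of_vanishes {n d : ℕ} {w : Fin n → ℕ} {F : MvPolynomial (Fin n) ℂ}
    (hsupp : ∀ α ∈ F.support, ⇑α ∈ Rg d w) {q : Fin n → ℂ} {m : ℕ}
    (h : VanishesToOrder F q m) : Sat (Rg d w) (cf F) (Kind.free m) q := by
  intro b hb
  have h1 := h (Finsupp.equivFunOnFinite.symm b) (by
    rw [Finsupp.degree_eq_sum]
    exact hb)
  rw [coeff_shift] at h1
  rw [← h1]
  symm
  apply sum_bij_ne_zero (fun (α : Fin n →₀ ℕ) _ _ => (⇑α : Fin n → ℕ))
  · intro α hα _
    exact hsupp α hα
  · intro α _ _ β _ _ hαβ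
    exact DFunLike.coe_injective hαβ
  · intro a _ hne
    refine ⟨Finsupp.equivFunOnFinite.symm a, ?_, ?_, ?_⟩
    · rw [MvPolynomial.mem_support_iff]
      intro h0
      apply hne
      unfold cf
      rw [h0, zero_mul]
    · exact hne
    · rfl
  · intro α _ _
    unfold cf tcr tc
    congr 1
    rw [show Finsupp.equivFunOnFinite.symm (⇑α) = α from by ext; rfl]

end Pool.Agent.H18.Ex

end

section

namespace Pool.Agent.H18.Fat

open MvPolynomial Finset

section

variable {ι : Type*} [Fintype ι]

/-- The matrix of the linear conditions imposed by the fat points. -/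
noncomputable def condMat (r d : ℕ) (p : ι → Fin (r + 1) → ℂ) (m : ι → ℕ) :
    Matrix (Cond r m) (mons (r + 1) d) ℂ :=
  fun x α => tc (p x.1) α.1 x.2.1

omit [Fintype ι] in
theorem toPoly_mem_fatForms {r d : ℕ} {p : ι → Fin (r + 1) → ℂ} (hp : ∀ i, p i 0 ≠ 0)
    (m : ι → ℕ) (f : mons (r + 1) d → ℂ) :
    toPoly (r + 1) d f ∈ fatForms r d p m ↔ (condMat r d p m).mulVec f = 0 := by
  constructor
  · intro h
    funext x
    have h1 := h.2 x.1 x.2.1 (mem_aff.1 x.2.2).2
    rw [coeff_shift_toPoly] at h1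
    rw [Pi.zero_apply, ← h1]
    unfold Matrix.mulVec dotProduct condMat
    exact sum_congr rfl fun α _ => mul_comm _ _
  · intro h
    refine ⟨toPoly_isHomogeneous f, fun i => ?_⟩
    apply vanishes_of_affine (hp i)
    intro β h0 hdeg
    have h1 := congrFun h ⟨i, β, mem_aff.2 ⟨h0, hdeg⟩⟩
    rw [coeff_shift_toPoly]
    rw [Pi.zero_apply] at h1
    rw [← h1]
    unfold Matrix.mulVec dotProduct condMat
    exact sum_congr rfl fun α _ => mul_comm _ _

theorem fatForms_eq_map {r d : ℕ} {p : ι → Fin (r + 1) → ℂ} (hp : ∀ i, p i 0 ≠ 0)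
    (m : ι → ℕ) :
    fatForms r d p m = Submodule.map (toPoly (r + 1) d)
      (LinearMap.ker (condMat r d p m).mulVecLin) := by
  ext F
  constructor
  · intro h
    refine ⟨fun α => coeff α.1 F, ?_, exists_toPoly h.1⟩
    rw [SetLike.mem_coe, LinearMap.mem_ker, Matrix.mulVecLin_apply]
    rw [← toPoly_mem_fatForms hp, exists_toPoly h.1]
    exact h
  · rintro ⟨f, hf, rfl⟩
    rw [SetLike.mem_coe, LinearMap.mem_ker, Matrix.mulVecLin_apply] at hf
    exact (toPoly_mem_fatForms hp m f).2 hf

theorem finrank_fatForms_eq {r d : ℕ} {p : ι → Fin (r + 1) → ℂ} (hp : ∀ i, p i 0 ≠ 0)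
    (m : ι → ℕ) :
    Module.finrank ℂ (fatForms r d p m) =
      Module.finrank ℂ (LinearMap.ker (condMat r d p m).mulVecLin) := by
  rw [fatForms_eq_map hp]
  exact (Submodule.equivMapOfInjective _ (toPoly_injective _ _) _).finrank_eq.symm

theorem rank_add_finrank {r d : ℕ} {p : ι → Fin (r + 1) → ℂ} (hp : ∀ i, p i 0 ≠ 0)
    (m : ι → ℕ) :
    Module.finrank ℂ (LinearMap.range (condMat r d p m).mulVecLin) +
      Module.finrank ℂ (fatForms r d p m) = (d + r).choose r := by
  rw [finrank_fatForms_eq hp, LinearMap.finrank_range_add_finrank_ker, Module.finrank_fintype_fun_eq_card,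
    Fintype.card_coe, card_mons]

theorem finrank_range_le {r : ℕ} (d : ℕ) (hr : 1 ≤ r) (p : ι → Fin (r + 1) → ℂ) (m : ι → ℕ) :
    Module.finrank ℂ (LinearMap.range (condMat r d p m).mulVecLin) ≤
      ∑ i, (m i + r - 1).choose r := by
  rw [← card_cond hr m, ← Module.finrank_fintype_fun_eq_card (R := ℂ)]
  exact Submodule.finrank_le _

/-- Every fat point scheme imposes at most its length many conditions. -/
theorem finrank_fatForms_ge {r d : ℕ} (hr : 1 ≤ r) {p : ι → Fin (r + 1) → ℂ}
    (hp : ∀ i, p i 0 ≠ 0) (m : ι → ℕ) :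
    ((d + r).choose r : ℤ) - ∑ i, ((m i + r - 1).choose r : ℤ) ≤
      Module.finrank ℂ (fatForms r d p m) := by
  have h1 := rank_add_finrank (d := d) hp m
  have h2 := finrank_range_le d hr p m
  have h3 : ((∑ i, (m i + r - 1).choose r : ℕ) : ℤ) = ∑ i, ((m i + r - 1).choose r : ℤ) := by
    push_cast
    rfl
  rw [← h3]
  omega

end

end Pool.Agent.H18.Fat

end

section

/-!
# Module U2 (TB2): the Lie derivative of a section

Let `T i β = ∑_α F α * tcr (X_i) α β` (`α` in `Bu a b d j o e`; equivalently in `Bx a b d j`, as `F α = 0` for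
`α_o > k`).  For `(xd β, yd β) ∈ m i`: `T i β = 0`.  Apply `pderiv (i', c)`: since
`pderiv (i', c) (tcr (X_i) α β) = [i' = i] (β_c + 1) * tcr (X_i) α (β + e_c)` one gets
`∑_α (pderiv (i', c) (F α)) * tcr (X_i) α β = - [i' = i] (β_c + 1) * T i (β + e_c)`.  Multiply by
`X (i', o)` and sum over `i'`: the first part of `Lie` contributes `- X (i, o) (β_c + 1) T i (β + e_c)`.
For the second part use, with `α = α' - e_c + e_o` (i.e. `α' = sh o c α`, `α'_c ≥ 1`),
`α'_c * tcr q (α' - e_c + e_o) β = (β_c + 1) * (q_o * tcr q α' (β + e_c) + [β_o ≥ 1] tcr q α' (β + e_c - e_o))`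
(`tcr_shift` below; `binom (α'_o + 1, β_o) = binom (α'_o, β_o) + binom (α'_o, β_o - 1)`).
As `α'` runs over the exponents of the level with `α'_c ≥ 1` (those with `α'_o > k` do not contribute,
the others give `α_o ≤ k + 1 ≤ e`), the second part contributes
`(β_c + 1) (X (i, o) T i (β + e_c) + T i (β + e_c - e_o))`, and the last term vanishes since
`β + e_c - e_o` has the same bidegree as `β`.
-/

namespace Pool.Agent.H51.TB

open Finset MvPolynomial Pool.Agent.H18.Ex Pool.Agent.H21.NX Pool.Agent.H18.Ta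

private theorem LieD_prod_zero {a b : ℕ} {κ : Type} (i i' : κ) (c : Fin a)
    (n m : Z a b → ℕ) (s : Finset (Z a b)) (hs : ∀ v ∈ s, (i', (Sum.inl c : Z a b)) ≠ (i, v)) :
    pderiv (i', (Sum.inl c : Z a b))
      (∏ v ∈ s, ((m v : ℕ) : MvPolynomial (κ × Z a b) ℂ) * X (i, v) ^ n v) = 0 := by
  induction s using Finset.induction_on with
  | empty => rw [Finset.prod_empty]; exact Derivation.map_one_eq_zero _
  | insert v s hv ih =>
    rw [Finset.prod_insert hv, pderiv_mul, ih fun w hw => hs w (Finset.mem_insert_of_mem hw),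
      mul_zero, add_zero, pderiv_mul, pderiv_pow,
      pderiv_X_of_ne (Ne.symm (hs v (Finset.mem_insert_self v s))), mul_zero, mul_zero, add_zero,
      Derivation.map_natCast, zero_mul, zero_mul]

private theorem LieD_up {a b : ℕ} (c : Z a b) (β : Z a b → ℕ) :
    β + Pi.single c 1 = Function.update β c (β c + 1) := by
  funext v
  by_cases hv : v = c
  · subst hv
    simp
  · simp [hv]

/-- `pderiv` of a Taylor coefficient. -/
theorem pderiv_tcr {a b : ℕ} {κ : Type} (i i' : κ) (c : Fin a) (α β : Z a b → ℕ) :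
    pderiv (i', Sum.inl c) (tcr (fun v => (X (i, v) : MvPolynomial (κ × Z a b) ℂ)) α β) =
      open Classical in if i' = i then ((β (Sum.inl c) + 1 : ℕ) : MvPolynomial (κ × Z a b) ℂ) *
        tcr (fun v => X (i, v)) α (β + Pi.single (Sum.inl c) 1) else 0 := by
  classical
  by_cases hi : i' = i
  · subst hi
    rw [if_pos rfl, LieD_up, tcr_eq _ α β (Sum.inl c), tcr_eq _ α _ (Sum.inl c),
      rest_congr (q' := fun v => (X (i', v) : MvPolynomial (κ × Z a b) ℂ)) (a := α) (a' := α)
        (b := Function.update β (Sum.inl c) (β (Sum.inl c) + 1)) (b' := β) (l := Sum.inl c)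
        (fun _ _ => rfl) (fun _ _ => rfl) (update_other β (Sum.inl c) _),
      Function.update_self, pderiv_mul,
      LieD_prod_zero i' i' c (fun v => α v - β v) (fun v => (α v).choose (β v))
        (univ.erase (Sum.inl c)) ?_, mul_zero, add_zero, pderiv_mul, pderiv_pow, pderiv_X_self,
      Derivation.map_natCast, zero_mul, zero_add]
    · have h1 := Nat.choose_succ_right_eq (α (Sum.inl c)) (β (Sum.inl c))
      have h2 : (((α (Sum.inl c)).choose (β (Sum.inl c)) : ℕ) : MvPolynomial (κ × Z a b) ℂ) *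
          ((α (Sum.inl c) - β (Sum.inl c) : ℕ) : MvPolynomial (κ × Z a b) ℂ) =
          (((α (Sum.inl c)).choose (β (Sum.inl c) + 1) : ℕ) : MvPolynomial (κ × Z a b) ℂ) *
          ((β (Sum.inl c) + 1 : ℕ) : MvPolynomial (κ × Z a b) ℂ) := by
        rw [← Nat.cast_mul, ← Nat.cast_mul, h1]
      have h3 : α (Sum.inl c) - β (Sum.inl c) - 1 = α (Sum.inl c) - (β (Sum.inl c) + 1) := by
        omega
      rw [h3]
      linear_combination (X (i', (Sum.inl c : Z a b)) ^ (α (Sum.inl c) - (β (Sum.inl c) + 1)) *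
        ∏ i ∈ univ.erase (Sum.inl c), (((α i).choose (β i) : ℕ) : MvPolynomial (κ × Z a b) ℂ) *
          X (i', i) ^ (α i - β i)) * h2
    · intro v hv h
      exact (ne_of_mem_erase hv) (Prod.mk.inj h).2.symm
  · rw [if_neg hi]
    exact LieD_prod_zero i i' c (fun v => α v - β v) (fun v => (α v).choose (β v)) univ
      fun v _ h => hi (Prod.mk.inj h).1

private theorem LieD_c {R : Type*} [CommRing R] {a b : ℕ} (c : Z a b) (q : Z a b → R)
    (α β : Z a b → ℕ) :
    ((α c + 1 : ℕ) : R) * tcr q α β = ((β c + 1 : ℕ) : R) *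
      tcr q (Function.update α c (α c + 1)) (Function.update β c (β c + 1)) := by
  rw [tcr_eq q α β c, tcr_eq q _ (Function.update β c (β c + 1)) c,
    rest_congr (q' := q) (a := Function.update α c (α c + 1)) (a' := α)
      (b := Function.update β c (β c + 1)) (b' := β) (l := c) (fun _ _ => rfl)
      (update_other α c _) (update_other β c _), Function.update_self, Function.update_self,
    Nat.add_sub_add_right]
  have h1 := Nat.add_one_mul_choose_eq (α c) (β c)
  have h2 : ((α c + 1 : ℕ) : R) * (((α c).choose (β c) : ℕ) : R) =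
      (((α c + 1).choose (β c + 1) : ℕ) : R) * ((β c + 1 : ℕ) : R) := by
    rw [← Nat.cast_mul, ← Nat.cast_mul]
    exact congrArg _ h1
  linear_combination (q c ^ (α c - β c) *
    ∏ i ∈ univ.erase c, (((α i).choose (β i) : ℕ) : R) * q i ^ (α i - β i)) * h2

/-- The binomial identity. -/
theorem tcr_shift {R : Type*} [CommRing R] {a b : ℕ} (o c : Fin a) (hoc : c ≠ o) (q : Z a b → R)
    (α β : Z a b → ℕ) (hα : 1 ≤ α (Sum.inl o)) :
    ((α (Sum.inl c) + 1 : ℕ) : R) * tcr q α β =
      ((β (Sum.inl c) + 1 : ℕ) : R) *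
        (q (Sum.inl o) * tcr q (sh o c α) (β + Pi.single (Sum.inl c) 1) +
          if 1 ≤ β (Sum.inl o) then tcr q (sh o c α) (sh o c β) else 0) := by
  have hne : (Sum.inl c : Z a b) ≠ Sum.inl o := fun h => hoc (Sum.inl.inj h)
  have hup : Function.update (Function.update α (Sum.inl o) (α (Sum.inl o) - 1)) (Sum.inl o)
      (Function.update α (Sum.inl o) (α (Sum.inl o) - 1) (Sum.inl o) + 1) = α := by
    rw [Function.update_self, Function.update_idem, Nat.sub_add_cancel hα,
      Function.update_eq_self]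
  have hac : Function.update α (Sum.inl o) (α (Sum.inl o) - 1) (Sum.inl c) = α (Sum.inl c) :=
    Function.update_of_ne hne _ _
  have hsh : Function.update (Function.update α (Sum.inl o) (α (Sum.inl o) - 1)) (Sum.inl c)
      (Function.update α (Sum.inl o) (α (Sum.inl o) - 1) (Sum.inl c) + 1) = sh o c α := by
    rw [hac]
    rfl
  have h1 := LieD_c (Sum.inl c) q (Function.update α (Sum.inl o) (α (Sum.inl o) - 1)) β
  rw [hsh, hac] at h1
  rw [LieD_up]
  split_ifs with hβ
  · have hupb : Function.update (Function.update β (Sum.inl o) (β (Sum.inl o) - 1)) (Sum.inl o)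
        (Function.update β (Sum.inl o) (β (Sum.inl o) - 1) (Sum.inl o) + 1) = β := by
      rw [Function.update_self, Function.update_idem, Nat.sub_add_cancel hβ,
        Function.update_eq_self]
    have hbc : Function.update β (Sum.inl o) (β (Sum.inl o) - 1) (Sum.inl c) = β (Sum.inl c) :=
      Function.update_of_ne hne _ _
    have hshb : Function.update (Function.update β (Sum.inl o) (β (Sum.inl o) - 1)) (Sum.inl c)
        (Function.update β (Sum.inl o) (β (Sum.inl o) - 1) (Sum.inl c) + 1) = sh o c β := by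
      rw [hbc]
      rfl
    have h2 := LieD_c (Sum.inl c) q (Function.update α (Sum.inl o) (α (Sum.inl o) - 1))
      (Function.update β (Sum.inl o) (β (Sum.inl o) - 1))
    rw [hsh, hshb, hac, hbc] at h2
    have h3 := tcr_up_up q (Function.update α (Sum.inl o) (α (Sum.inl o) - 1))
      (Function.update β (Sum.inl o) (β (Sum.inl o) - 1)) (Sum.inl o)
    rw [hup, hupb] at h3
    rw [h3]
    linear_combination q (Sum.inl o) * h1 + h2
  · have h3 := tcr_up_zero q (Function.update α (Sum.inl o) (α (Sum.inl o) - 1)) β (Sum.inl o)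
      (by omega)
    rw [hup] at h3
    rw [h3, add_zero]
    linear_combination q (Sum.inl o) * h1

private theorem LieD_sh_add {a b : ℕ} (o c : Fin a) (hoc : c ≠ o) (α : Z a b → ℕ)
    (hα : 1 ≤ α (Sum.inl o)) (v : Z a b) :
    sh o c α v + (if v = Sum.inl o then 1 else 0) = α v + (if v = Sum.inl c then 1 else 0) := by
  have hne : (Sum.inl c : Z a b) ≠ Sum.inl o := fun h => hoc (Sum.inl.inj h)
  unfold sh
  by_cases h1 : v = Sum.inl c
  · rw [h1, Function.update_self, if_neg hne, if_pos rfl]
  · rw [Function.update_of_ne h1, if_neg h1]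
    by_cases h2 : v = Sum.inl o
    · rw [h2, Function.update_self, if_pos rfl]
      omega
    · rw [Function.update_of_ne h2, if_neg h2]

private theorem LieD_xd {a b : ℕ} (o c : Fin a) (hoc : c ≠ o) (α : Z a b → ℕ)
    (hα : 1 ≤ α (Sum.inl o)) : xd (sh o c α) = xd α := by
  have h1 : ∑ i : Fin a, (sh o c α (Sum.inl i) + (if i = o then 1 else 0)) =
      ∑ i : Fin a, (α (Sum.inl i) + (if i = c then 1 else 0)) := by
    refine sum_congr rfl fun i _ => ?_
    have h := LieD_sh_add o c hoc α hα (Sum.inl i)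
    rw [if_congr (Sum.inl_injective.eq_iff (a := i) (b := o)) rfl rfl,
      if_congr (Sum.inl_injective.eq_iff (a := i) (b := c)) rfl rfl] at h
    exact h
  rw [sum_add_distrib, sum_add_distrib, sum_ite_eq' univ o, sum_ite_eq' univ c,
    if_pos (mem_univ _), if_pos (mem_univ _)] at h1
  unfold xd
  omega

private theorem LieD_yd {a b : ℕ} (o c : Fin a) (α : Z a b → ℕ) : yd (sh o c α) = yd α := by
  unfold yd sh
  refine sum_congr rfl fun i _ => ?_
  rw [Function.update_of_ne Sum.inr_ne_inl, Function.update_of_ne Sum.inr_ne_inl]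

private theorem LieD_o {a b : ℕ} (o c : Fin a) (hoc : c ≠ o) (α : Z a b → ℕ) :
    sh o c α (Sum.inl o) = α (Sum.inl o) - 1 := by
  unfold sh
  rw [Function.update_of_ne (fun h => hoc (Sum.inl.inj h).symm), Function.update_self]

private theorem LieD_cc {a b : ℕ} (o c : Fin a) (α : Z a b → ℕ) :
    sh o c α (Sum.inl c) = α (Sum.inl c) + 1 := by
  unfold sh
  rw [Function.update_self]

private theorem LieD_inv {a b : ℕ} (o c : Fin a) (hoc : c ≠ o) (α : Z a b → ℕ)
    (hα : 1 ≤ α (Sum.inl o)) : sh c o (sh o c α) = α := by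
  funext v
  have h1 := LieD_sh_add o c hoc α hα v
  have h2 := LieD_sh_add c o hoc.symm (sh o c α) (by rw [LieD_cc]; omega) v
  omega

private theorem LieD_tcr_zero {R : Type*} [CommRing R] {a b : ℕ} (c : Z a b) (q : Z a b → R)
    (α β : Z a b → ℕ) (h : α c < β c) : tcr q α β = 0 := by
  rw [tcr_eq q α β c, Nat.choose_eq_zero_of_lt h, Nat.cast_zero, zero_mul, zero_mul]

theorem lie_sec {a b d j e k : ℕ} {κ : Type} [Fintype κ] (o c : Fin a) (hoc : c ≠ o) (hk : k < e)
    (m : κ → Finset (ℕ × ℕ)) (F : (Z a b → ℕ) → MvPolynomial (κ × Z a b) ℂ)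
    (hF : Sec (Bu a b d j o e) m F)
    (h0 : ∀ α ∈ Bx a b d j, k < α (Sum.inl o) → F α = 0) :
    Sec (Bu a b d j o e) m (Lie o c F) := by
  classical
  intro i β hβ
  have hT := hF i β hβ
  -- the first part
  have h1 : ∀ i' : κ, ∑ α ∈ Bu a b d j o e, pderiv (i', Sum.inl c) (F α) *
      tcr (fun v => X (i, v)) α β = - (if i' = i then
        ((β (Sum.inl c) + 1 : ℕ) : MvPolynomial (κ × Z a b) ℂ) *
          ∑ α ∈ Bu a b d j o e, F α * tcr (fun v => X (i, v)) α (β + Pi.single (Sum.inl c) 1)
        else 0) := by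
    intro i'
    have h2 : pderiv (i', (Sum.inl c : Z a b)) (∑ α ∈ Bu a b d j o e, F α *
        tcr (fun v => (X (i, v) : MvPolynomial (κ × Z a b) ℂ)) α β) = 0 := by
      rw [hT, map_zero]
    rw [map_sum] at h2
    have h3 : ∀ α ∈ Bu a b d j o e, pderiv (i', (Sum.inl c : Z a b)) (F α *
        tcr (fun v => (X (i, v) : MvPolynomial (κ × Z a b) ℂ)) α β) =
        pderiv (i', Sum.inl c) (F α) * tcr (fun v => X (i, v)) α β +
          (if i' = i then ((β (Sum.inl c) + 1 : ℕ) : MvPolynomial (κ × Z a b) ℂ) *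
            (F α * tcr (fun v => X (i, v)) α (β + Pi.single (Sum.inl c) 1)) else 0) := by
      intro α _
      rw [pderiv_mul, pderiv_tcr]
      split_ifs
      · ring
      · rw [mul_zero]
    rw [sum_congr rfl h3, sum_add_distrib] at h2
    rw [eq_neg_of_add_eq_zero_left h2]
    congr 1
    by_cases hi : i' = i
    · rw [if_pos hi, mul_sum]
      exact sum_congr rfl fun α _ => by rw [if_pos hi]
    · rw [if_neg hi]
      exact sum_eq_zero fun α _ => by rw [if_neg hi]
  have hA : ∑ α ∈ Bu a b d j o e, (∑ i' : κ, X (i', Sum.inl o) * pderiv (i', Sum.inl c) (F α)) *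
      tcr (fun v => X (i, v)) α β = - (X (i, Sum.inl o) *
        (((β (Sum.inl c) + 1 : ℕ) : MvPolynomial (κ × Z a b) ℂ) *
        ∑ α ∈ Bu a b d j o e, F α * tcr (fun v => X (i, v)) α (β + Pi.single (Sum.inl c) 1))) := by
    have h2 : ∑ α ∈ Bu a b d j o e,
        (∑ i' : κ, X (i', Sum.inl o) * pderiv (i', Sum.inl c) (F α)) *
        tcr (fun v => X (i, v)) α β = ∑ i' : κ, X (i', Sum.inl o) *
          ∑ α ∈ Bu a b d j o e, pderiv (i', Sum.inl c) (F α) * tcr (fun v => X (i, v)) α β := by
      simp_rw [sum_mul, mul_sum]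
      rw [sum_comm]
      exact sum_congr rfl fun i' _ => sum_congr rfl fun α _ => by ring
    rw [h2, sum_eq_single i]
    · rw [h1 i, if_pos rfl, mul_neg]
    · intro i' _ hne
      rw [h1 i', if_neg hne, neg_zero, mul_zero]
    · intro h
      exact absurd (mem_univ i) h
  -- the second part
  have hB : ∑ α ∈ Bu a b d j o e, (if 1 ≤ α (Sum.inl o) then
      ((α (Sum.inl c) + 1 : ℕ) : MvPolynomial (κ × Z a b) ℂ) * F (sh o c α) else 0) *
      tcr (fun v => X (i, v)) α β = ((β (Sum.inl c) + 1 : ℕ) : MvPolynomial (κ × Z a b) ℂ) *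
        (X (i, Sum.inl o) * ∑ α ∈ Bu a b d j o e, F α *
          tcr (fun v => X (i, v)) α (β + Pi.single (Sum.inl c) 1) +
        if 1 ≤ β (Sum.inl o) then ∑ α ∈ Bu a b d j o e, F α *
          tcr (fun v => X (i, v)) α (sh o c β) else 0) := by
    have h2 : ∑ α ∈ Bu a b d j o e, (if 1 ≤ α (Sum.inl o) then
        ((α (Sum.inl c) + 1 : ℕ) : MvPolynomial (κ × Z a b) ℂ) * F (sh o c α) else 0) *
        tcr (fun v => X (i, v)) α β =
        ∑ α ∈ (Bu a b d j o e).filter (fun α => 1 ≤ α (Sum.inl o)),
          F (sh o c α) * (((β (Sum.inl c) + 1 : ℕ) : MvPolynomial (κ × Z a b) ℂ) *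
            (X (i, Sum.inl o) * tcr (fun v => X (i, v)) (sh o c α)
              (β + Pi.single (Sum.inl c) 1) +
            if 1 ≤ β (Sum.inl o) then tcr (fun v => X (i, v)) (sh o c α) (sh o c β) else 0)) := by
      rw [sum_filter]
      refine sum_congr rfl fun α _ => ?_
      split_ifs with hα hβo
      · have h := tcr_shift o c hoc (fun v => (X (i, v) : MvPolynomial (κ × Z a b) ℂ)) α β hα
        rw [if_pos hβo] at h
        linear_combination F (sh o c α) * h
      · have h := tcr_shift o c hoc (fun v => (X (i, v) : MvPolynomial (κ × Z a b) ℂ)) α β hα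
        rw [if_neg hβo] at h
        linear_combination F (sh o c α) * h
      · rw [zero_mul]
    rw [h2]
    have h3 : ∑ α ∈ (Bu a b d j o e).filter (fun α => 1 ≤ α (Sum.inl o)),
          F (sh o c α) * (((β (Sum.inl c) + 1 : ℕ) : MvPolynomial (κ × Z a b) ℂ) *
            (X (i, Sum.inl o) * tcr (fun v => X (i, v)) (sh o c α)
              (β + Pi.single (Sum.inl c) 1) +
            if 1 ≤ β (Sum.inl o) then tcr (fun v => X (i, v)) (sh o c α) (sh o c β) else 0)) =
        ∑ α ∈ (Bx a b d j).filter (fun α => 1 ≤ α (Sum.inl c) ∧ α (Sum.inl o) + 1 ≤ e),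
          F α * (((β (Sum.inl c) + 1 : ℕ) : MvPolynomial (κ × Z a b) ℂ) *
            (X (i, Sum.inl o) * tcr (fun v => X (i, v)) α
              (β + Pi.single (Sum.inl c) 1) +
            if 1 ≤ β (Sum.inl o) then tcr (fun v => X (i, v)) α (sh o c β) else 0)) := by
      refine sum_nbij' (sh o c) (sh c o) ?_ ?_ ?_ ?_ ?_
      · intro α hα
        rw [mem_filter] at hα
        obtain ⟨hα1, hα2⟩ := hα
        unfold Bu at hα1
        rw [mem_filter, mem_Bx] at hα1
        rw [mem_filter, mem_Bx, LieD_xd o c hoc α hα2, LieD_yd, LieD_cc, LieD_o o c hoc]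
        exact ⟨hα1.1, by omega, by omega⟩
      · intro α hα
        rw [mem_filter, mem_Bx] at hα
        obtain ⟨hα1, hα2, hα3⟩ := hα
        rw [mem_filter]
        unfold Bu
        rw [mem_filter, mem_Bx, LieD_xd c o hoc.symm α hα2, LieD_yd, LieD_cc]
        exact ⟨⟨hα1, hα3⟩, by omega⟩
      · intro α hα
        exact LieD_inv o c hoc α (mem_filter.1 hα).2
      · intro α hα
        exact LieD_inv c o hoc.symm α (mem_filter.1 hα).2.1
      · intro α _
        rfl
    rw [h3]
    have h4 : ∑ α ∈ (Bx a b d j).filter (fun α => 1 ≤ α (Sum.inl c) ∧ α (Sum.inl o) + 1 ≤ e),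
          F α * (((β (Sum.inl c) + 1 : ℕ) : MvPolynomial (κ × Z a b) ℂ) *
            (X (i, Sum.inl o) * tcr (fun v => X (i, v)) α
              (β + Pi.single (Sum.inl c) 1) +
            if 1 ≤ β (Sum.inl o) then tcr (fun v => X (i, v)) α (sh o c β) else 0)) =
        ∑ α ∈ Bu a b d j o e,
          F α * (((β (Sum.inl c) + 1 : ℕ) : MvPolynomial (κ × Z a b) ℂ) *
            (X (i, Sum.inl o) * tcr (fun v => X (i, v)) α
              (β + Pi.single (Sum.inl c) 1) +
            if 1 ≤ β (Sum.inl o) then tcr (fun v => X (i, v)) α (sh o c β) else 0)) := by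
      refine sum_subset ?_ ?_
      · intro α hα
        rw [mem_filter] at hα
        unfold Bu
        rw [mem_filter]
        exact ⟨hα.1, by omega⟩
      · intro α hα hn
        unfold Bu at hα
        rw [mem_filter] at hα
        rw [mem_filter] at hn
        by_cases hc0 : 1 ≤ α (Sum.inl c)
        · have ho : k < α (Sum.inl o) := by
            by_contra hle
            exact hn ⟨hα.1, hc0, by omega⟩
          rw [h0 α hα.1 ho, zero_mul]
        · have e1 : tcr (fun v => (X (i, v) : MvPolynomial (κ × Z a b) ℂ)) α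
              (β + Pi.single (Sum.inl c) 1) = 0 := by
            refine LieD_tcr_zero (Sum.inl c) _ _ _ ?_
            rw [LieD_up, Function.update_self]
            omega
          have e2 : tcr (fun v => (X (i, v) : MvPolynomial (κ × Z a b) ℂ)) α (sh o c β) = 0 := by
            refine LieD_tcr_zero (Sum.inl c) _ _ _ ?_
            rw [LieD_cc]
            omega
          rw [e1, e2, mul_zero, zero_add, ite_self, mul_zero, mul_zero]
    rw [h4, mul_add, mul_sum, mul_sum]
    split_ifs with hβo
    · rw [mul_sum, ← sum_add_distrib]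
      exact sum_congr rfl fun α _ => by ring
    · rw [mul_zero, add_zero]
      exact sum_congr rfl fun α _ => by ring
  have hC : (if 1 ≤ β (Sum.inl o) then ∑ α ∈ Bu a b d j o e, F α *
          tcr (fun v => (X (i, v) : MvPolynomial (κ × Z a b) ℂ)) α (sh o c β) else 0) = 0 := by
    split_ifs with hβo
    · refine hF i (sh o c β) ?_
      rw [LieD_xd o c hoc β hβo, LieD_yd]
      exact hβ
    · rfl
  have hsum : ∑ α ∈ Bu a b d j o e, Lie o c F α * tcr (fun v => X (i, v)) α β =
      ∑ α ∈ Bu a b d j o e, (∑ i' : κ, X (i', Sum.inl o) * pderiv (i', Sum.inl c) (F α)) *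
        tcr (fun v => X (i, v)) α β +
      ∑ α ∈ Bu a b d j o e, (if 1 ≤ α (Sum.inl o) then
        ((α (Sum.inl c) + 1 : ℕ) : MvPolynomial (κ × Z a b) ℂ) * F (sh o c α) else 0) *
        tcr (fun v => X (i, v)) α β := by
    rw [← sum_add_distrib]
    exact sum_congr rfl fun α _ => by
      unfold Lie
      rw [add_mul]
  rw [hsum, hA, hB, hC]
  ring

end Pool.Agent.H51.TB

end

section

/-!
# Module U7 (TB2): a point at a coordinate point; the number of exponents

`GM_cons`: the position of the new point is the coordinate point `q` (`q o = 1`, `q = 0` at the other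
variables).  For `α` with `α o + M > d` and `β = α` with `β o = 0` (so `|β| = d - α o < M`), the condition
`β` at `q` is `f α = 0`: `tcr q α' β ≠ 0` only if `α' = β` off `o`, that is `α' = α`.  So `f` is supported on
the exponents with `α o + M ≤ d`, and satisfies the conditions `S` there.

`card_Bu_add`: `wr d (0, 0) g j = j - g.2` for `g.2 ≤ j ≤ d - g.1` (`rk (d + 1) 0 0 i = i`), so
`Lam d M (0, 0) j = {g : g.2 ≤ j, g.1 + j < M}` and `wt a b d M (0, 0) j` is
`multichoose a (M - j - 1) * multichoose b j` for `j < M` and `0` for `j ≥ M`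
(`∑_{k ≤ n} multichoose (a - 1) k = multichoose a n`), which is the number of the exponents of the level `j`
with `α_o ≥ d - M + 1`.  (`card_Bx` in `LBas.lean` has the proof of the product formula.)
-/

namespace Pool.Agent.H51.TB

open Finset Pool.Agent.H18.Ex Pool.Agent.H21.NX Pool.Agent.H18.Ta

private theorem UPt_tcr_eq {ι : Type} [Fintype ι] [DecidableEq ι] (o : ι) (a : ι → ℕ) :
    tcr (fun i => if i = o then (1 : ℂ) else 0) a (Function.update a o 0) = 1 := by
  unfold tcr
  refine prod_eq_one fun i _ => ?_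
  beta_reduce
  by_cases hi : i = o
  · subst hi
    rw [Function.update_self, if_pos rfl, Nat.choose_zero_right, one_pow, Nat.cast_one, one_mul]
  · rw [Function.update_of_ne hi, if_neg hi, Nat.choose_self, Nat.sub_self, pow_zero, Nat.cast_one,
      one_mul]

private theorem UPt_tcr_zero {ι : Type} [Fintype ι] [DecidableEq ι] (o : ι) (a c : ι → ℕ)
    (h : ∑ i, a i = ∑ i, c i) (hne : c ≠ a) :
    tcr (fun i => if i = o then (1 : ℂ) else 0) c (Function.update a o 0) = 0 := by
  by_contra h00
  apply hne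
  unfold tcr at h00
  have h0 := prod_ne_zero_iff.1 h00
  have h1 : ∀ i, i ≠ o → c i = a i := by
    intro i hi
    have h2 := h0 i (mem_univ i)
    beta_reduce at h2
    rw [Function.update_of_ne hi, if_neg hi] at h2
    have h3 : ((c i).choose (a i) : ℂ) ≠ 0 := left_ne_zero_of_mul h2
    have h4 : (0 : ℂ) ^ (c i - a i) ≠ 0 := right_ne_zero_of_mul h2
    have h5 : a i ≤ c i := by
      by_contra h6
      apply h3
      rw [Nat.choose_eq_zero_of_lt (by omega), Nat.cast_zero]
    have h7 : c i - a i = 0 := by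
      by_contra h8
      exact h4 (zero_pow h8)
    omega
  have h9 : c o = a o := by
    have e1 := Finset.add_sum_erase univ a (mem_univ o)
    have e2 := Finset.add_sum_erase univ c (mem_univ o)
    have e3 : ∑ i ∈ univ.erase o, c i = ∑ i ∈ univ.erase o, a i :=
      sum_congr rfl fun i hi => h1 i (ne_of_mem_erase hi)
    omega
  funext i
  by_cases hi : i = o
  · rw [hi]; exact h9
  · exact h1 i hi

theorem GM_cons {ι : Type} [Fintype ι] [DecidableEq ι] (o : ι) (d M : ℕ) (S : Multiset (Kind ι))
    (h : GM ((Sx ι d).filter fun α => α o + M ≤ d) S) : GM (Sx ι d) (Kind.free M ::ₘ S) := by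
  obtain ⟨n, k, rfl, pos, hpos⟩ := h
  refine ⟨n + 1, Fin.cons (Kind.free M) k, ?_,
    Fin.cons (fun i => if i = o then (1 : ℂ) else 0) pos, ?_⟩
  · rw [Fin.univ_val_map, Fin.univ_val_map, List.ofFn_cons]
    rfl
  · intro f hf
    have hz : ∀ a ∈ Sx ι d, d < a o + M → f a = 0 := by
      intro a ha hao
      have h1 := hf 0 (Function.update a o 0)
      rw [Fin.cons_zero, Fin.cons_zero] at h1
      have ha' := mem_Sx.1 ha
      have h2 : ∑ i, Function.update a o 0 i < M := by
        have e1 := Finset.add_sum_erase univ a (mem_univ o)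
        have e2 := Finset.add_sum_erase univ (Function.update a o 0) (mem_univ o)
        have e3 : ∑ i ∈ univ.erase o, Function.update a o 0 i = ∑ i ∈ univ.erase o, a i :=
          sum_congr rfl fun i hi => Function.update_of_ne (ne_of_mem_erase hi) _ _
        rw [Function.update_self] at e2
        omega
      have h3 := h1 h2
      rw [sum_eq_single a] at h3
      · have h4 : (Kind.free M : Kind ι).pt (fun i => if i = o then (1 : ℂ) else 0) =
            fun i => if i = o then (1 : ℂ) else 0 := rfl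
        rw [h4, UPt_tcr_eq, mul_one] at h3
        exact h3
      · intro c hc hca
        have h4 : (Kind.free M : Kind ι).pt (fun i => if i = o then (1 : ℂ) else 0) =
            fun i => if i = o then (1 : ℂ) else 0 := rfl
        rw [h4, UPt_tcr_zero o a c (by rw [ha', mem_Sx.1 hc]) hca, mul_zero]
      · intro hn
        exact absurd ha hn
    have hA : ∀ a ∈ (Sx ι d).filter fun α => α o + M ≤ d, f a = 0 := by
      refine hpos f fun j b hb => ?_
      have h1 := hf j.succ b
      rw [Fin.cons_succ, Fin.cons_succ] at h1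
      rw [← h1 hb]
      refine sum_subset (filter_subset _ _) fun a ha hna => ?_
      rw [mem_filter, not_and] at hna
      rw [hz a ha (by have := hna ha; omega), zero_mul]
    intro a ha
    by_cases hao : a o + M ≤ d
    · exact hA a (mem_filter.2 ⟨ha, hao⟩)
    · exact hz a ha (by omega)

private theorem UPt_mc {n : ℕ} (hn : 1 ≤ n) (k : ℕ) :
    ∑ i ∈ range (k + 1), Nat.multichoose (n - 1) i = Nat.multichoose n k := by
  obtain ⟨m, rfl⟩ : ∃ m, n = m + 1 := ⟨n - 1, by omega⟩
  rw [Nat.sum_range_multichoose, Nat.multichoose_eq]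
  have h1 : m + 1 + k - 1 = m + k := by omega
  have h2 : k + (m + 1 - 1) = m + k := by omega
  have h3 : m + 1 - 1 = m := by omega
  rw [h1, h2, h3]
  exact Nat.choose_symm_add

private theorem UPt_rk (l i : ℕ) : rk l 0 0 i = i := by
  unfold rk
  split_ifs <;> omega

private theorem UPt_wr {d j : ℕ} {g : ℕ × ℕ} (h1 : g.2 ≤ j) (h2 : j + g.1 ≤ d) :
    wr d (0, 0) g j = j - g.2 := by
  unfold wr
  have h3 : ((range (d + 1)).filter fun i => g.2 ≤ i ∧ i + g.1 ≤ d ∧
      rk (d + 1) (0, 0).1 (0, 0).2 i < rk (d + 1) (0, 0).1 (0, 0).2 j) = Finset.Ico g.2 j := by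
    ext i
    rw [mem_filter, mem_range, mem_Ico, UPt_rk, UPt_rk]
    omega
  rw [h3, Nat.card_Ico]

private theorem UPt_Lam {d j M : ℕ} (hM : M ≤ d) :
    Lam d M (0, 0) j = range (M - j) ×ˢ range (j + 1) := by
  ext g
  unfold Lam
  rw [mem_filter, mem_product, mem_product, mem_range, mem_range, mem_range, mem_range]
  constructor
  · rintro ⟨⟨h1, h2⟩, h3, h4, h5⟩
    rw [UPt_wr h3 h4] at h5
    omega
  · rintro ⟨h1, h2⟩
    refine ⟨⟨by omega, by omega⟩, by omega, by omega, ?_⟩
    rw [UPt_wr (by omega) (by omega)]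
    omega

private theorem UPt_wt {a b d j M : ℕ} (hM : M ≤ d) (ha : 1 ≤ a) (hb : 1 ≤ b) :
    wt a b d M (0, 0) j = if j < M then bet a b (M - 1) j else 0 := by
  unfold wt
  rw [UPt_Lam hM, sum_product]
  split_ifs with h
  · have h1 : M - j = (M - 1 - j) + 1 := by omega
    unfold Eg bet
    rw [h1, ← UPt_mc ha (M - 1 - j), ← UPt_mc hb j, sum_mul_sum]
  · have h1 : M - j = 0 := by omega
    rw [h1, range_zero, sum_empty]

private theorem UPt_hi {a b d j M : ℕ} (hj : j ≤ d) (hM : M ≤ d) (o : Fin a) :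
    ((Bx a b d j).filter fun α => ¬ α (Sum.inl o) ≤ d - M).card =
      if j < M then bet a b (M - 1) j else 0 := by
  have hxd : ∀ α : Z a b → ℕ, α (Sum.inl o) ≤ xd α := by
    intro α
    unfold xd
    exact single_le_sum (f := fun i => α (Sum.inl i)) (fun i _ => Nat.zero_le _) (mem_univ o)
  split_ifs with h
  · rw [← card_Bx (a := a) (b := b) (d := M - 1) (j := j) (by omega)]
    symm
    have hup : ∀ (α : Z a b → ℕ) (v : ℕ),
        xd (Function.update α (Sum.inl o) v) + α (Sum.inl o) = xd α + v ∧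
          yd (Function.update α (Sum.inl o) v) = yd α := by
      intro α v
      constructor
      · unfold xd
        have e1 := Finset.add_sum_erase univ (fun i => α (Sum.inl i)) (mem_univ o)
        have e2 := Finset.add_sum_erase univ
          (fun i => Function.update α (Sum.inl o) v (Sum.inl i)) (mem_univ o)
        have e3 : ∑ i ∈ univ.erase o, Function.update α (Sum.inl o) v (Sum.inl i) =
            ∑ i ∈ univ.erase o, α (Sum.inl i) :=
          sum_congr rfl fun i hi => Function.update_of_ne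
            (fun hh => ne_of_mem_erase hi (Sum.inl_injective hh)) _ _
        simp only [Function.update_self] at e2
        beta_reduce at e1 e2
        omega
      · unfold yd
        exact sum_congr rfl fun i _ => Function.update_of_ne (by exact Sum.inr_ne_inl) _ _
    refine card_bij' (fun α _ => Function.update α (Sum.inl o) (α (Sum.inl o) + (d - M + 1)))
      (fun α _ => Function.update α (Sum.inl o) (α (Sum.inl o) - (d - M + 1))) ?_ ?_ ?_ ?_
    · intro α hα
      rw [mem_Bx] at hα
      have h1 := hup α (α (Sum.inl o) + (d - M + 1))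
      rw [mem_filter, mem_Bx, Function.update_self]
      omega
    · intro α hα
      rw [mem_filter, mem_Bx] at hα
      have h1 := hup α (α (Sum.inl o) - (d - M + 1))
      rw [mem_Bx]
      omega
    · intro α _
      rw [Function.update_self, Function.update_idem]
      have h1 : α (Sum.inl o) + (d - M + 1) - (d - M + 1) = α (Sum.inl o) := by omega
      rw [h1, Function.update_eq_self]
    · intro α hα
      rw [mem_filter] at hα
      rw [Function.update_self, Function.update_idem]
      have h1 : α (Sum.inl o) - (d - M + 1) + (d - M + 1) = α (Sum.inl o) := by omega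
      rw [h1, Function.update_eq_self]
  · rw [card_eq_zero, filter_eq_empty_iff]
    intro α hα
    rw [mem_Bx] at hα
    have h1 := hxd α
    omega

theorem card_Bu_add {a b d j M : ℕ} (hb : 1 ≤ b) (hj : j ≤ d) (hM : M ≤ d) (o : Fin a) :
    ((Bx a b d j).filter fun α => α (Sum.inl o) ≤ d - M).card + wt a b d M (0, 0) j =
      bet a b d j := by
  have ha : 1 ≤ a := by
    have := o.isLt
    omega
  rw [UPt_wt hM ha hb, ← UPt_hi hj hM o, ← card_Bx (a := a) (b := b) hj]
  exact card_filter_add_card_filter_not _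

end Pool.Agent.H51.TB

end

section

/-!
# Module U5 (TB2): membership, domination and sizes for `ASys`

As `LBas.mem_LV`, `LBas.dom_of_subset` and `LRank` (delivered, complete; the proofs can be copied).  For
`le_size_U` use the position `q` with `q = 1` at an `X`-variable `≠ o` and at the first
`Y`-variable: the exponent determined by `β` (zero at these two variables, bidegree `g ∈ Λ`) has
`α_o = β_o ≤ g.1 ≤ e`, so it is in `Bu a b d j o e`.
-/

namespace Pool.Agent.H51.TB

open Finset MvPolynomial Pool.Agent.H18.Ex Pool.Agent.H21.NX Pool.Agent.H18.Ta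

private theorem URank_eval {a b : ℕ} (q : Z a b → ℂ) (α β : Z a b → ℕ) :
    eval q (tcr (fun i => (X i : MvPolynomial (Z a b) ℂ)) α β) = tcr q α β := by
  unfold tcr
  rw [map_prod]
  refine prod_congr rfl fun i _ => ?_
  rw [map_mul, map_natCast, map_pow, eval_X]

theorem mem_AV {a b : ℕ} (A : Finset (Z a b → ℕ)) {κ : Type} (m : κ → Finset (ℕ × ℕ))
    (p : κ → Z a b → ℂ) (f : {α // α ∈ A} → ℂ) :
    f ∈ (ASys A).V m p ↔ ∀ i (β : Z a b → ℕ), (xd β, yd β) ∈ m i →
      ∑ α : {α // α ∈ A}, tcr (p i) α.1 β * f α = 0 := by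
  rw [Sys.mem_V]
  constructor
  · intro h i β hβ
    have h1 := h i ⟨β, hβ⟩
    refine Eq.trans (sum_congr rfl fun α _ => ?_) h1
    rw [← URank_eval (p i) α.1 β]
    rfl
  · intro h i r
    have h1 := h i r.1 r.2
    refine Eq.trans (sum_congr rfl fun α _ => ?_) h1
    rw [← URank_eval (p i) α.1 r.1]
    rfl

theorem dom_A {a b : ℕ} (A : Finset (Z a b → ℕ)) {Λ Λ' : Finset (ℕ × ℕ)} (h : Λ ⊆ Λ') :
    (ASys A).Dom Λ' Λ := by
  intro q f hf
  rw [mem_AV] at hf ⊢
  exact fun i β hβ => hf i β (h hβ)

private theorem URank_card_Sx {ι : Type} [Fintype ι] [DecidableEq ι] (n : ℕ) :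
    (Sx ι n).card = Nat.multichoose (Fintype.card ι) n := by
  rw [← card_univ, ← card_finsuppAntidiag_nat_eq_multichoose]
  symm
  apply card_bij (fun (α : ι →₀ ℕ) _ => (⇑α : ι → ℕ))
  · intro α hα
    rw [mem_finsuppAntidiag] at hα
    exact mem_Sx.2 hα.1
  · intro α _ β _ h
    exact DFunLike.coe_injective h
  · intro f hf
    refine ⟨Finsupp.equivFunOnFinite.symm f, ?_, rfl⟩
    rw [mem_finsuppAntidiag]
    exact ⟨mem_Sx.1 hf, subset_univ _⟩

theorem size_le_A {a b : ℕ} (ha : 1 ≤ a) (A : Finset (Z a b → ℕ)) (Λ : Finset (ℕ × ℕ)) (t : ℕ)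
    (hΛ : ∀ g ∈ Λ, g.1 + g.2 < t) : (ASys A).size Λ ≤ ell (a + b) t := by
  obtain ⟨p, hp⟩ := gd_attained (ASys A) (fun _ : Unit => Λ)
  have : Finite {β : Z a b → ℕ // (xd β, yd β) ∈ Λ} := finite_idx a b Λ
  letI : Fintype {β : Z a b → ℕ // (xd β, yd β) ∈ Λ} := Fintype.ofFinite _
  -- the number of conditions
  have hcard : Fintype.card {β : Z a b → ℕ // (xd β, yd β) ∈ Λ} ≤ ell (a + b) t := by
    rcases Nat.eq_zero_or_pos t with rfl | ht
    · have : IsEmpty {β : Z a b → ℕ // (xd β, yd β) ∈ Λ} := ⟨fun β => by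
        have := hΛ _ β.2
        omega⟩
      rw [Fintype.card_eq_zero]
      exact Nat.zero_le _
    · have hsum : ∀ β : Z a b → ℕ, ∑ z, β z = xd β + yd β := fun β => Fintype.sum_sum_type β
      let ψ : {β : Z a b → ℕ // (xd β, yd β) ∈ Λ} → {x // x ∈ Sx (Option (Z a b)) (t - 1)} := fun β =>
        ⟨fun o => o.elim (t - 1 - ∑ z, β.1 z) β.1, by
          rw [mem_Sx, Fintype.sum_option]
          have h1 := hΛ _ β.2
          have h2 := hsum β.1
          simp only [Option.elim_none, Option.elim_some]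
          omega⟩
      have hψ : Function.Injective ψ := by
        intro β γ h
        apply Subtype.ext
        funext z
        have h1 := congrArg Subtype.val h
        exact congrFun h1 (some z)
      have h1 := Fintype.card_le_of_injective ψ hψ
      rw [Fintype.card_coe, URank_card_Sx, Fintype.card_option, Fintype.card_sum, Fintype.card_fin, Fintype.card_fin,
        Nat.multichoose_eq] at h1
      refine h1.trans (le_of_eq ?_)
      unfold ell
      have h2 : a + b + 1 + (t - 1) - 1 = (a + b) + (t - 1) := by omega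
      have h3 : t + (a + b) - 1 = (a + b) + (t - 1) := by omega
      rw [h2, h3]
      exact (Nat.choose_symm_add (a := a + b) (b := t - 1)).symm
  -- the linear map
  let L : ({α // α ∈ A} → ℂ) →ₗ[ℂ] ({β : Z a b → ℕ // (xd β, yd β) ∈ Λ} → ℂ) :=
    { toFun := fun f β => ∑ α : {α // α ∈ A}, tcr (p ()) α.1 β.1 * f α
      map_add' := by
        intro f g
        funext β
        simp only [Pi.add_apply, mul_add, sum_add_distrib]
      map_smul' := by
        intro c f
        funext β
        simp only [Pi.smul_apply, smul_eq_mul, RingHom.id_apply, mul_sum]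
        exact sum_congr rfl fun α _ => by ring }
  have hker : LinearMap.ker L = (ASys A).V (fun _ : Unit => Λ) p := by
    ext f
    rw [LinearMap.mem_ker, mem_AV]
    constructor
    · intro h i β hβ
      exact congrFun h ⟨β, hβ⟩
    · intro h
      funext β
      exact h () β.1 β.2
  have hrn := LinearMap.finrank_range_add_finrank_ker L
  rw [hker, hp, Module.finrank_fintype_fun_eq_card] at hrn
  have hr : Module.finrank ℂ (LinearMap.range L) ≤ Fintype.card {β : Z a b → ℕ // (xd β, yd β) ∈ Λ} := by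
    have := Submodule.finrank_le (LinearMap.range L)
    rwa [Module.finrank_fintype_fun_eq_card] at this
  unfold Sys.size
  omega

/-- the special variables -/
private def URank_sp {a b : ℕ} (c : Fin a) (c' : Fin b) : Z a b → Prop
  | Sum.inl i => i = c
  | Sum.inr i => i = c'

private instance {a b : ℕ} (c : Fin a) (c' : Fin b) : DecidablePred (URank_sp c c') := fun z => by
  rcases z with i | i <;> unfold URank_sp <;> infer_instance

/-- the special position -/
private noncomputable def URank_q {a b : ℕ} (c : Fin a) (c' : Fin b) (z : Z a b) : ℂ :=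
  if URank_sp c c' z then 1 else 0

/-- `α` with the special coordinates removed -/
private def URank_red {a b : ℕ} (c : Fin a) (c' : Fin b) (α : Z a b → ℕ) (z : Z a b) : ℕ :=
  if URank_sp c c' z then 0 else α z

private theorem URank_sp_inl {a b : ℕ} (c : Fin a) (c' : Fin b) : URank_sp c c' (Sum.inl c) := rfl

private theorem URank_sp_inr {a b : ℕ} (c : Fin a) (c' : Fin b) : URank_sp c c' (Sum.inr c') := rfl

private theorem URank_nsp_inl {a b : ℕ} (c : Fin a) (c' : Fin b) {i : Fin a} (h : i ≠ c) :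
    ¬ URank_sp c c' (Sum.inl i) := h

private theorem URank_nsp_inr {a b : ℕ} (c : Fin a) (c' : Fin b) {i : Fin b} (h : i ≠ c') :
    ¬ URank_sp c c' (Sum.inr i) := h

private theorem URank_xd' {a b : ℕ} (c : Fin a) (α : Z a b → ℕ) :
    xd α = α (Sum.inl c) + ∑ i : {i // i ≠ c}, α (Sum.inl i.1) := by
  unfold xd
  exact Fintype.sum_eq_add_sum_subtype_ne (fun i => α (Sum.inl i)) c

private theorem URank_yd' {a b : ℕ} (c' : Fin b) (α : Z a b → ℕ) :
    yd α = α (Sum.inr c') + ∑ i : {i // i ≠ c'}, α (Sum.inr i.1) := by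
  unfold yd
  exact Fintype.sum_eq_add_sum_subtype_ne (fun i => α (Sum.inr i)) c'

private theorem URank_xd_red {a b : ℕ} (c : Fin a) (c' : Fin b) (α : Z a b → ℕ) :
    xd (URank_red c c' α) = ∑ i : {i // i ≠ c}, α (Sum.inl i.1) := by
  rw [URank_xd' c]
  have h0 : URank_red c c' α (Sum.inl c) = 0 := by
    unfold URank_red
    rw [if_pos (URank_sp_inl c c')]
  rw [h0, Nat.zero_add]
  refine sum_congr rfl fun i _ => ?_
  unfold URank_red
  rw [if_neg (URank_nsp_inl c c' i.2)]

private theorem URank_yd_red {a b : ℕ} (c : Fin a) (c' : Fin b) (α : Z a b → ℕ) :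
    yd (URank_red c c' α) = ∑ i : {i // i ≠ c'}, α (Sum.inr i.1) := by
  rw [URank_yd' c']
  have h0 : URank_red c c' α (Sum.inr c') = 0 := by
    unfold URank_red
    rw [if_pos (URank_sp_inr c c')]
  rw [h0, Nat.zero_add]
  refine sum_congr rfl fun i _ => ?_
  unfold URank_red
  rw [if_neg (URank_nsp_inr c c' i.2)]

private theorem URank_xd {a b : ℕ} (c : Fin a) (c' : Fin b) (α : Z a b → ℕ) :
    xd α = α (Sum.inl c) + xd (URank_red c c' α) := by
  rw [URank_xd_red, URank_xd' c]

private theorem URank_yd {a b : ℕ} (c : Fin a) (c' : Fin b) (α : Z a b → ℕ) :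
    yd α = α (Sum.inr c') + yd (URank_red c c' α) := by
  rw [URank_yd_red, URank_yd' c']

private theorem URank_eq {a b d j : ℕ} (c : Fin a) (c' : Fin b) {α α' : Z a b → ℕ}
    (h : α ∈ Bx a b d j) (h' : α' ∈ Bx a b d j) (hr : URank_red c c' α = URank_red c c' α') :
    α = α' := by
  rw [mem_Bx] at h h'
  have hx := URank_xd c c' α
  have hx' := URank_xd c c' α'
  have hy := URank_yd c c' α
  have hy' := URank_yd c c' α'
  rw [hr] at hx hy
  funext z
  by_cases hz : URank_sp c c' z
  · rcases z with i | i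
    · have : i = c := hz
      subst this
      omega
    · have : i = c' := hz
      subst this
      omega
  · have := congrFun hr z
    unfold URank_red at this
    rwa [if_neg hz, if_neg hz] at this

private theorem URank_tcr {a b : ℕ} (c : Fin a) (c' : Fin b) (α β : Z a b → ℕ) :
    tcr (URank_q c c') α (URank_red c c' β) =
      if URank_red c c' α = URank_red c c' β then 1 else 0 := by
  unfold tcr
  split_ifs with h
  · apply prod_eq_one
    intro z _
    have h1 := congrFun h z
    unfold URank_q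
    by_cases hz : URank_sp c c' z
    · have h2 : URank_red c c' β z = 0 := by
        unfold URank_red
        rw [if_pos hz]
      rw [if_pos hz, h2]
      simp
    · have h2 : URank_red c c' α z = α z := by
        unfold URank_red
        rw [if_neg hz]
      rw [if_neg hz, ← h1, h2]
      simp
  · have h1 : ∃ z, URank_red c c' α z ≠ URank_red c c' β z := by
      by_contra hc
      push Not at hc
      exact h (funext hc)
    obtain ⟨z, hz⟩ := h1
    apply prod_eq_zero (mem_univ z)
    have hsp : ¬ URank_sp c c' z := by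
      intro hs
      apply hz
      unfold URank_red
      rw [if_pos hs, if_pos hs]
    have h2 : URank_red c c' α z = α z := by
      unfold URank_red
      rw [if_neg hsp]
    rw [h2] at hz
    unfold URank_q
    rw [if_neg hsp]
    rcases Nat.lt_or_gt_of_ne hz with h3 | h3
    · rw [Nat.choose_eq_zero_of_lt h3]
      simp
    · rw [zero_pow (by omega), mul_zero]

/-- the exponents whose coefficients vanish -/
private def URank_T {a b : ℕ} (d j : ℕ) (o : Fin a) (e : ℕ) (c : Fin a) (c' : Fin b)
    (Λ : Finset (ℕ × ℕ)) : Finset (Z a b → ℕ) :=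
  (Bu a b d j o e).filter fun α => (xd (URank_red c c' α), yd (URank_red c c' α)) ∈ Λ

/-- the exponent with given coordinates off the special variables -/
private def URank_ext {a b : ℕ} (c : Fin a) (c' : Fin b) (s s' : ℕ)
    (w : ({i : Fin a // i ≠ c} → ℕ) × ({i : Fin b // i ≠ c'} → ℕ)) : Z a b → ℕ
  | Sum.inl i => if h : i = c then s else w.1 ⟨i, h⟩
  | Sum.inr i => if h : i = c' then s' else w.2 ⟨i, h⟩

private theorem URank_ext_inl {a b : ℕ} (c : Fin a) (c' : Fin b) (s s' : ℕ)
    (w : ({i : Fin a // i ≠ c} → ℕ) × ({i : Fin b // i ≠ c'} → ℕ)) (i : {i : Fin a // i ≠ c}) :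
    URank_ext c c' s s' w (Sum.inl i.1) = w.1 i := by
  unfold URank_ext
  simp only
  rw [dif_neg i.2]

private theorem URank_ext_inr {a b : ℕ} (c : Fin a) (c' : Fin b) (s s' : ℕ)
    (w : ({i : Fin a // i ≠ c} → ℕ) × ({i : Fin b // i ≠ c'} → ℕ)) (i : {i : Fin b // i ≠ c'}) :
    URank_ext c c' s s' w (Sum.inr i.1) = w.2 i := by
  unfold URank_ext
  simp only
  rw [dif_neg i.2]

private theorem URank_card_fib {a b d j : ℕ} (hj : j ≤ d) (o : Fin a) (e : ℕ) (c : Fin a)
    (c' : Fin b) (hoc : o ≠ c) (g : ℕ × ℕ) (hg : j + g.1 ≤ d ∧ g.2 ≤ j ∧ g.1 ≤ e) :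
    Eg a b g ≤ ((Bu a b d j o e).filter fun α =>
      (xd (URank_red c c' α), yd (URank_red c c' α)) = g).card := by
  have h1 := URank_card_Sx (ι := {i : Fin a // i ≠ c}) g.1
  have h2 := URank_card_Sx (ι := {i : Fin b // i ≠ c'}) g.2
  have h3 : Fintype.card {i : Fin a // i ≠ c} = a - 1 := by
    rw [Fintype.card_subtype_compl, Fintype.card_fin, Fintype.card_unique]
  have h4 : Fintype.card {i : Fin b // i ≠ c'} = b - 1 := by
    rw [Fintype.card_subtype_compl, Fintype.card_fin, Fintype.card_unique]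
  rw [h3] at h1
  rw [h4] at h2
  unfold Eg
  rw [← h1, ← h2, ← card_product]
  apply card_le_card_of_injOn (URank_ext c c' (d - j - g.1) (j - g.2))
  · intro w hw
    rw [Finset.mem_coe, mem_product, mem_Sx, mem_Sx] at hw
    rw [Finset.mem_coe, mem_filter]
    have e1 : xd (URank_red c c' (URank_ext c c' (d - j - g.1) (j - g.2) w)) = g.1 := by
      rw [URank_xd_red, ← hw.1]
      exact sum_congr rfl fun i _ => URank_ext_inl c c' _ _ w i
    have e2 : yd (URank_red c c' (URank_ext c c' (d - j - g.1) (j - g.2) w)) = g.2 := by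
      rw [URank_yd_red, ← hw.2]
      exact sum_congr rfl fun i _ => URank_ext_inr c c' _ _ w i
    have e3 : URank_ext c c' (d - j - g.1) (j - g.2) w (Sum.inl c) = d - j - g.1 := by
      unfold URank_ext
      simp
    have e4 : URank_ext c c' (d - j - g.1) (j - g.2) w (Sum.inr c') = j - g.2 := by
      unfold URank_ext
      simp
    have e5 : URank_ext c c' (d - j - g.1) (j - g.2) w (Sum.inl o) ≤ g.1 := by
      rw [URank_ext_inl c c' _ _ w ⟨o, hoc⟩, ← hw.1]
      exact single_le_sum (f := w.1) (fun i _ => Nat.zero_le _) (mem_univ _)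
    have hx := URank_xd c c' (URank_ext c c' (d - j - g.1) (j - g.2) w)
    have hy := URank_yd c c' (URank_ext c c' (d - j - g.1) (j - g.2) w)
    rw [e1, e3] at hx
    rw [e2, e4] at hy
    refine ⟨?_, by rw [e1, e2]⟩
    unfold Bu
    rw [mem_filter, mem_Bx]
    exact ⟨⟨by omega, by omega⟩, by omega⟩
  · intro w _ w' _ h
    ext i
    · have := congrFun h (Sum.inl i.1)
      rwa [URank_ext_inl, URank_ext_inl] at this
    · have := congrFun h (Sum.inr i.1)
      rwa [URank_ext_inr, URank_ext_inr] at this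

private theorem URank_card_T {a b d j : ℕ} (hj : j ≤ d) (o : Fin a) (e : ℕ) (c : Fin a)
    (c' : Fin b) (hoc : o ≠ c) (Λ : Finset (ℕ × ℕ))
    (hΛ : ∀ g ∈ Λ, j + g.1 ≤ d ∧ g.2 ≤ j ∧ g.1 ≤ e) :
    ∑ g ∈ Λ, Eg a b g ≤ (URank_T d j o e c c' Λ).card := by
  have h1 : (URank_T d j o e c c' Λ).card =
      ∑ g ∈ Λ, ((URank_T d j o e c c' Λ).filter fun α =>
        (xd (URank_red c c' α), yd (URank_red c c' α)) = g).card := by
    apply card_eq_sum_card_fiberwise
    intro α hα
    unfold URank_T at hα
    rw [Finset.mem_coe, mem_filter] at hα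
    exact hα.2
  rw [h1]
  refine sum_le_sum fun g hg => ?_
  refine (URank_card_fib hj o e c c' hoc g (hΛ g hg)).trans (card_le_card ?_)
  intro α hα
  rw [mem_filter] at hα
  unfold URank_T
  rw [mem_filter, mem_filter]
  exact ⟨⟨hα.1, by rw [hα.2]; exact hg⟩, hα.2⟩

theorem le_size_U {a b d j : ℕ} (ha : 2 ≤ a) (hb : 1 ≤ b) (hj : j ≤ d) (o : Fin a) (e : ℕ)
    (Λ : Finset (ℕ × ℕ)) (hΛ : ∀ g ∈ Λ, j + g.1 ≤ d ∧ g.2 ≤ j ∧ g.1 ≤ e) :
    ∑ g ∈ Λ, Eg a b g ≤ (ASys (Bu a b d j o e)).size Λ := by
  obtain ⟨c, hoc⟩ : ∃ c : Fin a, o ≠ c := by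
    haveI : Nontrivial (Fin a) := Fin.nontrivial_iff_two_le.mpr ha
    obtain ⟨c, hc⟩ := exists_ne o
    exact ⟨c, hc.symm⟩
  let c' : Fin b := ⟨0, by omega⟩
  refine (URank_card_T hj o e c c' hoc Λ hΛ).trans ?_
  let T : Finset {α // α ∈ Bu a b d j o e} := univ.filter fun α => α.1 ∈ URank_T d j o e c c' Λ
  have hT : T.card = (URank_T d j o e c c' Λ).card := by
    apply card_bij (fun (α : {α // α ∈ Bu a b d j o e}) _ => α.1)
    · intro α hα
      exact (mem_filter.1 hα).2
    · intro α _ β _ h
      exact Subtype.ext h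
    · intro α hα
      have h1 : α ∈ Bu a b d j o e := by
        unfold URank_T at hα
        exact (mem_filter.1 hα).1
      exact ⟨⟨α, h1⟩, mem_filter.2 ⟨mem_univ _, hα⟩, rfl⟩
  have hBx : ∀ α : {α // α ∈ Bu a b d j o e}, α.1 ∈ Bx a b d j := by
    intro α
    have h1 := α.2
    unfold Bu at h1
    exact (mem_filter.1 h1).1
  -- the solutions vanish on `T`
  have hvan : ∀ f ∈ (ASys (Bu a b d j o e)).V (fun _ : Unit => Λ) (fun _ => URank_q c c'),
      ∀ α ∈ T, f α = 0 := by
    intro f hf α hα
    rw [mem_AV] at hf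
    have hα' : (xd (URank_red c c' α.1), yd (URank_red c c' α.1)) ∈ Λ := by
      have := (mem_filter.1 hα).2
      unfold URank_T at this
      exact (mem_filter.1 this).2
    have h1 := hf () (URank_red c c' α.1) hα'
    rw [sum_eq_single α] at h1
    · rw [URank_tcr, if_pos rfl, one_mul] at h1
      exact h1
    · intro β _ hβ
      rw [URank_tcr, if_neg, zero_mul]
      intro h
      exact hβ (Subtype.ext (URank_eq c c' (hBx β) (hBx α) h))
    · intro h
      exact absurd (mem_univ α) h
  have hfin : Module.finrank ℂ ((ASys (Bu a b d j o e)).V (fun _ : Unit => Λ)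
      (fun _ => URank_q c c')) ≤ Fintype.card {α // α ∈ Bu a b d j o e} - T.card := by
    let φ : (ASys (Bu a b d j o e)).V (fun _ : Unit => Λ) (fun _ => URank_q c c') →ₗ[ℂ]
        ({α // α ∉ T} → ℂ) :=
      (LinearMap.funLeft ℂ ℂ (fun α : {α // α ∉ T} => α.1)).comp (Submodule.subtype _)
    have hφ : Function.Injective φ := by
      rw [← LinearMap.ker_eq_bot, LinearMap.ker_eq_bot']
      intro f hf
      apply Subtype.ext
      funext α
      by_cases hα : α ∈ T
      · exact hvan f.1 f.2 α hα
      · exact congrFun hf ⟨α, hα⟩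
    have h1 := LinearMap.finrank_le_finrank_of_injective hφ
    rw [Module.finrank_fintype_fun_eq_card] at h1
    have h2 : Fintype.card {α // α ∉ T} = Fintype.card {α // α ∈ Bu a b d j o e} - T.card := by
      rw [Fintype.card_subtype_compl, Fintype.card_coe, Fintype.card_coe]
    rw [h2] at h1
    exact h1
  have hgd := gd_le (ASys (Bu a b d j o e)) (fun _ : Unit => Λ) (fun _ => URank_q c c')
  have hc : T.card ≤ Fintype.card {α // α ∈ Bu a b d j o e} := card_le_univ T
  unfold Sys.size
  omega

end Pool.Agent.H51.TB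

end
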