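import Pool.Agent.H94.LP2.H51.TB.LSpan
import Pool.Agent.H94.LP2.H51.TB.Para
import Pool.Agent.H94.LP2.M10
import Pool.Agent.H94.LP2.M16
import Pool.Agent.H94.LP2.M17

/-! The parts of this file: H21.HD.Main, H21.NX.Final, H21.NX.MaxGM, H51.TB.Cone, H51.TB.USpan. -/

section

/-!
The main theorem.
-/

namespace Pool.Agent.H21.HD

open MvPolynomial Pool.Agent.H18.Fat
open scoped Classical

namespace MainX

/-- `fro` in the absence of pairs. -/
lemma fro_no_pairs {P : Type} (r d : ℕ) (e : P → ℕ) (I : Finset P) (he : ∀ i ∈ I, e i ≤ d)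
    (h : ∀ i ∈ I, ∀ j ∈ I, i ≠ j → d + 1 ≤ e i + e j) :
    fro r e I d = ((d + r).choose r : ℤ) - ∑ i ∈ I, ((d - e i + r).choose r : ℤ) := by
  induction I using Finset.induction_on with
  | empty =>
    unfold fro
    simp [add_comm r d]
  | insert a s ha ih =>
    rw [fro_insert r e s a ha, if_pos (he a (Finset.mem_insert_self a s)),
      ih (fun i hi => he i (Finset.mem_insert_of_mem hi))
        (fun i hi j hj => h i (Finset.mem_insert_of_mem hi) j (Finset.mem_insert_of_mem hj)),
      Finset.sum_insert ha]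
    have h1 : fro r e s (d - e a) = ((d - e a + r).choose r : ℤ) := by
      have h2 := fro_union_large r (d - e a) e ∅ s (Finset.disjoint_empty_left s) (by
        intro i hi
        have h3 := h a (Finset.mem_insert_self a s) i (Finset.mem_insert_of_mem hi)
          (fun hc => ha (hc ▸ hi))
        have h4 := he a (Finset.mem_insert_self a s)
        omega)
      rw [Finset.empty_union] at h2
      rw [h2]
      unfold fro
      simp [add_comm r (d - e a)]
    rw [h1]
    ring

/-- A multiplicity larger than the degree. -/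
lemma big_mult {r k d : ℕ} (p : Fin k → Fin (r + 1) → ℂ) (m : Fin k → ℕ) (i : Fin k)
    (hi : d < m i) : Module.finrank ℂ (fatForms r d p m) = 0 := by
  apply fat_eq_bot_of_span
  intro F hF
  apply Submodule.subset_span
  have h1 : d + 1 - m i = 0 := by omega
  refine ⟨i, F, ?_, ?_, ?_⟩
  · simp only [h1]
    omega
  · simp only [h1]
    simpa using hF
  · simp only [h1, pow_zero, mul_one]

end MainX

open MainX

end Pool.Agent.H21.HD

end

section

/-!
# Module Final: exactness in high dimension
-/

namespace Pool.Agent.H21.NX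

open Finset Pool.Agent.H18.Fat Pool.Agent.H18.Ex

theorem ell_eq_choose (r d : ℕ) : ell r (d + 1) = (d + r).choose r := by
  unfold ell
  rw [show d + 1 + r - 1 = d + r by omega]

/-- The multiplicities together with simple points up to the expected number of conditions. -/
def aug (r d : ℕ) {k : ℕ} (m : Fin k → ℕ) : Multiset ℕ :=
  (univ : Finset (Fin k)).val.map m +
    Multiset.replicate ((d + r).choose r - ∑ i, ell r (m i)) 1

theorem aug_map (r d : ℕ) {k : ℕ} (m : Fin k → ℕ) :
    (aug r d m).map (Kind.free (ι := Fin (r + 1))) =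
      ((univ : Finset (Fin k)).val.map fun i => Kind.free (m i)) +
      Multiset.replicate ((d + r).choose r - ∑ i, ell r (m i)) (Kind.free 1) := by
  unfold aug
  rw [Multiset.map_add, Multiset.map_map, Multiset.map_replicate]
  rfl

theorem le_tot_aug (r d : ℕ) {k : ℕ} (m : Fin k → ℕ) :
    ell r (d + 1) ≤ tot r (aug r d m) := by
  unfold aug
  rw [tot_add, tot_replicate, ell_one, mul_one, ell_eq_choose]
  have : tot r ((univ : Finset (Fin k)).val.map m) = ∑ i, ell r (m i) := by
    unfold tot
    rw [Multiset.map_map]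
    rfl
  omega

theorem mem_aug {r d k : ℕ} {m : Fin k → ℕ} {M : ℕ} (hM : 1 ≤ M) (h : ∀ i, m i ≤ M) :
    ∀ x ∈ aug r d m, x ≤ M := by
  intro x hx
  rcases Multiset.mem_add.1 hx with hx | hx
  · obtain ⟨i, -, rfl⟩ := Multiset.mem_map.1 hx
    exact h i
  · rw [Multiset.eq_of_mem_replicate hx]
    exact hM

theorem count_le_aug (r d : ℕ) {k : ℕ} (m : Fin k → ℕ) (μ : ℕ) :
    (univ.filter fun i => m i = μ).card ≤ (aug r d m).count μ := by
  unfold aug
  rw [Multiset.count_add]
  refine le_trans (le_of_eq ?_) (Nat.le_add_right _ _)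
  rw [Multiset.count_map, ← Finset.filter_val, Finset.card_def]
  congr 2
  exact Finset.filter_congr fun x _ => eq_comm

/-- Pigeonhole. -/
theorem exists_count (n M X : ℕ) (S : Multiset ℕ) (hn : 1 ≤ n) (hS : ∀ m ∈ S, m ≤ M)
    (hM : M * X < tot n S) : ∃ μ, 1 ≤ μ ∧ μ ≤ M ∧ X ≤ S.count μ * ell n μ := by
  by_contra hcon
  push Not at hcon
  have h1 : tot n S = ∑ μ ∈ Finset.range (M + 1), S.count μ * ell n μ := by
    unfold tot
    have h2 := Finset.sum_multiset_map_count S (ell n)
    rw [h2]
    rw [Finset.sum_subset (s₂ := Finset.range (M + 1))]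
    · exact Finset.sum_congr rfl fun x _ => by rw [smul_eq_mul]
    · intro x hx
      rw [Finset.mem_range, Nat.lt_succ_iff]
      exact hS x (Multiset.mem_toFinset.1 hx)
    · intro x _ hx
      rw [Multiset.count_eq_zero_of_notMem (fun h => hx (Multiset.mem_toFinset.2 h)), zero_smul]
  rw [Finset.sum_range_succ', ell_zero hn, mul_zero, add_zero] at h1
  have h3 : ∑ μ ∈ Finset.range M, S.count (μ + 1) * ell n (μ + 1) ≤
      ∑ μ ∈ Finset.range M, X := by
    refine Finset.sum_le_sum fun μ hμ => ?_
    exact (hcon (μ + 1) (by omega) (by have := Finset.mem_range.1 hμ; omega)).le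
  rw [Finset.sum_const, Finset.card_range, smul_eq_mul] at h3
  omega

end Pool.Agent.H21.NX

end

section

/-!
# Module MaxGM: from `GM` to general points
-/

namespace Pool.Agent.H21.NX

open Finset MvPolynomial Pool.Agent.H18.Fat Pool.Agent.H18.Ex

namespace MaxGMX

theorem Sx_eq_Rg {ι : Type} [Fintype ι] [DecidableEq ι] (σ : ℕ) :
    Sx ι σ = H18.Ex.Rg σ (fun _ => σ) := rfl

/-- The special configuration. -/
theorem special (r k d L : ℕ) (m : Fin k → ℕ)
    (h : GM (Sx (Fin (r + 1)) d) ((univ.val.map fun i => Kind.free (m i)) +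
      Multiset.replicate L (Kind.free 1))) :
    ∃ p₀ : Fin k → Fin (r + 1) → ℂ, Module.finrank ℂ (fatForms r d p₀ m) ≤ L := by
  classical
  let kk : Fin k ⊕ Fin L → Kind (Fin (r + 1)) :=
    Sum.elim (fun i => Kind.free (m i)) fun _ => Kind.free 1
  have hGI : GI (Sx (Fin (r + 1)) d) kk := by
    rw [← GM_iff, multi_map_sum]
    have h2 : (univ : Finset (Fin L)).val.map (fun _ : Fin L => (Kind.free 1 : Kind (Fin (r + 1))))
        = Multiset.replicate L (Kind.free 1) := by
      rw [Multiset.map_const', Finset.card_val, card_univ, Fintype.card_fin]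
    rw [h2]
    exact h
  rw [Sx_eq_Rg] at hGI
  obtain ⟨pos, hpos⟩ := hGI
  refine ⟨fun i => pos (Sum.inl i), ?_⟩
  set p₀ : Fin k → Fin (r + 1) → ℂ := fun i => pos (Sum.inl i) with hp₀
  have hsupp : ∀ F ∈ fatForms r d p₀ m, ∀ α ∈ F.support,
      (⇑α : Fin (r + 1) → ℕ) ∈ H18.Ex.Rg d (fun _ => d) := by
    intro F hF α hα
    rw [MvPolynomial.mem_support_iff] at hα
    have hαd : α ∈ mons (r + 1) d := by
      rw [mem_mons]
      by_contra h
      exact hα (hF.1.coeff_eq_zero h)
    rw [← Sx_eq_Rg, mem_Sx]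
    have hdeg := mem_mons.1 hαd
    rwa [Finsupp.degree_eq_sum] at hdeg
  let Ψ : fatForms r d p₀ m →ₗ[ℂ] (Fin L → ℂ) :=
    { toFun := fun F j => ∑ a ∈ H18.Ex.Rg d (fun _ => d), cf F.1 a * tcr (pos (Sum.inr j)) a 0
      map_add' := fun F G => by
        funext j
        simp only [Submodule.coe_add, cf, MvPolynomial.coeff_add, Pi.add_apply, add_mul,
          sum_add_distrib]
      map_smul' := fun c F => by
        funext j
        simp only [Submodule.coe_smul, cf, MvPolynomial.coeff_smul, smul_eq_mul, RingHom.id_apply,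
          Pi.smul_apply, mul_sum, mul_assoc] }
  have hΨ : Function.Injective Ψ := by
    rw [← LinearMap.ker_eq_bot, LinearMap.ker_eq_bot']
    intro F hF
    have h1 : ∀ i, Sat (H18.Ex.Rg d (fun _ => d)) (cf F.1) (kk i) (pos i) := by
      rintro (i | j)
      · exact sat_of_vanishes (hsupp F.1 F.2) (F.2.2 i)
      · intro b hb
        have hb0 : b = 0 := by
          change ∑ i, b i < 1 at hb
          have h2 : ∑ i, b i = 0 := by omega
          rw [sum_eq_zero_iff] at h2
          funext i
          exact h2 i (mem_univ _)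
        subst hb0
        exact congrFun hF j
    have h2 := hpos (cf F.1) h1
    apply Subtype.ext
    change F.1 = 0
    by_contra hne
    obtain ⟨α, hα⟩ := MvPolynomial.ne_zero_iff.1 hne
    have h3 := hsupp F.1 F.2 α (MvPolynomial.mem_support_iff.2 hα)
    have h4 := h2 _ h3
    unfold cf at h4
    rw [show Finsupp.equivFunOnFinite.symm (⇑α) = α from by ext; rfl] at h4
    exact hα h4
  have := LinearMap.finrank_le_finrank_of_injective hΨ
  rwa [Module.finrank_fintype_fun_eq_card, Fintype.card_fin] at this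

end MaxGMX

/-- From `GM` to general points (`∃ p₀` with `finrank ≤ N - L`, `general_finrank_le`, and
`finrank_fatForms_ge`; see `general_of_special` in H18/FatLin). -/
theorem max_of_GM (r k d : ℕ) (hr : 1 ≤ r) (m : Fin k → ℕ)
    (h : GM (Sx (Fin (r + 1)) d) ((univ.val.map fun i => Kind.free (m i)) +
      Multiset.replicate ((d + r).choose r - ∑ i, ell r (m i)) (Kind.free 1))) :
    ForGeneralPoints r k fun p => ImposesMaximalConditions r d p m := by
  obtain ⟨p₀, hp₀⟩ := MaxGMX.special r k d _ m h
  refine ((general_finrank_le d p₀ m).and (ForGeneralPoints.coord_ne_zero r k)).mono ?_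
  rintro p ⟨hp1, hp0⟩
  have hge := finrank_fatForms_ge (d := d) hr (fun i => hp0 i 0) m
  have hcast : ∑ i, ((m i + r - 1).choose r : ℤ) = ((∑ i, ell r (m i) : ℕ) : ℤ) := by
    push_cast
    rfl
  unfold ImposesMaximalConditions
  rw [hcast] at hge ⊢
  omega

end Pool.Agent.H21.NX

end

section

/-!
# Module E5 (TB): one large point and simple points

`simple_add`: adding a simple point lowers `gdim` by one unless it is `0` (`le_gdim_elim` with
`ell r 1 = 1`, `gdim_elim_le`, `gdim_simple`).  Then induction on the number of simple points, starting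
from `gdim_single`.  From `gdim` to general points: `gen_gdim` (`Gen r (Fin k)` is
`ForGeneralPoints r k`), see the end of `Pool/Agent/H21/NX/Window.lean` (`window_fin`).

`cone`: let `m i₀` be the largest multiplicity, `m i₀ ≥ d`.  If `m i₀ ≥ d + 1` there is no other point
(`1 ≤ m j ≤ 0`), `V = 0` (`MainX.big_mult`) and `ell r (m i₀) ≥ ell r (d + 1) = binom (d + r, r)`.  If
`m i₀ = d` all other points are simple.
-/

namespace Pool.Agent.H51.TB

open Finset MvPolynomial Pool.Agent.H18.Fat Pool.Agent.H18.Ex Pool.Agent.H21.NX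

theorem simple_add (r d : ℕ) (hr : 1 ≤ r) {κ : Type} [Fintype κ] (m : κ → ℕ) :
    gdim r d (Sum.elim m fun _ : Unit => 1) = gdim r d m - 1 := by
  have h1 := gdim_elim_le r d m (fun _ : Unit => 1)
  have h2 := le_gdim_elim r d hr m (fun _ : Unit => 1)
  have h3 : ∑ _j : Unit, ell r 1 = 1 := by
    rw [Fintype.sum_unique]
    unfold ell
    rw [Nat.add_sub_cancel_left, Nat.choose_self]
  rw [h3] at h2
  have h4 := gdim_simple r d m 1 le_rfl
  by_cases h5 : gdim r d (Sum.elim m fun _ : Unit => 1) = gdim r d m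
  · have h6 := h4 h5
    omega
  · omega

private theorem Cone_many (r d : ℕ) (hr : 1 ≤ r) {κ : Type} [Fintype κ] (m : κ → ℕ) (n : ℕ) :
    gdim r d (Sum.elim m fun _ : Fin n => 1) = gdim r d m - n := by
  induction n with
  | zero =>
    rw [Nat.sub_zero]
    have h := gdim_comp_equiv r d (Equiv.sumEmpty κ (Fin 0)) m
    rw [← h]
    congr 1
    funext x
    rcases x with i | j
    · rfl
    · exact j.elim0
  | succ n ih =>
    have h1 := simple_add r d hr (Sum.elim m fun _ : Fin n => 1)
    rw [ih] at h1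
    let e : κ ⊕ Fin (n + 1) ≃ (κ ⊕ Fin n) ⊕ Unit :=
      ((Equiv.refl κ).sumCongr ((finSuccEquiv n).trans (Equiv.optionEquivSumPUnit.{0, 0} _))).trans
        (Equiv.sumAssoc _ _ _).symm
    have h2 := gdim_comp_equiv r d e (Sum.elim (Sum.elim m fun _ : Fin n => 1) fun _ : Unit => 1)
    have h3 : (fun i => Sum.elim (Sum.elim m fun _ : Fin n => 1) (fun _ : Unit => 1) (e i)) =
        Sum.elim m fun _ : Fin (n + 1) => 1 := by
      funext x
      rcases x with i | j
      · rfl
      · refine Fin.cases ?_ (fun j => ?_) j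
        · simp [e]
        · simp [e]
    rw [h3, h1] at h2
    rw [h2]
    omega

theorem cone (r d k : ℕ) (hr : 1 ≤ r) (m : Fin k → ℕ) (hm : ∀ i, 1 ≤ m i)
    (hp : ∀ i j, i ≠ j → m i + m j ≤ d + 1) (i₀ : Fin k) (h0 : d ≤ m i₀) :
    ForGeneralPoints r k fun p => ImposesMaximalConditions r d p m := by
  classical
  rcases Nat.lt_or_ge d (m i₀) with hlt | hge
  · -- a multiplicity larger than the degree
    have h1 : (d + r).choose r ≤ ∑ i, (m i + r - 1).choose r := by
      refine le_trans ?_ (Finset.single_le_sum (f := fun i => (m i + r - 1).choose r)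
        (fun i _ => Nat.zero_le _) (Finset.mem_univ i₀))
      exact Nat.choose_le_choose r (by omega)
    refine ⟨1, one_ne_zero, fun p _ => ?_⟩
    change ImposesMaximalConditions r d p m
    unfold ImposesMaximalConditions
    rw [Pool.Agent.H21.HD.MainX.big_mult p m i₀ hlt]
    have h2 : (((d + r).choose r : ℕ) : ℤ) ≤ ∑ i, (((m i + r - 1).choose r : ℕ) : ℤ) := by
      exact_mod_cast h1
    rw [max_eq_left (by linarith)]
    simp
  · have hd : m i₀ = d := le_antisymm hge h0
    have hs : ∀ j, j ≠ i₀ → m j = 1 := by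
      intro j hj
      have h1 := hm j
      have h2 := hp i₀ j (Ne.symm hj)
      omega
    obtain ⟨n, hn⟩ : ∃ n, Fintype.card {j : Fin k // ¬ j = i₀} = n := ⟨_, rfl⟩
    let e2 : {j : Fin k // ¬ j = i₀} ≃ Fin n := Fintype.equivFinOfCardEq hn
    let e1 : {j : Fin k // j = i₀} ≃ Unit := Equiv.ofUnique _ _
    let e : Unit ⊕ Fin n ≃ Fin k := (Equiv.sumCongr e1.symm e2.symm).trans (Equiv.sumCompl fun j => j = i₀)
    have he : (fun i => m (e i)) = Sum.elim (fun _ : Unit => d) fun _ : Fin n => 1 := by
      funext x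
      rcases x with u | j
      · have h1 : e (Sum.inl u) = i₀ := by
          change ((e1.symm u : {j : Fin k // j = i₀}) : Fin k) = i₀
          exact (e1.symm u).2
        change m (e (Sum.inl u)) = d
        rw [h1, hd]
      · have h1 : e (Sum.inr j) ≠ i₀ := by
          change ((e2.symm j : {j : Fin k // ¬ j = i₀}) : Fin k) ≠ i₀
          exact (e2.symm j).2
        exact hs _ h1
    have h3 : gdim r d m = gdim r d (fun _ : Unit => d) - n := by
      rw [← gdim_comp_equiv r d e m, he]
      exact Cone_many r d hr _ n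
    have h4 := gdim_single r d hr d (Nat.le_succ d)
    have h5 : ∑ i, ell r (m i) = ell r d + n := by
      rw [← Equiv.sum_comp e (fun i => ell r (m i)), Fintype.sum_sum_type]
      have h6 : ∀ u : Unit, ell r (m (e (Sum.inl u))) = ell r d := by
        intro u
        have := congrFun he (Sum.inl u)
        change m (e (Sum.inl u)) = d at this
        rw [this]
      have h7 : ∀ j : Fin n, ell r (m (e (Sum.inr j))) = 1 := by
        intro j
        have := congrFun he (Sum.inr j)
        change m (e (Sum.inr j)) = 1 at this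
        rw [this]
        unfold ell
        rw [Nat.add_sub_cancel_left, Nat.choose_self]
      rw [Finset.sum_congr rfl fun u _ => h6 u, Finset.sum_congr rfl fun j _ => h7 j]
      simp
    have hg : Gen r (Fin k) fun p => ImposesMaximalConditions r d p m := by
      refine (gen_gdim r d m).mono fun p hp => ?_
      unfold ImposesMaximalConditions
      rw [hp, h3]
      have e3 : ∑ i, (((m i + r - 1).choose r : ℕ) : ℤ) = ((∑ i, ell r (m i) : ℕ) : ℤ) := by
        push_cast
        rfl
      rw [e3, h5]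
      omega
    exact hg

end Pool.Agent.H51.TB

end

section

/-!
# Module U4 (TB2): the span property for forms with a bounded exponent

If `d - j ≤ e` then `Bu a b d j o e = Bx a b d j` and `span_L` applies.  Let `e < d - j`, `φ ≠ 0`,
`V m p ≤ ker φ` for `G(p) ≠ 0`, and suppose `gd m ≠ 0`.  All sections `F` (`Sec (Bu a b d j o e) m F`)
satisfy `F α = 0` for all `α ∈ Bu a b d j o e` with `α_o ≥ k`, for `k = e, e - 1, …, 0`:
* `k = e`: otherwise choose `p` with `G(p) ≠ 0` and `F α (p) ≠ 0` and use `top_zero` for the value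
  of `F` at `p` (`section_mem`);
* from `k + 1` to `k`: let `F` be a section (make it `0` off `Bu a b d j o e`) and `α'` with `α'_o = k`.
  Since `xd α' = d - j > e ≥ k` there is `c ≠ o` with `α'_c ≥ 1`.  By `lie_sec` `Lie o c F` is a section,
  so `Lie o c F α = 0` for `α = α' - e_c + e_o` (`α_o = k + 1`); here `F α = 0`, so
  `(α_c + 1) F α' = 0`.
So every section vanishes, which contradicts `exists_section`.
-/

namespace Pool.Agent.H51.TB

open Finset MvPolynomial Pool.Agent.H18.Ex Pool.Agent.H21.NX Pool.Agent.H18.Ta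

private theorem USpan_rename {a b : ℕ} {κ : Type} (i : κ) (α β : Z a b → ℕ) :
    rename (fun v => (i, v)) (tcr (fun v => (X v : MvPolynomial (Z a b) ℂ)) α β) =
      tcr (fun v => (X (i, v) : MvPolynomial (κ × Z a b) ℂ)) α β := by
  unfold tcr
  rw [map_prod]
  refine prod_congr rfl fun v _ => ?_
  rw [map_mul, map_natCast, map_pow, rename_X]

private theorem USpan_iff {a b : ℕ} {κ : Type} (A : Finset (Z a b → ℕ)) (m : κ → Finset (ℕ × ℕ))
    (F : (Z a b → ℕ) → MvPolynomial (κ × Z a b) ℂ) :
    Sec A m F ↔ ∀ i (r : (ASys A).R (m i)), ∑ x : {α // α ∈ A},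
      rename (fun v => (i, v)) ((ASys A).co (m i) r x) * F x.1 = 0 := by
  have key : ∀ (i : κ) (β : Z a b → ℕ), ∑ α ∈ A, F α * tcr (fun v => X (i, v)) α β =
      ∑ x : {α // α ∈ A}, rename (fun v => (i, v))
        (tcr (fun v => (X v : MvPolynomial (Z a b) ℂ)) x.1 β) * F x.1 := by
    intro i β
    rw [← Finset.sum_coe_sort A (fun α => F α * tcr (fun v => X (i, v)) α β)]
    refine sum_congr rfl fun x _ => ?_
    rw [USpan_rename, mul_comm]
  constructor
  · intro h i r
    have h1 := h i r.1 r.2
    rw [key] at h1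
    exact h1
  · intro h i β hβ
    rw [key]
    exact h i ⟨β, hβ⟩

private theorem USpan_sh {a b : ℕ} (o c : Fin a) (hoc : c ≠ o) (α : Z a b → ℕ)
    (hα : 1 ≤ α (Sum.inl c)) : sh o c (sh c o α) = α := by
  funext v
  unfold sh
  have hne : (Sum.inl c : Z a b) ≠ Sum.inl o := fun h => hoc (Sum.inl_injective h)
  by_cases h1 : v = Sum.inl c
  · subst h1
    rw [Function.update_self, Function.update_of_ne hne, Function.update_self]
    omega
  · rw [Function.update_of_ne h1]
    by_cases h2 : v = Sum.inl o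
    · subst h2
      rw [Function.update_self, Function.update_self]
      omega
    · rw [Function.update_of_ne h2, Function.update_of_ne h2, Function.update_of_ne h1]

private theorem USpan_sh_apply {a b : ℕ} (o c : Fin a) (hoc : c ≠ o) (α : Z a b → ℕ) :
    sh c o α (Sum.inl o) = α (Sum.inl o) + 1 := by
  unfold sh
  have hne : (Sum.inl c : Z a b) ≠ Sum.inl o := fun h => hoc (Sum.inl_injective h)
  rw [Function.update_self]

private theorem USpan_sh_xd {a b : ℕ} (o c : Fin a) (hoc : c ≠ o) (α : Z a b → ℕ)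
    (hα : 1 ≤ α (Sum.inl c)) : xd (sh c o α) = xd α ∧ yd (sh c o α) = yd α := by
  classical
  have hne : (Sum.inl c : Z a b) ≠ Sum.inl o := fun h => hoc (Sum.inl_injective h)
  constructor
  · unfold xd
    have h1 : ∀ f : Fin a → ℕ, ∑ i, f i = f o + (f c + ∑ i ∈ (univ.erase o).erase c, f i) := by
      intro f
      rw [add_sum_erase (univ.erase o) f (mem_erase.2 ⟨hoc, mem_univ c⟩),
        add_sum_erase univ f (mem_univ o)]
    rw [h1, h1 fun i => α (Sum.inl i)]
    have h2 : ∑ i ∈ (univ.erase o).erase c, sh c o α (Sum.inl i) =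
        ∑ i ∈ (univ.erase o).erase c, α (Sum.inl i) := by
      refine sum_congr rfl fun i hi => ?_
      rw [mem_erase, mem_erase] at hi
      unfold sh
      rw [Function.update_of_ne (fun h => hi.2.1 (Sum.inl_injective h)),
        Function.update_of_ne (fun h => hi.1 (Sum.inl_injective h))]
    rw [h2, USpan_sh_apply o c hoc]
    have h3 : sh c o α (Sum.inl c) = α (Sum.inl c) - 1 := by
      unfold sh
      rw [Function.update_of_ne hne, Function.update_self]
    rw [h3]
    omega
  · unfold yd
    refine sum_congr rfl fun i _ => ?_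
    unfold sh
    rw [Function.update_of_ne Sum.inr_ne_inl, Function.update_of_ne Sum.inr_ne_inl]

private theorem USpan_mem {a b d j e : ℕ} {o : Fin a} {α : Z a b → ℕ} :
    α ∈ Bu a b d j o e ↔ α ∈ Bx a b d j ∧ α (Sum.inl o) ≤ e := by
  unfold Bu
  rw [mem_filter]

private theorem USpan_step {a b d j e : ℕ} (o : Fin a) {κ : Type} [Fintype κ]
    (m : κ → Finset (ℕ × ℕ)) (k : ℕ) (hk : k < e) (hde : e < d - j)
    (ih : ∀ F : (Z a b → ℕ) → MvPolynomial (κ × Z a b) ℂ, Sec (Bu a b d j o e) m F →
      ∀ α ∈ Bu a b d j o e, k + 1 ≤ α (Sum.inl o) → F α = 0)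
    (F : (Z a b → ℕ) → MvPolynomial (κ × Z a b) ℂ) (hF : Sec (Bu a b d j o e) m F)
    (α : Z a b → ℕ) (hα : α ∈ Bu a b d j o e) (hαk : k ≤ α (Sum.inl o)) : F α = 0 := by
  classical
  rcases Nat.lt_or_ge k (α (Sum.inl o)) with hlt | hge
  · exact ih F hF α hα hlt
  have hαo : α (Sum.inl o) = k := le_antisymm hge hαk
  have hα' := USpan_mem.1 hα
  have hBx := mem_Bx.1 hα'.1
  obtain ⟨c, hoc, hc⟩ : ∃ c : Fin a, c ≠ o ∧ 1 ≤ α (Sum.inl c) := by
    by_contra hcon
    push Not at hcon
    have h1 : xd α = α (Sum.inl o) := by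
      unfold xd
      refine sum_eq_single o (fun c _ hco => ?_) (fun h => absurd (mem_univ o) h)
      have := hcon c hco
      omega
    omega
  let F' : (Z a b → ℕ) → MvPolynomial (κ × Z a b) ℂ :=
    fun γ => if γ ∈ Bu a b d j o e then F γ else 0
  have hF' : Sec (Bu a b d j o e) m F' := by
    intro i β hβ
    refine Eq.trans (sum_congr rfl fun γ hγ => ?_) (hF i β hβ)
    have : F' γ = F γ := if_pos hγ
    rw [this]
  have h0 : ∀ γ ∈ Bx a b d j, k < γ (Sum.inl o) → F' γ = 0 := by
    intro γ hγ hγk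
    by_cases hmem : γ ∈ Bu a b d j o e
    · have : F' γ = F γ := if_pos hmem
      rw [this]
      exact ih F hF γ hmem hγk
    · exact if_neg hmem
  have hL := lie_sec o c hoc hk m F' hF' h0
  have hsx := USpan_sh_xd o c hoc α hc
  have hso := USpan_sh_apply o c hoc α
  have hshB : sh c o α ∈ Bx a b d j := by
    rw [mem_Bx, hsx.1, hsx.2]
    exact hBx
  have hshU : sh c o α ∈ Bu a b d j o e := USpan_mem.2 ⟨hshB, by omega⟩
  have h1 := ih _ hL (sh c o α) hshU (by omega)
  unfold Lie at h1
  rw [h0 _ hshB (by omega), USpan_sh o c hoc α hc, if_pos (by omega)] at h1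
  simp only [map_zero, mul_zero, sum_const_zero, zero_add] at h1
  have h2 : F' α = 0 := by
    rcases mul_eq_zero.1 h1 with h | h
    · exact absurd h (Nat.cast_ne_zero.2 (Nat.succ_ne_zero _))
    · exact h
  have h3 : F' α = F α := if_pos hα
  rw [← h3]
  exact h2

theorem span_U {a b d j : ℕ} (ha : 2 ≤ a) (hb : 1 ≤ b) (hj : j ≤ d) (o : Fin a) (e : ℕ) :
    (ASys (Bu a b d j o e)).Span := by
  classical
  rcases Nat.lt_or_ge e (d - j) with hde | hde
  swap
  · have hB : Bu a b d j o e = Bx a b d j := by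
      unfold Bu
      apply filter_true_of_mem
      intro α hα
      have h1 := mem_Bx.1 hα
      have h2 : α (Sum.inl o) ≤ xd α := by
        unfold xd
        exact single_le_sum (f := fun i => α (Sum.inl i)) (fun i _ => Nat.zero_le _) (mem_univ o)
      omega
    rw [hB, ASys_Bx]
    exact span_L (by omega) hb hj
  intro κ _ m φ hφ hgn
  by_contra hgd
  obtain ⟨G, hG0, hG⟩ := hgn
  have htop : ∀ F : (Z a b → ℕ) → MvPolynomial (κ × Z a b) ℂ, Sec (Bu a b d j o e) m F →
      ∀ α ∈ Bu a b d j o e, e ≤ α (Sum.inl o) → F α = 0 := by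
    intro F hF α hα hαe
    by_contra hne
    obtain ⟨t, ht⟩ : ∃ t, eval t (G * F α) ≠ 0 := by
      by_contra hcon
      push Not at hcon
      exact mul_ne_zero hG0 hne (MvPolynomial.funext fun t => by rw [hcon t, map_zero])
    rw [map_mul] at ht
    have hle := (USpan_mem.1 hα).2
    have h1 := section_mem (ASys (Bu a b d j o e)) m (fun x => F x.1)
      ((USpan_iff _ m F).1 hF) (fun i v => t (i, v))
    have h2 := top_zero ha hb hj o m φ hφ G hG (fun i v => t (i, v))
      (left_ne_zero_of_mul ht) _ h1 ⟨α, hα⟩ (le_antisymm hle hαe)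
    exact right_ne_zero_of_mul ht h2
  have hall : ∀ n k : ℕ, k + n = e → ∀ F : (Z a b → ℕ) → MvPolynomial (κ × Z a b) ℂ,
      Sec (Bu a b d j o e) m F → ∀ α ∈ Bu a b d j o e, k ≤ α (Sum.inl o) → F α = 0 := by
    intro n
    induction n with
    | zero =>
      intro k hk
      have hke : k = e := by omega
      rw [hke]
      exact htop
    | succ n ih =>
      intro k hk F hF α hα hαk
      exact USpan_step o m k (by omega) hde (ih (k + 1) (by omega)) F hF α hα hαk
  obtain ⟨F, ⟨x, hx⟩, hF⟩ := exists_section (ASys (Bu a b d j o e)) m hgd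
  let F' : (Z a b → ℕ) → MvPolynomial (κ × Z a b) ℂ :=
    fun γ => if h : γ ∈ Bu a b d j o e then F ⟨γ, h⟩ else 0
  have hF'x : ∀ y : {α // α ∈ Bu a b d j o e}, F' y.1 = F y := fun y => dif_pos y.2
  have hS : Sec (Bu a b d j o e) m F' := by
    rw [USpan_iff]
    intro i r
    refine Eq.trans (sum_congr rfl fun y _ => ?_) (hF i r)
    rw [hF'x y]
  have h1 := hall e 0 (by omega) F' hS x.1 x.2 (Nat.zero_le _)
  rw [hF'x x] at h1
  exact hx h1

end Pool.Agent.H51.TB

end
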