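import Pool.Agent.H94.LP2.M02
import Pool.Agent.H94.LP2.M05
import Pool.Agent.H94.LP2.M07

/-! The parts of this file: H21.HD.SpanRestrict, H51.TB.Nt, H51.TB.Sub, H51.TB.Cell, H51.TB.Bnd. -/

section

/-!
Fewer variables, higher degree.
-/

namespace Pool.Agent.H21.HD

open MvPolynomial
open scoped Classical

/-- Passage to fewer variables. -/
theorem span_restrict {σ τ R : Type} [Fintype σ] [Fintype τ] (f : τ → σ)
    (hf : Function.Injective f) (d : ℕ) (w : R → σ → ℂ) (e : R → ℕ)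
    (h : homogeneousSubmodule σ ℂ d ≤ powSpan d w e) :
    homogeneousSubmodule τ ℂ d ≤ powSpan d (fun p t => w p (f t)) e := by
  let x : σ → MvPolynomial τ ℂ := fun s => ∑ t, if f t = s then X t else 0
  have hx : ∀ s, (x s).IsHomogeneous 1 := by
    intro s
    apply IsHomogeneous.sum
    intro t _
    split_ifs
    · exact isHomogeneous_X ℂ t
    · exact isHomogeneous_zero τ ℂ 1
  have hxf : ∀ t, x (f t) = X t := by
    intro t
    change (∑ t', if f t' = f t then (X t' : MvPolynomial τ ℂ) else 0) = X t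
    rw [Finset.sum_eq_single t]
    · rw [if_pos rfl]
    · intro b _ hb
      rw [if_neg (fun hh => hb (hf hh))]
    · intro hh
      exact absurd (Finset.mem_univ _) hh
  have hlin : ∀ v : σ → ℂ, aeval x (lin v) = lin fun t => v (f t) := by
    intro v
    unfold lin
    rw [map_sum]
    have h1 : ∀ s, aeval x (C (v s) * X s : MvPolynomial σ ℂ) =
        ∑ t, if f t = s then (C (v (f t)) * X t : MvPolynomial τ ℂ) else 0 := by
      intro s
      rw [map_mul, aeval_C, aeval_X, algebraMap_eq]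
      change C (v s) * (∑ t, if f t = s then (X t : MvPolynomial τ ℂ) else 0) = _
      rw [Finset.mul_sum]
      refine Finset.sum_congr rfl fun t _ => ?_
      split_ifs with hts
      · rw [hts]
      · rw [mul_zero]
    rw [Finset.sum_congr rfl fun s _ => h1 s, Finset.sum_comm]
    refine Finset.sum_congr rfl fun t _ => ?_
    rw [Finset.sum_ite_eq]
    rw [if_pos (Finset.mem_univ _)]
  have hmap : powSpan d w e ≤
      (powSpan d (fun p t => w p (f t)) e).comap (aeval x : MvPolynomial σ ℂ →ₐ[ℂ] _).toLinearMap := by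
    unfold powSpan
    rw [Submodule.span_le]
    rintro F ⟨p, g, hp, hg, rfl⟩
    refine Submodule.subset_span ⟨p, aeval x g, hp, ?_, ?_⟩
    · have := hg.aeval x hx
      rwa [one_mul] at this
    · rw [AlgHom.toLinearMap_apply, map_mul, map_pow, hlin]
  intro F hF
  have h1 : rename f F ∈ homogeneousSubmodule σ ℂ d := by
    rw [mem_homogeneousSubmodule]
    exact IsHomogeneous.rename_isHomogeneous hF
  have h2 := hmap (h h1)
  rw [Submodule.mem_comap, AlgHom.toLinearMap_apply, aeval_rename] at h2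
  have h3 : (x ∘ f) = X := funext hxf
  rw [h3, aeval_X_left, AlgHom.id_apply] at h2
  exact h2

/-- Spanning in degree `j` implies spanning in degree `d ≥ j`. -/
theorem powSpan_up {σ P : Type} [Fintype σ] (j d : ℕ) (hjd : j ≤ d) (w : P → σ → ℂ) (e : P → ℕ)
    (h : homogeneousSubmodule σ ℂ j ≤ powSpan j w e) :
    homogeneousSubmodule σ ℂ d ≤ powSpan d w e := by
  have h1 : homogeneousSubmodule σ ℂ d =
      homogeneousSubmodule σ ℂ (d - j) * homogeneousSubmodule σ ℂ j := by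
    rw [← homogeneousSubmodule_one_pow (σ := σ) ℂ d, ← homogeneousSubmodule_one_pow (σ := σ) ℂ (d - j),
      ← homogeneousSubmodule_one_pow (σ := σ) ℂ j, ← pow_add, Nat.sub_add_cancel hjd]
  rw [h1, Submodule.mul_le]
  intro G hG F hF
  have hF' := h hF
  have hmap : powSpan j w e ≤ (powSpan d w e).comap (LinearMap.mulLeft ℂ G) := by
    conv_lhs => unfold powSpan
    rw [Submodule.span_le]
    rintro K ⟨p, g, hp, hg, rfl⟩
    refine Submodule.subset_span ⟨p, G * g, hp.trans hjd, ?_, ?_⟩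
    · have := IsHomogeneous.mul hG hg
      rwa [show d - j + (j - e p) = d - e p by omega] at this
    · rw [LinearMap.mulLeft_apply, mul_assoc]
  exact hmap hF'

end Pool.Agent.H21.HD

end

section

/-!
# Module D7 (TB): the choice of the number of `X`-variables

Proof.  Let `z = ⌊log n / 8⌋`, `W = (M!)^2 * primorial z ≤ (M!)^2 * 4^z` (`primorial_le_4_pow`), which is
at most `n^(1/2)` for `n` large, and `a - 2 = W * y`, `y ∈ [y₁, y₂]` such that
`|2 a - n| ≤ ε n`; there are at least `c n / W ≥ c n^(1/2)` values of `y`.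
`multichoose (a - 1) t = binom (a - 2 + t, t) = ∏_{i=1}^t (a - 2 + i) / i`.  If a prime `p ≤ z` or
`p ≤ M` divides `n - 2` then `(a - 2) / i` is divisible by `p` for all `1 ≤ i ≤ M` (as `W` is divisible
by `i * p`), so `multichoose (a - 1) t ≡ 1 (mod p)`.  A prime `p > max(z, M)` dividing `n - 2` divides
`multichoose (a - 1) t`, `t ≤ M`, only if it divides one of the `a - 2 + i`, `1 ≤ i ≤ M`, that is, if
`y` is in one of at most `M` residue classes modulo `p` (`p` does not divide `W`).  The number of such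
`y` in an interval of `Y` integers is at most `M (Y / p + 1)`; the number of primes `p > z` dividing
`n - 2` is at most `log n / log z`.  The total number of bad `y` is at most
`M (log n / log z) (Y / z + 1)`, smaller than `Y` for `n` large since `z ≥ log n / 8 - 1`, that is
`log n / (z log z) → 0`, and `Y ≥ c n^(1/2)`.
-/

namespace Pool.Agent.H51.TB

private theorem Nt_small (M m p : ℕ) (hp : p.Prime) (h : ∀ i, 1 ≤ i → i ≤ M → i * p ∣ m) :
    ∀ t, t ≤ M → ¬ p ∣ Nat.choose (m + t) t := by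
  intro t
  induction t with
  | zero =>
    intro _ hd
    rw [Nat.choose_zero_right] at hd
    exact hp.one_lt.ne' (Nat.dvd_one.1 hd)
  | succ t ih =>
    intro ht hd
    obtain ⟨k, hk⟩ := h (t + 1) (by omega) ht
    have h1 : (m + t + 1) * Nat.choose (m + t) t = Nat.choose (m + t + 1) (t + 1) * (t + 1) :=
      Nat.add_one_mul_choose_eq (m + t) t
    have h2 : Nat.choose (m + t + 1) (t + 1) = (p * k + 1) * Nat.choose (m + t) t := by
      have h3 : (t + 1) * Nat.choose (m + t + 1) (t + 1) = (t + 1) * ((p * k + 1) * Nat.choose (m + t) t) := by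
        rw [mul_comm (t + 1) (Nat.choose (m + t + 1) (t + 1)), ← h1, ← mul_assoc]
        congr 1
        rw [add_assoc, hk]
        ring
      exact Nat.eq_of_mul_eq_mul_left (Nat.succ_pos t) h3
    rw [← add_assoc, h2] at hd
    rcases (Nat.Prime.dvd_mul hp).1 hd with h4 | h4
    · have h5 : p ∣ 1 := (Nat.dvd_add_right (Dvd.intro k rfl)).1 h4
      exact hp.one_lt.ne' (Nat.dvd_one.1 h5)
    · exact ih (by omega) h4

private theorem Nt_large (m p : ℕ) (hp : p.Prime) :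
    ∀ t, p ∣ Nat.choose (m + t) t → ∃ i, 1 ≤ i ∧ i ≤ t ∧ p ∣ m + i := by
  intro t
  induction t with
  | zero =>
    intro hd
    rw [Nat.choose_zero_right] at hd
    exact absurd (Nat.dvd_one.1 hd) hp.one_lt.ne'
  | succ t ih =>
    intro hd
    have h1 : (m + t + 1) * Nat.choose (m + t) t = Nat.choose (m + t + 1) (t + 1) * (t + 1) :=
      Nat.add_one_mul_choose_eq (m + t) t
    have h2 : p ∣ (m + t + 1) * Nat.choose (m + t) t := by
      rw [h1]
      exact Dvd.dvd.mul_right hd _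
    rcases (Nat.Prime.dvd_mul hp).1 h2 with h3 | h3
    · exact ⟨t + 1, by omega, le_refl _, h3⟩
    · obtain ⟨i, h4, h5, h6⟩ := ih h3
      exact ⟨i, h4, by omega, h6⟩

/-- the arithmetic core: among `z` consecutive `y` one is good -/
private theorem Nt_core (M N L z y₀ : ℕ) (hN : N ≠ 0) (hNL : N < 2 ^ (L + 1)) (hz : z = L / 8)
    (hzM : M ≤ z) (hz1 : 1 ≤ z) (hzB : 2 ^ (16 * (M + 1)) ≤ z) :
    ∃ y, y₀ ≤ y ∧ y < y₀ + z ∧ ∀ t, 1 ≤ t → t ≤ M →
      Nat.Coprime (Nat.choose (M.factorial * primorial z * y + t) t) N := by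
  classical
  set W := M.factorial * primorial z with hW
  by_contra hcon
  push Not at hcon
  set S := N.primeFactors.filter (fun p => z < p) with hS
  -- every `y` is bad
  have hbad : ∀ y ∈ Finset.Ico y₀ (y₀ + z), ∃ pi : ℕ × ℕ, pi ∈ S ×ˢ Finset.Icc 1 M ∧ pi.1 ∣ W * y + pi.2 := by
    intro y hy
    rw [Finset.mem_Ico] at hy
    obtain ⟨t, ht1, htM, hnc⟩ := hcon y hy.1 hy.2
    obtain ⟨p, hp, hpc, hpN⟩ := Nat.Prime.not_coprime_iff_dvd.1 hnc
    by_cases hpz : p ≤ z
    · exfalso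
      refine Nt_small M (W * y) p hp (fun i hi1 hiM => ?_) t htM hpc
      have h1 : i ∣ M.factorial := Nat.dvd_factorial hi1 hiM
      have h2 : p ∣ primorial z := hp.dvd_primorial_iff.2 hpz
      exact Dvd.dvd.mul_right (Nat.mul_dvd_mul h1 h2) y
    · obtain ⟨i, hi1, hit, hid⟩ := Nt_large (W * y) p hp t hpc
      refine ⟨(p, i), ?_, hid⟩
      rw [Finset.mem_product]
      refine ⟨?_, Finset.mem_Icc.2 ⟨hi1, hit.trans htM⟩⟩
      rw [hS, Finset.mem_filter]
      exact ⟨Nat.mem_primeFactors.2 ⟨hp, hpN, hN⟩, not_le.1 hpz⟩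
  choose! f hf1 hf2 using hbad
  -- counting
  have hcardS : 16 * (M + 1) * S.card ≤ L := by
    have h1 : (2 ^ (16 * (M + 1))) ^ S.card ≤ ∏ p ∈ S, p := by
      refine Finset.pow_card_le_prod S (fun p => p) _ (fun p hp => ?_)
      rw [hS, Finset.mem_filter] at hp
      exact hzB.trans hp.2.le
    have h2 : ∏ p ∈ S, p ≤ N := by
      refine Nat.le_of_dvd (Nat.pos_of_ne_zero hN) ?_
      refine Dvd.dvd.trans ?_ (Nat.prod_primeFactors_dvd N)
      exact Finset.prod_dvd_prod_of_subset _ _ _ (Finset.filter_subset _ _)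
    rw [← pow_mul] at h1
    have h3 : 2 ^ (16 * (M + 1) * S.card) < 2 ^ (L + 1) := lt_of_le_of_lt (h1.trans h2) hNL
    have h4 := (Nat.pow_lt_pow_iff_right (by norm_num : 1 < 2)).1 h3
    omega
  have hlt : (S ×ˢ Finset.Icc 1 M).card < (Finset.Ico y₀ (y₀ + z)).card := by
    rw [Finset.card_product, Nat.card_Icc, Nat.card_Ico]
    have h5 : 16 * (S.card * M) ≤ L := by
      refine le_trans ?_ hcardS
      nlinarith [Nat.zero_le S.card]
    have h6 : S.card * (M + 1 - 1) = S.card * M := by rw [Nat.add_sub_cancel]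
    rw [h6, Nat.add_sub_cancel_left]
    omega
  obtain ⟨y, hy, y', hy', hne, heq⟩ := Finset.exists_ne_map_eq_of_card_lt_of_maps_to hlt hf1
  -- two different `y` with the same pair
  have key : ∀ a b : ℕ, a ∈ Finset.Ico y₀ (y₀ + z) → b ∈ Finset.Ico y₀ (y₀ + z) → a < b → f a = f b → False := by
    intro a b ha hb hab hfab
    have h1 := hf2 a ha
    have h2 := hf2 b hb
    have h3 := hf1 a ha
    rw [← hfab] at h2
    rw [Finset.mem_product, hS, Finset.mem_filter] at h3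
    obtain ⟨⟨h4, h5⟩, -⟩ := h3
    have hp : (f a).1.Prime := (Nat.mem_primeFactors.1 h4).1
    rw [Finset.mem_Ico] at ha hb
    have h6 : (f a).1 ∣ W * (b - a) := by
      have h7 : W * b + (f a).2 = (W * a + (f a).2) + W * (b - a) := by
        have : b = a + (b - a) := by omega
        calc W * b + (f a).2 = W * (a + (b - a)) + (f a).2 := by rw [← this]
          _ = _ := by ring
      rw [h7] at h2
      exact (Nat.dvd_add_right h1).1 h2
    rcases (Nat.Prime.dvd_mul hp).1 h6 with h8 | h8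
    · rw [hW] at h8
      rcases (Nat.Prime.dvd_mul hp).1 h8 with h9 | h9
      · have := (Nat.Prime.dvd_factorial hp).1 h9
        omega
      · have := hp.dvd_primorial_iff.1 h9
        omega
    · have := Nat.le_of_dvd (by omega) h8
      omega
  rcases lt_or_gt_of_ne hne with h | h
  · exact key y y' hy hy' h heq
  · exact key y' y hy' hy h heq.symm

theorem exists_coprime (M : ℕ) (ε : ℝ) (hε : 0 < ε) : ∃ n₀ : ℕ, ∀ n : ℕ, n₀ ≤ n →
    ∃ a : ℕ, 2 ≤ a ∧ a + 2 ≤ n ∧ |2 * (a : ℝ) - n| ≤ ε * n ∧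
      ∀ t, 1 ≤ t → t ≤ M → Nat.Coprime (Nat.multichoose (a - 1) t) (n - 2) := by
  obtain ⟨F, hF⟩ : ∃ F, F = M.factorial := ⟨_, rfl⟩
  obtain ⟨n₁, hn₁⟩ := exists_nat_ge (((2 * (F : ℝ) + 4) / ε) ^ 2)
  refine ⟨n₁ + (2 * F) ^ 2 + 2 ^ (8 * 2 ^ (16 * (M + 1))) + 8, fun n hn => ?_⟩
  have hB1 : 1 ≤ 2 ^ (16 * (M + 1)) := Nat.one_le_two_pow
  have hBM : M < 2 ^ (16 * (M + 1)) := lt_trans (by omega : M < 16 * (M + 1)) Nat.lt_two_pow_self
  have hall : n₁ ≤ n ∧ (2 * F) ^ 2 ≤ n ∧ 2 ^ (8 * 2 ^ (16 * (M + 1))) ≤ n ∧ 8 ≤ n := by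
    generalize 2 ^ (8 * 2 ^ (16 * (M + 1))) = T at hn ⊢
    generalize (2 * F) ^ 2 = T' at hn ⊢
    omega
  obtain ⟨hn1', hnF, h2B, hn8⟩ := hall
  have hn0 : n ≠ 0 := by
    clear hn
    omega
  clear hn
  obtain ⟨B, hB⟩ : ∃ B, B = 2 ^ (16 * (M + 1)) := ⟨_, rfl⟩
  rw [← hB] at h2B hB1 hBM
  obtain ⟨L, hL⟩ : ∃ L, L = Nat.log 2 n := ⟨_, rfl⟩
  obtain ⟨z, hz⟩ : ∃ z, z = L / 8 := ⟨_, rfl⟩
  have hLB : 8 * B ≤ L := by
    rw [hL]
    exact (Nat.le_log_iff_pow_le (by norm_num) hn0).2 h2B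
  have hzB : B ≤ z := by omega
  have hz1 : 1 ≤ z := hB1.trans hzB
  have hzM : M ≤ z := hBM.le.trans hzB
  have hLn : 2 ^ L ≤ n := by
    rw [hL]
    exact Nat.pow_log_le_self 2 hn0
  have hLn' : n < 2 ^ (L + 1) := by
    rw [hL]
    exact Nat.lt_pow_succ_log_self (by norm_num) n
  -- the size of `W`
  obtain ⟨W, hW⟩ : ∃ W, W = F * primorial z := ⟨_, rfl⟩
  have hF1 : 1 ≤ F := hF ▸ Nat.factorial_pos M
  have hW1 : 1 ≤ W := hW ▸ Nat.mul_pos hF1 (primorial_pos z)
  have h16 : (16 ^ z) ^ 2 ≤ n := by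
    calc (16 ^ z) ^ 2 = 2 ^ (8 * z) := by
          rw [show (16 : ℕ) = 2 ^ 4 by norm_num, ← pow_mul, ← pow_mul]
          congr 1
          ring
      _ ≤ 2 ^ L := Nat.pow_le_pow_right (by norm_num) (by omega)
      _ ≤ n := hLn
  have hWz : W * (z + 1) ≤ F * 16 ^ z := by
    have h1 : primorial z ≤ 4 ^ z := primorial_le_four_pow z
    have h2 : z + 1 ≤ 4 ^ z := Nat.lt_pow_self (by norm_num)
    calc W * (z + 1) = F * (primorial z * (z + 1)) := by rw [hW, mul_assoc]
      _ ≤ F * (4 ^ z * 4 ^ z) := Nat.mul_le_mul_left _ (Nat.mul_le_mul h1 h2)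
      _ = F * 16 ^ z := by rw [← mul_pow]; norm_num
  -- real estimates
  have hsq : ((16 ^ z : ℕ) : ℝ) ≤ Real.sqrt n := by
    apply Real.le_sqrt_of_sq_le
    exact_mod_cast h16
  have hWzR : ((W * (z + 1) : ℕ) : ℝ) ≤ F * Real.sqrt n := by
    calc ((W * (z + 1) : ℕ) : ℝ) ≤ ((F * 16 ^ z : ℕ) : ℝ) := by exact_mod_cast hWz
      _ = F * ((16 ^ z : ℕ) : ℝ) := by push_cast; ring
      _ ≤ F * Real.sqrt n := mul_le_mul_of_nonneg_left hsq (Nat.cast_nonneg F)
  have hnR : (0 : ℝ) < n := by exact_mod_cast Nat.pos_of_ne_zero hn0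
  have hss : Real.sqrt n * Real.sqrt n = n := Real.mul_self_sqrt hnR.le
  have hs1 : (1 : ℝ) ≤ Real.sqrt n := by
    rw [Real.one_le_sqrt]
    exact_mod_cast (by omega : 1 ≤ n)
  have hsE : (2 * (F : ℝ) + 4) / ε ≤ Real.sqrt n := by
    apply Real.le_sqrt_of_sq_le
    exact hn₁.trans (by exact_mod_cast hn1')
  have hsF : 2 * (F : ℝ) ≤ Real.sqrt n := by
    apply Real.le_sqrt_of_sq_le
    exact_mod_cast hnF
  have hEps : 2 * (F * Real.sqrt n) + 4 ≤ ε * n := by
    have h1 : 2 * (F : ℝ) + 4 ≤ ε * Real.sqrt n := by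
      rw [div_le_iff₀ hε] at hsE
      linarith
    have h2 : (2 * (F : ℝ) + 4) * Real.sqrt n ≤ ε * Real.sqrt n * Real.sqrt n :=
      mul_le_mul_of_nonneg_right h1 (Real.sqrt_nonneg _)
    rw [mul_assoc ε, hss] at h2
    have h4 : (2 * (F : ℝ) + 4) * Real.sqrt n = 2 * (F * Real.sqrt n) + 4 * Real.sqrt n := by ring
    linarith
  -- the interval
  obtain ⟨u, hu⟩ : ∃ u, u = n / (2 * W) := ⟨_, rfl⟩
  have hzu : z ≤ u := by
    rw [hu, Nat.le_div_iff_mul_le (by omega)]
    have h1 : ((z * (2 * W) : ℕ) : ℝ) ≤ (n : ℝ) := by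
      have h2 : ((z * (2 * W) : ℕ) : ℝ) ≤ 2 * ((W * (z + 1) : ℕ) : ℝ) := by
        have : z * (2 * W) ≤ 2 * (W * (z + 1)) := by
          have h5 : 2 * (W * (z + 1)) = z * (2 * W) + 2 * W := by ring
          rw [h5]
          exact Nat.le_add_right _ _
        exact_mod_cast this
      have h3 : 2 * (F : ℝ) * Real.sqrt n ≤ Real.sqrt n * Real.sqrt n :=
        mul_le_mul_of_nonneg_right hsF (Real.sqrt_nonneg _)
      rw [hss] at h3
      linarith
    exact_mod_cast h1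
  obtain ⟨y, hy1, hy2, hy3⟩ := Nt_core M (n - 2) L z (u - z) (by omega)
    (lt_of_le_of_lt (Nat.sub_le _ _) hLn') hz hzM hz1 (hB ▸ hzB)
  have hyu : y < u := by omega
  have hup : 2 * W * (y + 1) ≤ n := by
    calc 2 * W * (y + 1) ≤ 2 * W * u := Nat.mul_le_mul_left _ hyu
      _ ≤ n := hu ▸ Nat.mul_div_le n (2 * W)
  have hlo : n < 2 * W * (y + z + 1) := by
    have h1 : n < 2 * W * (u + 1) := by
      rw [hu]
      exact Nat.lt_mul_div_succ n (by omega : 0 < 2 * W)
    refine lt_of_lt_of_le h1 (Nat.mul_le_mul_left _ ?_)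
    omega
  refine ⟨W * y + 2, by omega, ?_, ?_, ?_⟩
  · have h1 : 2 * W * (y + 1) = 2 * (W * y) + 2 * W := by ring
    omega
  · have h1 : (2 : ℝ) * W * (y + 1) ≤ n := by exact_mod_cast hup
    have h2 : (n : ℝ) < 2 * W * (y + z + 1) := by exact_mod_cast hlo
    have h3 : (W : ℝ) * (z + 1) ≤ F * Real.sqrt n := by
      have := hWzR
      push_cast at this
      exact this
    have hW1R : (1 : ℝ) ≤ W := by exact_mod_cast hW1
    push_cast
    have h4 : (2 : ℝ) * W * (y + 1) = 2 * (W * y) + 2 * W := by ring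
    have h5 : (2 : ℝ) * W * (y + z + 1) = 2 * (W * y) + 2 * (W * (z + 1)) := by ring
    have h6 : (0 : ℝ) ≤ F * Real.sqrt n := mul_nonneg (Nat.cast_nonneg F) (Real.sqrt_nonneg _)
    rw [abs_le]
    constructor
    · linarith
    · linarith
  · intro t ht1 htM
    rw [Nat.multichoose_eq]
    have h1 : W * y + 2 - 1 + t - 1 = W * y + t := by omega
    rw [h1, hW, hF]
    exact hy3 t ht1 htM

end Pool.Agent.H51.TB

end

section

/-!
# Module E3 (TB): choosing a part of the points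

`greedy`: induction on `S`.

`choose_part`: let `q = S.count μ`, `S = replicate q μ + R`.  If `e₀ + q * w μ ≥ N` take the smallest
`q' ≤ q` with `e₀ + q' * w μ ≥ N` (`greedy`), so `q' * w μ ≥ N - e₀ ≥ N / 2`.  Otherwise take all `q` of them
and a part of `R` (`greedy` with `N - e₀ - q * w μ`).
-/

namespace Pool.Agent.H51.TB

open Finset

theorem greedy (w : ℕ → ℕ) (B X : ℕ) (S : Multiset ℕ) (hB : ∀ m ∈ S, w m ≤ B)
    (hX : X ≤ (S.map w).sum) : ∃ T ≤ S, X ≤ (T.map w).sum ∧ (T.map w).sum ≤ X + B := by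
  induction S using Multiset.induction_on with
  | empty =>
    refine ⟨0, le_rfl, ?_, ?_⟩
    · simpa using hX
    · simp
  | cons a S ih =>
    by_cases h : X ≤ (S.map w).sum
    · obtain ⟨T, hT, h1, h2⟩ := ih (fun m hm => hB m (Multiset.mem_cons_of_mem hm)) h
      exact ⟨T, hT.trans (Multiset.le_cons_self S a), h1, h2⟩
    · refine ⟨a ::ₘ S, le_rfl, hX, ?_⟩
      have h3 := hB a (Multiset.mem_cons_self a S)
      rw [Multiset.map_cons, Multiset.sum_cons]
      omega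

theorem choose_part (w : ℕ → ℕ) (B N e₀ μ : ℕ) (S : Multiset ℕ) (hB : ∀ m ∈ S, w m ≤ B)
    (he : 2 * e₀ ≤ N) (hN : N ≤ e₀ + (S.map w).sum) :
    ∃ T ≤ S, N ≤ e₀ + (T.map w).sum ∧ e₀ + (T.map w).sum ≤ N + B ∧
      (T.count μ = S.count μ ∨ N ≤ 2 * (T.count μ * w μ)) := by
  set q := S.count μ with hq
  set R := S.filter (fun x => ¬ x = μ) with hR
  have hS : Multiset.replicate q μ + R = S := by
    rw [hq, ← Multiset.filter_eq', hR]
    exact Multiset.filter_add_not _ S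
  have hsum : (S.map w).sum = q * w μ + (R.map w).sum := by
    rw [← hS, Multiset.map_add, Multiset.sum_add, Multiset.map_replicate, Multiset.sum_replicate,
      smul_eq_mul]
  by_cases h : N ≤ e₀ + q * w μ
  · have h1 : N - e₀ ≤ ((Multiset.replicate q μ).map w).sum := by
      rw [Multiset.map_replicate, Multiset.sum_replicate, smul_eq_mul]
      omega
    obtain ⟨T, hT, h2, h3⟩ := greedy w B (N - e₀) (Multiset.replicate q μ)
      (fun m hm => hB m (by rw [← hS]; exact Multiset.mem_add.2 (Or.inl hm))) h1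
    obtain ⟨k, hk, rfl⟩ := Multiset.le_replicate_iff.1 hT
    rw [Multiset.map_replicate, Multiset.sum_replicate, smul_eq_mul] at h2 h3
    refine ⟨Multiset.replicate k μ, ?_, ?_, ?_, Or.inr ?_⟩
    · refine hT.trans ?_
      conv_rhs => rw [← hS]
      exact Multiset.le_add_right _ _
    · rw [Multiset.map_replicate, Multiset.sum_replicate, smul_eq_mul]
      omega
    · rw [Multiset.map_replicate, Multiset.sum_replicate, smul_eq_mul]
      omega
    · rw [Multiset.count_replicate_self]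
      omega
  · have h1 : N - e₀ - q * w μ ≤ (R.map w).sum := by omega
    obtain ⟨T, hT, h2, h3⟩ := greedy w B (N - e₀ - q * w μ) R
      (fun m hm => hB m (by rw [← hS]; exact Multiset.mem_add.2 (Or.inr hm))) h1
    have hcT : T.count μ = 0 := by
      rw [Multiset.count_eq_zero]
      intro hm
      have h4 := Multiset.mem_of_le hT hm
      rw [hR, Multiset.mem_filter] at h4
      exact h4.2 rfl
    have hsT : ((Multiset.replicate q μ + T).map w).sum = q * w μ + (T.map w).sum := by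
      rw [Multiset.map_add, Multiset.sum_add, Multiset.map_replicate, Multiset.sum_replicate,
        smul_eq_mul]
    refine ⟨Multiset.replicate q μ + T, ?_, ?_, ?_, Or.inl ?_⟩
    · conv_rhs => rw [← hS]
      exact Multiset.add_le_add_left hT
    · rw [hsT]
      omega
    · rw [hsT]
      omega
    · rw [Multiset.count_add, Multiset.count_replicate_self, hcT, add_zero]

end Pool.Agent.H51.TB

end

section

/-!
# Module D8 (TB): all size classes occur on all levels

For `j + μ ≤ d` the cell `(j, μ - t)`: the rank of `j` is `ρ = μ - t`, and for a window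
`[gy, d - gx] ∋ j` not containing all of `j + 1, …, j + ρ` one has `wr = d - gx - j`,
`gx + gy + wr ≥ d - j ≥ μ`, so `g ∉ Lam`; otherwise `wr = ρ`.  So `g ∈ Lam` iff `gy ≤ j`,
`gx + j ≤ d` and `|g| < t`, at least for `g = (t - 1, 0)` (`t - 1 + j + ρ ≤ d`), and `g ∈ Lam` implies
`|g| < t`.

For `d < j + μ` (hence `μ ≤ j`) the cell `(j - ρ, 0)`, `ρ = μ - t`: the levels `j - ρ, …, j - 1` (those of
them in the window) are the ones before `j`; if `gy ≤ j - ρ` then `wr = ρ`, and if `gy > j - ρ` then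
`wr = j - gy` and `gx + gy + wr ≥ j ≥ μ`, so `g ∉ Lam`.  The bidegree `g = (0, t - 1)` is in `Lam`:
`t - 1 ≤ j - ρ`.
-/

namespace Pool.Agent.H51.TB

open Finset Pool.Agent.H18.Ex Pool.Agent.H21.NX Pool.Agent.H18.Ta

private theorem Cell_mem {d m j : ℕ} {c g : ℕ × ℕ} : g ∈ Lam d m c j ↔
    g.2 ≤ j ∧ j + g.1 ≤ d ∧ g.1 + g.2 + wr d c g j < m := by
  unfold Lam
  rw [mem_filter, mem_product, mem_range, mem_range]
  constructor
  · exact fun h => h.2
  · exact fun h => ⟨⟨by omega, by omega⟩, h⟩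

/-- the class is determined by an upper bound and an element -/
private theorem Cell_cls {d m j t : ℕ} {c : ℕ × ℕ} (h1 : ∀ g ∈ Lam d m c j, g.1 + g.2 + 1 ≤ t)
    (h2 : ∃ g ∈ Lam d m c j, g.1 + g.2 + 1 = t) : cls d m c j = t := by
  unfold cls
  apply le_antisymm
  · exact Finset.sup_le h1
  · obtain ⟨g, hg, he⟩ := h2
    rw [← he]
    exact Finset.le_sup (f := fun g : ℕ × ℕ => g.1 + g.2 + 1) hg

private theorem Cell_A {d μ j t : ℕ} (ht : 1 ≤ t) (htμ : t ≤ μ) (hA : j + μ ≤ d) :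
    cls d μ (j, μ - t) j = t := by
  have hrk : rk (d + 1) j (μ - t) j = μ - t := by
    unfold rk
    rw [if_neg (lt_irrefl j), if_pos rfl]
  apply Cell_cls
  · intro g hg
    rw [Cell_mem] at hg
    obtain ⟨g1, g2, g3⟩ := hg
    have hwr : min (μ - t) (d - g.1 - j) ≤ wr d (j, μ - t) g j := by
      have hsub : Finset.Ioc j (j + min (μ - t) (d - g.1 - j)) ⊆
          (range (d + 1)).filter fun i => g.2 ≤ i ∧ i + g.1 ≤ d ∧
            rk (d + 1) j (μ - t) i < rk (d + 1) j (μ - t) j := by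
        intro i hi
        rw [Finset.mem_Ioc] at hi
        rw [mem_filter, mem_range, hrk]
        refine ⟨by omega, by omega, by omega, ?_⟩
        unfold rk
        split_ifs <;> omega
      have hc := card_le_card hsub
      rw [Nat.card_Ioc] at hc
      exact le_trans (by omega) hc
    omega
  · refine ⟨(t - 1, 0), ?_, by simp only; omega⟩
    rw [Cell_mem]
    have hwr : wr d (j, μ - t) (t - 1, 0) j ≤ μ - t := by
      have hsub : ((range (d + 1)).filter fun i => 0 ≤ i ∧ i + (t - 1) ≤ d ∧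
            rk (d + 1) j (μ - t) i < rk (d + 1) j (μ - t) j) ⊆ Finset.Ioc j (j + (μ - t)) := by
        intro i hi
        rw [mem_filter, mem_range, hrk] at hi
        obtain ⟨h1, _, _, h4⟩ := hi
        rw [Finset.mem_Ioc]
        unfold rk at h4
        split_ifs at h4 <;> omega
      have hc := card_le_card hsub
      rw [Nat.card_Ioc] at hc
      exact le_trans hc (by omega)
    simp only
    omega

private theorem Cell_B {d μ j t : ℕ} (h2 : 2 * μ ≤ d) (hj : j ≤ d) (ht : 1 ≤ t) (htμ : t ≤ μ)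
    (hB : d < j + μ) : cls d μ (j - (μ - t), 0) j = t := by
  have hrk : rk (d + 1) (j - (μ - t)) 0 j = μ - t := by
    unfold rk
    split_ifs <;> omega
  apply Cell_cls
  · intro g hg
    rw [Cell_mem] at hg
    obtain ⟨g1, g2, g3⟩ := hg
    have hwr : min (μ - t) (j - g.2) ≤ wr d (j - (μ - t), 0) g j := by
      have hsub : Finset.Ico (j - min (μ - t) (j - g.2)) j ⊆
          (range (d + 1)).filter fun i => g.2 ≤ i ∧ i + g.1 ≤ d ∧
            rk (d + 1) (j - (μ - t)) 0 i < rk (d + 1) (j - (μ - t)) 0 j := by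
        intro i hi
        rw [Finset.mem_Ico] at hi
        rw [mem_filter, mem_range, hrk]
        refine ⟨by omega, by omega, by omega, ?_⟩
        unfold rk
        split_ifs <;> omega
      have hc := card_le_card hsub
      rw [Nat.card_Ico] at hc
      exact le_trans (by omega) hc
    omega
  · refine ⟨(0, t - 1), ?_, by simp only; omega⟩
    rw [Cell_mem]
    have hwr : wr d (j - (μ - t), 0) (0, t - 1) j ≤ μ - t := by
      have hsub : ((range (d + 1)).filter fun i => t - 1 ≤ i ∧ i + 0 ≤ d ∧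
            rk (d + 1) (j - (μ - t)) 0 i < rk (d + 1) (j - (μ - t)) 0 j) ⊆
            Finset.Ico (j - (μ - t)) j := by
        intro i hi
        rw [mem_filter, mem_range, hrk] at hi
        obtain ⟨h1, _, _, h4⟩ := hi
        rw [Finset.mem_Ico]
        unfold rk at h4
        split_ifs at h4 <;> omega
      have hc := card_le_card hsub
      rw [Nat.card_Ico] at hc
      exact le_trans hc (by omega)
    simp only
    omega

theorem cell {d μ j t : ℕ} (h2 : 2 * μ ≤ d) (hj : j ≤ d) (ht : 1 ≤ t) (htμ : t ≤ μ) :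
    ∃ c ∈ KK d, c.2 ≤ μ ∧ cls d μ c j = t := by
  by_cases hA : j + μ ≤ d
  · refine ⟨(j, μ - t), ?_, by simp only; omega, Cell_A ht htμ hA⟩
    rw [mem_KK]
    simp only
    omega
  · refine ⟨(j - (μ - t), 0), ?_, Nat.zero_le _, Cell_B h2 hj ht htμ (by omega)⟩
    rw [mem_KK]
    simp only
    omega

theorem cls_le {d m j : ℕ} (c : ℕ × ℕ) : cls d m c j ≤ m := by
  unfold cls
  apply Finset.sup_le
  intro g hg
  rw [Cell_mem] at hg
  omega

/-- A class is attained. -/
theorem cls_attained {d m j : ℕ} (c : ℕ × ℕ) (h : 1 ≤ cls d m c j) :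
    ∃ g ∈ Lam d m c j, g.1 + g.2 + 1 = cls d m c j := by
  have hne : (Lam d m c j).Nonempty := by
    rw [Finset.nonempty_iff_ne_empty]
    intro h0
    unfold cls at h
    rw [h0, Finset.sup_empty] at h
    exact absurd h (by decide)
  obtain ⟨g, hg, he⟩ := Finset.exists_mem_eq_sup (Lam d m c j) hne
    (fun g : ℕ × ℕ => g.1 + g.2 + 1)
  exact ⟨g, hg, he.symm⟩

end Pool.Agent.H51.TB

end

section

/-!
# Module D12 (TB): lower bounds for the masses

`Eg`: `asy` with `δ = 1 / 2^(d+1)` for the finitely many `g` with `|g| ≤ d`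
(`binom (p+q, q) / 2^(p+q) ≥ 1 / 2^d`), so `κ = 1 / 2^(d+1)`.

`mass`: for a level `j` and `1 ≤ t ≤ μ` take the cell `x` of `cell` (`cls d μ x j = t`, `x.2 ≤ μ`).  The sum
is at least `c x * wt a b d μ x j ≥ c x * Eg a b g`, `g ∈ Lam d μ x j`, `|g| + 1 = t` (`cls_attained`),
`≥ c x * κ₀ * ell (n - 1) t`, `n = a + b`, and `c x ≥ κ * ell (n - 1) (d + 1) / ell (n - 1) μ`.  For `t < μ` use
`grow_three` (with a large constant), for `t = μ` use `grow_big`.
-/

namespace Pool.Agent.H51.TB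

open Finset Pool.Agent.H18.Ex Pool.Agent.H21.NX Pool.Agent.H18.Ta

theorem Eg_ge (d : ℕ) : ∃ κ : ℝ, 0 < κ ∧ ∃ ε : ℝ, 0 < ε ∧ ∃ n₀ : ℕ, ∀ a b : ℕ, 1 ≤ a → 1 ≤ b →
    n₀ ≤ a + b → |(a : ℝ) - b| ≤ ε * (a + b : ℕ) → ∀ g : ℕ × ℕ, g.1 + g.2 ≤ d →
    κ * (ell (a + b - 1) (g.1 + g.2 + 1) : ℝ) ≤ (Eg a b g : ℝ) := by
  have hδ : (0 : ℝ) < 1 / 2 ^ (d + 1) := by positivity
  choose ε hε n0 h using fun p q : ℕ => asy p q (1 / 2 ^ (d + 1)) hδ
  obtain ⟨S, hS⟩ : ∃ S : Finset (ℕ × ℕ), S = range (d + 1) ×ˢ range (d + 1) := ⟨_, rfl⟩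
  have hne : S.Nonempty := by
    rw [hS]
    exact ⟨(0, 0), by simp⟩
  refine ⟨1 / 2 ^ (d + 1), hδ, S.inf' hne fun x => ε x.1 x.2, ?_, S.sup fun x => n0 x.1 x.2, ?_⟩
  · rw [Finset.lt_inf'_iff]
    exact fun x _ => hε x.1 x.2
  · intro a b ha hb hn hab g hg
    have hgS : g ∈ S := by
      rw [hS, mem_product, mem_range, mem_range]
      omega
    have h1 : n0 g.1 g.2 ≤ a + b := (Finset.le_sup (f := fun x : ℕ × ℕ => n0 x.1 x.2) hgS).trans hn
    have h2 : |(a : ℝ) - b| ≤ ε g.1 g.2 * (a + b : ℕ) := by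
      refine hab.trans (mul_le_mul_of_nonneg_right ?_ (Nat.cast_nonneg _))
      exact Finset.inf'_le (fun x : ℕ × ℕ => ε x.1 x.2) hgS
    have h3 := h g.1 g.2 a b ha hb h1 h2
    have h4 := (abs_le.1 h3).1
    have h5 : (1 : ℝ) / 2 ^ d ≤ ((g.1 + g.2).choose g.2 : ℝ) / 2 ^ (g.1 + g.2) := by
      have h6 : (1 : ℝ) ≤ ((g.1 + g.2).choose g.2 : ℝ) := by
        exact_mod_cast Nat.choose_pos (Nat.le_add_left g.2 g.1)
      have h7 : (2 : ℝ) ^ (g.1 + g.2) ≤ 2 ^ d := pow_le_pow_right₀ (by norm_num) hg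
      have h8 : (0 : ℝ) < 2 ^ (g.1 + g.2) := by positivity
      calc (1 : ℝ) / 2 ^ d ≤ 1 / 2 ^ (g.1 + g.2) := one_div_le_one_div_of_le h8 h7
        _ ≤ ((g.1 + g.2).choose g.2 : ℝ) / 2 ^ (g.1 + g.2) := div_le_div_of_nonneg_right h6 h8.le
    have h6 : (1 : ℝ) / 2 ^ d = 2 * (1 / 2 ^ (d + 1)) := by
      rw [pow_succ]
      field_simp
    have h7 : (0 : ℝ) ≤ (ell (a + b - 1) (g.1 + g.2 + 1) : ℝ) := Nat.cast_nonneg _
    have h8 := mul_le_mul_of_nonneg_right h5 h7
    have h9 : (Eg a b g : ℝ) = ((Nat.multichoose (a - 1) g.1 * Nat.multichoose (b - 1) g.2 : ℕ) : ℝ) := rfl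
    rw [h9]
    rw [h6] at h8
    linarith

theorem mass (d : ℕ) (κ : ℝ) (hκ : 0 < κ) : ∃ ε : ℝ, 0 < ε ∧ ∃ n₀ : ℕ, ∀ a b : ℕ, 1 ≤ a → 1 ≤ b →
    n₀ ≤ a + b → |(a : ℝ) - b| ≤ ε * (a + b : ℕ) → ∀ M μ : ℕ, 1 ≤ μ → μ ≤ M → μ + M ≤ d →
    ∀ c : ℕ × ℕ → ℕ,
    (∀ x ∈ KK d, x.2 ≤ μ →
      κ * (ell (a + b - 1) (d + 1) : ℝ) ≤ (c x : ℝ) * (ell (a + b - 1) μ : ℝ)) →
    (∀ j ≤ d, ∀ t, 1 ≤ t → t < μ → ell (a + b) (t + 1) * ell (a + b) M ≤
      ∑ x ∈ KK d, if cls d μ x j = t then c x * wt a b d μ x j else 0) ∧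
    (∀ j ≤ d, ell (a + b) (d + 1 - M) * ell (a + b) M ≤
      ∑ x ∈ KK d, if cls d μ x j = μ then c x * wt a b d μ x j else 0) := by
  obtain ⟨κ₀, hκ₀, ε, hε, n1, hE⟩ := Eg_ge d
  obtain ⟨n2, h2⟩ := grow_three d (1 / (κ * κ₀))
  obtain ⟨n3, h3⟩ := grow_big d (1 / (κ * κ₀))
  refine ⟨ε, hε, max n1 (max n2 n3), ?_⟩
  intro a b ha hb hn hab M μ hμ hμM hMd c hc
  have hn1 : n1 ≤ a + b := (le_max_left _ _).trans hn
  have hn2 : n2 ≤ a + b := ((le_max_left _ _).trans (le_max_right _ _)).trans hn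
  have hn3 : n3 ≤ a + b := ((le_max_right _ _).trans (le_max_right _ _)).trans hn
  have hKK : 0 < κ * κ₀ := mul_pos hκ hκ₀
  have hkey : ∀ j ≤ d, ∀ t, 1 ≤ t → t ≤ μ → ∃ s : ℕ,
      s ≤ (∑ x ∈ KK d, if cls d μ x j = t then c x * wt a b d μ x j else 0) ∧
      κ * κ₀ * ((ell (a + b - 1) t : ℝ) * ell (a + b - 1) (d + 1)) ≤ (s : ℝ) * (ell (a + b - 1) μ : ℝ) := by
    intro j hj t ht htμ
    obtain ⟨x, hx, hxμ, hxt⟩ := cell (d := d) (μ := μ) (j := j) (t := t) (by omega) hj ht htμ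
    obtain ⟨g, hg, hgt⟩ := cls_attained (d := d) (m := μ) (j := j) x (by omega)
    refine ⟨c x * wt a b d μ x j, ?_, ?_⟩
    · have h4 := Finset.single_le_sum (f := fun x => if cls d μ x j = t then c x * wt a b d μ x j else 0)
        (fun y _ => Nat.zero_le _) hx
      rw [if_pos hxt] at h4
      exact h4
    · have h4 : Eg a b g ≤ wt a b d μ x j :=
        Finset.single_le_sum (f := fun g => Eg a b g) (fun y _ => Nat.zero_le _) hg
      have h5 := hE a b ha hb hn1 hab g (by omega)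
      rw [hgt, hxt] at h5
      have h6 := hc x hx hxμ
      have h7 : (Eg a b g : ℝ) ≤ (wt a b d μ x j : ℝ) := by exact_mod_cast h4
      have h8 : κ₀ * (ell (a + b - 1) t : ℝ) ≤ (wt a b d μ x j : ℝ) := h5.trans h7
      have h9 : 0 ≤ κ₀ * (ell (a + b - 1) t : ℝ) := by positivity
      have h10 : (0 : ℝ) ≤ (c x : ℝ) * (ell (a + b - 1) μ : ℝ) := by positivity
      push_cast
      calc κ * κ₀ * ((ell (a + b - 1) t : ℝ) * ell (a + b - 1) (d + 1))
          = (κ * (ell (a + b - 1) (d + 1) : ℝ)) * (κ₀ * (ell (a + b - 1) t : ℝ)) := by ring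
        _ ≤ ((c x : ℝ) * (ell (a + b - 1) μ : ℝ)) * (κ₀ * (ell (a + b - 1) t : ℝ)) :=
            mul_le_mul_of_nonneg_right h6 h9
        _ ≤ ((c x : ℝ) * (ell (a + b - 1) μ : ℝ)) * (wt a b d μ x j : ℝ) :=
            mul_le_mul_of_nonneg_left h8 h10
        _ = (c x : ℝ) * (wt a b d μ x j : ℝ) * (ell (a + b - 1) μ : ℝ) := by ring
  have hμpos : (0 : ℝ) < (ell (a + b - 1) μ : ℝ) := by
    have h4 : 0 < ell (a + b - 1) μ := by
      unfold ell
      exact Nat.choose_pos (by omega)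
    exact_mod_cast h4
  constructor
  · intro j hj t ht htμ
    obtain ⟨s, hs1, hs2⟩ := hkey j hj t ht htμ.le
    refine le_trans ?_ hs1
    have h4 := h2 (a + b) hn2 t M μ ht (by omega) hμ (by omega) (by omega)
    rw [one_div, inv_mul_le_iff₀ hKK] at h4
    have h5 := h4.trans hs2
    have h6 : (ell (a + b) (t + 1) : ℝ) * ell (a + b) M ≤ s := le_of_mul_le_mul_right h5 hμpos
    exact_mod_cast h6
  · intro j hj
    obtain ⟨s, hs1, hs2⟩ := hkey j hj μ hμ le_rfl
    refine le_trans ?_ hs1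
    have h4 := h3 (a + b) hn3 M (by omega) (by omega)
    rw [one_div, inv_mul_le_iff₀ hKK] at h4
    have h5 : κ * κ₀ * (ell (a + b - 1) (d + 1) : ℝ) ≤ s := by
      have h6 : κ * κ₀ * (ell (a + b - 1) (d + 1) : ℝ) * (ell (a + b - 1) μ : ℝ) ≤ s * (ell (a + b - 1) μ : ℝ) := by
        calc κ * κ₀ * (ell (a + b - 1) (d + 1) : ℝ) * (ell (a + b - 1) μ : ℝ)
            = κ * κ₀ * ((ell (a + b - 1) μ : ℝ) * ell (a + b - 1) (d + 1)) := by ring
          _ ≤ _ := hs2
      exact le_of_mul_le_mul_right h6 hμpos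
    have h6 := h4.trans h5
    exact_mod_cast h6

end Pool.Agent.H51.TB

end
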