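import Pool.Agent.H94.LP2.M34

/-! The parts of this file: H21.HD.Balanced, H21.HD.BlockA, H21.HD.ColGood, H21.HD.FFl, H21.HD.OneVar, H21.HD.LeadL, H21.HD.SpanOpen, H21.HD.SpanSplit, H21.HD.SpanStep, H21.HD.SpanT. -/

section

/-!
Balanced maps.
-/

namespace Pool.Agent.H21.HD

open scoped Classical

private theorem exists_bal {X Y : Type} [Fintype X] [Fintype Y] [Nonempty Y] :
    ∃ f : X → Y, ∀ y, Fintype.card X / Fintype.card Y ≤
      (Finset.univ.filter (fun x => f x = y)).card ∧
      (Finset.univ.filter (fun x => f x = y)).card ≤ Fintype.card X / Fintype.card Y + 1 := by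
  set n := Fintype.card X with hn
  set m := Fintype.card Y with hm
  have hm0 : 0 < m := Fintype.card_pos
  let eX : X ≃ Fin n := Fintype.equivFin X
  let eY : Y ≃ Fin m := Fintype.equivFin Y
  refine ⟨fun x => eY.symm ⟨(eX x : ℕ) % m, Nat.mod_lt _ hm0⟩, fun y => ?_⟩
  have h1 : (Finset.univ.filter (fun x : X => eY.symm ⟨(eX x : ℕ) % m, Nat.mod_lt _ hm0⟩ = y)).card
      = Nat.count (fun k => k ≡ (eY y : ℕ) [MOD m]) n := by
    rw [Nat.count_eq_card_filter_range]
    refine Finset.card_bij (fun x _ => (eX x : ℕ)) ?_ ?_ ?_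
    · intro x hx
      rw [Finset.mem_filter] at hx ⊢
      refine ⟨Finset.mem_range.2 (eX x).2, ?_⟩
      have h2 := hx.2
      rw [Equiv.symm_apply_eq] at h2
      have h3 := congrArg Fin.val h2
      change (eX x : ℕ) % m = (eY y : ℕ) % m
      rw [Nat.mod_eq_of_lt (eY y).2]
      exact h3
    · intro x _ x' _ h
      exact eX.injective (Fin.ext h)
    · intro k hk
      rw [Finset.mem_filter, Finset.mem_range] at hk
      refine ⟨eX.symm ⟨k, hk.1⟩, ?_, by simp⟩
      rw [Finset.mem_filter]
      refine ⟨Finset.mem_univ _, ?_⟩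
      rw [Equiv.symm_apply_eq]
      apply Fin.ext
      have h4 : k % m = (eY y : ℕ) % m := hk.2
      rw [Nat.mod_eq_of_lt (eY y).2] at h4
      simpa using h4
  rw [h1, Nat.count_modEq_card _ hm0]
  constructor
  · exact Nat.le_add_right _ _
  · split_ifs
    · exact le_refl _
    · exact Nat.le_succ _

/-- A map with fibres of size at most `|X| / |Y| + 1`. -/
theorem exists_balanced {X Y : Type} [Fintype X] [Fintype Y] [Nonempty Y] :
    ∃ f : X → Y, ∀ y, (Finset.univ.filter (fun x => f x = y)).card ≤
      Fintype.card X / Fintype.card Y + 1 := by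
  obtain ⟨f, hf⟩ := exists_bal (X := X) (Y := Y)
  exact ⟨f, fun y => (hf y).2⟩

/-- A map with fibres of size at least `|X| / |Y|`. -/
theorem exists_balanced' {X Y : Type} [Fintype X] [Fintype Y] [Nonempty Y] :
    ∃ f : X → Y, ∀ y, Fintype.card X / Fintype.card Y ≤
      (Finset.univ.filter (fun x => f x = y)).card := by
  obtain ⟨f, hf⟩ := exists_bal (X := X) (Y := Y)
  exact ⟨f, fun y => (hf y).1⟩

end Pool.Agent.H21.HD

end

section

/-!
Components and the substitution.
-/

namespace Pool.Agent.H21.HD

open MvPolynomial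
open scoped Classical

set_option linter.unusedSectionVars false

variable {N : ℕ} {A Λ : Type} [Fintype A] [Fintype Λ]

namespace BlockAX

theorem comp_monomial (a : Fin N → ℕ) (μ : Λ → ℕ) (δ : Sg N A Λ →₀ ℕ) :
    comp a μ (monomial δ (1 : ℂ)) =
      if bdeg δ = a ∧ (fun l => δ (Sum.inr l)) = μ then monomial δ (1 : ℂ) else 0 := by
  unfold comp
  have h := (basisMonomials (Sg N A Λ) ℂ).constr_basis ℂ
    (fun γ => if bdeg γ = a ∧ (fun l => γ (Sum.inr l)) = μ then monomial γ (1 : ℂ) else 0) δ
  simpa using h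

end BlockAX

open BlockAX

theorem coeff_comp (a : Fin N → ℕ) (μ : Λ → ℕ) (F : MvPolynomial (Sg N A Λ) ℂ)
    (γ : Sg N A Λ →₀ ℕ) :
    coeff γ (comp a μ F) =
      if bdeg γ = a ∧ (fun l => γ (Sum.inr l)) = μ then coeff γ F else 0 := by
  induction F using MvPolynomial.induction_on' with
  | monomial δ r =>
    have h1 : (monomial δ r : MvPolynomial (Sg N A Λ) ℂ) = r • monomial δ (1 : ℂ) := by
      rw [MvPolynomial.smul_monomial, smul_eq_mul, mul_one]
    rw [h1, map_smul, comp_monomial, coeff_smul, coeff_smul]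
    by_cases hγδ : δ = γ
    · subst hγδ
      split_ifs <;> simp
    · split_ifs <;> simp [coeff_monomial, hγδ]
  | add p q hp hq =>
    rw [map_add, coeff_add, hp, hq, coeff_add]
    split_ifs <;> simp

namespace BlockAX

/-- All the monomials of `F` have block degrees `a` and label exponents `μ`. -/
def Gr (a : Fin N → ℕ) (μ : Λ → ℕ) (F : MvPolynomial (Sg N A Λ) ℂ) : Prop :=
  ∀ γ, coeff γ F ≠ 0 → bdeg γ = a ∧ (fun l => γ (Sum.inr l)) = μ

theorem bdeg_add (γ δ : Sg N A Λ →₀ ℕ) : bdeg (γ + δ) = bdeg γ + bdeg δ := by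
  funext i
  simp [bdeg, Finset.sum_add_distrib]

theorem Gr.mul {a a' : Fin N → ℕ} {μ μ' : Λ → ℕ} {F G : MvPolynomial (Sg N A Λ) ℂ}
    (hF : Gr a μ F) (hG : Gr a' μ' G) : Gr (a + a') (μ + μ') (F * G) := by
  intro γ hγ
  rw [coeff_mul] at hγ
  obtain ⟨x, hx, hne⟩ := Finset.exists_ne_zero_of_sum_ne_zero hγ
  have h1 := hF x.1 (left_ne_zero_of_mul hne)
  have h2 := hG x.2 (right_ne_zero_of_mul hne)
  rw [Finset.HasAntidiagonal.mem_antidiagonal] at hx
  rw [← hx]
  refine ⟨by rw [bdeg_add, h1.1, h2.1], ?_⟩
  rw [← h1.2, ← h2.2]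
  rfl

theorem Gr.sum {κ : Type*} {a : Fin N → ℕ} {μ : Λ → ℕ} (S : Finset κ)
    (F : κ → MvPolynomial (Sg N A Λ) ℂ)
    (hF : ∀ k ∈ S, Gr a μ (F k)) : Gr a μ (∑ k ∈ S, F k) := by
  intro γ hγ
  rw [coeff_sum] at hγ
  obtain ⟨k, hk, hne⟩ := Finset.exists_ne_zero_of_sum_ne_zero hγ
  exact hF k hk γ hne

theorem Gr.C_mul {a : Fin N → ℕ} {μ : Λ → ℕ} {F : MvPolynomial (Sg N A Λ) ℂ}
    (r : ℂ) (hF : Gr a μ F) : Gr a μ (C r * F) := by
  intro γ hγ
  rw [coeff_C_mul] at hγ
  exact hF γ (right_ne_zero_of_mul hγ)

theorem bdeg_single_inl (i : Fin N) (x : A) (n : ℕ) :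
    bdeg (Finsupp.single (Sum.inl (i, x) : Sg N A Λ) n) = Pi.single i n := by
  funext j
  unfold bdeg
  by_cases hj : j = i
  · subst hj
    rw [Pi.single_eq_same, Finset.sum_eq_single x]
    · simp
    · intro b _ hb
      rw [Finsupp.single_apply, if_neg]
      intro h
      apply hb
      simpa using (Sum.inl.inj h).symm
    · intro h; exact absurd (Finset.mem_univ x) h
  · rw [Pi.single_eq_of_ne hj]
    apply Finset.sum_eq_zero
    intro b _
    rw [Finsupp.single_apply, if_neg]
    intro h
    apply hj
    have := (Prod.mk.inj (Sum.inl.inj h)).1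
    exact this.symm

theorem Gr.X (s : Sg N A Λ) : Gr (bdeg (Finsupp.single s 1))
    (fun l => (Finsupp.single s 1 : Sg N A Λ →₀ ℕ) (Sum.inr l))
    (MvPolynomial.X s : MvPolynomial (Sg N A Λ) ℂ) := by
  intro γ hγ
  rw [coeff_X] at hγ
  have h : Finsupp.single s 1 = γ := by
    by_contra h
    simp [h] at hγ
  subst h
  exact ⟨rfl, rfl⟩

theorem sbt_X_gr (c : Finset (Fin N)) (ref : Fin N → A) (v : Fin N → A → ℂ) (s : Sg N A Λ) :
    Gr (bdeg (Finsupp.single s 1))
    (fun l => (Finsupp.single s 1 : Sg N A Λ →₀ ℕ) (Sum.inr l))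
    (sbt c ref v (MvPolynomial.X s)) := by
  unfold sbt
  rw [aeval_X]
  rcases s with ⟨i, x⟩ | l
  · simp only [Sum.elim_inl]
    split_ifs with h
    · apply Gr.sum
      intro b _
      apply Gr.C_mul
      have := Gr.X (A := A) (Λ := Λ) (Sum.inl (i, b))
      rw [bdeg_single_inl] at this ⊢
      convert this using 1
      funext l
      rw [Finsupp.single_apply, Finsupp.single_apply, if_neg, if_neg]
      · intro h; cases h
      · intro h; cases h
    · exact Gr.X _
  · simp only [Sum.elim_inr]
    exact Gr.X _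

theorem sbt_monomial_gr (c : Finset (Fin N)) (ref : Fin N → A) (v : Fin N → A → ℂ)
    (δ : Sg N A Λ →₀ ℕ) :
    Gr (bdeg δ) (fun l => δ (Sum.inr l)) (sbt c ref v (monomial δ (1 : ℂ))) := by
  induction δ using Finsupp.induction_linear with
  | zero =>
    have h : (monomial (0 : Sg N A Λ →₀ ℕ) (1 : ℂ)) = 1 := rfl
    rw [h, map_one]
    intro γ hγ
    rw [coeff_one] at hγ
    have h : 0 = γ := by
      by_contra h
      simp [h] at hγ
    subst h
    exact ⟨rfl, rfl⟩
  | add f g hf hg =>
    have h : (monomial (f + g) (1 : ℂ) : MvPolynomial (Sg N A Λ) ℂ)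
        = monomial f 1 * monomial g 1 := by
      rw [monomial_mul, one_mul]
    rw [h, map_mul, bdeg_add]
    exact hf.mul hg
  | single s n =>
    induction n with
    | zero =>
      rw [Finsupp.single_zero]
      have h : (monomial (0 : Sg N A Λ →₀ ℕ) (1 : ℂ)) = 1 := rfl
      rw [h, map_one]
      intro γ hγ
      rw [coeff_one] at hγ
      have h : 0 = γ := by
        by_contra h
        simp [h] at hγ
      subst h
      exact ⟨rfl, rfl⟩
    | succ n ih =>
      have h : (monomial (Finsupp.single s (n + 1)) (1 : ℂ) : MvPolynomial (Sg N A Λ) ℂ)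
          = monomial (Finsupp.single s n) 1 * MvPolynomial.X s := by
        rw [MvPolynomial.X, monomial_mul, one_mul, Finsupp.single_add]
      rw [h, map_mul, Finsupp.single_add, bdeg_add]
      exact ih.mul (sbt_X_gr c ref v s)

theorem comp_of_gr {a a' : Fin N → ℕ} {μ μ' : Λ → ℕ} {F : MvPolynomial (Sg N A Λ) ℂ}
    (hF : Gr a' μ' F) : comp a μ F = if a' = a ∧ μ' = μ then F else 0 := by
  ext γ
  rw [coeff_comp]
  by_cases hc : coeff γ F = 0
  · rw [hc]
    split_ifs <;> simp [hc]
  · obtain ⟨h1, h2⟩ := hF γ hc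
    rw [h1, h2]
    split_ifs <;> simp

end BlockAX

/-- The substitution preserves the block degrees and the label exponents. -/
theorem comp_sbt (c : Finset (Fin N)) (ref : Fin N → A) (v : Fin N → A → ℂ)
    (a : Fin N → ℕ) (μ : Λ → ℕ) (F : MvPolynomial (Sg N A Λ) ℂ) :
    comp a μ (sbt c ref v F) = sbt c ref v (comp a μ F) := by
  induction F using MvPolynomial.induction_on' with
  | monomial δ r =>
    have h1 : (monomial δ r : MvPolynomial (Sg N A Λ) ℂ) = r • monomial δ (1 : ℂ) := by
      rw [MvPolynomial.smul_monomial, smul_eq_mul, mul_one]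
    rw [h1, map_smul, map_smul, map_smul, map_smul, comp_monomial,
      comp_of_gr (sbt_monomial_gr c ref v δ)]
    split_ifs <;> simp
  | add p q hp hq =>
    rw [map_add, map_add, map_add, map_add, hp, hq]

namespace BlockAX

/-- The inverse substitution. -/
noncomputable def theta (c : Finset (Fin N)) (ref : Fin N → A) (v : Fin N → A → ℂ) :
    MvPolynomial (Sg N A Λ) ℂ →ₐ[ℂ] MvPolynomial (Sg N A Λ) ℂ :=
  aeval (Sum.elim
    (fun x => if x.1 ∈ c ∧ x.2 = ref x.1 then
        C (v x.1 (ref x.1))⁻¹ * (X (Sum.inl (x.1, ref x.1)) -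
          ∑ a ∈ Finset.univ.erase (ref x.1), C (v x.1 a) * X (Sum.inl (x.1, a)))
      else X (Sum.inl x))
    (fun l => X (Sum.inr l)))

theorem sbt_X_inl_of (c : Finset (Fin N)) (ref : Fin N → A) (v : Fin N → A → ℂ)
    (i : Fin N) (hi : i ∈ c) :
    sbt (Λ := Λ) c ref v (X (Sum.inl (i, ref i))) =
      ∑ a, C (v i a) * X (Sum.inl (i, a)) := by
  unfold sbt
  rw [aeval_X, Sum.elim_inl, if_pos ⟨hi, rfl⟩]

theorem sbt_X_inl_not (c : Finset (Fin N)) (ref : Fin N → A) (v : Fin N → A → ℂ)
    (i : Fin N) (x : A) (h : ¬ (i ∈ c ∧ x = ref i)) :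
    sbt (Λ := Λ) c ref v (X (Sum.inl (i, x))) = X (Sum.inl (i, x)) := by
  unfold sbt
  rw [aeval_X, Sum.elim_inl, if_neg h]

theorem sbt_X_inr (c : Finset (Fin N)) (ref : Fin N → A) (v : Fin N → A → ℂ)
    (l : Λ) :
    sbt (Λ := Λ) c ref v (X (Sum.inr l)) = X (Sum.inr l) := by
  unfold sbt
  rw [aeval_X, Sum.elim_inr]

theorem theta_X_inl_of (c : Finset (Fin N)) (ref : Fin N → A) (v : Fin N → A → ℂ)
    (i : Fin N) (hi : i ∈ c) :
    theta (Λ := Λ) c ref v (X (Sum.inl (i, ref i))) =
      C (v i (ref i))⁻¹ * (X (Sum.inl (i, ref i)) -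
          ∑ a ∈ Finset.univ.erase (ref i), C (v i a) * X (Sum.inl (i, a))) := by
  unfold theta
  rw [aeval_X, Sum.elim_inl, if_pos ⟨hi, rfl⟩]

theorem theta_X_inl_not (c : Finset (Fin N)) (ref : Fin N → A) (v : Fin N → A → ℂ)
    (i : Fin N) (x : A) (h : ¬ (i ∈ c ∧ x = ref i)) :
    theta (Λ := Λ) c ref v (X (Sum.inl (i, x))) = X (Sum.inl (i, x)) := by
  unfold theta
  rw [aeval_X, Sum.elim_inl, if_neg h]

theorem theta_X_inr (c : Finset (Fin N)) (ref : Fin N → A) (v : Fin N → A → ℂ)
    (l : Λ) :
    theta (Λ := Λ) c ref v (X (Sum.inr l)) = X (Sum.inr l) := by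
  unfold theta
  rw [aeval_X, Sum.elim_inr]

theorem theta_sbt (c : Finset (Fin N)) (ref : Fin N → A) (v : Fin N → A → ℂ)
    (hv : ∀ i ∈ c, v i (ref i) ≠ 0) (F : MvPolynomial (Sg N A Λ) ℂ) :
    theta c ref v (sbt c ref v F) = F := by
  have h : (theta (Λ := Λ) c ref v).comp (sbt c ref v) = AlgHom.id ℂ _ := by
    apply MvPolynomial.algHom_ext
    intro s
    rw [AlgHom.comp_apply, AlgHom.id_apply]
    rcases s with ⟨i, x⟩ | l
    · by_cases h : i ∈ c ∧ x = ref i
      · obtain ⟨hi, rfl⟩ := h
        rw [sbt_X_inl_of c ref v i hi, map_sum, ← Finset.add_sum_erase _ _ (Finset.mem_univ (ref i)),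
          map_mul, theta_X_inl_of c ref v i hi, algHom_C]
        have h2 : ∑ x ∈ Finset.univ.erase (ref i), theta (Λ := Λ) c ref v
            (C (v i x) * X (Sum.inl (i, x)))
            = ∑ x ∈ Finset.univ.erase (ref i), C (v i x) * X (Sum.inl (i, x)) := by
          apply Finset.sum_congr rfl
          intro x hx
          rw [map_mul, theta_X_inl_not c ref v i x, algHom_C]
          · rfl
          · intro h
            exact (Finset.ne_of_mem_erase hx) h.2
        rw [h2, ← mul_assoc]
        have h3 : (algebraMap ℂ (MvPolynomial (Sg N A Λ) ℂ)) (v i (ref i)) *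
            C (v i (ref i))⁻¹ = 1 := by
          rw [← algebraMap_eq, ← map_mul, mul_inv_cancel₀ (hv i hi), map_one]
        rw [h3, one_mul]
        ring
      · rw [sbt_X_inl_not c ref v i x h, theta_X_inl_not c ref v i x h]
    · rw [sbt_X_inr, theta_X_inr]
  have := DFunLike.congr_fun h F
  simpa using this

theorem sbt_theta (c : Finset (Fin N)) (ref : Fin N → A) (v : Fin N → A → ℂ)
    (hv : ∀ i ∈ c, v i (ref i) ≠ 0) (F : MvPolynomial (Sg N A Λ) ℂ) :
    sbt c ref v (theta c ref v F) = F := by
  have h : (sbt (Λ := Λ) c ref v).comp (theta c ref v) = AlgHom.id ℂ _ := by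
    apply MvPolynomial.algHom_ext
    intro s
    rw [AlgHom.comp_apply, AlgHom.id_apply]
    rcases s with ⟨i, x⟩ | l
    · by_cases h : i ∈ c ∧ x = ref i
      · obtain ⟨hi, rfl⟩ := h
        rw [theta_X_inl_of c ref v i hi, map_mul, map_sub, map_sum, sbt_X_inl_of c ref v i hi,
          algHom_C]
        have h2 : ∑ x ∈ Finset.univ.erase (ref i), sbt (Λ := Λ) c ref v
            (C (v i x) * X (Sum.inl (i, x)))
            = ∑ x ∈ Finset.univ.erase (ref i), C (v i x) * X (Sum.inl (i, x)) := by
          apply Finset.sum_congr rfl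
          intro x hx
          rw [map_mul, sbt_X_inl_not c ref v i x, algHom_C]
          · rfl
          · intro h
            exact (Finset.ne_of_mem_erase hx) h.2
        rw [h2, ← Finset.add_sum_erase _ _ (Finset.mem_univ (ref i)), add_sub_cancel_right,
          ← mul_assoc]
        have h3 : (algebraMap ℂ (MvPolynomial (Sg N A Λ) ℂ)) (v i (ref i))⁻¹ *
            C (v i (ref i)) = 1 := by
          rw [← algebraMap_eq, ← map_mul, inv_mul_cancel₀ (hv i hi), map_one]
        rw [h3, one_mul]
      · rw [theta_X_inl_not c ref v i x h, sbt_X_inl_not c ref v i x h]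
    · rw [theta_X_inr, sbt_X_inr]
  have := DFunLike.congr_fun h F
  simpa using this

end BlockAX

/-- The substitution is injective if the reference coefficients do not vanish. -/
theorem sbt_injective (c : Finset (Fin N)) (ref : Fin N → A) (v : Fin N → A → ℂ)
    (hv : ∀ i ∈ c, v i (ref i) ≠ 0) :
    Function.Injective (sbt (Λ := Λ) c ref v) :=
  Function.LeftInverse.injective (g := theta c ref v) (theta_sbt c ref v hv)

/-- At a coordinate vector the substitution is the identity. -/
theorem sbt_single (c : Finset (Fin N)) (ref : Fin N → A) (v : Fin N → A → ℂ)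
    (hv : ∀ i ∈ c, v i = Pi.single (ref i) 1) (F : MvPolynomial (Sg N A Λ) ℂ) :
    sbt c ref v F = F := by
  have h : sbt (Λ := Λ) c ref v = AlgHom.id ℂ _ := by
    apply MvPolynomial.algHom_ext
    intro s
    rw [AlgHom.id_apply]
    rcases s with ⟨i, x⟩ | l
    · by_cases h : i ∈ c ∧ x = ref i
      · obtain ⟨hi, rfl⟩ := h
        rw [sbt_X_inl_of c ref v i hi, hv i hi, Finset.sum_eq_single (ref i)]
        · rw [Pi.single_eq_same, C_1, one_mul]
        · intro b _ hb
          rw [Pi.single_eq_of_ne hb, C_0, zero_mul]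
        · intro h; exact absurd (Finset.mem_univ _) h
      · rw [sbt_X_inl_not c ref v i x h]
    · rw [sbt_X_inr]
  rw [h, AlgHom.id_apply]

/-- The coefficients of `sbt c ref v F` are polynomial functions of `v`. -/
theorem sbt_poly (c : Finset (Fin N)) (ref : Fin N → A) (F : MvPolynomial (Sg N A Λ) ℂ)
    (γ : Sg N A Λ →₀ ℕ) :
    PolyFun (fun v : Fin N × A → ℂ => coeff γ (sbt c ref (fun i a => v (i, a)) F)) := by
  induction F using MvPolynomial.induction_on generalizing γ with
  | C r =>
    have h : (fun v : Fin N × A → ℂ => coeff γ (sbt (Λ := Λ) c ref (fun i a => v (i, a)) (C r)))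
        = fun _ => coeff γ (C r : MvPolynomial (Sg N A Λ) ℂ) := by
      funext v
      rw [algHom_C]
      rfl
    rw [h]
    exact PolyFun.const _
  | add p q hp hq =>
    have h := (hp γ).add (hq γ)
    convert h using 2 with v
    rw [map_add, coeff_add]
  | mul_X p s hp =>
    have h1 : ∀ δ : Sg N A Λ →₀ ℕ, PolyFun (fun v : Fin N × A → ℂ =>
        coeff δ (sbt (Λ := Λ) c ref (fun i a => v (i, a)) (X s))) := by
      intro δ
      rcases s with ⟨i, x⟩ | l
      · by_cases h : i ∈ c ∧ x = ref i
        · obtain ⟨hi, rfl⟩ := h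
          have h2 : (fun v : Fin N × A → ℂ => coeff δ
              (sbt (Λ := Λ) c ref (fun i a => v (i, a)) (X (Sum.inl (i, ref i)))))
              = fun v => ∑ a, v (i, a) * coeff δ (X (Sum.inl (i, a)) : MvPolynomial (Sg N A Λ) ℂ) := by
            funext v
            rw [sbt_X_inl_of c ref _ i hi, coeff_sum]
            apply Finset.sum_congr rfl
            intro a _
            rw [coeff_C_mul]
          rw [h2]
          apply PolyFun.sum
          intro a _
          exact (PolyFun.coord _).mul (PolyFun.const _)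
        · have h2 : (fun v : Fin N × A → ℂ => coeff δ
              (sbt (Λ := Λ) c ref (fun i a => v (i, a)) (X (Sum.inl (i, x)))))
              = fun _ => coeff δ (X (Sum.inl (i, x)) : MvPolynomial (Sg N A Λ) ℂ) := by
            funext v
            rw [sbt_X_inl_not c ref _ i x h]
          rw [h2]
          exact PolyFun.const _
      · have h2 : (fun v : Fin N × A → ℂ => coeff δ
              (sbt (Λ := Λ) c ref (fun i a => v (i, a)) (X (Sum.inr l))))
              = fun _ => coeff δ (X (Sum.inr l) : MvPolynomial (Sg N A Λ) ℂ) := by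
          funext v
          rw [sbt_X_inr]
        rw [h2]
        exact PolyFun.const _
    have h3 : (fun v : Fin N × A → ℂ => coeff γ
        (sbt (Λ := Λ) c ref (fun i a => v (i, a)) (p * X s)))
        = fun v => ∑ x ∈ Finset.HasAntidiagonal.antidiagonal γ,
          coeff x.1 (sbt (Λ := Λ) c ref (fun i a => v (i, a)) p) *
          coeff x.2 (sbt (Λ := Λ) c ref (fun i a => v (i, a)) (X s)) := by
      funext v
      rw [map_mul, coeff_mul]
    rw [h3]
    apply PolyFun.sum
    intro x _
    exact (hp x.1).mul (h1 x.2)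

end Pool.Agent.H21.HD

end

section

/-!
From Good to ColInj.
-/

namespace Pool.Agent.H21.HD

open MvPolynomial
open scoped Classical

variable {N : ℕ} {A Λ P : Type} [Fintype A] [Fintype Λ] [Fintype P]

namespace ColGoodX

/-- The exponent vector with blocks `β` and label exponents `μ`. -/
noncomputable def Gam (β : Fin N → A → ℕ) (μ : Λ → ℕ) : Sg N A Λ →₀ ℕ :=
  Finsupp.equivFunOnFinite.symm (Sum.elim (fun x => β x.1 x.2) μ)

theorem Gam_inl (β : Fin N → A → ℕ) (μ : Λ → ℕ) (i : Fin N) (a : A) :
    Gam β μ (Sum.inl (i, a)) = β i a := rfl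

theorem Gam_inr (β : Fin N → A → ℕ) (μ : Λ → ℕ) (l : Λ) :
    Gam β μ (Sum.inr l) = μ l := rfl

theorem Gam_self (γ : Sg N A Λ →₀ ℕ) :
    Gam (fun i a => γ (Sum.inl (i, a))) (fun l => γ (Sum.inr l)) = γ := by
  ext s
  rcases s with ⟨i, a⟩ | l
  · rfl
  · rfl

theorem Gam_inj (β β' : Fin N → A → ℕ) (μ μ' : Λ → ℕ) :
    Gam β μ = Gam β' μ' ↔ β = β' ∧ μ = μ' := by
  constructor
  · intro h
    constructor
    · funext i a
      have := DFunLike.congr_fun h (Sum.inl (i, a))
      simpa [Gam_inl] using this
    · funext l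
      have := DFunLike.congr_fun h (Sum.inr l)
      simpa [Gam_inr] using this
  · rintro ⟨rfl, rfl⟩
    rfl

theorem monomial_Gam (β : Fin N → A → ℕ) (μ : Λ → ℕ) :
    (monomial (Gam β μ) (1 : ℂ)) =
      (∏ i : Fin N, ∏ a : A, X (Sum.inl (i, a)) ^ β i a) * ∏ l : Λ, X (Sum.inr l) ^ μ l := by
  rw [monomial_eq, C_1, one_mul, Finsupp.prod_fintype _ _ (fun _ => pow_zero _),
    Fintype.prod_sum_type, Fintype.prod_prod_type]
  rfl

theorem block_factor (v : A → ℂ) (i : Fin N) (n : ℕ) :
    (∑ a, C (v a) * X (Sum.inl (i, a)) : MvPolynomial (Sg N A Λ) ℂ) ^ n =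
      ∑ k ∈ Finset.piAntidiag Finset.univ n,
        C ((Nat.multinomial Finset.univ k : ℂ) * ∏ a, v a ^ k a) *
          ∏ a, X (Sum.inl (i, a)) ^ k a := by
  rw [Finset.sum_pow_eq_sum_piAntidiag]
  apply Finset.sum_congr rfl
  intro k _
  simp only [mul_pow, Finset.prod_mul_distrib, map_mul, map_prod, map_pow, map_natCast]
  ring

theorem coeff_sbt_monomial (c : Finset (Fin N)) (ref : Fin N → A) (v : Fin N → A → ℂ)
    (γ : Sg N A Λ →₀ ℕ) (hpure : ∀ i ∈ c, ∀ a, a ≠ ref i → γ (Sum.inl (i, a)) = 0)
    (y : Fin N → A → ℕ) (μ : Λ → ℕ) (hy : ∀ i ∈ c, ∑ a, y i a = bdeg γ i) (r : ℂ) :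
    coeff (Gam y μ) (sbt c ref v (monomial γ r)) =
      if (∀ i, i ∉ c → y i = fun a => γ (Sum.inl (i, a))) ∧ (fun l => γ (Sum.inr l)) = μ then
        r * ∏ i ∈ c, ((Nat.multinomial Finset.univ (y i) : ℂ) * ∏ a, v i a ^ y i a)
      else 0 := by
  let T : Fin N → Finset (A → ℕ) := fun i =>
    if i ∈ c then Finset.piAntidiag Finset.univ (bdeg γ i) else {fun a => γ (Sum.inl (i, a))}
  let w : Fin N → (A → ℕ) → ℂ := fun i k =>
    if i ∈ c then (Nat.multinomial Finset.univ k : ℂ) * ∏ a, v i a ^ k a else 1
  have hblock : ∀ i : Fin N,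
      (∏ a : A, (if i ∈ c ∧ a = ref i then ∑ a', C (v i a') * X (Sum.inl (i, a'))
        else X (Sum.inl (i, a)) : MvPolynomial (Sg N A Λ) ℂ) ^ γ (Sum.inl (i, a))) =
      ∑ k ∈ T i, C (w i k) * ∏ a, X (Sum.inl (i, a)) ^ k a := by
    intro i
    by_cases hi : i ∈ c
    · simp only [T, w, hi, if_true, true_and]
      rw [← block_factor]
      have h1 : bdeg γ i = γ (Sum.inl (i, ref i)) := by
        unfold bdeg
        rw [Finset.sum_eq_single (ref i)]
        · intro b _ hb
          exact hpure i hi b hb
        · intro h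
          exact absurd (Finset.mem_univ _) h
      rw [h1, Finset.prod_eq_single (ref i)]
      · rw [if_pos rfl]
      · intro b _ hb
        rw [if_neg hb, hpure i hi b hb, pow_zero]
      · intro h
        exact absurd (Finset.mem_univ _) h
    · simp only [T, w, hi, if_false, false_and, Finset.sum_singleton, C_1, one_mul]
  have hexp : sbt c ref v (monomial γ r) =
      ∑ β ∈ Fintype.piFinset T, monomial (Gam β (fun l => γ (Sum.inr l)))
        (r * ∏ i, w i (β i)) := by
    unfold sbt
    rw [aeval_monomial, Finsupp.prod_fintype _ _ (fun _ => pow_zero _), Fintype.prod_sum_type,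
      Fintype.prod_prod_type]
    simp only [Sum.elim_inl, Sum.elim_inr]
    rw [Finset.prod_congr rfl (fun i _ => hblock i), Finset.prod_univ_sum, Finset.sum_mul,
      Finset.mul_sum]
    apply Finset.sum_congr rfl
    intro β _
    have h2 : monomial (Gam β (fun l => γ (Sum.inr l))) (r * ∏ i, w i (β i)) =
        C (r * ∏ i, w i (β i)) * monomial (Gam β (fun l => γ (Sum.inr l))) (1 : ℂ) := by
      rw [C_mul_monomial, mul_one]
    rw [h2, monomial_Gam, Finset.prod_mul_distrib, map_mul, map_prod]
    rw [MvPolynomial.algebraMap_eq]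
    ring
  rw [hexp, coeff_sum]
  simp only [coeff_monomial, Gam_inj]
  by_cases hμ : (fun l => γ (Sum.inr l)) = μ
  · simp only [hμ, and_true]
    rw [Finset.sum_ite_eq' ]
    have hmem : y ∈ Fintype.piFinset T ↔ ∀ i, i ∉ c → y i = fun a => γ (Sum.inl (i, a)) := by
      rw [Fintype.mem_piFinset]
      constructor
      · intro h i hi
        have := h i
        simp only [T, hi, if_false, Finset.mem_singleton] at this
        exact this
      · intro h i
        by_cases hi : i ∈ c
        · simp only [T, hi, if_true, Finset.mem_piAntidiag]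
          exact ⟨hy i hi, fun _ _ => Finset.mem_univ _⟩
        · simp only [T, hi, if_false, Finset.mem_singleton]
          exact h i hi
    by_cases h3 : ∀ i, i ∉ c → y i = fun a => γ (Sum.inl (i, a))
    · rw [if_pos (hmem.2 h3), if_pos h3]
      congr 1
      simp only [w]
      rw [Finset.prod_ite_mem, Finset.univ_inter]
    · rw [if_neg (fun h => h3 (hmem.1 h)), if_neg h3]
  · simp only [hμ, and_false, if_false, Finset.sum_const_zero]

theorem eval_multinomial (v : A → ℂ) (β : A →₀ ℕ) :
    eval v (monomial β (Nat.multinomial Finset.univ β : ℂ)) =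
      (Nat.multinomial Finset.univ β : ℂ) * ∏ a, v a ^ β a := by
  rw [eval_monomial, Finsupp.prod_fintype _ _ (fun _ => pow_zero _)]

end ColGoodX

open ColGoodX

/-- From the tensor statement to the column: exponent vectors of degree `a i` in the block `i`. -/
theorem colInj_of_good [Nonempty A] (c : P → Finset (Fin N)) (lab : P → Λ)
    (ref : P → Fin N → A) (a : Fin N → ℕ)
    (μ : Λ → ℕ) (hc : ∀ p, ∀ i ∈ c p, a i ≠ 0) (v : P → Fin N → A → ℂ)
    (hv : ∀ p, μ (lab p) ≠ 0 → ∀ i ∈ c p, v p i = Pi.single (ref p i) 1)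
    (h : Good (B := fun i => {β : A →₀ ℕ // β.degree = a i})
      (fun i s => ⟨Finsupp.single s (a i), by simp⟩)
      (fun i β => monomial β.1 (Nat.multinomial Finset.univ β.1 : ℂ))
      (Finset.univ.filter (fun i => a i ≠ 0))
      (Finset.univ.filter (fun p => μ (lab p) = 0)) (Finset.univ.filter (fun p => μ (lab p) ≠ 0))
      c (fun p => (c p).card - μ (lab p)) ref v) :
    ColInj c lab ref a μ v := by
  intro ft hadm hsum
  let B : Fin N → Type := fun i => {β : A →₀ ℕ // β.degree = a i}
  let pt : ∀ i, A → B i := fun i s => ⟨Finsupp.single s (a i), by simp⟩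
  let G : (∀ i, B i) → (Sg N A Λ →₀ ℕ) := fun y => Gam (fun i s => (y i).1 s) μ
  let pur : P → (∀ i, B i) → (∀ i, B i) := fun p y i => if i ∈ c p then pt i (ref p i) else y i
  let κ : P → (∀ i, B i) → ℂ := fun p y =>
    if μ (lab p) = 0 then coeff (G (pur p y)) (ft p) else coeff (G y) (ft p)
  -- blocks of degree zero
  have hB0 : ∀ i, a i = 0 → ∀ x y : B i, x = y := by
    intro i hi x y
    have h1 : x.1 = 0 := (Finsupp.degree_eq_zero_iff _).1 (x.2.trans hi)
    have h2 : y.1 = 0 := (Finsupp.degree_eq_zero_iff _).1 (y.2.trans hi)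
    exact Subtype.ext (h1.trans h2.symm)
  have hsumB : ∀ (i : Fin N) (x : B i), ∑ s, x.1 s = a i :=
    fun i x => (Finsupp.degree_eq_sum x.1).symm.trans x.2
  have hdeg : ∀ (y : ∀ i, B i) (i : Fin N), ∑ s, (y i).1 s = a i :=
    fun y i => hsumB i (y i)
  have hbG : ∀ y : ∀ i, B i, bdeg (G y) = a := by
    intro y
    funext i
    exact hdeg y i
  -- pure blocks
  have hpureB : ∀ (i : Fin N) (x : B i) (s : A), (∀ t, t ≠ s → x.1 t = 0) → x = pt i s := by
    intro i x s hx
    apply Subtype.ext
    ext t
    show x.1 t = Finsupp.single s (a i) t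
    rw [Finsupp.single_apply]
    split_ifs with h1
    · subst h1
      have h2 : ∑ u, x.1 u = a i := hsumB i x
      rw [Finset.sum_eq_single s] at h2
      · exact h2
      · intro b _ hb
        exact hx b hb
      · intro h3
        exact absurd (Finset.mem_univ _) h3
    · exact hx t (fun h2 => h1 h2.symm)
  have hres := h κ ?_ ?_ ?_ ?_
  · -- conclusion
    intro p
    by_contra hp
    obtain ⟨γ, hγ⟩ := MvPolynomial.ne_zero_iff.1 hp
    obtain ⟨hb, hl, hcard⟩ := hadm p γ hγ
    let y : ∀ i, B i := fun i => ⟨Finsupp.equivFunOnFinite.symm (fun s => γ (Sum.inl (i, s))), by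
      rw [Finsupp.degree_eq_sum]
      exact congrFun hb i⟩
    have hGy : G y = γ := by
      show Gam _ μ = γ
      rw [← hl]
      exact Gam_self γ
    by_cases hμ : μ (lab p) = 0
    · have h1 := congrFun (hres.1 p (by simp [hμ])) y
      simp only [κ, hμ, if_true, Pi.zero_apply] at h1
      have h2 : pur p y = y := by
        funext i
        simp only [pur]
        split_ifs with hi
        · symm
          apply hpureB
          intro t ht
          have h3 : (c p).card ≤ pureCount (c p) (ref p) γ := by omega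
          unfold pureCount at h3
          have h4 := Finset.filter_card_eq (le_antisymm (Finset.card_filter_le _ _) h3) i hi
          exact h4 t ht
        · rfl
      rw [h2, hGy] at h1
      exact hγ h1
    · have h1 := congrFun (hres.2 p (by simp [hμ])) y
      simp only [κ, hμ, if_false, Pi.zero_apply] at h1
      rw [hGy] at h1
      exact hγ h1
  · -- ordinary points
    intro p hp x y hxy
    have hμ : μ (lab p) = 0 := by simpa using hp
    simp only [κ, hμ, if_true]
    have h1 : pur p x = pur p y := by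
      funext i
      simp only [pur]
      split_ifs with hi
      · rfl
      · by_cases hi0 : a i = 0
        · exact hB0 i hi0 _ _
        · exact hxy i (by simp [hi, hi0])
    rw [h1]
  · -- special points
    intro q hq x y hxy
    have hμ : μ (lab q) ≠ 0 := by simpa using hq
    simp only [κ, hμ, if_false]
    have h1 : x = y := by
      funext i
      by_cases hi0 : a i = 0
      · exact hB0 i hi0 _ _
      · exact hxy i (by simp [hi0])
    rw [h1]
  · intro q hq y hy
    have hμ : μ (lab q) ≠ 0 := by simpa using hq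
    simp only [κ, hμ, if_false] at hy
    obtain ⟨_, _, hcard⟩ := hadm q _ hy
    have h1 : pureCount (c q) (ref q) (G y) ≤
        ((c q).filter (fun i => y i = pt i (ref q i))).card := by
      unfold pureCount
      apply Finset.card_le_card
      intro i hi
      rw [Finset.mem_filter] at hi ⊢
      refine ⟨hi.1, ?_⟩
      apply hpureB
      intro t ht
      exact hi.2 t ht
    have h2 : (c q).card - μ (lab q) ≤ pureCount (c q) (ref q) (G y) := by omega
    refine h2.trans (h1.trans (le_of_eq ?_))
    congr 1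
    ext i
    simp only [Finset.mem_filter]
    rfl
  · intro y
    have h1 : coeff (G y) (∑ p, sbt (c p) (ref p) (v p) (ft p)) = 0 := by
      rw [hsum, coeff_zero]
    rw [coeff_sum, ← Finset.sum_filter_add_sum_filter_not Finset.univ
      (fun p => μ (lab p) = 0)] at h1
    rw [← h1]
    congr 1
    · apply Finset.sum_congr rfl
      intro p hp
      have hμ : μ (lab p) = 0 := by simpa using hp
      simp only [κ, hμ, if_true]
      -- expand ft p
      have h2 : ft p = ∑ γ ∈ (ft p).support, monomial γ (coeff γ (ft p)) :=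
        (ft p).as_sum
      conv_rhs => rw [h2]
      rw [map_sum, coeff_sum]
      have h3 : ∀ γ ∈ (ft p).support,
          coeff (G y) (sbt (c p) (ref p) (v p) (monomial γ (coeff γ (ft p)))) =
          if γ = G (pur p y) then coeff γ (ft p) *
            ∏ i ∈ c p, ((Nat.multinomial Finset.univ (y i).1 : ℂ) * ∏ s, v p i s ^ (y i).1 s)
          else 0 := by
        intro γ hγ
        obtain ⟨hb, hl, hcard⟩ := hadm p γ (mem_support_iff.1 hγ)
        have h4 : (c p).card ≤ pureCount (c p) (ref p) γ := by omega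
        unfold pureCount at h4
        have h5 := Finset.filter_card_eq (le_antisymm (Finset.card_filter_le _ _) h4)
        rw [show G y = Gam (fun i s => (y i).1 s) μ from rfl,
          coeff_sbt_monomial (c p) (ref p) (v p) γ (fun i hi t ht => h5 i hi t ht) _ μ
            (fun i hi => (hdeg y i).trans (congrFun hb i).symm)]
        have h6 : ((∀ i, i ∉ c p → (fun s => (y i).1 s) = fun s => γ (Sum.inl (i, s))) ∧
            (fun l => γ (Sum.inr l)) = μ) ↔ γ = G (pur p y) := by
          constructor
          · rintro ⟨h7, _⟩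
            rw [← Gam_self γ, hl]
            show Gam _ μ = Gam _ μ
            congr 1
            funext i s
            simp only [pur]
            split_ifs with hi
            · show γ (Sum.inl (i, s)) = Finsupp.single (ref p i) (a i) s
              rw [Finsupp.single_apply]
              split_ifs with h8
              · subst h8
                rw [← congrFun hb i]
                unfold bdeg
                rw [Finset.sum_eq_single (ref p i)]
                · intro b _ hb'
                  exact h5 i hi b hb'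
                · intro h9
                  exact absurd (Finset.mem_univ _) h9
              · exact h5 i hi s (fun h9 => h8 h9.symm)
            · exact (congrFun (h7 i hi) s).symm
          · intro h7
            refine ⟨?_, hl⟩
            intro i hi
            funext s
            rw [h7]
            show (y i).1 s = (pur p y i).1 s
            simp only [pur, hi, if_false]
        simp only [h6]
      rw [Finset.sum_congr rfl h3, Finset.sum_ite_eq']
      have h8 : ∏ i ∈ c p, eval (v p i) (monomial (y i).1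
          (Nat.multinomial Finset.univ (y i).1 : ℂ)) =
          ∏ i ∈ c p, ((Nat.multinomial Finset.univ (y i).1 : ℂ) * ∏ s, v p i s ^ (y i).1 s) := by
        apply Finset.prod_congr rfl
        intro i _
        exact eval_multinomial _ _
      rw [h8]
      split_ifs with h9
      · ring
      · rw [notMem_support_iff.1 h9, mul_zero]
    · apply Finset.sum_congr
      · ext q
        simp
      · intro q hq
        have hμ : μ (lab q) ≠ 0 := by simpa using hq
        simp only [κ, hμ, if_false]
        rw [sbt_single (c q) (ref q) (v q) (hv q hμ)]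

end Pool.Agent.H21.HD

end

section

/-!
The functional FF.
-/

namespace Pool.Agent.H21.HD

open scoped Classical

variable {ι : Type*}

lemma FFlX.EEr_empty (W : Finset ι → ℝ) : EEr W ∅ = 1 := by
  rw [EEr]
  simp

lemma FFlX.EEr_choose (W : Finset ι → ℝ) (Q : Finset ι) (h : Q.Nonempty) :
    EEr W Q = ∑ T ∈ subs Q h.choose, W T * EEr W (Q \ T) := by
  rw [EEr, dif_pos h]
  exact Finset.sum_coe_sort (subs Q h.choose) (fun T => W T * EEr W (Q \ T))

/-- The recursion holds for every element. -/
lemma FFlX.EEr_rec (W : Finset ι → ℝ) : ∀ (n : ℕ) (Q : Finset ι), Q.card = n → ∀ p ∈ Q,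
    EEr W Q = ∑ T ∈ subs Q p, W T * EEr W (Q \ T) := by
  intro n
  induction n using Nat.strong_induction_on with
  | _ n ih =>
    intro Q hQ p hp
    have hne : Q.Nonempty := ⟨p, hp⟩
    rw [FFlX.EEr_choose W Q hne]
    set q := hne.choose with hq
    have hqQ : q ∈ Q := hne.choose_spec
    have key : ∀ a ∈ Q, ∀ b ∈ Q, ∑ T ∈ subs Q a, W T * EEr W (Q \ T) =
        ∑ T ∈ (subs Q a).filter (fun T => b ∈ T), W T * EEr W (Q \ T) +
        ∑ T ∈ (subs Q a).filter (fun T => b ∉ T), ∑ T' ∈ subs (Q \ T) b,
          W T * (W T' * EEr W ((Q \ T) \ T')) := by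
      intro a ha b hb
      rw [← Finset.sum_filter_add_sum_filter_not (subs Q a) (fun T => b ∈ T)]
      congr 1
      refine Finset.sum_congr rfl fun T hT => ?_
      rw [Finset.mem_filter, mem_subs] at hT
      rw [ih _ (by rw [← hQ]; exact card_sdiff_lt' hT.1.1 hT.1.2) (Q \ T) rfl b
        (Finset.mem_sdiff.mpr ⟨hb, hT.2⟩), Finset.mul_sum]
    rw [key q hqQ p hp, key p hp q hqQ]
    congr 1
    · refine Finset.sum_congr ?_ fun _ _ => rfl
      ext T
      rw [Finset.mem_filter, Finset.mem_filter, mem_subs, mem_subs]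
      tauto
    · rw [Finset.sum_sigma', Finset.sum_sigma']
      refine Finset.sum_nbij' (fun x => ⟨x.2, x.1⟩) (fun x => ⟨x.2, x.1⟩) ?_ ?_ ?_ ?_ ?_
      · rintro ⟨T, T'⟩ hx
        rw [Finset.mem_sigma, Finset.mem_filter, mem_subs, mem_subs] at hx
        obtain ⟨⟨⟨h1, h2⟩, h3⟩, h4, h5⟩ := hx
        simp only at h1 h2 h3 h4 h5
        rw [Finset.mem_sigma, Finset.mem_filter, mem_subs, mem_subs]
        have hdisj : Disjoint T T' := by
          rw [Finset.disjoint_right]
          intro y hy hyT
          exact (Finset.mem_sdiff.mp (h4 hy)).2 hyT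
        refine ⟨⟨⟨h4.trans Finset.sdiff_subset, h5⟩, ?_⟩, ?_, h2⟩
        · intro hqT'
          exact (Finset.disjoint_left.mp hdisj h2) hqT'
        · intro y hy
          exact Finset.mem_sdiff.mpr ⟨h1 hy, fun h => (Finset.disjoint_left.mp hdisj hy) h⟩
      · rintro ⟨T, T'⟩ hx
        rw [Finset.mem_sigma, Finset.mem_filter, mem_subs, mem_subs] at hx
        obtain ⟨⟨⟨h1, h2⟩, h3⟩, h4, h5⟩ := hx
        simp only at h1 h2 h3 h4 h5
        rw [Finset.mem_sigma, Finset.mem_filter, mem_subs, mem_subs]
        have hdisj : Disjoint T T' := by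
          rw [Finset.disjoint_right]
          intro y hy hyT
          exact (Finset.mem_sdiff.mp (h4 hy)).2 hyT
        refine ⟨⟨⟨h4.trans Finset.sdiff_subset, h5⟩, ?_⟩, ?_, h2⟩
        · intro hqT'
          exact (Finset.disjoint_left.mp hdisj h2) hqT'
        · intro y hy
          exact Finset.mem_sdiff.mpr ⟨h1 hy, fun h => (Finset.disjoint_left.mp hdisj hy) h⟩
      · rintro ⟨T, T'⟩ _; rfl
      · rintro ⟨T, T'⟩ _; rfl
      · rintro ⟨T, T'⟩ _
        simp only
        rw [sdiff_sdiff_comm]
        ring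

lemma FFlX.EEr_rec' (W : Finset ι → ℝ) (Q : Finset ι) (p : ι) (hp : p ∈ Q) :
    EEr W Q = ∑ T ∈ subs Q p, W T * EEr W (Q \ T) :=
  FFlX.EEr_rec W _ Q rfl p hp

lemma FFlX.EEr_congr {W W' : Finset ι → ℝ} : ∀ (n : ℕ) (Q : Finset ι), Q.card = n →
    (∀ T ⊆ Q, T.Nonempty → W T = W' T) → EEr W Q = EEr W' Q := by
  intro n
  induction n using Nat.strong_induction_on with
  | _ n ih =>
    intro Q hQ h
    by_cases hne : Q.Nonempty
    · obtain ⟨p, hp⟩ := hne
      rw [FFlX.EEr_rec' W Q p hp, FFlX.EEr_rec' W' Q p hp]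
      refine Finset.sum_congr rfl fun T hT => ?_
      rw [mem_subs] at hT
      rw [h T hT.1 ⟨p, hT.2⟩, ih _ (by rw [← hQ]; exact card_sdiff_lt' hT.1 hT.2) (Q \ T) rfl
        (fun T' hT' => h T' (hT'.trans Finset.sdiff_subset))]
    · rw [Finset.not_nonempty_iff_eq_empty] at hne
      rw [hne, FFlX.EEr_empty, FFlX.EEr_empty]

lemma FF_empty (lam : Finset ι → ℝ) : FF lam ∅ = 1 := by
  unfold FF
  exact FFlX.EEr_empty _

/-- The recursion, for every element `i` of `J`. -/
lemma FF_rec (lam : Finset ι → ℝ) (J : Finset ι) (i : ι) (hi : i ∈ J) :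
    FF lam J = FF lam (J.erase i) - ∑ T ∈ subs J i, lam T * FF lam (J \ T) := by
  have h1 : FF lam J = ∑ T ∈ subs J i, ((if T.card = 1 then 1 else 0) - lam T) *
      FF lam (J \ T) := by
    unfold FF
    exact FFlX.EEr_rec' _ J i hi
  rw [h1]
  simp only [sub_mul, Finset.sum_sub_distrib]
  congr 1
  have h2 : ∑ T ∈ subs J i, (if T.card = 1 then (1 : ℝ) else 0) * FF lam (J \ T) =
      ∑ T ∈ subs J i, if T = {i} then FF lam (J \ {i}) else 0 := by
    refine Finset.sum_congr rfl fun T hT => ?_
    rw [mem_subs] at hT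
    by_cases hc : T.card = 1
    · obtain ⟨j, rfl⟩ := Finset.card_eq_one.mp hc
      have hij : i = j := Finset.mem_singleton.mp hT.2
      subst hij
      simp
    · have hne : T ≠ {i} := by
        rintro rfl
        exact hc (Finset.card_singleton i)
      rw [if_neg hc, if_neg hne, zero_mul]
  rw [h2, Finset.sum_ite_eq', if_pos]
  · rw [Finset.sdiff_singleton_eq_erase]
  · rw [mem_subs]
    exact ⟨Finset.singleton_subset_iff.mpr hi, Finset.mem_singleton_self i⟩

lemma FF_congr {lam lam' : Finset ι → ℝ} (J : Finset ι)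
    (h : ∀ T ⊆ J, T.Nonempty → lam T = lam' T) : FF lam J = FF lam' J := by
  unfold FF
  exact FFlX.EEr_congr _ J rfl fun T hT hne => by rw [h T hT hne]

/-- `FF` is affine in each of its arguments. -/
lemma FF_add {lam lam' : Finset ι → ℝ} (J T₀ : Finset ι) (hT₀ : T₀.Nonempty) (hJ : T₀ ⊆ J)
    (μ : ℝ) (h1 : lam' T₀ = lam T₀ + μ) (h2 : ∀ T, T ≠ T₀ → lam' T = lam T) :
    FF lam' J = FF lam J - μ * FF lam (J \ T₀) := by
  obtain ⟨p, hp⟩ := hT₀
  rw [FF_rec lam' J p (hJ hp), FF_rec lam J p (hJ hp)]
  have e1 : FF lam' (J.erase p) = FF lam (J.erase p) := by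
    refine FF_congr _ fun T hT _ => h2 T ?_
    rintro rfl
    exact (Finset.notMem_erase p J) (hT hp)
  have e2 : ∑ T ∈ subs J p, lam' T * FF lam' (J \ T) =
      ∑ T ∈ subs J p, (lam T * FF lam (J \ T) + if T = T₀ then μ * FF lam (J \ T₀) else 0) := by
    refine Finset.sum_congr rfl fun T hT => ?_
    rw [mem_subs] at hT
    have e3 : FF lam' (J \ T) = FF lam (J \ T) := by
      refine FF_congr _ fun T' hT' _ => h2 T' ?_
      rintro rfl
      exact (Finset.mem_sdiff.mp (hT' hp)).2 hT.2
    rw [e3]
    by_cases hc : T = T₀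
    · rw [if_pos hc, hc, h1]
      ring
    · rw [if_neg hc, h2 T hc]
      ring
  rw [e1, e2, Finset.sum_add_distrib, Finset.sum_ite_eq', if_pos (mem_subs.mpr ⟨hJ, hp⟩)]
  ring

/-- For loads that depend only on the cardinality the functional is `phi`. -/
lemma FF_card (κ : ℕ → ℝ) (J : Finset ι) (lam : Finset ι → ℝ)
    (h : ∀ T ⊆ J, T.Nonempty → lam T = κ T.card) : FF lam J = phi κ J.card := by
  have main : ∀ (n : ℕ) (J : Finset ι), J.card = n →
      (∀ T ⊆ J, T.Nonempty → lam T = κ T.card) → FF lam J = phi κ n := by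
    intro n
    induction n using Nat.strong_induction_on with
    | _ n ih =>
      intro J hJ h
      by_cases hne : J.Nonempty
      · obtain ⟨i, hi⟩ := hne
        obtain ⟨m, rfl⟩ : ∃ m, n = m + 1 :=
          Nat.exists_eq_succ_of_ne_zero (by rw [← hJ]; exact Finset.card_ne_zero_of_mem hi)
        have hce : (J.erase i).card = m := by
          rw [Finset.card_erase_of_mem hi, hJ]; rfl
        rw [FF_rec lam J i hi, phi]
        congr 1
        · exact ih m (Nat.lt_succ_self m) _ hce
            fun T hT hT' => h T (hT.trans (Finset.erase_subset i J)) hT'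
        · have e1 : ∑ T ∈ subs J i, lam T * FF lam (J \ T) =
              ∑ U ∈ (J.erase i).powerset, κ (U.card + 1) * phi κ (m - U.card) := by
            symm
            refine Finset.sum_bij' (fun U _ => insert i U) (fun T _ => T.erase i) ?_ ?_ ?_ ?_ ?_
            · intro U hU
              rw [Finset.mem_powerset] at hU
              rw [mem_subs]
              exact ⟨Finset.insert_subset hi (hU.trans (Finset.erase_subset i J)),
                Finset.mem_insert_self i U⟩
            · intro T hT
              rw [mem_subs] at hT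
              rw [Finset.mem_powerset]
              exact Finset.erase_subset_erase i hT.1
            · intro U hU
              rw [Finset.mem_powerset] at hU
              exact Finset.erase_insert fun hiU => Finset.notMem_erase i J (hU hiU)
            · intro T hT
              rw [mem_subs] at hT
              exact Finset.insert_erase hT.2
            · intro U hU
              rw [Finset.mem_powerset] at hU
              have hiU : i ∉ U := fun hiU => Finset.notMem_erase i J (hU hiU)
              have hsub : insert i U ⊆ J :=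
                Finset.insert_subset hi (hU.trans (Finset.erase_subset i J))
              have hcU : (insert i U).card = U.card + 1 := Finset.card_insert_of_notMem hiU
              have hcd : (J \ insert i U).card = m - U.card := by
                rw [Finset.card_sdiff_of_subset hsub, hJ, hcU]
                omega
              rw [h _ hsub ⟨i, Finset.mem_insert_self i U⟩, hcU]
              congr 1
              symm
              refine ih (m - U.card) (by omega) _ hcd fun T hT hT' =>
                h T (hT.trans Finset.sdiff_subset) hT'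
          rw [e1, Finset.sum_powerset_apply_card (fun k => κ (k + 1) * phi κ (m - k)) , hce,
            Finset.sum_range]
          refine Finset.sum_congr rfl fun e _ => ?_
          rw [nsmul_eq_mul]
          ring
      · rw [Finset.not_nonempty_iff_eq_empty] at hne
        rw [hne, FF_empty]
        rw [hne, Finset.card_empty] at hJ
        rw [← hJ, phi]
  exact main _ J rfl h

end Pool.Agent.H21.HD

end

section

/-!
One-variable lemmas.
-/

namespace Pool.Agent.H21.HD

namespace OneVarX

open Polynomial in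
theorem coeff_zero_of {S : Type} [CommRing S] [IsDomain S] (x : S) (hx : x ≠ 0) (E : ℕ)
    (M : Polynomial S) (r : ℕ)
    (h : ∀ t, t < r → ((Polynomial.X + Polynomial.C x) ^ E * M).coeff t = 0) :
    (∀ t, t < r → M.coeff t = 0) ∧
      ((Polynomial.X + Polynomial.C x) ^ E * M).coeff r = x ^ E * M.coeff r := by
  have key : ∀ t, (∀ s, s < t → M.coeff s = 0) →
      ((Polynomial.X + Polynomial.C x) ^ E * M).coeff t = x ^ E * M.coeff t := by
    intro t ht
    rw [Polynomial.coeff_mul, Finset.sum_eq_single (0, t)]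
    · congr 1
      rw [Polynomial.coeff_zero_eq_eval_zero]
      simp
    · rintro ⟨i, j⟩ hij hne
      rw [Finset.HasAntidiagonal.mem_antidiagonal] at hij
      simp only at hij
      have hj : j < t := by
        rcases Nat.eq_zero_or_pos i with hi | hi
        · exfalso
          apply hne
          subst hi
          simp only [zero_add] at hij
          rw [hij]
        · omega
      simp only [ht j hj, mul_zero]
    · intro hn
      exfalso
      apply hn
      rw [Finset.HasAntidiagonal.mem_antidiagonal]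
      simp
  have h1 : ∀ t, t < r → M.coeff t = 0 := by
    intro t
    induction t using Nat.strong_induction_on with
    | _ t ih =>
      intro htr
      have h2 := key t (fun s hs => ih s hs (by omega))
      rw [h t htr] at h2
      have h3 : x ^ E ≠ 0 := pow_ne_zero _ hx
      rcases mul_eq_zero.1 h2.symm with h4 | h4
      · exact absurd h4 h3
      · exact h4
  exact ⟨h1, key r h1⟩

end OneVarX

/-- If `(x + T)^E` divides `Q` and the coefficients below `r` of `Q` vanish then `x^E` divides
the coefficient `r`. -/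
theorem one_var' {S : Type} [CommRing S] [IsDomain S] (x : S) (hx : x ≠ 0) (E : ℕ)
    (Q : Polynomial S) (hQ : (Polynomial.X + Polynomial.C x) ^ E ∣ Q) (r : ℕ)
    (h : ∀ t, t < r → Q.coeff t = 0) : x ^ E ∣ Q.coeff r := by
  obtain ⟨M, rfl⟩ := hQ
  rw [(OneVarX.coeff_zero_of x hx E M r h).2]
  exact dvd_mul_right _ _

/-- The one-variable lemma: if `(x + T)^E` divides `Q` and the coefficients `1, …, r - 1` of `Q`
vanish then `x^(E-1)` divides the coefficient `r`. -/
theorem one_var {S : Type} [CommRing S] [IsDomain S] [Algebra ℚ S] (x : S) (hx : x ≠ 0) (E : ℕ)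
    (Q : Polynomial S) (hQ : (Polynomial.X + Polynomial.C x) ^ E ∣ Q) (r : ℕ) (hr : 1 ≤ r)
    (h : ∀ t, 1 ≤ t → t < r → Q.coeff t = 0) : x ^ (E - 1) ∣ Q.coeff r := by
  have h1 := Polynomial.pow_sub_one_dvd_derivative_of_pow_dvd hQ
  have h2 := one_var' x hx (E - 1) _ h1 (r - 1) (by
    intro t ht
    rw [Polynomial.coeff_derivative, h (t + 1) (by omega) (by omega), zero_mul])
  rw [Polynomial.coeff_derivative] at h2
  have h3 : r - 1 + 1 = r := by omega
  rw [h3] at h2
  have h4 : ((r - 1 : ℕ) : S) + 1 = algebraMap ℚ S (r : ℚ) := by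
    rw [map_natCast]
    have h5 : ((r - 1 : ℕ) : S) + 1 = ((r - 1 + 1 : ℕ) : S) := by push_cast; ring
    rw [h5, h3]
  rw [h4] at h2
  have h5 : IsUnit (algebraMap ℚ S (r : ℚ)) := by
    apply IsUnit.map
    apply IsUnit.mk0
    exact_mod_cast (by omega : r ≠ 0)
  exact (h5.dvd_mul_right).1 h2

end Pool.Agent.H21.HD

end

section

/-!
The leading coefficient lemma.
-/

namespace Pool.Agent.H21.HD

namespace LeadLX

open MvPolynomial

theorem key_lt_iff {N : ℕ} (a b : Fin N → ℕ) : key a < key b ↔
    ∃ i, (∀ j, j < i → rk0 (a j) = rk0 (b j)) ∧ rk0 (a i) < rk0 (b i) := Iff.rfl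

theorem key_lt_head {N : ℕ} (a b : Fin (N + 1) → ℕ) (h : rk0 (a 0) < rk0 (b 0)) :
    key a < key b := by
  rw [key_lt_iff]
  exact ⟨0, fun j hj => absurd hj (Fin.not_lt_zero j), h⟩

theorem key_lt_tail {N : ℕ} (a b : Fin (N + 1) → ℕ) (h0 : a 0 = b 0)
    (h : key (fun i => a i.succ) < key (fun i => b i.succ)) : key a < key b := by
  rw [key_lt_iff] at h ⊢
  obtain ⟨i, h1, h2⟩ := h
  refine ⟨i.succ, fun j hj => ?_, h2⟩
  refine Fin.cases ?_ (fun j' => ?_) j hj
  · intro _
    rw [h0]
  · intro hj'
    exact h1 j' (Fin.succ_lt_succ_iff.1 hj')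

theorem rk0_lt_of {a b : ℕ} (ha : a ≠ 0) (h : a < b) : rk0 a < rk0 b := by
  unfold rk0
  rw [if_neg ha, if_neg (by omega)]
  exact_mod_cast h

theorem rk0_lt_zero {a : ℕ} (ha : a ≠ 0) : rk0 a < rk0 0 := by
  unfold rk0
  rw [if_neg ha, if_pos rfl]
  exact ENat.natCast_lt_top a

/-- The remaining coordinates. -/
def tl {N : ℕ} (c : Finset (Fin (N + 1))) : Finset (Fin N) :=
  Finset.univ.filter (fun i : Fin N => i.succ ∈ c)

theorem form_split {R : Type} [CommRing R] {N : ℕ} (c : Finset (Fin (N + 1))) (y : R) :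
    finSuccEquiv R N ((∑ i ∈ c, X i) + C y) =
      (if (0 : Fin (N + 1)) ∈ c then Polynomial.X else 0) +
        Polynomial.C ((∑ i ∈ tl c, X i) + C y) := by
  have h1 : (∑ i ∈ c, X i : MvPolynomial (Fin (N + 1)) R) =
      ∑ i, if i ∈ c then X i else 0 := by
    rw [Finset.sum_ite_mem, Finset.univ_inter]
  have h2 : finSuccEquiv R N (C y) = Polynomial.C (C y) := by
    simp [finSuccEquiv_apply]
  have h3 : finSuccEquiv R N (if (0 : Fin (N + 1)) ∈ c then X 0 else 0) =
      (if (0 : Fin (N + 1)) ∈ c then Polynomial.X else 0) := by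
    split_ifs
    · exact finSuccEquiv_X_zero
    · exact map_zero _
  have h4 : finSuccEquiv R N (∑ i : Fin N, if i.succ ∈ c then X i.succ else 0) =
      Polynomial.C (∑ i ∈ tl c, X i) := by
    unfold tl
    rw [map_sum, Finset.sum_filter, map_sum]
    refine Finset.sum_congr rfl fun i _ => ?_
    split_ifs
    · exact finSuccEquiv_X_succ
    · rw [map_zero, map_zero]
  rw [h1, Fin.sum_univ_succ, map_add, map_add, h2, h3, h4, map_add, add_assoc]

theorem card_split {N : ℕ} (c : Finset (Fin (N + 1))) (ω : Fin (N + 1) → ℕ) :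
    (c.filter (fun i => ω i = 0)).card =
      (if (0 : Fin (N + 1)) ∈ c ∧ ω 0 = 0 then 1 else 0) +
        ((tl c).filter (fun i => ω i.succ = 0)).card := by
  have h1 : (c.filter (fun i => ω i = 0)).card =
      ∑ i : Fin (N + 1), if i ∈ c ∧ ω i = 0 then 1 else 0 := by
    rw [Finset.card_filter, ← Finset.sum_filter, ← Finset.sum_filter]
    congr 1
    ext i
    simp
  have h2 : ((tl c).filter (fun i => ω i.succ = 0)).card =
      ∑ i : Fin N, if i.succ ∈ c ∧ ω i.succ = 0 then 1 else 0 := by
    rw [Finset.card_filter, ← Finset.sum_filter, ← Finset.sum_filter]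
    congr 1
    ext i
    simp [tl]
  rw [h1, h2, Fin.sum_univ_succ]

theorem form_ne {R : Type} [CommRing R] {N : ℕ} (c : Finset (Fin N)) (y : R) (hy : y ≠ 0) :
    ((∑ i ∈ c, X i) + C y : MvPolynomial (Fin N) R) ≠ 0 := by
  intro h
  have h1 := congrArg (MvPolynomial.constantCoeff) h
  simp at h1
  exact hy h1

end LeadLX

open LeadLX MvPolynomial in
/-- The leading coefficient lemma. -/
theorem lead_lemma {R : Type} [CommRing R] [IsDomain R] [Algebra ℚ R] (N : ℕ)
    (c : Finset (Fin N)) (ω : Fin N → ℕ) (y : R) (hy : y ≠ 0) (E : ℕ)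
    (hE : (c.filter (fun i => ω i = 0)).card ≤ E) (Q : MvPolynomial (Fin N) R)
    (hdiv : ((∑ i ∈ c, X i) + C y) ^ E ∣ Q) (b : Fin N →₀ ℕ) (hb : coeff b Q ≠ 0)
    (hlow : ∀ b' : Fin N →₀ ℕ, key (fun i => b' i + ω i) < key (fun i => b i + ω i) →
      coeff b' Q = 0) :
    (∀ i ∈ c, b i + ω i ≠ 0) ∧ y ^ (E - (c.filter (fun i => ω i = 0)).card) ∣ coeff b Q := by
  induction N generalizing E with
  | zero =>
    have hc : c = ∅ := Finset.eq_empty_of_isEmpty c
    subst hc
    refine ⟨fun i hi => absurd hi (Finset.notMem_empty i), ?_⟩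
    simp only [Finset.sum_empty, zero_add, Finset.filter_empty, Finset.card_empty,
      Nat.sub_zero] at hdiv ⊢
    obtain ⟨M, rfl⟩ := hdiv
    rw [← map_pow, coeff_C_mul]
    exact dvd_mul_right _ _
  | succ N ih =>
    -- the slices
    set Qh : Polynomial (MvPolynomial (Fin N) R) := finSuccEquiv R N Q with hQh
    have hbc : b = Finsupp.cons (b 0) b.tail := (Finsupp.cons_tail b).symm
    have hcb : coeff b Q = coeff b.tail (Qh.coeff (b 0)) := by
      rw [hQh, finSuccEquiv_coeff_coeff, ← hbc]
    have hdiv' : ((if (0 : Fin (N + 1)) ∈ c then Polynomial.X else 0) +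
        Polynomial.C ((∑ i ∈ tl c, X i) + C y : MvPolynomial (Fin N) R)) ^ E ∣ Qh := by
      have h1 := map_dvd (finSuccEquiv R N) hdiv
      rwa [map_pow, form_split] at h1
    have htail : ∀ b'' : Fin N →₀ ℕ,
        key (fun i => b'' i + ω i.succ) < key (fun i => b.tail i + ω i.succ) →
        coeff b'' (Qh.coeff (b 0)) = 0 := by
      intro b'' hk
      rw [hQh, finSuccEquiv_coeff_coeff]
      apply hlow
      apply key_lt_tail
      · simp
      · simpa [Finsupp.tail_apply] using hk
    have hhead : ∀ t, rk0 (t + ω 0) < rk0 (b 0 + ω 0) → Qh.coeff t = 0 := by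
      intro t ht
      ext b''
      rw [hQh, finSuccEquiv_coeff_coeff, coeff_zero]
      apply hlow
      apply key_lt_head
      simpa using ht
    have hx := form_ne (tl c) y hy
    have hcard := card_split c ω
    have hb' : coeff b.tail (Qh.coeff (b 0)) ≠ 0 := by
      rw [← hcb]
      exact hb
    -- the last step
    have fin : ∀ E', ((tl c).filter (fun i => ω i.succ = 0)).card ≤ E' →
        ((∑ i ∈ tl c, X i) + C y : MvPolynomial (Fin N) R) ^ E' ∣ Qh.coeff (b 0) →
        ((0 : Fin (N + 1)) ∈ c → b 0 + ω 0 ≠ 0) →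
        E' - ((tl c).filter (fun i => ω i.succ = 0)).card =
          E - (c.filter (fun i => ω i = 0)).card →
        (∀ i ∈ c, b i + ω i ≠ 0) ∧
          y ^ (E - (c.filter (fun i => ω i = 0)).card) ∣ coeff b Q := by
      intro E' hE' hd h0 hEE
      have h1 := ih (tl c) (fun i => ω i.succ) E' hE' (Qh.coeff (b 0)) hd b.tail hb' htail
      refine ⟨?_, ?_⟩
      · intro i
        refine Fin.cases ?_ (fun j => ?_) i
        · exact h0
        · intro hj
          have h2 := h1.1 j (by simp [tl, hj])
          simpa [Finsupp.tail_apply] using h2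
      · rw [← hEE, hcb]
        exact h1.2
    by_cases h0 : (0 : Fin (N + 1)) ∈ c
    · rw [if_pos h0] at hdiv'
      by_cases hω : ω 0 = 0
      · rw [if_pos ⟨h0, hω⟩] at hcard
        -- the first degree is not zero
        have hb0 : b 0 ≠ 0 := by
          intro hb0
          have h1 : ∀ t, t ≠ 0 → Qh.coeff t = 0 := by
            intro t ht
            apply hhead
            rw [hω, hb0]
            simpa using rk0_lt_zero ht
          have h2 : Qh = Polynomial.C (Qh.coeff 0) := by
            ext1 t
            by_cases ht : t = 0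
            · subst ht
              simp
            · rw [h1 t ht, Polynomial.coeff_C, if_neg ht]
          have h3 : (Polynomial.X + Polynomial.C ((∑ i ∈ tl c, X i) + C y :
              MvPolynomial (Fin N) R)) ∣ Qh :=
            dvd_trans (dvd_pow_self _ (by omega)) hdiv'
          obtain ⟨M, hM⟩ := h3
          have h4 := congrArg (Polynomial.eval (-((∑ i ∈ tl c, X i) + C y :
              MvPolynomial (Fin N) R))) hM
          rw [Polynomial.eval_mul, Polynomial.eval_add, Polynomial.eval_X, Polynomial.eval_C,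
            neg_add_cancel, zero_mul, h2, Polynomial.eval_C] at h4
          apply hb'
          rw [hb0, h4, coeff_zero]
        apply fin (E - 1) (by omega)
        · apply one_var _ hx E Qh hdiv' (b 0) (by omega)
          intro t ht1 ht2
          apply hhead
          rw [hω]
          exact rk0_lt_of (by omega) (by omega)
        · intro _
          omega
        · omega
      · rw [if_neg (fun h => hω h.2)] at hcard
        apply fin E (by omega)
        · apply one_var' _ hx E Qh hdiv' (b 0)
          intro t ht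
          apply hhead
          exact rk0_lt_of (by omega) (by omega)
        · intro _
          omega
        · omega
    · rw [if_neg h0, zero_add, ← map_pow] at hdiv'
      rw [if_neg (fun h => h0 h.1)] at hcard
      apply fin E (by omega)
      · exact (Polynomial.C_dvd_iff_dvd_coeff _ _).1 hdiv' (b 0)
      · intro h
        exact absurd h h0
      · omega

end Pool.Agent.H21.HD

end

section

/-!
SpanGood is open.
-/

namespace Pool.Agent.H21.HD

open MvPolynomial
open scoped Classical

namespace SpanOpenX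

/-- The functions that depend only on the coordinates in `T`. -/
noncomputable def depSub {ι : Type*} (B : ι → Type*) (T : Finset ι) :
    Submodule ℂ ((∀ i, B i) → ℂ) where
  carrier := {f | DepOn T f}
  add_mem' := by
    intro f g hf hg x y hxy
    simp only [Pi.add_apply]
    rw [hf x y hxy, hg x y hxy]
  zero_mem' := by
    intro x y _
    rfl
  smul_mem' := by
    intro c f hf x y hxy
    simp only [Pi.smul_apply]
    rw [hf x y hxy]

/-- The linear map attached to the parameters `x`. -/
noncomputable def spanMap {ι A α : Type} [Fintype ι] [Fintype A] (base : A)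
    (J : Finset ι) (P : Finset α) (c : α → Finset ι) (x : α × ι × A → ℂ) :
    (∀ p : P, depSub (fun _ : ι => A) (J \ c p)) →ₗ[ℂ]
      ({y : ι → A // ∀ i, i ∉ J → y i = base} → ℂ) where
  toFun κ := fun y => ∑ p : P, (∏ i ∈ c p, x (p.1, i, y.1 i)) * (κ p).1 y.1
  map_add' := by
    intro κ κ'
    funext y
    simp only [Pi.add_apply, Submodule.coe_add, mul_add, Finset.sum_add_distrib]
  map_smul' := by
    intro r κ
    funext y
    simp only [Pi.smul_apply, Submodule.coe_smul, smul_eq_mul, RingHom.id_apply, Finset.mul_sum]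
    refine Finset.sum_congr rfl fun p _ => ?_
    ring

theorem spanMap_apply {ι A α : Type} [Fintype ι] [Fintype A] (base : A)
    (J : Finset ι) (P : Finset α) (c : α → Finset ι) (x : α × ι × A → ℂ)
    (κ : ∀ p : P, depSub (fun _ : ι => A) (J \ c p))
    (y : {y : ι → A // ∀ i, i ∉ J → y i = base}) :
    spanMap base J P c x κ y = ∑ p : P, (∏ i ∈ c p, x (p.1, i, y.1 i)) * (κ p).1 y.1 := rfl

end SpanOpenX

open SpanOpenX in
/-- `SpanGood` is an open condition. -/
theorem spanGood_open {ι A α : Type} [Fintype ι] [Fintype A] [Nonempty A]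
    (J : Finset ι) (P : Finset α) (c : α → Finset ι) (hc : ∀ p ∈ P, c p ⊆ J)
    (v₀ : α → ι → A → ℂ) (h : SpanGood J P c v₀) :
    ∃ G : MvPolynomial (α × ι × A) ℂ, G ≠ 0 ∧ ∀ v : α → ι → A → ℂ,
      eval (fun x => v x.1 x.2.1 x.2.2) G ≠ 0 → SpanGood J P c v := by
  obtain ⟨base⟩ := ‹Nonempty A›
  have hT : ∀ (κ : ∀ p : P, depSub (fun _ : ι => A) (J \ c p))
      (y : {y : ι → A // ∀ i, i ∉ J → y i = base}),
      PolyFun (fun x => spanMap base J P c x κ y) := by
    intro κ y
    simp only [spanMap_apply]
    refine PolyFun.sum _ _ fun p _ => ?_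
    refine PolyFun.mul ?_ (PolyFun.const _)
    exact PolyFun.prod _ (fun i x => x (p.1, i, y.1 i)) fun i _ => PolyFun.coord _
  have hsurj : Function.Surjective (spanMap base J P c (fun x => v₀ x.1 x.2.1 x.2.2)) := by
    intro f
    let F : (ι → A) → ℂ := fun y => f ⟨fun i => if i ∈ J then y i else base, by
      intro i hi
      simp [hi]⟩
    have hF : DepOn J F := by
      intro x y hxy
      have : (fun i => if i ∈ J then x i else base) = fun i => if i ∈ J then y i else base := by
        funext i
        by_cases hi : i ∈ J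
        · simp [hi, hxy i hi]
        · simp [hi]
      simp only [F, this]
    obtain ⟨κ, hκ1, hκ2⟩ := h F hF
    refine ⟨fun p => ⟨κ p.1, hκ1 p.1 p.2⟩, ?_⟩
    funext y
    rw [spanMap_apply]
    have h1 : f y = F y.1 := by
      simp only [F]
      congr 1
      apply Subtype.ext
      funext i
      by_cases hi : i ∈ J
      · simp [hi]
      · simp [hi, y.2 i hi]
    rw [h1, hκ2 y.1, ← Finset.sum_coe_sort P
      (fun p => (∏ i ∈ c p, v₀ p i (y.1 i)) * κ p y.1)]
  obtain ⟨G, hG0, hG⟩ := open_surj (spanMap base J P c) hT _ hsurj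
  refine ⟨G, ?_, ?_⟩
  · rintro rfl
    simp at hG0
  · intro v hv f hf
    obtain ⟨κ, hκ⟩ := hG _ hv (fun y => f y.1)
    refine ⟨fun p => if hp : p ∈ P then (κ ⟨p, hp⟩).1 else 0, ?_, ?_⟩
    · intro p hp
      simp only [dif_pos hp]
      exact (κ ⟨p, hp⟩).2
    · intro y
      have hz : ∀ i, i ∉ J → (fun i => if i ∈ J then y i else base) i = base := by
        intro i hi
        simp [hi]
      have h1 := congrFun hκ ⟨fun i => if i ∈ J then y i else base, hz⟩
      rw [spanMap_apply] at h1
      have h2 : f (fun i => if i ∈ J then y i else base) = f y := by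
        apply hf
        intro i hi
        simp [hi]
      simp only [h2] at h1
      rw [← h1, ← Finset.sum_coe_sort P
        (fun p => (∏ i ∈ c p, v p i (y i)) *
          (if hp : p ∈ P then (κ ⟨p, hp⟩).1 else 0) y)]
      refine Finset.sum_congr rfl fun p _ => ?_
      rw [dif_pos p.2]
      congr 1
      · refine Finset.prod_congr rfl fun i hi => ?_
        simp [hc p.1 p.2 hi]
      · apply (κ p).2
        intro i hi
        simp [(Finset.mem_sdiff.1 hi).1]

end Pool.Agent.H21.HD

end

section

/-!
The real-number part of the slicing step.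
-/

namespace Pool.Agent.H21.HD

open MvPolynomial
open scoped Classical

/-- `FF` decreases when the set grows -/
private lemma spanSplit_anti {ι : Type} (J : Finset ι) (lam : Finset ι → ℝ)
    (h0 : ∀ T, 0 ≤ lam T) (hpos : ∀ J' ⊂ J, 0 < FF lam J') (K : Finset ι) (hK : K ⊂ J) :
    ∀ n : ℕ, ∀ L : Finset ι, L ⊆ K → (K \ L).card = n → FF lam K ≤ FF lam L := by
  intro n
  induction n with
  | zero =>
    intro L hL hc
    have h1 : K \ L = ∅ := Finset.card_eq_zero.mp hc
    have h2 : K ⊆ L := Finset.sdiff_eq_empty_iff_subset.mp h1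
    rw [Finset.Subset.antisymm hL h2]
  | succ n ih =>
    intro L hL hc
    have hne : (K \ L).Nonempty := by
      rw [← Finset.card_pos, hc]; exact Nat.succ_pos n
    obtain ⟨x, hx⟩ := hne
    have hxK : x ∈ K := (Finset.mem_sdiff.mp hx).1
    have hxL : x ∉ L := (Finset.mem_sdiff.mp hx).2
    have hins : insert x L ⊆ K := Finset.insert_subset hxK hL
    have hcard : (K \ insert x L).card = n := by
      have e1 := Finset.card_sdiff_add_card_eq_card hL
      have e2 := Finset.card_sdiff_add_card_eq_card hins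
      rw [Finset.card_insert_of_notMem hxL] at e2
      omega
    have h1 := ih (insert x L) hins hcard
    have h2 := FF_rec lam (insert x L) x (Finset.mem_insert_self x L)
    rw [Finset.erase_insert hxL] at h2
    have h3 : 0 ≤ ∑ T ∈ subs (insert x L) x, lam T * FF lam (insert x L \ T) := by
      apply Finset.sum_nonneg
      intro T _
      apply mul_nonneg (h0 T)
      apply le_of_lt
      apply hpos
      exact lt_of_le_of_lt (Finset.sdiff_subset.trans hins) hK
    linarith only [h1, h2, h3]

/-- Real-number part of the slicing step. If `FF lam` is positive on all proper subsets of `J`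
and `FF lam J ≤ 0`, then the `w` slices can be distributed to the sets `T ∋ i`. -/
theorem span_split {ι : Type} (J : Finset ι) (i : ι) (hi : i ∈ J) (lam : Finset ι → ℝ)
    (h0 : ∀ T, 0 ≤ lam T) (hpos : ∀ J' ⊂ J, 0 < FF lam J') (hle : FF lam J ≤ 0)
    (η : ℝ) (hη : 0 < η) (w : ℕ) (hw : 4 / η ≤ w) :
    ∃ (n : Finset ι → ℕ) (m : Finset ι → ℕ) (μ : Finset ι → ℝ),
      w ≤ ∑ T ∈ subs J i, n T ∧
      (∀ T ∈ subs J i, n T ≤ w) ∧
      (∀ T ∈ subs J i, 0 < n T → 0 < lam T) ∧
      (∀ T ∈ subs J i, 0 < μ T ∧ μ T ≤ 1) ∧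
      (∀ T ∈ subs J i, FF lam (J.erase i) - μ T * FF lam (J \ T) ≤ 0) ∧
      (∀ T ∈ subs J i, (μ T + η / 2) * (w : ℝ) ^ (T.card - 1) ≤ m T) ∧
      (∀ T ∈ subs J i, 1 < T.card → (n T : ℝ) * m T ≤ (lam T + η) * (w : ℝ) ^ T.card) ∧
      (∀ T ∈ subs J i, T.card = 1 → (n T : ℝ) ≤ (lam T + η) * (w : ℝ)) := by
  have hwη : 4 ≤ (w : ℝ) * η := by
    rw [div_le_iff₀ hη] at hw
    exact hw
  have hw0 : 0 < (w : ℝ) := by
    by_contra hcon
    push Not at hcon
    nlinarith only [hwη, hη, hcon]
  have hw1 : (1 : ℝ) ≤ w := by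
    have : 0 < w := by exact_mod_cast hw0
    exact_mod_cast this
  have hE : 0 < FF lam (J.erase i) := hpos _ (Finset.erase_ssubset hi)
  have hD : ∀ T ∈ subs J i, 0 < FF lam (J \ T) := by
    intro T hT
    rw [mem_subs] at hT
    exact hpos _ (Finset.sdiff_ssubset hT.1 ⟨i, hT.2⟩)
  have hmono : ∀ T ∈ subs J i, FF lam (J.erase i) ≤ FF lam (J \ T) := by
    intro T hT
    rw [mem_subs] at hT
    refine spanSplit_anti J lam h0 hpos (J.erase i) (Finset.erase_ssubset hi) _ (J \ T) ?_ rfl
    intro x hx
    rw [Finset.mem_sdiff] at hx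
    rw [Finset.mem_erase]
    refine ⟨?_, hx.1⟩
    rintro rfl
    exact hx.2 hT.2
  set μ : Finset ι → ℝ := fun T => FF lam (J.erase i) / FF lam (J \ T) with hμ
  have hμ0 : ∀ T ∈ subs J i, 0 < μ T := fun T hT => div_pos hE (hD T hT)
  have hμ1 : ∀ T ∈ subs J i, μ T ≤ 1 := fun T hT => (div_le_one (hD T hT)).mpr (hmono T hT)
  set y : Finset ι → ℝ := fun T => lam T / μ T with hy
  have hy0 : ∀ T ∈ subs J i, 0 ≤ y T := fun T hT => div_nonneg (h0 T) (hμ0 T hT).le
  have hyμ : ∀ T ∈ subs J i, y T * μ T = lam T := fun T hT =>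
    div_mul_cancel₀ _ (hμ0 T hT).ne'
  have hsum : 1 ≤ ∑ T ∈ subs J i, y T := by
    have h1 := FF_rec lam J i hi
    have h2 : FF lam (J.erase i) ≤ ∑ T ∈ subs J i, lam T * FF lam (J \ T) := by linarith
    have h3 : ∑ T ∈ subs J i, y T =
        (∑ T ∈ subs J i, lam T * FF lam (J \ T)) / FF lam (J.erase i) := by
      rw [Finset.sum_div]
      apply Finset.sum_congr rfl
      intro T hT
      have hd := (hD T hT).ne'
      have he := hE.ne'
      simp only [hy, hμ]
      field_simp
    rw [h3, one_le_div hE]
    exact h2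
  set n : Finset ι → ℕ := fun T => min ⌈y T * w⌉₊ w with hn
  set m : Finset ι → ℕ := fun T => ⌈(μ T + η / 2) * (w : ℝ) ^ (T.card - 1)⌉₊ with hm
  have hnlt : ∀ T ∈ subs J i, (n T : ℝ) ≤ y T * w + 1 := by
    intro T hT
    have h1 : (n T : ℝ) ≤ (⌈y T * w⌉₊ : ℝ) := by
      exact_mod_cast min_le_left _ _
    have h2 := Nat.ceil_lt_add_one (mul_nonneg (hy0 T hT) hw0.le)
    linarith
  have hnw : ∀ T, (n T : ℝ) ≤ w := by
    intro T
    exact_mod_cast min_le_right _ _
  refine ⟨n, m, μ, ?_, ?_, ?_, ?_, ?_, ?_, ?_, ?_⟩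
  · by_cases hex : ∃ T ∈ subs J i, n T = w
    · obtain ⟨T, hT, hTw⟩ := hex
      calc w = n T := hTw.symm
        _ ≤ ∑ T ∈ subs J i, n T := Finset.single_le_sum (fun _ _ => Nat.zero_le _) hT
    · push Not at hex
      have h1 : ∀ T ∈ subs J i, y T * w ≤ (n T : ℝ) := by
        intro T hT
        have h2 : n T = ⌈y T * w⌉₊ := by
          rcases min_choice ⌈y T * (w : ℝ)⌉₊ w with h | h
          · exact h
          · exact absurd h (hex T hT)
        rw [h2]
        exact Nat.le_ceil _
      have h3 : (w : ℝ) ≤ ((∑ T ∈ subs J i, n T : ℕ) : ℝ) := by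
        push_cast
        calc (w : ℝ) = 1 * w := (one_mul _).symm
          _ ≤ (∑ T ∈ subs J i, y T) * w := mul_le_mul_of_nonneg_right hsum hw0.le
          _ = ∑ T ∈ subs J i, y T * w := Finset.sum_mul _ _ _
          _ ≤ ∑ T ∈ subs J i, (n T : ℝ) := Finset.sum_le_sum h1
      exact_mod_cast h3
  · intro T _
    exact min_le_right _ _
  · intro T hT hpos'
    rcases (h0 T).lt_or_eq with h | h
    · exact h
    · exfalso
      have h1 : y T = 0 := by simp only [hy]; rw [← h]; simp
      have h2 : n T = 0 := by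
        simp only [hn, h1]; simp
      omega
  · intro T hT
    exact ⟨hμ0 T hT, hμ1 T hT⟩
  · intro T hT
    have : μ T * FF lam (J \ T) = FF lam (J.erase i) := div_mul_cancel₀ _ (hD T hT).ne'
    rw [this, sub_self]
  · intro T _
    exact Nat.le_ceil _
  · intro T hT hc
    obtain ⟨s, hs⟩ : ∃ s, T.card = s + 2 := ⟨T.card - 2, by omega⟩
    have e1 : T.card - 1 = s + 1 := by omega
    have hm1 : (m T : ℝ) ≤ (μ T + η / 2) * (w : ℝ) ^ (s + 1) + 1 := by
      have hnn : 0 ≤ (μ T + η / 2) * (w : ℝ) ^ (s + 1) := by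
        have := (hμ0 T hT).le
        positivity
      have h2 := Nat.ceil_lt_add_one hnn
      simp only [hm, e1]
      linarith only [h2]
    have hn0 : (0 : ℝ) ≤ n T := Nat.cast_nonneg _
    have hP : (1 : ℝ) ≤ (w : ℝ) ^ s := one_le_pow₀ hw1
    rw [hs]
    set P := (w : ℝ) ^ s with hPdef
    have eP1 : (w : ℝ) ^ (s + 1) = P * w := pow_succ _ _
    have eP2 : (w : ℝ) ^ (s + 2) = P * w * w := by rw [pow_succ, pow_succ]
    rw [eP1] at hm1
    rw [eP2]
    have hPw : 0 ≤ P * w := by positivity
    have hμnn := (hμ0 T hT).le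
    have hstep1 : (n T : ℝ) * m T ≤ n T * ((μ T + η / 2) * (P * w) + 1) :=
      mul_le_mul_of_nonneg_left hm1 hn0
    have hstep2 : (n T : ℝ) * (μ T * (P * w)) ≤ (y T * w + 1) * (μ T * (P * w)) :=
      mul_le_mul_of_nonneg_right (hnlt T hT) (mul_nonneg hμnn hPw)
    have hstep3 : (n T : ℝ) * (η / 2 * (P * w) + 1) ≤ w * (η / 2 * (P * w) + 1) :=
      mul_le_mul_of_nonneg_right (hnw T) (by positivity)
    have hstep4 : (y T * w + 1) * (μ T * (P * w)) = lam T * (P * w * w) + μ T * (P * w) := by
      rw [← hyμ T hT]; ring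
    have hstep5 : μ T * (P * w) ≤ P * w := by
      have := mul_le_mul_of_nonneg_right (hμ1 T hT) hPw
      linarith only [this]
    have hstep6 : (w : ℝ) ≤ P * w := by nlinarith only [hP]
    have hstep7 : 2 * (P * w) ≤ η / 2 * (P * w * w) := by
      have := mul_le_mul_of_nonneg_left hwη hPw
      nlinarith only [this]
    nlinarith only [hstep1, hstep2, hstep3, hstep4, hstep5, hstep6, hstep7]
  · intro T hT hc
    have hTi : T = {i} := by
      obtain ⟨a, ha⟩ := Finset.card_eq_one.mp hc
      rw [mem_subs] at hT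
      have := hT.2
      rw [ha, Finset.mem_singleton] at this
      rw [ha, this]
    have hμT : μ T = 1 := by
      simp only [hμ]
      have : J \ T = J.erase i := by rw [hTi]; exact Finset.sdiff_singleton_eq_erase i J
      rw [this, div_self hE.ne']
    have hyT : y T = lam T := by
      have := hyμ T hT
      rw [hμT, mul_one] at this
      exact this
    have h1 := hnlt T hT
    rw [hyT] at h1
    nlinarith only [hwη, h1]

end Pool.Agent.H21.HD

end

section

/-!
The slicing step for spanning.
-/

namespace Pool.Agent.H21.HD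

open MvPolynomial
open scoped Classical

private lemma depOn_mono {ι : Type*} {B : ι → Type*} {T T' : Finset ι} {f : (∀ i, B i) → ℂ}
    (h : DepOn T f) (hT : T ⊆ T') : DepOn T' f :=
  fun x y hxy => h x y fun i hi => hxy i (hT hi)

private lemma depOn_update {ι A : Type*} {J : Finset ι} {i : ι} {f : (ι → A) → ℂ}
    (h : DepOn J f) (t : A) : DepOn (J.erase i) (fun y => f (Function.update y i t)) := by
  intro x y hxy
  refine h _ _ fun k hk => ?_
  by_cases hki : k = i
  · subst hki; simp
  · rw [Function.update_of_ne hki, Function.update_of_ne hki]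
    exact hxy k (Finset.mem_erase.2 ⟨hki, hk⟩)

/-- One slicing step. -/
theorem span_step {ι A α : Type} [Fintype ι] [Fintype A] [Nonempty A]
    (J : Finset ι) (i : ι) (hi : i ∈ J) (P : Finset α) (c : α → Finset ι)
    (hc : ∀ p ∈ P, c p ⊆ J) (s : α → A)
    (h : ∀ t : A, (∃ p ∈ P, c p = {i} ∧ s p = t) ∨
      ∃ v : α → ι → A → ℂ, SpanGood (J.erase i) (P.filter (fun p => i ∈ c p → s p = t))
        (fun p => (c p).erase i) v) :
    ∃ v : α → ι → A → ℂ, SpanGood J P c v := by
  -- a polynomial for every slice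
  have key : ∀ t : A, ∃ G : MvPolynomial (α × ι × A) ℂ, G ≠ 0 ∧ ∀ v : α → ι → A → ℂ,
      eval (fun x => v x.1 x.2.1 x.2.2) G ≠ 0 →
        SpanGood (J.erase i) (P.filter (fun p => i ∈ c p → s p = t)) (fun p => (c p).erase i) v := by
    intro t
    rcases h t with ⟨p₀, hp₀, hcp, hsp⟩ | ⟨v₀, hv₀⟩
    · refine ⟨1, one_ne_zero, fun v _ f hf => ?_⟩
      refine ⟨fun p y => if p = p₀ then f y else 0, ?_, ?_⟩
      · intro p _
        by_cases hpp : p = p₀
        · subst hpp
          have h1 : J.erase i \ (c p).erase i = J.erase i := by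
            rw [hcp]
            ext k
            simp
          simp only [if_true]
          show DepOn (J.erase i \ (c p).erase i) fun y => f y
          rw [h1]
          exact hf
        · intro x y _
          simp [hpp]
      · intro y
        rw [Finset.sum_eq_single p₀]
        · simp [hcp]
        · intro p _ hpp
          simp [hpp]
        · intro hno
          exact absurd (Finset.mem_filter.2 ⟨hp₀, fun _ => hsp⟩) hno
    · exact spanGood_open (J.erase i) _ _ (by
        intro p hp
        exact Finset.erase_subset_erase i (hc p (Finset.mem_filter.1 hp).1)) v₀ hv₀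
  choose G hG0 hG using key
  obtain ⟨x, hx⟩ := exists_common (Finset.univ : Finset A) G (fun t _ => hG0 t)
  set v0 : α → ι → A → ℂ := fun p k a => x (p, k, a) with hv0
  have hgood : ∀ t : A, SpanGood (J.erase i) (P.filter (fun p => i ∈ c p → s p = t))
      (fun p => (c p).erase i) v0 := by
    intro t
    refine hG t v0 ?_
    have h1 : (fun x : α × ι × A => v0 x.1 x.2.1 x.2.2) = x := by
      funext z
      rfl
    rw [h1]
    exact hx t (Finset.mem_univ t)
  refine ⟨fun p k a => if k = i then (if a = s p then 1 else 0) else v0 p k a, ?_⟩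
  intro f hf
  have hk : ∀ t : A, ∃ κ : α → (ι → A) → ℂ,
      (∀ p ∈ P.filter (fun p => i ∈ c p → s p = t), DepOn (J.erase i \ (c p).erase i) (κ p)) ∧
        ∀ y, f (Function.update y i t) = ∑ p ∈ P.filter (fun p => i ∈ c p → s p = t),
          (∏ k ∈ (c p).erase i, v0 p k (y k)) * κ p y :=
    fun t => hgood t _ (depOn_update hf t)
  choose κ hκ1 hκ2 using hk
  refine ⟨fun p y => if i ∈ c p then κ (s p) p y else κ (y i) p y, ?_, ?_⟩
  · intro p hp
    have hsub : J.erase i \ (c p).erase i ⊆ J \ c p := by
      intro k hk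
      simp only [Finset.mem_sdiff, Finset.mem_erase, not_and] at hk ⊢
      exact ⟨hk.1.2, fun hkc => hk.2 hk.1.1 hkc⟩
    by_cases hic : i ∈ c p
    · simp only [hic, if_true]
      exact depOn_mono (hκ1 (s p) p (Finset.mem_filter.2 ⟨hp, fun _ => rfl⟩)) hsub
    · simp only [hic, if_false]
      intro y z hyz
      have h1 : y i = z i := hyz i (Finset.mem_sdiff.2 ⟨hi, hic⟩)
      show κ (y i) p y = κ (z i) p z
      rw [h1]
      exact hκ1 (z i) p (Finset.mem_filter.2 ⟨hp, fun h => absurd h hic⟩) y z
        fun k hk => hyz k (hsub hk)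
  · intro y
    have h1 : f y = f (Function.update y i (y i)) := by rw [Function.update_eq_self]
    rw [h1, hκ2 (y i) y, Finset.sum_filter]
    refine Finset.sum_congr rfl fun p _ => ?_
    by_cases hic : i ∈ c p
    · have h2 : ∏ k ∈ c p, (if k = i then (if y k = s p then (1 : ℂ) else 0) else v0 p k (y k)) =
          (if y i = s p then 1 else 0) * ∏ k ∈ (c p).erase i, v0 p k (y k) := by
        rw [← Finset.mul_prod_erase (c p) _ hic]
        simp only [if_true]
        congr 1
        refine Finset.prod_congr rfl fun k hk => ?_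
        rw [if_neg (Finset.mem_erase.1 hk).1]
      rw [h2]
      by_cases hs : s p = y i
      · simp only [hic, hs, if_true, one_mul, forall_const]
      · have hs' : ¬ (y i = s p) := fun h => hs h.symm
        simp only [hic, hs, hs', if_false, zero_mul, forall_const]
    · have h2 : ∏ k ∈ c p, (if k = i then (if y k = s p then (1 : ℂ) else 0) else v0 p k (y k)) =
          ∏ k ∈ (c p).erase i, v0 p k (y k) := by
        rw [Finset.erase_eq_of_notMem hic]
        refine Finset.prod_congr rfl fun k hk => ?_
        rw [if_neg]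
        rintro rfl
        exact hic hk
      rw [h2]
      simp only [hic, false_imp_iff, if_true, if_false]

end Pool.Agent.H21.HD

end

section

/-!
Spanning by product functions.
-/

namespace Pool.Agent.H21.HD

open MvPolynomial
open scoped Classical

/-- The statement for fixed `j`, `η`, `W`. -/
private def SpanTQ (j : ℕ) (η : ℝ) (W : ℕ) : Prop :=
  ∀ (ι A α : Type) [Fintype ι] [Fintype A],
    W ≤ Fintype.card A → ∀ (J : Finset ι), J.card = j → ∀ (lam : Finset ι → ℝ),
    (∀ T, 0 ≤ lam T) → (∃ J' ⊆ J, FF lam J' ≤ 0) →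
    ∀ (P : Finset α) (c : α → Finset ι), (∀ p ∈ P, c p ⊆ J ∧ (c p).Nonempty) →
    (∀ T ⊆ J, T.Nonempty → 0 < lam T →
      (lam T + η) * (Fintype.card A : ℝ) ^ T.card ≤ (P.filter (fun p => c p = T)).card) →
    ∃ v : α → ι → A → ℂ, SpanGood J P c v

/-- Enlarging the set of coordinates. -/
private lemma spanGood_enlarge {ι A α : Type} [Nonempty A] {J' J : Finset ι} (hJ : J' ⊆ J)
    {P : Finset α} {c : α → Finset ι} {v : α → ι → A → ℂ}
    (h : SpanGood J' (P.filter (fun p => c p ⊆ J')) c v) : SpanGood J P c v := by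
  intro f hf
  obtain ⟨a₀⟩ := ‹Nonempty A›
  set r : (ι → A) → (ι → A) := fun y i => if i ∈ J \ J' then y i else a₀ with hr
  have hfy : ∀ z : ι → A, DepOn J' (fun x => f (fun i => if i ∈ J' then x i else z i)) := by
    intro z x x' hx
    show f (fun i => if i ∈ J' then x i else z i) = f (fun i => if i ∈ J' then x' i else z i)
    congr 1
    funext i
    by_cases hi : i ∈ J'
    · simp only [hi, if_true]
      exact hx i hi
    · simp only [hi, if_false]
  choose κ hκ1 hκ2 using fun z : ι → A => h _ (hfy z)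
  refine ⟨fun p y => if c p ⊆ J' then κ (r y) p y else 0, ?_, ?_⟩
  · intro p hp
    by_cases hcp : c p ⊆ J'
    · intro x y hxy
      have h1 : r x = r y := by
        funext i
        simp only [hr]
        by_cases hi : i ∈ J \ J'
        · simp only [hi, if_true]
          have h2 := Finset.mem_sdiff.1 hi
          exact hxy i (Finset.mem_sdiff.2 ⟨h2.1, fun h3 => h2.2 (hcp h3)⟩)
        · simp only [hi, if_false]
      show (if c p ⊆ J' then κ (r x) p x else 0) = (if c p ⊆ J' then κ (r y) p y else 0)
      rw [if_pos hcp, if_pos hcp, h1]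
      refine hκ1 (r y) p (Finset.mem_filter.2 ⟨hp, hcp⟩) x y fun i hi => hxy i ?_
      exact Finset.sdiff_subset_sdiff hJ le_rfl hi
    · intro x y _
      show (if c p ⊆ J' then κ (r x) p x else 0) = (if c p ⊆ J' then κ (r y) p y else 0)
      rw [if_neg hcp, if_neg hcp]
  · intro y
    have h1 : f y = f (fun i => if i ∈ J' then y i else r y i) := by
      refine hf _ _ fun i hi => ?_
      by_cases hi' : i ∈ J'
      · simp only [hi', if_true]
      · have h2 : i ∈ J \ J' := Finset.mem_sdiff.2 ⟨hi, hi'⟩
        simp only [hi', if_false, hr, h2, if_true]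
    rw [h1]
    have h3 := hκ2 (r y) y
    rw [h3, Finset.sum_filter]
    refine Finset.sum_congr rfl fun p _ => ?_
    by_cases hcp : c p ⊆ J'
    · simp only [hcp, if_true]
    · simp only [hcp, if_false, mul_zero]

/-- Distributing the slices to the types. -/
private lemma exists_tau {A T : Type*} [Fintype A] (S : Finset T) (n : T → ℕ)
    (h : Fintype.card A ≤ ∑ t ∈ S, n t) :
    ∃ τ : A → T, (∀ a, τ a ∈ S) ∧
      ∀ t ∈ S, (Finset.univ.filter (fun a => τ a = t)).card ≤ n t := by
  classical
  set E : Finset ((_ : T) × ℕ) := S.sigma (fun t => Finset.range (n t)) with hE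
  have hcard : Fintype.card A ≤ Fintype.card E := by
    rw [Fintype.card_coe, hE, Finset.card_sigma]
    simpa using h
  obtain ⟨e⟩ := Function.Embedding.nonempty_of_card_le hcard
  refine ⟨fun a => (e a).1.1, fun a => (Finset.mem_sigma.1 (e a).2).1, fun t _ => ?_⟩
  have h1 : (Finset.univ.filter (fun a => (e a).1.1 = t)).card ≤ (Finset.range (n t)).card := by
    refine Finset.card_le_card_of_injOn (fun a => (e a).1.2) ?_ ?_
    · intro a ha
      have h2 := (Finset.mem_filter.1 (Finset.mem_coe.1 ha)).2
      have h3 := (Finset.mem_sigma.1 (e a).2).2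
      rw [h2] at h3
      exact h3
    · intro a ha b hb hab
      have h2 := (Finset.mem_filter.1 (Finset.mem_coe.1 ha)).2
      have h3 := (Finset.mem_filter.1 (Finset.mem_coe.1 hb)).2
      apply e.injective
      apply Subtype.ext
      exact Sigma.ext (h2.trans h3.symm) (heq_of_eq hab)
  simpa using h1

/-- Distributing the points of one type to the slices. -/
private lemma exists_fiber {α A : Type*} [Nonempty A] (m : ℕ) (F : Finset A) :
    ∀ Q : Finset α, F.card * m ≤ Q.card →
      ∃ s : α → A, ∀ t ∈ F, m ≤ (Q.filter (fun p => s p = t)).card := by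
  classical
  induction F using Finset.induction_on with
  | empty =>
    intro Q _
    obtain ⟨a₀⟩ := ‹Nonempty A›
    exact ⟨fun _ => a₀, fun t ht => absurd ht (Finset.notMem_empty t)⟩
  | insert a F ha ih =>
    intro Q hQ
    rw [Finset.card_insert_of_notMem ha, add_mul, one_mul] at hQ
    obtain ⟨Q1, hQ1, hc⟩ := Finset.exists_subset_card_eq (show m ≤ Q.card by omega)
    obtain ⟨s, hs⟩ := ih (Q \ Q1) (by
      rw [Finset.card_sdiff_of_subset hQ1, hc]
      omega)
    refine ⟨fun p => if p ∈ Q1 then a else s p, fun t ht => ?_⟩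
    rcases Finset.mem_insert.1 ht with rfl | ht
    · rw [← hc]
      refine Finset.card_le_card fun p hp => ?_
      simp [hQ1 hp, hp]
    · refine (hs t ht).trans (Finset.card_le_card fun p hp => ?_)
      obtain ⟨h1, h2⟩ := Finset.mem_filter.1 hp
      obtain ⟨h3, h4⟩ := Finset.mem_sdiff.1 h1
      simp [h3, h4, h2]

private lemma spanT_main (j : ℕ) (ih : ∀ j' < j, ∀ η : ℝ, 0 < η → ∃ W, SpanTQ j' η W)
    (η : ℝ) (hη : 0 < η) : ∃ W, SpanTQ j η W := by
  choose W hW using fun x : Fin j => ih x x.2 η hη
  obtain ⟨W2, hW2⟩ : ∃ W2, 0 < j → SpanTQ (j - 1) (η / 2) W2 := by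
    by_cases hj : 0 < j
    · obtain ⟨W2, h⟩ := ih (j - 1) (by omega) (η / 2) (by positivity)
      exact ⟨W2, fun _ => h⟩
    · exact ⟨0, fun h => absurd h hj⟩
  refine ⟨Finset.univ.sup W + W2 + ⌈4 / η⌉₊ + 1, ?_⟩
  intro ι A α _ _ hA J hJ lam hlam hex P c hP hcount
  have hAne : Nonempty A := Fintype.card_pos_iff.1 (by omega)
  by_cases hprop : ∃ J' ⊂ J, FF lam J' ≤ 0
  · -- a proper subset
    obtain ⟨J', hJ', hFF⟩ := hprop
    have hlt : J'.card < j := hJ ▸ Finset.card_lt_card hJ'
    have h1 : SpanTQ J'.card η (W ⟨J'.card, hlt⟩) := hW ⟨J'.card, hlt⟩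
    have h2 : W ⟨J'.card, hlt⟩ ≤ Fintype.card A := by
      have := Finset.le_sup (f := W) (Finset.mem_univ (⟨J'.card, hlt⟩ : Fin j))
      omega
    obtain ⟨v, hv⟩ := h1 ι A α h2 J' rfl lam hlam ⟨J', le_rfl, hFF⟩
      (P.filter (fun p => c p ⊆ J')) c
      (by
        intro p hp
        obtain ⟨h3, h4⟩ := Finset.mem_filter.1 hp
        exact ⟨h4, (hP p h3).2⟩)
      (by
        intro T hT hTne hTl
        refine (hcount T (hT.trans hJ'.1) hTne hTl).trans ?_
        norm_cast
        refine Finset.card_le_card fun p hp => ?_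
        obtain ⟨h3, h4⟩ := Finset.mem_filter.1 hp
        exact Finset.mem_filter.2 ⟨Finset.mem_filter.2 ⟨h3, h4 ▸ hT⟩, h4⟩)
    exact ⟨v, spanGood_enlarge hJ'.1 hv⟩
  · push Not at hprop
    obtain ⟨J', hJ', hFF⟩ := hex
    have hJJ : J' = J := by
      by_contra hne
      exact absurd hFF (not_le.2 (hprop J' (Finset.ssubset_iff_subset_ne.2 ⟨hJ', hne⟩)))
    subst hJJ
    have hJne : J'.Nonempty := by
      rw [Finset.nonempty_iff_ne_empty]
      rintro rfl
      rw [FF_empty] at hFF
      linarith
    obtain ⟨i, hi⟩ := hJne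
    have hjpos : 0 < j := by
      rw [← hJ]
      exact Finset.card_pos.2 ⟨i, hi⟩
    have hw : 4 / η ≤ (Fintype.card A : ℝ) := by
      refine (Nat.le_ceil (4 / η)).trans ?_
      exact_mod_cast (show ⌈4 / η⌉₊ ≤ Fintype.card A by omega)
    obtain ⟨n, m, μ, hn1, hn2, hn3, hμ, hFFμ, hm, hnm, hn4⟩ :=
      span_split J' i hi lam hlam hprop hFF η hη (Fintype.card A) hw
    obtain ⟨τ, hτ1, hτ2⟩ := exists_tau (subs J' i) n hn1
    -- the points of type `T`
    have hfib : ∀ T : Finset ι, ∃ s : α → A, ∀ t : A, τ t = T →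
        (if T.card = 1 then 1 else m T) ≤
          ((P.filter (fun p => c p = T)).filter (fun p => s p = t)).card := by
      intro T
      by_cases hT : ∃ t, τ t = T
      · obtain ⟨t₀, ht₀⟩ := hT
        have hTs : T ∈ subs J' i := ht₀ ▸ hτ1 t₀
        have hTJ := (mem_subs.1 hTs).1
        have hiT := (mem_subs.1 hTs).2
        set F : Finset A := Finset.univ.filter (fun a => τ a = T) with hF
        have hFn : F.card ≤ n T := by
          have h1 := hτ2 T hTs
          convert h1
        have hFpos : 0 < F.card := Finset.card_pos.2 ⟨t₀, by simp [hF, ht₀]⟩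
        have hlT : 0 < lam T := hn3 T hTs (by omega)
        have hc := hcount T hTJ ⟨i, hiT⟩ hlT
        have hle : F.card * (if T.card = 1 then 1 else m T) ≤
            (P.filter (fun p => c p = T)).card := by
          by_cases hT1 : T.card = 1
          · simp only [hT1, if_true, mul_one]
            have h1 := hn4 T hTs hT1
            rw [hT1, pow_one] at hc
            have h2 : (n T : ℝ) ≤ ((P.filter (fun p => c p = T)).card : ℝ) := h1.trans hc
            exact hFn.trans (by exact_mod_cast h2)
          · simp only [hT1, if_false]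
            have hTc : 1 < T.card := by
              have := Finset.card_pos.2 ⟨i, hiT⟩
              omega
            have h1 := hnm T hTs hTc
            have h2 : (n T : ℝ) * m T ≤ ((P.filter (fun p => c p = T)).card : ℝ) := h1.trans hc
            refine (Nat.mul_le_mul_right (m T) hFn).trans ?_
            exact_mod_cast h2
        obtain ⟨s, hs⟩ := exists_fiber (if T.card = 1 then 1 else m T) F
          (P.filter (fun p => c p = T)) hle
        exact ⟨s, fun t ht => hs t (by simp [hF, ht])⟩
      · obtain ⟨a₀⟩ := hAne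
        exact ⟨fun _ => a₀, fun t ht => absurd ⟨t, ht⟩ hT⟩
    choose s hs using hfib
    refine span_step J' i hi P c (fun p hp => (hP p hp).1) (fun p => s (c p) p) ?_
    intro t
    by_cases hfirst : ∃ p ∈ P, c p = {i} ∧ s (c p) p = t
    · exact Or.inl hfirst
    · right
      set T := τ t with hT
      have hTs : T ∈ subs J' i := hτ1 t
      have hTJ := (mem_subs.1 hTs).1
      have hiT := (mem_subs.1 hTs).2
      have hTc : T.card ≠ 1 := by
        intro hT1
        have h1 := hs T t rfl
        rw [if_pos hT1] at h1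
        obtain ⟨p, hp⟩ := Finset.card_pos.1 (lt_of_lt_of_le one_pos h1)
        obtain ⟨h2, h3⟩ := Finset.mem_filter.1 hp
        obtain ⟨h4, h5⟩ := Finset.mem_filter.1 h2
        obtain ⟨k, hk⟩ := Finset.card_eq_one.1 hT1
        have hki : k = i := by
          rw [hk, Finset.mem_singleton] at hiT
          exact hiT.symm
        exact hfirst ⟨p, h4, by rw [h5, hk, hki], by rw [h5]; exact h3⟩
      have hTc' : 1 < T.card := by
        have := Finset.card_pos.2 ⟨i, hiT⟩
        omega
      have hTe : (T.erase i).Nonempty := by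
        rw [← Finset.card_pos, Finset.card_erase_of_mem hiT]
        omega
      set lam' : Finset ι → ℝ := fun S => if S = T.erase i then lam S + μ T else lam S with hlam'
      have hFF' : FF lam' (J'.erase i) = FF lam (J'.erase i) - μ T * FF lam (J' \ T) := by
        rw [FF_add (lam := lam) (lam' := lam') (J'.erase i) (T.erase i) hTe
          (Finset.erase_subset_erase i hTJ) (μ T) (by simp [hlam'])
          (fun S hS => by simp [hlam', hS])]
        congr 3
        ext k
        simp only [Finset.mem_sdiff, Finset.mem_erase, not_and]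
        constructor
        · rintro ⟨⟨h1, h2⟩, h3⟩
          exact ⟨h2, h3 h1⟩
        · rintro ⟨h1, h2⟩
          exact ⟨⟨fun h => h2 (h ▸ hiT), h1⟩, fun _ => h2⟩
      have hcJ : (J'.erase i).card = j - 1 := by rw [Finset.card_erase_of_mem hi, hJ]
      refine hW2 hjpos ι A α (by omega) (J'.erase i) hcJ lam' ?_
        ⟨J'.erase i, le_rfl, by rw [hFF']; exact hFFμ T hTs⟩ _ _ ?_ ?_
      · intro S
        simp only [hlam']
        split_ifs
        · have := (hμ T hTs).1
          have := hlam S
          linarith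
        · exact hlam S
      · intro p hp
        obtain ⟨h1, h2⟩ := Finset.mem_filter.1 hp
        refine ⟨Finset.erase_subset_erase i (hP p h1).1, ?_⟩
        by_cases hic : i ∈ c p
        · by_contra hne
          rw [Finset.not_nonempty_iff_eq_empty, Finset.erase_eq_empty_iff] at hne
          rcases hne with h3 | h3
          · rw [h3] at hic
            exact absurd hic (Finset.notMem_empty i)
          · exact hfirst ⟨p, h1, h3, h2 hic⟩
        · rw [Finset.erase_eq_of_notMem hic]
          exact (hP p h1).2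
      · intro S hS hSne hSl
        have hiS : i ∉ S := fun h => Finset.notMem_erase i J' (hS h)
        have hSJ : S ⊆ J' := hS.trans (Finset.erase_subset i J')
        have hApos : (0 : ℝ) ≤ (Fintype.card A : ℝ) ^ S.card := by positivity
        -- the two kinds of points
        have hA1 : P.filter (fun p => c p = S) ⊆
            (P.filter (fun p => i ∈ c p → s (c p) p = t)).filter
              (fun p => (c p).erase i = S) := by
          intro p hp
          obtain ⟨h1, h2⟩ := Finset.mem_filter.1 hp
          refine Finset.mem_filter.2 ⟨Finset.mem_filter.2 ⟨h1, fun h => ?_⟩, ?_⟩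
          · rw [h2] at h
            exact absurd h hiS
          · rw [h2, Finset.erase_eq_of_notMem hiS]
        have hcS : 0 < lam S → (lam S + η) * (Fintype.card A : ℝ) ^ S.card ≤
            ((P.filter (fun p => c p = S)).card : ℝ) := hcount S hSJ hSne
        have hcS' : lam S * (Fintype.card A : ℝ) ^ S.card ≤
            ((P.filter (fun p => c p = S)).card : ℝ) := by
          rcases eq_or_lt_of_le (hlam S) with h0 | h0
          · rw [← h0, zero_mul]
            positivity
          · refine le_trans ?_ (hcS h0)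
            exact mul_le_mul_of_nonneg_right (by linarith) hApos
        by_cases hST : S = T.erase i
        · have hl : lam' S = lam S + μ T := by simp [hlam', hST]
          rw [hl]
          have hins : insert i S = T := by rw [hST, Finset.insert_erase hiT]
          have hScard : T.card - 1 = S.card := by
            rw [hST, Finset.card_erase_of_mem hiT]
          have h1 := hs T t rfl
          rw [if_neg hTc] at h1
          have h2 := hm T hTs
          rw [hScard] at h2
          have hB1 : (P.filter (fun p => c p = T)).filter (fun p => s T p = t) ⊆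
              (P.filter (fun p => i ∈ c p → s (c p) p = t)).filter
                (fun p => (c p).erase i = S) := by
            intro p hp
            obtain ⟨h3, h4⟩ := Finset.mem_filter.1 hp
            obtain ⟨h5, h6⟩ := Finset.mem_filter.1 h3
            refine Finset.mem_filter.2 ⟨Finset.mem_filter.2 ⟨h5, fun _ => ?_⟩, ?_⟩
            · rw [h6]; exact h4
            · rw [h6, hST]
          have hdisj : Disjoint (P.filter (fun p => c p = S))
              ((P.filter (fun p => c p = T)).filter (fun p => s T p = t)) := by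
            rw [Finset.disjoint_left]
            intro p hp hp'
            have h3 := (Finset.mem_filter.1 hp).2
            have h4 := (Finset.mem_filter.1 (Finset.mem_filter.1 hp').1).2
            rw [h3] at h4
            rw [h4] at hiS
            exact hiS hiT
          have h3 := Finset.card_le_card (Finset.union_subset hA1 hB1)
          rw [Finset.card_union_of_disjoint hdisj] at h3
          have h4 : ((P.filter (fun p => c p = S)).card : ℝ) +
              (((P.filter (fun p => c p = T)).filter (fun p => s T p = t)).card : ℝ) ≤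
              (((P.filter (fun p => i ∈ c p → s (c p) p = t)).filter
                (fun p => (c p).erase i = S)).card : ℝ) := by exact_mod_cast h3
          have h5 : (m T : ℝ) ≤
              (((P.filter (fun p => c p = T)).filter (fun p => s T p = t)).card : ℝ) := by
            exact_mod_cast h1
          refine le_trans ?_ h4
          have h6 : (lam S + μ T + η / 2) * (Fintype.card A : ℝ) ^ S.card =
              lam S * (Fintype.card A : ℝ) ^ S.card +
                (μ T + η / 2) * (Fintype.card A : ℝ) ^ S.card := by ring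
          rw [h6]
          linarith
        · have hl : lam' S = lam S := by simp [hlam', hST]
          rw [hl] at hSl ⊢
          refine le_trans ?_ ((hcS hSl).trans ?_)
          · exact mul_le_mul_of_nonneg_right (by linarith) hApos
          · exact_mod_cast Finset.card_le_card hA1

/-- Spanning outside the region of convergence. -/
theorem tensor_span (j : ℕ) : ∀ η : ℝ, 0 < η → ∃ W : ℕ, ∀ (ι A α : Type) [Fintype ι] [Fintype A],
    W ≤ Fintype.card A → ∀ (J : Finset ι), J.card = j → ∀ (lam : Finset ι → ℝ),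
    (∀ T, 0 ≤ lam T) → (∃ J' ⊆ J, FF lam J' ≤ 0) →
    ∀ (P : Finset α) (c : α → Finset ι), (∀ p ∈ P, c p ⊆ J ∧ (c p).Nonempty) →
    (∀ T ⊆ J, T.Nonempty → 0 < lam T →
      (lam T + η) * (Fintype.card A : ℝ) ^ T.card ≤ (P.filter (fun p => c p = T)).card) →
    ∃ v : α → ι → A → ℂ, SpanGood J P c v := by
  induction j using Nat.strong_induction_on with
  | _ j ih =>
    intro η hη
    exact spanT_main j (fun j' hj' η' hη' => ih j' hj' η' hη') η hη

end Pool.Agent.H21.HD

end
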