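import Pool.Agent.H94.LP2.M10
import Pool.Agent.H94.LP2.M13
import Pool.Agent.H94.LP2.M34

/-! The parts of this file: H21.HD.FroAsymp, H21.HD.Inst, H21.HD.PhiIndep, H21.HD.PhiOpen. -/

section

/-!
Asymptotics of fro.
-/

namespace Pool.Agent.H21.HD

open scoped Classical

namespace FroAsympX

/-- The limit coefficients. -/
noncomputable def lam (κ : ℕ → ℝ) (t : ℕ) : ℝ :=
  (if t = 0 then 1 else 0) - κ (t + 1) / (t.factorial : ℝ)

/-- The coefficients of the logarithmic derivative. -/
noncomputable def ell {P : Type} (r : ℕ) (e : P → ℕ) (I : Finset P) (t : ℕ) : ℝ :=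
  (((r : ℝ) + 1) - ∑ i ∈ I.filter (fun i => e i ∣ t + 1), (e i : ℝ)) / ((r : ℝ) + 1) ^ (t + 1)

theorem phi_succ (κ : ℕ → ℝ) (j : ℕ) : phi κ (j + 1) =
    phi κ j - ∑ e ∈ Finset.range (j + 1), κ (e + 1) * (j.choose e : ℝ) * phi κ (j - e) := by
  rw [phi, Finset.sum_range]

theorem psi_rec (κ : ℕ → ℝ) (j : ℕ) :
    ((j : ℝ) + 1) * (phi κ (j + 1) / ((j + 1).factorial : ℝ)) =
      ∑ t ∈ Finset.range (j + 1), lam κ t * (phi κ (j - t) / ((j - t).factorial : ℝ)) := by
  have hj : ((j.factorial : ℕ) : ℝ) ≠ 0 := Nat.cast_ne_zero.2 (Nat.factorial_ne_zero j)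
  have hj1 : ((j : ℝ) + 1) ≠ 0 := by positivity
  have h1 : ((j : ℝ) + 1) * (phi κ (j + 1) / ((j + 1).factorial : ℝ)) =
      phi κ (j + 1) / (j.factorial : ℝ) := by
    rw [Nat.factorial_succ]
    push_cast
    field_simp
  rw [h1, phi_succ, sub_div, Finset.sum_div]
  have h2 : ∀ t ∈ Finset.range (j + 1), lam κ t * (phi κ (j - t) / ((j - t).factorial : ℝ)) =
      (if t = 0 then phi κ j / (j.factorial : ℝ) else 0) -
        κ (t + 1) * (j.choose t : ℝ) * phi κ (j - t) / (j.factorial : ℝ) := by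
    intro t ht
    have ht' : t ≤ j := Nat.lt_succ_iff.1 (Finset.mem_range.1 ht)
    have h3 := Nat.choose_mul_factorial_mul_factorial ht'
    have h4 : (j.choose t : ℝ) * (t.factorial : ℝ) * ((j - t).factorial : ℝ) =
        (j.factorial : ℝ) := by exact_mod_cast h3
    have h5 : ((t.factorial : ℕ) : ℝ) ≠ 0 := Nat.cast_ne_zero.2 (Nat.factorial_ne_zero t)
    have h6 : (((j - t).factorial : ℕ) : ℝ) ≠ 0 :=
      Nat.cast_ne_zero.2 (Nat.factorial_ne_zero (j - t))
    unfold lam
    by_cases h0 : t = 0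
    · subst h0
      simp
      ring
    · rw [if_neg h0, if_neg h0, zero_sub, zero_sub, ← h4]
      have h7 : (j.choose t : ℝ) ≠ 0 := by
        intro h
        rw [h, zero_mul, zero_mul] at h4
        exact hj h4.symm
      field_simp
  rw [Finset.sum_congr rfl h2, Finset.sum_sub_distrib, Finset.sum_ite_eq']
  rw [if_pos (Finset.mem_range.2 (Nat.succ_pos j))]

theorem alpha_rec {P : Type} (r : ℕ) (e : P → ℕ) (I : Finset P) (he : ∀ i ∈ I, 1 ≤ e i) (j : ℕ) :
    ((j : ℝ) + 1) * ((fro r e I (j + 1) : ℝ) / ((r : ℝ) + 1) ^ (j + 1)) =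
      ∑ t ∈ Finset.range (j + 1), ell r e I t *
        ((fro r e I (j - t) : ℝ) / ((r : ℝ) + 1) ^ (j - t)) := by
  have hn : ((r : ℝ) + 1) ≠ 0 := by positivity
  have h1 := fro_rec r e I he (j + 1)
  have h2 : ((((j + 1 : ℕ) : ℤ) * fro r e I (j + 1) : ℤ) : ℝ) =
      ((∑ t ∈ Finset.range (j + 1),
      (((r : ℤ) + 1) - ∑ i ∈ I.filter (fun i => e i ∣ t + 1), (e i : ℤ)) *
        fro r e I (j + 1 - 1 - t) : ℤ) : ℝ) := by rw [h1]
  push_cast at h2
  rw [← mul_div_assoc, h2, Finset.sum_div]
  refine Finset.sum_congr rfl fun t ht => ?_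
  have ht' : t ≤ j := Nat.lt_succ_iff.1 (Finset.mem_range.1 ht)
  unfold ell
  have h3 : ((r : ℝ) + 1) ^ (j + 1) = ((r : ℝ) + 1) ^ (t + 1) * ((r : ℝ) + 1) ^ (j - t) := by
    rw [← pow_add]
    congr 1
    omega
  rw [h3, div_mul_div_comm]

theorem ell_sub_lam {P : Type} (r : ℕ) (e : P → ℕ) (I : Finset P) (t : ℕ) (C : ℝ) (hC : 0 ≤ C)
    (hload : ∀ i, 1 ≤ i → i ≤ t + 1 → load r e I i ≤ C) :
    |ell r e I t - lam (load r e I) t| ≤ (1 + ((t : ℝ) + 1) * C) / ((r : ℝ) + 1) := by
  have hn1 : (1 : ℝ) ≤ (r : ℝ) + 1 := by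
    have : (0 : ℝ) ≤ (r : ℝ) := Nat.cast_nonneg r
    linarith
  have hn0 : (0 : ℝ) < (r : ℝ) + 1 := by linarith
  set n : ℝ := (r : ℝ) + 1 with hndef
  -- group the sum by the value of the exponent
  have h1 : ∑ i ∈ I.filter (fun i => e i ∣ t + 1), (e i : ℝ) =
      ∑ d ∈ (t + 1).divisors, (d : ℝ) * ((I.filter (fun p => e p = d)).card : ℝ) := by
    rw [← Finset.sum_fiberwise_of_maps_to (s := I.filter (fun i => e i ∣ t + 1))
      (t := (t + 1).divisors) (g := e)]
    · refine Finset.sum_congr rfl fun d hd => ?_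
      have hd' := Nat.dvd_of_mem_divisors hd
      have h2 : (I.filter (fun i => e i ∣ t + 1)).filter (fun i => e i = d) =
          I.filter (fun p => e p = d) := by
        ext p
        simp only [Finset.mem_filter]
        constructor
        · rintro ⟨⟨h3, _⟩, h4⟩
          exact ⟨h3, h4⟩
        · rintro ⟨h3, h4⟩
          exact ⟨⟨h3, h4 ▸ hd'⟩, h4⟩
      rw [h2, Finset.sum_congr rfl (g := fun _ => (d : ℝ))]
      · rw [Finset.sum_const, nsmul_eq_mul, mul_comm]
      · intro p hp
        rw [(Finset.mem_filter.1 hp).2]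
    · intro p hp
      exact Nat.mem_divisors.2 ⟨(Finset.mem_filter.1 hp).2, Nat.succ_ne_zero t⟩
  have hk : ∀ d : ℕ, ((I.filter (fun p => e p = d)).card : ℝ) =
      load r e I d * n ^ d / (d.factorial : ℝ) := by
    intro d
    have h5 : ((d.factorial : ℕ) : ℝ) ≠ 0 := Nat.cast_ne_zero.2 (Nat.factorial_ne_zero d)
    unfold load
    rw [← hndef]
    field_simp
  have hload0 : ∀ d, 0 ≤ load r e I d := by
    intro d
    unfold load
    positivity
  have h6 : ∑ d ∈ (t + 1).divisors, (d : ℝ) * ((I.filter (fun p => e p = d)).card : ℝ) =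
      (∑ d ∈ (t + 1).properDivisors, (d : ℝ) * ((I.filter (fun p => e p = d)).card : ℝ)) +
      ((t + 1 : ℕ) : ℝ) * ((I.filter (fun p => e p = t + 1)).card : ℝ) := by
    rw [← Nat.cons_self_properDivisors (Nat.succ_ne_zero t), Finset.sum_cons, add_comm]
  have h7 : ((t + 1 : ℕ) : ℝ) * ((I.filter (fun p => e p = t + 1)).card : ℝ) / n ^ (t + 1) =
      load r e I (t + 1) / (t.factorial : ℝ) := by
    have h5 : ((t.factorial : ℕ) : ℝ) ≠ 0 := Nat.cast_ne_zero.2 (Nat.factorial_ne_zero t)
    have h8 : ((t : ℝ) + 1) ≠ 0 := by positivity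
    rw [hk, Nat.factorial_succ]
    push_cast
    field_simp
  have h9 : ell r e I t - lam (load r e I) t =
      (n / n ^ (t + 1) - (if t = 0 then 1 else 0)) -
      (∑ d ∈ (t + 1).properDivisors, (d : ℝ) * ((I.filter (fun p => e p = d)).card : ℝ)) /
        n ^ (t + 1) := by
    unfold ell lam
    rw [h1, h6, ← h7, ← hndef]
    ring
  rw [h9]
  have h10 : |n / n ^ (t + 1) - (if t = 0 then 1 else 0)| ≤ 1 / n := by
    by_cases h0 : t = 0
    · subst h0
      rw [if_pos rfl, zero_add, pow_one, div_self hn0.ne', sub_self, abs_zero]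
      positivity
    · rw [if_neg h0, sub_zero, abs_of_nonneg (by positivity), div_le_div_iff₀ (by positivity) hn0,
        one_mul, ← pow_two]
      exact pow_le_pow_right₀ hn1 (by omega)
  have h11 : |(∑ d ∈ (t + 1).properDivisors,
      (d : ℝ) * ((I.filter (fun p => e p = d)).card : ℝ)) / n ^ (t + 1)| ≤
      ((t : ℝ) + 1) * C / n := by
    rw [abs_of_nonneg (div_nonneg (Finset.sum_nonneg fun d _ => mul_nonneg (Nat.cast_nonneg _)
      (Nat.cast_nonneg _)) (pow_nonneg hn0.le _)), Finset.sum_div]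
    have h12 : ∀ d ∈ (t + 1).properDivisors,
        (d : ℝ) * ((I.filter (fun p => e p = d)).card : ℝ) / n ^ (t + 1) ≤ C / n := by
      intro d hd
      have hd1 := Nat.mem_properDivisors.1 hd
      have hd2 : 1 ≤ d := Nat.pos_of_dvd_of_pos hd1.1 (Nat.succ_pos t)
      have hl := hload d hd2 (by omega)
      have hl0 := hload0 d
      have h13 : (d : ℝ) ≤ (d.factorial : ℝ) := by exact_mod_cast Nat.self_le_factorial d
      have h14 : (0 : ℝ) < (d.factorial : ℝ) := by exact_mod_cast Nat.factorial_pos d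
      rw [hk, div_le_div_iff₀ (by positivity) hn0]
      have h15 : n ^ d * n ≤ n ^ (t + 1) := by
        rw [← pow_succ]
        exact pow_le_pow_right₀ hn1 (by omega)
      calc (d : ℝ) * (load r e I d * n ^ d / (d.factorial : ℝ)) * n
          = ((d : ℝ) / (d.factorial : ℝ)) * (load r e I d * (n ^ d * n)) := by ring
        _ ≤ 1 * (load r e I d * (n ^ d * n)) := by
          apply mul_le_mul_of_nonneg_right
          · rw [div_le_one h14]
            exact h13
          · positivity
        _ ≤ 1 * (C * n ^ (t + 1)) := by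
          rw [one_mul, one_mul]
          exact mul_le_mul hl h15 (by positivity) hC
        _ = C * n ^ (t + 1) := one_mul _
    refine le_trans (Finset.sum_le_card_nsmul _ _ _ h12) ?_
    rw [nsmul_eq_mul, mul_div_assoc]
    apply mul_le_mul_of_nonneg_right
    · have h16 : ((t + 1).properDivisors).card ≤ t + 1 := by
        have h17 : (t + 1).properDivisors ⊆ Finset.range (t + 1) := by
          intro d hd
          exact Finset.mem_range.2 (Nat.mem_properDivisors.1 hd).2
        calc _ ≤ (Finset.range (t + 1)).card := Finset.card_le_card h17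
          _ = t + 1 := Finset.card_range _
      exact_mod_cast h16
    · positivity
  calc _ ≤ |n / n ^ (t + 1) - (if t = 0 then 1 else 0)| + |(∑ d ∈ (t + 1).properDivisors,
      (d : ℝ) * ((I.filter (fun p => e p = d)).card : ℝ)) / n ^ (t + 1)| := abs_sub _ _
    _ ≤ 1 / n + ((t : ℝ) + 1) * C / n := add_le_add h10 h11
    _ = (1 + ((t : ℝ) + 1) * C) / n := by ring

theorem abs_lam_le {P : Type} (r : ℕ) (e : P → ℕ) (I : Finset P) (t : ℕ) (C : ℝ)
    (hload : load r e I (t + 1) ≤ C) : |lam (load r e I) t| ≤ 1 + C := by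
  have h0 : 0 ≤ load r e I (t + 1) := by
    unfold load
    positivity
  have h1 : (1 : ℝ) ≤ (t.factorial : ℝ) := by exact_mod_cast Nat.factorial_pos t
  have h2 : load r e I (t + 1) / (t.factorial : ℝ) ≤ C :=
    le_trans (div_le_self h0 h1) hload
  have h3 : 0 ≤ load r e I (t + 1) / (t.factorial : ℝ) := by positivity
  unfold lam
  refine le_trans (abs_sub _ _) (add_le_add ?_ ?_)
  · by_cases ht : t = 0
    · rw [if_pos ht, abs_one]
    · rw [if_neg ht, abs_zero]
      exact zero_le_one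
  · rw [abs_of_nonneg h3]
    exact h2

theorem fro_zero {P : Type} (r : ℕ) (e : P → ℕ) (I : Finset P) (he : ∀ i ∈ I, 1 ≤ e i) :
    fro r e I 0 = 1 := by
  induction I using Finset.induction_on with
  | empty => simp [fro]
  | insert a s ha ih =>
    have h1 := he a (Finset.mem_insert_self a s)
    rw [fro_insert r e s a ha, ih fun i hi => he i (Finset.mem_insert_of_mem hi),
      if_neg (by omega), sub_zero]

theorem main (j : ℕ) (C : ℝ) (hC : 0 ≤ C) : ∃ K : ℝ, 0 ≤ K ∧ ∀ r : ℕ,
    ∀ (P : Type) (e : P → ℕ) (I : Finset P), (∀ i ∈ I, 1 ≤ e i) →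
    (∀ i, 1 ≤ i → i ≤ j → load r e I i ≤ C) → ∀ i ≤ j,
    |(fro r e I i : ℝ) / ((r : ℝ) + 1) ^ i - phi (load r e I) i / (i.factorial : ℝ)| ≤
      K / ((r : ℝ) + 1) ∧ |(fro r e I i : ℝ) / ((r : ℝ) + 1) ^ i| ≤ K ∧
      |phi (load r e I) i / (i.factorial : ℝ)| ≤ K := by
  induction j with
  | zero =>
    refine ⟨1, zero_le_one, fun r P e I he _ i hi => ?_⟩
    have : i = 0 := by omega
    subst this
    rw [fro_zero r e I he, phi]
    have hn0 : (0 : ℝ) < (r : ℝ) + 1 := by positivity
    simp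
    positivity
  | succ j ih =>
    obtain ⟨K, hK0, hK⟩ := ih
    refine ⟨K * (3 + ((j : ℝ) + 3) * C), by positivity, fun r P e I he hload i hi => ?_⟩
    have hKK : K ≤ K * (3 + ((j : ℝ) + 3) * C) := by
      apply le_mul_of_one_le_right hK0
      have : 0 ≤ ((j : ℝ) + 3) * C := by positivity
      linarith only [this]
    have hn0 : (0 : ℝ) < (r : ℝ) + 1 := by positivity
    have hn1 : (1 : ℝ) ≤ (r : ℝ) + 1 := by
      have : (0 : ℝ) ≤ (r : ℝ) := Nat.cast_nonneg r
      linarith only
    have hK' := hK r P e I he fun i h1 h2 => hload i h1 (by omega)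
    rcases Nat.lt_or_ge j i with hji | hji
    · have : i = j + 1 := by omega
      subst this
      have hj0 : (0 : ℝ) < (j : ℝ) + 1 := by positivity
      have hA := alpha_rec r e I he j
      have hB := psi_rec (load r e I) j
      set α : ℕ → ℝ := fun i => (fro r e I i : ℝ) / ((r : ℝ) + 1) ^ i with hα
      set ψ : ℕ → ℝ := fun i => phi (load r e I) i / (i.factorial : ℝ) with hψ
      have hlam : ∀ t ∈ Finset.range (j + 1), |lam (load r e I) t| ≤ 1 + C := by
        intro t ht
        have ht' := Finset.mem_range.1 ht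
        exact abs_lam_le r e I t C (hload (t + 1) (by omega) (by omega))
      have hell : ∀ t ∈ Finset.range (j + 1), |ell r e I t - lam (load r e I) t| ≤
          (1 + ((j : ℝ) + 1) * C) / ((r : ℝ) + 1) := by
        intro t ht
        have ht' := Finset.mem_range.1 ht
        refine le_trans (ell_sub_lam r e I t C hC fun i h1 h2 => hload i h1 (by omega)) ?_
        apply div_le_div_of_nonneg_right _ hn0.le
        have : (t : ℝ) ≤ (j : ℝ) := by exact_mod_cast Nat.lt_succ_iff.1 ht'
        nlinarith only [hC, this]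
      have h1 : |α (j + 1) - ψ (j + 1)| ≤ K * (2 + ((j : ℝ) + 2) * C) / ((r : ℝ) + 1) := by
        have h2 : ((j : ℝ) + 1) * (α (j + 1) - ψ (j + 1)) = ∑ t ∈ Finset.range (j + 1),
            ((ell r e I t - lam (load r e I) t) * α (j - t) +
              lam (load r e I) t * (α (j - t) - ψ (j - t))) := by
          rw [mul_sub]
          simp only [hα, hψ]
          rw [hA, hB, ← Finset.sum_sub_distrib]
          refine Finset.sum_congr rfl fun t _ => ?_
          ring
        have h3 : |((j : ℝ) + 1) * (α (j + 1) - ψ (j + 1))| ≤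
            ((j : ℝ) + 1) * (K * (2 + ((j : ℝ) + 2) * C) / ((r : ℝ) + 1)) := by
          rw [h2]
          refine le_trans (Finset.abs_sum_le_sum_abs _ _) ?_
          have h4 : ∀ t ∈ Finset.range (j + 1),
              |(ell r e I t - lam (load r e I) t) * α (j - t) +
              lam (load r e I) t * (α (j - t) - ψ (j - t))| ≤
              K * (2 + ((j : ℝ) + 2) * C) / ((r : ℝ) + 1) := by
            intro t ht
            have ht' := Finset.mem_range.1 ht
            obtain ⟨h5, h6, _⟩ := hK' (j - t) (by omega)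
            refine le_trans (abs_add_le _ _) ?_
            rw [abs_mul, abs_mul]
            calc _ ≤ (1 + ((j : ℝ) + 1) * C) / ((r : ℝ) + 1) * K +
                  (1 + C) * (K / ((r : ℝ) + 1)) :=
                  add_le_add (mul_le_mul (hell t ht) h6 (abs_nonneg _) (by positivity))
                    (mul_le_mul (hlam t ht) h5 (abs_nonneg _) (by positivity))
              _ = K * (2 + ((j : ℝ) + 2) * C) / ((r : ℝ) + 1) := by ring
          refine le_trans (Finset.sum_le_card_nsmul _ _ _ h4) ?_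
          rw [Finset.card_range, nsmul_eq_mul]
          push_cast
          exact le_rfl
        rw [abs_mul, abs_of_pos hj0] at h3
        exact le_of_mul_le_mul_left h3 hj0
      have h7 : |ψ (j + 1)| ≤ (1 + C) * K := by
        have h3 : |((j : ℝ) + 1) * ψ (j + 1)| ≤ ((j : ℝ) + 1) * ((1 + C) * K) := by
          simp only [hψ]
          rw [hB]
          refine le_trans (Finset.abs_sum_le_sum_abs _ _) ?_
          have h4 : ∀ t ∈ Finset.range (j + 1), |lam (load r e I) t *
              (phi (load r e I) (j - t) / ((j - t).factorial : ℝ))| ≤ (1 + C) * K := by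
            intro t ht
            have ht' := Finset.mem_range.1 ht
            obtain ⟨_, _, h6⟩ := hK' (j - t) (by omega)
            rw [abs_mul]
            exact mul_le_mul (hlam t ht) h6 (abs_nonneg _) (by positivity)
          refine le_trans (Finset.sum_le_card_nsmul _ _ _ h4) ?_
          rw [Finset.card_range, nsmul_eq_mul]
          push_cast
          exact le_rfl
        rw [abs_mul, abs_of_pos hj0] at h3
        exact le_of_mul_le_mul_left h3 hj0
      have hX : 0 ≤ K * (2 + ((j : ℝ) + 2) * C) := by positivity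
      have h8 : K * (2 + ((j : ℝ) + 2) * C) / ((r : ℝ) + 1) ≤ K * (2 + ((j : ℝ) + 2) * C) :=
        div_le_self hX hn1
      have h9 : |α (j + 1)| ≤ K * (2 + ((j : ℝ) + 2) * C) + (1 + C) * K := by
        have h10 : α (j + 1) = (α (j + 1) - ψ (j + 1)) + ψ (j + 1) := by ring
        rw [h10]
        exact le_trans (abs_add_le _ _) (add_le_add (le_trans h1 h8) h7)
      have hKC : 0 ≤ K * C := mul_nonneg hK0 hC
      refine ⟨?_, ?_, ?_⟩
      · refine le_trans h1 ?_
        apply div_le_div_of_nonneg_right _ hn0.le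
        nlinarith only [hK0, hKC]
      · refine le_trans h9 ?_
        nlinarith only
      · refine le_trans h7 ?_
        have : 0 ≤ K * C * (j : ℝ) := by positivity
        nlinarith only [hX]
    · obtain ⟨h1, h2, h3⟩ := hK' i hji
      exact ⟨le_trans h1 (div_le_div_of_nonneg_right hKK hn0.le), le_trans h2 hKK,
        le_trans h3 hKK⟩

theorem phi_load_empty {P : Type} (r : ℕ) (e : P → ℕ) (j : ℕ) :
    phi (load r e (∅ : Finset P)) j = 1 := by
  induction j with
  | zero => rw [phi]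
  | succ j ih =>
    rw [phi_succ, ih, Finset.sum_eq_zero, sub_zero]
    intro t _
    simp [load]

theorem pow_le_choose (r j : ℕ) :
    ((r : ℝ) + 1) ^ j ≤ (j.factorial : ℝ) * ((j + r).choose r : ℝ) := by
  have h1 := Nat.pow_succ_le_ascFactorial (r + 1) j
  rw [Nat.ascFactorial_eq_factorial_mul_choose] at h1
  have h2 : (r + j).choose j = (j + r).choose r := by
    rw [Nat.add_comm r j]
    exact Nat.choose_symm_add
  rw [h2] at h1
  exact_mod_cast h1

end FroAsympX

/-- The asymptotic value of `fro`, uniformly for bounded loads. -/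
theorem fro_asymp (j : ℕ) (C : ℝ) (η : ℝ) (hη : 0 < η) : ∃ r₀ : ℕ, ∀ r : ℕ, r₀ ≤ r →
    ∀ (P : Type) (e : P → ℕ) (I : Finset P), (∀ i ∈ I, 1 ≤ e i) →
    (∀ i, 1 ≤ i → i ≤ j → load r e I i ≤ C) →
    |(fro r e I j : ℝ) - phi (load r e I) j * ((j + r).choose r : ℝ)| ≤
      η * ((j + r).choose r : ℝ) := by
  obtain ⟨K, hK0, hK⟩ := FroAsympX.main j (max C 0) (le_max_right _ _)
  have hfac : (0 : ℝ) < (j.factorial : ℝ) := by exact_mod_cast Nat.factorial_pos j
  obtain ⟨r₀, hr₀⟩ := exists_nat_ge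
    ((j.factorial : ℝ) * (K + (j.factorial : ℝ) * K * K) / η)
  refine ⟨r₀, fun r hr P e I he hload => ?_⟩
  have hn0 : (0 : ℝ) < (r : ℝ) + 1 := by positivity
  obtain ⟨h1, _, h3⟩ := hK r P e I he
    (fun i ha hb => le_trans (hload i ha hb) (le_max_left _ _)) j le_rfl
  obtain ⟨h4, _, _⟩ := hK r P e (∅ : Finset P) (fun i hi => absurd hi (Finset.notMem_empty i))
    (fun i _ _ => by simp [load]) j le_rfl
  rw [FroAX.fro_empty, FroAsympX.phi_load_empty, Nat.add_comm r j] at h4
  push_cast at h4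
  set n : ℝ := (r : ℝ) + 1 with hn
  set cb : ℝ := ((j + r).choose r : ℝ) with hcb
  set φ : ℝ := phi (load r e I) j with hφ
  have hcb0 : 0 ≤ cb := Nat.cast_nonneg _
  have h5 : |φ| ≤ (j.factorial : ℝ) * K := by
    rw [abs_div, abs_of_pos hfac, div_le_iff₀ hfac] at h3
    linarith only [h3]
  have hnj : (0 : ℝ) < n ^ j := by positivity
  have h6 : (fro r e I j : ℝ) - φ * cb =
      n ^ j * (((fro r e I j : ℝ) / n ^ j - φ / (j.factorial : ℝ)) +
        φ * (1 / (j.factorial : ℝ) - cb / n ^ j)) := by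
    field_simp
    ring
  rw [h6, abs_mul, abs_of_pos hnj]
  have h7 : |((fro r e I j : ℝ) / n ^ j - φ / (j.factorial : ℝ)) +
        φ * (1 / (j.factorial : ℝ) - cb / n ^ j)| ≤ (K + (j.factorial : ℝ) * K * K) / n := by
    refine le_trans (abs_add_le _ _) ?_
    rw [abs_mul, abs_sub_comm (1 / (j.factorial : ℝ))]
    calc _ ≤ K / n + (j.factorial : ℝ) * K * (K / n) :=
          add_le_add h1 (mul_le_mul h5 h4 (abs_nonneg _) (by positivity))
      _ = (K + (j.factorial : ℝ) * K * K) / n := by ring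
  have h8 := FroAsympX.pow_le_choose r j
  rw [← hn, ← hcb] at h8
  have h9 : (j.factorial : ℝ) * (K + (j.factorial : ℝ) * K * K) ≤ η * n := by
    rw [div_le_iff₀ hη] at hr₀
    have h10 : (r₀ : ℝ) ≤ (r : ℝ) := by exact_mod_cast hr
    have h11 : (r₀ : ℝ) * η ≤ n * η := mul_le_mul_of_nonneg_right (by linarith only [h10]) hη.le
    linarith only [hr₀, h11]
  calc n ^ j * |((fro r e I j : ℝ) / n ^ j - φ / (j.factorial : ℝ)) +
        φ * (1 / (j.factorial : ℝ) - cb / n ^ j)|
      ≤ ((j.factorial : ℝ) * cb) * ((K + (j.factorial : ℝ) * K * K) / n) :=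
        mul_le_mul h8 h7 (abs_nonneg _) (by positivity)
    _ = ((j.factorial : ℝ) * (K + (j.factorial : ℝ) * K * K)) * cb / n := by ring
    _ ≤ (η * n) * cb / n := by
        apply div_le_div_of_nonneg_right _ hn0.le
        exact mul_le_mul_of_nonneg_right h9 hcb0
    _ = η * cb := by
        field_simp

end Pool.Agent.H21.HD

end

section

/-!
Project HD: versions of some lemmas for arbitrary decidability instances.
-/

namespace Pool.Agent.H21.HD

open MvPolynomial Pool.Agent.H18.Fat

theorem fro_insert' {P : Type} [DecidableEq P] (r : ℕ) (e : P → ℕ) (I : Finset P) (i : P)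
    (hi : i ∉ I) (j : ℕ) :
    fro r e (insert i I) j = fro r e I j - (if e i ≤ j then fro r e I (j - e i) else 0) := by
  have h0 : ∀ D : DecidableEq P, @insert P (Finset P) (@Finset.instInsert P D) i I =
      Finset.cons i I hi := fun D => (Finset.cons_eq_insert i I hi).symm
  have h := fro_insert r e I i hi j
  rw [h0] at h ⊢
  exact h

theorem fro_simple' {P : Type} [DecidableEq P] (r d : ℕ) (e : P → ℕ) (I S : Finset P)
    (hd : Disjoint I S) (he : ∀ i ∈ I, 1 ≤ e i) (hd1 : 1 ≤ d) (hS : ∀ i ∈ S, e i = d) :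
    fro r e (I ∪ S) d = fro r e I d - S.card := by
  have h0 : ∀ D : DecidableEq P, @Union.union (Finset P) (@Finset.instUnion P D) I S =
      Finset.disjUnion I S hd := fun D => (Finset.disjUnion_eq_union I S hd).symm
  have h := fro_simple r d e I S hd he hd1 hS
  rw [h0] at h ⊢
  exact h

theorem finrank_fat_le_add' {r : ℕ} {ι : Type} [Fintype ι] [E : DecidableEq ι] (d : ℕ)
    (p : ι → Fin (r + 1) → ℂ) (m : ι → ℕ) (i₀ : ι) (e : ℕ) (he : e ≤ d) (hi₀ : m i₀ = 0) :
    Module.finrank ℂ (fatForms r d p m) ≤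
      Module.finrank ℂ (fatForms r d p (Function.update m i₀ (d + 1 - e))) +
        Module.finrank ℂ (fatForms r (d - e) p (fun i => m i - e)) := by
  have h := finrank_fat_le_add (r := r) d p m i₀ e he hi₀
  have h1 : ∀ D : DecidableEq ι, @Function.update ι (fun _ => ℕ) D m i₀ (d + 1 - e) =
      @Function.update ι (fun _ => ℕ) E m i₀ (d + 1 - e) := by
    intro D
    funext i
    by_cases hi : i = i₀
    · subst hi
      exact (@Function.update_self ι (fun _ => ℕ) D i (d + 1 - e) m).trans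
        (@Function.update_self ι (fun _ => ℕ) E i (d + 1 - e) m).symm
    · exact (@Function.update_of_ne ι (fun _ => ℕ) D i i₀ hi (d + 1 - e) m).trans
        (@Function.update_of_ne ι (fun _ => ℕ) E i i₀ hi (d + 1 - e) m).symm
  rw [h1] at h
  exact h

end Pool.Agent.H21.HD

end

section

/-!
From PhiInj to independence.
-/

namespace Pool.Agent.H21.HD

open MvPolynomial
open scoped Classical

variable {N : ℕ} {A Λ P : Type} [Fintype A] [Fintype Λ] [Fintype P]

private theorem bdeg_add' (γ δ : Sg N A Λ →₀ ℕ) (i : Fin N) :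
    bdeg (γ + δ) i = bdeg γ i + bdeg δ i := by
  unfold bdeg
  rw [← Finset.sum_add_distrib]
  rfl

private theorem bsupp_add' (γ δ : Sg N A Λ →₀ ℕ) :
    bsupp (γ + δ) = bsupp γ ∪ bsupp δ := by
  ext i
  simp only [bsupp, Finset.mem_filter, Finset.mem_univ, true_and, Finset.mem_union, bdeg_add']
  omega

private theorem bsupp_lin (c : Finset (Fin N)) (v : Fin N → A → ℂ) (y : Λ → ℂ)
    (δ : Sg N A Λ →₀ ℕ) (h : coeff δ (lin (vec c v y)) ≠ 0) : bsupp δ ⊆ c := by
  unfold lin at h
  rw [coeff_sum] at h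
  obtain ⟨s, _, hs⟩ := Finset.exists_ne_zero_of_sum_ne_zero h
  rw [coeff_C_mul, coeff_X] at hs
  split_ifs at hs with h1
  · intro i hi
    simp only [bsupp, Finset.mem_filter, Finset.mem_univ, true_and] at hi
    unfold bdeg at hi
    obtain ⟨a, _, ha⟩ := Finset.exists_ne_zero_of_sum_ne_zero hi
    rw [← h1, Finsupp.single_apply] at ha
    split_ifs at ha with h2
    · rw [h2] at hs
      by_contra hic
      apply hs
      simp [vec, hic]
    · exact absurd rfl ha
  · simp at hs

private theorem bsupp_lin_pow (c : Finset (Fin N)) (v : Fin N → A → ℂ) (y : Λ → ℂ) (e : ℕ)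
    (δ : Sg N A Λ →₀ ℕ) (h : coeff δ (lin (vec c v y) ^ e) ≠ 0) : bsupp δ ⊆ c := by
  induction e generalizing δ with
  | zero =>
    rw [pow_zero, coeff_one] at h
    split_ifs at h with h1
    · rw [← h1]
      intro i hi
      simp [bsupp, bdeg] at hi
    · exact absurd rfl h
  | succ e ih =>
    rw [pow_succ, coeff_mul] at h
    obtain ⟨x, hx, hx2⟩ := Finset.exists_ne_zero_of_sum_ne_zero h
    have hx := Finset.HasAntidiagonal.mem_antidiagonal.1 hx
    rw [← hx, bsupp_add']
    exact Finset.union_subset (ih _ (left_ne_zero_of_mul hx2))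
      (bsupp_lin c v y _ (right_ne_zero_of_mul hx2))

private theorem card_bsupp_le (γ : Sg N A Λ →₀ ℕ) : (bsupp γ).card ≤ γ.degree := by
  have h1 : γ.degree = ∑ s, γ s := by
    rw [Finsupp.degree_eq_sum]
  rw [h1, Fintype.sum_sum_type, Fintype.sum_prod_type]
  have h2 : (bsupp γ).card ≤ ∑ i : Fin N, ∑ a : A, γ (Sum.inl (i, a)) := by
    rw [Finset.card_eq_sum_ones]
    unfold bsupp
    rw [Finset.sum_filter]
    apply Finset.sum_le_sum
    intro i _
    split_ifs with h3
    · unfold bdeg at h3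
      omega
    · exact Nat.zero_le _
  omega

/-- The powers are independent if `PhiInj` holds for all sets of at most `d` blocks. -/
theorem indep_of_phiInj (d : ℕ) (c : P → Finset (Fin N)) (hc : ∀ p, (c p).card ≤ d)
    (v : P → Fin N → A → ℂ) (y : P → Λ → ℂ)
    (h : ∀ J : Finset (Fin N), J.card ≤ d → PhiInj d J c v y) :
    Indep d (fun p => vec (c p) (v p) (y p)) (fun p => (c p).card) := by
  intro g hg hsum
  by_contra hcon
  push Not at hcon
  obtain ⟨p1, hp1⟩ := hcon
  obtain ⟨γ1, hγ1⟩ := (MvPolynomial.ne_zero_iff).1 hp1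
  -- a pair with the largest set of blocks
  let S : Finset (Σ _ : P, (Sg N A Λ →₀ ℕ)) := Finset.univ.sigma (fun p => (g p).support)
  have hS : S.Nonempty := ⟨⟨p1, γ1⟩, by simp [S, hγ1]⟩
  obtain ⟨⟨p0, γ0⟩, hmem, hmax⟩ := Finset.exists_max_image S
    (fun x => (bsupp x.2 ∪ c x.1).card) hS
  have hγ0 : coeff γ0 (g p0) ≠ 0 := by
    have := (Finset.mem_sigma.1 hmem).2
    exact mem_support_iff.1 this
  have hmax' : ∀ p γ, coeff γ (g p) ≠ 0 → (bsupp γ ∪ c p).card ≤ (bsupp γ0 ∪ c p0).card := by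
    intro p γ hγ
    have h0 : (⟨p, γ⟩ : Σ _ : P, (Sg N A Λ →₀ ℕ)) ∈ S :=
      Finset.mem_sigma.2 ⟨Finset.mem_univ _, mem_support_iff.2 hγ⟩
    exact hmax ⟨p, γ⟩ h0
  set J : Finset (Fin N) := bsupp γ0 ∪ c p0 with hJ
  have hJd : J.card ≤ d := by
    have h1 := Finset.card_union_le (bsupp γ0) (c p0)
    have h2 := card_bsupp_le γ0
    have h3 : γ0.degree = d - (c p0).card := by
      have := (hg p0) hγ0
      rw [← this]
      exact DFunLike.congr_fun (Finsupp.degree_eq_weight_one (σ := Sg N A Λ) (R := ℕ)) γ0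
    have h4 := hc p0
    rw [← hJ] at h1
    omega
  let g' : P → MvPolynomial (Sg N A Λ) ℂ := fun p =>
    ∑ γ ∈ (g p).support.filter (fun γ => bsupp γ ∪ c p = J), monomial γ (coeff γ (g p))
  have hg'c : ∀ p γ, coeff γ (g' p) = if bsupp γ ∪ c p = J then coeff γ (g p) else 0 := by
    intro p γ
    simp only [g']
    rw [coeff_sum]
    simp only [coeff_monomial]
    by_cases hb : bsupp γ ∪ c p = J
    · rw [if_pos hb]
      by_cases h0 : coeff γ (g p) = 0
      · rw [h0]
        apply Finset.sum_eq_zero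
        intro δ _
        split_ifs with h5
        · rw [h5, h0]
        · rfl
      · rw [Finset.sum_ite_eq' , if_pos]
        rw [Finset.mem_filter, mem_support_iff]
        exact ⟨h0, hb⟩
    · rw [if_neg hb]
      apply Finset.sum_eq_zero
      intro δ hδ
      rw [Finset.mem_filter] at hδ
      split_ifs with h5
      · rw [h5] at hδ
        exact absurd hδ.2 hb
      · rfl
  have hres := h J hJd g' ?_ ?_ ?_ p0
  · have h1 := hg'c p0 γ0
    rw [hres, if_pos rfl, coeff_zero] at h1
    exact hγ0 h1.symm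
  · intro p γ hγ
    rw [hg'c] at hγ
    split_ifs at hγ with h1
    · exact hg p hγ
    · exact absurd rfl hγ
  · intro p γ hγ
    rw [hg'c] at hγ
    split_ifs at hγ with h1
    · exact h1
    · exact absurd rfl hγ
  · intro γ hγ
    have h1 : coeff γ (∑ p, g p * lin (vec (c p) (v p) (y p)) ^ (c p).card) = 0 := by
      rw [hsum, coeff_zero]
    rw [← h1, coeff_sum, coeff_sum]
    apply Finset.sum_congr rfl
    intro p _
    rw [coeff_mul, coeff_mul]
    apply Finset.sum_congr rfl
    intro x hx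
    have hx := Finset.HasAntidiagonal.mem_antidiagonal.1 hx
    by_cases h2 : coeff x.2 (lin (vec (c p) (v p) (y p)) ^ (c p).card) = 0
    · rw [h2, mul_zero, mul_zero]
    congr 1
    rw [hg'c]
    split_ifs with h3
    · rfl
    · by_contra h4
      have h5 : coeff x.1 (g p) ≠ 0 := fun h6 => h4 h6.symm
      apply h3
      have h6 : bsupp x.2 ⊆ c p := bsupp_lin_pow _ _ _ _ _ h2
      have h7 : J ⊆ bsupp x.1 ∪ c p := by
        rw [← hγ, ← hx, bsupp_add']
        exact Finset.union_subset_union_right h6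
      exact (Finset.eq_of_subset_of_card_le h7 (hmax' p x.1 h5)).symm

end Pool.Agent.H21.HD

end

section

/-!
PhiInj is open.
-/

namespace Pool.Agent.H21.HD

open MvPolynomial
open scoped Classical

namespace PhiOpenX

/-- All coefficients are polynomial in the parameters. -/
def CP {σ τ : Type*} (F : (σ → ℂ) → MvPolynomial τ ℂ) : Prop :=
  ∀ γ, PolyFun (fun x => coeff γ (F x))

theorem CP.const {σ τ : Type*} (f : MvPolynomial τ ℂ) : CP (fun _ : σ → ℂ => f) :=
  fun _ => PolyFun.const _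

theorem CP.mul {σ τ : Type*} {F G : (σ → ℂ) → MvPolynomial τ ℂ} (hF : CP F) (hG : CP G) :
    CP (fun x => F x * G x) := by
  intro γ
  simp only [coeff_mul]
  exact PolyFun.sum _ _ fun k _ => (hF k.1).mul (hG k.2)

theorem CP.pow {σ τ : Type*} {F : (σ → ℂ) → MvPolynomial τ ℂ} (hF : CP F) (n : ℕ) :
    CP (fun x => F x ^ n) := by
  induction n with
  | zero => simpa using CP.const (σ := σ) (1 : MvPolynomial τ ℂ)
  | succ n ih =>
    simp only [pow_succ]
    exact ih.mul hF

theorem CP.sum {σ τ κ : Type*} (S : Finset κ) (F : κ → (σ → ℂ) → MvPolynomial τ ℂ)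
    (hF : ∀ k ∈ S, CP (F k)) : CP (fun x => ∑ k ∈ S, F k x) := by
  intro γ
  simp only [coeff_sum]
  exact PolyFun.sum _ _ fun k hk => hF k hk γ

theorem CP.C {σ τ : Type*} {F : (σ → ℂ) → ℂ} (hF : PolyFun F) :
    CP (fun x => (MvPolynomial.C (F x) : MvPolynomial τ ℂ)) := by
  intro γ
  simp only [coeff_C]
  by_cases h : (0 : τ →₀ ℕ) = γ
  · simpa [h] using hF
  · simpa [h] using PolyFun.const (σ := σ) 0

theorem CP.lin {σ τ : Type*} [Fintype τ] {w : (σ → ℂ) → τ → ℂ}
    (hw : ∀ s, PolyFun (fun x => w x s)) : CP (fun x => Pool.Agent.H21.HD.lin (w x)) := by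
  unfold Pool.Agent.H21.HD.lin
  exact CP.sum _ _ fun s _ => (CP.C (hw s)).mul (CP.const _)

theorem lin_homog {τ : Type*} [Fintype τ] (w : τ → ℂ) :
    (Pool.Agent.H21.HD.lin w).IsHomogeneous 1 := by
  unfold Pool.Agent.H21.HD.lin
  apply IsHomogeneous.sum
  intro s _
  simpa using (isHomogeneous_C τ (w s)).mul (isHomogeneous_X ℂ s)

end PhiOpenX

open PhiOpenX

variable {N : ℕ} {A Λ P : Type} [Fintype A] [Fintype Λ] [Fintype P]

namespace PhiOpenX

/-- The space of multipliers. -/
def VV (N : ℕ) (A Λ : Type) {P : Type} [Fintype A] [Fintype Λ] (d : ℕ) (J : Finset (Fin N))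
    (c : P → Finset (Fin N)) : Submodule ℂ (P → MvPolynomial (Sg N A Λ) ℂ) where
  carrier := {g | (∀ p, (g p).IsHomogeneous (d - (c p).card)) ∧
    ∀ p γ, coeff γ (g p) ≠ 0 → bsupp γ ∪ c p = J}
  add_mem' := by
    rintro g g' ⟨h1, h2⟩ ⟨h1', h2'⟩
    refine ⟨fun p => (h1 p).add (h1' p), fun p γ h => ?_⟩
    simp only [Pi.add_apply, coeff_add] at h
    by_cases h0 : coeff γ (g p) = 0
    · rw [h0, zero_add] at h
      exact h2' p γ h
    · exact h2 p γ h0
  zero_mem' := ⟨fun p => isHomogeneous_zero _ _ _, fun p γ h => absurd (by simp) h⟩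
  smul_mem' := by
    rintro a g ⟨h1, h2⟩
    refine ⟨fun p => ?_, fun p γ h => ?_⟩
    · have := (isHomogeneous_C (Sg N A Λ) a).mul (h1 p)
      simpa [MvPolynomial.smul_eq_C_mul] using this
    · simp only [Pi.smul_apply, coeff_smul, smul_eq_mul] at h
      exact h2 p γ (right_ne_zero_of_mul h)

/-- The exponent vectors of degree at most `M`. -/
abbrev YY (N : ℕ) (A Λ : Type) (M : ℕ) : Type := {γ : Sg N A Λ →₀ ℕ // γ.degree ≤ M}

theorem finite_YY (M : ℕ) : Finite (YY N A Λ M) := by
  have : Set.Finite {γ : Sg N A Λ →₀ ℕ | γ.degree ≤ M} := by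
    have h1 : {γ : Sg N A Λ →₀ ℕ | γ.degree ≤ M} ⊆
        Set.Iic (Finsupp.equivFunOnFinite.symm (fun _ => M)) := by
      intro γ hγ s
      have : γ s ≤ γ.degree := Finsupp.le_degree s γ
      simp only [Finsupp.equivFunOnFinite_symm_apply_apply]
      exact this.trans hγ
    exact (Set.finite_Iic _).subset h1
  exact this.to_subtype

theorem finiteDimensional_VV (d : ℕ) (J : Finset (Fin N)) (c : P → Finset (Fin N)) :
    FiniteDimensional ℂ (VV N A Λ d J c) := by
  haveI := finite_YY (N := N) (A := A) (Λ := Λ) d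
  let f : VV N A Λ d J c →ₗ[ℂ] (P × YY N A Λ d → ℂ) :=
    { toFun := fun g x => coeff x.2.1 (g.1 x.1)
      map_add' := by intro g g'; funext x; simp
      map_smul' := by intro a g; funext x; simp }
  apply Module.Finite.of_injective f
  intro g g' h
  apply Subtype.ext
  funext p
  ext γ
  by_cases hγ : γ.degree ≤ d
  · exact congrFun h (p, ⟨γ, hγ⟩)
  · have h1 : coeff γ (g.1 p) = 0 := by
      apply (g.2.1 p).coeff_eq_zero
      omega
    have h2 : coeff γ (g'.1 p) = 0 := by
      apply (g'.2.1 p).coeff_eq_zero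
      omega
    rw [h1, h2]

/-- The sum map. -/
noncomputable def TT (d : ℕ) (J : Finset (Fin N)) (c : P → Finset (Fin N))
    (x : (P × Fin N × A) ⊕ (P × Λ) → ℂ) :
    VV N A Λ d J c →ₗ[ℂ] ({γ : YY N A Λ (d + N) // bsupp γ.1 = J} → ℂ) where
  toFun g γ := coeff γ.1.1 (∑ p, g.1 p *
    lin (vec (c p) (fun i a => x (Sum.inl (p, i, a))) (fun l => x (Sum.inr (p, l)))) ^ (c p).card)
  map_add' g g' := by
    funext γ
    simp only [Submodule.coe_add, Pi.add_apply, add_mul, Finset.sum_add_distrib, coeff_add]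
  map_smul' a g := by
    funext γ
    simp only [SetLike.val_smul, Pi.smul_apply, smul_mul_assoc, ← Finset.smul_sum, coeff_smul,
      RingHom.id_apply]

theorem TT_inj_iff (d : ℕ) (J : Finset (Fin N)) (c : P → Finset (Fin N))
    (v : P → Fin N → A → ℂ) (y : P → Λ → ℂ) :
    Function.Injective (TT d J c (Sum.elim (fun x => v x.1 x.2.1 x.2.2) (fun x => y x.1 x.2))) ↔
      PhiInj d J c v y := by
  constructor
  · intro h g hg1 hg2 hg3
    have h0 : (⟨g, hg1, hg2⟩ : VV N A Λ d J c) = 0 := by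
      apply h
      rw [map_zero]
      funext γ
      exact hg3 γ.1.1 γ.2
    intro p
    have h1 := congrArg (fun z : VV N A Λ d J c => z.1 p) h0
    simpa using h1
  · intro h
    rw [← LinearMap.ker_eq_bot, LinearMap.ker_eq_bot']
    intro g hg
    have h1 := h g.1 g.2.1 g.2.2 (fun γ hγ => by
      by_cases hd : γ.degree ≤ d + N
      · exact congrFun hg ⟨⟨γ, hd⟩, hγ⟩
      · rw [coeff_sum]
        apply Finset.sum_eq_zero
        intro p _
        have h2 : (g.1 p * lin (vec (c p) (v p) (y p)) ^ (c p).card).IsHomogeneous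
            (d - (c p).card + 1 * (c p).card) :=
          (g.2.1 p).mul ((lin_homog _).pow _)
        apply h2.coeff_eq_zero
        have h3 : (c p).card ≤ N := by
          simpa using Finset.card_le_univ (c p)
        omega)
    apply Subtype.ext
    funext p
    exact h1 p

end PhiOpenX

/-- `PhiInj` is an open condition. -/
theorem phiInj_open (d : ℕ) (J : Finset (Fin N)) (c : P → Finset (Fin N))
    (v₀ : P → Fin N → A → ℂ) (y₀ : P → Λ → ℂ) (h : PhiInj d J c v₀ y₀) :
    ∃ G : MvPolynomial ((P × Fin N × A) ⊕ (P × Λ)) ℂ, G ≠ 0 ∧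
      ∀ (v : P → Fin N → A → ℂ) (y : P → Λ → ℂ),
        eval (Sum.elim (fun x => v x.1 x.2.1 x.2.2) (fun x => y x.1 x.2)) G ≠ 0 →
        PhiInj d J c v y := by
  haveI := finite_YY (N := N) (A := A) (Λ := Λ) (d + N)
  haveI := finiteDimensional_VV (N := N) (A := A) (Λ := Λ) d J c
  obtain ⟨G, hG0, hG⟩ := open_inj (TT d J c) (fun g γ => by
      change PolyFun (fun x => coeff γ.1.1 (∑ p, g.1 p *
        lin (vec (c p) (fun i a => x (Sum.inl (p, i, a))) (fun l => x (Sum.inr (p, l)))) ^
          (c p).card))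
      have h1 : CP (fun x : (P × Fin N × A) ⊕ (P × Λ) → ℂ => ∑ p, g.1 p *
        lin (vec (c p) (fun i a => x (Sum.inl (p, i, a))) (fun l => x (Sum.inr (p, l)))) ^
          (c p).card) := by
        apply CP.sum
        intro p _
        refine (CP.const _).mul (CP.pow (CP.lin ?_) _)
        rintro (⟨i, a⟩ | l)
        · unfold vec
          by_cases hi : i ∈ c p
          · simpa [hi] using PolyFun.coord _
          · simpa [hi] using PolyFun.const _
        · simpa [vec] using PolyFun.coord _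
      exact h1 γ.1.1)
    (Sum.elim (fun x => v₀ x.1 x.2.1 x.2.2) (fun x => y₀ x.1 x.2))
    ((TT_inj_iff d J c v₀ y₀).2 h)
  refine ⟨G, ?_, fun v y hvy => (TT_inj_iff d J c v y).1 (hG _ hvy)⟩
  rintro rfl
  simp at hG0

end Pool.Agent.H21.HD

end
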