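import Pool.Agent.H94.LP2.M07
import Pool.Agent.H94.LP2.M34

/-! The parts of this file: H21.HD.IndTrans, H21.HD.LoadEst, H21.HD.NonSq, H21.HD.PhiNum, H21.HD.BlockPow, H21.HD.SpanCols. -/

section

/-!
Renaming variables.
-/

namespace Pool.Agent.H21.HD

open MvPolynomial
open scoped Classical

/-- Independence does not depend on the names of the variables. -/
theorem indep_transport {σ τ P : Type} [Fintype σ] [Fintype τ] [Fintype P] (E : σ ≃ τ) (d : ℕ)
    (w : P → σ → ℂ) (e : P → ℕ) (h : Indep d w e) :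
    Indep d (fun p t => w p (E.symm t)) e := by
  intro g hg hsum p
  have hlin : ∀ p, rename E.symm (lin (fun t => w p (E.symm t))) = lin (w p) := by
    intro p
    unfold lin
    rw [map_sum]
    simp only [map_mul, rename_C, rename_X]
    exact Equiv.sum_comp E.symm (fun s => C (w p s) * X s)
  have h1 := h (fun p => rename E.symm (g p))
    (fun p => (hg p).rename_isHomogeneous) (by
      have h2 := congrArg (rename E.symm) hsum
      rw [map_sum, map_zero] at h2
      rw [← h2]
      refine Finset.sum_congr rfl fun p _ => ?_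
      rw [map_mul, map_pow, hlin]) p
  have h3 : Function.Injective (rename E.symm : MvPolynomial τ ℂ → MvPolynomial σ ℂ) :=
    rename_injective _ E.symm.injective
  apply h3
  rw [map_zero]
  exact h1

end Pool.Agent.H21.HD

end

section

/-!
Numerical estimate.
-/

namespace Pool.Agent.H21.HD

open scoped Classical

/-- Numerical estimate: the load of a set of `d` blocks. -/
theorem load_estimate (d h : ℕ) (hd : 1 ≤ d) (hh : 1 ≤ h) (ε : ℝ) (hε : 0 < ε) :
    ∃ r₀ : ℕ, ∀ r : ℕ, r₀ ≤ r → ∀ N : ℕ, r + 1 < (N + 1) * h + h ^ d → 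
      d ≤ N ∧ ∀ e : ℕ, 1 ≤ e → e ≤ d →
        (d.choose e : ℝ) / ((N.choose e : ℝ) * (h : ℝ) ^ e) ≤
          (1 + ε) * ((r + (d - e)).choose r : ℝ) / ((r + d).choose r : ℝ) := by
  -- the limit
  set K : ℕ := d + h ^ d + d * h with hK
  have hlim : Filter.Tendsto (fun x : ℕ => (1 + (K : ℝ) / (x : ℝ)) ^ d) Filter.atTop (nhds 1) := by
    have h1 : Filter.Tendsto (fun x : ℕ => (K : ℝ) / (x : ℝ)) Filter.atTop (nhds 0) :=
      tendsto_const_div_atTop_nhds_zero_nat _
    have h2 := (h1.const_add 1).pow d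
    simpa using h2
  have hev := hlim.eventually (gt_mem_nhds (show (1 : ℝ) < 1 + ε by linarith))
  obtain ⟨x₀, hx₀⟩ := Filter.eventually_atTop.1 hev
  refine ⟨x₀ + (d + 1) * h + h ^ d + d * h + d, fun r hr N hN => ?_⟩
  have hdN : d ≤ N := by
    by_contra hcon
    push Not at hcon
    have h1 : (N + 1) * h ≤ d * h := Nat.mul_le_mul_right h hcon
    have h2 : (d + 1) * h = d * h + h := by ring
    omega
  refine ⟨hdN, fun e he1 hed => ?_⟩
  -- set x = r + 1 - h ^ d - d * h
  obtain ⟨x, hx⟩ : ∃ x, r + 1 = x + (h ^ d + d * h) := ⟨r + 1 - (h ^ d + d * h), by omega⟩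
  have hxx : x₀ ≤ x := by
    have h2 : (d + 1) * h = d * h + h := by ring
    omega
  have hx1 : 1 ≤ x := by
    have h2 : (d + 1) * h = d * h + h := by ring
    omega
  have hxpos : (0 : ℝ) < x := by exact_mod_cast hx1
  have hlt := hx₀ x hxx
  -- (N - e + 1) * h ≥ x
  obtain ⟨M, hM⟩ : ∃ M, N = M + e := ⟨N - e, by omega⟩
  have hMx : x ≤ (M + 1) * h := by
    have h1 : (N + 1) * h = (M + 1) * h + e * h := by rw [hM]; ring
    have h2 : e * h ≤ d * h := Nat.mul_le_mul_right h hed
    omega
  -- lower bound for N.choose e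
  have hchoose : ((M + 1 : ℕ) : ℝ) ^ e ≤ (N.choose e : ℝ) * (e.factorial : ℝ) := by
    have h1 : (M + 1) ^ e ≤ N.descFactorial e := by
      have h2 := Nat.pow_sub_le_descFactorial N e
      have h3 : N + 1 - e = M + 1 := by omega
      rw [h3] at h2
      exact h2
    have h2 : N.descFactorial e = N.choose e * e.factorial := by
      rw [Nat.descFactorial_eq_factorial_mul_choose]; ring
    rw [h2] at h1
    exact_mod_cast h1
  have hNpos : (0 : ℝ) < (N.choose e : ℝ) := by
    have : 0 < N.choose e := Nat.choose_pos (by omega)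
    exact_mod_cast this
  have hhpos : (0 : ℝ) < (h : ℝ) := by exact_mod_cast hh
  have hefpos : (0 : ℝ) < (e.factorial : ℝ) := by exact_mod_cast e.factorial_pos
  -- binomial ratio
  obtain ⟨f, hf⟩ : ∃ f, d = f + e := ⟨d - e, by omega⟩
  have hde : d - e = f := by omega
  rw [hde]
  have hrpos : (0 : ℝ) < ((r + d).choose r : ℝ) := by
    have : 0 < (r + d).choose r := Nat.choose_pos (by omega)
    exact_mod_cast this
  -- (r+d).choose r * d! = (r+d)! / r!
  have e1 : ((r + d).choose r : ℝ) * (r.factorial : ℝ) * (d.factorial : ℝ) =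
      ((r + d).factorial : ℝ) := by
    have h1 := Nat.choose_mul_factorial_mul_factorial (show r ≤ r + d by omega)
    have h2 : r + d - r = d := by omega
    rw [h2] at h1
    exact_mod_cast h1
  have e2 : ((r + f).choose r : ℝ) * (r.factorial : ℝ) * (f.factorial : ℝ) =
      ((r + f).factorial : ℝ) := by
    have h1 := Nat.choose_mul_factorial_mul_factorial (show r ≤ r + f by omega)
    have h2 : r + f - r = f := by omega
    rw [h2] at h1
    exact_mod_cast h1
  have e3 : ((r + d).factorial : ℝ) ≤ ((r + f).factorial : ℝ) * ((r + d : ℕ) : ℝ) ^ e := by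
    have h1 := Nat.factorial_mul_pow_le_factorial (m := r + f) (n := e)
    have h2 : (r + d).descFactorial e ≤ (r + d) ^ e := Nat.descFactorial_le_pow _ _
    have h3 := Nat.factorial_mul_descFactorial (show e ≤ r + d by omega)
    have h4 : r + d - e = r + f := by omega
    rw [h4] at h3
    have h5 : (r + d).factorial ≤ (r + f).factorial * (r + d) ^ e := by
      rw [← h3]
      exact Nat.mul_le_mul_left _ h2
    exact_mod_cast h5
  have e4 : (d.choose e : ℝ) * (e.factorial : ℝ) * (f.factorial : ℝ) = (d.factorial : ℝ) := by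
    have h1 := Nat.choose_mul_factorial_mul_factorial hed
    rw [hde] at h1
    exact_mod_cast h1
  have hffpos : (0 : ℝ) < (f.factorial : ℝ) := by exact_mod_cast f.factorial_pos
  have hrfpos : (0 : ℝ) < (r.factorial : ℝ) := by exact_mod_cast r.factorial_pos
  have hdfpos : (0 : ℝ) < (d.factorial : ℝ) := by exact_mod_cast d.factorial_pos
  -- (r + d) ^ e ≤ (1 + ε) * x ^ e
  have e5 : ((r + d : ℕ) : ℝ) ^ e ≤ (1 + ε) * (x : ℝ) ^ e := by
    have h1 : ((r + d : ℕ) : ℝ) ≤ (x : ℝ) + K := by
      have : r + d ≤ x + K := by omega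
      exact_mod_cast this
    have h2 : ((r + d : ℕ) : ℝ) ≤ (x : ℝ) * (1 + (K : ℝ) / (x : ℝ)) := by
      have : (x : ℝ) * (1 + (K : ℝ) / (x : ℝ)) = (x : ℝ) + K := by
        field_simp
      rw [this]; exact h1
    have h3 : ((r + d : ℕ) : ℝ) ^ e ≤ ((x : ℝ) * (1 + (K : ℝ) / (x : ℝ))) ^ e :=
      pow_le_pow_left₀ (Nat.cast_nonneg _) h2 e
    rw [mul_pow] at h3
    have h4 : (1 + (K : ℝ) / (x : ℝ)) ^ e ≤ (1 + (K : ℝ) / (x : ℝ)) ^ d := by
      apply pow_le_pow_right₀ _ hed
      have : (0 : ℝ) ≤ (K : ℝ) / (x : ℝ) := by positivity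
      linarith
    have h5 : (0 : ℝ) < (x : ℝ) ^ e := by positivity
    calc ((r + d : ℕ) : ℝ) ^ e ≤ (x : ℝ) ^ e * (1 + (K : ℝ) / (x : ℝ)) ^ e := h3
      _ ≤ (x : ℝ) ^ e * (1 + ε) := by
          apply mul_le_mul_of_nonneg_left _ h5.le
          linarith
      _ = (1 + ε) * (x : ℝ) ^ e := by ring
  have e6 : (x : ℝ) ^ e ≤ ((M + 1 : ℕ) : ℝ) ^ e * (h : ℝ) ^ e := by
    rw [← mul_pow]
    apply pow_le_pow_left₀ hxpos.le
    exact_mod_cast hMx
  -- conclusion
  rw [div_le_div_iff₀ (by positivity) hrpos]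
  -- d.choose e * (r+d).choose r ≤ (1+ε) * (r+f).choose r * (N.choose e * h^e)
  have key : (d.choose e : ℝ) * ((r + d).choose r : ℝ) *
      ((e.factorial : ℝ) * (f.factorial : ℝ) * (r.factorial : ℝ) * (d.factorial : ℝ)) ≤
      (1 + ε) * ((r + f).choose r : ℝ) * ((N.choose e : ℝ) * (h : ℝ) ^ e) *
      ((e.factorial : ℝ) * (f.factorial : ℝ) * (r.factorial : ℝ) * (d.factorial : ℝ)) := by
    have l1 : (d.choose e : ℝ) * ((r + d).choose r : ℝ) *
      ((e.factorial : ℝ) * (f.factorial : ℝ) * (r.factorial : ℝ) * (d.factorial : ℝ)) =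
      ((d.choose e : ℝ) * (e.factorial : ℝ) * (f.factorial : ℝ)) *
        (((r + d).choose r : ℝ) * (r.factorial : ℝ) * (d.factorial : ℝ)) := by ring
    have l2 : (1 + ε) * ((r + f).choose r : ℝ) * ((N.choose e : ℝ) * (h : ℝ) ^ e) *
      ((e.factorial : ℝ) * (f.factorial : ℝ) * (r.factorial : ℝ) * (d.factorial : ℝ)) =
      (1 + ε) * (((r + f).choose r : ℝ) * (r.factorial : ℝ) * (f.factorial : ℝ)) *
        (((N.choose e : ℝ) * (e.factorial : ℝ)) * (h : ℝ) ^ e) * (d.factorial : ℝ) := by ring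
    rw [l1, l2, e1, e2, e4]
    have hrf : (0 : ℝ) < ((r + f).factorial : ℝ) := by exact_mod_cast (r + f).factorial_pos
    have m1 : ((r + d).factorial : ℝ) ≤
        (1 + ε) * ((r + f).factorial : ℝ) * (((N.choose e : ℝ) * (e.factorial : ℝ)) * (h : ℝ) ^ e) := by
      calc ((r + d).factorial : ℝ) ≤ ((r + f).factorial : ℝ) * ((r + d : ℕ) : ℝ) ^ e := e3
        _ ≤ ((r + f).factorial : ℝ) * ((1 + ε) * (x : ℝ) ^ e) :=
            mul_le_mul_of_nonneg_left e5 hrf.le
        _ ≤ ((r + f).factorial : ℝ) * ((1 + ε) * (((M + 1 : ℕ) : ℝ) ^ e * (h : ℝ) ^ e)) := by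
            apply mul_le_mul_of_nonneg_left _ hrf.le
            apply mul_le_mul_of_nonneg_left e6
            linarith
        _ ≤ ((r + f).factorial : ℝ) * ((1 + ε) *
              (((N.choose e : ℝ) * (e.factorial : ℝ)) * (h : ℝ) ^ e)) := by
            apply mul_le_mul_of_nonneg_left _ hrf.le
            apply mul_le_mul_of_nonneg_left _ (by linarith)
            exact mul_le_mul_of_nonneg_right hchoose (by positivity)
        _ = _ := by ring
    calc (d.factorial : ℝ) * ((r + d).factorial : ℝ) = ((r + d).factorial : ℝ) * (d.factorial : ℝ) := by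
          ring
      _ ≤ _ := mul_le_mul_of_nonneg_right m1 hdfpos.le
  have hpos : (0 : ℝ) < (e.factorial : ℝ) * (f.factorial : ℝ) * (r.factorial : ℝ) *
      (d.factorial : ℝ) := by positivity
  exact le_of_mul_le_mul_right key hpos

end Pool.Agent.H21.HD

end

section

/-!
Monomials that are not squarefree in the blocks.
-/

namespace Pool.Agent.H21.HD

open MvPolynomial
open scoped Classical

private theorem NonSqX_interp {σ : Type} (β γ : σ →₀ ℕ) (hβ : β ≤ γ) (k : ℕ)
    (h1 : β.degree ≤ k) (h2 : k ≤ γ.degree) : ∃ δ, β ≤ δ ∧ δ ≤ γ ∧ δ.degree = k := by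
  induction k, h1 using Nat.le_induction with
  | base => exact ⟨β, le_refl β, hβ, rfl⟩
  | succ k hk ih =>
    obtain ⟨δ, hδ1, hδ2, hδ3⟩ := ih (by omega)
    have hne : ∃ s, δ s < γ s := by
      by_contra hcon
      push Not at hcon
      have h3 : γ ≤ δ := hcon
      have h4 : γ = δ := le_antisymm h3 hδ2
      rw [h4, hδ3] at h2
      omega
    obtain ⟨s, hs⟩ := hne
    refine ⟨δ + Finsupp.single s 1, ?_, ?_, ?_⟩
    · exact hδ1.trans (le_add_of_nonneg_right (zero_le))
    · intro t
      rw [Finsupp.add_apply]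
      by_cases hts : t = s
      · rw [hts, Finsupp.single_eq_same]
        omega
      · rw [Finsupp.single_eq_of_ne hts, add_zero]
        exact hδ2 t
    · rw [map_add, hδ3, Finsupp.degree_single]

private theorem NonSqX_deg {N : ℕ} {A : Type} [Fintype A] (γ : Fin N × A →₀ ℕ) :
    ∑ i, bdegB γ i = γ.degree := by
  unfold bdegB
  rw [Finsupp.degree_eq_sum, Fintype.sum_prod_type]

/-- The monomials that are not squarefree in the blocks, from the powers spanning the forms of
degree `e₀` in each set of `e₀ - 1` blocks. -/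
theorem nonsquarefree_of_blocks {N : ℕ} {A R : Type} [Fintype A] (d e₀ : ℕ) (h2 : 2 ≤ e₀)
    (hd : e₀ ≤ d) (hN : e₀ ≤ N) (w : R → Fin N × A → ℂ) (e : R → ℕ)
    (h : ∀ b : Finset (Fin N), b.card = e₀ - 1 → ∀ F : MvPolynomial (Fin N × A) ℂ,
      F.IsHomogeneous e₀ → (∀ γ ∈ F.support, ∀ x, γ x ≠ 0 → x.1 ∈ b) → F ∈ powSpan e₀ w e)
    (γ : Fin N × A →₀ ℕ) (hγ : γ.degree = d) (hi : ∃ i, 2 ≤ bdegB γ i) :
    monomial γ (1 : ℂ) ∈ powSpan d w e := by
  obtain ⟨i, hi⟩ := hi
  -- the part of `γ` in the block `i`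
  set γi : Fin N × A →₀ ℕ := γ.filter (fun x => x.1 = i) with hγi
  have hγile : γi ≤ γ := by
    intro x
    rw [hγi, Finsupp.filter_apply]
    split_ifs
    · exact le_refl _
    · exact Nat.zero_le _
  have hγideg : 2 ≤ γi.degree := by
    rw [← NonSqX_deg]
    calc 2 ≤ bdegB γ i := hi
      _ = bdegB γi i := by
        unfold bdegB
        apply Finset.sum_congr rfl
        intro a _
        rw [hγi, Finsupp.filter_apply, if_pos rfl]
      _ ≤ _ := Finset.single_le_sum (f := fun j => bdegB γi j) (fun _ _ => Nat.zero_le _)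
        (Finset.mem_univ i)
  obtain ⟨β₀, -, hβ₀le, hβ₀deg⟩ := NonSqX_interp 0 γi (zero_le) 2 (by simp) hγideg
  have hβ₀i : bdegB β₀ i = 2 := by
    rw [← hβ₀deg, ← NonSqX_deg]
    symm
    apply Finset.sum_eq_single i
    · intro j _ hji
      unfold bdegB
      apply Finset.sum_eq_zero
      intro a _
      have h3 := hβ₀le (j, a)
      rw [hγi, Finsupp.filter_apply, if_neg (by exact hji)] at h3
      exact Nat.le_zero.1 h3
    · intro h3
      exact absurd (Finset.mem_univ i) h3
  obtain ⟨β, hβ1, hβ2, hβ3⟩ := NonSqX_interp β₀ γ (hβ₀le.trans hγile) e₀ (by omega) (by omega)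
  have hβi : 2 ≤ bdegB β i := by
    rw [← hβ₀i]
    exact Finset.sum_le_sum fun a _ => hβ1 (i, a)
  -- the blocks that `β` meets
  set b₀ : Finset (Fin N) := Finset.univ.filter (fun j => bdegB β j ≠ 0) with hb₀
  have hib₀ : i ∈ b₀ := by
    rw [hb₀, Finset.mem_filter]
    exact ⟨Finset.mem_univ i, by omega⟩
  have hb₀card : b₀.card ≤ e₀ - 1 := by
    have h3 : ∑ j ∈ b₀, bdegB β j ≤ e₀ := by
      rw [← hβ3, ← NonSqX_deg]
      exact Finset.sum_le_sum_of_subset (Finset.subset_univ _)
    rw [← Finset.add_sum_erase _ _ hib₀] at h3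
    have h4 : (b₀.erase i).card ≤ ∑ j ∈ b₀.erase i, bdegB β j := by
      calc (b₀.erase i).card = ∑ j ∈ b₀.erase i, 1 := by simp
        _ ≤ _ := by
          apply Finset.sum_le_sum
          intro j hj
          have h5 := Finset.mem_of_mem_erase hj
          rw [hb₀, Finset.mem_filter] at h5
          omega
    rw [Finset.card_erase_of_mem hib₀] at h4
    omega
  obtain ⟨b, hb₀b, hbcard⟩ := Finset.exists_superset_card_eq hb₀card
    (by rw [Fintype.card_fin]; omega)
  have hmem : monomial β (1 : ℂ) ∈ powSpan e₀ w e := by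
    apply h b hbcard
    · exact isHomogeneous_monomial _ hβ3
    · intro γ' hγ' x hx
      have h3 := support_monomial_subset hγ'
      rw [Finset.mem_singleton] at h3
      rw [h3] at hx
      apply hb₀b
      rw [hb₀, Finset.mem_filter]
      refine ⟨Finset.mem_univ _, fun h4 => ?_⟩
      unfold bdegB at h4
      rw [Finset.sum_eq_zero_iff] at h4
      exact hx (h4 x.2 (Finset.mem_univ _))
  have hmul : monomial γ (1 : ℂ) = monomial (γ - β) 1 * monomial β 1 := by
    rw [monomial_mul, one_mul, tsub_add_cancel_of_le hβ2]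
  have hdeg : (γ - β).degree = d - e₀ := by
    have h3 : (γ - β + β).degree = γ.degree := by rw [tsub_add_cancel_of_le hβ2]
    rw [map_add, hβ3, hγ] at h3
    omega
  rw [hmul]
  have hhom : (monomial (γ - β) (1 : ℂ)).IsHomogeneous (d - e₀) :=
    isHomogeneous_monomial _ hdeg
  generalize monomial (γ - β) (1 : ℂ) = G at hhom ⊢
  generalize monomial β (1 : ℂ) = F at hmem ⊢
  unfold powSpan at hmem
  induction hmem using Submodule.span_induction with
  | mem x hx =>
    obtain ⟨p, g, hp, hg, rfl⟩ := hx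
    apply Submodule.subset_span
    refine ⟨p, G * g, hp.trans hd, ?_, by ring⟩
    have h3 := hhom.mul hg
    have h4 : d - e₀ + (e₀ - e p) = d - e p := by omega
    rwa [h4] at h3
  | zero =>
    rw [mul_zero]
    exact Submodule.zero_mem _
  | add x y _ _ hx hy =>
    rw [mul_add]
    exact Submodule.add_mem _ hx hy
  | smul t x _ hx =>
    rw [mul_smul_comm]
    exact Submodule.smul_mem _ _ hx

end Pool.Agent.H21.HD

end

section

/-!
Facts on phi.
-/

namespace Pool.Agent.H21.HD

open scoped Classical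

namespace PhiNumX

theorem phi_zero (κ : ℕ → ℝ) : phi κ 0 = 1 := by
  rw [phi]

theorem phi_succ (κ : ℕ → ℝ) (j : ℕ) : phi κ (j + 1) =
    phi κ j - ∑ e ∈ Finset.range (j + 1), κ (e + 1) * (j.choose e : ℝ) * phi κ (j - e) := by
  rw [phi, Finset.sum_range]

theorem phi_congr (d : ℕ) (κ κ' : ℕ → ℝ) (h : ∀ i, 1 ≤ i → i ≤ d → κ i = κ' i) :
    ∀ j ≤ d, phi κ j = phi κ' j := by
  intro j
  induction j using Nat.strong_induction_on with
  | _ j ih =>
    intro hj
    cases j with
    | zero => rw [phi_zero, phi_zero]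
    | succ j =>
      rw [phi_succ, phi_succ, ih j (by omega) (by omega)]
      congr 1
      refine Finset.sum_congr rfl fun e he => ?_
      have he' := Finset.mem_range.1 he
      rw [h (e + 1) (by omega) (by omega), ih (j - e) (by omega) (by omega)]

/-- With nonnegative loads and positive values, `phi` decreases. -/
theorem phi_le_sub (d : ℕ) (κ : ℕ → ℝ) (h0 : ∀ i, 0 ≤ κ i) (hpos : ∀ j ≤ d, 0 < phi κ j) (j : ℕ)
    (hj : j ≤ d) : phi κ (j + 1) ≤ phi κ j - κ (j + 1) := by
  rw [phi_succ, Finset.sum_range_succ, Nat.choose_self, Nat.sub_self, phi_zero]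
  have h1 : 0 ≤ ∑ e ∈ Finset.range j, κ (e + 1) * (j.choose e : ℝ) * phi κ (j - e) := by
    refine Finset.sum_nonneg fun e _ => ?_
    exact mul_nonneg (mul_nonneg (h0 _) (Nat.cast_nonneg _)) (hpos (j - e) (by omega)).le
  push_cast
  linarith

theorem phi_le_one (d : ℕ) (κ : ℕ → ℝ) (h0 : ∀ i, 0 ≤ κ i) (hpos : ∀ j ≤ d, 0 < phi κ j) :
    ∀ j ≤ d, phi κ j ≤ 1 := by
  intro j
  induction j with
  | zero => intro _; rw [phi_zero]
  | succ j ih =>
    intro hj
    have h1 := phi_le_sub d κ h0 hpos j (by omega)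
    have h2 := ih (by omega)
    have h3 := h0 (j + 1)
    linarith

end PhiNumX

open PhiNumX

/-- Monotonicity of `phi` inside the region. -/
theorem phi_anti (d : ℕ) (κ κ' : ℕ → ℝ) (h0 : ∀ i, 0 ≤ κ' i) (hle : ∀ i, κ' i ≤ κ i)
    (hpos : ∀ j ≤ d, 0 < phi κ j) : ∀ j ≤ d, phi κ j ≤ phi κ' j := by
  have key : ∀ j, j ≤ d → 0 < phi κ' j ∧ ∀ i ≤ j, phi κ j * phi κ' i ≤ phi κ' j * phi κ i := by
    intro j
    induction j using Nat.strong_induction_on with
    | _ j ih =>
      intro hj
      cases j with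
      | zero =>
        refine ⟨by rw [phi_zero]; norm_num, fun i hi => ?_⟩
        have : i = 0 := by omega
        subst this
        rw [phi_zero, phi_zero]
      | succ j =>
        obtain ⟨hp', hr⟩ := ih j (by omega) (by omega)
        have hp := hpos j (by omega)
        have h1 : phi κ (j + 1) * phi κ' j ≤ phi κ' (j + 1) * phi κ j := by
          rw [phi_succ κ, phi_succ κ', sub_mul, sub_mul, Finset.sum_mul, Finset.sum_mul]
          have h2 : ∑ e ∈ Finset.range (j + 1), κ' (e + 1) * (j.choose e : ℝ) *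
              phi κ' (j - e) * phi κ j ≤ ∑ e ∈ Finset.range (j + 1), κ (e + 1) *
              (j.choose e : ℝ) * phi κ (j - e) * phi κ' j := by
            refine Finset.sum_le_sum fun e _ => ?_
            have h3 := hr (j - e) (by omega)
            have h4 := hpos (j - e) (by omega)
            have hc : (0 : ℝ) ≤ (j.choose e : ℝ) := Nat.cast_nonneg _
            calc κ' (e + 1) * (j.choose e : ℝ) * phi κ' (j - e) * phi κ j
                = κ' (e + 1) * (j.choose e : ℝ) * (phi κ j * phi κ' (j - e)) := by ring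
              _ ≤ κ' (e + 1) * (j.choose e : ℝ) * (phi κ' j * phi κ (j - e)) :=
                mul_le_mul_of_nonneg_left h3 (mul_nonneg (h0 _) hc)
              _ = κ' (e + 1) * ((j.choose e : ℝ) * (phi κ' j * phi κ (j - e))) := by ring
              _ ≤ κ (e + 1) * ((j.choose e : ℝ) * (phi κ' j * phi κ (j - e))) :=
                mul_le_mul_of_nonneg_right (hle _)
                  (mul_nonneg hc (mul_nonneg hp'.le h4.le))
              _ = κ (e + 1) * (j.choose e : ℝ) * phi κ (j - e) * phi κ' j := by ring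
          linarith [mul_comm (phi κ j) (phi κ' j)]
        have hp1 := hpos (j + 1) hj
        have h5 : 0 < phi κ' (j + 1) * phi κ j := lt_of_lt_of_le (mul_pos hp1 hp') h1
        have h6 : 0 < phi κ' (j + 1) := by
          by_contra hcon
          push Not at hcon
          have := mul_nonpos_of_nonpos_of_nonneg hcon hp.le
          linarith
        refine ⟨h6, fun i hi => ?_⟩
        rcases Nat.lt_or_ge j i with h7 | h7
        · have : i = j + 1 := by omega
          subst this
          rw [mul_comm]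
        · have h8 := hr i h7
          have h9 : 0 < phi κ i := hpos i (by omega)
          have h10 : (phi κ (j + 1) * phi κ' i) * phi κ j ≤
              (phi κ' (j + 1) * phi κ i) * phi κ j := by
            calc (phi κ (j + 1) * phi κ' i) * phi κ j
                = phi κ (j + 1) * (phi κ j * phi κ' i) := by ring
              _ ≤ phi κ (j + 1) * (phi κ' j * phi κ i) := mul_le_mul_of_nonneg_left h8 hp1.le
              _ = (phi κ (j + 1) * phi κ' j) * phi κ i := by ring
              _ ≤ (phi κ' (j + 1) * phi κ j) * phi κ i := mul_le_mul_of_nonneg_right h1 h9.le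
              _ = (phi κ' (j + 1) * phi κ i) * phi κ j := by ring
          exact le_of_mul_le_mul_right h10 hp
  intro j hj
  have h := (key j hj).2 0 (Nat.zero_le j)
  rw [phi_zero, phi_zero, mul_one, mul_one] at h
  exact h

/-- Lipschitz estimate for `phi`. -/
theorem phi_lipschitz (j : ℕ) (C : ℝ) : ∃ L : ℝ, 0 ≤ L ∧ ∀ κ κ' : ℕ → ℝ,
    (∀ i, 0 ≤ κ i ∧ κ i ≤ C) → (∀ i, 0 ≤ κ' i ∧ κ' i ≤ C) → ∀ δ : ℝ,
    (∀ i, |κ i - κ' i| ≤ δ) → |phi κ j - phi κ' j| ≤ L * δ := by
  have key : ∀ j : ℕ, ∃ L : ℝ, 0 ≤ L ∧ ∀ i ≤ j, ∀ κ κ' : ℕ → ℝ,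
      (∀ i, 0 ≤ κ i ∧ κ i ≤ C) → (∀ i, 0 ≤ κ' i ∧ κ' i ≤ C) →
      |phi κ i| ≤ L ∧ ∀ δ : ℝ, (∀ i, |κ i - κ' i| ≤ δ) → |phi κ i - phi κ' i| ≤ L * δ := by
    intro j
    induction j with
    | zero =>
      refine ⟨1, zero_le_one, fun i hi κ κ' _ _ => ?_⟩
      have : i = 0 := by omega
      subst this
      refine ⟨by rw [phi_zero, abs_one], fun δ hδ => ?_⟩
      rw [phi_zero, phi_zero, sub_self, abs_zero, one_mul]
      exact le_trans (abs_nonneg _) (hδ 0)
    | succ j ih =>
      obtain ⟨L, hL0, hL⟩ := ih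
      refine ⟨L + ∑ e ∈ Finset.range (j + 1), (|C| * (j.choose e : ℝ) * L +
        (j.choose e : ℝ) * L), ?_, ?_⟩
      · refine add_nonneg hL0 (Finset.sum_nonneg fun e _ => ?_)
        positivity
      · intro i hi κ κ' hκ hκ'
        have hS : 0 ≤ ∑ e ∈ Finset.range (j + 1), (|C| * (j.choose e : ℝ) * L +
            (j.choose e : ℝ) * L) := Finset.sum_nonneg fun e _ => by positivity
        rcases Nat.lt_or_ge j i with hji | hji
        · have : i = j + 1 := by omega
          subst this
          have hC : ∀ i, |κ i| ≤ |C| := by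
            intro i
            rw [abs_of_nonneg (hκ i).1]
            exact le_trans (hκ i).2 (le_abs_self C)
          refine ⟨?_, fun δ hδ => ?_⟩
          · rw [phi_succ]
            refine le_trans (abs_sub _ _) (add_le_add ((hL j le_rfl κ κ' hκ hκ').1) ?_)
            refine le_trans (Finset.abs_sum_le_sum_abs _ _) (Finset.sum_le_sum fun e _ => ?_)
            rw [abs_mul, abs_mul, Nat.abs_cast]
            have h1 := (hL (j - e) (by omega) κ κ' hκ hκ').1
            have h2 : |κ (e + 1)| * (j.choose e : ℝ) * |phi κ (j - e)| ≤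
                |C| * (j.choose e : ℝ) * L :=
              mul_le_mul (mul_le_mul_of_nonneg_right (hC _) (Nat.cast_nonneg _)) h1
                (abs_nonneg _) (by positivity)
            have h3 : 0 ≤ (j.choose e : ℝ) * L := by positivity
            linarith
          · have hδ0 : 0 ≤ δ := le_trans (abs_nonneg _) (hδ 0)
            rw [phi_succ, phi_succ, sub_sub_sub_comm, ← Finset.sum_sub_distrib, add_mul,
              Finset.sum_mul]
            refine le_trans (abs_sub _ _) (add_le_add ((hL j le_rfl κ κ' hκ hκ').2 δ hδ) ?_)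
            refine le_trans (Finset.abs_sum_le_sum_abs _ _) (Finset.sum_le_sum fun e _ => ?_)
            have h1 := (hL (j - e) (by omega) κ κ' hκ hκ').2 δ hδ
            have h2 := (hL (j - e) (by omega) κ' κ hκ' hκ).1
            have h3 : κ (e + 1) * (j.choose e : ℝ) * phi κ (j - e) -
                κ' (e + 1) * (j.choose e : ℝ) * phi κ' (j - e) =
                κ (e + 1) * (j.choose e : ℝ) * (phi κ (j - e) - phi κ' (j - e)) +
                (j.choose e : ℝ) * ((κ (e + 1) - κ' (e + 1)) * phi κ' (j - e)) := by ring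
            rw [h3]
            refine le_trans (abs_add_le _ _) ?_
            rw [abs_mul, abs_mul, abs_mul, abs_mul, Nat.abs_cast]
            have h4 : |κ (e + 1)| * (j.choose e : ℝ) * |phi κ (j - e) - phi κ' (j - e)| ≤
                |C| * (j.choose e : ℝ) * (L * δ) :=
              mul_le_mul (mul_le_mul_of_nonneg_right (hC _) (Nat.cast_nonneg _)) h1
                (abs_nonneg _) (by positivity)
            have h5 : (j.choose e : ℝ) * (|κ (e + 1) - κ' (e + 1)| * |phi κ' (j - e)|) ≤
                (j.choose e : ℝ) * (δ * L) :=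
              mul_le_mul_of_nonneg_left (mul_le_mul (hδ _) h2 (abs_nonneg _) hδ0)
                (Nat.cast_nonneg _)
            calc _ ≤ |C| * (j.choose e : ℝ) * (L * δ) + (j.choose e : ℝ) * (δ * L) :=
                  add_le_add h4 h5
              _ = (|C| * (j.choose e : ℝ) * L + (j.choose e : ℝ) * L) * δ := by ring
        · obtain ⟨h1, h2⟩ := hL i hji κ κ' hκ hκ'
          refine ⟨by linarith, fun δ hδ => ?_⟩
          have hδ0 : 0 ≤ δ := le_trans (abs_nonneg _) (hδ 0)
          have h3 := h2 δ hδ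
          have h4 := mul_nonneg hS hδ0
          rw [add_mul]
          linarith
  obtain ⟨L, hL0, hL⟩ := key j
  exact ⟨L, hL0, fun κ κ' hκ hκ' δ hδ => (hL j le_rfl κ κ' hκ hκ').2 δ hδ⟩

/-- Capping the loads at `1`. -/
theorem phi_cap (d : ℕ) (κ : ℕ → ℝ) (h0 : ∀ i, 0 ≤ κ i) (h : ∃ j ≤ d, phi κ j ≤ 0) :
    ∃ j ≤ d, phi (fun i => min (κ i) 1) j ≤ 0 := by
  by_contra hcon
  push Not at hcon
  have h0' : ∀ i, 0 ≤ (fun i => min (κ i) 1) i := fun i => le_min (h0 i) zero_le_one
  by_cases hall : ∀ i, 1 ≤ i → i ≤ d → κ i ≤ 1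
  · obtain ⟨j, hj, hneg⟩ := h
    have h1 := phi_congr d κ (fun i => min (κ i) 1)
      (fun i h1 h2 => (min_eq_left (hall i h1 h2)).symm) j hj
    have h2 := hcon j hj
    rw [← h1] at h2
    linarith
  · push Not at hall
    obtain ⟨i, hi1, hid, hi⟩ := hall
    obtain ⟨j, rfl⟩ := Nat.exists_eq_add_of_le' hi1
    have h1 := phi_le_sub d _ h0' hcon j (by omega)
    have h2 := phi_le_one d _ h0' hcon j (by omega)
    have h3 := hcon (j + 1) hid
    have h4 : min (κ (j + 1)) 1 = 1 := min_eq_right hi.le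
    simp only [h4] at h1
    linarith

/-- A single exponent with load at least `1`. -/
theorem phi_single (i : ℕ) (hi : 1 ≤ i) : phi (fun t => if t = i then 1 else 0) i = 0 := by
  have h1 : ∀ j, j < i → phi (fun t => if t = i then (1 : ℝ) else 0) j = 1 := by
    intro j
    induction j using Nat.strong_induction_on with
    | _ j ih =>
      intro hj
      cases j with
      | zero => rw [phi_zero]
      | succ j =>
        rw [phi_succ, ih j (by omega) (by omega), Finset.sum_eq_zero, sub_zero]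
        intro e he
        have he' := Finset.mem_range.1 he
        rw [if_neg (by omega), zero_mul, zero_mul]
  obtain ⟨j, rfl⟩ := Nat.exists_eq_add_of_le' hi
  rw [phi_succ, h1 j (by omega), Finset.sum_eq_single j]
  · rw [if_pos rfl, Nat.choose_self, Nat.sub_self, phi_zero]
    norm_num
  · intro e he hej
    have he' := Finset.mem_range.1 he
    rw [if_neg (by omega), zero_mul, zero_mul]
  · intro h
    exact absurd (Finset.mem_range.2 (by omega)) h

end Pool.Agent.H21.HD

end

section

/-!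
Powers spanning each set of blocks.
-/

namespace Pool.Agent.H21.HD

open MvPolynomial
open scoped Classical

namespace BlockPowX

/-- extension by zero -/
noncomputable def extv {N : ℕ} {A : Type} (b : Finset (Fin N)) (u : {x : Fin N × A // x.1 ∈ b} → ℂ) :
    Fin N × A → ℂ := fun x => if h : x.1 ∈ b then u ⟨x, h⟩ else 0

theorem rename_lin {N : ℕ} {A : Type} [Fintype A] (b : Finset (Fin N))
    (u : {x : Fin N × A // x.1 ∈ b} → ℂ) :
    rename (Subtype.val : {x : Fin N × A // x.1 ∈ b} → Fin N × A) (lin u) = lin (extv b u) := by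
  unfold lin
  rw [map_sum]
  apply Fintype.sum_of_injective Subtype.val Subtype.val_injective
  · intro x hx
    have h1 : x.1 ∉ b := by
      intro h
      exact hx ⟨⟨x, h⟩, rfl⟩
    simp [extv, h1]
  · intro x
    have h1 : extv b u x.1 = u x := by
      unfold extv
      rw [dif_pos x.2]
    rw [h1, map_mul, rename_C, rename_X]

theorem card_sub {N : ℕ} {A : Type} [Fintype A] (b : Finset (Fin N)) :
    Fintype.card {x : Fin N × A // x.1 ∈ b} = b.card * Fintype.card A := by
  rw [Fintype.card_subtype]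
  have h1 : Finset.univ.filter (fun x : Fin N × A => x.1 ∈ b) = b ×ˢ Finset.univ := by
    ext x
    simp
  rw [h1, Finset.card_product, Finset.card_univ]

end BlockPowX

open BlockPowX

/-- Linear forms whose `e₀`-th powers span the forms of degree `e₀` in every set of `e₀ - 1`
blocks. -/
theorem exists_block_powers {N : ℕ} {A : Type} [Fintype A] [Nonempty A] (e₀ : ℕ) (h2 : 2 ≤ e₀)
    (X : Type) [Fintype X]
    (hX : N.choose (e₀ - 1) * ((e₀ - 1) * Fintype.card A - 1 + e₀).choose e₀ ≤ Fintype.card X) :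
    ∃ w : X → Fin N × A → ℂ, ∀ b : Finset (Fin N), b.card = e₀ - 1 →
      ∀ F : MvPolynomial (Fin N × A) ℂ, F.IsHomogeneous e₀ →
        (∀ γ ∈ F.support, ∀ x, γ x ≠ 0 → x.1 ∈ b) →
        F ∈ powSpan e₀ w (fun _ => e₀) := by
  have h1 : ∀ b : {b : Finset (Fin N) // b.card = e₀ - 1},
      ∃ w : Fin (((e₀ - 1) * Fintype.card A - 1 + e₀).choose e₀) → {x : Fin N × A // x.1 ∈ b.1} → ℂ,
      homogeneousSubmodule {x : Fin N × A // x.1 ∈ b.1} ℂ e₀
        ≤ Submodule.span ℂ (Set.range fun k => lin (w k) ^ e₀) := by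
    intro b
    have hne : Nonempty {x : Fin N × A // x.1 ∈ b.1} := by
      have h3 : b.1.Nonempty := by
        rw [← Finset.card_pos, b.2]
        omega
      obtain ⟨i, hi⟩ := h3
      exact ⟨⟨(i, Classical.arbitrary A), hi⟩⟩
    have h4 := pow_span {x : Fin N × A // x.1 ∈ b.1} e₀
    rw [card_sub b.1, b.2] at h4
    exact h4
  choose W hW using h1
  have h3 : Fintype.card ({b : Finset (Fin N) // b.card = e₀ - 1}
      × Fin (((e₀ - 1) * Fintype.card A - 1 + e₀).choose e₀)) ≤ Fintype.card X := by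
    rw [Fintype.card_prod, Fintype.card_fin, Fintype.card_finset_len, Fintype.card_fin]
    exact hX
  obtain ⟨ι⟩ := Function.Embedding.nonempty_of_card_le h3
  refine ⟨fun x => if h : ∃ q, ι q = x then extv h.choose.1.1 (W h.choose.1 h.choose.2) else 0, ?_⟩
  intro b hb F hF hsupp
  have hvars : (F.vars : Set (Fin N × A)) ⊆ Set.range (Subtype.val : {x : Fin N × A // x.1 ∈ b} → _) := by
    intro x hx
    rw [Finset.mem_coe, mem_vars] at hx
    obtain ⟨γ, hγ, hxγ⟩ := hx
    exact ⟨⟨x, hsupp γ hγ x (Finsupp.mem_support_iff.1 hxγ)⟩, rfl⟩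
  obtain ⟨F', hF'⟩ := exists_rename_eq_of_vars_subset_range F Subtype.val Subtype.val_injective hvars
  have hhom : F'.IsHomogeneous e₀ := by
    rw [← IsHomogeneous.rename_isHomogeneous_iff (f := (Subtype.val : {x : Fin N × A // x.1 ∈ b} → _))
      Subtype.val_injective, hF']
    exact hF
  have h5 := hW ⟨b, hb⟩ ((mem_homogeneousSubmodule _ _).2 hhom)
  have h6 : rename (Subtype.val : {x : Fin N × A // x.1 ∈ b} → _) F' ∈
      (Submodule.span ℂ (Set.range fun k => lin (W ⟨b, hb⟩ k) ^ e₀)).map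
        (rename (R := ℂ) (Subtype.val : {x : Fin N × A // x.1 ∈ b} → _)).toLinearMap :=
    ⟨F', h5, rfl⟩
  rw [hF', Submodule.map_span] at h6
  refine Submodule.span_le.2 ?_ h6
  rintro _ ⟨_, ⟨k, rfl⟩, rfl⟩
  apply Submodule.subset_span
  refine ⟨ι (⟨b, hb⟩, k), 1, le_rfl, ?_, ?_⟩
  · rw [Nat.sub_self]
    exact isHomogeneous_one _ _
  · have h7 : ∃ q, ι q = ι (⟨b, hb⟩, k) := ⟨_, rfl⟩
    have h8 : h7.choose = (⟨b, hb⟩, k) := ι.injective h7.choose_spec
    simp only
    rw [dif_pos h7, one_mul, AlgHom.toLinearMap_apply, map_pow, rename_lin, h8]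

end Pool.Agent.H21.HD

end

section

/-!
Spanning from the squarefree columns.
-/

namespace Pool.Agent.H21.HD

open MvPolynomial
open scoped Classical

namespace SpanColsX

variable {N : ℕ} {A : Type} [Fintype A]

/-- The linear form in the block `i`. -/
noncomputable def blk (v : Fin N → A → ℂ) (i : Fin N) : MvPolynomial (Fin N × A) ℂ :=
  ∑ a, C (v i a) * X (i, a)

lemma blk_homog (v : Fin N → A → ℂ) (i : Fin N) : (blk v i).IsHomogeneous 1 := by
  unfold blk
  apply IsHomogeneous.sum
  intro a _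
  have h1 : (C (v i a) : MvPolynomial (Fin N × A) ℂ).IsHomogeneous 0 := isHomogeneous_C _ _
  have h2 : (X (i, a) : MvPolynomial (Fin N × A) ℂ).IsHomogeneous 1 := isHomogeneous_X _ _
  simpa using h1.mul h2

lemma lin_vecB (c : Finset (Fin N)) (v : Fin N → A → ℂ) :
    lin (vecB c v) = ∑ i ∈ c, blk v i := by
  unfold lin vecB blk
  rw [Fintype.sum_prod_type]
  rw [← Finset.sum_filter_add_sum_filter_not Finset.univ (fun i => i ∈ c)]
  have h0 : ∑ x ∈ Finset.univ.filter (fun i : Fin N => ¬ i ∈ c), ∑ y : A,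
      (C (if (x, y).1 ∈ c then v (x, y).1 (x, y).2 else 0) * X (x, y) :
        MvPolynomial (Fin N × A) ℂ) = 0 := by
    apply Finset.sum_eq_zero
    intro i hi
    rw [Finset.mem_filter] at hi
    apply Finset.sum_eq_zero
    intro a _
    simp [hi.2]
  rw [h0, add_zero]
  have h1 : Finset.univ.filter (fun i : Fin N => i ∈ c) = c := by
    ext i; simp
  rw [h1]
  apply Finset.sum_congr rfl
  intro i hi
  apply Finset.sum_congr rfl
  intro a _
  simp [hi]

lemma bdegB_add (γ δ : Fin N × A →₀ ℕ) (i : Fin N) :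
    bdegB (γ + δ) i = bdegB γ i + bdegB δ i := by
  unfold bdegB
  rw [← Finset.sum_add_distrib]
  rfl

lemma bdegB_single (i : Fin N) (a : A) (j : Fin N) :
    bdegB (Finsupp.single (i, a) 1) j = if i = j then 1 else 0 := by
  unfold bdegB
  by_cases h : i = j
  · subst h
    rw [if_pos rfl]
    rw [Finset.sum_eq_single a]
    · simp
    · intro b _ hb
      rw [Finsupp.single_apply, if_neg]
      intro h
      exact hb (Prod.ext_iff.1 h).2.symm
    · intro h
      exact absurd (Finset.mem_univ a) h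
  · rw [if_neg h]
    apply Finset.sum_eq_zero
    intro b _
    rw [Finsupp.single_apply, if_neg]
    intro h'
    exact h (Prod.ext_iff.1 h').1

/-- Twice a variable of a block. -/
lemma sq_mem {M : Submodule ℂ (MvPolynomial (Fin N × A) ℂ)} {d : ℕ}
    (hns : ∀ γ : Fin N × A →₀ ℕ, γ.degree = d → (∃ i, 2 ≤ bdegB γ i) →
      monomial γ (1 : ℂ) ∈ M) (d' : ℕ) (hd : d' + 2 = d)
    (G : MvPolynomial (Fin N × A) ℂ) (hG : G.IsHomogeneous d') (i : Fin N) (a b : A) :
    X (i, a) * X (i, b) * G ∈ M := by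
  rw [G.as_sum, Finset.mul_sum]
  apply Submodule.sum_mem
  intro δ hδ
  have hdeg : δ.degree = d' := by
    have := hG (mem_support_iff.1 hδ)
    rw [← this, Finsupp.degree_eq_weight_one]
    rfl
  have h1 : (X (i, a) * X (i, b) * monomial δ (coeff δ G) : MvPolynomial (Fin N × A) ℂ)
      = (coeff δ G) • monomial (Finsupp.single (i, a) 1 + Finsupp.single (i, b) 1 + δ) (1 : ℂ) := by
    rw [smul_monomial, X, X, monomial_mul, monomial_mul]
    simp
  rw [h1]
  apply Submodule.smul_mem
  apply hns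
  · simp [hdeg]
    omega
  · refine ⟨i, ?_⟩
    rw [bdegB_add, bdegB_add, bdegB_single, bdegB_single]
    simp

lemma blk_sq_mem {M : Submodule ℂ (MvPolynomial (Fin N × A) ℂ)} {d : ℕ}
    (hns : ∀ γ : Fin N × A →₀ ℕ, γ.degree = d → (∃ i, 2 ≤ bdegB γ i) →
      monomial γ (1 : ℂ) ∈ M) (v : Fin N → A → ℂ) (d' : ℕ) (hd : d' + 2 = d)
    (G : MvPolynomial (Fin N × A) ℂ) (hG : G.IsHomogeneous d') (i : Fin N) :
    blk v i ^ 2 * G ∈ M := by
  have h1 : blk v i ^ 2 * G = ∑ a, ∑ b, (v i a * v i b) • (X (i, a) * X (i, b) * G) := by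
    rw [pow_two]
    unfold blk
    rw [Finset.sum_mul_sum, Finset.sum_mul]
    apply Finset.sum_congr rfl
    intro a _
    rw [Finset.sum_mul]
    apply Finset.sum_congr rfl
    intro b _
    rw [smul_eq_C_mul, C_mul]
    ring
  rw [h1]
  apply Submodule.sum_mem
  intro a _
  apply Submodule.sum_mem
  intro b _
  exact Submodule.smul_mem _ _ (sq_mem hns d' hd G hG i a b)

/-- The product of the block forms times a multiplier. -/
lemma prod_mem {R : Type} {d : ℕ} {w : R → Fin N × A → ℂ} {e : R → ℕ}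
    (hns : ∀ γ : Fin N × A →₀ ℕ, γ.degree = d → (∃ i, 2 ≤ bdegB γ i) →
      monomial γ (1 : ℂ) ∈ powSpan d w e) (v : Fin N → A → ℂ) (c : Finset (Fin N))
    (hc : c.card ≤ d) (p : R) (hw : w p = vecB c v) (he : e p = c.card)
    (g : MvPolynomial (Fin N × A) ℂ) (hg : g.IsHomogeneous (d - c.card)) :
    g * ∏ i ∈ c, blk v i ∈ powSpan d w e := by
  have h1 : g * lin (w p) ^ e p ∈ powSpan d w e := by
    apply Submodule.subset_span
    exact ⟨p, g, by rw [he]; exact hc, by rw [he]; exact hg, rfl⟩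
  rw [hw, he, lin_vecB, Finset.sum_pow_eq_sum_piAntidiag, Finset.mul_sum] at h1
  -- the indicator of `c`
  set k0 : Fin N → ℕ := fun i => if i ∈ c then 1 else 0 with hk0
  have hk0mem : k0 ∈ Finset.piAntidiag c c.card := by
    rw [Finset.mem_piAntidiag]
    refine ⟨?_, ?_⟩
    · rw [hk0]
      simp
    · intro i hi
      by_contra hcon
      apply hi
      simp [hk0, hcon]
  rw [← Finset.add_sum_erase _ _ hk0mem] at h1
  have h2 : ∑ k ∈ (Finset.piAntidiag c c.card).erase k0,
      g * (((Nat.multinomial c k : ℕ) : MvPolynomial (Fin N × A) ℂ) * ∏ i ∈ c, blk v i ^ k i)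
      ∈ powSpan d w e := by
    apply Submodule.sum_mem
    intro k hk
    rw [Finset.mem_erase, Finset.mem_piAntidiag] at hk
    obtain ⟨hne, hsum, hsupp⟩ := hk
    -- some exponent is at least two
    have h3 : ∃ i ∈ c, 2 ≤ k i := by
      by_contra hcon
      push Not at hcon
      apply hne
      have h4 : ∀ i ∈ c, k i = 1 := by
        have h5 : ∑ i ∈ c, k i = ∑ i ∈ c, 1 := by
          rw [hsum]; simp
        have h6 : ∀ i ∈ c, k i ≤ 1 := fun i hi => by
          have := hcon i hi
          omega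
        exact (Finset.sum_eq_sum_iff_of_le h6).1 h5
      funext i
      by_cases hi : i ∈ c
      · rw [h4 i hi, hk0]
        simp [hi]
      · have : k i = 0 := by
          by_contra h
          exact hi (hsupp i h)
        rw [this, hk0]
        simp [hi]
    obtain ⟨i0, hi0, h2i⟩ := h3
    have hsum' : k i0 + ∑ i ∈ c.erase i0, k i = c.card := by
      rw [Finset.add_sum_erase _ _ hi0, hsum]
    have h7 : g * (((Nat.multinomial c k : ℕ) : MvPolynomial (Fin N × A) ℂ) *
        ∏ i ∈ c, blk v i ^ k i)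
        = ((Nat.multinomial c k : ℕ) : ℂ) • (blk v i0 ^ 2 * (g * (blk v i0 ^ (k i0 - 2) *
          ∏ i ∈ c.erase i0, blk v i ^ k i))) := by
      rw [← Finset.mul_prod_erase _ _ hi0, smul_eq_C_mul]
      have h8 : blk v i0 ^ k i0 = blk v i0 ^ 2 * blk v i0 ^ (k i0 - 2) := by
        rw [← pow_add]
        congr 1
        omega
      rw [h8, map_natCast]
      ring
    rw [h7]
    apply Submodule.smul_mem
    apply blk_sq_mem hns v (d - 2)
    · have : k i0 ≤ c.card := by omega
      omega
    · have h9 : (blk v i0 ^ (k i0 - 2)).IsHomogeneous (1 * (k i0 - 2)) :=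
        (blk_homog v i0).pow _
      have h10 : (∏ i ∈ c.erase i0, blk v i ^ k i).IsHomogeneous
          (∑ i ∈ c.erase i0, 1 * k i) := by
        apply IsHomogeneous.prod
        intro i _
        exact (blk_homog v i).pow _
      have h11 := hg.mul (h9.mul h10)
      have h12 : d - c.card + (1 * (k i0 - 2) + ∑ i ∈ c.erase i0, 1 * k i) = d - 2 := by
        simp only [one_mul]
        omega
      rw [h12] at h11
      exact h11
  have h3 : g * (((Nat.multinomial c k0 : ℕ) : MvPolynomial (Fin N × A) ℂ) *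
      ∏ i ∈ c, blk v i ^ k0 i) ∈ powSpan d w e := by
    have := Submodule.sub_mem _ h1 h2
    simpa using this
  have h4 : ∏ i ∈ c, blk v i ^ k0 i = ∏ i ∈ c, blk v i := by
    apply Finset.prod_congr rfl
    intro i hi
    simp [hk0, hi]
  have h5 : (Nat.multinomial c k0 : ℂ) ≠ 0 := by
    exact_mod_cast (Nat.multinomial_pos c k0).ne'
  rw [h4] at h3
  have h6 : g * ∏ i ∈ c, blk v i = (Nat.multinomial c k0 : ℂ)⁻¹ •
      (g * (((Nat.multinomial c k0 : ℕ) : MvPolynomial (Fin N × A) ℂ) * ∏ i ∈ c, blk v i)) := by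
    rw [smul_eq_C_mul]
    have h7 : (C ((Nat.multinomial c k0 : ℂ)⁻¹) : MvPolynomial (Fin N × A) ℂ) *
        ((Nat.multinomial c k0 : ℕ) : MvPolynomial (Fin N × A) ℂ) = 1 := by
      rw [← map_natCast (C : ℂ →+* MvPolynomial (Fin N × A) ℂ), ← C_mul, inv_mul_cancel₀ h5, C_1]
    calc g * ∏ i ∈ c, blk v i = 1 * (g * ∏ i ∈ c, blk v i) := by rw [one_mul]
      _ = _ := by rw [← h7]; ring
  rw [h6]
  exact Submodule.smul_mem _ _ h3

/-- The squarefree monomial. -/
noncomputable def mon (J : Finset (Fin N)) (y : Fin N → A) : MvPolynomial (Fin N × A) ℂ :=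
  ∏ i ∈ J, X (i, y i)

omit [Fintype A] in
lemma mon_homog (J : Finset (Fin N)) (y : Fin N → A) : (mon J y).IsHomogeneous J.card := by
  unfold mon
  have := IsHomogeneous.prod J (fun i => (X (i, y i) : MvPolynomial (Fin N × A) ℂ)) (fun _ => 1)
    (fun i _ => isHomogeneous_X _ _)
  simpa using this

/-- The exchange of coordinates. -/
noncomputable def exch (c : Finset (Fin N)) :
    ((Fin N → A) × (Fin N → A)) ≃ ((Fin N → A) × (Fin N → A)) where
  toFun q := (c.piecewise q.2 q.1, c.piecewise q.1 q.2)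
  invFun q := (c.piecewise q.2 q.1, c.piecewise q.1 q.2)
  left_inv q := by
    apply Prod.ext
    · funext i
      by_cases hi : i ∈ c <;> simp [Finset.piecewise, hi]
    · funext i
      by_cases hi : i ∈ c <;> simp [Finset.piecewise, hi]
  right_inv q := by
    apply Prod.ext
    · funext i
      by_cases hi : i ∈ c <;> simp [Finset.piecewise, hi]
    · funext i
      by_cases hi : i ∈ c <;> simp [Finset.piecewise, hi]

lemma sum_exch (c : Finset (Fin N)) (F : (Fin N → A) → MvPolynomial (Fin N × A) ℂ) :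
    ((Fintype.card (Fin N → A) : ℕ) : ℂ) • ∑ y, F y = ∑ y, ∑ z, F (c.piecewise z y) := by
  have h1 : ∑ y : Fin N → A, ∑ z : Fin N → A, F (c.piecewise z y)
      = ∑ q : (Fin N → A) × (Fin N → A), F (exch c q).1 := by
    rw [Fintype.sum_prod_type]
    rfl
  rw [h1, Equiv.sum_comp (exch c) (fun q => F q.1), Fintype.sum_prod_type]
  simp only [Finset.sum_const, Finset.card_univ, Finset.smul_sum]
  apply Finset.sum_congr rfl
  intro y _
  rw [smul_eq_C_mul, nsmul_eq_mul]
  simp

lemma sum_prod_blk (c : Finset (Fin N)) (v : Fin N → A → ℂ) :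
    ∃ t : ℂ, ∑ z : Fin N → A, ∏ i ∈ c, (C (v i (z i)) * X (i, z i) : MvPolynomial (Fin N × A) ℂ)
      = t • ∏ i ∈ c, blk v i := by
  have h1 : ∀ z : Fin N → A, ∏ i ∈ c, (C (v i (z i)) * X (i, z i) : MvPolynomial (Fin N × A) ℂ)
      = ∏ i, (if i ∈ c then C (v i (z i)) * X (i, z i) else 1) := by
    intro z
    rw [Finset.prod_ite_mem, Finset.univ_inter]
  simp only [h1]
  have h2 := Finset.prod_univ_sum (fun _ : Fin N => (Finset.univ : Finset A))
    (fun i a => (if i ∈ c then C (v i a) * X (i, a) else 1 : MvPolynomial (Fin N × A) ℂ))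
  rw [Fintype.piFinset_univ] at h2
  rw [← h2]
  have h3 : ∀ i : Fin N, ∑ a : A, (if i ∈ c then C (v i a) * X (i, a) else 1 :
      MvPolynomial (Fin N × A) ℂ) = (if i ∈ c then blk v i else 1) *
        (if i ∈ c then 1 else C ((Fintype.card A : ℕ) : ℂ)) := by
    intro i
    by_cases hi : i ∈ c
    · simp [hi, blk]
    · simp [hi]
  simp only [h3]
  rw [Finset.prod_mul_distrib]
  have h4 : ∏ i : Fin N, (if i ∈ c then blk v i else 1) = ∏ i ∈ c, blk v i := by
    rw [Finset.prod_ite_mem, Finset.univ_inter]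
  rw [h4]
  refine ⟨∏ i : Fin N, (if i ∈ c then 1 else ((Fintype.card A : ℕ) : ℂ)), ?_⟩
  rw [smul_eq_C_mul, map_prod, mul_comm]
  congr 1
  apply Finset.prod_congr rfl
  intro i _
  by_cases hi : i ∈ c <;> simp [hi]

omit [Fintype A] in
lemma mon_piecewise {c J : Finset (Fin N)} (hc : c ⊆ J) (y z : Fin N → A) :
    mon J (c.piecewise z y) = (∏ i ∈ c, X (i, z i)) * mon (J \ c) y := by
  unfold mon
  rw [← Finset.prod_sdiff hc, mul_comm]
  congr 1
  · apply Finset.prod_congr rfl
    intro i hi
    simp [Finset.piecewise, hi]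
  · apply Finset.prod_congr rfl
    intro i hi
    have : i ∉ c := (Finset.mem_sdiff.1 hi).2
    simp [Finset.piecewise, this]

/-- The exponent vector of a squarefree monomial. -/
lemma exists_y [Nonempty A] {d : ℕ} (γ : Fin N × A →₀ ℕ) (hd : γ.degree = d)
    (h : ∀ i, bdegB γ i < 2) :
    ∃ J : Finset (Fin N), J.card = d ∧ ∃ y : Fin N → A, monomial γ (1 : ℂ) = mon J y := by
  set J : Finset (Fin N) := Finset.univ.filter (fun i => bdegB γ i = 1) with hJ
  have h01 : ∀ i, bdegB γ i = if i ∈ J then 1 else 0 := by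
    intro i
    have := h i
    by_cases hi : bdegB γ i = 1
    · simp [hJ, hi]
    · simp only [hJ, Finset.mem_filter, Finset.mem_univ, true_and, hi, if_false]
      omega
  have hex : ∀ i, ∃ a, i ∈ J → ∀ b, γ (i, b) = if b = a then 1 else 0 := by
    intro i
    by_cases hi : i ∈ J
    · have h1 : ∑ a, γ (i, a) = 1 := by
        have := h01 i
        rw [if_pos hi] at this
        exact this
      have h2 : ∃ a, γ (i, a) ≠ 0 := by
        by_contra hcon
        push Not at hcon
        rw [Finset.sum_eq_zero (fun a _ => hcon a)] at h1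
        exact absurd h1 (by norm_num)
      obtain ⟨a, ha⟩ := h2
      refine ⟨a, fun _ b => ?_⟩
      have h3 : γ (i, a) + ∑ b ∈ Finset.univ.erase a, γ (i, b) = 1 := by
        rw [Finset.add_sum_erase Finset.univ (fun b => γ (i, b)) (Finset.mem_univ a), h1]
      by_cases hb : b = a
      · subst hb
        rw [if_pos rfl]
        omega
      · rw [if_neg hb]
        have h4 : γ (i, b) ≤ ∑ b ∈ Finset.univ.erase a, γ (i, b) :=
          Finset.single_le_sum (f := fun b => γ (i, b)) (fun _ _ => Nat.zero_le _)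
            (Finset.mem_erase.2 ⟨hb, Finset.mem_univ b⟩)
        omega
    · exact ⟨Classical.arbitrary A, fun h => absurd h hi⟩
  choose y hy using hex
  have hγ : γ = ∑ i ∈ J, Finsupp.single (i, y i) 1 := by
    ext ⟨i, a⟩
    rw [Finsupp.finsetSum_apply]
    by_cases hi : i ∈ J
    · rw [hy i hi a, Finset.sum_eq_single i]
      · rw [Finsupp.single_apply]
        by_cases ha : a = y i
        · simp [ha]
        · rw [if_neg ha, if_neg]
          intro h
          exact ha (Prod.ext_iff.1 h).2.symm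
      · intro j _ hj
        rw [Finsupp.single_apply, if_neg]
        intro h
        exact hj (Prod.ext_iff.1 h).1
      · intro h
        exact absurd hi h
    · have h1 : ∑ a, γ (i, a) = 0 := by
        have := h01 i
        rw [if_neg hi] at this
        exact this
      have h2 : γ (i, a) = 0 := by
        have h3 : γ (i, a) ≤ ∑ a, γ (i, a) :=
          Finset.single_le_sum (f := fun b => γ (i, b)) (fun _ _ => Nat.zero_le _)
            (Finset.mem_univ a)
        omega
      rw [h2]
      symm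
      apply Finset.sum_eq_zero
      intro j hj
      rw [Finsupp.single_apply, if_neg]
      intro h
      have : j = i := (Prod.ext_iff.1 h).1
      exact hi (this ▸ hj)
  refine ⟨J, ?_, y, ?_⟩
  · rw [← hd, hγ, map_sum]
    simp
  · rw [hγ]
    unfold mon
    rw [monomial_sum_one]
    rfl

end SpanColsX

open SpanColsX in
/-- Spanning from the squarefree columns: every monomial of degree `d` that is not squarefree in
the blocks lies in `M`, and the squarefree columns are spanned by products. -/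
theorem span_of_columns {N : ℕ} {A R α : Type} [Fintype A] [Nonempty A] (d : ℕ)
    (w : R → Fin N × A → ℂ) (e : R → ℕ)
    (hns : ∀ γ : Fin N × A →₀ ℕ, γ.degree = d → (∃ i, 2 ≤ bdegB γ i) →
      monomial γ (1 : ℂ) ∈ powSpan d w e)
    (c : α → Finset (Fin N)) (v : α → Fin N → A → ℂ) (emb : α → R)
    (hemb : ∀ p, w (emb p) = vecB (c p) (v p) ∧ e (emb p) = (c p).card)
    (hcol : ∀ J : Finset (Fin N), J.card = d → ∃ P : Finset α, (∀ p ∈ P, c p ⊆ J) ∧
      SpanGood J P c v) :
    homogeneousSubmodule (Fin N × A) ℂ d ≤ powSpan d w e := by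
  intro F hF
  rw [mem_homogeneousSubmodule] at hF
  rw [F.as_sum]
  apply Submodule.sum_mem
  intro γ hγ
  have hdeg : γ.degree = d := by
    have := hF (mem_support_iff.1 hγ)
    rw [← this, Finsupp.degree_eq_weight_one]
    rfl
  have h1 : monomial γ (coeff γ F) = (coeff γ F) • monomial γ (1 : ℂ) := by
    rw [smul_monomial]; simp
  rw [h1]
  apply Submodule.smul_mem
  by_cases hsq : ∃ i, 2 ≤ bdegB γ i
  · exact hns γ hdeg hsq
  push Not at hsq
  obtain ⟨J, hJ, y0, hy0⟩ := exists_y γ hdeg hsq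
  rw [hy0]
  obtain ⟨P, hP, hgood⟩ := hcol J hJ
  obtain ⟨κ, hκ, hf⟩ := hgood (fun y => if ∀ i ∈ J, y i = y0 i then 1 else 0) (by
    intro x y hxy
    have : (∀ i ∈ J, x i = y0 i) ↔ (∀ i ∈ J, y i = y0 i) := by
      constructor
      · intro h i hi
        rw [← hxy i hi]
        exact h i hi
      · intro h i hi
        rw [hxy i hi]
        exact h i hi
    simp only [this])
  -- the sum over all `y`
  have h2 : ∑ y : Fin N → A, (C (if ∀ i ∈ J, y i = y0 i then (1 : ℂ) else 0) * mon J y :
      MvPolynomial (Fin N × A) ℂ)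
      = (((Finset.univ.filter (fun y : Fin N → A => ∀ i ∈ J, y i = y0 i)).card : ℕ) : ℂ) •
        mon J y0 := by
    have h3 : ∀ y : Fin N → A, (C (if ∀ i ∈ J, y i = y0 i then (1 : ℂ) else 0) * mon J y :
        MvPolynomial (Fin N × A) ℂ) = if ∀ i ∈ J, y i = y0 i then mon J y0 else 0 := by
      intro y
      by_cases hy : ∀ i ∈ J, y i = y0 i
      · rw [if_pos hy, if_pos hy, C_1, one_mul]
        unfold mon
        apply Finset.prod_congr rfl
        intro i hi
        rw [hy i hi]
      · rw [if_neg hy, if_neg hy, C_0, zero_mul]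
    simp only [h3]
    rw [← Finset.sum_filter, Finset.sum_const, smul_eq_C_mul, nsmul_eq_mul]
    simp
  have hcne : (((Finset.univ.filter (fun y : Fin N → A => ∀ i ∈ J, y i = y0 i)).card : ℕ) : ℂ)
      ≠ 0 := by
    have : 0 < (Finset.univ.filter (fun y : Fin N → A => ∀ i ∈ J, y i = y0 i)).card := by
      apply Finset.card_pos.2
      exact ⟨y0, by simp⟩
    exact_mod_cast this.ne'
  have hmem : ∑ y : Fin N → A, (C (if ∀ i ∈ J, y i = y0 i then (1 : ℂ) else 0) * mon J y :
      MvPolynomial (Fin N × A) ℂ) ∈ powSpan d w e := by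
    have h4 : ∑ y : Fin N → A, (C (if ∀ i ∈ J, y i = y0 i then (1 : ℂ) else 0) * mon J y :
        MvPolynomial (Fin N × A) ℂ)
        = ∑ p ∈ P, ∑ y : Fin N → A, C ((∏ i ∈ c p, v p i (y i)) * κ p y) * mon J y := by
      rw [Finset.sum_comm]
      apply Finset.sum_congr rfl
      intro y _
      rw [← Finset.sum_mul, ← map_sum]
      congr 2
      exact hf y
    rw [h4]
    apply Submodule.sum_mem
    intro p hp
    have hcJ := hP p hp
    have hcard : ((Fintype.card (Fin N → A) : ℕ) : ℂ) ≠ 0 := by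
      have : 0 < Fintype.card (Fin N → A) := Fintype.card_pos
      exact_mod_cast this.ne'
    have h5 := sum_exch (c p) (fun y : Fin N → A =>
      (C ((∏ i ∈ c p, v p i (y i)) * κ p y) * mon J y : MvPolynomial (Fin N × A) ℂ))
    obtain ⟨t, ht⟩ := sum_prod_blk (c p) (v p)
    have h6 : ∑ y : Fin N → A, ∑ z : Fin N → A,
        (C ((∏ i ∈ c p, v p i ((c p).piecewise z y i)) * κ p ((c p).piecewise z y)) *
          mon J ((c p).piecewise z y) : MvPolynomial (Fin N × A) ℂ)
        = t • ((∑ y : Fin N → A, C (κ p y) * mon (J \ c p) y) * ∏ i ∈ c p, blk (v p) i) := by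
      rw [← mul_smul_comm, ← ht, Finset.sum_mul_sum]
      apply Finset.sum_congr rfl
      intro y _
      apply Finset.sum_congr rfl
      intro z _
      rw [mon_piecewise hcJ]
      have h7 : κ p ((c p).piecewise z y) = κ p y := by
        apply hκ p hp
        intro i hi
        have : i ∉ c p :=
          ((@Finset.mem_sdiff _ (fun a b => Classical.propDecidable (a = b)) _ _ _).1 hi).2
        simp [Finset.piecewise, this]
      have h8 : ∏ i ∈ c p, v p i ((c p).piecewise z y i) = ∏ i ∈ c p, v p i (z i) := by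
        apply Finset.prod_congr rfl
        intro i hi
        simp [Finset.piecewise, hi]
      rw [h7, h8, Finset.prod_mul_distrib, C_mul, map_prod]
      ring
    rw [h6] at h5
    have h9 : ∑ y : Fin N → A, (C ((∏ i ∈ c p, v p i (y i)) * κ p y) * mon J y :
        MvPolynomial (Fin N × A) ℂ) = (((Fintype.card (Fin N → A) : ℕ) : ℂ)⁻¹ * t) •
          ((∑ y : Fin N → A, C (κ p y) * mon (J \ c p) y) * ∏ i ∈ c p, blk (v p) i) := by
      rw [mul_smul, ← h5, smul_smul, inv_mul_cancel₀ hcard, one_smul]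
    rw [h9]
    apply Submodule.smul_mem
    have hcd : (c p).card ≤ d := by
      rw [← hJ]
      exact Finset.card_le_card hcJ
    apply prod_mem hns (v p) (c p) hcd (emb p) (hemb p).1 (hemb p).2
    apply IsHomogeneous.sum
    intro y _
    have h10 : (C (κ p y) : MvPolynomial (Fin N × A) ℂ).IsHomogeneous 0 := isHomogeneous_C _ _
    have h11 := h10.mul (mon_homog (J \ c p) y)
    have h12 : 0 + (J \ c p).card = d - (c p).card := by
      rw [Finset.card_sdiff_of_subset hcJ, hJ, zero_add]
    rw [h12] at h11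
    exact h11
  rw [h2] at hmem
  have h13 : mon J y0 = ((((Finset.univ.filter
      (fun y : Fin N → A => ∀ i ∈ J, y i = y0 i)).card : ℕ) : ℂ))⁻¹ •
      ((((Finset.univ.filter (fun y : Fin N → A => ∀ i ∈ J, y i = y0 i)).card : ℕ) : ℂ) •
        mon J y0) := by
    rw [smul_smul, inv_mul_cancel₀ hcne, one_smul]
  rw [h13]
  exact Submodule.smul_mem _ _ hmem

end Pool.Agent.H21.HD

end
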