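import Pool.Agent.H94.LP2.M15
import Pool.Agent.H94.LP2.M17
import Pool.Agent.H94.LP2.M21
import Pool.Agent.H94.LP2.M35
import Pool.Agent.H94.LP2.M36
import Pool.Agent.H94.LP2.M37

/-! The parts of this file: H21.HD.BridgeD_1, H21.HD.Region, H21.HD.SpanBlocks, H21.HD.SpanMain, H21.HD.Vanish, H21.HD.Upper, H21.HD.Lower. -/

section

/-!
Pairs with large multiplicities.
-/

namespace Pool.Agent.H21.HD

open MvPolynomial Pool.Agent.H18.Fat
open scoped Classical

namespace BridgeDX

theorem finite_homog' (n d : ℕ) :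
    Module.Finite ℂ (homogeneousSubmodule (Fin n) ℂ d) := by
  rw [← range_toPoly']
  infer_instance

/-- A fat point imposes at least one condition. -/
theorem finrank_fat_lt {r d : ℕ} {ι : Type*} (p : ι → Fin (r + 1) → ℂ) (m : ι → ℕ) (i : ι)
    (hi : 1 ≤ m i) (hp : p i 0 ≠ 0) :
    Module.finrank ℂ (fatForms r d p m) < (d + r).choose r := by
  have hfin := finite_homog' (r + 1) d
  rw [← finrank_homog' r d]
  apply Submodule.finrank_lt_finrank_of_lt
  refine lt_of_le_of_ne (fun F hF => hF.1) ?_
  intro heq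
  have h1 : (X 0 ^ d : MvPolynomial (Fin (r + 1)) ℂ) ∈ homogeneousSubmodule (Fin (r + 1)) ℂ d := by
    rw [mem_homogeneousSubmodule]
    simpa using (isHomogeneous_X ℂ (0 : Fin (r + 1))).pow d
  rw [← heq] at h1
  have h2 := h1.2 i 0 (by
    rw [map_zero]
    omega)
  have h3 : coeff 0 (shift (p i) (X 0 ^ d)) = p i 0 ^ d := by
    unfold shift
    rw [map_pow, aeval_X, ← constantCoeff_eq, map_pow]
    simp
  rw [h3] at h2
  exact pow_ne_zero d hp h2

end BridgeDX

open BridgeDX

/-- If two multiplicities have sum at least `d + 2` and there is a nonzero form, then the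
conditions are not maximal. -/
theorem not_maximal_of_pair {r k : ℕ} (hr : 1 ≤ r) (d : ℕ) (p : Fin k → Fin (r + 1) → ℂ)
    (hp : ∀ i, p i 0 ≠ 0) (m : Fin k → ℕ) (hm : ∀ i, 1 ≤ m i ∧ m i ≤ d) (i j : Fin k) (hij : i ≠ j)
    (h : d + 2 ≤ m i + m j) (hpos : 0 < Module.finrank ℂ (fatForms r d p m)) :
    ¬ ImposesMaximalConditions r d p m := by
  intro hmax
  unfold ImposesMaximalConditions at hmax
  have hmi := hm i
  have hmj := hm j
  have hzero : (0 + r - 1).choose r = 0 := Nat.choose_eq_zero_of_lt (by omega)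
  set len : ℕ → ℕ := fun a => (a + r - 1).choose r with hlen
  have hlen0 : len 0 = 0 := hzero
  have hlen' : ∀ a, (a + r - 1).choose r = len a := fun _ => rfl
  let mi : Fin k → ℕ := fun l => if l = i then m l else 0
  let mij : Fin k → ℕ := fun l => if l = i ∨ l = j then m l else 0
  let n : Fin k → ℕ := fun l => if l = i ∨ l = j then 0 else m l
  -- the single point
  have h1 : ((d + r).choose r : ℤ) - (len (m i) : ℤ) ≤ Module.finrank ℂ (fatForms r d p mi) := by
    have h := finrank_fatForms_ge (d := d) hr hp mi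
    have h2 : ∑ l, ((mi l + r - 1).choose r : ℤ) = (len (m i) : ℤ) := by
      rw [Finset.sum_eq_single i]
      · simp [mi, hlen]
      · intro l _ hl
        have : mi l = 0 := if_neg hl
        rw [this]
        exact_mod_cast hzero
      · intro hi
        exact absurd (Finset.mem_univ _) hi
    rwa [h2] at h
  -- adding the second point
  have h2 : Module.finrank ℂ (fatForms r d p mi) <
      Module.finrank ℂ (fatForms r d p mij) + len (m j) := by
    have h3 := finrank_fat_le_add d p mi j (d + 1 - m j) (by omega) (if_neg (Ne.symm hij))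
    have h4 : ∀ inst : DecidableEq (Fin k),
        @Function.update (Fin k) (fun _ => ℕ) inst mi j (d + 1 - (d + 1 - m j)) = mij := by
      intro inst
      funext l
      by_cases hl : l = j
      · subst hl
        rw [Function.update_self]
        have : mij l = m l := if_pos (Or.inr rfl)
        rw [this]
        omega
      · rw [Function.update_of_ne hl]
        by_cases hli : l = i
        · simp [mi, mij, hli]
        · simp [mi, mij, hli, hl]
    rw [h4] at h3
    have h5 := finrank_fat_lt (d := d - (d + 1 - m j)) p (fun l => mi l - (d + 1 - m j)) i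
      (by
        have : mi i = m i := if_pos rfl
        change 1 ≤ mi i - (d + 1 - m j)
        rw [this]
        omega) (hp i)
    have h6 : d - (d + 1 - m j) + r = m j + r - 1 := by omega
    rw [h6, hlen' (m j)] at h5
    omega
  -- the other points
  have h3 : Module.finrank ℂ (fatForms r d p mij) ≤
      Module.finrank ℂ (fatForms r d p m) + ∑ l, len (n l) := by
    have h4 := finrank_add_length_ge (d := d) hr p mij p hp n
    have hfin := BridgeCX.finite_fat (d := d) p m
    have h5 : Module.finrank ℂ (fatForms r d (Sum.elim p p) (Sum.elim mij n)) ≤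
        Module.finrank ℂ (fatForms r d p m) := by
      apply Submodule.finrank_mono
      intro F hF
      refine ⟨hF.1, fun l => ?_⟩
      by_cases hl : l = i ∨ l = j
      · have h6 := hF.2 (Sum.inl l)
        simp only [Sum.elim_inl] at h6
        have h7 : mij l = m l := if_pos hl
        rwa [h7] at h6
      · have h6 := hF.2 (Sum.inr l)
        simp only [Sum.elim_inr] at h6
        have h7 : n l = m l := if_neg hl
        rwa [h7] at h6
    exact h4.trans (Nat.add_le_add_right h5 _)
  -- the sum of the lengths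
  have h4 : ∑ l, len (m l) = ∑ l, len (n l) + len (m i) + len (m j) := by
    have h5 : ∀ l, len (m l) = len (n l) + (if l = i then len (m i) else 0) +
        (if l = j then len (m j) else 0) := by
      intro l
      by_cases hl : l = i
      · subst hl
        have h7 : n l = 0 := if_pos (Or.inl rfl)
        rw [h7, hlen0, if_pos rfl, if_neg hij]
        omega
      · by_cases hl' : l = j
        · subst hl'
          have h7 : n l = 0 := if_pos (Or.inr rfl)
          rw [h7, hlen0, if_pos rfl, if_neg hl]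
          omega
        · have h7 : n l = m l := if_neg (by tauto)
          rw [h7, if_neg hl, if_neg hl']
          omega
    rw [Finset.sum_congr rfl fun l _ => h5 l, Finset.sum_add_distrib, Finset.sum_add_distrib]
    simp
  have h5 : ∑ l, ((m l + r - 1).choose r : ℤ) = ((∑ l, len (m l) : ℕ) : ℤ) := by
    push_cast
    rfl
  rw [h5, h4] at hmax
  generalize ∑ l, len (n l) = S at hmax h3
  have h6 : (0 : ℤ) < (Module.finrank ℂ (fatForms r d p m) : ℤ) := by exact_mod_cast hpos
  rcases le_total (0 : ℤ) (((d + r).choose r : ℤ) -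
      ((S + len (m i) + len (m j) : ℕ) : ℤ)) with h7 | h7
  · rw [max_eq_right h7] at hmax
    push_cast at hmax h1
    omega
  · rw [max_eq_left h7] at hmax
    omega

end Pool.Agent.H21.HD

end

section

/-!
The region in terms of `fro`.
-/

namespace Pool.Agent.H21.HD

open scoped Classical

namespace RegionX

lemma phi_nonneg_le (j : ℕ) (κ : ℕ → ℝ) (h0 : ∀ i, 0 ≤ κ i) (hpos : ∀ i ≤ j, 0 ≤ phi κ i) :
    ∀ i ≤ j + 1, phi κ i ≤ 1 := by
  intro i
  induction i with
  | zero => intro _; rw [phi]
  | succ i ih =>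
    intro hi
    rw [phi]
    have h1 := ih (by omega)
    have h2 : 0 ≤ ∑ e : Fin (i + 1), κ (e + 1) * (i.choose e : ℝ) * phi κ (i - e) := by
      apply Finset.sum_nonneg
      intro e _
      have h3 := hpos (i - e) (by omega)
      have h4 := h0 (e + 1)
      positivity
    linarith

lemma phi_congr' {κ κ' : ℕ → ℝ} : ∀ j : ℕ, (∀ i, 1 ≤ i → i ≤ j → κ i = κ' i) →
    phi κ j = phi κ' j := by
  intro j
  induction j using Nat.strong_induction_on with
  | _ j ih =>
    intro h
    cases j with
    | zero => rw [phi, phi]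
    | succ j =>
      rw [phi, phi, ih j (Nat.lt_succ_self j) fun i h1 h2 => h i h1 (by omega)]
      congr 1
      refine Finset.sum_congr rfl fun e _ => ?_
      have he := e.2
      rw [h (e + 1) (by omega) (by omega), ih (j - e) (by omega) fun i h1 h2 => h i h1 (by omega)]

lemma load_nonneg' {P : Type} (r : ℕ) (e : P → ℕ) (I : Finset P) (i : ℕ) : 0 ≤ load r e I i := by
  unfold load
  positivity

/-- `j! binom(j + r, r) ≤ 2 (r + 1)^j` for large `r`. -/
lemma choose_le_two (j : ℕ) : ∃ r₀ : ℕ, ∀ r : ℕ, r₀ ≤ r →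
    (j.factorial : ℝ) * ((j + r).choose r : ℝ) ≤ 2 * ((r : ℝ) + 1) ^ j := by
  have key : ∀ r : ℕ, (j.factorial : ℝ) * ((j + r).choose r : ℝ) ≤ ((r : ℝ) + j) ^ j := by
    intro r
    have h1 : (j + r).choose r = (j + r).choose j := by
      rw [Nat.choose_symm_add]
    have h2 : j.factorial * (j + r).choose j ≤ (j + r) ^ j := by
      rw [← Nat.descFactorial_eq_factorial_mul_choose]
      exact Nat.descFactorial_le_pow _ _
    rw [h1]
    have h3 : ((j.factorial * (j + r).choose j : ℕ) : ℝ) ≤ (((j + r) ^ j : ℕ) : ℝ) := by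
      exact_mod_cast h2
    push_cast at h3
    rw [add_comm (j : ℝ) (r : ℝ)] at h3
    exact h3
  -- `(r + j)^j ≤ 2 (r+1)^j`
  have hlim : Filter.Tendsto (fun r : ℕ => (((r : ℝ) + j) / ((r : ℝ) + 1)) ^ j) Filter.atTop
      (nhds (1 ^ j)) := by
    apply Filter.Tendsto.pow
    have h1 : (fun r : ℕ => ((r : ℝ) + j) / ((r : ℝ) + 1)) =
        fun r : ℕ => 1 + ((j : ℝ) - 1) / ((r : ℝ) + 1) := by
      funext r
      have : (r : ℝ) + 1 ≠ 0 := by positivity
      field_simp
      ring
    rw [h1]
    have h2 : Filter.Tendsto (fun r : ℕ => ((j : ℝ) - 1) / ((r : ℝ) + 1)) Filter.atTop (nhds 0) := by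
      apply Filter.Tendsto.div_atTop tendsto_const_nhds
      exact Filter.tendsto_atTop_add_const_right _ _ tendsto_natCast_atTop_atTop
    simpa using h2.const_add 1
  rw [one_pow] at hlim
  have h1 := hlim.eventually (gt_mem_nhds (show (1 : ℝ) < 2 by norm_num))
  obtain ⟨r₀, hr₀⟩ := Filter.eventually_atTop.1 h1
  refine ⟨r₀, fun r hr => (key r).trans ?_⟩
  have h2 := (hr₀ r hr).le
  rw [div_pow, div_le_iff₀ (by positivity)] at h2
  exact h2

end RegionX

open RegionX

/-- If the Fröberg numbers are large then the loads are bounded and `phi` is large. -/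
theorem region_of_fro (d : ℕ) (η : ℝ) (hη : 0 < η) : ∃ r₀ : ℕ, ∀ r : ℕ, r₀ ≤ r →
    ∀ (P : Type) (e : P → ℕ) (I : Finset P), (∀ i ∈ I, 1 ≤ e i) →
    (∀ j ≤ d, η * ((j + r).choose r : ℝ) ≤ (fro r e I j : ℝ)) →
    (∀ i, 1 ≤ i → i ≤ d → load r e I i ≤ 2) ∧ ∀ j ≤ d, η / 2 ≤ phi (load r e I) j := by
  choose R hR using fun j : ℕ => fro_asymp j 2 (η / 2) (by linarith)
  choose S hS using fun j : ℕ => choose_le_two j
  refine ⟨(Finset.range (d + 1)).sup R + (Finset.range (d + 1)).sup S, fun r hr P e I he hfro => ?_⟩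
  have hRr : ∀ j ≤ d, R j ≤ r := by
    intro j hj
    have h1 : R j ≤ (Finset.range (d + 1)).sup R :=
      Finset.le_sup (f := R) (Finset.mem_range.2 (Nat.lt_succ_of_le hj))
    omega
  have hSr : ∀ j ≤ d, S j ≤ r := by
    intro j hj
    have h1 : S j ≤ (Finset.range (d + 1)).sup S :=
      Finset.le_sup (f := S) (Finset.mem_range.2 (Nat.lt_succ_of_le hj))
    omega
  have hs : ∀ j, (0 : ℝ) < ((j + r).choose r : ℝ) := by
    intro j
    exact_mod_cast Nat.choose_pos (by omega)
  have key : ∀ j ≤ d, (∀ i, 1 ≤ i → i ≤ j → load r e I i ≤ 2) ∧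
      ∀ i ≤ j, η / 2 ≤ phi (load r e I) i := by
    intro j
    induction j with
    | zero =>
      intro _
      refine ⟨fun i h1 h2 => by omega, fun i hi => ?_⟩
      have hi0 : i = 0 := by omega
      subst hi0
      have h1 := hfro 0 (Nat.zero_le _)
      rw [fro_zero r e I he] at h1
      have h2 : (0 + r).choose r = 1 := by simp
      rw [h2] at h1
      rw [phi]
      push_cast at h1
      linarith
    | succ j ih =>
      intro hj
      obtain ⟨ih1, ih2⟩ := ih (by omega)
      -- the load of `j + 1`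
      have hload : load r e I (j + 1) ≤ 2 := by
        set I₁ := I.filter (fun p => e p < j + 1) with hI₁
        set I₂ := I.filter (fun p => e p = j + 1) with hI₂
        set I₃ := I.filter (fun p => j + 1 < e p) with hI₃
        have hd12 : Disjoint I₁ I₂ := by
          rw [Finset.disjoint_left]
          intro x hx hx'
          rw [Finset.mem_filter] at hx hx'
          omega
        have hd3 : Disjoint (I₁ ∪ I₂) I₃ := by
          rw [Finset.disjoint_left]
          intro x hx hx'
          rw [Finset.mem_union, Finset.mem_filter, Finset.mem_filter] at hx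
          rw [Finset.mem_filter] at hx'
          omega
        have hI : I = (I₁ ∪ I₂) ∪ I₃ := by
          ext x
          simp only [hI₁, hI₂, hI₃, Finset.mem_union, Finset.mem_filter]
          constructor
          · intro hx
            rcases lt_trichotomy (e x) (j + 1) with h | h | h
            · exact Or.inl (Or.inl ⟨hx, h⟩)
            · exact Or.inl (Or.inr ⟨hx, h⟩)
            · exact Or.inr ⟨hx, h⟩
          · rintro ((h | h) | h) <;> exact h.1
        have h1 : fro r e I (j + 1) = fro r e I₁ (j + 1) - I₂.card := by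
          conv_lhs => rw [hI]
          rw [fro_union_large r (j + 1) e _ _ hd3 (fun i hi => (Finset.mem_filter.1 hi).2),
            fro_simple r (j + 1) e I₁ I₂ hd12 (fun i hi => he i (Finset.mem_filter.1 hi).1)
              (by omega) (fun i hi => (Finset.mem_filter.1 hi).2)]
        have hload₁ : ∀ i, 1 ≤ i → i ≤ j + 1 → load r e I₁ i =
            if i = j + 1 then 0 else load r e I i := by
          intro i h2 h3
          unfold load
          split_ifs with h4
          · have h5 : I₁.filter (fun p => e p = i) = ∅ := by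
              rw [Finset.filter_eq_empty_iff]
              intro x hx hxi
              rw [hI₁, Finset.mem_filter] at hx
              omega
            rw [h5]
            simp
          · have h5 : I₁.filter (fun p => e p = i) = I.filter (fun p => e p = i) := by
              ext x
              simp only [hI₁, Finset.mem_filter]
              constructor
              · rintro ⟨⟨h6, _⟩, h7⟩
                exact ⟨h6, h7⟩
              · rintro ⟨h6, h7⟩
                exact ⟨⟨h6, by omega⟩, h7⟩
            rw [h5]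
        have h2 := hR (j + 1) r (hRr (j + 1) hj) P e I₁
          (fun i hi => he i (Finset.mem_filter.1 hi).1) (by
            intro i h3 h4
            rw [hload₁ i h3 h4]
            split_ifs with h5
            · norm_num
            · exact ih1 i h3 (by omega))
        have h3 : phi (load r e I₁) (j + 1) ≤ 1 := by
          apply phi_nonneg_le j _ (load_nonneg' r e I₁) _ (j + 1) le_rfl
          intro i hi
          rw [phi_congr' (κ' := load r e I) i]
          · have := ih2 i hi
            linarith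
          · intro t h4 h5
            rw [hload₁ t h4 (by omega), if_neg (by omega)]
        have h4 := (abs_le.1 h2).2
        have h5 := hfro (j + 1) hj
        have hsj := hs (j + 1)
        have h6 : (I₂.card : ℝ) ≤ ((j + 1 + r).choose r : ℝ) := by
          rw [h1] at h5
          push_cast at h5
          have h7 : phi (load r e I₁) (j + 1) * ((j + 1 + r).choose r : ℝ) ≤
              1 * ((j + 1 + r).choose r : ℝ) := mul_le_mul_of_nonneg_right h3 hsj.le
          have h8 : 0 ≤ η / 2 * ((j + 1 + r).choose r : ℝ) := by positivity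
          linarith
        unfold load
        rw [div_le_iff₀ (by positivity)]
        have h7 := hS (j + 1) r (hSr (j + 1) hj)
        have h8 : ((j + 1).factorial : ℝ) * (I₂.card : ℝ) ≤
            ((j + 1).factorial : ℝ) * ((j + 1 + r).choose r : ℝ) :=
          mul_le_mul_of_nonneg_left h6 (by positivity)
        exact h8.trans h7
      have hload' : ∀ i, 1 ≤ i → i ≤ j + 1 → load r e I i ≤ 2 := by
        intro i h1 h2
        rcases Nat.lt_or_ge i (j + 1) with h3 | h3
        · exact ih1 i h1 (by omega)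
        · have : i = j + 1 := by omega
          rw [this]
          exact hload
      refine ⟨hload', fun i hi => ?_⟩
      rcases Nat.lt_or_ge i (j + 1) with h3 | h3
      · exact ih2 i (by omega)
      · have hi' : i = j + 1 := by omega
        subst hi'
        have h4 := hR (j + 1) r (hRr (j + 1) hj) P e I he hload'
        have h5 := (abs_le.1 h4).2
        have h6 := hfro (j + 1) hj
        have h7 : η / 2 * ((j + 1 + r).choose r : ℝ) ≤
            phi (load r e I) (j + 1) * ((j + 1 + r).choose r : ℝ) := by linarith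
        exact le_of_mul_le_mul_right h7 (hs (j + 1))
  exact key d le_rfl

end Pool.Agent.H21.HD

end

section

/-!
Spanning in blocks.
-/

namespace Pool.Agent.H21.HD

open MvPolynomial
open scoped Classical

/-- `powSpan` grows when the family is enlarged. -/
private lemma powSpan_inl {σ X α : Type*} [Fintype σ] (d : ℕ) (w₁ : X → σ → ℂ) (w₂ : α → σ → ℂ)
    (e₁ : X → ℕ) (e₂ : α → ℕ) :
    powSpan d w₁ e₁ ≤ powSpan d (Sum.elim w₁ w₂) (Sum.elim e₁ e₂) := by
  apply Submodule.span_mono
  rintro F ⟨p, g, h1, h2, rfl⟩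
  exact ⟨Sum.inl p, g, h1, h2, rfl⟩

/-- Spanning in `N * |A|` variables. -/
theorem span_blocks (d : ℕ) (η : ℝ) (hη : 0 < η) : ∃ W : ℕ, ∀ (A : Type) [Fintype A],
    W ≤ Fintype.card A → ∀ (N e₀ : ℕ), 2 ≤ e₀ → e₀ ≤ d → d ≤ N →
    ∀ (X : Type) [Fintype X],
    N.choose (e₀ - 1) * ((e₀ - 1) * Fintype.card A - 1 + e₀).choose e₀ ≤ Fintype.card X →
    ∀ (α : Type) [Fintype α] (c : α → Finset (Fin N)), (∀ p, (c p).Nonempty) →
    ∀ lam : ℕ → ℝ, (∀ i, 0 ≤ lam i) → (∃ j ≤ d, phi lam j ≤ 0) →
    (∀ T : Finset (Fin N), T.Nonempty → T.card ≤ d → 0 < lam T.card →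
      (lam T.card + η) * (Fintype.card A : ℝ) ^ T.card ≤
        (Finset.univ.filter (fun p => c p = T)).card) →
    ∃ (w : X ⊕ α → Fin N × A → ℂ),
      homogeneousSubmodule (Fin N × A) ℂ d ≤
        powSpan d w (Sum.elim (fun _ => e₀) (fun p => (c p).card)) := by
  obtain ⟨W₀, hW₀⟩ := tensor_span d η hη
  refine ⟨max W₀ 1, ?_⟩
  intro A _ hA N e₀ h2 hed hdN X _ hX α _ c hc lam hlam hphi hT
  have hA1 : 1 ≤ Fintype.card A := le_trans (le_max_right _ _) hA
  haveI : Nonempty A := Fintype.card_pos_iff.1 hA1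
  obtain ⟨j, hjd, hj⟩ := hphi
  -- the columns
  have hcol : ∀ J : Finset (Fin N), J.card = d → ∃ v : α → Fin N → A → ℂ,
      SpanGood J (Finset.univ.filter (fun p => c p ⊆ J)) c v := by
    intro J hJ
    refine hW₀ (Fin N) A α (le_trans (le_max_left _ _) hA) J hJ (fun T => lam T.card)
      (fun T => hlam _) ?_ _ c ?_ ?_
    · obtain ⟨J', hJ', hJ'c⟩ := Finset.exists_subset_card_eq (s := J) (n := j) (by omega)
      refine ⟨J', hJ', ?_⟩
      rw [FF_card lam J' (fun T => lam T.card) (fun T _ _ => rfl), hJ'c]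
      exact hj
    · intro p hp
      exact ⟨(Finset.mem_filter.1 hp).2, hc p⟩
    · intro T hTJ hTn hTl
      have h1 := hT T hTn (by rw [← hJ]; exact Finset.card_le_card hTJ) hTl
      refine h1.trans (le_of_eq ?_)
      congr 2
      ext p
      simp only [Finset.mem_filter, Finset.mem_univ, true_and]
      constructor
      · intro h
        exact ⟨by rw [h]; exact hTJ, h⟩
      · intro h
        exact h.2
  choose! vJ hvJ using hcol
  have hopen : ∀ J : Finset (Fin N), J.card = d → ∃ G : MvPolynomial (α × Fin N × A) ℂ, G ≠ 0 ∧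
      ∀ v : α → Fin N → A → ℂ, eval (fun x => v x.1 x.2.1 x.2.2) G ≠ 0 →
        SpanGood J (Finset.univ.filter (fun p => c p ⊆ J)) c v := by
    intro J hJ
    exact spanGood_open J _ c (fun p hp => (Finset.mem_filter.1 hp).2) (vJ J) (hvJ J hJ)
  choose! G hG0 hG using hopen
  obtain ⟨x, hx⟩ := exists_common (Finset.powersetCard d (Finset.univ : Finset (Fin N))) G
    (fun J hJ => hG0 J (Finset.mem_powersetCard.1 hJ).2)
  -- the killers
  obtain ⟨w₁, hw₁⟩ := exists_block_powers (N := N) (A := A) e₀ h2 X hX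
  refine ⟨Sum.elim w₁ (fun p => vecB (c p) (fun i a => x (p, i, a))), ?_⟩
  refine span_of_columns d _ _ ?_ c (fun p i a => x (p, i, a)) Sum.inr ?_ ?_
  · intro γ hγ hi
    refine nonsquarefree_of_blocks d e₀ h2 hed (by omega) _ _ ?_ γ hγ hi
    intro b hb F hF hFb
    exact powSpan_inl e₀ w₁ _ (fun _ => e₀) _ (hw₁ b hb F hF hFb)
  · intro p
    exact ⟨rfl, rfl⟩
  · intro J hJ
    refine ⟨Finset.univ.filter (fun p => c p ⊆ J), fun p hp => (Finset.mem_filter.1 hp).2, ?_⟩
    refine hG J hJ (fun p i a => x (p, i, a)) ?_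
    have h1 := hx J (Finset.mem_powersetCard.2 ⟨Finset.subset_univ J, hJ⟩)
    exact h1

end Pool.Agent.H21.HD

end

section

/-!
The spanning theorem.
-/

namespace Pool.Agent.H21.HD

open MvPolynomial
open scoped Classical

namespace SpanMainX

/-- Transport along an injection of index types. -/
lemma transport {σ P Y : Type} [Fintype σ] (d : ℕ) (e : P → ℕ) (e' : Y → ℕ) (ι : Y → P)
    (hι : Function.Injective ι) (he : ∀ y, e (ι y) = e' y) (w' : Y → σ → ℂ) :
    powSpan d w' e' ≤ powSpan d (Function.extend ι w' 0) e := by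
  unfold powSpan
  apply Submodule.span_mono
  rintro F ⟨y, g, h1, h2, h3⟩
  refine ⟨ι y, g, ?_, ?_, ?_⟩
  · rw [he]; exact h1
  · rw [he]; exact h2
  · rw [he, hι.extend_apply]; exact h3

lemma lin_single {σ : Type} [Fintype σ] (s : σ) :
    lin (Pi.single s (1 : ℂ)) = (X s : MvPolynomial σ ℂ) := by
  unfold lin
  rw [Finset.sum_eq_single s]
  · simp
  · intro t _ hts
    simp [Pi.single_eq_of_ne hts]
  · intro h
    exact absurd (Finset.mem_univ s) h

/-- The coordinate forms span. -/
lemma span_coord {σ : Type} [Fintype σ] (d : ℕ) (hd : 1 ≤ d) :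
    homogeneousSubmodule σ ℂ d ≤
      powSpan d (fun s : σ => (Pi.single s (1 : ℂ) : σ → ℂ)) (fun _ => 1) := by
  intro F hF
  rw [mem_homogeneousSubmodule] at hF
  rw [MvPolynomial.as_sum F]
  apply Submodule.sum_mem
  intro γ hγ
  have hdeg : γ.degree = d := by
    rw [Finsupp.degree_eq_weight_one]
    exact hF (mem_support_iff.1 hγ)
  have hs : ∃ s, γ s ≠ 0 := by
    by_contra hcon
    push Not at hcon
    have h0 : γ = 0 := by ext s; simp [hcon s]
    rw [h0] at hdeg
    simp at hdeg
    omega
  obtain ⟨s, hs⟩ := hs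
  have hle : Finsupp.single s 1 ≤ γ := by
    rw [Finsupp.single_le_iff]
    omega
  apply Submodule.subset_span
  refine ⟨s, monomial (γ - Finsupp.single s 1) (coeff γ F), hd, ?_, ?_⟩
  · apply isHomogeneous_monomial
    have h1 : (γ - Finsupp.single s 1).degree + (Finsupp.single s 1).degree = γ.degree := by
      rw [← map_add, tsub_add_cancel_of_le hle]
    rw [hdeg] at h1
    simp at h1
    show (γ - Finsupp.single s 1).degree = d - 1
    omega
  · rw [lin_single, pow_one, X, monomial_mul, tsub_add_cancel_of_le hle, mul_one]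

/-- Recursion of `phi` when only the first load is present. -/
lemma phi_one (lam : ℕ → ℝ) (d : ℕ) (h : ∀ i, 2 ≤ i → i ≤ d → lam i = 0) :
    ∀ j, j ≤ d → phi lam j = (1 - lam 1) ^ j := by
  intro j
  induction j with
  | zero => intro _; simp [phi]
  | succ j ih =>
    intro hj
    have ih' := ih (by omega)
    rw [phi, Finset.sum_eq_single (⟨0, by omega⟩ : Fin (j + 1))]
    · simp only [zero_add, Nat.choose_zero_right, Nat.cast_one, mul_one, Nat.sub_zero]
      rw [ih', pow_succ]
      ring
    · intro e _ he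
      have he0 : (e : ℕ) ≠ 0 := by
        intro h0
        apply he
        ext
        exact h0
      have : lam ((e : ℕ) + 1) = 0 := h _ (by omega) (by have := e.2; omega)
      rw [this]
      ring
    · intro hcon
      exact absurd (Finset.mem_univ _) hcon

/-- The first case. -/
lemma case_one (d : ℕ) (hd : 1 ≤ d) (η : ℝ) (hη : 0 < η) (r : ℕ)
    (P : Type) [Fintype P] (e : P → ℕ) (lam : ℕ → ℝ) (hlam : ∀ i, 0 ≤ lam i ∧ lam i ≤ 1)
    (hphi : ∃ j ≤ d, phi lam j ≤ 0) (h0 : ∀ i, 2 ≤ i → i ≤ d → lam i = 0)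
    (hcount : ∀ i, 1 ≤ i → i ≤ d → 0 < lam i → (lam i + η) * ((r : ℝ) + 1) ^ i / (i.factorial : ℝ) ≤
      (Finset.univ.filter (fun p => e p = i)).card) :
    ∃ w : P → Fin (r + 1) → ℂ, homogeneousSubmodule (Fin (r + 1)) ℂ d ≤ powSpan d w e := by
  obtain ⟨j, hj, hphij⟩ := hphi
  rw [phi_one lam d h0 j hj] at hphij
  have h1 := hlam 1
  have hl1 : lam 1 = 1 := by
    by_contra hne
    have hlt : lam 1 < 1 := lt_of_le_of_ne h1.2 hne
    have : 0 < (1 - lam 1) ^ j := pow_pos (by linarith only [hlt]) j
    linarith only [hphij, this]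
  have hc := hcount 1 le_rfl hd (by rw [hl1]; norm_num)
  rw [hl1] at hc
  simp only [pow_one, Nat.factorial_one, Nat.cast_one, div_one] at hc
  have hc2 : ((r + 1 : ℕ) : ℝ) ≤ ((Finset.univ.filter (fun p => e p = 1)).card : ℝ) := by
    refine le_trans ?_ hc
    push_cast
    have : (0 : ℝ) ≤ r := Nat.cast_nonneg r
    nlinarith only [hη]
  have hc3 : r + 1 ≤ (Finset.univ.filter (fun p => e p = 1)).card := by exact_mod_cast hc2
  have hcard : Fintype.card (Fin (r + 1)) ≤ Fintype.card {p : P // e p = 1} := by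
    rw [Fintype.card_fin, Fintype.card_subtype]
    exact hc3
  obtain ⟨ι⟩ := Function.Embedding.nonempty_of_card_le hcard
  have hinj : Function.Injective (fun s : Fin (r + 1) => (ι s).1) :=
    Subtype.val_injective.comp ι.injective
  exact ⟨_, (span_coord d hd).trans (transport d e (fun _ => 1) (fun s => (ι s).1) hinj
    (fun s => (ι s).2) _)⟩

lemma ceil_bounds (h r : ℕ) (hh : 1 ≤ h) :
    r + 1 ≤ ((r + h) / h) * h ∧ ((r + h) / h) * h ≤ r + h := by
  constructor
  · have := Nat.lt_div_mul_add (a := r + h) (b := h) (by omega)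
    omega
  · exact Nat.div_mul_le_self _ _

/-- The numerical estimate. -/
lemma num_est (d : ℕ) (η : ℝ) (hη : 0 < η) (h : ℕ) (hh : 1 ≤ h) (hηh : 4 ≤ η * h) (r : ℕ)
    (hr : (1 + η) * (h : ℝ) ^ (d + 1) * d ≤ (r : ℝ) + 1) (N : ℕ) (hN1 : r + 1 ≤ N * h)
    (hN2 : N * h ≤ r + h) (i : ℕ) (hi : 1 ≤ i) (hid : i ≤ d) (hiN : i ≤ N) (l : ℝ) (hl0 : 0 ≤ l)
    (hl1 : l ≤ 1) (n : ℕ) (hn : (l + η) * ((r : ℝ) + 1) ^ i / (i.factorial : ℝ) ≤ n) :
    (l + η / 4) * (h : ℝ) ^ i ≤ ((n : ℝ) / (N.choose i : ℝ)) - 2 ∧ N.choose i ≤ n := by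
  have hr1 : (0 : ℝ) < (r : ℝ) + 1 := by positivity
  have hh0 : (1 : ℝ) ≤ h := by exact_mod_cast hh
  have hNpos : 0 < N := by
    rcases Nat.eq_zero_or_pos N with h0 | h0
    · subst h0; omega
    · exact h0
  have hN0 : (0 : ℝ) < N := by exact_mod_cast hNpos
  have hC : 0 < N.choose i := Nat.choose_pos hiN
  have hC0 : (0 : ℝ) < (N.choose i : ℝ) := by exact_mod_cast hC
  have hN2' : (N : ℝ) * h ≤ r + h := by exact_mod_cast hN2
  -- t = (r+1)/N
  set t : ℝ := ((r : ℝ) + 1) / N with ht
  have ht0 : 0 < t := div_pos hr1 hN0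
  have hrh : (0 : ℝ) ≤ r := Nat.cast_nonneg r
  have ht1 : (h : ℝ) * (1 - h / ((r : ℝ) + 1)) ≤ t := by
    rw [ht, le_div_iff₀ hN0]
    have h1 : (h : ℝ) * (1 - h / ((r : ℝ) + 1)) * N = (1 - h / ((r : ℝ) + 1)) * (N * h) := by ring
    rw [h1]
    by_cases hneg : 0 ≤ 1 - (h : ℝ) / ((r : ℝ) + 1)
    · calc (1 - (h : ℝ) / ((r : ℝ) + 1)) * (N * h) ≤ (1 - (h : ℝ) / ((r : ℝ) + 1)) * (r + h) := by
            gcongr
        _ ≤ (r : ℝ) + 1 := by
            have : (1 - (h : ℝ) / ((r : ℝ) + 1)) * (r + h)
                = (((r : ℝ) + 1 - h) * (r + h)) / ((r : ℝ) + 1) := by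
              field_simp
            rw [this, div_le_iff₀ hr1]
            nlinarith only [hh0]
    · push Not at hneg
      have : (1 - (h : ℝ) / ((r : ℝ) + 1)) * (N * h) ≤ 0 :=
        mul_nonpos_of_nonpos_of_nonneg hneg.le (by positivity)
      linarith only [this]
  -- h/(r+1) ≤ 1
  have hd0 : (1 : ℝ) ≤ d := by exact_mod_cast (by omega : 1 ≤ d)
  have hpow1 : (1 : ℝ) ≤ (h : ℝ) ^ d := one_le_pow₀ hh0
  have hhr : (h : ℝ) ≤ (r : ℝ) + 1 := by
    refine le_trans ?_ hr
    rw [pow_succ]
    have h2 : (1 : ℝ) ≤ (1 + η) := by linarith only [hη]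
    calc (h : ℝ) = 1 * (1 * h) * 1 := by ring
      _ ≤ (1 + η) * ((h : ℝ) ^ d * h) * d := by gcongr
  have hfrac : (h : ℝ) / ((r : ℝ) + 1) ≤ 1 := by
    rw [div_le_one hr1]; exact hhr
  have hti : (h : ℝ) ^ i * (1 - i * (h / ((r : ℝ) + 1))) ≤ t ^ i := by
    have h3 : (1 : ℝ) + i * (-(h / ((r : ℝ) + 1))) ≤ (1 + (-(h / ((r : ℝ) + 1)))) ^ i :=
      one_add_mul_le_pow (by linarith only [hfrac]) i
    calc (h : ℝ) ^ i * (1 - i * (h / ((r : ℝ) + 1)))
        = (h : ℝ) ^ i * (1 + i * (-(h / ((r : ℝ) + 1)))) := by ring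
      _ ≤ (h : ℝ) ^ i * (1 + (-(h / ((r : ℝ) + 1)))) ^ i := by gcongr
      _ = ((h : ℝ) * (1 - h / ((r : ℝ) + 1))) ^ i := by rw [mul_pow]; ring
      _ ≤ t ^ i := by
          apply pow_le_pow_left₀ _ ht1
          apply mul_nonneg (by positivity)
          linarith only [hfrac]
  -- bound for the quotient
  have hfac : ((i.factorial : ℕ) : ℝ) * (N.choose i : ℝ) ≤ (N : ℝ) ^ i := by
    have := Nat.descFactorial_le_pow N i
    rw [Nat.descFactorial_eq_factorial_mul_choose] at this
    exact_mod_cast this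
  have hfac0 : (0 : ℝ) < ((i.factorial : ℕ) : ℝ) := by exact_mod_cast i.factorial_pos
  have hq : (l + η) * t ^ i ≤ (n : ℝ) / (N.choose i : ℝ) := by
    rw [le_div_iff₀ hC0]
    refine le_trans ?_ hn
    rw [ht, div_pow, le_div_iff₀ hfac0]
    have h4 : (l + η) * (((r : ℝ) + 1) ^ i / (N : ℝ) ^ i) * (N.choose i : ℝ) * (i.factorial : ℝ)
        = (l + η) * ((r : ℝ) + 1) ^ i * (((i.factorial : ℝ) * (N.choose i : ℝ)) / (N : ℝ) ^ i) := by
      ring
    rw [h4]
    have h5 : ((i.factorial : ℝ) * (N.choose i : ℝ)) / (N : ℝ) ^ i ≤ 1 := by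
      rw [div_le_one (by positivity)]
      exact hfac
    calc (l + η) * ((r : ℝ) + 1) ^ i * (((i.factorial : ℝ) * (N.choose i : ℝ)) / (N : ℝ) ^ i)
        ≤ (l + η) * ((r : ℝ) + 1) ^ i * 1 := by
          gcongr
      _ = _ := by ring
  have hpowle : (h : ℝ) ^ i ≤ (h : ℝ) ^ d := pow_le_pow_right₀ hh0 hid
  have herr : (l + η) * ((h : ℝ) ^ i * (i * (h / ((r : ℝ) + 1)))) ≤ 1 := by
    have hid' : (i : ℝ) ≤ d := by exact_mod_cast hid
    calc (l + η) * ((h : ℝ) ^ i * (i * (h / ((r : ℝ) + 1))))
        ≤ (1 + η) * ((h : ℝ) ^ d * (d * (h / ((r : ℝ) + 1)))) := by gcongr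
      _ = ((1 + η) * (h : ℝ) ^ (d + 1) * d) / ((r : ℝ) + 1) := by rw [pow_succ]; ring
      _ ≤ 1 := by rw [div_le_one hr1]; exact hr
  have hmain : (l + η) * (h : ℝ) ^ i - 1 ≤ (n : ℝ) / (N.choose i : ℝ) := by
    refine le_trans ?_ hq
    have h6 : (l + η) * ((h : ℝ) ^ i * (1 - i * (h / ((r : ℝ) + 1)))) ≤ (l + η) * t ^ i := by
      gcongr
    have h7 : (l + η) * ((h : ℝ) ^ i * (1 - i * (h / ((r : ℝ) + 1))))
        = (l + η) * (h : ℝ) ^ i - (l + η) * ((h : ℝ) ^ i * (i * (h / ((r : ℝ) + 1)))) := by ring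
    rw [h7] at h6
    linarith only [herr, h6]
  have hpi : (h : ℝ) ≤ (h : ℝ) ^ i := le_self_pow₀ hh0 (by omega)
  have hηi : 4 ≤ η * (h : ℝ) ^ i := le_trans hηh (by gcongr)
  constructor
  · have h8 : (l + η / 4) * (h : ℝ) ^ i + 2 ≤ (l + η) * (h : ℝ) ^ i - 1 := by nlinarith only [hηi]
    linarith only [hmain, hηi]
  · have h9 : (1 : ℝ) ≤ (n : ℝ) / (N.choose i : ℝ) := by
      refine le_trans ?_ hmain
      have : 0 ≤ l * (h : ℝ) ^ i := by positivity
      nlinarith only [hηi, this]
    rw [le_div_iff₀ hC0, one_mul] at h9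
    exact_mod_cast h9

/-- The number of killers is at most one per subset. -/
lemma killers (d h N e₀ : ℕ) (he₀ : 2 ≤ e₀) (hed : e₀ ≤ d)
    (hN : 2 ^ (d * h + d) * d + d ≤ N) :
    N.choose (e₀ - 1) * ((e₀ - 1) * h - 1 + e₀).choose e₀ ≤ N.choose e₀ := by
  set M := ((e₀ - 1) * h - 1 + e₀).choose e₀ with hM
  have hM1 : M ≤ 2 ^ (d * h + d) := by
    refine (Nat.choose_le_two_pow _ _).trans ?_
    apply Nat.pow_le_pow_right (by norm_num)
    have : (e₀ - 1) * h ≤ d * h := Nat.mul_le_mul_right h (by omega)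
    omega
  obtain ⟨k, rfl⟩ : ∃ k, e₀ = k + 1 := ⟨e₀ - 1, by omega⟩
  simp only [Nat.add_sub_cancel] at hM ⊢
  have h1 := Nat.choose_succ_right_eq N k
  have h2 : M * (k + 1) ≤ N - k := by
    have : M * (k + 1) ≤ 2 ^ (d * h + d) * d := Nat.mul_le_mul hM1 hed
    omega
  have h3 : N.choose k * M * (k + 1) ≤ N.choose (k + 1) * (k + 1) := by
    rw [h1, mul_assoc]
    exact Nat.mul_le_mul_left _ h2
  exact Nat.le_of_mul_le_mul_right h3 (by omega)

end SpanMainX

open SpanMainX in
/-- The spanning theorem. -/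
theorem span_main (d : ℕ) (hd : 1 ≤ d) (η : ℝ) (hη : 0 < η) : ∃ r₀ : ℕ, ∀ r : ℕ, r₀ ≤ r →
    ∀ (P : Type) [Fintype P] (e : P → ℕ) (lam : ℕ → ℝ), (∀ i, 0 ≤ lam i ∧ lam i ≤ 1) →
    (∃ j ≤ d, phi lam j ≤ 0) →
    (∀ i, 1 ≤ i → i ≤ d → 0 < lam i → (lam i + η) * ((r : ℝ) + 1) ^ i / (i.factorial : ℝ) ≤
      (Finset.univ.filter (fun p => e p = i)).card) →
    ∃ w : P → Fin (r + 1) → ℂ, homogeneousSubmodule (Fin (r + 1)) ℂ d ≤ powSpan d w e := by
  obtain ⟨W, hW⟩ := span_blocks d (η / 4) (by positivity)
  obtain ⟨h, hWh, hh, hηh⟩ : ∃ h : ℕ, W ≤ h ∧ 1 ≤ h ∧ 4 ≤ η * h := by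
    refine ⟨max W (max 1 ⌈4 / η⌉₊), le_max_left _ _, le_trans (le_max_left _ _) (le_max_right _ _), ?_⟩
    have h1 : 4 / η ≤ (⌈4 / η⌉₊ : ℝ) := Nat.le_ceil _
    have h2 : (⌈4 / η⌉₊ : ℝ) ≤ ((max W (max 1 ⌈4 / η⌉₊) : ℕ) : ℝ) := by
      exact_mod_cast le_trans (le_max_right _ _) (le_max_right _ _)
    have h3 : 4 / η ≤ ((max W (max 1 ⌈4 / η⌉₊) : ℕ) : ℝ) := h1.trans h2
    rw [div_le_iff₀ hη] at h3
    linarith only [h3]
  set M : ℕ := 2 ^ (d * h + d) * d + d with hM
  refine ⟨max (h * M) ⌈(1 + η) * (h : ℝ) ^ (d + 1) * d⌉₊, ?_⟩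
  intro r hr P _ e lam hlam hphi hcount
  by_cases hcase : ∃ e₀, 2 ≤ e₀ ∧ e₀ ≤ d ∧ 0 < lam e₀
  swap
  · apply case_one d hd η hη r P e lam hlam hphi _ hcount
    intro i h2 hid
    by_contra hne
    exact hcase ⟨i, h2, hid, lt_of_le_of_ne (hlam i).1 (Ne.symm hne)⟩
  obtain ⟨e₀, he2, hed, hle0⟩ := hcase
  set N : ℕ := (r + h) / h with hNdef
  obtain ⟨hN1, hN2⟩ := ceil_bounds h r hh
  rw [← hNdef] at hN1 hN2
  have hrM : h * M ≤ r := le_trans (le_max_left _ _) hr
  have hrη : (1 + η) * (h : ℝ) ^ (d + 1) * d ≤ (r : ℝ) + 1 := by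
    have h1 : ⌈(1 + η) * (h : ℝ) ^ (d + 1) * d⌉₊ ≤ r := le_trans (le_max_right _ _) hr
    have h2 := Nat.le_ceil ((1 + η) * (h : ℝ) ^ (d + 1) * d)
    have h3 : ((⌈(1 + η) * (h : ℝ) ^ (d + 1) * d⌉₊ : ℕ) : ℝ) ≤ (r : ℝ) := by exact_mod_cast h1
    linarith only [h2, h3]
  have hMN : M ≤ N := by
    have h1 : M * h ≤ N * h := by
      calc M * h = h * M := mul_comm _ _
        _ ≤ r := hrM
        _ ≤ N * h := by omega
    exact Nat.le_of_mul_le_mul_right h1 (by omega)
  have hdN : d ≤ N := by omega
  -- numerical facts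
  have hnum : ∀ i, 1 ≤ i → i ≤ d → 0 < lam i →
      (lam i + η / 4) * (h : ℝ) ^ i ≤
        (((Finset.univ.filter (fun p => e p = i)).card : ℝ) / (N.choose i : ℝ)) - 2 ∧
      N.choose i ≤ (Finset.univ.filter (fun p => e p = i)).card := by
    intro i h1 h2 h3
    exact num_est d η hη h hh hηh r hrη N hN1 hN2 i h1 h2 (by omega) (lam i) (hlam i).1 (hlam i).2 _
      (hcount i h1 h2 h3)
  have hkill := killers d h N e₀ he2 hed hMN
  set K1 : ℕ := N.choose (e₀ - 1) * ((e₀ - 1) * h - 1 + e₀).choose e₀ with hK1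
  -- the killers
  obtain ⟨K, hKsub, hKcard⟩ := Finset.exists_subset_card_eq
    (hkill.trans (hnum e₀ (by omega) hed hle0).2)
  -- the other points
  let α : Type := {p : P // p ∉ K ∧ 1 ≤ e p ∧ e p ≤ d}
  have hbal : ∀ i : ℕ, i ≤ N → ∃ f : {p : α // e p.1 = i} → {T : Finset (Fin N) // T.card = i},
      ∀ T, Fintype.card {p : α // e p.1 = i} / N.choose i ≤
        (Finset.univ.filter (fun x => f x = T)).card := by
    intro i hi
    have hne : Nonempty {T : Finset (Fin N) // T.card = i} := by
      obtain ⟨T, -, hT⟩ := Finset.exists_subset_card_eq (s := (Finset.univ : Finset (Fin N)))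
        (n := i) (by simpa using hi)
      exact ⟨⟨T, hT⟩⟩
    obtain ⟨f, hf⟩ := exists_balanced' (X := {p : α // e p.1 = i})
      (Y := {T : Finset (Fin N) // T.card = i})
    refine ⟨f, fun T => ?_⟩
    have hcY : Fintype.card {T : Finset (Fin N) // T.card = i} = N.choose i := by
      rw [Fintype.card_finset_len, Fintype.card_fin]
    rw [← hcY]
    convert hf T
  choose f hf using hbal
  have hαN : ∀ p : α, e p.1 ≤ N := fun p => le_trans p.2.2.2 hdN
  let c : α → Finset (Fin N) := fun p => (f (e p.1) (hαN p) ⟨p, rfl⟩).1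
  have hc : ∀ p, (c p).card = e p.1 := fun p => (f (e p.1) (hαN p) ⟨p, rfl⟩).2
  have hcne : ∀ p, (c p).Nonempty := by
    intro p
    rw [← Finset.card_pos, hc p]
    exact p.2.2.1
  have hcast : ∀ (i : ℕ) (hi : i ≤ N) (x : {p : α // e p.1 = i}), c x.1 = (f i hi x).1 := by
    rintro i hi ⟨p, hp⟩
    subst hp
    rfl
  have hcountα : ∀ i, 1 ≤ i → i ≤ d →
      (Finset.univ.filter (fun p : P => e p = i)).card ≤
        Fintype.card {p : α // e p.1 = i} + N.choose i := by
    intro i hi hid
    by_cases hie : i = e₀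
    · have h1 : (Finset.univ.filter (fun p : P => e p = i) \ K).card ≤
          Fintype.card {p : α // e p.1 = i} := by
        rw [← Fintype.card_coe]
        apply Fintype.card_le_of_injective
          (fun x : ↥(Finset.univ.filter (fun p : P => e p = i) \ K) =>
            (⟨⟨x.1, (Finset.mem_sdiff.1 x.2).2, by
              have := (Finset.mem_filter.1 (Finset.mem_sdiff.1 x.2).1).2
              omega, by
              have := (Finset.mem_filter.1 (Finset.mem_sdiff.1 x.2).1).2
              omega⟩, (Finset.mem_filter.1 (Finset.mem_sdiff.1 x.2).1).2⟩ :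
              {p : α // e p.1 = i}))
        intro x y hxy
        have := congrArg (fun z : {p : α // e p.1 = i} => z.1.1) hxy
        exact Subtype.ext this
      have h2 := Finset.le_card_sdiff K (Finset.univ.filter (fun p : P => e p = i))
      rw [hKcard] at h2
      rw [hie] at h1 h2 ⊢
      omega
    · have h1 : (Finset.univ.filter (fun p : P => e p = i)).card ≤
          Fintype.card {p : α // e p.1 = i} := by
        rw [← Fintype.card_coe]
        apply Fintype.card_le_of_injective
          (fun x : ↥(Finset.univ.filter (fun p : P => e p = i)) =>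
            (⟨⟨x.1, fun hxK => hie (by
              have h3 := (Finset.mem_filter.1 (hKsub hxK)).2
              have h4 := (Finset.mem_filter.1 x.2).2
              omega), by
              have := (Finset.mem_filter.1 x.2).2
              omega, by
              have := (Finset.mem_filter.1 x.2).2
              omega⟩, (Finset.mem_filter.1 x.2).2⟩ :
              {p : α // e p.1 = i}))
        intro x y hxy
        have := congrArg (fun z : {p : α // e p.1 = i} => z.1.1) hxy
        exact Subtype.ext this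
      omega
  have hT : ∀ T : Finset (Fin N), T.Nonempty → T.card ≤ d → 0 < lam T.card →
      (lam T.card + η / 4) * (Fintype.card (Fin h) : ℝ) ^ T.card ≤
        (Finset.univ.filter (fun p => c p = T)).card := by
    intro T hTne hTd hlT
    have hT1 : 1 ≤ T.card := Finset.card_pos.2 hTne
    have hTN : T.card ≤ N := by omega
    obtain ⟨hn1, -⟩ := hnum T.card hT1 hTd hlT
    rw [Fintype.card_fin]
    refine hn1.trans ?_
    have h1 := hcountα T.card hT1 hTd
    have h2 := hf T.card hTN ⟨T, rfl⟩
    have h3 : (Finset.univ.filter (fun x => f T.card hTN x = ⟨T, rfl⟩)).card ≤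
        (Finset.univ.filter (fun p : α => c p = T)).card := by
      apply Finset.card_le_card_of_injOn (fun x => x.1)
      · intro x hx
        simp only [Finset.coe_filter, Finset.mem_univ, true_and, Set.mem_ofPred_eq] at hx ⊢
        rw [hcast T.card hTN x, hx]
      · intro x _ y _ hxy
        exact Subtype.ext hxy
    have hC : 0 < N.choose T.card := Nat.choose_pos hTN
    have hC0 : (0 : ℝ) < (N.choose T.card : ℝ) := by exact_mod_cast hC
    have h4 : ((Fintype.card {p : α // e p.1 = T.card} : ℕ) : ℝ) / (N.choose T.card : ℝ) - 1 ≤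
        ((Fintype.card {p : α // e p.1 = T.card} / N.choose T.card : ℕ) : ℝ) := by
      have h5 := Nat.lt_div_mul_add (a := Fintype.card {p : α // e p.1 = T.card}) hC
      have h6 : ((Fintype.card {p : α // e p.1 = T.card} : ℕ) : ℝ) ≤
          ((Fintype.card {p : α // e p.1 = T.card} / N.choose T.card : ℕ) : ℝ) *
            (N.choose T.card : ℝ) + (N.choose T.card : ℝ) := by exact_mod_cast h5.le
      rw [sub_le_iff_le_add, div_le_iff₀ hC0]
      linarith only [h6]
    have h7 : ((Finset.univ.filter (fun p : P => e p = T.card)).card : ℝ) / (N.choose T.card : ℝ) ≤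
        ((Fintype.card {p : α // e p.1 = T.card} : ℕ) : ℝ) / (N.choose T.card : ℝ) + 1 := by
      rw [div_le_iff₀ hC0, add_mul, div_mul_cancel₀ _ hC0.ne', one_mul]
      exact_mod_cast h1
    have h8 : ((Fintype.card {p : α // e p.1 = T.card} / N.choose T.card : ℕ) : ℝ) ≤
        ((Finset.univ.filter (fun p : α => c p = T)).card : ℝ) := by
      exact_mod_cast h2.trans h3
    linarith only [h4, h7, h8]
  obtain ⟨w', hw'⟩ := hW (Fin h) (by rw [Fintype.card_fin]; exact hWh) N e₀ he2 hed hdN
    {p : P // p ∈ K} (by rw [Fintype.card_fin, Fintype.card_coe, hKcard]) α c hcne lam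
    (fun i => (hlam i).1) hphi hT
  -- restriction
  have hcardle : Fintype.card (Fin (r + 1)) ≤ Fintype.card (Fin N × Fin h) := by
    rw [Fintype.card_prod, Fintype.card_fin, Fintype.card_fin, Fintype.card_fin]
    exact hN1
  obtain ⟨g⟩ := Function.Embedding.nonempty_of_card_le hcardle
  have h5 := span_restrict (g : Fin (r + 1) → Fin N × Fin h) g.injective d w' _ hw'
  let ι : {p : P // p ∈ K} ⊕ α → P := Sum.elim (fun x => x.1) (fun x => x.1)
  have hι : Function.Injective ι := by
    rintro (x | x) (y | y) hxy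
    · exact congrArg Sum.inl (Subtype.ext hxy)
    · exfalso
      have h6 : x.1 = y.1 := hxy
      exact y.2.1 (h6 ▸ x.2)
    · exfalso
      have h6 : x.1 = y.1 := hxy
      exact x.2.1 (h6 ▸ y.2)
    · exact congrArg Sum.inr (Subtype.ext hxy)
  refine ⟨_, h5.trans (transport d e _ ι hι ?_ _)⟩
  rintro (x | x)
  · exact (Finset.mem_filter.1 (hKsub x.2)).2
  · exact (hc x).symm

end Pool.Agent.H21.HD

end

section

/-!
Vanishing outside the region.
-/

namespace Pool.Agent.H21.HD

open MvPolynomial Pool.Agent.H18.Fat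
open scoped Classical

namespace VanishX

/-- `phi` depends only on the loads `1, …, j`. -/
lemma phi_congr {κ κ' : ℕ → ℝ} : ∀ j : ℕ, (∀ i, 1 ≤ i → i ≤ j → κ i = κ' i) →
    phi κ j = phi κ' j := by
  intro j
  induction j using Nat.strong_induction_on with
  | _ j ih =>
    intro h
    cases j with
    | zero => rw [phi, phi]
    | succ j =>
      rw [phi, phi, ih j (Nat.lt_succ_self j) fun i h1 h2 => h i h1 (by omega)]
      congr 1
      refine Finset.sum_congr rfl fun e _ => ?_
      have he := e.2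
      rw [h (e + 1) (by omega) (by omega), ih (j - e) (by omega) fun i h1 h2 => h i h1 (by omega)]

lemma load_nonneg {P : Type} (r : ℕ) (e : P → ℕ) (I : Finset P) (i : ℕ) : 0 ≤ load r e I i := by
  unfold load
  positivity

/-- The case distinction: loads `lam ≤ 1` outside the region, dominated with a margin. -/
lemma exists_lam (j : ℕ) (η : ℝ) (hη : 0 < η) : ∃ η' : ℝ, 0 < η' ∧ ∃ r₀ : ℕ, ∀ r : ℕ, r₀ ≤ r →
    ∀ (P : Type) (e : P → ℕ) (I : Finset P), (∀ i ∈ I, 1 ≤ e i) →
    (fro r e I j : ℝ) ≤ - (η * ((j + r).choose r : ℝ)) →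
    ∃ lam : ℕ → ℝ, (∀ i, 0 ≤ lam i ∧ lam i ≤ 1) ∧ (∃ i ≤ j, phi lam i ≤ 0) ∧
      ∀ i, 1 ≤ i → i ≤ j → 0 < lam i → lam i + η' ≤ load r e I i := by
  obtain ⟨L, hL0, hL⟩ := phi_lipschitz j 2
  obtain ⟨r₀, hr₀⟩ := fro_asymp j 2 (η / 2) (by linarith)
  set η' : ℝ := min 1 (η / 2 / (L + 1)) with hη'
  have hL1 : 0 < L + 1 := by linarith
  have hη'0 : 0 < η' := lt_min one_pos (by positivity)
  have hη'1 : η' ≤ 1 := min_le_left _ _
  have hη'2 : L * η' ≤ η / 2 := by
    have h1 : η' ≤ η / 2 / (L + 1) := min_le_right _ _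
    calc L * η' ≤ (L + 1) * η' := by nlinarith
      _ ≤ (L + 1) * (η / 2 / (L + 1)) := mul_le_mul_of_nonneg_left h1 hL1.le
      _ = η / 2 := by field_simp
  refine ⟨η', hη'0, r₀, fun r hr P e I he hfro => ?_⟩
  by_cases hbig : ∃ i, 1 ≤ i ∧ i ≤ j ∧ 2 < load r e I i
  · obtain ⟨i, hi1, hi2, hi3⟩ := hbig
    refine ⟨fun t => if t = i then 1 else 0, ?_, ⟨i, hi2, (phi_single i hi1).le⟩, ?_⟩
    · intro t
      simp only
      split_ifs <;> norm_num
    · intro t _ _ h3
      simp only at h3 ⊢
      split_ifs at h3 ⊢ with h4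
      · subst h4
        linarith
      · exact absurd h3 (lt_irrefl _)
  · push Not at hbig
    set κ : ℕ → ℝ := fun i => if 1 ≤ i ∧ i ≤ j then load r e I i else 0 with hκ
    have hκ0 : ∀ i, 0 ≤ κ i ∧ κ i ≤ 2 := by
      intro i
      simp only [hκ]
      split_ifs with h1
      · exact ⟨load_nonneg r e I i, hbig i h1.1 h1.2⟩
      · norm_num
    have hκload : phi κ j = phi (load r e I) j := by
      apply phi_congr
      intro i h1 h2
      simp only [hκ]
      rw [if_pos ⟨h1, h2⟩]
    have hs : (0 : ℝ) < ((j + r).choose r : ℝ) := by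
      exact_mod_cast Nat.choose_pos (by omega)
    have h1 := hr₀ r hr P e I he (fun i h1 h2 => hbig i h1 h2)
    rw [← hκload] at h1
    have h2 : phi κ j ≤ - (η / 2) := by
      have h3 := (abs_le.1 h1).1
      have h4 : phi κ j * ((j + r).choose r : ℝ) ≤ - (η / 2) * ((j + r).choose r : ℝ) := by
        linarith
      exact le_of_mul_le_mul_right h4 hs
    set lam₀ : ℕ → ℝ := fun i => max (κ i - η') 0 with hlam₀
    have hlam₀b : ∀ i, 0 ≤ lam₀ i ∧ lam₀ i ≤ 2 := by
      intro i
      have := hκ0 i
      refine ⟨le_max_right _ _, max_le (by linarith) (by norm_num)⟩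
    have hdiff : ∀ i, |κ i - lam₀ i| ≤ η' := by
      intro i
      have := hκ0 i
      simp only [hlam₀]
      rcases le_total (κ i - η') 0 with h3 | h3
      · rw [max_eq_right h3, abs_le]
        constructor <;> linarith
      · rw [max_eq_left h3, abs_le]
        constructor <;> linarith
    have h3 := hL κ lam₀ hκ0 hlam₀b η' hdiff
    have h4 : phi lam₀ j ≤ 0 := by
      have h5 := (abs_le.1 h3).1
      linarith
    obtain ⟨i, hi, h5⟩ := phi_cap j lam₀ (fun i => (hlam₀b i).1) ⟨j, le_rfl, h4⟩
    refine ⟨fun i => min (lam₀ i) 1, fun i => ⟨le_min (hlam₀b i).1 zero_le_one, min_le_right _ _⟩,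
      ⟨i, hi, h5⟩, ?_⟩
    intro t ht1 ht2 ht3
    simp only at ht3 ⊢
    have h6 : 0 < lam₀ t := lt_of_lt_of_le ht3 (min_le_left _ _)
    have h7 : lam₀ t = κ t - η' := by
      simp only [hlam₀] at h6 ⊢
      rcases le_total (κ t - η') 0 with h8 | h8
      · rw [max_eq_right h8] at h6
        exact absurd h6 (lt_irrefl _)
      · exact max_eq_left h8
    have h8 : κ t = load r e I t := by
      simp only [hκ]
      rw [if_pos ⟨ht1, ht2⟩]
    have h9 : min (lam₀ t) 1 ≤ lam₀ t := min_le_left _ _
    linarith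

end VanishX

open VanishX

/-- Outside the region no form vanishes at the fat points. -/
theorem vanish_general (j d : ℕ) (hjd : j ≤ d) (η : ℝ) (hη : 0 < η) : ∃ r₀ : ℕ, ∀ r : ℕ, r₀ ≤ r →
    ∀ (k : ℕ) (e : Fin k → ℕ), (∀ i, 1 ≤ e i) → ∀ I : Finset (Fin k),
    (fro r e I j : ℝ) ≤ - (η * ((j + r).choose r : ℝ)) →
    ForGeneralPoints r k fun p =>
      Module.finrank ℂ (fatForms r d p (fun i => if i ∈ I then d + 1 - e i else 0)) = 0 := by
  rcases Nat.eq_zero_or_pos j with hj0 | hj1
  · -- degree zero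
    subst hj0
    refine ⟨0, fun r _ k e he I hfro => ?_⟩
    exfalso
    have h1 : fro r e I 0 = 1 := by
      unfold fro
      rw [Finset.sum_eq_single ∅]
      · simp
      · intro T hT hne
        obtain ⟨i, hi⟩ := Finset.nonempty_iff_ne_empty.2 hne
        rw [if_neg, mul_zero]
        have h2 : e i ≤ ∑ i ∈ T, e i := Finset.single_le_sum (fun _ _ => Nat.zero_le _) hi
        have h3 := he i
        omega
      · intro h2
        exact absurd (Finset.empty_mem_powerset I) h2
    rw [h1] at hfro
    have h2 : (0 : ℝ) ≤ η * ((0 + r).choose r : ℝ) := by positivity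
    norm_num at hfro
    linarith
  obtain ⟨η', hη', r₁, h₁⟩ := exists_lam j η hη
  obtain ⟨r₂, h₂⟩ := span_main j hj1 η' hη'
  refine ⟨max r₁ r₂, fun r hr k e he I hfro => ?_⟩
  obtain ⟨lam, hlam, hphi, hload⟩ := h₁ r ((le_max_left _ _).trans hr) (Fin k) e I
    (fun i _ => he i) hfro
  obtain ⟨w, hw⟩ := h₂ r ((le_max_right _ _).trans hr) {i : Fin k // i ∈ I} (fun i => e i.1) lam
    hlam hphi (by
      intro i hi1 hi2 hi3
      have h3 := hload i hi1 hi2 hi3
      have hr1 : (0 : ℝ) < ((r : ℝ) + 1) ^ i := by positivity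
      have hf : (0 : ℝ) < (i.factorial : ℝ) := by exact_mod_cast i.factorial_pos
      have hcard : ((Finset.univ.filter (fun p : {i : Fin k // i ∈ I} => e p.1 = i)).card : ℝ) =
          ((I.filter (fun p => e p = i)).card : ℝ) := by
        congr 1
        rw [← Finset.card_map (Function.Embedding.subtype _)]
        congr 1
        ext x
        simp only [Finset.mem_map, Finset.mem_filter, Finset.mem_univ, true_and,
          Function.Embedding.subtype_apply, Subtype.exists, exists_and_right, exists_eq_right]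
        constructor
        · rintro ⟨h4, h5⟩
          exact ⟨h4, h5⟩
        · rintro ⟨h4, h5⟩
          exact ⟨h4, h5⟩
      rw [hcard]
      unfold load at h3
      rw [le_div_iff₀ hr1] at h3
      rw [div_le_iff₀ hf]
      linarith)
  -- the special points
  let p₀ : Fin k → Fin (r + 1) → ℂ := fun i => if h : i ∈ I then w ⟨i, h⟩ else 0
  have h4 : homogeneousSubmodule (Fin (r + 1)) ℂ d ≤
      powSpan d p₀ (fun i => d + 1 - (if i ∈ I then d + 1 - e i else 0)) := by
    refine (powSpan_up j d hjd w _ hw).trans ?_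
    -- points with exponent larger than `d` do not contribute
    unfold powSpan
    apply Submodule.span_mono
    rintro F ⟨p, g, hp, hg, rfl⟩
    simp only at hp hg ⊢
    have he1 := he p.1
    have h5 : d + 1 - (if p.1 ∈ I then d + 1 - e p.1 else 0) = e p.1 := by
      rw [if_pos p.2]
      omega
    have h6 : p₀ p.1 = w p := by
      simp only [p₀]
      rw [dif_pos p.2]
    refine ⟨p.1, g, ?_, ?_, ?_⟩
    · simp only [h5]; exact hp
    · simp only [h5]; exact hg
    · simp only [h5, h6]
  have h5 := fat_eq_bot_of_span d p₀ _ h4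
  refine (general_finrank_le d p₀ (fun i => if i ∈ I then d + 1 - e i else 0)).mono
    fun p hp => ?_
  rw [h5] at hp
  exact Nat.le_zero.1 hp

end Pool.Agent.H21.HD

end

section

/-!
Upper bound.
-/

namespace Pool.Agent.H21.HD

open MvPolynomial Pool.Agent.H18.Fat
open scoped Classical

namespace UpperX

lemma exists_point {r k : ℕ} {P : (Fin k → Fin (r + 1) → ℂ) → Prop}
    (h : ForGeneralPoints r k P) : ∃ p, P p := by
  obtain ⟨G, hG, hG'⟩ := h
  obtain ⟨x, hx⟩ := exists_common {0} (fun _ => G) (by simpa using hG)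
  refine ⟨fun i j => x (i, j), hG' _ ?_⟩
  have := hx 0 (Finset.mem_singleton_self 0)
  simpa using this

end UpperX

open UpperX

/-- Upper bound. -/
theorem upper_general (d : ℕ) (η : ℝ) (hη : 0 < η) : ∃ r₀ : ℕ, ∀ r : ℕ, r₀ ≤ r →
    ∀ (k : ℕ) (e : Fin k → ℕ), (∀ i, 1 ≤ e i) → ∀ I : Finset (Fin k),
    0 ≤ (fro r e I d : ℝ) + η * ((d + r).choose r : ℝ) →
    ForGeneralPoints r k fun p =>
      (Module.finrank ℂ (fatForms r d p (fun i => if i ∈ I then d + 1 - e i else 0)) : ℝ) ≤
        (fro r e I d : ℝ) + η * ((d + r).choose r : ℝ) := by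
  rcases Nat.eq_zero_or_pos d with hd0 | hd1
  · subst hd0
    refine ⟨0, fun r _ k e he I _ => ?_⟩
    refine (general_finrank_le 0 (fun _ _ => 0)
      (fun i => if i ∈ I then 0 + 1 - e i else 0)).mono fun p _ => ?_
    have h1 := rank_full_add_finrank (d := 0) p (fun i => if i ∈ I then 0 + 1 - e i else 0)
    have h2 : (0 + r).choose r = 1 := by simp
    rw [h2] at h1
    have h3 : Module.finrank ℂ (fatForms r 0 p (fun i => if i ∈ I then 0 + 1 - e i else 0)) ≤ 1 :=
      by omega
    have h4 : (Module.finrank ℂ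
        (fatForms r 0 p (fun i => if i ∈ I then 0 + 1 - e i else 0)) : ℝ) ≤ 1 := by
      exact_mod_cast h3
    rw [fro_zero r e I fun i _ => he i, h2]
    push_cast
    linarith
  obtain ⟨r₁, h₁⟩ := vanish_general d d le_rfl (η / 2) (by linarith)
  refine ⟨max (max r₁ 1) ⌈2 / η⌉₊, fun r hr k e he I hpos => ?_⟩
  have hr1 : r₁ ≤ r := (le_max_left _ _).trans ((le_max_left _ _).trans hr)
  have hr2 : 1 ≤ r := (le_max_right _ _).trans ((le_max_left _ _).trans hr)
  have hr3 : 2 / η ≤ (r : ℝ) := (Nat.le_ceil _).trans (by exact_mod_cast (le_max_right _ _).trans hr)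
  have hs : (r : ℝ) ≤ ((d + r).choose r : ℝ) := by
    have h1 : (1 + r).choose r ≤ (d + r).choose r := Nat.choose_le_choose r (by omega)
    have h2 : (1 + r).choose r = r + 1 := by
      rw [add_comm, Nat.choose_succ_self_right]
    rw [h2] at h1
    have : r ≤ (d + r).choose r := by omega
    exact_mod_cast this
  have hs1 : 1 ≤ η / 2 * ((d + r).choose r : ℝ) := by
    have h1 : η / 2 * (2 / η) = 1 := by field_simp
    calc (1 : ℝ) = η / 2 * (2 / η) := h1.symm
      _ ≤ η / 2 * ((d + r).choose r : ℝ) :=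
        mul_le_mul_of_nonneg_left (hr3.trans hs) (by linarith)
  set D : ℝ := ((d + r).choose r : ℝ) with hD
  set s : ℕ := ⌈(fro r e I d : ℝ) + η / 2 * D⌉₊ with hsdef
  have hs2 : (s : ℝ) ≤ (fro r e I d : ℝ) + η * D := by
    rcases le_or_gt 0 ((fro r e I d : ℝ) + η / 2 * D) with h1 | h1
    · have h2 := Nat.ceil_lt_add_one h1
      rw [← hsdef] at h2
      linarith
    · have h2 : s = 0 := by
        rw [hsdef]
        exact Nat.ceil_eq_zero.2 h1.le
      rw [h2]
      push_cast
      exact hpos
  have hs3 : (fro r e I d : ℝ) + η / 2 * D ≤ s := Nat.le_ceil _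
  -- the enlarged family
  let e' : Fin (k + s) → ℕ := Fin.append e (fun _ => d)
  let I' : Finset (Fin (k + s)) := I.map (Fin.castAddEmb s) ∪ Finset.univ.map (Fin.natAddEmb k)
  have hdisj : Disjoint (I.map (Fin.castAddEmb s)) (Finset.univ.map (Fin.natAddEmb k)) := by
    rw [Finset.disjoint_left]
    intro x hx hx'
    obtain ⟨a, -, rfl⟩ := Finset.mem_map.1 hx
    obtain ⟨b, -, hb⟩ := Finset.mem_map.1 hx'
    have h1 := congrArg Fin.val hb
    simp at h1
    have := a.2
    omega
  have he'1 : ∀ i : Fin k, e' (Fin.castAdd s i) = e i := fun i => Fin.append_left _ _ i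
  have he'2 : ∀ i : Fin s, e' (Fin.natAdd k i) = d := fun i => Fin.append_right _ _ i
  have he' : ∀ i, 1 ≤ e' i := by
    intro i
    refine Fin.addCases (fun i => ?_) (fun i => ?_) i
    · rw [he'1]; exact he i
    · rw [he'2]; exact hd1
  have hfro : fro r e' I' d = fro r e I d - s := by
    have h1 := fro_simple' r d e' (I.map (Fin.castAddEmb s)) (Finset.univ.map (Fin.natAddEmb k))
      hdisj (fun i _ => he' i) hd1 (by
        intro i hi
        obtain ⟨b, -, rfl⟩ := Finset.mem_map.1 hi
        exact he'2 b)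
    rw [fro_map] at h1
    have h2 : (fun p => e' ((Fin.castAddEmb s) p)) = e := by
      funext i
      exact he'1 i
    rw [h2, Finset.card_map, Finset.card_univ, Fintype.card_fin] at h1
    exact h1
  have h2 := h₁ r hr1 (k + s) e' he' I' (by
    rw [hfro]
    push_cast
    linarith)
  obtain ⟨p', hp'1, hp'2⟩ := exists_point (h2.and (ForGeneralPoints.coord_ne_zero r (k + s)))
  let p₀ : Fin k → Fin (r + 1) → ℂ := fun i => p' (Fin.castAdd s i)
  have h3 := finrank_add_length_ge (d := d) hr2 p₀ (fun i => if i ∈ I then d + 1 - e i else 0)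
    (fun j : Fin s => p' (Fin.natAdd k j)) (fun j => hp'2 _ 0) (fun _ => 1)
  have h4 : Module.finrank ℂ (fatForms r d (Sum.elim p₀ (fun j : Fin s => p' (Fin.natAdd k j)))
      (Sum.elim (fun i => if i ∈ I then d + 1 - e i else 0) (fun _ => 1))) ≤
      Module.finrank ℂ (fatForms r d p' (fun i => if i ∈ I' then d + 1 - e' i else 0)) := by
    apply Submodule.finrank_mono
    rintro F ⟨hF1, hF2⟩
    refine ⟨hF1, fun i => ?_⟩
    refine Fin.addCases (fun i => ?_) (fun i => ?_) i
    · have h5 := hF2 (Sum.inl i)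
      simp only [Sum.elim_inl] at h5
      have h6 : (Fin.castAdd s i ∈ I') ↔ i ∈ I := by
        simp only [I', Finset.mem_union, Finset.mem_map, Finset.mem_univ, true_and]
        constructor
        · rintro (⟨a, ha, hab⟩ | ⟨b, hb⟩)
          · have h7 := (Fin.castAddEmb s).injective hab
            rw [← h7]
            exact ha
          · exfalso
            have h7 := congrArg Fin.val hb
            simp at h7
            have := i.2
            omega
        · intro hi
          exact Or.inl ⟨i, hi, rfl⟩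
      have h7 : (if Fin.castAdd s i ∈ I' then d + 1 - e' (Fin.castAdd s i) else 0) =
          if i ∈ I then d + 1 - e i else 0 := by
        rw [he'1]
        by_cases hi : i ∈ I
        · rw [if_pos hi, if_pos (h6.2 hi)]
        · rw [if_neg hi, if_neg (fun h => hi (h6.1 h))]
      change VanishesToOrder F (p' (Fin.castAdd s i))
        (if Fin.castAdd s i ∈ I' then d + 1 - e' (Fin.castAdd s i) else 0)
      rw [h7]
      exact h5
    · have h5 := hF2 (Sum.inr i)
      simp only [Sum.elim_inr] at h5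
      have h6 : Fin.natAdd k i ∈ I' := by
        simp only [I', Finset.mem_union, Finset.mem_map, Finset.mem_univ, true_and]
        exact Or.inr ⟨i, rfl⟩
      change VanishesToOrder F (p' (Fin.natAdd k i))
        (if Fin.natAdd k i ∈ I' then d + 1 - e' (Fin.natAdd k i) else 0)
      rw [if_pos h6, he'2]
      have h7 : d + 1 - d = 1 := by omega
      rw [h7]
      exact h5
  have h5 : Module.finrank ℂ (fatForms r d p₀ (fun i => if i ∈ I then d + 1 - e i else 0)) ≤ s := by
    have h6 : ∑ _j : Fin s, (1 + r - 1).choose r = s := by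
      have h7 : (1 + r - 1).choose r = 1 := by
        have : 1 + r - 1 = r := by omega
        rw [this, Nat.choose_self]
      simp only [h7, Finset.sum_const, Finset.card_univ, Fintype.card_fin, smul_eq_mul, mul_one]
    rw [h6] at h3
    omega
  refine (general_finrank_le d p₀ (fun i => if i ∈ I then d + 1 - e i else 0)).mono fun p hp => ?_
  have h6 : Module.finrank ℂ (fatForms r d p (fun i => if i ∈ I then d + 1 - e i else 0)) ≤ s :=
    hp.trans h5
  have h7 : (Module.finrank ℂ
      (fatForms r d p (fun i => if i ∈ I then d + 1 - e i else 0)) : ℝ) ≤ s := by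
    exact_mod_cast h6
  exact h7.trans hs2

end Pool.Agent.H21.HD

end

section

/-!
Lower bound.
-/

namespace Pool.Agent.H21.HD

open MvPolynomial Pool.Agent.H18.Fat
open scoped Classical

namespace LowerX

/-- A finite conjunction of general properties is general. -/
lemma forGeneral_forall {r k : ℕ} {κ : Type} (S : Finset κ)
    (P : κ → (Fin k → Fin (r + 1) → ℂ) → Prop) (h : ∀ a ∈ S, ForGeneralPoints r k (P a)) :
    ForGeneralPoints r k fun p => ∀ a ∈ S, P a p := by
  induction S using Finset.induction_on with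
  | empty => exact ⟨1, one_ne_zero, fun p _ a ha => absurd ha (Finset.notMem_empty a)⟩
  | insert a s ha ih =>
    refine ((h a (Finset.mem_insert_self a s)).and
      (ih fun b hb => h b (Finset.mem_insert_of_mem hb))).mono ?_
    rintro p ⟨h1, h2⟩ b hb
    rcases Finset.mem_insert.1 hb with rfl | hb
    · exact h1
    · exact h2 b hb

lemma choose_step (r j : ℕ) :
    ((r : ℝ) + 1) * ((j + r).choose r : ℝ) ≤ ((j : ℝ) + 1) * ((j + 1 + r).choose r : ℝ) := by
  have h1 : (j + 1) * (j + 1 + r).choose r = (j + 1 + r) * (j + r).choose r := by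
    have h2 := Nat.add_one_mul_choose_eq (j + r) j
    have h3 : (j + r).choose j = (j + r).choose r := Nat.choose_symm_add
    have h4 : (j + r + 1).choose (j + 1) = (j + 1 + r).choose r := by
      have : j + r + 1 = j + 1 + r := by ring
      rw [this]
      exact Nat.choose_symm_add
    rw [h3, h4] at h2
    have h5 : j + 1 + r = j + r + 1 := by ring
    rw [h5] at h2 ⊢
    linarith
  have h2 : ((j : ℝ) + 1) * ((j + 1 + r).choose r : ℝ) =
      ((j : ℝ) + 1 + r) * ((j + r).choose r : ℝ) := by
    exact_mod_cast h1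
  rw [h2]
  apply mul_le_mul_of_nonneg_right _ (by positivity)
  have : (0 : ℝ) ≤ j := by positivity
  linarith

lemma choose_steps (r d : ℕ) : ∀ l ≤ d, ((r : ℝ) + 1) ^ l * ((d - l + r).choose r : ℝ) ≤
    (d.descFactorial l : ℝ) * ((d + r).choose r : ℝ) := by
  intro l
  induction l with
  | zero => intro _; simp
  | succ l ih =>
    intro hl
    have h1 := ih (by omega)
    have h2 := choose_step r (d - (l + 1))
    have h3 : d - (l + 1) + 1 = d - l := by omega
    rw [h3] at h2
    have h4 : ((d - (l + 1) : ℕ) : ℝ) + 1 = ((d - l : ℕ) : ℝ) := by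
      have : (d - (l + 1) : ℕ) + 1 = d - l := by omega
      exact_mod_cast this
    rw [h4] at h2
    rw [Nat.descFactorial_succ]
    push_cast [Nat.cast_mul]
    calc ((r : ℝ) + 1) ^ (l + 1) * ((d - (l + 1) + r).choose r : ℝ)
        = ((r : ℝ) + 1) ^ l * (((r : ℝ) + 1) * ((d - (l + 1) + r).choose r : ℝ)) := by ring
      _ ≤ ((r : ℝ) + 1) ^ l * (((d - l : ℕ) : ℝ) * ((d - l + r).choose r : ℝ)) :=
        mul_le_mul_of_nonneg_left h2 (by positivity)
      _ = ((d - l : ℕ) : ℝ) * (((r : ℝ) + 1) ^ l * ((d - l + r).choose r : ℝ)) := by ring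
      _ ≤ ((d - l : ℕ) : ℝ) * ((d.descFactorial l : ℝ) * ((d + r).choose r : ℝ)) :=
        mul_le_mul_of_nonneg_left h1 (by positivity)
      _ = _ := by ring

/-- The total number of forms of degree `d - e i`. -/
lemma sum_le (r d k : ℕ) (e : Fin k → ℕ) (he : ∀ i, 1 ≤ e i)
    (hload : ∀ i, 1 ≤ i → i ≤ d → load r e Finset.univ i ≤ 2) :
    ∑ i ∈ Finset.univ.filter (fun i : Fin k => e i ≤ d), ((d - e i + r).choose r : ℝ) ≤
      2 ^ (d + 1) * ((d + r).choose r : ℝ) := by
  have h1 : ∑ i ∈ Finset.univ.filter (fun i : Fin k => e i ≤ d), ((d - e i + r).choose r : ℝ) =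
      ∑ l ∈ Finset.range (d + 1), ∑ i ∈ (Finset.univ.filter
        (fun i : Fin k => e i ≤ d)).filter (fun i => e i = l), ((d - e i + r).choose r : ℝ) := by
    rw [Finset.sum_fiberwise_of_maps_to]
    intro i hi
    rw [Finset.mem_filter] at hi
    rw [Finset.mem_range]
    omega
  rw [h1]
  have h2 : ∀ l ∈ Finset.range (d + 1), ∑ i ∈ (Finset.univ.filter
        (fun i : Fin k => e i ≤ d)).filter (fun i => e i = l), ((d - e i + r).choose r : ℝ) ≤
      2 * ((d.choose l : ℝ) * ((d + r).choose r : ℝ)) := by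
    intro l hl
    rw [Finset.mem_range] at hl
    have h3 : ∑ i ∈ (Finset.univ.filter
        (fun i : Fin k => e i ≤ d)).filter (fun i => e i = l), ((d - e i + r).choose r : ℝ) =
        ((Finset.univ.filter (fun i : Fin k => e i = l)).card : ℝ) *
          ((d - l + r).choose r : ℝ) := by
      have h4 : (Finset.univ.filter (fun i : Fin k => e i ≤ d)).filter (fun i => e i = l) =
          Finset.univ.filter (fun i : Fin k => e i = l) := by
        ext i
        simp only [Finset.mem_filter, Finset.mem_univ, true_and]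
        constructor
        · rintro ⟨_, h5⟩; exact h5
        · intro h5; exact ⟨by omega, h5⟩
      rw [h4, Finset.sum_congr rfl (g := fun _ => ((d - l + r).choose r : ℝ)), Finset.sum_const,
        nsmul_eq_mul]
      intro i hi
      rw [(Finset.mem_filter.1 hi).2]
    rw [h3]
    rcases Nat.eq_zero_or_pos l with hl0 | hl0
    · subst hl0
      have h4 : Finset.univ.filter (fun i : Fin k => e i = 0) = ∅ := by
        rw [Finset.filter_eq_empty_iff]
        intro i _ h5
        have := he i
        omega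
      rw [h4]
      simp only [Finset.card_empty, Nat.cast_zero, zero_mul]
      positivity
    · have h4 := hload l hl0 (by omega)
      unfold load at h4
      rw [div_le_iff₀ (by positivity)] at h4
      have h5 := choose_steps r d l (by omega)
      have h6 : (d.descFactorial l : ℝ) = (l.factorial : ℝ) * (d.choose l : ℝ) := by
        exact_mod_cast Nat.descFactorial_eq_factorial_mul_choose d l
      have h7 : (0 : ℝ) < (l.factorial : ℝ) := by exact_mod_cast l.factorial_pos
      rw [h6] at h5
      apply le_of_mul_le_mul_left _ h7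
      calc (l.factorial : ℝ) * (((Finset.univ.filter (fun i : Fin k => e i = l)).card : ℝ) *
          ((d - l + r).choose r : ℝ))
          = ((l.factorial : ℝ) * ((Finset.univ.filter (fun i : Fin k => e i = l)).card : ℝ)) *
          ((d - l + r).choose r : ℝ) := by ring
        _ ≤ (2 * ((r : ℝ) + 1) ^ l) * ((d - l + r).choose r : ℝ) :=
          mul_le_mul_of_nonneg_right h4 (by positivity)
        _ = 2 * (((r : ℝ) + 1) ^ l * ((d - l + r).choose r : ℝ)) := by ring
        _ ≤ 2 * ((l.factorial : ℝ) * (d.choose l : ℝ) * ((d + r).choose r : ℝ)) := by linarith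
        _ = _ := by ring
  refine (Finset.sum_le_sum h2).trans ?_
  rw [← Finset.mul_sum, ← Finset.sum_mul]
  have h3 : ∑ l ∈ Finset.range (d + 1), (d.choose l : ℝ) = 2 ^ d := by
    exact_mod_cast Nat.sum_range_choose d
  rw [h3, pow_succ]
  apply le_of_eq
  ring

/-- The indices below `t`. -/
noncomputable def pre (k t : ℕ) : Finset (Fin k) := Finset.univ.filter (fun i => i.val < t)

lemma mem_pre {k t : ℕ} {i : Fin k} : i ∈ pre k t ↔ i.val < t := by
  unfold pre
  simp

/-- The forms for the points in `I`. -/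
noncomputable def mu {k : ℕ} (e : Fin k → ℕ) (I : Finset (Fin k)) (j : ℕ) : Fin k → ℕ :=
  fun i => if i ∈ I then j + 1 - e i else 0

lemma load_mono {P : Type} (r : ℕ) (e : P → ℕ) {I I' : Finset P} (h : I ⊆ I') (i : ℕ) :
    load r e I i ≤ load r e I' i := by
  unfold load
  apply div_le_div_of_nonneg_right _ (by positivity)
  apply mul_le_mul_of_nonneg_left _ (by positivity)
  exact_mod_cast Finset.card_le_card (Finset.filter_subset_filter _ h)

/-- The telescoping inequality. -/
lemma telescope {r k d : ℕ} (e : Fin k → ℕ) (he : ∀ i, 1 ≤ e i) (p : Fin k → Fin (r + 1) → ℂ)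
    (ε : ℝ) (h : ∀ t ≤ k, ∀ j < d, (Module.finrank ℂ (fatForms r j p (mu e (pre k t) j)) : ℝ) ≤
      (fro r e (pre k t) j : ℝ) + ε * ((j + r).choose r : ℝ)) :
    ∀ t ≤ k, (fro r e (pre k t) d : ℝ) -
      ε * ∑ i ∈ (pre k t).filter (fun i => e i ≤ d), ((d - e i + r).choose r : ℝ) ≤
      (Module.finrank ℂ (fatForms r d p (mu e (pre k t) d)) : ℝ) := by
  intro t
  induction t with
  | zero =>
    intro _
    have h1 : pre k 0 = ∅ := by
      ext i
      simp [mem_pre]
    rw [h1]
    have h2 : fro r e ∅ d = ((d + r).choose r : ℤ) := by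
      unfold fro
      simp [add_comm r d]
    rw [h2]
    have h3 : fatForms r d p (mu e ∅ d) = homogeneousSubmodule (Fin (r + 1)) ℂ d := by
      ext F
      constructor
      · intro hF
        exact hF.1
      · intro hF
        refine ⟨hF, fun i => ?_⟩
        intro β hβ
        simp [mu] at hβ
    have h4 : Module.finrank ℂ (fatForms r d p (mu e ∅ d)) = (d + r).choose r := by
      have h5 := rank_full_add_finrank (d := d) p (mu e ∅ d)
      have h6 : Module.finrank ℂ (LinearMap.range (fullMat r d p (mu e ∅ d)).mulVecLin) = 0 := by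
        have h7 : (fullMat r d p (mu e ∅ d)) = 0 := by
          ext x α
          exfalso
          obtain ⟨i, β, hβ⟩ := x
          rw [mem_full] at hβ
          simp [mu] at hβ
        rw [h7]
        simp
      omega
    rw [h4]
    simp
  | succ t ih =>
    intro ht
    have ih1 := ih (by omega)
    let i₀ : Fin k := ⟨t, by omega⟩
    have hi₀ : i₀ ∉ pre k t := by
      rw [mem_pre]
      simp [i₀]
    have hpre : pre k (t + 1) = insert i₀ (pre k t) := by
      ext i
      rw [Finset.mem_insert, mem_pre, mem_pre, Fin.ext_iff]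
      simp only [i₀]
      omega
    have hmu0 : mu e (pre k t) d i₀ = 0 := by
      unfold mu
      rw [if_neg hi₀]
    by_cases hed : e i₀ ≤ d
    · have h1 := finrank_fat_le_add' d p (mu e (pre k t) d) i₀ (e i₀) hed hmu0
      have h2 : Function.update (mu e (pre k t) d) i₀ (d + 1 - e i₀) = mu e (pre k (t + 1)) d := by
        funext i
        by_cases hi : i = i₀
        · subst hi
          rw [Function.update_self]
          unfold mu
          rw [hpre, if_pos (Finset.mem_insert_self _ _)]
        · rw [Function.update_of_ne hi]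
          unfold mu
          rw [hpre]
          by_cases hi' : i ∈ pre k t
          · rw [if_pos hi', if_pos (Finset.mem_insert_of_mem hi')]
          · rw [if_neg hi', if_neg (by
              rw [Finset.mem_insert]
              tauto)]
      have h3 : (fun i => mu e (pre k t) d i - e i₀) = mu e (pre k t) (d - e i₀) := by
        funext i
        unfold mu
        by_cases hi' : i ∈ pre k t
        · rw [if_pos hi', if_pos hi']
          omega
        · rw [if_neg hi', if_neg hi']
          omega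
      have h1' : Module.finrank ℂ (fatForms r d p (mu e (pre k t) d)) ≤
          Module.finrank ℂ (fatForms r d p (mu e (pre k (t + 1)) d)) +
          Module.finrank ℂ (fatForms r (d - e i₀) p (mu e (pre k t) (d - e i₀))) := by
        rw [← h2, ← h3]
        exact h1
      have h4 := h t (by omega) (d - e i₀) (by have := he i₀; omega)
      have h5 : fro r e (pre k (t + 1)) d = fro r e (pre k t) d - fro r e (pre k t) (d - e i₀) := by
        rw [hpre]
        have h6 := fro_insert' r e (pre k t) i₀ hi₀ d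
        rw [if_pos hed] at h6
        exact h6
      have h6 : (pre k (t + 1)).filter (fun i => e i ≤ d) =
          insert i₀ ((pre k t).filter (fun i => e i ≤ d)) := by
        rw [hpre]
        ext i
        simp only [Finset.mem_filter, Finset.mem_insert]
        constructor
        · rintro ⟨rfl | h7, h8⟩
          · exact Or.inl rfl
          · exact Or.inr ⟨h7, h8⟩
        · rintro (rfl | ⟨h7, h8⟩)
          · exact ⟨Or.inl rfl, hed⟩
          · exact ⟨Or.inr h7, h8⟩
      have h7 : (Module.finrank ℂ (fatForms r d p (mu e (pre k t) d)) : ℝ) ≤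
          (Module.finrank ℂ (fatForms r d p (mu e (pre k (t + 1)) d)) : ℝ) +
          (Module.finrank ℂ (fatForms r (d - e i₀) p (mu e (pre k t) (d - e i₀))) : ℝ) := by
        exact_mod_cast h1'
      rw [h5, h6, Finset.sum_insert (by
        rw [Finset.mem_filter]
        tauto)]
      push_cast
      linarith
    · have h2 : mu e (pre k (t + 1)) d = mu e (pre k t) d := by
        funext i
        unfold mu
        rw [hpre]
        by_cases hi : i = i₀
        · subst hi
          rw [if_pos (Finset.mem_insert_self _ _), if_neg hi₀]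
          omega
        · by_cases hi' : i ∈ pre k t
          · rw [if_pos hi', if_pos (Finset.mem_insert_of_mem hi')]
          · rw [if_neg hi', if_neg (by
              rw [Finset.mem_insert]
              tauto)]
      have h5 : fro r e (pre k (t + 1)) d = fro r e (pre k t) d := by
        rw [hpre]
        have h6 := fro_insert' r e (pre k t) i₀ hi₀ d
        rw [if_neg hed, sub_zero] at h6
        exact h6
      have h6 : (pre k (t + 1)).filter (fun i => e i ≤ d) =
          ((pre k t).filter (fun i => e i ≤ d)) := by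
        rw [hpre]
        ext i
        simp only [Finset.mem_filter, Finset.mem_insert]
        constructor
        · rintro ⟨rfl | h7, h8⟩
          · exact absurd h8 hed
          · exact ⟨h7, h8⟩
        · rintro ⟨h7, h8⟩
          exact ⟨Or.inr h7, h8⟩
      rw [h2, h5, h6]
      exact ih1

end LowerX

open LowerX

/-- Lower bound inside the region. -/
theorem lower_general (d : ℕ) (η ε : ℝ) (hη : 0 < η) (hε : 0 < ε) : ∃ r₀ : ℕ, ∀ r : ℕ, r₀ ≤ r →
    ∀ (k : ℕ) (e : Fin k → ℕ), (∀ i, 1 ≤ e i) →
    (∀ j ≤ d, η * ((j + r).choose r : ℝ) ≤ (fro r e Finset.univ j : ℝ)) →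
    ForGeneralPoints r k fun p =>
      (fro r e Finset.univ d : ℝ) - ε * ((d + r).choose r : ℝ) ≤
        (Module.finrank ℂ (fatForms r d p (fun i => d + 1 - e i)) : ℝ) := by
  set ε' : ℝ := ε / 2 ^ (d + 1) with hε'
  have hε'0 : 0 < ε' := by positivity
  obtain ⟨r₁, h₁⟩ := region_of_fro d η hη
  choose R hR using fun j : ℕ => fro_asymp j 2 (η / 2) (by linarith)
  choose U hU using fun j : ℕ => upper_general j ε' hε'0
  refine ⟨r₁ + (Finset.range (d + 1)).sup R + (Finset.range (d + 1)).sup U,
    fun r hr k e he hfro => ?_⟩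
  have hRr : ∀ j ≤ d, R j ≤ r := by
    intro j hj
    have h1 : R j ≤ (Finset.range (d + 1)).sup R :=
      Finset.le_sup (f := R) (Finset.mem_range.2 (Nat.lt_succ_of_le hj))
    omega
  have hUr : ∀ j ≤ d, U j ≤ r := by
    intro j hj
    have h1 : U j ≤ (Finset.range (d + 1)).sup U :=
      Finset.le_sup (f := U) (Finset.mem_range.2 (Nat.lt_succ_of_le hj))
    omega
  obtain ⟨hload, hphi⟩ := h₁ r (by omega) (Fin k) e Finset.univ (fun i _ => he i) hfro
  have hs : ∀ j, (0 : ℝ) < ((j + r).choose r : ℝ) := by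
    intro j
    exact_mod_cast Nat.choose_pos (by omega)
  -- the numbers of the prefixes are nonnegative
  have hpre : ∀ t ≤ k, ∀ j < d, 0 ≤ (fro r e (pre k t) j : ℝ) := by
    intro t _ j hj
    have h1 := hR j r (hRr j hj.le) (Fin k) e (pre k t) (fun i _ => he i) (fun i h2 h3 =>
      (load_mono r e (Finset.subset_univ _) i).trans (hload i h2 (by omega)))
    have h2 : phi (load r e Finset.univ) j ≤ phi (load r e (pre k t)) j := by
      apply phi_anti d _ _ (fun i => RegionX.load_nonneg' r e _ i)
        (fun i => load_mono r e (Finset.subset_univ _) i) _ j hj.le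
      intro i hi
      have := hphi i hi
      linarith
    have h3 := hphi j hj.le
    have h4 := (abs_le.1 h1).1
    have h5 : η / 2 * ((j + r).choose r : ℝ) ≤
        phi (load r e (pre k t)) j * ((j + r).choose r : ℝ) :=
      mul_le_mul_of_nonneg_right (h3.trans h2) (hs j).le
    linarith
  have h2 : ForGeneralPoints r k fun p => ∀ x ∈ (Finset.range (k + 1)) ×ˢ (Finset.range d),
      (Module.finrank ℂ (fatForms r x.2 p (mu e (pre k x.1) x.2)) : ℝ) ≤
      (fro r e (pre k x.1) x.2 : ℝ) + ε' * ((x.2 + r).choose r : ℝ) := by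
    apply forGeneral_forall
    rintro ⟨t, j⟩ hx
    rw [Finset.mem_product, Finset.mem_range, Finset.mem_range] at hx
    simp only at hx ⊢
    have h3 := hpre t (by omega) j hx.2
    have h4 : 0 ≤ ε' * ((j + r).choose r : ℝ) := mul_nonneg hε'0.le (hs j).le
    exact hU j r (hUr j hx.2.le) k e he (pre k t) (by linarith)
  refine h2.mono fun p hp => ?_
  have h3 := telescope (d := d) e he p ε' (fun t ht j hj => hp (t, j) (by
    rw [Finset.mem_product, Finset.mem_range, Finset.mem_range]
    simp only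
    omega)) k le_rfl
  have h4 : pre k k = Finset.univ := by
    ext i
    rw [mem_pre]
    simp
  rw [h4] at h3
  have h5 : mu e Finset.univ d = fun i => d + 1 - e i := by
    funext i
    simp [mu]
  rw [h5] at h3
  have h6 := sum_le r d k e he hload
  have h7 : ε' * ∑ i ∈ Finset.univ.filter (fun i : Fin k => e i ≤ d),
      ((d - e i + r).choose r : ℝ) ≤ ε * ((d + r).choose r : ℝ) := by
    calc ε' * ∑ i ∈ Finset.univ.filter (fun i : Fin k => e i ≤ d), ((d - e i + r).choose r : ℝ)
        ≤ ε' * (2 ^ (d + 1) * ((d + r).choose r : ℝ)) := mul_le_mul_of_nonneg_left h6 hε'0.le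
      _ = ε * ((d + r).choose r : ℝ) := by
        rw [hε']
        field_simp
  linarith

end Pool.Agent.H21.HD

end
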