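import Pool.Agent.H94.LP2.M34

/-! The parts of this file: H21.HD.Distribute, H21.HD.GoodOpen, H21.HD.InjStep, H21.HD.InjT. -/

section

/-!
Distribution of points to slices.
-/

namespace Pool.Agent.H21.HD

open MvPolynomial
open scoped Classical

namespace DistributeX

/-- An enumeration of a finset. -/
theorem exists_index {α : Type} (S : Finset α) :
    ∃ f : α → ℕ, (∀ p ∈ S, f p < S.card) ∧ Set.InjOn f S := by
  refine ⟨fun p => if h : p ∈ S then (S.equivFin ⟨p, h⟩ : ℕ) else 0, ?_, ?_⟩
  · intro p hp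
    simp only [hp, dite_true]
    exact (S.equivFin ⟨p, hp⟩).2
  · intro p hp q hq hpq
    have hp' : p ∈ S := hp
    have hq' : q ∈ S := hq
    simp only [hp', hq', dite_true] at hpq
    have h1 := S.equivFin.injective (Fin.ext hpq)
    exact congrArg Subtype.val h1

/-- The number of points with given quotient index is at most the capacity. -/
theorem card_group {α : Type} (S : Finset α) (f : α → ℕ) (hf : Set.InjOn f S) (C g : ℕ)
    (hC : 0 < C) (hS : ∀ p ∈ S, f p / C = g) : S.card ≤ C := by
  have h1 : S.card ≤ (Finset.Ico (g * C) ((g + 1) * C)).card := by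
    refine Finset.card_le_card_of_injOn f ?_ hf
    intro p hp
    have h2 := hS p hp
    rw [Finset.mem_coe, Finset.mem_Ico]
    constructor
    · rw [← h2]
      exact Nat.div_mul_le_self _ _
    · rw [← h2]
      exact Nat.lt_mul_of_div_lt (Nat.lt_succ_self _) hC
  rw [Nat.card_Ico] at h1
  have h3 : (g + 1) * C - g * C = C := by
    rw [Nat.add_mul, Nat.one_mul, Nat.add_sub_cancel_left]
  omega

end DistributeX

open DistributeX

/-- Distribution of the points whose type contains `i` to the slices. -/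
theorem distribute (j s : ℕ) (ε : ℝ) (hε : 0 < ε) : ∃ W : ℕ, ∀ (ι A α : Type) [Fintype A],
    W ≤ Fintype.card A → ∀ (J : Finset ι), J.card = j → ∀ i ∈ J, ∀ (P : Finset α)
    (c : α → Finset ι), (∀ p ∈ P, c p ⊆ J) → ∀ (R : Finset A), R.card ≤ s →
    ∑ p ∈ P, (1 : ℝ) / (Fintype.card A : ℝ) ^ (c p).card ≤ 1 - ε →
    ∃ t : α → A, (∀ p ∈ P, i ∈ c p → t p ∉ R) ∧
      (∀ p ∈ P, ∀ p' ∈ P, i ∈ c p → i ∈ c p' → t p = t p' → c p = c p') ∧
      (∀ p ∈ P, ∀ p' ∈ P, i ∈ c p → i ∈ c p' → t p = t p' → c p = {i} → p = p') ∧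
      (∀ a : A, (∀ p ∈ P, i ∈ c p → t p = a → c p ≠ {i}) →
        ∑ p ∈ P.filter (fun p => i ∈ c p → t p = a),
          (1 : ℝ) / (Fintype.card A : ℝ) ^ ((c p).erase i).card ≤ 1 - ε / 2) := by
  refine ⟨⌈8 / ε ^ 2⌉₊ + ⌈4 * (s + 2 ^ j) / ε⌉₊ + ⌈2 / ε⌉₊ + 1, ?_⟩
  intro ι A α _ hW J hJ i hi P c hc R hR hload
  -- the number of slices
  set w : ℝ := (Fintype.card A : ℝ) with hw
  have hwW : ((⌈8 / ε ^ 2⌉₊ + ⌈4 * (s + 2 ^ j) / ε⌉₊ + ⌈2 / ε⌉₊ + 1 : ℕ) : ℝ) ≤ w := by
    rw [hw]
    exact_mod_cast hW
  push_cast at hwW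
  have hc1 : 8 / ε ^ 2 ≤ (⌈8 / ε ^ 2⌉₊ : ℝ) := Nat.le_ceil _
  have hc2 : 4 * (s + 2 ^ j) / ε ≤ (⌈4 * (s + 2 ^ j) / ε⌉₊ : ℝ) := Nat.le_ceil _
  have hc3 : 2 / ε ≤ (⌈2 / ε⌉₊ : ℝ) := Nat.le_ceil _
  have hp1 : 0 < 8 / ε ^ 2 := by positivity
  have hp2 : 0 < 4 * ((s : ℝ) + 2 ^ j) / ε := by positivity
  have hp3 : 0 < 2 / ε := by positivity
  have hw1 : 1 ≤ w := by linarith only [hwW, hc1, hc2, hc3, hp1, hp2, hp3]
  have hw8 : 8 / ε ^ 2 ≤ w := by linarith only [hwW, hc1, hc2, hc3, hp2, hp3]
  have hw4 : 4 * (s + 2 ^ j) / ε ≤ w := by linarith only [hwW, hc1, hc2, hc3, hp1, hp3]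
  have hw2 : 2 / ε ≤ w := by linarith only [hwW, hc1, hc2, hc3, hp1, hp2]
  have hw0 : 0 < w := by linarith only [hwW, hc1, hc2, hc3, hp1, hp2, hp3]
  have hcardA : 0 < Fintype.card A := by
    have : (0 : ℝ) < (Fintype.card A : ℝ) := hw0
    exact_mod_cast this
  have hne : Nonempty A := Fintype.card_pos_iff.mp hcardA
  -- split the load
  set L0 : ℝ := ∑ p ∈ P.filter (fun p => i ∉ c p), (1 : ℝ) / w ^ (c p).card with hL0
  have hL0nn : 0 ≤ L0 := Finset.sum_nonneg (fun p _ => by positivity)
  set P1 : Finset α := P.filter (fun p => i ∈ c p) with hP1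
  have hsplit : L0 + ∑ p ∈ P1, (1 : ℝ) / w ^ (c p).card ≤ 1 - ε := by
    rw [add_comm, hL0, hP1, Finset.sum_filter_add_sum_filter_not]
    exact hload
  have hP1nn : 0 ≤ ∑ p ∈ P1, (1 : ℝ) / w ^ (c p).card :=
    Finset.sum_nonneg (fun p _ => by positivity)
  set x : ℝ := 1 - ε / 2 - L0 with hx
  have hε1 : ε ≤ 1 := by linarith only [hL0nn, hsplit, hP1nn]
  have hxlo : ε / 2 ≤ x := by linarith only [hsplit, hP1nn, hx]
  have hxhi : x ≤ 1 := by linarith only [hε, hL0nn, hx]
  have hx0 : 0 < x := by linarith only [hε, hsplit, hP1nn, hx]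
  -- types
  set TT : Finset (Finset ι) := J.powerset.filter (fun T => i ∈ T) with hTT
  have hTTcard : (TT.card : ℝ) ≤ 2 ^ j := by
    have h1 : TT.card ≤ J.powerset.card := Finset.card_filter_le _ _
    rw [Finset.card_powerset, hJ] at h1
    exact_mod_cast h1
  set PT : Finset ι → Finset α := fun T => P1.filter (fun p => c p = T) with hPT
  set Cap : Finset ι → ℕ := fun T => if T = {i} then 1 else ⌊x * w ^ (T.card - 1)⌋₊ with hCap
  have hcard1 : ∀ T ∈ TT, T ≠ {i} → 1 ≤ T.card - 1 := by
    intro T hT hne'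
    rw [hTT, Finset.mem_filter] at hT
    have h1 : 1 < T.card := by
      by_contra hcon
      push Not at hcon
      apply hne'
      have h2 : T.card = 1 := le_antisymm hcon (Finset.card_pos.mpr ⟨i, hT.2⟩)
      obtain ⟨b, hb⟩ := Finset.card_eq_one.mp h2
      have h3 : i ∈ T := hT.2
      rw [hb, Finset.mem_singleton] at h3
      rw [hb, h3]
    omega
  have hbig : ∀ T ∈ TT, T ≠ {i} → 1 ≤ x * w ^ (T.card - 1) := by
    intro T hT hne'
    have h1 := hcard1 T hT hne'
    have h2 : w ≤ w ^ (T.card - 1) := by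
      calc w = w ^ 1 := (pow_one w).symm
        _ ≤ w ^ (T.card - 1) := pow_le_pow_right₀ hw1 h1
    calc (1 : ℝ) = ε / 2 * (2 / ε) := by field_simp
      _ ≤ x * w ^ (T.card - 1) := by
        apply mul_le_mul hxlo (le_trans hw2 h2) (by positivity) hx0.le
  have hCappos : ∀ T ∈ TT, 0 < Cap T := by
    intro T hT
    by_cases h : T = {i}
    · simp only [hCap, h, if_true]
      norm_num
    · simp only [hCap, h, if_false]
      exact Nat.floor_pos.mpr (hbig T hT h)
  have hCaphi : ∀ T ∈ TT, T ≠ {i} → (Cap T : ℝ) ≤ x * w ^ (T.card - 1) := by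
    intro T hT h
    simp only [hCap, h, if_false]
    exact Nat.floor_le (by positivity)
  -- δ
  have hδ : ∀ T ∈ TT, x * (1 - ε / 4) * w ^ (T.card - 1) ≤ (Cap T : ℝ) := by
    intro T hT
    by_cases h : T = {i}
    · simp only [hCap, h, if_true, Finset.card_singleton, Nat.sub_self, pow_zero, mul_one,
        Nat.cast_one]
      nlinarith only [hε, hL0nn, hx, hsplit, hP1nn]
    · have h1 := hcard1 T hT h
      have h2 : w ≤ w ^ (T.card - 1) := by
        calc w = w ^ 1 := (pow_one w).symm
          _ ≤ w ^ (T.card - 1) := pow_le_pow_right₀ hw1 h1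
      have h3 : x * w ^ (T.card - 1) - 1 ≤ (Cap T : ℝ) := by
        simp only [hCap, h, if_false]
        exact (Nat.sub_one_lt_floor _).le
      have h4 : 1 ≤ x * (ε / 4) * w ^ (T.card - 1) := by
        calc (1 : ℝ) = (ε / 2) * (ε / 4) * (8 / ε ^ 2) := by field_simp; norm_num
          _ ≤ x * (ε / 4) * w ^ (T.card - 1) := by
            apply mul_le_mul _ (le_trans hw8 h2) (by positivity) (by positivity)
            apply mul_le_mul_of_nonneg_right hxlo (by positivity)
      nlinarith only [h3, h4]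
  -- labels
  choose idx hidx1 hidx2 using fun T : Finset ι => exists_index (PT T)
  set nT : Finset ι → ℕ := fun T => (PT T).card / Cap T + 1 with hnT
  set Lab : Finset (Σ _ : Finset ι, ℕ) := TT.sigma (fun T => Finset.range (nT T)) with hLab
  have hsumPT : ∑ T ∈ TT, ((PT T).card : ℝ) / w ^ T.card = ∑ p ∈ P1, (1 : ℝ) / w ^ (c p).card := by
    have hmaps : ∀ p ∈ P1, c p ∈ TT := by
      intro p hp
      rw [hP1, Finset.mem_filter] at hp
      rw [hTT, Finset.mem_filter, Finset.mem_powerset]
      exact ⟨hc p hp.1, hp.2⟩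
    rw [← Finset.sum_fiberwise_of_maps_to hmaps]
    apply Finset.sum_congr rfl
    intro T _
    rw [Finset.sum_congr rfl (g := fun _ => (1 : ℝ) / w ^ T.card)]
    · rw [Finset.sum_const, nsmul_eq_mul]
      simp only [hPT]
      ring
    · intro p hp
      rw [(Finset.mem_filter.mp hp).2]
  have hLabcard : (Lab.card : ℝ) ≤ w - s := by
    have h1 : (Lab.card : ℝ) = ∑ T ∈ TT, (nT T : ℝ) := by
      rw [hLab, Finset.card_sigma]
      push_cast
      apply Finset.sum_congr rfl
      intro T _
      rw [Finset.card_range]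
    have hq : 0 < x * (1 - ε / 4) := by
      apply mul_pos hx0
      linarith only [hL0nn, hsplit, hP1nn]
    have h2 : ∀ T ∈ TT, (nT T : ℝ) ≤ w / (x * (1 - ε / 4)) * (((PT T).card : ℝ) / w ^ T.card) + 1 := by
      intro T hT
      have hcp : (0 : ℝ) < Cap T := by exact_mod_cast hCappos T hT
      have h3 : (((PT T).card / Cap T : ℕ) : ℝ) ≤ ((PT T).card : ℝ) / (Cap T : ℝ) := Nat.cast_div_le
      have h4 : ((PT T).card : ℝ) / (Cap T : ℝ) ≤
          w / (x * (1 - ε / 4)) * (((PT T).card : ℝ) / w ^ T.card) := by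
        have h5 : 1 ≤ T.card := by
          rw [hTT, Finset.mem_filter] at hT
          exact Finset.card_pos.mpr ⟨i, hT.2⟩
        have h6 : w ^ T.card = w * w ^ (T.card - 1) := by
          conv_lhs => rw [← Nat.sub_add_cancel h5]
          rw [pow_succ]
          ring
        have h7 : w / (x * (1 - ε / 4)) * (((PT T).card : ℝ) / w ^ T.card) =
            ((PT T).card : ℝ) / (x * (1 - ε / 4) * w ^ (T.card - 1)) := by
          rw [h6]
          field_simp
        rw [h7]
        apply div_le_div_of_nonneg_left (by positivity) (by positivity) (hδ T hT)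
      simp only [hnT]
      push_cast
      linarith only [h3, h4]
    have h3 : (Lab.card : ℝ) ≤ w / (x * (1 - ε / 4)) * (x - ε / 2) + 2 ^ j := by
      rw [h1]
      calc ∑ T ∈ TT, (nT T : ℝ)
          ≤ ∑ T ∈ TT, (w / (x * (1 - ε / 4)) * (((PT T).card : ℝ) / w ^ T.card) + 1) :=
            Finset.sum_le_sum h2
        _ = w / (x * (1 - ε / 4)) * (∑ T ∈ TT, ((PT T).card : ℝ) / w ^ T.card) + TT.card := by
            rw [Finset.sum_add_distrib, Finset.mul_sum]
            simp
        _ ≤ _ := by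
            apply add_le_add _ hTTcard
            apply mul_le_mul_of_nonneg_left _ (by positivity)
            rw [hsumPT]
            linarith only [hsplit, hx]
    have h4 : w / (x * (1 - ε / 4)) * (x - ε / 2) ≤ w * (1 - ε / 4) := by
      rw [div_mul_eq_mul_div, div_le_iff₀ hq]
      have h5 : x - ε / 2 ≤ (1 - ε / 4) * (x * (1 - ε / 4)) := by nlinarith
      calc w * (x - ε / 2) ≤ w * ((1 - ε / 4) * (x * (1 - ε / 4))) :=
            mul_le_mul_of_nonneg_left h5 hw0.le
        _ = w * (1 - ε / 4) * (x * (1 - ε / 4)) := by ring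
    have h5 : (s : ℝ) + 2 ^ j ≤ w * (ε / 4) := by
      have h6 : 4 * ((s : ℝ) + 2 ^ j) / ε * (ε / 4) = s + 2 ^ j := by
        field_simp
      rw [← h6]
      exact mul_le_mul_of_nonneg_right hw4 (by positivity)
    nlinarith only [h3, h4, h5]
  have hemb : Nonempty (Lab ↪ (Rᶜ : Finset A)) := by
    apply Function.Embedding.nonempty_of_card_le
    rw [Fintype.card_coe, Fintype.card_coe, Finset.card_compl]
    have h1 : (Lab.card : ℝ) ≤ (Fintype.card A : ℝ) - s := hLabcard
    have h2 : Lab.card + s ≤ Fintype.card A := by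
      have : ((Lab.card + s : ℕ) : ℝ) ≤ (Fintype.card A : ℝ) := by
        push_cast
        linarith only [hLabcard]
      exact_mod_cast this
    omega
  obtain ⟨φ⟩ := hemb
  have hlab : ∀ p ∈ P, i ∈ c p →
      (⟨c p, idx (c p) p / Cap (c p)⟩ : Σ _ : Finset ι, ℕ) ∈ Lab := by
    intro p hp hip
    rw [hLab, Finset.mem_sigma]
    refine ⟨?_, ?_⟩
    · rw [hTT, Finset.mem_filter, Finset.mem_powerset]
      exact ⟨hc p hp, hip⟩
    · rw [Finset.mem_range]
      have h1 : p ∈ PT (c p) := by
        simp only [hPT, hP1, Finset.mem_filter]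
        exact ⟨⟨hp, hip⟩, trivial⟩
      have h2 := hidx1 (c p) p h1
      have h3 : idx (c p) p / Cap (c p) ≤ (PT (c p)).card / Cap (c p) := Nat.div_le_div_right h2.le
      simp only [hnT]
      omega
  set t : α → A := fun p => if h : p ∈ P ∧ i ∈ c p then (φ ⟨_, hlab p h.1 h.2⟩ : A)
    else Classical.choice hne with ht
  have htval : ∀ p (hp : p ∈ P) (hip : i ∈ c p), t p = (φ ⟨_, hlab p hp hip⟩ : A) := by
    intro p hp hip
    have h : p ∈ P ∧ i ∈ c p := ⟨hp, hip⟩
    simp only [ht]
    rw [dif_pos h]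
  have htinj : ∀ p ∈ P, ∀ p' ∈ P, i ∈ c p → i ∈ c p' → t p = t p' →
      c p = c p' ∧ idx (c p) p / Cap (c p) = idx (c p') p' / Cap (c p') := by
    intro p hp p' hp' hip hip' htt
    rw [htval p hp hip, htval p' hp' hip'] at htt
    have h1 := φ.injective (Subtype.ext htt)
    have h2 := congrArg Subtype.val h1
    simp only [Sigma.mk.injEq, heq_eq_eq] at h2
    exact h2
  refine ⟨t, ?_, ?_, ?_, ?_⟩
  · intro p hp hip
    rw [htval p hp hip]
    have h1 := (φ ⟨_, hlab p hp hip⟩).2
    exact Finset.mem_compl.mp h1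
  · intro p hp p' hp' hip hip' htt
    exact (htinj p hp p' hp' hip hip' htt).1
  · intro p hp p' hp' hip hip' htt hci
    obtain ⟨h1, h2⟩ := htinj p hp p' hp' hip hip' htt
    rw [← h1] at h2
    have hcap : Cap (c p) = 1 := by
      simp only [hCap, hci, if_true]
    rw [hcap, Nat.div_one, Nat.div_one] at h2
    apply hidx2 (c p) _ _ h2
    · simp only [hPT, hP1, Finset.mem_coe, Finset.mem_filter]
      exact ⟨⟨hp, hip⟩, trivial⟩
    · simp only [hPT, hP1, Finset.mem_coe, Finset.mem_filter]
      exact ⟨⟨hp', hip'⟩, h1.symm⟩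
  · intro a ha
    -- split the points of the slice
    set Q : Finset α := P.filter (fun p => i ∈ c p ∧ t p = a) with hQ
    have hsum : ∑ p ∈ P.filter (fun p => i ∈ c p → t p = a),
        (1 : ℝ) / w ^ ((c p).erase i).card = L0 + ∑ p ∈ Q, (1 : ℝ) / w ^ ((c p).card - 1) := by
      have h1 : P.filter (fun p => i ∈ c p → t p = a) =
          P.filter (fun p => i ∉ c p) ∪ Q := by
        ext p
        simp only [hQ, Finset.mem_filter, Finset.mem_union]
        tauto
      have h2 : Disjoint (P.filter (fun p => i ∉ c p)) Q := by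
        rw [Finset.disjoint_left]
        intro p hp hq
        simp only [hQ, Finset.mem_filter] at hp hq
        exact hp.2 hq.2.1
      rw [h1, Finset.sum_union h2]
      congr 1
      · rw [hL0]
        apply Finset.sum_congr rfl
        intro p hp
        rw [Finset.erase_eq_of_notMem (Finset.mem_filter.mp hp).2]
      · apply Finset.sum_congr rfl
        intro p hp
        rw [Finset.card_erase_of_mem (Finset.mem_filter.mp hp).2.1]
    rw [hsum]
    rcases Q.eq_empty_or_nonempty with hQe | ⟨p0, hp0⟩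
    · rw [hQe, Finset.sum_empty]
      linarith only [hε, hsplit, hP1nn]
    · have hp0' : p0 ∈ P ∧ i ∈ c p0 ∧ t p0 = a := by
        simpa only [hQ, Finset.mem_filter] using hp0
      have hT : c p0 ∈ TT := by
        rw [hTT, Finset.mem_filter, Finset.mem_powerset]
        exact ⟨hc p0 hp0'.1, hp0'.2.1⟩
      have hTne : c p0 ≠ {i} := ha p0 hp0'.1 hp0'.2.1 hp0'.2.2
      have hsame : ∀ p ∈ Q, c p = c p0 ∧
          idx (c p0) p / Cap (c p0) = idx (c p0) p0 / Cap (c p0) := by
        intro p hp
        simp only [hQ, Finset.mem_filter] at hp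
        obtain ⟨h1, h2⟩ := htinj p hp.1 p0 hp0'.1 hp.2.1 hp0'.2.1 (hp.2.2.trans hp0'.2.2.symm)
        refine ⟨h1, ?_⟩
        rw [h1] at h2
        exact h2
      have hQcard : Q.card ≤ Cap (c p0) := by
        apply card_group Q (idx (c p0)) _ (Cap (c p0)) (idx (c p0) p0 / Cap (c p0))
          (hCappos _ hT) (fun p hp => (hsame p hp).2)
        intro p hp q hq hpq
        apply hidx2 (c p0) _ _ hpq
        · have hp' := Finset.mem_coe.mp hp
          have h1 := (hsame p hp').1
          simp only [hQ, Finset.mem_filter] at hp'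
          simp only [hPT, hP1, Finset.mem_coe, Finset.mem_filter]
          exact ⟨⟨hp'.1, hp'.2.1⟩, h1⟩
        · have hq' := Finset.mem_coe.mp hq
          have h1 := (hsame q hq').1
          simp only [hQ, Finset.mem_filter] at hq'
          simp only [hPT, hP1, Finset.mem_coe, Finset.mem_filter]
          exact ⟨⟨hq'.1, hq'.2.1⟩, h1⟩
      have h1 : ∑ p ∈ Q, (1 : ℝ) / w ^ ((c p).card - 1) ≤ x := by
        calc ∑ p ∈ Q, (1 : ℝ) / w ^ ((c p).card - 1)
            = ∑ p ∈ Q, (1 : ℝ) / w ^ ((c p0).card - 1) := by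
              apply Finset.sum_congr rfl
              intro p hp
              rw [(hsame p hp).1]
          _ = (Q.card : ℝ) * (1 / w ^ ((c p0).card - 1)) := by
              rw [Finset.sum_const, nsmul_eq_mul]
          _ ≤ (x * w ^ ((c p0).card - 1)) * (1 / w ^ ((c p0).card - 1)) := by
              apply mul_le_mul_of_nonneg_right _ (by positivity)
              calc (Q.card : ℝ) ≤ (Cap (c p0) : ℝ) := by exact_mod_cast hQcard
                _ ≤ _ := hCaphi _ hT hTne
          _ = x := by
              have : w ^ ((c p0).card - 1) ≠ 0 := by positivity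
              field_simp
      linarith only [hx, h1]

end Pool.Agent.H21.HD

end

section

/-!
Good is open.
-/

namespace Pool.Agent.H21.HD

open MvPolynomial
open scoped Classical

namespace GoodOpenX

/-- The functions that depend only on the coordinates in `T`. -/
noncomputable def depSub {ι : Type*} (B : ι → Type*) (T : Finset ι) :
    Submodule ℂ ((∀ i, B i) → ℂ) where
  carrier := {f | DepOn T f}
  add_mem' := by
    intro f g hf hg x y hxy
    simp only [Pi.add_apply]
    rw [hf x y hxy, hg x y hxy]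
  zero_mem' := by
    intro x y _
    rfl
  smul_mem' := by
    intro c f hf x y hxy
    simp only [Pi.smul_apply]
    rw [hf x y hxy]

/-- The functions that depend only on the coordinates in `J`, supported on `S`. -/
noncomputable def supSub {ι : Type*} (B : ι → Type*) (J : Finset ι) (S : (∀ i, B i) → Prop) :
    Submodule ℂ ((∀ i, B i) → ℂ) where
  carrier := {f | DepOn J f ∧ ∀ y, f y ≠ 0 → S y}
  add_mem' := by
    rintro f g ⟨hf, hf'⟩ ⟨hg, hg'⟩
    refine ⟨?_, ?_⟩
    · intro x y hxy
      simp only [Pi.add_apply]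
      rw [hf x y hxy, hg x y hxy]
    · intro y hy
      by_cases h0 : f y = 0
      · refine hg' y fun h1 => hy ?_
        simp only [Pi.add_apply]
        rw [h0, h1, add_zero]
      · exact hf' y h0
  zero_mem' := by
    refine ⟨fun x y _ => rfl, ?_⟩
    intro y hy
    exact absurd rfl hy
  smul_mem' := by
    rintro c f ⟨hf, hf'⟩
    refine ⟨?_, ?_⟩
    · intro x y hxy
      simp only [Pi.smul_apply]
      rw [hf x y hxy]
    · intro y hy
      refine hf' y fun h0 => hy ?_
      simp only [Pi.smul_apply]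
      rw [h0, smul_zero]

/-- The linear map attached to the parameters `x`. -/
noncomputable def goodMap {ι A α : Type} {B : ι → Type} [Fintype ι] [∀ i, Fintype (B i)]
    (N : ∀ i, B i → MvPolynomial A ℂ) (J : Finset ι) (P Q : Finset α) (c : α → Finset ι)
    (S : α → (∀ i, B i) → Prop) (x : α × ι × A → ℂ) :
    ((∀ p : P, depSub B (J \ c p)) × (∀ q : Q, supSub B J (S q))) →ₗ[ℂ] ((∀ i, B i) → ℂ) where
  toFun κ := fun y => ∑ p : P, (∏ i ∈ c p, eval (fun a => x (p.1, i, a)) (N i (y i))) *
      (κ.1 p).1 y + ∑ q : Q, (κ.2 q).1 y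
  map_add' := by
    intro κ κ'
    funext y
    simp only [Prod.fst_add, Prod.snd_add, Pi.add_apply, Submodule.coe_add, mul_add,
      Finset.sum_add_distrib]
    ring
  map_smul' := by
    intro r κ
    funext y
    simp only [Prod.smul_fst, Prod.smul_snd, Pi.smul_apply, Submodule.coe_smul, smul_eq_mul,
      RingHom.id_apply, mul_add, Finset.mul_sum]
    congr 1
    refine Finset.sum_congr rfl fun p _ => ?_
    ring

theorem goodMap_apply {ι A α : Type} {B : ι → Type} [Fintype ι] [∀ i, Fintype (B i)]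
    (N : ∀ i, B i → MvPolynomial A ℂ) (J : Finset ι) (P Q : Finset α) (c : α → Finset ι)
    (S : α → (∀ i, B i) → Prop) (x : α × ι × A → ℂ)
    (κ : (∀ p : P, depSub B (J \ c p)) × (∀ q : Q, supSub B J (S q))) (y : ∀ i, B i) :
    goodMap N J P Q c S x κ y =
      ∑ p : P, (∏ i ∈ c p, eval (fun a => x (p.1, i, a)) (N i (y i))) *
        (κ.1 p).1 y + ∑ q : Q, (κ.2 q).1 y := rfl

theorem polyFun_eval {ι A α : Type} (M : MvPolynomial A ℂ) (p : α) (i : ι) :
    PolyFun (fun x : α × ι × A → ℂ => eval (fun a => x (p, i, a)) M) := by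
  refine ⟨rename (fun a => (p, i, a)) M, fun x => ?_⟩
  rw [eval_rename]
  rfl

end GoodOpenX

open GoodOpenX in
/-- `Good` is an open condition. -/
theorem good_open {ι A α : Type} {B : ι → Type} [Fintype ι] [∀ i, Fintype (B i)]
    [∀ i, Nonempty (B i)] (pt : ∀ i, A → B i) (N : ∀ i, B i → MvPolynomial A ℂ)
    (J : Finset ι) (P Q : Finset α) (c : α → Finset ι) (f : α → ℕ) (ref : α → ι → A)
    (hPQ : Disjoint P Q) (v₀ : α → ι → A → ℂ) (h : Good pt N J P Q c f ref v₀) :
    ∃ G : MvPolynomial (α × ι × A) ℂ, G ≠ 0 ∧ ∀ v : α → ι → A → ℂ,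
      eval (fun x => v x.1 x.2.1 x.2.2) G ≠ 0 → Good pt N J P Q c f ref v := by
  set S : α → (∀ i, B i) → Prop := fun q y =>
    f q ≤ ((c q).filter (fun i => y i = pt i (ref q i))).card with hS
  have hT : ∀ (κ : (∀ p : P, depSub B (J \ c p)) × (∀ q : Q, supSub B J (S q)))
      (y : ∀ i, B i), PolyFun (fun x => goodMap N J P Q c S x κ y) := by
    intro κ y
    simp only [goodMap_apply]
    refine PolyFun.add ?_ (PolyFun.const _)
    refine PolyFun.sum _ _ fun p _ => ?_
    refine PolyFun.mul ?_ (PolyFun.const _)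
    exact PolyFun.prod _ (fun i x => eval (fun a => x (p.1, i, a)) (N i (y i)))
      fun i _ => polyFun_eval _ _ _
  have hinj : Function.Injective (goodMap N J P Q c S (fun x => v₀ x.1 x.2.1 x.2.2)) := by
    rw [injective_iff_map_eq_zero]
    intro κ hκ
    have hQP : ∀ q ∈ Q, q ∉ P := fun q hq hp => Finset.disjoint_left.1 hPQ hp hq
    let κ' : α → (∀ i, B i) → ℂ := fun p =>
      if hp : p ∈ P then (κ.1 ⟨p, hp⟩).1 else if hq : p ∈ Q then (κ.2 ⟨p, hq⟩).1 else 0
    have hP' : ∀ p (hp : p ∈ P), κ' p = (κ.1 ⟨p, hp⟩).1 := by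
      intro p hp
      simp only [κ', dif_pos hp]
    have hQ' : ∀ q (hq : q ∈ Q), κ' q = (κ.2 ⟨q, hq⟩).1 := by
      intro q hq
      simp only [κ', dif_neg (hQP q hq), dif_pos hq]
    have h1 := h κ' ?_ ?_ ?_ ?_
    · obtain ⟨h2, h3⟩ := h1
      apply Prod.ext
      · funext p
        apply Subtype.ext
        have := h2 p.1 p.2
        rw [hP' p.1 p.2] at this
        exact this
      · funext q
        apply Subtype.ext
        have := h3 q.1 q.2
        rw [hQ' q.1 q.2] at this
        exact this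
    · intro p hp
      rw [hP' p hp]
      exact (κ.1 ⟨p, hp⟩).2
    · intro q hq
      rw [hQ' q hq]
      exact (κ.2 ⟨q, hq⟩).2.1
    · intro q hq y hy
      rw [hQ' q hq] at hy
      exact (κ.2 ⟨q, hq⟩).2.2 y hy
    · intro y
      have h2 := congrFun hκ y
      rw [goodMap_apply] at h2
      rw [← Finset.sum_coe_sort P
        (fun p => (∏ i ∈ c p, eval (v₀ p i) (N i (y i))) * κ' p y),
        ← Finset.sum_coe_sort Q (fun q => κ' q y)]
      refine Eq.trans ?_ h2
      congr 1
      · refine Finset.sum_congr rfl fun p _ => ?_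
        rw [hP' p.1 p.2]
      · refine Finset.sum_congr rfl fun q _ => ?_
        rw [hQ' q.1 q.2]
  obtain ⟨G, hG0, hG⟩ := open_inj (goodMap N J P Q c S) hT _ hinj
  refine ⟨G, ?_, ?_⟩
  · rintro rfl
    simp at hG0
  · intro v hv κ hκ1 hκ2 hκ3 hκ4
    have h1 := hG _ hv
    rw [injective_iff_map_eq_zero] at h1
    have h2 := h1 (⟨fun p => ⟨κ p.1, hκ1 p.1 p.2⟩, fun q => ⟨κ q.1, hκ2 q.1 q.2, hκ3 q.1 q.2⟩⟩) ?_
    · refine ⟨fun p hp => ?_, fun q hq => ?_⟩
      · have h3 := congrFun (congrArg Prod.fst h2) ⟨p, hp⟩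
        exact congrArg Subtype.val h3
      · have h3 := congrFun (congrArg Prod.snd h2) ⟨q, hq⟩
        exact congrArg Subtype.val h3
    · funext y
      rw [goodMap_apply]
      have h3 := hκ4 y
      rw [← Finset.sum_coe_sort P
        (fun p => (∏ i ∈ c p, eval (v p i) (N i (y i))) * κ p y),
        ← Finset.sum_coe_sort Q (fun q => κ q y)] at h3
      exact h3

end Pool.Agent.H21.HD

end

section

/-!
The slicing step for injectivity.
-/

namespace Pool.Agent.H21.HD

open MvPolynomial
open scoped Classical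

/-- `Good` only involves the values `v p k` with `k ∈ c p`. -/
private theorem good_congr {ι A α : Type} {B : ι → Type} (pt : ∀ i, A → B i)
    (N : ∀ i, B i → MvPolynomial A ℂ) (J : Finset ι) (P Q : Finset α) (c : α → Finset ι)
    (f : α → ℕ) (ref : α → ι → A) (v v' : α → ι → A → ℂ) (hv : ∀ p ∈ P, ∀ k ∈ c p, v p k = v' p k)
    (h : Good pt N J P Q c f ref v) : Good pt N J P Q c f ref v' := by
  intro κ h1 h2 h3 h4
  refine h κ h1 h2 h3 fun y => ?_
  rw [← h4 y]
  congr 1
  refine Finset.sum_congr rfl fun p hp => ?_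
  congr 1
  exact Finset.prod_congr rfl fun k hk => by rw [hv p hp k hk]

/-- One slicing step. The slice `y i = b` contains the ordinary points `p` with `i ∉ c p` or
`b = pt i (t p)`. -/
theorem inj_step {ι A α : Type} {B : ι → Type} [Fintype ι] [Fintype A] [∀ i, Fintype (B i)]
    [∀ i, Nonempty (B i)] (pt : ∀ i, A → B i) (N : ∀ i, B i → MvPolynomial A ℂ)
    (J : Finset ι) (i : ι) (hi : i ∈ J)
    (hN : ∀ (a : A) (b : B i), eval (Pi.single a 1) (N i b) = if b = pt i a then 1 else 0)
    (P Q : Finset α) (c : α → Finset ι) (f : α → ℕ) (ref : α → ι → A)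
    (hPQ : Disjoint P Q) (hP : ∀ p ∈ P, c p ⊆ J) (hQ : ∀ q ∈ Q, c q ⊆ J) (t : α → A)
    (h : ∀ b : B i, ∃ v : α → ι → A → ℂ,
      Good pt N (J.erase i) (P.filter (fun p => i ∈ c p → b = pt i (t p))) Q
        (fun p => (c p).erase i)
        (fun q => if i ∈ c q ∧ b = pt i (ref q i) then f q - 1 else f q) ref v) :
    ∃ v : α → ι → A → ℂ, Good pt N J P Q c f ref v := by
  -- a common choice in the directions `k ≠ i`
  have h1 : ∀ b : B i, ∃ G : MvPolynomial (α × ι × A) ℂ, G ≠ 0 ∧ ∀ v : α → ι → A → ℂ,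
      eval (fun x => v x.1 x.2.1 x.2.2) G ≠ 0 →
        Good pt N (J.erase i) (P.filter (fun p => i ∈ c p → b = pt i (t p))) Q
          (fun p => (c p).erase i)
          (fun q => if i ∈ c q ∧ b = pt i (ref q i) then f q - 1 else f q) ref v := by
    intro b
    obtain ⟨v, hv⟩ := h b
    exact good_open pt N _ _ Q _ _ ref (hPQ.mono_left (Finset.filter_subset _ _)) v hv
  choose G hG0 hG using h1
  obtain ⟨x, hx⟩ := exists_common Finset.univ G fun b _ => hG0 b
  set v₀ : α → ι → A → ℂ := fun p k a => x (p, k, a) with hv₀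
  set v : α → ι → A → ℂ := fun p k => if k = i then Pi.single (t p) 1 else v₀ p k with hv
  have h2 : ∀ b : B i, Good pt N (J.erase i) (P.filter (fun p => i ∈ c p → b = pt i (t p))) Q
      (fun p => (c p).erase i)
      (fun q => if i ∈ c q ∧ b = pt i (ref q i) then f q - 1 else f q) ref v := by
    intro b
    refine good_congr pt N _ _ Q _ _ ref v₀ v (fun p _ k hk => ?_) (hG b v₀ (hx b (Finset.mem_univ b)))
    have hk' : k ≠ i := (Finset.mem_erase.1 hk).1
    simp only [hv, if_neg hk']
  refine ⟨v, fun κ k1 k2 k3 k4 => ?_⟩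
  -- the slices
  have h3 : ∀ b : B i,
      (∀ p ∈ P.filter (fun p => i ∈ c p → b = pt i (t p)),
        (fun y => κ p (Function.update y i b)) = 0) ∧
      ∀ q ∈ Q, (fun y => κ q (Function.update y i b)) = 0 := by
    intro b
    refine h2 b (fun p y => κ p (Function.update y i b)) ?_ ?_ ?_ ?_
    · intro p hp y y' hy
      have hp' := (Finset.mem_filter.1 hp).1
      refine k1 p hp' _ _ fun k hk => ?_
      obtain ⟨hk1, hk2⟩ := Finset.mem_sdiff.1 hk
      by_cases hki : k = i
      · subst hki; simp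
      · rw [Function.update_of_ne hki, Function.update_of_ne hki]
        exact hy k (Finset.mem_sdiff.2 ⟨Finset.mem_erase.2 ⟨hki, hk1⟩,
          fun h => hk2 (Finset.mem_erase.1 h).2⟩)
    · intro q hq y y' hy
      refine k2 q hq _ _ fun k hk => ?_
      by_cases hki : k = i
      · subst hki; simp
      · rw [Function.update_of_ne hki, Function.update_of_ne hki]
        exact hy k (Finset.mem_erase.2 ⟨hki, hk⟩)
    · intro q hq y hne
      have h4 := k3 q hq _ hne
      have h5 : ((c q).filter (fun k => Function.update y i b k = pt k (ref q k))).card ≤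
          (((c q).erase i).filter (fun k => y k = pt k (ref q k))).card +
            (if i ∈ c q ∧ b = pt i (ref q i) then 1 else 0) := by
        by_cases h6 : i ∈ c q ∧ b = pt i (ref q i)
        · rw [if_pos h6]
          have : (c q).filter (fun k => Function.update y i b k = pt k (ref q k)) ⊆
              insert i (((c q).erase i).filter (fun k => y k = pt k (ref q k))) := by
            intro k hk
            obtain ⟨hk1, hk2⟩ := Finset.mem_filter.1 hk
            by_cases hki : k = i
            · subst hki; exact Finset.mem_insert_self _ _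
            · rw [Function.update_of_ne hki] at hk2
              exact Finset.mem_insert_of_mem
                (Finset.mem_filter.2 ⟨Finset.mem_erase.2 ⟨hki, hk1⟩, hk2⟩)
          exact (Finset.card_le_card this).trans (Finset.card_insert_le _ _)
        · rw [if_neg h6, add_zero]
          refine Finset.card_le_card ?_
          intro k hk
          obtain ⟨hk1, hk2⟩ := Finset.mem_filter.1 hk
          by_cases hki : k = i
          · subst hki
            rw [Function.update_self] at hk2
            exact absurd ⟨hk1, hk2⟩ h6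
          · rw [Function.update_of_ne hki] at hk2
            exact Finset.mem_filter.2 ⟨Finset.mem_erase.2 ⟨hki, hk1⟩, hk2⟩
      show (if i ∈ c q ∧ b = pt i (ref q i) then f q - 1 else f q) ≤
        (((c q).erase i).filter (fun k => y k = pt k (ref q k))).card
      split_ifs at h5 ⊢ <;> omega
    · intro y
      rw [← k4 (Function.update y i b)]
      congr 1
      rw [Finset.sum_filter]
      refine Finset.sum_congr rfl fun p _ => ?_
      have hrest : ∀ k ∈ (c p).erase i, eval (v p k) (N k (Function.update y i b k)) =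
          eval (v p k) (N k (y k)) := by
        intro k hk
        rw [Function.update_of_ne (Finset.mem_erase.1 hk).1]
      by_cases hip : i ∈ c p
      · have h7 : ∏ k ∈ c p, eval (v p k) (N k (Function.update y i b k)) =
            (if b = pt i (t p) then 1 else 0) * ∏ k ∈ (c p).erase i, eval (v p k) (N k (y k)) := by
          rw [← Finset.mul_prod_erase _ _ hip, Finset.prod_congr rfl hrest, Function.update_self]
          congr 1
          rw [← hN (t p) b]
          simp only [hv, if_true]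
        rw [h7]
        by_cases hb : b = pt i (t p)
        · rw [if_pos (fun _ => hb), if_pos hb, one_mul]
        · rw [if_neg (fun h => hb (h hip)), if_neg hb, zero_mul, zero_mul]
      · rw [if_pos (fun h => absurd h hip)]
        rw [← Finset.prod_congr rfl hrest, Finset.erase_eq_of_notMem hip]
  constructor
  · intro p hp
    funext y
    by_cases hip : i ∈ c p
    · have h4 := (h3 (pt i (t p))).1 p (Finset.mem_filter.2 ⟨hp, fun _ => rfl⟩)
      have h5 := congrFun h4 y
      simp only [Pi.zero_apply] at h5 ⊢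
      rw [← h5]
      refine k1 p hp _ _ fun k hk => ?_
      have hki : k ≠ i := by
        rintro rfl
        exact (Finset.mem_sdiff.1 hk).2 hip
      rw [Function.update_of_ne hki]
    · have h4 := (h3 (y i)).1 p (Finset.mem_filter.2 ⟨hp, fun h => absurd h hip⟩)
      have h5 := congrFun h4 y
      simpa using h5
  · intro q hq
    funext y
    have h5 := congrFun ((h3 (y i)).2 q hq) y
    simpa using h5

end Pool.Agent.H21.HD

end

section

/-!
Injectivity for product functions.
-/

namespace Pool.Agent.H21.HD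

open MvPolynomial
open scoped Classical

/-- The case of an ordinary point of empty type. -/
private theorem injT_empty {ι A α : Type} {B : ι → Type} (pt : ∀ i, A → B i)
    (N : ∀ i, B i → MvPolynomial A ℂ) (J : Finset ι) (P Q : Finset α) (c : α → Finset ι)
    (f : α → ℕ) (ref : α → ι → A)
    (hPP : ∀ p ∈ P, ∀ p' ∈ P, p ≠ p' → (c p ∩ c p').Nonempty)
    (hPQ : ∀ p ∈ P, ∀ q ∈ Q, (c p ∪ c q).card + 1 ≤ (c p).card + f q)
    (p₀ : α) (hp₀ : p₀ ∈ P) (h0 : c p₀ = ∅) (v : α → ι → A → ℂ) : Good pt N J P Q c f ref v := by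
  intro κ _ _ k3 k4
  have hQ : ∀ q ∈ Q, κ q = 0 := by
    intro q hq
    funext y
    by_contra hne
    have h1 := k3 q hq y hne
    have h2 := hPQ p₀ hp₀ q hq
    rw [h0, Finset.empty_union, Finset.card_empty] at h2
    have h3 := Finset.card_filter_le (c q) (fun i => y i = pt i (ref q i))
    omega
  have hP : P = {p₀} := by
    ext p
    rw [Finset.mem_singleton]
    constructor
    · intro hp
      by_contra hne
      have h1 := hPP p hp p₀ hp₀ hne
      rw [h0, Finset.inter_empty] at h1
      exact Finset.not_nonempty_empty h1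
    · rintro rfl; exact hp₀
  refine ⟨fun p hp => ?_, hQ⟩
  have hp' : p = p₀ := by rw [hP] at hp; exact Finset.mem_singleton.1 hp
  subst hp'
  funext y
  have h1 := k4 y
  rw [Finset.sum_eq_zero (s := Q) (fun q hq => by rw [hQ q hq]; rfl), add_zero, hP,
    Finset.sum_singleton, h0, Finset.prod_empty, one_mul] at h1
  exact h1

/-- The case of no coordinates. -/
private theorem injT_zero {ι A α : Type} {B : ι → Type} (pt : ∀ i, A → B i)
    (N : ∀ i, B i → MvPolynomial A ℂ) (P Q : Finset α) (c : α → Finset ι)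
    (f : α → ℕ) (ref : α → ι → A) (hP : P = ∅) (hc : ∀ q ∈ Q, c q = ∅)
    (hQQ : ∀ q ∈ Q, ∀ q' ∈ Q, q ≠ q' → (c q ∪ c q').card + 1 ≤ f q + f q')
    (v : α → ι → A → ℂ) : Good pt N ∅ P Q c f ref v := by
  intro κ _ _ k3 k4
  subst hP
  refine ⟨fun p hp => absurd hp (Finset.notMem_empty p), fun q hq => ?_⟩
  have h0 : ∀ q ∈ Q, ∀ y, κ q y ≠ 0 → f q = 0 := by
    intro q hq y hne
    have h1 := k3 q hq y hne
    rw [hc q hq, Finset.filter_empty, Finset.card_empty] at h1
    omega
  funext y
  by_contra hne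
  have hf := h0 q hq y hne
  have h2 : ∀ q' ∈ Q, q' ≠ q → κ q' y = 0 := by
    intro q' hq' hne'
    by_contra hne2
    have hf' := h0 q' hq' y hne2
    have := hQQ q' hq' q hq hne'
    omega
  have h1 := k4 y
  rw [Finset.sum_empty, zero_add, Finset.sum_eq_single_of_mem q hq h2] at h1
  exact hne h1

/-- Injectivity below the critical load. -/
theorem tensor_inj (s j : ℕ) : ∀ ε : ℝ, 0 < ε → ∃ W : ℕ, ∀ (ι A α : Type) (B : ι → Type)
    [Fintype ι] [Fintype A] [∀ i, Fintype (B i)] [∀ i, Nonempty (B i)],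
    W ≤ Fintype.card A → ∀ (pt : ∀ i, A → B i) (N : ∀ i, B i → MvPolynomial A ℂ)
    (J : Finset ι), J.card = j → (∀ i ∈ J, Function.Injective (pt i)) →
    (∀ i ∈ J, ∀ (a : A) (b : B i),
      eval (Pi.single a 1) (N i b) = if b = pt i a then 1 else 0) →
    ∀ (P Q : Finset α) (c : α → Finset ι) (f : α → ℕ) (ref : α → ι → A),
    Disjoint P Q → (∀ p ∈ P, c p ⊆ J) → (∀ q ∈ Q, c q ⊆ J) →
    (∀ p ∈ P, ∀ p' ∈ P, p ≠ p' → (c p ∩ c p').Nonempty) →
    (∀ p ∈ P, ∀ q ∈ Q, (c p ∪ c q).card + 1 ≤ (c p).card + f q) →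
    (∀ q ∈ Q, ∀ q' ∈ Q, q ≠ q' → (c q ∪ c q').card + 1 ≤ f q + f q') →
    (∀ i ∈ J, Set.InjOn (fun q => ref q i) (Q : Set α)) → Q.card ≤ s →
    ((∃ p ∈ P, c p = ∅) ∨
      ∑ p ∈ P, (1 : ℝ) / (Fintype.card A : ℝ) ^ (c p).card ≤ 1 - ε) →
    ∃ v : α → ι → A → ℂ, Good pt N J P Q c f ref v := by
  induction j with
  | zero =>
    intro ε _
    refine ⟨0, ?_⟩
    intro ι A α B _ _ _ _ _ pt N J hJ _ _ P Q c f ref _ hP hQ hPP hPQ hQQ _ _ hload
    rw [Finset.card_eq_zero] at hJ
    subst hJ
    by_cases hemp : ∃ p ∈ P, c p = ∅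
    · obtain ⟨p₀, hp₀, h0⟩ := hemp
      exact ⟨0, injT_empty pt N ∅ P Q c f ref hPP hPQ p₀ hp₀ h0 0⟩
    · push Not at hemp
      have hP0 : P = ∅ := by
        rw [Finset.eq_empty_iff_forall_notMem]
        exact fun p hp => (hemp p hp).ne_empty (Finset.subset_empty.1 (hP p hp))
      exact ⟨0, injT_zero pt N P Q c f ref hP0 (fun q hq => Finset.subset_empty.1 (hQ q hq)) hQQ 0⟩
  | succ j ih =>
    intro ε hε
    obtain ⟨W₁, hW₁⟩ := distribute (j + 1) s ε hε
    obtain ⟨W₂, hW₂⟩ := ih (ε / 2) (by positivity)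
    refine ⟨max W₁ W₂, ?_⟩
    intro ι A α B _ _ _ _ hW pt N J hJ hpt hN P Q c f ref hdis hP hQ hPP hPQ hQQ href hs hload
    by_cases hemp : ∃ p ∈ P, c p = ∅
    · obtain ⟨p₀, hp₀, h0⟩ := hemp
      exact ⟨0, injT_empty pt N J P Q c f ref hPP hPQ p₀ hp₀ h0 0⟩
    have hload' : ∑ p ∈ P, (1 : ℝ) / (Fintype.card A : ℝ) ^ (c p).card ≤ 1 - ε :=
      hload.resolve_left hemp
    obtain ⟨i, hi⟩ : J.Nonempty := by
      rw [← Finset.card_pos, hJ]; omega
    obtain ⟨t, ht1, ht2, ht3, ht4⟩ := hW₁ ι A α ((le_max_left _ _).trans hW) J hJ i hi P c hP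
      (Q.image fun q => ref q i) (Finset.card_image_le.trans hs) hload'
    have hinj := hpt i hi
    refine inj_step pt N J i hi (hN i hi) P Q c f ref hdis hP hQ t fun b => ?_
    have hcardJ : (J.erase i).card = j := by
      rw [Finset.card_erase_of_mem hi, hJ]; rfl
    refine hW₂ ι A α B ((le_max_right _ _).trans hW) pt N (J.erase i) hcardJ
      (fun k hk => hpt k (Finset.mem_erase.1 hk).2) (fun k hk => hN k (Finset.mem_erase.1 hk).2)
      (P.filter (fun p => i ∈ c p → b = pt i (t p))) Q (fun p => (c p).erase i)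
      (fun q => if i ∈ c q ∧ b = pt i (ref q i) then f q - 1 else f q) ref
      (hdis.mono_left (Finset.filter_subset _ _)) ?_ ?_ ?_ ?_ ?_ ?_ hs ?_
    · intro p hp
      exact Finset.erase_subset_erase i (hP p (Finset.mem_filter.1 hp).1)
    · intro q hq
      exact Finset.erase_subset_erase i (hQ q hq)
    · -- two ordinary points
      intro p hp p' hp' hne
      obtain ⟨hp1, hp2⟩ := Finset.mem_filter.1 hp
      obtain ⟨hp1', hp2'⟩ := Finset.mem_filter.1 hp'
      by_cases h1 : i ∈ c p ∧ i ∈ c p'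
      · have htt : t p = t p' := hinj ((hp2 h1.1).symm.trans (hp2' h1.2))
        have hcc := ht2 p hp1 p' hp1' h1.1 h1.2 htt
        have hns : c p ≠ {i} := fun h => hne (ht3 p hp1 p' hp1' h1.1 h1.2 htt h)
        obtain ⟨k, hk, hki⟩ : ∃ k ∈ c p, k ≠ i := by
          by_contra hcon
          push Not at hcon
          apply hns
          ext k
          rw [Finset.mem_singleton]
          exact ⟨fun h => hcon k h, fun h => h ▸ h1.1⟩
        exact ⟨k, Finset.mem_inter.2 ⟨Finset.mem_erase.2 ⟨hki, hk⟩,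
          Finset.mem_erase.2 ⟨hki, hcc ▸ hk⟩⟩⟩
      · obtain ⟨k, hk⟩ := hPP p hp1 p' hp1' hne
        obtain ⟨hk1, hk2⟩ := Finset.mem_inter.1 hk
        have hki : k ≠ i := by
          rintro rfl
          exact h1 ⟨hk1, hk2⟩
        exact ⟨k, Finset.mem_inter.2 ⟨Finset.mem_erase.2 ⟨hki, hk1⟩,
          Finset.mem_erase.2 ⟨hki, hk2⟩⟩⟩
    · -- an ordinary and a special point
      intro p hp q hq
      obtain ⟨hp1, hp2⟩ := Finset.mem_filter.1 hp
      have h1 := hPQ p hp1 q hq
      show ((c p).erase i ∪ (c q).erase i).card + 1 ≤ ((c p).erase i).card +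
        (if i ∈ c q ∧ b = pt i (ref q i) then f q - 1 else f q)
      rw [← Finset.erase_union_distrib]
      by_cases hip : i ∈ c p
      · have hb := hp2 hip
        have hne : ¬ (i ∈ c q ∧ b = pt i (ref q i)) := by
          rintro ⟨-, h2⟩
          exact ht1 p hp1 hip (Finset.mem_image.2 ⟨q, hq, (hinj (hb.symm.trans h2)).symm⟩)
        rw [if_neg hne, Finset.card_erase_of_mem (Finset.mem_union_left _ hip),
          Finset.card_erase_of_mem hip]
        have h3 : 0 < (c p).card := Finset.card_pos.2 ⟨i, hip⟩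
        have h4 : 0 < (c p ∪ c q).card := Finset.card_pos.2 ⟨i, Finset.mem_union_left _ hip⟩
        omega
      · rw [Finset.erase_eq_of_notMem hip]
        by_cases hiq : i ∈ c q
        · rw [Finset.card_erase_of_mem (Finset.mem_union_right _ hiq)]
          have h3 : (c p).card < (c p ∪ c q).card := by
            refine Finset.card_lt_card ⟨Finset.subset_union_left, fun h => hip ?_⟩
            exact h (Finset.mem_union_right _ hiq)
          split_ifs <;> omega
        · have h2 : i ∉ c p ∪ c q := by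
            rw [Finset.mem_union]; tauto
          rw [Finset.erase_eq_of_notMem h2, if_neg fun h => hiq h.1]
          exact h1
    · -- two special points
      intro q hq q' hq' hne
      have h1 := hQQ q hq q' hq' hne
      show ((c q).erase i ∪ (c q').erase i).card + 1 ≤
        (if i ∈ c q ∧ b = pt i (ref q i) then f q - 1 else f q) +
          (if i ∈ c q' ∧ b = pt i (ref q' i) then f q' - 1 else f q')
      rw [← Finset.erase_union_distrib]
      by_cases h2 : i ∈ c q ∧ b = pt i (ref q i)
      · have h3 : ¬ (i ∈ c q' ∧ b = pt i (ref q' i)) := by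
          rintro ⟨-, h4⟩
          exact hne (href i hi hq hq' (hinj (h2.2.symm.trans h4)))
        rw [if_pos h2, if_neg h3, Finset.card_erase_of_mem (Finset.mem_union_left _ h2.1)]
        have h4 : 0 < (c q ∪ c q').card := Finset.card_pos.2 ⟨i, Finset.mem_union_left _ h2.1⟩
        omega
      · rw [if_neg h2]
        by_cases h3 : i ∈ c q' ∧ b = pt i (ref q' i)
        · rw [if_pos h3, Finset.card_erase_of_mem (Finset.mem_union_right _ h3.1)]
          have h4 : 0 < (c q ∪ c q').card := Finset.card_pos.2 ⟨i, Finset.mem_union_right _ h3.1⟩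
          omega
        · rw [if_neg h3]
          have h4 := Finset.card_le_card (Finset.erase_subset i (c q ∪ c q'))
          omega
    · exact fun k hk => href k (Finset.mem_erase.1 hk).2
    · -- the load of the slice
      by_cases hb : ∃ a, b = pt i a
      · obtain ⟨a, rfl⟩ := hb
        by_cases h1 : ∃ p ∈ P, i ∈ c p ∧ t p = a ∧ c p = {i}
        · left
          obtain ⟨p, hp, hip, htp, hcp⟩ := h1
          refine ⟨p, Finset.mem_filter.2 ⟨hp, fun _ => by rw [htp]⟩, ?_⟩
          rw [hcp]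
          simp
        · right
          push Not at h1
          have h2 := ht4 a fun p hp hip htp => h1 p hp hip htp
          have h3 : P.filter (fun p => i ∈ c p → pt i a = pt i (t p)) =
              P.filter (fun p => i ∈ c p → t p = a) := by
            refine Finset.filter_congr fun p _ => ?_
            exact ⟨fun h hip => (hinj (h hip)).symm, fun h hip => by rw [h hip]⟩
          rw [h3]
          exact h2
      · right
        have h3 : P.filter (fun p => i ∈ c p → b = pt i (t p)) = P.filter (fun p => i ∉ c p) := by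
          refine Finset.filter_congr fun p _ => ?_
          exact ⟨fun h hip => hb ⟨_, h hip⟩, fun h hip => absurd hip h⟩
        rw [h3]
        calc ∑ p ∈ P.filter (fun p => i ∉ c p),
              (1 : ℝ) / (Fintype.card A : ℝ) ^ ((c p).erase i).card
            = ∑ p ∈ P.filter (fun p => i ∉ c p), (1 : ℝ) / (Fintype.card A : ℝ) ^ (c p).card := by
              refine Finset.sum_congr rfl fun p hp => ?_
              rw [Finset.erase_eq_of_notMem (Finset.mem_filter.1 hp).2]
          _ ≤ ∑ p ∈ P, (1 : ℝ) / (Fintype.card A : ℝ) ^ (c p).card :=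
              Finset.sum_le_sum_of_subset_of_nonneg (Finset.filter_subset _ _)
                fun _ _ _ => by positivity
          _ ≤ 1 - ε / 2 := by linarith

end Pool.Agent.H21.HD

end
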