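import Pool.Agent.H94.LP2.M15
import Pool.Agent.H94.LP2.M17
import Pool.Agent.H94.LP2.M35
import Pool.Agent.H94.LP2.M36
import Pool.Agent.H94.LP2.M37
import Pool.Agent.H94.LP2.M43

/-! The parts of this file: H21.HD.LeadS, H21.HD.ColOpen, H21.HD.ColM, H21.HD.PhiCol, H21.HD.PhiEx, H21.HD.IndMain, H21.HD.IndepG. -/

section

/-!
The leading structure.
-/

namespace Pool.Agent.H21.HD

open MvPolynomial
open scoped Classical

set_option linter.unusedSectionVars false

variable {N : ℕ} {A Λ : Type} [Fintype A] [Fintype Λ]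

namespace LeadSX

/-- The spectator variables. -/
def IsSpec (c : Finset (Fin N)) (ref : Fin N → A) (lam : Λ) : Sg N A Λ → Prop :=
  Sum.elim (fun x => ¬ (x.1 ∈ c ∧ x.2 = ref x.1)) (fun l => l ≠ lam)

/-- The spectator part of an exponent vector. -/
noncomputable def spec (c : Finset (Fin N)) (ref : Fin N → A) (lam : Λ) (γ : Sg N A Λ →₀ ℕ) :
    Sg N A Λ →₀ ℕ :=
  Finsupp.equivFunOnFinite.symm (fun s => if IsSpec c ref lam s then γ s else 0)

/-- The reference part. -/
noncomputable def refp (c : Finset (Fin N)) (ref : Fin N → A) (γ : Sg N A Λ →₀ ℕ) :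
    Fin N →₀ ℕ :=
  Finsupp.equivFunOnFinite.symm (fun i => if i ∈ c then γ (Sum.inl (i, ref i)) else 0)

theorem spec_apply (c : Finset (Fin N)) (ref : Fin N → A) (lam : Λ) (γ : Sg N A Λ →₀ ℕ)
    (s : Sg N A Λ) : spec c ref lam γ s = if IsSpec c ref lam s then γ s else 0 := rfl

theorem refp_apply (c : Finset (Fin N)) (ref : Fin N → A) (γ : Sg N A Λ →₀ ℕ)
    (i : Fin N) : refp c ref γ i = if i ∈ c then γ (Sum.inl (i, ref i)) else 0 := rfl

theorem spec_add (c : Finset (Fin N)) (ref : Fin N → A) (lam : Λ) (γ δ : Sg N A Λ →₀ ℕ) :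
    spec c ref lam (γ + δ) = spec c ref lam γ + spec c ref lam δ := by
  ext s
  rw [Finsupp.add_apply, spec_apply, spec_apply, spec_apply, Finsupp.add_apply]
  split_ifs <;> simp

theorem refp_add (c : Finset (Fin N)) (ref : Fin N → A) (γ δ : Sg N A Λ →₀ ℕ) :
    refp c ref (γ + δ) = refp c ref γ + refp c ref δ := by
  ext s
  rw [Finsupp.add_apply, refp_apply, refp_apply, refp_apply, Finsupp.add_apply]
  split_ifs <;> simp

theorem spec_zero (c : Finset (Fin N)) (ref : Fin N → A) (lam : Λ) :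
    spec c ref lam (0 : Sg N A Λ →₀ ℕ) = 0 := by
  ext s
  rw [spec_apply]
  simp

theorem refp_zero (c : Finset (Fin N)) (ref : Fin N → A) :
    refp c ref (0 : Sg N A Λ →₀ ℕ) = 0 := by
  ext s
  rw [refp_apply]
  simp

/-- The image of a monomial. -/
noncomputable def TT (c : Finset (Fin N)) (ref : Fin N → A) (lam : Λ) (δ : Sg N A Λ →₀ ℕ) (r : ℂ) :
    MvPolynomial (Sg N A Λ) (MvPolynomial (Fin N) (Polynomial ℂ)) :=
  monomial (spec c ref lam δ) (monomial (refp c ref δ)
    (Polynomial.monomial (δ (Sum.inr lam)) r))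

theorem TT_mul (c : Finset (Fin N)) (ref : Fin N → A) (lam : Λ) (γ δ : Sg N A Λ →₀ ℕ) (r s : ℂ) :
    TT c ref lam γ r * TT c ref lam δ s = TT c ref lam (γ + δ) (r * s) := by
  unfold TT
  rw [monomial_mul, monomial_mul, Polynomial.monomial_mul_monomial, spec_add, refp_add,
    Finsupp.add_apply]

theorem TT_zero (c : Finset (Fin N)) (ref : Fin N → A) (lam : Λ) (r : ℂ) :
    TT c ref lam (0 : Sg N A Λ →₀ ℕ) r = C (C (Polynomial.C r)) := by
  unfold TT
  rw [spec_zero, refp_zero, Finsupp.zero_apply, Polynomial.monomial_zero_left]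
  rfl

/-- The separation of the variables. -/
noncomputable def Psi (c : Finset (Fin N)) (ref : Fin N → A) (lam : Λ) :
    MvPolynomial (Sg N A Λ) ℂ →+*
      MvPolynomial (Sg N A Λ) (MvPolynomial (Fin N) (Polynomial ℂ)) :=
  eval₂Hom ((C.comp C).comp Polynomial.C)
    (Sum.elim (fun x => if x.1 ∈ c ∧ x.2 = ref x.1 then C (X x.1) else X (Sum.inl x))
      (fun l => if l = lam then C (C Polynomial.X) else X (Sum.inr l)))

theorem Psi_C (c : Finset (Fin N)) (ref : Fin N → A) (lam : Λ) (r : ℂ) :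
    Psi c ref lam (C r) = C (C (Polynomial.C r)) := by
  unfold Psi
  rw [coe_eval₂Hom, eval₂_C]
  rfl

theorem Psi_X (c : Finset (Fin N)) (ref : Fin N → A) (lam : Λ) (s : Sg N A Λ) :
    Psi c ref lam (X s) = Sum.elim
      (fun x => if x.1 ∈ c ∧ x.2 = ref x.1 then C (X x.1) else X (Sum.inl x))
      (fun l => if l = lam then C (C Polynomial.X) else X (Sum.inr l)) s := by
  unfold Psi
  rw [coe_eval₂Hom, eval₂_X]

theorem Psi_X' (c : Finset (Fin N)) (ref : Fin N → A) (lam : Λ) (s : Sg N A Λ) :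
    Psi c ref lam (X s) = TT c ref lam (Finsupp.single s 1) 1 := by
  rw [Psi_X]
  unfold TT
  rcases s with ⟨i, x⟩ | l
  · simp only [Sum.elim_inl]
    have h0 : (Finsupp.single (Sum.inl (i, x)) 1 : Sg N A Λ →₀ ℕ) (Sum.inr lam) = 0 := by
      rw [Finsupp.single_apply, if_neg]
      intro h; cases h
    rw [h0]
    split_ifs with h
    · obtain ⟨hi, rfl⟩ := h
      have h1 : spec c ref lam (Finsupp.single (Sum.inl (i, ref i)) 1) = 0 := by
        ext s
        rw [spec_apply]
        split_ifs with hs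
        · rw [Finsupp.single_apply, if_neg, Finsupp.zero_apply]
          intro h
          subst h
          exact hs ⟨hi, rfl⟩
        · rfl
      have h2 : refp c ref (Finsupp.single (Sum.inl (i, ref i) : Sg N A Λ) 1)
          = Finsupp.single i 1 := by
        ext j
        rw [refp_apply]
        by_cases hj : j = i
        · subst hj
          rw [if_pos hi]
          simp
        · have e1 : (Finsupp.single i 1 : Fin N →₀ ℕ) j = 0 := by
            rw [Finsupp.single_apply, if_neg (fun h => hj h.symm)]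
          have e2 : (Finsupp.single (Sum.inl (i, ref i)) 1 : Sg N A Λ →₀ ℕ)
              (Sum.inl (j, ref j)) = 0 := by
            rw [Finsupp.single_apply, if_neg]
            intro h
            apply hj
            exact (Prod.mk.inj (Sum.inl.inj h)).1.symm
          rw [e1, e2, ite_self]
      rw [h1, h2]
      rfl
    · have h1 : spec c ref lam (Finsupp.single (Sum.inl (i, x)) 1)
          = Finsupp.single (Sum.inl (i, x)) 1 := by
        ext s
        rw [spec_apply]
        split_ifs with hs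
        · rfl
        · rw [Finsupp.single_apply, if_neg]
          intro h'
          subst h'
          exact hs h
      have h2 : refp c ref (Finsupp.single (Sum.inl (i, x) : Sg N A Λ) 1) = 0 := by
        ext j
        rw [refp_apply]
        split_ifs with hj
        · rw [Finsupp.single_apply, if_neg, Finsupp.zero_apply]
          intro h'
          have := Prod.mk.inj (Sum.inl.inj h')
          obtain ⟨rfl, rfl⟩ := this
          exact h ⟨hj, rfl⟩
        · rfl
      rw [h1, h2]
      rfl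
  · simp only [Sum.elim_inr]
    have h2 : refp c ref (Finsupp.single (Sum.inr l : Sg N A Λ) 1) = 0 := by
      ext j
      rw [refp_apply]
      split_ifs with hj
      · rw [Finsupp.single_apply, if_neg, Finsupp.zero_apply]
        intro h'
        cases h'
      · rfl
    rw [h2]
    split_ifs with h
    · subst h
      have h1 : spec c ref l (Finsupp.single (Sum.inr l) 1) = 0 := by
        ext s
        rw [spec_apply]
        split_ifs with hs
        · rw [Finsupp.single_apply, if_neg, Finsupp.zero_apply]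
          intro h
          subst h
          exact hs rfl
        · rfl
      rw [h1, Finsupp.single_eq_same]
      rfl
    · have h1 : spec c ref lam (Finsupp.single (Sum.inr l) 1) = Finsupp.single (Sum.inr l) 1 := by
        ext s
        rw [spec_apply]
        split_ifs with hs
        · rfl
        · rw [Finsupp.single_apply, if_neg]
          intro h'
          subst h'
          exact hs h
      have h3 : (Finsupp.single (Sum.inr l) 1 : Sg N A Λ →₀ ℕ) (Sum.inr lam) = 0 := by
        rw [Finsupp.single_apply, if_neg]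
        intro h'
        exact h (Sum.inr.inj h')
      rw [h1, h3]
      rfl

theorem Psi_monomial (c : Finset (Fin N)) (ref : Fin N → A) (lam : Λ) (δ : Sg N A Λ →₀ ℕ) (r : ℂ) :
    Psi c ref lam (monomial δ r) = TT c ref lam δ r := by
  have key1 : ∀ δ : Sg N A Λ →₀ ℕ, Psi c ref lam (monomial δ 1) = TT c ref lam δ 1 := by
    intro δ
    induction δ using Finsupp.induction_linear with
    | zero =>
      rw [TT_zero]
      have h : (monomial (0 : Sg N A Λ →₀ ℕ) (1 : ℂ)) = C 1 := rfl
      rw [h, Psi_C]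
    | add f g hf hg =>
      have h : (monomial (f + g) (1 : ℂ) : MvPolynomial (Sg N A Λ) ℂ)
          = monomial f 1 * monomial g 1 := by
        rw [monomial_mul, one_mul]
      rw [h, map_mul, hf, hg, TT_mul, one_mul]
    | single s n =>
      induction n with
      | zero =>
        rw [Finsupp.single_zero, TT_zero]
        have h : (monomial (0 : Sg N A Λ →₀ ℕ) (1 : ℂ)) = C 1 := rfl
        rw [h, Psi_C]
      | succ n ih =>
        have h : (monomial (Finsupp.single s (n + 1)) (1 : ℂ) : MvPolynomial (Sg N A Λ) ℂ)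
            = monomial (Finsupp.single s n) 1 * MvPolynomial.X s := by
          rw [MvPolynomial.X, monomial_mul, one_mul, Finsupp.single_add]
        rw [h, map_mul, ih, Psi_X', TT_mul, one_mul, Finsupp.single_add]
  have h : (monomial δ r : MvPolynomial (Sg N A Λ) ℂ) = C r * monomial δ 1 := by
    rw [C_mul_monomial, mul_one]
  rw [h, map_mul, key1, Psi_C, ← TT_zero c ref lam, TT_mul, zero_add, mul_one]

theorem sep_inj (c : Finset (Fin N)) (ref : Fin N → A) (lam : Λ) (γ δ : Sg N A Λ →₀ ℕ)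
    (h1 : spec c ref lam γ = spec c ref lam δ) (h2 : refp c ref γ = refp c ref δ)
    (h3 : γ (Sum.inr lam) = δ (Sum.inr lam)) : γ = δ := by
  ext s
  by_cases hs : IsSpec c ref lam s
  · have h := DFunLike.congr_fun h1 s
    rwa [spec_apply, spec_apply, if_pos hs, if_pos hs] at h
  · rcases s with ⟨i, x⟩ | l
    · have h : i ∈ c ∧ x = ref i := by
        by_contra h
        exact hs h
      obtain ⟨hi, rfl⟩ := h
      have h := DFunLike.congr_fun h2 i
      rwa [refp_apply, refp_apply, if_pos hi, if_pos hi] at h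
    · have h : l = lam := by
        by_contra h
        exact hs h
      rw [h, h3]

theorem coeff_Psi (c : Finset (Fin N)) (ref : Fin N → A) (lam : Λ)
    (F : MvPolynomial (Sg N A Λ) ℂ) (γ : Sg N A Λ →₀ ℕ) :
    (coeff (refp c ref γ) (coeff (spec c ref lam γ) (Psi c ref lam F))).coeff (γ (Sum.inr lam))
      = coeff γ F := by
  induction F using MvPolynomial.induction_on' with
  | monomial δ r =>
    rw [Psi_monomial, TT, coeff_monomial]
    by_cases h : δ = γ
    · subst h
      rw [if_pos rfl, coeff_monomial, if_pos rfl, Polynomial.coeff_monomial, if_pos rfl,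
        coeff_monomial, if_pos rfl]
    · rw [coeff_monomial, if_neg h]
      split_ifs with h1
      · rw [coeff_monomial]
        split_ifs with h2
        · rw [Polynomial.coeff_monomial]
          split_ifs with h3
          · exact absurd (sep_inj c ref lam δ γ h1 h2 h3) h
          · rfl
        · rfl
      · rw [coeff_zero]; rfl
  | add p q hp hq =>
    rw [map_add, coeff_add, coeff_add, Polynomial.coeff_add, hp, hq, coeff_add]

theorem coeff_Psi_zero (c : Finset (Fin N)) (ref : Fin N → A) (lam : Λ)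
    (F : MvPolynomial (Sg N A Λ) ℂ) (σ : Sg N A Λ →₀ ℕ) (b : Fin N →₀ ℕ)
    (i : Fin N) (hi : i ∉ c) (hb : b i ≠ 0) :
    coeff b (coeff σ (Psi c ref lam F)) = 0 := by
  induction F using MvPolynomial.induction_on' with
  | monomial δ r =>
    rw [Psi_monomial, TT, coeff_monomial]
    split_ifs with h1
    · rw [coeff_monomial, if_neg]
      intro h
      apply hb
      rw [← h, refp_apply, if_neg hi]
    · rfl
  | add p q hp hq =>
    rw [map_add, coeff_add, coeff_add, hp, hq, add_zero]

/-- The exponent vector with given parts. -/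
noncomputable def mk (c : Finset (Fin N)) (ref : Fin N → A) (lam : Λ)
    (σ : Sg N A Λ →₀ ℕ) (b : Fin N →₀ ℕ) (j : ℕ) : Sg N A Λ →₀ ℕ :=
  Finsupp.equivFunOnFinite.symm (Sum.elim
    (fun x => if x.1 ∈ c ∧ x.2 = ref x.1 then b x.1 else σ (Sum.inl x))
    (fun l => if l = lam then j else σ (Sum.inr l)))

theorem mk_inl (c : Finset (Fin N)) (ref : Fin N → A) (lam : Λ)
    (σ : Sg N A Λ →₀ ℕ) (b : Fin N →₀ ℕ) (j : ℕ) (x : Fin N × A) :
    mk c ref lam σ b j (Sum.inl x) = if x.1 ∈ c ∧ x.2 = ref x.1 then b x.1 else σ (Sum.inl x) :=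
  rfl

theorem mk_inr (c : Finset (Fin N)) (ref : Fin N → A) (lam : Λ)
    (σ : Sg N A Λ →₀ ℕ) (b : Fin N →₀ ℕ) (j : ℕ) (l : Λ) :
    mk c ref lam σ b j (Sum.inr l) = if l = lam then j else σ (Sum.inr l) :=
  rfl

theorem spec_mk (c : Finset (Fin N)) (ref : Fin N → A) (lam : Λ)
    (γ : Sg N A Λ →₀ ℕ) (b : Fin N →₀ ℕ) (j : ℕ) :
    spec c ref lam (mk c ref lam (spec c ref lam γ) b j) = spec c ref lam γ := by
  ext s
  rw [spec_apply]
  rcases s with ⟨i, x⟩ | l
  · rw [mk_inl]
    by_cases h : i ∈ c ∧ x = ref i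
    · rw [if_pos h, if_neg (show ¬ IsSpec c ref lam (Sum.inl (i, x)) from fun h' => h' h),
        spec_apply, if_neg (show ¬ IsSpec c ref lam (Sum.inl (i, x)) from fun h' => h' h)]
    · rw [if_neg h, if_pos (show IsSpec c ref lam (Sum.inl (i, x)) from h)]
  · rw [mk_inr]
    by_cases h : l = lam
    · rw [if_pos h, if_neg (show ¬ IsSpec c ref lam (Sum.inr l) from fun h' => h' h),
        spec_apply, if_neg (show ¬ IsSpec c ref lam (Sum.inr l) from fun h' => h' h)]
    · rw [if_neg h, if_pos (show IsSpec c ref lam (Sum.inr l) from h)]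

theorem refp_mk (c : Finset (Fin N)) (ref : Fin N → A) (lam : Λ)
    (σ : Sg N A Λ →₀ ℕ) (b : Fin N →₀ ℕ) (j : ℕ) (hb : ∀ i, i ∉ c → b i = 0) :
    refp c ref (mk c ref lam σ b j) = b := by
  ext i
  rw [refp_apply]
  by_cases hi : i ∈ c
  · rw [if_pos hi, mk_inl, if_pos ⟨hi, rfl⟩]
  · rw [if_neg hi, hb i hi]

/-- The degree of the spectators in a block. -/
noncomputable def om (c : Finset (Fin N)) (ref : Fin N → A) (lam : Λ) (γ : Sg N A Λ →₀ ℕ)
    (i : Fin N) : ℕ := ∑ a, spec c ref lam γ (Sum.inl (i, a))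

theorem bdeg_mk (c : Finset (Fin N)) (ref : Fin N → A) (lam : Λ)
    (γ : Sg N A Λ →₀ ℕ) (b : Fin N →₀ ℕ) (j : ℕ) (hb : ∀ i, i ∉ c → b i = 0) (i : Fin N) :
    bdeg (mk c ref lam (spec c ref lam γ) b j) i = b i + om c ref lam γ i := by
  unfold bdeg om
  by_cases hi : i ∈ c
  · rw [← Finset.add_sum_erase _ _ (Finset.mem_univ (ref i)),
      ← Finset.add_sum_erase _ (fun a => spec c ref lam γ (Sum.inl (i, a)))
        (Finset.mem_univ (ref i)), mk_inl, if_pos ⟨hi, rfl⟩, spec_apply,
      if_neg (show ¬ IsSpec c ref lam (Sum.inl (i, ref i)) from fun h' => h' ⟨hi, rfl⟩), zero_add]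
    congr 1
    apply Finset.sum_congr rfl
    intro a ha
    rw [mk_inl, if_neg]
    intro h
    exact Finset.ne_of_mem_erase ha h.2
  · rw [hb i hi, zero_add]
    apply Finset.sum_congr rfl
    intro a _
    rw [mk_inl, if_neg]
    intro h
    exact hi h.1

theorem mk_self (c : Finset (Fin N)) (ref : Fin N → A) (lam : Λ)
    (γ : Sg N A Λ →₀ ℕ) :
    mk c ref lam (spec c ref lam γ) (refp c ref γ) (γ (Sum.inr lam)) = γ := by
  have hb : ∀ i, i ∉ c → refp c ref γ i = 0 := by
    intro i hi
    rw [refp_apply, if_neg hi]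
  apply sep_inj c ref lam
  · exact spec_mk c ref lam γ _ _
  · exact refp_mk c ref lam _ _ _ hb
  · rw [mk_inr, if_pos rfl]

theorem bdeg_eq (c : Finset (Fin N)) (ref : Fin N → A) (lam : Λ)
    (γ : Sg N A Λ →₀ ℕ) (i : Fin N) :
    bdeg γ i = refp c ref γ i + om c ref lam γ i := by
  have hb : ∀ i, i ∉ c → refp c ref γ i = 0 := by
    intro i hi
    rw [refp_apply, if_neg hi]
  have h := bdeg_mk c ref lam γ (refp c ref γ) (γ (Sum.inr lam)) hb i
  rwa [mk_self] at h

theorem om_zero_card (c : Finset (Fin N)) (ref : Fin N → A) (lam : Λ)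
    (γ : Sg N A Λ →₀ ℕ) :
    (c.filter (fun i => om c ref lam γ i = 0)).card = pureCount c ref γ := by
  unfold pureCount
  congr 1
  apply Finset.filter_congr
  intro i hi
  unfold om
  rw [Finset.sum_eq_zero_iff]
  constructor
  · intro h a ha
    have := h a (Finset.mem_univ a)
    rwa [spec_apply, if_pos] at this
    intro h'
    exact ha h'.2
  · intro h a _
    rw [spec_apply]
    split_ifs with h1
    · apply h
      intro h2
      exact h1 ⟨hi, h2⟩
    · rfl

theorem lin_vec (c : Finset (Fin N)) (ref : Fin N → A) (v : Fin N → A → ℂ) (lam : Λ) :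
    lin (vec c v (Pi.single lam 1)) =
      sbt c ref v (∑ i ∈ c, X (Sum.inl (i, ref i)) + X (Sum.inr lam)) := by
  unfold lin
  rw [map_add, map_sum, BlockAX.sbt_X_inr, Fintype.sum_sum_type]
  congr 1
  · rw [Fintype.sum_prod_type, ← Finset.sum_subset (Finset.subset_univ c)]
    · apply Finset.sum_congr rfl
      intro i hi
      rw [BlockAX.sbt_X_inl_of c ref v i hi]
      apply Finset.sum_congr rfl
      intro a _
      simp only [vec, Sum.elim_inl, if_pos hi]
    · intro i _ hi
      apply Finset.sum_eq_zero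
      intro a _
      simp only [vec, Sum.elim_inl, if_neg hi, C_0, zero_mul]
  · rw [Finset.sum_eq_single lam]
    · simp only [vec, Sum.elim_inr, Pi.single_eq_same, C_1, one_mul]
    · intro l _ hl
      simp only [vec, Sum.elim_inr, Pi.single_eq_of_ne hl, C_0, zero_mul]
    · intro h
      exact absurd (Finset.mem_univ _) h

theorem Psi_L (c : Finset (Fin N)) (ref : Fin N → A) (lam : Λ) :
    Psi c ref lam (∑ i ∈ c, X (Sum.inl (i, ref i)) + X (Sum.inr lam)) =
      C ((∑ i ∈ c, X i) + C Polynomial.X) := by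
  rw [map_add, map_sum, map_add, map_sum, Psi_X, Sum.elim_inr, if_pos rfl]
  congr 1
  apply Finset.sum_congr rfl
  intro i hi
  rw [Psi_X, Sum.elim_inl, if_pos ⟨hi, rfl⟩]

end LeadSX

open LeadSX

/-- The leading structure of a multiple of the power of the linear form of a point. -/
theorem lead_struct (c : Finset (Fin N)) (ref : Fin N → A) (v : Fin N → A → ℂ)
    (hv : ∀ i ∈ c, v i (ref i) ≠ 0) (lam : Λ) (g : MvPolynomial (Sg N A Λ) ℂ) (a : Fin N → ℕ)
    (hlow : ∀ γ, key (bdeg γ) < key a →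
      coeff γ (g * lin (vec c v (Pi.single lam 1)) ^ c.card) = 0) :
    ∃ ft : MvPolynomial (Sg N A Λ) ℂ,
      sbt c ref v ft = g * lin (vec c v (Pi.single lam 1)) ^ c.card ∧
      ∀ γ, bdeg γ = a → coeff γ ft ≠ 0 →
        (∀ i ∈ c, a i ≠ 0) ∧ c.card ≤ γ (Sum.inr lam) + pureCount c ref γ := by
  set f := g * lin (vec c v (Pi.single lam 1)) ^ c.card with hf
  set ft := BlockAX.theta c ref v f with hft
  have hsbt : sbt c ref v ft = f := BlockAX.sbt_theta c ref v hv f
  refine ⟨ft, hsbt, ?_⟩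
  have hft2 : ft = BlockAX.theta c ref v g *
      (∑ i ∈ c, X (Sum.inl (i, ref i)) + X (Sum.inr lam)) ^ c.card := by
    rw [hft, hf, map_mul, map_pow, lin_vec c ref v lam, BlockAX.theta_sbt c ref v hv]
  -- low coefficients of `ft`
  have hlow' : ∀ γ, key (bdeg γ) < key a → coeff γ ft = 0 := by
    intro γ hγ
    have h1 : comp (bdeg γ) (fun l => γ (Sum.inr l)) f = 0 := by
      ext δ
      rw [coeff_comp, coeff_zero]
      split_ifs with h
      · apply hlow
        rw [h.1]
        exact hγ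
      · rfl
    rw [← hsbt, comp_sbt] at h1
    have h2 : comp (bdeg γ) (fun l => γ (Sum.inr l)) ft = 0 := by
      apply sbt_injective c ref v hv
      rw [h1, map_zero]
    have h3 := coeff_comp (bdeg γ) (fun l => γ (Sum.inr l)) ft γ
    rw [h2, coeff_zero, if_pos ⟨rfl, rfl⟩] at h3
    exact h3.symm
  intro γ hγa hγ
  set Q : MvPolynomial (Fin N) (Polynomial ℂ) :=
    coeff (spec c ref lam γ) (Psi c ref lam ft) with hQ
  have hdiv : ((∑ i ∈ c, X i) + C Polynomial.X) ^ c.card ∣ Q := by
    rw [hQ, hft2, map_mul, map_pow, Psi_L, ← map_pow, mul_comm, coeff_C_mul]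
    exact dvd_mul_right _ _
  have hb : coeff (refp c ref γ) Q ≠ 0 := by
    intro h
    apply hγ
    rw [← coeff_Psi c ref lam ft γ, ← hQ, h, Polynomial.coeff_zero]
  have hkey : (fun i => refp c ref γ i + om c ref lam γ i) = a := by
    rw [← hγa]
    funext i
    rw [bdeg_eq c ref lam γ i]
  obtain ⟨h1, h2⟩ := lead_lemma (R := Polynomial ℂ) N c (om c ref lam γ) Polynomial.X
    Polynomial.X_ne_zero c.card (Finset.card_filter_le _ _) Q hdiv (refp c ref γ) hb (by
      intro b' hb'
      rw [hkey] at hb'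
      by_cases hsupp : ∀ i, i ∉ c → b' i = 0
      · ext j
        rw [Polynomial.coeff_zero]
        have h3 := coeff_Psi c ref lam ft (mk c ref lam (spec c ref lam γ) b' j)
        rw [spec_mk, refp_mk _ _ _ _ _ _ hsupp, mk_inr, if_pos rfl] at h3
        rw [hQ, h3]
        apply hlow'
        have h4 : bdeg (mk c ref lam (spec c ref lam γ) b' j)
            = fun i => b' i + om c ref lam γ i := by
          funext i
          exact bdeg_mk c ref lam γ b' j hsupp i
        rw [h4]
        exact hb'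
      · push Not at hsupp
        obtain ⟨i, hi, hbi⟩ := hsupp
        exact coeff_Psi_zero c ref lam ft _ b' i hi hbi)
  refine ⟨?_, ?_⟩
  · intro i hi
    have := h1 i hi
    rwa [congrFun hkey i] at this
  · rw [om_zero_card] at h2
    by_contra hlt
    push Not at hlt
    apply hγ
    rw [← coeff_Psi c ref lam ft γ, ← hQ]
    obtain ⟨q, hq⟩ := h2
    rw [hq, Polynomial.coeff_X_pow_mul']
    rw [if_neg]
    omega

end Pool.Agent.H21.HD

end

section

/-!
ColInj is open.
-/

namespace Pool.Agent.H21.HD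

open MvPolynomial
open scoped Classical

variable {N : ℕ} {A Λ P : Type} [Fintype A] [Fintype Λ] [Fintype P]

namespace ColOpenX

/-- the exponent vectors of the column -/
def Gam (N : ℕ) (A Λ : Type) [Fintype A] [Fintype Λ] (a : Fin N → ℕ) (μ : Λ → ℕ) :
    Set (Sg N A Λ →₀ ℕ) :=
  {γ | bdeg γ = a ∧ (fun l => γ (Sum.inr l)) = μ}

theorem gam_finite (a : Fin N → ℕ) (μ : Λ → ℕ) : (Gam N A Λ a μ).Finite := by
  let b : Sg N A Λ →₀ ℕ := Finsupp.equivFunOnFinite.symm (Sum.elim (fun x => a x.1) μ)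
  refine (Set.finite_Iic b).subset ?_
  rintro γ ⟨h1, h2⟩
  rw [Set.mem_Iic]
  intro s
  rcases s with ⟨i, t⟩ | l
  · have h3 : γ (Sum.inl (i, t)) ≤ bdeg γ i := by
      unfold bdeg
      exact Finset.single_le_sum (f := fun t => γ (Sum.inl (i, t))) (fun _ _ => Nat.zero_le _)
        (Finset.mem_univ t)
    rw [h1] at h3
    simpa [b] using h3
  · have h3 : γ (Sum.inr l) = μ l := congrFun h2 l
    simp [b, h3]

/-- the space of the admissible families -/
noncomputable def VV (c : P → Finset (Fin N)) (lab : P → Λ) (ref : P → Fin N → A) (a : Fin N → ℕ)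
    (μ : Λ → ℕ) : Submodule ℂ (P → MvPolynomial (Sg N A Λ) ℂ) where
  carrier := {ft | Adm c lab ref a μ ft}
  zero_mem' := by
    intro p γ h
    simp at h
  add_mem' := by
    intro f g hf hg p γ h
    rw [Pi.add_apply, coeff_add] at h
    by_cases h1 : coeff γ (f p) = 0
    · rw [h1, zero_add] at h
      exact hg p γ h
    · exact hf p γ h1
  smul_mem' := by
    intro z f hf p γ h
    rw [Pi.smul_apply, coeff_smul] at h
    exact hf p γ (right_ne_zero_of_mul (by simpa using h))

theorem finiteDimensional_VV (c : P → Finset (Fin N)) (lab : P → Λ) (ref : P → Fin N → A)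
    (a : Fin N → ℕ) (μ : Λ → ℕ) : FiniteDimensional ℂ (VV c lab ref a μ) := by
  have : Finite (Gam N A Λ a μ) := gam_finite a μ
  let f : VV c lab ref a μ →ₗ[ℂ] (P × Gam N A Λ a μ → ℂ) :=
    { toFun := fun ft q => coeff q.2.1 (ft.1 q.1)
      map_add' := by
        intro x y
        funext q
        simp
      map_smul' := by
        intro z x
        funext q
        simp }
  refine FiniteDimensional.of_injective f ?_
  rw [injective_iff_map_eq_zero]
  intro ft h
  apply Subtype.ext
  funext p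
  apply MvPolynomial.ext
  intro γ
  rw [Submodule.coe_zero, Pi.zero_apply, coeff_zero]
  by_contra hne
  have h1 := ft.2 p γ hne
  have h2 : f ft (p, ⟨γ, h1.1, h1.2.1⟩) = 0 := by
    rw [h]; rfl
  exact hne h2

/-- the linear map of the column -/
noncomputable def TT (c : P → Finset (Fin N)) (lab : P → Λ) (ref : P → Fin N → A) (a : Fin N → ℕ)
    (μ : Λ → ℕ) (x : P × Fin N × A → ℂ) : VV c lab ref a μ →ₗ[ℂ] (Gam N A Λ a μ → ℂ) where
  toFun := fun ft γ => coeff γ.1 (∑ p, sbt (c p) (ref p) (fun i t => x (p, i, t)) (ft.1 p))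
  map_add' := by
    intro f g
    funext γ
    simp only [Submodule.coe_add, Pi.add_apply, map_add, Finset.sum_add_distrib, coeff_add]
  map_smul' := by
    intro z f
    funext γ
    simp only [Submodule.coe_smul, Pi.smul_apply, map_smul, RingHom.id_apply]
    rw [← Finset.smul_sum, coeff_smul]

theorem TT_apply (c : P → Finset (Fin N)) (lab : P → Λ) (ref : P → Fin N → A) (a : Fin N → ℕ)
    (μ : Λ → ℕ) (x : P × Fin N × A → ℂ) (ft : VV c lab ref a μ) (γ : Gam N A Λ a μ) :
    TT c lab ref a μ x ft γ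
      = coeff γ.1 (∑ p, sbt (c p) (ref p) (fun i t => x (p, i, t)) (ft.1 p)) := rfl

theorem TT_poly (c : P → Finset (Fin N)) (lab : P → Λ) (ref : P → Fin N → A) (a : Fin N → ℕ)
    (μ : Λ → ℕ) (ft : VV c lab ref a μ) (γ : Gam N A Λ a μ) :
    PolyFun (fun x => TT c lab ref a μ x ft γ) := by
  have h1 : (fun x => TT c lab ref a μ x ft γ)
      = fun x => ∑ p ∈ Finset.univ, coeff γ.1 (sbt (c p) (ref p) (fun i t => x (p, i, t)) (ft.1 p)) := by
    funext x
    rw [TT_apply, coeff_sum]
  rw [h1]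
  apply PolyFun.sum
  intro p _
  obtain ⟨M, hM⟩ := sbt_poly (Λ := Λ) (c p) (ref p) (ft.1 p) γ.1
  refine ⟨rename (fun q : Fin N × A => (p, q.1, q.2)) M, fun x => ?_⟩
  rw [eval_rename]
  exact hM (fun q => x (p, q.1, q.2))

/-- a family with vanishing image -/
theorem sum_eq_zero_iff (c : P → Finset (Fin N)) (lab : P → Λ) (ref : P → Fin N → A) (a : Fin N → ℕ)
    (μ : Λ → ℕ) (v : P → Fin N → A → ℂ) (ft : P → MvPolynomial (Sg N A Λ) ℂ)
    (hft : Adm c lab ref a μ ft)
    (h : ∀ γ ∈ Gam N A Λ a μ, coeff γ (∑ p, sbt (c p) (ref p) (v p) (ft p)) = 0) :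
    ∑ p, sbt (c p) (ref p) (v p) (ft p) = 0 := by
  have h1 : ∀ p, comp a μ (ft p) = ft p := by
    intro p
    apply MvPolynomial.ext
    intro γ
    rw [coeff_comp]
    split_ifs with h2
    · rfl
    · by_contra h3
      have h4 := hft p γ (Ne.symm h3)
      exact h2 ⟨h4.1, h4.2.1⟩
  have h5 : comp a μ (∑ p, sbt (c p) (ref p) (v p) (ft p)) = ∑ p, sbt (c p) (ref p) (v p) (ft p) := by
    rw [map_sum]
    apply Finset.sum_congr rfl
    intro p _
    rw [comp_sbt, h1]
  apply MvPolynomial.ext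
  intro γ
  rw [coeff_zero]
  by_cases h6 : γ ∈ Gam N A Λ a μ
  · exact h γ h6
  · rw [← h5, coeff_comp]
    exact if_neg h6

end ColOpenX

open ColOpenX

/-- `ColInj` is an open condition. -/
theorem colInj_open (c : P → Finset (Fin N)) (lab : P → Λ) (ref : P → Fin N → A) (a : Fin N → ℕ)
    (μ : Λ → ℕ) (v₀ : P → Fin N → A → ℂ) (h : ColInj c lab ref a μ v₀) :
    ∃ G : MvPolynomial (P × Fin N × A) ℂ, G ≠ 0 ∧ ∀ v : P → Fin N → A → ℂ,
      eval (fun x => v x.1 x.2.1 x.2.2) G ≠ 0 → ColInj c lab ref a μ v := by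
  have : Finite (Gam N A Λ a μ) := gam_finite a μ
  have := finiteDimensional_VV c lab ref a μ
  obtain ⟨G, hG1, hG2⟩ := open_inj (TT c lab ref a μ) (TT_poly c lab ref a μ)
    (fun x => v₀ x.1 x.2.1 x.2.2) (by
      rw [injective_iff_map_eq_zero]
      intro ft h1
      have h2 : ∑ p, sbt (c p) (ref p) (v₀ p) (ft.1 p) = 0 := by
        apply sum_eq_zero_iff c lab ref a μ v₀ ft.1 ft.2
        intro γ hγ
        have h3 := congrFun h1 ⟨γ, hγ⟩
        rw [TT_apply] at h3
        exact h3
      have h4 := h ft.1 ft.2 h2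
      apply Subtype.ext
      funext p
      exact h4 p)
  refine ⟨G, ?_, ?_⟩
  · rintro rfl
    simp at hG1
  · intro v hv ft hft h1
    have h2 := (injective_iff_map_eq_zero _).1 (hG2 _ hv) ⟨ft, hft⟩ (by
      funext γ
      rw [TT_apply]
      have h3 := congrArg (coeff γ.1) h1
      rw [coeff_zero] at h3
      exact h3)
    intro p
    have h3 := congrArg Subtype.val h2
    exact congrFun h3 p

end Pool.Agent.H21.HD

end

section

/-!
The column lemma.
-/

namespace Pool.Agent.H21.HD

open MvPolynomial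
open scoped Classical

variable {N : ℕ} {A Λ P : Type} [Fintype A] [Fintype Λ] [Fintype P]

/-- `Good` does not depend on the values of `v` at the special points. -/
theorem ColMX.good_congr {ι A α : Type} {B : ι → Type} {pt : ∀ i, A → B i}
    {N : ∀ i, B i → MvPolynomial A ℂ} {J : Finset ι} {P Q : Finset α} {c : α → Finset ι}
    {f : α → ℕ} {ref : α → ι → A} {v v' : α → ι → A → ℂ} (hv : ∀ p ∈ P, v p = v' p)
    (h : Good pt N J P Q c f ref v) : Good pt N J P Q c f ref v' := by
  intro κ h1 h2 h3 h4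
  refine h κ h1 h2 h3 fun y => ?_
  rw [← h4 y]
  congr 1
  refine Finset.sum_congr rfl fun p hp => ?_
  rw [hv p hp]

/-- The value of a monomial with multinomial coefficient at a unit vector. -/
theorem ColMX.eval_unit (k : ℕ) (a : A) (β : A →₀ ℕ) (hβ : β.degree = k) :
    eval (Pi.single a (1 : ℂ)) (monomial β (Nat.multinomial Finset.univ β : ℂ)) =
      if β = Finsupp.single a k then 1 else 0 := by
  rw [eval_monomial]
  by_cases h : β = Finsupp.single a k
  · rw [if_pos h, h]
    have h1 : Nat.multinomial Finset.univ (Finsupp.single a k : A →₀ ℕ) = 1 := by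
      rw [Nat.multinomial]
      have e1 : ∑ i : A, (Finsupp.single a k : A →₀ ℕ) i = k := by
        simp [Finsupp.single_apply]
      have e2 : ∏ i : A, ((Finsupp.single a k : A →₀ ℕ) i).factorial = k.factorial := by
        rw [Finset.prod_eq_single a]
        · simp
        · intro b _ hb
          rw [Finsupp.single_apply, if_neg (Ne.symm hb)]
          rfl
        · simp
      rw [e1, e2]
      exact Nat.div_self (Nat.factorial_pos k)
    rw [h1, Finsupp.prod_single_index]
    · simp
    · simp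
  · rw [if_neg h]
    have h2 : ∃ b ∈ β.support, b ≠ a := by
      by_contra hcon
      push Not at hcon
      apply h
      have h3 : β.support ⊆ {a} := fun b hb => Finset.mem_singleton.mpr (hcon b hb)
      have h4 := Finsupp.support_subset_singleton.mp h3
      rw [h4] at hβ
      rw [h4]
      congr 1
      rw [← hβ]
      simp
    obtain ⟨b, hb, hba⟩ := h2
    have h5 : (β.prod fun n e => (Pi.single a (1 : ℂ) : A → ℂ) n ^ e) = 0 := by
      rw [Finsupp.prod]
      apply Finset.prod_eq_zero hb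
      rw [Pi.single_apply, if_neg hba, zero_pow (Finsupp.mem_support_iff.mp hb)]
    rw [h5, mul_zero]

theorem ColMX.union_le {ι : Type} {inst : DecidableEq ι} {s t u : Finset ι} (hs : s ⊆ u)
    (ht : t ⊆ u) : (@Union.union _ (@Finset.instUnion _ inst) s t).card ≤ u.card :=
  Finset.card_le_card (@Finset.union_subset _ inst _ _ _ hs ht)

theorem ColMX.inter_ne {ι : Type} {inst : DecidableEq ι} {s t u : Finset ι} (hs : s ⊆ u)
    (ht : t ⊆ u) (h : u.card < s.card + t.card) :
    (@Inter.inter _ (@Finset.instInter _ inst) s t).Nonempty := by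
  rw [← Finset.card_pos]
  have h1 := @Finset.card_union_add_card_inter _ inst s t
  have h2 : (@Union.union _ (@Finset.instUnion _ inst) s t).card ≤ u.card :=
    ColMX.union_le hs ht
  omega

/-- Finitely many exponent vectors of given degree. -/
theorem ColMX.finite_deg (k : ℕ) : Finite {β : A →₀ ℕ // β.degree = k} := by
  have h : Function.Injective (fun β : {β : A →₀ ℕ // β.degree = k} =>
      (fun a : A => (⟨β.1 a, Nat.lt_succ_of_le (by
        have := β.2
        calc β.1 a ≤ β.1.degree := Finsupp.le_degree a β.1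
          _ = k := this)⟩ : Fin (k + 1)))) := by
    intro β γ hβγ
    apply Subtype.ext
    ext a
    have := congrFun hβγ a
    simpa using this
  exact Finite.of_injective _ h

/-- The column lemma. -/
theorem col_inj (d : ℕ) (ε : ℝ) (hε : 0 < ε) : ∃ W : ℕ, ∀ (N : ℕ) (A Λ P : Type) [Fintype A]
    [Fintype Λ] [Fintype P], W ≤ Fintype.card A → ∀ (c : P → Finset (Fin N)) (lab : P → Λ)
    (a : Fin N → ℕ) (μ : Λ → ℕ), Function.Injective lab →
    (∀ p, ∀ i ∈ c p, a i ≠ 0) → (∀ p q, p ≠ q → d + 1 ≤ (c p).card + (c q).card) →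
    (∀ p, (c p).Nonempty) →
    ∑ i, a i + ∑ l, μ l = d →
    ∑ p, (1 : ℝ) / (Fintype.card A : ℝ) ^ (c p).card ≤ 1 - ε →
    ∃ ref : P → Fin N → A, ∃ G : MvPolynomial (P × Fin N × A) ℂ, G ≠ 0 ∧
      ∀ v : P → Fin N → A → ℂ, eval (fun x => v x.1 x.2.1 x.2.2) G ≠ 0 →
        ColInj c lab ref a μ v := by
  choose W hW using fun j => tensor_inj d j ε hε
  refine ⟨(∑ j ∈ Finset.range (d + 1), W j) + d + 1, ?_⟩
  intro N A Λ P _ _ _ hA c lab a μ hlab hca hpair hne hsum hload
  have hAd : d < Fintype.card A := by omega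
  have hAne : Nonempty A := Fintype.card_pos_iff.mp (by omega)
  -- the set of blocks
  set J : Finset (Fin N) := Finset.univ.filter (fun i => a i ≠ 0) with hJ
  have hJcard : J.card ≤ ∑ i, a i := by
    calc J.card = ∑ i ∈ J, 1 := by simp
      _ ≤ ∑ i ∈ J, a i := by
          apply Finset.sum_le_sum
          intro i hi
          rw [hJ, Finset.mem_filter] at hi
          omega
      _ ≤ ∑ i, a i := Finset.sum_le_sum_of_subset (Finset.subset_univ _)
  have hcJ : ∀ p, c p ⊆ J := fun p i hi => by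
    rw [hJ, Finset.mem_filter]
    exact ⟨Finset.mem_univ _, hca p i hi⟩
  set Ps : Finset P := Finset.univ.filter (fun p => μ (lab p) = 0) with hPs
  set Qs : Finset P := Finset.univ.filter (fun p => μ (lab p) ≠ 0) with hQs
  have hQmu : ∑ q ∈ Qs, μ (lab q) ≤ ∑ l, μ l := by
    rw [← Finset.sum_image (f := μ) (g := lab) (fun x _ y _ h => hlab h)]
    exact Finset.sum_le_sum_of_subset (Finset.subset_univ _)
  have hQcard : Qs.card ≤ d := by
    calc Qs.card = ∑ q ∈ Qs, 1 := by simp
      _ ≤ ∑ q ∈ Qs, μ (lab q) := by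
          apply Finset.sum_le_sum
          intro q hq
          rw [hQs, Finset.mem_filter] at hq
          omega
      _ ≤ ∑ l, μ l := hQmu
      _ ≤ d := by omega
  have hmu1 : ∀ q, μ (lab q) ≤ ∑ l, μ l := fun q =>
    Finset.single_le_sum (f := μ) (fun _ _ => Nat.zero_le _) (Finset.mem_univ _)
  have hmu2 : ∀ q q', q ≠ q' → μ (lab q) + μ (lab q') ≤ ∑ l, μ l := by
    intro q q' hqq
    have h1 : lab q ≠ lab q' := fun h => hqq (hlab h)
    rw [← Finset.sum_pair (f := μ) h1]
    exact Finset.sum_le_sum_of_subset (Finset.subset_univ _)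
  -- reference values
  have hemb : Nonempty (Qs ↪ A) := by
    apply Function.Embedding.nonempty_of_card_le
    rw [Fintype.card_coe]
    omega
  obtain ⟨emb⟩ := hemb
  let ref : P → Fin N → A := fun p _ => if h : p ∈ Qs then emb ⟨p, h⟩ else Classical.arbitrary A
  have hrefinj : ∀ i ∈ J, Set.InjOn (fun q => ref q i) (Qs : Set P) := by
    intro i _ q hq q' hq' h
    have hq1 : q ∈ Qs := hq
    have hq2 : q' ∈ Qs := hq'
    simp only [ref, dif_pos hq1, dif_pos hq2] at h
    have := emb.injective h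
    exact congrArg Subtype.val this
  haveI : ∀ i : Fin N, Fintype {β : A →₀ ℕ // β.degree = a i} := fun i =>
    @Fintype.ofFinite _ (ColMX.finite_deg (a i))
  haveI : ∀ i : Fin N, Nonempty {β : A →₀ ℕ // β.degree = a i} := fun i =>
    ⟨⟨Finsupp.single (Classical.arbitrary A) (a i), by simp⟩⟩
  have hWj : W J.card ≤ Fintype.card A := by
    have h1 : W J.card ≤ ∑ j ∈ Finset.range (d + 1), W j :=
      Finset.single_le_sum (f := W) (fun _ _ => Nat.zero_le _)
        (Finset.mem_range.mpr (by omega))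
    omega
  obtain ⟨v, hv⟩ := hW J.card (Fin N) A P (fun i => {β : A →₀ ℕ // β.degree = a i}) hWj
    (fun i s => ⟨Finsupp.single s (a i), by simp⟩)
    (fun i β => monomial β.1 (Nat.multinomial Finset.univ β.1 : ℂ)) J rfl
    (by
      intro i hi s t hst
      rw [hJ, Finset.mem_filter] at hi
      have h1 : Finsupp.single s (a i) = Finsupp.single t (a i) := congrArg Subtype.val hst
      rw [Finsupp.single_eq_single_iff] at h1
      rcases h1 with h1 | h1
      · exact h1.1
      · exact absurd h1.1 hi.2)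
    (by
      intro i _ s β
      rw [ColMX.eval_unit (a i) s β.1 β.2]
      by_cases h : β.1 = Finsupp.single s (a i)
      · rw [if_pos h, if_pos (Subtype.ext h)]
      · rw [if_neg h, if_neg fun h' => h (congrArg Subtype.val h')])
    Ps Qs c (fun p => (c p).card - μ (lab p)) ref
    (by
      rw [Finset.disjoint_left]
      intro p hp hq
      rw [hPs, Finset.mem_filter] at hp
      rw [hQs, Finset.mem_filter] at hq
      exact hq.2 hp.2)
    (fun p _ => hcJ p) (fun q _ => hcJ q)
    (by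
      intro p _ p' _ hpp
      have h2 := hpair p p' hpp
      exact ColMX.inter_ne (hcJ p) (hcJ p') (by omega))
    (by
      intro p hp q hq
      have hpq : p ≠ q := by
        rintro rfl
        rw [hPs, Finset.mem_filter] at hp
        rw [hQs, Finset.mem_filter] at hq
        exact hq.2 hp.2
      have h2 := hpair p q hpq
      have h4 := hmu1 q
      refine le_trans (Nat.add_le_add_right (ColMX.union_le (hcJ p) (hcJ q)) 1) ?_
      show J.card + 1 ≤ (c p).card + ((c q).card - μ (lab q))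
      omega)
    (by
      intro q _ q' _ hqq
      have h2 := hpair q q' hqq
      have h4 := hmu2 q q' hqq
      refine le_trans (Nat.add_le_add_right (ColMX.union_le (hcJ q) (hcJ q')) 1) ?_
      show J.card + 1 ≤ ((c q).card - μ (lab q)) + ((c q').card - μ (lab q'))
      omega)
    hrefinj hQcard
    (by
      right
      refine le_trans ?_ hload
      apply Finset.sum_le_sum_of_subset_of_nonneg (Finset.subset_univ _)
      intro p _ _
      positivity)
  let v' : P → Fin N → A → ℂ := fun p i =>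
    if μ (lab p) = 0 then v p i else Pi.single (ref p i) 1
  have hv' : Good (B := fun i => {β : A →₀ ℕ // β.degree = a i})
      (fun i s => ⟨Finsupp.single s (a i), by simp⟩)
      (fun i β => monomial β.1 (Nat.multinomial Finset.univ β.1 : ℂ)) J Ps Qs c
      (fun p => (c p).card - μ (lab p)) ref v' := by
    refine ColMX.good_congr (fun p hp => ?_) hv
    rw [hPs, Finset.mem_filter] at hp
    funext i
    simp only [v', if_pos hp.2]
  have hcol : ColInj c lab ref a μ v' :=
    colInj_of_good c lab ref a μ hca v' (fun p hp i _ => by simp only [v', if_neg hp]) hv'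
  obtain ⟨G, hG, hGv⟩ := colInj_open c lab ref a μ v' hcol
  exact ⟨ref, G, hG, hGv⟩

end Pool.Agent.H21.HD

end

section

/-!
From columns to PhiInj.
-/

namespace Pool.Agent.H21.HD

open MvPolynomial
open scoped Classical

variable {N : ℕ} {A Λ P : Type} [Fintype A] [Fintype Λ] [Fintype P]

private theorem PhiColX_coeff_lin {σ : Type} [Fintype σ] (v : σ → ℂ) (γ : σ →₀ ℕ)
    (h : coeff γ (lin v) ≠ 0) : ∃ s, v s ≠ 0 ∧ γ = Finsupp.single s 1 := by
  unfold lin at h
  rw [coeff_sum] at h
  obtain ⟨s, -, hs⟩ := Finset.exists_ne_zero_of_sum_ne_zero h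
  rw [coeff_C_mul, coeff_X] at hs
  refine ⟨s, left_ne_zero_of_mul hs, ?_⟩
  by_contra hne
  apply right_ne_zero_of_mul hs
  rw [if_neg (fun h' => hne h'.symm)]

private theorem PhiColX_lin_single {σ : Type} [Fintype σ] (v : σ → ℂ) (s : σ) :
    coeff (Finsupp.single s 1) (lin v) = v s := by
  unfold lin
  rw [coeff_sum, Finset.sum_eq_single s]
  · rw [coeff_C_mul, coeff_X, if_pos rfl, mul_one]
  · intro t _ hts
    rw [coeff_C_mul, coeff_X, if_neg, mul_zero]
    intro h'
    exact hts ((Finsupp.single_left_injective one_ne_zero) h')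
  · intro h'
    exact absurd (Finset.mem_univ s) h'

private theorem PhiColX_lin_hom {σ : Type} [Fintype σ] (v : σ → ℂ) :
    (lin v).IsHomogeneous 1 := by
  unfold lin
  apply IsHomogeneous.sum
  intro s _
  have := (isHomogeneous_C σ (v s)).mul (isHomogeneous_X ℂ s)
  rwa [zero_add] at this

private theorem PhiColX_pow_supp {σ : Type} [Fintype σ] (v : σ → ℂ) (e : ℕ) (γ : σ →₀ ℕ)
    (h : coeff γ (lin v ^ e) ≠ 0) (s : σ) (hs : γ s ≠ 0) : v s ≠ 0 := by
  induction e generalizing γ with
  | zero =>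
    rw [pow_zero, coeff_one] at h
    have : (0 : σ →₀ ℕ) = γ := by
      by_contra hne
      exact h (if_neg hne)
    rw [← this] at hs
    exact absurd rfl hs
  | succ n ih =>
    rw [pow_succ, coeff_mul] at h
    obtain ⟨x, hx, hxn⟩ := Finset.exists_ne_zero_of_sum_ne_zero h
    replace hx := Finset.HasAntidiagonal.mem_antidiagonal.1 hx
    have h1 := left_ne_zero_of_mul hxn
    have h2 := right_ne_zero_of_mul hxn
    obtain ⟨t, ht, hxt⟩ := PhiColX_coeff_lin v x.2 h2
    by_cases hst : x.1 s ≠ 0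
    · exact ih x.1 h1 hst
    · push Not at hst
      rw [← hx, Finsupp.add_apply, hst, zero_add, hxt] at hs
      have : t = s := by
        by_contra hne
        exact hs (Finsupp.single_eq_of_ne (fun h' => hne h'.symm))
      rw [← this]
      exact ht

private theorem PhiColX_bdeg_degree (γ : Sg N A Λ →₀ ℕ) :
    ∑ i, bdeg γ i + ∑ l, γ (Sum.inr l) = γ.degree := by
  unfold bdeg
  rw [Finsupp.degree_eq_sum, Fintype.sum_sum_type, Fintype.sum_prod_type]

omit [Fintype Λ] in
private theorem PhiColX_bsupp (γ : Sg N A Λ →₀ ℕ) (i : Fin N) :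
    i ∈ bsupp γ ↔ ∃ a, γ (Sum.inl (i, a)) ≠ 0 := by
  unfold bsupp bdeg
  rw [Finset.mem_filter]
  simp only [Finset.mem_univ, true_and]
  constructor
  · intro h
    by_contra hcon
    push Not at hcon
    exact h (Finset.sum_eq_zero fun a _ => hcon a)
  · rintro ⟨a, ha⟩ h
    rw [Finset.sum_eq_zero_iff] at h
    exact ha (h a (Finset.mem_univ a))

/-- `PhiInj` from the injectivity in all columns, for points with distinct labels; here all the
sets `c p` are contained in `J`. -/
theorem phiInj_of_col (d : ℕ) (J : Finset (Fin N)) (c : P → Finset (Fin N)) (hc : ∀ p, c p ⊆ J)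
    (hcd : ∀ p, (c p).card ≤ d) (lab : P → Λ) (v : P → Fin N → A → ℂ)
    (hv : ∀ p i a, v p i a ≠ 0)
    (h : ∀ (a : Fin N → ℕ) (μ : Λ → ℕ), Finset.univ.filter (fun i => a i ≠ 0) = J →
      ∑ i, a i + ∑ l, μ l = d → ∃ ref : P → Fin N → A, ColInj c lab ref a μ v) :
    PhiInj d J c v (fun p => Pi.single (lab p) 1) := by
  intro g hg hgJ hsum
  by_contra hcon
  push Not at hcon
  obtain ⟨p₁, hp₁⟩ := hcon
  -- the products
  set L : P → MvPolynomial (Sg N A Λ) ℂ :=
    fun p => lin (vec (c p) (v p) (Pi.single (lab p) 1)) with hL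
  set f : P → MvPolynomial (Sg N A Λ) ℂ := fun p => g p * L p ^ (c p).card with hf
  have hL0 : ∀ p, L p ≠ 0 := by
    intro p h0
    have h1 := PhiColX_lin_single (vec (c p) (v p) (Pi.single (lab p) 1)) (Sum.inr (lab p))
    have h2 : lin (vec (c p) (v p) (Pi.single (lab p) 1)) = 0 := h0
    rw [h2, coeff_zero] at h1
    simp [vec] at h1
  have hf1 : f p₁ ≠ 0 := mul_ne_zero hp₁ (pow_ne_zero _ (hL0 p₁))
  -- the supports
  have hfhom : ∀ p, (f p).IsHomogeneous d := by
    intro p
    have h1 := (hg p).mul ((PhiColX_lin_hom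
      (vec (c p) (v p) (Pi.single (lab p) 1))).pow (c p).card)
    rw [one_mul, Nat.sub_add_cancel (hcd p)] at h1
    exact h1
  -- minimal key
  obtain ⟨x₀, hx₀, hmin⟩ : ∃ x₀ : (p : P) × (Sg N A Λ →₀ ℕ),
      coeff x₀.2 (f x₀.1) ≠ 0 ∧ ∀ p γ, key (bdeg γ) < key (bdeg x₀.2) → coeff γ (f p) = 0 := by
    let S : Finset ((p : P) × (Sg N A Λ →₀ ℕ)) := Finset.univ.sigma (fun p => (f p).support)
    have hS : S.Nonempty := by
      obtain ⟨γ, hγ⟩ := MvPolynomial.ne_zero_iff.1 hf1
      exact ⟨⟨p₁, γ⟩, by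
        rw [Finset.mem_sigma]
        exact ⟨Finset.mem_univ _, MvPolynomial.mem_support_iff.2 hγ⟩⟩
    obtain ⟨x₀, hx₀, hmin⟩ := S.exists_min_image (fun x => key (bdeg x.2)) hS
    refine ⟨x₀, MvPolynomial.mem_support_iff.1 (Finset.mem_sigma.1 hx₀).2, ?_⟩
    intro p γ hlt
    by_contra hne
    have h1 := hmin ⟨p, γ⟩ (by
      rw [Finset.mem_sigma]
      exact ⟨Finset.mem_univ _, MvPolynomial.mem_support_iff.2 hne⟩)
    exact absurd hlt (not_lt.2 h1)
  obtain ⟨p₀, γ₀⟩ := x₀
  simp only at hx₀ hmin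
  set a : Fin N → ℕ := bdeg γ₀ with ha
  set μ : Λ → ℕ := fun l => γ₀ (Sum.inr l) with hμ
  -- decomposition of γ₀
  obtain ⟨γ₁, γ₂, hγ12, hγ1, hγ2⟩ : ∃ γ₁ γ₂, γ₁ + γ₂ = γ₀ ∧ coeff γ₁ (g p₀) ≠ 0 ∧
      coeff γ₂ (L p₀ ^ (c p₀).card) ≠ 0 := by
    have h1 := hx₀
    rw [hf] at h1
    simp only at h1
    rw [coeff_mul] at h1
    obtain ⟨x, hx, hxn⟩ := Finset.exists_ne_zero_of_sum_ne_zero h1
    replace hx := Finset.HasAntidiagonal.mem_antidiagonal.1 hx
    exact ⟨x.1, x.2, hx, left_ne_zero_of_mul hxn, right_ne_zero_of_mul hxn⟩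
  have hJ1 := hgJ p₀ γ₁ hγ1
  have hb2 : bsupp γ₂ ⊆ c p₀ := by
    intro i hi
    rw [PhiColX_bsupp] at hi
    obtain ⟨b, hb⟩ := hi
    have h1 := PhiColX_pow_supp _ _ γ₂ hγ2 (Sum.inl (i, b)) hb
    by_contra hic
    apply h1
    simp [vec, hic]
  have hb0 : bsupp γ₀ = bsupp γ₁ ∪ bsupp γ₂ := by
    ext i
    rw [Finset.mem_union, PhiColX_bsupp, PhiColX_bsupp, PhiColX_bsupp, ← exists_or]
    apply exists_congr
    intro b
    rw [← hγ12, Finsupp.add_apply]
    omega
  have hdeg0 : γ₀.degree = d := by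
    have h1 := hfhom p₀ hx₀
    rwa [Finsupp.degree_eq_weight_one]
  -- a first reference function
  obtain ⟨ref₀, -⟩ : ∃ ref : P → Fin N → A, ColInj c lab ref
      (fun i => if i ∈ J then 1 else 0) (fun l => if l = lab p₀ then d - J.card else 0) v := by
    apply h
    · ext i
      rw [Finset.mem_filter]
      simp
    · have hcard : J.card ≤ d := by
        have h1 : γ₁.degree = d - (c p₀).card := by
          have h2 := hg p₀ hγ1
          rwa [Finsupp.degree_eq_weight_one]
        have h3 : (bsupp γ₁).card ≤ γ₁.degree := by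
          rw [← PhiColX_bdeg_degree γ₁]
          calc (bsupp γ₁).card = ∑ i ∈ bsupp γ₁, 1 := by simp
            _ ≤ ∑ i ∈ bsupp γ₁, bdeg γ₁ i := by
              apply Finset.sum_le_sum
              intro i hi
              unfold bsupp at hi
              rw [Finset.mem_filter] at hi
              omega
            _ ≤ ∑ i, bdeg γ₁ i := Finset.sum_le_sum_of_subset (Finset.subset_univ _)
            _ ≤ _ := Nat.le_add_right _ _
        have h4 := hcd p₀
        have h5 : J.card ≤ (bsupp γ₁).card + (c p₀).card := by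
          rw [← hJ1]
          exact Finset.card_union_le _ _
        omega
      rw [Finset.sum_ite_mem, Finset.univ_inter, Finset.sum_ite_eq' Finset.univ (lab p₀)]
      simp
      omega
  -- the first claim
  have hne_comp : comp a μ (f p₀) ≠ 0 := by
    intro h0
    have h1 := coeff_comp a μ (f p₀) γ₀
    rw [h0, coeff_zero, if_pos ⟨ha.symm, hμ.symm⟩] at h1
    exact hx₀ h1.symm
  have hc0 : ∀ i ∈ c p₀, a i ≠ 0 := by
    obtain ⟨ft, hft, hst⟩ := lead_struct (c p₀) (ref₀ p₀) (v p₀) (fun i _ => hv p₀ i _) (lab p₀)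
      (g p₀) a (fun γ hγ => hmin p₀ γ hγ)
    have h1 : comp a μ ft ≠ 0 := by
      intro h0
      apply hne_comp
      have h2 : f p₀ = sbt (c p₀) (ref₀ p₀) (v p₀) ft := hft.symm
      rw [h2, comp_sbt, h0, map_zero]
    obtain ⟨γ, hγ⟩ := MvPolynomial.ne_zero_iff.1 h1
    rw [coeff_comp] at hγ
    have h2 : bdeg γ = a ∧ (fun l => γ (Sum.inr l)) = μ := by
      by_contra hne
      exact hγ (if_neg hne)
    rw [if_pos h2] at hγ
    exact (hst γ h2.1 hγ).1
  have haJ : Finset.univ.filter (fun i => a i ≠ 0) = J := by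
    have h1 : Finset.univ.filter (fun i => a i ≠ 0) = bsupp γ₀ := rfl
    rw [h1]
    apply Finset.Subset.antisymm
    · rw [hb0, ← hJ1]
      exact Finset.union_subset_union_right hb2
    · rw [← hJ1]
      apply Finset.union_subset
      · rw [hb0]
        exact Finset.subset_union_left
      · intro i hi
        rw [← h1, Finset.mem_filter]
        exact ⟨Finset.mem_univ i, hc0 i hi⟩
  have hsumd : ∑ i, a i + ∑ l, μ l = d := by
    rw [← hdeg0, ← PhiColX_bdeg_degree γ₀]
  obtain ⟨ref, hcol⟩ := h a μ haJ hsumd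
  -- leading structures for all points
  have hex : ∀ p, ∃ ft : MvPolynomial (Sg N A Λ) ℂ, sbt (c p) (ref p) (v p) ft = f p ∧
      ∀ γ, bdeg γ = a → coeff γ ft ≠ 0 →
        (∀ i ∈ c p, a i ≠ 0) ∧
          (c p).card ≤ γ (Sum.inr (lab p)) + pureCount (c p) (ref p) γ := fun p =>
    lead_struct (c p) (ref p) (v p) (fun i _ => hv p i _) (lab p) (g p) a
      (fun γ hγ => hmin p γ hγ)
  choose ft hft hst using hex
  have hAdm : Adm c lab ref a μ (fun p => comp a μ (ft p)) := by
    intro p γ hγ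
    rw [coeff_comp] at hγ
    have h2 : bdeg γ = a ∧ (fun l => γ (Sum.inr l)) = μ := by
      by_contra hne
      exact hγ (if_neg hne)
    rw [if_pos h2] at hγ
    refine ⟨h2.1, h2.2, ?_⟩
    have h3 := (hst p γ h2.1 hγ).2
    have h4 : γ (Sum.inr (lab p)) = μ (lab p) := congrFun h2.2 (lab p)
    rwa [h4] at h3
  have hzero : ∑ p, sbt (c p) (ref p) (v p) (comp a μ (ft p)) = 0 := by
    have h1 : ∀ p, sbt (c p) (ref p) (v p) (comp a μ (ft p)) = comp a μ (f p) := by
      intro p
      rw [← comp_sbt, hft p]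
    rw [Finset.sum_congr rfl (fun p _ => h1 p), ← map_sum]
    ext γ
    rw [coeff_comp, coeff_zero]
    split_ifs with h2
    · apply hsum γ
      rw [← haJ, ← h2.1]
      rfl
    · rfl
  have hfin := hcol _ hAdm hzero p₀
  apply hne_comp
  rw [← hft p₀, comp_sbt]
  rw [hfin, map_zero]

end Pool.Agent.H21.HD

end

section

/-!
Existence for PhiInj, independence in blocks.
-/

namespace Pool.Agent.H21.HD

open MvPolynomial
open scoped Classical

variable {N : ℕ} {A Λ P : Type} [Fintype A] [Fintype Λ] [Fintype P]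

namespace PhiExX

omit [Fintype A] [Fintype Λ] in
/-- Extension of `PhiInj` from the points with `c p ⊆ J` to all points. -/
theorem phiInj_extend [Fintype A] [Fintype Λ] (d : ℕ) (J : Finset (Fin N)) (c : P → Finset (Fin N))
    (v : {p : P // c p ⊆ J} → Fin N → A → ℂ) (y : {p : P // c p ⊆ J} → Λ → ℂ)
    (h : PhiInj d J (fun p : {p : P // c p ⊆ J} => c p.1) v y) :
    PhiInj d J c (fun p => if hp : c p ⊆ J then v ⟨p, hp⟩ else 0)
      (fun p => if hp : c p ⊆ J then y ⟨p, hp⟩ else 0) := by
  intro g hg1 hg2 hg3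
  have h0 : ∀ p, ¬ c p ⊆ J → g p = 0 := by
    intro p hp
    ext γ
    rw [coeff_zero]
    by_contra hne
    exact hp (hg2 p γ hne ▸ Finset.subset_union_right)
  have h1 := h (fun p => g p.1) (fun p => hg1 p.1) (fun p γ hne => hg2 p.1 γ hne) (by
    intro γ hγ
    rw [← hg3 γ hγ]
    congr 1
    have h2 : ∀ p : {p : P // c p ⊆ J},
        g p.1 * lin (vec (c p.1) (v p) (y p)) ^ (c p.1).card =
        g p.1 * lin (vec (c p.1) (if hp : c p.1 ⊆ J then v ⟨p.1, hp⟩ else 0)
          (if hp : c p.1 ⊆ J then y ⟨p.1, hp⟩ else 0)) ^ (c p.1).card := by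
      intro p
      rw [dif_pos p.2, dif_pos p.2]
    rw [Finset.sum_congr rfl fun p _ => h2 p]
    rw [← Finset.sum_filter_add_sum_filter_not Finset.univ (fun p => c p ⊆ J)
      (fun p => g p * lin (vec (c p) (if hp : c p ⊆ J then v ⟨p, hp⟩ else 0)
          (if hp : c p ⊆ J then y ⟨p, hp⟩ else 0)) ^ (c p).card)]
    rw [Finset.sum_eq_zero (s := Finset.univ.filter fun p => ¬ c p ⊆ J), add_zero]
    · exact (Finset.sum_subtype (Finset.univ.filter (fun p => c p ⊆ J)) (by simp)
        (fun p => g p * lin (vec (c p) (if hp : c p ⊆ J then v ⟨p, hp⟩ else 0)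
          (if hp : c p ⊆ J then y ⟨p, hp⟩ else 0)) ^ (c p).card)).symm
    · intro p hp
      rw [Finset.mem_filter] at hp
      rw [h0 p hp.2, zero_mul])
  intro p
  by_cases hp : c p ⊆ J
  · exact h1 ⟨p, hp⟩
  · exact h0 p hp

end PhiExX

/-- `PhiInj` holds for suitable parameters below the critical load. -/
theorem phiInj_exists (d : ℕ) (ε : ℝ) (hε : 0 < ε) : ∃ W : ℕ, ∀ (N : ℕ) (A Λ P : Type)
    [Fintype A] [Fintype Λ] [Fintype P], W ≤ Fintype.card A →
    ∀ (c : P → Finset (Fin N)) (J : Finset (Fin N)), J.card ≤ d →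
    (∀ p, (c p).card ≤ d) → (∀ p, (c p).Nonempty) →
    (∀ p q, p ≠ q → d + 1 ≤ (c p).card + (c q).card) →
    (Finset.univ.filter (fun p => c p ⊆ J)).card ≤ Fintype.card Λ →
    ∑ p ∈ Finset.univ.filter (fun p => c p ⊆ J),
      (1 : ℝ) / (Fintype.card A : ℝ) ^ (c p).card ≤ 1 - ε →
    ∃ (v : P → Fin N → A → ℂ) (y : P → Λ → ℂ), PhiInj d J c v y := by
  obtain ⟨W, hW⟩ := col_inj d ε hε
  refine ⟨W, ?_⟩
  intro N A Λ P _ _ _ hWA c J hJ hcd hne hpair hcard hload
  obtain ⟨lab, hlab⟩ : ∃ lab : {p : P // c p ⊆ J} → Λ, Function.Injective lab := by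
    have h1 : Fintype.card {p : P // c p ⊆ J} ≤ Fintype.card Λ := by
      rw [Fintype.card_subtype]
      exact hcard
    obtain ⟨f⟩ := Function.Embedding.nonempty_of_card_le h1
    exact ⟨f, f.injective⟩
  have hload' : ∑ p : {p : P // c p ⊆ J}, (1 : ℝ) / (Fintype.card A : ℝ) ^ (c p.1).card ≤ 1 - ε := by
    refine le_of_eq_of_le ?_ hload
    exact (Finset.sum_subtype (Finset.univ.filter (fun p => c p ⊆ J)) (by simp)
      (fun p => (1 : ℝ) / (Fintype.card A : ℝ) ^ (c p).card)).symm
  have key : ∀ (a : Fin N → ℕ) (μ : Λ → ℕ), ∃ G : MvPolynomial ({p : P // c p ⊆ J} × Fin N × A) ℂ,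
      G ≠ 0 ∧ (Finset.univ.filter (fun i => a i ≠ 0) = J → ∑ i, a i + ∑ l, μ l = d →
        ∀ v : {p : P // c p ⊆ J} → Fin N → A → ℂ, eval (fun x => v x.1 x.2.1 x.2.2) G ≠ 0 →
        ∃ ref : {p : P // c p ⊆ J} → Fin N → A,
          ColInj (fun p : {p : P // c p ⊆ J} => c p.1) lab ref a μ v) := by
    intro a μ
    by_cases hJa : Finset.univ.filter (fun i => a i ≠ 0) = J
    · by_cases hs : ∑ i, a i + ∑ l, μ l = d
      · obtain ⟨ref, G, hG0, hG⟩ := hW N A Λ {p : P // c p ⊆ J} hWA
          (fun p : {p : P // c p ⊆ J} => c p.1) lab a μ hlab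
          (by
            intro p i hi
            have h1 : i ∈ J := p.2 hi
            rw [← hJa] at h1
            simpa using h1)
          (by
            intro p q hpq
            exact hpair p.1 q.1 fun h => hpq (Subtype.ext h))
          (fun p => hne p.1) hs hload'
        exact ⟨G, hG0, fun _ _ v hv => ⟨ref, hG v hv⟩⟩
      · exact ⟨1, one_ne_zero, fun _ h => absurd h hs⟩
    · exact ⟨1, one_ne_zero, fun h => absurd h hJa⟩
  choose G hG0 hG using key
  obtain ⟨x, hx⟩ := exists_common (σ := {p : P // c p ⊆ J} × Fin N × A)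
    (Finset.univ : Finset (((Fin N → Fin (d + 1)) × (Λ → Fin (d + 1))) ⊕
      ({p : P // c p ⊆ J} × Fin N × A)))
    (Sum.elim (fun z => G (fun i => (z.1 i : ℕ)) (fun l => (z.2 l : ℕ))) (fun z => X z))
    (by
      rintro (z | z) _
      · exact hG0 _ _
      · exact X_ne_zero z)
  have hphi : PhiInj d J (fun p : {p : P // c p ⊆ J} => c p.1)
      (fun p i a => x (p, i, a)) (fun p => Pi.single (lab p) 1) := by
    apply phiInj_of_col d J _ (fun p => p.2) (fun p => hcd p.1) lab
    · intro p i a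
      simpa using hx (Sum.inr (p, i, a)) (Finset.mem_univ _)
    · intro a μ hJa hs
      have ha : ∀ i, a i < d + 1 := by
        intro i
        have : a i ≤ ∑ i, a i := Finset.single_le_sum (fun _ _ => Nat.zero_le _) (Finset.mem_univ i)
        omega
      have hμ : ∀ l, μ l < d + 1 := by
        intro l
        have : μ l ≤ ∑ l, μ l := Finset.single_le_sum (fun _ _ => Nat.zero_le _) (Finset.mem_univ l)
        omega
      have h1 := hx (Sum.inl (fun i => ⟨a i, ha i⟩, fun l => ⟨μ l, hμ l⟩)) (Finset.mem_univ _)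
      exact hG a μ hJa hs _ h1
  exact ⟨_, _, PhiExX.phiInj_extend d J c _ _ hphi⟩

/-- Independence of powers of suitable linear forms in `N * |A| + |Λ|` variables. -/
theorem ind_blocks (d : ℕ) (ε : ℝ) (hε : 0 < ε) : ∃ W : ℕ, ∀ (N : ℕ) (A Λ P : Type)
    [Fintype A] [Fintype Λ] [Fintype P], W ≤ Fintype.card A →
    ∀ (c : P → Finset (Fin N)), (∀ p, (c p).card ≤ d) → (∀ p, (c p).Nonempty) →
    (∀ p q, p ≠ q → d + 1 ≤ (c p).card + (c q).card) →
    (∀ J : Finset (Fin N), J.card ≤ d →
      (Finset.univ.filter (fun p => c p ⊆ J)).card ≤ Fintype.card Λ ∧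
      ∑ p ∈ Finset.univ.filter (fun p => c p ⊆ J),
        (1 : ℝ) / (Fintype.card A : ℝ) ^ (c p).card ≤ 1 - ε) →
    ∃ w : P → Sg N A Λ → ℂ, Indep d w (fun p => (c p).card) := by
  obtain ⟨W, hW⟩ := phiInj_exists d ε hε
  refine ⟨W, ?_⟩
  intro N A Λ P _ _ _ hWA c hcd hne hpair hJ
  have key : ∀ J : Finset (Fin N), ∃ G : MvPolynomial ((P × Fin N × A) ⊕ (P × Λ)) ℂ, G ≠ 0 ∧
      (J.card ≤ d → ∀ (v : P → Fin N → A → ℂ) (y : P → Λ → ℂ),
        eval (Sum.elim (fun x => v x.1 x.2.1 x.2.2) (fun x => y x.1 x.2)) G ≠ 0 →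
        PhiInj d J c v y) := by
    intro J
    by_cases hJd : J.card ≤ d
    · obtain ⟨v, y, hvy⟩ := hW N A Λ P hWA c J hJd hcd hne hpair (hJ J hJd).1 (hJ J hJd).2
      obtain ⟨G, hG0, hG⟩ := phiInj_open d J c v y hvy
      exact ⟨G, hG0, fun _ => hG⟩
    · exact ⟨1, one_ne_zero, fun h => absurd h hJd⟩
  choose G hG0 hG using key
  obtain ⟨x, hx⟩ := exists_common (Finset.univ : Finset (Finset (Fin N))) G fun J _ => hG0 J
  refine ⟨fun p => vec (c p) (fun i a => x (Sum.inl (p, i, a))) (fun l => x (Sum.inr (p, l))), ?_⟩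
  apply indep_of_phiInj d c hcd (fun p i a => x (Sum.inl (p, i, a))) (fun p l => x (Sum.inr (p, l)))
  intro J hJd
  apply hG J hJd
  have h1 := hx J (Finset.mem_univ J)
  have h2 : Sum.elim (fun z : P × Fin N × A => x (Sum.inl (z.1, z.2.1, z.2.2)))
      (fun z : P × Λ => x (Sum.inr (z.1, z.2))) = x := by
    funext z
    rcases z with z | z <;> rfl
  rw [h2]
  exact h1

end Pool.Agent.H21.HD

end

section

/-!
The independence theorem.
-/

namespace Pool.Agent.H21.HD

open MvPolynomial
open scoped Classical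

/-- balanced types -/
private lemma indMain_types {P : Type} [Fintype P] (d N : ℕ) (hN : d ≤ N) (e : P → ℕ)
    (he : ∀ p, 1 ≤ e p ∧ e p ≤ d) :
    ∃ c : P → Finset (Fin N), (∀ p, (c p).card = e p) ∧
      ∀ s : Finset (Fin N), s.card ≤ d → (Finset.univ.filter (fun p => c p = s)).card ≤
        (Finset.univ.filter (fun p => e p = s.card)).card / N.choose s.card + 1 := by
  have h1 : ∀ i : ℕ, i ≤ d → ∃ f : {p // e p = i} → {s : Finset (Fin N) // s.card = i},
      ∀ y, (Finset.univ.filter (fun x => f x = y)).card ≤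
        Fintype.card {p // e p = i} / Fintype.card {s : Finset (Fin N) // s.card = i} + 1 := by
    intro i hi
    have : Nonempty {s : Finset (Fin N) // s.card = i} := by
      obtain ⟨s, hs1, hs2⟩ := Finset.exists_subset_card_eq
        (s := (Finset.univ : Finset (Fin N))) (n := i) (by simp; omega)
      exact ⟨⟨s, hs2⟩⟩
    obtain ⟨f, hf⟩ := exists_balanced (X := {p // e p = i}) (Y := {s : Finset (Fin N) // s.card = i})
    refine ⟨f, fun y => ?_⟩
    convert hf y
  choose f hf using h1
  refine ⟨fun p => (f (e p) (he p).2 ⟨p, rfl⟩).1, fun p => (f (e p) (he p).2 ⟨p, rfl⟩).2, ?_⟩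
  intro s hs
  have h2 := hf s.card hs ⟨s, rfl⟩
  have h3 : Fintype.card {s' : Finset (Fin N) // s'.card = s.card} = N.choose s.card := by
    rw [Fintype.card_finset_len, Fintype.card_fin]
  have h4 : Fintype.card {p // e p = s.card} =
      (Finset.univ.filter (fun p => e p = s.card)).card := by
    rw [Fintype.card_subtype]
  rw [h3, h4] at h2
  refine le_trans ?_ h2
  apply Finset.card_le_card_of_surjOn (fun x : {p // e p = s.card} => x.1)
  intro p hp
  simp only [Finset.coe_filter, Finset.mem_univ, true_and, Set.mem_ofPred_eq] at hp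
  have h5 : e p = s.card := by
    rw [← hp]
    exact (f (e p) (he p).2 ⟨p, rfl⟩).2.symm
  refine ⟨⟨p, h5⟩, ?_, rfl⟩
  simp only [Finset.coe_filter, Finset.mem_univ, true_and, Set.mem_ofPred_eq]
  apply Subtype.ext
  show (f s.card hs ⟨p, h5⟩).1 = s
  have key : ∀ (i : ℕ) (hi : i ≤ d) (hpi : e p = i),
      (f i hi ⟨p, hpi⟩).1 = (f (e p) (he p).2 ⟨p, rfl⟩).1 := by
    intro i hi hpi
    subst hpi
    rfl
  rw [key s.card hs h5, hp]

/-- the load of a set of blocks -/
private lemma indMain_load {P : Type} [Fintype P] (d N h r : ℕ) (hh : 1 ≤ h) (ε : ℝ)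
    (hε : 0 < ε) (hh2 : 4 * (2 : ℝ) ^ d ≤ ε * h) (e : P → ℕ)
    (he : ∀ p, 1 ≤ e p ∧ e p ≤ d)
    (hsum : (∑ p, ((r + (d - e p)).choose r : ℝ)) ≤ (1 - ε) * ((r + d).choose r : ℝ))
    (hest : ∀ e : ℕ, 1 ≤ e → e ≤ d →
        (d.choose e : ℝ) / ((N.choose e : ℝ) * (h : ℝ) ^ e) ≤
          (1 + ε / 2) * ((r + (d - e)).choose r : ℝ) / ((r + d).choose r : ℝ))
    (c : P → Finset (Fin N)) (hc : ∀ p, (c p).card = e p)
    (hc2 : ∀ s : Finset (Fin N), s.card ≤ d → (Finset.univ.filter (fun p => c p = s)).card ≤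
        (Finset.univ.filter (fun p => e p = s.card)).card / N.choose s.card + 1)
    (J : Finset (Fin N)) (hJ : J.card ≤ d) :
    ∑ p ∈ Finset.univ.filter (fun p => c p ⊆ J), (1 : ℝ) / (h : ℝ) ^ (c p).card ≤
      1 - ε / 4 := by
  have hh0 : (0 : ℝ) < h := by exact_mod_cast hh
  have hh1 : (1 : ℝ) ≤ h := by exact_mod_cast hh
  have hS : (0 : ℝ) < ((r + d).choose r : ℝ) := by
    exact_mod_cast Nat.choose_pos (Nat.le_add_right r d)
  set k : ℕ → ℕ := fun i => (Finset.univ.filter (fun p => e p = i)).card with hk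
  set F : ℕ → ℝ := fun i => if i = 0 then 0 else ((k i : ℝ) / (N.choose i : ℝ) + 1) /
    (h : ℝ) ^ i with hF
  have hF0 : ∀ i, 0 ≤ F i := by
    intro i
    simp only [hF]
    split_ifs
    · exact le_refl _
    · positivity
  have e1 : ∑ p ∈ Finset.univ.filter (fun p => c p ⊆ J), (1 : ℝ) / (h : ℝ) ^ (c p).card =
      ∑ s ∈ J.powerset, ∑ p ∈ (Finset.univ.filter (fun p => c p ⊆ J)).filter (fun p => c p = s),
        (1 : ℝ) / (h : ℝ) ^ (c p).card := by
    rw [Finset.sum_fiberwise_of_maps_to]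
    intro p hp
    rw [Finset.mem_powerset]
    exact (Finset.mem_filter.mp hp).2
  have e2 : ∀ s ∈ J.powerset, ∑ p ∈ (Finset.univ.filter (fun p => c p ⊆ J)).filter
      (fun p => c p = s), (1 : ℝ) / (h : ℝ) ^ (c p).card ≤ F s.card := by
    intro s hs
    rw [Finset.mem_powerset] at hs
    have hsd : s.card ≤ d := (Finset.card_le_card hs).trans hJ
    have h1 : ∑ p ∈ (Finset.univ.filter (fun p => c p ⊆ J)).filter
        (fun p => c p = s), (1 : ℝ) / (h : ℝ) ^ (c p).card =
        (((Finset.univ.filter (fun p => c p ⊆ J)).filter (fun p => c p = s)).card : ℝ) *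
          (1 / (h : ℝ) ^ s.card) := by
      rw [← nsmul_eq_mul, ← Finset.sum_const]
      apply Finset.sum_congr rfl
      intro p hp
      rw [(Finset.mem_filter.mp hp).2]
    rw [h1]
    by_cases hs0 : s.card = 0
    · have h2 : ((Finset.univ.filter (fun p => c p ⊆ J)).filter (fun p => c p = s)).card = 0 := by
        rw [Finset.card_eq_zero, Finset.filter_eq_empty_iff]
        intro p _ hps
        have h3 := hc p
        rw [hps, hs0] at h3
        have := (he p).1
        omega
      rw [h2]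
      simp only [hF, hs0, if_true]
      simp
    · simp only [hF, hs0, if_false]
      have h2 : (((Finset.univ.filter (fun p => c p ⊆ J)).filter (fun p => c p = s)).card : ℝ) ≤
          (k s.card : ℝ) / (N.choose s.card : ℝ) + 1 := by
        have h3 : ((Finset.univ.filter (fun p => c p ⊆ J)).filter (fun p => c p = s)).card ≤
            k s.card / N.choose s.card + 1 := by
          refine le_trans (Finset.card_le_card ?_) (hc2 s hsd)
          intro p hp
          rw [Finset.mem_filter] at hp ⊢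
          exact ⟨Finset.mem_univ _, hp.2⟩
        have h4 : (((Finset.univ.filter (fun p => c p ⊆ J)).filter (fun p => c p = s)).card : ℝ) ≤
            ((k s.card / N.choose s.card + 1 : ℕ) : ℝ) := by exact_mod_cast h3
        push_cast at h4
        have h5 : ((k s.card / N.choose s.card : ℕ) : ℝ) ≤
            (k s.card : ℝ) / (N.choose s.card : ℝ) := Nat.cast_div_le
        linarith
      rw [mul_one_div]
      apply div_le_div_of_nonneg_right h2 (by positivity)
  have e3 : ∑ s ∈ J.powerset, F s.card ≤ ∑ m ∈ Finset.range (d + 1), (d.choose m : ℝ) * F m := by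
    rw [Finset.sum_powerset_apply_card]
    calc ∑ m ∈ Finset.range (J.card + 1), (J.card.choose m) • F m
        ≤ ∑ m ∈ Finset.range (J.card + 1), (d.choose m : ℝ) * F m := by
          apply Finset.sum_le_sum
          intro m _
          rw [nsmul_eq_mul]
          apply mul_le_mul_of_nonneg_right _ (hF0 m)
          exact_mod_cast Nat.choose_le_choose m hJ
      _ ≤ ∑ m ∈ Finset.range (d + 1), (d.choose m : ℝ) * F m := by
          apply Finset.sum_le_sum_of_subset_of_nonneg
          · intro m hm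
            rw [Finset.mem_range] at hm ⊢
            omega
          · intro m _ _
            exact mul_nonneg (Nat.cast_nonneg _) (hF0 m)
  have e4 : ∀ m ∈ Finset.range (d + 1), (d.choose m : ℝ) * F m ≤
      (k m : ℝ) * ((1 + ε / 2) * ((r + (d - m)).choose r : ℝ) / ((r + d).choose r : ℝ)) +
        (d.choose m : ℝ) * (1 / h) := by
    intro m hm
    rw [Finset.mem_range] at hm
    by_cases hm0 : m = 0
    · have : F m = 0 := by simp only [hF, hm0, if_true]
      rw [this]
      have h1 : (0 : ℝ) ≤ 1 + ε / 2 := by linarith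
      simp only [mul_zero]
      positivity
    · have h1 : F m = ((k m : ℝ) / (N.choose m : ℝ) + 1) / (h : ℝ) ^ m := by
        simp only [hF, hm0, if_false]
      rw [h1]
      have h2 := hest m (by omega) (by omega)
      have h3 : (d.choose m : ℝ) * (((k m : ℝ) / (N.choose m : ℝ) + 1) / (h : ℝ) ^ m) =
          (k m : ℝ) * ((d.choose m : ℝ) / ((N.choose m : ℝ) * (h : ℝ) ^ m)) +
            (d.choose m : ℝ) * (1 / (h : ℝ) ^ m) := by
        rw [add_div, mul_add, div_div]
        ring
      rw [h3]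
      apply add_le_add
      · exact mul_le_mul_of_nonneg_left h2 (Nat.cast_nonneg _)
      · apply mul_le_mul_of_nonneg_left _ (Nat.cast_nonneg _)
        apply one_div_le_one_div_of_le hh0
        exact le_self_pow₀ hh1 hm0
  have e5 : ∑ m ∈ Finset.range (d + 1), (k m : ℝ) *
      ((1 + ε / 2) * ((r + (d - m)).choose r : ℝ) / ((r + d).choose r : ℝ)) =
      ∑ p, ((1 + ε / 2) * ((r + (d - e p)).choose r : ℝ) / ((r + d).choose r : ℝ)) := by
    rw [← Finset.sum_fiberwise_of_maps_to (s := (Finset.univ : Finset P))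
      (t := Finset.range (d + 1)) (g := e)
      (fun p _ => Finset.mem_range.mpr (Nat.lt_succ_of_le (he p).2))]
    apply Finset.sum_congr rfl
    intro m _
    rw [hk, ← nsmul_eq_mul, ← Finset.sum_const]
    apply Finset.sum_congr rfl
    intro p hp
    rw [(Finset.mem_filter.mp hp).2]
  have e6 : ∑ p, ((1 + ε / 2) * ((r + (d - e p)).choose r : ℝ) / ((r + d).choose r : ℝ)) ≤
      (1 + ε / 2) * (1 - ε) := by
    rw [← Finset.sum_div, ← Finset.mul_sum, div_le_iff₀ hS, mul_assoc]
    exact mul_le_mul_of_nonneg_left hsum (by linarith)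
  have e7 : ∑ m ∈ Finset.range (d + 1), (d.choose m : ℝ) * (1 / h) ≤ ε / 4 := by
    rw [← Finset.sum_mul]
    have h1 : ∑ m ∈ Finset.range (d + 1), (d.choose m : ℝ) = (2 : ℝ) ^ d := by
      exact_mod_cast Nat.sum_range_choose d
    rw [h1, mul_one_div, div_le_iff₀ hh0]
    linarith
  calc ∑ p ∈ Finset.univ.filter (fun p => c p ⊆ J), (1 : ℝ) / (h : ℝ) ^ (c p).card
      ≤ ∑ s ∈ J.powerset, F s.card := by
        rw [e1]; exact Finset.sum_le_sum e2
    _ ≤ ∑ m ∈ Finset.range (d + 1), (d.choose m : ℝ) * F m := e3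
    _ ≤ ∑ m ∈ Finset.range (d + 1), ((k m : ℝ) *
        ((1 + ε / 2) * ((r + (d - m)).choose r : ℝ) / ((r + d).choose r : ℝ)) +
        (d.choose m : ℝ) * (1 / h)) := Finset.sum_le_sum e4
    _ ≤ (1 + ε / 2) * (1 - ε) + ε / 4 := by
        rw [Finset.sum_add_distrib, e5]
        exact add_le_add e6 e7
    _ ≤ 1 - ε / 4 := by nlinarith

/-- The independence theorem. -/
theorem ind_main (d : ℕ) (hd : 1 ≤ d) (ε : ℝ) (hε : 0 < ε) : ∃ r₀ : ℕ, ∀ r : ℕ, r₀ ≤ r →
    ∀ (P : Type) [Fintype P] (e : P → ℕ), (∀ p, 1 ≤ e p ∧ e p ≤ d) →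
    (∀ p q, p ≠ q → d + 1 ≤ e p + e q) →
    (∑ p, ((r + (d - e p)).choose r : ℝ)) ≤ (1 - ε) * ((r + d).choose r : ℝ) →
    ∃ w : P → Fin (r + 1) → ℂ, Indep d w e := by
  obtain ⟨W, hW⟩ := ind_blocks d (ε / 4) (by positivity)
  set h : ℕ := max W (max 1 ⌈4 * (2 : ℝ) ^ d / ε⌉₊) with hh
  have hhW : W ≤ h := le_max_left _ _
  have hh1 : 1 ≤ h := (le_max_left _ _).trans (le_max_right _ _)
  have hh2 : 4 * (2 : ℝ) ^ d ≤ ε * h := by
    have h1 : ⌈4 * (2 : ℝ) ^ d / ε⌉₊ ≤ h := (le_max_right _ _).trans (le_max_right _ _)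
    have h2 : 4 * (2 : ℝ) ^ d / ε ≤ h := (Nat.le_ceil _).trans (by exact_mod_cast h1)
    rw [div_le_iff₀ hε] at h2
    linarith
  have hh0 : (0 : ℝ) < h := by exact_mod_cast hh1
  obtain ⟨r₁, hr₁⟩ := load_estimate d h hd hh1 (ε / 2) (by positivity)
  refine ⟨max r₁ (h ^ d), ?_⟩
  intro r hr P _ e he hpair hsum
  have hr1 : r₁ ≤ r := (le_max_left _ _).trans hr
  have hr2 : h ^ d ≤ r := (le_max_right _ _).trans hr
  set N : ℕ := (r + 1 - h ^ d) / h with hN
  have hN1 : N * h ≤ r + 1 - h ^ d := Nat.div_mul_le_self _ _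
  have hN2 : r + 1 - h ^ d < (N + 1) * h := by
    have h1 := Nat.lt_mul_div_succ (r + 1 - h ^ d) hh1
    rw [hN, mul_comm]
    exact h1
  obtain ⟨hdN, hest⟩ := hr₁ r hr1 N (by omega)
  obtain ⟨c, hc, hc2⟩ := indMain_types d N hdN e he
  have hload := fun J hJ => indMain_load d N h r hh1 ε hε hh2 e he hsum hest c hc hc2 J hJ
  obtain ⟨w, hw⟩ := hW N (Fin h) (Fin (r + 1 - N * h)) P (by simpa using hhW) c
    (fun p => by rw [hc p]; exact (he p).2)
    (fun p => by rw [← Finset.card_pos, hc p]; exact (he p).1)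
    (fun p q hpq => by rw [hc p, hc q]; exact hpair p q hpq)
    (by
      intro J hJ
      have h1 := hload J hJ
      rw [Fintype.card_fin, Fintype.card_fin]
      refine ⟨?_, h1⟩
      have h2 : ((Finset.univ.filter (fun p => c p ⊆ J)).card : ℝ) * (1 / (h : ℝ) ^ d) ≤
          ∑ p ∈ Finset.univ.filter (fun p => c p ⊆ J), (1 : ℝ) / (h : ℝ) ^ (c p).card := by
        rw [← nsmul_eq_mul, ← Finset.sum_const]
        apply Finset.sum_le_sum
        intro p _
        apply one_div_le_one_div_of_le (by positivity)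
        apply pow_le_pow_right₀ (by exact_mod_cast hh1)
        rw [hc p]
        exact (he p).2
      have h3 : ((Finset.univ.filter (fun p => c p ⊆ J)).card : ℝ) ≤ (h : ℝ) ^ d := by
        have h4 := h2.trans h1
        rw [mul_one_div, div_le_iff₀ (by positivity)] at h4
        have h5 : (0 : ℝ) < (h : ℝ) ^ d := by positivity
        nlinarith
      have h4 : (Finset.univ.filter (fun p => c p ⊆ J)).card ≤ h ^ d := by exact_mod_cast h3
      omega)
  have hcard : (fun p => (c p).card) = e := funext hc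
  rw [hcard] at hw
  have hE : Fintype.card (Sg N (Fin h) (Fin (r + 1 - N * h))) = r + 1 := by
    simp only [Fintype.card_sum, Fintype.card_prod, Fintype.card_fin]
    omega
  exact ⟨_, indep_transport (Fintype.equivFinOfCardEq hE) d w e hw⟩

end Pool.Agent.H21.HD

end

section

/-!
Independence for general points.
-/

namespace Pool.Agent.H21.HD

open MvPolynomial Pool.Agent.H18.Fat
open scoped Classical

/-- Independence in the absence of a pair with large multiplicities. -/
theorem indep_general (d : ℕ) (hd : 1 ≤ d) (ε : ℝ) (hε : 0 < ε) : ∃ r₀ : ℕ, ∀ r : ℕ, r₀ ≤ r →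
    ∀ (k : ℕ) (m : Fin k → ℕ), (∀ i, 1 ≤ m i ∧ m i ≤ d) →
    (∀ i j, i ≠ j → m i + m j ≤ d + 1) →
    (∑ i, ((m i + r - 1).choose r : ℝ)) ≤ (1 - ε) * ((d + r).choose r : ℝ) →
    ForGeneralPoints r k fun p => ImposesMaximalConditions r d p m := by
  obtain ⟨r₀, h⟩ := ind_main d hd ε hε
  refine ⟨max r₀ 1, fun r hr k m hm hpair hsum => ?_⟩
  have hr0 : r₀ ≤ r := (le_max_left _ _).trans hr
  have hr1 : 1 ≤ r := (le_max_right _ _).trans hr
  obtain ⟨w, hw⟩ := h r hr0 (Fin k) (fun i => d + 1 - m i)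
    (fun i => by have := hm i; omega)
    (fun i j hij => by have := hpair i j hij; have := hm i; have := hm j; omega)
    (by
      have h1 : ∀ i, ((r + (d - (d + 1 - m i))).choose r : ℝ) = ((m i + r - 1).choose r : ℝ) := by
        intro i
        have := hm i
        congr 2
        omega
      simp only [h1]
      rwa [add_comm r d])
  have h1 := finrank_fat_of_indep d w m hm hw
  refine ((general_finrank_le d w m).and (ForGeneralPoints.coord_ne_zero r k)).mono ?_
  rintro p ⟨hp1, hp2⟩
  have h2 := finrank_fatForms_ge (d := d) hr1 (fun i => hp2 i 0) m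
  unfold ImposesMaximalConditions
  have h3 : (Module.finrank ℂ (fatForms r d p m) : ℤ) ≤ Module.finrank ℂ (fatForms r d w m) := by
    exact_mod_cast hp1
  have h4 : (0 : ℤ) ≤ Module.finrank ℂ (fatForms r d p m) :=
    Int.natCast_nonneg _
  rw [max_eq_right (by linarith)]
  linarith

end Pool.Agent.H21.HD

end
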