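import Pool.Agent.H94.LP2.M03
import Pool.Agent.H94.LP2.M06
import Pool.Agent.H94.LP2.M07

/-! The parts of this file: H18.Ta.Key, H51.TB.Eul, H51.TB.Lim, H51.TB.Win, H51.TB.Fam, H51.TB.Lev. -/

section

/-!
# Module Key (TA): the keys realise the ranks

Let `G = bG ℓ = 4 (ℓ+1)^2`, `W = G ^ (ℓ - u)`, `e = ex ℓ u j`, `K s = e * s + kap ℓ s`.
For `s < ℓ` we have `kap ℓ s = kap ℓ (s+1) + G ^ (ℓ - s)` (`sum_range_succ`, as `ℓ - s = (ℓ - (s+1)) + 1`).
Hence `K (s+1) + G ^ (ℓ - s) = K s + e`.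

Facts about `e`: `e ≤ 2 W`; for `j = 0`, `e = 2 W > W`; for `j ≥ 1`: `j e < W` and, as `j ≤ ℓ`,
`j e ≥ W - j`, so `e ≥ (W - j)/j`, hence `(j + 1) e ≥ W - j + (W - j)/j > W + 2 W / G` because `G ≥ 4 ℓ²`,
`W ≥ G`; in particular `e ≥ W / (2 ℓ)` and `e > W / G = G ^ (ℓ - u - 1)`.

* On `[0, u]` the key decreases strictly: for `s < u`, `G ^ (ℓ - s) ≥ G W > 2 W ≥ e`.
* On `[u+1, ℓ-1]` the key increases strictly: for `u + 1 ≤ s`, `s + 1 < ℓ`, `G ^ (ℓ - s) ≤ W / G < e`.
* The keys of the layers `< u` are larger than all keys of the layers `≥ u`: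
  `K (u-1) = K u + G W - e`, `K s ≤ K u + e (s - u)` for `s ≥ u`, and `G W > e (ℓ + 1)` by `e ≤ 2 W`.
* `j = 0`: `K (u+1) = K u + e - W > K u`.
* `j ≥ 1`: `K (u+j) < K u`, as `K (u+j) ≤ K u + j e - W`, and (if `u + j + 1 < ℓ`)
  `K (u+j+1) > K u`, as `K (u+j+1) ≥ K u + (j+1) e - W - 2 W / G` (geometric sum
  `∑_{i=1}^{j} G ^ (ℓ-u-i) ≤ 2 G ^ (ℓ-u-1)`).
These give the order of the keys `u+1 < … < u+j < u < u+j+1 < … < ℓ-1 < u-1 < … < 0`.
-/

namespace Pool.Agent.H18.Ta

open Finset

private theorem Key_G (ℓ : ℕ) : 4 ≤ bG ℓ := by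
  unfold bG
  nlinarith [Nat.zero_le ℓ]

private theorem Key_step {ℓ s : ℕ} (hs : s < ℓ) : kap ℓ s = kap ℓ (s + 1) + bG ℓ ^ (ℓ - s) := by
  unfold kap
  have h : ℓ - s = (ℓ - (s + 1)) + 1 := by omega
  rw [h, Finset.sum_range_succ]

private theorem Key_anti {ℓ s t : ℕ} (h : s ≤ t) : kap ℓ t ≤ kap ℓ s := by
  unfold kap
  refine Finset.sum_le_sum_of_subset ?_
  intro i hi
  rw [Finset.mem_range] at hi ⊢
  omega

private theorem Key_geo (ℓ n : ℕ) : ∑ i ∈ range n, bG ℓ ^ (i + 1) ≤ 2 * bG ℓ ^ n := by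
  have hG := Key_G ℓ
  induction n with
  | zero => simp
  | succ n ih =>
    rw [Finset.sum_range_succ]
    have h1 : 4 * bG ℓ ^ n ≤ bG ℓ ^ (n + 1) := by
      rw [pow_succ, mul_comm (bG ℓ ^ n)]
      exact Nat.mul_le_mul_right _ hG
    omega

private theorem Key_kap {ℓ u : ℕ} (hu : u < ℓ) :
    kap ℓ u ≤ bG ℓ ^ (ℓ - u) + 2 * bG ℓ ^ (ℓ - u - 1) := by
  unfold kap
  have h : ℓ - u = (ℓ - u - 1) + 1 := by omega
  have h2 := Key_geo ℓ (ℓ - u - 1)
  calc ∑ i ∈ range (ℓ - u), bG ℓ ^ (i + 1)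
      = ∑ i ∈ range (ℓ - u - 1 + 1), bG ℓ ^ (i + 1) := by rw [← h]
    _ = ∑ i ∈ range (ℓ - u - 1), bG ℓ ^ (i + 1) + bG ℓ ^ (ℓ - u - 1 + 1) := by
        rw [Finset.sum_range_succ]
    _ ≤ bG ℓ ^ (ℓ - u) + 2 * bG ℓ ^ (ℓ - u - 1) := by rw [← h]; omega

private theorem Key_ex_le (ℓ u j : ℕ) : ex ℓ u j ≤ 2 * bG ℓ ^ (ℓ - u) := by
  unfold ex
  split_ifs with h
  · exact le_rfl
  · exact (Nat.div_le_self _ _).trans ((Nat.sub_le _ _).trans (by omega))

private theorem Key_pow {ℓ u : ℕ} (hu : u < ℓ) :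
    bG ℓ ^ (ℓ - u) = bG ℓ * bG ℓ ^ (ℓ - u - 1) := by
  rw [← pow_succ']
  congr 1
  omega

/-- The main lower bound. -/
private theorem Key_big {ℓ u j : ℕ} (h : u + j < ℓ) :
    bG ℓ ^ (ℓ - u) + 2 * bG ℓ ^ (ℓ - u - 1) < ex ℓ u j * (j + 1) := by
  have hG := Key_G ℓ
  have hp := Key_pow (show u < ℓ by omega)
  set V := bG ℓ ^ (ℓ - u - 1) with hV
  have hV1 : 1 ≤ V := Nat.one_le_pow _ _ (by omega)
  unfold ex
  split_ifs with hj
  · subst hj
    rw [hp]
    nlinarith
  · have hj1 : 1 ≤ j := Nat.one_le_iff_ne_zero.mpr hj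
    set W := bG ℓ ^ (ℓ - u) with hW
    set e := (W - 1) / j with he
    have h1 : W ≤ e * j + j := by
      have h2 := Nat.div_add_mod (W - 1) j
      have h3 := Nat.mod_lt (W - 1) hj1
      rw [← he] at h2
      have h4 : j * e = e * j := mul_comm _ _
      have h5 : 1 ≤ W := by rw [hp]; nlinarith
      omega
    have hjl : j ≤ ℓ := by omega
    have h6 : j * j + j + 2 * j * V < W := by
      rw [hp]
      unfold bG
      nlinarith [Nat.mul_le_mul hjl hjl, Nat.mul_le_mul hjl hV1, Nat.zero_le (ℓ * V)]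
    -- e > j + 2 V
    have h7 : j + 2 * V < e := by
      by_contra hc
      push Not at hc
      have : e * j ≤ (j + 2 * V) * j := Nat.mul_le_mul_right _ hc
      nlinarith
    nlinarith

private theorem Key_e_gt {ℓ u j : ℕ} (h : u + j < ℓ) : bG ℓ ^ (ℓ - u - 1) < ex ℓ u j := by
  have hG := Key_G ℓ
  have h1 := Key_big h
  have hp := Key_pow (show u < ℓ by omega)
  set V := bG ℓ ^ (ℓ - u - 1) with hV
  have hV1 : 1 ≤ V := Nat.one_le_pow _ _ (by omega)
  by_contra hc
  push Not at hc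
  have h2 : ex ℓ u j * (j + 1) ≤ V * (j + 1) := Nat.mul_le_mul_right _ hc
  have h3 : V * (j + 1) ≤ V * bG ℓ := by
    refine Nat.mul_le_mul_left _ ?_
    unfold bG
    nlinarith
  rw [hp] at h1
  nlinarith

private theorem Key_low {ℓ u j : ℕ} (hj : 1 ≤ j) : ex ℓ u j * j < bG ℓ ^ (ℓ - u) := by
  have hG := Key_G ℓ
  unfold ex
  rw [if_neg (by omega)]
  have h1 := Nat.div_mul_le_self (bG ℓ ^ (ℓ - u) - 1) j
  have h2 : 1 ≤ bG ℓ ^ (ℓ - u) := Nat.one_le_pow _ _ (by omega)
  omega

private theorem Key_dec {ℓ u j s t : ℕ} (h : u + j < ℓ) (hst : s < t) (ht : t ≤ u) :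
    ex ℓ u j * t + kap ℓ t < ex ℓ u j * s + kap ℓ s := by
  have hG := Key_G ℓ
  have h1 := Key_step (show s < ℓ by omega)
  have h2 : kap ℓ t ≤ kap ℓ (s + 1) := Key_anti (by omega)
  have h3 := Key_ex_le ℓ u j
  -- ex * (t - s) < G ^ (ℓ - s)
  have h4 : bG ℓ ^ (ℓ - u) * bG ℓ ≤ bG ℓ ^ (ℓ - s) := by
    rw [← pow_succ]
    exact Nat.pow_le_pow_right (by omega) (by omega)
  obtain ⟨k, hk⟩ : ∃ k, t = s + k := ⟨t - s, by omega⟩
  have h5 : 1 ≤ bG ℓ ^ (ℓ - u) := Nat.one_le_pow _ _ (by omega)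
  have h6 : ex ℓ u j * k < bG ℓ ^ (ℓ - s) := by
    refine lt_of_lt_of_le ?_ h4
    have h7 : ex ℓ u j * k ≤ 2 * bG ℓ ^ (ℓ - u) * ℓ := Nat.mul_le_mul h3 (by omega)
    refine lt_of_le_of_lt h7 ?_
    have h8 : 2 * ℓ < bG ℓ := by unfold bG; nlinarith
    calc 2 * bG ℓ ^ (ℓ - u) * ℓ = bG ℓ ^ (ℓ - u) * (2 * ℓ) := by ring
      _ < bG ℓ ^ (ℓ - u) * bG ℓ := Nat.mul_lt_mul_of_pos_left h8 h5
  rw [hk] at h2 ⊢
  rw [h1, Nat.mul_add]
  omega

private theorem Key_inc {ℓ u j s t : ℕ} (h : u + j < ℓ) (hs : u < s) (hst : s < t) (ht : t < ℓ) :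
    ex ℓ u j * s + kap ℓ s < ex ℓ u j * t + kap ℓ t := by
  have hG := Key_G ℓ
  have he := Key_e_gt h
  induction t, hst using Nat.le_induction with
  | base =>
    have h1 := Key_step (show s < ℓ by omega)
    have h2 : bG ℓ ^ (ℓ - s) ≤ bG ℓ ^ (ℓ - u - 1) :=
      Nat.pow_le_pow_right (by omega) (by omega)
    rw [h1]
    have h3 : ex ℓ u j * (s + 1) = ex ℓ u j * s + ex ℓ u j := by ring
    have h4 : s.succ = s + 1 := rfl
    rw [h4] at *
    omega
  | succ t hst ih =>
    have h0 := ih (by omega)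
    have h1 := Key_step (show t < ℓ by omega)
    have h2 : bG ℓ ^ (ℓ - t) ≤ bG ℓ ^ (ℓ - u - 1) :=
      Nat.pow_le_pow_right (by omega) (by omega)
    have h3 : ex ℓ u j * (t + 1) = ex ℓ u j * t + ex ℓ u j := by ring
    omega

private theorem Key_up {ℓ u j s t : ℕ} (h : u + j < ℓ) (hs : u ≤ s) (hsl : s < ℓ) (ht : t < u) :
    ex ℓ u j * s + kap ℓ s < ex ℓ u j * t + kap ℓ t := by
  have hG := Key_G ℓ
  have h1 := Key_step (show t < ℓ by omega)
  have h2 : kap ℓ s ≤ kap ℓ (t + 1) := Key_anti (by omega)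
  have h3 := Key_ex_le ℓ u j
  have h4 : bG ℓ ^ (ℓ - u) * bG ℓ ≤ bG ℓ ^ (ℓ - t) := by
    rw [← pow_succ]
    exact Nat.pow_le_pow_right (by omega) (by omega)
  have h5 : 1 ≤ bG ℓ ^ (ℓ - u) := Nat.one_le_pow _ _ (by omega)
  have h6 : ex ℓ u j * s < bG ℓ ^ (ℓ - t) := by
    refine lt_of_lt_of_le ?_ h4
    have h7 : ex ℓ u j * s ≤ 2 * bG ℓ ^ (ℓ - u) * ℓ := Nat.mul_le_mul h3 (by omega)
    refine lt_of_le_of_lt h7 ?_
    have h8 : 2 * ℓ < bG ℓ := by unfold bG; nlinarith
    calc 2 * bG ℓ ^ (ℓ - u) * ℓ = bG ℓ ^ (ℓ - u) * (2 * ℓ) := by ring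
      _ < bG ℓ ^ (ℓ - u) * bG ℓ := Nat.mul_lt_mul_of_pos_left h8 h5
  rw [h1]
  omega

private theorem Key_mid_lt {ℓ u j s : ℕ} (h : u + j < ℓ) (hs : u < s) (hsj : s ≤ u + j) :
    ex ℓ u j * s + kap ℓ s < ex ℓ u j * u + kap ℓ u := by
  have h1 := Key_step (show u < ℓ by omega)
  have h2 : kap ℓ s ≤ kap ℓ (u + 1) := Key_anti (by omega)
  have h3 := Key_low (ℓ := ℓ) (u := u) (j := j) (by omega)
  have h4 : ex ℓ u j * s ≤ ex ℓ u j * (u + j) := Nat.mul_le_mul_left _ hsj
  rw [Nat.mul_add] at h4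
  rw [h1]
  omega

private theorem Key_mid_gt {ℓ u j t : ℕ} (h : u + j < ℓ) (ht : u + j < t) :
    ex ℓ u j * u + kap ℓ u < ex ℓ u j * t + kap ℓ t := by
  have h1 := Key_kap (show u < ℓ by omega)
  have h2 := Key_big h
  have h4 : ex ℓ u j * (u + (j + 1)) ≤ ex ℓ u j * t := Nat.mul_le_mul_left _ (by omega)
  rw [Nat.mul_add] at h4
  omega

/-- The keys are ordered as the ranks. -/
theorem key_lt {ℓ u j s t : ℕ} (h : u + j < ℓ) (hs : s < ℓ) (ht : t < ℓ)
    (hr : rk ℓ u j s < rk ℓ u j t) :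
    ex ℓ u j * s + kap ℓ s < ex ℓ u j * t + kap ℓ t := by
  unfold rk at hr
  by_cases hsu : s < u
  · rw [if_pos hsu] at hr
    by_cases htu : t < u
    · rw [if_pos htu] at hr
      exact Key_dec h (by omega) hsu.le
    · exfalso
      rw [if_neg htu] at hr
      split_ifs at hr <;> omega
  · by_cases htu : t < u
    · exact Key_up h (by omega) hs htu
    · rw [if_neg hsu, if_neg htu] at hr
      by_cases hs0 : s = u
      · subst hs0
        rw [if_pos rfl] at hr
        by_cases ht0 : t = s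
        · rw [if_pos ht0] at hr; omega
        · rw [if_neg ht0] at hr
          by_cases htj : t ≤ s + j
          · rw [if_pos htj] at hr; omega
          · exact Key_mid_gt h (by omega)
      · rw [if_neg hs0] at hr
        by_cases ht0 : t = u
        · subst ht0
          rw [if_pos rfl] at hr
          by_cases hsj : s ≤ t + j
          · exact Key_mid_lt h (by omega) hsj
          · rw [if_neg hsj] at hr; omega
        · rw [if_neg ht0] at hr
          refine Key_inc h (by omega) ?_ ht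
          split_ifs at hr <;> omega

end Pool.Agent.H18.Ta

end

section

/-!
# Module C1 (TB): the Euler relations
-/

namespace Pool.Agent.H51.TB

open Finset Pool.Agent.H18.Ex Pool.Agent.H21.NX Pool.Agent.H18.Ta

private theorem Eul_num {R : Type*} [CommRing R] (A B : ℕ) (x : R) :
    ((B + 1 : ℕ) : R) * x * (((A.choose (B + 1) : ℕ) : R) * x ^ (A - (B + 1))) =
      ((A : R) - (B : R)) * (((A.choose B : ℕ) : R) * x ^ (A - B)) := by
  rcases lt_trichotomy B A with h | h | h
  · have h1 : A - B = (A - (B + 1)) + 1 := by omega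
    have h2 := Nat.choose_succ_right_eq A B
    have h3 : ((A.choose (B + 1) : ℕ) : R) * ((B + 1 : ℕ) : R) = ((A.choose B : ℕ) : R) * ((A : R) - (B : R)) := by
      rw [← Nat.cast_sub h.le, ← Nat.cast_mul, ← Nat.cast_mul, h2]
    rw [h1, pow_succ]
    calc ((B + 1 : ℕ) : R) * x * (((A.choose (B + 1) : ℕ) : R) * x ^ (A - (B + 1))) =
        (((A.choose (B + 1) : ℕ) : R) * ((B + 1 : ℕ) : R)) * (x ^ (A - (B + 1)) * x) := by ring
      _ = _ := by
        rw [h3]
        ring
  · subst h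
    rw [Nat.choose_succ_self, Nat.cast_zero, zero_mul, mul_zero, sub_self, zero_mul]
  · rw [Nat.choose_eq_zero_of_lt h, Nat.choose_eq_zero_of_lt (h.trans (Nat.lt_succ_self B)), Nat.cast_zero]
    ring

private theorem Eul_one {ι : Type} [Fintype ι] [DecidableEq ι] {R : Type*} [CommRing R] (q : ι → R)
    (α β : ι → ℕ) (l : ι) :
    ((β l + 1 : ℕ) : R) * q l * tcr q α (β + Pi.single l 1) = ((α l : R) - (β l : R)) * tcr q α β := by
  rw [tcr_eq q α (β + Pi.single l 1) l, tcr_eq q α β l]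
  have h1 : (β + Pi.single l 1 : ι → ℕ) l = β l + 1 := by simp
  have h2 : ∏ i ∈ univ.erase l, (((α i).choose ((β + Pi.single l 1 : ι → ℕ) i) : ℕ) : R) *
      q i ^ (α i - (β + Pi.single l 1 : ι → ℕ) i) =
      ∏ i ∈ univ.erase l, (((α i).choose (β i) : ℕ) : R) * q i ^ (α i - β i) := by
    refine rest_congr (fun _ _ => rfl) (fun _ _ => rfl) (fun i hi => ?_)
    rw [Pi.add_apply, Pi.single_eq_of_ne hi, Nat.add_zero]
  rw [h2, h1]
  have h3 := Eul_num (α l) (β l) (q l)
  linear_combination (∏ i ∈ univ.erase l, (((α i).choose (β i) : ℕ) : R) * q i ^ (α i - β i)) * h3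

private theorem Eul_xd {a b : ℕ} (β : Z a b → ℕ) (i : Fin b) :
    xd (β + Pi.single (Sum.inr i) 1) = xd β := by
  unfold xd
  refine Finset.sum_congr rfl (fun k _ => ?_)
  rw [Pi.add_apply, Pi.single_eq_of_ne (by simp), Nat.add_zero]

private theorem Eul_yd {a b : ℕ} (β : Z a b → ℕ) (i : Fin b) :
    yd (β + Pi.single (Sum.inr i) 1) = yd β + 1 := by
  unfold yd
  have h : ∀ k : Fin b, (β + Pi.single (Sum.inr i) 1 : Z a b → ℕ) (Sum.inr k) =
      β (Sum.inr k) + (Pi.single i 1 : Fin b → ℕ) k := by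
    intro k
    rw [Pi.add_apply]
    congr 1
    by_cases hk : k = i
    · subst hk
      simp
    · rw [Pi.single_eq_of_ne hk, Pi.single_eq_of_ne (by
        intro h1
        exact hk (Sum.inr_injective h1))]
  rw [Finset.sum_congr rfl (fun k _ => h k), Finset.sum_add_distrib]
  congr 1
  simp

private theorem Eul_zero {ι : Type} [Fintype ι] {R : Type*} [CommRing R] (q : ι → R)
    {α β : ι → ℕ} {l : ι} (h : α l < β l) : tcr q α β = 0 := by
  unfold tcr
  refine Finset.prod_eq_zero (mem_univ l) ?_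
  rw [Nat.choose_eq_zero_of_lt h, Nat.cast_zero, zero_mul]

/-- The Euler relation in the `Y`-variables.  For each `i`,
`(β_i + 1) * binom(α_i, β_i + 1) * q_i^(α_i - β_i - 1) * q_i = (α_i - β_i) * binom(α_i, β_i) *
q_i^(α_i - β_i)` if `β_i < α_i`; if `β_i = α_i` both sides vanish; if `α_i < β_i` then
`tcr q α β = 0` and `tcr q α (β + e_i) = 0`.  (If `β ≤ α` fails at another coordinate both
sides vanish as well.) -/
theorem euler {R : Type*} [CommRing R] {a b : ℕ} (q : Z a b → R) (α β : Z a b → ℕ) :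
    ∑ i : Fin b, ((β (Sum.inr i) + 1 : ℕ) : R) * q (Sum.inr i) *
      tcr q α (β + Pi.single (Sum.inr i) 1) = ((yd α : ℕ) - (yd β : ℕ) : R) * tcr q α β := by
  have h1 : ∀ i : Fin b, ((β (Sum.inr i) + 1 : ℕ) : R) * q (Sum.inr i) *
      tcr q α (β + Pi.single (Sum.inr i) 1) =
      ((α (Sum.inr i) : R) - (β (Sum.inr i) : R)) * tcr q α β := fun i => Eul_one q α β (Sum.inr i)
  rw [Finset.sum_congr rfl (fun i _ => h1 i), ← Finset.sum_mul, Finset.sum_sub_distrib]
  unfold yd
  push_cast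
  rfl

/-- Let `T j β = ∑_{α on the level j} g α * tcr q α β` and suppose
`∑_{j ≤ d} w j * T j β = 0` for all `β` with `|β| < m`.  Then
`∑_{j ≤ d} (∏_{u ∈ S} (j - u)) * (w j * T j β) = 0` if `|β| + |S| < m`.

Induction on `S`: by `euler`,
`(j - u) * T j β = ∑_i (β_i + 1) q_i T j (β + e_i) + (yd β - u) * T j β`. -/
theorem weighted {R : Type*} [CommRing R] {a b d m : ℕ} (q : Z a b → R) (g : (Z a b → ℕ) → R)
    (w : ℕ → R)
    (h : ∀ β : Z a b → ℕ, xd β + yd β < m →
      ∑ j ∈ range (d + 1), w j * ∑ α ∈ Bx a b d j, g α * tcr q α β = 0)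
    (S : Finset ℕ) (β : Z a b → ℕ) (hβ : xd β + yd β + S.card < m) :
    ∑ j ∈ range (d + 1), (∏ u ∈ S, ((j : R) - (u : R))) *
      (w j * ∑ α ∈ Bx a b d j, g α * tcr q α β) = 0 := by
  induction S using Finset.induction_on generalizing β with
  | empty =>
    simp only [Finset.prod_empty, one_mul]
    refine h β ?_
    rw [Finset.card_empty] at hβ
    omega
  | insert u S hu ih =>
    rw [Finset.card_insert_of_notMem hu] at hβ
    have h1 : ∀ j ∈ range (d + 1), (∏ u' ∈ insert u S, ((j : R) - (u' : R))) *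
        (w j * ∑ α ∈ Bx a b d j, g α * tcr q α β) =
        (∑ i : Fin b, (((β (Sum.inr i) + 1 : ℕ) : R) * q (Sum.inr i)) *
          ((∏ u' ∈ S, ((j : R) - (u' : R))) *
            (w j * ∑ α ∈ Bx a b d j, g α * tcr q α (β + Pi.single (Sum.inr i) 1)))) +
        ((yd β : R) - (u : R)) * ((∏ u' ∈ S, ((j : R) - (u' : R))) *
            (w j * ∑ α ∈ Bx a b d j, g α * tcr q α β)) := by
      intro j _
      rw [Finset.prod_insert hu]
      have h2 : ((j : R) - (u : R)) * ∑ α ∈ Bx a b d j, g α * tcr q α β =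
          (∑ i : Fin b, (((β (Sum.inr i) + 1 : ℕ) : R) * q (Sum.inr i)) *
            ∑ α ∈ Bx a b d j, g α * tcr q α (β + Pi.single (Sum.inr i) 1)) +
          ((yd β : R) - (u : R)) * ∑ α ∈ Bx a b d j, g α * tcr q α β := by
        have h3 : ∑ i : Fin b, (((β (Sum.inr i) + 1 : ℕ) : R) * q (Sum.inr i)) *
            ∑ α ∈ Bx a b d j, g α * tcr q α (β + Pi.single (Sum.inr i) 1) =
            ∑ α ∈ Bx a b d j, g α * (((j : R) - (yd β : R)) * tcr q α β) := by
          rw [Finset.sum_congr rfl (fun i _ => Finset.mul_sum _ _ _), Finset.sum_comm]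
          refine Finset.sum_congr rfl (fun α hα => ?_)
          have h4 := euler q α β
          rw [(mem_Bx.1 hα).2] at h4
          rw [← h4, Finset.mul_sum]
          refine Finset.sum_congr rfl (fun i _ => ?_)
          ring
        rw [h3, Finset.mul_sum, Finset.mul_sum, ← Finset.sum_add_distrib]
        refine Finset.sum_congr rfl (fun α _ => ?_)
        ring
      have h5 : ((j : R) - (u : R)) * (∏ u' ∈ S, ((j : R) - (u' : R))) *
          (w j * ∑ α ∈ Bx a b d j, g α * tcr q α β) =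
          (∏ u' ∈ S, ((j : R) - (u' : R))) * w j *
            (((j : R) - (u : R)) * ∑ α ∈ Bx a b d j, g α * tcr q α β) := by ring
      rw [h5, h2, mul_add, Finset.mul_sum]
      congr 1
      · refine Finset.sum_congr rfl (fun i _ => ?_)
        ring
      · ring
    rw [Finset.sum_congr rfl h1, Finset.sum_add_distrib, Finset.sum_comm, ← Finset.mul_sum,
      ih β (by omega), mul_zero, add_zero]
    refine Finset.sum_eq_zero (fun i _ => ?_)
    rw [← Finset.mul_sum, ih (β + Pi.single (Sum.inr i) 1) (by rw [Eul_xd, Eul_yd]; omega), mul_zero]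

/-- On the level `j` the derivatives of bidegree `g` vanish unless `gy ≤ j` and `gx ≤ d - j`. -/
theorem tcr_zero {R : Type*} [CommRing R] {a b d j : ℕ} (q : Z a b → R) (α β : Z a b → ℕ)
    (hα : α ∈ Bx a b d j) (h : ¬ (yd β ≤ j ∧ j + xd β ≤ d)) : tcr q α β = 0 := by
  obtain ⟨h1, h2⟩ := mem_Bx.1 hα
  have h3 : (∃ i : Fin b, α (Sum.inr i) < β (Sum.inr i)) ∨ ∃ i : Fin a, α (Sum.inl i) < β (Sum.inl i) := by
    by_contra hcon
    push Not at hcon
    obtain ⟨h4, h5⟩ := hcon
    have h6 : yd β ≤ yd α := Finset.sum_le_sum (fun i _ => h4 i)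
    have h7 : xd β ≤ xd α := Finset.sum_le_sum (fun i _ => h5 i)
    exact h ⟨by omega, by omega⟩
  rcases h3 with ⟨i, hi⟩ | ⟨i, hi⟩
  · exact Eul_zero q hi
  · exact Eul_zero q hi

/-- Scaling of the `Y`-coordinates. -/
theorem tcr_scale {R : Type*} [CommRing R] {a b : ℕ} (x : Fin a → R) (y : Fin b → R) (s : R)
    (α β : Z a b → ℕ) :
    s ^ yd β * tcr (Sum.elim x fun i => s * y i) α β = s ^ yd α * tcr (Sum.elim x y) α β := by
  unfold tcr
  rw [Fintype.prod_sum_type, Fintype.prod_sum_type]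
  simp only [Sum.elim_inl, Sum.elim_inr]
  have h1 : s ^ yd β * ∏ i : Fin b, (((α (Sum.inr i)).choose (β (Sum.inr i)) : ℕ) : R) *
      (s * y i) ^ (α (Sum.inr i) - β (Sum.inr i)) =
      s ^ yd α * ∏ i : Fin b, (((α (Sum.inr i)).choose (β (Sum.inr i)) : ℕ) : R) *
      y i ^ (α (Sum.inr i) - β (Sum.inr i)) := by
    unfold yd
    rw [← Finset.prod_pow_eq_pow_sum, ← Finset.prod_pow_eq_pow_sum, ← Finset.prod_mul_distrib,
      ← Finset.prod_mul_distrib]
    refine Finset.prod_congr rfl (fun i _ => ?_)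
    by_cases hi : β (Sum.inr i) ≤ α (Sum.inr i)
    · obtain ⟨k, hk⟩ := Nat.exists_eq_add_of_le hi
      rw [hk, Nat.add_sub_cancel_left, mul_pow, pow_add]
      ring
    · rw [Nat.choose_eq_zero_of_lt (not_le.1 hi), Nat.cast_zero]
      ring
  calc _ = (∏ i : Fin a, (((α (Sum.inl i)).choose (β (Sum.inl i)) : ℕ) : R) *
        x i ^ (α (Sum.inl i) - β (Sum.inl i))) *
        (s ^ yd β * ∏ i : Fin b, (((α (Sum.inr i)).choose (β (Sum.inr i)) : ℕ) : R) *
      (s * y i) ^ (α (Sum.inr i) - β (Sum.inr i))) := by ring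
    _ = _ := by
      rw [h1]
      ring

end Pool.Agent.H51.TB

end

section

/-!
# Module C2 (TB): the limit lemma

Compare `Pool/Agent/H18/Ta/Core.lean` (the same argument for two variables).

Proof.  By `gn_gd` and `Gn.all` there are positions `p i` such that `V (Lam ... j) p = ⊥` for all
levels `j ≤ d`.  Let `e i = ex (d+1) u ρ`, `c i = (u, ρ)`, `kap = kap (d+1)` and
`key i j = e i * j + kap j`; by `key_lt` (with `ℓ = d + 1`) the keys are ordered as the ranks, and
the ranks are different (`rk_inj`).  We claim that for some `t` the positions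
`p_t i = (x_i, t^(e i) y_i)` prove `GI`.  Otherwise for all `t` there is a nonzero `f` (on
`Sx (Z a b) d`) with `∑_α f_α tcr (p_t i) α β = 0` for all `i`, `|β| < m i`; write
`f_α = t^(kap (yd α)) g_α` and multiply by `t^(e i * yd β)` (`tcr_scale`):
`∑_j t^(key i j) T_j = 0`, `T_j = ∑_{α on level j} g_α tcr (p i) α β` (as in Core, an additional factor
`X` takes care of `t = 0`).  By `exists_poly_solution` there are polynomials `g_α(t)`, not all zero
at `t = 0`, which satisfy these identities as polynomials in `t`.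

Fix `i`, a level `j` and `β` with `(xd β, yd β) ∈ Lam d (m i) (c i) j`.  Let `S` be the set of the levels
of the window `[yd β, d - xd β]` of rank smaller than that of `j`; `S.card = wr d (c i) (xd β, yd β) j`,
so `|β| + S.card < m i` and `weighted` gives `∑_{j'} ∏_{u ∈ S} (j' - u) t^(key i j') T_{j'} = 0`.  Take
the coefficient of `t^(key i j)`: the levels `j'` outside of the window have `T_{j'} = 0` (`tcr_zero`),
those of smaller rank are in `S`, those of larger rank have a larger key.  So `T_j(0) = 0` (the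
product over `S` is nonzero at `j`).  Hence the values `g_α(0)` on the level `j` are in
`V (Lam ... j) p = ⊥` for all `j`, a contradiction.
-/

namespace Pool.Agent.H51.TB

open Finset Pool.Agent.H18.Ex Pool.Agent.H21.NX Pool.Agent.H18.Ta

/-- The positions at the parameter `t`. -/
private def Lim_pos {a b : ℕ} (q : Z a b → ℂ) (s : ℂ) : Z a b → ℂ :=
  Sum.elim (fun v => q (Sum.inl v)) fun v => s * q (Sum.inr v)

private theorem Lim_scale {a b : ℕ} (q : Z a b → ℂ) (s : ℂ) (α β : Z a b → ℕ) :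
    s ^ yd β * tcr (Lim_pos q s) α β = s ^ yd α * tcr q α β := by
  have h1 := tcr_scale (fun v => q (Sum.inl v)) (fun v => q (Sum.inr v)) s α β
  have h2 : (Sum.elim (fun v => q (Sum.inl v)) fun v => q (Sum.inr v) : Z a b → ℂ) = q := by
    funext v
    cases v <;> rfl
  rw [h2] at h1
  exact h1

private theorem Lim_fiber {a b d : ℕ} {M : Type*} [AddCommMonoid M] (f : (Z a b → ℕ) → M) :
    ∑ α ∈ Sx (Z a b) d, f α = ∑ j ∈ range (d + 1), ∑ α ∈ Bx a b d j, f α := by
  symm
  unfold Bx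
  refine sum_fiberwise_of_maps_to (g := fun α : Z a b → ℕ => yd α) ?_ f
  intro α hα
  rw [mem_Sx, Fintype.sum_sum_type] at hα
  rw [mem_range]
  show yd α < d + 1
  unfold yd
  omega

/-- The positions at which all levels are killed. -/
private theorem Lim_gen {a b d : ℕ} {κ : Type} [Fintype κ] (m : κ → ℕ) (c : κ → ℕ × ℕ)
    (h : ∀ j ≤ d, (LSys a b d j).gd (fun i => Lam d (m i) (c i) j) = 0) :
    ∃ p : κ → Z a b → ℂ, ∀ j ≤ d, ∀ f ∈ (LSys a b d j).V (fun i => Lam d (m i) (c i) j) p,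
      f = 0 := by
  have h1 : Gn κ (Z a b) fun p => ∀ j ∈ range (d + 1),
      Module.finrank ℂ ((LSys a b d j).V (fun i => Lam d (m i) (c i) j) p) =
        (LSys a b d j).gd (fun i => Lam d (m i) (c i) j) :=
    Gn.all (range (d + 1)) fun j _ => gn_gd (LSys a b d j) _
  obtain ⟨p, hp⟩ := h1.exists
  refine ⟨p, fun j hj f hf => ?_⟩
  have h2 := hp j (mem_range.2 (by omega))
  rw [h j hj, Submodule.finrank_eq_zero] at h2
  rw [h2] at hf
  exact (Submodule.mem_bot ℂ).1 hf

theorem limit {a b d : ℕ} {κ : Type} [Fintype κ] (m : κ → ℕ) (c : κ → ℕ × ℕ)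
    (hc : ∀ i, (c i).1 + (c i).2 ≤ d)
    (h : ∀ j ≤ d, (LSys a b d j).gd (fun i => Lam d (m i) (c i) j) = 0) :
    GI (Sx (Z a b) d) fun i => Kind.free (m i) := by
  classical
  obtain ⟨p, hp⟩ := Lim_gen m c h
  by_contra hcon
  unfold GI InjAt at hcon
  push Not at hcon
  let e : κ → ℕ := fun i => ex (d + 1) (c i).1 (c i).2
  let key : κ → ℕ → ℕ := fun i j => e i * j + kap (d + 1) j
  let A : Finset (Z a b → ℕ) := Sx (Z a b) d
  let ρ : Type := (i : κ) × {β // β ∈ (Kind.free (m i) : Kind (Z a b)).idxs}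
  let Mx : ρ → (Z a b → ℕ) → Polynomial ℂ := fun r α =>
    Polynomial.C (tcr (p r.1) α r.2.1) * (Polynomial.X ^ key r.1 (yd α) * Polynomial.X)
  have hsol : ∀ t : ℂ, ∃ f : (Z a b → ℕ) → ℂ,
      (∀ r, ∑ α ∈ A, f α * (Mx r α).eval t = 0) ∧ ∃ α ∈ A, f α ≠ 0 := by
    intro t
    obtain ⟨f, hf, α₁, hα₁, hne⟩ := hcon fun i => Lim_pos (p i) (t ^ e i)
    by_cases ht : t = 0
    · refine ⟨fun _ => 1, fun r => sum_eq_zero fun α _ => ?_, α₁, hα₁, one_ne_zero⟩
      subst ht
      simp only [Mx]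
      simp
    · refine ⟨fun α => f α * (t ^ kap (d + 1) (yd α))⁻¹, fun r => ?_, α₁, hα₁, ?_⟩
      · have h1 : ∑ α ∈ Sx (Z a b) d, f α * tcr (Lim_pos (p r.1) (t ^ e r.1)) α r.2.1 = 0 :=
          hf r.1 r.2.1 (Kind.mem_idxs.1 r.2.2)
        have h2 : ∑ α ∈ A, f α * (t ^ kap (d + 1) (yd α))⁻¹ * (Mx r α).eval t =
            (t * (t ^ e r.1) ^ yd r.2.1) *
              ∑ α ∈ Sx (Z a b) d, f α * tcr (Lim_pos (p r.1) (t ^ e r.1)) α r.2.1 := by
          rw [mul_sum]
          refine sum_congr rfl fun α _ => ?_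
          simp only [Mx, key]
          simp only [Polynomial.eval_mul, Polynomial.eval_C, Polynomial.eval_pow, Polynomial.eval_X]
          have h3 := Lim_scale (p r.1) (t ^ e r.1) α r.2.1
          have h5 : t ^ kap (d + 1) (yd α) ≠ 0 := pow_ne_zero _ ht
          calc f α * (t ^ kap (d + 1) (yd α))⁻¹ * (tcr (p r.1) α r.2.1 *
                (t ^ (e r.1 * yd α + kap (d + 1) (yd α)) * t))
              = t * f α * ((t ^ e r.1) ^ yd α * tcr (p r.1) α r.2.1) *
                ((t ^ kap (d + 1) (yd α))⁻¹ * t ^ kap (d + 1) (yd α)) := by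
                rw [pow_add, pow_mul]
                ring
            _ = t * f α * ((t ^ e r.1) ^ yd r.2.1 *
                tcr (Lim_pos (p r.1) (t ^ e r.1)) α r.2.1) := by
                rw [inv_mul_cancel₀ h5, mul_one, h3]
            _ = _ := by ring
        rw [h2, h1, mul_zero]
      · exact mul_ne_zero hne (inv_ne_zero (pow_ne_zero _ ht))
  obtain ⟨F, hF, α₀, hα₀, hne⟩ := Pool.Agent.H18.Ex.exists_poly_solution A Mx hsol
  -- the equations without the factor `X`
  have heq : ∀ i (β : Z a b → ℕ), xd β + yd β < m i → ∑ j ∈ range (d + 1),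
      (Polynomial.X : Polynomial ℂ) ^ key i j *
        ∑ α ∈ Bx a b d j, F α * tcr (fun v => Polynomial.C (p i v)) α β = 0 := by
    intro i β hβ
    have hmem : β ∈ (Kind.free (m i) : Kind (Z a b)).idxs := by
      rw [Kind.mem_idxs]
      show ∑ v, β v < m i
      rw [Fintype.sum_sum_type]
      exact hβ
    have h1 := hF ⟨i, ⟨β, hmem⟩⟩
    have h2 : Polynomial.X * ∑ j ∈ range (d + 1),
        (Polynomial.X : Polynomial ℂ) ^ key i j *
          ∑ α ∈ Bx a b d j, F α * tcr (fun v => Polynomial.C (p i v)) α β = 0 := by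
      rw [← h1]
      show _ = ∑ α ∈ Sx (Z a b) d, _
      rw [Lim_fiber, mul_sum]
      refine sum_congr rfl fun j _ => ?_
      rw [mul_sum, mul_sum]
      refine sum_congr rfl fun α hα => ?_
      have h3 : yd α = j := (mem_Bx.1 hα).2
      simp only [Mx]
      rw [h3, tcr_map Polynomial.C (p i) α β]
      ring
    exact (mul_eq_zero.1 h2).resolve_left Polynomial.X_ne_zero
  -- the vanishing at zero
  have hkeyv : ∀ i, ∀ j₀ ≤ d, ∀ β : Z a b → ℕ, (xd β, yd β) ∈ Lam d (m i) (c i) j₀ →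
      ∑ α ∈ Bx a b d j₀, tcr (p i) α β * (F α).eval 0 = 0 := by
    intro i j₀ hj₀ β hβ
    unfold Lam at hβ
    rw [mem_filter] at hβ
    obtain ⟨_, hy, hx, hw⟩ := hβ
    simp only at hy hx hw
    have hci : (c i).1 + (c i).2 < d + 1 := by
      have := hc i
      omega
    set S : Finset ℕ := (range (d + 1)).filter fun k => yd β ≤ k ∧ k + xd β ≤ d ∧
      rk (d + 1) (c i).1 (c i).2 k < rk (d + 1) (c i).1 (c i).2 j₀ with hS
    have hScard : S.card = wr d (c i) (xd β, yd β) j₀ := rfl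
    have h2 := weighted (m := m i) (fun v => Polynomial.C (p i v)) F
      (fun j => (Polynomial.X : Polynomial ℂ) ^ key i j) (fun β' hβ' => heq i β' hβ') S β
      (by rw [hScard]; exact hw)
    have h3 := congrArg (fun q => Polynomial.coeff q (key i j₀)) h2
    simp only [Polynomial.finsetSum_coeff, Polynomial.coeff_zero] at h3
    rw [sum_eq_single j₀] at h3
    · -- the main term
      have h4 : (∏ u ∈ S, (((j₀ : ℕ) : Polynomial ℂ) - ((u : ℕ) : Polynomial ℂ))) =
          Polynomial.C (∏ u ∈ S, ((j₀ : ℂ) - (u : ℂ))) := by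
        rw [map_prod]
        refine prod_congr rfl fun u _ => ?_
        rw [map_sub]
        simp
      rw [h4, Polynomial.coeff_C_mul, Polynomial.coeff_X_pow_mul', if_pos le_rfl,
        Nat.sub_self] at h3
      have h5 : (∏ u ∈ S, ((j₀ : ℂ) - (u : ℂ))) ≠ 0 := by
        rw [prod_ne_zero_iff]
        intro u hu
        rw [sub_ne_zero]
        intro h6
        have h7 : j₀ = u := by exact_mod_cast h6
        have h8 := (mem_filter.1 hu).2.2.2
        rw [← h7] at h8
        exact lt_irrefl _ h8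
      have h6 := (mul_eq_zero.1 h3).resolve_left h5
      rw [Polynomial.coeff_zero_eq_eval_zero, Polynomial.eval_finsetSum] at h6
      refine Eq.trans (sum_congr rfl fun α _ => ?_) h6
      rw [← tcr_map Polynomial.C (p i) α β, Polynomial.eval_mul, Polynomial.eval_C, mul_comm]
    · -- the other terms
      intro j hj hne
      rw [mem_range] at hj
      by_cases hwin : yd β ≤ j ∧ j + xd β ≤ d
      · by_cases hjS : j ∈ S
        · rw [prod_eq_zero hjS (sub_self _), zero_mul, Polynomial.coeff_zero]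
        · have h4 : rk (d + 1) (c i).1 (c i).2 j₀ ≤ rk (d + 1) (c i).1 (c i).2 j := by
            by_contra h5
            exact hjS (mem_filter.2 ⟨mem_range.2 hj, hwin.1, hwin.2, by omega⟩)
          have h5 : rk (d + 1) (c i).1 (c i).2 j₀ < rk (d + 1) (c i).1 (c i).2 j := by
            refine lt_of_le_of_ne h4 fun h6 => hne ?_
            exact (rk_inj hci (by omega) hj h6).symm
          have h6 : key i j₀ < key i j := key_lt hci (by omega) hj h5
          rw [mul_left_comm, Polynomial.coeff_X_pow_mul', if_neg (by omega)]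
      · have h4 : ∑ α ∈ Bx a b d j, F α * tcr (fun v => Polynomial.C (p i v)) α β = 0 := by
          refine sum_eq_zero fun α hα => ?_
          rw [tcr_zero _ α β hα hwin, mul_zero]
        rw [h4, mul_zero, mul_zero, Polynomial.coeff_zero]
    · intro hj
      exact absurd (mem_range.2 (by omega)) hj
  -- conclusion
  have hα₀' : yd α₀ ≤ d ∧ α₀ ∈ Bx a b d (yd α₀) := by
    have h1 : α₀ ∈ Sx (Z a b) d := hα₀
    have h2 : α₀ ∈ Bx a b d (yd α₀) := by
      unfold Bx
      exact mem_filter.2 ⟨h1, rfl⟩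
    refine ⟨?_, h2⟩
    have h3 := (mem_Bx.1 h2).1
    omega
  apply hne
  have h1 := hp (yd α₀) hα₀'.1 (fun α => (F α.1).eval 0) (by
    rw [mem_LV]
    intro i β hβ
    rw [sum_coe_sort (Bx a b d (yd α₀)) fun α => tcr (p i) α β * (F α).eval 0]
    exact hkeyv i (yd α₀) hα₀'.1 β hβ)
  exact congrFun h1 ⟨α₀, hα₀'.2⟩

end Pool.Agent.H51.TB

end

section

/-!
# Module A5 (TB): the window lemma

Proof (as in `Pool/Agent/H21/NX/Chain.lean`).  Let `A_j = m + j b` (`j` further points of type `b`;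
e.g. `Sum.elim m fun _ : Fin j => b`), `g_j = gd A_j`, `G_j = gd (A_j, t)`, `c_j = g_j - G_j`.
`g_{j+1} ≥ g_j - size b` (`gd_le_ad`), so `g_j ≥ gd m - j * size b > 0` for `j ≤ size t - 1`.
Suppose `c_0 ≠ size t`, so `c_0 < size t` (`gd_le_ad`) and `size t ≥ 1`.  By `gd_submod`
`c_{j+1} ≤ c_j`, and if equality holds and `g_j ≠ 0` then `c_j = size t` by `swap` (all types of
`A_j` are dominated by `b`), impossible since `c_j ≤ c_0 < size t`.  Hence `c_{j+1} < c_j` for
`j < size t - 1`, so `c_{size t - 1} = 0`, and `gd_simple` gives `g_{size t - 1} = 0`, a contradiction.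
(The order in which points are added does not matter: `gd_comp_equiv`.)
-/

namespace Pool.Agent.H51.TB

open Finset MvPolynomial

/-- An equivalence of index types. -/
private noncomputable def WinX.eqv (κ : Type) (j : ℕ) : (κ ⊕ Fin j) ⊕ Unit ≃ κ ⊕ Fin (j + 1) :=
  (Equiv.sumAssoc κ (Fin j) Unit).trans
    (Equiv.sumCongr (Equiv.refl κ) (Fintype.equivOfCardEq (by simp)))

private theorem WinX.g_succ {E ν T : Type} [Fintype E] (S : Sys E ν T) {κ : Type} (m : κ → T)
    (b : T) (j : ℕ) :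
    S.gd (ad (Sum.elim m fun _ : Fin j => b) b) = S.gd (Sum.elim m fun _ : Fin (j + 1) => b) := by
  rw [← gd_comp_equiv S (WinX.eqv κ j)]
  congr 1
  funext i
  rcases i with (i | i) | i <;> rfl

private theorem WinX.G_succ {E ν T : Type} [Fintype E] (S : Sys E ν T) {κ : Type} (m : κ → T)
    (t b : T) (j : ℕ) :
    S.gd (ad (ad (Sum.elim m fun _ : Fin j => b) b) t) =
      S.gd (ad (Sum.elim m fun _ : Fin (j + 1) => b) t) := by
  rw [← gd_comp_equiv S (Equiv.sumCongr (WinX.eqv κ j) (Equiv.refl Unit))]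
  congr 1
  funext i
  rcases i with ((i | i) | i) | i <;> rfl

private theorem WinX.g_zero {E ν T : Type} [Fintype E] (S : Sys E ν T) {κ : Type} (m : κ → T)
    (b : T) : S.gd (Sum.elim m fun _ : Fin 0 => b) = S.gd m := by
  rw [← gd_comp_equiv S (Equiv.sumEmpty κ (Fin 0))]
  congr 1
  funext i
  rcases i with i | i
  · rfl
  · exact i.elim0

private theorem WinX.G_zero {E ν T : Type} [Fintype E] (S : Sys E ν T) {κ : Type} (m : κ → T)
    (t b : T) : S.gd (ad (Sum.elim m fun _ : Fin 0 => b) t) = S.gd (ad m t) := by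
  rw [← gd_comp_equiv S (Equiv.sumCongr (Equiv.sumEmpty κ (Fin 0)) (Equiv.refl Unit))]
  congr 1
  funext i
  rcases i with (i | i) | i
  · rfl
  · exact i.elim0
  · rfl

variable {E ν T : Type} [Fintype E] (S : Sys E ν T) {κ : Type}

theorem window (hS : S.Span) [Fintype κ] (m : κ → T) (t b : T) (hb : ∀ i, S.Dom b (m i))
    (h : (S.size t - 1) * S.size b < S.gd m) : S.gd m = S.gd (ad m t) + S.size t := by
  classical
  set g : ℕ → ℕ := fun j => S.gd (Sum.elim m fun _ : Fin j => b) with hg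
  set G : ℕ → ℕ := fun j => S.gd (ad (Sum.elim m fun _ : Fin j => b) t) with hG
  have h1 : ∀ j, G j ≤ g j := fun j => gd_ad_le S _ t
  have h2 : ∀ j, g j ≤ G j + S.size t := fun j => gd_le_ad S (Sum.elim m fun _ : Fin j => b) t
  have h3 : ∀ j, g j ≤ g (j + 1) + S.size b := fun j => by
    have := gd_le_ad S (Sum.elim m fun _ : Fin j => b) b
    rw [WinX.g_succ] at this
    exact this
  have h4 : ∀ j, G j + g (j + 1) ≤ g j + G (j + 1) := fun j => by
    have := gd_submod S (Sum.elim m fun _ : Fin j => b) b t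
    rw [WinX.g_succ, WinX.G_succ] at this
    change g (j + 1) + G j ≤ g j + G (j + 1) at this
    omega
  have h5 : ∀ j, g j ≠ 0 → G j + g (j + 1) = g j + G (j + 1) → g j = G j + S.size t := by
    intro j hj he
    have hmj : ∀ a, S.Dom b ((Sum.elim m fun _ : Fin j => b) a) := by
      rintro (a | a)
      · exact hb a
      · exact fun q => le_rfl
    rcases swap S hS (Sum.elim m fun _ : Fin j => b) t b hmj (by
      rw [WinX.g_succ, WinX.G_succ]
      change g j + G (j + 1) = G j + g (j + 1)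
      exact he.symm) with h | h
    · exact absurd h hj
    · exact h
  have hg0 : g 0 = S.gd m := WinX.g_zero S m b
  have hG0 : G 0 = S.gd (ad m t) := WinX.G_zero S m t b
  have hlow : ∀ j, g 0 ≤ g j + j * S.size b := by
    intro j
    induction j with
    | zero => simp
    | succ j ih =>
      have := h3 j
      have e : (j + 1) * S.size b = j * S.size b + S.size b := by ring
      omega
  have hne : ∀ j, j ≤ S.size t - 1 → g j ≠ 0 := by
    intro j hj h0
    have i1 := hlow j
    have i2 : j * S.size b ≤ (S.size t - 1) * S.size b := Nat.mul_le_mul_right _ hj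
    omega
  rw [← hg0, ← hG0]
  by_contra hcon
  have a1 := h1 0
  have a2 := h2 0
  have hpos : 1 ≤ S.size t := by omega
  have key : ∀ j, j ≤ S.size t - 1 → g j - G j + j ≤ S.size t - 1 := by
    intro j
    induction j with
    | zero => intro _; omega
    | succ j ih =>
      intro hj
      have i1 := ih (by omega)
      have i2 := h4 j
      have i3 := h1 j
      have i4 := h1 (j + 1)
      have i5 : g j ≠ 0 := hne j (by omega)
      have i6 : G j + g (j + 1) ≠ g j + G (j + 1) := fun he => by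
        have := h5 j i5 he
        omega
      omega
  have k1 := key _ le_rfl
  have k2 := h1 (S.size t - 1)
  have k3 : G (S.size t - 1) = g (S.size t - 1) := by omega
  exact hne _ le_rfl (gd_simple S hS _ t hpos k3)

end Pool.Agent.H51.TB

end

section

/-!
# Module A6 (TB): families of points

`S.gf m A` is the general dimension for the points of the finite set `A` of a family `m`.
-/

namespace Pool.Agent.H51.TB

open Finset MvPolynomial

variable {E ν T : Type} [Fintype E] (S : Sys E ν T) {κ : Type}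

/-- The general dimension for the points of `A`. -/
noncomputable def Sys.gf (m : κ → T) (A : Finset κ) : ℕ := S.gd fun i : {x // x ∈ A} => m i.1

theorem gf_univ [Fintype κ] (m : κ → T) : S.gf m univ = S.gd m :=
  gd_comp_equiv S (Equiv.subtypeUnivEquiv fun x : κ => mem_univ x) m

theorem gf_singleton (m : κ → T) (i : κ) : S.gf m {i} + S.size (m i) = Fintype.card E := by
  have h : S.gf m {i} = S.gd fun _ : Unit => m i := by
    let e : Unit ≃ {x : κ // x ∈ ({i} : Finset κ)} :=
      { toFun := fun _ => ⟨i, mem_singleton_self i⟩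
        invFun := fun _ => ()
        left_inv := fun _ => rfl
        right_inv := fun x => Subtype.ext (mem_singleton.1 x.2).symm }
    exact (gd_comp_equiv S e fun x => m x.1).symm
  rw [h]
  exact gd_unit S (m i)

theorem gf_insert [DecidableEq κ] (m : κ → T) (A : Finset κ) (i : κ) (hi : i ∉ A) :
    S.gf m (insert i A) = S.gd (ad (fun i : {x // x ∈ A} => m i.1) (m i)) := by
  let g : {x // x ∈ A} ⊕ Unit → {x // x ∈ insert i A} :=
    Sum.elim (fun x => ⟨x.1, mem_insert_of_mem x.2⟩) fun _ => ⟨i, mem_insert_self i A⟩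
  have hg : Function.Bijective g := by
    constructor
    · rintro (x | x) (y | y) h
      · have h1 : x.1 = y.1 := congrArg (fun z : {x // x ∈ insert i A} => z.1) h
        exact congrArg Sum.inl (Subtype.ext h1)
      · have h1 : x.1 = i := congrArg (fun z : {x // x ∈ insert i A} => z.1) h
        exact absurd (h1 ▸ x.2) hi
      · have h1 : i = y.1 := congrArg (fun z : {x // x ∈ insert i A} => z.1) h
        exact absurd (h1 ▸ y.2) hi
      · rfl
    · rintro ⟨x, hx⟩
      rcases mem_insert.1 hx with h | h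
      · exact ⟨Sum.inr (), Subtype.ext h.symm⟩
      · exact ⟨Sum.inl ⟨x, h⟩, rfl⟩
  have h1 := gd_comp_equiv S (Equiv.ofBijective g hg) fun x => m x.1
  have h2 : (fun j => m ((Equiv.ofBijective g hg) j).1) =
      ad (fun i : {x // x ∈ A} => m i.1) (m i) := by
    funext j
    rcases j with x | x
    · rfl
    · rfl
  rw [h2] at h1
  exact h1.symm

/-- A phase: the points of `B` are added one after the other (induction on `B`, `window`).  If the
dimension is larger than `W` then the next point imposes `size` conditions; the dimension never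
increases. -/
theorem gf_phase (hS : S.Span) [DecidableEq κ] (m : κ → T) (b : T) (hb : ∀ i, S.Dom b (m i))
    (W : ℕ) (A B : Finset κ) (hAB : Disjoint A B)
    (hW : ∀ i ∈ B, (S.size (m i) - 1) * S.size b ≤ W) :
    S.gf m (A ∪ B) ≤ max (S.gf m A - ∑ i ∈ B, S.size (m i)) W := by
  induction B using Finset.induction_on with
  | empty =>
    rw [union_empty, sum_empty]
    exact le_max_left _ _
  | insert i B hi ih =>
    have hAB' : Disjoint A B := hAB.mono_right (subset_insert i B)
    have ih' := ih hAB' fun j hj => hW j (mem_insert_of_mem hj)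
    have hiA : i ∉ A := fun h => (Finset.disjoint_left.1 hAB) h (mem_insert_self i B)
    have hiU : i ∉ A ∪ B := by
      rw [mem_union]
      rintro (h | h)
      · exact hiA h
      · exact hi h
    have e : A ∪ insert i B = insert i (A ∪ B) := union_insert i A B
    rw [e, gf_insert S m (A ∪ B) i hiU, sum_insert hi]
    have hW' := hW i (mem_insert_self i B)
    rcases lt_or_ge W (S.gf m (A ∪ B)) with h | h
    · have h1 : S.gf m (A ∪ B) = S.gd (ad (fun i : {x // x ∈ A ∪ B} => m i.1) (m i)) +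
          S.size (m i) :=
        window S hS (fun i : {x // x ∈ A ∪ B} => m i.1) (m i) b (fun j => hb j.1)
          (lt_of_le_of_lt hW' h)
      have h2 : S.gf m (A ∪ B) ≤ S.gf m A - ∑ i ∈ B, S.size (m i) := by
        rcases le_max_iff.1 ih' with h3 | h3
        · exact h3
        · omega
      refine le_trans ?_ (le_max_left _ _)
      omega
    · refine le_trans ?_ (le_max_right _ _)
      have h1 : S.gd (ad (fun i : {x // x ∈ A ∪ B} => m i.1) (m i)) ≤ S.gf m (A ∪ B) :=
        gd_elim_le S (fun i : {x // x ∈ A ∪ B} => m i.1) fun _ : Unit => m i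
      exact h1.trans h

end Pool.Agent.H51.TB

end

section

/-!
# Module A7 (TB): the level lemma

The points are added in the following order: first `i₀`, then those of class larger than `μ`, then
class `μ`, then class `μ - 1`, …, class `1`, class `0`; one phase (`gf_phase`) for each group.
Let `R t` be the dimension after the classes `≥ t` (and `i₀`) have been added.  Then for
`t ≤ μ`: `R t ≤ max (card E - (mass of i₀ and of the classes ≥ t)) (W t)`, by descending induction,
since `R t ≤ max (R (t+1) - mass_t) (W t)` and `W (t+1) ≤ mass_t` for `1 ≤ t < μ`, `Wb ≤ mass_μ`; for `t = 1`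
and `t = 0` use `W 1 = 0`, `W 0 = 0`.  At the end `card E - total mass = 0`.
-/

namespace Pool.Agent.H51.TB

open Finset MvPolynomial

variable {E ν T : Type} [Fintype E] (S : Sys E ν T) {κ : Type}

theorem level (hS : S.Span) [Fintype κ] [DecidableEq κ] (m : κ → T) (b : T)
    (hb : ∀ i, S.Dom b (m i)) (i₀ : κ) (cls : κ → ℕ) (μ : ℕ) (hμ : 1 ≤ μ) (W : ℕ → ℕ) (Wb : ℕ)
    (hW0 : W 0 = 0) (hW1 : W 1 = 0)
    (h1 : ∀ i, i ≠ i₀ → cls i ≤ μ → (S.size (m i) - 1) * S.size b ≤ W (cls i))
    (h2 : ∀ i, i ≠ i₀ → μ < cls i → (S.size (m i) - 1) * S.size b ≤ Wb)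
    (h3 : ∀ t, 1 ≤ t → t < μ →
      W (t + 1) ≤ ∑ i ∈ univ.filter (fun i => i ≠ i₀ ∧ cls i = t), S.size (m i))
    (h4 : Wb ≤ ∑ i ∈ univ.filter (fun i => i ≠ i₀ ∧ cls i = μ), S.size (m i))
    (h5 : Fintype.card E ≤ ∑ i, S.size (m i)) : S.gd m = 0 := by
  -- the groups
  let A : ℕ → Finset κ := fun t => univ.filter (fun i => i = i₀ ∨ t ≤ cls i)
  let B : ℕ → Finset κ := fun t => univ.filter (fun i => i ≠ i₀ ∧ cls i = t)
  have hmemA : ∀ t i, i ∈ A t ↔ (i = i₀ ∨ t ≤ cls i) := fun t i => by simp [A]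
  have hmemB : ∀ t i, i ∈ B t ↔ (i ≠ i₀ ∧ cls i = t) := fun t i => by simp [B]
  have hunion : ∀ t, A t = A (t + 1) ∪ B t := by
    intro t
    ext i
    rw [mem_union, hmemA, hmemA, hmemB]
    constructor
    · rintro (h | h)
      · exact Or.inl (Or.inl h)
      · by_cases hi : i = i₀
        · exact Or.inl (Or.inl hi)
        · rcases Nat.lt_or_ge t (cls i) with h' | h'
          · exact Or.inl (Or.inr h')
          · exact Or.inr ⟨hi, le_antisymm h' h⟩
    · rintro ((h | h) | ⟨_, h⟩)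
      · exact Or.inl h
      · exact Or.inr (by omega)
      · exact Or.inr h.ge
  have hdisj : ∀ t, Disjoint (A (t + 1)) (B t) := by
    intro t
    rw [Finset.disjoint_left]
    intro i hi hi'
    rw [hmemA] at hi
    rw [hmemB] at hi'
    rcases hi with h | h
    · exact hi'.1 h
    · omega
  have hmass : ∀ t, ∑ i ∈ A t, S.size (m i) = ∑ i ∈ A (t + 1), S.size (m i) + ∑ i ∈ B t, S.size (m i) := by
    intro t
    rw [hunion t, sum_union (hdisj t)]
  -- a phase
  have hphase : ∀ t, t ≤ μ → S.gf m (A t) ≤ max (S.gf m (A (t + 1)) - ∑ i ∈ B t, S.size (m i)) (W t) := by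
    intro t ht
    rw [hunion t]
    refine gf_phase S hS m b hb (W t) (A (t + 1)) (B t) (hdisj t) ?_
    intro i hi
    obtain ⟨hi1, hi2⟩ := (hmemB t i).1 hi
    have := h1 i hi1 (by omega)
    rwa [hi2] at this
  -- the large classes
  have hbig : S.gf m (A (μ + 1)) ≤ max (Fintype.card E - ∑ i ∈ A (μ + 1), S.size (m i)) Wb := by
    let C : Finset κ := univ.filter (fun i => i ≠ i₀ ∧ μ < cls i)
    have hmemC : ∀ i, i ∈ C ↔ (i ≠ i₀ ∧ μ < cls i) := fun i => by simp [C]
    have hU : A (μ + 1) = {i₀} ∪ C := by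
      ext i
      rw [mem_union, hmemA, hmemC, mem_singleton]
      constructor
      · rintro (h | h)
        · exact Or.inl h
        · by_cases hi : i = i₀
          · exact Or.inl hi
          · exact Or.inr ⟨hi, h⟩
      · rintro (h | ⟨_, h⟩)
        · exact Or.inl h
        · exact Or.inr h
    have hd : Disjoint ({i₀} : Finset κ) C := by
      rw [Finset.disjoint_singleton_left, hmemC]
      exact fun h => h.1 rfl
    have hp := gf_phase S hS m b hb Wb {i₀} C hd (fun i hi => h2 i ((hmemC i).1 hi).1 ((hmemC i).1 hi).2)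
    rw [← hU] at hp
    have hs := gf_singleton S m i₀
    have hm : ∑ i ∈ A (μ + 1), S.size (m i) = S.size (m i₀) + ∑ i ∈ C, S.size (m i) := by
      rw [hU, sum_union hd, sum_singleton]
    rw [hm]
    have h6 : S.gf m {i₀} - ∑ i ∈ C, S.size (m i) = Fintype.card E - (S.size (m i₀) + ∑ i ∈ C, S.size (m i)) := by
      omega
    rwa [h6] at hp
  -- the descending induction
  have hind : ∀ k, k < μ → S.gf m (A (μ - k)) ≤ max (Fintype.card E - ∑ i ∈ A (μ - k), S.size (m i)) (W (μ - k)) := by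
    intro k
    induction k with
    | zero =>
      intro _
      rw [Nat.sub_zero]
      have h7 := hphase μ le_rfl
      have h8 := hmass μ
      have h4' : Wb ≤ ∑ i ∈ B μ, S.size (m i) := h4
      rcases le_max_iff.1 hbig with h | h
      · rcases le_max_iff.1 h7 with h' | h'
        · exact le_max_of_le_left (by omega)
        · exact le_max_of_le_right h'
      · rcases le_max_iff.1 h7 with h' | h'
        · exact le_max_of_le_left (by omega)
        · exact le_max_of_le_right h'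
    | succ k ih =>
      intro hk
      have ih' := ih (by omega)
      have hst : μ - k = (μ - (k + 1)) + 1 := by omega
      have ht1 : 1 ≤ μ - (k + 1) := by omega
      rw [hst] at ih'
      generalize μ - (k + 1) = t at *
      have h7 := hphase t (by omega)
      have h8 := hmass t
      have h9 : W (t + 1) ≤ ∑ i ∈ B t, S.size (m i) := h3 t ht1 (by omega)
      rcases le_max_iff.1 ih' with h | h
      · rcases le_max_iff.1 h7 with h' | h'
        · exact le_max_of_le_left (by omega)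
        · exact le_max_of_le_right h'
      · rcases le_max_iff.1 h7 with h' | h'
        · exact le_max_of_le_left (by omega)
        · exact le_max_of_le_right h'
  have hone := hind (μ - 1) (by omega)
  have hsub : μ - (μ - 1) = 1 := by omega
  rw [hsub, hW1, Nat.max_zero] at hone
  have h7 := hphase 0 (Nat.zero_le _)
  rw [hW0, Nat.max_zero] at h7
  have h8 := hmass 0
  have hA0 : A 0 = univ := by
    ext i
    simp [A]
  rw [hA0] at h7 h8
  rw [gf_univ] at h7
  simp only [Nat.zero_add] at h7 h8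
  omega

end Pool.Agent.H51.TB

end
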