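import Pool.Agent.H94.LP2.M02
import Pool.Agent.H94.LP2.M10

/-! The parts of this file: H51.TB.Mov, H51.TB.Adj. -/

section

/-!
# Module D2 (TB): moving a point from the cell `(s, ρ)` to the cell `(s, ρ + 1)`

The ranks of the cells `(s, ρ)` and `(s, ρ + 1)` (with `s + ρ + 1 ≤ d`) differ by the transposition of
the levels `s` and `s + ρ + 1`, which have the ranks `ρ`, `ρ + 1`.  For a bidegree `g` whose window
`[gy, d - gx]` does not contain both levels the window ranks `wr` of all levels of the window are the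
same for both cells.  If it contains both (`gy ≤ s`, `gx + s + ρ + 1 ≤ d`) it contains
`s + 1, …, s + ρ`, and the window ranks of `s` and `s + ρ + 1` are `ρ`, `ρ + 1` for the cell `(s, ρ)`
and `ρ + 1`, `ρ` for the cell `(s, ρ + 1)`; all others are the same.  So `g` is moved from the level
`s` to the level `s + ρ + 1` if `|g| + ρ + 1 = m`, and nothing changes otherwise.
-/

namespace Pool.Agent.H51.TB

open Finset Pool.Agent.H18.Ex Pool.Agent.H21.NX Pool.Agent.H18.Ta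

private theorem Mov_wr_ne {d s ρ j : ℕ} (hs : s + ρ + 1 ≤ d) (hj : j ≤ d) (g : ℕ × ℕ) (h1 : j ≠ s)
    (h2 : j ≠ s + ρ + 1) : wr d (s, ρ + 1) g j = wr d (s, ρ) g j := by
  unfold wr
  congr 1
  refine filter_congr fun i hi => ?_
  have hi' : i < d + 1 := mem_range.1 hi
  have hk : rk (d + 1) s (ρ + 1) i < rk (d + 1) s (ρ + 1) j ↔ rk (d + 1) s ρ i < rk (d + 1) s ρ j := by
    unfold rk
    split_ifs <;> omega
  show (g.2 ≤ i ∧ i + g.1 ≤ d ∧ rk (d + 1) s (ρ + 1) i < rk (d + 1) s (ρ + 1) j) ↔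
    (g.2 ≤ i ∧ i + g.1 ≤ d ∧ rk (d + 1) s ρ i < rk (d + 1) s ρ j)
  rw [hk]

/-- both levels in the window -/
private theorem Mov_wr_both {d s ρ : ℕ} (hs : s + ρ + 1 ≤ d) (g : ℕ × ℕ) (h1 : g.2 ≤ s)
    (h2 : g.1 + s + ρ + 1 ≤ d) : wr d (s, ρ) g s = ρ ∧ wr d (s, ρ + 1) g s = ρ + 1 ∧
      wr d (s, ρ) g (s + ρ + 1) = ρ + 1 ∧ wr d (s, ρ + 1) g (s + ρ + 1) = ρ := by
  refine ⟨?_, ?_, ?_, ?_⟩
  · have h : ((range (d + 1)).filter fun i => g.2 ≤ i ∧ i + g.1 ≤ d ∧
        rk (d + 1) s ρ i < rk (d + 1) s ρ s) = Ioc s (s + ρ) := by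
      ext i
      rw [mem_filter, mem_range, mem_Ioc]
      unfold rk
      split_ifs <;> omega
    unfold wr
    show ((range (d + 1)).filter fun i => g.2 ≤ i ∧ i + g.1 ≤ d ∧
        rk (d + 1) s ρ i < rk (d + 1) s ρ s).card = ρ
    rw [h, Nat.card_Ioc]
    omega
  · have h : ((range (d + 1)).filter fun i => g.2 ≤ i ∧ i + g.1 ≤ d ∧
        rk (d + 1) s (ρ + 1) i < rk (d + 1) s (ρ + 1) s) = Ioc s (s + ρ + 1) := by
      ext i
      rw [mem_filter, mem_range, mem_Ioc]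
      unfold rk
      split_ifs <;> omega
    unfold wr
    show ((range (d + 1)).filter fun i => g.2 ≤ i ∧ i + g.1 ≤ d ∧
        rk (d + 1) s (ρ + 1) i < rk (d + 1) s (ρ + 1) s).card = ρ + 1
    rw [h, Nat.card_Ioc]
    omega
  · have h : ((range (d + 1)).filter fun i => g.2 ≤ i ∧ i + g.1 ≤ d ∧
        rk (d + 1) s ρ i < rk (d + 1) s ρ (s + ρ + 1)) = Icc s (s + ρ) := by
      ext i
      rw [mem_filter, mem_range, mem_Icc]
      unfold rk
      split_ifs <;> omega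
    unfold wr
    show ((range (d + 1)).filter fun i => g.2 ≤ i ∧ i + g.1 ≤ d ∧
        rk (d + 1) s ρ i < rk (d + 1) s ρ (s + ρ + 1)).card = ρ + 1
    rw [h, Nat.card_Icc]
    omega
  · have h : ((range (d + 1)).filter fun i => g.2 ≤ i ∧ i + g.1 ≤ d ∧
        rk (d + 1) s (ρ + 1) i < rk (d + 1) s (ρ + 1) (s + ρ + 1)) = Ioc s (s + ρ) := by
      ext i
      rw [mem_filter, mem_range, mem_Ioc]
      unfold rk
      split_ifs <;> omega
    unfold wr
    show ((range (d + 1)).filter fun i => g.2 ≤ i ∧ i + g.1 ≤ d ∧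
        rk (d + 1) s (ρ + 1) i < rk (d + 1) s (ρ + 1) (s + ρ + 1)).card = ρ
    rw [h, Nat.card_Ioc]
    omega

private theorem Mov_wr_lo {d s ρ : ℕ} (hs : s + ρ + 1 ≤ d) (g : ℕ × ℕ)
    (h2 : ¬ g.1 + s + ρ + 1 ≤ d) : wr d (s, ρ + 1) g s = wr d (s, ρ) g s := by
  unfold wr
  congr 1
  refine filter_congr fun i hi => ?_
  have hi' : i < d + 1 := mem_range.1 hi
  show (g.2 ≤ i ∧ i + g.1 ≤ d ∧ rk (d + 1) s (ρ + 1) i < rk (d + 1) s (ρ + 1) s) ↔
    (g.2 ≤ i ∧ i + g.1 ≤ d ∧ rk (d + 1) s ρ i < rk (d + 1) s ρ s)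
  unfold rk
  split_ifs <;> omega

private theorem Mov_wr_hi {d s ρ : ℕ} (hs : s + ρ + 1 ≤ d) (g : ℕ × ℕ)
    (h1 : ¬ g.2 ≤ s) : wr d (s, ρ + 1) g (s + ρ + 1) = wr d (s, ρ) g (s + ρ + 1) := by
  unfold wr
  congr 1
  refine filter_congr fun i hi => ?_
  have hi' : i < d + 1 := mem_range.1 hi
  show (g.2 ≤ i ∧ i + g.1 ≤ d ∧ rk (d + 1) s (ρ + 1) i < rk (d + 1) s (ρ + 1) (s + ρ + 1)) ↔
    (g.2 ≤ i ∧ i + g.1 ≤ d ∧ rk (d + 1) s ρ i < rk (d + 1) s ρ (s + ρ + 1))
  unfold rk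
  split_ifs <;> omega

private theorem Mov_point {d m s ρ j : ℕ} (hs : s + ρ + 1 ≤ d) (hj : j ≤ d) (g : ℕ × ℕ) (E : ℕ) :
    (if g.2 ≤ j ∧ j + g.1 ≤ d ∧ g.1 + g.2 + wr d (s, ρ + 1) g j < m then E else 0) +
      (if j = s then (if g.1 + g.2 + ρ + 1 = m ∧ g.2 ≤ s ∧ g.1 + s + ρ + 1 ≤ d then E else 0) else 0) =
    (if g.2 ≤ j ∧ j + g.1 ≤ d ∧ g.1 + g.2 + wr d (s, ρ) g j < m then E else 0) +
      (if j = s + ρ + 1 then
        (if g.1 + g.2 + ρ + 1 = m ∧ g.2 ≤ s ∧ g.1 + s + ρ + 1 ≤ d then E else 0) else 0) := by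
  by_cases h1 : j = s
  · subst h1
    by_cases h2 : g.1 + j + ρ + 1 ≤ d
    · by_cases h3 : g.2 ≤ j
      · obtain ⟨w1, w2, -, -⟩ := Mov_wr_both hs g h3 h2
        rw [w1, w2]
        split_ifs <;> omega
      · split_ifs <;> omega
    · rw [Mov_wr_lo hs g h2]
      split_ifs <;> omega
  · by_cases h4 : j = s + ρ + 1
    · subst h4
      by_cases h3 : g.2 ≤ s
      · by_cases h2 : g.1 + s + ρ + 1 ≤ d
        · obtain ⟨-, -, w1, w2⟩ := Mov_wr_both hs g h3 h2
          rw [w1, w2]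
          split_ifs <;> omega
        · split_ifs <;> omega
      · rw [Mov_wr_hi hs g h3]
        split_ifs <;> omega
    · rw [Mov_wr_ne hs hj g h1 h4, if_neg h1, if_neg h4]

theorem wt_move {a b d m s ρ : ℕ} (hs : s + ρ + 1 ≤ d) (j : ℕ) (hj : j ≤ d) :
    wt a b d m (s, ρ + 1) j + (if j = s then Mv a b d m s ρ else 0) =
      wt a b d m (s, ρ) j + (if j = s + ρ + 1 then Mv a b d m s ρ else 0) := by
  have hM : ∀ P : Prop, ∀ _ : Decidable P, (if P then Mv a b d m s ρ else 0) =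
      ∑ g ∈ range m ×ˢ range m, (if P then
        (if g.1 + g.2 + ρ + 1 = m ∧ g.2 ≤ s ∧ g.1 + s + ρ + 1 ≤ d then Eg a b g else 0) else 0) := by
    intro P _
    by_cases hP : P
    · rw [if_pos hP]
      unfold Mv
      rw [sum_filter]
      exact sum_congr rfl fun g _ => by rw [if_pos hP]
    · rw [if_neg hP]
      symm
      exact sum_eq_zero fun g _ => by rw [if_neg hP]
  rw [hM, hM]
  unfold wt Lam
  rw [sum_filter, sum_filter, ← sum_add_distrib, ← sum_add_distrib]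
  exact sum_congr rfl fun g _ => Mov_point hs hj g (Eg a b g)

theorem Pre_move {a b d m s ρ : ℕ} (hs : s + ρ + 1 ≤ d) (j : ℕ) (hj : j ≤ d) :
    Pre a b d m (s, ρ + 1) j + (if s ≤ j ∧ j ≤ s + ρ then Mv a b d m s ρ else 0) =
      Pre a b d m (s, ρ) j := by
  have h : ∑ i ∈ range (j + 1), (wt a b d m (s, ρ + 1) i + (if i = s then Mv a b d m s ρ else 0)) =
      ∑ i ∈ range (j + 1), (wt a b d m (s, ρ) i + (if i = s + ρ + 1 then Mv a b d m s ρ else 0)) :=
    sum_congr rfl fun i hi => wt_move hs i (by have := mem_range.1 hi; omega)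
  rw [sum_add_distrib, sum_add_distrib, sum_ite_eq', sum_ite_eq'] at h
  simp only [mem_range] at h
  unfold Pre
  revert h
  generalize ∑ i ∈ range (j + 1), wt a b d m (s, ρ + 1) i = A
  generalize ∑ i ∈ range (j + 1), wt a b d m (s, ρ) i = B
  generalize Mv a b d m s ρ = C
  intro h
  split_ifs at h ⊢ <;> omega

private theorem Mov_Eg_zero (a b t : ℕ) : Eg a b (t, 0) = Nat.multichoose (a - 1) t := by
  unfold Eg
  show Nat.multichoose (a - 1) t * Nat.multichoose (b - 1) 0 = _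
  rw [Nat.multichoose_zero_right, mul_one]

theorem Mv_one {a b d m s : ℕ} (hm : 1 ≤ m) (hs : s + m ≤ d) : Mv a b d m s (m - 1) = 1 := by
  have h : ((range m ×ˢ range m).filter fun g : ℕ × ℕ =>
      g.1 + g.2 + (m - 1) + 1 = m ∧ g.2 ≤ s ∧ g.1 + s + (m - 1) + 1 ≤ d) = {((0, 0) : ℕ × ℕ)} := by
    ext g
    rw [mem_filter, mem_product, mem_range, mem_range, mem_singleton, Prod.ext_iff]
    show _ ↔ g.1 = 0 ∧ g.2 = 0
    omega
  unfold Mv
  rw [h, sum_singleton, Mov_Eg_zero, Nat.multichoose_zero_right]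

theorem Mv_two {a b d m s : ℕ} (ha : 1 ≤ a) (hb : 1 ≤ b) (hm : 2 ≤ m) (h1 : 1 ≤ s)
    (hs : s + m ≤ d) : Mv a b d m s (m - 2) = a + b - 2 := by
  have h : ((range m ×ˢ range m).filter fun g : ℕ × ℕ =>
      g.1 + g.2 + (m - 2) + 1 = m ∧ g.2 ≤ s ∧ g.1 + s + (m - 2) + 1 ≤ d) =
      {((1, 0) : ℕ × ℕ), ((0, 1) : ℕ × ℕ)} := by
    ext g
    rw [mem_filter, mem_product, mem_range, mem_range, mem_insert, mem_singleton, Prod.ext_iff,
      Prod.ext_iff]
    show _ ↔ (g.1 = 1 ∧ g.2 = 0) ∨ (g.1 = 0 ∧ g.2 = 1)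
    omega
  unfold Mv
  rw [h, sum_pair (by decide), Mov_Eg_zero, Nat.multichoose_one_right]
  unfold Eg
  show a - 1 + Nat.multichoose (a - 1) 0 * Nat.multichoose (b - 1) 1 = a + b - 2
  rw [Nat.multichoose_zero_right, Nat.multichoose_one_right]
  omega

theorem Mv_zero {a b d m t : ℕ} (hb : 1 ≤ b) (hm : m ≤ d) (ht : t + 1 ≤ m) :
    Mv a b d m 0 (m - 1 - t) = Nat.multichoose (a - 1) t := by
  have h : ((range m ×ˢ range m).filter fun g : ℕ × ℕ =>
      g.1 + g.2 + (m - 1 - t) + 1 = m ∧ g.2 ≤ 0 ∧ g.1 + 0 + (m - 1 - t) + 1 ≤ d) = {((t, 0) : ℕ × ℕ)} := by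
    ext g
    rw [mem_filter, mem_product, mem_range, mem_range, mem_singleton, Prod.ext_iff]
    show _ ↔ g.1 = t ∧ g.2 = 0
    omega
  unfold Mv
  rw [h, sum_singleton, Mov_Eg_zero]

private theorem Mov_vand (p : ℕ) : ∀ q k : ℕ,
    ∑ x ∈ antidiagonal k, Nat.multichoose p x.1 * Nat.multichoose q x.2 = Nat.multichoose (p + q) k := by
  intro q
  induction q with
  | zero =>
    intro k
    cases k with
    | zero =>
      rw [Nat.antidiagonal_zero, sum_singleton]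
      show Nat.multichoose p 0 * Nat.multichoose 0 0 = Nat.multichoose p 0
      rw [Nat.multichoose_zero_right, Nat.multichoose_zero_right]
    | succ k =>
      rw [Nat.sum_antidiagonal_succ']
      have h : ∑ x ∈ antidiagonal k, Nat.multichoose p x.1 * Nat.multichoose 0 (x.2 + 1) = 0 :=
        sum_eq_zero fun x _ => by rw [Nat.multichoose_zero_succ, mul_zero]
      rw [h, Nat.multichoose_zero_right, mul_one]
      rfl
  | succ q ih =>
    intro k
    induction k with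
    | zero =>
      rw [Nat.antidiagonal_zero, sum_singleton]
      show Nat.multichoose p 0 * Nat.multichoose (q + 1) 0 = Nat.multichoose (p + (q + 1)) 0
      rw [Nat.multichoose_zero_right, Nat.multichoose_zero_right, Nat.multichoose_zero_right]
    | succ k ihk =>
      rw [Nat.sum_antidiagonal_succ']
      have h1 : ∑ x ∈ antidiagonal k, Nat.multichoose p x.1 * Nat.multichoose (q + 1) (x.2 + 1) =
          ∑ x ∈ antidiagonal k, Nat.multichoose p x.1 * Nat.multichoose q (x.2 + 1) +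
            ∑ x ∈ antidiagonal k, Nat.multichoose p x.1 * Nat.multichoose (q + 1) x.2 := by
        rw [← sum_add_distrib]
        exact sum_congr rfl fun x _ => by rw [Nat.multichoose_succ_succ, mul_add]
      have h2 := ih (k + 1)
      rw [Nat.sum_antidiagonal_succ', Nat.multichoose_zero_right] at h2
      dsimp only at h2 ⊢
      rw [h1, ihk, Nat.multichoose_zero_right, ← add_assoc p q 1, Nat.multichoose_succ_succ, ← h2]
      omega

private theorem Mov_mc_left (n k : ℕ) : Nat.multichoose n k ≤ Nat.multichoose (n + 1) k := by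
  cases k with
  | zero => rw [Nat.multichoose_zero_right, Nat.multichoose_zero_right]
  | succ k =>
    rw [Nat.multichoose_succ_succ]
    exact Nat.le_add_right _ _

private theorem Mov_mc_right (n : ℕ) {k l : ℕ} (h : k ≤ l) :
    Nat.multichoose (n + 1) k ≤ Nat.multichoose (n + 1) l := by
  induction l, h using Nat.le_induction with
  | base => exact le_refl _
  | succ l _ ih =>
    refine ih.trans ?_
    rw [Nat.multichoose_succ_succ]
    exact Nat.le_add_left _ _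

theorem Mv_le {a b d m s ρ : ℕ} (ha : 1 ≤ a) (hb : 1 ≤ b) : Mv a b d m s ρ ≤ ell (a + b) m := by
  by_cases hm : m < ρ + 1
  · have h : ((range m ×ˢ range m).filter fun g : ℕ × ℕ =>
        g.1 + g.2 + ρ + 1 = m ∧ g.2 ≤ s ∧ g.1 + s + ρ + 1 ≤ d) = ∅ := by
      refine filter_eq_empty_iff.2 fun g _ => ?_
      omega
    unfold Mv
    rw [h, sum_empty]
    exact Nat.zero_le _
  · have h1 : Mv a b d m s ρ ≤ ∑ x ∈ antidiagonal (m - 1 - ρ), Eg a b x := by
      unfold Mv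
      refine sum_le_sum_of_subset fun g hg => ?_
      rw [mem_filter] at hg
      rw [HasAntidiagonal.mem_antidiagonal]
      omega
    have h2 : ∑ x ∈ antidiagonal (m - 1 - ρ), Eg a b x =
        Nat.multichoose (a - 1 + (b - 1)) (m - 1 - ρ) := Mov_vand (a - 1) (b - 1) _
    have h3 : Nat.multichoose (a - 1 + (b - 1)) (m - 1 - ρ) ≤ Nat.multichoose (a + b + 1) (m - 1) := by
      have e : a + b + 1 = a - 1 + (b - 1) + 1 + 1 + 1 := by omega
      rw [e]
      exact ((Mov_mc_left _ _).trans ((Mov_mc_left _ _).trans (Mov_mc_left _ _))).trans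
        (Mov_mc_right _ (by omega))
    have h4 : Nat.multichoose (a + b + 1) (m - 1) = ell (a + b) m := by
      rw [Nat.multichoose_eq]
      unfold ell
      rw [show a + b + 1 + (m - 1) - 1 = (a + b) + (m - 1) by omega,
        show m + (a + b) - 1 = (a + b) + (m - 1) by omega]
      exact Nat.choose_symm_add.symm
    rw [h2] at h1
    exact (h1.trans h3).trans (le_of_eq h4)

/-- Some bidegree is moved. -/
theorem Mv_ge {a b d m s : ℕ} (hm : 1 ≤ m) (hmd : m ≤ d) (hs : s < d) :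
    ∃ g : ℕ × ℕ, g.1 + g.2 + 1 = m ∧ Eg a b g ≤ Mv a b d m s 0 := by
  have key : ∀ g : ℕ × ℕ, g.1 + g.2 + 1 = m → g.2 ≤ s → g.1 + s + 1 ≤ d → Eg a b g ≤ Mv a b d m s 0 := by
    intro g h1 h2 h3
    unfold Mv
    refine single_le_sum (f := fun g => Eg a b g) (fun _ _ => Nat.zero_le _) ?_
    rw [mem_filter, mem_product, mem_range, mem_range]
    omega
  by_cases h : m - 1 ≤ s
  · refine ⟨(0, m - 1), ?_, key _ ?_ ?_ ?_⟩ <;> show _ <;> dsimp only <;> omega
  · refine ⟨(m - 1 - s, s), ?_, key _ ?_ ?_ ?_⟩ <;> show _ <;> dsimp only <;> omega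

end Pool.Agent.H51.TB

end

section

/-!
# Module D10 (TB): exact adjustment of the number of conditions

`z` from `solve` for `v s ρ = Mv a b d μ s ρ`, `q = a + b - 2`, `B = ell (a + b) μ` (`Mv_one`, `Mv_two`,
`Mv_zero`, `Mv_ge`, `Mv_le`).  `z s ρ` points (of multiplicity `μ`) are moved from the cell `(s, ρ)`
to the cell `(s, ρ + 1)`, i.e.
`c₁ (s, ρ) = c₀ (s, ρ) - z s ρ + z s (ρ - 1)` (where `z s ρ` counts only for `ρ < μ`, `s < d`,
`s + ρ + 1 ≤ d`); the number is at least `E - 4 E' ≥ E / 2` if `solve` is used with `E' ≤ E / 8`, and the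
total number does not change.  `Pre_move` gives the last statement.
-/

namespace Pool.Agent.H51.TB

open Finset Pool.Agent.H18.Ex Pool.Agent.H21.NX Pool.Agent.H18.Ta

/-- The change of the number of points of the cell `x`. -/
private def Adj_w (d μ : ℕ) (z : ℕ → ℕ → ℤ) (x : ℕ × ℕ) : ℤ :=
  (if 1 ≤ x.2 ∧ x.2 ≤ μ then z x.1 (x.2 - 1) else 0) -
    (if x.2 < μ ∧ x.1 + x.2 + 1 ≤ d then z x.1 x.2 else 0)

private theorem Adj_sum (d μ : ℕ) (z : ℕ → ℕ → ℤ) (f : ℕ × ℕ → ℤ) :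
    ∑ x ∈ KK d, Adj_w d μ z x * f x = ∑ s ∈ range d, ∑ ρ ∈ range μ,
      if s + ρ + 1 ≤ d then z s ρ * (f (s, ρ + 1) - f (s, ρ)) else 0 := by
  have h0 : ∑ s ∈ range d, ∑ ρ ∈ range μ,
      (if s + ρ + 1 ≤ d then z s ρ * (f (s, ρ + 1) - f (s, ρ)) else 0) =
      ∑ p ∈ (range d ×ˢ range μ).filter (fun p : ℕ × ℕ => p.1 + p.2 + 1 ≤ d),
        z p.1 p.2 * (f (p.1, p.2 + 1) - f (p.1, p.2)) := by
    rw [sum_filter, sum_product]
  have h1 : ∑ x ∈ KK d, (if 1 ≤ x.2 ∧ x.2 ≤ μ then z x.1 (x.2 - 1) else 0) * f x =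
      ∑ p ∈ (range d ×ˢ range μ).filter (fun p : ℕ × ℕ => p.1 + p.2 + 1 ≤ d),
        z p.1 p.2 * f (p.1, p.2 + 1) := by
    rw [sum_congr rfl (g := fun x : ℕ × ℕ => if 1 ≤ x.2 ∧ x.2 ≤ μ then z x.1 (x.2 - 1) * f x else 0)
      (fun x _ => by rw [ite_mul, zero_mul]), ← sum_filter]
    refine sum_nbij' (fun x => (x.1, x.2 - 1)) (fun p => (p.1, p.2 + 1)) ?_ ?_ ?_ ?_ ?_
    · intro x hx
      rw [mem_filter, mem_KK] at hx
      rw [mem_filter, mem_product, mem_range, mem_range]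
      simp only
      omega
    · intro p hp
      rw [mem_filter, mem_product, mem_range, mem_range] at hp
      rw [mem_filter, mem_KK]
      simp only
      omega
    · intro x hx
      rw [mem_filter, mem_KK] at hx
      ext
      · rfl
      · simp only
        omega
    · intro p _
      simp
    · intro x hx
      rw [mem_filter, mem_KK] at hx
      simp only
      have h : x.2 - 1 + 1 = x.2 := by omega
      rw [h]
  have h2 : ∑ x ∈ KK d, (if x.2 < μ ∧ x.1 + x.2 + 1 ≤ d then z x.1 x.2 else 0) * f x =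
      ∑ p ∈ (range d ×ˢ range μ).filter (fun p : ℕ × ℕ => p.1 + p.2 + 1 ≤ d),
        z p.1 p.2 * f (p.1, p.2) := by
    rw [sum_congr rfl (g := fun x : ℕ × ℕ => if x.2 < μ ∧ x.1 + x.2 + 1 ≤ d then z x.1 x.2 * f x
      else 0) (fun x _ => by rw [ite_mul, zero_mul]), ← sum_filter]
    refine sum_congr ?_ fun x _ => rfl
    ext x
    rw [mem_filter, mem_KK, mem_filter, mem_product, mem_range, mem_range]
    omega
  have h3 : ∑ p ∈ (range d ×ˢ range μ).filter (fun p : ℕ × ℕ => p.1 + p.2 + 1 ≤ d),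
        z p.1 p.2 * (f (p.1, p.2 + 1) - f (p.1, p.2)) =
      ∑ p ∈ (range d ×ˢ range μ).filter (fun p : ℕ × ℕ => p.1 + p.2 + 1 ≤ d),
        z p.1 p.2 * f (p.1, p.2 + 1) -
      ∑ p ∈ (range d ×ˢ range μ).filter (fun p : ℕ × ℕ => p.1 + p.2 + 1 ≤ d),
        z p.1 p.2 * f (p.1, p.2) := by
    rw [← sum_sub_distrib]
    exact sum_congr rfl fun x _ => by rw [mul_sub]
  rw [h0, h3, ← h1, ← h2, ← sum_sub_distrib]
  refine sum_congr rfl fun x _ => ?_
  unfold Adj_w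
  ring

private theorem Adj_abs (d μ : ℕ) (z : ℕ → ℕ → ℤ) (F : ℤ) (hz : ∀ s ρ, |z s ρ| ≤ F) (x : ℕ × ℕ) :
    |Adj_w d μ z x| ≤ 2 * F := by
  have hF : 0 ≤ F := le_trans (abs_nonneg _) (hz 0 0)
  have h1 : |(if 1 ≤ x.2 ∧ x.2 ≤ μ then z x.1 (x.2 - 1) else 0 : ℤ)| ≤ F := by
    split_ifs
    · exact hz _ _
    · simpa using hF
  have h2 : |(if x.2 < μ ∧ x.1 + x.2 + 1 ≤ d then z x.1 x.2 else 0 : ℤ)| ≤ F := by
    split_ifs
    · exact hz _ _
    · simpa using hF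
  unfold Adj_w
  calc _ ≤ _ := abs_sub _ _
    _ ≤ 2 * F := by linarith

theorem adjust (d μ : ℕ) (hμ : 1 ≤ μ) (h2 : 2 * μ ≤ d) : ∃ K : ℕ, 1 ≤ K ∧
    ∀ a b : ℕ, 2 ≤ a → 2 ≤ b →
    (∀ t, 1 ≤ t → t < μ → Nat.Coprime (Nat.multichoose (a - 1) t) (a + b - 2)) →
    ∀ (c₀ : ℕ × ℕ → ℕ) (E : ℕ) (P : ℕ → ℤ), (∀ x ∈ KK d, x.2 ≤ μ → E ≤ c₀ x) →
    K * ((a + b) * ell (a + b) μ) ≤ E →
    (∀ s < d, (K : ℤ) * |P s| ≤ (E : ℤ) * (Mv a b d μ s 0 : ℤ)) →
    ∃ c₁ : ℕ × ℕ → ℕ, ∑ x ∈ KK d, c₁ x = ∑ x ∈ KK d, c₀ x ∧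
      (∀ x ∈ KK d, x.2 ≤ μ → E ≤ 2 * c₁ x) ∧
      ∀ j < d, ∑ x ∈ KK d, (c₁ x : ℤ) * (Pre a b d μ x j : ℤ) =
        ∑ x ∈ KK d, (c₀ x : ℤ) * (Pre a b d μ x j : ℤ) - P j := by
  obtain ⟨K, hK1, hK⟩ := solve d μ hμ h2
  refine ⟨16 * K, by omega, ?_⟩
  intro a b ha hb hcop c₀ E P hE hKE hP
  have hell : 1 ≤ ell (a + b) μ := by
    unfold ell
    exact Nat.choose_pos (by omega)
  have hE64 : 64 ≤ E := by
    have h1 : 4 * 1 ≤ (a + b) * ell (a + b) μ := Nat.mul_le_mul (by omega) hell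
    have h3 : 16 * 1 * (4 * 1) ≤ 16 * K * ((a + b) * ell (a + b) μ) :=
      Nat.mul_le_mul (Nat.mul_le_mul le_rfl hK1) h1
    omega
  have hE16 : E ≤ 16 * (E / 8) := by omega
  have hE8 : 8 * (E / 8) ≤ E := by omega
  set E' : ℕ := E / 8 with hE'
  have hab : ((a + b - 2 : ℕ) : ℤ) = (a : ℤ) + b - 2 := by
    rw [Nat.cast_sub (by omega)]
    push_cast
    ring
  obtain ⟨z, hz, hzP⟩ := hK (fun s ρ => (Mv a b d μ s ρ : ℤ)) ((a + b - 2 : ℕ) : ℤ)
    (ell (a + b) μ : ℤ) (E' : ℤ) P (by rw [hab]; omega) (by exact_mod_cast hell)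
    (fun s hs => by
      rw [Mv_one hμ hs]
      rfl)
    (fun hm s h1 hs => by
      rw [Mv_two (by omega) (by omega) hm h1 hs])
    (fun t ht1 ht2 => by
      rw [Mv_zero (by omega) (by omega) (by omega)]
      exact Nat.isCoprime_iff_coprime.mpr (hcop t ht1 ht2))
    (fun s hs => by
      obtain ⟨g, _, hg⟩ := Mv_ge (a := a) (b := b) hμ (by omega) hs
      have hg1 : 1 ≤ Eg a b g := by
        unfold Eg
        refine Nat.mul_pos ?_ ?_
        · rw [Nat.multichoose_eq]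
          exact Nat.choose_pos (by omega)
        · rw [Nat.multichoose_eq]
          exact Nat.choose_pos (by omega)
      exact_mod_cast le_trans hg1 hg)
    (fun s _ ρ _ => by
      rw [Nat.abs_cast]
      exact_mod_cast Mv_le (by omega) (by omega))
    (by
      have h1 : K * ((a + b - 2) * ell (a + b) μ) ≤ E' := by
        have h3 : 16 * (K * ((a + b - 2) * ell (a + b) μ)) ≤
            16 * K * ((a + b) * ell (a + b) μ) := by
          rw [Nat.mul_assoc]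
          exact Nat.mul_le_mul le_rfl (Nat.mul_le_mul le_rfl
            (Nat.mul_le_mul (Nat.sub_le _ _) le_rfl))
        omega
      exact_mod_cast h1)
    (fun s hs => by
      have h1 := hP s hs
      push_cast at h1
      have h3 : (1 : ℤ) ≤ K := by exact_mod_cast hK1
      have h4 : (16 : ℤ) * |P s| ≤ 16 * K * |P s| := by
        nlinarith [abs_nonneg (P s)]
      have h5 : (E : ℤ) * (Mv a b d μ s 0 : ℤ) ≤ 16 * E' * (Mv a b d μ s 0 : ℤ) := by
        refine mul_le_mul_of_nonneg_right ?_ (Nat.cast_nonneg _)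
        exact_mod_cast hE16
      linarith)
  have hw : ∀ x ∈ KK d, x.2 ≤ μ → (E : ℤ) ≤ 2 * ((c₀ x : ℤ) + Adj_w d μ z x) := by
    intro x hx hx2
    have h1 := hE x hx hx2
    have h3 := Adj_abs d μ z (2 * (E' : ℤ)) hz x
    have h4 := (abs_le.mp h3).1
    omega
  have hpos : ∀ x ∈ KK d, 0 ≤ (c₀ x : ℤ) + Adj_w d μ z x := by
    intro x hx
    by_cases hx2 : x.2 ≤ μ
    · have := hw x hx hx2
      omega
    · unfold Adj_w
      rw [if_neg (by omega), if_neg (by omega)]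
      simp
  refine ⟨fun x => ((c₀ x : ℤ) + Adj_w d μ z x).toNat, ?_, ?_, ?_⟩
  · have h1 : ∑ x ∈ KK d, Adj_w d μ z x = 0 := by
      have h3 := Adj_sum d μ z (fun _ => 1)
      simp only [mul_one, sub_self, mul_zero, ite_self, sum_const_zero] at h3
      exact h3
    have h3 : ((∑ x ∈ KK d, ((c₀ x : ℤ) + Adj_w d μ z x).toNat : ℕ) : ℤ) =
        ((∑ x ∈ KK d, c₀ x : ℕ) : ℤ) := by
      rw [Nat.cast_sum, Nat.cast_sum, sum_congr rfl fun x hx => Int.toNat_of_nonneg (hpos x hx),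
        sum_add_distrib, h1, add_zero]
    exact_mod_cast h3
  · intro x hx hx2
    have h1 := hw x hx hx2
    simp only
    omega
  · intro j hj
    rw [sum_congr rfl (g := fun x => (c₀ x : ℤ) * (Pre a b d μ x j : ℤ) +
      Adj_w d μ z x * (Pre a b d μ x j : ℤ)) (fun x hx => by
        simp only
        rw [Int.toNat_of_nonneg (hpos x hx)]
        ring), sum_add_distrib, Adj_sum, hzP j hj, sub_eq_add_neg, ← sum_neg_distrib]
    congr 1
    refine sum_congr rfl fun s _ => ?_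
    rw [← sum_neg_distrib]
    refine sum_congr rfl fun ρ _ => ?_
    by_cases hs : s + ρ + 1 ≤ d
    · rw [if_pos hs]
      have h1 := Pre_move (a := a) (b := b) (m := μ) hs j (by omega)
      by_cases h3 : s ≤ j ∧ j ≤ s + ρ
      · rw [if_pos h3] at h1
        rw [if_pos ⟨h3.1, h3.2, hs⟩]
        have h4 : (Pre a b d μ (s, ρ + 1) j : ℤ) + (Mv a b d μ s ρ : ℤ) =
            (Pre a b d μ (s, ρ) j : ℤ) := by exact_mod_cast h1
        rw [← h4]
        ring
      · rw [if_neg h3, add_zero] at h1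
        rw [if_neg (fun h => h3 ⟨h.1, h.2.1⟩), h1]
        ring
    · rw [if_neg hs, if_neg (fun h => hs h.2.2), neg_zero]

end Pool.Agent.H51.TB

end
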