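import Pool.Agent.H94.LP2.M07
import Pool.Agent.H94.LP2.M09

/-! The parts of this file: H51.TB.Init, H51.TB.Start. -/

section

/-!
# Module D11 (TB): the initial distribution of the points of multiplicity `m`

Take `θ` from `theta`, `e = min_s θ s / (d + 3)`.  Given the number `A` of points and `E ≤ e * A`, let
`N s = ⌊θ s * A⌋` for `1 ≤ s ≤ d` and `N 0 = A - ∑_{s ≥ 1} N s`, so `|N s - θ s * A| ≤ d + 1` for all `s`.  The
points with `st c = s` are the `N s` ones: `E` points in each cell `(s - 1, ρ)`, `1 ≤ ρ ≤ m`,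
`s - 1 + ρ ≤ d` (if `s ≥ 1`), and the remaining ones in the cell `(s, 0)` (at least `E`, since
`N s ≥ (m + 1) * E`: `N s ≥ θ s * A - 1` and if `E ≥ 1` then `θ s * A ≥ (d + 3) * E`, `m + 1 ≤ d + 1`).
Then `∑_x c₀ x * Gl d m (st x) j = ∑_s N s * Gl d m s j`, which differs from `A * Phi d j` by at most
`(d + 1)^2` (`0 ≤ Gl ≤ 1`), and by `lead` `∑_x c₀ x * Pre x j` differs from
`∑_x c₀ x * Gl d m (st x) j * ell (a + b - 1) m` by at most `δ * A * ell (a + b - 1) m`.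
-/

namespace Pool.Agent.H51.TB

open Finset Pool.Agent.H18.Ex Pool.Agent.H21.NX Pool.Agent.H18.Ta

private def Init_K (d m : ℕ) : ℕ → ℕ
  | 0 => 0
  | s + 1 => ∑ ρ ∈ range d, if s + (ρ + 1) ≤ d ∧ ρ + 1 ≤ m then 1 else 0

private theorem Init_K_le (d m s : ℕ) : Init_K d m s ≤ m := by
  cases s with
  | zero => exact Nat.zero_le _
  | succ s =>
    show ∑ ρ ∈ range d, (if s + (ρ + 1) ≤ d ∧ ρ + 1 ≤ m then 1 else 0) ≤ m
    rw [← card_filter]
    have h : (range d).filter (fun ρ => s + (ρ + 1) ≤ d ∧ ρ + 1 ≤ m) ⊆ range m := by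
      intro ρ hρ
      rw [mem_filter] at hρ
      rw [mem_range]
      omega
    calc _ ≤ (range m).card := card_le_card h
      _ = m := card_range m

/-- The distribution. -/
private def Init_c (d m E : ℕ) (N : ℕ → ℕ) (x : ℕ × ℕ) : ℕ :=
  if x.2 = 0 then N x.1 - E * Init_K d m x.1 else if x.2 ≤ m then E else 0

private theorem Init_sum (d m E : ℕ) (N : ℕ → ℕ) (hN : ∀ s ≤ d, E * Init_K d m s ≤ N s)
    (f : ℕ → ℝ) : ∑ x ∈ KK d, (Init_c d m E N x : ℝ) * f (st x) =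
      ∑ s ∈ range (d + 1), (N s : ℝ) * f s := by
  have h1 : ∑ x ∈ KK d, (Init_c d m E N x : ℝ) * f (st x) =
      ∑ u ∈ range (d + 1), ∑ ρ ∈ range (d + 1),
        if u + ρ ≤ d then (Init_c d m E N (u, ρ) : ℝ) * f (st (u, ρ)) else 0 := by
    unfold KK
    rw [sum_filter, sum_product]
  rw [h1]
  have h2 : ∀ u ∈ range (d + 1), ∑ ρ ∈ range (d + 1),
      (if u + ρ ≤ d then (Init_c d m E N (u, ρ) : ℝ) * f (st (u, ρ)) else 0) =
      (E : ℝ) * (Init_K d m (u + 1) : ℝ) * f (u + 1) +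
        ((N u : ℝ) - (E : ℝ) * (Init_K d m u : ℝ)) * f u := by
    intro u hu
    have hu' : u ≤ d := by
      rw [mem_range] at hu
      omega
    rw [sum_range_succ']
    congr 1
    · show _ = (E : ℝ) * ((∑ ρ ∈ range d, if u + (ρ + 1) ≤ d ∧ ρ + 1 ≤ m then 1 else 0 : ℕ) : ℝ) *
        f (u + 1)
      rw [Nat.cast_sum, mul_sum, sum_mul]
      refine sum_congr rfl fun ρ _ => ?_
      have hc : Init_c d m E N (u, ρ + 1) = if ρ + 1 ≤ m then E else 0 := by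
        unfold Init_c
        rw [if_neg (by simp)]
      have hs : st (u, ρ + 1) = u + 1 := by
        unfold st
        rw [if_neg (by simp)]
      rw [hc, hs]
      by_cases c1 : u + (ρ + 1) ≤ d
      · by_cases c2 : ρ + 1 ≤ m
        · rw [if_pos c1, if_pos c2, if_pos ⟨c1, c2⟩]
          simp
        · rw [if_pos c1, if_neg c2, if_neg (fun h => c2 h.2)]
          simp
      · rw [if_neg c1, if_neg (fun h => c1 h.1)]
        simp
    · rw [if_pos (by omega)]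
      have hc : Init_c d m E N (u, 0) = N u - E * Init_K d m u := by
        unfold Init_c
        rw [if_pos rfl]
      have hs : st (u, 0) = u := by
        unfold st
        rw [if_pos rfl]
      rw [hc, hs, Nat.cast_sub (hN u hu')]
      push_cast
      ring
  rw [sum_congr rfl h2, sum_add_distrib]
  have h3 : ∑ u ∈ range (d + 1), ((N u : ℝ) - (E : ℝ) * (Init_K d m u : ℝ)) * f u =
      ∑ s ∈ range (d + 1), (N s : ℝ) * f s -
        ∑ u ∈ range (d + 1), (E : ℝ) * (Init_K d m u : ℝ) * f u := by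
    rw [← sum_sub_distrib]
    refine sum_congr rfl fun u _ => ?_
    ring
  have h4 : ∑ u ∈ range (d + 1), (E : ℝ) * (Init_K d m u : ℝ) * f u =
      ∑ u ∈ range (d + 1), (E : ℝ) * (Init_K d m (u + 1) : ℝ) * f (u + 1) := by
    rw [sum_range_succ', sum_range_succ]
    have h5 : Init_K d m 0 = 0 := rfl
    have h6 : Init_K d m (d + 1) = 0 := by
      show ∑ ρ ∈ range d, (if d + (ρ + 1) ≤ d ∧ ρ + 1 ≤ m then 1 else 0) = 0
      refine sum_eq_zero fun ρ _ => ?_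
      rw [if_neg]
      omega
    rw [h5, h6]
    simp
  rw [h3, h4]
  ring

private theorem Init_Gl_nonneg (d m s j : ℕ) : 0 ≤ Gl d m s j := by
  unfold Gl
  refine div_nonneg (sum_nonneg fun i _ => ?_) (by positivity)
  split_ifs
  · exact Nat.cast_nonneg _
  · exact le_refl _

private theorem Init_Gl_le (d m s j : ℕ) (hm : 1 ≤ m) : Gl d m s j ≤ 1 := by
  unfold Gl
  rw [div_le_one (by positivity)]
  have h1 : ∑ i ∈ range m, ((m - 1).choose i : ℝ) = 2 ^ (m - 1) := by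
    have h2 := Nat.sum_range_choose (m - 1)
    have h3 : m - 1 + 1 = m := by omega
    rw [h3] at h2
    exact_mod_cast h2
  rw [← h1]
  refine sum_le_sum fun i _ => ?_
  split_ifs
  · exact le_refl _
  · exact Nat.cast_nonneg _

theorem init (d m : ℕ) (hm : 1 ≤ m) (h2 : 2 * m ≤ d + 1) : ∃ e : ℝ, 0 < e ∧ ∀ δ : ℝ, 0 < δ →
    ∃ ε : ℝ, 0 < ε ∧ ∃ n₀ : ℕ, ∀ a b : ℕ, 1 ≤ a → 1 ≤ b → n₀ ≤ a + b →
    |(a : ℝ) - b| ≤ ε * (a + b : ℕ) → ∀ A E : ℕ, (E : ℝ) ≤ e * A →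
    ∃ c₀ : ℕ × ℕ → ℕ, ∑ x ∈ KK d, c₀ x = A ∧ (∀ x ∈ KK d, x.2 ≤ m → E ≤ c₀ x) ∧
      ∀ j ≤ d, |((∑ x ∈ KK d, c₀ x * Pre a b d m x j : ℕ) : ℝ) -
        Phi d j * ((A * ell (a + b - 1) m : ℕ) : ℝ)| ≤
        (δ * A + (d + 1) ^ 2) * (ell (a + b - 1) m : ℝ) := by
  obtain ⟨θ, hθ, hθ1, hθΦ⟩ := theta d m hm h2
  obtain ⟨w, hw0, hw⟩ : ∃ w : ℝ, 0 < w ∧ ∀ s ≤ d, w ≤ θ s := by
    obtain ⟨s₀, hs₀, hmin⟩ := exists_min_image (range (d + 1)) θ ⟨0, by simp⟩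
    refine ⟨θ s₀, hθ s₀ (by rw [mem_range] at hs₀; omega), fun s hs => hmin s ?_⟩
    rw [mem_range]
    omega
  have hd3 : (0 : ℝ) < (d : ℝ) + 3 := by positivity
  refine ⟨w / (d + 3), div_pos hw0 hd3, fun δ hδ => ?_⟩
  obtain ⟨ε, hε, n₀, H⟩ := lead d m hm (by omega) δ hδ
  refine ⟨ε, hε, n₀, fun a b ha hb hab hε' A E hE => ?_⟩
  have hL := H a b ha hb hab hε'
  have hA0 : (0 : ℝ) ≤ A := Nat.cast_nonneg A
  have hE0 : (0 : ℝ) ≤ E := Nat.cast_nonneg E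
  -- the numbers `N s`
  have hsum1 : ∑ s ∈ range d, θ (s + 1) + θ 0 = 1 := by
    rw [← hθ1, sum_range_succ']
  let M : ℕ → ℕ := fun s => ⌊θ s * A⌋₊
  have hM1 : ∀ s ≤ d, (M s : ℝ) ≤ θ s * A := fun s hs =>
    Nat.floor_le (mul_nonneg (hθ s hs).le hA0)
  have hM2 : ∀ s, θ s * A - 1 ≤ (M s : ℝ) := fun s => by
    have := Nat.lt_floor_add_one (θ s * A)
    show θ s * A - 1 ≤ ((⌊θ s * A⌋₊ : ℕ) : ℝ)
    linarith
  have hMsum : (∑ s ∈ range d, M (s + 1) : ℕ) ≤ A := by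
    have h3 : ((∑ s ∈ range d, M (s + 1) : ℕ) : ℝ) ≤ A := by
      rw [Nat.cast_sum]
      calc ∑ s ∈ range d, (M (s + 1) : ℝ) ≤ ∑ s ∈ range d, θ (s + 1) * A :=
            sum_le_sum fun s hs => hM1 (s + 1) (by rw [mem_range] at hs; omega)
        _ = (∑ s ∈ range d, θ (s + 1)) * A := by rw [sum_mul]
        _ = (1 - θ 0) * A := by rw [← hsum1]; ring
        _ ≤ 1 * A := by
            refine mul_le_mul_of_nonneg_right ?_ hA0
            have := hθ 0 (Nat.zero_le d)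
            linarith
        _ = A := one_mul _
    exact_mod_cast h3
  let N : ℕ → ℕ := fun s => if s = 0 then A - ∑ s ∈ range d, M (s + 1) else M s
  have hN0 : N 0 = A - ∑ s ∈ range d, M (s + 1) := if_pos rfl
  have hNs : ∀ s, N (s + 1) = M (s + 1) := fun s => if_neg (Nat.succ_ne_zero s)
  have hNsum : ∑ s ∈ range (d + 1), N s = A := by
    rw [sum_range_succ', hN0]
    simp only [hNs]
    omega
  have hN0r : (N 0 : ℝ) = A - ∑ s ∈ range d, (M (s + 1) : ℝ) := by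
    rw [hN0, Nat.cast_sub hMsum, Nat.cast_sum]
  have hlow : ∀ s ≤ d, θ s * A - 1 ≤ (N s : ℝ) := by
    intro s hs
    cases s with
    | zero =>
      rw [hN0r]
      have h3 : ∑ s ∈ range d, (M (s + 1) : ℝ) ≤ (1 - θ 0) * A := by
        calc ∑ s ∈ range d, (M (s + 1) : ℝ) ≤ ∑ s ∈ range d, θ (s + 1) * A :=
            sum_le_sum fun s hs => hM1 (s + 1) (by rw [mem_range] at hs; omega)
          _ = (∑ s ∈ range d, θ (s + 1)) * A := by rw [sum_mul]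
          _ = (1 - θ 0) * A := by rw [← hsum1]; ring
      linarith
    | succ s =>
      rw [hNs]
      exact hM2 (s + 1)
  have hupp : ∀ s ≤ d, (N s : ℝ) ≤ θ s * A + d := by
    intro s hs
    cases s with
    | zero =>
      rw [hN0r]
      have h3 : (1 - θ 0) * A - d ≤ ∑ s ∈ range d, (M (s + 1) : ℝ) := by
        calc (1 - θ 0) * A - d = (∑ s ∈ range d, θ (s + 1)) * A - d := by rw [← hsum1]; ring
          _ = ∑ s ∈ range d, (θ (s + 1) * A - 1) := by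
              rw [sum_sub_distrib, sum_mul]
              simp
          _ ≤ ∑ s ∈ range d, (M (s + 1) : ℝ) := sum_le_sum fun s _ => hM2 (s + 1)
      linarith
    | succ s =>
      rw [hNs]
      have := hM1 (s + 1) hs
      have hd0 : (0 : ℝ) ≤ d := Nat.cast_nonneg d
      linarith
  have habs : ∀ s ≤ d, |(N s : ℝ) - θ s * A| ≤ d + 1 := by
    intro s hs
    have h3 := hlow s hs
    have h4 := hupp s hs
    have hd0 : (0 : ℝ) ≤ d := Nat.cast_nonneg d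
    rw [abs_le]
    constructor <;> linarith
  have hbig : ∀ s ≤ d, (m + 1) * E ≤ N s := by
    intro s hs
    rcases Nat.eq_zero_or_pos E with h0 | hpos
    · rw [h0]
      simp
    · have h3 : ((d : ℝ) + 3) * E ≤ θ s * A := by
        have h4 : (E : ℝ) * (d + 3) ≤ w * A := by
          have h5 : (E : ℝ) ≤ w * A / (d + 3) := by
            calc (E : ℝ) ≤ w / (d + 3) * A := hE
              _ = w * A / (d + 3) := by ring
          rwa [le_div_iff₀ hd3] at h5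
        have h6 : w * A ≤ θ s * A := mul_le_mul_of_nonneg_right (hw s hs) hA0
        linarith
      have h7 := hlow s hs
      have h8 : (1 : ℝ) ≤ E := by exact_mod_cast hpos
      have h9 : ((m : ℝ) + 1) * E ≤ N s := by
        have h10 : (m : ℝ) ≤ d + 1 := by
          have : m ≤ d + 1 := by omega
          exact_mod_cast this
        have h11 : ((m : ℝ) + 1) * E ≤ (d + 2) * E :=
          mul_le_mul_of_nonneg_right (by linarith) hE0
        nlinarith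
      exact_mod_cast h9
  have hK : ∀ s ≤ d, E * Init_K d m s ≤ N s := by
    intro s hs
    have h3 := hbig s hs
    have h4 := Init_K_le d m s
    calc E * Init_K d m s ≤ E * m := Nat.mul_le_mul_left E h4
      _ ≤ (m + 1) * E := by
          rw [mul_comm]
          exact Nat.mul_le_mul_right E (Nat.le_succ m)
      _ ≤ N s := h3
  refine ⟨Init_c d m E N, ?_, ?_, ?_⟩
  · have h3 := Init_sum d m E N hK fun _ => 1
    simp only [mul_one] at h3
    have h4 : ((∑ x ∈ KK d, Init_c d m E N x : ℕ) : ℝ) = ((∑ s ∈ range (d + 1), N s : ℕ) : ℝ) := by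
      rw [Nat.cast_sum, Nat.cast_sum]
      exact h3
    have h5 : ∑ x ∈ KK d, Init_c d m E N x = ∑ s ∈ range (d + 1), N s := by exact_mod_cast h4
    rw [h5, hNsum]
  · intro x hx hxm
    rw [mem_KK] at hx
    unfold Init_c
    by_cases h0 : x.2 = 0
    · rw [if_pos h0]
      have h3 := hbig x.1 (by omega)
      have h4 := Init_K_le d m x.1
      have h5 : E * Init_K d m x.1 ≤ E * m := Nat.mul_le_mul_left E h4
      have h6 : (m + 1) * E = E * m + E := by ring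
      omega
    · rw [if_neg h0, if_pos hxm]
  · intro j hj
    have hell : (0 : ℝ) ≤ (ell (a + b - 1) m : ℝ) := Nat.cast_nonneg _
    set L : ℝ := (ell (a + b - 1) m : ℝ) with hLdef
    have h3 := Init_sum d m E N hK fun s => Gl d m s j * L
    have hc1 : ∑ x ∈ KK d, (Init_c d m E N x : ℝ) = A := by
      have h3 := Init_sum d m E N hK fun _ => 1
      simp only [mul_one] at h3
      rw [h3, ← Nat.cast_sum, hNsum]
    have h4 : |∑ x ∈ KK d, (Init_c d m E N x : ℝ) * (Pre a b d m x j : ℝ) -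
        ∑ x ∈ KK d, (Init_c d m E N x : ℝ) * (Gl d m (st x) j * L)| ≤ δ * A * L := by
      rw [← sum_sub_distrib]
      calc |∑ x ∈ KK d, ((Init_c d m E N x : ℝ) * (Pre a b d m x j : ℝ) -
            (Init_c d m E N x : ℝ) * (Gl d m (st x) j * L))|
          ≤ ∑ x ∈ KK d, |(Init_c d m E N x : ℝ) * (Pre a b d m x j : ℝ) -
            (Init_c d m E N x : ℝ) * (Gl d m (st x) j * L)| := abs_sum_le_sum_abs _ _
        _ ≤ ∑ x ∈ KK d, (Init_c d m E N x : ℝ) * (δ * L) := by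
            refine sum_le_sum fun x hx => ?_
            rw [← mul_sub, abs_mul, abs_of_nonneg (Nat.cast_nonneg (Init_c d m E N x))]
            exact mul_le_mul_of_nonneg_left (hL x hx j hj) (Nat.cast_nonneg _)
        _ = δ * A * L := by
            rw [← sum_mul, hc1]
            ring
    have h5 : |∑ s ∈ range (d + 1), (N s : ℝ) * (Gl d m s j * L) - Phi d j * (A * L)| ≤
        (d + 1) ^ 2 * L := by
      rw [← hθΦ j hj, sum_mul, ← sum_sub_distrib]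
      calc |∑ s ∈ range (d + 1), ((N s : ℝ) * (Gl d m s j * L) - θ s * Gl d m s j * (A * L))|
          ≤ ∑ s ∈ range (d + 1), |(N s : ℝ) * (Gl d m s j * L) - θ s * Gl d m s j * (A * L)| :=
            abs_sum_le_sum_abs _ _
        _ ≤ ∑ s ∈ range (d + 1), ((d : ℝ) + 1) * L := by
            refine sum_le_sum fun s hs => ?_
            have hs' : s ≤ d := by
              rw [mem_range] at hs
              omega
            have h6 : (N s : ℝ) * (Gl d m s j * L) - θ s * Gl d m s j * (A * L) =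
                ((N s : ℝ) - θ s * A) * (Gl d m s j * L) := by ring
            rw [h6, abs_mul, abs_of_nonneg (mul_nonneg (Init_Gl_nonneg d m s j) hell)]
            have h7 : Gl d m s j * L ≤ 1 * L :=
              mul_le_mul_of_nonneg_right (Init_Gl_le d m s j hm) hell
            calc |(N s : ℝ) - θ s * A| * (Gl d m s j * L) ≤ ((d : ℝ) + 1) * (1 * L) :=
                  mul_le_mul (habs s hs') h7 (mul_nonneg (Init_Gl_nonneg d m s j) hell)
                    (by positivity)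
              _ = ((d : ℝ) + 1) * L := by ring
        _ = (d + 1) ^ 2 * L := by
            rw [sum_const, card_range, nsmul_eq_mul]
            push_cast
            ring
    have h8 : ((∑ x ∈ KK d, Init_c d m E N x * Pre a b d m x j : ℕ) : ℝ) =
        ∑ x ∈ KK d, (Init_c d m E N x : ℝ) * (Pre a b d m x j : ℝ) := by
      push_cast
      rfl
    have h9 : ((A * ell (a + b - 1) m : ℕ) : ℝ) = A * L := by
      push_cast
      rfl
    rw [h8, h9]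
    rw [h3] at h4
    have h10 := abs_sub_le (∑ x ∈ KK d, (Init_c d m E N x : ℝ) * (Pre a b d m x j : ℝ))
      (∑ s ∈ range (d + 1), (N s : ℝ) * (Gl d m s j * L)) (Phi d j * (A * L))
    calc _ ≤ _ := h10
      _ ≤ δ * A * L + (d + 1) ^ 2 * L := add_le_add h4 h5
      _ = _ := by ring

end Pool.Agent.H51.TB

end

section

/-!
# Module D13 (TB): the initial distribution of all points

For each `m` with `A m ≠ 0` (then `1 ≤ m`, `2 m ≤ m + M ≤ d + 1`) use `init` (with `E` for `m = μ`, with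
`E = 0` for the others); for `A m = 0` put `c₀ m = 0`.  `e` is the minimum of the finitely many `e` of
`init`, `ε` and `n₀` for the finitely many `m ≤ d` as well.  Let `n = a + b`, `N = ell (n - 1) (d + 1)` and
`L` the total length, `N ≤ L ≤ N + ell (n - 1) d ≤ 2 N`.  The sum over `m`, `x` of
`c₀ m x * Pre m x j` differs from `Phi d j * (L - ell (n - 1) m₀)` by at most
`δ' * L + (d + 1)^3 * ell (n - 1) d`; `Pre a b d m₀ (0, 0) j ≤ ell (n - 1) m₀ ≤ ell (n - 1) d`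
(`sum_wt`); `0 ≤ Phi d j ≤ 1`, `|L - N| ≤ ell (n - 1) d`; and `lead_bet`.  The length of a point is small by
`grow_one` (`ell (n - 1) d ≤ ell n d`).
-/

namespace Pool.Agent.H51.TB

open Finset Pool.Agent.H18.Ex Pool.Agent.H21.NX Pool.Agent.H18.Ta

private theorem Start_min (d : ℕ) (f : ℕ → ℝ) (hf : ∀ m, 0 < f m) : ∃ e : ℝ, 0 < e ∧ ∀ m ≤ d, e ≤ f m := by
  obtain ⟨m, _, hm⟩ := Finset.exists_min_image (range (d + 1)) f ⟨0, mem_range.2 (by omega)⟩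
  exact ⟨f m, hf m, fun k hk => hm k (mem_range.2 (by omega))⟩

private theorem Start_max (d : ℕ) (f : ℕ → ℕ) : ∃ e : ℕ, ∀ m ≤ d, f m ≤ e :=
  ⟨∑ m ∈ range (d + 1), f m, fun m hm =>
    single_le_sum (f := f) (fun _ _ => Nat.zero_le _) (mem_range.2 (by omega))⟩

private theorem Start_unif (d : ℕ) : ∃ e : ℝ, 0 < e ∧ ∀ δ : ℝ, 0 < δ →
    ∃ ε : ℝ, 0 < ε ∧ ∃ n₀ : ℕ, ∀ a b : ℕ, 1 ≤ a → 1 ≤ b → n₀ ≤ a + b →
    |(a : ℝ) - b| ≤ ε * (a + b : ℕ) → ∀ m ≤ d, 1 ≤ m → 2 * m ≤ d + 1 → ∀ A E : ℕ, (E : ℝ) ≤ e * A →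
    ∃ c₀ : ℕ × ℕ → ℕ, ∑ x ∈ KK d, c₀ x = A ∧ (∀ x ∈ KK d, x.2 ≤ m → E ≤ c₀ x) ∧
      ∀ j ≤ d, |((∑ x ∈ KK d, c₀ x * Pre a b d m x j : ℕ) : ℝ) -
        Phi d j * ((A * ell (a + b - 1) m : ℕ) : ℝ)| ≤
        (δ * A + (d + 1) ^ 2) * (ell (a + b - 1) m : ℝ) := by
  have h1 : ∀ m : ℕ, ∃ e : ℝ, 0 < e ∧ (1 ≤ m → 2 * m ≤ d + 1 → ∀ δ : ℝ, 0 < δ →
    ∃ ε : ℝ, 0 < ε ∧ ∃ n₀ : ℕ, ∀ a b : ℕ, 1 ≤ a → 1 ≤ b → n₀ ≤ a + b →
    |(a : ℝ) - b| ≤ ε * (a + b : ℕ) → ∀ A E : ℕ, (E : ℝ) ≤ e * A →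
    ∃ c₀ : ℕ × ℕ → ℕ, ∑ x ∈ KK d, c₀ x = A ∧ (∀ x ∈ KK d, x.2 ≤ m → E ≤ c₀ x) ∧
      ∀ j ≤ d, |((∑ x ∈ KK d, c₀ x * Pre a b d m x j : ℕ) : ℝ) -
        Phi d j * ((A * ell (a + b - 1) m : ℕ) : ℝ)| ≤
        (δ * A + (d + 1) ^ 2) * (ell (a + b - 1) m : ℝ)) := by
    intro m
    by_cases hm : 1 ≤ m ∧ 2 * m ≤ d + 1
    · obtain ⟨e, he, H⟩ := init d m hm.1 hm.2
      exact ⟨e, he, fun _ _ => H⟩
    · exact ⟨1, one_pos, fun ha hb => absurd ⟨ha, hb⟩ hm⟩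
  choose f hf hF using h1
  obtain ⟨e, he, hef⟩ := Start_min d f hf
  refine ⟨e, he, fun δ hδ => ?_⟩
  have h2 : ∀ m : ℕ, ∃ ε : ℝ, 0 < ε ∧ ∃ n₀ : ℕ, (1 ≤ m → 2 * m ≤ d + 1 → ∀ a b : ℕ, 1 ≤ a → 1 ≤ b →
    n₀ ≤ a + b → |(a : ℝ) - b| ≤ ε * (a + b : ℕ) → ∀ A E : ℕ, (E : ℝ) ≤ f m * A →
    ∃ c₀ : ℕ × ℕ → ℕ, ∑ x ∈ KK d, c₀ x = A ∧ (∀ x ∈ KK d, x.2 ≤ m → E ≤ c₀ x) ∧
      ∀ j ≤ d, |((∑ x ∈ KK d, c₀ x * Pre a b d m x j : ℕ) : ℝ) -
        Phi d j * ((A * ell (a + b - 1) m : ℕ) : ℝ)| ≤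
        (δ * A + (d + 1) ^ 2) * (ell (a + b - 1) m : ℝ)) := by
    intro m
    by_cases hm : 1 ≤ m ∧ 2 * m ≤ d + 1
    · obtain ⟨ε, hε, n₀, H⟩ := hF m hm.1 hm.2 δ hδ
      exact ⟨ε, hε, n₀, fun _ _ => H⟩
    · exact ⟨1, one_pos, 0, fun ha hb => absurd ⟨ha, hb⟩ hm⟩
  choose g hg k hk using h2
  obtain ⟨ε, hε, hεg⟩ := Start_min d g hg
  obtain ⟨n₀, hn₀⟩ := Start_max d k
  refine ⟨ε, hε, n₀, fun a b ha hb hn hab m hm h1m h2m A E hE => ?_⟩
  refine hk m h1m h2m a b ha hb ((hn₀ m hm).trans hn) (hab.trans ?_) A E (hE.trans ?_)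
  · exact mul_le_mul_of_nonneg_right (hεg m hm) (Nat.cast_nonneg _)
  · exact mul_le_mul_of_nonneg_right (hef m hm) (Nat.cast_nonneg _)

private theorem Start_Phi (d j : ℕ) (hj : j ≤ d) : 0 ≤ Phi d j ∧ Phi d j ≤ 1 := by
  unfold Phi
  constructor
  · positivity
  · rw [div_le_one (by positivity)]
    have h1 : ∑ i ∈ range (j + 1), (d.choose i : ℝ) ≤ ∑ i ∈ range (d + 1), (d.choose i : ℝ) :=
      sum_le_sum_of_subset_of_nonneg (range_subset_range.2 (by omega)) fun i _ _ => Nat.cast_nonneg _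
    refine h1.trans (le_of_eq ?_)
    have h2 := Nat.sum_range_choose d
    exact_mod_cast h2

private theorem Start_ell_le {n d : ℕ} (hn : 1 ≤ n) (hd : 1 ≤ d) : ell (n - 1) d ≤ ell n d := by
  obtain ⟨n', rfl⟩ : ∃ n', n = n' + 1 := ⟨n - 1, by omega⟩
  obtain ⟨d', rfl⟩ : ∃ d', d = d' + 1 := ⟨d - 1, by omega⟩
  rw [Nat.add_sub_cancel, ell_succ]
  exact Nat.le_add_left _ _

private theorem Start_Pre {a b d m j : ℕ} (ha : 1 ≤ a) (hb : 1 ≤ b) (hm : m ≤ d) (hj : j ≤ d) :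
    Pre a b d m (0, 0) j ≤ ell (a + b - 1) d := by
  have h1 := sum_wt (m := m) ha hb (by omega : m ≤ d + 1) (c := (0, 0)) (Nat.zero_le d)
  unfold Pre
  calc ∑ i ∈ range (j + 1), wt a b d m (0, 0) i ≤ ∑ i ∈ range (d + 1), wt a b d m (0, 0) i :=
        sum_le_sum_of_subset (range_subset_range.2 (by omega))
    _ = ell (a + b - 1) m := h1
    _ ≤ ell (a + b - 1) d := ell_mono _ hm

theorem start (d : ℕ) : ∃ e : ℝ, 0 < e ∧ ∀ δ : ℝ, 0 < δ →
    ∃ ε : ℝ, 0 < ε ∧ ∃ n₀ : ℕ, ∀ a b : ℕ, 1 ≤ a → 1 ≤ b → n₀ ≤ a + b →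
    |(a : ℝ) - b| ≤ ε * (a + b : ℕ) → ∀ (M μ m₀ : ℕ) (A : ℕ → ℕ), 1 ≤ μ → μ ≤ M → μ + M ≤ d →
    m₀ ≤ d → (∀ m, A m ≠ 0 → 1 ≤ m ∧ m ≤ M ∧ m + M ≤ d + 1) →
    ell (a + b - 1) (d + 1) ≤
      ell (a + b - 1) m₀ + ∑ m ∈ range (d + 1), A m * ell (a + b - 1) m →
    ell (a + b - 1) m₀ + ∑ m ∈ range (d + 1), A m * ell (a + b - 1) m ≤
      ell (a + b - 1) (d + 1) + ell (a + b - 1) d →
    ∀ E : ℕ, (E : ℝ) ≤ e * A μ →
    ∃ c₀ : ℕ → ℕ × ℕ → ℕ, (∀ m ∈ range (d + 1), ∑ x ∈ KK d, c₀ m x = A m) ∧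
      (∀ x ∈ KK d, x.2 ≤ μ → E ≤ c₀ μ x) ∧
      ∀ j ≤ d, |((Pre a b d m₀ (0, 0) j +
        ∑ m ∈ range (d + 1), ∑ x ∈ KK d, c₀ m x * Pre a b d m x j : ℕ) : ℝ) -
        ((∑ i ∈ range (j + 1), bet a b d i : ℕ) : ℝ)| ≤ δ * (ell (a + b - 1) (d + 1) : ℝ) := by
  obtain ⟨e, he, H⟩ := Start_unif d
  refine ⟨e, he, fun δ hδ => ?_⟩
  obtain ⟨δ', hδ'd⟩ : ∃ δ' : ℝ, δ' = min (δ / 4) 1 := ⟨_, rfl⟩
  have hδ' : 0 < δ' := by
    rw [hδ'd]
    exact lt_min (by linarith) one_pos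
  have hδ1 : δ' ≤ δ / 4 := hδ'd ▸ min_le_left _ _
  have hδ2 : δ' ≤ 1 := hδ'd ▸ min_le_right _ _
  obtain ⟨ε1, hε1, n1, H1⟩ := H δ' hδ'
  obtain ⟨ε2, hε2, n2, H2⟩ := lead_bet d δ' hδ'
  obtain ⟨n3, H3⟩ := grow_one d (2 * (3 + (d + 1) ^ 3) / δ)
  refine ⟨min ε1 ε2, lt_min hε1 hε2, max n1 (max n2 n3), ?_⟩
  intro a b ha hb hn hab M μ m₀ A hμ hμM hμd hm₀ hA hlo hhi E hE
  have hn1 : n1 ≤ a + b := (le_max_left _ _).trans hn
  have hn2 : n2 ≤ a + b := ((le_max_left _ _).trans (le_max_right _ _)).trans hn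
  have hn3 : n3 ≤ a + b := ((le_max_right _ _).trans (le_max_right _ _)).trans hn
  have hab1 : |(a : ℝ) - b| ≤ ε1 * (a + b : ℕ) :=
    hab.trans (mul_le_mul_of_nonneg_right (min_le_left _ _) (Nat.cast_nonneg _))
  have hab2 : |(a : ℝ) - b| ≤ ε2 * (a + b : ℕ) :=
    hab.trans (mul_le_mul_of_nonneg_right (min_le_right _ _) (Nat.cast_nonneg _))
  have hc : ∀ m, ∃ c : ℕ × ℕ → ℕ, m ≤ d → (∑ x ∈ KK d, c x = A m ∧
      (∀ x ∈ KK d, x.2 ≤ μ → m = μ → E ≤ c x) ∧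
      ∀ j ≤ d, |((∑ x ∈ KK d, c x * Pre a b d m x j : ℕ) : ℝ) -
        Phi d j * ((A m * ell (a + b - 1) m : ℕ) : ℝ)| ≤
        (δ' * A m + (d + 1) ^ 2) * (ell (a + b - 1) m : ℝ)) := by
    intro m
    by_cases hAm : A m = 0
    · refine ⟨fun _ => 0, fun _ => ⟨by simp [hAm], ?_, ?_⟩⟩
      · intro x _ _ hmμ
        rw [← hmμ, hAm, Nat.cast_zero, mul_zero] at hE
        have : (E : ℝ) = 0 := le_antisymm hE (Nat.cast_nonneg _)
        have : E = 0 := by exact_mod_cast this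
        exact this.le
      · intro j _
        rw [hAm]
        simp only [zero_mul, sum_const_zero, Nat.cast_zero, mul_zero, sub_zero, abs_zero, zero_add]
        positivity
    · obtain ⟨h1, h2, h3⟩ := hA m hAm
      have hmd : m ≤ d := by omega
      have hEm : (((if m = μ then E else 0 : ℕ)) : ℝ) ≤ e * A m := by
        split_ifs with h
        · rw [h]
          exact hE
        · rw [Nat.cast_zero]
          positivity
      obtain ⟨c, hc1, hc2, hc3⟩ := H1 a b ha hb hn1 hab1 m hmd h1 (by omega) (A m)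
        (if m = μ then E else 0) hEm
      refine ⟨c, fun _ => ⟨hc1, ?_, hc3⟩⟩
      intro x hx hxμ hmμ
      have h4 := hc2 x hx (by omega)
      rwa [if_pos hmμ] at h4
  choose c hc using hc
  refine ⟨c, fun m hm => (hc m (by rw [mem_range] at hm; omega)).1,
    fun x hx hxμ => (hc μ (by omega)).2.1 x hx hxμ rfl, ?_⟩
  intro j hj
  obtain ⟨hΦ0, hΦ1⟩ := Start_Phi d j hj
  obtain ⟨l, hl⟩ : ∃ l : ℝ, l = (ell (a + b - 1) d : ℝ) := ⟨_, rfl⟩
  obtain ⟨N, hN⟩ : ∃ N : ℝ, N = (ell (a + b - 1) (d + 1) : ℝ) := ⟨_, rfl⟩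
  obtain ⟨T, hT⟩ : ∃ T : ℕ, T = ∑ m ∈ range (d + 1), A m * ell (a + b - 1) m := ⟨_, rfl⟩
  obtain ⟨S, hS⟩ : ∃ S : ℕ, S = ∑ m ∈ range (d + 1), ∑ x ∈ KK d, c m x * Pre a b d m x j := ⟨_, rfl⟩
  obtain ⟨B, hB⟩ : ∃ B : ℕ, B = ∑ i ∈ range (j + 1), bet a b d i := ⟨_, rfl⟩
  have hl0 : 0 ≤ l := hl ▸ Nat.cast_nonneg _
  have hT0 : (0 : ℝ) ≤ (T : ℝ) := Nat.cast_nonneg _
  have hB2 : |(B : ℝ) - Phi d j * N| ≤ δ' * N := by
    rw [hB, hN]
    exact H2 a b ha hb hn2 hab2 j hj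
  have hlN : (3 + ((d : ℝ) + 1) ^ 3) * l ≤ δ / 2 * N := by
    have h1 := H3 (a + b) hn3 d le_rfl
    have h2 : ell (a + b - 1) d ≤ ell (a + b) d := Start_ell_le (by omega) (by omega)
    have h3 : l ≤ (ell (a + b) d : ℝ) := by
      rw [hl]
      exact_mod_cast h2
    have h4 : 2 * (3 + ((d : ℝ) + 1) ^ 3) / δ * l ≤ N := by
      rw [hN]
      refine le_trans ?_ h1
      exact mul_le_mul_of_nonneg_left h3 (by positivity)
    have h5 := mul_le_mul_of_nonneg_left h4 (by positivity : (0 : ℝ) ≤ δ / 2)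
    refine le_trans (le_of_eq ?_) h5
    field_simp
  have hlm : ∀ m ≤ d, (ell (a + b - 1) m : ℝ) ≤ l := by
    intro m hm
    rw [hl]
    exact_mod_cast ell_mono _ hm
  have hP : ((Pre a b d m₀ (0, 0) j : ℕ) : ℝ) ≤ l := by
    rw [hl]
    exact_mod_cast Start_Pre ha hb (by omega) hj
  have hP0 : (0 : ℝ) ≤ ((Pre a b d m₀ (0, 0) j : ℕ) : ℝ) := Nat.cast_nonneg _
  have hT1 : N - l ≤ (T : ℝ) := by
    have h1 := hlm m₀ (by omega)
    have h2 : N ≤ (ell (a + b - 1) m₀ : ℝ) + (T : ℝ) := by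
      rw [hN, hT]
      exact_mod_cast hlo
    linarith
  have hT2 : (T : ℝ) ≤ N + l := by
    have h1 : (0 : ℝ) ≤ (ell (a + b - 1) m₀ : ℝ) := Nat.cast_nonneg _
    have h2 : (ell (a + b - 1) m₀ : ℝ) + (T : ℝ) ≤ N + l := by
      rw [hN, hT, hl]
      exact_mod_cast hhi
    linarith
  have hSer : |(S : ℝ) - Phi d j * T| ≤ δ' * T + ((d : ℝ) + 1) ^ 3 * l := by
    have h1 : (S : ℝ) - Phi d j * T = ∑ m ∈ range (d + 1),
        (((∑ x ∈ KK d, c m x * Pre a b d m x j : ℕ) : ℝ) -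
          Phi d j * ((A m * ell (a + b - 1) m : ℕ) : ℝ)) := by
      rw [sum_sub_distrib, ← mul_sum, hS, hT, Nat.cast_sum, Nat.cast_sum]
    rw [h1]
    refine (abs_sum_le_sum_abs _ _).trans ?_
    have h2 : ∀ m ∈ range (d + 1), |((∑ x ∈ KK d, c m x * Pre a b d m x j : ℕ) : ℝ) -
          Phi d j * ((A m * ell (a + b - 1) m : ℕ) : ℝ)| ≤
        δ' * ((A m * ell (a + b - 1) m : ℕ) : ℝ) + ((d : ℝ) + 1) ^ 2 * l := by
      intro m hm
      rw [mem_range] at hm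
      have h3 := (hc m (by omega)).2.2 j hj
      refine h3.trans ?_
      have h4 := mul_le_mul_of_nonneg_left (hlm m (by omega)) (by positivity : (0 : ℝ) ≤ ((d : ℝ) + 1) ^ 2)
      rw [add_mul, Nat.cast_mul]
      linarith
    refine (sum_le_sum h2).trans (le_of_eq ?_)
    rw [sum_add_distrib, ← mul_sum, ← Nat.cast_sum, ← hT, sum_const, card_range, nsmul_eq_mul]
    push_cast
    ring
  have hΦT : |Phi d j * T - Phi d j * N| ≤ l := by
    rw [← mul_sub, abs_mul, abs_of_nonneg hΦ0]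
    have h1 : |(T : ℝ) - N| ≤ l := abs_le.2 ⟨by linarith, by linarith⟩
    calc Phi d j * |(T : ℝ) - N| ≤ 1 * l := mul_le_mul hΦ1 h1 (abs_nonneg _) zero_le_one
      _ = l := one_mul l
  rw [← hS, ← hB, ← hN]
  have hfin : (((Pre a b d m₀ (0, 0) j + S : ℕ)) : ℝ) - (B : ℝ) =
      ((Pre a b d m₀ (0, 0) j : ℕ) : ℝ) + ((S : ℝ) - Phi d j * T) +
        (Phi d j * T - Phi d j * N) - ((B : ℝ) - Phi d j * N) := by
    push_cast
    ring
  rw [hfin]
  have e1 : δ' * (T : ℝ) ≤ δ' * (N + l) := mul_le_mul_of_nonneg_left hT2 hδ'.le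
  have e2 : δ' * l ≤ 1 * l := mul_le_mul_of_nonneg_right hδ2 hl0
  have hN0 : 0 ≤ N := hN ▸ Nat.cast_nonneg _
  have e3 : δ' * N ≤ δ / 4 * N := mul_le_mul_of_nonneg_right hδ1 hN0
  have a1 := abs_le.1 hSer
  have a2 := abs_le.1 hΦT
  have a3 := abs_le.1 hB2
  rw [abs_le]
  constructor
  · linarith [a1.1, a2.1, a3.2]
  · linarith [a1.2, a2.2, a3.1]

end Pool.Agent.H51.TB

end
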