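import Pool.Agent.H94.LP2.M09
import Pool.Agent.H94.LP2.M10
import Pool.Agent.H94.LP2.M11
import Pool.Agent.H94.LP2.M14
import Pool.Agent.H94.LP2.M15
import Pool.Agent.H94.LP2.M21

/-! The parts of this file: H21.NX.KillMu, H21.NX.Phase, H21.NX.Core, H51.TB.Ridx. -/

section

/-!
# Module KillMu: many general points of multiplicity `μ` kill everything

Proof.  Let `e = σ + 1 - μ`.  The forms of degree `e` are spanned by the powers `lin v ^ e`
(`PowSpanLX.span_all`), a space of dimension `ell (s + 1) (e + 1) = (Sx _ e).card ≤ f`; so there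
are `f` vectors `p i` such that the `lin (p i) ^ e` span all forms of degree `e`
(a spanning set contains a basis, e.g. `Submodule.exists_fun_fin_finrank_span_eq` or
`exists_linearIndependent`; the remaining `p i` are arbitrary).  Then every monomial of degree `σ`
is a product of a form of degree `μ - 1` and a form of degree `e`, so
`homogeneousSubmodule _ ℂ σ ≤ powSpan σ p (fun _ => σ + 1 - μ)`, and `fat_eq_bot_of_span`
(H21/HD/BridgeB) gives `finrank (fatForms ..) = 0`; `GI_of_fat`, `GM_iff`.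
-/

namespace Pool.Agent.H21.NX

open Finset Pool.Agent.H18.Ex

open MvPolynomial Pool.Agent.H21.HD in
/-- There are `f` vectors whose powers generate all forms of degree `σ`. -/
private theorem killMu_points (s e σ f : ℕ) (he : e ≤ σ)
    (hf : (s + 1 + e).choose e ≤ f) :
    ∃ p : Fin f → Fin (s + 2) → ℂ,
      homogeneousSubmodule (Fin (s + 2)) ℂ σ ≤ powSpan σ p (fun _ => e) := by
  obtain ⟨w, hw⟩ := pow_span (Fin (s + 2)) e
  have hcard : (Fintype.card (Fin (s + 2)) - 1 + e).choose e ≤ f := by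
    rw [Fintype.card_fin, show s + 2 - 1 = s + 1 by omega]
    exact hf
  refine ⟨fun i => if hi : (i : ℕ) < (Fintype.card (Fin (s + 2)) - 1 + e).choose e then w ⟨i, hi⟩
    else 0, ?_⟩
  apply powSpan_up e σ he
  refine hw.trans ?_
  rw [Submodule.span_le]
  rintro _ ⟨k, rfl⟩
  refine Submodule.subset_span ⟨⟨k, lt_of_lt_of_le k.2 hcard⟩, 1, le_refl _, ?_, ?_⟩
  · rw [Nat.sub_self]
    exact isHomogeneous_one _ _
  · show lin (w k) ^ e = 1 * lin (dite ((k : ℕ) < _) _ _) ^ e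
    rw [dif_pos k.2, one_mul]

theorem kill_mu (s μ σ f : ℕ) (hμ : 1 ≤ μ) (h : μ ≤ σ + 1)
    (hf : ell (s + 1) (σ + 2 - μ) ≤ f) :
    GM (Sx (Fin (s + 2)) σ) (Multiset.replicate f (Kind.free μ)) := by
  have hf' : (s + 1 + (σ + 1 - μ)).choose (σ + 1 - μ) ≤ f := by
    refine le_trans (le_of_eq ?_) hf
    unfold ell
    rw [show σ + 2 - μ + (s + 1) - 1 = s + 1 + (σ + 1 - μ) by omega]
    exact Nat.choose_symm_of_eq_add (by omega)
  obtain ⟨p, hp⟩ := killMu_points s (σ + 1 - μ) σ f (by omega) hf'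
  have h1 := Pool.Agent.H21.HD.fat_eq_bot_of_span (r := s + 1) σ p (fun _ => μ) hp
  have h2 := GI_of_fat (n := s + 1) (d := σ) p (fun _ => μ) h1
  have h3 := (GM_iff (Sx (Fin (s + 2)) σ) (fun _ : Fin f => Kind.free μ)).mpr h2
  rw [Multiset.map_const', Finset.card_val, Finset.card_univ, Fintype.card_fin] at h3
  exact h3

end Pool.Agent.H21.NX

end

section

/-!
# Module Phase: the Horace steps with the main batch
-/

namespace Pool.Agent.H21.NX

open Finset Pool.Agent.H18.Ex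

theorem fk_add {ι : Type} (l : ι) (Φ Φ' : Multiset (ℕ × ℕ)) : fk l (Φ + Φ') = fk l Φ + fk l Φ' :=
  Multiset.map_add _ _ _

theorem fk_replicate {ι : Type} (l : ι) (a c e : ℕ) :
    fk l (Multiset.replicate a (c, e)) = Multiset.replicate a (Kind.forced l c e) :=
  Multiset.map_replicate _ _ _

theorem tlr (s a c e : ℕ) : tl s (Multiset.replicate a (c, e)) = a * ell s c := by
  unfold tl
  rw [Multiset.map_replicate, Multiset.sum_replicate, smul_eq_mul]

theorem tot_zero (n : ℕ) : tot n 0 = 0 := rfl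

theorem tot_fst (s : ℕ) (Φ : Multiset (ℕ × ℕ)) : tot s (Φ.map Prod.fst) = tl s Φ := by
  unfold tot tl
  rw [Multiset.map_map]
  rfl

theorem Bc_ge (M μ c : ℕ) : μ ≤ Bc M μ c := le_max_right _ _

theorem Num.ell_step {d s μ M A : ℕ} (hn : Num d s μ M A) : 1 ≤ s := by
  have := hn.hds
  omega

/-- The bound for the number of the remaining points at the end. -/
theorem f_bound {d s μ M A : ℕ} (hn : Num d s μ M A) (Ψ : Multiset (ℕ × ℕ)) (a f : ℕ)
    (hΨ : OKF (Bc M μ 1) Ψ)
    (hT1 : ell (s + 1) (d - μ + 1 + 1) ≤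
      fl s Ψ + a * ell (s + 1) 1 + f * ell (s + 1) μ)
    (hload : 4 * (d + 1) * (tl s Ψ + a * ell s 1) ≤
      (4 * (d + 1) - 1) * ell s (d - μ + 1 + 1)) :
    ell (s + 1) (d + 2 - 2 * μ) ≤ f := by
  have hs := hn.ell_step
  have h1 := hn.h2
  have h2 := hn.hμ
  have h3 := hn.hμM
  have hB1 : 1 ≤ Bc M μ 1 := le_trans (by omega) (Bc_ge M μ 1)
  have hB : Bc M μ 1 ≤ d - μ + 1 + 1 := by
    unfold Bc
    omega
  have hZ : (s + 1) * (fl s Ψ + a * ell (s + 1) 1) ≤
      (Bc M μ 1 + s) * (tl s Ψ + a * ell s 1) := by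
    have e1 := fl_le_tl s hs hΨ
    have e2 : (s + 1) * (a * ell (s + 1) 1) ≤ (Bc M μ 1 + s) * (a * ell s 1) := by
      calc (s + 1) * (a * ell (s + 1) 1) = a * ((s + 1) * ell (s + 1) 1) := by ring
        _ = a * ((1 + s) * ell s 1) := by rw [ell_succ_mul s 1 hs]
        _ ≤ a * ((Bc M μ 1 + s) * ell s 1) :=
            Nat.mul_le_mul_left _ (Nat.mul_le_mul_right _ (by omega))
        _ = _ := by ring
    rw [Nat.mul_add, Nat.mul_add]
    exact Nat.add_le_add e1 e2
  have hK : 4 * (d + 1) = (4 * (d + 1) - 1) + 1 := by omega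
  have e3 := rest_arith s (d - μ + 1 + 1) (Bc M μ 1) f (tl s Ψ + a * ell s 1)
    (fl s Ψ + a * ell (s + 1) 1) (ell s (d - μ + 1 + 1)) (ell (s + 1) (d - μ + 1 + 1))
    (ell (s + 1) μ) (4 * (d + 1) - 1) (ell_succ_mul s _ hs) hT1 hZ (by rw [← hK]; exact hload)
    hB hB1
  rw [← hK] at e3
  have e4 := hn.f2
  rw [show d - μ + 2 = d - μ + 1 + 1 by omega] at e4
  have e5 : 0 < 4 * (d + 1) * ell (s + 1) μ := Nat.mul_pos (by omega) (ell_pos _ (by omega))
  have e6 : 4 * (d + 1) * ell (s + 1) μ * (2 * ell (s + 1) (d + 2 - 2 * μ)) ≤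
      4 * (d + 1) * ell (s + 1) μ * f := by
    calc 4 * (d + 1) * ell (s + 1) μ * (2 * ell (s + 1) (d + 2 - 2 * μ)) =
        8 * (d + 1) * ell (s + 1) μ * ell (s + 1) (d + 2 - 2 * μ) := by ring
      _ ≤ ell s (d - μ + 1 + 1) := e4
      _ ≤ 4 * (d + 1) * (f * ell (s + 1) μ) := e3
      _ = _ := by ring
  have e7 := Nat.le_of_mul_le_mul_left e6 e5
  omega

/-- The choice of the numbers in a step: `Δ = E0 - τ` is the room. -/
theorem choose_arith (Δ W Eμ : ℕ) (hE : 1 ≤ Eμ) (hW : W ≤ Δ) :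
    ∃ α ρ, α * Eμ + ρ = Δ ∧ W ≤ ρ ∧ ρ ≤ W + Eμ ∧ (Δ - W) / Eμ = α := by
  refine ⟨(Δ - W) / Eμ, Δ - (Δ - W) / Eμ * Eμ, ?_, ?_, ?_, rfl⟩
  · have := Nat.div_mul_le_self (Δ - W) Eμ
    omega
  · have := Nat.div_mul_le_self (Δ - W) Eμ
    omega
  · have := Nat.lt_div_mul_add (a := Δ - W) (b := Eμ) (by omega)
    omega

end Pool.Agent.H21.NX

end

section

/-!
# Module Core: many points of multiplicity `μ`
-/

namespace Pool.Agent.H21.NX

open Finset Pool.Agent.H18.Ex

theorem tot_cons (n a : ℕ) (S : Multiset ℕ) : tot n (a ::ₘ S) = ell n a + tot n S := by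
  unfold tot
  rw [Multiset.map_cons, Multiset.sum_cons]

/-- Greedy choice of a sub-multiset. -/
theorem greedy (n M x T : ℕ) (hx : x ≤ T) (R : Multiset ℕ) :
    (∀ m ∈ R, m ≤ M) → T ≤ x + tot n R →
      ∃ R' ≤ R, T ≤ x + tot n R' ∧ x + tot n R' ≤ T + ell n M := by
  induction R using Multiset.induction_on with
  | empty =>
    intro _ hT
    refine ⟨0, le_rfl, hT, ?_⟩
    rw [tot_zero]
    omega
  | cons a R ih =>
    intro hM hT
    by_cases h : T ≤ x + tot n R
    · obtain ⟨R', h1, h2, h3⟩ := ih (fun m hm => hM m (Multiset.mem_cons_of_mem hm)) h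
      exact ⟨R', le_trans h1 (Multiset.le_cons_self _ _), h2, h3⟩
    · refine ⟨_, le_rfl, hT, ?_⟩
      rw [tot_cons]
      have := ell_mono n (hM a (Multiset.mem_cons_self _ _))
      omega

theorem tot_filter_pos (n : ℕ) (hn : 1 ≤ n) (S : Multiset ℕ) :
    tot n (S.filter (1 ≤ ·)) = tot n S := by
  induction S using Multiset.induction_on with
  | empty => rfl
  | cons a S ih =>
    by_cases h : 1 ≤ a
    · rw [Multiset.filter_cons_of_pos _ h, tot_cons, tot_cons, ih]
    · rw [Multiset.filter_cons_of_neg _ h, tot_cons, ih, show a = 0 by omega, ell_zero hn,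
        Nat.zero_add]

end Pool.Agent.H21.NX

end

section

/-!
# Module E2 (TB): renaming the variables

An equivalence `e : ι ≃ ι'` of the variables (here `finSumFinEquiv : Fin a ⊕ Fin b ≃ Fin (a + b)`)
transports exponents, positions and conditions.
-/

namespace Pool.Agent.H51.TB

open Finset Pool.Agent.H18.Ex Pool.Agent.H21.NX

private theorem Ridx_mem {ι ι' : Type} [Fintype ι] [DecidableEq ι] [Fintype ι'] [DecidableEq ι']
    (e : ι ≃ ι') (d : ℕ) (a : ι → ℕ) : (fun j => a (e.symm j)) ∈ Sx ι' d ↔ a ∈ Sx ι d := by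
  rw [mem_Sx, mem_Sx, Equiv.sum_comp e.symm a]

private theorem Ridx_mem' {ι ι' : Type} [Fintype ι] [DecidableEq ι] [Fintype ι'] [DecidableEq ι']
    (e : ι ≃ ι') (d : ℕ) (a : ι' → ℕ) : (fun i => a (e i)) ∈ Sx ι d ↔ a ∈ Sx ι' d := by
  rw [mem_Sx, mem_Sx, Equiv.sum_comp e a]

private theorem Ridx_tcr {ι ι' : Type} [Fintype ι] [Fintype ι'] (e : ι ≃ ι') (q : ι → ℂ)
    (a b : ι → ℕ) :
    tcr (fun j => q (e.symm j)) (fun j => a (e.symm j)) (fun j => b (e.symm j)) = tcr q a b := by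
  unfold tcr
  exact Equiv.prod_comp e.symm fun i => (((a i).choose (b i) : ℕ) : ℂ) * q i ^ (a i - b i)

theorem GM_equiv {ι ι' : Type} [Fintype ι] [DecidableEq ι] [Fintype ι'] [DecidableEq ι']
    (e : ι ≃ ι') (d : ℕ) (S : Multiset ℕ) (h : GM (Sx ι d) (S.map Kind.free)) :
    GM (Sx ι' d) (S.map Kind.free) := by
  obtain ⟨m, t, rfl⟩ := multi_exists_fin S
  rw [Multiset.map_map, GM_iff] at h ⊢
  obtain ⟨pos, hpos⟩ := h
  refine ⟨fun i j => pos i (e.symm j), fun f' hf' a' ha' => ?_⟩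
  have key : ∀ a ∈ Sx ι d, (fun a : ι → ℕ => f' fun j => a (e.symm j)) a = 0 := by
    refine hpos (fun a => f' fun j => a (e.symm j)) fun i b hb => ?_
    have hb' : ∑ i, b i < t i := hb
    have h1 : ∑ a ∈ Sx ι' d, f' a * tcr (fun j => pos i (e.symm j)) a (fun j => b (e.symm j)) = 0 := by
      refine hf' i (fun j => b (e.symm j)) ?_
      show ∑ j, b (e.symm j) < t i
      rw [Equiv.sum_comp e.symm b]
      exact hb'
    rw [← h1]
    show ∑ a ∈ Sx ι d, (f' fun j => a (e.symm j)) * tcr (pos i) a b = _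
    refine Finset.sum_bij (fun a _ => fun j => a (e.symm j)) (fun a ha => (Ridx_mem e d a).2 ha)
      (fun a _ b _ hab => ?_) (fun a ha => ⟨fun i => a (e i), (Ridx_mem' e d a).2 ha, ?_⟩)
      (fun a _ => ?_)
    · funext i
      have h2 := congrFun hab (e i)
      simpa using h2
    · funext j
      show a (e (e.symm j)) = a j
      rw [e.apply_symm_apply]
    · rw [Ridx_tcr]
  have h3 := key (fun i => a' (e i)) ((Ridx_mem' e d a').2 ha')
  have h4 : (fun j => a' (e (e.symm j))) = a' := by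
    funext j
    rw [e.apply_symm_apply]
  have h5 : f' (fun j => a' (e (e.symm j))) = 0 := h3
  rw [h4] at h5
  exact h5

end Pool.Agent.H51.TB

end
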