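import Pool.Agent.H94.LP2.H51.TB.LSpan
import Pool.Agent.H94.LP2.M08
import Pool.Agent.H94.LP2.M19
import Pool.Agent.H94.LP2.M20
import Pool.Agent.H94.LP2.M22

/-! The parts of this file: H51.TB.Num, H51.TB.Cnt, H51.TB.Core. -/

section

/-!
# Module D14 (TB): the numerical theorem

Let `n = a + b`, `N = ell (n - 1) (d + 1)`.  Constants: `e` from `start`, `κ₀` from `Eg_ge d`, for
each `μ` with `2 μ ≤ d` the `K` from `adjust` (let `K` be at least all of them; if `adjust` holds with `K_μ`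
and `K ≥ K_μ`, the hypotheses with `K` imply those with `K_μ`).  `E = ⌊e * A μ⌋`; as
`A μ * ell (n - 1) μ ≥ η N` and `N / ell (n - 1) μ → ∞` (`grow_sq`), `E ≥ (e / 2) A μ`, so
`E * ell (n - 1) μ ≥ (e η / 2) N`.  `δ = e η κ₀ / (2 K)` in `start`.  `a` from `exists_coprime` (with `M = d`
and a small `ε`: `|a - b| = |2 a - n|`), `b = n - a`.

`start` gives `c₀`; let `P j` (`j < d`) be the (integer) difference of the prefix sum
`Pre m₀ (0,0) j + ∑ c₀ m x * Pre m x j` and `∑_{i ≤ j} bet i`: `|P j| ≤ δ N`, and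
`K |P j| ≤ K δ N ≤ κ₀ (e η / 2) N ≤ κ₀ E ell (n - 1) μ ≤ E * Mv a b d μ j 0` (`Mv_ge`, `Eg_ge`).
`K * n * ell n μ ≤ E` by `grow_sq`.  `adjust` gives `c₁`; `c m = c₀ m` for `m ≠ μ`, `c μ = c₁`.  Then the
prefix sums of the masses are exactly those of `bet` for `j < d`, hence the masses are equal to
`bet j` for `j < d`; for `j = d` the prefix sum of the masses is the total length (`sum_wt`),
which is at least `N = ∑ bet` (`sum_bet`), so the mass of the level `d` is at least `bet d`.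
`mass` (with `κ = e η / 4`, for `c = c₁`; the sums over `m` are at least the term `m = μ`) gives the
last two statements.
-/

namespace Pool.Agent.H51.TB

open Finset Pool.Agent.H18.Ex Pool.Agent.H21.NX Pool.Agent.H18.Ta

/-- Prefix sums determine the terms, and the last one is bounded below. -/
private theorem Num_prefix {d : ℕ} {f g : ℕ → ℕ}
    (h : ∀ j < d, ∑ i ∈ range (j + 1), f i = ∑ i ∈ range (j + 1), g i)
    (h' : ∑ i ∈ range (d + 1), g i ≤ ∑ i ∈ range (d + 1), f i) : ∀ j ≤ d, g j ≤ f j := by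
  intro j hj
  have h1 : ∑ i ∈ range j, f i = ∑ i ∈ range j, g i := by
    rcases Nat.eq_zero_or_pos j with h0 | h0
    · rw [h0, range_zero, sum_empty, sum_empty]
    · obtain ⟨k, rfl⟩ : ∃ k, j = k + 1 := ⟨j - 1, by omega⟩
      exact h k (by omega)
  have h2 : ∑ i ∈ range (j + 1), g i ≤ ∑ i ∈ range (j + 1), f i := by
    rcases Nat.lt_or_ge j d with h0 | h0
    · exact (h j h0).ge
    · have h3 : j = d := by omega
      rw [h3]
      exact h'
  rw [sum_range_succ, sum_range_succ, h1] at h2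
  omega

/-- The prefix sums of the masses. -/
private theorem Num_Pre {a b d m₀ : ℕ} (c : ℕ → ℕ × ℕ → ℕ) (j : ℕ) :
    ∑ i ∈ range (j + 1), (wt a b d m₀ (0, 0) i +
      ∑ m ∈ range (d + 1), ∑ x ∈ KK d, c m x * wt a b d m x i) =
    Pre a b d m₀ (0, 0) j + ∑ m ∈ range (d + 1), ∑ x ∈ KK d, c m x * Pre a b d m x j := by
  rw [sum_add_distrib, sum_comm]
  unfold Pre
  congr 1
  refine sum_congr rfl fun m _ => ?_
  rw [sum_comm]
  refine sum_congr rfl fun x _ => ?_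
  rw [mul_sum]

/-- The total mass. -/
private theorem Num_total {a b d m₀ : ℕ} (ha : 1 ≤ a) (hb : 1 ≤ b) (hm₀ : m₀ ≤ d + 1)
    (c : ℕ → ℕ × ℕ → ℕ) (A : ℕ → ℕ) (hA : ∀ m ∈ range (d + 1), ∑ x ∈ KK d, c m x = A m) :
    ∑ i ∈ range (d + 1), (wt a b d m₀ (0, 0) i +
      ∑ m ∈ range (d + 1), ∑ x ∈ KK d, c m x * wt a b d m x i) =
    ell (a + b - 1) m₀ + ∑ m ∈ range (d + 1), A m * ell (a + b - 1) m := by
  rw [Num_Pre]
  unfold Pre
  rw [sum_wt ha hb hm₀ (by simp)]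
  congr 1
  refine sum_congr rfl fun m hm => ?_
  rw [← hA m hm, sum_mul]
  refine sum_congr rfl fun x hx => ?_
  rw [sum_wt ha hb (by rw [mem_range] at hm; omega) (mem_KK.1 hx)]

theorem num (d : ℕ) (η : ℝ) (hη : 0 < η) : ∃ n₀ : ℕ, ∀ n : ℕ, n₀ ≤ n →
    ∃ a b : ℕ, 2 ≤ a ∧ 2 ≤ b ∧ a + b = n ∧ ∀ (M μ m₀ : ℕ) (A : ℕ → ℕ),
    1 ≤ μ → μ ≤ M → μ + M ≤ d → m₀ ≤ d →
    (∀ m, A m ≠ 0 → 1 ≤ m ∧ m ≤ M ∧ m + M ≤ d + 1) →
    ell (a + b - 1) (d + 1) ≤
      ell (a + b - 1) m₀ + ∑ m ∈ range (d + 1), A m * ell (a + b - 1) m →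
    ell (a + b - 1) m₀ + ∑ m ∈ range (d + 1), A m * ell (a + b - 1) m ≤
      ell (a + b - 1) (d + 1) + ell (a + b - 1) d →
    η * (ell (a + b - 1) (d + 1) : ℝ) ≤ ((A μ * ell (a + b - 1) μ : ℕ) : ℝ) →
    ∃ c : ℕ → ℕ × ℕ → ℕ, (∀ m ∈ range (d + 1), ∑ x ∈ KK d, c m x = A m) ∧
      (∀ j ≤ d, bet a b d j ≤ wt a b d m₀ (0, 0) j +
        ∑ m ∈ range (d + 1), ∑ x ∈ KK d, c m x * wt a b d m x j) ∧
      (∀ j ≤ d, ∀ t, 1 ≤ t → t < μ → ell (a + b) (t + 1) * ell (a + b) M ≤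
        ∑ m ∈ range (d + 1), ∑ x ∈ KK d, if cls d m x j = t then c m x * wt a b d m x j else 0) ∧
      (∀ j ≤ d, ell (a + b) (d + 1 - M) * ell (a + b) M ≤
        ∑ m ∈ range (d + 1), ∑ x ∈ KK d,
          if cls d m x j = μ then c m x * wt a b d m x j else 0) := by
  obtain ⟨e, he, hstart⟩ := start d
  obtain ⟨κ₀, hκ₀, ε₁, hε₁, n₁, hEg⟩ := Eg_ge d
  -- the constants of `adjust`
  have hadj : ∀ μ : ℕ, ∃ K : ℕ, 1 ≤ K ∧ (1 ≤ μ → 2 * μ ≤ d → ∀ a b : ℕ, 2 ≤ a → 2 ≤ b →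
      (∀ t, 1 ≤ t → t < μ → Nat.Coprime (Nat.multichoose (a - 1) t) (a + b - 2)) →
      ∀ (c₀ : ℕ × ℕ → ℕ) (E : ℕ) (P : ℕ → ℤ), (∀ x ∈ KK d, x.2 ≤ μ → E ≤ c₀ x) →
      K * ((a + b) * ell (a + b) μ) ≤ E →
      (∀ s < d, (K : ℤ) * |P s| ≤ (E : ℤ) * (Mv a b d μ s 0 : ℤ)) →
      ∃ c₁ : ℕ × ℕ → ℕ, ∑ x ∈ KK d, c₁ x = ∑ x ∈ KK d, c₀ x ∧
        (∀ x ∈ KK d, x.2 ≤ μ → E ≤ 2 * c₁ x) ∧
        ∀ j < d, ∑ x ∈ KK d, (c₁ x : ℤ) * (Pre a b d μ x j : ℤ) =
          ∑ x ∈ KK d, (c₀ x : ℤ) * (Pre a b d μ x j : ℤ) - P j) := by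
    intro μ
    by_cases h : 1 ≤ μ ∧ 2 * μ ≤ d
    · obtain ⟨K, hK1, hK2⟩ := adjust d μ h.1 h.2
      exact ⟨K, hK1, fun _ _ => hK2⟩
    · exact ⟨1, le_rfl, fun h1 h2 => absurd ⟨h1, h2⟩ h⟩
  choose Kf hKf1 hKf2 using hadj
  set K : ℕ := 1 + ∑ μ ∈ range (d + 1), Kf μ with hK
  have hKf3 : ∀ μ ≤ d, Kf μ ≤ K := by
    intro μ hμ
    have : Kf μ ≤ ∑ μ ∈ range (d + 1), Kf μ :=
      single_le_sum (fun _ _ => Nat.zero_le _) (mem_range.2 (by omega))
    omega
  have hK0 : (0 : ℝ) < K := by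
    have : 0 < K := by omega
    exact_mod_cast this
  have heη : 0 < e * η := by positivity
  set δ : ℝ := e * η * κ₀ / (2 * K) with hδ
  have hδ0 : 0 < δ := by positivity
  obtain ⟨ε₂, hε₂, n₂, hst⟩ := hstart δ hδ0
  obtain ⟨ε₃, hε₃, n₃, hmass⟩ := mass d (e * η / 4) (by positivity)
  obtain ⟨n₄, hcop⟩ := exists_coprime d (min ε₁ (min ε₂ ε₃)) (lt_min hε₁ (lt_min hε₂ hε₃))
  obtain ⟨n₅, hsq⟩ := grow_sq d (2 * K / (e * η))
  obtain ⟨n₆, hone⟩ := grow_one d (2 / (e * η))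
  refine ⟨max (max (max n₁ n₂) (max n₃ n₄)) (max (max n₅ n₆) 2), fun n hn => ?_⟩
  have hn1 : n₁ ≤ n := le_trans ((le_max_left _ _).trans ((le_max_left _ _).trans (le_max_left _ _))) hn
  have hn2 : n₂ ≤ n := le_trans ((le_max_right _ _).trans ((le_max_left _ _).trans (le_max_left _ _))) hn
  have hn3 : n₃ ≤ n := le_trans ((le_max_left _ _).trans ((le_max_right _ _).trans (le_max_left _ _))) hn
  have hn4 : n₄ ≤ n := le_trans ((le_max_right _ _).trans ((le_max_right _ _).trans (le_max_left _ _))) hn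
  have hn5 : n₅ ≤ n := le_trans ((le_max_left _ _).trans ((le_max_left _ _).trans (le_max_right _ _))) hn
  have hn6 : n₆ ≤ n := le_trans ((le_max_right _ _).trans ((le_max_left _ _).trans (le_max_right _ _))) hn
  obtain ⟨a, ha2, hab, habs, hco⟩ := hcop n hn4
  obtain ⟨b, rfl⟩ : ∃ b, n = a + b := ⟨n - a, by omega⟩
  have hb2 : 2 ≤ b := by omega
  have habs' : ∀ ε : ℝ, min ε₁ (min ε₂ ε₃) ≤ ε → |(a : ℝ) - b| ≤ ε * ((a + b : ℕ) : ℝ) := by
    intro ε hε
    have h1 : (a : ℝ) - b = 2 * (a : ℝ) - ((a + b : ℕ) : ℝ) := by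
      push_cast
      ring
    rw [h1]
    exact habs.trans (mul_le_mul_of_nonneg_right hε (Nat.cast_nonneg _))
  have hab1 := habs' ε₁ (min_le_left _ _)
  have hab2 := habs' ε₂ ((min_le_right _ _).trans (min_le_left _ _))
  have hab3 := habs' ε₃ ((min_le_right _ _).trans (min_le_right _ _))
  refine ⟨a, b, ha2, hb2, rfl, ?_⟩
  intro M μ m₀ A hμ hμM hμd hm₀ hA hL1 hL2 hη'
  have hμd' : 2 * μ ≤ d := by omega
  have hμle : μ ≤ d := by omega
  set N : ℝ := (ell (a + b - 1) (d + 1) : ℝ) with hN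
  set l : ℝ := (ell (a + b - 1) μ : ℝ) with hl
  have hl0 : 0 < l := by
    have := ell_pos (a + b - 1) hμ
    rw [hl]
    exact_mod_cast this
  have hN0 : 0 ≤ N := Nat.cast_nonneg _
  set E : ℕ := ⌊e * A μ⌋₊ with hE
  have hE1 : (E : ℝ) ≤ e * A μ := Nat.floor_le (by positivity)
  have hE2 : e * A μ < E + 1 := Nat.lt_floor_add_one _
  have hAμ : η * N ≤ A μ * l := by
    have := hη'
    push_cast at this
    exact this
  -- `E l ≥ (e η / 2) N`
  have hlN : l ≤ e * η / 2 * N := by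
    have h1 := hone (a + b) hn6 μ hμle
    have h2 : l ≤ (ell (a + b) μ : ℝ) := by
      have h3 : ell (a + b - 1) μ ≤ ell (a + b) μ := by
        obtain ⟨k, hk⟩ : ∃ k, a + b = k + 1 := ⟨a + b - 1, by omega⟩
        obtain ⟨c', hc'⟩ : ∃ c', μ = c' + 1 := ⟨μ - 1, by omega⟩
        rw [hk, Nat.add_sub_cancel, hc', ell_succ]
        omega
      show ((ell (a + b - 1) μ : ℕ) : ℝ) ≤ _
      exact Nat.cast_le.2 h3
    have h4 : 2 / (e * η) * l ≤ N := (mul_le_mul_of_nonneg_left h2 (by positivity)).trans h1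
    have h5 : l = e * η / 2 * (2 / (e * η) * l) := by
      field_simp
    rw [h5]
    exact mul_le_mul_of_nonneg_left h4 (by positivity)
  have hEl : e * η / 2 * N ≤ E * l := by
    have h1 : (e * A μ) * l ≤ (E + 1) * l := mul_le_mul_of_nonneg_right hE2.le hl0.le
    have h2 : e * (η * N) ≤ e * (A μ * l) := mul_le_mul_of_nonneg_left hAμ he.le
    nlinarith
  -- the initial distribution
  obtain ⟨c₀, hc₀1, hc₀2, hc₀3⟩ := hst a b (by omega) (by omega) hn2 hab2 M μ m₀ A hμ hμM hμd hm₀ hA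
    hL1 hL2 E hE1
  set P : ℕ → ℤ := fun j => ((Pre a b d m₀ (0, 0) j +
    ∑ m ∈ range (d + 1), ∑ x ∈ KK d, c₀ m x * Pre a b d m x j : ℕ) : ℤ) -
    ((∑ i ∈ range (j + 1), bet a b d i : ℕ) : ℤ) with hP
  have hPabs : ∀ j ≤ d, ((|P j| : ℤ) : ℝ) ≤ δ * N := by
    intro j hj
    have h1 := hc₀3 j hj
    rw [Int.cast_abs]
    have h2 : ((P j : ℤ) : ℝ) = ((Pre a b d m₀ (0, 0) j +
        ∑ m ∈ range (d + 1), ∑ x ∈ KK d, c₀ m x * Pre a b d m x j : ℕ) : ℝ) -
        ((∑ i ∈ range (j + 1), bet a b d i : ℕ) : ℝ) := by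
      rw [hP]
      simp only [Int.cast_sub, Int.cast_natCast]
    rw [h2]
    exact h1
  -- the adjustment
  have hKμ : ((Kf μ : ℕ) : ℝ) ≤ K := by exact_mod_cast hKf3 μ hμle
  have hbig : Kf μ * ((a + b) * ell (a + b) μ) ≤ E := by
    have h1 := hsq (a + b) hn5 μ hμ hμd'
    have h2 : (K : ℝ) * (((a + b : ℕ) : ℝ) * ell (a + b) μ) * l ≤ E * l := by
      have h3 : (K : ℝ) * (((a + b : ℕ) : ℝ) * ell (a + b) μ) * l =
          e * η / 2 * (2 * K / (e * η) * (((a + b : ℕ) : ℝ) * ell (a + b) μ * ell (a + b - 1) μ)) := by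
        rw [hl]
        field_simp
      rw [h3]
      exact (mul_le_mul_of_nonneg_left h1 (by positivity)).trans hEl
    have h4 : (K : ℝ) * (((a + b : ℕ) : ℝ) * ell (a + b) μ) ≤ E := le_of_mul_le_mul_right h2 hl0
    have h5 : ((Kf μ * ((a + b) * ell (a + b) μ) : ℕ) : ℝ) ≤ E := by
      push_cast
      push_cast at h4
      exact (mul_le_mul_of_nonneg_right hKμ (by positivity)).trans h4
    exact_mod_cast h5
  have hPM : ∀ s < d, (Kf μ : ℤ) * |P s| ≤ (E : ℤ) * (Mv a b d μ s 0 : ℤ) := by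
    intro s hs
    obtain ⟨g, hg1, hg2⟩ := Mv_ge (a := a) (b := b) hμ hμle hs
    have h1 := hEg a b (by omega) (by omega) hn1 hab1 g (by omega)
    rw [hg1] at h1
    have h2 : κ₀ * l ≤ (Mv a b d μ s 0 : ℝ) := by
      have : (Eg a b g : ℝ) ≤ (Mv a b d μ s 0 : ℝ) := by exact_mod_cast hg2
      linarith
    have h3 : (Kf μ : ℝ) * ((|P s| : ℤ) : ℝ) ≤ K * (δ * N) := by
      have h31 := hPabs s hs.le
      have h32 : (0 : ℝ) ≤ ((|P s| : ℤ) : ℝ) := by
        exact_mod_cast abs_nonneg (P s)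
      exact mul_le_mul hKμ h31 h32 hK0.le
    have h4 : (K : ℝ) * (δ * N) = κ₀ * (e * η / 2 * N) := by
      rw [hδ]
      field_simp
    have h5 : κ₀ * (e * η / 2 * N) ≤ κ₀ * (E * l) := mul_le_mul_of_nonneg_left hEl hκ₀.le
    have h6 : κ₀ * (E * l) ≤ E * (Mv a b d μ s 0 : ℝ) := by
      have : κ₀ * (E * l) = E * (κ₀ * l) := by ring
      rw [this]
      exact mul_le_mul_of_nonneg_left h2 (Nat.cast_nonneg _)
    have h7 : (Kf μ : ℝ) * ((|P s| : ℤ) : ℝ) ≤ E * (Mv a b d μ s 0 : ℝ) := by linarith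
    exact_mod_cast h7
  obtain ⟨c₁, hc₁1, hc₁2, hc₁3⟩ := hKf2 μ hμ hμd' a b ha2 hb2
    (fun t ht1 ht2 => hco t ht1 (by omega)) (c₀ μ) E P hc₀2 hbig hPM
  have hμr : μ ∈ range (d + 1) := mem_range.2 (by omega)
  set c : ℕ → ℕ × ℕ → ℕ := Function.update c₀ μ c₁ with hc
  have hcμ : c μ = c₁ := Function.update_self _ _ _
  have hcm : ∀ m, m ≠ μ → c m = c₀ m := fun m hm => Function.update_of_ne hm _ _
  have hcA : ∀ m ∈ range (d + 1), ∑ x ∈ KK d, c m x = A m := by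
    intro m hm
    by_cases h : m = μ
    · rw [h, hcμ, hc₁1]
      exact hc₀1 μ hμr
    · rw [hcm m h]
      exact hc₀1 m hm
  refine ⟨c, hcA, ?_, ?_, ?_⟩
  · -- the masses
    refine Num_prefix (fun j hj => ?_) ?_
    · rw [Num_Pre]
      have h1 := hc₁3 j hj
      have h2 : ((∑ m ∈ range (d + 1), ∑ x ∈ KK d, c m x * Pre a b d m x j : ℕ) : ℤ) =
          ((∑ m ∈ range (d + 1), ∑ x ∈ KK d, c₀ m x * Pre a b d m x j : ℕ) : ℤ) - P j := by
        rw [← add_sum_erase _ _ hμr, ← add_sum_erase (range (d + 1))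
          (fun m => ∑ x ∈ KK d, c₀ m x * Pre a b d m x j) hμr]
        have h3 : ∑ m ∈ (range (d + 1)).erase μ, ∑ x ∈ KK d, c m x * Pre a b d m x j =
            ∑ m ∈ (range (d + 1)).erase μ, ∑ x ∈ KK d, c₀ m x * Pre a b d m x j := by
          refine sum_congr rfl fun m hm => ?_
          rw [hcm m (ne_of_mem_erase hm)]
        rw [h3, hcμ]
        push_cast
        rw [h1]
        ring
      have h4 : P j = ((Pre a b d m₀ (0, 0) j +
        ∑ m ∈ range (d + 1), ∑ x ∈ KK d, c₀ m x * Pre a b d m x j : ℕ) : ℤ) -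
        ((∑ i ∈ range (j + 1), bet a b d i : ℕ) : ℤ) := rfl
      rw [h4] at h2
      have h5 : ((Pre a b d m₀ (0, 0) j +
          ∑ m ∈ range (d + 1), ∑ x ∈ KK d, c m x * Pre a b d m x j : ℕ) : ℤ) =
          ((∑ i ∈ range (j + 1), bet a b d i : ℕ) : ℤ) := by
        rw [Nat.cast_add, h2, Nat.cast_add]
        ring
      exact_mod_cast h5
    · rw [Num_total (by omega) (by omega) (by omega) c A hcA, sum_bet (by omega) (by omega)]
      exact hL1
  · -- the small classes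
    intro j hj t ht1 ht2
    have hm := hmass a b (by omega) (by omega) hn3 hab3 M μ hμ hμM hμd c₁ (fun x hx hx2 => by
      have h1 := hc₁2 x hx hx2
      have h2 : (E : ℝ) ≤ 2 * c₁ x := by exact_mod_cast h1
      have h3 : (E : ℝ) * l ≤ 2 * c₁ x * l := mul_le_mul_of_nonneg_right h2 hl0.le
      show e * η / 4 * N ≤ (c₁ x : ℝ) * l
      linarith)
    refine (hm.1 j hj t ht1 ht2).trans ?_
    have h1 := single_le_sum (f := fun m => ∑ x ∈ KK d,
      if cls d m x j = t then c m x * wt a b d m x j else 0) (fun _ _ => Nat.zero_le _) hμr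
    simp only [hcμ] at h1
    exact h1
  · intro j hj
    have hm := hmass a b (by omega) (by omega) hn3 hab3 M μ hμ hμM hμd c₁ (fun x hx hx2 => by
      have h1 := hc₁2 x hx hx2
      have h2 : (E : ℝ) ≤ 2 * c₁ x := by exact_mod_cast h1
      have h3 : (E : ℝ) * l ≤ 2 * c₁ x * l := mul_le_mul_of_nonneg_right h2 hl0.le
      show e * η / 4 * N ≤ (c₁ x : ℝ) * l
      linarith)
    refine (hm.2 j hj).trans ?_
    have h1 := single_le_sum (f := fun m => ∑ x ∈ KK d,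
      if cls d m x j = μ then c m x * wt a b d m x j else 0) (fun _ _ => Nat.zero_le _) hμr
    simp only [hcμ] at h1
    exact h1

end Pool.Agent.H51.TB

end

section

/-!
# Module E1 (TB): from the numbers of points in the cells to `GM`

Index type `κ = Unit ⊕ Σ y : {y : ℕ × (ℕ × ℕ) // y ∈ range (d + 1) ×ˢ KK d}, Fin (c y.1.1 y.1.2)`;
multiplicity `m₀` and cell `(0, 0)` for `Sum.inl ()`, multiplicity `y.1.1` and cell `y.1.2` for the
others.  The multiset of multiplicities of this family is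
`m₀ ::ₘ ∑ m ∈ range (d + 1), replicate (A m) m`, so by `GM_iff`
(`Pool/Agent/H18/Ex/Multi.lean`) it suffices to prove `GI` for this family, and by `limit` that
`gd = 0` on each level `j ≤ d`.  Use `level` with `hS = span_L`, the dominating type
`b = {g : |g| < M}` (`dom_of_subset`; the multiplicities are `≤ M`), `i₀ = Sum.inl ()`,
`cls i = cls d (mult i) (cell i) j`, `W t = ell n t * ell n M` for `t ≥ 2`, `W 0 = W 1 = 0`,
`Wb = ell n (d + 1 - M) * ell n M`, `n = a + b`.  Sizes: `size_le` (with `t = cls`; `ell n 1 = 1`, so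
`size - 1 = 0` if `cls ≤ 1`; `cls ≤ mult ≤ d + 1 - M` for `i ≠ i₀` with `cls_le`), `le_size` (the sums of
`size` are at least the sums of `wt`), `card_Bx`.
-/

namespace Pool.Agent.H51.TB

open Finset Pool.Agent.H18.Ex Pool.Agent.H21.NX Pool.Agent.H18.Ta

private abbrev Cnt_I (d : ℕ) (c : ℕ → ℕ × ℕ → ℕ) : Type :=
  Σ y : {y : ℕ × (ℕ × ℕ) // y ∈ range (d + 1) ×ˢ KK d}, Fin (c y.1.1 y.1.2)

private theorem Cnt_sum {M : Type} [AddCommMonoid M] (d : ℕ) (c : ℕ → ℕ × ℕ → ℕ) (F : ℕ → ℕ × ℕ → M) :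
    ∑ s : Cnt_I d c, F s.1.1.1 s.1.1.2 = ∑ m ∈ range (d + 1), ∑ x ∈ KK d, c m x • F m x := by
  rw [Fintype.sum_sigma]
  have h1 : ∀ y : {y : ℕ × (ℕ × ℕ) // y ∈ range (d + 1) ×ˢ KK d},
      ∑ _t : Fin (c y.1.1 y.1.2), F y.1.1 y.1.2 = (fun z : ℕ × (ℕ × ℕ) => c z.1 z.2 • F z.1 z.2) y.1 := by
    intro y
    rw [sum_const, card_univ, Fintype.card_fin]
  rw [sum_congr rfl fun y _ => h1 y]
  rw [← Finset.sum_product']
  exact Finset.sum_coe_sort (range (d + 1) ×ˢ KK d) fun z : ℕ × (ℕ × ℕ) => c z.1 z.2 • F z.1 z.2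

private theorem Cnt_univ_map {κ X : Type} [Fintype κ] (f : κ → X) :
    (univ : Finset κ).val.map f = ∑ i, ({f i} : Multiset X) := by
  show _ = ((univ : Finset κ).val.map fun i => ({f i} : Multiset X)).sum
  have h := Multiset.sum_map_singleton ((univ : Finset κ).val.map f)
  rw [Multiset.map_map] at h
  exact h.symm

theorem GM_of_counts {a b d M μ m₀ : ℕ} (ha : 2 ≤ a) (hb : 2 ≤ b) (hμ : 1 ≤ μ) (hμM : μ ≤ M)
    (hM : μ + M ≤ d) (hm₀ : m₀ ≤ M) (A : ℕ → ℕ)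
    (hA : ∀ m, A m ≠ 0 → 1 ≤ m ∧ m ≤ M ∧ m + M ≤ d + 1) (c : ℕ → ℕ × ℕ → ℕ)
    (hc : ∀ m ∈ range (d + 1), ∑ x ∈ KK d, c m x = A m)
    (h1 : ∀ j ≤ d, bet a b d j ≤ wt a b d m₀ (0, 0) j +
      ∑ m ∈ range (d + 1), ∑ x ∈ KK d, c m x * wt a b d m x j)
    (h2 : ∀ j ≤ d, ∀ t, 1 ≤ t → t < μ → ell (a + b) (t + 1) * ell (a + b) M ≤
      ∑ m ∈ range (d + 1), ∑ x ∈ KK d, if cls d m x j = t then c m x * wt a b d m x j else 0)
    (h3 : ∀ j ≤ d, ell (a + b) (d + 1 - M) * ell (a + b) M ≤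
      ∑ m ∈ range (d + 1), ∑ x ∈ KK d,
        if cls d m x j = μ then c m x * wt a b d m x j else 0) :
    GM (Sx (Z a b) d) ((m₀ ::ₘ ∑ m ∈ range (d + 1), Multiset.replicate (A m) m).map
      Kind.free) := by
  classical
  have hn1 : 1 ≤ a + b := by omega
  let mult : Unit ⊕ Cnt_I d c → ℕ := Sum.elim (fun _ => m₀) fun s => s.1.1.1
  let cell : Unit ⊕ Cnt_I d c → ℕ × ℕ := Sum.elim (fun _ => (0, 0)) fun s => s.1.1.2
  have hmul : (univ : Finset (Unit ⊕ Cnt_I d c)).val.map mult =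
      m₀ ::ₘ ∑ m ∈ range (d + 1), Multiset.replicate (A m) m := by
    rw [Cnt_univ_map, Fintype.sum_sum_type]
    have h4 : ∑ s : Cnt_I d c, ({mult (Sum.inr s)} : Multiset ℕ) =
        ∑ m ∈ range (d + 1), Multiset.replicate (A m) m := by
      refine (Cnt_sum d c (fun m _ => ({m} : Multiset ℕ))).trans ?_
      refine sum_congr rfl fun m hm => ?_
      rw [← Finset.sum_smul, hc m hm, Multiset.nsmul_singleton]
    rw [h4]
    simp [mult]
  rw [← hmul, Multiset.map_map, GM_iff]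
  -- the range of the multiplicities
  have hi : ∀ s : Cnt_I d c, A s.1.1.1 ≠ 0 := by
    intro s
    have h5 := s.1.2
    rw [mem_product] at h5
    rw [← hc _ h5.1]
    have h6 : 0 < c s.1.1.1 s.1.1.2 := lt_of_le_of_lt (Nat.zero_le _) s.2.2
    have h7 : c s.1.1.1 s.1.1.2 ≤ ∑ x ∈ KK d, c s.1.1.1 x :=
      single_le_sum (fun x _ => Nat.zero_le (c s.1.1.1 x)) h5.2
    omega
  have hcell : ∀ i, (cell i).1 + (cell i).2 ≤ d := by
    rintro (i | s)
    · exact Nat.zero_le d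
    · have h5 := s.1.2
      rw [mem_product] at h5
      exact mem_KK.1 h5.2
  have hmM : ∀ i, mult i ≤ M := by
    rintro (i | s)
    · exact hm₀
    · exact (hA _ (hi s)).2.1
  refine limit mult cell hcell fun j hj => ?_
  -- sizes
  have hle : ∀ i, wt a b d (mult i) (cell i) j ≤
      (LSys a b d j).size (Lam d (mult i) (cell i) j) := by
    intro i
    refine le_size (by omega) (by omega) hj _ fun g hg => ?_
    unfold Lam at hg
    rw [mem_filter] at hg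
    exact ⟨hg.2.2.1, hg.2.1⟩
  have hcls : ∀ i, ∀ g ∈ Lam d (mult i) (cell i) j, g.1 + g.2 + 1 ≤ cls d (mult i) (cell i) j := by
    intro i g hg
    exact le_sup (f := fun g : ℕ × ℕ => g.1 + g.2 + 1) hg
  have hsz : ∀ i t, cls d (mult i) (cell i) j ≤ t →
      (LSys a b d j).size (Lam d (mult i) (cell i) j) ≤ ell (a + b) t := by
    intro i t ht
    refine size_le (by omega) _ t fun g hg => ?_
    have := hcls i g hg
    omega
  let B : Finset (ℕ × ℕ) := (range M ×ˢ range M).filter fun g => g.1 + g.2 < M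
  have hB : (LSys a b d j).size B ≤ ell (a + b) M := by
    refine size_le (by omega) _ M fun g hg => ?_
    exact (mem_filter.1 hg).2
  have hdom : ∀ i, (LSys a b d j).Dom B (Lam d (mult i) (cell i) j) := by
    intro i
    refine dom_of_subset fun g hg => ?_
    have h5 := hmM i
    unfold Lam at hg
    rw [mem_filter] at hg
    rw [mem_filter, mem_product, mem_range, mem_range]
    omega
  -- sums
  have hsumF : ∀ F : ℕ → ℕ × ℕ → ℕ, (∑ s : Cnt_I d c, F (mult (Sum.inr s)) (cell (Sum.inr s))) =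
      ∑ m ∈ range (d + 1), ∑ x ∈ KK d, c m x * F m x := by
    intro F
    exact Cnt_sum d c F
  have hsumt : ∀ t, (∑ m ∈ range (d + 1), ∑ x ∈ KK d,
      if cls d m x j = t then c m x * wt a b d m x j else 0) ≤
      ∑ i ∈ univ.filter (fun i : Unit ⊕ Cnt_I d c => i ≠ Sum.inl () ∧ cls d (mult i) (cell i) j = t),
        (LSys a b d j).size (Lam d (mult i) (cell i) j) := by
    intro t
    rw [sum_filter, Fintype.sum_sum_type]
    have h5 := hsumF fun m x => if cls d m x j = t then wt a b d m x j else 0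
    have h6 : (∑ m ∈ range (d + 1), ∑ x ∈ KK d,
        if cls d m x j = t then c m x * wt a b d m x j else 0) =
        ∑ m ∈ range (d + 1), ∑ x ∈ KK d, c m x * if cls d m x j = t then wt a b d m x j else 0 := by
      refine sum_congr rfl fun m _ => sum_congr rfl fun x _ => ?_
      split_ifs
      · rfl
      · rw [mul_zero]
    rw [h6, ← h5]
    refine le_trans (sum_le_sum fun s _ => ?_) (Nat.le_add_left _ _)
    by_cases h7 : cls d (mult (Sum.inr s)) (cell (Sum.inr s)) j = t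
    · rw [if_pos h7, if_pos ⟨Sum.inr_ne_inl, h7⟩]
      exact hle (Sum.inr s)
    · rw [if_neg h7]
      exact Nat.zero_le _
  refine level (LSys a b d j) (span_L (by omega) (by omega) hj)
    (fun i => Lam d (mult i) (cell i) j) B hdom (Sum.inl ())
    (fun i => cls d (mult i) (cell i) j) μ hμ
    (fun t => if t ≤ 1 then 0 else ell (a + b) t * ell (a + b) M)
    (ell (a + b) (d + 1 - M) * ell (a + b) M) (if_pos (by omega)) (if_pos (by omega))
    ?_ ?_ ?_ ?_ ?_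
  · intro i _ _
    show ((LSys a b d j).size (Lam d (mult i) (cell i) j) - 1) * (LSys a b d j).size B ≤
      if cls d (mult i) (cell i) j ≤ 1 then 0
        else ell (a + b) (cls d (mult i) (cell i) j) * ell (a + b) M
    split_ifs with h5
    · have h6 := hsz i 1 h5
      rw [ell_one] at h6
      have h7 : (LSys a b d j).size (Lam d (mult i) (cell i) j) - 1 = 0 := by omega
      rw [h7, zero_mul]
    · exact Nat.mul_le_mul ((Nat.sub_le _ _).trans (hsz i _ le_rfl)) hB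
  · rintro (i | s) hne _
    · exact absurd rfl hne
    · have h5 := (hA _ (hi s)).2.2
      have h6 : cls d (mult (Sum.inr s)) (cell (Sum.inr s)) j ≤ d + 1 - M := by
        refine (cls_le _).trans ?_
        show s.1.1.1 ≤ d + 1 - M
        omega
      exact Nat.mul_le_mul ((Nat.sub_le _ _).trans (hsz _ _ h6)) hB
  · intro t ht1 htμ
    show (if t + 1 ≤ 1 then 0 else ell (a + b) (t + 1) * ell (a + b) M) ≤ _
    rw [if_neg (by omega)]
    exact (h2 j hj t ht1 htμ).trans (hsumt t)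
  · exact (h3 j hj).trans (hsumt μ)
  · rw [Fintype.card_coe, card_Bx hj, Fintype.sum_sum_type]
    refine (h1 j hj).trans (Nat.add_le_add ?_ ?_)
    · refine le_trans (hle (Sum.inl ())) ?_
      rw [Fintype.sum_unique]
    · rw [← hsumF fun m x => wt a b d m x j]
      exact sum_le_sum fun s _ => hle (Sum.inr s)

end Pool.Agent.H51.TB

end

section

/-!
# Module E4 (TB): the core theorem

Let `n = r + 1`, `N = ell r (d + 1)`.  By `choose_part` (`w = ell r`, `B = ell r d`, `e₀ = ell r m₀`, which is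
`≤ N / 2` by `grow_one`) there is `T ≤ S` with `N ≤ ell r m₀ + tot r T ≤ N + ell r d` and
`T.count μ * ell r μ ≥ min η (1/2) * N`; `A m = T.count m`.  `num` (with `min η (1/2)`) and `GM_of_counts`
give `GM (Sx (Z a b) d)` for `m₀ ::ₘ T = m₀ ::ₘ ∑ m ∈ range (d + 1), replicate (A m) m`;
`GM_equiv finSumFinEquiv` (`a + b = r + 1`) and `GM.mono` finish the proof.
-/

namespace Pool.Agent.H51.TB

open Finset Pool.Agent.H18.Ex Pool.Agent.H21.NX

private theorem Core_ell_up (r c : ℕ) (hr : 1 ≤ r) : ell (r - 1) (c + 1) ≤ ell r (c + 1) := by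
  obtain ⟨k, rfl⟩ : ∃ k, r = k + 1 := ⟨r - 1, by omega⟩
  rw [Nat.add_sub_cancel, ell_succ k c]
  exact Nat.le_add_left _ _

private theorem Core_sum_replicate (d : ℕ) (T : Multiset ℕ) (hT : ∀ m ∈ T, m ≤ d) :
    ∑ m ∈ range (d + 1), Multiset.replicate (T.count m) m = T := by
  ext x
  rw [Multiset.count_sum']
  simp only [Multiset.count_replicate]
  by_cases hx : x ∈ T
  · have h1 : x ∈ range (d + 1) := mem_range.2 (Nat.lt_succ_of_le (hT x hx))
    rw [Finset.sum_ite_eq' (range (d + 1)) x (fun m => T.count m), if_pos h1]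
  · rw [Multiset.count_eq_zero_of_notMem hx]
    apply Finset.sum_eq_zero
    intro m _
    split_ifs with h
    · rw [h]
      exact Multiset.count_eq_zero_of_notMem hx
    · rfl

private theorem Core_sum_tot (r d : ℕ) (T : Multiset ℕ) (hT : ∀ m ∈ T, m ≤ d) :
    ∑ m ∈ range (d + 1), T.count m * ell r m = (T.map (ell r)).sum := by
  rw [Finset.sum_multiset_map_count]
  symm
  have h1 : T.toFinset ⊆ range (d + 1) := by
    intro x hx
    exact mem_range.2 (Nat.lt_succ_of_le (hT x (Multiset.mem_toFinset.1 hx)))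
  refine (Finset.sum_subset h1 ?_).trans ?_
  · intro x _ hx
    rw [Multiset.mem_toFinset] at hx
    rw [Multiset.count_eq_zero_of_notMem hx, zero_smul]
  · exact Finset.sum_congr rfl fun m _ => smul_eq_mul _ _

theorem core (d : ℕ) (η : ℝ) (hη : 0 < η) : ∃ r₀ : ℕ, ∀ r : ℕ, r₀ ≤ r → ∀ (M μ m₀ : ℕ)
    (S : Multiset ℕ), 1 ≤ μ → μ ≤ M → μ + M ≤ d → m₀ ≤ M →
    (∀ m ∈ S, 1 ≤ m ∧ m ≤ M ∧ m + M ≤ d + 1) → ell r (d + 1) ≤ ell r m₀ + tot r S →
    η * (ell r (d + 1) : ℝ) ≤ ((S.count μ * ell r μ : ℕ) : ℝ) →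
    GM (Sx (Fin (r + 1)) d) ((m₀ ::ₘ S).map Kind.free) := by
  obtain ⟨n₁, h₁⟩ := num d (min η (1 / 2)) (lt_min hη (by norm_num))
  obtain ⟨n₂, h₂⟩ := grow_one d 2
  refine ⟨max n₁ (max n₂ 1), fun r hr M μ m₀ S hμ hμM hM hm₀ hS hN hη' => ?_⟩
  have hr1 : n₁ ≤ r + 1 := ((le_max_left _ _).trans hr).trans (Nat.le_succ r)
  have hr2 : n₂ ≤ r := ((le_max_left _ _).trans (le_max_right _ _)).trans hr
  have hr3 : 1 ≤ r := ((le_max_right _ _).trans (le_max_right _ _)).trans hr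
  have he : 2 * ell r m₀ ≤ ell r (d + 1) := by
    have h3 := h₂ r hr2 m₀ (by omega)
    have h4 : 2 * ell r m₀ ≤ ell (r - 1) (d + 1) := by exact_mod_cast h3
    exact h4.trans (Core_ell_up r d hr3)
  obtain ⟨T, hTS, hT1, hT2, hT3⟩ := choose_part (ell r) (ell r d) (ell r (d + 1)) (ell r m₀) μ S
    (fun m hm => ell_mono r (by have := hS m hm; omega)) he hN
  have hTm : ∀ m ∈ T, 1 ≤ m ∧ m ≤ M ∧ m + M ≤ d + 1 := fun m hm => hS m (Multiset.mem_of_le hTS hm)
  have hTd : ∀ m ∈ T, m ≤ d := fun m hm => by have := hTm m hm; omega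
  have hsum := Core_sum_tot r d T hTd
  obtain ⟨a, b, ha, hb, hab, hnum⟩ := h₁ (r + 1) hr1
  have habr : a + b - 1 = r := by omega
  rw [habr] at hnum
  have hA : ∀ m, T.count m ≠ 0 → 1 ≤ m ∧ m ≤ M ∧ m + M ≤ d + 1 := fun m hm =>
    hTm m (Multiset.count_ne_zero.1 hm)
  have hdom : min η (1 / 2) * (ell r (d + 1) : ℝ) ≤ ((T.count μ * ell r μ : ℕ) : ℝ) := by
    have h0 : (0 : ℝ) ≤ (ell r (d + 1) : ℝ) := Nat.cast_nonneg _
    rcases hT3 with h | h
    · rw [h]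
      exact (mul_le_mul_of_nonneg_right (min_le_left _ _) h0).trans hη'
    · have h5 : (ell r (d + 1) : ℝ) ≤ 2 * ((T.count μ * ell r μ : ℕ) : ℝ) := by exact_mod_cast h
      have h6 := mul_le_mul_of_nonneg_right (min_le_right η (1 / 2)) h0
      linarith
  obtain ⟨c, hc, k1, k2, k3⟩ := hnum M μ m₀ (fun m => T.count m) hμ hμM hM (by omega) hA
    (by rw [hsum]; exact hT1) (by rw [hsum]; exact hT2) hdom
  have hGM := GM_of_counts ha hb hμ hμM hM hm₀ (fun m => T.count m) hA c hc k1 k2 k3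
  rw [Core_sum_replicate d T hTd] at hGM
  have hGM2 := GM_equiv (finSumFinEquiv.trans (finCongr hab)) d (m₀ ::ₘ T) hGM
  exact GM.mono (Multiset.map_le_map ((Multiset.cons_le_cons_iff m₀).2 hTS)) hGM2

end Pool.Agent.H51.TB

end
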