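import Pool.Agent.H94.LP2.M12
import Pool.Agent.H94.LP2.M18
import Pool.Agent.H94.LP2.M23

/-! The parts of this file: H51.TB.UCnt, H51.TB.UCore. -/

section

/-!
# Module U8 (TB2): from the numbers of points in the cells to `GM`, with one large point

As `GM_of_counts` in `Pool/Agent/H51/TB/Cnt.lean` (delivered, complete; the proof can be adapted).
Differences: the large point (multiplicity `m₀`) is put at the coordinate point `o = ⟨0, _⟩` of the
`X`-variables (`GM_cons`): it remains to show `GM` for the other points on the exponents with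
`α_o + m₀ ≤ d`, i.e. `α_o ≤ e = d - m₀`.  Index type as in `Cnt` but the point `Sum.inl ()` has
multiplicity `0` (type `∅` on all levels, size `0`; remove it at the end or use `GM.mono`-free
reasoning: the multiset of kinds is `Kind.free 0 ::ₘ S`; a position for it is not needed, e.g. apply
`limit_A` to the family, then `GI.of_comp`-like restriction, or show directly that the conditions of
`Kind.free 0` are empty).  On the level `j` the system is `ASys (Bu a b d j o e)`, with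
`span_U`, `dom_A`, `size_le_A`, `le_size_U` (`g.1 ≤ M - 1 ≤ d - m₀ = e` for `g` in the types),
`card_Bu_add` (the number of exponents is `bet a b d j - wt a b d m₀ (0, 0) j`).
-/

namespace Pool.Agent.H51.TB

open Finset Pool.Agent.H18.Ex Pool.Agent.H21.NX Pool.Agent.H18.Ta

private abbrev UCnt_I (d : ℕ) (c : ℕ → ℕ × ℕ → ℕ) : Type :=
  Σ y : {y : ℕ × (ℕ × ℕ) // y ∈ range (d + 1) ×ˢ KK d}, Fin (c y.1.1 y.1.2)

private theorem UCnt_sum {M : Type} [AddCommMonoid M] (d : ℕ) (c : ℕ → ℕ × ℕ → ℕ)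
    (F : ℕ → ℕ × ℕ → M) :
    ∑ s : UCnt_I d c, F s.1.1.1 s.1.1.2 = ∑ m ∈ range (d + 1), ∑ x ∈ KK d, c m x • F m x := by
  rw [Fintype.sum_sigma]
  have h1 : ∀ y : {y : ℕ × (ℕ × ℕ) // y ∈ range (d + 1) ×ˢ KK d},
      ∑ _t : Fin (c y.1.1 y.1.2), F y.1.1 y.1.2 =
        (fun z : ℕ × (ℕ × ℕ) => c z.1 z.2 • F z.1 z.2) y.1 := by
    intro y
    rw [sum_const, card_univ, Fintype.card_fin]
  rw [sum_congr rfl fun y _ => h1 y]
  rw [← Finset.sum_product']
  exact Finset.sum_coe_sort (range (d + 1) ×ˢ KK d) fun z : ℕ × (ℕ × ℕ) => c z.1 z.2 • F z.1 z.2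

private theorem UCnt_univ_map {κ X : Type} [Fintype κ] (f : κ → X) :
    (univ : Finset κ).val.map f = ∑ i, ({f i} : Multiset X) := by
  show _ = ((univ : Finset κ).val.map fun i => ({f i} : Multiset X)).sum
  have h := Multiset.sum_map_singleton ((univ : Finset κ).val.map f)
  rw [Multiset.map_map] at h
  exact h.symm

/-- a point without conditions can be removed -/
private theorem UCnt_drop {a b : ℕ} (A : Finset (Z a b → ℕ)) {κ : Type}
    (m : κ → Finset (ℕ × ℕ))
    (h : (ASys A).gd (Sum.elim (fun _ : Unit => (∅ : Finset (ℕ × ℕ))) m) = 0) :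
    (ASys A).gd m = 0 := by
  obtain ⟨p, hp⟩ := gd_attained (ASys A) (Sum.elim (fun _ : Unit => (∅ : Finset (ℕ × ℕ))) m)
  rw [h] at hp
  have h1 : (ASys A).V m (fun i => p (Sum.inr i)) ≤
      (ASys A).V (Sum.elim (fun _ : Unit => (∅ : Finset (ℕ × ℕ))) m) p := by
    intro f hf
    rw [mem_AV] at hf ⊢
    rintro (i | i) β hβ
    · exact absurd hβ (Finset.notMem_empty _)
    · exact hf i β hβ
  have h2 := gd_le (ASys A) m fun i => p (Sum.inr i)
  have h3 := Submodule.finrank_mono h1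
  omega

theorem GM_of_counts_U {a b d M μ m₀ : ℕ} (ha : 2 ≤ a) (hb : 2 ≤ b) (hμ : 1 ≤ μ) (hμM : μ ≤ M)
    (hM : μ + M ≤ d) (hm₀ : M + m₀ ≤ d + 1) (A : ℕ → ℕ)
    (hA : ∀ m, A m ≠ 0 → 1 ≤ m ∧ m ≤ M ∧ m + M ≤ d + 1) (c : ℕ → ℕ × ℕ → ℕ)
    (hc : ∀ m ∈ range (d + 1), ∑ x ∈ KK d, c m x = A m)
    (h1 : ∀ j ≤ d, bet a b d j ≤ wt a b d m₀ (0, 0) j +
      ∑ m ∈ range (d + 1), ∑ x ∈ KK d, c m x * wt a b d m x j)
    (h2 : ∀ j ≤ d, ∀ t, 1 ≤ t → t < μ → ell (a + b) (t + 1) * ell (a + b) M ≤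
      ∑ m ∈ range (d + 1), ∑ x ∈ KK d, if cls d m x j = t then c m x * wt a b d m x j else 0)
    (h3 : ∀ j ≤ d, ell (a + b) (d + 1 - M) * ell (a + b) M ≤
      ∑ m ∈ range (d + 1), ∑ x ∈ KK d,
        if cls d m x j = μ then c m x * wt a b d m x j else 0) :
    GM (Sx (Z a b) d) ((m₀ ::ₘ ∑ m ∈ range (d + 1), Multiset.replicate (A m) m).map
      Kind.free) := by
  classical
  have hn1 : 1 ≤ a + b := by omega
  have hm₀d : m₀ ≤ d := by omega
  let o : Fin a := ⟨0, by omega⟩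
  rw [Multiset.map_cons]
  refine GM_cons (Sum.inl o) d m₀ _ ?_
  let mult : UCnt_I d c → ℕ := fun s => s.1.1.1
  let cell : UCnt_I d c → ℕ × ℕ := fun s => s.1.1.2
  have hmul : (univ : Finset (UCnt_I d c)).val.map mult =
      ∑ m ∈ range (d + 1), Multiset.replicate (A m) m := by
    rw [UCnt_univ_map]
    refine (UCnt_sum d c (fun m _ => ({m} : Multiset ℕ))).trans ?_
    refine sum_congr rfl fun m hm => ?_
    rw [← Finset.sum_smul, hc m hm, Multiset.nsmul_singleton]
  rw [← hmul, Multiset.map_map, GM_iff]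
  -- the range of the multiplicities
  have hi : ∀ s : UCnt_I d c, A s.1.1.1 ≠ 0 := by
    intro s
    have h5 := s.1.2
    rw [mem_product] at h5
    rw [← hc _ h5.1]
    have h6 : 0 < c s.1.1.1 s.1.1.2 := lt_of_le_of_lt (Nat.zero_le _) s.2.2
    have h7 : c s.1.1.1 s.1.1.2 ≤ ∑ x ∈ KK d, c s.1.1.1 x :=
      single_le_sum (fun x _ => Nat.zero_le (c s.1.1.1 x)) h5.2
    omega
  have hcell : ∀ i, (cell i).1 + (cell i).2 ≤ d := by
    intro s
    have h5 := s.1.2
    rw [mem_product] at h5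
    exact mem_KK.1 h5.2
  have hmM : ∀ i, mult i ≤ M := fun s => (hA _ (hi s)).2.1
  refine limit_A _ (filter_subset _ _) mult cell hcell fun j hj => ?_
  have hlev : ((Sx (Z a b) d).filter fun α => α (Sum.inl o) + m₀ ≤ d).filter (fun α => yd α = j) =
      Bu a b d j o (d - m₀) := by
    unfold Bu Bx
    ext α
    simp only [mem_filter]
    constructor
    · rintro ⟨⟨h4, h5⟩, h6⟩
      exact ⟨⟨h4, h6⟩, by omega⟩
    · rintro ⟨⟨h4, h6⟩, h5⟩
      exact ⟨⟨h4, by omega⟩, h6⟩
  rw [hlev]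
  refine UCnt_drop _ _ ?_
  let ty : Unit ⊕ UCnt_I d c → Finset (ℕ × ℕ) :=
    Sum.elim (fun _ : Unit => (∅ : Finset (ℕ × ℕ))) fun i => Lam d (mult i) (cell i) j
  let cl : Unit ⊕ UCnt_I d c → ℕ := Sum.elim (fun _ => 0) fun i => cls d (mult i) (cell i) j
  show (ASys (Bu a b d j o (d - m₀))).gd ty = 0
  -- sizes
  have hle : ∀ i, wt a b d (mult i) (cell i) j ≤
      (ASys (Bu a b d j o (d - m₀))).size (Lam d (mult i) (cell i) j) := by
    intro i
    refine le_size_U (by omega) (by omega) hj o (d - m₀) _ fun g hg => ?_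
    have h5 := hmM i
    unfold Lam at hg
    rw [mem_filter] at hg
    exact ⟨hg.2.2.1, hg.2.1, by omega⟩
  have hsz : ∀ i t, cls d (mult i) (cell i) j ≤ t →
      (ASys (Bu a b d j o (d - m₀))).size (Lam d (mult i) (cell i) j) ≤ ell (a + b) t := by
    intro i t ht
    refine size_le_A (by omega) _ _ t fun g hg => ?_
    have h5 : g.1 + g.2 + 1 ≤ cls d (mult i) (cell i) j :=
      le_sup (f := fun g : ℕ × ℕ => g.1 + g.2 + 1) hg
    omega
  let B : Finset (ℕ × ℕ) := (range M ×ˢ range M).filter fun g => g.1 + g.2 < M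
  have hB : (ASys (Bu a b d j o (d - m₀))).size B ≤ ell (a + b) M := by
    refine size_le_A (by omega) _ _ M fun g hg => ?_
    exact (mem_filter.1 hg).2
  have hdom : ∀ i, (ASys (Bu a b d j o (d - m₀))).Dom B (ty i) := by
    rintro (i | i)
    · exact dom_A _ (empty_subset _)
    · refine dom_A _ fun g hg => ?_
      have h5 := hmM i
      have hg' : g ∈ Lam d (mult i) (cell i) j := hg
      unfold Lam at hg'
      rw [mem_filter] at hg'
      rw [mem_filter, mem_product, mem_range, mem_range]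
      omega
  -- sums
  have hsumF : ∀ F : ℕ → ℕ × ℕ → ℕ, (∑ s : UCnt_I d c, F (mult s) (cell s)) =
      ∑ m ∈ range (d + 1), ∑ x ∈ KK d, c m x * F m x := by
    intro F
    exact UCnt_sum d c F
  have hsumt : ∀ t, (∑ m ∈ range (d + 1), ∑ x ∈ KK d,
      if cls d m x j = t then c m x * wt a b d m x j else 0) ≤
      ∑ i ∈ univ.filter (fun i : Unit ⊕ UCnt_I d c => i ≠ Sum.inl () ∧ cl i = t),
        (ASys (Bu a b d j o (d - m₀))).size (ty i) := by
    intro t
    rw [sum_filter, Fintype.sum_sum_type]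
    have h5 := hsumF fun m x => if cls d m x j = t then wt a b d m x j else 0
    have h6 : (∑ m ∈ range (d + 1), ∑ x ∈ KK d,
        if cls d m x j = t then c m x * wt a b d m x j else 0) =
        ∑ m ∈ range (d + 1), ∑ x ∈ KK d, c m x * if cls d m x j = t then wt a b d m x j else 0 := by
      refine sum_congr rfl fun m _ => sum_congr rfl fun x _ => ?_
      split_ifs
      · rfl
      · rw [mul_zero]
    rw [h6, ← h5]
    refine le_trans (sum_le_sum fun s _ => ?_) (Nat.le_add_left _ _)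
    by_cases h7 : cls d (mult s) (cell s) j = t
    · rw [if_pos h7, if_pos ⟨Sum.inr_ne_inl, h7⟩]
      exact hle s
    · rw [if_neg h7]
      exact Nat.zero_le _
  refine level (ASys (Bu a b d j o (d - m₀))) (span_U ha (by omega) hj o (d - m₀))
    ty B hdom (Sum.inl ()) cl μ hμ
    (fun t => if t ≤ 1 then 0 else ell (a + b) t * ell (a + b) M)
    (ell (a + b) (d + 1 - M) * ell (a + b) M) (if_pos (by omega)) (if_pos (by omega))
    ?_ ?_ ?_ ?_ ?_
  · rintro (i | i) hne _
    · exact absurd rfl hne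
    · show ((ASys (Bu a b d j o (d - m₀))).size (Lam d (mult i) (cell i) j) - 1) *
        (ASys (Bu a b d j o (d - m₀))).size B ≤
        if cls d (mult i) (cell i) j ≤ 1 then 0
          else ell (a + b) (cls d (mult i) (cell i) j) * ell (a + b) M
      split_ifs with h5
      · have h6 := hsz i 1 h5
        rw [ell_one] at h6
        have h7 : (ASys (Bu a b d j o (d - m₀))).size (Lam d (mult i) (cell i) j) - 1 = 0 := by
          omega
        rw [h7, zero_mul]
      · exact Nat.mul_le_mul ((Nat.sub_le _ _).trans (hsz i _ le_rfl)) hB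
  · rintro (i | s) hne _
    · exact absurd rfl hne
    · have h5 := (hA _ (hi s)).2.2
      have h6 : cls d (mult s) (cell s) j ≤ d + 1 - M := by
        refine (cls_le _).trans ?_
        show s.1.1.1 ≤ d + 1 - M
        omega
      exact Nat.mul_le_mul ((Nat.sub_le _ _).trans (hsz _ _ h6)) hB
  · intro t ht1 htμ
    show (if t + 1 ≤ 1 then 0 else ell (a + b) (t + 1) * ell (a + b) M) ≤ _
    rw [if_neg (by omega)]
    exact (h2 j hj t ht1 htμ).trans (hsumt t)
  · exact (h3 j hj).trans (hsumt μ)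
  · rw [Fintype.card_coe, Fintype.sum_sum_type]
    have h5 := card_Bu_add (a := a) (by omega : 1 ≤ b) hj hm₀d o
    have h6 := h1 j hj
    have h7 : (Bu a b d j o (d - m₀)).card ≤
        ∑ m ∈ range (d + 1), ∑ x ∈ KK d, c m x * wt a b d m x j := by
      unfold Bu
      omega
    refine h7.trans (le_trans ?_ (Nat.le_add_left _ _))
    rw [← hsumF fun m x => wt a b d m x j]
    exact sum_le_sum fun s _ => hle s

end Pool.Agent.H51.TB

end

section

/-!
# Module U9 (TB2): the core theorem with one large point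

As `core` in `Pool/Agent/H51/TB/Core.lean` (delivered, complete; the proof can be adapted), with
`GM_of_counts_U` instead of `GM_of_counts`.  `μ` by pigeonhole (as in `NX/Final.lean`, `exists_count`):
`tot r S ≥ N - ell r m₀ ≥ N / 2` (`grow_one`, `m₀ ≤ d`), so for one of the at most `d` values
`μ ∈ [1, M]`, `S.count μ * ell r μ ≥ N / (2 (d + 1))`; `μ + M ≤ 2 M ≤ d`.  (`num` is stated for `m₀ ≤ d`.)
-/

namespace Pool.Agent.H51.TB

open Finset Pool.Agent.H18.Ex Pool.Agent.H21.NX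

private theorem UCore_ell_up (r c : ℕ) (hr : 1 ≤ r) : ell (r - 1) (c + 1) ≤ ell r (c + 1) := by
  obtain ⟨k, rfl⟩ : ∃ k, r = k + 1 := ⟨r - 1, by omega⟩
  rw [Nat.add_sub_cancel, ell_succ k c]
  exact Nat.le_add_left _ _

private theorem UCore_sum_replicate (d : ℕ) (T : Multiset ℕ) (hT : ∀ m ∈ T, m ≤ d) :
    ∑ m ∈ range (d + 1), Multiset.replicate (T.count m) m = T := by
  ext x
  rw [Multiset.count_sum']
  simp only [Multiset.count_replicate]
  by_cases hx : x ∈ T
  · have h1 : x ∈ range (d + 1) := mem_range.2 (Nat.lt_succ_of_le (hT x hx))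
    rw [Finset.sum_ite_eq' (range (d + 1)) x (fun m => T.count m), if_pos h1]
  · rw [Multiset.count_eq_zero_of_notMem hx]
    apply Finset.sum_eq_zero
    intro m _
    split_ifs with h
    · rw [h]
      exact Multiset.count_eq_zero_of_notMem hx
    · rfl

private theorem UCore_sum_tot (r d : ℕ) (T : Multiset ℕ) (hT : ∀ m ∈ T, m ≤ d) :
    ∑ m ∈ range (d + 1), T.count m * ell r m = (T.map (ell r)).sum := by
  rw [Finset.sum_multiset_map_count]
  symm
  have h1 : T.toFinset ⊆ range (d + 1) := by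
    intro x hx
    exact mem_range.2 (Nat.lt_succ_of_le (hT x (Multiset.mem_toFinset.1 hx)))
  refine (Finset.sum_subset h1 ?_).trans ?_
  · intro x _ hx
    rw [Multiset.mem_toFinset] at hx
    rw [Multiset.count_eq_zero_of_notMem hx, zero_smul]
  · exact Finset.sum_congr rfl fun m _ => smul_eq_mul _ _

private theorem UCore_pigeon (r d : ℕ) (S : Multiset ℕ) (hS : ∀ m ∈ S, m ≤ d) (N : ℕ)
    (hN : N ≤ 2 * (S.map (ell r)).sum) :
    ∃ μ, N ≤ 2 * (d + 1) * (S.count μ * ell r μ) := by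
  by_contra hcon
  push Not at hcon
  have h1 := UCore_sum_tot r d S hS
  have h2 : ∑ m ∈ range (d + 1), 2 * (d + 1) * (S.count m * ell r m) <
      ∑ _m ∈ range (d + 1), N :=
    Finset.sum_lt_sum_of_nonempty ⟨0, by simp⟩ fun m _ => hcon m
  rw [← Finset.mul_sum, h1, Finset.sum_const, card_range, smul_eq_mul] at h2
  have h3 : 2 * (d + 1) * (S.map (ell r)).sum = (d + 1) * (2 * (S.map (ell r)).sum) := by ring
  rw [h3] at h2
  have h4 := Nat.lt_of_mul_lt_mul_left h2
  omega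

theorem core_U (d : ℕ) : ∃ r₀ : ℕ, ∀ r : ℕ, r₀ ≤ r → ∀ (M m₀ : ℕ) (S : Multiset ℕ), 1 ≤ M →
    2 * M ≤ d → M + m₀ ≤ d + 1 → (∀ m ∈ S, 1 ≤ m ∧ m ≤ M) → ell r (d + 1) ≤ ell r m₀ + tot r S →
    GM (Sx (Fin (r + 1)) d) ((m₀ ::ₘ S).map Kind.free) := by
  set η : ℝ := 1 / (2 * ((d : ℝ) + 1)) with hηdef
  have hη : 0 < η := by positivity
  obtain ⟨n₁, h₁⟩ := num d (min η (1 / 2)) (lt_min hη (by norm_num))
  obtain ⟨n₂, h₂⟩ := grow_one d 2
  refine ⟨max n₁ (max n₂ 1), fun r hr M m₀ S hM1 h2M hm₀ hS' hN => ?_⟩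
  have hr1 : n₁ ≤ r + 1 := ((le_max_left _ _).trans hr).trans (Nat.le_succ r)
  have hr2 : n₂ ≤ r := ((le_max_left _ _).trans (le_max_right _ _)).trans hr
  have hr3 : 1 ≤ r := ((le_max_right _ _).trans (le_max_right _ _)).trans hr
  have hS : ∀ m ∈ S, 1 ≤ m ∧ m ≤ M ∧ m + M ≤ d + 1 := fun m hm => by
    have := hS' m hm
    exact ⟨this.1, this.2, by omega⟩
  have he : 2 * ell r m₀ ≤ ell r (d + 1) := by
    have h3 := h₂ r hr2 m₀ (by omega)
    have h4 : 2 * ell r m₀ ≤ ell (r - 1) (d + 1) := by exact_mod_cast h3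
    exact h4.trans (UCore_ell_up r d hr3)
  have hNpos : 1 ≤ ell r (d + 1) := ell_pos r (by omega)
  obtain ⟨μ, hpig⟩ := UCore_pigeon r d S (fun m hm => by have := hS m hm; omega) (ell r (d + 1))
    (by unfold tot at hN; omega)
  have hμS : μ ∈ S := by
    rw [← Multiset.count_ne_zero]
    intro h0
    rw [h0, Nat.zero_mul, Nat.mul_zero] at hpig
    omega
  have hμ : 1 ≤ μ := (hS μ hμS).1
  have hμM : μ ≤ M := (hS μ hμS).2.1
  have hM : μ + M ≤ d := by omega
  have hη' : η * (ell r (d + 1) : ℝ) ≤ ((S.count μ * ell r μ : ℕ) : ℝ) := by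
    have h3 : (ell r (d + 1) : ℝ) ≤ 2 * ((d : ℝ) + 1) * ((S.count μ * ell r μ : ℕ) : ℝ) := by
      exact_mod_cast hpig
    rw [hηdef, div_mul_eq_mul_div, one_mul, div_le_iff₀ (by positivity)]
    linarith
  obtain ⟨T, hTS, hT1, hT2, hT3⟩ := choose_part (ell r) (ell r d) (ell r (d + 1)) (ell r m₀) μ S
    (fun m hm => ell_mono r (by have := hS m hm; omega)) he hN
  have hTm : ∀ m ∈ T, 1 ≤ m ∧ m ≤ M ∧ m + M ≤ d + 1 := fun m hm => hS m (Multiset.mem_of_le hTS hm)
  have hTd : ∀ m ∈ T, m ≤ d := fun m hm => by have := hTm m hm; omega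
  have hsum := UCore_sum_tot r d T hTd
  obtain ⟨a, b, ha, hb, hab, hnum⟩ := h₁ (r + 1) hr1
  have habr : a + b - 1 = r := by omega
  rw [habr] at hnum
  have hA : ∀ m, T.count m ≠ 0 → 1 ≤ m ∧ m ≤ M ∧ m + M ≤ d + 1 := fun m hm =>
    hTm m (Multiset.count_ne_zero.1 hm)
  have hdom : min η (1 / 2) * (ell r (d + 1) : ℝ) ≤ ((T.count μ * ell r μ : ℕ) : ℝ) := by
    have h0 : (0 : ℝ) ≤ (ell r (d + 1) : ℝ) := Nat.cast_nonneg _
    rcases hT3 with h | h
    · rw [h]
      exact (mul_le_mul_of_nonneg_right (min_le_left _ _) h0).trans hη'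
    · have h5 : (ell r (d + 1) : ℝ) ≤ 2 * ((T.count μ * ell r μ : ℕ) : ℝ) := by exact_mod_cast h
      have h6 := mul_le_mul_of_nonneg_right (min_le_right η (1 / 2)) h0
      linarith
  obtain ⟨c, hc, k1, k2, k3⟩ := hnum M μ m₀ (fun m => T.count m) hμ hμM hM (by omega) hA
    (by rw [hsum]; exact hT1) (by rw [hsum]; exact hT2) hdom
  have hGM := GM_of_counts_U ha hb hμ hμM hM hm₀ (fun m => T.count m) hA c hc k1 k2 k3
  rw [UCore_sum_replicate d T hTd] at hGM
  have hGM2 := GM_equiv (finSumFinEquiv.trans (finCongr hab)) d (m₀ ::ₘ T) hGM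
  exact GM.mono (Multiset.map_le_map ((Multiset.cons_le_cons_iff m₀).2 hTS)) hGM2

end Pool.Agent.H51.TB

end
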