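import Pool.Agent.H94.LP2.H18.FatDefs
import Pool.Agent.H94.LP2.M01

/-! The parts of this file: H18.Ex.Ell, H18.Ex.Kill, H21.NX.Defs, H21.NX.GenA, H21.NX.GenB, H51.TB.Defs. -/

section

/-!
# Module Ell: elementary facts about `ell n m = binom(m + n - 1, n)`
-/

namespace Pool.Agent.H18.Ex

open Finset

theorem ell_zero {n : ℕ} (hn : 1 ≤ n) : ell n 0 = 0 := by
  unfold ell
  exact Nat.choose_eq_zero_of_lt (by omega)

theorem ell_one (n : ℕ) : ell n 1 = 1 := by
  unfold ell
  rw [show 1 + n - 1 = n by omega, Nat.choose_self]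

theorem ell_mono (n : ℕ) {m m' : ℕ} (h : m ≤ m') : ell n m ≤ ell n m' :=
  Nat.choose_le_choose n (by omega)

theorem ell_pos (n : ℕ) {m : ℕ} (h : 1 ≤ m) : 1 ≤ ell n m :=
  Nat.choose_pos (by omega)

/-- Pascal. -/
theorem ell_succ (n c : ℕ) : ell (n + 1) (c + 1) = ell (n + 1) c + ell n (c + 1) := by
  unfold ell
  rw [show c + 1 + (n + 1) - 1 = (c + n) + 1 by omega, show c + (n + 1) - 1 = c + n by omega,
    show c + 1 + n - 1 = c + n by omega, Nat.choose_succ_succ, add_comm]

/-- `M * ell n c ≤ (M - 1) * ell n (c + 1)` for `c + 1 ≤ M`, `n ≥ 1`: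
`(c + n) * ell n c = c * ell n (c + 1)`, so `ell n c ≤ c / (c + 1) * ell n (c + 1)`. -/
theorem ell_ratio {n c M : ℕ} (hn : 1 ≤ n) (hc : c + 1 ≤ M) :
    M * ell n c ≤ (M - 1) * ell n (c + 1) := by
  rcases Nat.eq_zero_or_pos c with h | h
  · subst h
    rw [ell_zero hn, mul_zero]
    exact Nat.zero_le _
  obtain ⟨K, rfl⟩ : ∃ K, M = K + 1 := ⟨M - 1, by omega⟩
  have key : ell n c * (c + n) = ell n (c + 1) * c := by
    unfold ell
    have := Nat.choose_mul_succ_eq (c + n - 1) n
    rw [show c + n - 1 + 1 = c + n by omega, show c + n - n = c by omega] at this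
    rw [show c + 1 + n - 1 = c + n by omega]
    exact this
  have h1 : 0 < c + n := by omega
  refine Nat.le_of_mul_le_mul_right ?_ h1
  rw [Nat.add_sub_cancel]
  calc (K + 1) * ell n c * (c + n) = (K + 1) * (ell n c * (c + n)) := by ring
    _ = ((K + 1) * c) * ell n (c + 1) := by rw [key]; ring
    _ ≤ (K * (c + n)) * ell n (c + 1) := by
        refine Nat.mul_le_mul_right _ ?_
        have : K * (c + 1) ≤ K * (c + n) := Nat.mul_le_mul_left _ (by omega)
        nlinarith
    _ = K * ell n (c + 1) * (c + n) := by ring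

/-- `ell (n + 1) c = (c + n) / (n + 1) * ell n c ≤ c * ell n c`. -/
theorem ell_le_mul (n c : ℕ) : ell (n + 1) c ≤ c * ell n c := by
  rcases Nat.eq_zero_or_pos c with h | h
  · subst h
    rw [ell_zero (by omega)]
    exact Nat.zero_le _
  have key : (c + n) * ell n c = ell (n + 1) c * (n + 1) := by
    unfold ell
    have := Nat.add_one_mul_choose_eq (c + n - 1) n
    rw [show c + n - 1 + 1 = c + n by omega] at this
    rw [show c + (n + 1) - 1 = c + n by omega]
    exact this
  refine Nat.le_of_mul_le_mul_right ?_ (Nat.succ_pos n)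
  rw [Nat.succ_eq_add_one, ← key]
  calc (c + n) * ell n c ≤ (c * (n + 1)) * ell n c := by
        refine Nat.mul_le_mul_right _ ?_
        nlinarith
    _ = c * ell n c * (n + 1) := by ring

end Pool.Agent.H18.Ex

end

section

/-!
# Module Kill: general simple points
-/

namespace Pool.Agent.H18.Ex

open Finset

variable {ι : Type} [Fintype ι] [DecidableEq ι]

omit [DecidableEq ι] in
theorem tcr_zero_right {R : Type*} [CommRing R] (q : ι → R) (a : ι → ℕ) :
    tcr q a 0 = ∏ i, q i ^ a i := by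
  unfold tcr
  refine Finset.prod_congr rfl fun i _ => ?_
  simp

/-- The evaluation functional at a point. -/
noncomputable def evl (A : Finset (ι → ℕ)) (q : ι → ℂ) : (A → ℂ) →ₗ[ℂ] ℂ :=
  ∑ a : A, (LinearMap.proj a : (A → ℂ) →ₗ[ℂ] ℂ).smulRight (tcr q a.1 0)

omit [DecidableEq ι] in
theorem evl_apply (A : Finset (ι → ℕ)) (q : ι → ℂ) (f : A → ℂ) :
    evl A q f = ∑ a : A, f a * tcr q a.1 0 := by
  unfold evl
  simp [LinearMap.sum_apply]

/-- A nonzero form does not vanish somewhere. -/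
theorem exists_evl_ne (A : Finset (ι → ℕ)) (f : A → ℂ) (hf : f ≠ 0) :
    ∃ q : ι → ℂ, evl A q f ≠ 0 := by
  by_contra hcon
  push Not at hcon
  apply hf
  set P : MvPolynomial ι ℂ :=
    ∑ a : A, MvPolynomial.monomial (Finsupp.equivFunOnFinite.symm a.1) (f a) with hP
  have h1 : P = 0 := by
    apply MvPolynomial.funext
    intro q
    rw [map_zero, ← hcon q, evl_apply, hP, map_sum]
    refine Finset.sum_congr rfl fun a _ => ?_
    rw [MvPolynomial.eval_monomial, tcr_zero_right, Finsupp.prod_fintype _ _ (fun i => by simp)]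
    rfl
  funext a
  have h2 : MvPolynomial.coeff (Finsupp.equivFunOnFinite.symm a.1) P = f a := by
    rw [hP, MvPolynomial.coeff_sum, Finset.sum_eq_single a]
    · rw [MvPolynomial.coeff_monomial, if_pos rfl]
    · intro b _ hb
      rw [MvPolynomial.coeff_monomial, if_neg]
      intro h
      exact hb (Subtype.ext (Finsupp.equivFunOnFinite.symm.injective h))
    · intro h
      exact absurd (Finset.mem_univ a) h
  rw [← h2, h1, MvPolynomial.coeff_zero]
  rfl

/-- `s` general points kill a space of forms of dimension at most `s`.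
Proof: induction on `s`.  If `W ≠ 0` take `f ≠ 0` in `W` and a point `q₀` with
`∑ a, f a * ∏ i, q₀ i ^ a i ≠ 0` (nonzero polynomials over `ℂ` have non-roots,
`MvPolynomial.funext`); the subspace `W ∩ {g | g (q₀) = 0}` has smaller dimension.  Note
`tcr q a 0 = ∏ i, q i ^ a i`. -/
theorem kill (A : Finset (ι → ℕ)) (s : ℕ) (W : Submodule ℂ (A → ℂ))
    (h : Module.finrank ℂ W ≤ s) :
    ∃ q : Fin s → ι → ℂ, ∀ f ∈ W, (∀ j, ∑ a : A, f a * tcr (q j) a.1 0 = 0) → f = 0 := by
  induction s generalizing W with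
  | zero =>
    refine ⟨fun _ _ => 0, fun f hf _ => ?_⟩
    have h1 : W = ⊥ := Submodule.finrank_eq_zero.1 (Nat.le_zero.1 h)
    rw [h1] at hf
    exact (Submodule.mem_bot ℂ).1 hf
  | succ s ih =>
    by_cases hW : W = ⊥
    · refine ⟨fun _ _ => 0, fun f hf _ => ?_⟩
      rw [hW] at hf
      exact (Submodule.mem_bot ℂ).1 hf
    · obtain ⟨f0, hf0, hf0n⟩ := Submodule.exists_mem_ne_zero_of_ne_bot hW
      obtain ⟨q0, hq0⟩ := exists_evl_ne A f0 hf0n
      have hlt : W ⊓ LinearMap.ker (evl A q0) < W := by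
        refine lt_of_le_of_ne inf_le_left fun heq => ?_
        have h1 : f0 ∈ W ⊓ LinearMap.ker (evl A q0) := by
          rw [heq]
          exact hf0
        exact hq0 (LinearMap.mem_ker.1 (Submodule.mem_inf.1 h1).2)
      have h2 := Submodule.finrank_lt_finrank_of_lt hlt
      obtain ⟨q, hq⟩ := ih (W ⊓ LinearMap.ker (evl A q0)) (by omega)
      refine ⟨Fin.cons q0 q, fun f hf hall => ?_⟩
      apply hq f
      · rw [Submodule.mem_inf, LinearMap.mem_ker, evl_apply]
        refine ⟨hf, ?_⟩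
        have h3 := hall 0
        rwa [Fin.cons_zero] at h3
      · intro j
        have h3 := hall j.succ
        rwa [Fin.cons_succ] at h3

/-- At least `|A|` free points (of multiplicity at least one) kill everything. -/
theorem GI.of_card {κ : Type} (A : Finset (ι → ℕ)) (k : κ → Kind ι) (e : Fin A.card ↪ κ)
    (he : ∀ j, ∃ m, 1 ≤ m ∧ k (e j) = Kind.free m) : GI A k := by
  obtain ⟨q, hq⟩ := kill A A.card ⊤ (by
    rw [finrank_top, Module.finrank_fintype_fun_eq_card, Fintype.card_coe])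
  refine ⟨Function.extend e q (fun _ _ => 0), fun f hf a ha => ?_⟩
  have h1 : (fun b : A => f b.1) = 0 := by
    apply hq _ Submodule.mem_top
    intro j
    obtain ⟨m, hm, hk⟩ := he j
    have h2 := hf (e j)
    rw [hk, e.injective.extend_apply] at h2
    have h3 := h2 0 (by
      change ∑ i, (0 : ι → ℕ) i < m
      have h4 : ∑ i, (0 : ι → ℕ) i = 0 := by simp
      omega)
    rw [← Finset.sum_coe_sort] at h3
    exact h3
  exact congrFun h1 ⟨a, ha⟩

end Pool.Agent.H18.Ex

end

section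

/-!
# Project NX: exactness in high dimension, definitions

`ell n m = binom(m + n - 1, n)` is the length of a point of multiplicity `m` in dimension `n`.
Forms of degree `σ` in `s + 2` variables (dimension `s + 1`): `ell (s + 1) (σ + 1)` exponents;
the exponents with `a l = 0` (dimension `s`): `ell s (σ + 1)`.
-/

namespace Pool.Agent.H21.NX

open Finset MvPolynomial Pool.Agent.H18.Fat

/-- All exponent vectors of degree `σ`. -/
def Sx (ι : Type) [Fintype ι] [DecidableEq ι] (σ : ℕ) : Finset (ι → ℕ) :=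
  (Fintype.piFinset fun _ => range (σ + 1)).filter fun a => ∑ i, a i = σ

theorem mem_Sx {ι : Type} [Fintype ι] [DecidableEq ι] {σ : ℕ} {a : ι → ℕ} :
    a ∈ Sx ι σ ↔ ∑ i, a i = σ := by
  unfold Sx
  rw [mem_filter, Fintype.mem_piFinset]
  constructor
  · exact fun h => h.2
  · intro h
    refine ⟨fun i => ?_, h⟩
    rw [mem_range, Nat.lt_succ_iff, ← h]
    exact single_le_sum (fun j _ => Nat.zero_le (a j)) (mem_univ i)

/-- General points, for a finite index type. -/
def Gen (r : ℕ) (κ : Type) (P : (κ → Fin (r + 1) → ℂ) → Prop) : Prop :=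
  ∃ G : MvPolynomial (κ × Fin (r + 1)) ℂ, G ≠ 0 ∧
    ∀ p : κ → Fin (r + 1) → ℂ, eval (fun x => p x.1 x.2) G ≠ 0 → P p

/-- The dimension of `V_d(Γ)` for general points. -/
noncomputable def gdim (r d : ℕ) {κ : Type} (m : κ → ℕ) : ℕ :=
  sInf (Set.range fun p : κ → Fin (r + 1) → ℂ => Module.finrank ℂ (fatForms r d p m))

/-- Validity of a multiset of forced conditions with multiplicities at most `B`. -/
def OKF (B : ℕ) (Φ : Multiset (ℕ × ℕ)) : Prop :=
  ∀ x ∈ Φ, 1 ≤ x.2 ∧ x.2 ≤ 2 ∧ x.2 ≤ x.1 ∧ x.1 ≤ B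

/-- The bound for the multiplicities on the hyperplane at stage `c`. -/
def Bc (M μ c : ℕ) : ℕ := max (M - μ + c) μ

end Pool.Agent.H21.NX

end

section

/-!
# Module GenA: general points for finite index types

`Gen` is the analogue of `ForGeneralPoints` (file `H18/FatToric`: `ForGeneralPoints.mono`, `.and`,
`.coord_ne_zero`) for an arbitrary index type.
-/

namespace Pool.Agent.H21.NX

open Finset MvPolynomial Pool.Agent.H18.Fat

theorem Gen.mono {r : ℕ} {κ : Type} {P Q : (κ → Fin (r + 1) → ℂ) → Prop}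
    (h : Gen r κ P) (hPQ : ∀ p, P p → Q p) : Gen r κ Q := by
  obtain ⟨G, hG, h⟩ := h
  exact ⟨G, hG, fun p hp => hPQ p (h p hp)⟩

theorem Gen.and {r : ℕ} {κ : Type} {P Q : (κ → Fin (r + 1) → ℂ) → Prop}
    (h : Gen r κ P) (h' : Gen r κ Q) : Gen r κ fun p => P p ∧ Q p := by
  obtain ⟨G, hG, h⟩ := h
  obtain ⟨G', hG', h'⟩ := h'
  refine ⟨G * G', mul_ne_zero hG hG', fun p hp => ?_⟩
  rw [map_mul] at hp
  exact ⟨h p (left_ne_zero_of_mul hp), h' p (right_ne_zero_of_mul hp)⟩

/-- A nonzero polynomial over `ℂ` has a non-root (`MvPolynomial.funext`). -/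
theorem Gen.exists {r : ℕ} {κ : Type} {P : (κ → Fin (r + 1) → ℂ) → Prop}
    (h : Gen r κ P) : ∃ p, P p := by
  obtain ⟨G, hG, h⟩ := h
  by_contra hcon
  push Not at hcon
  apply hG
  apply MvPolynomial.funext
  intro x
  rw [map_zero]
  by_contra hx
  exact hcon (fun i j => x (i, j)) (h (fun i j => x (i, j)) hx)

theorem Gen.all {r : ℕ} {κ α : Type} (s : Finset α) {P : α → (κ → Fin (r + 1) → ℂ) → Prop}
    (h : ∀ a ∈ s, Gen r κ (P a)) : Gen r κ fun p => ∀ a ∈ s, P a p := by
  classical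
  induction s using Finset.induction_on with
  | empty => exact ⟨1, one_ne_zero, fun p _ a ha => absurd ha (Finset.notMem_empty a)⟩
  | insert a s has ih =>
    have h1 := h a (Finset.mem_insert_self a s)
    have h2 := ih fun b hb => h b (Finset.mem_insert_of_mem hb)
    refine (h1.and h2).mono fun p hp b hb => ?_
    rcases Finset.mem_insert.mp hb with rfl | hb
    · exact hp.1
    · exact hp.2 b hb

/-- Use `MvPolynomial.rename` with the injective map `(i, j) ↦ (φ i, j)`. -/
theorem Gen.comap {r : ℕ} {κ κ' : Type} (φ : κ' → κ) (hφ : Function.Injective φ)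
    {P : (κ' → Fin (r + 1) → ℂ) → Prop} (h : Gen r κ' P) :
    Gen r κ fun p => P fun i => p (φ i) := by
  obtain ⟨G, hG, h⟩ := h
  have hinj : Function.Injective (fun x : κ' × Fin (r + 1) => (φ x.1, x.2)) := by
    intro x y hxy
    have h1 := congrArg Prod.fst hxy
    have h2 := congrArg Prod.snd hxy
    exact Prod.ext (hφ h1) h2
  refine ⟨rename (fun x : κ' × Fin (r + 1) => (φ x.1, x.2)) G, ?_, fun p hp => ?_⟩
  · intro h0
    apply hG
    apply rename_injective _ hinj
    rw [h0, map_zero]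
  · apply h
    rw [eval_rename] at hp
    exact hp

theorem Gen.coord_ne_zero (r : ℕ) (κ : Type) [Fintype κ] :
    Gen r κ fun p => ∀ i j, p i j ≠ 0 := by
  refine ⟨∏ x : κ × Fin (r + 1), X x, ?_, fun p hp i j => ?_⟩
  · rw [Finset.prod_ne_zero_iff]
    intro x _
    exact X_ne_zero x
  · rw [map_prod, Finset.prod_ne_zero_iff] at hp
    have := hp (i, j) (Finset.mem_univ _)
    rwa [eval_X] at this

end Pool.Agent.H21.NX

end

section

/-!
# Module GenB: the general dimension

Useful: `general_finrank_le`, `finrank_add_length_ge` (H18/FatToric), `finite_fat` (H21/HD/BridgeC),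
`Nat.sInf_mem`, `Nat.sInf_le`, `Submodule.finrank_mono`, `Submodule.finrank_sup_add_finrank_inf_eq`,
`finrank_homog'` (H21/HD/BridgeD).
-/

namespace Pool.Agent.H21.NX

open Finset MvPolynomial Pool.Agent.H18.Fat

namespace GenBX

theorem vanishes_anti {n : ℕ} {F : MvPolynomial (Fin n) ℂ} {q : Fin n → ℂ} {m m' : ℕ}
    (h : m ≤ m') (hF : VanishesToOrder F q m') : VanishesToOrder F q m :=
  fun β hβ => hF β (lt_of_lt_of_le hβ h)

/-- Fewer points. -/
theorem fat_comp_le {r d : ℕ} {ι ι' : Type*} (φ : ι' → ι) (p : ι → Fin (r + 1) → ℂ)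
    (m : ι → ℕ) : fatForms r d p m ≤ fatForms r d (fun i => p (φ i)) (fun i => m (φ i)) :=
  fun _ hF => ⟨hF.1, fun i => hF.2 (φ i)⟩

theorem fat_comp_equiv {r d : ℕ} {ι ι' : Type*} (e : ι' ≃ ι) (p : ι → Fin (r + 1) → ℂ)
    (m : ι → ℕ) : fatForms r d (fun i => p (e i)) (fun i => m (e i)) = fatForms r d p m := by
  apply le_antisymm
  · intro F hF
    refine ⟨hF.1, fun i => ?_⟩
    have := hF.2 (e.symm i)
    simpa using this
  · exact fat_comp_le e p m

theorem gdim_attained (r d : ℕ) {κ : Type} (m : κ → ℕ) :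
    ∃ p : κ → Fin (r + 1) → ℂ, Module.finrank ℂ (fatForms r d p m) = gdim r d m := by
  have h := Nat.sInf_mem (Set.range_nonempty
    fun p : κ → Fin (r + 1) → ℂ => Module.finrank ℂ (fatForms r d p m))
  obtain ⟨p, hp⟩ := h
  exact ⟨p, hp⟩

theorem eval_aeval' {σ τ : Type*} (a : τ → ℂ) (g : σ → MvPolynomial τ ℂ)
    (G : MvPolynomial σ ℂ) : eval a (aeval g G) = eval (fun x => eval a (g x)) G := by
  induction G using MvPolynomial.induction_on with
  | C c => simp
  | add p q hp hq => rw [map_add, map_add, map_add, hp, hq]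
  | mul_X p i hp => rw [map_mul, map_mul, map_mul, hp, aeval_X, eval_X]

end GenBX

open GenBX

theorem gdim_le (r d : ℕ) {κ : Type} (m : κ → ℕ) (p : κ → Fin (r + 1) → ℂ) :
    gdim r d m ≤ Module.finrank ℂ (fatForms r d p m) :=
  Nat.sInf_le ⟨p, rfl⟩

theorem gdim_comp_equiv (r d : ℕ) {κ κ' : Type} (e : κ' ≃ κ) (m : κ → ℕ) :
    gdim r d (fun i => m (e i)) = gdim r d m := by
  apply le_antisymm
  · obtain ⟨p₀, hp₀⟩ := gdim_attained r d m
    rw [← hp₀, ← fat_comp_equiv e p₀ m]
    exact gdim_le _ _ _ _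
  · obtain ⟨p₀, hp₀⟩ := gdim_attained r d (fun i => m (e i))
    rw [← hp₀, ← fat_comp_equiv e.symm p₀ (fun i => m (e i))]
    have : (fun i => m (e (e.symm i))) = m := by
      funext i
      rw [e.apply_symm_apply]
    rw [this]
    exact gdim_le _ _ _ _

end Pool.Agent.H21.NX

end

section

/-!
# Project TB: definitions

The variables are `Z a b = Fin a ⊕ Fin b` (`X`-variables and `Y`-variables).  The level `j` consists
of the exponents of degree `d` and of degree `j` in the `Y`-variables.  A *type* on a level is a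
finite set `Λ` of bidegrees `g = (gx, gy)`: all (Hasse) derivatives of these bidegrees vanish at the
point.  A *cell* is a pair `c = (u, ρ)` with `u + ρ ≤ d`; it orders the levels `0, …, d` by the ranks
`rk (d + 1) u ρ` (`Pool/Agent/H18/Ta/Defs.lean`): `u+1, …, u+ρ, u, u+ρ+1, …, d, u-1, …, 0`.
-/

namespace Pool.Agent.H51.TB

open Finset MvPolynomial Pool.Agent.H18.Ex Pool.Agent.H21.NX Pool.Agent.H18.Ta

/-- The variables. -/
abbrev Z (a b : ℕ) : Type := Fin a ⊕ Fin b

/-- The degree in the `X`-variables. -/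
def xd {a b : ℕ} (α : Z a b → ℕ) : ℕ := ∑ i, α (Sum.inl i)

/-- The degree in the `Y`-variables. -/
def yd {a b : ℕ} (α : Z a b → ℕ) : ℕ := ∑ i, α (Sum.inr i)

/-- The exponents of the level `j`. -/
def Bx (a b d j : ℕ) : Finset (Z a b → ℕ) := (Sx (Z a b) d).filter fun α => yd α = j

theorem mem_Bx {a b d j : ℕ} {α : Z a b → ℕ} : α ∈ Bx a b d j ↔ xd α + yd α = d ∧ yd α = j := by
  unfold Bx xd yd
  rw [mem_filter, mem_Sx, Fintype.sum_sum_type]

theorem finite_idx (a b : ℕ) (Λ : Finset (ℕ × ℕ)) :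
    Finite {β : Z a b → ℕ // (xd β, yd β) ∈ Λ} := by
  obtain ⟨N, hN⟩ : ∃ N : ℕ, ∀ g ∈ Λ, g.1 + g.2 ≤ N :=
    ⟨Λ.sup fun g => g.1 + g.2, fun g hg => Finset.le_sup (f := fun g : ℕ × ℕ => g.1 + g.2) hg⟩
  have h : {f : Z a b → ℕ | ∀ i, f i ∈ Set.Iic N}.Finite :=
    Set.Finite.pi' fun _ => Set.finite_Iic N
  refine Set.Finite.to_subtype (Set.Finite.subset h ?_)
  intro β hβ i
  have h1 : xd β + yd β ≤ N := hN (xd β, yd β) hβ
  have h2 : ∑ i, β i = xd β + yd β := by
    unfold xd yd
    exact Fintype.sum_sum_type β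
  have h3 : β i ≤ ∑ i, β i := single_le_sum (fun j _ => Nat.zero_le (β j)) (mem_univ i)
  show β i ≤ N
  omega

/-- The system of the level `j`. -/
noncomputable def LSys (a b d j : ℕ) : Sys {α // α ∈ Bx a b d j} (Z a b) (Finset (ℕ × ℕ)) where
  R := fun Λ => {β : Z a b → ℕ // (xd β, yd β) ∈ Λ}
  fin := finite_idx a b
  co := fun _ β α => tcr (fun i => (X i : MvPolynomial (Z a b) ℂ)) α.1 β.1

/-- The number of levels of the window `[gy, d - gx]` of smaller rank. -/
def wr (d : ℕ) (c g : ℕ × ℕ) (j : ℕ) : ℕ :=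
  ((range (d + 1)).filter fun i => g.2 ≤ i ∧ i + g.1 ≤ d ∧
    rk (d + 1) c.1 c.2 i < rk (d + 1) c.1 c.2 j).card

/-- The type of a point of multiplicity `m` in the cell `c` on the level `j`. -/
def Lam (d m : ℕ) (c : ℕ × ℕ) (j : ℕ) : Finset (ℕ × ℕ) :=
  (range m ×ˢ range m).filter fun g => g.2 ≤ j ∧ j + g.1 ≤ d ∧ g.1 + g.2 + wr d c g j < m

/-- The number of new derivatives of bidegree `g`. -/
def Eg (a b : ℕ) (g : ℕ × ℕ) : ℕ := Nat.multichoose (a - 1) g.1 * Nat.multichoose (b - 1) g.2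

/-- The number of conditions on the level `j`. -/
def wt (a b d m : ℕ) (c : ℕ × ℕ) (j : ℕ) : ℕ := ∑ g ∈ Lam d m c j, Eg a b g

/-- The size class on the level `j`. -/
def cls (d m : ℕ) (c : ℕ × ℕ) (j : ℕ) : ℕ := (Lam d m c j).sup fun g => g.1 + g.2 + 1

/-- The dimension of the level `j`. -/
def bet (a b d j : ℕ) : ℕ := Nat.multichoose a (d - j) * Nat.multichoose b j

/-- The number of conditions moved from the level `s` to the level `s + ρ + 1` when a point of
multiplicity `m` is moved from the cell `(s, ρ)` to the cell `(s, ρ + 1)`. -/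
def Mv (a b d m s ρ : ℕ) : ℕ :=
  ∑ g ∈ (range m ×ˢ range m).filter fun g : ℕ × ℕ =>
    g.1 + g.2 + ρ + 1 = m ∧ g.2 ≤ s ∧ g.1 + s + ρ + 1 ≤ d, Eg a b g

/-- The number of conditions on the levels `0, …, j`. -/
def Pre (a b d m : ℕ) (c : ℕ × ℕ) (j : ℕ) : ℕ := ∑ i ∈ range (j + 1), wt a b d m c i

/-- The cells. -/
def KK (d : ℕ) : Finset (ℕ × ℕ) := (range (d + 1) ×ˢ range (d + 1)).filter fun c => c.1 + c.2 ≤ d

theorem mem_KK {d : ℕ} {c : ℕ × ℕ} : c ∈ KK d ↔ c.1 + c.2 ≤ d := by
  unfold KK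
  rw [mem_filter, mem_product, mem_range, mem_range]
  omega

/-- The level at which the largest part of the conditions of a point in the cell `c` is placed. -/
def st (c : ℕ × ℕ) : ℕ := if c.2 = 0 then c.1 else c.1 + 1

/-- The distribution function of the binomial distribution. -/
noncomputable def Phi (d j : ℕ) : ℝ := (∑ i ∈ range (j + 1), (d.choose i : ℝ)) / 2 ^ d

/-- The distribution function of the leading part of the conditions of a point of multiplicity `m`
in a cell with `st c = s`. -/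
noncomputable def Gl (d m s j : ℕ) : ℝ :=
  (∑ i ∈ range m, if i ≤ j ∧ (s ≤ j ∨ i + (d + 1) ≤ j + m) then ((m - 1).choose i : ℝ) else 0) /
    2 ^ (m - 1)

end Pool.Agent.H51.TB

end
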