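import Pool.Agent.H94.LP2.M08
import Pool.Agent.H94.LP2.M09
import Pool.Agent.H94.LP2.M10
import Pool.Agent.H94.LP2.M11

/-! The parts of this file: H21.NX.NumB, H51.TB.ULim. -/

section

/-!
# Module NumB: the numerical conditions hold for large `s`

Everything follows from the bounds of NumA by comparing exponents of `s`: with `U = 2 ^ (d + 1)`,
`V = (d + 1) ^ (d + 1)` and `d + 1 ≤ s` we have `ell s c ≤ U * s ^ (c - 1)` and
`s ^ (c - 1) ≤ V * ell s c` for `1 ≤ c ≤ d + 1` (and the same for `s + 1`).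
Exponents, with `B = Bc M μ c = max (M - μ + c) μ`:
* `nc`: left `(c - 1) + (B - 1) + (μ - 1)` and `2 (μ - 1)`, right `d - μ + c - 1`, strictly larger
  because `2 μ + M ≤ d + 1` and `2 ≤ c ≤ μ ≤ M`: gain a factor `s`;
* `q`: left `2 (B - 1)`, right `(d - μ) + (c - 1)`, at least as large because `2 M ≤ d + 1`,
  `3 μ ≤ d + 1`: use that `K` is large;
* `f1`: left `d - μ`, `M - 1`, `2 (B - 1)` with `c = 1`, right `d - μ` (`K` large);
* `f2`: left `(μ - 1) + (d + 1 - 2 μ)`, right `d - μ + 1`: gain a factor `s`;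
* `e2`: left `(d - μ) + (μ - 1)`, `(μ - 1) + (M - 1)`, `d - 1`, `M - 1`, right `(d - μ) + (μ - 1)`:
  `K0` large compared with `K`;
* `e3`: left `(d - μ) + (μ - 1) = d - 1`, right `d`: gain a factor `s`;
* `e4`: left `2 (M - 1)`, right `d - 1` (`K0` large).
-/

namespace Pool.Agent.H21.NX

open Pool.Agent.H18.Ex

namespace NumBX

/-- upper constant -/
def U (d : ℕ) : ℕ := 2 ^ (d + 1)

/-- lower constant -/
def V (d : ℕ) : ℕ := (d + 1) ^ (d + 1)

theorem U_pos (d : ℕ) : 1 ≤ U d := Nat.one_le_two_pow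

theorem V_pos (d : ℕ) : 1 ≤ V d := Nat.one_le_pow _ _ (by omega)

theorem up (d s c : ℕ) (hc : 1 ≤ c) (hcd : c ≤ d + 1) (hs : d + 1 ≤ s) :
    ell s c ≤ U d * s ^ (c - 1) := by
  refine (ell_le_pow s c hc (by omega)).trans ?_
  rw [mul_pow]
  exact Nat.mul_le_mul_right _ (Nat.pow_le_pow_right (by norm_num) (by omega))

theorem up' (d s c : ℕ) (hc : 1 ≤ c) (hcd : c ≤ d + 1) (hs : d + 1 ≤ s) :
    ell (s + 1) c ≤ U d * s ^ (c - 1) := by
  refine (ell_succ_le_pow s c hc (by omega)).trans ?_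
  rw [mul_pow]
  exact Nat.mul_le_mul_right _ (Nat.pow_le_pow_right (by norm_num) (by omega))

theorem cc_le (d c : ℕ) (hcd : c ≤ d + 1) : c ^ c ≤ V d :=
  (Nat.pow_le_pow_left hcd c).trans (Nat.pow_le_pow_right (by omega) hcd)

theorem lo (d s c : ℕ) (hc : 1 ≤ c) (hcd : c ≤ d + 1) : s ^ (c - 1) ≤ V d * ell s c :=
  (pow_le_ell s c hc).trans (Nat.mul_le_mul_right _ (cc_le d c hcd))

theorem lo' (d s c : ℕ) (hc : 1 ≤ c) (hcd : c ≤ d + 1) : s ^ (c - 1) ≤ V d * ell (s + 1) c :=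
  (pow_le_ell_succ s c hc).trans (Nat.mul_le_mul_right _ (cc_le d c hcd))

theorem Bc_le {M μ c : ℕ} (hμM : μ ≤ M) (hc : c ≤ μ) : Bc M μ c ≤ M := by
  unfold Bc; exact max_le (by omega) hμM

theorem Bc_ge {M μ c : ℕ} : μ ≤ Bc M μ c := by
  unfold Bc; exact le_max_right _ _

/-- `2 (B - 1) ≤ (d - μ) + (c - 1)` -/
theorem Bc_exp {d M μ c : ℕ} (hμ : 1 ≤ μ) (hμM : μ ≤ M) (hM : 2 * M ≤ d + 1)
    (h : 2 * μ + M ≤ d + 1) (h1 : 1 ≤ c) (hc : c ≤ μ) :
    2 * (Bc M μ c - 1) ≤ (d - μ) + (c - 1) := by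
  unfold Bc
  rcases max_cases (M - μ + c) μ with ⟨h', _⟩ | ⟨h', _⟩ <;> rw [h'] <;> omega

end NumBX

open NumBX

theorem num_e1 (d : ℕ) : ∃ K1 : ℕ, ∀ K, K1 ≤ K → ∃ s0 : ℕ, ∀ s, s0 ≤ s → ∀ μ M : ℕ, 2 ≤ μ →
    μ ≤ M → 2 * M ≤ d + 1 → 2 * μ + M ≤ d + 1 → Num d s μ M (K * s ^ (d - μ)) := by
  refine ⟨3 * U d ^ 2 * V d, fun K hK => ⟨d + 1 + 8 * (d + 1) * U d ^ 3 * V d,
    fun s hs μ M hμ hμM hM h => ?_⟩⟩
  have hds : d + 1 ≤ s := by omega
  have hs1 : 1 ≤ s := by omega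
  have hbig : 8 * (d + 1) * U d ^ 3 * V d ≤ s := by omega
  have hV := V_pos d
  have hU := U_pos d
  refine ⟨hμ, hμM, h, hds, fun c hc2 hcμ => ?_, fun c hc1 hcμ => ?_, ?_, ?_⟩
  · -- nc
    have hB := Bc_le hμM hcμ
    have hB' : μ ≤ Bc M μ c := Bc_ge
    set B := Bc M μ c with hBdef
    have u1 := up d s c (by omega) (by omega) hds
    have u2 := up d s B (by omega) (by omega) hds
    have u3 := up d s μ (by omega) (by omega) hds
    have l1 := lo d s (d - μ + c) (by omega) (by omega)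
    set e := d - μ + c - 1 with he
    obtain ⟨f, hf⟩ : ∃ f, e = f + 1 := ⟨e - 1, by omega⟩
    have hpow1 : s ^ (c - 1) * s ^ (B - 1) * s ^ (μ - 1) ≤ s ^ f := by
      rw [← pow_add, ← pow_add]; exact Nat.pow_le_pow_right hs1 (by omega)
    have hpow2 : s ^ (μ - 1) * s ^ (μ - 1) ≤ s ^ f := by
      rw [← pow_add]; exact Nat.pow_le_pow_right hs1 (by omega)
    have hU23 : U d ^ 2 ≤ U d ^ 3 := Nat.pow_le_pow_right hU (by norm_num)
    have hL : (ell s c * ell s B + ell s μ) * ell s μ ≤ 2 * (U d ^ 3 * s ^ f) := by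
      calc (ell s c * ell s B + ell s μ) * ell s μ
          ≤ ((U d * s ^ (c - 1)) * (U d * s ^ (B - 1)) + U d * s ^ (μ - 1)) *
              (U d * s ^ (μ - 1)) :=
            Nat.mul_le_mul (Nat.add_le_add (Nat.mul_le_mul u1 u2) u3) u3
        _ = U d ^ 3 * (s ^ (c - 1) * s ^ (B - 1) * s ^ (μ - 1)) +
              U d ^ 2 * (s ^ (μ - 1) * s ^ (μ - 1)) := by ring
        _ ≤ U d ^ 3 * s ^ f + U d ^ 3 * s ^ f :=
            Nat.add_le_add (Nat.mul_le_mul_left _ hpow1) (Nat.mul_le_mul hU23 hpow2)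
        _ = 2 * (U d ^ 3 * s ^ f) := by ring
    refine le_of_mul_le_mul_left ?_ (show 0 < V d from hV)
    calc V d * (4 * (d + 1) * (ell s c * ell s B + ell s μ) * ell s μ)
        = V d * (4 * (d + 1)) * ((ell s c * ell s B + ell s μ) * ell s μ) := by ring
      _ ≤ V d * (4 * (d + 1)) * (2 * (U d ^ 3 * s ^ f)) := Nat.mul_le_mul_left _ hL
      _ = (8 * (d + 1) * U d ^ 3 * V d) * s ^ f := by ring
      _ ≤ s * s ^ f := Nat.mul_le_mul_right _ hbig
      _ = s ^ e := by rw [hf, pow_succ]; ring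
      _ ≤ V d * ell s (d - μ + c) := l1
  · -- q
    have hB := Bc_le hμM hcμ
    have hB' : μ ≤ Bc M μ c := Bc_ge
    have hexp := Bc_exp (by omega) hμM hM h hc1 hcμ
    set B := Bc M μ c with hBdef
    have u2 := up d s B (by omega) (by omega) hds
    have l1 := lo d s c hc1 (by omega)
    have hK' : U d ^ 2 * V d ≤ K := by nlinarith only [hK, Nat.zero_le (U d ^ 2 * V d)]
    calc ell s B ^ 2 ≤ (U d * s ^ (B - 1)) ^ 2 := Nat.pow_le_pow_left u2 2
      _ = U d ^ 2 * s ^ (2 * (B - 1)) := by rw [mul_pow, ← pow_mul, mul_comm 2 (B - 1)]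
      _ ≤ U d ^ 2 * s ^ ((d - μ) + (c - 1)) :=
          Nat.mul_le_mul_left _ (Nat.pow_le_pow_right hs1 hexp)
      _ = U d ^ 2 * s ^ (d - μ) * s ^ (c - 1) := by rw [pow_add]; ring
      _ ≤ U d ^ 2 * s ^ (d - μ) * (V d * ell s c) := Nat.mul_le_mul_left _ l1
      _ = (U d ^ 2 * V d) * s ^ (d - μ) * ell s c := by ring
      _ ≤ K * s ^ (d - μ) * ell s c :=
          Nat.mul_le_mul_right _ (Nat.mul_le_mul_right _ hK')
  · -- f1
    have hB := Bc_le (c := 1) hμM (by omega)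
    have hB' : μ ≤ Bc M μ 1 := Bc_ge
    have hexp := Bc_exp (c := 1) (by omega) hμM hM h le_rfl (by omega)
    set B := Bc M μ 1 with hBdef
    have u1 := up' d s (d - μ + 1) (by omega) (by omega) hds
    have u2 := up' d s M (by omega) (by omega) hds
    have u3 := up d s B (by omega) (by omega) hds
    have hU12 : U d ≤ U d ^ 2 := by nlinarith only [hU]
    have hp1 : U d * s ^ (d - μ + 1 - 1) ≤ U d ^ 2 * s ^ (d - μ) :=
      Nat.mul_le_mul hU12 (Nat.pow_le_pow_right hs1 (by omega))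
    have hp2 : U d * s ^ (M - 1) ≤ U d ^ 2 * s ^ (d - μ) :=
      Nat.mul_le_mul hU12 (Nat.pow_le_pow_right hs1 (by omega))
    have hp3 : ell s B ^ 2 ≤ U d ^ 2 * s ^ (d - μ) := by
      calc ell s B ^ 2 ≤ (U d * s ^ (B - 1)) ^ 2 := Nat.pow_le_pow_left u3 2
        _ = U d ^ 2 * s ^ (2 * (B - 1)) := by rw [mul_pow, ← pow_mul, mul_comm 2 (B - 1)]
        _ ≤ U d ^ 2 * s ^ (d - μ) :=
            Nat.mul_le_mul_left _ (Nat.pow_le_pow_right hs1 (by omega))
    have hK' : 3 * U d ^ 2 ≤ K := by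
      calc 3 * U d ^ 2 = 3 * U d ^ 2 * 1 := by ring
        _ ≤ 3 * U d ^ 2 * V d := Nat.mul_le_mul_left _ hV
        _ ≤ K := hK
    calc ell (s + 1) (d - μ + 1) + ell (s + 1) M + ell s B ^ 2
        ≤ U d ^ 2 * s ^ (d - μ) + U d ^ 2 * s ^ (d - μ) + U d ^ 2 * s ^ (d - μ) :=
          Nat.add_le_add (Nat.add_le_add (u1.trans hp1) (u2.trans hp2)) hp3
      _ = (3 * U d ^ 2) * s ^ (d - μ) := by ring
      _ ≤ K * s ^ (d - μ) := Nat.mul_le_mul_right _ hK'
  · -- f2
    have u1 := up' d s μ (by omega) (by omega) hds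
    have u2 := up' d s (d + 2 - 2 * μ) (by omega) (by omega) hds
    have l1 := lo d s (d - μ + 2) (by omega) (by omega)
    have hpow : s ^ (μ - 1) * s ^ (d + 2 - 2 * μ - 1) ≤ s ^ (d - μ) := by
      rw [← pow_add]; exact Nat.pow_le_pow_right hs1 (by omega)
    have hU23 : U d ^ 2 ≤ U d ^ 3 := Nat.pow_le_pow_right hU (by norm_num)
    refine le_of_mul_le_mul_left ?_ (show 0 < V d from hV)
    calc V d * (8 * (d + 1) * ell (s + 1) μ * ell (s + 1) (d + 2 - 2 * μ))
        = V d * (8 * (d + 1)) * (ell (s + 1) μ * ell (s + 1) (d + 2 - 2 * μ)) := by ring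
      _ ≤ V d * (8 * (d + 1)) * ((U d * s ^ (μ - 1)) * (U d * s ^ (d + 2 - 2 * μ - 1))) :=
          Nat.mul_le_mul_left _ (Nat.mul_le_mul u1 u2)
      _ = V d * (8 * (d + 1)) * (U d ^ 2 * (s ^ (μ - 1) * s ^ (d + 2 - 2 * μ - 1))) := by ring
      _ ≤ V d * (8 * (d + 1)) * (U d ^ 3 * s ^ (d - μ)) :=
          Nat.mul_le_mul_left _ (Nat.mul_le_mul hU23 hpow)
      _ = (8 * (d + 1) * U d ^ 3 * V d) * s ^ (d - μ) := by ring
      _ ≤ s * s ^ (d - μ) := Nat.mul_le_mul_right _ hbig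
      _ = s ^ (d - μ + 2 - 1) := by
          rw [show d - μ + 2 - 1 = (d - μ) + 1 by omega, pow_succ]; ring
      _ ≤ V d * ell s (d - μ + 2) := l1

theorem num_e2 (d K : ℕ) : ∃ K0 : ℕ, ∀ K', K0 ≤ K' → ∃ s0 : ℕ, ∀ s, s0 ≤ s → ∀ μ M : ℕ, 1 ≤ μ →
    μ ≤ M → 2 * M ≤ d + 1 → 2 * μ + M ≤ d + 1 →
    (K * s ^ (d - μ) + 1) * ell s μ + ell s μ * ell s M + ell (s + 1) d + ell (s + 1) M ≤
      K' * s ^ (d - μ) * ell (s + 1) μ := by
  refine ⟨(K * U d + 4 * U d ^ 2) * V d, fun K' hK' => ⟨d + 1, fun s hds μ M hμ hμM hM h => ?_⟩⟩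
  have hs1 : 1 ≤ s := by omega
  have hU := U_pos d
  have hU12 : U d ≤ U d ^ 2 := by nlinarith only [hU]
  have u1 := up d s μ (by omega) (by omega) hds
  have u2 := up d s M (by omega) (by omega) hds
  have u3 := up' d s d (by omega) (by omega) hds
  have u4 := up' d s M (by omega) (by omega) hds
  have l1 := lo' d s μ hμ (by omega)
  have t1 : (K * s ^ (d - μ) + 1) * ell s μ ≤ (K * U d + U d ^ 2) * s ^ (d - 1) := by
    calc (K * s ^ (d - μ) + 1) * ell s μ ≤ (K * s ^ (d - μ) + 1) * (U d * s ^ (μ - 1)) :=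
          Nat.mul_le_mul_left _ u1
      _ = K * U d * (s ^ (d - μ) * s ^ (μ - 1)) + U d * s ^ (μ - 1) := by ring
      _ ≤ K * U d * s ^ (d - 1) + U d ^ 2 * s ^ (d - 1) := by
          refine Nat.add_le_add (Nat.mul_le_mul_left _ ?_)
            (Nat.mul_le_mul hU12 (Nat.pow_le_pow_right hs1 (by omega)))
          rw [← pow_add]; exact Nat.pow_le_pow_right hs1 (by omega)
      _ = (K * U d + U d ^ 2) * s ^ (d - 1) := by ring
  have t2 : ell s μ * ell s M ≤ U d ^ 2 * s ^ (d - 1) := by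
    calc ell s μ * ell s M ≤ (U d * s ^ (μ - 1)) * (U d * s ^ (M - 1)) := Nat.mul_le_mul u1 u2
      _ = U d ^ 2 * (s ^ (μ - 1) * s ^ (M - 1)) := by ring
      _ ≤ U d ^ 2 * s ^ (d - 1) := by
          refine Nat.mul_le_mul_left _ ?_
          rw [← pow_add]; exact Nat.pow_le_pow_right hs1 (by omega)
  have t3 : ell (s + 1) d ≤ U d ^ 2 * s ^ (d - 1) :=
    u3.trans (Nat.mul_le_mul_right _ hU12)
  have t4 : ell (s + 1) M ≤ U d ^ 2 * s ^ (d - 1) :=
    u4.trans (Nat.mul_le_mul hU12 (Nat.pow_le_pow_right hs1 (by omega)))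
  calc (K * s ^ (d - μ) + 1) * ell s μ + ell s μ * ell s M + ell (s + 1) d + ell (s + 1) M
      ≤ (K * U d + U d ^ 2) * s ^ (d - 1) + U d ^ 2 * s ^ (d - 1) + U d ^ 2 * s ^ (d - 1) +
          U d ^ 2 * s ^ (d - 1) :=
        Nat.add_le_add (Nat.add_le_add (Nat.add_le_add t1 t2) t3) t4
    _ = (K * U d + 4 * U d ^ 2) * s ^ (d - 1) := by ring
    _ = (K * U d + 4 * U d ^ 2) * (s ^ (d - μ) * s ^ (μ - 1)) := by
        rw [← pow_add, show d - μ + (μ - 1) = d - 1 by omega]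
    _ ≤ (K * U d + 4 * U d ^ 2) * (s ^ (d - μ) * (V d * ell (s + 1) μ)) :=
        Nat.mul_le_mul_left _ (Nat.mul_le_mul_left _ l1)
    _ = ((K * U d + 4 * U d ^ 2) * V d) * s ^ (d - μ) * ell (s + 1) μ := by ring
    _ ≤ K' * s ^ (d - μ) * ell (s + 1) μ :=
        Nat.mul_le_mul_right _ (Nat.mul_le_mul_right _ hK')

theorem num_e3 (d K' : ℕ) : ∃ s0 : ℕ, ∀ s, s0 ≤ s → ∀ μ : ℕ, 1 ≤ μ → μ ≤ d →
    (d + 1) * (K' * s ^ (d - μ) * ell (s + 1) μ) ≤ ell (s + 1) (d + 1) := by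
  refine ⟨d + 1 + (d + 1) * K' * U d * V d, fun s hs μ hμ hμd => ?_⟩
  have hds : d + 1 ≤ s := by omega
  have hs1 : 1 ≤ s := by omega
  have hbig : (d + 1) * K' * U d * V d ≤ s := by omega
  have hV := V_pos d
  have u1 := up' d s μ hμ (by omega) hds
  have l1 := lo' d s (d + 1) (by omega) (by omega)
  refine le_of_mul_le_mul_left ?_ (show 0 < V d from hV)
  calc V d * ((d + 1) * (K' * s ^ (d - μ) * ell (s + 1) μ))
      ≤ V d * ((d + 1) * (K' * s ^ (d - μ) * (U d * s ^ (μ - 1)))) :=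
        Nat.mul_le_mul_left _ (Nat.mul_le_mul_left _ (Nat.mul_le_mul_left _ u1))
    _ = ((d + 1) * K' * U d * V d) * (s ^ (d - μ) * s ^ (μ - 1)) := by ring
    _ = ((d + 1) * K' * U d * V d) * s ^ (d - 1) := by
        rw [← pow_add, show d - μ + (μ - 1) = d - 1 by omega]
    _ ≤ s * s ^ (d - 1) := Nat.mul_le_mul_right _ hbig
    _ = s ^ (d + 1 - 1) := by
        rw [mul_comm, ← pow_succ, show d - 1 + 1 = d + 1 - 1 by omega]
    _ ≤ V d * ell (s + 1) (d + 1) := l1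

theorem num_e4 (d : ℕ) : ∃ K0 : ℕ, ∀ K', K0 ≤ K' → ∃ s0 : ℕ, ∀ s, s0 ≤ s → ∀ M : ℕ,
    2 * M ≤ d + 1 → 1 ≤ M →
    ell (s + 1) M + ell (s + 1) M ^ 2 ≤ K' * s ^ (d - 1) := by
  refine ⟨2 * U d ^ 2, fun K' hK' => ⟨d + 1, fun s hds M hM hM1 => ?_⟩⟩
  have hs1 : 1 ≤ s := by omega
  have hU := U_pos d
  have hU12 : U d ≤ U d ^ 2 := by nlinarith only [hU]
  have u1 := up' d s M hM1 (by omega) hds
  have t1 : ell (s + 1) M ≤ U d ^ 2 * s ^ (d - 1) :=
    u1.trans (Nat.mul_le_mul hU12 (Nat.pow_le_pow_right hs1 (by omega)))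
  have t2 : ell (s + 1) M ^ 2 ≤ U d ^ 2 * s ^ (d - 1) := by
    calc ell (s + 1) M ^ 2 ≤ (U d * s ^ (M - 1)) ^ 2 := Nat.pow_le_pow_left u1 2
      _ = U d ^ 2 * s ^ (2 * (M - 1)) := by rw [mul_pow, ← pow_mul, mul_comm 2 (M - 1)]
      _ ≤ U d ^ 2 * s ^ (d - 1) :=
          Nat.mul_le_mul_left _ (Nat.pow_le_pow_right hs1 (by omega))
  calc ell (s + 1) M + ell (s + 1) M ^ 2 ≤ U d ^ 2 * s ^ (d - 1) + U d ^ 2 * s ^ (d - 1) :=
        Nat.add_le_add t1 t2
    _ = (2 * U d ^ 2) * s ^ (d - 1) := by ring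
    _ ≤ K' * s ^ (d - 1) := Nat.mul_le_mul_right _ hK'

/-- All conditions together. -/
theorem exists_num (d : ℕ) : ∃ K K' s0 : ℕ, 1 ≤ K' ∧ 1 ≤ s0 ∧ ∀ s, s0 ≤ s → ∀ μ M : ℕ, 1 ≤ μ →
    μ ≤ M → 2 * M ≤ d + 1 → 2 * μ + M ≤ d + 1 →
    (2 ≤ μ → Num d s μ M (K * s ^ (d - μ))) ∧
    (K * s ^ (d - μ) + 1) * ell s μ + ell s μ * ell s M + ell (s + 1) d + ell (s + 1) M ≤
      K' * s ^ (d - μ) * ell (s + 1) μ ∧
    (d + 1) * (K' * s ^ (d - μ) * ell (s + 1) μ) ≤ ell (s + 1) (d + 1) ∧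
    ell (s + 1) M + ell (s + 1) M ^ 2 ≤ K' * s ^ (d - 1) := by
  obtain ⟨K, hK⟩ := num_e1 d
  obtain ⟨s1, h1⟩ := hK K le_rfl
  obtain ⟨K2, hK2⟩ := num_e2 d K
  obtain ⟨K4, hK4⟩ := num_e4 d
  obtain ⟨s2, h2⟩ := hK2 (K2 + K4 + 1) (by omega)
  obtain ⟨s3, h3⟩ := num_e3 d (K2 + K4 + 1)
  obtain ⟨s4, h4⟩ := hK4 (K2 + K4 + 1) (by omega)
  refine ⟨K, K2 + K4 + 1, s1 + s2 + s3 + s4 + 1, by omega, by omega, fun s hs μ M hμ hμM hM h => ?_⟩
  exact ⟨fun hμ2 => h1 s (by omega) μ M hμ2 hμM hM h, h2 s (by omega) μ M hμ hμM hM h,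
    h3 s (by omega) μ hμ (by omega), h4 s (by omega) M hM (by omega)⟩

end Pool.Agent.H21.NX

end

section

/-!
# Module U6 (TB2): the limit lemma for a set of exponents

The same as `limit` in `Pool/Agent/H51/TB/Lim.lean` (proof there; helper59), with `Sx (Z a b) d` replaced
by a subset `A` and the level `Bx a b d j` by `A.filter fun α => yd α = j`.  `weighted` (module Eul) is needed
for arbitrary subsets of the levels: extend `g` by `0`.
-/

namespace Pool.Agent.H51.TB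

open Finset Pool.Agent.H18.Ex Pool.Agent.H21.NX Pool.Agent.H18.Ta

private theorem ULim_map {ι : Type} [Fintype ι] [DecidableEq ι] {R R' : Type*} [CommRing R]
    [CommRing R'] (φ : R →+* R') (q : ι → R) (α β : ι → ℕ) :
    tcr (fun i => φ (q i)) α β = φ (tcr q α β) := by
  unfold tcr
  rw [map_prod]
  refine prod_congr rfl fun i _ => ?_
  rw [map_mul, map_natCast, map_pow]

private theorem ULim_eval {a b : ℕ} (q : Z a b → ℂ) (α β : Z a b → ℕ) :
    MvPolynomial.eval q (tcr (fun i => (MvPolynomial.X i : MvPolynomial (Z a b) ℂ)) α β) =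
      tcr q α β := by
  rw [← ULim_map (MvPolynomial.eval q)]
  simp only [MvPolynomial.eval_X]

private theorem ULim_mem {a b : ℕ} (A : Finset (Z a b → ℕ)) {κ : Type} (m : κ → Finset (ℕ × ℕ))
    (p : κ → Z a b → ℂ) (f : {α // α ∈ A} → ℂ) :
    f ∈ (ASys A).V m p ↔ ∀ i (β : Z a b → ℕ), (xd β, yd β) ∈ m i →
      ∑ α : {α // α ∈ A}, tcr (p i) α.1 β * f α = 0 := by
  rw [Sys.mem_V]
  constructor
  · intro h i β hβ
    have h1 := h i ⟨β, hβ⟩
    refine Eq.trans (sum_congr rfl fun α _ => ?_) h1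
    rw [← ULim_eval (p i) α.1 β]
    rfl
  · intro h i r
    have h1 := h i r.1 r.2
    refine Eq.trans (sum_congr rfl fun α _ => ?_) h1
    rw [← ULim_eval (p i) α.1 r.1]
    rfl

/-- The positions at the time `t`. -/
private noncomputable def ULim_pos {a b : ℕ} (q : Z a b → ℂ) (s : ℂ) : Z a b → ℂ :=
  Sum.elim (fun k => q (Sum.inl k)) fun k => s * q (Sum.inr k)

private theorem ULim_scale {a b : ℕ} (q : Z a b → ℂ) (s : ℂ) (α β : Z a b → ℕ) :
    s ^ yd β * tcr (ULim_pos q s) α β = s ^ yd α * tcr q α β := by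
  have h := tcr_scale (fun k => q (Sum.inl k)) (fun k => q (Sum.inr k)) s α β
  have h1 : Sum.elim (fun k => q (Sum.inl k)) (fun k => q (Sum.inr k)) = q := by
    funext k
    rcases k with k | k <;> rfl
  rw [h1] at h
  exact h

private theorem ULim_sum {a b : ℕ} (β : Z a b → ℕ) : ∑ k, β k = xd β + yd β := by
  unfold xd yd
  exact Fintype.sum_sum_type β

/-- The polynomial solution. -/
private theorem ULim_poly {a b : ℕ} (A : Finset (Z a b → ℕ)) {κ : Type} [Fintype κ]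
    (m : κ → ℕ) (e : κ → ℕ) (kp : ℕ → ℕ) (p : κ → Z a b → ℂ)
    (hcon : ¬ GI A fun i => Kind.free (m i)) :
    ∃ F : (Z a b → ℕ) → Polynomial ℂ,
      (∀ i (β : Z a b → ℕ), xd β + yd β < m i →
        ∑ α ∈ A, Polynomial.X ^ (e i * yd α + kp (yd α)) *
          (F α * Polynomial.C (tcr (p i) α β)) = 0) ∧ ∃ α ∈ A, (F α).eval 0 ≠ 0 := by
  classical
  let ρ : Type := (i : κ) × (Z a b → Fin (m i))
  let Mx : ρ → (Z a b → ℕ) → Polynomial ℂ := fun r α =>
    if xd (fun k => (r.2 k : ℕ)) + yd (fun k => (r.2 k : ℕ)) < m r.1 then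
      Polynomial.C (tcr (p r.1) α fun k => (r.2 k : ℕ)) *
        (Polynomial.X ^ (e r.1 * yd α + kp (yd α)) * Polynomial.X)
    else 0
  have hsol : ∀ t : ℂ, ∃ f : (Z a b → ℕ) → ℂ,
      (∀ r, ∑ α ∈ A, f α * (Mx r α).eval t = 0) ∧ ∃ α ∈ A, f α ≠ 0 := by
    intro t
    have h1 : ¬ InjAt A (fun i => Kind.free (m i)) fun i => ULim_pos (p i) (t ^ e i) := fun h2 =>
      hcon ⟨_, h2⟩
    unfold InjAt at h1
    push Not at h1
    obtain ⟨f, hf, α₁, hα₁, hne⟩ := h1
    by_cases ht : t = 0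
    · refine ⟨fun _ => 1, fun r => sum_eq_zero fun α _ => ?_, α₁, hα₁, one_ne_zero⟩
      subst ht
      simp only [Mx]
      split_ifs
      · simp
      · simp
    · refine ⟨fun α => f α * (t ^ kp (yd α))⁻¹, fun r => ?_, α₁, hα₁, ?_⟩
      · set β : Z a b → ℕ := fun k => (r.2 k : ℕ) with hβ
        by_cases hr : xd β + yd β < m r.1
        · have h1 := hf r.1 β (by
            show ∑ k, β k < m r.1
            rw [ULim_sum]
            exact hr)
          have h2 : ∑ α ∈ A, f α * (t ^ kp (yd α))⁻¹ * (Mx r α).eval t =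
              ((t ^ e r.1) ^ yd β * t) * ∑ α ∈ A, f α *
                tcr ((Kind.free (m r.1) : Kind (Z a b)).pt (ULim_pos (p r.1) (t ^ e r.1))) α β := by
            rw [mul_sum]
            refine sum_congr rfl fun α _ => ?_
            simp only [Mx]
            rw [if_pos hr]
            simp only [Polynomial.eval_mul, Polynomial.eval_C, Polynomial.eval_pow,
              Polynomial.eval_X]
            have h3 := ULim_scale (p r.1) (t ^ e r.1) α β
            have h4 : (Kind.free (m r.1) : Kind (Z a b)).pt (ULim_pos (p r.1) (t ^ e r.1)) =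
                ULim_pos (p r.1) (t ^ e r.1) := rfl
            rw [h4]
            have h5 : t ^ kp (yd α) ≠ 0 := pow_ne_zero _ ht
            have h6 : t ^ (e r.1 * yd α + kp (yd α)) = (t ^ e r.1) ^ yd α * t ^ kp (yd α) := by
              rw [← pow_mul, ← pow_add]
            rw [h6]
            calc f α * (t ^ kp (yd α))⁻¹ * (tcr (p r.1) α β *
                  ((t ^ e r.1) ^ yd α * t ^ kp (yd α) * t)) =
                f α * t * ((t ^ kp (yd α))⁻¹ * t ^ kp (yd α)) *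
                  ((t ^ e r.1) ^ yd α * tcr (p r.1) α β) := by ring
              _ = _ := by
                rw [inv_mul_cancel₀ h5, ← h3]
                ring
          rw [h2, h1, mul_zero]
        · refine sum_eq_zero fun α _ => ?_
          simp only [Mx]
          rw [if_neg hr, Polynomial.eval_zero, mul_zero]
      · exact mul_ne_zero hne (inv_ne_zero (pow_ne_zero _ ht))
  obtain ⟨F, hF, hne⟩ := exists_poly_solution A Mx hsol
  refine ⟨F, fun i β hβ => ?_, hne⟩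
  have hβk : ∀ k, β k < m i := by
    intro k
    have h1 : β k ≤ ∑ k, β k := single_le_sum (fun j _ => Nat.zero_le (β j)) (mem_univ k)
    rw [ULim_sum] at h1
    omega
  have h1 := hF ⟨i, fun k => ⟨β k, hβk k⟩⟩
  have h2 : Polynomial.X * ∑ α ∈ A, Polynomial.X ^ (e i * yd α + kp (yd α)) *
      (F α * Polynomial.C (tcr (p i) α β)) = 0 := by
    rw [← h1, mul_sum]
    refine sum_congr rfl fun α _ => ?_
    simp only [Mx]
    rw [if_pos hβ]
    ring
  exact (mul_eq_zero.1 h2).resolve_left Polynomial.X_ne_zero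

theorem limit_A {a b d : ℕ} (A : Finset (Z a b → ℕ)) (hA : A ⊆ Sx (Z a b) d) {κ : Type}
    [Fintype κ] (m : κ → ℕ) (c : κ → ℕ × ℕ) (hc : ∀ i, (c i).1 + (c i).2 ≤ d)
    (h : ∀ j ≤ d, (ASys (A.filter fun α => yd α = j)).gd (fun i => Lam d (m i) (c i) j) = 0) :
    GI A fun i => Kind.free (m i) := by
  classical
  obtain ⟨p, hp⟩ := (Gn.all (range (d + 1)) fun j _ =>
    gn_gd (ASys (A.filter fun α => yd α = j)) fun i => Lam d (m i) (c i) j).exists
  have hbot : ∀ j ≤ d, (ASys (A.filter fun α => yd α = j)).V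
      (fun i => Lam d (m i) (c i) j) p = ⊥ := by
    intro j hj
    have h1 := hp j (mem_range.2 (by omega))
    rw [h j hj] at h1
    exact Submodule.finrank_eq_zero.1 h1
  by_contra hcon
  obtain ⟨F, hF, α₀, hα₀, hne⟩ := ULim_poly A m (fun i => ex (d + 1) (c i).1 (c i).2)
    (kap (d + 1)) p hcon
  set K : κ → ℕ → ℕ := fun i j => ex (d + 1) (c i).1 (c i).2 * j + kap (d + 1) j with hK
  set g : (Z a b → ℕ) → Polynomial ℂ := fun α => if α ∈ A then F α else 0 with hg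
  -- the equations level by level
  have heq : ∀ i (β : Z a b → ℕ), xd β + yd β < m i →
      ∑ j ∈ range (d + 1), Polynomial.X ^ K i j *
        ∑ α ∈ Bx a b d j, g α * tcr (fun k => Polynomial.C (p i k)) α β = 0 := by
    intro i β hβ
    rw [← hF i β hβ]
    have h1 : ∀ j ∈ range (d + 1), Polynomial.X ^ K i j *
        ∑ α ∈ Bx a b d j, g α * tcr (fun k => Polynomial.C (p i k)) α β =
        ∑ α ∈ (Sx (Z a b) d).filter (fun α => yd α = j), Polynomial.X ^ K i (yd α) *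
          (g α * Polynomial.C (tcr (p i) α β)) := by
      intro j _
      rw [mul_sum]
      refine sum_congr rfl fun α hα => ?_
      rw [(mem_filter.1 hα).2, ULim_map (Polynomial.C : ℂ →+* Polynomial ℂ)]
    rw [sum_congr rfl h1]
    have h2 := sum_fiberwise_of_maps_to (s := Sx (Z a b) d) (t := range (d + 1))
      (g := fun α : Z a b → ℕ => yd α) (by
        intro α hα
        rw [mem_Sx, ULim_sum] at hα
        rw [mem_range]
        omega)
      (fun α => Polynomial.X ^ K i (yd α) * (g α * Polynomial.C (tcr (p i) α β)))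
    rw [h2, ← sum_subset hA]
    · refine sum_congr rfl fun α hα => ?_
      rw [hg]
      simp only
      rw [if_pos hα]
    · intro α _ hα
      rw [hg]
      simp only
      rw [if_neg hα, zero_mul, mul_zero]
  set j₀ := yd α₀ with hj₀
  have hj₀d : j₀ ≤ d := by
    have h1 := mem_Sx.1 (hA hα₀)
    rw [ULim_sum] at h1
    omega
  -- the values at zero
  have hmem : (fun α : {α // α ∈ A.filter fun α => yd α = j₀} => (F α.1).eval 0) ∈
      (ASys (A.filter fun α => yd α = j₀)).V (fun i => Lam d (m i) (c i) j₀) p := by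
    rw [ULim_mem]
    intro i β hβ
    obtain ⟨hβ1, hβ2, hβ3, hβ4⟩ := mem_filter.1 hβ
    simp only at hβ2 hβ3 hβ4
    set S : Finset ℕ := (range (d + 1)).filter fun j => yd β ≤ j ∧ j + xd β ≤ d ∧
      rk (d + 1) (c i).1 (c i).2 j < rk (d + 1) (c i).1 (c i).2 j₀ with hS
    have hcard : S.card = wr d (c i) (xd β, yd β) j₀ := rfl
    have h2 := weighted (d := d) (m := m i) (fun k => Polynomial.C (p i k)) g
      (fun j => Polynomial.X ^ K i j) (heq i) S β (by rw [hcard]; exact hβ4)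
    have h3 := congrArg (fun q => Polynomial.coeff q (K i j₀)) h2
    simp only [Polynomial.finsetSum_coeff, Polynomial.coeff_zero] at h3
    rw [sum_eq_single j₀] at h3
    · have h4 : (∏ u ∈ S, (((j₀ : ℕ) : Polynomial ℂ) - ((u : ℕ) : Polynomial ℂ))) =
          Polynomial.C (∏ u ∈ S, ((j₀ : ℂ) - (u : ℂ))) := by
        rw [map_prod]
        refine prod_congr rfl fun u _ => ?_
        rw [map_sub]
        simp
      rw [h4, Polynomial.coeff_C_mul, Polynomial.coeff_X_pow_mul', if_pos le_rfl,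
        Nat.sub_self] at h3
      have h5 : (∏ u ∈ S, ((j₀ : ℂ) - (u : ℂ))) ≠ 0 := by
        rw [prod_ne_zero_iff]
        intro u hu
        rw [sub_ne_zero]
        intro h6
        have h7 : j₀ = u := by exact_mod_cast h6
        have h8 := (mem_filter.1 hu).2.2.2
        rw [h7] at h8
        exact lt_irrefl _ h8
      have h6 := (mul_eq_zero.1 h3).resolve_left h5
      rw [Polynomial.coeff_zero_eq_eval_zero, Polynomial.eval_finsetSum] at h6
      refine Eq.trans (sum_coe_sort (A.filter fun α => yd α = j₀)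
        (fun α => tcr (p i) α β * (F α).eval 0)) (Eq.trans ?_ h6)
      have h7 : A.filter (fun α => yd α = j₀) ⊆ Bx a b d j₀ := by
        intro α hα
        obtain ⟨h8, h9⟩ := mem_filter.1 hα
        exact mem_filter.2 ⟨hA h8, h9⟩
      rw [← sum_subset h7]
      · refine sum_congr rfl fun α hα => ?_
        rw [hg]
        simp only
        rw [if_pos (mem_filter.1 hα).1, ULim_map (Polynomial.C : ℂ →+* Polynomial ℂ),
          Polynomial.eval_mul, Polynomial.eval_C, mul_comm]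
      · intro α hα hα'
        have h8 : α ∉ A := by
          intro h9
          exact hα' (mem_filter.2 ⟨h9, (mem_filter.1 hα).2⟩)
        rw [hg]
        simp only
        rw [if_neg h8, zero_mul, Polynomial.eval_zero]
    · intro j hj hne'
      rw [mem_range] at hj
      by_cases hw : yd β ≤ j ∧ j + xd β ≤ d
      · by_cases hjS : j ∈ S
        · rw [prod_eq_zero hjS (sub_self _), zero_mul, Polynomial.coeff_zero]
        · have h4 : rk (d + 1) (c i).1 (c i).2 j₀ ≤ rk (d + 1) (c i).1 (c i).2 j := by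
            by_contra h5
            exact hjS (mem_filter.2 ⟨mem_range.2 hj, hw.1, hw.2, by omega⟩)
          have h5 : rk (d + 1) (c i).1 (c i).2 j₀ < rk (d + 1) (c i).1 (c i).2 j := by
            refine lt_of_le_of_ne h4 fun h6 => hne' ?_
            exact (rk_inj (show (c i).1 + (c i).2 < d + 1 by have := hc i; omega)
              (show j₀ < d + 1 by omega) hj h6).symm
          have h6 := key_lt (show (c i).1 + (c i).2 < d + 1 by have := hc i; omega)
            (show j₀ < d + 1 by omega) hj h5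
          rw [mul_left_comm, Polynomial.coeff_X_pow_mul', if_neg (by
            have h7 : K i j₀ < K i j := h6
            omega)]
      · have h4 : ∑ α ∈ Bx a b d j, g α * tcr (fun k => Polynomial.C (p i k)) α β = 0 := by
          refine sum_eq_zero fun α hα => ?_
          rw [tcr_zero _ α β hα hw, mul_zero]
        rw [h4, mul_zero, mul_zero, Polynomial.coeff_zero]
    · intro hj
      exact absurd (mem_range.2 (by omega)) hj
  rw [hbot j₀ hj₀d, Submodule.mem_bot] at hmem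
  exact hne (congrFun hmem ⟨α₀, mem_filter.2 ⟨hα₀, rfl⟩⟩)

end Pool.Agent.H51.TB

end
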