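import Pool.Agent.H94.LP2.M12
import Pool.Agent.H94.LP2.M18
import Pool.Agent.H94.LP2.M23

/-! The parts of this file: H21.NX.Phase_1, H21.NX.Start, H21.NX.Core_1, H21.NX.Final_1, H51.TB.Pair. -/

section

/-!
# Module Phase: the Horace steps with the main batch
-/

namespace Pool.Agent.H21.NX

open Finset Pool.Agent.H18.Ex

/-- The last stage. -/
theorem phase_one {d s μ M A : ℕ} (l : Fin (s + 2)) (hn : Num d s μ M A) (Ψ : Multiset (ℕ × ℕ))
    (a f : ℕ) (hΨ : OKF (Bc M μ 1) Ψ) (ha : A ≤ a)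
    (hT1 : ell (s + 1) (d - μ + 1 + 1) ≤
      fl s Ψ + a * ell (s + 1) 1 + f * ell (s + 1) μ)
    (hT2 : fl s Ψ + a * ell (s + 1) 1 + f * ell (s + 1) μ ≤
      ell (s + 1) (d - μ + 1 + 1) + ell (s + 1) M)
    (hload : 4 * (d + 1) * (tl s Ψ + a * ell s 1) ≤
      (4 * (d + 1) - 1) * ell s (d - μ + 1 + 1)) :
    GM (Sx (Fin (s + 2)) (d - μ + 1)) (fk l Ψ + Multiset.replicate a (Kind.forced l 1 1) +
      Multiset.replicate f (Kind.free μ)) := by
  have hs := hn.ell_step
  have h1 := hn.h2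
  have h2 := hn.hμ
  have h3 := hn.hμM
  have hB : Bc M μ 1 ≤ d - μ + 1 + 1 := by
    unfold Bc
    omega
  have hf := f_bound hn Ψ a f hΨ hT1 hload
  rw [add_right_comm]
  refine GM.bridge _ (Sx (Fin (s + 2)) (d - μ)) l
    (fun b => by
      have := Sx_resid (d - μ + 1) (by omega) l b
      rwa [Nat.add_sub_cancel] at this) _ _ ?_ ?_
  · have e1 := peel_all s hs l (Bc M μ 1) (d - μ + 1 + 1) Ψ (Multiset.replicate f μ) a hΨ
      (fun m hm => by
        rw [Multiset.eq_of_mem_replicate hm]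
        exact ⟨by omega, Bc_ge _ _ _⟩) (by omega) hB ?_ ?_
    · rwa [Nat.add_sub_cancel, Multiset.map_replicate] at e1
    · rw [tot_replicate]
      have e2 := tl_le_fl s hs hΨ
      have e3 : f * ell s μ ≤ f * ell (s + 1) μ := by
        refine Nat.mul_le_mul_left _ ?_
        have := tot_le_tot_succ (N0 := {μ}) s hs
        simpa [tot] using this
      have e4 := hn.f1
      have e5 := ell_succ s (d - μ + 1)
      rw [ell_one, mul_one] at hT2
      omega
    · rw [tot_replicate]
      rw [ell_one, mul_one] at hT1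
      omega
  · rw [Multiset.map_add, Multiset.map_replicate]
    refine GM.mono (Multiset.le_add_left _ _) ?_
    exact kill_mu s μ (d - μ) f (by omega) (by omega)
      (by rwa [show d - μ + 2 - μ = d + 2 - 2 * μ by omega])

theorem phase {d s μ M A : ℕ} (l : Fin (s + 2)) (hn : Num d s μ M A) :
    ∀ c, c < μ → 1 ≤ c → ∀ (Ψ : Multiset (ℕ × ℕ)) (a f : ℕ), OKF (Bc M μ c) Ψ → A ≤ a →
      ell (s + 1) (d - μ + 1 + c) ≤ fl s Ψ + a * ell (s + 1) c + f * ell (s + 1) μ →
      fl s Ψ + a * ell (s + 1) c + f * ell (s + 1) μ ≤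
        ell (s + 1) (d - μ + 1 + c) + ell (s + 1) M →
      4 * (d + 1) * (tl s Ψ + a * ell s c) ≤ (4 * (d + 1) - 1) * ell s (d - μ + 1 + c) →
      GM (Sx (Fin (s + 2)) (d - μ + c)) (fk l Ψ + Multiset.replicate a (Kind.forced l c 1) +
        Multiset.replicate f (Kind.free μ)) := by
  have hs := hn.ell_step
  have h1 := hn.h2
  have h2 := hn.hμ
  have h3 := hn.hμM
  have h4 := hn.hds
  intro c
  induction c with
  | zero => intro _ h; omega
  | succ c ih =>
    intro hcμ _ Ψ a f hΨ ha hT1 hT2 hload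
    rcases Nat.eq_zero_or_pos c with hc0 | hc0
    · subst hc0
      exact phase_one l hn Ψ a f hΨ ha hT1 hT2 hload
    set B := Bc M μ (c + 1) with hBdef
    set S := d - μ + 1 + (c + 1) with hSdef
    have hBμ : μ ≤ B := Bc_ge _ _ _
    have hBS : B + 1 ≤ S := by
      rw [hBdef, hSdef]
      unfold Bc
      omega
    have hcB : c + 1 ≤ B := by omega
    have hSd : S ≤ d + 1 := by omega
    have hE0 : 0 < ell s S := ell_pos _ (by omega)
    have hEμ : 1 ≤ ell s μ := ell_pos _ (by omega)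
    have hS1 : S - 1 = d - μ + (c + 1) := by omega
    -- the numerical condition
    have hnc := hn.nc (c + 1) (by omega) (by omega)
    rw [← hS1, ← hBdef] at hnc
    -- the relation of `ell s (S - 1)` and `ell s S`
    have hrel : ell s (S - 1) * (S - 1 + s) = ell s S * (S - 1) := by
      have := ell_mul_add s (S - 1) hs
      rwa [Nat.sub_add_cancel (by omega)] at this
    have hmono : ell s (S - 1) ≤ ell s S := ell_mono _ (by omega)
    set τ := tl s Ψ + a * ell s (c + 1) with hτ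
    set W := ell s (c + 1) * ell s B with hW
    have hK : 4 * (d + 1) = (4 * (d + 1) - 1) + 1 := by omega
    have hτE : τ ≤ ell s S := by
      have e1 : (4 * (d + 1) - 1) * ell s S ≤ 4 * (d + 1) * ell s S :=
        Nat.mul_le_mul_right _ (by omega)
      exact Nat.le_of_mul_le_mul_left (le_trans hload e1) (by omega)
    have hroom : W + ell s μ ≤ ell s S - τ := by
      have e1 : ell s S ≤ 4 * (d + 1) * (ell s S - τ) := by
        rw [Nat.mul_sub]
        have e2 : 4 * (d + 1) * ell s S = (4 * (d + 1) - 1) * ell s S + ell s S := by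
          conv_lhs => rw [hK]
          ring
        omega
      have e3 : 4 * (d + 1) * (W + ell s μ) ≤ 4 * (d + 1) * (ell s S - τ) := by
        calc 4 * (d + 1) * (W + ell s μ) = 4 * (d + 1) * (W + ell s μ) * 1 := by ring
          _ ≤ 4 * (d + 1) * (W + ell s μ) * ell s μ := Nat.mul_le_mul_left _ hEμ
          _ ≤ ell s (S - 1) := hnc
          _ ≤ ell s S := hmono
          _ ≤ _ := e1
      exact Nat.le_of_mul_le_mul_left e3 (by omega)
    obtain ⟨α, ρ, hαρ, hρ1, hρ2, -⟩ := choose_arith (ell s S - τ) W (ell s μ) hEμ (by omega)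
    have hρE : 4 * (d + 1) * (ρ * ell s μ) ≤ ell s (S - 1) := by
      calc 4 * (d + 1) * (ρ * ell s μ) ≤ 4 * (d + 1) * ((W + ell s μ) * ell s μ) :=
            Nat.mul_le_mul_left _ (Nat.mul_le_mul_right _ hρ2)
        _ = 4 * (d + 1) * (W + ell s μ) * ell s μ := by ring
        _ ≤ _ := hnc
    have hsum : α * ell s μ + ρ + τ = ell s S := by omega
    -- enough points
    have hZ : (s + 1) * (fl s Ψ + a * ell (s + 1) (c + 1)) ≤ (B + s) * τ := by
      have e1 := fl_le_tl s hs hΨ
      have e2 : (s + 1) * (a * ell (s + 1) (c + 1)) ≤ (B + s) * (a * ell s (c + 1)) := by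
        calc (s + 1) * (a * ell (s + 1) (c + 1)) = a * ((s + 1) * ell (s + 1) (c + 1)) := by ring
          _ = a * ((c + 1 + s) * ell s (c + 1)) := by rw [ell_succ_mul s (c + 1) hs]
          _ ≤ a * ((B + s) * ell s (c + 1)) :=
              Nat.mul_le_mul_left _ (Nat.mul_le_mul_right _ (by omega))
          _ = _ := by ring
      rw [hτ, Nat.mul_add, Nat.mul_add]
      exact Nat.add_le_add e1 e2
    have hfit : α + ρ ≤ f := by
      refine fit_arith s S B μ α ρ f τ _ (ell s S) (ell (s + 1) S) (ell s μ) (ell (s + 1) μ)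
        (ell_succ_mul s μ hs) (ell_succ_mul s S hs) hT1 hZ hsum hBμ hBS ?_ hE0
      exact room_arith d s S B ρ (ell s S) (ell s (S - 1)) (ell s μ) hrel hρE hBS hSd (by omega)
    obtain ⟨f', hf'⟩ : ∃ f', f = α + ρ + f' := ⟨f - (α + ρ), by omega⟩
    -- the step
    have hmain := stage s hs l (d - μ + (c + 1)) (by omega)
      (Ψ + Multiset.replicate a (c + 1, 1)) 0 μ α ρ f' B (by omega) ?_ ?_ ?_ ?_ ?_
    · rw [fk_add, fk_replicate, Multiset.map_zero, add_zero, ← hf'] at hmain
      exact hmain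
    · intro x hx
      rcases Multiset.mem_add.1 hx with hx | hx
      · exact (hΨ x hx).2.2.1
      · rw [Multiset.eq_of_mem_replicate hx]
        change 1 ≤ c + 1
        omega
    · -- multiplicities at most `B`
      intro t ht
      unfold trc at ht
      rw [Multiset.map_add, Multiset.map_replicate, add_zero] at ht
      rcases Multiset.mem_add.1 ht with ht | ht
      · rcases Multiset.mem_add.1 ht with ht | ht
        · rcases Multiset.mem_add.1 ht with ht | ht
          · obtain ⟨x, hx, rfl⟩ := Multiset.mem_map.1 ht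
            exact (hΨ x hx).2.2.2
          · rw [Multiset.eq_of_mem_replicate ht]
            exact hcB
        · rw [Multiset.eq_of_mem_replicate ht]
          exact hBμ
      · rw [Multiset.eq_of_mem_replicate ht]
        omega
    · -- the conditions of the window theorem
      intro t ht ht2
      have hre : trc (Ψ + Multiset.replicate a (c + 1, 1)) 0 μ α ρ =
          (Ψ.map Prod.fst + Multiset.replicate α μ) + Multiset.replicate a (c + 1) +
            Multiset.replicate ρ 1 := by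
        unfold trc
        rw [Multiset.map_add, Multiset.map_replicate, add_zero, add_right_comm (Ψ.map Prod.fst)]
      have hT1B : ∀ t ∈ Ψ.map Prod.fst + Multiset.replicate α μ, t ≤ B := by
        intro t ht
        rcases Multiset.mem_add.1 ht with ht | ht
        · obtain ⟨x, hx, rfl⟩ := Multiset.mem_map.1 ht
          exact (hΨ x hx).2.2.2
        · rw [Multiset.eq_of_mem_replicate ht]
          exact hBμ
      have htB : t ≤ B := by
        rw [hre] at ht
        rcases Multiset.mem_add.1 ht with ht | ht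
        · rcases Multiset.mem_add.1 ht with ht | ht
          · exact hT1B t ht
          · rw [Multiset.eq_of_mem_replicate ht]
            exact hcB
        · rw [Multiset.eq_of_mem_replicate ht]
          omega
      rw [hre]
      refine window_cond s hs _ a (c + 1) ρ B _ hcB (by omega) hT1B hρ1 ?_ ?_ t ht2 htB
      · calc ell s B ^ 2 ≤ A * ell s (c + 1) := hn.q (c + 1) (by omega) (by omega)
          _ ≤ a * ell s (c + 1) := Nat.mul_le_mul_right _ ha
      · rw [tot_add, tot_fst, tot_replicate]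
        have : d - μ + (c + 1) + 1 = S := by omega
        rw [this]
        omega
    · rw [tl_add, tlr, tot_zero, ← hτ]
      have : d - μ + (c + 1) + 1 = S := by omega
      rw [this]
      omega
    · rw [nxt_batch _ _ _ _ _ _ (by omega), fk_add, fk_replicate, Nat.add_sub_cancel]
      have hσ : d - μ + (c + 1) - 1 = d - μ + c := by omega
      rw [hσ]
      have hfl := fl_nxt (α := α) (ρ := ρ) (μ := μ) (N0 := 0) s hs hΨ
        (fun m hm => absurd hm (Multiset.notMem_zero m)) (by omega) (Or.inr (by omega))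
      rw [tot_zero, tot_zero, add_zero, add_zero] at hfl
      have hc1 : ell (s + 1) (c + 1) = ell (s + 1) c + ell s (c + 1) := ell_succ s c
      have hF : ell (s + 1) S = ell (s + 1) (d - μ + 1 + c) + ell s S := by
        rw [show S = (d - μ + 1 + c) + 1 by omega]
        exact ell_succ s _
      have ea : a * ell (s + 1) (c + 1) = a * ell (s + 1) c + a * ell s (c + 1) := by
        rw [hc1, Nat.mul_add]
      have ef : f * ell (s + 1) μ = (α + ρ) * ell (s + 1) μ + f' * ell (s + 1) μ := by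
        rw [hf', Nat.add_mul]
      refine ih (by omega) hc0 (nxt Ψ 0 μ α ρ) a f' ?_ ha ?_ ?_ ?_
      · refine OKF_nxt hΨ (fun m hm => absurd hm (Multiset.notMem_zero m)) ?_ ?_ ?_
        · rw [hBdef]
          unfold Bc
          omega
        · exact le_trans (Bc_ge M μ c) (Nat.le_succ _)
        · exact Or.inr (Bc_ge _ _ _)
      · omega
      · omega
      · have hx : B - 1 + 1 = B := by omega
        have htl := tl_nxt (α := α) (ρ := ρ) (μ := μ) (N0 := 0) s (B - 1) hs hΨ
          (fun m hm => absurd hm (Multiset.notMem_zero m)) (by omega) (by omega)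
        rw [tot_zero, add_zero] at htl
        have e1 : (B - 1 + s) * (a * ell s c) ≤ (B - 1) * (a * ell s (c + 1)) := by
          have e2 := ell_pred_le s (c + 1) (B - 1) hs (by omega)
          rw [Nat.add_sub_cancel] at e2
          calc (B - 1 + s) * (a * ell s c) = a * ((B - 1 + s) * ell s c) := by ring
            _ ≤ a * ((B - 1) * ell s (c + 1)) := Nat.mul_le_mul_left _ e2
            _ = _ := by ring
        have e3 : (B - 1 + s) * (tl s (nxt Ψ 0 μ α ρ) + a * ell s c) ≤
            (B - 1) * ell s S + (B - 1 + s) * (ρ * ell s μ) := by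
          have e4 : tl s Ψ + α * ell s μ + a * ell s (c + 1) ≤ ell s S := by omega
          calc (B - 1 + s) * (tl s (nxt Ψ 0 μ α ρ) + a * ell s c) =
              (B - 1 + s) * tl s (nxt Ψ 0 μ α ρ) + (B - 1 + s) * (a * ell s c) := by ring
            _ ≤ ((B - 1) * (tl s Ψ + α * ell s μ) + (B - 1 + s) * (ρ * ell s μ)) +
                (B - 1) * (a * ell s (c + 1)) := Nat.add_le_add htl e1
            _ = (B - 1) * (tl s Ψ + α * ell s μ + a * ell s (c + 1)) +
                (B - 1 + s) * (ρ * ell s μ) := by ring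
            _ ≤ _ := Nat.add_le_add_right (Nat.mul_le_mul_left _ e4) _
        have e5 := load_arith d s (B - 1) S _ _ _ _ hrel e3 hρE (by omega) hSd h4
        rwa [show S - 1 = d - μ + 1 + c by omega] at e5

end Pool.Agent.H21.NX

end

section

/-!
# Module Start: the first Horace step
-/

namespace Pool.Agent.H21.NX

open Finset Pool.Agent.H18.Ex

theorem Bc_self {M μ : ℕ} (h : μ ≤ M) : Bc M μ μ = M := by
  unfold Bc
  omega

/-- Many points of multiplicity `μ ≥ 2`. -/
theorem start {d s μ M A : ℕ} (l : Fin (s + 2)) (hn : Num d s μ M A) (N0 : Multiset ℕ) (u : ℕ)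
    (hN0 : ∀ m ∈ N0, 1 ≤ m ∧ m ≤ M)
    (hu : (A + 1) * ell s μ + ell s μ * ell s M + ell (s + 1) d + ell (s + 1) M ≤
      u * ell (s + 1) μ)
    (hT1 : ell (s + 1) (d + 1) ≤ tot (s + 1) N0 + u * ell (s + 1) μ)
    (hT2 : tot (s + 1) N0 + u * ell (s + 1) μ ≤ ell (s + 1) (d + 1) + ell (s + 1) M) :
    GM (Sx (Fin (s + 2)) d) (N0.map Kind.free + Multiset.replicate u (Kind.free μ)) := by
  have hs := hn.ell_step
  have h1 := hn.h2
  have h2 := hn.hμ
  have h3 := hn.hμM
  have h4 := hn.hds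
  have hB : Bc M μ μ = M := Bc_self h3
  have hnc := hn.nc μ h2 le_rfl
  have hq := hn.q μ (by omega) le_rfl
  rw [hB] at hnc hq
  rw [show d - μ + μ = d by omega] at hnc
  have hMS : M + 1 ≤ d + 1 := by omega
  have hE0 : 0 < ell s (d + 1) := ell_pos _ (by omega)
  have hEμ : 1 ≤ ell s μ := ell_pos _ (by omega)
  have hrel : ell s d * (d + s) = ell s (d + 1) * d := ell_mul_add s d hs
  set τ := tot s N0 with hτ
  set W := ell s μ * ell s M with hW
  have hττ : τ ≤ tot (s + 1) N0 := tot_le_tot_succ s hs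
  have hFd : ell (s + 1) (d + 1) = ell (s + 1) d + ell s (d + 1) := ell_succ s d
  have hA1 : (A + 1) * ell s μ = A * ell s μ + ell s μ := by ring
  have hroom : W + (A + 1) * ell s μ ≤ ell s (d + 1) - τ := by omega
  obtain ⟨α, ρ, hαρ, hρ1, hρ2, hα⟩ := choose_arith (ell s (d + 1) - τ) W (ell s μ) hEμ (by omega)
  have hαA : A ≤ α := by
    rw [← hα, Nat.le_div_iff_mul_le (by omega)]
    omega
  have hρE : 4 * (d + 1) * (ρ * ell s μ) ≤ ell s d := by
    calc 4 * (d + 1) * (ρ * ell s μ) ≤ 4 * (d + 1) * ((W + ell s μ) * ell s μ) :=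
          Nat.mul_le_mul_left _ (Nat.mul_le_mul_right _ hρ2)
      _ = 4 * (d + 1) * (W + ell s μ) * ell s μ := by ring
      _ ≤ _ := hnc
  have hsum : α * ell s μ + ρ + τ = ell s (d + 1) := by omega
  have hZ : (s + 1) * tot (s + 1) N0 ≤ (M + s) * τ := tot_succ_le s hs fun m hm => (hN0 m hm).2
  have hfit : α + ρ ≤ u := by
    refine fit_arith s (d + 1) M μ α ρ u τ _ (ell s (d + 1)) (ell (s + 1) (d + 1)) (ell s μ)
      (ell (s + 1) μ) (ell_succ_mul s μ hs) (ell_succ_mul s (d + 1) hs) hT1 hZ hsum h3 hMS ?_ hE0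
    exact room_arith d s (d + 1) M ρ (ell s (d + 1)) (ell s d) (ell s μ)
      (by rw [Nat.add_sub_cancel]; exact hrel) hρE hMS le_rfl (by omega)
  obtain ⟨f', hf'⟩ : ∃ f', u = α + ρ + f' := ⟨u - (α + ρ), by omega⟩
  have hmain := stage s hs l d (by omega) 0 N0 μ α ρ f' M (by omega) ?_ ?_ ?_ ?_ ?_
  · rw [show fk l (0 : Multiset (ℕ × ℕ)) = 0 from rfl, zero_add, ← hf'] at hmain
    exact hmain
  · exact fun x hx => absurd hx (Multiset.notMem_zero x)
  · -- multiplicities at most `M`
    intro t ht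
    unfold trc at ht
    rw [Multiset.map_zero, zero_add] at ht
    rcases Multiset.mem_add.1 ht with ht | ht
    · rcases Multiset.mem_add.1 ht with ht | ht
      · exact (hN0 t ht).2
      · rw [Multiset.eq_of_mem_replicate ht]
        exact h3
    · rw [Multiset.eq_of_mem_replicate ht]
      omega
  · intro t ht ht2
    have htB : t ≤ M := by
      unfold trc at ht
      rw [Multiset.map_zero, zero_add] at ht
      rcases Multiset.mem_add.1 ht with ht | ht
      · rcases Multiset.mem_add.1 ht with ht | ht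
        · exact (hN0 t ht).2
        · rw [Multiset.eq_of_mem_replicate ht]
          exact h3
      · rw [Multiset.eq_of_mem_replicate ht]
        omega
    unfold trc
    rw [Multiset.map_zero, zero_add]
    refine window_cond s hs N0 α μ ρ M _ h3 (by omega) (fun t ht => (hN0 t ht).2) hρ1 ?_ ?_ t ht2
      htB
    · exact le_trans hq (Nat.mul_le_mul_right _ hαA)
    · omega
  · rw [show tl s (0 : Multiset (ℕ × ℕ)) = 0 from rfl]
    omega
  · have hOK0 : OKF M (0 : Multiset (ℕ × ℕ)) := fun x hx => absurd hx (Multiset.notMem_zero x)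
    have hph := phase l hn (μ - 1) (by omega) (by omega) (nxt 0 N0 μ 0 ρ) α f' ?_ hαA ?_ ?_ ?_
    · rw [nxt_start _ _ _ _ h2, fk_add, fk_replicate]
      rwa [show d - μ + (μ - 1) = d - 1 by omega] at hph
    · refine OKF_nxt hOK0 (fun m hm => (hN0 m hm).2) ?_ ?_ ?_
      · unfold Bc
        omega
      · exact le_trans (Bc_ge M μ (μ - 1)) (Nat.le_succ _)
      · exact Or.inr (Bc_ge _ _ _)
    · have hfl := fl_nxt (α := 0) (ρ := ρ) (μ := μ) (N0 := N0) s hs hOK0
        (fun m hm => (hN0 m hm).1) (by omega) (Or.inr h2)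
      rw [show tl s (0 : Multiset (ℕ × ℕ)) = 0 from rfl,
        show fl s (0 : Multiset (ℕ × ℕ)) = 0 from rfl, Nat.zero_mul, Nat.zero_add, Nat.zero_add,
        Nat.zero_add, Nat.add_zero] at hfl
      have hc1 : ell (s + 1) μ = ell (s + 1) (μ - 1) + ell s μ := by
        have := ell_succ s (μ - 1)
        rwa [Nat.sub_add_cancel (by omega)] at this
      have ea : α * ell (s + 1) μ = α * ell (s + 1) (μ - 1) + α * ell s μ := by
        rw [hc1, Nat.mul_add]
      have ef : u * ell (s + 1) μ = α * ell (s + 1) μ + ρ * ell (s + 1) μ +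
          f' * ell (s + 1) μ := by
        rw [hf']
        ring
      rw [show d - μ + 1 + (μ - 1) = d by omega]
      omega
    · have hfl := fl_nxt (α := 0) (ρ := ρ) (μ := μ) (N0 := N0) s hs hOK0
        (fun m hm => (hN0 m hm).1) (by omega) (Or.inr h2)
      rw [show tl s (0 : Multiset (ℕ × ℕ)) = 0 from rfl,
        show fl s (0 : Multiset (ℕ × ℕ)) = 0 from rfl, Nat.zero_mul, Nat.zero_add, Nat.zero_add,
        Nat.zero_add, Nat.add_zero] at hfl
      have hc1 : ell (s + 1) μ = ell (s + 1) (μ - 1) + ell s μ := by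
        have := ell_succ s (μ - 1)
        rwa [Nat.sub_add_cancel (by omega)] at this
      have ea : α * ell (s + 1) μ = α * ell (s + 1) (μ - 1) + α * ell s μ := by
        rw [hc1, Nat.mul_add]
      have ef : u * ell (s + 1) μ = α * ell (s + 1) μ + ρ * ell (s + 1) μ +
          f' * ell (s + 1) μ := by
        rw [hf']
        ring
      rw [show d - μ + 1 + (μ - 1) = d by omega]
      omega
    · have htl := tl_nxt (α := α) (ρ := ρ) (μ := μ) (N0 := N0) s (M - 1) hs hOK0
        (fun m hm => (hN0 m hm).2) (by omega) (by omega)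
      rw [nxt_start _ _ _ _ h2, tl_add, tlr,
        show tl s (0 : Multiset (ℕ × ℕ)) = 0 from rfl, zero_add] at htl
      have e3 : (M - 1 + s) * (tl s (nxt 0 N0 μ 0 ρ) + α * ell s (μ - 1)) ≤
          (M - 1) * ell s (d + 1) + (M - 1 + s) * (ρ * ell s μ) := by
        refine le_trans htl (Nat.add_le_add_right (Nat.mul_le_mul_left _ ?_) _)
        omega
      have e5 := load_arith d s (M - 1) (d + 1) _ _ _ _
        (by rw [Nat.add_sub_cancel]; exact hrel) e3 hρE (by omega) le_rfl h4
      rwa [show d - μ + 1 + (μ - 1) = d by omega]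

end Pool.Agent.H21.NX

end

section

/-!
# Module Core: many points of multiplicity `μ`
-/

namespace Pool.Agent.H21.NX

open Finset Pool.Agent.H18.Ex

/-- Many points of multiplicity `μ`, the others of multiplicity at most `M`. -/
theorem core (d : ℕ) : ∃ K' s0 : ℕ, 1 ≤ K' ∧ 1 ≤ s0 ∧ ∀ s, s0 ≤ s → ∀ μ M : ℕ, 1 ≤ μ →
    μ ≤ M → 2 * M ≤ d + 1 → 2 * μ + M ≤ d + 1 →
    (d + 1) * (K' * s ^ (d - μ) * ell (s + 1) μ) ≤ ell (s + 1) (d + 1) ∧
    ∀ S : Multiset ℕ, (∀ m ∈ S, m ≤ M) → K' * s ^ (d - μ) ≤ S.count μ →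
      ell (s + 1) (d + 1) ≤ tot (s + 1) S →
      GM (Sx (Fin (s + 2)) d) (S.map Kind.free) := by
  obtain ⟨K, K', s0, hK', hs0, hnum⟩ := exists_num d
  refine ⟨K', s0, hK', hs0, fun s hs μ M hμ hμM hM h => ?_⟩
  obtain ⟨e1, e2, e3, e4⟩ := hnum s hs μ M hμ hμM hM h
  refine ⟨e3, fun S hS hcount hT => ?_⟩
  have hs1 : 1 ≤ s := le_trans hs0 hs
  set κ := K' * s ^ (d - μ) with hκ
  have hsub : Multiset.replicate κ μ ≤ S.filter (1 ≤ ·) := by
    rw [← Multiset.le_count_iff_replicate_le, Multiset.count_filter_of_pos hμ]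
    exact hcount
  obtain ⟨R, hR⟩ := Multiset.le_iff_exists_add.1 hsub
  have hRmem : ∀ m ∈ R, 1 ≤ m ∧ m ≤ M := by
    intro m hm
    have h1 : m ∈ S.filter (1 ≤ ·) := by
      rw [hR]
      exact Multiset.mem_add.2 (Or.inr hm)
    exact ⟨(Multiset.mem_filter.1 h1).2, hS m (Multiset.mem_filter.1 h1).1⟩
  have htot : tot (s + 1) S = κ * ell (s + 1) μ + tot (s + 1) R := by
    rw [← tot_filter_pos (s + 1) (by omega) S, hR, tot_add, tot_replicate]
  have hxT : κ * ell (s + 1) μ ≤ ell (s + 1) (d + 1) := by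
    refine le_trans ?_ e3
    calc κ * ell (s + 1) μ = 1 * (κ * ell (s + 1) μ) := (Nat.one_mul _).symm
      _ ≤ _ := Nat.mul_le_mul_right _ (by omega)
  obtain ⟨R', hR'R, hR'1, hR'2⟩ := greedy (s + 1) M (κ * ell (s + 1) μ) (ell (s + 1) (d + 1))
    hxT R (fun m hm => (hRmem m hm).2) (by rw [← htot]; exact hT)
  have hR'mem : ∀ m ∈ R', 1 ≤ m ∧ m ≤ M := fun m hm => hRmem m (Multiset.mem_of_le hR'R hm)
  have hle : R' + Multiset.replicate κ μ ≤ S := by
    refine le_trans ?_ (Multiset.filter_le (1 ≤ ·) S)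
    rw [hR, add_comm]
    exact add_le_add_right hR'R _
  refine GM.mono (Multiset.map_le_map hle) ?_
  rcases Nat.eq_or_lt_of_le hμ with hμ1 | hμ2
  · -- simple points: the window theorem
    rw [← hμ1] at hR'1 hR'2 ⊢
    rw [ell_one, mul_one] at hR'1 hR'2
    refine window_GM (s + 1) d (by omega) _ M ?_ ?_ ?_
    · intro t ht
      rcases Multiset.mem_add.1 ht with ht | ht
      · exact (hR'mem t ht).2
      · rw [Multiset.eq_of_mem_replicate ht]
        omega
    · intro t ht ht2
      have htM : t ≤ M := by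
        rcases Multiset.mem_add.1 ht with ht | ht
        · exact (hR'mem t ht).2
        · rw [Multiset.eq_of_mem_replicate ht]
          omega
      refine window_cond' (s + 1) (by omega) R' κ M _ ?_ t ht2 htM
      rw [← hμ1] at hκ
      rw [← hκ] at e4
      omega
    · rw [tot_add, tot_replicate, ell_one]
      omega
  · rw [Multiset.map_add, Multiset.map_replicate]
    exact start (0 : Fin (s + 2)) (e1 hμ2) R' κ hR'mem e2 (by omega) (by omega)

end Pool.Agent.H21.NX

end

section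

/-!
# Module Final: exactness in high dimension
-/

namespace Pool.Agent.H21.NX

open Finset Pool.Agent.H18.Fat Pool.Agent.H18.Ex

/-- Part 2. -/
theorem exact_many (d : ℕ) : ∃ K r₀ : ℕ, ∀ r, r₀ ≤ r → ∀ μ M : ℕ, 1 ≤ μ → μ ≤ M →
    2 * M ≤ d + 1 → 2 * μ + M ≤ d + 1 → ∀ (k : ℕ) (m : Fin k → ℕ), (∀ i, m i ≤ M) →
    K * r ^ (d - μ) ≤ (univ.filter fun i => m i = μ).card →
    ForGeneralPoints r k fun p => ImposesMaximalConditions r d p m := by
  obtain ⟨K', s0, hK', hs0, hcore⟩ := core d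
  refine ⟨K', s0 + 1, fun r hr μ M hμ hμM hM h k m hm hcount => ?_⟩
  obtain ⟨s, rfl⟩ : ∃ s, r = s + 1 := ⟨r - 1, by omega⟩
  obtain ⟨-, hc⟩ := hcore s (by omega) μ M hμ hμM hM h
  refine max_of_GM (s + 1) k d (by omega) m ?_
  rw [← aug_map]
  refine hc (aug (s + 1) d m) (mem_aug (by omega) hm) ?_ (le_tot_aug _ _ m)
  refine le_trans ?_ (le_trans hcount (count_le_aug _ _ m μ))
  exact Nat.mul_le_mul_left _ (Nat.pow_le_pow_left (Nat.le_succ _) _)

/-- Part 1. -/
theorem exact_small (d : ℕ) : ∃ r₀ : ℕ, ∀ r, r₀ ≤ r → ∀ (k : ℕ) (m : Fin k → ℕ),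
    (∀ i, 3 * m i ≤ d + 1) →
    ForGeneralPoints r k fun p => ImposesMaximalConditions r d p m := by
  obtain ⟨K', s0, hK', hs0, hcore⟩ := core d
  refine ⟨s0 + 1, fun r hr k m hm => ?_⟩
  obtain ⟨s, rfl⟩ : ∃ s, r = s + 1 := ⟨r - 1, by omega⟩
  set M := (d + 1) / 3 with hMdef
  have hmM : ∀ i, m i ≤ M := fun i => by
    have := hm i
    omega
  rcases Nat.eq_zero_or_pos M with hM0 | hM1
  · exact window_fin (s + 1) d (by omega) 0 m (fun i => by have := hmM i; omega)
      (fun i hi => by have := hmM i; omega)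
  refine max_of_GM (s + 1) k d (by omega) m ?_
  rw [← aug_map]
  have hS := mem_aug (r := s + 1) (d := d) hM1 hmM
  have htot := le_tot_aug (s + 1) d m
  have hs1 : 1 ≤ s := by omega
  -- the lengths are large
  have hX : ∀ μ, 1 ≤ μ → μ ≤ M → (d + 1) * (K' * s ^ (d - μ) * ell (s + 1) μ) ≤
      ell (s + 1) (d + 1) := fun μ h1 h2 =>
    (hcore s (by omega) μ M h1 h2 (by omega) (by omega)).1
  have hpos : 1 ≤ ell (s + 1) (d + 1) := ell_pos _ (by omega)
  obtain ⟨μ, hμ1, hμM, hμ⟩ := exists_count (s + 1) M (ell (s + 1) (d + 1) / (d + 1))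
    (aug (s + 1) d m) (by omega) hS (by
      refine lt_of_lt_of_le ?_ htot
      have h1 : M < d + 1 := by omega
      by_cases h0 : ell (s + 1) (d + 1) / (d + 1) = 0
      · rw [h0, Nat.mul_zero]
        exact hpos
      · calc M * (ell (s + 1) (d + 1) / (d + 1)) < (d + 1) * (ell (s + 1) (d + 1) / (d + 1)) :=
              Nat.mul_lt_mul_of_pos_right h1 (Nat.pos_of_ne_zero h0)
          _ ≤ _ := Nat.mul_div_le _ _)
  have hcount : K' * s ^ (d - μ) ≤ (aug (s + 1) d m).count μ := by
    refine Nat.le_of_mul_le_mul_right ?_ (ell_pos (s + 1) hμ1)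
    refine le_trans ?_ hμ
    rw [Nat.le_div_iff_mul_le (by omega), mul_comm]
    exact hX μ hμ1 hμM
  exact (hcore s (by omega) μ M hμ1 hμM (by omega) (by omega)).2 _ hS hcount htot

end Pool.Agent.H21.NX

end

section

/-!
# Module E6 (TB): the theorem on pair sums

`pairs`: `k = 0`: `window_fin`.  Let `m i₀ = M` be the largest multiplicity.  If `M ≥ d` use `cone`.
Otherwise let `S` be the multiset of the `m i`, `i ≠ i₀`, together with
`binom (d + r, r) - ∑ ell r (m i)` simple points.  Then `1 ≤ x ≤ M`, `x + M ≤ d + 1` for `x ∈ S`,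
`ell r M + tot r S ≥ binom (d + r, r) = ell r (d + 1)`, and the part of `tot r S` with `x + M = d + 1` is at
most the sum in `hH` (simple points do not contribute as `M ≤ d - 1`).  So the part with `x + M ≤ d` is at
least `η N - ell r M ≥ (η / 2) N` (`grow_one`), and for one of the at most `d` values `μ`, `1 ≤ μ`,
`μ + M ≤ d`, `S.count μ * ell r μ ≥ η / (2 (d + 1)) * N`.  Apply `core` (with `η / (2 (d + 1))`) and
`max_of_GM`.

`pairs_le`: the sum in `hH` is over `i` with `m i + M = d + 1`, which can only be `i₀` (if `2 M = d + 1`),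
so it is at most `ell r M ≤ N / 2`.
-/

namespace Pool.Agent.H51.TB

open Finset Pool.Agent.H18.Fat Pool.Agent.H18.Ex Pool.Agent.H21.NX

private theorem Pair_ell (r d : ℕ) : ell (r - 1) (d + 1) ≤ ell r (d + 1) := by
  rcases Nat.eq_zero_or_pos r with rfl | hr
  · exact le_rfl
  · obtain ⟨s, rfl⟩ : ∃ s, r = s + 1 := ⟨r - 1, by omega⟩
    rw [Nat.add_sub_cancel, ell_succ]
    exact Nat.le_add_left _ _

private theorem Pair_tot (n D : ℕ) (S : Multiset ℕ) (hS : ∀ m ∈ S, m ≤ D) :
    tot n S = ∑ μ ∈ Finset.range (D + 1), S.count μ * ell n μ := by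
  unfold tot
  have h2 := Finset.sum_multiset_map_count S (ell n)
  rw [h2]
  rw [Finset.sum_subset (s₂ := Finset.range (D + 1))]
  · exact Finset.sum_congr rfl fun x _ => by rw [smul_eq_mul]
  · intro x hx
    rw [Finset.mem_range, Nat.lt_succ_iff]
    exact hS x (Multiset.mem_toFinset.1 hx)
  · intro x _ hx
    rw [Multiset.count_eq_zero_of_notMem (fun h => hx (Multiset.mem_toFinset.2 h)), zero_smul]

/-- the points other than `i₀` and simple points -/
private def Pair_S (r d : ℕ) {k : ℕ} (m : Fin k → ℕ) (i₀ : Fin k) : Multiset ℕ :=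
  ((univ : Finset (Fin k)).erase i₀).val.map m +
    Multiset.replicate ((d + r).choose r - ∑ i, ell r (m i)) 1

private theorem Pair_aug (r d : ℕ) {k : ℕ} (m : Fin k → ℕ) (i₀ : Fin k) :
    m i₀ ::ₘ Pair_S r d m i₀ = aug r d m := by
  unfold Pair_S aug
  rw [← Multiset.cons_add, ← Multiset.map_cons]
  congr 2
  rw [Finset.erase_val]
  exact Multiset.cons_erase (Finset.mem_univ i₀)

private theorem Pair_mem {r d k : ℕ} {m : Fin k → ℕ} {i₀ : Fin k} {x : ℕ} (hx : x ∈ Pair_S r d m i₀) :
    (∃ j, j ≠ i₀ ∧ m j = x) ∨ x = 1 := by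
  rcases Multiset.mem_add.1 hx with hx | hx
  · obtain ⟨j, hj, rfl⟩ := Multiset.mem_map.1 hx
    exact Or.inl ⟨j, Finset.ne_of_mem_erase (Finset.mem_def.2 hj), rfl⟩
  · exact Or.inr (Multiset.eq_of_mem_replicate hx)

private theorem Pair_hi (r d : ℕ) {k : ℕ} (m : Fin k → ℕ) (i₀ : Fin k) (M : ℕ) (hMd : M < d)
    (hm : ∀ j, j ≠ i₀ → m j + M ≤ d + 1) :
    tot r ((Pair_S r d m i₀).filter fun x => ¬ (x + M ≤ d)) ≤
      ∑ i ∈ univ.filter (fun i => m i + M = d + 1), ell r (m i) := by
  unfold Pair_S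
  rw [Multiset.filter_add, tot_add]
  have h1 : (Multiset.replicate ((d + r).choose r - ∑ i, ell r (m i)) 1).filter (fun x => ¬ (x + M ≤ d)) = 0 := by
    rw [Multiset.filter_eq_nil]
    intro x hx
    rw [Multiset.eq_of_mem_replicate hx]
    omega
  rw [h1, tot_zero, add_zero, Multiset.filter_map]
  unfold tot
  rw [Multiset.map_map, ← Finset.filter_val]
  change ∑ i ∈ (univ.erase i₀).filter (fun x => ¬ (m x + M ≤ d)), ell r (m i) ≤ _
  apply Finset.sum_le_sum_of_subset
  intro j hj
  rw [Finset.mem_filter, Finset.mem_erase] at hj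
  rw [Finset.mem_filter]
  refine ⟨Finset.mem_univ _, ?_⟩
  have := hm j hj.1.1
  have h2 := hj.2
  omega

theorem pairs (d : ℕ) (η : ℝ) (hη : 0 < η) : ∃ r₀ : ℕ, ∀ r : ℕ, r₀ ≤ r → ∀ (k : ℕ)
    (m : Fin k → ℕ), (∀ i, 1 ≤ m i) → (∀ i j, i ≠ j → m i + m j ≤ d + 1) →
    ∀ M : ℕ, (∀ i, m i ≤ M) → (∃ i, m i = M) →
    (M < d → ((∑ i ∈ univ.filter (fun i => m i + M = d + 1), ell r (m i) : ℕ) : ℝ) ≤
      (1 - η) * ((d + r).choose r : ℝ)) →
    ForGeneralPoints r k fun p => ImposesMaximalConditions r d p m := by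
  have hd1 : (0 : ℝ) < (d : ℝ) + 1 := by positivity
  obtain ⟨r₁, hcore⟩ := core d (η / (2 * (d + 1))) (by positivity)
  obtain ⟨n₀, hgrow⟩ := grow_one d (2 / η)
  refine ⟨max (max r₁ n₀) 1, ?_⟩
  intro r hr k m hm hp M hM hex hH
  have hr1 : r₁ ≤ r := le_trans (le_max_left _ _) (le_trans (le_max_left _ _) hr)
  have hr2 : n₀ ≤ r := le_trans (le_max_right _ _) (le_trans (le_max_left _ _) hr)
  have hr3 : 1 ≤ r := le_trans (le_max_right _ _) hr
  obtain ⟨i₀, hi₀⟩ := hex
  rcases le_or_gt d M with hdM | hMd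
  · exact cone r d k hr3 m hm hp i₀ (by rw [hi₀]; exact hdM)
  have hH' := hH hMd
  set N : ℕ := ell r (d + 1) with hN
  have hNc : (d + r).choose r = N := (ell_eq_choose r d).symm
  rw [hNc] at hH'
  have hN1 : 1 ≤ N := ell_pos r (by omega)
  have hN0 : (0 : ℝ) < N := by exact_mod_cast hN1
  have hM1 : 1 ≤ M := by rw [← hi₀]; exact hm i₀
  have hpM : ∀ j, j ≠ i₀ → m j + M ≤ d + 1 := by
    intro j hj
    rw [← hi₀]
    exact hp j i₀ hj
  set S := Pair_S r d m i₀ with hS
  have hSmem : ∀ x ∈ S, 1 ≤ x ∧ x ≤ M ∧ x + M ≤ d + 1 := by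
    intro x hx
    rcases Pair_mem hx with ⟨j, hj, rfl⟩ | rfl
    · exact ⟨hm j, hM j, hpM j hj⟩
    · exact ⟨le_rfl, hM1, by omega⟩
  have haug : M ::ₘ S = aug r d m := by
    rw [hS, ← hi₀]
    exact Pair_aug r d m i₀
  have htot : N ≤ ell r M + tot r S := by
    rw [← tot_cons, haug]
    exact le_tot_aug r d m
  have hellM : (ell r M : ℝ) ≤ η / 2 * N := by
    have h1 := hgrow r hr2 M hMd.le
    have h2 : ((ell (r - 1) (d + 1) : ℕ) : ℝ) ≤ N := by exact_mod_cast Pair_ell r d
    have h3 : 2 / η * (ell r M : ℝ) ≤ N := h1.trans h2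
    have h4 : η / 2 * (2 / η * (ell r M : ℝ)) ≤ η / 2 * N := mul_le_mul_of_nonneg_left h3 (by positivity)
    have h5 : η / 2 * (2 / η * (ell r M : ℝ)) = ell r M := by
      field_simp
    rwa [h5] at h4
  set S' := S.filter fun x => x + M ≤ d with hS'
  have hsplit : tot r S = tot r S' + tot r (S.filter fun x => ¬ (x + M ≤ d)) := by
    rw [← tot_add, Multiset.filter_add_not]
  have hhi := Pair_hi r d m i₀ M hMd hpM
  rw [← hS] at hhi
  have hlow : η / 2 * N ≤ (tot r S' : ℝ) := by
    have h1 : (N : ℝ) ≤ ell r M + tot r S := by exact_mod_cast htot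
    have h2 : (tot r S : ℝ) = tot r S' + tot r (S.filter fun x => ¬ (x + M ≤ d)) := by exact_mod_cast hsplit
    have h3 : (tot r (S.filter fun x => ¬ (x + M ≤ d)) : ℝ) ≤
        ((∑ i ∈ univ.filter (fun i => m i + M = d + 1), ell r (m i) : ℕ) : ℝ) := by exact_mod_cast hhi
    nlinarith
  obtain ⟨μ, hμ1, hμ2, hμ3⟩ : ∃ μ : ℕ, 1 ≤ μ ∧ μ + M ≤ d ∧
      η / (2 * (d + 1)) * (N : ℝ) ≤ ((S.count μ * ell r μ : ℕ) : ℝ) := by
    by_contra hcon
    push Not at hcon
    have hS'm : ∀ x ∈ S', x ≤ d - M := by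
      intro x hx
      have := (Multiset.mem_filter.1 hx).2
      omega
    have h1 := Pair_tot r (d - M) S' hS'm
    have h2 : (tot r S' : ℝ) = ∑ μ ∈ Finset.range (d - M + 1), ((S'.count μ * ell r μ : ℕ) : ℝ) := by
      rw [h1]
      push_cast
      rfl
    have h3 : ∑ μ ∈ Finset.range (d - M + 1), ((S'.count μ * ell r μ : ℕ) : ℝ) ≤
        ∑ μ ∈ Finset.range (d - M + 1), η / (2 * (d + 1)) * (N : ℝ) := by
      apply Finset.sum_le_sum
      intro μ hμ
      rw [Finset.mem_range] at hμ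
      rcases Nat.eq_zero_or_pos μ with h0 | h0
      · rw [h0, ell_zero hr3, mul_zero, Nat.cast_zero]
        positivity
      · have h4 : S'.count μ = S.count μ := Multiset.count_filter_of_pos (p := fun x => x + M ≤ d) (by omega)
        rw [h4]
        exact (hcon μ h0 (by omega)).le
    rw [Finset.sum_const, Finset.card_range, nsmul_eq_mul] at h3
    have h5 : ((d - M + 1 : ℕ) : ℝ) ≤ (d : ℝ) := by
      have : d - M + 1 ≤ d := by omega
      exact_mod_cast this
    have h6 : ((d - M + 1 : ℕ) : ℝ) * (η / (2 * (d + 1)) * (N : ℝ)) ≤ d * (η / (2 * (d + 1)) * (N : ℝ)) :=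
      mul_le_mul_of_nonneg_right h5 (by positivity)
    have h7 : (d : ℝ) * (η / (2 * (d + 1)) * (N : ℝ)) < η / 2 * N := by
      have h8 : (d : ℝ) * (η / (2 * (d + 1)) * (N : ℝ)) = η / 2 * N * (d / (d + 1)) := by
        field_simp
      rw [h8]
      have h9 : (d : ℝ) / (d + 1) < 1 := by
        rw [div_lt_one hd1]
        linarith
      have h10 : 0 < η / 2 * (N : ℝ) := by positivity
      nlinarith
    linarith
  have hμM : μ ≤ M := by
    have h1 : 0 < S.count μ := by
      rcases Nat.eq_zero_or_pos (S.count μ) with h0 | h0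
      · rw [h0, zero_mul, Nat.cast_zero] at hμ3
        have : 0 < η / (2 * ((d : ℝ) + 1)) * (N : ℝ) := by positivity
        linarith
      · exact h0
    exact (hSmem μ (Multiset.count_pos.1 h1)).2.1
  refine max_of_GM r k d hr3 m ?_
  rw [← aug_map, ← haug]
  exact hcore r hr1 M μ M S hμ1 hμM hμ2 le_rfl hSmem htot hμ3

end Pool.Agent.H51.TB

end
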