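import Pool.Agent.H94.LP2.M10
import Pool.Agent.H94.LP2.M11

/-! The parts of this file: H21.NX.UDefs, H21.NX.UNum, H21.NX.VDefs, H21.NX.VEll. -/

section

/-!
# Module UDefs: the uniform version, numerical conditions
-/

namespace Pool.Agent.H21.NX

open Finset Pool.Agent.H18.Ex

/-- The maximal number of simple traces in a step. -/
def GG (s M : ℕ) : ℕ := ell s M ^ 2 + ell s M

/-- The numerical conditions of the uniform version. -/
structure UNum (s M D0 : ℕ) : Prop where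
  hM : 1 ≤ M
  hs : 16 * M ≤ s
  hD : 16 * M ≤ D0
  room : 16 * M * ell (s + 1) M ^ 3 ≤ ell s D0

/-- The size of the batch. -/
def a0 (s M D0 d : ℕ) : ℕ :=
  (d + 1) * GG s M + ell (s + 1) M + ell s M ^ 2 + ell (s + 1) D0

theorem ell_le_succ (s m : ℕ) (hs : 1 ≤ s) : ell s m ≤ ell (s + 1) m := by
  have := tot_le_tot_succ (N0 := {m}) s hs
  simpa [tot] using this

/-- Greedy choice of a sub-multiset, from below. -/
theorem greedy_below (n M x T : ℕ) (hx : x ≤ T) (R : Multiset ℕ) :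
    (∀ m ∈ R, m ≤ M) → T ≤ x + tot n R →
      ∃ R' ≤ R, x + tot n R' ≤ T ∧ T ≤ x + tot n R' + ell n M := by
  induction R using Multiset.induction_on with
  | empty =>
    intro _ hT
    refine ⟨0, le_rfl, ?_, ?_⟩
    · rw [show tot n 0 = 0 from rfl]
      exact hx
    · exact le_trans hT (Nat.le_add_right _ _)
  | cons a R ih =>
    intro hM hT
    have hcons : tot n (a ::ₘ R) = ell n a + tot n R := by
      unfold tot
      rw [Multiset.map_cons, Multiset.sum_cons]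
    by_cases h : T ≤ x + tot n R
    · obtain ⟨R', h1, h2, h3⟩ := ih (fun m hm => hM m (Multiset.mem_cons_of_mem hm)) h
      exact ⟨R', le_trans h1 (Multiset.le_cons_self _ _), h2, h3⟩
    · refine ⟨R, Multiset.le_cons_self _ _, by omega, ?_⟩
      have := ell_mono n (hM a (Multiset.mem_cons_self _ _))
      omega

namespace UNum

variable {s M D0 : ℕ} (h : UNum s M D0)

include h

theorem s1 : 1 ≤ s := by
  have := h.hs
  have := h.hM
  omega

theorem F1 : 1 ≤ ell (s + 1) M := ell_pos _ h.hM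

theorem E1 : 1 ≤ ell s M := ell_pos _ h.hM

theorem EF : ell s M ≤ ell (s + 1) M := ell_le_succ s M h.s1

theorem GG_le : GG s M ≤ 2 * ell (s + 1) M ^ 2 := by
  have h1 := h.E1
  have h2 := h.EF
  unfold GG
  have h3 : ell s M ^ 2 ≤ ell (s + 1) M ^ 2 := Nat.pow_le_pow_left h2 2
  have h4 : ell s M ≤ ell (s + 1) M ^ 2 := by nlinarith
  omega

theorem roomS {S : ℕ} (hS : D0 ≤ S) : 16 * M * ell (s + 1) M ^ 3 ≤ ell s S :=
  le_trans h.room (ell_mono _ hS)

/-- `2 * E(M)^2 ≤ E(S)`. -/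
theorem r1 {S : ℕ} (hS : D0 ≤ S) : 2 * ell s M ^ 2 ≤ ell s S := by
  refine le_trans ?_ (h.roomS hS)
  have h1 := h.F1
  have h2 := h.EF
  have h3 : ell s M ^ 2 ≤ ell (s + 1) M ^ 2 := Nat.pow_le_pow_left h2 2
  calc 2 * ell s M ^ 2 ≤ 2 * ell (s + 1) M ^ 2 := Nat.mul_le_mul_left _ h3
    _ = 2 * 1 * (ell (s + 1) M ^ 2 * 1) := by ring
    _ ≤ 16 * M * (ell (s + 1) M ^ 2 * ell (s + 1) M) :=
        Nat.mul_le_mul (Nat.mul_le_mul (by omega) h.hM) (Nat.mul_le_mul_left _ h1)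
    _ = _ := by ring

/-- `8 * G * E(M) ≤ E(S)`. -/
theorem r2 {S : ℕ} (hS : D0 ≤ S) : 8 * (GG s M * ell s M) ≤ ell s S := by
  refine le_trans ?_ (h.roomS hS)
  calc 8 * (GG s M * ell s M) ≤ 8 * (2 * ell (s + 1) M ^ 2 * ell (s + 1) M) :=
        Nat.mul_le_mul_left _ (Nat.mul_le_mul h.GG_le h.EF)
    _ = 16 * 1 * ell (s + 1) M ^ 3 := by ring
    _ ≤ _ := Nat.mul_le_mul_right _ (Nat.mul_le_mul_left _ h.hM)

/-- `2 * M * G * E(M) ≤ E(S)`. -/
theorem r3 {S : ℕ} (hS : D0 ≤ S) : 2 * (M * GG s M * ell s M) ≤ ell s S := by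
  refine le_trans ?_ (h.roomS hS)
  calc 2 * (M * GG s M * ell s M) ≤ 2 * (M * (2 * ell (s + 1) M ^ 2) * ell (s + 1) M) :=
        Nat.mul_le_mul_left _ (Nat.mul_le_mul (Nat.mul_le_mul_left _ h.GG_le) h.EF)
    _ = 4 * M * ell (s + 1) M ^ 3 := by ring
    _ ≤ _ := Nat.mul_le_mul_right _ (Nat.mul_le_mul_right _ (by omega))

/-- `2 * (F(M)^2 + F(M)) * F(M) ≤ E(S)`. -/
theorem r4 {S : ℕ} (hS : D0 ≤ S) :
    2 * ((ell (s + 1) M ^ 2 + ell (s + 1) M) * ell (s + 1) M) ≤ ell s S := by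
  refine le_trans ?_ (h.roomS hS)
  have h1 := h.F1
  have h2 : ell (s + 1) M ≤ ell (s + 1) M ^ 2 := by nlinarith
  calc 2 * ((ell (s + 1) M ^ 2 + ell (s + 1) M) * ell (s + 1) M) ≤
      2 * ((ell (s + 1) M ^ 2 + ell (s + 1) M ^ 2) * ell (s + 1) M) :=
        Nat.mul_le_mul_left _ (Nat.mul_le_mul_right _ (Nat.add_le_add_left h2 _))
    _ = 4 * 1 * ell (s + 1) M ^ 3 := by ring
    _ ≤ _ := Nat.mul_le_mul_right _ (Nat.mul_le_mul (by omega) h.hM)

/-- The new load is small: `8 * x * E(S) ≤ (x + s) * E(S - 1)` for `x = M - 1`. -/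
theorem load {S : ℕ} (hS : D0 + 1 ≤ S) :
    8 * ((M - 1) * ell s S) ≤ (M - 1 + s) * ell s (S - 1) := by
  have h1 := h.hs
  have h2 := h.hD
  have h3 := h.hM
  obtain ⟨k, rfl⟩ : ∃ k, S = k + 1 := ⟨S - 1, by omega⟩
  rw [Nat.add_sub_cancel]
  have hrel : ell s k * (k + s) = ell s (k + 1) * k := ell_mul_add s k h.s1
  have hk : 0 < k := by omega
  refine Nat.le_of_mul_le_mul_right ?_ (show 0 < k from hk)
  obtain ⟨x, hx⟩ : ∃ x, M - 1 = x := ⟨_, rfl⟩
  rw [hx]
  have e1 : 8 * (x * (k + s)) ≤ (x + s) * k := by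
    have hxs : 16 * x ≤ s := by omega
    have hxk : 16 * x ≤ k := by omega
    have e2 : 16 * x * k ≤ s * k := Nat.mul_le_mul_right _ hxs
    have e3 : 16 * x * s ≤ k * s := Nat.mul_le_mul_right _ hxk
    nlinarith
  calc 8 * (x * ell s (k + 1)) * k = 8 * x * (ell s (k + 1) * k) := by ring
    _ = 8 * x * (ell s k * (k + s)) := by rw [hrel]
    _ = 8 * (x * (k + s)) * ell s k := by ring
    _ ≤ (x + s) * k * ell s k := Nat.mul_le_mul_right _ e1
    _ = (x + s) * ell s k * k := by ring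

end UNum

end Pool.Agent.H21.NX

end

section

/-!
# Module UNum: the numerical conditions of the uniform version
-/

namespace Pool.Agent.H21.NX

open Finset Pool.Agent.H18.Ex

theorem big_step (s M D0 d : ℕ) (hs : 1 ≤ s)
    (h : 2 * ((a0 s M D0 d + M * GG s M) * (M * ell (s + 1) M)) ≤ ell s (d + 1)) :
    2 * ((a0 s M D0 (d + 1) + M * GG s M) * (M * ell (s + 1) M)) ≤ ell s (d + 1 + 1) := by
  have hrel : ell s (d + 1) * (d + 1 + s) = ell s (d + 1 + 1) * (d + 1) :=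
    ell_mul_add s (d + 1) hs
  have ha : a0 s M D0 (d + 1) = a0 s M D0 d + GG s M := by
    unfold a0
    ring
  have h1 : 2 * ((d + 1) * GG s M * (M * ell (s + 1) M)) ≤ ell s (d + 1) := by
    refine le_trans ?_ h
    refine Nat.mul_le_mul_left _ (Nat.mul_le_mul_right _ ?_)
    unfold a0
    omega
  refine Nat.le_of_mul_le_mul_right ?_ (show 0 < d + 1 by omega)
  rw [← hrel, ha]
  calc 2 * ((a0 s M D0 d + GG s M + M * GG s M) * (M * ell (s + 1) M)) * (d + 1) =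
      2 * ((a0 s M D0 d + M * GG s M) * (M * ell (s + 1) M)) * (d + 1) +
        2 * ((d + 1) * GG s M * (M * ell (s + 1) M)) * 1 := by ring
    _ ≤ ell s (d + 1) * (d + 1) + ell s (d + 1) * s :=
        Nat.add_le_add (Nat.mul_le_mul_right _ h) (Nat.mul_le_mul h1 hs)
    _ = _ := by ring

theorem exists_unum (M : ℕ) (hM : 1 ≤ M) : ∃ D0 D1 s0 : ℕ, ∀ s, s0 ≤ s → ∀ d, D1 ≤ d →
    UNum s M D0 ∧ D0 + M ≤ d ∧
    2 * ((a0 s M D0 d + M * GG s M) * (M * ell (s + 1) M)) ≤ ell s (d + 1) := by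
  -- constants
  obtain ⟨D0, hD0⟩ : ∃ D0, D0 = 16 * M := ⟨_, rfl⟩
  obtain ⟨D1, hD1⟩ : ∃ D1, D1 = 20 * M := ⟨_, rfl⟩
  obtain ⟨C1, hC1⟩ : ∃ C1, C1 = 16 * M * 2 ^ (3 * (M - 1)) * D0 ^ D0 := ⟨_, rfl⟩
  obtain ⟨C2, hC2⟩ : ∃ C2, C2 = 2 * ((2 * (D1 + 1 + M) + 3) * M) * 2 ^ (D0 - 1 + (M - 1)) *
    (D1 + 1) ^ (D1 + 1) := ⟨_, rfl⟩
  refine ⟨D0, D1, 16 * M + C1 + C2 + D0 + D1 + 1, fun s hs d hd => ?_⟩
  have hs1 : 1 ≤ s := by omega
  have hs16 : 16 * M ≤ s := by omega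
  have hsC1 : C1 ≤ s := by omega
  have hsC2 : C2 ≤ s := by omega
  have hFM : ell (s + 1) M ≤ (2 * s) ^ (M - 1) := ell_succ_le_pow s M hM (by omega)
  have hEM : ell s M ≤ (2 * s) ^ (M - 1) := ell_le_pow s M hM (by omega)
  have hFD : ell (s + 1) D0 ≤ (2 * s) ^ (D0 - 1) := ell_succ_le_pow s D0 (by omega) (by omega)
  have hun : UNum s M D0 := by
    refine ⟨hM, hs16, by omega, ?_⟩
    have h1 : s ^ (D0 - 1) ≤ D0 ^ D0 * ell s D0 := pow_le_ell s D0 (by omega)
    have h2 : 0 < D0 ^ D0 := Nat.pow_pos (by omega)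
    refine Nat.le_of_mul_le_mul_left (le_trans ?_ h1) h2
    calc D0 ^ D0 * (16 * M * ell (s + 1) M ^ 3) ≤
        D0 ^ D0 * (16 * M * ((2 * s) ^ (M - 1)) ^ 3) :=
          Nat.mul_le_mul_left _ (Nat.mul_le_mul_left _ (Nat.pow_le_pow_left hFM 3))
      _ = 16 * M * 2 ^ (3 * (M - 1)) * D0 ^ D0 * s ^ (3 * (M - 1)) := by
          rw [← pow_mul, mul_pow, mul_comm (M - 1) 3]
          ring
      _ = C1 * s ^ (3 * (M - 1)) := by rw [hC1]
      _ ≤ s * s ^ (3 * (M - 1)) := Nat.mul_le_mul_right _ hsC1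
      _ = s ^ (3 * (M - 1) + 1) := by ring
      _ ≤ s ^ (D0 - 1) := Nat.pow_le_pow_right hs1 (by omega)
  refine ⟨hun, by omega, ?_⟩
  -- the base case of the induction on the degree
  have hbase : 2 * ((a0 s M D0 D1 + M * GG s M) * (M * ell (s + 1) M)) ≤ ell s (D1 + 1) := by
    have h1 : s ^ (D1 + 1 - 1) ≤ (D1 + 1) ^ (D1 + 1) * ell s (D1 + 1) :=
      pow_le_ell s (D1 + 1) (by omega)
    have h2 : 0 < (D1 + 1) ^ (D1 + 1) := Nat.pow_pos (by omega)
    have hx1 : 1 ≤ 2 * s := by omega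
    obtain ⟨x, hx⟩ : ∃ x, x = (2 * s) ^ (D0 - 1) := ⟨_, rfl⟩
    have hGx : GG s M ≤ 2 * x := by
      have e1 : ell s M ^ 2 ≤ x := by
        calc ell s M ^ 2 ≤ ((2 * s) ^ (M - 1)) ^ 2 := Nat.pow_le_pow_left hEM 2
          _ = (2 * s) ^ ((M - 1) * 2) := by rw [← pow_mul]
          _ ≤ (2 * s) ^ (D0 - 1) := Nat.pow_le_pow_right hx1 (by omega)
          _ = x := hx.symm
      have e2 : ell s M ≤ x := by
        calc ell s M ≤ (2 * s) ^ (M - 1) := hEM
          _ ≤ (2 * s) ^ (D0 - 1) := Nat.pow_le_pow_right hx1 (by omega)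
          _ = x := hx.symm
      unfold GG
      omega
    have hE2 : ell s M ^ 2 ≤ x := by
      calc ell s M ^ 2 ≤ ((2 * s) ^ (M - 1)) ^ 2 := Nat.pow_le_pow_left hEM 2
        _ = (2 * s) ^ ((M - 1) * 2) := by rw [← pow_mul]
        _ ≤ (2 * s) ^ (D0 - 1) := Nat.pow_le_pow_right hx1 (by omega)
        _ = x := hx.symm
    have hFx : ell (s + 1) M ≤ x := by
      calc ell (s + 1) M ≤ (2 * s) ^ (M - 1) := hFM
        _ ≤ (2 * s) ^ (D0 - 1) := Nat.pow_le_pow_right hx1 (by omega)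
        _ = x := hx.symm
    have hFDx : ell (s + 1) D0 ≤ x := by rw [hx]; exact hFD
    have ha : a0 s M D0 D1 + M * GG s M ≤ (2 * (D1 + 1 + M) + 3) * x := by
      unfold a0
      have e1 : (D1 + 1) * GG s M ≤ (D1 + 1) * (2 * x) := Nat.mul_le_mul_left _ hGx
      have e2 : M * GG s M ≤ M * (2 * x) := Nat.mul_le_mul_left _ hGx
      calc (D1 + 1) * GG s M + ell (s + 1) M + ell s M ^ 2 + ell (s + 1) D0 + M * GG s M ≤
          (D1 + 1) * (2 * x) + x + x + x + M * (2 * x) := by omega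
        _ = _ := by ring
    refine Nat.le_of_mul_le_mul_left (le_trans ?_ h1) h2
    calc (D1 + 1) ^ (D1 + 1) * (2 * ((a0 s M D0 D1 + M * GG s M) * (M * ell (s + 1) M))) ≤
        (D1 + 1) ^ (D1 + 1) * (2 * (((2 * (D1 + 1 + M) + 3) * x) * (M * (2 * s) ^ (M - 1)))) :=
          Nat.mul_le_mul_left _ (Nat.mul_le_mul_left _ (Nat.mul_le_mul ha
            (Nat.mul_le_mul_left _ hFM)))
      _ = 2 * ((2 * (D1 + 1 + M) + 3) * M) * 2 ^ (D0 - 1 + (M - 1)) *
            (D1 + 1) ^ (D1 + 1) * s ^ (D0 - 1 + (M - 1)) := by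
          rw [hx, mul_pow, mul_pow, pow_add, pow_add]
          ring
      _ = C2 * s ^ (D0 - 1 + (M - 1)) := by rw [hC2]
      _ ≤ s * s ^ (D0 - 1 + (M - 1)) := Nat.mul_le_mul_right _ hsC2
      _ = s ^ (D0 - 1 + (M - 1) + 1) := by ring
      _ ≤ s ^ (D1 + 1 - 1) := Nat.pow_le_pow_right hs1 (by omega)
  exact Nat.le_induction hbase (fun d _ ih => big_step s M D0 d hs1 ih) d hd

end Pool.Agent.H21.NX

end

section

/-!
# Module VDefs: the version for every dimension, numerical conditions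
-/

namespace Pool.Agent.H21.NX

open Finset Pool.Agent.H18.Ex

/-- The numerical conditions, every dimension. -/
structure VNum (s M D0 : ℕ) : Prop where
  hM : 1 ≤ M
  s1 : 1 ≤ s
  hD : 16 * M ≤ D0
  room : 16 * M * ell (s + 1) M ^ 3 ≤ ell s D0

/-- The excess needed on the hyperplane in the overfull case. -/
def WW (s M : ℕ) : ℕ := GG s M * ell s M

/-- The base case of the overfull peeling. -/
def base (s M D0 : ℕ) : ℕ := ell (s + 1) D0 * ell (s + 1) M + M * ell s D0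

namespace VNum

variable {s M D0 : ℕ} (h : VNum s M D0)

include h

theorem F1 : 1 ≤ ell (s + 1) M := ell_pos _ h.hM

theorem E1 : 1 ≤ ell s M := ell_pos _ h.hM

theorem EF : ell s M ≤ ell (s + 1) M := ell_le_succ s M h.s1

theorem GG_le : GG s M ≤ 2 * ell (s + 1) M ^ 2 := by
  have h1 := h.E1
  have h2 := h.EF
  unfold GG
  have h3 : ell s M ^ 2 ≤ ell (s + 1) M ^ 2 := Nat.pow_le_pow_left h2 2
  have h4 : ell s M ≤ ell (s + 1) M ^ 2 := by nlinarith
  omega

theorem roomS {S : ℕ} (hS : D0 ≤ S) : 16 * M * ell (s + 1) M ^ 3 ≤ ell s S :=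
  le_trans h.room (ell_mono _ hS)

/-- `2 * M * E(M)^2 ≤ E(S)`. -/
theorem r1 {S : ℕ} (hS : D0 ≤ S) : 2 * M * ell s M ^ 2 ≤ ell s S := by
  refine le_trans ?_ (h.roomS hS)
  have h1 := h.F1
  have h2 := h.EF
  have h3 : ell s M ^ 2 ≤ ell (s + 1) M ^ 2 := Nat.pow_le_pow_left h2 2
  calc 2 * M * ell s M ^ 2 ≤ 2 * M * ell (s + 1) M ^ 2 := Nat.mul_le_mul_left _ h3
    _ = 2 * M * (ell (s + 1) M ^ 2 * 1) := by ring
    _ ≤ 16 * M * (ell (s + 1) M ^ 2 * ell (s + 1) M) :=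
        Nat.mul_le_mul (Nat.mul_le_mul_right _ (by omega)) (Nat.mul_le_mul_left _ h1)
    _ = _ := by ring

/-- `4 * M * (G * E(M)) ≤ E(S)`. -/
theorem r2 {S : ℕ} (hS : D0 ≤ S) : 4 * M * (GG s M * ell s M) ≤ ell s S := by
  refine le_trans ?_ (h.roomS hS)
  calc 4 * M * (GG s M * ell s M) ≤ 4 * M * (2 * ell (s + 1) M ^ 2 * ell (s + 1) M) :=
        Nat.mul_le_mul_left _ (Nat.mul_le_mul h.GG_le h.EF)
    _ = 8 * M * ell (s + 1) M ^ 3 := by ring
    _ ≤ _ := Nat.mul_le_mul_right _ (Nat.mul_le_mul_right _ (by omega))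

/-- `2 * M * G * E(M) ≤ E(S)`. -/
theorem r3 {S : ℕ} (hS : D0 ≤ S) : 2 * (M * GG s M * ell s M) ≤ ell s S := by
  refine le_trans ?_ (h.r2 hS)
  calc 2 * (M * GG s M * ell s M) = 2 * M * (GG s M * ell s M) := by ring
    _ ≤ _ := Nat.mul_le_mul_right _ (Nat.mul_le_mul_right _ (by omega))

/-- `4 * M * (W + E(M)) ≤ E(S)`. -/
theorem r4 {S : ℕ} (hS : D0 ≤ S) : 4 * M * (WW s M + ell s M) ≤ ell s S := by
  refine le_trans ?_ (h.roomS hS)
  have h1 := h.F1
  have h2 := h.EF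
  have h3 : ell s M ≤ ell (s + 1) M ^ 3 := by
    calc ell s M ≤ ell (s + 1) M := h2
      _ = ell (s + 1) M ^ 1 := (pow_one _).symm
      _ ≤ _ := Nat.pow_le_pow_right h1 (by omega)
  have h4 : WW s M ≤ 2 * ell (s + 1) M ^ 3 := by
    unfold WW
    calc GG s M * ell s M ≤ 2 * ell (s + 1) M ^ 2 * ell (s + 1) M :=
          Nat.mul_le_mul h.GG_le h.EF
      _ = _ := by ring
  calc 4 * M * (WW s M + ell s M) ≤ 4 * M * (2 * ell (s + 1) M ^ 3 + ell (s + 1) M ^ 3) :=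
        Nat.mul_le_mul_left _ (Nat.add_le_add h4 h3)
    _ = 12 * M * ell (s + 1) M ^ 3 := by ring
    _ ≤ _ := Nat.mul_le_mul_right _ (Nat.mul_le_mul_right _ (by omega))

/-- `E(M)^2 ≤ E(S) - load`. -/
theorem below {S x : ℕ} (hS : D0 ≤ S) (hx : 2 * M * x ≤ (2 * M - 1) * ell s S) :
    x + ell s M ^ 2 ≤ ell s S := by
  have h1 := h.r1 hS
  have hM := h.hM
  have hpos : 0 < 2 * M := by omega
  refine Nat.le_of_mul_le_mul_left ?_ hpos
  have h2 : (2 * M - 1) * ell s S + ell s S = 2 * M * ell s S := by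
    obtain ⟨K, hK⟩ : ∃ K, 2 * M = K + 1 := ⟨2 * M - 1, by omega⟩
    rw [hK, Nat.add_sub_cancel]
    ring
  calc 2 * M * (x + ell s M ^ 2) = 2 * M * x + 2 * M * ell s M ^ 2 := by ring
    _ ≤ (2 * M - 1) * ell s S + ell s S := Nat.add_le_add hx h1
    _ = _ := h2

/-- The new load. -/
theorem load {S t e : ℕ} (hS : D0 + 1 ≤ S)
    (ht : (M - 1 + s) * t ≤ (M - 1) * ell s S + (M - 1 + s) * e)
    (he : 4 * M * e ≤ ell s (S - 1)) : 2 * M * t ≤ (2 * M - 1) * ell s (S - 1) := by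
  have h1 := h.s1
  have h2 := h.hD
  have h3 := h.hM
  obtain ⟨k, rfl⟩ : ∃ k, S = k + 1 := ⟨S - 1, by omega⟩
  rw [Nat.add_sub_cancel] at he ⊢
  have hrel : ell s k * (k + s) = ell s (k + 1) * k := ell_mul_add s k h.s1
  have hk : 0 < k := by omega
  obtain ⟨x, rfl⟩ : ∃ x, M = x + 1 := ⟨M - 1, by omega⟩
  rw [Nat.add_sub_cancel] at ht
  rw [show 2 * (x + 1) - 1 = 2 * x + 1 by omega]
  have hpos : 0 < 2 * (k * (x + s)) := Nat.mul_pos (by omega) (Nat.mul_pos hk (by omega))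
  refine Nat.le_of_mul_le_mul_left ?_ hpos
  have e1 : 2 * (k * (x + s)) * (2 * (x + 1) * t) ≤
      (4 * (x + 1) * (x * (k + s)) + k * (x + s)) * ell s k := by
    calc 2 * (k * (x + s)) * (2 * (x + 1) * t) = 4 * (x + 1) * k * ((x + s) * t) := by ring
      _ ≤ 4 * (x + 1) * k * (x * ell s (k + 1) + (x + s) * e) := Nat.mul_le_mul_left _ ht
      _ = 4 * (x + 1) * x * (ell s (k + 1) * k) + k * (x + s) * (4 * (x + 1) * e) := by ring
      _ ≤ 4 * (x + 1) * x * (ell s (k + 1) * k) + k * (x + s) * ell s k :=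
          Nat.add_le_add_left (Nat.mul_le_mul_left _ he) _
      _ = 4 * (x + 1) * x * (ell s k * (k + s)) + k * (x + s) * ell s k := by rw [hrel]
      _ = _ := by ring
  have e2 : 4 * (x + 1) * (x * (k + s)) + k * (x + s) ≤ 2 * (k * (x + s)) * (2 * x + 1) := by
    obtain ⟨y, rfl⟩ : ∃ y, s = y + 1 := ⟨s - 1, by omega⟩
    obtain ⟨j, rfl⟩ : ∃ j, k = 4 * x + j := ⟨k - 4 * x, by omega⟩
    -- 3 k (x + s) ≤ 4 M s (k - x)
    have e3 : 3 * ((4 * x + j) * (x + (y + 1))) ≤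
        4 * (x + 1) * ((y + 1) * (3 * x + j)) := by
      have e4 : x + (y + 1) ≤ (x + 1) * (y + 1) := by nlinarith [Nat.zero_le (x * y)]
      calc 3 * ((4 * x + j) * (x + (y + 1))) ≤ 3 * ((4 * x + j) * ((x + 1) * (y + 1))) :=
            Nat.mul_le_mul_left _ (Nat.mul_le_mul_left _ e4)
        _ = (12 * x + 3 * j) * ((x + 1) * (y + 1)) := by ring
        _ ≤ (12 * x + 4 * j) * ((x + 1) * (y + 1)) := Nat.mul_le_mul_right _ (by omega)
        _ = _ := by ring
    nlinarith [e3]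
  calc 2 * (k * (x + s)) * (2 * (x + 1) * t) ≤
      (4 * (x + 1) * (x * (k + s)) + k * (x + s)) * ell s k := e1
    _ ≤ (2 * (k * (x + s)) * (2 * x + 1)) * ell s k := Nat.mul_le_mul_right _ e2
    _ = _ := by ring

end VNum

end Pool.Agent.H21.NX

end

section

/-!
# Module VEll: inequalities for the lengths
-/

namespace Pool.Agent.H21.NX

open Finset Pool.Agent.H18.Ex

/-- Multiplicativity. -/
theorem ell_mul_le (s a b : ℕ) (ha : 1 ≤ a) (hb : 1 ≤ b) (hs : 1 ≤ s) :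
    ell s a * ell s b ≤ ell s (a * b) := by
  induction s, hs using Nat.le_induction with
  | base =>
    have h1 : ∀ c, ell 1 c = c := fun c => by
      unfold ell
      rw [Nat.add_sub_cancel, Nat.choose_one_right]
    rw [h1, h1, h1]
  | succ s hs ih =>
    have h1 := ell_succ_mul s a hs
    have h2 := ell_succ_mul s b hs
    have h3 := ell_succ_mul s (a * b) hs
    have hpos : 0 < (s + 1) * (s + 1) := by positivity
    refine Nat.le_of_mul_le_mul_left ?_ hpos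
    have h4 : (a + s) * (b + s) ≤ (s + 1) * (a * b + s) := by
      obtain ⟨x, rfl⟩ : ∃ x, a = x + 1 := ⟨a - 1, by omega⟩
      obtain ⟨y, rfl⟩ : ∃ y, b = y + 1 := ⟨b - 1, by omega⟩
      nlinarith [Nat.zero_le (s * (x * y))]
    calc (s + 1) * (s + 1) * (ell (s + 1) a * ell (s + 1) b) =
        ((s + 1) * ell (s + 1) a) * ((s + 1) * ell (s + 1) b) := by ring
      _ = ((a + s) * ell s a) * ((b + s) * ell s b) := by rw [h1, h2]
      _ = ((a + s) * (b + s)) * (ell s a * ell s b) := by ring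
      _ ≤ ((s + 1) * (a * b + s)) * ell s (a * b) := Nat.mul_le_mul h4 ih
      _ = (s + 1) * ((a * b + s) * ell s (a * b)) := by ring
      _ = _ := by rw [h3]; ring

/-- `x ^ 2 ≤ 2 * E(x)` for `s ≥ 2`. -/
theorem sq_le_ell (s x : ℕ) (hs : 2 ≤ s) : x ^ 2 ≤ 2 * ell s x := by
  have h1 : x ^ 2 ≤ 2 * ell 2 x := by
    rcases Nat.eq_zero_or_pos x with h | h
    · subst h
      simp
    unfold ell
    rw [show x + 2 - 1 = x + 1 by omega, Nat.choose_two_right, Nat.add_sub_cancel]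
    have : 2 * ((x + 1) * x / 2) = (x + 1) * x := by
      refine Nat.mul_div_cancel' ?_
      rw [mul_comm]
      exact (Nat.even_mul_succ_self x).two_dvd
    rw [this]
    nlinarith
  refine le_trans h1 (Nat.mul_le_mul_left _ ?_)
  induction s, hs using Nat.le_induction with
  | base => exact le_rfl
  | succ s hs ih => exact le_trans ih (ell_le_succ s x (by omega))

theorem pow_self_le (s : ℕ) : s ^ s ≤ s.factorial * 4 ^ s := by
  have h1 := Nat.pow_sub_le_descFactorial (2 * s) s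
  have h2 : (2 * s).choose s ≤ 2 ^ (2 * s) := Nat.choose_le_two_pow _ _
  rw [show 2 * s + 1 - s = s + 1 by omega] at h1
  have h3 : (s + 1) ^ s ≤ s.factorial * (2 * s).choose s := by
    rwa [Nat.descFactorial_eq_factorial_mul_choose] at h1
  calc s ^ s ≤ (s + 1) ^ s := Nat.pow_le_pow_left (by omega) _
    _ ≤ s.factorial * (2 * s).choose s := h3
    _ ≤ s.factorial * 2 ^ (2 * s) := Nat.mul_le_mul_left _ h2
    _ = _ := by rw [pow_mul]; norm_num

theorem pow_le_ell_mul (s y : ℕ) (hs : 1 ≤ s) : y ^ s ≤ ell s (y * s) := by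
  have h1 := Nat.pow_sub_le_descFactorial (y * s + s - 1) s
  rw [show y * s + s - 1 + 1 - s = y * s by omega,
    Nat.descFactorial_eq_factorial_mul_choose] at h1
  have h2 : (y * s) ^ s ≤ s.factorial * ell s (y * s) := h1
  refine Nat.le_of_mul_le_mul_left ?_ (Nat.factorial_pos s)
  calc s.factorial * y ^ s ≤ s ^ s * y ^ s := Nat.mul_le_mul_right _ (Nat.factorial_le_pow s)
    _ = (y * s) ^ s := by rw [mul_pow, mul_comm]
    _ ≤ _ := h2

theorem ell_mul_le_pow (s t : ℕ) (ht : 1 ≤ t) : ell s (t * s) ≤ (8 * t) ^ s := by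
  have h1 : s.factorial * ell s (t * s) ≤ (t * s + s - 1) ^ s := by
    unfold ell
    rw [← Nat.descFactorial_eq_factorial_mul_choose]
    exact Nat.descFactorial_le_pow _ _
  have h2 : (t * s + s - 1) ^ s ≤ (2 * t * s) ^ s := by
    refine Nat.pow_le_pow_left ?_ _
    have : 1 * s ≤ t * s := Nat.mul_le_mul_right _ ht
    have h3 : 2 * t * s = t * s + t * s := by ring
    omega
  have h3 := pow_self_le s
  refine Nat.le_of_mul_le_mul_left ?_ (Nat.factorial_pos s)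
  calc s.factorial * ell s (t * s) ≤ (2 * t * s) ^ s := le_trans h1 h2
    _ = (2 * t) ^ s * s ^ s := mul_pow _ _ _
    _ ≤ (2 * t) ^ s * (s.factorial * 4 ^ s) := Nat.mul_le_mul_left _ h3
    _ = s.factorial * ((2 * t) ^ s * 4 ^ s) := by ring
    _ = s.factorial * (8 * t) ^ s := by
        rw [← mul_pow]
        ring

/-- Submultiplicativity. -/
theorem ell_mul_ell_le (s a b : ℕ) :
    ell s (a + 1) * ell s (b + 1) ≤ (a + b).choose a * ell s (a + b + 1) := by
  have h1 : ell s (a + b + 1) = (a + b + s).choose (a + b) := by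
    unfold ell
    rw [show a + b + 1 + s - 1 = (a + b) + s by omega, Nat.choose_symm_add]
  have h2 := Nat.choose_mul (n := a + b + s) (k := a + b) (s := a) (by omega)
  rw [show a + b + s - a = b + s by omega, Nat.add_sub_cancel_left] at h2
  have h3 : ell s (b + 1) = (b + s).choose b := by
    unfold ell
    rw [show b + 1 + s - 1 = b + s by omega, Nat.choose_symm_add]
  have h4 : ell s (a + 1) ≤ (a + b + s).choose a := by
    unfold ell
    rw [show a + 1 + s - 1 = a + s by omega, ← Nat.choose_symm_add]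
    exact Nat.choose_le_choose a (by omega)
  rw [h1, mul_comm ((a + b).choose a), h2, h3]
  exact Nat.mul_le_mul_right _ h4

theorem ell_mul_ell_le_two (s a b : ℕ) (ha : 1 ≤ a) (hb : 1 ≤ b) :
    ell s a * ell s b ≤ 2 ^ (a + b) * ell s (a + b) := by
  obtain ⟨x, rfl⟩ : ∃ x, a = x + 1 := ⟨a - 1, by omega⟩
  obtain ⟨y, rfl⟩ : ∃ y, b = y + 1 := ⟨b - 1, by omega⟩
  refine le_trans (ell_mul_ell_le s x y) (Nat.mul_le_mul ?_ (ell_mono _ (by omega)))
  exact le_trans (Nat.choose_le_two_pow _ _) (Nat.pow_le_pow_right (by omega) (by omega))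

/-- Growth: `(2c)^i E(c+i) ≥ (2c+s)^i E(c)` for `i ≤ c`. -/
theorem growth (s c : ℕ) (hs : 1 ≤ s) : ∀ i, i ≤ c →
    (2 * c + s) ^ i * ell s c ≤ (2 * c) ^ i * ell s (c + i) := by
  intro i
  induction i with
  | zero => simp
  | succ i ih =>
    intro hi
    have h1 := ih (by omega)
    have hrel := ell_mul_add s (c + i) hs
    rcases Nat.eq_zero_or_pos (c + i) with h0 | h0
    · omega
    have h2 : (2 * c + s) * ell s (c + i) ≤ 2 * c * ell s (c + (i + 1)) := by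
      refine Nat.le_of_mul_le_mul_right ?_ h0
      rw [← add_assoc]
      calc (2 * c + s) * ell s (c + i) * (c + i) =
          ((2 * c + s) * (c + i)) * ell s (c + i) := by ring
        _ ≤ (2 * c * (c + i + s)) * ell s (c + i) := by
            refine Nat.mul_le_mul_right _ ?_
            have : s * (c + i) ≤ s * (2 * c) := Nat.mul_le_mul_left _ (by omega)
            nlinarith
        _ = 2 * c * (ell s (c + i) * (c + i + s)) := by ring
        _ = 2 * c * (ell s (c + i + 1) * (c + i)) := by rw [hrel]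
        _ = _ := by ring
    calc (2 * c + s) ^ (i + 1) * ell s c = (2 * c + s) * ((2 * c + s) ^ i * ell s c) := by ring
      _ ≤ (2 * c + s) * ((2 * c) ^ i * ell s (c + i)) := Nat.mul_le_mul_left _ h1
      _ = (2 * c) ^ i * ((2 * c + s) * ell s (c + i)) := by ring
      _ ≤ (2 * c) ^ i * (2 * c * ell s (c + (i + 1))) := Nat.mul_le_mul_left _ h2
      _ = _ := by ring

theorem bernoulli_nat (q : ℕ) (h : 0 < q) : 3 * (2 * q) ^ q ≤ 2 * (2 * q + 1) ^ q := by
  have h1 : (1 : ℝ) + (q : ℝ) * (1 / (2 * q)) ≤ (1 + 1 / (2 * q)) ^ q :=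
    one_add_mul_le_pow (by
      have : (0 : ℝ) ≤ 1 / (2 * q) := by positivity
      linarith) q
  have hq : (0 : ℝ) < q := by exact_mod_cast h
  have h2 : (q : ℝ) * (1 / (2 * q)) = 1 / 2 := by field_simp
  rw [h2] at h1
  have h3 : (1 + 1 / (2 * (q : ℝ))) ^ q * (2 * q) ^ q = (2 * q + 1) ^ q := by
    rw [← mul_pow]
    congr 1
    field_simp
  have h4 : (3 : ℝ) * (2 * q) ^ q ≤ 2 * (2 * q + 1) ^ q := by
    rw [← h3]
    have h5 : (0 : ℝ) ≤ (2 * (q : ℝ)) ^ q := by positivity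
    nlinarith
  exact_mod_cast h4

/-- Doubling. -/
theorem doubling (s M q : ℕ) (hM : 1 ≤ M) (hs : M ≤ s) :
    3 ^ M * ell s (q * M) ≤ 2 ^ M * ell s (2 * (q * M)) := by
  have h1 := growth s (q * M) (by omega) (q * M) le_rfl
  rcases Nat.eq_zero_or_pos q with hq | hq
  · subst hq
    rw [Nat.zero_mul, ell_zero (by omega), Nat.mul_zero]
    exact Nat.zero_le _
  have hpos : 0 < (2 * (q * M)) ^ (q * M) := by positivity
  refine Nat.le_of_mul_le_mul_left ?_ hpos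
  have h2 : (2 * (q * M)) ^ (q * M) * 3 ^ M ≤ 2 ^ M * (2 * (q * M) + s) ^ (q * M) := by
    calc (2 * (q * M)) ^ (q * M) * 3 ^ M = M ^ (q * M) * (3 * (2 * q) ^ q) ^ M := by
          rw [mul_pow 3, ← pow_mul, show 2 * (q * M) = (2 * q) * M by ring, mul_pow]
          ring
      _ ≤ M ^ (q * M) * (2 * (2 * q + 1) ^ q) ^ M :=
          Nat.mul_le_mul_left _ (Nat.pow_le_pow_left (bernoulli_nat q hq) _)
      _ = 2 ^ M * ((2 * q + 1) * M) ^ (q * M) := by
          rw [mul_pow 2, ← pow_mul, mul_pow (2 * q + 1)]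
          ring
      _ ≤ _ := by
          refine Nat.mul_le_mul_left _ (Nat.pow_le_pow_left ?_ _)
          nlinarith
  calc (2 * (q * M)) ^ (q * M) * (3 ^ M * ell s (q * M)) =
      ((2 * (q * M)) ^ (q * M) * 3 ^ M) * ell s (q * M) := by ring
    _ ≤ (2 ^ M * (2 * (q * M) + s) ^ (q * M)) * ell s (q * M) := Nat.mul_le_mul_right _ h2
    _ = 2 ^ M * ((2 * (q * M) + s) ^ (q * M) * ell s (q * M)) := by ring
    _ ≤ 2 ^ M * ((2 * (q * M)) ^ (q * M) * ell s (q * M + q * M)) := Nat.mul_le_mul_left _ h1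
    _ = _ := by
        rw [← two_mul (q * M)]
        ring

theorem quadrupling (s M q : ℕ) (hM : 1 ≤ M) (hs : M ≤ s) :
    2 ^ M * ell s (q * M) ≤ ell s (4 * q * M) := by
  have h1 := doubling s M q hM hs
  have h2 := doubling s M (2 * q) hM hs
  rw [show 2 * (q * M) = 2 * q * M by ring] at h1
  rw [show 2 * (2 * q * M) = 4 * q * M by ring] at h2
  have hpos : 0 < 4 ^ M := by positivity
  refine Nat.le_of_mul_le_mul_left ?_ hpos
  calc 4 ^ M * (2 ^ M * ell s (q * M)) = 8 ^ M * ell s (q * M) := by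
        rw [← mul_assoc, ← mul_pow]
        norm_num
    _ ≤ 9 ^ M * ell s (q * M) := Nat.mul_le_mul_right _ (Nat.pow_le_pow_left (by omega) _)
    _ = 3 ^ M * (3 ^ M * ell s (q * M)) := by
        rw [← mul_assoc, ← mul_pow]
        norm_num
    _ ≤ 3 ^ M * (2 ^ M * ell s (2 * q * M)) := Nat.mul_le_mul_left _ h1
    _ = 2 ^ M * (3 ^ M * ell s (2 * q * M)) := by ring
    _ ≤ 2 ^ M * (2 ^ M * ell s (4 * q * M)) := Nat.mul_le_mul_left _ h2
    _ = _ := by
        rw [← mul_assoc, ← mul_pow]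
        norm_num

theorem iter_quad (s M q : ℕ) (hM : 1 ≤ M) (hs : M ≤ s) : ∀ n,
    2 ^ (n * M) * ell s (q * M) ≤ ell s (4 ^ n * q * M) := by
  intro n
  induction n with
  | zero => simp
  | succ n ih =>
    calc 2 ^ ((n + 1) * M) * ell s (q * M) = 2 ^ M * (2 ^ (n * M) * ell s (q * M)) := by ring
      _ ≤ 2 ^ M * ell s (4 ^ n * q * M) := Nat.mul_le_mul_left _ ih
      _ ≤ ell s (4 * (4 ^ n * q) * M) := quadrupling s M _ hM hs
      _ = _ := by
          congr 1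
          ring

end Pool.Agent.H21.NX

end
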