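import Pool.Agent.H94.LP2.M16
import Pool.Agent.H94.LP2.M22
import Pool.Agent.H94.LP2.M25

/-! The parts of this file: H21.NX.UOver, H21.NX.UStage, H21.NX.VOver, H21.NX.VPeel, H21.NX.VRun. -/

section

/-!
# Module UOver: too many points kill everything, from the window theorem
-/

namespace Pool.Agent.H21.NX

open Finset Pool.Agent.H18.Ex

/-- Simple points may be replaced by points of positive multiplicities. -/
theorem GM_free_up {ι : Type} [Fintype ι] [DecidableEq ι] (A : Finset (ι → ℕ))
    (X : Multiset (Kind ι)) (T : Multiset ℕ) (hT : ∀ m ∈ T, 1 ≤ m)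
    (h : GM A (X + Multiset.replicate (Multiset.card T) (Kind.free 1))) :
    GM A (X + T.map Kind.free) := by
  obtain ⟨a, x, rfl⟩ := multi_exists_fin X
  obtain ⟨b, t, rfl⟩ := multi_exists_fin T
  have hb : Multiset.card ((univ : Finset (Fin b)).val.map t) = b := by
    rw [Multiset.card_map, Finset.card_val, Finset.card_univ, Fintype.card_fin]
  have hr : Multiset.replicate b (Kind.free 1 : Kind ι) =
      (univ : Finset (Fin b)).val.map (fun _ => Kind.free 1) := by
    rw [Multiset.map_const', Finset.card_val, Finset.card_univ, Fintype.card_fin]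
  rw [hb, hr, ← multi_map_sum, GM_iff] at h
  rw [Multiset.map_map, ← multi_map_sum, GM_iff]
  obtain ⟨pos, hpos⟩ := h
  refine ⟨pos, fun f hf => hpos f fun i => ?_⟩
  rcases i with i | i
  · exact hf (Sum.inl i)
  · intro β hβ
    refine hf (Sum.inr i) β ?_
    have h1 : 1 ≤ t i := hT _ (Multiset.mem_map.2 ⟨i, by
      rw [Finset.mem_val]
      exact Finset.mem_univ _, rfl⟩)
    exact lt_of_lt_of_le hβ h1

/-- More conditions than forms, with a margin. -/
theorem over_GM (n σ M : ℕ) (hn : 1 ≤ n) (S : Multiset ℕ) (hS : ∀ m ∈ S, 1 ≤ m ∧ m ≤ M)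
    (hroom : ell n M ^ 2 ≤ ell n (σ + 1))
    (h : ell n (σ + 1) + (ell n M ^ 2 + ell n M) * ell n M ≤ tot n S) :
    GM (Sx (Fin (n + 1)) σ) (S.map Kind.free) := by
  rcases Nat.eq_zero_or_pos M with hM | hM
  · exfalso
    have h1 : S = 0 := by
      refine Multiset.eq_zero_of_forall_notMem fun m hm => ?_
      have := hS m hm
      omega
    have h2 : 1 ≤ ell n (σ + 1) := ell_pos _ (by omega)
    rw [h1, show tot n 0 = 0 from rfl] at h
    omega
  have hE : 1 ≤ ell n M := ell_pos _ hM
  obtain ⟨S', hS', h1, h2⟩ := greedy_below n M 0 (ell n (σ + 1) - ell n M ^ 2) (Nat.zero_le _) S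
    (fun m hm => (hS m hm).2) (by omega)
  obtain ⟨T, hT⟩ := Multiset.le_iff_exists_add.1 hS'
  rw [Nat.zero_add] at h1 h2
  have hTm : ∀ m ∈ T, 1 ≤ m ∧ m ≤ M := fun m hm => hS m (by
    rw [hT]
    exact Multiset.mem_add.2 (Or.inr hm))
  have hcard : tot n T ≤ Multiset.card T * ell n M := by
    clear hT
    induction T using Multiset.induction_on with
    | empty => exact Nat.zero_le _
    | cons a T ih =>
      have h3 := ih fun m hm => hTm m (Multiset.mem_cons_of_mem hm)
      have h4 := ell_mono n (hTm a (Multiset.mem_cons_self _ _)).2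
      unfold tot at h3 ⊢
      rw [Multiset.map_cons, Multiset.sum_cons, Multiset.card_cons, Nat.add_mul, Nat.one_mul]
      omega
  have htot : tot n S = tot n S' + tot n T := by rw [hT, tot_add]
  have hj : ell n M ^ 2 + ell n M ≤ Multiset.card T := by
    refine Nat.le_of_mul_le_mul_right (le_trans ?_ hcard) hE
    omega
  rw [hT, Multiset.map_add]
  refine GM_free_up _ _ T (fun m hm => (hTm m hm).1) ?_
  have hw := window_GM n σ hn (S' + Multiset.replicate (Multiset.card T) 1) M ?_ ?_ ?_
  · rwa [Multiset.map_add, Multiset.map_replicate] at hw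
  · intro t ht
    rcases Multiset.mem_add.1 ht with ht | ht
    · exact (hS t (Multiset.mem_of_le hS' ht)).2
    · rw [Multiset.eq_of_mem_replicate ht]
      exact hM
  · intro t ht ht2
    have htM : t ≤ M := by
      rcases Multiset.mem_add.1 ht with ht | ht
      · exact (hS t (Multiset.mem_of_le hS' ht)).2
      · rw [Multiset.eq_of_mem_replicate ht]
        exact hM
    exact window_cond' n hn S' _ M _ (by omega) t ht2 htM
  · rw [tot_add, tot_replicate, ell_one, mul_one]
    omega

end Pool.Agent.H21.NX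

end

section

/-!
# Module UStage: one Horace step, with arbitrary points which stay
-/

namespace Pool.Agent.H21.NX

open Finset Pool.Agent.H18.Ex

namespace UStageX

/-- The roles. -/
def roles {ι : Type} (Φ : Multiset (ℕ × ℕ)) (N0 Q : Multiset ℕ) (μ α ρ : ℕ) :
    Multiset (Role ι) :=
  Φ.map (fun x => Role.here x.1 x.2) + N0.map Role.ord + Multiset.replicate α (Role.ord μ) +
    Multiset.replicate ρ Role.dif + Q.map (fun m => Role.stay (Kind.free m))

theorem roles_before {ι : Type} (l : ι) (Φ : Multiset (ℕ × ℕ)) (N0 Q : Multiset ℕ)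
    (μ α ρ : ℕ) :
    (roles Φ N0 Q μ α ρ).map (Role.before l μ) = fk l Φ + N0.map Kind.free +
      Multiset.replicate (α + ρ) (Kind.free μ) + Q.map Kind.free := by
  unfold roles fk
  simp only [Multiset.map_add, Multiset.map_map, Multiset.map_replicate, Multiset.replicate_add]
  have e1 : (Role.before l μ ∘ fun x : ℕ × ℕ => Role.here x.1 x.2) =
      fun x : ℕ × ℕ => Kind.forced l x.1 x.2 := rfl
  have e2 : (Role.before l μ ∘ (Role.ord : ℕ → Role ι)) = (Kind.free : ℕ → Kind ι) := rfl
  have e3 : Role.before l μ (Role.ord μ : Role ι) = Kind.free μ := rfl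
  have e4 : Role.before l μ (Role.dif : Role ι) = Kind.free μ := rfl
  have e5 : (Role.before l μ ∘ fun m : ℕ => Role.stay (Kind.free m : Kind ι)) = Kind.free := rfl
  rw [e1, e2, e3, e4, e5]
  simp only [add_assoc]

theorem roles_layer {ι : Type} (Φ : Multiset (ℕ × ℕ)) (N0 Q : Multiset ℕ) (μ α ρ : ℕ)
    (hΦ : ∀ x ∈ Φ, x.2 ≤ x.1) :
    ((trc Φ N0 μ α ρ).map (Kind.free : ℕ → Kind ι)) ≤
      (roles Φ N0 Q μ α ρ).map (fun r : Role ι => (Kind.free r.layer : Kind ι)) := by
  unfold roles trc
  simp only [Multiset.map_add, Multiset.map_map, Multiset.map_replicate]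
  refine le_trans (le_of_eq ?_) (Multiset.le_add_right _ _)
  have e1 : Multiset.map ((Kind.free : ℕ → Kind ι) ∘ Prod.fst) Φ =
      Multiset.map ((fun r : Role ι => (Kind.free r.layer : Kind ι)) ∘
        fun x : ℕ × ℕ => Role.here x.1 x.2) Φ := by
    refine Multiset.map_congr rfl fun x hx => ?_
    have h := hΦ x hx
    simp only [Function.comp, Role.layer, h, if_true]
  rw [e1]
  rfl

theorem roles_after {ι : Type} (l : ι) (Φ : Multiset (ℕ × ℕ)) (N0 Q : Multiset ℕ)
    (μ α ρ : ℕ) :
    fk l (nxt Φ N0 μ α ρ) + Q.map Kind.free ≤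
      (roles Φ N0 Q μ α ρ).map (Role.after l μ) := by
  have h1 : fk l (nxt Φ N0 μ α ρ) ≤ fk l
      (Φ.map (fun x : ℕ × ℕ => (x.1 - 1, x.2)) + N0.map (fun m => (m - 1, 1)) +
        Multiset.replicate α (μ - 1, 1) + Multiset.replicate ρ (μ, 2)) :=
    Multiset.map_le_map (Multiset.filter_le _ _)
  refine le_trans (add_le_add h1 le_rfl) (le_of_eq ?_)
  unfold roles fk
  simp only [Multiset.map_add, Multiset.map_map, Multiset.map_replicate]
  rfl

end UStageX

theorem stageQ (s : ℕ) (hs : 1 ≤ s) (l : Fin (s + 2)) (σ : ℕ) (hσ : 1 ≤ σ)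
    (Φ : Multiset (ℕ × ℕ)) (N0 Q : Multiset ℕ) (μ α ρ M : ℕ) (hμ : 1 ≤ μ)
    (hΦ : ∀ x ∈ Φ, x.2 ≤ x.1) (hM : ∀ t ∈ trc Φ N0 μ α ρ, t ≤ M)
    (hc : ∀ t ∈ trc Φ N0 μ α ρ, 2 ≤ t → tot s ((trc Φ N0 μ α ρ).filter (t ≤ ·)) +
      (ell s t - 1) * (ell s M - 1) ≤ ell s (σ + 1))
    (ht : ell s (σ + 1) ≤ tl s Φ + tot s N0 + α * ell s μ + ρ)
    (h1 : GM (Sx (Fin (s + 2)) (σ - 1)) (fk l (nxt Φ N0 μ α ρ) + Q.map Kind.free)) :
    GM (Sx (Fin (s + 2)) σ) (fk l Φ + N0.map Kind.free +
      Multiset.replicate (α + ρ) (Kind.free μ) + Q.map Kind.free) := by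
  rw [← UStageX.roles_before l Φ N0 Q μ α ρ]
  refine GM.step (Sx (Fin (s + 2)) σ) (Sx (Fin (s + 2)) (σ - 1)) l (Sx_resid σ hσ l) μ hμ _
    ?_ ?_ ?_
  · intro k hk
    have hk' : ∃ m, k = Kind.free m := by
      unfold UStageX.roles at hk
      simp only [Multiset.mem_add, Multiset.mem_map, Multiset.mem_replicate] at hk
      rcases hk with (((⟨x, _, hx⟩ | ⟨x, _, hx⟩) | ⟨_, hx⟩) | ⟨_, hx⟩) | ⟨x, _, hx⟩
      · cases hx
      · cases hx
      · cases hx
      · cases hx
      · cases hx
        exact ⟨x, rfl⟩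
    obtain ⟨m, rfl⟩ := hk'
    trivial
  · refine GM.mono (UStageX.roles_layer Φ N0 Q μ α ρ hΦ) ?_
    refine trace_GM s σ hs l (trc Φ N0 μ α ρ) M hM hc ?_
    rw [tot_trc]
    exact ht
  · exact GM.mono (UStageX.roles_after l Φ N0 Q μ α ρ) h1

end Pool.Agent.H21.NX

end

section

/-!
# Module VOver: overfull peeling
-/

namespace Pool.Agent.H21.NX

open Finset Pool.Agent.H18.Ex

/-- From the hyperplane to the layer. -/
theorem layer_GM (s d : ℕ) (l : Fin (s + 2)) (T : Multiset ℕ)
    (h : GM (Sx (Fin (s + 1)) d) (T.map Kind.free)) :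
    GM ((Sx (Fin (s + 2)) d).filter fun a => a l = 0) (T.map Kind.free) := by
  obtain ⟨k, m, hm⟩ := multi_exists_fin T
  rw [← hm, Multiset.map_map] at h ⊢
  exact (GM_iff _ _).2 (GI_layer l m ((GM_iff _ _).1 h))

/-- A Horace step, the trace being given. -/
theorem stageH (s : ℕ) (l : Fin (s + 2)) (σ : ℕ) (hσ : 1 ≤ σ)
    (Φ : Multiset (ℕ × ℕ)) (N0 Q : Multiset ℕ) (μ α ρ : ℕ) (hμ : 1 ≤ μ)
    (hΦ : ∀ x ∈ Φ, x.2 ≤ x.1)
    (hT : GM (Sx (Fin (s + 1)) σ) ((trc Φ N0 μ α ρ).map Kind.free))
    (h1 : GM (Sx (Fin (s + 2)) (σ - 1)) (fk l (nxt Φ N0 μ α ρ) + Q.map Kind.free)) :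
    GM (Sx (Fin (s + 2)) σ) (fk l Φ + N0.map Kind.free +
      Multiset.replicate (α + ρ) (Kind.free μ) + Q.map Kind.free) := by
  rw [← UStageX.roles_before l Φ N0 Q μ α ρ]
  refine GM.step (Sx (Fin (s + 2)) σ) (Sx (Fin (s + 2)) (σ - 1)) l (Sx_resid σ hσ l) μ hμ _
    ?_ ?_ ?_
  · intro k hk
    have hk' : ∃ m, k = Kind.free m := by
      unfold UStageX.roles at hk
      simp only [Multiset.mem_add, Multiset.mem_map, Multiset.mem_replicate] at hk
      rcases hk with (((⟨x, _, hx⟩ | ⟨x, _, hx⟩) | ⟨_, hx⟩) | ⟨_, hx⟩) | ⟨x, _, hx⟩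
      · cases hx
      · cases hx
      · cases hx
      · cases hx
      · cases hx
        exact ⟨x, rfl⟩
    obtain ⟨m, rfl⟩ := hk'
    trivial
  · exact GM.mono (UStageX.roles_layer Φ N0 Q μ α ρ hΦ) (layer_GM s σ l _ hT)
  · exact GM.mono (UStageX.roles_after l Φ N0 Q μ α ρ) h1

theorem fl_le_mul {B : ℕ} {Φ : Multiset (ℕ × ℕ)} (s : ℕ) (hs : 1 ≤ s) (hB : 1 ≤ B)
    (hΦ : OKF B Φ) : fl s Φ ≤ B * tl s Φ := by
  have h1 := fl_le_tl s hs hΦ
  have hpos : 0 < s + 1 := by omega
  refine Nat.le_of_mul_le_mul_left (le_trans h1 ?_) hpos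
  calc (B + s) * tl s Φ ≤ ((s + 1) * B) * tl s Φ := by
        refine Nat.mul_le_mul_right _ ?_
        obtain ⟨b, rfl⟩ : ∃ b, B = b + 1 := ⟨B - 1, by omega⟩
        nlinarith [Nat.zero_le (s * b)]
    _ = _ := by ring

theorem tot_le_card (n M : ℕ) (T : Multiset ℕ) :
    (∀ m ∈ T, m ≤ M) → tot n T ≤ Multiset.card T * ell n M := by
  induction T using Multiset.induction_on with
  | empty => exact fun _ => Nat.zero_le _
  | cons a T ih =>
    intro hT
    have h3 := ih fun m hm => hT m (Multiset.mem_cons_of_mem hm)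
    have h4 := ell_mono n (hT a (Multiset.mem_cons_self _ _))
    unfold tot at h3 ⊢
    rw [Multiset.map_cons, Multiset.sum_cons, Multiset.card_cons, Nat.add_mul, Nat.one_mul]
    omega

/-- Overfull conditions kill everything. -/
theorem over_peel {s M D0 : ℕ} (h : VNum s M D0) (l : Fin (s + 2)) :
    ∀ S, D0 ≤ S → ∀ (Φ : Multiset (ℕ × ℕ)) (R : Multiset ℕ), OKF M Φ →
      (∀ m ∈ R, 1 ≤ m ∧ m ≤ M) → 2 * M * tl s Φ ≤ (2 * M - 1) * ell s S →
      ell (s + 1) S + S * (WW s M + ell s M) + base s M D0 ≤ fl s Φ + tot (s + 1) R →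
      GM (Sx (Fin (s + 2)) (S - 1)) (fk l Φ + R.map Kind.free) := by
  have hs := h.s1
  have hM := h.hM
  have hDM := h.hD
  have hE1 := h.E1
  have hF1 := h.F1
  intro S hS
  induction S, hS using Nat.le_induction with
  | base =>
    intro Φ R hΦ hR hload hT
    have h1 := fl_le_mul s hs hM hΦ
    have h2 : tl s Φ ≤ ell s D0 := by
      have := h.below le_rfl hload
      omega
    have h3 : fl s Φ ≤ M * ell s D0 := le_trans h1 (Nat.mul_le_mul_left _ h2)
    have h4 : ell (s + 1) D0 * ell (s + 1) M ≤ tot (s + 1) R := by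
      unfold base at hT
      omega
    have h5 := tot_le_card (s + 1) M R fun m hm => (hR m hm).2
    have h6 : ell (s + 1) D0 ≤ Multiset.card R :=
      Nat.le_of_mul_le_mul_right (le_trans h4 h5) hF1
    rw [add_comm (fk l Φ)]
    refine GM.of_card _ _ _ (fun m hm => (hR m hm).1) ?_
    rw [card_Sx (s + 1) (D0 - 1), Nat.sub_add_cancel (by omega)]
    exact h6
  | succ S hS ih =>
    intro Φ R hΦ hR hload hT
    have htl := h.below (S := S + 1) (by omega) hload
    have hfl : (s + 1) * fl s Φ ≤ (M + s) * tl s Φ := fl_le_tl s hs hΦ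
    have hto : (s + 1) * tot (s + 1) R ≤ (M + s) * tot s R :=
      tot_succ_le s hs fun m hm => (hR m hm).2
    have hmul : (S + 1 + s) * ell s (S + 1) = (s + 1) * ell (s + 1) (S + 1) :=
      ell_succ_mul s (S + 1) hs
    have hfit : ell s (S + 1) + WW s M ≤ tl s Φ + tot s R := by
      by_contra hcon
      rw [not_le] at hcon
      have e1 : (M + s) * (tl s Φ + tot s R + 1) ≤ (M + s) * (ell s (S + 1) + WW s M) :=
        Nat.mul_le_mul_left _ hcon
      have e2 : (M + s) * ell s (S + 1) ≤ (s + 1) * ell (s + 1) (S + 1) := by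
        rw [← hmul]
        exact Nat.mul_le_mul_right _ (by omega)
      have e3 : (M + s) * WW s M ≤ (s + 1) * ((S + 1) * (WW s M + ell s M)) := by
        calc (M + s) * WW s M ≤ ((s + 1) * (S + 1)) * (WW s M + ell s M) := by
              refine Nat.mul_le_mul ?_ (Nat.le_add_right _ _)
              have : M ≤ S := by omega
              nlinarith [Nat.zero_le (s * S)]
          _ = _ := by ring
      have e4 : (s + 1) * (ell (s + 1) (S + 1) + (S + 1) * (WW s M + ell s M) +
          base s M D0) ≤ (s + 1) * (fl s Φ + tot (s + 1) R) := Nat.mul_le_mul_left _ hT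
      have e5 : (M + s) * (tl s Φ + tot s R + 1) =
          (M + s) * tl s Φ + (M + s) * tot s R + (M + s) := by ring
      have e6 : (s + 1) * (ell (s + 1) (S + 1) + (S + 1) * (WW s M + ell s M) +
          base s M D0) = (s + 1) * ell (s + 1) (S + 1) +
            (s + 1) * ((S + 1) * (WW s M + ell s M)) + (s + 1) * base s M D0 := by ring
      have e7 : (s + 1) * (fl s Φ + tot (s + 1) R) =
          (s + 1) * fl s Φ + (s + 1) * tot (s + 1) R := by ring
      have e8 : (M + s) * (ell s (S + 1) + WW s M) =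
          (M + s) * ell s (S + 1) + (M + s) * WW s M := by ring
      omega
    obtain ⟨N0, hN0R, hN1, hN2⟩ := greedy s M (tl s Φ) (ell s (S + 1) + WW s M)
      (by omega) R (fun m hm => (hR m hm).2) hfit
    obtain ⟨Q, hQ⟩ := Multiset.le_iff_exists_add.1 hN0R
    have hN0 : ∀ m ∈ N0, 1 ≤ m ∧ m ≤ M := fun m hm => hR m (Multiset.mem_of_le hN0R hm)
    have hQm : ∀ m ∈ Q, 1 ≤ m ∧ m ≤ M := fun m hm => hR m (by
      rw [hQ]
      exact Multiset.mem_add.2 (Or.inr hm))
    have htrc : trc Φ N0 1 0 0 = Φ.map Prod.fst + N0 := by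
      unfold trc
      rw [Multiset.replicate_zero, add_zero, add_zero]
    have htot1 : tot s (Φ.map Prod.fst + N0) = tl s Φ + tot s N0 := by
      rw [tot_add]
      congr 1
      unfold tot tl
      rw [Multiset.map_map]
      rfl
    have hmem : ∀ m ∈ Φ.map Prod.fst + N0, 1 ≤ m ∧ m ≤ M := by
      intro t ht
      rcases Multiset.mem_add.1 ht with ht | ht
      · obtain ⟨x, hx, rfl⟩ := Multiset.mem_map.1 ht
        have := hΦ x hx
        omega
      · exact hN0 t ht
    have hstep := stageH s l S (by omega) Φ N0 Q 1 0 0 le_rfl (fun x hx => (hΦ x hx).2.2.1)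
      (by
        rw [htrc]
        refine over_GM s S M hs _ hmem ?_ ?_
        · omega
        · rw [htot1]
          exact hN1) ?_
    · rw [Multiset.replicate_zero, add_zero] at hstep
      rw [hQ, Multiset.map_add, Nat.add_sub_cancel, ← add_assoc]
      exact hstep
    · -- the next state
      have hfl' := fl_nxt (α := 0) (ρ := 0) (μ := 1) (N0 := N0) s hs hΦ
        (fun m hm => (hN0 m hm).1) le_rfl (Or.inl rfl)
      have hF : ell (s + 1) (S + 1) = ell (s + 1) S + ell s (S + 1) := ell_succ s S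
      have htotR : tot (s + 1) R = tot (s + 1) N0 + tot (s + 1) Q := by rw [hQ, tot_add]
      have hSW : (S + 1) * (WW s M + ell s M) = S * (WW s M + ell s M) + (WW s M + ell s M) := by
        ring
      refine ih (nxt Φ N0 1 0 0) Q ?_ hQm ?_ ?_
      · exact OKF_nxt hΦ (fun m hm => (hN0 m hm).2) (Nat.le_succ _) (by omega) (Or.inl rfl)
      · have htl' := tl_nxt (α := 0) (ρ := 0) (μ := 1) (N0 := N0) s (M - 1) hs hΦ
          (fun m hm => (hN0 m hm).2) (by omega) (by omega)
        have hl := h.load (S := S + 1) (t := tl s (nxt Φ N0 1 0 0)) (e := WW s M + ell s M)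
          (by omega) ?_ (by rw [Nat.add_sub_cancel]; exact h.r4 hS)
        · rwa [Nat.add_sub_cancel] at hl
        · refine le_trans htl' ?_
          rw [Nat.zero_mul, Nat.mul_zero, Nat.add_zero, Nat.add_zero]
          calc (M - 1) * (tl s Φ + tot s N0) ≤
              (M - 1) * (ell s (S + 1) + (WW s M + ell s M)) :=
                Nat.mul_le_mul_left _ (by omega)
            _ = (M - 1) * ell s (S + 1) + (M - 1) * (WW s M + ell s M) := by ring
            _ ≤ _ := Nat.add_le_add_left (Nat.mul_le_mul_right _ (by omega)) _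
      · simp only [Nat.zero_mul, Nat.add_zero] at hfl'
        omega

end Pool.Agent.H21.NX

end

section

/-!
# Module VPeel: peeling with many free simple points, arbitrarily many steps
-/

namespace Pool.Agent.H21.NX

open Finset Pool.Agent.H18.Ex

theorem peel_longV {s M D0 : ℕ} (h : VNum s M D0) (l : Fin (s + 2)) (X : ℕ) :
    ∀ (S : ℕ) (Φ : Multiset (ℕ × ℕ)) (R : Multiset ℕ) (p : ℕ), OKF M Φ →
      (∀ m ∈ R, 1 ≤ m ∧ m ≤ M) →
      ell (s + 1) S ≤ fl s Φ + tot (s + 1) R + p →
      fl s Φ + tot (s + 1) R + p ≤ ell (s + 1) S + X →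
      2 * M * tl s Φ ≤ (2 * M - 1) * ell s S →
      S * GG s M + X + ell s M ^ 2 + ell (s + 1) D0 ≤ p →
      GM (Sx (Fin (s + 2)) (S - 1)) (fk l Φ + R.map Kind.free +
        Multiset.replicate p (Kind.free 1)) := by
  have hs := h.s1
  have hE1 := h.E1
  have hM := h.hM
  have hDM := h.hD
  intro S
  induction S with
  | zero =>
    intro Φ R p _ _ _ hT2 _ hp
    exfalso
    have h1 : ell (s + 1) 0 = 0 := ell_zero (by omega)
    have h2 : 1 ≤ ell s M ^ 2 := Nat.one_le_pow _ _ hE1
    omega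
  | succ S ih =>
    intro Φ R p hΦ hR hT1 hT2 hload hp
    have hE2 : 1 ≤ ell s M ^ 2 := Nat.one_le_pow _ _ hE1
    -- the degree is large
    have hSD : D0 + 1 ≤ S + 1 := by
      by_contra hcon
      have h1 : ell (s + 1) (S + 1) ≤ ell (s + 1) D0 := ell_mono _ (by omega)
      omega
    by_cases hA : tl s Φ + tot s R + ell s M ^ 2 ≤ ell s (S + 1)
    · exact peel_all s hs l M (S + 1) Φ R p hΦ hR (by omega) (by omega) hA hT1
    · have hr1 := h.below (S := S + 1) (by omega) hload
      obtain ⟨N0, hN0R, hN1, hN2⟩ := greedy_below s M (tl s Φ) (ell s (S + 1) - ell s M ^ 2)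
        (by omega) R (fun m hm => (hR m hm).2) (by omega)
      obtain ⟨Q, hQ⟩ := Multiset.le_iff_exists_add.1 hN0R
      have hN0 : ∀ m ∈ N0, 1 ≤ m ∧ m ≤ M := fun m hm => hR m (Multiset.mem_of_le hN0R hm)
      have hQm : ∀ m ∈ Q, 1 ≤ m ∧ m ≤ M := fun m hm => hR m (by
        rw [hQ]
        exact Multiset.mem_add.2 (Or.inr hm))
      obtain ⟨q, hq⟩ : ∃ q, q = ell s (S + 1) - tl s Φ - tot s N0 := ⟨_, rfl⟩
      have hqsum : tl s Φ + tot s N0 + q = ell s (S + 1) := by omega
      have hq1 : ell s M ^ 2 ≤ q := by omega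
      have hq2 : q ≤ GG s M := by
        unfold GG
        omega
      have hSG : (S + 1) * GG s M = S * GG s M + GG s M := by ring
      have hqp : q ≤ p := by
        omega
      have htrc : trc Φ N0 1 q 0 = (Φ.map Prod.fst + N0) + Multiset.replicate q 1 := by
        unfold trc
        rw [Multiset.replicate_zero, add_zero]
      have hT1M : ∀ t ∈ Φ.map Prod.fst + N0, t ≤ M := by
        intro t ht
        rcases Multiset.mem_add.1 ht with ht | ht
        · obtain ⟨x, hx, rfl⟩ := Multiset.mem_map.1 ht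
          exact (hΦ x hx).2.2.2
        · exact (hN0 t ht).2
      have htM : ∀ t ∈ trc Φ N0 1 q 0, t ≤ M := by
        intro t ht
        rw [htrc] at ht
        rcases Multiset.mem_add.1 ht with ht | ht
        · exact hT1M t ht
        · rw [Multiset.eq_of_mem_replicate ht]
          exact hM
      have htot1 : tot s (Φ.map Prod.fst + N0) = tl s Φ + tot s N0 := by
        rw [tot_add]
        congr 1
        unfold tot tl
        rw [Multiset.map_map]
        rfl
      have hstep := stageQ s hs l S (by omega) Φ N0 (Q + Multiset.replicate (p - q) 1) 1 q 0 M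
        le_rfl (fun x hx => (hΦ x hx).2.2.1) htM ?_ ?_ ?_
      · rw [hQ, Multiset.map_add, Nat.add_sub_cancel]
        rw [Multiset.map_add, Multiset.map_replicate, Nat.add_zero q] at hstep
        have hpq : Multiset.replicate p (Kind.free 1 : Kind (Fin (s + 2))) =
            Multiset.replicate q (Kind.free 1) + Multiset.replicate (p - q) (Kind.free 1) := by
          rw [← Multiset.replicate_add]
          congr 1
          omega
        rw [hpq]
        have e : fk l Φ + N0.map Kind.free + Multiset.replicate q (Kind.free 1) +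
            (Q.map Kind.free + Multiset.replicate (p - q) (Kind.free 1)) =
            fk l Φ + (N0.map Kind.free + Q.map Kind.free) +
              (Multiset.replicate q (Kind.free 1) + Multiset.replicate (p - q) (Kind.free 1)) := by
          abel
        rw [e] at hstep
        exact hstep
      · intro t ht ht2
        rw [htrc]
        exact window_cond' s hs _ q M _ (by rw [htot1]; omega) t ht2 (htM t ht)
      · rw [ell_one]
        omega
      · -- the next state
        have hfl := fl_nxt (α := q) (ρ := 0) (μ := 1) (N0 := N0) s hs hΦ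
          (fun m hm => (hN0 m hm).1) le_rfl (Or.inl rfl)
        have hF : ell (s + 1) (S + 1) = ell (s + 1) S + ell s (S + 1) := ell_succ s S
        have htotR : tot (s + 1) R = tot (s + 1) N0 + tot (s + 1) Q := by rw [hQ, tot_add]
        rw [ell_one, ell_one, mul_one, mul_one, Nat.add_zero, Nat.add_zero] at hfl
        have hnext := ih (nxt Φ N0 1 q 0) Q (p - q) ?_ hQm ?_ ?_ ?_ ?_
        · rw [Multiset.map_add, Multiset.map_replicate, ← add_assoc]
          exact hnext
        · exact OKF_nxt hΦ (fun m hm => (hN0 m hm).2) (Nat.le_succ _) (by omega) (Or.inl rfl)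
        · omega
        · omega
        · have htl := tl_nxt (α := q) (ρ := 0) (μ := 1) (N0 := N0) s (M - 1) hs hΦ
            (fun m hm => (hN0 m hm).2) (by omega) (by omega)
          rw [ell_one, mul_one, Nat.zero_mul, Nat.mul_zero, Nat.add_zero, hqsum] at htl
          have hl := h.load (S := S + 1) (t := tl s (nxt Φ N0 1 q 0)) (e := 0) hSD
            (by rw [Nat.mul_zero, Nat.add_zero]; exact htl) (by omega)
          rwa [Nat.add_sub_cancel] at hl
        · omega

end Pool.Agent.H21.NX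

end

section

/-!
# Module VRun: the Horace steps, every dimension
-/

namespace Pool.Agent.H21.NX

open Finset Pool.Agent.H18.Ex

/-- One step: `a` points of multiplicity `μ` and a part of the points `R` are put on the
hyperplane, the rest of the trace is filled by differential points of multiplicity `μ`. -/
theorem ustepV {s M D0 : ℕ} (h : VNum s M D0) (l : Fin (s + 2)) (S μ a : ℕ) (hS : D0 + 1 ≤ S)
    (hμ : 2 ≤ μ) (hμM : μ ≤ M) (Φ : Multiset (ℕ × ℕ)) (R : Multiset ℕ) (g : ℕ) (hΦ : OKF M Φ)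
    (hR : ∀ m ∈ R, 1 ≤ m ∧ m ≤ M)
    (hx : 2 * M * (tl s Φ + a * ell s μ) ≤ (2 * M - 1) * ell s S)
    (hg1 : GG s M ≤ g) (hg2 : g ≤ M * GG s M)
    (hT1 : ell (s + 1) S ≤ fl s Φ + a * ell (s + 1) μ + tot (s + 1) R + g * ell (s + 1) μ) :
    ∃ (N0 Q : Multiset ℕ) (ρ : ℕ), R = N0 + Q ∧ ρ ≤ GG s M ∧
      tl s Φ + tot s N0 + a * ell s μ + ρ = ell s S ∧
      2 * M * tl s (nxt Φ N0 μ a ρ) ≤ (2 * M - 1) * ell s (S - 1) ∧
      (GM (Sx (Fin (s + 2)) (S - 2)) (fk l (nxt Φ N0 μ a ρ) + Q.map Kind.free +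
        Multiset.replicate (g - ρ) (Kind.free μ)) →
      GM (Sx (Fin (s + 2)) (S - 1)) (fk l Φ + R.map Kind.free +
        Multiset.replicate (a + g) (Kind.free μ))) := by
  have hs := h.s1
  have hE1 := h.E1
  have hM := h.hM
  have hDM := h.hD
  have hr1 := h.below (S := S) (by omega) hx
  have hr2 := h.r2 (S := S - 1) (by omega)
  have hr3 := h.r3 (S := S - 1) (by omega)
  have hES : 0 < ell s S := ell_pos _ (by omega)
  have hEμ : ell s μ ≤ ell s M := ell_mono _ hμM
  -- there are enough points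
  have hfit : ell s S ≤ tl s Φ + a * ell s μ + tot s R + ell s M ^ 2 := by
    by_contra hcon
    push Not at hcon
    have e1 : (s + 1) * fl s Φ ≤ (M + s) * tl s Φ := fl_le_tl s hs hΦ
    have e2 : (s + 1) * (a * ell (s + 1) μ) ≤ (M + s) * (a * ell s μ) := by
      calc (s + 1) * (a * ell (s + 1) μ) = a * ((s + 1) * ell (s + 1) μ) := by ring
        _ = a * ((μ + s) * ell s μ) := by rw [ell_succ_mul s μ hs]
        _ ≤ a * ((M + s) * ell s μ) :=
            Nat.mul_le_mul_left _ (Nat.mul_le_mul_right _ (by omega))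
        _ = _ := by ring
    have e3 : (s + 1) * tot (s + 1) R ≤ (M + s) * tot s R :=
      tot_succ_le s hs fun m hm => (hR m hm).2
    have e4 : (s + 1) * (g * ell (s + 1) μ) ≤ (M + s) * (g * ell s M) := by
      calc (s + 1) * (g * ell (s + 1) μ) = g * ((s + 1) * ell (s + 1) μ) := by ring
        _ = g * ((μ + s) * ell s μ) := by rw [ell_succ_mul s μ hs]
        _ ≤ g * ((M + s) * ell s M) :=
            Nat.mul_le_mul_left _ (Nat.mul_le_mul (by omega) hEμ)
        _ = _ := by ring
    have e5 : (S + s) * ell s S = (s + 1) * ell (s + 1) S := ell_succ_mul s S hs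
    have e6 : (S + s) * ell s S ≤ (M + s) * (ell s S + g * ell s M) := by
      calc (S + s) * ell s S = (s + 1) * ell (s + 1) S := e5
        _ ≤ (s + 1) * (fl s Φ + a * ell (s + 1) μ + tot (s + 1) R + g * ell (s + 1) μ) :=
            Nat.mul_le_mul_left _ hT1
        _ = (s + 1) * fl s Φ + (s + 1) * (a * ell (s + 1) μ) + (s + 1) * tot (s + 1) R +
            (s + 1) * (g * ell (s + 1) μ) := by ring
        _ ≤ (M + s) * tl s Φ + (M + s) * (a * ell s μ) + (M + s) * tot s R +
            (M + s) * (g * ell s M) := by omega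
        _ = (M + s) * (tl s Φ + a * ell s μ + tot s R + g * ell s M) := by ring
        _ ≤ _ := Nat.mul_le_mul_left _ (by omega)
    have e7 : 2 * (g * ell s M) ≤ ell s (S - 1) := by
      refine le_trans ?_ hr3
      exact Nat.mul_le_mul_left _ (Nat.mul_le_mul_right _ hg2)
    have e8 : (M + s) * ell s (S - 1) ≤ (S - 1) * ell s S := by
      have hrel : ell s (S - 1) * (S - 1 + s) = ell s S * (S - 1) := by
        have := ell_mul_add s (S - 1) hs
        rwa [Nat.sub_add_cancel (by omega)] at this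
      calc (M + s) * ell s (S - 1) ≤ (S - 1 + s) * ell s (S - 1) :=
            Nat.mul_le_mul_right _ (by omega)
        _ = ell s (S - 1) * (S - 1 + s) := by ring
        _ = ell s S * (S - 1) := hrel
        _ = _ := by ring
    have e9 : 2 * (S + s) * ell s S ≤ (2 * (M + s) + (S - 1)) * ell s S := by
      calc 2 * (S + s) * ell s S = 2 * ((S + s) * ell s S) := by ring
        _ ≤ 2 * ((M + s) * (ell s S + g * ell s M)) := Nat.mul_le_mul_left _ e6
        _ = 2 * (M + s) * ell s S + (M + s) * (2 * (g * ell s M)) := by ring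
        _ ≤ 2 * (M + s) * ell s S + (M + s) * ell s (S - 1) :=
            Nat.add_le_add_left (Nat.mul_le_mul_left _ e7) _
        _ ≤ 2 * (M + s) * ell s S + (S - 1) * ell s S := Nat.add_le_add_left e8 _
        _ = _ := by ring
    have e10 := Nat.le_of_mul_le_mul_right e9 hES
    omega
  obtain ⟨N0, hN0R, hN1, hN2⟩ := greedy_below s M (tl s Φ + a * ell s μ)
    (ell s S - ell s M ^ 2) (by omega) R (fun m hm => (hR m hm).2) (by omega)
  obtain ⟨Q, hQ⟩ := Multiset.le_iff_exists_add.1 hN0R
  have hN0 : ∀ m ∈ N0, 1 ≤ m ∧ m ≤ M := fun m hm => hR m (Multiset.mem_of_le hN0R hm)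
  obtain ⟨ρ, hρ⟩ : ∃ ρ, ρ = ell s S - tl s Φ - a * ell s μ - tot s N0 := ⟨_, rfl⟩
  have hsum : tl s Φ + tot s N0 + a * ell s μ + ρ = ell s S := by omega
  have hρ1 : ell s M ^ 2 ≤ ρ := by omega
  have hρ2 : ρ ≤ GG s M := by
    unfold GG
    omega
  have htrc : trc Φ N0 μ a ρ = (Φ.map Prod.fst + N0 + Multiset.replicate a μ) +
      Multiset.replicate ρ 1 := rfl
  have hT1M : ∀ t ∈ Φ.map Prod.fst + N0 + Multiset.replicate a μ, t ≤ M := by
    intro t ht
    rcases Multiset.mem_add.1 ht with ht | ht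
    · rcases Multiset.mem_add.1 ht with ht | ht
      · obtain ⟨x, hx, rfl⟩ := Multiset.mem_map.1 ht
        exact (hΦ x hx).2.2.2
      · exact (hN0 t ht).2
    · rw [Multiset.eq_of_mem_replicate ht]
      exact hμM
  have htM : ∀ t ∈ trc Φ N0 μ a ρ, t ≤ M := by
    intro t ht
    rw [htrc] at ht
    rcases Multiset.mem_add.1 ht with ht | ht
    · exact hT1M t ht
    · rw [Multiset.eq_of_mem_replicate ht]
      exact hM
  have htot1 : tot s (Φ.map Prod.fst + N0 + Multiset.replicate a μ) =
      tl s Φ + tot s N0 + a * ell s μ := by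
    rw [tot_add, tot_add, tot_replicate]
    congr 2
    unfold tot tl
    rw [Multiset.map_map]
    rfl
  refine ⟨N0, Q, ρ, hQ, hρ2, hsum, ?_, ?_⟩
  · -- the new load
    have htl := tl_nxt (α := a) (ρ := ρ) (μ := μ) (N0 := N0) s (M - 1) hs hΦ
      (fun m hm => (hN0 m hm).2) (by omega) (by omega)
    refine h.load (S := S) (e := ρ * ell s μ) hS (le_trans htl ?_) ?_
    · exact Nat.add_le_add_right (Nat.mul_le_mul_left _ (by omega)) _
    · exact le_trans (Nat.mul_le_mul_left _ (Nat.mul_le_mul hρ2 hEμ)) hr2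
  · intro hGM
    have hstep := stageQ s hs l (S - 1) (by omega) Φ N0 (Q + Multiset.replicate (g - ρ) μ) μ a ρ M
      (by omega) (fun x hx => (hΦ x hx).2.2.1) htM ?_ ?_ ?_
    · rw [hQ, Multiset.map_add]
      rw [Multiset.map_add, Multiset.map_replicate] at hstep
      have hpq : Multiset.replicate (a + g) (Kind.free μ : Kind (Fin (s + 2))) =
          Multiset.replicate (a + ρ) (Kind.free μ) +
            Multiset.replicate (g - ρ) (Kind.free μ) := by
        rw [← Multiset.replicate_add]
        congr 1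
        omega
      rw [hpq]
      have e : fk l Φ + N0.map Kind.free + Multiset.replicate (a + ρ) (Kind.free μ) +
          (Q.map Kind.free + Multiset.replicate (g - ρ) (Kind.free μ)) =
          fk l Φ + (N0.map Kind.free + Q.map Kind.free) +
            (Multiset.replicate (a + ρ) (Kind.free μ) +
              Multiset.replicate (g - ρ) (Kind.free μ)) := by
        abel
      rw [e] at hstep
      exact hstep
    · intro t ht ht2
      rw [htrc]
      rw [show S - 1 + 1 = S by omega]
      exact window_cond' s hs _ ρ M _ (by rw [htot1]; omega) t ht2 (htM t ht)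
    · rw [show S - 1 + 1 = S by omega]
      omega
    · rw [Multiset.map_add, Multiset.map_replicate, ← add_assoc]
      rwa [show S - 1 - 1 = S - 2 by omega]

theorem fk_nxt_dn {ι : Type} [DecidableEq ι] (l : ι) (Ψ : Multiset (ℕ × ℕ)) :
    fk l (nxt Ψ 0 1 0 0) ≤ (fk l Ψ).map (Kind.dn l) := by
  have h1 : fk l (nxt Ψ 0 1 0 0) ≤ fk l (Ψ.map (fun x : ℕ × ℕ => (x.1 - 1, x.2))) := by
    refine Multiset.map_le_map ?_
    unfold nxt
    refine le_trans (Multiset.filter_le _ _) (le_of_eq ?_)
    rw [Multiset.map_zero, Multiset.replicate_zero, Multiset.replicate_zero, add_zero, add_zero,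
      add_zero]
  refine le_trans h1 (le_of_eq ?_)
  unfold fk
  rw [Multiset.map_map, Multiset.map_map]
  refine Multiset.map_congr rfl fun x _ => ?_
  simp [Kind.dn]

end Pool.Agent.H21.NX

end
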