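import Pool.Agent.H94.LP2.M11
import Pool.Agent.H94.LP2.M14

/-! The parts of this file: H18.Ex.Refl, H18.Ex.Asm, H18.Ex.Run, H18.Ex.Fin, H21.NX.URun. -/

section

/-!
# Module Refl: the toric reflection `x ↦ 1/x`
-/

namespace Pool.Agent.H18.Ex

open Finset

variable {ι : Type} [Fintype ι] [DecidableEq ι]

/-! ### Auxiliary facts -/

theorem refl_choose (β : ℕ) : ∀ a w : ℕ, a ≤ w →
    ∑ b ∈ range (β + 1), (-1 : ℂ) ^ b * (a.choose b : ℂ) * ((w - b).choose (β - b) : ℂ) =
      ((w - a).choose β : ℂ) := by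
  induction β with
  | zero => intro a w _; simp
  | succ β ihβ =>
    intro a
    induction a with
    | zero =>
      intro w _
      rw [Finset.sum_eq_single 0]
      · simp
      · intro b _ hb
        obtain ⟨c, rfl⟩ := Nat.exists_eq_succ_of_ne_zero hb
        simp
      · simp
    | succ a iha =>
      intro w hw
      obtain ⟨w, rfl⟩ : ∃ v, w = v + 1 := ⟨w - 1, by omega⟩
      have h1 := iha (w + 1) (by omega)
      have h2 := ihβ a w (by omega)
      rw [Finset.sum_range_succ'] at h1 ⊢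
      have h3 : ∀ b : ℕ, (-1 : ℂ) ^ (b + 1) * ((a + 1).choose (b + 1) : ℂ) *
          ((w + 1 - (b + 1)).choose (β + 1 - (b + 1)) : ℂ) =
          (-1 : ℂ) ^ (b + 1) * (a.choose (b + 1) : ℂ) *
          ((w + 1 - (b + 1)).choose (β + 1 - (b + 1)) : ℂ) -
          (-1 : ℂ) ^ b * (a.choose b : ℂ) * ((w - b).choose (β - b) : ℂ) := by
        intro b
        rw [Nat.choose_succ_succ, Nat.add_sub_add_right, Nat.add_sub_add_right]
        push_cast
        ring
      rw [Finset.sum_congr rfl fun b _ => h3 b, Finset.sum_sub_distrib, h2]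
      have h4 : (((w + 1 - a).choose (β + 1) : ℕ) : ℂ) =
          ((w - a).choose β : ℂ) + ((w - a).choose (β + 1) : ℂ) := by
        rw [show w + 1 - a = (w - a) + 1 by omega, Nat.choose_succ_succ]
        push_cast
        rfl
      rw [h4] at h1
      rw [show w + 1 - (a + 1) = w - a by omega]
      simp only [pow_zero, Nat.choose_zero_right, Nat.cast_one, one_mul, Nat.sub_zero] at h1 ⊢
      linear_combination h1

theorem refl_one (a w β : ℕ) (haw : a ≤ w) (q : ℂ) (hq : q ≠ 0) :
    ((w - a).choose β : ℂ) * (q⁻¹) ^ (w - a - β) =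
      ∑ b ∈ range (β + 1), ((a.choose b : ℂ) * q ^ (a - b)) *
        ((-1 : ℂ) ^ b * ((w - b).choose (β - b) : ℂ) * q ^ b * (q⁻¹) ^ (w - β)) := by
  have h1 : ∀ b ∈ range (β + 1), ((a.choose b : ℂ) * q ^ (a - b)) *
        ((-1 : ℂ) ^ b * ((w - b).choose (β - b) : ℂ) * q ^ b * (q⁻¹) ^ (w - β)) =
      ((-1 : ℂ) ^ b * (a.choose b : ℂ) * ((w - b).choose (β - b) : ℂ)) *
        (q ^ a * (q⁻¹) ^ (w - β)) := by
    intro b _
    rcases Nat.lt_or_ge a b with hb | hb
    · rw [Nat.choose_eq_zero_of_lt hb]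
      simp
    · have : q ^ a = q ^ (a - b) * q ^ b := by
        rw [← pow_add, Nat.sub_add_cancel hb]
      rw [this]
      ring
  rw [Finset.sum_congr rfl h1, ← Finset.sum_mul, refl_choose β a w haw]
  rcases Nat.lt_or_ge (w - a) β with hb | hb
  · rw [Nat.choose_eq_zero_of_lt hb]
    simp
  · have h2 : (q⁻¹) ^ (w - β) = (q⁻¹) ^ a * (q⁻¹) ^ (w - a - β) := by
      rw [← pow_add]
      congr 1
      omega
    rw [h2, ← mul_assoc (q ^ a), ← mul_pow, mul_inv_cancel₀ hq, one_pow, one_mul]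

theorem refl_mem {σ : ℕ} {w : ι → ℕ} {a : ι → ℕ} (ha : a ∈ Rg σ w) :
    (fun i => w i - a i) ∈ Rg (∑ i, w i - σ) w := by
  rw [mem_Rg] at ha ⊢
  refine ⟨fun i => Nat.sub_le _ _, ?_⟩
  rw [← ha.2]
  exact Finset.sum_tsub_distrib _ fun i _ => ha.1 i

theorem refl_mem' {σ : ℕ} {w : ι → ℕ} (hσ : σ ≤ ∑ i, w i) {a : ι → ℕ}
    (ha : a ∈ Rg (∑ i, w i - σ) w) : (fun i => w i - a i) ∈ Rg σ w := by
  have h := refl_mem ha
  rwa [Nat.sub_sub_self hσ] at h

theorem refl_refl {σ : ℕ} {w : ι → ℕ} {a : ι → ℕ} (ha : a ∈ Rg σ w) :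
    (fun i => w i - (w i - a i)) = a := by
  rw [mem_Rg] at ha
  funext i
  exact Nat.sub_sub_self (ha.1 i)

theorem refl_tcr (w a β : ι → ℕ) (haw : ∀ i, a i ≤ w i) (q : ι → ℂ) (hq : ∀ i, q i ≠ 0) :
    tcr (fun i => (q i)⁻¹) (fun i => w i - a i) β =
      ∑ b ∈ Fintype.piFinset fun i => range (β i + 1), tcr q a b *
        ∏ i, ((-1 : ℂ) ^ b i * ((w i - b i).choose (β i - b i) : ℂ) * q i ^ b i *
          ((q i)⁻¹) ^ (w i - β i)) := by
  unfold tcr
  rw [Finset.prod_congr rfl fun i _ => refl_one (a i) (w i) (β i) (haw i) (q i) (hq i),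
    Finset.prod_univ_sum]
  refine Finset.sum_congr rfl fun b _ => ?_
  rw [Finset.prod_mul_distrib]

/-- Reflection of one condition.  For `q` with nonzero coordinates and `A ⊆ {a ≤ w}`: if
`f` on `A` vanishes to order `m` at `q`, then `g a = f (w - a)` on `w - A` vanishes to order `m`
at `1/q`.

Proof.  Let `T b = ∑_{a ∈ A} f a tcr q a b` (Taylor coefficients, `T b = 0` for `|b| < m`, and
`T b = 0` unless `b ≤ w`).  Taylor's formula at the level of monomials:
`∑_{a ∈ A} f a y^(w - a) = ∑_{b ≤ w} T b y^(w - b) (1 - q y)^b` (expand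
`x^a = ∑_b tcr q a b (x - q)^b` and multiply by `y^w` with `x = 1/y`; one variable at a time:
`y^(w-a) = ∑_{b ≤ a} binom(a,b) q^(a-b) y^(w-b) (1 - q y)^b`, which is
`y^(w-a) * (1)^a = y^(w-a) * (q y + (1 - q y))^a`).  Every term with `T b ≠ 0` is divisible by
`(1 - q y)^b` with `|b| ≥ m`, and `1 - q_i y_i = - q_i (y_i - 1/q_i)`, so it vanishes to order
`m` at `1/q`.

Purely combinatorial version (recommended): for `a ≤ w` (numbers)
`binom(w - a, β) = ∑_{b ≤ β} (-1)^b binom(a, b) binom(w - b, β - b)` (induction on `a`, Pascal),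
hence with `c b β = (-1)^b binom(w - b, β - b) q^b (q⁻¹)^(w - β)` one has
`binom(w - a, β) (q⁻¹)^(w - a - β) = ∑_{b ≤ β} binom(a, b) q^(a - b) c b β`, and taking the product
over the coordinates (`Finset.prod_univ_sum`)
`tcr q⁻¹ (w - a) β = ∑_{b ≤ β} tcr q a b * ∏ i, c_i (b i) (β i)`; therefore
`∑_a f a tcr q⁻¹ (w - a) β = ∑_{b ≤ β} T b * ∏ i, c_i (b i) (β i) = 0` for `|β| < m`. -/
theorem sat_reflect (σ : ℕ) (w : ι → ℕ) (hσ : σ ≤ ∑ i, w i) (f : (ι → ℕ) → ℂ) (m : ℕ)
    (q : ι → ℂ) (hq : ∀ i, q i ≠ 0) (h : Sat (Rg σ w) f (Kind.free m) q) :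
    Sat (Rg (∑ i, w i - σ) w) (fun a => f (fun i => w i - a i)) (Kind.free m)
      (fun i => (q i)⁻¹) := by
  intro β hβ
  have hβ' : ∑ i, β i < m := hβ
  have h' : ∀ b : ι → ℕ, ∑ i, b i < m → ∑ a ∈ Rg σ w, f a * tcr q a b = 0 := h
  change ∑ a ∈ Rg (∑ i, w i - σ) w, f (fun i => w i - a i) * tcr (fun i => (q i)⁻¹) a β = 0
  have h1 : ∑ a ∈ Rg (∑ i, w i - σ) w, f (fun i => w i - a i) * tcr (fun i => (q i)⁻¹) a β =
      ∑ a ∈ Rg σ w, f a * tcr (fun i => (q i)⁻¹) (fun i => w i - a i) β := by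
    refine Finset.sum_nbij' (fun a i => w i - a i) (fun a i => w i - a i)
      (fun a ha => refl_mem' hσ ha) (fun a ha => refl_mem ha) (fun a ha => refl_refl ha)
      (fun a ha => refl_refl ha) fun a ha => ?_
    have h2 := refl_refl ha
    simp only
    rw [h2]
  rw [h1]
  have h3 : ∀ a ∈ Rg σ w, f a * tcr (fun i => (q i)⁻¹) (fun i => w i - a i) β =
      ∑ b ∈ Fintype.piFinset fun i => range (β i + 1), (f a * tcr q a b) *
        ∏ i, ((-1 : ℂ) ^ b i * ((w i - b i).choose (β i - b i) : ℂ) * q i ^ b i *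
          ((q i)⁻¹) ^ (w i - β i)) := by
    intro a ha
    rw [refl_tcr w a β (mem_Rg.1 ha).1 q hq, Finset.mul_sum]
    exact Finset.sum_congr rfl fun b _ => by rw [mul_assoc]
  rw [Finset.sum_congr rfl h3, Finset.sum_comm]
  refine Finset.sum_eq_zero fun b hb => ?_
  rw [← Finset.sum_mul, h' b, zero_mul]
  rw [Fintype.mem_piFinset] at hb
  refine lt_of_le_of_lt (Finset.sum_le_sum fun i _ => ?_) hβ'
  exact Nat.lt_succ_iff.1 (Finset.mem_range.1 (hb i))

/-- Reflection of the region (take general positions with nonzero coordinates by `GI.general`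
or `GI.exists_common` and invert them). -/
theorem GM.reflect (σ : ℕ) (w : ι → ℕ) (hσ : σ ≤ ∑ i, w i) (G : Multiset ℕ)
    (h : GM (Rg (∑ i, w i - σ) w) (G.map Kind.free)) : GM (Rg σ w) (G.map Kind.free) := by
  obtain ⟨n, k, hk, hGI⟩ := h
  obtain ⟨pos, hpos, -, hne⟩ := GI.exists_common hGI hGI
  refine ⟨n, k, hk, fun i j => (pos i j)⁻¹, ?_⟩
  intro f hf a ha
  have hkf : ∀ i, ∃ m, k i = Kind.free m := by
    intro i
    have h1 : k i ∈ (univ : Finset (Fin n)).val.map k :=
      Multiset.mem_map.2 ⟨i, Finset.mem_univ_val i, rfl⟩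
    rw [hk, Multiset.mem_map] at h1
    obtain ⟨m, -, hm⟩ := h1
    exact ⟨m, hm.symm⟩
  have h2 : ∀ i, Sat (Rg (∑ i, w i - σ) w) (fun a => f (fun i => w i - a i)) (k i) (pos i) := by
    intro i
    obtain ⟨m, hm⟩ := hkf i
    have h3 := hf i
    rw [hm] at h3 ⊢
    have h4 := sat_reflect σ w hσ f m (fun j => (pos i j)⁻¹) (fun j => inv_ne_zero (hne i j)) h3
    simpa only [inv_inv] using h4
  have h5 := hpos _ h2 _ (refl_mem ha)
  simp only [refl_refl ha] at h5
  exact h5

/-- The reflected region has the same number of points. -/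
theorem card_reflect (σ : ℕ) (w : ι → ℕ) (hσ : σ ≤ ∑ i, w i) :
    (Rg (∑ i, w i - σ) w).card = (Rg σ w).card :=
  Finset.card_nbij' (fun a i => w i - a i) (fun a i => w i - a i)
    (fun _ ha => refl_mem' hσ ha) (fun _ ha => refl_mem ha) (fun _ ha => refl_refl ha)
    (fun _ ha => refl_refl ha)

end Pool.Agent.H18.Ex

end

section

/-!
# Module Asm: assembly of the induction step
-/

namespace Pool.Agent.H18.Ex

open Finset

section

variable {ι : Type} [Fintype ι] [DecidableEq ι]

/-- Replace the forced conditions on `x_l = 0`. -/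
def Cfg.upd (c : Cfg ι) (l : ι) (X : Multiset (ℕ × ℕ)) (s : ℕ) : Cfg ι where
  N := c.N
  s := s
  Φ := Function.update c.Φ l X

theorem Cfg.kinds_split (c : Cfg ι) (l : ι) :
    c.kinds = c.N.map Kind.free + Multiset.replicate c.s (Kind.free 1) +
      ∑ i ∈ univ.erase l, ((c.Φ i).map fun x => Kind.forced i x.1 x.2) +
      (c.Φ l).map fun x => Kind.forced l x.1 x.2 := by
  unfold Cfg.kinds
  rw [← add_sum_erase univ _ (mem_univ l), add_comm ((c.Φ l).map _), ← add_assoc]

theorem Cfg.kinds_upd (c : Cfg ι) (l : ι) (X : Multiset (ℕ × ℕ)) (s : ℕ) :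
    (c.upd l X s).kinds = c.N.map Kind.free + Multiset.replicate s (Kind.free 1) +
      ∑ i ∈ univ.erase l, ((c.Φ i).map fun x => Kind.forced i x.1 x.2) +
      X.map fun x => Kind.forced l x.1 x.2 := by
  rw [Cfg.kinds_split _ l]
  unfold Cfg.upd
  simp only [Function.update_self]
  congr 2
  refine sum_congr rfl fun i hi => ?_
  rw [Function.update_of_ne (ne_of_mem_erase hi)]

theorem Cfg.sz_split (n : ℕ) (c : Cfg ι) (l : ι) :
    c.sz n = (c.N.map (ell (n + 1))).sum + c.s + ∑ i ∈ univ.erase l, c.fl n i + c.fl n l := by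
  unfold Cfg.sz Cfg.nsz
  rw [← add_sum_erase univ _ (mem_univ l), add_comm (c.fl n l), ← add_assoc]

theorem Cfg.sz_upd (n : ℕ) (c : Cfg ι) (l : ι) (X : Multiset (ℕ × ℕ)) (s : ℕ) :
    (c.upd l X s).sz n = (c.N.map (ell (n + 1))).sum + s + ∑ i ∈ univ.erase l, c.fl n i +
      (X.map fun x => ell (n + 1) x.1 + 1 - x.2).sum := by
  rw [Cfg.sz_split _ _ l]
  unfold Cfg.upd Cfg.fl
  simp only [Function.update_self]
  congr 2
  refine sum_congr rfl fun i hi => ?_
  rw [Function.update_of_ne (ne_of_mem_erase hi)]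

theorem Cfg.tr_upd_self (n : ℕ) (c : Cfg ι) (l : ι) (X : Multiset (ℕ × ℕ)) (s : ℕ) :
    (c.upd l X s).tr n l = (X.map fun x => ell n x.1).sum := by
  unfold Cfg.upd Cfg.tr
  simp only [Function.update_self]

theorem Cfg.OK_upd {M : ℕ} {c : Cfg ι} (hc : c.OK M) (l : ι) (X : Multiset (ℕ × ℕ)) (s : ℕ)
    (hX : ∀ x ∈ X, 1 ≤ x.2 ∧ x.2 ≤ 2 ∧ x.2 ≤ x.1 ∧ x.1 ≤ M) : (c.upd l X s).OK M := by
  refine ⟨hc.hN, ?_⟩
  intro l' x hx
  by_cases h : l' = l
  · subst h
    rw [show (c.upd l' X s).Φ l' = X from Function.update_self _ _ _] at hx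
    exact hX x hx
  · rw [show (c.upd l X s).Φ l' = c.Φ l' from Function.update_of_ne h _ _] at hx
    exact hc.hΦ l' x hx

omit [Fintype ι] [DecidableEq ι] in
/-- Numbers of the shift of a valid multiset of forced conditions. -/
theorem shf_numbers (n M : ℕ) (hn : 1 ≤ n) (X : Multiset (ℕ × ℕ))
    (hX : ∀ x ∈ X, 1 ≤ x.2 ∧ x.2 ≤ 2 ∧ x.2 ≤ x.1 ∧ x.1 ≤ M) :
    (∀ x ∈ shf X, 1 ≤ x.2 ∧ x.2 ≤ 2 ∧ x.2 ≤ x.1 ∧ x.1 ≤ M) ∧
    ((shf X).map fun x => ell (n + 1) x.1 + 1 - x.2).sum + (X.map fun x => ell n x.1).sum =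
      (X.map fun x => ell (n + 1) x.1 + 1 - x.2).sum ∧
    M * ((shf X).map fun x => ell n x.1).sum ≤ (M - 1) * (X.map fun x => ell n x.1).sum := by
  induction X using Multiset.induction_on with
  | empty => simp [shf]
  | cons y X ih =>
    obtain ⟨h1, h2, h3⟩ := ih fun x hx => hX x (Multiset.mem_cons_of_mem hx)
    obtain ⟨hy1, hy2, hy3, hy4⟩ := hX y (Multiset.mem_cons_self _ _)
    obtain ⟨c, hc⟩ : ∃ c, y.1 = c + 1 := ⟨y.1 - 1, by omega⟩
    have hs := ell_succ n c
    have hr := ell_ratio (n := n) (c := c) (M := M) hn (by omega)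
    by_cases hlt : y.2 ≤ c
    · have hshf : shf (y ::ₘ X) = (y.1 - 1, y.2) ::ₘ shf X := by
        unfold shf
        rw [Multiset.map_cons, Multiset.filter_cons_of_pos]
        simp only
        omega
      rw [hshf]
      refine ⟨?_, ?_, ?_⟩
      · intro x hx
        rcases Multiset.mem_cons.1 hx with rfl | hx
        · simp only
          omega
        · exact h1 x hx
      · simp only [Multiset.map_cons, Multiset.sum_cons]
        rw [hc] at *
        simp only [Nat.add_sub_cancel]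
        have hp : 1 ≤ ell (n + 1) c := ell_pos _ (by omega)
        omega
      · simp only [Multiset.map_cons, Multiset.sum_cons, mul_add]
        rw [hc]
        simp only [Nat.add_sub_cancel]
        omega
    · have hshf : shf (y ::ₘ X) = shf X := by
        unfold shf
        rw [Multiset.map_cons, Multiset.filter_cons_of_neg]
        simp only
        omega
      rw [hshf]
      have hy : y.2 = c + 1 := by omega
      refine ⟨h1, ?_, ?_⟩
      · simp only [Multiset.map_cons, Multiset.sum_cons]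
        rw [hc, hy]
        have hc2 : c = 0 ∨ c = 1 := by omega
        rcases hc2 with rfl | rfl
        · rw [ell_one, ell_one]
          omega
        · have h5 := ell_succ n 1
          rw [ell_one] at h5
          rw [h5]
          omega
      · simp only [Multiset.map_cons, Multiset.sum_cons, mul_add]
        omega

omit [Fintype ι] [DecidableEq ι] in
theorem shf_iterate_replicate (s c j : ℕ) (hj : j ≤ c) :
    shf^[j] (Multiset.replicate s (c + 1, 1)) = Multiset.replicate s (c - j + 1, 1) := by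
  induction j with
  | zero => rfl
  | succ j ih =>
    rw [Function.iterate_succ_apply', ih (by omega)]
    unfold shf
    rw [Multiset.map_replicate, Multiset.filter_eq_self.2]
    · congr 2
      simp only
      omega
    · intro x hx
      rw [Multiset.eq_of_mem_replicate hx]
      simp only
      omega

/-- Bridging for configurations. -/
theorem bridge_cfg (n M : ℕ) (c : Cfg ι) (hc : c.OK M) (l : ι) (s₀ : ℕ)
    (hs : Multiset.replicate s₀ (1, 1) ≤ c.Φ l) (A A' : Finset (ι → ℕ))
    (hA : ∀ a, a ∈ A' ↔ Function.update a l (a l + 1) ∈ A)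
    (h1 : GM A (c.upd l (c.Φ l - Multiset.replicate s₀ (1, 1)) (c.s + s₀)).kinds)
    (h2 : GM A' (c.upd l (shf (c.Φ l - Multiset.replicate s₀ (1, 1))) c.s).kinds) :
    GM A c.kinds := by
  set X := c.Φ l - Multiset.replicate s₀ (1, 1) with hX
  have hXs : c.Φ l = X + Multiset.replicate s₀ (1, 1) := by
    rw [hX, tsub_add_cancel_of_le hs]
  set S : Multiset (Kind ι) := c.N.map Kind.free + Multiset.replicate c.s (Kind.free 1) +
      ∑ i ∈ univ.erase l, ((c.Φ i).map fun x => Kind.forced i x.1 x.2) +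
      X.map fun x => Kind.forced l x.1 x.2 with hS
  have e1 : c.kinds = S + Multiset.replicate s₀ (Kind.forced l 1 1) := by
    rw [Cfg.kinds_split c l, hXs, Multiset.map_add, Multiset.map_replicate, ← add_assoc]
  rw [e1]
  apply GM.bridge A A' l hA S s₀
  · rw [Cfg.kinds_upd] at h1
    convert h1 using 1
    rw [hS, Multiset.replicate_add]
    abel
  · rw [Cfg.kinds_upd] at h2
    refine GM.mono ?_ h2
    rw [hS, Multiset.map_add, Multiset.map_add, Multiset.map_add]
    have e2 : (c.N.map (Kind.free : ℕ → Kind ι)).map (Kind.dn l) = c.N.map Kind.free := by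
      rw [Multiset.map_map]
      rfl
    have e3 : (Multiset.replicate c.s (Kind.free 1 : Kind ι)).map (Kind.dn l) =
        Multiset.replicate c.s (Kind.free 1) := by
      rw [Multiset.map_replicate]
      rfl
    have e4 : (∑ i ∈ univ.erase l, ((c.Φ i).map fun x => Kind.forced i x.1 x.2)).map
        (Kind.dn l) = ∑ i ∈ univ.erase l, ((c.Φ i).map fun x => Kind.forced i x.1 x.2) := by
      have e5 : ∀ (T : Finset ι), (∀ i ∈ T, i ≠ l) →
          (∑ i ∈ T, ((c.Φ i).map fun x => Kind.forced i x.1 x.2)).map (Kind.dn l) =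
            ∑ i ∈ T, ((c.Φ i).map fun x => Kind.forced i x.1 x.2) := by
        intro T
        induction T using Finset.induction_on with
        | empty => simp
        | insert i T hi ih =>
          intro hT
          rw [sum_insert hi, Multiset.map_add, ih fun j hj => hT j (mem_insert_of_mem hj),
            Multiset.map_map]
          congr 1
          refine Multiset.map_congr rfl fun x _ => ?_
          simp only [Function.comp_apply, Kind.dn]
          rw [if_neg (hT i (mem_insert_self _ _))]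
      exact e5 _ fun i hi => ne_of_mem_erase hi
    rw [e2, e3, e4]
    refine add_le_add le_rfl ?_
    unfold shf
    rw [Multiset.map_map]
    refine (Multiset.map_le_map (Multiset.filter_le _ _)).trans (le_of_eq ?_)
    rw [Multiset.map_map]
    refine Multiset.map_congr rfl fun x _ => ?_
    simp [Kind.dn]

end

end Pool.Agent.H18.Ex

end

section

/-!
# Module Run: running along a good list of directions
-/

namespace Pool.Agent.H18.Ex

open Finset

variable {ι : Type} [Fintype ι] [DecidableEq ι]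

/-- The layer of a region. -/
theorem Rg_layer (σ : ℕ) (w : ι → ℕ) (l : ι) :
    (Rg σ w).filter (fun a => a l = 0) = Rg σ (Function.update w l 0) := by
  ext a
  rw [mem_filter, mem_Rg, mem_Rg]
  constructor
  · rintro ⟨⟨h1, h2⟩, h3⟩
    refine ⟨fun i => ?_, h2⟩
    by_cases hi : i = l
    · subst hi
      rw [Function.update_self, h3]
    · rw [Function.update_of_ne hi]
      exact h1 i
  · rintro ⟨h1, h2⟩
    have h3 : a l = 0 := by
      have := h1 l
      rw [Function.update_self] at this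
      omega
    refine ⟨⟨fun i => ?_, h2⟩, h3⟩
    by_cases hi : i = l
    · subst hi
      rw [h3]
      exact Nat.zero_le _
    · have := h1 i
      rwa [Function.update_of_ne hi] at this

private theorem run_sum_update (a : ι → ℕ) (l : ι) :
    ∑ i, Function.update a l (a l + 1) i = ∑ i, a i + 1 := by
  rw [Finset.sum_update_of_mem (Finset.mem_univ l), Finset.sdiff_singleton_eq_erase,
    ← Finset.add_sum_erase univ a (Finset.mem_univ l)]
  ring

/-- The residual of a region. -/
theorem Rg_resid (σ : ℕ) (w : ι → ℕ) (l : ι) (hσ : 1 ≤ σ) (hw : 1 ≤ w l) (a : ι → ℕ) :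
    a ∈ Rg (σ - 1) (Function.update w l (w l - 1)) ↔ Function.update a l (a l + 1) ∈ Rg σ w := by
  rw [mem_Rg, mem_Rg, run_sum_update]
  constructor
  · rintro ⟨h1, h2⟩
    refine ⟨fun i => ?_, by omega⟩
    have h3 := h1 i
    by_cases hi : i = l
    · subst hi
      rw [Function.update_self] at h3 ⊢
      omega
    · rw [Function.update_of_ne hi] at h3 ⊢
      exact h3
  · rintro ⟨h1, h2⟩
    refine ⟨fun i => ?_, by omega⟩
    have h3 := h1 i
    by_cases hi : i = l
    · subst hi
      rw [Function.update_self] at h3 ⊢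
      omega
    · rw [Function.update_of_ne hi] at h3 ⊢
      exact h3

/-- Counting layer and residual. -/
theorem card_Rg_peel (σ : ℕ) (w : ι → ℕ) (l : ι) (hσ : 1 ≤ σ) (hw : 1 ≤ w l) :
    (Rg (σ - 1) (Function.update w l (w l - 1))).card + fc σ w l = (Rg σ w).card := by
  have h1 : (Rg (σ - 1) (Function.update w l (w l - 1))).card =
      ((Rg σ w).filter fun a => ¬ a l = 0).card := by
    apply Finset.card_bij (fun a _ => Function.update a l (a l + 1))
    · intro a ha
      rw [mem_filter]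
      refine ⟨(Rg_resid σ w l hσ hw a).1 ha, ?_⟩
      rw [Function.update_self]
      omega
    · intro a _ b _ hab
      funext i
      have h2 := congrFun hab i
      by_cases hi : i = l
      · subst hi
        rw [Function.update_self, Function.update_self] at h2
        omega
      · rw [Function.update_of_ne hi, Function.update_of_ne hi] at h2
        exact h2
    · intro b hb
      rw [mem_filter] at hb
      have h3 : Function.update (Function.update b l (b l - 1)) l
          (Function.update b l (b l - 1) l + 1) = b := by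
        rw [Function.update_self, Function.update_idem, Nat.sub_add_cancel (by omega),
          Function.update_eq_self]
      refine ⟨Function.update b l (b l - 1), ?_, h3⟩
      rw [Rg_resid σ w l hσ hw, h3]
      exact hb.1
  have h2 : fc σ w l = ((Rg σ w).filter fun a => a l = 0).card := by
    unfold fc
    rw [Rg_layer]
  rw [h1, h2, add_comm]
  exact Finset.card_filter_add_card_filter_not _

/-- `∑ fl ≤ M * ∑ tr` for a valid configuration (`ell_le_mul`). -/
theorem Cfg.fl_le (n M : ℕ) (c : Cfg ι) (hc : c.OK M) (l : ι) : c.fl n l ≤ M * c.tr n l := by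
  unfold Cfg.fl Cfg.tr
  rw [← Multiset.sum_map_mul_left]
  apply Multiset.sum_map_le_sum_map
  intro x hx
  obtain ⟨h1, _, _, h4⟩ := hc.hΦ l x hx
  have h5 := ell_le_mul n x.1
  have h6 : x.1 * ell n x.1 ≤ M * ell n x.1 := Nat.mul_le_mul_right _ h4
  omega

theorem Good.mono {n M : ℕ} {X Y : ℕ → (ι → ℕ) → Prop} (h : ∀ σ w, X σ w → Y σ w) (L : List ι)
    (σ : ℕ) (w φ : ι → ℕ) (hL : Good n M X L σ w φ) : Good n M Y L σ w φ := by
  induction L generalizing σ w φ with
  | nil => trivial
  | cons l L ih =>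
    obtain ⟨h1, h2, h3, h4, h5, h6⟩ := hL
    exact ⟨h1, h2, h _ _ h3, h4, h5, ih _ _ _ h6⟩

omit [Fintype ι] in
private theorem ew_nil (w : ι → ℕ) : ew [] w = w := by
  funext i
  simp [ew]

omit [Fintype ι] in
private theorem ew_cons (l : ι) (L : List ι) (w : ι → ℕ) :
    ew (l :: L) w = ew L (Function.update w l (w l - 1)) := by
  funext i
  unfold ew
  by_cases hi : i = l
  · subst hi
    rw [List.count_cons_self, Function.update_self]
    omega
  · rw [List.count_cons_of_ne (fun h => hi h.symm), Function.update_of_ne hi]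

omit [Fintype ι] [DecidableEq ι] in
private theorem sub_length_cons (σ : ℕ) (l : ι) (L : List ι) :
    σ - (l :: L).length = σ - 1 - L.length := by
  rw [List.length_cons]
  omega

/-- `Good` for an appended list. -/
theorem Good.append {n M : ℕ} {X : ℕ → (ι → ℕ) → Prop} (L L' : List ι) (σ : ℕ) (w φ : ι → ℕ) :
    Good n M X (L ++ L') σ w φ ↔
      Good n M X L σ w φ ∧ Good n M X L' (σ - L.length) (ew L w) (eph n M L σ w φ) := by
  induction L generalizing σ w φ with
  | nil =>
    rw [ew_nil]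
    change Good n M X L' σ w φ ↔ True ∧ Good n M X L' (σ - 0) w φ
    rw [Nat.sub_zero]
    exact ⟨fun h => ⟨trivial, h⟩, fun h => h.2⟩
  | cons l L ih =>
    rw [ew_cons, sub_length_cons]
    change (1 ≤ σ ∧ 1 ≤ w l ∧ X σ (Function.update w l 0) ∧ _ ∧ _ ∧
      Good n M X (L ++ L') _ _ _) ↔ (1 ≤ σ ∧ 1 ≤ w l ∧ X σ (Function.update w l 0) ∧ _ ∧ _ ∧
      Good n M X L _ _ _) ∧ _
    rw [ih]
    constructor
    · rintro ⟨h1, h2, h3, h4, h5, h6, h7⟩
      exact ⟨⟨h1, h2, h3, h4, h5, h6⟩, h7⟩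
    · rintro ⟨⟨h1, h2, h3, h4, h5, h6⟩, h7⟩
      exact ⟨h1, h2, h3, h4, h5, h6, h7⟩

theorem ew_append (L L' : List ι) (w : ι → ℕ) : ew (L ++ L') w = ew L' (ew L w) := by
  funext i
  unfold ew
  rw [List.count_append, Nat.sub_sub]

theorem eph_append (n M : ℕ) (L L' : List ι) (σ : ℕ) (w φ : ι → ℕ) :
    eph n M (L ++ L') σ w φ =
      eph n M L' (σ - L.length) (ew L w) (eph n M L σ w φ) := by
  induction L generalizing σ w φ with
  | nil =>
    rw [ew_nil]
    rfl
  | cons l L ih =>
    rw [ew_cons, sub_length_cons]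
    exact ih _ _ _

private theorem shf_mono {S T : Multiset (ℕ × ℕ)} (h : S ≤ T) : shf S ≤ shf T :=
  Multiset.filter_le_filter _ (Multiset.map_le_map h)

private theorem shf_iterate_mono (k : ℕ) {S T : Multiset (ℕ × ℕ)} (h : S ≤ T) :
    shf^[k] S ≤ shf^[k] T := by
  induction k generalizing S T with
  | zero => exact h
  | succ k ih =>
    rw [Function.iterate_succ_apply, Function.iterate_succ_apply]
    exact ih (shf_mono h)

/-- Running along a good list, by induction on the list; each step is `peel` with `I₀ = 0`,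
`A = Rg σ w`, `A' = Rg (σ - 1) (update w l (w l - 1))`.  The hypothesis `hav` of `peel` follows from
`c.nsz n = c.sz n - ∑ fl ≥ |Rg σ w| - M * ∑ φ`; the new bound `c'.tr n l ≤ nphi n M f` from
`M * c'.tr n l ≤ (M - 1) * f + M * ell n M ^ 2`. -/
theorem run (n M : ℕ) (hn : 1 ≤ n) (hM : 1 ≤ M) (L : List ι) (σ : ℕ) (w φ : ι → ℕ)
    (hG : Good n M (fun σ w => Exa n M (Rg σ w)) L σ w φ) (c : Cfg ι) (hc : c.OK M)
    (htr : ∀ l, c.tr n l ≤ φ l) (hsz : (Rg σ w).card ≤ c.sz n) :
    ∃ c' : Cfg ι, c'.OK M ∧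
      (GM (Rg (σ - L.length) (ew L w)) c'.kinds → GM (Rg σ w) c.kinds) ∧
      (∀ l, c'.tr n l ≤ eph n M L σ w φ l) ∧
      c'.sz n + (Rg σ w).card = c.sz n + (Rg (σ - L.length) (ew L w)).card ∧
      (c'.s = c.s ∨ c'.N.card < g0 n M) ∧
      c'.N.card ≤ c.N.card ∧
      (L ≠ [] → c.N.card < g0 n M → c'.N = 0) ∧
      (c.N = 0 → c'.N = 0 ∧ ∀ l, c'.Φ l = shf^[L.count l] (c.Φ l)) ∧
      (∀ l, shf^[L.count l] (c.Φ l) ≤ c'.Φ l) ∧
      (∀ l, L.count l = 0 → c'.Φ l = c.Φ l) := by
  induction L generalizing σ w φ c with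
  | nil =>
    refine ⟨c, hc, ?_, htr, ?_, Or.inl rfl, le_rfl, fun h => absurd rfl h,
      fun h => ⟨h, fun l => rfl⟩, fun l => le_rfl, fun l _ => rfl⟩
    · rw [ew_nil]
      exact id
    · rw [ew_nil]
      rfl
  | cons l L ih =>
    obtain ⟨h1, h2, h3, h4, h5, h6⟩ := hG
    have hfl : ∑ l', c.fl n l' ≤ M * ∑ l', φ l' := by
      rw [Finset.mul_sum]
      refine Finset.sum_le_sum fun l' _ => ?_
      exact le_trans (Cfg.fl_le n M c hc l') (Nat.mul_le_mul_left _ (htr l'))
    have hszdef : c.sz n = c.nsz n + ∑ l', c.fl n l' := rfl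
    have hav : ell (n + 1) M * (fc σ w l + g0 n M) + fc σ w l ≤ c.nsz n := by omega
    have htrl := htr l
    have hlayer : ((Rg σ w).filter fun a => a l = 0).card = fc σ w l := by
      unfold fc
      rw [Rg_layer]
    obtain ⟨c₁, hc₁, hGM, hΦ, htr₁, hsz₁, hs₁, hN₁, hN₁0, hz₁, hle₁⟩ :=
      peel n M hn hM (Rg σ w) (Rg (σ - 1) (Function.update w l (w l - 1))) l
        (Rg_resid σ w l h1 h2) (fc σ w l) hlayer (by rw [Rg_layer]; exact h3) c hc 0
        (Multiset.zero_le _) (by rw [Multiset.map_zero, Multiset.sum_zero]; omega) hav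
    have hpeel := card_Rg_peel σ w l h1 h2
    have htr₁' : ∀ l', c₁.tr n l' ≤ Function.update φ l (nphi n M (fc σ w l)) l' := by
      intro l'
      by_cases hl' : l' = l
      · subst hl'
        rw [Function.update_self]
        unfold nphi
        have h7 : c₁.tr n l' ≤ ((M - 1) * fc σ w l' + M * ell n M ^ 2) / M := by
          rw [Nat.le_div_iff_mul_le (by omega), Nat.mul_comm]
          exact htr₁
        rw [Nat.add_mul_div_left _ _ (by omega)] at h7
        exact h7
      · rw [Function.update_of_ne hl']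
        have h8 : c₁.tr n l' = c.tr n l' := by
          unfold Cfg.tr
          rw [hΦ l' hl']
        rw [h8]
        exact htr l'
    obtain ⟨c₂, hc₂, hGM₂, htr₂, hsz₂, hs₂, hN₂, hN₂0, hz₂, hle₂, hcnt₂⟩ :=
      ih (σ - 1) (Function.update w l (w l - 1)) (Function.update φ l (nphi n M (fc σ w l))) h6
        c₁ hc₁ htr₁' (by omega)
    refine ⟨c₂, hc₂, ?_, htr₂, ?_, ?_, le_trans hN₂ hN₁, ?_, ?_, ?_, ?_⟩
    · rw [ew_cons, sub_length_cons]
      exact fun h => hGM (hGM₂ h)
    · rw [ew_cons, sub_length_cons]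
      omega
    · rcases hs₂ with h | h
      · rcases hs₁ with h' | h'
        · exact Or.inl (h.trans h')
        · exact Or.inr (by omega)
      · exact Or.inr h
    · intro _ hlt
      exact (hz₂ (hN₁0 hlt (by omega))).1
    · intro h0
      obtain ⟨h7, h8⟩ := hz₁ h0
      obtain ⟨h9, h10⟩ := hz₂ h7
      refine ⟨h9, fun l' => ?_⟩
      by_cases hl' : l' = l
      · subst hl'
        rw [List.count_cons_self, Function.iterate_succ_apply, ← h8]
        exact h10 l'
      · rw [List.count_cons_of_ne (fun h => hl' h.symm), ← hΦ l' hl']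
        exact h10 l'
    · intro l'
      by_cases hl' : l' = l
      · subst hl'
        rw [List.count_cons_self, Function.iterate_succ_apply]
        rw [Multiset.map_zero, add_zero] at hle₁
        exact le_trans (shf_iterate_mono _ hle₁) (hle₂ l')
      · rw [List.count_cons_of_ne (fun h => hl' h.symm), ← hΦ l' hl']
        exact hle₂ l'
    · intro l' hcount
      by_cases hl' : l' = l
      · subst hl'
        rw [List.count_cons_self] at hcount
        omega
      · rw [List.count_cons_of_ne (fun h => hl' h.symm)] at hcount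
        rw [hcnt₂ l' hcount, hΦ l' hl']

end Pool.Agent.H18.Ex

end

section

/-!
# Module Fin: the two endings
-/

namespace Pool.Agent.H18.Ex

open Finset

variable {ι : Type} [Fintype ι] [DecidableEq ι]

/-- The cleaning list: `M + 1` peels in each direction. -/
def clean (M : ℕ) (dirs : List ι) : List ι := dirs.flatMap fun l => List.replicate (M + 1) l

private theorem fin_shf_aux (j : ℕ) (S : Multiset (ℕ × ℕ))
    (hS : ∀ x ∈ S, 1 ≤ x.2 ∧ x.2 ≤ x.1 ∧ x.1 ≤ j) : shf^[j] S = 0 := by
  induction j generalizing S with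
  | zero =>
    apply Multiset.eq_zero_of_forall_notMem
    intro x hx
    have := hS x hx
    omega
  | succ j ih =>
    rw [Function.iterate_succ_apply]
    apply ih
    intro x hx
    unfold shf at hx
    rw [Multiset.mem_filter, Multiset.mem_map] at hx
    obtain ⟨⟨y, hy, rfl⟩, h⟩ := hx
    have h1 := hS y hy
    refine ⟨h1.1, h, ?_⟩
    change y.1 - 1 ≤ j
    omega

/-- After `M` shifts all forced conditions are gone. -/
theorem shf_iterate_eq_zero {M j : ℕ} (hj : M ≤ j) (S : Multiset (ℕ × ℕ))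
    (hS : ∀ x ∈ S, 1 ≤ x.2 ∧ x.2 ≤ x.1 ∧ x.1 ≤ M) : shf^[j] S = 0 :=
  fin_shf_aux j S fun x hx => ⟨(hS x hx).1, (hS x hx).2.1, le_trans (hS x hx).2.2 hj⟩

omit [Fintype ι] in
private theorem fin_count_clean (M : ℕ) (dirs : List ι) (l : ι) (hl : l ∈ dirs) :
    M + 1 ≤ (clean M dirs).count l := by
  unfold clean
  induction dirs with
  | nil => exact absurd hl List.not_mem_nil
  | cons d ds ih =>
    rw [List.flatMap_cons, List.count_append]
    by_cases h : l = d
    · subst h
      rw [List.count_replicate_self]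
      exact Nat.le_add_right _ _
    · have h1 : l ∈ ds := by
        rcases List.mem_cons.1 hl with h2 | h2
        · exact absurd h2 h
        · exact h2
      exact le_trans (ih h1) (Nat.le_add_left _ _)

omit [DecidableEq ι] in
private theorem fin_kinds_simple {c : Cfg ι} (hN : c.N = 0) (hΦ : ∀ l, c.Φ l = 0) :
    c.kinds = (Multiset.replicate c.s 1).map Kind.free + 0 := by
  have h1 : c.kinds = c.N.map Kind.free + Multiset.replicate c.s (Kind.free 1) +
      ∑ l, (c.Φ l).map fun x => Kind.forced l x.1 x.2 := rfl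
  rw [h1, hN, Finset.sum_eq_zero (fun l _ => by rw [hΦ l, Multiset.map_zero]),
    Multiset.map_zero, zero_add, Multiset.map_replicate]

/-- Ending (A): there are so many simple points that the points of higher multiplicity are used
up before the end.

Proof.  `run` along `L` gives `c₁` with `c₁.N.card < g0 n M`: otherwise `c₁.s = c.s`, but
`c₁.s ≤ c₁.sz n = c.sz n - |Rg σ w| + |end| < c.s`.  Then `run` along the first element of
`clean M dirs` gives `c₂.N = 0`, `run` along the rest gives `c₃` with `c₃.N = 0`,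
`c₃.Φ l = shf^[≥ M] _ = 0` for `l ∈ dirs` and `c₃.Φ l = c.Φ l = 0` for `l ∉ dirs`; so
`c₃.s = c₃.sz n ≥ |end|` and `GM.of_card` finishes. -/
theorem ending_A (n M : ℕ) (hn : 1 ≤ n) (hM : 1 ≤ M) (dirs L : List ι) (hd : dirs ≠ [])
    (hnd : dirs.Nodup) (hLd : ∀ l ∈ L, l ∈ dirs) (σ : ℕ) (w φ : ι → ℕ)
    (hG : Good n M (fun σ w => Exa n M (Rg σ w)) (L ++ clean M dirs) σ w φ)
    (c : Cfg ι) (hc : c.OK M) (htr : ∀ l, c.tr n l ≤ φ l) (hsz : (Rg σ w).card ≤ c.sz n)
    (hΦ : ∀ l ∉ dirs, c.Φ l = 0)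
    (hs : c.sz n + (Rg (σ - L.length) (ew L w)).card < c.s + (Rg σ w).card) :
    GM (Rg σ w) c.kinds := by
  rw [Good.append] at hG
  obtain ⟨hG1, hG2⟩ := hG
  obtain ⟨c₁, hc₁, hGM₁, htr₁, hsz₁, hs₁, -, -, -, -, hcnt₁⟩ :=
    run n M hn hM L σ w φ hG1 c hc htr hsz
  apply hGM₁
  have hN₁ : c₁.N.card < g0 n M := by
    rcases hs₁ with h | h
    · exfalso
      have h1 : c₁.s ≤ c₁.sz n := by
        unfold Cfg.sz Cfg.nsz
        omega
      omega
    · exact h
  set σ₁ := σ - L.length with hσ₁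
  set w₁ := ew L w with hw₁
  set φ₁ := eph n M L σ w φ with hφ₁
  obtain ⟨d, ds, rfl⟩ := List.exists_cons_of_ne_nil hd
  have hclean : clean M (d :: ds) = [d] ++ (List.replicate M d ++ clean M ds) := by
    unfold clean
    rw [List.flatMap_cons, List.replicate_succ]
    rfl
  rw [hclean, Good.append] at hG2
  obtain ⟨hG3, hG4⟩ := hG2
  obtain ⟨c₂, hc₂, hGM₂, htr₂, hsz₂, -, -, hN₂, -, -, hcnt₂⟩ :=
    run n M hn hM [d] σ₁ w₁ φ₁ hG3 c₁ hc₁ htr₁ (by omega)
  apply hGM₂
  have hN₂' : c₂.N = 0 := hN₂ (List.cons_ne_nil d []) hN₁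
  obtain ⟨c₃, hc₃, hGM₃, -, hsz₃, -, -, -, hz₃, -, -⟩ :=
    run n M hn hM (List.replicate M d ++ clean M ds) _ _ _ hG4 c₂ hc₂ htr₂ (by omega)
  apply hGM₃
  obtain ⟨hN₃, hΦ₃⟩ := hz₃ hN₂'
  have hΦ₃' : ∀ l, c₃.Φ l = 0 := by
    intro l
    rw [hΦ₃ l]
    by_cases hl : l ∈ d :: ds
    · have hcount : M ≤ (List.replicate M d ++ clean M ds).count l := by
        rw [List.count_append]
        rcases List.mem_cons.1 hl with h | h
        · subst h
          rw [List.count_replicate_self]
          exact Nat.le_add_right _ _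
        · have := fin_count_clean M ds l h
          omega
      apply shf_iterate_eq_zero hcount
      intro x hx
      have := hc₂.hΦ l x hx
      exact ⟨this.1, this.2.2.1, this.2.2.2⟩
    · have h1 : L.count l = 0 := List.count_eq_zero_of_not_mem fun h => hl (hLd l h)
      have h2 : c₁.Φ l = 0 := by rw [hcnt₁ l h1, hΦ l hl]
      have h3 : [d].count l = 0 := by
        apply List.count_eq_zero_of_not_mem
        intro h
        rw [List.mem_singleton] at h
        exact hl (h ▸ List.mem_cons_self)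
      rw [hcnt₂ l h3, h2]
      apply fin_shf_aux
      intro x hx
      exact absurd hx (Multiset.notMem_zero x)
  rw [fin_kinds_simple hN₃ hΦ₃']
  apply GM.of_card
  · intro m hm
    rw [Multiset.eq_of_mem_replicate hm]
  · rw [Multiset.card_replicate]
    have h1 : c₃.sz n = c₃.s := by
      unfold Cfg.sz Cfg.nsz Cfg.fl
      rw [hN₃, Finset.sum_eq_zero (fun l _ => by rw [hΦ₃' l, Multiset.map_zero,
        Multiset.sum_zero])]
      simp
    omega

/-- Ending (B): the excess is so large that at the end there are more free points than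
exponents.

Proof.  `run` along `L` gives `c₁` with
`c₁.nsz n = c₁.sz n - ∑ fl ≥ c.sz n - |Rg σ w| + |end| - M * ∑ eph ≥ ell (n + 1) M * |end|`, and
`c₁.nsz n ≤ ell (n + 1) M * (c₁.N.card + c₁.s)`; so `c₁.N.card + c₁.s ≥ |end|` and `GM.of_card`
applies to `T = c₁.N + replicate c₁.s 1`. -/
theorem ending_B (n M : ℕ) (hn : 1 ≤ n) (hM : 1 ≤ M) (L : List ι) (σ : ℕ) (w φ : ι → ℕ)
    (hG : Good n M (fun σ w => Exa n M (Rg σ w)) L σ w φ)
    (c : Cfg ι) (hc : c.OK M) (htr : ∀ l, c.tr n l ≤ φ l)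
    (hs : ell (n + 1) M * (Rg (σ - L.length) (ew L w)).card +
        M * ∑ l, eph n M L σ w φ l + (Rg σ w).card ≤
      c.sz n + (Rg (σ - L.length) (ew L w)).card) (hsz : (Rg σ w).card ≤ c.sz n) :
    GM (Rg σ w) c.kinds := by
  obtain ⟨c₁, hc₁, hGM₁, htr₁, hsz₁, -, -, -, -, -, -⟩ :=
    run n M hn hM L σ w φ hG c hc htr hsz
  apply hGM₁
  have hfl : ∑ l, c₁.fl n l ≤ M * ∑ l, eph n M L σ w φ l := by
    rw [Finset.mul_sum]
    refine Finset.sum_le_sum fun l _ => ?_
    exact le_trans (Cfg.fl_le n M c₁ hc₁ l) (Nat.mul_le_mul_left _ (htr₁ l))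
  have hszdef : c₁.sz n = c₁.nsz n + ∑ l, c₁.fl n l := rfl
  have hN : (c₁.N.map (ell (n + 1))).sum ≤ ell (n + 1) M * c₁.N.card := by
    have h1 : (c₁.N.map (ell (n + 1))).sum ≤ (c₁.N.map fun _ => ell (n + 1) M).sum := by
      apply Multiset.sum_map_le_sum_map
      intro m hm
      exact ell_mono _ (hc₁.hN m hm).2
    rw [Multiset.map_const', Multiset.sum_replicate, smul_eq_mul, Nat.mul_comm] at h1
    exact h1
  have hell := ell_pos (n + 1) hM
  have hnsz : c₁.nsz n ≤ ell (n + 1) M * (c₁.N.card + c₁.s) := by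
    unfold Cfg.nsz
    rw [Nat.mul_add]
    have h2 : c₁.s ≤ ell (n + 1) M * c₁.s := Nat.le_mul_of_pos_left _ hell
    omega
  have hcard : (Rg (σ - L.length) (ew L w)).card ≤ c₁.N.card + c₁.s := by
    apply Nat.le_of_mul_le_mul_left _ hell
    omega
  have h1 : c₁.kinds = (c₁.N + Multiset.replicate c₁.s 1).map Kind.free +
      ∑ l, (c₁.Φ l).map fun x => Kind.forced l x.1 x.2 := by
    rw [Multiset.map_add, Multiset.map_replicate]
    rfl
  rw [h1]
  apply GM.of_card
  · intro m hm
    rw [Multiset.mem_add] at hm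
    rcases hm with hm | hm
    · have := hc₁.hN m hm
      omega
    · rw [Multiset.eq_of_mem_replicate hm]
  · rw [Multiset.card_add, Multiset.card_replicate]
    exact hcard

end Pool.Agent.H18.Ex

end

section

/-!
# Module URun: the Horace steps of the uniform version
-/

namespace Pool.Agent.H21.NX

open Finset Pool.Agent.H18.Ex

theorem count_nxt {Ψ : Multiset (ℕ × ℕ)} {N0 : Multiset ℕ} {μ α ρ a c : ℕ} (hc : 1 ≤ c)
    (h : a ≤ Ψ.count (c + 1, 1)) : a ≤ (nxt Ψ N0 μ α ρ).count (c, 1) := by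
  rw [Multiset.le_count_iff_replicate_le] at h ⊢
  unfold nxt
  rw [Multiset.le_filter]
  refine ⟨?_, fun x hx => ?_⟩
  · have h1 : Multiset.replicate a (c, 1) ≤ Ψ.map (fun x : ℕ × ℕ => (x.1 - 1, x.2)) := by
      have := Multiset.map_le_map (f := fun x : ℕ × ℕ => (x.1 - 1, x.2)) h
      rwa [Multiset.map_replicate] at this
    exact le_trans h1 (le_trans (Multiset.le_add_right _ _) (le_trans (Multiset.le_add_right _ _)
      (Multiset.le_add_right _ _)))
  · rw [Multiset.eq_of_mem_replicate hx]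
    exact hc

theorem count_nxt_start {N0 : Multiset ℕ} {μ ρ a : ℕ} (hμ : 2 ≤ μ) :
    a ≤ (nxt 0 N0 μ a ρ).count (μ - 1, 1) := by
  rw [Multiset.le_count_iff_replicate_le]
  unfold nxt
  rw [Multiset.le_filter]
  refine ⟨?_, fun x hx => ?_⟩
  · exact le_trans (Multiset.le_add_left _ _) (Multiset.le_add_right _ _)
  · rw [Multiset.eq_of_mem_replicate hx]
    change 1 ≤ μ - 1
    omega

end Pool.Agent.H21.NX

end
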