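import Pool.Agent.H94.LP2.M18
import Pool.Agent.H94.LP2.M26
import Pool.Agent.H94.LP2.M27

/-! The parts of this file: H21.NX.UPeel, H21.NX.URun_1, H21.NX.UCore. -/

section

/-!
# Module UPeel: peeling with many free simple points, arbitrarily many steps
-/

namespace Pool.Agent.H21.NX

open Finset Pool.Agent.H18.Ex

theorem peel_long {s M D0 : ℕ} (h : UNum s M D0) (l : Fin (s + 2)) (X : ℕ) :
    ∀ (S : ℕ) (Φ : Multiset (ℕ × ℕ)) (R : Multiset ℕ) (p : ℕ), OKF M Φ →
      (∀ m ∈ R, 1 ≤ m ∧ m ≤ M) →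
      ell (s + 1) S ≤ fl s Φ + tot (s + 1) R + p →
      fl s Φ + tot (s + 1) R + p ≤ ell (s + 1) S + X →
      2 * tl s Φ ≤ ell s S →
      S * GG s M + X + ell s M ^ 2 + ell (s + 1) D0 ≤ p →
      GM (Sx (Fin (s + 2)) (S - 1)) (fk l Φ + R.map Kind.free +
        Multiset.replicate p (Kind.free 1)) := by
  have hs := h.s1
  have hE1 := h.E1
  have hM := h.hM
  have hDM := h.hD
  intro S
  induction S with
  | zero =>
    intro Φ R p _ _ _ hT2 _ hp
    exfalso
    have h1 : ell (s + 1) 0 = 0 := ell_zero (by omega)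
    have h2 : 1 ≤ ell s M ^ 2 := Nat.one_le_pow _ _ hE1
    omega
  | succ S ih =>
    intro Φ R p hΦ hR hT1 hT2 hload hp
    have hE2 : 1 ≤ ell s M ^ 2 := Nat.one_le_pow _ _ hE1
    -- the degree is large
    have hSD : D0 + 1 ≤ S + 1 := by
      by_contra hcon
      have h1 : ell (s + 1) (S + 1) ≤ ell (s + 1) D0 := ell_mono _ (by omega)
      omega
    by_cases hA : tl s Φ + tot s R + ell s M ^ 2 ≤ ell s (S + 1)
    · exact peel_all s hs l M (S + 1) Φ R p hΦ hR (by omega) (by omega) hA hT1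
    · have hr1 := h.r1 (S := S + 1) (by omega)
      obtain ⟨N0, hN0R, hN1, hN2⟩ := greedy_below s M (tl s Φ) (ell s (S + 1) - ell s M ^ 2)
        (by omega) R (fun m hm => (hR m hm).2) (by omega)
      obtain ⟨Q, hQ⟩ := Multiset.le_iff_exists_add.1 hN0R
      have hN0 : ∀ m ∈ N0, 1 ≤ m ∧ m ≤ M := fun m hm => hR m (Multiset.mem_of_le hN0R hm)
      have hQm : ∀ m ∈ Q, 1 ≤ m ∧ m ≤ M := fun m hm => hR m (by
        rw [hQ]
        exact Multiset.mem_add.2 (Or.inr hm))
      obtain ⟨q, hq⟩ : ∃ q, q = ell s (S + 1) - tl s Φ - tot s N0 := ⟨_, rfl⟩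
      have hqsum : tl s Φ + tot s N0 + q = ell s (S + 1) := by omega
      have hq1 : ell s M ^ 2 ≤ q := by omega
      have hq2 : q ≤ GG s M := by
        unfold GG
        omega
      have hSG : (S + 1) * GG s M = S * GG s M + GG s M := by ring
      have hqp : q ≤ p := by
        omega
      have htrc : trc Φ N0 1 q 0 = (Φ.map Prod.fst + N0) + Multiset.replicate q 1 := by
        unfold trc
        rw [Multiset.replicate_zero, add_zero]
      have hT1M : ∀ t ∈ Φ.map Prod.fst + N0, t ≤ M := by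
        intro t ht
        rcases Multiset.mem_add.1 ht with ht | ht
        · obtain ⟨x, hx, rfl⟩ := Multiset.mem_map.1 ht
          exact (hΦ x hx).2.2.2
        · exact (hN0 t ht).2
      have htM : ∀ t ∈ trc Φ N0 1 q 0, t ≤ M := by
        intro t ht
        rw [htrc] at ht
        rcases Multiset.mem_add.1 ht with ht | ht
        · exact hT1M t ht
        · rw [Multiset.eq_of_mem_replicate ht]
          exact hM
      have htot1 : tot s (Φ.map Prod.fst + N0) = tl s Φ + tot s N0 := by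
        rw [tot_add]
        congr 1
        unfold tot tl
        rw [Multiset.map_map]
        rfl
      have hstep := stageQ s hs l S (by omega) Φ N0 (Q + Multiset.replicate (p - q) 1) 1 q 0 M
        le_rfl (fun x hx => (hΦ x hx).2.2.1) htM ?_ ?_ ?_
      · rw [hQ, Multiset.map_add, Nat.add_sub_cancel]
        rw [Multiset.map_add, Multiset.map_replicate, Nat.add_zero q] at hstep
        have hpq : Multiset.replicate p (Kind.free 1 : Kind (Fin (s + 2))) =
            Multiset.replicate q (Kind.free 1) + Multiset.replicate (p - q) (Kind.free 1) := by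
          rw [← Multiset.replicate_add]
          congr 1
          omega
        rw [hpq]
        have e : fk l Φ + N0.map Kind.free + Multiset.replicate q (Kind.free 1) +
            (Q.map Kind.free + Multiset.replicate (p - q) (Kind.free 1)) =
            fk l Φ + (N0.map Kind.free + Q.map Kind.free) +
              (Multiset.replicate q (Kind.free 1) + Multiset.replicate (p - q) (Kind.free 1)) := by
          abel
        rw [e] at hstep
        exact hstep
      · intro t ht ht2
        rw [htrc]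
        exact window_cond' s hs _ q M _ (by rw [htot1]; omega) t ht2 (htM t ht)
      · rw [ell_one]
        omega
      · -- the next state
        have hfl := fl_nxt (α := q) (ρ := 0) (μ := 1) (N0 := N0) s hs hΦ
          (fun m hm => (hN0 m hm).1) le_rfl (Or.inl rfl)
        have hF : ell (s + 1) (S + 1) = ell (s + 1) S + ell s (S + 1) := ell_succ s S
        have htotR : tot (s + 1) R = tot (s + 1) N0 + tot (s + 1) Q := by rw [hQ, tot_add]
        rw [ell_one, ell_one, mul_one, mul_one, Nat.add_zero, Nat.add_zero] at hfl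
        have hnext := ih (nxt Φ N0 1 q 0) Q (p - q) ?_ hQm ?_ ?_ ?_ ?_
        · rw [Multiset.map_add, Multiset.map_replicate, ← add_assoc]
          exact hnext
        · exact OKF_nxt hΦ (fun m hm => (hN0 m hm).2) (Nat.le_succ _) (by omega) (Or.inl rfl)
        · omega
        · omega
        · have htl := tl_nxt (α := q) (ρ := 0) (μ := 1) (N0 := N0) s (M - 1) hs hΦ
            (fun m hm => (hN0 m hm).2) (by omega) (by omega)
          rw [ell_one, mul_one, Nat.zero_mul, Nat.mul_zero, Nat.add_zero, hqsum] at htl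
          have hl := h.load (S := S + 1) hSD
          rw [Nat.add_sub_cancel] at hl
          have hpos : 0 < M - 1 + s := by omega
          refine Nat.le_of_mul_le_mul_left ?_ hpos
          calc (M - 1 + s) * (2 * tl s (nxt Φ N0 1 q 0)) =
              2 * ((M - 1 + s) * tl s (nxt Φ N0 1 q 0)) := by ring
            _ ≤ 2 * ((M - 1) * ell s (S + 1)) := Nat.mul_le_mul_left _ htl
            _ ≤ 8 * ((M - 1) * ell s (S + 1)) := Nat.mul_le_mul_right _ (by omega)
            _ ≤ _ := hl
        · omega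

end Pool.Agent.H21.NX

end

section

/-!
# Module URun: the Horace steps of the uniform version
-/

namespace Pool.Agent.H21.NX

open Finset Pool.Agent.H18.Ex

/-- One step: `a` points of multiplicity `μ` and a part of the points `R` are put on the
hyperplane, the rest of the trace is filled by differential points of multiplicity `μ`. -/
theorem ustep {s M D0 : ℕ} (h : UNum s M D0) (l : Fin (s + 2)) (S μ a : ℕ) (hS : D0 + 1 ≤ S)
    (hμ : 2 ≤ μ) (hμM : μ ≤ M) (Φ : Multiset (ℕ × ℕ)) (R : Multiset ℕ) (g : ℕ) (hΦ : OKF M Φ)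
    (hR : ∀ m ∈ R, 1 ≤ m ∧ m ≤ M) (hx : 2 * (tl s Φ + a * ell s μ) ≤ ell s S)
    (hg1 : GG s M ≤ g) (hg2 : g ≤ M * GG s M)
    (hT1 : ell (s + 1) S ≤ fl s Φ + a * ell (s + 1) μ + tot (s + 1) R + g * ell (s + 1) μ) :
    ∃ (N0 Q : Multiset ℕ) (ρ : ℕ), R = N0 + Q ∧ ρ ≤ GG s M ∧
      tl s Φ + tot s N0 + a * ell s μ + ρ = ell s S ∧
      4 * tl s (nxt Φ N0 μ a ρ) ≤ ell s (S - 1) ∧
      (GM (Sx (Fin (s + 2)) (S - 2)) (fk l (nxt Φ N0 μ a ρ) + Q.map Kind.free +
        Multiset.replicate (g - ρ) (Kind.free μ)) →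
      GM (Sx (Fin (s + 2)) (S - 1)) (fk l Φ + R.map Kind.free +
        Multiset.replicate (a + g) (Kind.free μ))) := by
  have hs := h.s1
  have hE1 := h.E1
  have hM := h.hM
  have hDM := h.hD
  have hr1 := h.r1 (S := S) (by omega)
  have hr2 := h.r2 (S := S - 1) (by omega)
  have hr3 := h.r3 (S := S - 1) (by omega)
  have hES : 0 < ell s S := ell_pos _ (by omega)
  have hEμ : ell s μ ≤ ell s M := ell_mono _ hμM
  -- there are enough points
  have hfit : ell s S ≤ tl s Φ + a * ell s μ + tot s R + ell s M ^ 2 := by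
    by_contra hcon
    push Not at hcon
    have e1 : (s + 1) * fl s Φ ≤ (M + s) * tl s Φ := fl_le_tl s hs hΦ
    have e2 : (s + 1) * (a * ell (s + 1) μ) ≤ (M + s) * (a * ell s μ) := by
      calc (s + 1) * (a * ell (s + 1) μ) = a * ((s + 1) * ell (s + 1) μ) := by ring
        _ = a * ((μ + s) * ell s μ) := by rw [ell_succ_mul s μ hs]
        _ ≤ a * ((M + s) * ell s μ) :=
            Nat.mul_le_mul_left _ (Nat.mul_le_mul_right _ (by omega))
        _ = _ := by ring
    have e3 : (s + 1) * tot (s + 1) R ≤ (M + s) * tot s R :=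
      tot_succ_le s hs fun m hm => (hR m hm).2
    have e4 : (s + 1) * (g * ell (s + 1) μ) ≤ (M + s) * (g * ell s M) := by
      calc (s + 1) * (g * ell (s + 1) μ) = g * ((s + 1) * ell (s + 1) μ) := by ring
        _ = g * ((μ + s) * ell s μ) := by rw [ell_succ_mul s μ hs]
        _ ≤ g * ((M + s) * ell s M) :=
            Nat.mul_le_mul_left _ (Nat.mul_le_mul (by omega) hEμ)
        _ = _ := by ring
    have e5 : (S + s) * ell s S = (s + 1) * ell (s + 1) S := ell_succ_mul s S hs
    have e6 : (S + s) * ell s S ≤ (M + s) * (ell s S + g * ell s M) := by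
      calc (S + s) * ell s S = (s + 1) * ell (s + 1) S := e5
        _ ≤ (s + 1) * (fl s Φ + a * ell (s + 1) μ + tot (s + 1) R + g * ell (s + 1) μ) :=
            Nat.mul_le_mul_left _ hT1
        _ = (s + 1) * fl s Φ + (s + 1) * (a * ell (s + 1) μ) + (s + 1) * tot (s + 1) R +
            (s + 1) * (g * ell (s + 1) μ) := by ring
        _ ≤ (M + s) * tl s Φ + (M + s) * (a * ell s μ) + (M + s) * tot s R +
            (M + s) * (g * ell s M) := by omega
        _ = (M + s) * (tl s Φ + a * ell s μ + tot s R + g * ell s M) := by ring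
        _ ≤ _ := Nat.mul_le_mul_left _ (by omega)
    have e7 : 2 * (g * ell s M) ≤ ell s (S - 1) := by
      refine le_trans ?_ hr3
      exact Nat.mul_le_mul_left _ (Nat.mul_le_mul_right _ hg2)
    have e8 : (M + s) * ell s (S - 1) ≤ (S - 1) * ell s S := by
      have hrel : ell s (S - 1) * (S - 1 + s) = ell s S * (S - 1) := by
        have := ell_mul_add s (S - 1) hs
        rwa [Nat.sub_add_cancel (by omega)] at this
      calc (M + s) * ell s (S - 1) ≤ (S - 1 + s) * ell s (S - 1) :=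
            Nat.mul_le_mul_right _ (by omega)
        _ = ell s (S - 1) * (S - 1 + s) := by ring
        _ = ell s S * (S - 1) := hrel
        _ = _ := by ring
    have e9 : 2 * (S + s) * ell s S ≤ (2 * (M + s) + (S - 1)) * ell s S := by
      calc 2 * (S + s) * ell s S = 2 * ((S + s) * ell s S) := by ring
        _ ≤ 2 * ((M + s) * (ell s S + g * ell s M)) := Nat.mul_le_mul_left _ e6
        _ = 2 * (M + s) * ell s S + (M + s) * (2 * (g * ell s M)) := by ring
        _ ≤ 2 * (M + s) * ell s S + (M + s) * ell s (S - 1) :=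
            Nat.add_le_add_left (Nat.mul_le_mul_left _ e7) _
        _ ≤ 2 * (M + s) * ell s S + (S - 1) * ell s S := Nat.add_le_add_left e8 _
        _ = _ := by ring
    have e10 := Nat.le_of_mul_le_mul_right e9 hES
    omega
  obtain ⟨N0, hN0R, hN1, hN2⟩ := greedy_below s M (tl s Φ + a * ell s μ)
    (ell s S - ell s M ^ 2) (by omega) R (fun m hm => (hR m hm).2) (by omega)
  obtain ⟨Q, hQ⟩ := Multiset.le_iff_exists_add.1 hN0R
  have hN0 : ∀ m ∈ N0, 1 ≤ m ∧ m ≤ M := fun m hm => hR m (Multiset.mem_of_le hN0R hm)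
  obtain ⟨ρ, hρ⟩ : ∃ ρ, ρ = ell s S - tl s Φ - a * ell s μ - tot s N0 := ⟨_, rfl⟩
  have hsum : tl s Φ + tot s N0 + a * ell s μ + ρ = ell s S := by omega
  have hρ1 : ell s M ^ 2 ≤ ρ := by omega
  have hρ2 : ρ ≤ GG s M := by
    unfold GG
    omega
  have htrc : trc Φ N0 μ a ρ = (Φ.map Prod.fst + N0 + Multiset.replicate a μ) +
      Multiset.replicate ρ 1 := rfl
  have hT1M : ∀ t ∈ Φ.map Prod.fst + N0 + Multiset.replicate a μ, t ≤ M := by
    intro t ht
    rcases Multiset.mem_add.1 ht with ht | ht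
    · rcases Multiset.mem_add.1 ht with ht | ht
      · obtain ⟨x, hx, rfl⟩ := Multiset.mem_map.1 ht
        exact (hΦ x hx).2.2.2
      · exact (hN0 t ht).2
    · rw [Multiset.eq_of_mem_replicate ht]
      exact hμM
  have htM : ∀ t ∈ trc Φ N0 μ a ρ, t ≤ M := by
    intro t ht
    rw [htrc] at ht
    rcases Multiset.mem_add.1 ht with ht | ht
    · exact hT1M t ht
    · rw [Multiset.eq_of_mem_replicate ht]
      exact hM
  have htot1 : tot s (Φ.map Prod.fst + N0 + Multiset.replicate a μ) =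
      tl s Φ + tot s N0 + a * ell s μ := by
    rw [tot_add, tot_add, tot_replicate]
    congr 2
    unfold tot tl
    rw [Multiset.map_map]
    rfl
  refine ⟨N0, Q, ρ, hQ, hρ2, hsum, ?_, ?_⟩
  · -- the new load
    have htl := tl_nxt (α := a) (ρ := ρ) (μ := μ) (N0 := N0) s (M - 1) hs hΦ
      (fun m hm => (hN0 m hm).2) (by omega) (by omega)
    have hl := h.load (S := S) hS
    have hpos : 0 < M - 1 + s := by omega
    refine Nat.le_of_mul_le_mul_left ?_ hpos
    have e1 : 8 * (ρ * ell s μ) ≤ ell s (S - 1) :=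
      le_trans (Nat.mul_le_mul_left _ (Nat.mul_le_mul hρ2 hEμ)) hr2
    have e2 : 2 * ((M - 1 + s) * (4 * tl s (nxt Φ N0 μ a ρ))) ≤
        2 * ((M - 1 + s) * ell s (S - 1)) := by
      calc 2 * ((M - 1 + s) * (4 * tl s (nxt Φ N0 μ a ρ))) =
          8 * ((M - 1 + s) * tl s (nxt Φ N0 μ a ρ)) := by ring
        _ ≤ 8 * ((M - 1) * (tl s Φ + tot s N0 + a * ell s μ) +
            (M - 1 + s) * (ρ * ell s μ)) := Nat.mul_le_mul_left _ htl
        _ ≤ 8 * ((M - 1) * ell s S + (M - 1 + s) * (ρ * ell s μ)) :=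
            Nat.mul_le_mul_left _ (Nat.add_le_add_right (Nat.mul_le_mul_left _ (by omega)) _)
        _ = 8 * ((M - 1) * ell s S) + (M - 1 + s) * (8 * (ρ * ell s μ)) := by ring
        _ ≤ (M - 1 + s) * ell s (S - 1) + (M - 1 + s) * ell s (S - 1) :=
            Nat.add_le_add hl (Nat.mul_le_mul_left _ e1)
        _ = _ := by ring
    omega
  · intro hGM
    have hstep := stageQ s hs l (S - 1) (by omega) Φ N0 (Q + Multiset.replicate (g - ρ) μ) μ a ρ M
      (by omega) (fun x hx => (hΦ x hx).2.2.1) htM ?_ ?_ ?_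
    · rw [hQ, Multiset.map_add]
      rw [Multiset.map_add, Multiset.map_replicate] at hstep
      have hpq : Multiset.replicate (a + g) (Kind.free μ : Kind (Fin (s + 2))) =
          Multiset.replicate (a + ρ) (Kind.free μ) +
            Multiset.replicate (g - ρ) (Kind.free μ) := by
        rw [← Multiset.replicate_add]
        congr 1
        omega
      rw [hpq]
      have e : fk l Φ + N0.map Kind.free + Multiset.replicate (a + ρ) (Kind.free μ) +
          (Q.map Kind.free + Multiset.replicate (g - ρ) (Kind.free μ)) =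
          fk l Φ + (N0.map Kind.free + Q.map Kind.free) +
            (Multiset.replicate (a + ρ) (Kind.free μ) +
              Multiset.replicate (g - ρ) (Kind.free μ)) := by
        abel
      rw [e] at hstep
      exact hstep
    · intro t ht ht2
      rw [htrc]
      rw [show S - 1 + 1 = S by omega]
      exact window_cond' s hs _ ρ M _ (by rw [htot1]; omega) t ht2 (htM t ht)
    · rw [show S - 1 + 1 = S by omega]
      omega
    · rw [Multiset.map_add, Multiset.map_replicate, ← add_assoc]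
      rwa [show S - 1 - 1 = S - 2 by omega]

/-- The last stage: the batch is simple. -/
theorem uend {s M D0 μ a : ℕ} (h : UNum s M D0) (l : Fin (s + 2)) (σ : ℕ) (hσ : D0 ≤ σ)
    (hμ : 2 ≤ μ) (hμM : μ ≤ M)
    (ha : (σ + 1) * GG s M + ell (s + 1) M + ell s M ^ 2 + ell (s + 1) D0 ≤ a)
    (Ψ : Multiset (ℕ × ℕ)) (R : Multiset ℕ) (g : ℕ) (hΨ : OKF M Ψ)
    (hcount : a ≤ Ψ.count (1, 1)) (hR : ∀ m ∈ R, 1 ≤ m ∧ m ≤ M)
    (hT1 : ell (s + 1) (σ + 1) ≤ fl s Ψ + tot (s + 1) R + g * ell (s + 1) μ)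
    (hT2 : fl s Ψ + tot (s + 1) R + g * ell (s + 1) μ ≤ ell (s + 1) (σ + 1) + ell (s + 1) M)
    (hload : 4 * tl s Ψ ≤ ell s (σ + 1)) :
    GM (Sx (Fin (s + 2)) σ) (fk l Ψ + R.map Kind.free + Multiset.replicate g (Kind.free μ)) := by
  have hs := h.s1
  have hs2 := h.hs
  have hM := h.hM
  have hDM := h.hD
  rw [Multiset.le_count_iff_replicate_le] at hcount
  obtain ⟨Ψ1, hΨ1⟩ := Multiset.le_iff_exists_add.1 hcount
  have hOK1 : OKF M Ψ1 := fun x hx => hΨ x (by
    rw [hΨ1]
    exact Multiset.mem_add.2 (Or.inr hx))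
  have hfl : fl s Ψ = a + fl s Ψ1 := by
    rw [hΨ1]
    unfold fl
    rw [Multiset.map_add, Multiset.sum_add, Multiset.map_replicate, Multiset.sum_replicate,
      smul_eq_mul]
    change a * (ell (s + 1) 1 + 1 - 1) + _ = _
    rw [ell_one, Nat.add_sub_cancel, Nat.mul_one]
  have htl : tl s Ψ1 ≤ tl s Ψ := by
    rw [hΨ1, tl_add]
    exact Nat.le_add_left _ _
  have hfk : fk l Ψ = Multiset.replicate a (Kind.forced l 1 1) + fk l Ψ1 := by
    rw [hΨ1]
    unfold fk
    rw [Multiset.map_add, Multiset.map_replicate]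
  have hRg : ∀ m ∈ R + Multiset.replicate g μ, 1 ≤ m ∧ m ≤ M := by
    intro m hm
    rcases Multiset.mem_add.1 hm with hm | hm
    · exact hR m hm
    · rw [Multiset.eq_of_mem_replicate hm]
      omega
  have htotRg : tot (s + 1) (R + Multiset.replicate g μ) =
      tot (s + 1) R + g * ell (s + 1) μ := by
    rw [tot_add, tot_replicate]
  have hmain := GM.bridge (Sx (Fin (s + 2)) σ) (Sx (Fin (s + 2)) (σ - 1)) l
    (fun b => Sx_resid σ (by omega) l b)
    (fk l Ψ1 + R.map Kind.free + Multiset.replicate g (Kind.free μ)) a ?_ ?_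
  · rw [hfk]
    have e : Multiset.replicate a (Kind.forced l 1 1) + fk l Ψ1 + R.map Kind.free +
        Multiset.replicate g (Kind.free μ) =
        fk l Ψ1 + R.map Kind.free + Multiset.replicate g (Kind.free μ) +
          Multiset.replicate a (Kind.forced l 1 1) := by
      abel
    rw [e]
    exact hmain
  · have hp := peel_long h l (ell (s + 1) M) (σ + 1) Ψ1 (R + Multiset.replicate g μ) a hOK1 hRg
      (by rw [htotRg]; omega) (by rw [htotRg]; omega) (by omega) (by omega)
    rw [Nat.add_sub_cancel, Multiset.map_add, Multiset.map_replicate, ← add_assoc] at hp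
    exact hp
  · have hE : ell (s + 1) (σ + 1) = ell (s + 1) σ + ell s (σ + 1) := ell_succ s σ
    have hσ1 : σ - 1 + 1 = σ := by omega
    have hflΨ : 2 * fl s Ψ ≤ ell s (σ + 1) := by
      have e1 : (s + 1) * fl s Ψ ≤ (M + s) * tl s Ψ := fl_le_tl s hs hΨ
      have e2 : (s + 1) * fl s Ψ ≤ (s + 1) * (2 * tl s Ψ) := by
        refine le_trans e1 ?_
        calc (M + s) * tl s Ψ ≤ (2 * (s + 1)) * tl s Ψ := Nat.mul_le_mul_right _ (by omega)
          _ = _ := by ring
      have e3 := Nat.le_of_mul_le_mul_left e2 (by omega)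
      omega
    have hr4 := h.r4 (S := σ + 1) (by omega)
    have hr4' := h.r4 (S := σ) hσ
    have hov := over_GM (s + 1) (σ - 1) M (by omega) (R + Multiset.replicate g μ) hRg
      (by
        rw [hσ1]
        have e1 := ell_le_succ s σ hs
        have e2 : ell (s + 1) M ^ 2 ≤
            (ell (s + 1) M ^ 2 + ell (s + 1) M) * ell (s + 1) M := by
          have := h.F1
          calc ell (s + 1) M ^ 2 = ell (s + 1) M ^ 2 * 1 := (Nat.mul_one _).symm
            _ ≤ _ := Nat.mul_le_mul (Nat.le_add_right _ _) this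
        omega)
      (by
        rw [hσ1, htotRg]
        omega)
    refine GM.mono ?_ hov
    rw [Multiset.map_add, Multiset.map_add, Multiset.map_add, Multiset.map_map,
      Multiset.map_replicate, Multiset.map_replicate,
      add_assoc (Multiset.map (Kind.dn l) (fk l Ψ1))]
    exact Multiset.le_add_left _ _

theorem urun {s M D0 d μ a : ℕ} (h : UNum s M D0) (l : Fin (s + 2)) (hμ : 2 ≤ μ) (hμM : μ ≤ M)
    (hd : D0 + M ≤ d)
    (ha : (d + 1) * GG s M + ell (s + 1) M + ell s M ^ 2 + ell (s + 1) D0 ≤ a) :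
    ∀ c, 1 ≤ c → c < μ → ∀ (Ψ : Multiset (ℕ × ℕ)) (R : Multiset ℕ) (g : ℕ), OKF M Ψ →
      a ≤ Ψ.count (c, 1) → (∀ m ∈ R, 1 ≤ m ∧ m ≤ M) →
      ell (s + 1) (d - μ + 1 + c) ≤ fl s Ψ + tot (s + 1) R + g * ell (s + 1) μ →
      fl s Ψ + tot (s + 1) R + g * ell (s + 1) μ ≤
        ell (s + 1) (d - μ + 1 + c) + ell (s + 1) M →
      4 * tl s Ψ ≤ ell s (d - μ + 1 + c) → c * GG s M ≤ g → g ≤ M * GG s M →
      GM (Sx (Fin (s + 2)) (d - μ + c)) (fk l Ψ + R.map Kind.free +
        Multiset.replicate g (Kind.free μ)) := by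
  have hs := h.s1
  have hM := h.hM
  intro c
  induction c with
  | zero => intro h0; omega
  | succ c ih =>
    intro _ hcμ Ψ R g hΨ hcount hR hT1 hT2 hload hg1 hg2
    rcases Nat.eq_zero_or_pos c with hc0 | hc0
    · subst hc0
      refine uend h l (d - μ + (0 + 1)) (by omega) hμ hμM ?_ Ψ R g hΨ hcount hR ?_ ?_ ?_
      · refine le_trans ?_ ha
        have : (d - μ + (0 + 1) + 1) * GG s M ≤ (d + 1) * GG s M :=
          Nat.mul_le_mul_right _ (by omega)
        omega
      · rw [show d - μ + (0 + 1) + 1 = d - μ + 1 + (0 + 1) by omega]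
        exact hT1
      · rw [show d - μ + (0 + 1) + 1 = d - μ + 1 + (0 + 1) by omega]
        exact hT2
      · rw [show d - μ + (0 + 1) + 1 = d - μ + 1 + (0 + 1) by omega]
        exact hload
    · have hGG : (c + 1) * GG s M = c * GG s M + GG s M := by ring
      obtain ⟨N0, Q, ρ, hQ, hρ, hsum, hload', himp⟩ := ustep h l (d - μ + 1 + (c + 1)) μ 0
        (by omega) hμ hμM Ψ R g hΨ hR (by omega) (by omega) hg2 (by omega)
      rw [show d - μ + 1 + (c + 1) - 1 = d - μ + (c + 1) by omega, Nat.zero_add g] at himp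
      refine himp ?_
      rw [show d - μ + 1 + (c + 1) - 2 = d - μ + c by omega]
      have hN0 : ∀ m ∈ N0, 1 ≤ m ∧ m ≤ M := fun m hm => hR m (by
        rw [hQ]
        exact Multiset.mem_add.2 (Or.inl hm))
      have hQm : ∀ m ∈ Q, 1 ≤ m ∧ m ≤ M := fun m hm => hR m (by
        rw [hQ]
        exact Multiset.mem_add.2 (Or.inr hm))
      have hfl := fl_nxt (α := 0) (ρ := ρ) (μ := μ) (N0 := N0) s hs hΨ
        (fun m hm => (hN0 m hm).1) (by omega) (Or.inr hμ)
      have hF : ell (s + 1) (d - μ + 1 + (c + 1)) =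
          ell (s + 1) (d - μ + 1 + c) + ell s (d - μ + 1 + (c + 1)) :=
        ell_succ s (d - μ + 1 + c)
      have htotR : tot (s + 1) R = tot (s + 1) N0 + tot (s + 1) Q := by rw [hQ, tot_add]
      have hgρ : g * ell (s + 1) μ = ρ * ell (s + 1) μ + (g - ρ) * ell (s + 1) μ := by
        rw [← Nat.add_mul]
        congr 1
        omega
      rw [Nat.zero_add ρ] at hfl
      refine ih hc0 (by omega) (nxt Ψ N0 μ 0 ρ) Q (g - ρ) ?_ (count_nxt hc0 hcount) hQm ?_ ?_ ?_
        ?_ ?_
      · exact OKF_nxt hΨ (fun m hm => (hN0 m hm).2) (Nat.le_succ _) (by omega) (Or.inr hμM)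
      · omega
      · omega
      · exact hload'
      · omega
      · omega

end Pool.Agent.H21.NX

end

section

/-!
# Module UCore: exactness, uniform in the degree
-/

namespace Pool.Agent.H21.NX

open Finset Pool.Agent.H18.Ex

theorem ucore {s M D0 d : ℕ} (h : UNum s M D0) (hd : D0 + M ≤ d)
    (hbig : 2 * ((a0 s M D0 d + M * GG s M) * (M * ell (s + 1) M)) ≤ ell s (d + 1))
    (S : Multiset ℕ) (hS : ∀ m ∈ S, m ≤ M) (hT : ell (s + 1) (d + 1) ≤ tot (s + 1) S) :
    GM (Sx (Fin (s + 2)) d) (S.map Kind.free) := by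
  have hs := h.s1
  have hM := h.hM
  have hF1 := h.F1
  have hE1 := h.E1
  have hEF := h.EF
  have hED := ell_le_succ s (d + 1) hs
  have hpos : 1 ≤ ell s (d + 1) := ell_pos _ (by omega)
  -- a sub-multiset of nearly the right length
  obtain ⟨R1, hR1, hR1a, hR1b⟩ := greedy (s + 1) M 0 (ell (s + 1) (d + 1)) (Nat.zero_le _)
    (S.filter (1 ≤ ·)) (fun m hm => hS m (Multiset.mem_filter.1 hm).1)
    (by rw [tot_filter_pos (s + 1) (by omega), Nat.zero_add]; exact hT)
  rw [Nat.zero_add] at hR1a hR1b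
  have hR1m : ∀ m ∈ R1, 1 ≤ m ∧ m ≤ M := fun m hm => by
    have h1 := Multiset.mem_filter.1 (Multiset.mem_of_le hR1 hm)
    exact ⟨h1.2, hS m h1.1⟩
  have hle : R1 ≤ S := le_trans hR1 (Multiset.filter_le _ _)
  refine GM.mono (Multiset.map_le_map hle) ?_
  -- a frequent multiplicity
  set κ := a0 s M D0 d + M * GG s M with hκ
  obtain ⟨μ, hμ1, hμM, hμ⟩ := exists_count (s + 1) M (κ * ell (s + 1) M) R1 (by omega)
    (fun m hm => (hR1m m hm).2) (by
      have e1 : 2 * (M * (κ * ell (s + 1) M)) ≤ ell s (d + 1) := by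
        calc 2 * (M * (κ * ell (s + 1) M)) = 2 * (κ * (M * ell (s + 1) M)) := by ring
          _ ≤ _ := hbig
      omega)
  have hcount : κ ≤ R1.count μ := by
    have e1 : κ * ell (s + 1) M ≤ R1.count μ * ell (s + 1) M :=
      le_trans hμ (Nat.mul_le_mul_left _ (ell_mono _ hμM))
    exact Nat.le_of_mul_le_mul_right e1 hF1
  rw [Multiset.le_count_iff_replicate_le] at hcount
  obtain ⟨R2, hR2⟩ := Multiset.le_iff_exists_add.1 hcount
  have hR2m : ∀ m ∈ R2, 1 ≤ m ∧ m ≤ M := fun m hm => hR1m m (by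
    rw [hR2]
    exact Multiset.mem_add.2 (Or.inr hm))
  have htot : tot (s + 1) R1 = κ * ell (s + 1) μ + tot (s + 1) R2 := by
    rw [hR2, tot_add, tot_replicate]
  rcases Nat.eq_or_lt_of_le hμ1 with hμe | hμ2
  · -- many simple points
    subst hμe
    rw [ell_one, Nat.mul_one] at htot
    have hκ2 : ell (s + 1) M + ell (s + 1) M ^ 2 ≤ κ := by
      have e1 : ell s D0 ≤ ell (s + 1) D0 := ell_le_succ s D0 hs
      have e2 := h.room
      have e3 : ell (s + 1) M ^ 2 ≤ 16 * M * ell (s + 1) M ^ 3 := by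
        calc ell (s + 1) M ^ 2 = 1 * (ell (s + 1) M ^ 2 * 1) := by ring
          _ ≤ (16 * M) * (ell (s + 1) M ^ 2 * ell (s + 1) M) :=
              Nat.mul_le_mul (by omega) (Nat.mul_le_mul_left _ hF1)
          _ = _ := by ring
      have e4 : ell (s + 1) M + ell (s + 1) D0 ≤ a0 s M D0 d := by
        unfold a0
        omega
      omega
    rw [add_comm] at hR2
    have hmem : ∀ t ∈ R1, t ≤ M := fun t ht => (hR1m t ht).2
    refine window_GM (s + 1) d (by omega) R1 M hmem ?_ hR1a
    intro t ht ht2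
    have htM := hmem t ht
    rw [hR2]
    exact window_cond' (s + 1) (by omega) R2 κ M _ (by omega) t ht2 htM
  · -- the batch
    have hEμ : ell s μ ≤ ell (s + 1) M := le_trans (ell_mono _ hμM) hEF
    have hx : 2 * (tl s 0 + a0 s M D0 d * ell s μ) ≤ ell s (d + 1) := by
      refine le_trans ?_ hbig
      rw [show tl s 0 = 0 from rfl, Nat.zero_add]
      refine Nat.mul_le_mul_left _ (Nat.mul_le_mul (Nat.le_add_right _ _) ?_)
      calc ell s μ ≤ 1 * ell (s + 1) M := by rw [Nat.one_mul]; exact hEμ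
        _ ≤ _ := Nat.mul_le_mul_right _ hM
    have hGG : (μ - 1) * GG s M + GG s M = μ * GG s M := by
      obtain ⟨j, rfl⟩ : ∃ j, μ = j + 1 := ⟨μ - 1, by omega⟩
      rw [Nat.add_sub_cancel]
      ring
    have hGG2 : μ * GG s M ≤ M * GG s M := Nat.mul_le_mul_right _ hμM
    have hOK0 : OKF M (0 : Multiset (ℕ × ℕ)) := fun x hx => absurd hx (Multiset.notMem_zero x)
    have hκm : κ * ell (s + 1) μ =
        a0 s M D0 d * ell (s + 1) μ + M * GG s M * ell (s + 1) μ := by
      rw [hκ]
      ring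
    obtain ⟨N0, Q, ρ, hQ, hρ, hsum, hload, himp⟩ := ustep h (0 : Fin (s + 2)) (d + 1) μ
      (a0 s M D0 d) (by omega) hμ2 hμM 0 R2 (M * GG s M) hOK0 hR2m hx (by omega) le_rfl (by
        rw [show fl s 0 = 0 from rfl]
        omega)
    rw [hR2, Multiset.map_add, Multiset.map_replicate]
    rw [Nat.add_sub_cancel, show fk (0 : Fin (s + 2)) 0 = 0 from rfl, Multiset.zero_add,
      add_comm (Multiset.map _ _)] at himp
    refine himp ?_
    have hN0 : ∀ m ∈ N0, 1 ≤ m ∧ m ≤ M := fun m hm => hR2m m (by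
      rw [hQ]
      exact Multiset.mem_add.2 (Or.inl hm))
    have hQm : ∀ m ∈ Q, 1 ≤ m ∧ m ≤ M := fun m hm => hR2m m (by
      rw [hQ]
      exact Multiset.mem_add.2 (Or.inr hm))
    have hfl := fl_nxt (α := a0 s M D0 d) (ρ := ρ) (μ := μ) (N0 := N0) s hs hOK0
      (fun m hm => (hN0 m hm).1) (by omega) (Or.inr hμ2)
    rw [show fl s (0 : Multiset (ℕ × ℕ)) = 0 from rfl] at hfl
    have hF : ell (s + 1) (d + 1) = ell (s + 1) d + ell s (d + 1) := ell_succ s d
    have htotR : tot (s + 1) R2 = tot (s + 1) N0 + tot (s + 1) Q := by rw [hQ, tot_add]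
    have hgρ : M * GG s M * ell (s + 1) μ =
        ρ * ell (s + 1) μ + (M * GG s M - ρ) * ell (s + 1) μ := by
      rw [← Nat.add_mul]
      congr 1
      omega
    rw [Nat.add_mul, Nat.zero_add] at hfl
    have hrun := urun h (0 : Fin (s + 2)) (d := d) (μ := μ) (a := a0 s M D0 d) hμ2 hμM hd le_rfl
      (μ - 1) (by omega) (by omega) (nxt 0 N0 μ (a0 s M D0 d) ρ) Q (M * GG s M - ρ) ?_
      (count_nxt_start hμ2) hQm ?_ ?_ ?_ ?_ ?_
    · rw [show d + 1 - 2 = d - μ + (μ - 1) by omega]
      exact hrun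
    · exact OKF_nxt hOK0 (fun m hm => (hN0 m hm).2) (Nat.le_succ _) (by omega) (Or.inr hμM)
    · rw [show d - μ + 1 + (μ - 1) = d by omega]
      omega
    · rw [show d - μ + 1 + (μ - 1) = d by omega]
      omega
    · rw [show d - μ + 1 + (μ - 1) = d by omega]
      rwa [Nat.add_sub_cancel] at hload
    · omega
    · omega

end Pool.Agent.H21.NX

end
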