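import Pool.Agent.H94.LP2.M02

/-! The parts of this file: H18.Ex.Base, H18.Ex.Conv, H18.Ex.Frac, H18.Ex.Box, H18.Ex.Iter, H18.Ex.Ratio, H18.TileRg, H21.NX.UAll. -/

section

/-!
# Module Base: dimension one
-/

namespace Pool.Agent.H18.Ex

open Finset

variable {ι : Type} [Fintype ι] [DecidableEq ι]

lemma base_ell_one (m : ℕ) : ell 1 m = m := by
  unfold ell
  simp

/-- presentation of a multiset by a family on `Fin n` -/
lemma base_exists_fin (G : Multiset ℕ) :
    ∃ (n : ℕ) (m : Fin n → ℕ), (univ : Finset (Fin n)).val.map m = G := by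
  induction G using Quotient.inductionOn with
  | h L =>
    refine ⟨L.length, L.get, ?_⟩
    rw [Fin.univ_val_map, List.ofFn_get]
    rfl

/-- The polynomial of one variable with coefficients `f`. -/
noncomputable def basePoly (A : Finset (ι → ℕ)) (f : (ι → ℕ) → ℂ) (u : ι) (i0 : ℕ) :
    Polynomial ℂ :=
  ∑ a ∈ A, Polynomial.monomial (a u - i0) (f a)

lemma base_tcr (u : ι) (q : ℂ) (a : ι → ℕ) (β : ℕ) :
    tcr (Function.update (fun _ => (1 : ℂ)) u q) a (Function.update (fun _ => 0) u β) =
      (((a u).choose β : ℕ) : ℂ) * q ^ (a u - β) := by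
  unfold tcr
  rw [← mul_prod_erase univ _ (mem_univ u), Function.update_self, Function.update_self]
  rw [prod_eq_one fun i hi => ?_, mul_one]
  have hi' : i ≠ u := (mem_erase.1 hi).1
  rw [Function.update_of_ne hi', Function.update_of_ne hi']
  simp

lemma base_dvd (A : Finset (ι → ℕ)) (f : (ι → ℕ) → ℂ) (u : ι) (q : ℂ) (m : ℕ)
    (h : Sat A f (Kind.free m) (Function.update (fun _ => (1 : ℂ)) u q)) :
    (Polynomial.X - Polynomial.C q) ^ m ∣ basePoly A f u 0 := by
  rw [Polynomial.X_sub_C_pow_dvd_iff, ← Polynomial.taylor_apply, Polynomial.X_pow_dvd_iff]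
  intro β hβ
  rw [Polynomial.taylor_coeff]
  have h1 := h (Function.update (fun _ => 0) u β) (by
    show ∑ i, Function.update (fun _ => 0) u β i < m
    rw [sum_update_of_mem (mem_univ u)]
    simpa using hβ)
  unfold basePoly
  rw [map_sum, Polynomial.eval_finsetSum, ← h1]
  refine sum_congr rfl fun a _ => ?_
  rw [Polynomial.hasseDeriv_monomial, Polynomial.eval_monomial, Nat.sub_zero]
  show _ = f a * tcr (Function.update (fun _ => (1 : ℂ)) u q) a (Function.update (fun _ => 0) u β)
  rw [base_tcr]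
  ring

/-- Dimension one is always exact.

Proof.  Let `u ≠ v` be the two active coordinates; every `a ∈ Rg σ w` is determined by `a u`,
which runs through an interval `[i₀, i₀ + N - 1]`, `N = |Rg σ w|`, `a v = σ - a u`.  Take positions
with `q_v = 1` (and all inactive coordinates `1`), `q_u` pairwise distinct and nonzero.  For
`b = β e_u` the condition `∑_a f a tcr q a b = 0` says that the `β`-th Hasse derivative at `q_u` of
`P = ∑_a f a X^(a u)` vanishes; for `β < m` this gives `(X - q_u)^m ∣ P`
(`Polynomial.hasseDeriv`, `Polynomial.taylor`, e.g. `Polynomial.X_sub_C_pow_dvd_iff`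
/ `Polynomial.taylor_coeff`).  `P = X^i₀ * P'` with `deg P' < N`; the pairwise coprime powers
`(X - q_i)^(m_i)` are coprime to `X` and divide `P'`, their product has degree
`∑ m_i ≥ N`, so `P' = 0`.  (`ell 1 m = m`.) -/
theorem base_one (M σ : ℕ) (w : ι → ℕ) (h : (univ.filter fun i => 0 < w i).card = 2) :
    Exa 1 M (Rg σ w) := by
  intro G _ hG
  obtain ⟨n, m, hm⟩ := base_exists_fin G
  refine ⟨n, fun i => Kind.free (m i), ?_, ?_⟩
  · rw [← hm, Multiset.map_map]
    rfl
  have hsum : (Rg σ w).card ≤ ∑ i, m i := by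
    refine hG.trans (le_of_eq ?_)
    rw [← hm, Multiset.map_map]
    show ∑ i, ell 1 (m i) = _
    exact sum_congr rfl fun i _ => base_ell_one _
  obtain ⟨u, v, huv, hact⟩ := card_eq_two.1 h
  -- structure of the region
  have hzero : ∀ a ∈ Rg σ w, ∀ i, i ≠ u → i ≠ v → a i = 0 := by
    intro a ha i hiu hiv
    rw [mem_Rg] at ha
    have h1 : i ∉ univ.filter fun i => 0 < w i := by
      rw [hact]
      simp [hiu, hiv]
    simp only [mem_filter, mem_univ, true_and, not_lt, Nat.le_zero] at h1
    have := ha.1 i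
    omega
  have huvsum : ∀ a ∈ Rg σ w, a u + a v = σ := by
    intro a ha
    have h1 : ∑ i, a i = a u + (a v + ∑ i ∈ (univ.erase u).erase v, a i) := by
      rw [add_sum_erase _ _ (mem_erase.2 ⟨huv.symm, mem_univ v⟩), add_sum_erase _ _ (mem_univ u)]
    have h2 : ∑ i ∈ (univ.erase u).erase v, a i = 0 := by
      refine sum_eq_zero fun i hi => ?_
      rw [mem_erase, mem_erase] at hi
      exact hzero a ha i hi.2.1 hi.1
    have h3 := (mem_Rg.1 ha).2
    omega
  have hinj : ∀ a ∈ Rg σ w, ∀ a' ∈ Rg σ w, a u = a' u → a = a' := by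
    intro a ha a' ha' he
    have h1 := huvsum a ha
    have h2 := huvsum a' ha'
    funext i
    by_cases hiu : i = u
    · rw [hiu, he]
    · by_cases hiv : i = v
      · rw [hiv]; omega
      · rw [hzero a ha i hiu hiv, hzero a' ha' i hiu hiv]
  set i0 := σ - w v with hi0
  have hge : ∀ a ∈ Rg σ w, i0 ≤ a u := by
    intro a ha
    have h1 := huvsum a ha
    have h2 := (mem_Rg.1 ha).1 v
    omega
  have hlt : ∀ a ∈ Rg σ w, a u - i0 < (Rg σ w).card := by
    intro a ha
    have hsub : Icc i0 (min (w u) σ) ⊆ (Rg σ w).image fun x => x u := by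
      intro t ht
      rw [mem_Icc] at ht
      have ht1 : t ≤ w u := ht.2.trans (min_le_left _ _)
      have ht2 : t ≤ σ := ht.2.trans (min_le_right _ _)
      rw [mem_image]
      refine ⟨Function.update (Function.update (fun _ => 0) u t) v (σ - t), mem_Rg.2 ⟨?_, ?_⟩, ?_⟩
      · intro i
        by_cases hiv : i = v
        · rw [hiv, Function.update_self]; omega
        · rw [Function.update_of_ne hiv]
          by_cases hiu : i = u
          · rw [hiu, Function.update_self]; exact ht1
          · rw [Function.update_of_ne hiu]; exact Nat.zero_le _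
      · rw [sum_update_of_mem (mem_univ v), ← erase_eq, ← add_sum_erase _ _
          (mem_erase.2 ⟨huv, mem_univ u⟩ : u ∈ univ.erase v), Function.update_self,
          sum_eq_zero fun i hi => ?_]
        · omega
        · rw [mem_erase] at hi
          rw [Function.update_of_ne hi.1]
      · show Function.update (Function.update (fun _ => 0) u t) v (σ - t) u = t
        rw [Function.update_of_ne huv, Function.update_self]
    have h1 := (card_le_card hsub).trans card_image_le
    rw [Nat.card_Icc] at h1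
    have h2 := huvsum a ha
    have h3 := (mem_Rg.1 ha).1 u
    have h4 : a u ≤ min (w u) σ := le_min h3 (by omega)
    have h5 := hge a ha
    omega
  -- the positions
  refine ⟨fun i => Function.update (fun _ => (1 : ℂ)) u ((i : ℕ) + 1 : ℂ), ?_⟩
  intro f hf
  set P := basePoly (Rg σ w) f u 0 with hP
  set P' := basePoly (Rg σ w) f u i0 with hP'
  have hPP : P = Polynomial.X ^ i0 * P' := by
    rw [hP, hP']
    unfold basePoly
    rw [mul_sum]
    refine sum_congr rfl fun a ha => ?_
    rw [Polynomial.X_pow_eq_monomial, Polynomial.monomial_mul_monomial, one_mul, Nat.sub_zero,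
      Nat.add_sub_cancel' (hge a ha)]
  set s : Fin n → ℂ := fun i => ((i : ℕ) + 1 : ℂ) with hs
  have hsinj : Function.Injective s := by
    intro i j hij
    simp only [hs, add_left_inj, Nat.cast_inj] at hij
    exact Fin.ext hij
  have hs0 : ∀ i, s i ≠ 0 := fun i => Nat.cast_add_one_ne_zero _
  set D : Polynomial ℂ := ∏ i, (Polynomial.X - Polynomial.C (s i)) ^ m i with hD
  have hDdvd : D ∣ P := by
    rw [hD]
    refine prod_dvd_of_coprime ?_ fun i _ => base_dvd _ _ _ _ _ (hf i)
    intro i _ j _ hij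
    exact (Polynomial.pairwise_coprime_X_sub_C hsinj hij).pow
  have hcop : IsCoprime D (Polynomial.X ^ i0) := by
    rw [hD]
    refine IsCoprime.prod_left fun i _ => IsCoprime.pow ?_
    have h1 := Polynomial.isCoprime_X_sub_C_of_isUnit_sub (a := s i) (b := (0 : ℂ))
      (by simpa using hs0 i)
    simpa using h1
  have hDP' : D ∣ P' := by
    rw [hPP] at hDdvd
    exact hcop.dvd_of_dvd_mul_left hDdvd
  have hDmonic : D.Monic := by
    rw [hD]
    exact Polynomial.monic_prod_of_monic _ _ fun i _ => (Polynomial.monic_X_sub_C _).pow _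
  have hDdeg : D.natDegree = ∑ i, m i := by
    rw [hD, Polynomial.natDegree_prod_of_monic _ _ fun i _ => (Polynomial.monic_X_sub_C _).pow _]
    refine sum_congr rfl fun i _ => ?_
    rw [(Polynomial.monic_X_sub_C (s i)).natDegree_pow, Polynomial.natDegree_X_sub_C, mul_one]
  have hP'0 : P' = 0 := by
    refine Polynomial.eq_zero_of_dvd_of_degree_lt hDP' ?_
    rw [Polynomial.degree_eq_natDegree hDmonic.ne_zero, hDdeg]
    refine lt_of_lt_of_le ?_ (Nat.cast_le.2 hsum)
    rw [← Polynomial.mem_degreeLT]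
    refine Submodule.sum_mem _ fun a ha => ?_
    rw [Polynomial.mem_degreeLT]
    exact lt_of_le_of_lt (Polynomial.degree_monomial_le _ _) (Nat.cast_lt.2 (hlt a ha))
  intro a ha
  have hc : P.coeff (a u) = f a := by
    rw [hP]
    unfold basePoly
    rw [Polynomial.finsetSum_coeff, sum_eq_single_of_mem a ha]
    · rw [Nat.sub_zero, Polynomial.coeff_monomial, if_pos rfl]
    · intro a' ha' hne
      rw [Nat.sub_zero, Polynomial.coeff_monomial, if_neg fun he => hne (hinj a' ha' a ha he)]
  rw [← hc, hPP, hP'0, mul_zero, Polynomial.coeff_zero]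

end Pool.Agent.H18.Ex

end

section

/-!
# Module Conv: preparation of configurations, conversion of multiple points
-/

namespace Pool.Agent.H18.Ex

open Finset

/-- Drop superfluous points. -/
theorem exists_drop (g : ℕ → ℕ) (L a : ℕ) : ∀ (G : Multiset ℕ), (∀ m ∈ G, g m ≤ L) →
    a ≤ (G.map g).sum →
    ∃ G₁ ≤ G, a ≤ (G₁.map g).sum ∧ (G₁.map g).sum ≤ a + L ∧ ∀ m ∈ G₁, 0 < g m := by
  intro G
  induction G using Multiset.strongInductionOn with
  | ih G ih =>
    intro hG ha
    by_cases h : ∃ m ∈ G, a ≤ ((G.erase m).map g).sum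
    · obtain ⟨m, hm, h⟩ := h
      obtain ⟨G₁, h1, h2⟩ := ih (G.erase m) (Multiset.erase_lt.2 hm)
        (fun x hx => hG x (Multiset.mem_of_mem_erase hx)) h
      exact ⟨G₁, h1.trans (Multiset.erase_le _ _), h2⟩
    · push Not at h
      rcases Multiset.empty_or_exists_mem G with h0 | ⟨m, hm⟩
      · subst h0
        exact ⟨0, le_rfl, ha, by simp, by simp⟩
      · have key : ∀ m ∈ G, g m + ((G.erase m).map g).sum = (G.map g).sum := by
          intro m hm
          rw [← Multiset.sum_cons, ← Multiset.map_cons, Multiset.cons_erase hm]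
        refine ⟨G, le_rfl, ha, ?_, ?_⟩
        · have h1 := key m hm
          have h2 := h m hm
          have h3 := hG m hm
          omega
        · intro x hx
          have h1 := key x hx
          have h2 := h x hx
          omega

section

variable {ι : Type} [Fintype ι] [DecidableEq ι]

/-- The configuration of a multiset of free points. -/
def cfg0 (ι : Type) (G : Multiset ℕ) : Cfg ι where
  N := G.filter fun m => 2 ≤ m
  s := G.count 1
  Φ := fun _ => 0

omit [DecidableEq ι] in
theorem cfg0_kinds (G : Multiset ℕ) (hG : ∀ m ∈ G, 1 ≤ m) :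
    (cfg0 ι G).kinds = G.map (Kind.free : ℕ → Kind ι) := by
  classical
  unfold Cfg.kinds cfg0
  simp only [Multiset.map_zero, sum_const_zero, add_zero]
  have h1 : G = G.filter (fun m => 2 ≤ m) + Multiset.replicate (G.count 1) 1 := by
    ext a
    rw [Multiset.count_add, Multiset.count_replicate, Multiset.count_filter]
    by_cases ha : 2 ≤ a
    · rw [if_pos ha, if_neg (by omega), add_zero]
    · rw [if_neg ha]
      by_cases h1 : a = 1
      · subst h1
        simp
      · rw [if_neg (by omega), Multiset.count_eq_zero_of_notMem]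
        intro h
        have := hG a h
        omega
  conv_rhs => rw [h1, Multiset.map_add, Multiset.map_replicate]

omit [DecidableEq ι] in
theorem cfg0_sz (n : ℕ) (G : Multiset ℕ) (hG : ∀ m ∈ G, 1 ≤ m) :
    (cfg0 ι G).sz n = (G.map (ell (n + 1))).sum ∧ (cfg0 ι G).nsz n = (G.map (ell (n + 1))).sum := by
  classical
  have h0 : (cfg0 ι G).nsz n = (G.map (ell (n + 1))).sum := by
    unfold Cfg.nsz cfg0
    have h1 : G = G.filter (fun m => 2 ≤ m) + Multiset.replicate (G.count 1) 1 := by
      ext a
      rw [Multiset.count_add, Multiset.count_replicate, Multiset.count_filter]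
      by_cases ha : 2 ≤ a
      · rw [if_pos ha, if_neg (by omega), add_zero]
      · rw [if_neg ha]
        by_cases h1 : a = 1
        · subst h1
          simp
        · rw [if_neg (by omega), Multiset.count_eq_zero_of_notMem]
          intro h
          have := hG a h
          omega
    conv_rhs => rw [h1, Multiset.map_add, Multiset.map_replicate, Multiset.sum_add,
      Multiset.sum_replicate, ell_one, smul_eq_mul, mul_one]
  refine ⟨?_, h0⟩
  unfold Cfg.sz
  rw [h0]
  simp [Cfg.fl, cfg0]

theorem cfg0_OK (M : ℕ) (G : Multiset ℕ) (hG : ∀ m ∈ G, m ≤ M) : (cfg0 ι G).OK M := by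
  refine ⟨?_, ?_⟩
  · intro m hm
    rw [cfg0, Multiset.mem_filter] at hm
    exact ⟨hm.2, hG m hm.1⟩
  · intro l x hx
    simp [cfg0] at hx

end

end Pool.Agent.H18.Ex

end

section

/-!
# Module Frac: few exponents lie near a face
-/

namespace Pool.Agent.H18.Ex

open Finset

variable {ι : Type} [Fintype ι] [DecidableEq ι]

/-- At most `N + 1` active coordinates; `v ≤ w i`, `v ≤ σ`, `2 k ≤ v`.  Then the proportion of the
exponents with `x i < k` is at most `2 N² k / v`.

Proof.  Let `h = v / (2 N)` and `S = {x ∈ Rg σ w | x i < k}`.  For `x ∈ S` the other active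
coordinates (at most `N` of them) have sum `σ - x i ≥ v / 2 ≥ N h` (also `k - 1 + h ≤ w i`), so one
of them, `b` (choose one with `x b` maximal), has `x b ≥ h`.  Map `(x, j)`, `j ≤ h`, to
`(x + j e_i - j e_b, x i, b)`: this is an injection of `S × [0, h]` into
`Rg σ w × [0, k) × {active coordinates ≠ i}` (recover `j` from the `i`-th coordinate and `x i`).
Hence `|S| (h + 1) ≤ |Rg σ w| * k * N` and `v ≤ 2 N (h + 1)`.
(If `i` is inactive then `v = 0`.) -/
theorem frac (N : ℕ) (hN : 1 ≤ N) (σ : ℕ) (w : ι → ℕ) (i : ι) (k v : ℕ)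
    (hcard : (univ.filter fun i => 0 < w i).card ≤ N + 1) (hv : v ≤ w i) (hvσ : v ≤ σ)
    (hk : 2 * k ≤ v) :
    ((Rg σ w).filter fun x => x i < k).card * v ≤ 2 * N ^ 2 * k * (Rg σ w).card := by
  classical
  have : Nonempty ι := ⟨i⟩
  rcases Nat.eq_zero_or_pos v with hv0 | hv0
  · rw [hv0, mul_zero]
    exact Nat.zero_le _
  set h : ℕ := v / (2 * N) with hh
  set S := (Rg σ w).filter fun x => x i < k with hS
  set B := (univ.filter fun j => 0 < w j).erase i with hB
  have hiact : i ∈ univ.filter fun j => 0 < w j := by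
    simp only [mem_filter, mem_univ, true_and]
    omega
  have hBcard : B.card ≤ N := by
    rw [hB, card_erase_of_mem hiact]
    omega
  have hh1 : 2 * N * h ≤ v := by
    rw [hh]; exact Nat.mul_div_le v (2 * N)
  have hh2 : v < 2 * N * (h + 1) := by
    rw [hh]
    have := Nat.lt_mul_div_succ v (show 0 < 2 * N by omega)
    exact this
  have hhv : 2 * h ≤ v := by
    refine le_trans ?_ hh1
    nlinarith
  -- choice of the second coordinate
  have hex : ∀ x ∈ S, ∃ b ∈ B, h ≤ x b := by
    intro x hx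
    rw [hS, mem_filter, mem_Rg] at hx
    obtain ⟨⟨hxw, hxs⟩, hxk⟩ := hx
    by_contra hcon
    push Not at hcon
    have hsum : ∑ j, x j = x i + ∑ j ∈ B, x j := by
      have h1 : ∑ j, x j = ∑ j ∈ univ.filter (fun j => 0 < w j), x j := by
        symm
        refine sum_subset (filter_subset _ _) fun j _ hj => ?_
        simp only [mem_filter, mem_univ, true_and, not_lt, Nat.le_zero] at hj
        have := hxw j
        omega
      rw [h1, hB, add_sum_erase _ _ hiact]
    have hle : ∑ j ∈ B, x j ≤ B.card * (h - 1) := by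
      rw [← smul_eq_mul]
      refine sum_le_card_nsmul B x (h - 1) fun j hj => ?_
      have := hcon j hj
      omega
    have hBne : B.Nonempty := by
      rw [nonempty_iff_ne_empty]
      intro hBe
      rw [hBe, sum_empty] at hsum
      omega
    obtain ⟨b0, hb0⟩ := hBne
    have hh0 : 1 ≤ h := by
      have := hcon b0 hb0
      omega
    have hle2 : B.card * (h - 1) ≤ N * (h - 1) := Nat.mul_le_mul_right _ hBcard
    have hle3 : N * (h - 1) + N = N * h := by
      rw [← Nat.mul_succ, Nat.succ_eq_add_one, Nat.sub_add_cancel hh0]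
    have hle4 : 2 * (N * h) ≤ v := by linarith
    omega
  choose! b hbB hbh using hex
  set f : (ι → ℕ) × ℕ → (ι → ℕ) × (ℕ × ι) := fun p =>
    (fun c => if c = i then p.1 i + p.2 else if c = b p.1 then p.1 c - p.2 else p.1 c,
      (p.1 i, b p.1)) with hf
  have hinj : (S ×ˢ range (h + 1)).card ≤ ((Rg σ w) ×ˢ (range k ×ˢ B)).card := by
    refine card_le_card_of_injOn f ?_ ?_
    · intro p hp
      rw [mem_coe, mem_product, mem_range] at hp
      obtain ⟨hp1, hp2⟩ := hp
      have hb1 := hbB p.1 hp1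
      have hb2 := hbh p.1 hp1
      rw [hS, mem_filter, mem_Rg] at hp1
      obtain ⟨⟨hxw, hxs⟩, hxk⟩ := hp1
      have hbi : b p.1 ≠ i := by
        intro hbi
        rw [hbi, hB] at hb1
        exact (mem_erase.1 hb1).1 rfl
      rw [mem_coe, mem_product, mem_product]
      refine ⟨?_, mem_range.2 hxk, hb1⟩
      rw [mem_Rg]
      constructor
      · intro c
        simp only [hf]
        split_ifs with h1 h2
        · rw [h1]
          omega
        · have := hxw c
          omega
        · exact hxw c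
      · have e1 : ∑ c, (f p).1 c = (f p).1 i + ((f p).1 (b p.1) +
            ∑ c ∈ (univ.erase i).erase (b p.1), (f p).1 c) := by
          rw [add_sum_erase _ _ (mem_erase.2 ⟨hbi, mem_univ _⟩), add_sum_erase _ _ (mem_univ i)]
        have e2 : ∑ c, p.1 c = p.1 i + (p.1 (b p.1) +
            ∑ c ∈ (univ.erase i).erase (b p.1), p.1 c) := by
          rw [add_sum_erase _ _ (mem_erase.2 ⟨hbi, mem_univ _⟩), add_sum_erase _ _ (mem_univ i)]
        have e3 : ∑ c ∈ (univ.erase i).erase (b p.1), (f p).1 c =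
            ∑ c ∈ (univ.erase i).erase (b p.1), p.1 c := by
          refine sum_congr rfl fun c hc => ?_
          rw [mem_erase, mem_erase] at hc
          simp only [hf]
          rw [if_neg hc.2.1, if_neg hc.1]
        have e4 : (f p).1 i = p.1 i + p.2 := by simp [hf]
        have e5 : (f p).1 (b p.1) = p.1 (b p.1) - p.2 := by
          simp [hf, hbi]
        rw [e1, e3, e4, e5]
        omega
    · intro p hp q hq hpq
      rw [mem_coe, mem_product, mem_range] at hp hq
      have hb1 := hbB p.1 hp.1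
      have hb2 := hbh p.1 hp.1
      have hb3 := hbh q.1 hq.1
      have hbi : b p.1 ≠ i := by
        intro hbi
        rw [hbi, hB] at hb1
        exact (mem_erase.1 hb1).1 rfl
      simp only [hf, Prod.mk.injEq] at hpq
      obtain ⟨h1, h2, h3⟩ := hpq
      have h4 := congrFun h1 i
      simp only [if_true] at h4
      have h5 : p.2 = q.2 := by omega
      refine Prod.ext ?_ h5
      funext c
      have h6 := congrFun h1 c
      rw [← h3] at h6
      by_cases hc : c = i
      · rw [hc]; exact h2
      · by_cases hc2 : c = b p.1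
        · rw [if_neg hc, if_pos hc2, if_neg hc, if_pos hc2] at h6
          rw [← h3] at hb3
          rw [hc2] at h6 ⊢
          omega
        · rw [if_neg hc, if_neg hc2, if_neg hc, if_neg hc2] at h6
          exact h6
  rw [card_product, card_product, card_product, card_range, card_range] at hinj
  have h1 : S.card * v ≤ S.card * (2 * N * (h + 1)) := Nat.mul_le_mul_left _ hh2.le
  have h2 : (Rg σ w).card * (k * B.card) ≤ (Rg σ w).card * (k * N) :=
    Nat.mul_le_mul_left _ (Nat.mul_le_mul_left _ hBcard)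
  calc S.card * v ≤ S.card * (2 * N * (h + 1)) := h1
    _ = 2 * N * (S.card * (h + 1)) := by ring
    _ ≤ 2 * N * ((Rg σ w).card * (k * N)) := Nat.mul_le_mul_left _ (hinj.trans h2)
    _ = 2 * N ^ 2 * k * (Rg σ w).card := by ring

lemma Rg_update_eq (σ : ℕ) (w : ι → ℕ) (l : ι) :
    Rg σ (Function.update w l 0) = (Rg σ w).filter fun x => x l < 1 := by
  ext x
  rw [mem_filter, mem_Rg, mem_Rg]
  constructor
  · rintro ⟨h1, h2⟩
    have h3 := h1 l
    rw [Function.update_self] at h3
    refine ⟨⟨fun j => ?_, h2⟩, by omega⟩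
    by_cases hj : j = l
    · rw [hj]; omega
    · have := h1 j
      rwa [Function.update_of_ne hj] at this
  · rintro ⟨⟨h1, h2⟩, h3⟩
    refine ⟨fun j => ?_, h2⟩
    by_cases hj : j = l
    · rw [hj, Function.update_self]; omega
    · rw [Function.update_of_ne hj]; exact h1 j

/-- The case `k = 1`: a facet is small compared with the region. -/
theorem facet_le (N : ℕ) (hN : 1 ≤ N) (σ : ℕ) (w : ι → ℕ) (l : ι) (v : ℕ)
    (hcard : (univ.filter fun i => 0 < w i).card ≤ N + 1) (hv : v ≤ w l) (hvσ : v ≤ σ)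
    (h2 : 2 ≤ v) :
    fc σ w l * v ≤ 2 * N ^ 2 * (Rg σ w).card := by
  have := frac N hN σ w l 1 v hcard hv hvσ (by omega)
  unfold fc
  rw [Rg_update_eq]
  simpa using this

theorem fc_le (σ : ℕ) (w : ι → ℕ) (l : ι) : fc σ w l ≤ (Rg σ w).card := by
  unfold fc
  rw [Rg_update_eq]
  exact card_filter_le _ _

/-- The region is nonempty as soon as `σ ≤ ∑ w`. -/
theorem Rg_nonempty (σ : ℕ) (w : ι → ℕ) (h : σ ≤ ∑ i, w i) : (Rg σ w).Nonempty := by
  induction σ with
  | zero => exact ⟨fun _ => 0, mem_Rg.2 ⟨fun _ => Nat.zero_le _, by simp⟩⟩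
  | succ s ih =>
    obtain ⟨x, hx⟩ := ih (by omega)
    rw [mem_Rg] at hx
    obtain ⟨h1, h2⟩ := hx
    have hex : ∃ i, x i < w i := by
      by_contra hcon
      push Not at hcon
      have : ∑ i, w i ≤ ∑ i, x i := sum_le_sum fun i _ => hcon i
      omega
    obtain ⟨i, hi⟩ := hex
    refine ⟨Function.update x i (x i + 1), mem_Rg.2 ⟨fun j => ?_, ?_⟩⟩
    · by_cases hj : j = i
      · rw [hj, Function.update_self]; omega
      · rw [Function.update_of_ne hj]; exact h1 j
    · rw [sum_update_of_mem (mem_univ i), ← h2, ← add_sum_erase _ _ (mem_univ i),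
        erase_eq]
      omega

/-- Lower bound for the number of exponents: the coordinate `x i` takes at least `b + 1` values
(all values between `max (0, σ - ∑_{≠ i} w)` and `min (w i, σ)`; for each of them the rest can be
filled by `Rg_nonempty`). -/
theorem card_ge (σ : ℕ) (w : ι → ℕ) (b : ℕ) (i j : ι) (hij : i ≠ j) (hi : b ≤ w i)
    (hj : b ≤ w j) (hσ : b ≤ σ) (hw : σ + b ≤ ∑ i, w i) : b + 1 ≤ (Rg σ w).card := by
  have hsum : ∑ c, w c = w i + ∑ c ∈ univ.erase i, w c := (add_sum_erase _ _ (mem_univ i)).symm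
  have hjle : w j ≤ ∑ c ∈ univ.erase i, w c :=
    single_le_sum (f := w) (fun _ _ => Nat.zero_le _) (mem_erase.2 ⟨hij.symm, mem_univ _⟩)
  set W := ∑ c ∈ univ.erase i, w c with hW
  set t0 := σ - W with ht0
  have hsub : Icc t0 (t0 + b) ⊆ (Rg σ w).image fun x => x i := by
    intro t ht
    rw [mem_Icc] at ht
    have h1 : σ - t ≤ ∑ c, Function.update w i 0 c := by
      rw [sum_update_of_mem (mem_univ i), zero_add, ← erase_eq]
      show σ - t ≤ W
      omega
    obtain ⟨y, hy⟩ := Rg_nonempty (σ - t) (Function.update w i 0) h1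
    rw [mem_Rg] at hy
    obtain ⟨hy1, hy2⟩ := hy
    have hyi : y i = 0 := by
      have := hy1 i
      rw [Function.update_self] at this
      omega
    rw [mem_image]
    refine ⟨Function.update y i t, mem_Rg.2 ⟨fun c => ?_, ?_⟩, by rw [Function.update_self]⟩
    · by_cases hc : c = i
      · rw [hc, Function.update_self]; omega
      · rw [Function.update_of_ne hc]
        have := hy1 c
        rwa [Function.update_of_ne hc] at this
    · have e1 : ∑ c, y c = y i + ∑ c ∈ univ.erase i, y c := (add_sum_erase _ _ (mem_univ i)).symm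
      rw [sum_update_of_mem (mem_univ i), ← erase_eq]
      omega
  have h2 := card_le_card hsub
  rw [Nat.card_Icc] at h2
  have h3 := h2.trans card_image_le
  omega

end Pool.Agent.H18.Ex

end

section

/-!
# Module Box: lower and upper bounds by boxes
-/

namespace Pool.Agent.H18.Ex

open Finset

variable {ι : Type} [Fintype ι] [DecidableEq ι]

/-- Upper bound: `x` is determined by its coordinates `≠ o`. -/
theorem card_le_prod (o : ι) (σ : ℕ) (w : ι → ℕ) :
    (Rg σ w).card ≤ ∏ i ∈ univ.erase o, (min (w i) σ + 1) := by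
  have h1 : (Rg σ w).card ≤ (Fintype.piFinset fun i =>
      if i = o then ({0} : Finset ℕ) else range (min (w i) σ + 1)).card := by
    refine card_le_card_of_injOn (fun x => Function.update x o 0) ?_ ?_
    · intro x hx
      rw [mem_coe, mem_Rg] at hx
      obtain ⟨hx1, hx2⟩ := hx
      rw [mem_coe, Fintype.mem_piFinset]
      intro i
      show Function.update x o 0 i ∈ _
      by_cases hi : i = o
      · rw [if_pos hi, hi, Function.update_self]
        simp
      · rw [if_neg hi, Function.update_of_ne hi, mem_range]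
        have h2 := hx1 i
        have h3 : x i ≤ ∑ j, x j := single_le_sum (f := x) (fun _ _ => Nat.zero_le _) (mem_univ i)
        rw [hx2] at h3
        have := le_min h2 h3
        omega
    · intro x hx y hy hxy
      rw [mem_coe, mem_Rg] at hx hy
      have hne : ∀ i, i ≠ o → x i = y i := by
        intro i hi
        have := congrFun hxy i
        simp only [Function.update_of_ne hi] at this
        exact this
      funext i
      by_cases hi : i = o
      · have e1 : ∑ j, x j = x o + ∑ j ∈ univ.erase o, x j := (add_sum_erase _ _ (mem_univ o)).symm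
        have e2 : ∑ j, y j = y o + ∑ j ∈ univ.erase o, y j := (add_sum_erase _ _ (mem_univ o)).symm
        have e3 : ∑ j ∈ univ.erase o, x j = ∑ j ∈ univ.erase o, y j :=
          sum_congr rfl fun j hj => hne j (mem_erase.1 hj).1
        have h2 := hx.2
        have h3 := hy.2
        rw [hi]
        omega
      · exact hne i hi
  rw [Fintype.card_piFinset] at h1
  refine h1.trans (le_of_eq ?_)
  rw [← mul_prod_erase univ _ (mem_univ o), if_pos rfl, card_singleton, one_mul]
  refine prod_congr rfl fun i hi => ?_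
  rw [if_neg (mem_erase.1 hi).1, card_range]

/-- Lower bound for a facet of a normalised region of dimension `N ≥ 2`.

Proof.  Let `Q` be the set of the active `i ≠ o, l` (`N - 1` elements), `b i = w i / N` for
`i ∈ Q`, `S' = ∑_Q w`, `A = σ - w o` (truncated).  Then `∑_Q b ≤ S' / N`, and
`A + ∑_Q b ≤ σ` (if `σ ≤ w o`: `∑_Q b ≤ S'/N ≤ (N-1) σ / N`; otherwise `∑_Q b ≤ (N-1) w o / N`), and
`A ≤ ∑_Q (w - b)` (if `σ > w o`: `S' - (σ - w o) = (∑ w - σ) - w l ≥ (∑ w) / 2 - w l
= (S' + w o - w l) / 2 ≥ S'/2 ≥ ∑_Q b`).  Choose `a i ≤ w i - b i` (`i ∈ Q`) with `∑_Q a = A`.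
For `y i ≤ b i` (`i ∈ Q`) the vector with entries `a i + y i` (`i ∈ Q`), `0` at `l` and
`σ - ∑_Q (a + y) ∈ [0, w o]` at `o` lies in the facet.  This gives `∏_Q (b i + 1)` exponents, and
`N (b i + 1) ≥ w i`. -/
theorem box_lower (N : ℕ) (hN : 2 ≤ N) (D : ℕ) (o l : ι) (σ : ℕ) (w : ι → ℕ)
    (h : Nrm N D o σ w) (hl : l ≠ o) (hwl : 0 < w l) :
    ∏ i ∈ univ.filter (fun i => 0 < w i ∧ i ≠ o ∧ i ≠ l), w i ≤ N ^ (N - 1) * fc σ w l := by
  set Q := univ.filter (fun i => 0 < w i ∧ i ≠ o ∧ i ≠ l) with hQ
  have hwoσ : w o ≤ σ := h.hwσ o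
  have hQeq : Q = ((univ.filter fun i => 0 < w i).erase o).erase l := by
    ext i
    simp only [hQ, mem_filter, mem_univ, true_and, mem_erase]
    tauto
  have hlmem : l ∈ (univ.filter fun i => 0 < w i).erase o := by
    simp only [mem_filter, mem_univ, true_and, mem_erase]
    exact ⟨hl, hwl⟩
  have homem : o ∈ univ.filter fun i => 0 < w i := by
    simp only [mem_filter, mem_univ, true_and]
    exact h.ho
  have hQcard : Q.card = N - 1 := by
    rw [hQeq, card_erase_of_mem hlmem, card_erase_of_mem homem, h.hcard]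
    omega
  have hoQ : o ∉ Q := by simp [hQ]
  have hlQ : l ∉ Q := by simp [hQ]
  set b : ι → ℕ := fun i => w i / N with hb
  set S' := ∑ i ∈ Q, w i with hS'
  have hsumw : ∑ i, w i = w o + (w l + S') := by
    have e1 : ∑ i, w i = ∑ i ∈ univ.filter (fun i => 0 < w i), w i := by
      symm
      refine sum_subset (filter_subset _ _) fun j _ hj => ?_
      simp only [mem_filter, mem_univ, true_and, not_lt, Nat.le_zero] at hj
      exact hj
    rw [e1, hS', hQeq, add_sum_erase _ _ hlmem, add_sum_erase _ _ homem]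
  have hb2 : ∀ i, 2 * b i ≤ w i := by
    intro i
    have h1 : N * b i ≤ w i := Nat.mul_div_le (w i) N
    have h2 : 2 * b i ≤ N * b i := Nat.mul_le_mul_right _ hN
    omega
  have hsumb : 2 * ∑ i ∈ Q, b i ≤ S' := by
    rw [mul_sum]
    exact sum_le_sum fun i _ => hb2 i
  have hsumbo : ∑ i ∈ Q, b i ≤ w o := by
    have h1 : ∑ i ∈ Q, b i ≤ Q.card * (w o / N) := by
      rw [← smul_eq_mul]
      exact sum_le_card_nsmul Q b _ fun i _ => Nat.div_le_div_right (h.hwo i)
    rw [hQcard] at h1
    have h2 : (N - 1) * (w o / N) ≤ N * (w o / N) := Nat.mul_le_mul_right _ (by omega)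
    have h3 : N * (w o / N) ≤ w o := Nat.mul_div_le _ _
    omega
  set A := σ - w o with hA
  have hwlo := h.hwo l
  have h2σ := h.hσ
  have hA1 : 2 * A ≤ S' := by omega
  set w' : ι → ℕ := fun i => if i ∈ Q then w i - b i else 0 with hw'
  have hAw : A ≤ ∑ i, w' i := by
    have e1 : ∑ i, w' i = ∑ i ∈ Q, (w i - b i) := by
      rw [hw', sum_ite_mem, univ_inter]
    have e2 : ∑ i ∈ Q, (w i - b i) + ∑ i ∈ Q, b i = S' := by
      rw [← sum_add_distrib, hS']
      refine sum_congr rfl fun i _ => ?_
      have := hb2 i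
      omega
    rw [e1]
    omega
  obtain ⟨a, ha⟩ := Rg_nonempty A w' hAw
  rw [mem_Rg] at ha
  obtain ⟨ha1, ha2⟩ := ha
  have haQ : ∀ i, i ∉ Q → a i = 0 := by
    intro i hi
    have := ha1 i
    simp only [hw', if_neg hi] at this
    omega
  have haQ' : ∀ i ∈ Q, a i + b i ≤ w i := by
    intro i hi
    have := ha1 i
    simp only [hw', if_pos hi] at this
    have := hb2 i
    omega
  have hbox : (Fintype.piFinset fun i => if i ∈ Q then range (b i + 1) else ({0} : Finset ℕ)).card ≤
      fc σ w l := by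
    unfold fc
    refine card_le_card_of_injOn
      (fun y i => if i = o then σ - A - ∑ j, y j else a i + y i) ?_ ?_
    · intro y hy
      rw [mem_coe, Fintype.mem_piFinset] at hy
      have hyQ : ∀ i, i ∉ Q → y i = 0 := by
        intro i hi
        have := hy i
        rw [if_neg hi, mem_singleton] at this
        exact this
      have hyQ' : ∀ i ∈ Q, y i ≤ b i := by
        intro i hi
        have := hy i
        rw [if_pos hi, mem_range] at this
        omega
      have hysum : ∑ j, y j = ∑ j ∈ Q, y j := by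
        symm
        exact sum_subset (subset_univ _) fun j _ hj => hyQ j hj
      have hysle : ∑ j, y j ≤ w o := by
        rw [hysum]
        exact (sum_le_sum hyQ').trans hsumbo
      rw [mem_coe, mem_Rg]
      constructor
      · intro i
        show (if i = o then σ - A - ∑ j, y j else a i + y i) ≤ Function.update w l 0 i
        by_cases hio : i = o
        · rw [if_pos hio, hio, Function.update_of_ne (Ne.symm hl)]
          omega
        · rw [if_neg hio]
          by_cases hil : i = l
          · rw [hil, haQ l hlQ, hyQ l hlQ]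
            omega
          · rw [Function.update_of_ne hil]
            by_cases hiQ : i ∈ Q
            · have := haQ' i hiQ
              have := hyQ' i hiQ
              omega
            · rw [haQ i hiQ, hyQ i hiQ]
              omega
      · have e1 : ∑ i, (if i = o then σ - A - ∑ j, y j else a i + y i) =
            (σ - A - ∑ j, y j) + ∑ i ∈ univ.erase o, (a i + y i) := by
          rw [← add_sum_erase univ _ (mem_univ o), if_pos rfl]
          congr 1
          exact sum_congr rfl fun i hi => by rw [if_neg (mem_erase.1 hi).1]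
        have e2 : ∑ i ∈ univ.erase o, (a i + y i) = A + ∑ j, y j := by
          have e3 : ∑ i, (a i + y i) = (a o + y o) + ∑ i ∈ univ.erase o, (a i + y i) :=
            (add_sum_erase _ _ (mem_univ o)).symm
          rw [haQ o hoQ, hyQ o hoQ, sum_add_distrib, ha2] at e3
          omega
        rw [e1, e2]
        omega
    · intro y hy z hz hyz
      rw [mem_coe, Fintype.mem_piFinset] at hy hz
      funext i
      by_cases hio : i = o
      · have h1 := hy i
        have h2 := hz i
        rw [hio, if_neg hoQ, mem_singleton] at h1 h2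
        rw [hio, h1, h2]
      · have := congrFun hyz i
        simp only [if_neg hio] at this
        omega
  rw [Fintype.card_piFinset] at hbox
  have hprod : ∏ i, (if i ∈ Q then range (b i + 1) else ({0} : Finset ℕ)).card =
      ∏ i ∈ Q, (b i + 1) := by
    rw [← prod_subset (subset_univ Q)]
    · exact prod_congr rfl fun i hi => by rw [if_pos hi, card_range]
    · intro i _ hi
      rw [if_neg hi, card_singleton]
  rw [hprod] at hbox
  calc ∏ i ∈ Q, w i ≤ ∏ i ∈ Q, N * (b i + 1) := by
        refine prod_le_prod (fun _ _ => Nat.zero_le _) fun i _ => ?_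
        have := Nat.lt_mul_div_succ (w i) (show 0 < N by omega)
        exact this.le
    _ = N ^ (N - 1) * ∏ i ∈ Q, (b i + 1) := by
        rw [prod_mul_distrib, prod_const, hQcard]
    _ ≤ N ^ (N - 1) * fc σ w l := Nat.mul_le_mul_left _ hbox

end Pool.Agent.H18.Ex

end

section

/-!
# Module Iter: the rounds, numerically

In one round `min (w i) σ / q` layers are peeled off in every direction `i ≠ o`.
-/

namespace Pool.Agent.H18.Ex

open Finset

variable {ι : Type} [Fintype ι] [DecidableEq ι]

/-- Number of layers peeled off in direction `i` in one round. -/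
def rk (q : ℕ) (o : ι) (σ : ℕ) (w : ι → ℕ) : ι → ℕ :=
  fun i => if i = o then 0 else min (w i) σ / q

/-- One round. -/
def rnd (q : ℕ) (o : ι) (p : ℕ × (ι → ℕ)) : ℕ × (ι → ℕ) :=
  (p.1 - ∑ i, rk q o p.1 p.2 i, fun i => p.2 i - rk q o p.1 p.2 i)

omit [Fintype ι] in
theorem rk_le_w (q : ℕ) (o : ι) (σ : ℕ) (w : ι → ℕ) (i : ι) : rk q o σ w i ≤ w i / q := by
  unfold rk
  split_ifs
  · exact Nat.zero_le _
  · exact Nat.div_le_div_right (min_le_left _ _)

omit [Fintype ι] in
theorem rk_le_σ (q : ℕ) (o : ι) (σ : ℕ) (w : ι → ℕ) (i : ι) : rk q o σ w i ≤ σ / q := by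
  unfold rk
  split_ifs
  · exact Nat.zero_le _
  · exact Nat.div_le_div_right (min_le_right _ _)

theorem rnd_w_mono (q : ℕ) (o : ι) (p : ℕ × (ι → ℕ)) (i : ι) (t : ℕ) :
    ((rnd q o)^[t] p).2 i ≤ p.2 i := by
  induction t with
  | zero => exact le_rfl
  | succ t ih =>
    rw [Function.iterate_succ_apply']
    exact (Nat.sub_le _ _).trans ih

theorem rnd_w_step (q : ℕ) (o : ι) (p : ℕ × (ι → ℕ)) (i : ι) :
    (1 - 1 / (q : ℝ)) * (p.2 i : ℝ) ≤ ((rnd q o p).2 i : ℝ) := by
  have h1 : p.2 i ≤ (rnd q o p).2 i + p.2 i / q := by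
    have h2 := rk_le_w q o p.1 p.2 i
    change p.2 i ≤ p.2 i - rk q o p.1 p.2 i + p.2 i / q
    omega
  have h3 : (p.2 i : ℝ) ≤ ((rnd q o p).2 i : ℝ) + ((p.2 i / q : ℕ) : ℝ) := by exact_mod_cast h1
  have h4 : ((p.2 i / q : ℕ) : ℝ) ≤ (p.2 i : ℝ) / (q : ℝ) := Nat.cast_div_le
  have h5 : (1 - 1 / (q : ℝ)) * (p.2 i : ℝ) = (p.2 i : ℝ) - (p.2 i : ℝ) / (q : ℝ) := by ring
  rw [h5]
  linarith only [h3, h4]

theorem rnd_w_lower (q : ℕ) (hq : 1 ≤ q) (o : ι) (p : ℕ × (ι → ℕ)) (i : ι) (t : ℕ) :
    (1 - 1 / (q : ℝ)) ^ t * (p.2 i : ℝ) ≤ (((rnd q o)^[t] p).2 i : ℝ) := by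
  have hr : 0 ≤ 1 - 1 / (q : ℝ) := by
    have : (1 : ℝ) ≤ q := by exact_mod_cast hq
    rw [sub_nonneg, div_le_one (by linarith)]
    exact this
  induction t with
  | zero => simp
  | succ t ih =>
    rw [Function.iterate_succ_apply', pow_succ', mul_assoc]
    exact (mul_le_mul_of_nonneg_left ih hr).trans (rnd_w_step q o _ i)

theorem rnd_v_step (q : ℕ) (hq : 1 ≤ q) (o : ι) (p : ℕ × (ι → ℕ)) (i : ι) (hi : i ≠ o) :
    ((min ((rnd q o p).2 i) (rnd q o p).1 : ℕ) : ℝ) ≤
      (1 - 1 / (q : ℝ)) * ((min (p.2 i) p.1 : ℕ) : ℝ) + 1 := by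
  set m := min (p.2 i) p.1 with hm
  have hrk : rk q o p.1 p.2 i = m / q := by
    unfold rk
    rw [if_neg hi]
  have h1 : min ((rnd q o p).2 i) (rnd q o p).1 + m / q ≤ m := by
    have hmq : m / q ≤ m := Nat.div_le_self _ _
    have hA : (rnd q o p).2 i = p.2 i - m / q := by
      change p.2 i - rk q o p.1 p.2 i = _
      rw [hrk]
    have hB : (rnd q o p).1 ≤ p.1 - m / q := by
      change p.1 - ∑ i, rk q o p.1 p.2 i ≤ _
      have : m / q ≤ ∑ i, rk q o p.1 p.2 i := by
        rw [← hrk]
        exact single_le_sum (f := fun i => rk q o p.1 p.2 i) (fun _ _ => Nat.zero_le _)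
          (mem_univ i)
      omega
    rcases le_total (p.2 i) p.1 with h | h
    · have h2 : m = p.2 i := by rw [hm, min_eq_left h]
      have h3 := min_le_left ((rnd q o p).2 i) (rnd q o p).1
      omega
    · have h2 : m = p.1 := by rw [hm, min_eq_right h]
      have h3 := min_le_right ((rnd q o p).2 i) (rnd q o p).1
      omega
  have h2 : ((min ((rnd q o p).2 i) (rnd q o p).1 : ℕ) : ℝ) + ((m / q : ℕ) : ℝ) ≤ (m : ℝ) := by
    exact_mod_cast h1
  have hq0 : (0 : ℝ) < q := by exact_mod_cast hq
  have h3 : (m : ℝ) / (q : ℝ) ≤ ((m / q : ℕ) : ℝ) + 1 := by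
    rw [div_le_iff₀ hq0]
    have h4 : m ≤ (m / q + 1) * q := by
      have := Nat.div_add_mod m q
      have h5 := Nat.mod_lt m hq
      calc m = q * (m / q) + m % q := this.symm
        _ ≤ q * (m / q) + q := by omega
        _ = (m / q + 1) * q := by ring
    exact_mod_cast h4
  have h5 : (1 - 1 / (q : ℝ)) * (m : ℝ) = (m : ℝ) - (m : ℝ) / (q : ℝ) := by ring
  rw [h5]
  linarith only [h2, h3]

theorem rnd_v_upper (q : ℕ) (hq : 1 ≤ q) (o : ι) (p : ℕ × (ι → ℕ)) (i : ι) (hi : i ≠ o) (t : ℕ) :
    ((min (((rnd q o)^[t] p).2 i) ((rnd q o)^[t] p).1 : ℕ) : ℝ) ≤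
      (1 - 1 / (q : ℝ)) ^ t * (p.2 i : ℝ) + q := by
  have hq0 : (0 : ℝ) < q := by exact_mod_cast hq
  have hr : 0 ≤ 1 - 1 / (q : ℝ) := by
    have : (1 : ℝ) ≤ q := by exact_mod_cast hq
    rw [sub_nonneg, div_le_one (by linarith)]
    exact this
  induction t with
  | zero =>
    rw [pow_zero, one_mul]
    have h1 : ((min (p.2 i) p.1 : ℕ) : ℝ) ≤ (p.2 i : ℝ) := by
      exact_mod_cast min_le_left (p.2 i) p.1
    change ((min (p.2 i) p.1 : ℕ) : ℝ) ≤ _
    linarith only [hq0, h1]
  | succ t ih =>
    rw [Function.iterate_succ_apply']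
    refine (rnd_v_step q hq o _ i hi).trans ?_
    have h1 := mul_le_mul_of_nonneg_left ih hr
    have h2 : (1 - 1 / (q : ℝ)) * ((1 - 1 / (q : ℝ)) ^ t * (p.2 i : ℝ) + q) + 1 =
        (1 - 1 / (q : ℝ)) ^ (t + 1) * (p.2 i : ℝ) + q := by
      have hq' : (1 - 1 / (q : ℝ)) * (q : ℝ) = (q : ℝ) - 1 := by
        rw [sub_mul, one_mul, one_div_mul_cancel (ne_of_gt hq0)]
      rw [pow_succ']
      linear_combination hq'
    linarith only [h1, h2]

/-- The required width. -/
def cD0 (n M q C B : ℕ) : ℕ := (n + 1) ^ n * C * (4 * B + q + 2) ^ (n + 1) + 2 * M + B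

/-- There is a number `T` of rounds after which the region is small compared with the facet in
the thinnest direction `ls`, while all widths stay large.

Proof.  `N = n + 1`, `r = 1 - 1/q` (real numbers), `(σ_t, w_t)` = state after `t` rounds.
(1) `w_t i ≥ r^t w' i`; for `i ≠ o`, `v_t i := min (w_t i) σ_t` satisfies
`v_{t+1} i ≤ r v_t i + 1` (if `w_t i ≤ σ_t` look at `w`, otherwise at `σ`, which loses at least
`σ_t / q` rounded down), so `v_t i ≤ r^t w' i + q ≤ r^t w i + q`.  `w_t o = w' o`.
(2) `|Rg_t| ≤ ∏_{i ≠ o} (v_t i + 1) ≤ ∏_{i ≠ o active} (r^t w i + q + 1)` (`card_le_prod`), which tends to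
`(q + 1)^N` or less; and by `box_lower` `N^(N-1) fc σ w ls ≥ ∏_{i active ≠ o, ls} w i ≥ D^(N-1)`.
Let `T` be the least `t` with `C |Rg_t| ≤ fc σ w ls`; it exists if `D` is large.
(3) For `t < T`: `C ∏_{i≠o} (r^t w i + q + 1) N^(N-1) > ∏_{i active ≠ o, ls} w i`.  If
`r^t w ls < B₀ := 4 B` then `r^t ≤ B₀ / D` and for `i ≠ ls` the factor is at most
`w i (B₀ + q + 1) / D`, so `C N^(N-1) (B₀ + q + 1)^N > D^(N-1)`, impossible for `D` large
(`N ≥ 2`).  So `r^t w ls ≥ 4 B` and `w_t i ≥ r^t w' i ≥ r^t w i / 2 ≥ r^t w ls / 2 ≥ 2 B`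
(`w' i ≥ w i - M ≥ w i / 2`).  Also `(σ_t + 1)^N ≥ |Rg_t|` and
`C N^(N-1) |Rg_t| > D^(N-1)`, so `σ_t ≥ 2 B`.
(4) One more round at most halves: `w_{t+1} i ≥ w_t i / 2`, `σ_{t+1} ≥ σ_t - N σ_t / q ≥ σ_t / 2`
(at most `N` active coordinates `≠ o`); this covers `t = T ≥ 1`.  For `T = 0`:
`w' i ≥ D - M ≥ B`, `σ' ≥ σ - M ≥ D - M ≥ B`. -/
theorem rounds_exist (n M q C B : ℕ) (hn : 1 ≤ n) (hq : 2 * (n + 1) ≤ q) (hC : 1 ≤ C) :
    ∀ (ι : Type) [Fintype ι] [DecidableEq ι] (o ls : ι) (σ : ℕ) (w : ι → ℕ),
      Nrm (n + 1) (cD0 n M q C B) o σ w → ls ≠ o → 0 < w ls →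
      (∀ i, i ≠ o → 0 < w i → w ls ≤ w i) →
      ∀ (σ' : ℕ) (w' : ι → ℕ), σ ≤ σ' + M → σ' ≤ σ → (∀ i, w i ≤ w' i + M) → (∀ i, w' i ≤ w i) →
      ∃ T : ℕ,
        C * (Rg ((rnd q o)^[T] (σ', w')).1 ((rnd q o)^[T] (σ', w')).2).card ≤ fc σ w ls ∧
        ∀ t ≤ T, B ≤ ((rnd q o)^[t] (σ', w')).1 ∧
          ∀ i, 0 < w i → B ≤ ((rnd q o)^[t] (σ', w')).2 i := by
  set K : ℕ := 4 * B + q + 2 with hK
  intro ι _ _ o ls σ w hN hls hwls hmin σ' w' hσM hσ' hwM hw'
  have hcD : cD0 n M q C B = (n + 1) ^ n * C * K ^ (n + 1) + 2 * M + B := rfl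
  rw [hcD] at hN
  set D : ℕ := (n + 1) ^ n * C * K ^ (n + 1) + 2 * M + B with hD
  have hq1 : 1 ≤ q := by omega
  have hq0 : (0 : ℝ) < q := by exact_mod_cast hq1
  set r : ℝ := 1 - 1 / (q : ℝ) with hr
  have hr0 : 0 ≤ r := by
    have : (1 : ℝ) ≤ q := by exact_mod_cast hq1
    rw [hr, sub_nonneg, div_le_one (by linarith only [hq0])]
    exact this
  have hr1 : r < 1 := by
    have : 0 < 1 / (q : ℝ) := by positivity
    rw [hr]
    linarith only [this]
  -- the index sets
  set A : Finset ι := univ.filter (fun i => 0 < w i ∧ i ≠ o) with hA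
  set Q : Finset ι := univ.filter (fun i => 0 < w i ∧ i ≠ o ∧ i ≠ ls) with hQ
  have hlsQ : ls ∉ Q := by simp [hQ]
  have hAQ : A = insert ls Q := by
    ext i
    simp only [hA, hQ, mem_filter, mem_univ, true_and, mem_insert]
    constructor
    · rintro ⟨h1, h2⟩
      by_cases h3 : i = ls
      · left; exact h3
      · right; exact ⟨h1, h2, h3⟩
    · rintro (h | ⟨h1, h2, h3⟩)
      · subst h; exact ⟨hwls, hls⟩
      · exact ⟨h1, h2⟩
  have hoA : o ∉ A := by simp [hA]
  have hAcard : A.card = n + 1 := by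
    have h1 : univ.filter (fun i => 0 < w i) = insert o A := by
      ext i
      simp only [hA, mem_filter, mem_univ, true_and, mem_insert]
      constructor
      · intro h
        by_cases h3 : i = o
        · left; exact h3
        · right; exact ⟨h, h3⟩
      · rintro (h | ⟨h1, _⟩)
        · subst h; exact hN.ho
        · exact h1
    have h2 := hN.hcard
    rw [h1, card_insert_of_notMem hoA] at h2
    omega
  have hQcard : Q.card = n := by
    rw [hAQ, card_insert_of_notMem hlsQ] at hAcard
    omega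
  -- the lower bound for the facet
  have hbox : ∏ i ∈ Q, w i ≤ (n + 1) ^ n * fc σ w ls := by
    have := box_lower (n + 1) (by omega) D o ls σ w hN hls hwls
    rwa [Nat.add_sub_cancel] at this
  have hDpos : 1 ≤ D := by
    have : 1 ≤ (n + 1) ^ n * C * K ^ (n + 1) := by
      have h1 : 0 < (n + 1) ^ n := by positivity
      have h2 : 0 < K ^ (n + 1) := by positivity
      exact Nat.succ_le_of_lt (by positivity)
    omega
  have hDn : D ≤ D ^ n := Nat.le_self_pow (by omega) D
  have hQD : D ^ n ≤ ∏ i ∈ Q, w i := by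
    rw [← hQcard, ← prod_const]
    refine prod_le_prod' (fun i hi => ?_)
    exact hN.hD i (mem_filter.mp hi).2.1
  have hDfc : D ≤ (n + 1) ^ n * fc σ w ls := hDn.trans (hQD.trans hbox)
  set S : ℕ → ℕ := fun t => ((rnd q o)^[t] (σ', w')).1 with hS
  set W : ℕ → ι → ℕ := fun t => ((rnd q o)^[t] (σ', w')).2 with hW
  have hWle : ∀ t i, W t i ≤ w i := fun t i => (rnd_w_mono q o (σ', w') i t).trans (hw' i)
  have hW0 : ∀ t i, w i = 0 → W t i = 0 := fun t i h => by
    have := hWle t i
    omega
  -- the upper bound for the region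
  have hcard : ∀ t, (Rg (S t) (W t)).card ≤ ∏ i ∈ A, (min (W t i) (S t) + 1) := by
    intro t
    refine (card_le_prod o (S t) (W t)).trans (le_of_eq ?_)
    symm
    refine prod_subset ?_ ?_
    · intro i hi
      rw [mem_erase]
      exact ⟨(mem_filter.mp hi).2.2, mem_univ i⟩
    · intro i hi hiA
      have h1 : i ≠ o := (mem_erase.mp hi).1
      have h2 : w i = 0 := by
        by_contra h3
        exact hiA (mem_filter.mpr ⟨mem_univ i, Nat.pos_of_ne_zero h3, h1⟩)
      rw [hW0 t i h2, Nat.zero_min, Nat.zero_add]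
  have hv : ∀ t, ∀ i ∈ A, ((min (W t i) (S t) + 1 : ℕ) : ℝ) ≤ r ^ t * (w i : ℝ) + (q + 1) := by
    intro t i hi
    have h1 := rnd_v_upper q hq1 o (σ', w') i (mem_filter.mp hi).2.2 t
    have h2 : r ^ t * (w' i : ℝ) ≤ r ^ t * (w i : ℝ) :=
      mul_le_mul_of_nonneg_left (by exact_mod_cast hw' i) (pow_nonneg hr0 t)
    have h3 : ((min (W t i) (S t) : ℕ) : ℝ) ≤ r ^ t * (w' i : ℝ) + q := h1
    push_cast at h3 ⊢
    linarith only [h2, h3]
  have hcardR : ∀ t, ((Rg (S t) (W t)).card : ℝ) ≤ ∏ i ∈ A, (r ^ t * (w i : ℝ) + (q + 1)) := by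
    intro t
    have h1 : ((Rg (S t) (W t)).card : ℝ) ≤ ∏ i ∈ A, ((min (W t i) (S t) + 1 : ℕ) : ℝ) := by
      exact_mod_cast hcard t
    exact h1.trans (prod_le_prod (fun i _ => by positivity) (hv t))
  have hpowD : (n + 1) ^ n * C * K ^ (n + 1) ≤ D := by omega
  -- existence of T
  have hex : ∃ t, C * (Rg (S t) (W t)).card ≤ fc σ w ls := by
    have hwo : (0 : ℝ) < w o := by exact_mod_cast hN.ho
    obtain ⟨t, ht⟩ := exists_pow_lt_of_lt_one (show (0 : ℝ) < 1 / (w o : ℝ) by positivity) hr1
    refine ⟨t, ?_⟩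
    have h1 : ((Rg (S t) (W t)).card : ℝ) ≤ ((K : ℕ) : ℝ) ^ (n + 1) := by
      refine (hcardR t).trans ?_
      rw [← hAcard, ← prod_const]
      refine prod_le_prod (fun i _ => by positivity) (fun i _ => ?_)
      have h2 : r ^ t * (w i : ℝ) ≤ 1 := by
        have h3 : r ^ t * (w i : ℝ) ≤ 1 / (w o : ℝ) * (w o : ℝ) := by
          refine mul_le_mul ht.le (by exact_mod_cast hN.hwo i) (by positivity) (by positivity)
        rwa [one_div_mul_cancel (ne_of_gt hwo)] at h3
      rw [hK]
      push_cast
      have : (0 : ℝ) ≤ B := by positivity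
      linarith only [h2]
    have h2 : (Rg (S t) (W t)).card ≤ K ^ (n + 1) := by exact_mod_cast h1
    have h3 : (n + 1) ^ n * (C * (Rg (S t) (W t)).card) ≤ (n + 1) ^ n * fc σ w ls := by
      calc (n + 1) ^ n * (C * (Rg (S t) (W t)).card) ≤ (n + 1) ^ n * (C * K ^ (n + 1)) := by gcongr
        _ = (n + 1) ^ n * C * K ^ (n + 1) := by ring
        _ ≤ D := hpowD
        _ ≤ _ := hDfc
    exact Nat.le_of_mul_le_mul_left h3 (by positivity)
  classical
  set T := Nat.find hex with hT
  have hTspec : C * (Rg (S T) (W T)).card ≤ fc σ w ls := Nat.find_spec hex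
  have hbefore : ∀ t < T, 2 * B ≤ S t ∧ ∀ i, 0 < w i → 2 * B ≤ W t i := by
    intro t ht
    have h1 : fc σ w ls < C * (Rg (S t) (W t)).card := not_le.mp (Nat.find_min hex ht)
    have h2 : ∏ i ∈ Q, w i < (n + 1) ^ n * (C * (Rg (S t) (W t)).card) :=
      lt_of_le_of_lt hbox (Nat.mul_lt_mul_of_pos_left h1 (by positivity))
    constructor
    · by_contra hlt
      push Not at hlt
      have h3 : (Rg (S t) (W t)).card ≤ K ^ (n + 1) := by
        refine (hcard t).trans ?_
        rw [← hAcard, ← prod_const]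
        refine prod_le_prod' (fun i _ => ?_)
        have := min_le_right (W t i) (S t)
        omega
      have h4 : (n + 1) ^ n * (C * (Rg (S t) (W t)).card) ≤ D := by
        calc (n + 1) ^ n * (C * (Rg (S t) (W t)).card) ≤ (n + 1) ^ n * (C * K ^ (n + 1)) := by
              gcongr
          _ = (n + 1) ^ n * C * K ^ (n + 1) := by ring
          _ ≤ D := hpowD
      have h5 := hDn.trans hQD
      omega
    · have h3 : (4 * B : ℝ) ≤ r ^ t * (w ls : ℝ) := by
        by_contra hlt
        push Not at hlt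
        have hDls : (D : ℝ) ≤ w ls := by exact_mod_cast hN.hD ls hwls
        have h4 : ∀ i ∈ Q, (D : ℝ) * (r ^ t * (w i : ℝ) + (q + 1)) ≤ (K : ℝ) * (w i : ℝ) := by
          intro i hi
          have hi1 : 0 < w i := (mem_filter.mp hi).2.1
          have hi2 : (D : ℝ) ≤ w i := by exact_mod_cast hN.hD i hi1
          have h5 : (D : ℝ) * (r ^ t * (w i : ℝ)) ≤ 4 * B * (w i : ℝ) := by
            calc (D : ℝ) * (r ^ t * (w i : ℝ)) = (r ^ t * (D : ℝ)) * (w i : ℝ) := by ring
              _ ≤ (r ^ t * (w ls : ℝ)) * (w i : ℝ) := by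
                gcongr
              _ ≤ 4 * B * (w i : ℝ) := by gcongr
          have h6 : (D : ℝ) * (q + 1) ≤ (w i : ℝ) * (q + 1) := by gcongr
          have h7 : (K : ℝ) = 4 * B + q + 2 := by rw [hK]; push_cast; ring
          rw [h7]
          have h8 : (0 : ℝ) ≤ w i := by positivity
          nlinarith only [h5, h6]
        have h5 : (D : ℝ) ^ n * ∏ i ∈ Q, (r ^ t * (w i : ℝ) + (q + 1)) ≤
            (K : ℝ) ^ n * ∏ i ∈ Q, (w i : ℝ) := by
          rw [← hQcard, ← prod_const, ← prod_const, ← prod_mul_distrib, ← prod_mul_distrib]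
          exact prod_le_prod (fun i _ => by positivity) h4
        have h6 : (D : ℝ) ^ n * ((Rg (S t) (W t)).card : ℝ) ≤
            (K : ℝ) ^ (n + 1) * ∏ i ∈ Q, (w i : ℝ) := by
          calc (D : ℝ) ^ n * ((Rg (S t) (W t)).card : ℝ)
              ≤ (D : ℝ) ^ n * ∏ i ∈ A, (r ^ t * (w i : ℝ) + (q + 1)) := by
                exact mul_le_mul_of_nonneg_left (hcardR t) (by positivity)
            _ = (r ^ t * (w ls : ℝ) + (q + 1)) *
                ((D : ℝ) ^ n * ∏ i ∈ Q, (r ^ t * (w i : ℝ) + (q + 1))) := by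
                rw [hAQ, prod_insert hlsQ]; ring
            _ ≤ (K : ℝ) * ((K : ℝ) ^ n * ∏ i ∈ Q, (w i : ℝ)) := by
                refine mul_le_mul ?_ h5 (by positivity) (by positivity)
                have h7 : (K : ℝ) = 4 * B + q + 2 := by rw [hK]; push_cast; ring
                rw [h7]
                linarith only [hlt]
            _ = _ := by ring
        have h7 : D ^ n * (Rg (S t) (W t)).card ≤ K ^ (n + 1) * ∏ i ∈ Q, w i := by
          exact_mod_cast h6
        have h8 : D ^ n * ∏ i ∈ Q, w i < D ^ n * ∏ i ∈ Q, w i := by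
          calc D ^ n * ∏ i ∈ Q, w i
              < D ^ n * ((n + 1) ^ n * (C * (Rg (S t) (W t)).card)) :=
                Nat.mul_lt_mul_of_pos_left h2 (by positivity)
            _ = (n + 1) ^ n * C * (D ^ n * (Rg (S t) (W t)).card) := by ring
            _ ≤ (n + 1) ^ n * C * (K ^ (n + 1) * ∏ i ∈ Q, w i) := by gcongr
            _ = ((n + 1) ^ n * C * K ^ (n + 1)) * ∏ i ∈ Q, w i := by ring
            _ ≤ D ^ n * ∏ i ∈ Q, w i := Nat.mul_le_mul_right _ (hpowD.trans hDn)
        exact lt_irrefl _ h8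
      intro i hi
      have h4 := rnd_w_lower q hq1 o (σ', w') i t
      have h5 : (w i : ℝ) ≤ 2 * (w' i : ℝ) := by
        have h6 := hwM i
        have h7 := hN.hD i hi
        have : w i ≤ 2 * w' i := by omega
        exact_mod_cast this
      have h6 : (w ls : ℝ) ≤ w i := by
        by_cases h7 : i = o
        · subst h7
          exact_mod_cast hN.hwo ls
        · exact_mod_cast hmin i h7 hi
      have h7 : (2 * B : ℝ) ≤ (W t i : ℝ) := by
        have h8 : r ^ t * (w ls : ℝ) ≤ r ^ t * (2 * (w' i : ℝ)) :=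
          mul_le_mul_of_nonneg_left (h6.trans h5) (pow_nonneg hr0 t)
        have h9 : r ^ t * (w' i : ℝ) ≤ (W t i : ℝ) := h4
        nlinarith only [h3, h4, h8]
      exact_mod_cast h7
  refine ⟨T, hTspec, ?_⟩
  intro t ht
  rcases Nat.lt_or_ge t T with hlt | hge
  · obtain ⟨h1, h2⟩ := hbefore t hlt
    refine ⟨?_, fun i hi => ?_⟩
    · change B ≤ S t
      omega
    · have := h2 i hi
      change B ≤ W t i
      omega
  · have htT : t = T := le_antisymm ht hge
    subst htT
    rcases Nat.eq_zero_or_pos T with h0 | hpos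
    · rw [h0]
      refine ⟨?_, fun i hi => ?_⟩
      · change B ≤ σ'
        have h1 := hN.hwσ o
        have h2 := hN.hD o hN.ho
        omega
      · change B ≤ w' i
        have h1 := hwM i
        have h2 := hN.hD i hi
        omega
    · obtain ⟨t, htt⟩ : ∃ t, T = t + 1 := ⟨T - 1, by omega⟩
      obtain ⟨h1, h2⟩ := hbefore t (by omega)
      have hstep : (rnd q o)^[T] (σ', w') = rnd q o ((rnd q o)^[t] (σ', w')) := by
        rw [htt, Function.iterate_succ_apply']
      rw [hstep]
      refine ⟨?_, fun i hi => ?_⟩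
      · change B ≤ S t - ∑ i, rk q o (S t) (W t) i
        have h3 : ∑ i, rk q o (S t) (W t) i ≤ (n + 1) * (S t / q) := by
          have h4 : ∑ i, rk q o (S t) (W t) i = ∑ i ∈ A, rk q o (S t) (W t) i := by
            symm
            refine sum_subset (subset_univ A) (fun i _ hiA => ?_)
            by_cases h5 : i = o
            · unfold rk
              rw [if_pos h5]
            · have h6 : w i = 0 := by
                by_contra h7
                exact hiA (mem_filter.mpr ⟨mem_univ i, Nat.pos_of_ne_zero h7, h5⟩)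
              have h7 := rk_le_w q o (S t) (W t) i
              rw [hW0 t i h6, Nat.zero_div] at h7
              exact Nat.le_zero.mp h7
          rw [h4, ← hAcard]
          exact sum_le_card_nsmul A _ _ (fun i _ => rk_le_σ q o (S t) (W t) i)
        have h4 : 2 * ((n + 1) * (S t / q)) ≤ S t := by
          calc 2 * ((n + 1) * (S t / q)) = (2 * (n + 1)) * (S t / q) := by ring
            _ ≤ q * (S t / q) := Nat.mul_le_mul_right _ hq
            _ ≤ S t := Nat.mul_div_le _ _
        omega
      · change B ≤ W t i - rk q o (S t) (W t) i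
        have h3 := rk_le_w q o (S t) (W t) i
        have h4 : 2 * (W t i / q) ≤ W t i := by
          calc 2 * (W t i / q) ≤ q * (W t i / q) := Nat.mul_le_mul_right _ (by omega)
            _ ≤ W t i := Nat.mul_div_le _ _
        have h5 := h2 i hi
        omega

end Pool.Agent.H18.Ex

end

section

/-!
# Module Ratio: a facet changes little when few layers are peeled off
-/

namespace Pool.Agent.H18.Ex

open Finset

variable {ι : Type} [Fintype ι] [DecidableEq ι]

/-- Peel `k i` layers in direction `i` (never in direction `o`).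

Proof.  Put `k' i = k i` for `i ≠ o, l` and `k' o = k l`.  Subtracting `k'` maps
`{x ∈ Rg σ (update w l 0) | ∀ i ≠ l, k' i ≤ x i}` injectively into
`Rg (σ - ∑ k) (update (w - k) l 0)`.  Hence
`fc σ w l - fc (σ - ∑ k) (w - k) l ≤ ∑_{i ≠ l} |{x ∈ Rg σ (update w l 0) | x i < k' i}|`.  Each
nonzero term has `k' i ≥ 1` and is at most `2 N² fc σ w l / q` by `frac` with `v = q * k' i`
(`v ≤ w i` resp. `v ≤ w l ≤ w o`, and `v ≤ σ`); there are at most `N` active `i ≠ l`. -/
theorem facet_ratio (N : ℕ) (hN : 1 ≤ N) (o l : ι) (σ : ℕ) (w k : ι → ℕ) (q : ℕ) (hq : 2 ≤ q)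
    (hcard : (univ.filter fun i => 0 < w i).card ≤ N + 1) (hol : l ≠ o) (hl : 0 < w l)
    (hlo : w l ≤ w o) (hko : k o = 0) (hk : ∀ i, q * k i ≤ w i) (hkσ : ∀ i, q * k i ≤ σ) :
    q * fc σ w l ≤ q * fc (σ - ∑ i, k i) (fun i => w i - k i) l + 2 * N ^ 3 * fc σ w l := by
  classical
  set k' : ι → ℕ := Function.update (Function.update k o (k l)) l 0 with hk'
  have k'l : k' l = 0 := by rw [hk', Function.update_self]
  have k'o : k' o = k l := by
    rw [hk', Function.update_of_ne (Ne.symm hol), Function.update_self]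
  have k'i : ∀ i, i ≠ l → i ≠ o → k' i = k i := by
    intro i h1 h2
    rw [hk', Function.update_of_ne h1, Function.update_of_ne h2]
  -- the sums agree
  have hsum : ∑ i, k' i = ∑ i, k i := by
    have e1 : ∑ i, k' i = k' l + (k' o + ∑ i ∈ (univ.erase l).erase o, k' i) := by
      rw [← Finset.add_sum_erase univ k' (mem_univ l),
        ← Finset.add_sum_erase (univ.erase l) k' (mem_erase.2 ⟨Ne.symm hol, mem_univ o⟩)]
    have e2 : ∑ i, k i = k l + (k o + ∑ i ∈ (univ.erase l).erase o, k i) := by
      rw [← Finset.add_sum_erase univ k (mem_univ l),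
        ← Finset.add_sum_erase (univ.erase l) k (mem_erase.2 ⟨Ne.symm hol, mem_univ o⟩)]
    have e3 : ∑ i ∈ (univ.erase l).erase o, k' i = ∑ i ∈ (univ.erase l).erase o, k i := by
      refine Finset.sum_congr rfl fun i hi => ?_
      rw [mem_erase, mem_erase] at hi
      exact k'i i hi.2.1 hi.1
    rw [e1, e2, e3, k'l, k'o, hko]
    omega
  have hk'w : ∀ i, q * k' i ≤ Function.update w l 0 i := by
    intro i
    by_cases h1 : i = l
    · subst h1; rw [k'l, mul_zero]; exact Nat.zero_le _
    · rw [Function.update_of_ne h1]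
      by_cases h2 : i = o
      · subst h2; rw [k'o]; exact (hk l).trans hlo
      · rw [k'i i h1 h2]; exact hk i
  have hk'σ : ∀ i, q * k' i ≤ σ := by
    intro i
    by_cases h1 : i = l
    · subst h1; rw [k'l, mul_zero]; exact Nat.zero_le _
    · by_cases h2 : i = o
      · subst h2; rw [k'o]; exact hkσ l
      · rw [k'i i h1 h2]; exact hkσ i
  set F := Rg σ (Function.update w l 0) with hF
  set S := F.filter fun x => ∀ i, k' i ≤ x i with hS
  -- the injection
  have hinj : S.card ≤ fc (σ - ∑ i, k i) (fun i => w i - k i) l := by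
    unfold fc
    refine Finset.card_le_card_of_injOn (fun x i => x i - k' i) ?_ ?_
    · intro x hx
      have hx' := Finset.mem_coe.1 hx
      rw [hS, mem_filter, hF, mem_Rg] at hx'
      obtain ⟨⟨h1, h2⟩, h3⟩ := hx'
      refine Finset.mem_coe.2 ?_
      rw [mem_Rg]
      constructor
      · intro i
        by_cases hi : i = l
        · subst hi
          have := h1 i
          rw [Function.update_self] at this ⊢
          simp only
          omega
        · rw [Function.update_of_ne hi]
          have := h1 i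
          rw [Function.update_of_ne hi] at this
          by_cases hio : i = o
          · subst hio
            simp only [k'o, hko]
            omega
          · simp only [k'i i hi hio]
            omega
      · rw [← hsum, ← h2]
        simp only
        have := Finset.sum_tsub_distrib (s := (univ : Finset ι)) (f := x) (g := k')
          (fun i _ => h3 i)
        exact this
    · intro x hx y hy hxy
      have hx' := Finset.mem_coe.1 hx
      have hy' := Finset.mem_coe.1 hy
      rw [hS, mem_filter] at hx' hy'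
      funext i
      have h1 := congrFun hxy i
      simp only at h1
      have h2 := hx'.2 i
      have h3 := hy'.2 i
      omega
  -- the bad points
  set I := univ.filter fun i => 0 < k' i with hI
  have hIcard : I.card ≤ N := by
    have h1 : I ⊆ (univ.filter fun i => 0 < w i).erase l := by
      intro i hi
      rw [hI, mem_filter] at hi
      have hil : i ≠ l := by
        rintro rfl
        rw [k'l] at hi
        exact absurd hi.2 (lt_irrefl 0)
      rw [mem_erase, mem_filter]
      refine ⟨hil, mem_univ _, ?_⟩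
      have := hk'w i
      rw [Function.update_of_ne hil] at this
      have h2 : 0 < q * k' i := Nat.mul_pos (by omega) hi.2
      omega
    have h2 : l ∈ univ.filter fun i => 0 < w i := mem_filter.2 ⟨mem_univ _, hl⟩
    have h3 := Finset.card_le_card h1
    rw [Finset.card_erase_of_mem h2] at h3
    omega
  have hact : (univ.filter fun i => 0 < Function.update w l 0 i).card ≤ N + 1 := by
    refine (Finset.card_le_card ?_).trans hcard
    intro i hi
    rw [mem_filter] at hi ⊢
    refine ⟨mem_univ _, ?_⟩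
    by_cases h1 : i = l
    · subst h1; exact hl
    · have := hi.2
      rwa [Function.update_of_ne h1] at this
  have hX : ∀ i ∈ I, q * (F.filter fun x => x i < k' i).card ≤ 2 * N ^ 2 * F.card := by
    intro i hi
    rw [hI, mem_filter] at hi
    have h1 := frac N hN σ (Function.update w l 0) i (k' i) (q * k' i) hact (hk'w i) (hk'σ i)
      (Nat.mul_le_mul_right _ hq)
    rw [← hF] at h1
    refine Nat.le_of_mul_le_mul_right ?_ hi.2
    calc q * (F.filter fun x => x i < k' i).card * k' i
        = (F.filter fun x => x i < k' i).card * (q * k' i) := by ring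
      _ ≤ 2 * N ^ 2 * k' i * F.card := h1
      _ = 2 * N ^ 2 * F.card * k' i := by ring
  have hcov : F ⊆ S ∪ I.biUnion fun i => F.filter fun x => x i < k' i := by
    intro x hx
    rw [mem_union, mem_biUnion]
    by_cases h : ∀ i, k' i ≤ x i
    · left
      rw [hS, mem_filter]
      exact ⟨hx, h⟩
    · right
      push Not at h
      obtain ⟨i, hi⟩ := h
      refine ⟨i, ?_, mem_filter.2 ⟨hx, hi⟩⟩
      rw [hI, mem_filter]
      exact ⟨mem_univ _, by omega⟩
  have hF2 : F.card ≤ S.card + ∑ i ∈ I, (F.filter fun x => x i < k' i).card :=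
    (Finset.card_le_card hcov).trans ((Finset.card_union_le _ _).trans
      (Nat.add_le_add_left Finset.card_biUnion_le _))
  have hF3 : fc σ w l = F.card := rfl
  rw [hF3]
  calc q * F.card ≤ q * (S.card + ∑ i ∈ I, (F.filter fun x => x i < k' i).card) :=
        Nat.mul_le_mul_left _ hF2
    _ = q * S.card + ∑ i ∈ I, q * (F.filter fun x => x i < k' i).card := by
        rw [mul_add, Finset.mul_sum]
    _ ≤ q * fc (σ - ∑ i, k i) (fun i => w i - k i) l + I.card * (2 * N ^ 2 * F.card) := by
        refine Nat.add_le_add (Nat.mul_le_mul_left _ hinj) ?_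
        rw [← smul_eq_mul]
        exact Finset.sum_le_card_nsmul _ _ _ hX
    _ ≤ q * fc (σ - ∑ i, k i) (fun i => w i - k i) l + N * (2 * N ^ 2 * F.card) :=
        Nat.add_le_add_left (Nat.mul_le_mul_right _ hIcard) _
    _ = q * fc (σ - ∑ i, k i) (fun i => w i - k i) l + 2 * N ^ 3 * F.card := by ring

end Pool.Agent.H18.Ex

end

section

/-!
# Lattice points of truncated boxes: counting
-/

namespace Pool.Agent.H18.Fat

open Finset

section

variable {r : ℕ}

/-- The lattice points `a` with `v ≤ a < u` and `lo ≤ |a| < hi`. -/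
noncomputable def Rg (v u : Fin r → ℤ) (lo hi : ℤ) : Finset (Fin r → ℤ) :=
  (Fintype.piFinset fun j => Ico (v j) (u j)).filter fun a => lo ≤ ∑ j, a j ∧ ∑ j, a j < hi

theorem mem_Rg {v u : Fin r → ℤ} {lo hi : ℤ} {a : Fin r → ℤ} :
    a ∈ Rg v u lo hi ↔ (∀ j, v j ≤ a j ∧ a j < u j) ∧ lo ≤ ∑ j, a j ∧ ∑ j, a j < hi := by
  unfold Rg
  rw [mem_filter, Fintype.mem_piFinset]
  simp only [mem_Ico]

end

end Pool.Agent.H18.Fat

end

section

/-!
# Module UAll: all but finitely many pairs (dimension, degree)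
-/

namespace Pool.Agent.H21.NX

open Finset Pool.Agent.H18.Ex
open Pool.Agent.H18.Fat

theorem Rg_eq_Sx (s d : ℕ) : Pool.Agent.H18.Ex.Rg d (fun _ : Fin (s + 2) => d) = Sx (Fin (s + 2)) d := by
  ext a
  rw [Pool.Agent.H18.Ex.mem_Rg, mem_Sx]
  constructor
  · exact fun h => h.2
  · intro h
    refine ⟨fun i => ?_, h⟩
    rw [← h]
    exact single_le_sum (fun j _ => Nat.zero_le (a j)) (mem_univ i)

end Pool.Agent.H21.NX

end
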