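import Pool.Agent.H94.LP2.M27
import Pool.Agent.H94.LP2.M30

/-! The parts of this file: H18.Ex.Round, H18.Ex.Sched, H18.Ex.Main, H18.Ex.Norm. -/

section

/-!
# Module Round: any short list of directions is good

The region has dimension `n + 1` (so `n + 2` active coordinates), `N = n + 1`.
-/

namespace Pool.Agent.H18.Ex

open Finset

variable {ι : Type} [Fintype ι] [DecidableEq ι]

theorem sum_count_univ (L : List ι) : ∑ i, L.count i = L.length := by
  induction L with
  | nil => simp
  | cons a L ih =>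
    simp only [List.count_cons, List.length_cons, Finset.sum_add_distrib, ih]
    congr 1
    simp

omit [Fintype ι] in
theorem ew_nil (w : ι → ℕ) : ew [] w = w := by
  funext i
  simp [ew]

omit [Fintype ι] in
theorem ew_cons (a : ι) (L : List ι) (w : ι → ℕ) :
    ew (a :: L) w = ew L (Function.update w a (w a - 1)) := by
  funext i
  unfold ew
  by_cases h : i = a
  · subst h
    rw [Function.update_self, List.count_cons_self]
    omega
  · rw [Function.update_of_ne h, List.count_cons_of_ne (Ne.symm h)]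

theorem eph_not_mem (n M : ℕ) (L : List ι) (i : ι) (h : L.count i = 0) (σ : ℕ) (w φ : ι → ℕ) :
    eph n M L σ w φ i = φ i := by
  induction L generalizing σ w φ with
  | nil => rfl
  | cons a L ih =>
    have ha : a ≠ i := by
      rintro rfl
      rw [List.count_cons_self] at h
      omega
    rw [List.count_cons_of_ne ha] at h
    rw [eph, ih h, Function.update_of_ne (Ne.symm ha)]

theorem eph_mem (n M : ℕ) (L : List ι) (i : ι) (h : 1 ≤ L.count i) (σ : ℕ) (w φ : ι → ℕ) :
    ∃ L₀ L₁ : List ι, L = L₀ ++ L₁ ∧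
      eph n M L σ w φ i = nphi n M (fc (σ - L₀.length) (ew L₀ w) i) := by
  induction L generalizing σ w φ with
  | nil => simp at h
  | cons a L ih =>
    by_cases hL : 1 ≤ L.count i
    · obtain ⟨L₀, L₁, h1, h2⟩ := ih hL (σ - 1) (Function.update w a (w a - 1))
        (Function.update φ a (nphi n M (fc σ w a)))
      refine ⟨a :: L₀, L₁, by rw [h1]; rfl, ?_⟩
      rw [eph, h2, ew_cons, List.length_cons, Nat.sub_sub, Nat.add_comm 1]
    · have h0 : L.count i = 0 := by omega
      have ha : a = i := by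
        by_contra hne
        rw [List.count_cons_of_ne hne] at h
        omega
      subst ha
      refine ⟨[], a :: L, rfl, ?_⟩
      rw [eph, eph_not_mem n M L a h0, Function.update_self, ew_nil]
      rfl

/-- The hypotheses of `round_good` on the region. -/
structure RHyp (n M D' q b : ℕ) (o : ι) (σ : ℕ) (w k : ι → ℕ) : Prop where
  hn : 1 ≤ n
  hM : 1 ≤ M
  hq : 32 * M * (n + 1) ^ 3 ≤ q
  hb1 : D' ≤ b
  hb2 : 2 * (n + 1) ^ 2 * (M * (n + 1) + 2 * ell (n + 1) M + 2) ≤ b
  hb3 : 16 * M ^ 2 * ell n M ^ 2 ≤ b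
  hcard : (univ.filter fun i => 0 < w i).card = n + 2
  ho : 0 < w o
  hwo : ∀ i, w i ≤ w o
  hk : ∀ i, q * k i ≤ w i
  hkσ : ∀ i, q * k i ≤ σ
  hko : k o = 0
  hwb : ∀ i, 0 < w i → 2 * b ≤ w i
  hσb : 2 * b ≤ σ
  hτ : ∀ l, l ≠ o → 0 < w l → σ + b ≤ ∑ i ∈ univ.erase l, w i

section

variable {n M D' q b : ℕ} {o : ι} {σ : ℕ} {w k : ι → ℕ}

theorem RHyp.q32 (h : RHyp n M D' q b o σ w k) : 32 * (n + 1) ≤ q := by
  have h1 : 1 ≤ M := h.hM
  have h2 : (n + 1) ≤ (n + 1) ^ 3 := Nat.le_self_pow (by norm_num) _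
  have h3 := h.hq
  calc 32 * (n + 1) ≤ 32 * M * (n + 1) ^ 3 := by
        have : 32 * 1 * (n + 1) ≤ 32 * M * (n + 1) ^ 3 :=
          Nat.mul_le_mul (Nat.mul_le_mul_left _ h1) h2
        simpa using this
    _ ≤ q := h3

theorem RHyp.bpos (h : RHyp n M D' q b o σ w k) : 4 ≤ b := by
  have h1 := h.hb2
  have h2 : 2 * 1 * 2 ≤ 2 * (n + 1) ^ 2 * (M * (n + 1) + 2 * ell (n + 1) M + 2) := by
    refine Nat.mul_le_mul (Nat.mul_le_mul_left _ (Nat.one_le_pow _ _ (by omega))) (by omega)
  omega

theorem RHyp.act_of_k (h : RHyp n M D' q b o σ w k) {i : ι} (hi : 1 ≤ k i) :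
    i ≠ o ∧ 0 < w i := by
  have h1 := h.q32
  have h2 := h.hk i
  constructor
  · rintro rfl
    rw [h.hko] at hi
    omega
  · have h3 : 32 * (n + 1) * 1 ≤ q * k i := Nat.mul_le_mul h1 hi
    omega

/-- Length of a short list. -/
theorem RHyp.len (h : RHyp n M D' q b o σ w k) (L : List ι) (hL : ∀ i, L.count i ≤ k i) :
    32 * L.length ≤ σ := by
  classical
  have hq := h.q32
  set S : Finset ι := (univ.filter fun i => 0 < w i).erase o with hS
  have hScard : S.card = n + 1 := by
    rw [hS, Finset.card_erase_of_mem (by simp [h.ho]), h.hcard]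
    rfl
  have h1 : L.length = ∑ i ∈ S, L.count i := by
    rw [← sum_count_univ L]
    symm
    refine Finset.sum_subset (Finset.subset_univ _) fun i _ hi => ?_
    by_contra hne
    have hk1 : 1 ≤ k i := le_trans (Nat.one_le_iff_ne_zero.2 hne) (hL i)
    obtain ⟨a1, a2⟩ := h.act_of_k hk1
    exact hi (Finset.mem_erase.2 ⟨a1, by simp [a2]⟩)
  have h2 : q * L.length ≤ (n + 1) * σ := by
    rw [h1, Finset.mul_sum, ← hScard]
    calc ∑ i ∈ S, q * L.count i ≤ ∑ _i ∈ S, σ :=
          Finset.sum_le_sum fun i _ => le_trans (Nat.mul_le_mul_left _ (hL i)) (h.hkσ i)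
      _ = S.card * σ := by rw [Finset.sum_const, smul_eq_mul]
  have h3 : 32 * (n + 1) * L.length ≤ (n + 1) * σ := le_trans (Nat.mul_le_mul_right _ hq) h2
  have h4 : (n + 1) * (32 * L.length) ≤ (n + 1) * σ := by
    calc (n + 1) * (32 * L.length) = 32 * (n + 1) * L.length := by ring
      _ ≤ _ := h3
  exact Nat.le_of_mul_le_mul_left h4 (by omega)

theorem RHyp.cnt (h : RHyp n M D' q b o σ w k) (L : List ι) (hL : ∀ i, L.count i ≤ k i) (i : ι) :
    32 * L.count i ≤ w i := by
  have hq := h.q32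
  calc 32 * L.count i ≤ q * k i := Nat.mul_le_mul (by omega) (hL i)
    _ ≤ w i := h.hk i

theorem RHyp.ewo (h : RHyp n M D' q b o σ w k) (L : List ι) (hL : ∀ i, L.count i ≤ k i) :
    ew L w o = w o := by
  have := hL o
  rw [h.hko] at this
  unfold ew
  omega

theorem RHyp.pos (h : RHyp n M D' q b o σ w k) (L : List ι) (hL : ∀ i, L.count i ≤ k i) (i : ι) :
    0 < ew L w i ↔ 0 < w i := by
  have := h.cnt L hL i
  unfold ew
  omega

theorem RHyp.actcard (h : RHyp n M D' q b o σ w k) (L : List ι) (hL : ∀ i, L.count i ≤ k i) :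
    (univ.filter fun i => 0 < ew L w i).card = n + 2 := by
  rw [← h.hcard]
  congr 1
  ext i
  simp only [Finset.mem_filter, Finset.mem_univ, true_and]
  exact h.pos L hL i

theorem RHyp.wid (h : RHyp n M D' q b o σ w k) (L : List ι) (hL : ∀ i, L.count i ≤ k i) (i : ι)
    (hi : 0 < w i) : b ≤ ew L w i := by
  have h1 := h.cnt L hL i
  have h2 := h.hwb i hi
  unfold ew
  omega

/-- The ratio between two states. -/
theorem RHyp.ratio (h : RHyp n M D' q b o σ w k) (L₁ L₂ : List ι)
    (hL : ∀ i, (L₁ ++ L₂).count i ≤ k i) (i : ι) (hio : i ≠ o) (hi : 0 < w i) :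
    (8 * M - 1) * fc (σ - L₁.length) (ew L₁ w) i ≤
      8 * M * fc (σ - (L₁ ++ L₂).length) (ew (L₁ ++ L₂) w) i := by
  have hq := h.q32
  have hM := h.hM
  have hc : ∀ j, L₁.count j + L₂.count j ≤ k j := fun j => by
    have := hL j
    rwa [List.count_append] at this
  have hL1 : ∀ j, L₁.count j ≤ k j := fun j => le_trans (Nat.le_add_right _ _) (hc j)
  have hlen := h.len L₁ hL1
  set q' := 16 * M * (n + 1) ^ 3 with hq'
  have hq'1 : 16 ≤ q' := by
    have : 16 * 1 * 1 ≤ 16 * M * (n + 1) ^ 3 :=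
      Nat.mul_le_mul (Nat.mul_le_mul_left _ hM) (Nat.one_le_pow _ _ (by omega))
    omega
  have hqq : 2 * q' ≤ q := by
    have := h.hq
    rw [hq']
    calc 2 * (16 * M * (n + 1) ^ 3) = 32 * M * (n + 1) ^ 3 := by ring
      _ ≤ q := this
  have hkw : ∀ j, q' * L₂.count j ≤ ew L₁ w j := by
    intro j
    have h1 : 2 * q' * k j ≤ w j := le_trans (Nat.mul_le_mul_right _ hqq) (h.hk j)
    have h2 : q' * (L₁.count j + L₂.count j) ≤ q' * k j := Nat.mul_le_mul_left _ (hc j)
    have h3 : 1 * L₁.count j ≤ q' * L₁.count j := Nat.mul_le_mul_right _ (by omega)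
    have h4 : 2 * (q' * k j) ≤ w j := by
      calc 2 * (q' * k j) = 2 * q' * k j := by ring
        _ ≤ _ := h1
    rw [Nat.mul_add] at h2
    unfold ew
    omega
  have hks : ∀ j, q' * L₂.count j ≤ σ - L₁.length := by
    intro j
    have h1 : 2 * q' * k j ≤ σ := le_trans (Nat.mul_le_mul_right _ hqq) (h.hkσ j)
    have h2 : q' * L₂.count j ≤ q' * k j :=
      Nat.mul_le_mul_left _ (le_trans (Nat.le_add_left _ _) (hc j))
    have h4 : 2 * (q' * k j) ≤ σ := by
      calc 2 * (q' * k j) = 2 * q' * k j := by ring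
        _ ≤ _ := h1
    omega
  have hko2 : L₂.count o = 0 := by
    have := hc o
    rw [h.hko] at this
    omega
  have key := facet_ratio (n + 1) (by omega) o i (σ - L₁.length) (ew L₁ w)
    (fun j => L₂.count j) q' (by omega) (le_of_eq (h.actcard L₁ hL1)) hio
    ((h.pos L₁ hL1 i).2 hi)
    (by
      rw [h.ewo L₁ hL1]
      exact le_trans (Nat.sub_le _ _) (h.hwo i)) hko2 hkw hks
  have e1 : σ - L₁.length - ∑ j, L₂.count j = σ - (L₁ ++ L₂).length := by
    rw [sum_count_univ, List.length_append, Nat.sub_sub]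
  have e2 : (fun j => ew L₁ w j - L₂.count j) = ew (L₁ ++ L₂) w := by
    funext j
    unfold ew
    rw [List.count_append, Nat.sub_sub]
  rw [e1, e2] at key
  set x := fc (σ - L₁.length) (ew L₁ w) i
  set y := fc (σ - (L₁ ++ L₂).length) (ew (L₁ ++ L₂) w) i
  have hN3 : 0 < 2 * (n + 1) ^ 3 := by positivity
  refine Nat.le_of_mul_le_mul_left ?_ hN3
  have k1 : 2 * (n + 1) ^ 3 * ((8 * M - 1) * x) + 2 * (n + 1) ^ 3 * x = q' * x := by
    have : 8 * M - 1 + 1 = 8 * M := by omega
    calc 2 * (n + 1) ^ 3 * ((8 * M - 1) * x) + 2 * (n + 1) ^ 3 * x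
        = 2 * (n + 1) ^ 3 * ((8 * M - 1 + 1) * x) := by ring
      _ = q' * x := by rw [this, hq']; ring
  have k2 : 2 * (n + 1) ^ 3 * (8 * M * y) = q' * y := by rw [hq']; ring
  rw [k2]
  omega

/-- Facets are large. -/
theorem RHyp.fat (h : RHyp n M D' q b o σ w k) (L : List ι) (hL : ∀ i, L.count i ≤ k i) (l : ι)
    (hlo : l ≠ o) (hl : 0 < w l) :
    Fat n b (σ - L.length) (Function.update (ew L w) l 0) := by
  have hlen := h.len L hL
  refine ⟨?_, ?_, ?_, ?_⟩
  · have : (univ.filter fun i => 0 < Function.update (ew L w) l 0 i) =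
        (univ.filter fun i => 0 < ew L w i).erase l := by
      ext i
      simp only [Finset.mem_filter, Finset.mem_univ, true_and, Finset.mem_erase]
      by_cases hil : i = l
      · subst hil
        simp
      · rw [Function.update_of_ne hil]
        simp [hil]
    rw [this, Finset.card_erase_of_mem, h.actcard L hL]
    · rfl
    · simp only [Finset.mem_filter, Finset.mem_univ, true_and]
      exact (h.pos L hL l).2 hl
  · have := h.hσb
    omega
  · intro i hi
    by_cases hil : i = l
    · subst hil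
      rw [Function.update_self] at hi
      omega
    · rw [Function.update_of_ne hil] at hi ⊢
      exact h.wid L hL i ((h.pos L hL i).1 hi)
  · have h1 := h.hτ l hlo hl
    have h2 : ∑ i, Function.update (ew L w) l 0 i = ∑ i ∈ univ.erase l, ew L w i := by
      rw [← Finset.add_sum_erase univ _ (Finset.mem_univ l), Function.update_self, Nat.zero_add]
      refine Finset.sum_congr rfl fun i hi => ?_
      rw [Function.update_of_ne (Finset.ne_of_mem_erase hi)]
    rw [h2]
    have h3 : ∑ i ∈ univ.erase l, w i =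
        ∑ i ∈ univ.erase l, ew L w i + ∑ i ∈ univ.erase l, L.count i := by
      rw [← Finset.sum_add_distrib]
      refine Finset.sum_congr rfl fun i _ => ?_
      have := h.cnt L hL i
      unfold ew
      omega
    have h4 : ∑ i ∈ univ.erase l, L.count i ≤ L.length := by
      rw [← sum_count_univ L]
      exact Finset.sum_le_sum_of_subset (Finset.erase_subset _ _)
    omega

theorem RHyp.fcb (h : RHyp n M D' q b o σ w k) (L : List ι) (hL : ∀ i, L.count i ≤ k i) (l : ι)
    (hlo : l ≠ o) (hl : 0 < w l) : b + 1 ≤ fc (σ - L.length) (ew L w) l := by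
  obtain ⟨f1, f2, f3, f4⟩ := h.fat L hL l hlo hl
  have hn := h.hn
  have hcard2 : 1 < (univ.filter fun i => 0 < Function.update (ew L w) l 0 i).card := by omega
  obtain ⟨i, hi, j, hj, hij⟩ := Finset.one_lt_card.1 hcard2
  simp only [Finset.mem_filter, Finset.mem_univ, true_and] at hi hj
  exact card_ge _ _ b i j hij (f3 i hi) (f3 j hj) f2 f4

theorem RHyp.fcle (h : RHyp n M D' q b o σ w k) (L : List ι) (hL : ∀ i, L.count i ≤ k i) (l : ι)
    (hl : 0 < w l) :
    fc (σ - L.length) (ew L w) l * b ≤ 2 * (n + 1) ^ 2 * (Rg (σ - L.length) (ew L w)).card := by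
  have hlen := h.len L hL
  have hb := h.bpos
  have hσb := h.hσb
  exact facet_le (n + 1) (by omega) _ _ l b (le_of_eq (h.actcard L hL)) (h.wid L hL l hl)
    (by omega) (by omega)

/-- `4 M * nphi n M f ≤ 4 (M - 1) f + 4 M ell ^ 2`. -/
theorem nphi_le (n M f : ℕ) :
    4 * M * nphi n M f ≤ 4 * (M - 1) * f + 4 * M * ell n M ^ 2 := by
  unfold nphi
  have h1 : M * ((M - 1) * f / M) ≤ (M - 1) * f := Nat.mul_div_le _ _
  calc 4 * M * ((M - 1) * f / M + ell n M ^ 2)
      = 4 * (M * ((M - 1) * f / M)) + 4 * M * ell n M ^ 2 := by ring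
    _ ≤ 4 * ((M - 1) * f) + 4 * M * ell n M ^ 2 := by
        have := Nat.mul_le_mul_left 4 h1
        omega
    _ = _ := by ring

theorem round_arith (n M Φ E f g b F : ℕ)
    (hb2 : 2 * (n + 1) ^ 2 * (M * (n + 1) + 2 * E + 2) ≤ b)
    (hsum : Φ * b ≤ (n + 1) * (2 * (n + 1) ^ 2 * F)) (hf : f * b ≤ 2 * (n + 1) ^ 2 * F)
    (hg : g ≤ f) (hb : 0 < b) : M * Φ + E * (f + g) + f ≤ F := by
  refine Nat.le_of_mul_le_mul_right ?_ hb
  have b1 : E * (f + g) * b ≤ E * (2 * (2 * (n + 1) ^ 2 * F)) := by
    have h1 : (f + g) * b ≤ 2 * (2 * (n + 1) ^ 2 * F) := by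
      calc (f + g) * b ≤ (f + f) * b := Nat.mul_le_mul_right _ (by omega)
        _ = 2 * (f * b) := by ring
        _ ≤ 2 * (2 * (n + 1) ^ 2 * F) := Nat.mul_le_mul_left _ hf
    calc E * (f + g) * b = E * ((f + g) * b) := by ring
      _ ≤ _ := Nat.mul_le_mul_left _ h1
  have b2 : M * Φ * b ≤ M * ((n + 1) * (2 * (n + 1) ^ 2 * F)) := by
    calc M * Φ * b = M * (Φ * b) := by ring
      _ ≤ _ := Nat.mul_le_mul_left _ hsum
  have b3 : (2 * (n + 1) ^ 2 * (M * (n + 1) + 2 * E + 2)) * F ≤ b * F :=
    Nat.mul_le_mul_right _ hb2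
  calc (M * Φ + E * (f + g) + f) * b = M * Φ * b + E * (f + g) * b + f * b := by ring
    _ ≤ M * ((n + 1) * (2 * (n + 1) ^ 2 * F)) + E * (2 * (2 * (n + 1) ^ 2 * F)) +
        2 * (n + 1) ^ 2 * F := Nat.add_le_add (Nat.add_le_add b2 b1) hf
    _ ≤ M * ((n + 1) * (2 * (n + 1) ^ 2 * F)) + E * (2 * (2 * (n + 1) ^ 2 * F)) +
        2 * (2 * (n + 1) ^ 2 * F) := by
        refine Nat.add_le_add_left ?_ _
        rw [Nat.two_mul (2 * (n + 1) ^ 2 * F)]
        exact Nat.le_add_left _ _
    _ = (2 * (n + 1) ^ 2 * (M * (n + 1) + 2 * E + 2)) * F := by ring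
    _ ≤ b * F := b3
    _ = F * b := by ring

/-- The bound for the directions which occur. -/
theorem RHyp.eph_le (h : RHyp n M D' q b o σ w k) (L : List ι) (hL : ∀ i, L.count i ≤ k i)
    (φ : ι → ℕ) (i : ι) (hio : i ≠ o) (hi : 0 < w i) (hc : 1 ≤ L.count i) :
    4 * M * eph n M L σ w φ i ≤ (4 * M - 3) * fc (σ - L.length) (ew L w) i := by
  have hM := h.hM
  obtain ⟨L₀, L₁, h1, h2⟩ := eph_mem n M L i hc σ w φ
  subst h1
  have hr := h.ratio L₀ L₁ hL i hio hi
  have hf := h.fcb (L₀ ++ L₁) hL i hio hi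
  have hb3 := h.hb3
  rw [h2]
  refine le_trans (nphi_le n M _) ?_
  set x := fc (σ - L₀.length) (ew L₀ w) i
  set y := fc (σ - (L₀ ++ L₁).length) (ew (L₀ ++ L₁) w) i
  have he : 16 * M ^ 2 * ell n M ^ 2 ≤ y := by omega
  set e := ell n M ^ 2
  clear_value x y e
  obtain ⟨m, rfl⟩ : ∃ m, M = m + 1 := ⟨M - 1, by omega⟩
  have hr' : (8 * m + 7) * x ≤ 8 * (m + 1) * y := by
    have : 8 * (m + 1) - 1 = 8 * m + 7 := by omega
    rwa [this] at hr
  have e1 : 4 * (m + 1) - 3 = 4 * m + 1 := by omega
  have e2 : m + 1 - 1 = m := by omega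
  rw [e1, e2]
  have hpos : 0 < 8 * m + 7 := by omega
  refine Nat.le_of_mul_le_mul_left ?_ hpos
  have a1 : 4 * m * ((8 * m + 7) * x) ≤ 4 * m * (8 * (m + 1) * y) := Nat.mul_le_mul_left _ hr'
  nlinarith only [hf, hb3, a1]

end

/-- A short list of directions is good, in any order.

Write `R(k') = (σ - ∑ k', w - k')` for `k' ≤ k` and `f_i(k') = fc (R(k')) i`.
(1) For `k' ≤ k'' ≤ k` and active `i ≠ o`: `(8 M - 1) f_i(k') ≤ 8 M f_i(k'')`.  This is `facet_ratio`
at `R(k')` with `k'' - k'` and `q / 2` (or `q' = 16 M N³ ≤ q / 2`): the widths at `R(k')` are at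
least `w i - w i / q ≥ w i / 2` and `σ - ∑ k' ≥ σ - N σ / q ≥ σ / 2`, and `4 N³ / q ≤ 1 / (8 M)`.
(2) At every `R(k')` the widths (active coordinates) and `σ` are at least `b`, and
`∑_{i ≠ l} w i - σ ≥ b` for active `l ≠ o` (this difference never decreases because `k o = 0`).  So
all facets `l ≠ o` are `Fat n D'`, and `f_l ≥ b` by `card_ge` (`n ≥ 1`).
(3) `f_l * b ≤ 2 N² |Rg|` by `facet_le`, so by `hb2`
`(M (n + 1) + 2 ell (n + 1) M + 2) * f_l ≤ |Rg|` for all active `l ≠ o`.
(4) Invariant along the list (with `k' = ` the counts so far, `φ'` the current bounds): for every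
active `i ≠ o` either `k' i = 0` and `φ' i = φ i`, or `φ' i = nphi n M (f_i(k°))` for some
`k° ≤ k'`.  In both cases `4 M φ' i ≤ (4 M - 1) f_i(k')` (first case: `2 M φ i ≤ (2 M - 1) f_i(0)`;
second case: `nphi n M f ≤ (M - 1) / M f + f / (16 M²)`, so `4 M φ' i ≤ (4 M - 3) f_i(k')`), using
(1) and `hb3`.  For `i = o` or `i` inactive, `φ' i = 0`.
(5) So the conditions of `Good` hold: `φ' l + g0 n M * ell n M ≤ f_l` since
`g0 n M * ell n M = M * ell n M ^ 2 ≤ f_l / (16 M)`, and the last one by (3), with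
`g0 n M ≤ f_l` and `∑ φ' ≤ (n + 1) * max f`. -/
theorem round_good (n M D' q b : ℕ) (hn : 1 ≤ n) (hM : 1 ≤ M) (hq : 32 * M * (n + 1) ^ 3 ≤ q)
    (hb1 : D' ≤ b) (hb2 : 2 * (n + 1) ^ 2 * (M * (n + 1) + 2 * ell (n + 1) M + 2) ≤ b)
    (hb3 : 16 * M ^ 2 * ell n M ^ 2 ≤ b)
    (o : ι) (σ : ℕ) (w k : ι → ℕ)
    (hcard : (univ.filter fun i => 0 < w i).card = n + 2) (ho : 0 < w o)
    (hwo : ∀ i, w i ≤ w o) (hk : ∀ i, q * k i ≤ w i) (hkσ : ∀ i, q * k i ≤ σ) (hko : k o = 0)
    (hwb : ∀ i, 0 < w i → 2 * b ≤ w i) (hσb : 2 * b ≤ σ)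
    (hτ : ∀ l, l ≠ o → 0 < w l → σ + b ≤ ∑ i ∈ univ.erase l, w i)
    (φ : ι → ℕ) (hφ : ∀ i, i ≠ o → 0 < w i → 2 * M * φ i ≤ (2 * M - 1) * fc σ w i)
    (hφ0 : ∀ i, i = o ∨ w i = 0 → φ i = 0)
    (L : List ι) (hL : ∀ i, L.count i ≤ k i) :
    Good n M (Fat n D') L σ w φ ∧
    (∀ i, i ≠ o → 0 < w i → 1 ≤ L.count i →
      4 * M * eph n M L σ w φ i ≤ (4 * M - 3) * fc (σ - L.length) (ew L w) i) ∧
    (∀ i, L.count i = 0 → eph n M L σ w φ i = φ i) ∧
    (∀ i, i ≠ o → 0 < w i →
      (8 * M - 1) * fc σ w i ≤ 8 * M * fc (σ - L.length) (ew L w) i) := by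
  have h : RHyp n M D' q b o σ w k :=
    ⟨hn, hM, hq, hb1, hb2, hb3, hcard, ho, hwo, hk, hkσ, hko, hwb, hσb, hτ⟩
  refine ⟨?_, fun i hio hi hc => h.eph_le L hL φ i hio hi hc,
    fun i hi => eph_not_mem n M L i hi σ w φ, fun i hio hi => ?_⟩
  swap
  · have := h.ratio [] L hL i hio hi
    rwa [ew_nil] at this
  -- goodness, by induction on the end of the list
  induction L using List.reverseRecOn with
  | nil => exact trivial
  | append_singleton L l ih =>
    have hL' : ∀ i, L.count i ≤ k i := fun i => by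
      have := hL i
      rw [List.count_append] at this
      omega
    have hl1 : 1 ≤ k l := by
      have := hL l
      rw [List.count_append, List.count_singleton_self] at this
      omega
    obtain ⟨hlo, hl⟩ := h.act_of_k hl1
    rw [Good.append]
    refine ⟨ih hL', ?_⟩
    have hlen := h.len L hL'
    have hb := h.bpos
    obtain ⟨f1, f2, f3, f4⟩ := h.fat L hL' l hlo hl
    have hfl := h.fcb L hL' l hlo hl
    -- all current bounds
    have hall : ∀ i, i ≠ o → 0 < w i →
        4 * M * eph n M L σ w φ i ≤ (4 * M - 1) * fc (σ - L.length) (ew L w) i := by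
      intro i hio hi
      by_cases hc : 1 ≤ L.count i
      · refine le_trans (h.eph_le L hL' φ i hio hi hc) (Nat.mul_le_mul_right _ (by omega))
      · have hc0 : L.count i = 0 := by omega
        rw [eph_not_mem n M L i hc0]
        have h1 := hφ i hio hi
        have h2 := h.ratio [] L (by simpa using hL') i hio hi
        rw [ew_nil] at h2
        simp only [List.nil_append, List.length_nil, Nat.sub_zero] at h2
        set x := fc σ w i
        set y := fc (σ - L.length) (ew L w) i
        set z := φ i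
        clear_value x y z
        obtain ⟨m, rfl⟩ : ∃ m, M = m + 1 := ⟨M - 1, by omega⟩
        have e1 : 8 * (m + 1) - 1 = 8 * m + 7 := by omega
        have e2 : 4 * (m + 1) - 1 = 4 * m + 3 := by omega
        have e3 : 2 * (m + 1) - 1 = 2 * m + 1 := by omega
        rw [e1] at h2
        rw [e3] at h1
        rw [e2]
        have hpos : 0 < 8 * m + 7 := by omega
        refine Nat.le_of_mul_le_mul_left ?_ hpos
        have a1 : (8 * m + 7) * (2 * (m + 1) * z) ≤ (8 * m + 7) * ((2 * m + 1) * x) :=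
          Nat.mul_le_mul_left _ h1
        have a2 : (2 * m + 1) * ((8 * m + 7) * x) ≤ (2 * m + 1) * (8 * (m + 1) * y) :=
          Nat.mul_le_mul_left _ h2
        nlinarith only [a1, a2]
    have hzero : ∀ i, (i = o ∨ w i = 0) → eph n M L σ w φ i = 0 := by
      intro i hi
      have hc0 : L.count i = 0 := by
        by_contra hne
        have hk1 : 1 ≤ k i := le_trans (Nat.one_le_iff_ne_zero.2 hne) (hL' i)
        obtain ⟨a1, a2⟩ := h.act_of_k hk1
        rcases hi with hi | hi
        · exact a1 hi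
        · omega
      rw [eph_not_mem n M L i hc0]
      exact hφ0 i hi
    refine ⟨?_, ?_, ?_, ?_, ?_, trivial⟩
    · omega
    · exact (h.pos L hL' l).2 hl
    · exact ⟨f1, le_trans hb1 f2, fun i hi => le_trans hb1 (f3 i hi), by omega⟩
    · have h1 := hall l hlo hl
      unfold g0
      set x := eph n M L σ w φ l
      set y := fc (σ - L.length) (ew L w) l
      set e := ell n M
      have he : 16 * M ^ 2 * e ^ 2 ≤ y := by omega
      clear_value x y e
      obtain ⟨m, rfl⟩ : ∃ m, M = m + 1 := ⟨M - 1, by omega⟩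
      have e2 : 4 * (m + 1) - 1 = 4 * m + 3 := by omega
      rw [e2] at h1
      have hpos : 0 < 4 * (m + 1) := by omega
      refine Nat.le_of_mul_le_mul_left ?_ hpos
      nlinarith only [hb, hfl, hb3, h1]
    · set F := (Rg (σ - L.length) (ew L w)).card with hF
      have hfb : ∀ i, 0 < w i → fc (σ - L.length) (ew L w) i * b ≤ 2 * (n + 1) ^ 2 * F :=
        fun i hi =>
        h.fcle L hL' i hi
      have hφb : ∀ i, i ≠ o → 0 < w i → eph n M L σ w φ i * b ≤ 2 * (n + 1) ^ 2 * F := by
        intro i hio hi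
        refine le_trans (Nat.mul_le_mul_right _ ?_) (hfb i hi)
        have h1 := hall i hio hi
        have h2 : (4 * M - 1) * fc (σ - L.length) (ew L w) i ≤
            4 * M * fc (σ - L.length) (ew L w) i := Nat.mul_le_mul_right _ (by omega)
        exact Nat.le_of_mul_le_mul_left (le_trans h1 h2) (by omega)
      have hsum : (∑ i, eph n M L σ w φ i) * b ≤ (n + 1) * (2 * (n + 1) ^ 2 * F) := by
        set S : Finset ι := (univ.filter fun i => 0 < w i).erase o with hS
        have hScard : S.card = n + 1 := by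
          rw [hS, Finset.card_erase_of_mem (by simp [h.ho]), h.hcard]
          rfl
        have h1 : ∑ i, eph n M L σ w φ i = ∑ i ∈ S, eph n M L σ w φ i := by
          symm
          refine Finset.sum_subset (Finset.subset_univ _) fun i _ hi => ?_
          refine hzero i ?_
          by_contra hne
          push Not at hne
          exact hi (Finset.mem_erase.2 ⟨hne.1, by
            simp only [Finset.mem_filter, Finset.mem_univ, true_and]
            exact Nat.pos_of_ne_zero hne.2⟩)
        rw [h1, Finset.sum_mul]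
        calc ∑ i ∈ S, eph n M L σ w φ i * b ≤ ∑ _i ∈ S, 2 * (n + 1) ^ 2 * F := by
              refine Finset.sum_le_sum fun i hi => ?_
              rw [hS, Finset.mem_erase, Finset.mem_filter] at hi
              exact hφb i hi.1 hi.2.2
          _ = (n + 1) * (2 * (n + 1) ^ 2 * F) := by
              rw [Finset.sum_const, smul_eq_mul, hScard]
      have hg0 : g0 n M ≤ fc (σ - L.length) (ew L w) l := by
        unfold g0
        have e1 : M * ell n M ≤ 16 * M ^ 2 * ell n M ^ 2 := by
          have a1 : M ≤ M ^ 2 := Nat.le_self_pow (by norm_num) _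
          have a2 : ell n M ≤ ell n M ^ 2 := Nat.le_self_pow (by norm_num) _
          have a3 : M * ell n M ≤ M ^ 2 * ell n M ^ 2 := Nat.mul_le_mul a1 a2
          calc M * ell n M ≤ M ^ 2 * ell n M ^ 2 := a3
            _ ≤ 16 * (M ^ 2 * ell n M ^ 2) := by omega
            _ = _ := by ring
        omega
      exact round_arith n M _ _ _ _ b F hb2 hsum (hfb l hl) hg0 (by omega)

end Pool.Agent.H18.Ex

end

section

/-!
# Module Sched: existence of the schedule
-/

namespace Pool.Agent.H18.Ex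

open Finset

/-- The active directions different from `o`. -/
noncomputable def dirs {ι : Type} [Fintype ι] [DecidableEq ι] (o : ι) (w : ι → ℕ) : List ι :=
  (univ.filter fun i => 0 < w i ∧ i ≠ o).toList

section

variable {ι : Type} [Fintype ι] [DecidableEq ι]

private theorem SchedX_mem_dirs {o : ι} {w : ι → ℕ} {i : ι} :
    i ∈ dirs o w ↔ 0 < w i ∧ i ≠ o := by
  unfold dirs
  rw [mem_toList, mem_filter]
  simp

private theorem SchedX_nodup (o : ι) (w : ι → ℕ) : (dirs o w).Nodup := by
  unfold dirs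
  exact nodup_toList _

omit [Fintype ι] in
private theorem SchedX_count_flat (l : List ι) (hl : l.Nodup) (k : ι → ℕ) (i : ι) :
    (l.flatMap fun x => List.replicate (k x) x).count i = if i ∈ l then k i else 0 := by
  induction l with
  | nil => simp
  | cons a l ih =>
    rw [List.flatMap_cons, List.count_append, ih (List.nodup_cons.1 hl).2, List.count_replicate]
    by_cases h : a = i
    · subst h
      simp [(List.nodup_cons.1 hl).1]
    · have h' : i ≠ a := fun e => h e.symm
      simp [h, h']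

private theorem SchedX_length (L : List ι) : L.length = ∑ i, L.count i := by
  have h := Multiset.sum_count_eq_card (s := (univ : Finset ι)) (m := (L : Multiset ι))
    (fun a _ => mem_univ a)
  simpa using h.symm

/-- Admissible states. -/
private structure SchedX_St (b : ℕ) (o : ι) (w : ι → ℕ) (s : ℕ) (v : ι → ℕ) : Prop where
  act : ∀ i, 0 < v i ↔ 0 < w i
  hvo : ∀ i, v i ≤ v o
  hvb : ∀ i, 0 < w i → 2 * b ≤ v i
  hsb : 2 * b ≤ s
  hτ : ∀ l, l ≠ o → 0 < w l → s + b ≤ ∑ i ∈ univ.erase l, v i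

/-- The bounds of the traces. -/
private structure SchedX_Ph (M : ℕ) (o : ι) (w : ι → ℕ) (s : ℕ) (v : ι → ℕ) (φ : ι → ℕ) :
    Prop where
  h1 : ∀ i, i ≠ o → 0 < w i → 2 * M * φ i ≤ (2 * M - 1) * fc s v i
  h2 : ∀ i, i = o ∨ w i = 0 → φ i = 0

/-- `round_good` for an admissible state. -/
private theorem SchedX_round {n M D' q b : ℕ} (hn : 1 ≤ n) (hM : 1 ≤ M)
    (hq : 32 * M * (n + 1) ^ 3 ≤ q)
    (hb1 : D' ≤ b) (hb2 : 2 * (n + 1) ^ 2 * (M * (n + 1) + 2 * ell (n + 1) M + 2) ≤ b)
    (hb3 : 16 * M ^ 2 * ell n M ^ 2 ≤ b) {o : ι} {w : ι → ℕ}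
    (hcard : (univ.filter fun i => 0 < w i).card = n + 2) (ho : 0 < w o)
    {s : ℕ} {v : ι → ℕ} (hst : SchedX_St b o w s v) {φ : ι → ℕ} (hφ : SchedX_Ph M o w s v φ)
    (k : ι → ℕ) (hk : ∀ i, q * k i ≤ v i) (hkσ : ∀ i, q * k i ≤ s) (hko : k o = 0)
    (L : List ι) (hL : ∀ i, L.count i ≤ k i) :
    Good n M (Fat n D') L s v φ ∧
    (∀ i, i ≠ o → 0 < w i → 1 ≤ L.count i →
      4 * M * eph n M L s v φ i ≤ (4 * M - 3) * fc (s - L.length) (ew L v) i) ∧
    (∀ i, L.count i = 0 → eph n M L s v φ i = φ i) ∧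
    (∀ i, i ≠ o → 0 < w i →
      (8 * M - 1) * fc s v i ≤ 8 * M * fc (s - L.length) (ew L v) i) := by
  have hcard' : (univ.filter fun i => 0 < v i).card = n + 2 := by
    rw [← hcard]
    congr 1
    ext i
    simp only [mem_filter, mem_univ, true_and]
    exact hst.act i
  have h := round_good n M D' q b hn hM hq hb1 hb2 hb3 o s v k hcard' ((hst.act o).2 ho) hst.hvo
    hk hkσ hko (fun i hi => hst.hvb i ((hst.act i).1 hi)) hst.hsb
    (fun l hl hvl => hst.hτ l hl ((hst.act l).1 hvl)) φ
    (fun i hi hvi => hφ.h1 i hi ((hst.act i).1 hvi))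
    (fun i hi => hφ.h2 i (hi.imp id (fun h0 => by
      by_contra hne
      have := (hst.act i).2 (Nat.pos_of_ne_zero hne)
      omega))) L hL
  refine ⟨h.1, fun i hi hwi hc => h.2.1 i hi ((hst.act i).2 hwi) hc, h.2.2.1,
    fun i hi hwi => h.2.2.2 i hi ((hst.act i).2 hwi)⟩

omit [Fintype ι] in
private theorem SchedX_rk_le (q : ℕ) (o : ι) (s : ℕ) (v : ι → ℕ) (i : ι) :
    q * rk q o s v i ≤ v i ∧ q * rk q o s v i ≤ s ∧ rk q o s v i ≤ v i := by
  unfold rk
  split_ifs with h
  · simp
  · have h1 : q * (min (v i) s / q) ≤ min (v i) s := Nat.mul_div_le _ _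
    have h2 : min (v i) s / q ≤ min (v i) s := Nat.div_le_self _ _
    exact ⟨h1.trans (min_le_left _ _), h1.trans (min_le_right _ _), h2.trans (min_le_left _ _)⟩

private theorem SchedX_rounds (n M D' q b B : ℕ) (hn : 1 ≤ n) (hM : 1 ≤ M)
    (hq : 32 * M * (n + 1) ^ 3 ≤ q) (hqB : q ≤ B) (hB : 1 ≤ B) (hq0 : 0 < q)
    (hbB : 2 * b ≤ B) (hb1 : D' ≤ b)
    (hb2 : 2 * (n + 1) ^ 2 * (M * (n + 1) + 2 * ell (n + 1) M + 2) ≤ b)
    (hb3 : 16 * M ^ 2 * ell n M ^ 2 ≤ b) (o : ι) (w : ι → ℕ)
    (hcard : (univ.filter fun i => 0 < w i).card = n + 2) (ho : 0 < w o)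
    (hwo : ∀ i, w i ≤ w o) (s : ℕ) (w' : ι → ℕ) (hw' : ∀ i, w' i ≤ w i) (hw'o : w' o = w o)
    (hτ : ∀ l, l ≠ o → 0 < w l → s + b ≤ ∑ i ∈ univ.erase l, w' i) (φ : ι → ℕ)
    (hφ : SchedX_Ph M o w s w' φ) (T : ℕ)
    (hT : ∀ t ≤ T, B ≤ ((rnd q o)^[t] (s, w')).1 ∧
      ∀ i, 0 < w i → B ≤ ((rnd q o)^[t] (s, w')).2 i) :
    ∀ t ≤ T, ∃ L : List ι, (∀ i ∈ L, i ∈ dirs o w) ∧ Good n M (Fat n D') L s w' φ ∧
      s - L.length = ((rnd q o)^[t] (s, w')).1 ∧ ew L w' = ((rnd q o)^[t] (s, w')).2 ∧
      SchedX_Ph M o w ((rnd q o)^[t] (s, w')).1 ((rnd q o)^[t] (s, w')).2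
        (eph n M L s w' φ) ∧
      SchedX_St b o w ((rnd q o)^[t] (s, w')).1 ((rnd q o)^[t] (s, w')).2 := by
  intro t
  induction t with
  | zero =>
    intro ht
    have h0 := hT 0 ht
    simp only [Function.iterate_zero, id_eq] at h0 ⊢
    refine ⟨[], by simp, trivial, by simp, ?_, hφ, ?_, ?_, ?_, ?_, hτ⟩
    · funext i
      simp [ew]
    · intro i
      constructor
      · intro h
        exact h.trans_le (hw' i)
      · intro h
        have := h0.2 i h
        omega
    · intro i
      rw [hw'o]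
      exact (hw' i).trans (hwo i)
    · intro i hi
      exact hbB.trans (h0.2 i hi)
    · exact hbB.trans h0.1
  | succ t ih =>
    intro ht
    obtain ⟨L, hLd, hLg, hLl, hLe, hph, hst⟩ := ih (by omega)
    have ht1 := hT (t + 1) ht
    have ht0 := hT t (by omega)
    rw [Function.iterate_succ_apply'] at ht1 ⊢
    set p := (rnd q o)^[t] (s, w') with hp
    set k := rk q o p.1 p.2 with hk
    have hkp : ∀ i, q * k i ≤ p.2 i ∧ q * k i ≤ p.1 ∧ k i ≤ p.2 i := fun i =>
      SchedX_rk_le q o p.1 p.2 i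
    have hko : k o = 0 := by
      rw [hk]
      unfold rk
      rw [if_pos rfl]
    have hr1 : (rnd q o p).1 = p.1 - ∑ i, k i := rfl
    have hr2 : (rnd q o p).2 = fun i => p.2 i - k i := rfl
    set R : List ι := (dirs o w).flatMap fun x => List.replicate (k x) x with hR
    have hRc : ∀ i, R.count i = k i := by
      intro i
      rw [hR, SchedX_count_flat _ (SchedX_nodup o w)]
      split_ifs with h
      · rfl
      · rw [SchedX_mem_dirs] at h
        by_cases hio : i = o
        · rw [hio, hko]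
        · have h3 : w i = 0 := by
            by_contra hne
            exact h ⟨Nat.pos_of_ne_zero hne, hio⟩
          have h4 : p.2 i = 0 := by
            by_contra hne
            have := (hst.act i).1 (Nat.pos_of_ne_zero hne)
            omega
          have h5 := (hkp i).2.2
          omega
    have hRd : ∀ i ∈ R, i ∈ dirs o w := by
      intro i hi
      rw [hR, List.mem_flatMap] at hi
      obtain ⟨x, hx, hix⟩ := hi
      rw [List.mem_replicate] at hix
      rw [hix.2]
      exact hx
    have hRl : R.length = ∑ i, k i := by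
      rw [SchedX_length]
      exact sum_congr rfl fun i _ => hRc i
    have hrd := SchedX_round hn hM hq hb1 hb2 hb3 hcard ho hst hph k (fun i => (hkp i).1)
      (fun i => (hkp i).2.1) hko R (fun i => (hRc i).le)
    have hew : ew R p.2 = (rnd q o p).2 := by
      rw [hr2]
      funext i
      unfold ew
      rw [hRc]
    have hsl : p.1 - R.length = (rnd q o p).1 := by rw [hr1, hRl]
    refine ⟨L ++ R, ?_, ?_, ?_, ?_, ?_, ?_⟩
    · intro i hi
      rcases List.mem_append.1 hi with h | h
      · exact hLd i h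
      · exact hRd i h
    · rw [Good.append]
      refine ⟨hLg, ?_⟩
      rw [hLl, hLe]
      exact hrd.1
    · rw [List.length_append, ← Nat.sub_sub, hLl, hsl]
    · rw [ew_append, hLe, hew]
    · rw [eph_append, hLl, hLe]
      constructor
      · intro i hio hwi
        have hk1 : 1 ≤ k i := by
          rw [hk]
          unfold rk
          rw [if_neg hio]
          rw [Nat.le_div_iff_mul_le hq0, one_mul]
          exact le_min (hqB.trans (ht0.2 i hwi)) (hqB.trans ht0.1)
        have h1 := hrd.2.1 i hio hwi (by rw [hRc]; exact hk1)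
        rw [hsl, hew] at h1
        have h2 : (4 * M - 3) * fc (rnd q o p).1 (rnd q o p).2 i ≤
            2 * ((2 * M - 1) * fc (rnd q o p).1 (rnd q o p).2 i) := by
          rw [← mul_assoc]
          apply Nat.mul_le_mul_right
          omega
        have h3 : 2 * (2 * M * eph n M R p.1 p.2 (eph n M L s w' φ) i) =
            4 * M * eph n M R p.1 p.2 (eph n M L s w' φ) i := by ring
        omega
      · intro i hi
        have hki : R.count i = 0 := by
          rw [hRc]
          rcases hi with hi | hi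
          · rw [hi, hko]
          · have h4 : p.2 i = 0 := by
              by_contra hne
              have := (hst.act i).1 (Nat.pos_of_ne_zero hne)
              omega
            have h5 := (hkp i).2.2
            omega
        rw [hrd.2.2.1 i hki]
        exact hph.h2 i hi
    · have hpos : ∑ i, k i ≤ p.1 := by
        have h1 := ht1.1
        rw [hr1] at h1
        omega
      refine ⟨?_, ?_, ?_, ?_, ?_⟩
      · intro i
        constructor
        · intro h
          rw [hr2] at h
          apply (hst.act i).1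
          simp only at h
          omega
        · intro h
          have := ht1.2 i h
          omega
      · intro i
        rw [hr2]
        simp only
        rw [hko]
        have := hst.hvo i
        omega
      · intro i hi
        exact hbB.trans (ht1.2 i hi)
      · exact hbB.trans ht1.1
      · intro l hl hwl
        have h1 := hst.hτ l hl hwl
        rw [hr1, hr2]
        simp only
        have h2 : ∑ i ∈ univ.erase l, (p.2 i - k i) + ∑ i ∈ univ.erase l, k i =
            ∑ i ∈ univ.erase l, p.2 i := by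
          rw [← sum_add_distrib]
          apply sum_congr rfl
          intro i _
          have := (hkp i).2.2
          omega
        have h3 : ∑ i ∈ univ.erase l, k i ≤ ∑ i, k i :=
          sum_le_sum_of_subset (subset_univ _)
        omega

end

/-- `32 M (n+1)³`. -/
def cq (n M : ℕ) : ℕ := 32 * M * (n + 1) ^ 3

/-- Minimal width along the way. -/
def cb (n M D' C : ℕ) : ℕ := D' + 2 * (n + 1) ^ 2 * (M * (n + 1) + 2 * ell (n + 1) M + 2) +
    16 * M ^ 2 * ell n M ^ 2 + C

/-- Minimal width at the ends of the rounds. -/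
def cB (n M D' C : ℕ) : ℕ := 2 * cb n M D' C + cq n M * (M + 1) + 1

/-- The required width of the schedule. -/
def cD (n M D' C : ℕ) : ℕ :=
  cD0 n M (cq n M) C (cB n M D' C) + 2 * cB n M D' C + 2 * M + 2

/-- The schedule.

`q = 32 M (n+1)³`, `b = D' + 2 (n+1)² (M (n+1) + 2 ell (n+1) M + 2) + 16 M² (ell n M)² + C`,
`B = 2 b + 2 q (M + 1) + ...`, `D` from `rounds_exist` and `D ≥ 2 B + 2 M + ...`.
For `Nrm (n+1) D o σ w` and active `l ≠ o`:
`2 (∑_{i ≠ l} w i - σ) ≥ (w o - w l) + ∑_{i ≠ o, l} w i ≥ n D ≥ D`, which gives `hτ` of `round_good` with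
`b ≤ D / 2` (and the difference does not decrease along the way).
(a) `C ≤ fc σ w ls`: `card_ge` for the facet.
(b), (c): `round_good` at `(σ, w)` with `k = (M + 1)` at `ls`, `0` elsewhere, `φ = 0`.
(d): let `T` be given by `rounds_exist` for `σ' = σ - j`, `w' = update w ls (w ls - j)`.
`L` = the concatenation of the rounds `0, …, T - 1`, the `t`-th round being
`(dirs o w).flatMap fun i => replicate (rk … i) i`; by induction on the number of rounds,
using `Good.append`, `eph_append`, `ew_append` and `round_good` for each round: all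
`rk … i ≥ 1` for `i ∈ dirs o w`, so after every round `4 M eph i ≤ (4 M - 3) fc i`, which implies
`2 M eph i ≤ (2 M - 1) fc i`.  Finally `clean M (dirs o w)` is one more (short) round with
`k i = M + 1` (`q * (M + 1) ≤ B`). -/
theorem schedule (n M D' C : ℕ) (hn : 1 ≤ n) (hM : 1 ≤ M) (hC : 1 ≤ C) :
    ∀ (ι : Type) [Fintype ι] [DecidableEq ι] (o ls : ι) (σ : ℕ) (w : ι → ℕ),
      Nrm (n + 1) (cD n M D' C) o σ w → ls ≠ o → 0 < w ls →
      (∀ i, i ≠ o → 0 < w i → w ls ≤ w i) →
      C ≤ fc σ w ls ∧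
      Good n M (Fat n D') (List.replicate (M + 1) ls) σ w (fun _ => 0) ∧
      (∀ j, 1 ≤ j → j ≤ M + 1 → 4 * M * eph n M (List.replicate j ls) σ w (fun _ => 0) ls ≤
        (4 * M - 3) * fc (σ - j) (Function.update w ls (w ls - j)) ls) ∧
      (∀ j, j ≤ M + 1 → (8 * M - 1) * fc σ w ls ≤
        8 * M * fc (σ - j) (Function.update w ls (w ls - j)) ls) ∧
      (∀ j, j ≤ M → ∀ φ : ι → ℕ, (∀ i, i ≠ ls → φ i = 0) →
        2 * M * φ ls ≤ (2 * M - 1) * fc (σ - j) (Function.update w ls (w ls - j)) ls →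
        ∃ L : List ι, (∀ i ∈ L, i ∈ dirs o w) ∧
          Good n M (Fat n D') (L ++ clean M (dirs o w)) (σ - j)
            (Function.update w ls (w ls - j)) φ ∧
          C * (Rg (σ - j - L.length) (ew L (Function.update w ls (w ls - j)))).card ≤
            fc σ w ls ∧
          ∑ i, eph n M L (σ - j) (Function.update w ls (w ls - j)) φ i ≤
            (n + 1) * (Rg (σ - j - L.length) (ew L (Function.update w ls (w ls - j)))).card) := by
  set q : ℕ := 32 * M * (n + 1) ^ 3 with hqdef
  set b : ℕ := D' + 2 * (n + 1) ^ 2 * (M * (n + 1) + 2 * ell (n + 1) M + 2) +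
    16 * M ^ 2 * ell n M ^ 2 + C with hbdef
  set B : ℕ := 2 * b + q * (M + 1) + 1 with hBdef
  have hq0 : 0 < q := by positivity
  have hqN : 2 * (n + 1) ≤ q := by
    have h1 : 1 ≤ (n + 1) ^ 2 := Nat.one_le_pow _ _ (by omega)
    calc 2 * (n + 1) = 2 * (n + 1) * 1 := by ring
      _ ≤ 2 * (n + 1) * (16 * M * (n + 1) ^ 2) := by
        apply Nat.mul_le_mul_left
        nlinarith only [hM, h1]
      _ = q := by rw [hqdef]; ring
  have hb1 : D' ≤ b := by omega
  have hb2 : 2 * (n + 1) ^ 2 * (M * (n + 1) + 2 * ell (n + 1) M + 2) ≤ b := by omega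
  have hb3 : 16 * M ^ 2 * ell n M ^ 2 ≤ b := by omega
  have hbC : C ≤ b := by omega
  have hD₀ := rounds_exist n M q C B hn hqN hC
  intro ι _ _ o ls σ w hN hlso hls hthin
  have hcD : cD n M D' C = cD0 n M q C B + 2 * B + 2 * M + 2 := rfl
  rw [hcD] at hN
  set D₀ := cD0 n M q C B with hD₀def
  have hNrm0 : Nrm (n + 1) D₀ o σ w :=
    ⟨hN.hcard, hN.ho, hN.hwo, hN.hwσ, hN.hσ, fun i hi => by have := hN.hD i hi; omega⟩
  have hcard : (univ.filter fun i => 0 < w i).card = n + 2 := hN.hcard
  have hwoD := hN.hD o hN.ho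
  have hσD := hwoD.trans (hN.hwσ o)
  have hlsD := hN.hD ls hls
  have hqM : q * (M + 1) ≤ B := by omega
  have hthird : ∀ l, ∃ i, 0 < w i ∧ i ≠ o ∧ i ≠ l := by
    intro l
    by_contra hcon
    push Not at hcon
    have h3 : (univ.filter fun i => 0 < w i) ⊆ {o, l} := by
      intro i hi
      rw [mem_filter] at hi
      rw [mem_insert, mem_singleton]
      by_cases h : i = o
      · exact Or.inl h
      · exact Or.inr (hcon i hi.2 h)
    have h4 := card_le_card h3
    have h5 := card_le_two (a := o) (b := l)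
    omega
  have hτ : ∀ l, l ≠ o → 0 < w l → σ + b ≤ ∑ i ∈ univ.erase l, w i := by
    intro l hl hwl
    have h1 : w l + ∑ i ∈ univ.erase l, w i = ∑ i, w i := add_sum_erase _ _ (mem_univ l)
    have h2 := hN.hσ
    obtain ⟨i, hi, hio, hil⟩ := hthird l
    have h6 : w o + w i ≤ ∑ i ∈ univ.erase l, w i := by
      rw [← sum_pair (Ne.symm hio)]
      apply sum_le_sum_of_subset
      intro x hx
      rw [mem_insert, mem_singleton] at hx
      rw [mem_erase]
      refine ⟨?_, mem_univ _⟩
      rcases hx with hx | hx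
      · rw [hx]
        exact hl.symm
      · rw [hx]
        exact hil
    have h7 := hN.hD i hi
    have h8 := hN.hwo l
    omega
  have hst0 : SchedX_St b o w σ w :=
    ⟨fun _ => Iff.rfl, hN.hwo, fun i hi => by have := hN.hD i hi; omega, by omega, hτ⟩
  have hph0 : SchedX_Ph M o w σ w (fun _ => 0) :=
    ⟨fun i _ _ => by simp, fun i _ => rfl⟩
  have hrep : ∀ j, j ≤ M + 1 → _ := fun j hj =>
    SchedX_round (D' := D') (q := q) hn hM le_rfl hb1 hb2 hb3 hcard hN.ho hst0 hph0
      (fun i => if i = ls then M + 1 else 0)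
      (fun i => by
        split_ifs with h
        · rw [h]; omega
        · simp)
      (fun i => by
        split_ifs with h
        · omega
        · simp) (if_neg (Ne.symm hlso)) (List.replicate j ls)
      (fun i => by
        rw [List.count_replicate]
        by_cases h : i = ls
        · simp [h, hj]
        · have h' : ls ≠ i := fun e => h e.symm
          simp [h, h'])
  have hewr : ∀ j, ew (List.replicate j ls) w = Function.update w ls (w ls - j) := by
    intro j
    funext i
    unfold ew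
    rw [List.count_replicate]
    by_cases h : i = ls
    · subst h
      simp
    · have h' : ls ≠ i := fun e => h e.symm
      simp [h, h']
  refine ⟨?_, (hrep (M + 1) le_rfl).1, ?_, ?_, ?_⟩
  · obtain ⟨i, hi, hio, hil⟩ := hthird ls
    have h1 : Function.update w ls 0 o = w o := Function.update_of_ne hlso.symm _ _
    have h2 : Function.update w ls 0 i = w i := Function.update_of_ne hil _ _
    have h3 : ∑ x, Function.update w ls 0 x = ∑ x ∈ univ.erase ls, w x := by
      rw [← add_sum_erase univ _ (mem_univ ls), Function.update_self, zero_add]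
      apply sum_congr rfl
      intro x hx
      exact Function.update_of_ne (ne_of_mem_erase hx) _ _
    have h4 := card_ge σ (Function.update w ls 0) b o i hio.symm (by rw [h1]; omega)
      (by rw [h2]; have := hN.hD i hi; omega) (by omega)
      (by rw [h3]; exact hτ ls hlso hls)
    unfold fc
    omega
  · intro j hj1 hj2
    have h1 := (hrep j hj2).2.1 ls hlso hls (by
      rw [List.count_replicate_self]; exact hj1)
    rwa [List.length_replicate, hewr] at h1
  · intro j hj
    have h1 := (hrep j hj).2.2.2 ls hlso hls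
    rwa [List.length_replicate, hewr] at h1
  · intro j hj φ hφ0 hφ1
    set s := σ - j with hs
    set w' := Function.update w ls (w ls - j) with hw'
    have hw'le : ∀ i, w' i ≤ w i := by
      intro i
      rw [hw']
      by_cases h : i = ls
      · rw [h, Function.update_self]
        omega
      · rw [Function.update_of_ne h]
    have hw'ge : ∀ i, w i ≤ w' i + (if i = ls then j else 0) := by
      intro i
      rw [hw']
      by_cases h : i = ls
      · rw [h, Function.update_self, if_pos rfl]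
        omega
      · rw [Function.update_of_ne h]
        omega
    have hw'o : w' o = w o := Function.update_of_ne hlso.symm _ _
    have hτ' : ∀ l, l ≠ o → 0 < w l → s + b ≤ ∑ i ∈ univ.erase l, w' i := by
      intro l hl hwl
      have h1 := hτ l hl hwl
      have h2 : ∑ i ∈ univ.erase l, w i ≤ ∑ i ∈ univ.erase l, w' i + j := by
        calc ∑ i ∈ univ.erase l, w i
            ≤ ∑ i ∈ univ.erase l, (w' i + (if i = ls then j else 0)) :=
              sum_le_sum fun i _ => hw'ge i
          _ = ∑ i ∈ univ.erase l, w' i + ∑ i ∈ univ.erase l, (if i = ls then j else 0) :=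
              sum_add_distrib
          _ ≤ ∑ i ∈ univ.erase l, w' i + j := by
            apply Nat.add_le_add_left
            rw [sum_ite_eq']
            split_ifs <;> omega
      omega
    have hph' : SchedX_Ph M o w s w' φ := by
      constructor
      · intro i hio hwi
        by_cases h : i = ls
        · rw [h]
          exact hφ1
        · rw [hφ0 i h]
          simp
      · intro i hi
        apply hφ0
        rintro rfl
        rcases hi with hi | hi
        · exact hlso hi
        · omega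
    obtain ⟨T, hT1, hT2⟩ := hD₀ ι o ls σ w hNrm0 hlso hls hthin s w' (by omega) (by omega)
      (fun i => by
        have := hw'ge i
        split_ifs at this <;> omega) hw'le
    obtain ⟨L, hLd, hLg, hLl, hLe, hph, hst⟩ := SchedX_rounds n M D' q b B hn hM le_rfl
      (by nlinarith only [hBdef]) (by omega) hq0 (by omega) hb1 hb2 hb3 o w hcard hN.ho hN.hwo s w' hw'le
      hw'o hτ' φ hph' T hT2 T le_rfl
    have hpT := hT2 T le_rfl
    set p := (rnd q o)^[T] (s, w') with hp
    have hcl := SchedX_round (q := q) hn hM le_rfl hb1 hb2 hb3 hcard hN.ho hst hph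
      (fun i => if i ∈ dirs o w then M + 1 else 0)
      (fun i => by
        split_ifs with h
        · rw [SchedX_mem_dirs] at h
          exact hqM.trans (hpT.2 i h.1)
        · simp)
      (fun i => by
        split_ifs with h
        · exact hqM.trans hpT.1
        · simp)
      (if_neg (by rw [SchedX_mem_dirs]; simp)) (clean M (dirs o w))
      (fun i => (SchedX_count_flat (dirs o w) (SchedX_nodup o w) (fun _ => M + 1) i).le)
    refine ⟨L, hLd, ?_, ?_, ?_⟩
    · rw [Good.append]
      refine ⟨hLg, ?_⟩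
      rw [hLl, hLe]
      exact hcl.1
    · rw [hLl, hLe]
      exact hT1
    · rw [hLl, hLe]
      have h1 : ∑ i, eph n M L s w' φ i =
          ∑ i ∈ (univ.filter fun i => 0 < w i).erase o, eph n M L s w' φ i := by
        symm
        apply sum_subset (subset_univ _)
        intro i _ hi
        apply hph.h2
        rw [mem_erase, mem_filter] at hi
        by_cases h : i = o
        · exact Or.inl h
        · right
          by_contra hne
          exact hi ⟨h, mem_univ _, Nat.pos_of_ne_zero hne⟩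
      have h2 : ((univ.filter fun i => 0 < w i).erase o).card = n + 1 := by
        rw [card_erase_of_mem (by rw [mem_filter]; exact ⟨mem_univ _, hN.ho⟩), hcard]
        rfl
      rw [h1, ← h2]
      rw [← smul_eq_mul]
      apply sum_le_card_nsmul
      intro i hi
      rw [mem_erase, mem_filter] at hi
      have h3 := hph.h1 i hi.1 hi.2.2
      have h4 := fc_le p.1 p.2 i
      have h5 : 2 * M * eph n M L s w' φ i ≤ 2 * M * fc p.1 p.2 i :=
        h3.trans (Nat.mul_le_mul_right _ (by omega))
      exact (Nat.le_of_mul_le_mul_left h5 (by omega)).trans h4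

end Pool.Agent.H18.Ex

end

section

/-!
# Module Main: the induction step for normalised regions
-/

namespace Pool.Agent.H18.Ex

open Finset

/-- Prefix of a good list of equal directions. -/
theorem Good.replicate_le {ι : Type} [Fintype ι] [DecidableEq ι] {n M : ℕ}
    {X : ℕ → (ι → ℕ) → Prop} {l : ι} {a b : ℕ} (hab : a ≤ b) {σ : ℕ} {w φ : ι → ℕ}
    (h : Good n M X (List.replicate b l) σ w φ) : Good n M X (List.replicate a l) σ w φ := by
  obtain ⟨c, rfl⟩ := Nat.exists_eq_add_of_le hab
  rw [List.replicate_add, Good.append] at h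
  exact h.1

theorem ew_replicate {ι : Type} [DecidableEq ι] (j : ℕ) (l : ι) (w : ι → ℕ) :
    ew (List.replicate j l) w = Function.update w l (w l - j) := by
  funext i
  unfold ew
  rw [List.count_replicate]
  by_cases h : l = i
  · subst h
    simp
  · rw [if_neg (by simpa using h), Function.update_of_ne (Ne.symm h)]
    rfl

section

variable {ι : Type} [Fintype ι] [DecidableEq ι]

/-- The region after `j` peels in direction `l`. -/
def RR (σ : ℕ) (w : ι → ℕ) (l : ι) (j : ℕ) : Finset (ι → ℕ) :=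
  Rg (σ - j) (Function.update w l (w l - j))

/-- Its facet in direction `l`. -/
def ff (σ : ℕ) (w : ι → ℕ) (l : ι) (j : ℕ) : ℕ :=
  fc (σ - j) (Function.update w l (w l - j)) l

theorem RR_zero (σ : ℕ) (w : ι → ℕ) (l : ι) : RR σ w l 0 = Rg σ w := by
  unfold RR
  rw [Nat.sub_zero, Nat.sub_zero, Function.update_eq_self]

theorem update_step (w : ι → ℕ) (l : ι) (j : ℕ) :
    Function.update (Function.update w l (w l - j)) l
      (Function.update w l (w l - j) l - 1) = Function.update w l (w l - (j + 1)) := by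
  rw [Function.update_idem, Function.update_self, Nat.sub_sub]

end

/-- The constant of the induction step. -/
def cC (n M : ℕ) : ℕ :=
  2 * (1 + ell (n + 1) M * M) * (ell (n + 1) M + 1) + 2 * ell n M * (ell (n + 1) M + 1) +
    2 * M * (ell (n + 1) M + M * (n + 1)) + 1

/-- The induction step for normalised regions. -/
theorem exa_nrm (n M : ℕ) (hn : 1 ≤ n) (hM : 1 ≤ M) (D' : ℕ)
    (IH : ∀ (ι : Type) [Fintype ι] [DecidableEq ι] (σ : ℕ) (w : ι → ℕ),
      Fat n D' σ w → Exa n M (Rg σ w)) :
    ∀ (ι : Type) [Fintype ι] [DecidableEq ι] (o : ι) (σ : ℕ) (w : ι → ℕ),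
      Nrm (n + 1) (cD n M D' (cC n M)) o σ w → Exa (n + 1) M (Rg σ w) := by
  set L := ell (n + 1) M with hL
  set L' := ell n M with hL'
  have hcC : cC n M = 2 * (1 + L * M) * (L + 1) + 2 * L' * (L + 1) +
    2 * M * (L + M * (n + 1)) + 1 := rfl
  rw [hcC]
  set C := 2 * (1 + L * M) * (L + 1) + 2 * L' * (L + 1) + 2 * M * (L + M * (n + 1)) + 1 with hC
  have hD := schedule n M D' C hn hM (by omega)
  intro ι _ _ o σ w hN G hG hsum
  have hL1 : 1 ≤ L := ell_pos _ hM
  have hL'1 : 1 ≤ L' := ell_pos _ hM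
  -- the thinnest direction
  obtain ⟨ls, hls1, hls2, hls3⟩ : ∃ ls, ls ≠ o ∧ 0 < w ls ∧
      ∀ i, i ≠ o → 0 < w i → w ls ≤ w i := by
    have h1 : (univ.filter fun i => 0 < w i ∧ i ≠ o).Nonempty := by
      by_contra h
      rw [not_nonempty_iff_eq_empty] at h
      have h2 := hN.hcard
      have h3 : (univ.filter fun i => 0 < w i) ⊆ {o} := by
        intro i hi
        rw [mem_filter] at hi
        by_contra h4
        rw [mem_singleton] at h4
        have h5 : i ∈ univ.filter fun i => 0 < w i ∧ i ≠ o := by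
          rw [mem_filter]
          exact ⟨mem_univ _, hi.2, h4⟩
        rw [h] at h5
        exact absurd h5 (notMem_empty _)
      have h4 := card_le_card h3
      rw [card_singleton] at h4
      omega
    obtain ⟨ls, h2, h3⟩ := exists_min_image _ w h1
    rw [mem_filter] at h2
    refine ⟨ls, h2.2.2, h2.2.1, fun i hi hi' => h3 i ?_⟩
    rw [mem_filter]
    exact ⟨mem_univ _, hi', hi⟩
  obtain ⟨hF, hrep, hr1, hr2, hsch⟩ := hD ι o ls σ w hN hls1 hls2 hls3
  have hwls : w ls ≤ σ := hN.hwσ ls
  set F := fc σ w ls with hFdef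
  set s₀ := F / C + L + 1 with hs₀
  have hFP : F ≤ (Rg σ w).card := fc_le _ _ _
  have hIH : ∀ σ (w : ι → ℕ), Fat n D' σ w → Exa n M (Rg σ w) := fun σ w h => IH ι σ w h
  -- the list of directions
  have hrep' : Good n M (fun σ w => Exa n M (Rg σ w)) (List.replicate (M + 1) ls) σ w
      (fun _ => 0) := Good.mono hIH _ _ _ _ hrep
  have hr1' : ∀ j, 1 ≤ j → j ≤ M + 1 →
      4 * M * eph n M (List.replicate j ls) σ w (fun _ => 0) ls ≤ (4 * M - 3) * ff σ w ls j := hr1
  have hr2' : ∀ j, j ≤ M + 1 → (8 * M - 1) * F ≤ 8 * M * ff σ w ls j := hr2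
  -- ending (A)
  have endA : ∀ j ≤ M, ∀ (x : ℕ) (c : Cfg ι), c.OK M → (∀ i, i ≠ ls → c.Φ i = 0) →
      c.tr n ls ≤ x → 2 * M * x ≤ (2 * M - 1) * ff σ w ls j → (RR σ w ls j).card ≤ c.sz n →
      c.sz n ≤ (RR σ w ls j).card + L → s₀ ≤ c.s → GM (RR σ w ls j) c.kinds := by
    intro j hj x c hc hΦ hx hx2 hsz1 hsz2 hs
    obtain ⟨Ls, hLs1, hLs2, hLs3, hLs4⟩ := hsch j hj (Function.update (fun _ => 0) ls x)
      (fun i hi => by rw [Function.update_of_ne hi]) (by
        rw [Function.update_self]
        exact hx2)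
    refine ending_A n M hn hM (dirs o w) Ls ?_ (nodup_toList _) hLs1 _ _
      (Function.update (fun _ => 0) ls x) (Good.mono hIH _ _ _ _ hLs2) c hc ?_ hsz1 ?_ ?_
    · intro h0
      have h1 : ls ∈ dirs o w := by
        unfold dirs
        rw [mem_toList, mem_filter]
        exact ⟨mem_univ _, hls2, hls1⟩
      rw [h0] at h1
      exact absurd h1 List.not_mem_nil
    · intro l
      by_cases h : l = ls
      · subst h
        rw [Function.update_self]
        exact hx
      · rw [Function.update_of_ne h]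
        unfold Cfg.tr
        rw [hΦ l h]
        simp
    · intro l hl
      refine hΦ l ?_
      rintro rfl
      apply hl
      unfold dirs
      rw [mem_toList, mem_filter]
      exact ⟨mem_univ _, hls2, hls1⟩
    · have h1 : (Rg (σ - j - Ls.length) (ew Ls (Function.update w ls (w ls - j)))).card ≤
          F / C := by
        rw [Nat.le_div_iff_mul_le (by omega), mul_comm]
        exact hLs3
      change c.sz n + _ < c.s + (RR σ w ls j).card
      omega
  -- ending (B)
  have endB : ∀ j ≤ M, ∀ (x : ℕ) (c : Cfg ι), c.OK M → (∀ i, i ≠ ls → c.Φ i = 0) →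
      c.tr n ls ≤ x → 2 * M * x ≤ (2 * M - 1) * ff σ w ls j →
      2 * M * ((RR σ w ls j).card) + F ≤ 2 * M * c.sz n → GM (RR σ w ls j) c.kinds := by
    intro j hj x c hc hΦ hx hx2 hsz
    obtain ⟨Ls, hLs1, hLs2, hLs3, hLs4⟩ := hsch j hj (Function.update (fun _ => 0) ls x)
      (fun i hi => by rw [Function.update_of_ne hi]) (by
        rw [Function.update_self]
        exact hx2)
    rw [Good.append] at hLs2
    have h2M : 0 < 2 * M := by omega
    set e := (Rg (σ - j - Ls.length) (ew Ls (Function.update w ls (w ls - j)))).card with he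
    refine ending_B n M hn hM Ls _ _ (Function.update (fun _ => 0) ls x)
      (Good.mono hIH _ _ _ _ hLs2.1) c hc ?_ ?_ ?_
    · intro l
      by_cases h : l = ls
      · subst h
        rw [Function.update_self]
        exact hx
      · rw [Function.update_of_ne h]
        unfold Cfg.tr
        rw [hΦ l h]
        simp
    · change L * e + M * _ + (RR σ w ls j).card ≤ c.sz n + e
      have h1 : 2 * M * (L + M * (n + 1)) * e ≤ F := by
        refine le_trans (Nat.mul_le_mul_right e ?_) hLs3
        omega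
      have h2 : M * ∑ i, eph n M Ls (σ - j) (Function.update w ls (w ls - j))
          (Function.update (fun _ => 0) ls x) i ≤ M * ((n + 1) * e) :=
        Nat.mul_le_mul_left M hLs4
      have h3 : 2 * M * (L * e + M * ((n + 1) * e) + (RR σ w ls j).card) ≤
          2 * M * c.sz n := by
        calc 2 * M * (L * e + M * ((n + 1) * e) + (RR σ w ls j).card) =
            2 * M * (L + M * (n + 1)) * e + 2 * M * (RR σ w ls j).card := by ring
          _ ≤ F + 2 * M * (RR σ w ls j).card := Nat.add_le_add_right h1 _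
          _ ≤ 2 * M * c.sz n := by omega
      have h4 := Nat.le_of_mul_le_mul_left h3 h2M
      omega
    · change (RR σ w ls j).card ≤ c.sz n
      have h3 : 2 * M * (RR σ w ls j).card ≤ 2 * M * c.sz n := by omega
      exact Nat.le_of_mul_le_mul_left h3 h2M
  -- drop superfluous points
  obtain ⟨G₁, hG₁, hs1, hs2, hG₁pos⟩ := exists_drop (ell (n + 1)) L (Rg σ w).card G
    (fun m hm => ell_mono _ (hG m hm)) hsum
  have hG1 : ∀ m ∈ G₁, 1 ≤ m := by
    intro m hm
    by_contra h
    have h0 : m = 0 := by omega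
    have := hG₁pos m hm
    rw [h0, ell_zero (by omega)] at this
    omega
  have hGM : ∀ m ∈ G₁, m ≤ M := fun m hm => hG m (Multiset.mem_of_le hG₁ hm)
  refine GM.mono (Multiset.map_le_map hG₁) ?_
  rw [← cfg0_kinds (ι := ι) G₁ hG1]
  set c := cfg0 ι G₁ with hcdef
  have hcOK : c.OK M := cfg0_OK M G₁ hGM
  obtain ⟨hcsz, hcnsz⟩ := cfg0_sz (ι := ι) n G₁ hG1
  rw [← hcdef] at hcsz hcnsz
  rw [← hcsz] at hs1 hs2
  have hcsz' : c.nsz n = c.sz n := by rw [hcsz, hcnsz]
  have hcΦ : ∀ i, c.Φ i = 0 := fun i => rfl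
  have htr0 : ∀ i, c.tr n i = 0 := fun i => by
    unfold Cfg.tr
    rw [hcΦ]
    simp
  by_cases hbig : s₀ ≤ c.s
  · have := endA 0 (by omega) 0 c hcOK (fun i _ => hcΦ i) (by rw [htr0]) (by simp)
      (by rw [RR_zero]; exact hs1) (by rw [RR_zero]; exact hs2) hbig
    rwa [RR_zero] at this
  push Not at hbig
  -- many points of the same multiplicity
  have hdiv : F / C * C ≤ F := Nat.div_mul_le_self F C
  have hb1 : (1 + L * M) * s₀ ≤ F := by
    have h1 : 2 * ((1 + L * M) * (F / C)) ≤ F := by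
      refine le_trans ?_ hdiv
      calc 2 * ((1 + L * M) * (F / C)) = (F / C) * (2 * (1 + L * M) * 1) := by ring
        _ ≤ (F / C) * C := by
          apply Nat.mul_le_mul_left
          have : 2 * (1 + L * M) * 1 ≤ 2 * (1 + L * M) * (L + 1) :=
            Nat.mul_le_mul_left _ (by omega)
          omega
    have h2 : 2 * ((1 + L * M) * (L + 1)) ≤ F := by
      refine le_trans ?_ hF
      have : 2 * ((1 + L * M) * (L + 1)) = 2 * (1 + L * M) * (L + 1) := by ring
      omega
    have h3 : (1 + L * M) * s₀ = (1 + L * M) * (F / C) + (1 + L * M) * (L + 1) := by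
      rw [hs₀]; ring
    omega
  have hb2 : s₀ * L' ≤ F := by
    have h1 : 2 * (L' * (F / C)) ≤ F := by
      refine le_trans ?_ hdiv
      calc 2 * (L' * (F / C)) = (F / C) * (2 * L' * 1) := by ring
        _ ≤ (F / C) * C := by
          apply Nat.mul_le_mul_left
          have : 2 * L' * 1 ≤ 2 * L' * (L + 1) := Nat.mul_le_mul_left _ (by omega)
          omega
    have h2 : 2 * (L' * (L + 1)) ≤ F := by
      refine le_trans ?_ hF
      have : 2 * (L' * (L + 1)) = 2 * L' * (L + 1) := by ring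
      omega
    have h3 : s₀ * L' = L' * (F / C) + L' * (L + 1) := by
      rw [hs₀]; ring
    omega
  have hcard : M * s₀ ≤ c.N.card := by
    have h1 : (c.N.map (ell (n + 1))).sum ≤ L * c.N.card := by
      have := Multiset.sum_le_card_nsmul (c.N.map (ell (n + 1))) L (by
        intro x hx
        obtain ⟨m, hm, rfl⟩ := Multiset.mem_map.1 hx
        exact ell_mono _ (hcOK.hN m hm).2)
      rw [Multiset.card_map, smul_eq_mul, mul_comm] at this
      exact this
    have h2 : c.sz n = (c.N.map (ell (n + 1))).sum + c.s := by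
      rw [← hcsz']; rfl
    have h3 : L * (M * s₀) ≤ L * c.N.card := by
      have h4 : (1 + L * M) * s₀ = s₀ + L * (M * s₀) := by ring
      have h5 : (Rg σ w).card ≤ (c.N.map (ell (n + 1))).sum + c.s := by
        rw [← h2]; exact hs1
      have h6 : s₀ + L * (M * s₀) ≤ (Rg σ w).card := by
        rw [← h4]; exact hb1.trans hFP
      clear_value L L' C F s₀ c
      omega
    exact Nat.le_of_mul_le_mul_left h3 (by omega)
  obtain ⟨μ, hμN, hμ⟩ := exists_replicate_le c.N M s₀ (fun m hm => by
    have := hcOK.hN m hm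
    omega) hcard hM (by omega)
  have hμ2 := hcOK.hN μ hμN
  -- the first step
  have hg1 := hrep'
  rw [List.replicate_succ] at hg1
  obtain ⟨hσ1, hw1, hE1, hφ1, hav1, hrest⟩ := hg1
  obtain ⟨c₁, hc₁OK, hc₁GM, hc₁Φ, hc₁tr, hc₁sz, -, -, -, -, hc₁I⟩ :=
    peel n M hn hM (Rg σ w) (Rg (σ - 1) (Function.update w ls (w ls - 1))) ls
      (Rg_resid σ w ls hσ1 hw1) F (by rw [Rg_layer]; rfl) (by rw [Rg_layer]; exact hE1) c hcOK
      (Multiset.replicate s₀ μ) hμ (by
        rw [htr0, Multiset.map_replicate, Multiset.sum_replicate, smul_eq_mul, zero_add]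
        exact (Nat.mul_le_mul_left _ (ell_mono _ hμ2.2)).trans hb2) (by
        rw [hcsz']
        simp only [sum_const_zero, mul_zero, zero_add] at hav1
        exact hav1.trans hs1)
  refine hc₁GM ?_
  have hc₁I' : Multiset.replicate s₀ (μ - 1, 1) ≤ c₁.Φ ls := by
    refine le_trans ?_ hc₁I
    rw [hcΦ, Multiset.map_replicate]
    simp [shf]
  have hcard1 := card_Rg_peel σ w ls hσ1 hw1
  -- the following steps
  obtain ⟨ν, hν⟩ : ∃ ν, μ = ν + 2 := ⟨μ - 2, by omega⟩
  have hnphi : c₁.tr n ls ≤ nphi n M F := by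
    unfold nphi
    have h1 : M * (c₁.tr n ls - L' ^ 2) ≤ (M - 1) * F := by
      rw [Nat.mul_sub]
      exact Nat.sub_le_iff_le_add.2 hc₁tr
    have h2 : c₁.tr n ls - L' ^ 2 ≤ (M - 1) * F / M := by
      rw [Nat.le_div_iff_mul_le (by omega), mul_comm]
      exact h1
    exact Nat.sub_le_iff_le_add.1 h2
  have hgν : Good n M (fun σ w => Exa n M (Rg σ w)) (List.replicate ν ls) (σ - 1)
      (Function.update w ls (w ls - 1)) (Function.update (fun _ => 0) ls (nphi n M F)) :=
    Good.replicate_le (by omega) hrest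
  obtain ⟨c₂, hc₂OK, hc₂GM, hc₂tr, hc₂sz, -, -, -, -, hc₂I, hc₂Φ⟩ :=
    run n M hn hM (List.replicate ν ls) (σ - 1) (Function.update w ls (w ls - 1))
      (Function.update (fun _ => 0) ls (nphi n M F)) hgν c₁ hc₁OK (by
        intro l
        by_cases h : l = ls
        · subst h
          rw [Function.update_self]
          exact hnphi
        · rw [Function.update_of_ne h]
          unfold Cfg.tr
          rw [hc₁Φ l h, hcΦ]
          simp) (by omega)
  have hRR : Rg (σ - 1 - (List.replicate ν ls).length)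
      (ew (List.replicate ν ls) (Function.update w ls (w ls - 1))) = RR σ w ls (ν + 1) := by
    unfold RR
    rw [ew_replicate, List.length_replicate, Nat.sub_sub, Function.update_idem,
      Function.update_self, Nat.sub_sub, add_comm 1 ν]
  rw [hRR] at hc₂GM hc₂sz
  refine hc₂GM ?_
  -- the trace
  have heph : eph n M (List.replicate ν ls) (σ - 1) (Function.update w ls (w ls - 1))
      (Function.update (fun _ => 0) ls (nphi n M F)) ls =
      eph n M (List.replicate (ν + 1) ls) σ w (fun _ => 0) ls := by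
    rw [List.replicate_succ]
    rfl
  have htr2 := hc₂tr ls
  rw [heph] at htr2
  have hr1a := hr1' (ν + 1) (by omega) (by omega)
  -- the forced simple points
  have hrepl : Multiset.replicate s₀ (1, 1) ≤ c₂.Φ ls := by
    refine le_trans ?_ (hc₂I ls)
    rw [List.count_replicate_self]
    have h1 : shf^[ν] (Multiset.replicate s₀ (μ - 1, 1)) ≤ shf^[ν] (c₁.Φ ls) := by
      have hmono : Monotone shf := fun X Y h =>
        Multiset.filter_le_filter _ (Multiset.map_le_map h)
      exact hmono.iterate ν hc₁I'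
    refine le_trans (le_of_eq ?_) h1
    have h2 : μ - 1 = ν + 1 := by omega
    rw [h2, shf_iterate_replicate _ _ _ le_rfl]
    simp
  have hc₂0 : ∀ i, i ≠ ls → c₂.Φ i = 0 := by
    intro i hi
    rw [hc₂Φ i, hc₁Φ i hi, hcΦ]
    rw [List.count_replicate]
    rw [if_neg (by simpa using (Ne.symm hi))]
  -- the next step exists
  have hgν1 : Good n M (fun σ w => Exa n M (Rg σ w)) (List.replicate (ν + 2) ls) σ w
      (fun _ => 0) := Good.replicate_le (by omega) hrep'
  rw [show ν + 2 = (ν + 1) + 1 from rfl, List.replicate_add, Good.append] at hgν1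
  obtain ⟨_, hσ2, hw2, hE2, hφ2, hav2, -⟩ := hgν1
  rw [List.length_replicate] at hσ2
  rw [ew_replicate] at hw2
  have hRes := Rg_resid (σ - (ν + 1)) (Function.update w ls (w ls - (ν + 1))) ls hσ2 hw2
  have hcardR := card_Rg_peel (σ - (ν + 1)) (Function.update w ls (w ls - (ν + 1))) ls hσ2 hw2
  rw [update_step, Nat.sub_sub] at hRes hcardR
  change (RR σ w ls (ν + 2)).card + ff σ w ls (ν + 1) = (RR σ w ls (ν + 1)).card at hcardR
  -- sizes
  have hszc2 : c₂.sz n + (Rg σ w).card = c.sz n + (RR σ w ls (ν + 1)).card := by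
    have : F = fc σ w ls := rfl
    omega
  set X := c₂.Φ ls - Multiset.replicate s₀ (1, 1) with hX
  have hXs : c₂.Φ ls = X + Multiset.replicate s₀ (1, 1) := by
    rw [hX, tsub_add_cancel_of_le hrepl]
  clear_value X
  have hXval : ∀ x ∈ X, 1 ≤ x.2 ∧ x.2 ≤ 2 ∧ x.2 ≤ x.1 ∧ x.1 ≤ M := by
    intro x hx
    exact hc₂OK.hΦ ls x (by rw [hXs]; exact Multiset.mem_add.2 (Or.inl hx))
  obtain ⟨hY1, hY2, hY3⟩ := shf_numbers n M hn X hXval
  have htrX : c₂.tr n ls = (X.map fun x => ell n x.1).sum + s₀ := by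
    unfold Cfg.tr
    rw [hXs, Multiset.map_add, Multiset.sum_add, Multiset.map_replicate, Multiset.sum_replicate]
    simp only [ell_one, smul_eq_mul, mul_one]
  have hflX : c₂.fl n ls = (X.map fun x => ell (n + 1) x.1 + 1 - x.2).sum + s₀ := by
    unfold Cfg.fl
    rw [hXs, Multiset.map_add, Multiset.sum_add, Multiset.map_replicate, Multiset.sum_replicate]
    simp only [ell_one, smul_eq_mul]
    omega
  have hszA : (c₂.upd ls X (c₂.s + s₀)).sz n = c₂.sz n := by
    rw [Cfg.sz_upd, Cfg.sz_split n c₂ ls, hflX]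
    omega
  have hszB : (c₂.upd ls (shf X) c₂.s).sz n + c₂.tr n ls = c₂.sz n := by
    rw [Cfg.sz_upd, Cfg.sz_split n c₂ ls, hflX, htrX]
    omega
  have hM1 : 0 < 4 * M := by omega
  refine bridge_cfg n M c₂ hc₂OK ls s₀ hrepl (RR σ w ls (ν + 1)) (RR σ w ls (ν + 2)) hRes ?_ ?_ <;>
    rw [← hX]
  · -- (A)
    refine endA (ν + 1) (by omega) (eph n M (List.replicate (ν + 1) ls) σ w (fun _ => 0) ls) _
      (Cfg.OK_upd hc₂OK _ _ _ hXval) ?_ ?_ ?_ ?_ ?_ ?_
    · intro i hi
      rw [show (c₂.upd ls X (c₂.s + s₀)).Φ i = c₂.Φ i from Function.update_of_ne hi _ _]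
      exact hc₂0 i hi
    · rw [Cfg.tr_upd_self]
      omega
    · have h1 : 2 * (2 * M * eph n M (List.replicate (ν + 1) ls) σ w (fun _ => 0) ls) ≤
          2 * ((2 * M - 1) * ff σ w ls (ν + 1)) := by
        calc 2 * (2 * M * eph n M (List.replicate (ν + 1) ls) σ w (fun _ => 0) ls) =
            4 * M * eph n M (List.replicate (ν + 1) ls) σ w (fun _ => 0) ls := by ring
          _ ≤ (4 * M - 3) * ff σ w ls (ν + 1) := hr1a
          _ ≤ (2 * (2 * M - 1)) * ff σ w ls (ν + 1) := Nat.mul_le_mul_right _ (by omega)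
          _ = 2 * ((2 * M - 1) * ff σ w ls (ν + 1)) := by ring
      exact Nat.le_of_mul_le_mul_left h1 (by norm_num)
    · rw [hszA]; omega
    · rw [hszA]; omega
    · change s₀ ≤ c₂.s + s₀
      omega
  · -- (B)
    have hr1b := hr1' (ν + 2) (by omega) (by omega)
    have heph2 : eph n M (List.replicate (ν + 2) ls) σ w (fun _ => 0) ls =
        nphi n M (ff σ w ls (ν + 1)) := by
      rw [show ν + 2 = (ν + 1) + 1 from rfl, List.replicate_add, eph_append]
      rw [List.length_replicate, ew_replicate]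
      change (Function.update _ ls (nphi n M _) : ι → ℕ) ls = _
      rw [Function.update_self]
      rfl
    rw [heph2] at hr1b
    have htrle : 4 * M * c₂.tr n ls ≤ (4 * M - 3) * ff σ w ls (ν + 1) :=
      (Nat.mul_le_mul_left _ htr2).trans hr1a
    have htrlef : c₂.tr n ls ≤ ff σ w ls (ν + 1) := by
      have h1 : 4 * M * c₂.tr n ls ≤ 4 * M * ff σ w ls (ν + 1) :=
        htrle.trans (Nat.mul_le_mul_right _ (by omega))
      exact Nat.le_of_mul_le_mul_left h1 hM1
    refine endB (ν + 2) (by omega) (nphi n M (ff σ w ls (ν + 1))) _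
      (Cfg.OK_upd hc₂OK _ _ _ hY1) ?_ ?_ ?_ ?_
    · intro i hi
      rw [show (c₂.upd ls (shf X) c₂.s).Φ i = c₂.Φ i from Function.update_of_ne hi _ _]
      exact hc₂0 i hi
    · rw [Cfg.tr_upd_self]
      have h1 : M * ((shf X).map fun x => ell n x.1).sum ≤ (M - 1) * ff σ w ls (ν + 1) :=
        hY3.trans (Nat.mul_le_mul_left _ (by omega))
      unfold nphi
      have h2 : ((shf X).map fun x => ell n x.1).sum ≤ (M - 1) * ff σ w ls (ν + 1) / M := by
        rw [Nat.le_div_iff_mul_le (by omega), mul_comm]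
        exact h1
      omega
    · have h1 : 2 * (2 * M * nphi n M (ff σ w ls (ν + 1))) ≤
          2 * ((2 * M - 1) * ff σ w ls (ν + 2)) := by
        calc 2 * (2 * M * nphi n M (ff σ w ls (ν + 1))) =
            4 * M * nphi n M (ff σ w ls (ν + 1)) := by ring
          _ ≤ (4 * M - 3) * ff σ w ls (ν + 2) := hr1b
          _ ≤ (2 * (2 * M - 1)) * ff σ w ls (ν + 2) := Nat.mul_le_mul_right _ (by omega)
          _ = 2 * ((2 * M - 1) * ff σ w ls (ν + 2)) := by ring
      exact Nat.le_of_mul_le_mul_left h1 (by norm_num)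
    · -- the excess
      have hk : (RR σ w ls (ν + 2)).card + (ff σ w ls (ν + 1) - c₂.tr n ls) ≤
          (c₂.upd ls (shf X) c₂.s).sz n := by omega
      have hk2 : F ≤ 2 * M * (ff σ w ls (ν + 1) - c₂.tr n ls) := by
        have h1 := hr2' (ν + 1) (by omega)
        have h2 : 3 * ff σ w ls (ν + 1) ≤ 4 * M * (ff σ w ls (ν + 1) - c₂.tr n ls) := by
          rw [Nat.mul_sub]
          have h3 : 4 * M * ff σ w ls (ν + 1) =
              (4 * M - 3) * ff σ w ls (ν + 1) + 3 * ff σ w ls (ν + 1) := by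
            rw [← add_mul]
            congr 1
            omega
          omega
        -- `(8 M - 1) F ≤ 8 M f` and `3 f ≤ 4 M κ`
        have h4 : 7 * F ≤ 8 * ff σ w ls (ν + 1) := by
          have h5 : M * (7 * F) ≤ M * (8 * ff σ w ls (ν + 1)) := by
            calc M * (7 * F) = (7 * M) * F := by ring
              _ ≤ (8 * M - 1) * F := Nat.mul_le_mul_right _ (by omega)
              _ ≤ 8 * M * ff σ w ls (ν + 1) := h1
              _ = M * (8 * ff σ w ls (ν + 1)) := by ring
          exact Nat.le_of_mul_le_mul_left h5 (by omega)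
        have h6 : 2 * (2 * M * (ff σ w ls (ν + 1) - c₂.tr n ls)) =
            4 * M * (ff σ w ls (ν + 1) - c₂.tr n ls) := by ring
        omega
      calc 2 * M * (RR σ w ls (ν + 2)).card + F ≤ 2 * M * (RR σ w ls (ν + 2)).card +
            2 * M * (ff σ w ls (ν + 1) - c₂.tr n ls) := Nat.add_le_add_left hk2 _
        _ = 2 * M * ((RR σ w ls (ν + 2)).card + (ff σ w ls (ν + 1) - c₂.tr n ls)) := by ring
        _ ≤ 2 * M * (c₂.upd ls (shf X) c₂.s).sz n := Nat.mul_le_mul_left _ hk

end Pool.Agent.H18.Ex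

end

section

/-!
# Module Norm: reduction to normalised regions and the induction on the dimension
-/

namespace Pool.Agent.H18.Ex

open Finset

section

variable {ι : Type} [Fintype ι] [DecidableEq ι]

theorem Rg_trunc (σ : ℕ) (w : ι → ℕ) : Rg σ (fun i => min (w i) σ) = Rg σ w := by
  ext a
  rw [mem_Rg, mem_Rg]
  constructor
  · rintro ⟨h1, h2⟩
    exact ⟨fun i => (h1 i).trans (min_le_left _ _), h2⟩
  · rintro ⟨h1, h2⟩
    refine ⟨fun i => le_min (h1 i) ?_, h2⟩
    rw [← h2]
    exact single_le_sum (fun _ _ => Nat.zero_le _) (mem_univ i)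

theorem Exa.reflect {n M σ : ℕ} {w : ι → ℕ} (hσ : σ ≤ ∑ i, w i)
    (h : Exa n M (Rg (∑ i, w i - σ) w)) : Exa n M (Rg σ w) := by
  intro G hG hs
  exact GM.reflect σ w hσ G (h G hG (by rw [card_reflect σ w hσ]; exact hs))

theorem exists_max (w : ι → ℕ) (h : ∃ i, 0 < w i) : ∃ o, 0 < w o ∧ ∀ i, w i ≤ w o := by
  obtain ⟨j, hj⟩ := h
  obtain ⟨o, _, ho⟩ := exists_max_image univ w ⟨j, mem_univ _⟩
  exact ⟨o, lt_of_lt_of_le hj (ho j (mem_univ _)), fun i => ho i (mem_univ _)⟩

omit [DecidableEq ι] in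
theorem filter_min_eq (w : ι → ℕ) (s : ℕ) (hs : 1 ≤ s) :
    (univ.filter fun i => 0 < min (w i) s) = univ.filter fun i => 0 < w i := by
  ext i
  rw [mem_filter, mem_filter]
  simp only [mem_univ, true_and, lt_min_iff]
  exact ⟨fun h => h.1, fun h => ⟨h, by omega⟩⟩

theorem two_le_sum (v : ι → ℕ) {a b : ι} (hab : a ≠ b) : v a + v b ≤ ∑ i, v i := by
  rw [← sum_pair hab]
  exact sum_le_sum_of_subset (subset_univ _)

/-- Fat regions are normalised up to truncation and reflection. -/
theorem exa_of_fat {n M D : ℕ} (hn : 1 ≤ n) (hD : 1 ≤ D)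
    (h : ∀ (o : ι) (σ : ℕ) (w : ι → ℕ), Nrm n D o σ w → Exa n M (Rg σ w))
    (σ : ℕ) (w : ι → ℕ) (hF : Fat n D σ w) : Exa n M (Rg σ w) := by
  obtain ⟨hcard, hσD, hwD, hsum⟩ := hF
  -- two active coordinates
  have hother : ∀ a, ∃ b, b ≠ a ∧ 0 < w b := by
    intro a
    by_contra hcon
    push Not at hcon
    have h1 : (univ.filter fun i => 0 < w i) ⊆ {a} := by
      intro i hi
      rw [mem_filter] at hi
      rw [mem_singleton]
      by_contra h2
      have := hcon i h2
      omega
    have h2 := card_le_card h1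
    rw [card_singleton] at h2
    omega
  have hne : ∃ a, 0 < w a := by
    have h1 : 0 < (univ.filter fun i => 0 < w i).card := by omega
    obtain ⟨a, ha⟩ := card_pos.1 h1
    rw [mem_filter] at ha
    exact ⟨a, ha.2⟩
  rw [← Rg_trunc]
  set w1 : ι → ℕ := fun i => min (w i) σ with hw1
  have hw1σ : ∀ i, w1 i ≤ σ := fun i => min_le_right _ _
  have hw1D : ∀ i, 0 < w i → D ≤ w1 i := fun i hi => le_min (hwD i hi) hσD
  have hsupp1 : (univ.filter fun i => 0 < w1 i) = univ.filter fun i => 0 < w i :=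
    filter_min_eq w σ (by omega)
  have hsum1 : σ + D ≤ ∑ i, w1 i := by
    by_cases hall : ∀ i, w i ≤ σ
    · have : ∑ i, w1 i = ∑ i, w i := sum_congr rfl fun i _ => min_eq_left (hall i)
      rw [this]
      exact hsum
    · push Not at hall
      obtain ⟨a, ha⟩ := hall
      obtain ⟨b, hb, hb'⟩ := hother a
      have h1 := two_le_sum w1 (Ne.symm hb)
      have h2 : w1 a = σ := min_eq_right ha.le
      have h3 := hw1D b hb'
      omega
  have hpos1 : ∀ i, 0 < w1 i → 0 < w i := fun i hi => lt_of_lt_of_le hi (min_le_left _ _)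
  by_cases h2 : 2 * σ ≤ ∑ i, w1 i
  · obtain ⟨o, ho, ho'⟩ := exists_max w1 (by
      obtain ⟨a, ha⟩ := hne
      exact ⟨a, lt_of_lt_of_le (by omega) (hw1D a ha)⟩)
    exact h o σ w1 ⟨by rw [hsupp1]; exact hcard, ho, ho', hw1σ, h2,
      fun i hi => hw1D i (hpos1 i hi)⟩
  · push Not at h2
    apply Exa.reflect (by omega)
    set τ := ∑ i, w1 i - σ with hτ
    have hτσ : τ < σ := by omega
    have hτD : D ≤ τ := by omega
    rw [← Rg_trunc]
    set w2 : ι → ℕ := fun i => min (w1 i) τ with hw2
    have hsum2 : 2 * τ ≤ ∑ i, w2 i := by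
      by_cases hall : ∀ i, w1 i ≤ τ
      · have : ∑ i, w2 i = ∑ i, w1 i := sum_congr rfl fun i _ => min_eq_left (hall i)
        omega
      · push Not at hall
        obtain ⟨a, ha⟩ := hall
        have h3 : w2 a = τ := min_eq_right ha.le
        by_cases hb : ∃ b, b ≠ a ∧ τ ≤ w1 b
        · obtain ⟨b, hb, hb'⟩ := hb
          have h4 := two_le_sum w2 (Ne.symm hb)
          have h5 : w2 b = τ := min_eq_right hb'
          omega
        · push Not at hb
          have h4 : ∑ i ∈ univ.erase a, w2 i = ∑ i ∈ univ.erase a, w1 i :=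
            sum_congr rfl fun i hi => min_eq_left (hb i (ne_of_mem_erase hi)).le
          have h5 := add_sum_erase univ w2 (mem_univ a)
          have h6 := add_sum_erase univ w1 (mem_univ a)
          have h7 := hw1σ a
          omega
    have hsupp2 : (univ.filter fun i => 0 < w2 i) = univ.filter fun i => 0 < w1 i :=
      filter_min_eq w1 τ (by omega)
    have hw2D : ∀ i, 0 < w2 i → D ≤ w2 i := by
      intro i hi
      have h3 : 0 < w1 i := lt_of_lt_of_le hi (min_le_left _ _)
      exact le_min (hw1D i (hpos1 i h3)) hτD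
    obtain ⟨o, ho, ho'⟩ := exists_max w2 (by
      obtain ⟨a, ha⟩ := hne
      exact ⟨a, lt_of_lt_of_le (by omega) (le_min (hw1D a ha) hτD)⟩)
    exact h o τ w2 ⟨by rw [hsupp2, hsupp1]; exact hcard, ho, ho', fun i => min_le_right _ _,
      hsum2, hw2D⟩

end

/-- The required width in dimension `n + 1`. -/
def cF (M : ℕ) : ℕ → ℕ
  | 0 => 1
  | n + 1 => cD (n + 1) M (cF M n) (cC (n + 1) M) + 1

theorem cF_pos (M n : ℕ) : 1 ≤ cF M n := by
  cases n with
  | zero => exact le_rfl
  | succ n => exact Nat.le_add_left 1 _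

/-- Exactness of all sufficiently fat regions. -/
theorem exa_fat (M : ℕ) (hM : 1 ≤ M) : ∀ n : ℕ,
    ∀ (ι : Type) [Fintype ι] [DecidableEq ι] (σ : ℕ) (w : ι → ℕ),
      Fat (n + 1) (cF M n) σ w → Exa (n + 1) M (Rg σ w) := by
  intro n
  induction n with
  | zero => exact fun ι _ _ σ w h => base_one M σ w h.1
  | succ n ih =>
    intro ι _ _ σ w h
    have hD := exa_nrm (n + 1) M (by omega) hM (cF M n) ih
    refine exa_of_fat (D := cF M (n + 1)) (by omega) (cF_pos _ _) ?_ σ w h
    intro o σ w hN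
    exact hD ι o σ w ⟨hN.hcard, hN.ho, hN.hwo, hN.hwσ, hN.hσ, fun i hi => by
      have h1 := hN.hD i hi
      have h2 : cF M (n + 1) = cD (n + 1) M (cF M n) (cC (n + 1) M) + 1 := rfl
      omega⟩

/-! ### Polynomial growth -/

/-- Bounded by a polynomial for arguments at least one. -/
def PolyB (f : ℕ → ℕ) : Prop := ∃ K e : ℕ, ∀ M, 1 ≤ M → f M ≤ K * M ^ e

theorem PolyB.const (c : ℕ) : PolyB fun _ => c := ⟨c, 0, fun M _ => by simp⟩

theorem PolyB.id : PolyB fun M => M := ⟨1, 1, fun M _ => by simp⟩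

theorem PolyB.add {f g : ℕ → ℕ} (hf : PolyB f) (hg : PolyB g) : PolyB fun M => f M + g M := by
  obtain ⟨K, e, h⟩ := hf
  obtain ⟨K', e', h'⟩ := hg
  refine ⟨K + K', e + e', fun M hM => ?_⟩
  have h1 : M ^ e ≤ M ^ (e + e') := Nat.pow_le_pow_right hM (by omega)
  have h2 : M ^ e' ≤ M ^ (e + e') := Nat.pow_le_pow_right hM (by omega)
  calc f M + g M ≤ K * M ^ e + K' * M ^ e' := add_le_add (h M hM) (h' M hM)
    _ ≤ K * M ^ (e + e') + K' * M ^ (e + e') := by gcongr
    _ = (K + K') * M ^ (e + e') := by ring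

theorem PolyB.mul {f g : ℕ → ℕ} (hf : PolyB f) (hg : PolyB g) : PolyB fun M => f M * g M := by
  obtain ⟨K, e, h⟩ := hf
  obtain ⟨K', e', h'⟩ := hg
  refine ⟨K * K', e + e', fun M hM => ?_⟩
  calc f M * g M ≤ (K * M ^ e) * (K' * M ^ e') := Nat.mul_le_mul (h M hM) (h' M hM)
    _ = (K * K') * M ^ (e + e') := by ring

theorem PolyB.pow {f : ℕ → ℕ} (hf : PolyB f) (k : ℕ) : PolyB fun M => f M ^ k := by
  induction k with
  | zero => simpa using PolyB.const 1
  | succ k ih =>
    simp only [pow_succ]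
    exact ih.mul hf

theorem PolyB.ell (n : ℕ) : PolyB fun M => ell n M := by
  have h : PolyB fun M => (M + n) ^ n := (PolyB.id.add (PolyB.const n)).pow n
  obtain ⟨K, e, h⟩ := h
  refine ⟨K, e, fun M hM => le_trans ?_ (h M hM)⟩
  unfold Pool.Agent.H18.Ex.ell
  exact (Nat.choose_le_pow _ _).trans (Nat.pow_le_pow_left (by omega) _)

end Pool.Agent.H18.Ex

end
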