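import Pool.Agent.H94.LP2.H21.NX.VNumI
import Pool.Agent.H94.LP2.H21.NX.VNumII
import Pool.Agent.H94.LP2.H51.TB.UPair
import Pool.Agent.H94.LP2.M28
import Pool.Agent.H94.LP2.M31

/-! The parts of this file: H21.NX.VReg, H21.NX.UNum_1, H21.NX.VFin, H21.NX.VReg_1, H51.TB.Fin_1. -/

section

/-!
# Module VReg: the region of exactness, every dimension
-/

namespace Pool.Agent.H21.NX

open Finset Pool.Agent.H18.Ex
open Pool.Agent.H18.Fat

/-- Bounded by a multiple of `M ^ e`. -/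
def PE (e : ℕ) (f : ℕ → ℕ) : Prop := ∃ K : ℕ, ∀ M, 1 ≤ M → f M ≤ K * M ^ e

theorem PE.const (c e : ℕ) : PE e fun _ => c :=
  ⟨c, fun _ hM => Nat.le_mul_of_pos_right _ (Nat.pow_pos hM)⟩

theorem PE.mono {e e' : ℕ} {f : ℕ → ℕ} (h : PE e f) (he : e ≤ e') : PE e' f := by
  obtain ⟨K, h⟩ := h
  exact ⟨K, fun M hM => le_trans (h M hM) (Nat.mul_le_mul_left _ (Nat.pow_le_pow_right hM he))⟩

theorem PE.id : PE 1 fun M => M := ⟨1, fun M _ => by simp⟩

theorem PE.add {e : ℕ} {f g : ℕ → ℕ} (hf : PE e f) (hg : PE e g) : PE e fun M => f M + g M := by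
  obtain ⟨K, h⟩ := hf
  obtain ⟨L, h'⟩ := hg
  refine ⟨K + L, fun M hM => ?_⟩
  rw [Nat.add_mul]
  exact Nat.add_le_add (h M hM) (h' M hM)

theorem PE.mul {e e' : ℕ} {f g : ℕ → ℕ} (hf : PE e f) (hg : PE e' g) :
    PE (e + e') fun M => f M * g M := by
  obtain ⟨K, h⟩ := hf
  obtain ⟨L, h'⟩ := hg
  refine ⟨K * L, fun M hM => ?_⟩
  calc f M * g M ≤ (K * M ^ e) * (L * M ^ e') := Nat.mul_le_mul (h M hM) (h' M hM)
    _ = _ := by ring

theorem PE.sq {e : ℕ} {f : ℕ → ℕ} (hf : PE e f) : PE (e + e) fun M => f M ^ 2 := by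
  have h := hf.mul hf
  have e1 : (fun M => f M ^ 2) = fun M => f M * f M := funext fun M => pow_two (f M)
  rw [e1]
  exact h

theorem PE.ell1 : PE 1 fun M => ell 1 M := by
  refine ⟨1, fun M _ => ?_⟩
  change (M + 1 - 1).choose 1 ≤ 1 * M ^ 1
  rw [Nat.add_sub_cancel, Nat.choose_one_right]
  simp

theorem PE.ell2 : PE 2 fun M => ell (1 + 1) M := by
  refine ⟨1, fun M _ => ?_⟩
  have h := ell_le_mul 1 M
  have h1 : ell 1 M = M := by
    unfold ell
    rw [Nat.add_sub_cancel, Nat.choose_one_right]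
  rw [h1] at h
  calc ell (1 + 1) M ≤ M * M := h
    _ = _ := by ring

theorem PE.cC : PE 5 fun M => cC 1 M := by
  unfold Pool.Agent.H18.Ex.cC
  have h1 : PE 3 fun M => 2 * (1 + ell (1 + 1) M * M) :=
    (((PE.const 2 0).mul (((PE.const 1 3).add (PE.ell2.mul PE.id)))).mono (by omega))
  have h2 : PE 2 fun M => ell (1 + 1) M + 1 := PE.ell2.add (PE.const 1 2)
  have h3 : PE 1 fun M => 2 * ell 1 M := ((PE.const 2 0).mul PE.ell1).mono (by omega)
  have h4 : PE 1 fun M => 2 * M := ((PE.const 2 0).mul PE.id).mono (by omega)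
  have h5 : PE 2 fun M => ell (1 + 1) M + M * (1 + 1) :=
    PE.ell2.add ((PE.id.mul (PE.const (1 + 1) 0)).mono (by omega))
  exact ((((h1.mul h2).mono (by omega)).add ((h3.mul h2).mono (by omega))).add
    ((h4.mul h5).mono (by omega))).add (PE.const 1 5)

theorem PE.cb : PE 5 fun M => cb 1 M 1 (Pool.Agent.H18.Ex.cC 1 M) := by
  unfold Pool.Agent.H18.Ex.cb
  have h1 : PE 5 fun M => 2 * (1 + 1) ^ 2 * (M * (1 + 1) + 2 * ell (1 + 1) M + 2) := by
    refine ((PE.const (2 * (1 + 1) ^ 2) 0).mul ((((PE.id.mul (PE.const (1 + 1) 0)).mono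
      (by omega : 1 + 0 ≤ 2)).add (((PE.const 2 0).mul PE.ell2).mono
      (by omega))).add (PE.const 2 2))).mono (by omega)
  have h2 : PE 5 fun M => 16 * M ^ 2 * ell 1 M ^ 2 :=
    (((PE.const 16 0).mul PE.id.sq).mul PE.ell1.sq).mono (by omega)
  exact (((PE.const 1 5).add h1).add h2).add PE.cC

theorem PE.cB : PE 5 fun M => cB 1 M 1 (Pool.Agent.H18.Ex.cC 1 M) := by
  unfold Pool.Agent.H18.Ex.cB
  have h1 : PE 1 fun M => cq 1 M := by
    unfold cq
    exact (((PE.const 32 0).mul PE.id).mul (PE.const ((1 + 1) ^ 3) 0)).mono (by omega)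
  have h2 : PE 1 fun M => M + 1 := PE.id.add (PE.const 1 1)
  exact ((((PE.const 2 0).mul PE.cb).mono (by omega)).add ((h1.mul h2).mono (by omega))).add
    (PE.const 1 5)

end Pool.Agent.H21.NX

end

section

/-!
# Module UNum: the numerical conditions of the uniform version
-/

namespace Pool.Agent.H21.NX

open Finset Pool.Agent.H18.Ex

/-- Exactness for large dimension and large degree, both bounds depending only on `M`. -/
theorem exact_uniform (M : ℕ) : ∃ D1 r₀ : ℕ, ∀ r, r₀ ≤ r → ∀ d, D1 ≤ d →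
    ∀ (k : ℕ) (m : Fin k → ℕ), (∀ i, m i ≤ M) →
    Pool.Agent.H18.Fat.ForGeneralPoints r k fun p =>
      Pool.Agent.H18.Fat.ImposesMaximalConditions r d p m := by
  obtain ⟨D0, D1, s0, h⟩ := exists_unum (M + 1) (by omega)
  refine ⟨D1, s0 + 1, fun r hr d hd k m hm => ?_⟩
  obtain ⟨s, rfl⟩ : ∃ s, r = s + 1 := ⟨r - 1, by omega⟩
  obtain ⟨h1, h2, h3⟩ := h s (by omega) d hd
  refine max_of_GM (s + 1) k d (by omega) m ?_
  rw [← aug_map]
  exact ucore h1 h2 h3 (aug (s + 1) d m) (mem_aug (by omega) fun i => le_trans (hm i)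
    (Nat.le_succ M)) (le_tot_aug _ _ m)

/-- Exactness for large dimension and `d ≥ 3 M - 1`. -/
theorem exact_three (M : ℕ) : ∃ r₀ : ℕ, ∀ r, r₀ ≤ r → ∀ d, 3 * M ≤ d + 1 →
    ∀ (k : ℕ) (m : Fin k → ℕ), (∀ i, m i ≤ M) →
    Pool.Agent.H18.Fat.ForGeneralPoints r k fun p =>
      Pool.Agent.H18.Fat.ImposesMaximalConditions r d p m := by
  obtain ⟨D1, r₁, h1⟩ := exact_uniform M
  choose r₂ h2 using exact_small
  refine ⟨r₁ + (Finset.range D1).sup r₂, fun r hr d hd k m hm => ?_⟩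
  by_cases hdD : D1 ≤ d
  · exact h1 r (by omega) d hdD k m hm
  · refine h2 d r ?_ k m fun i => by
      have := hm i
      omega
    have : r₂ d ≤ (Finset.range D1).sup r₂ :=
      Finset.le_sup (f := r₂) (Finset.mem_range.2 (by omega))
    omega

end Pool.Agent.H21.NX

end

section

/-!
# Module VFin: the complete region
-/

namespace Pool.Agent.H21.NX

open Finset Pool.Agent.H18.Ex
open Pool.Agent.H18.Fat

/-- High dimension, degrees at least `2 M - 1`. -/
theorem exact_high (M : ℕ) : ∃ r₀ K : ℕ, ∀ r d : ℕ, r₀ ≤ r → 2 * M ≤ d + 1 →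
    ∀ (k : ℕ) (m : Fin k → ℕ), (∀ i, m i ≤ M) →
    (3 * M ≤ d + 1 ∨ ∃ μ, 1 ≤ μ ∧ 2 * μ + M ≤ d + 1 ∧
      K * r ^ (d - μ) ≤ (univ.filter fun i => m i = μ).card) →
    ForGeneralPoints r k fun p => ImposesMaximalConditions r d p m := by
  obtain ⟨r₁, h1⟩ := exact_three M
  choose K₂ r₂ h2 using exact_many
  refine ⟨r₁ + (range (3 * M)).sup r₂ + 1, (range (3 * M)).sup K₂ + 1,
    fun r d hr hd k m hm hcase => ?_⟩
  by_cases hdM : 3 * M ≤ d + 1
  · exact h1 r (by omega) d hdM k m hm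
  · rcases hcase with hcase | ⟨μ, hμ1, hμ2, hμ3⟩
    · exact absurd hcase hdM
    · have hr2 : r₂ d ≤ (range (3 * M)).sup r₂ := le_sup (f := r₂) (mem_range.2 (by omega))
      have hK2 : K₂ d ≤ (range (3 * M)).sup K₂ := le_sup (f := K₂) (mem_range.2 (by omega))
      have hr1 : 1 ≤ r := by omega
      have hpow : 1 ≤ r ^ (d - μ) := Nat.one_le_pow _ _ hr1
      have hK1 : 1 ≤ (univ.filter fun i => m i = μ).card := by
        refine le_trans ?_ hμ3
        calc 1 = 1 * 1 := rfl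
          _ ≤ _ := Nat.mul_le_mul (by omega) hpow
      obtain ⟨i, hi⟩ := card_pos.1 hK1
      have hμM : μ ≤ M := by
        rw [← (mem_filter.1 hi).2]
        exact hm i
      refine h2 d r (by omega) μ M hμ1 hμM hd hμ2 k m hm (le_trans ?_ hμ3)
      exact Nat.mul_le_mul_right _ (by omega)

end Pool.Agent.H21.NX

end

section

/-!
# Module VReg: the region of exactness, every dimension
-/

namespace Pool.Agent.H21.NX

open Finset Pool.Agent.H18.Ex
open Pool.Agent.H18.Fat hiding Rg mem_Rg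

theorem PE.cF : PE 15 fun M => cF M 1 := by
  have h0 : (fun M => Pool.Agent.H18.Ex.cF M 1) = fun M => (1 + 1) ^ 1 *
      Pool.Agent.H18.Ex.cC 1 M * (4 * Pool.Agent.H18.Ex.cB 1 M 1 (Pool.Agent.H18.Ex.cC 1 M) +
        cq 1 M + 2) ^ (1 + 1) + 2 * M + Pool.Agent.H18.Ex.cB 1 M 1 (Pool.Agent.H18.Ex.cC 1 M) +
      2 * Pool.Agent.H18.Ex.cB 1 M 1 (Pool.Agent.H18.Ex.cC 1 M) + 2 * M + 2 + 1 := rfl
  rw [h0]
  have hq : PE 5 fun M => cq 1 M := by
    unfold cq
    exact (((PE.const 32 0).mul PE.id).mul (PE.const ((1 + 1) ^ 3) 0)).mono (by omega)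
  have h1 : PE 5 fun M => 4 * Pool.Agent.H18.Ex.cB 1 M 1 (Pool.Agent.H18.Ex.cC 1 M) +
      cq 1 M + 2 := ((((PE.const 4 0).mul PE.cB).mono (by omega)).add hq).add (PE.const 2 5)
  have h2 : PE 15 fun M => (1 + 1) ^ 1 * Pool.Agent.H18.Ex.cC 1 M *
      (4 * Pool.Agent.H18.Ex.cB 1 M 1 (Pool.Agent.H18.Ex.cC 1 M) + cq 1 M + 2) ^ (1 + 1) :=
    (((PE.const ((1 + 1) ^ 1) 0).mul PE.cC).mul h1.sq).mono (by omega)
  have h3 : PE 15 fun M => 2 * M := ((PE.const 2 0).mul PE.id).mono (by omega)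
  have h4 : PE 15 fun M => Pool.Agent.H18.Ex.cB 1 M 1 (Pool.Agent.H18.Ex.cC 1 M) :=
    PE.cB.mono (by omega)
  have h5 : PE 15 fun M => 2 * Pool.Agent.H18.Ex.cB 1 M 1 (Pool.Agent.H18.Ex.cC 1 M) :=
    ((PE.const 2 0).mul PE.cB).mono (by omega)
  exact (((((h2.add h3).add h4).add h5).add h3).add (PE.const 2 15)).add (PE.const 1 15)

/-- Exactness from the theorem for a fixed dimension. -/
theorem exact_fat (s M : ℕ) (hM : 1 ≤ M) : ∀ d, cF M s ≤ d →
    ∀ (k : ℕ) (m : Fin k → ℕ), (∀ i, m i ≤ M) →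
    ForGeneralPoints (s + 1) k fun p => ImposesMaximalConditions (s + 1) d p m := by
  intro d hd k m hm
  have hpos := cF_pos M s
  have hE : Exa (s + 1) M (Rg d fun _ : Fin (s + 2) => d) := by
    apply exa_fat M hM s
    refine ⟨?_, hd, fun l _ => hd, ?_⟩
    · rw [filter_true_of_mem fun l _ => (by omega : 0 < d), card_univ, Fintype.card_fin]
    · rw [sum_const, card_univ, Fintype.card_fin, smul_eq_mul]
      have : (s + 2) * d = s * d + 2 * d := by ring
      omega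
  rw [Rg_eq_Sx] at hE
  refine max_of_GM (s + 1) k d (by omega) m ?_
  rw [← aug_map]
  refine hE (aug (s + 1) d m) (mem_aug hM hm) ?_
  rw [card_Sx]
  exact le_tot_aug _ _ m

/-- The case `r - 1 < M`, `r ≥ 3`, with real numbers. -/
theorem region_mid (s M : ℕ) (hs : 2 ≤ s) (hM : 1 ≤ M) (hsM : s ≤ M) (d : ℕ)
    (hd : (2 : ℝ) ^ 37 * (M : ℝ) ^ (12 / (s : ℝ)) * M ^ 4 / s ^ 3 ≤ d) :
    ∀ (k : ℕ) (m : Fin k → ℕ), (∀ i, m i ≤ M) →
    ForGeneralPoints (s + 1) k fun p => ImposesMaximalConditions (s + 1) d p m := by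
  have hs0 : (0 : ℝ) < s := by
    have : 0 < s := by omega
    exact_mod_cast this
  have hM0 : (1 : ℝ) ≤ M := by exact_mod_cast hM
  have hMpos : (0 : ℝ) < M := by linarith only [hM0]
  -- `t`
  obtain ⟨t, ht⟩ : ∃ t, t = (M + s - 1) / s := ⟨_, rfl⟩
  have ht1 : t * s ≤ M + s - 1 := by rw [ht]; exact Nat.div_mul_le_self _ _
  have ht2 : M ≤ t * s := by
    have h1 := Nat.div_add_mod (M + s - 1) s
    have h2 := Nat.mod_lt (M + s - 1) (show 0 < s by omega)
    rw [← ht, mul_comm] at h1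
    omega
  have ht3 : 1 ≤ t := by
    rcases Nat.eq_zero_or_pos t with h | h
    · rw [h, Nat.zero_mul] at ht2
      omega
    · exact h
  have ht4 : t ≤ M := by
    by_contra hcon
    have h1 : (M + 1) * s ≤ t * s := Nat.mul_le_mul_right _ (by omega)
    have h2 : (M + 1) * s = M * s + s := by ring
    have h3 : M * 1 ≤ M * s := Nat.mul_le_mul_left _ (by omega)
    omega
  -- `c`
  obtain ⟨x, hx⟩ : ∃ x : ℝ, x = (M : ℝ) ^ (4 / (s : ℝ)) := ⟨_, rfl⟩
  have hx1 : 1 ≤ x := by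
    rw [hx]
    exact Real.one_le_rpow hM0 (by positivity)
  have hxs : x ^ s = (M : ℝ) ^ 4 := by
    rw [hx, ← Real.rpow_natCast, ← Real.rpow_mul hMpos.le, div_mul_cancel₀ _ hs0.ne']
    norm_cast
  have hx3 : x ^ 3 = (M : ℝ) ^ (12 / (s : ℝ)) := by
    rw [hx, ← Real.rpow_natCast, ← Real.rpow_mul hMpos.le]
    congr 1
    push_cast
    ring
  have hx2 : x ≤ (M : ℝ) ^ 2 := by
    rw [hx, ← Real.rpow_natCast]
    refine Real.rpow_le_rpow_of_exponent_le hM0 ?_
    rw [div_le_iff₀ hs0]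
    have : (2 : ℝ) ≤ s := by exact_mod_cast hs
    push_cast
    linarith only [this]
  obtain ⟨c, hc⟩ : ∃ c, c = ⌈x⌉₊ := ⟨_, rfl⟩
  have hcx : x ≤ c := by rw [hc]; exact Nat.le_ceil x
  have hc2 : (c : ℝ) ≤ 2 * x := by
    have := Nat.ceil_lt_add_one (show 0 ≤ x by linarith only [hx1])
    rw [← hc] at this
    linarith only [hx1, this]
  have hc1 : 1 ≤ c := by
    have : (1 : ℝ) ≤ c := le_trans hx1 hcx
    exact_mod_cast this
  have hcM : c ≤ M ^ 2 := by
    rw [hc]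
    refine Nat.ceil_le.2 ?_
    push_cast
    exact hx2
  have hcs : M ^ 4 ≤ c ^ s := by
    have h1 : (M : ℝ) ^ 4 ≤ (c : ℝ) ^ s := by
      rw [← hxs]
      exact pow_le_pow_left₀ (by linarith only [hx1]) hcx s
    exact_mod_cast h1
  refine region_one s M t c hs hM ht2 ht3 ht4 (by omega) hcs hcM hc1 d ?_
  have hts : (t : ℝ) * s ≤ 2 * M := by
    have : t * s ≤ 2 * M := by omega
    exact_mod_cast this
  have hfin : (2 : ℝ) ^ 30 * (c : ℝ) ^ 3 * (t : ℝ) ^ 4 * s ≤ d := by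
    refine le_trans ?_ hd
    rw [le_div_iff₀ (by positivity)]
    have h1 : (c : ℝ) ^ 3 ≤ 8 * x ^ 3 := by
      calc (c : ℝ) ^ 3 ≤ (2 * x) ^ 3 := pow_le_pow_left₀ (by positivity) hc2 3
        _ = 8 * x ^ 3 := by ring
    have h2 : ((t : ℝ) * s) ^ 4 ≤ 16 * (M : ℝ) ^ 4 := by
      calc ((t : ℝ) * s) ^ 4 ≤ (2 * (M : ℝ)) ^ 4 := pow_le_pow_left₀ (by positivity) hts 4
        _ = _ := by ring
    calc (2 : ℝ) ^ 30 * (c : ℝ) ^ 3 * (t : ℝ) ^ 4 * s * s ^ 3 =
        (2 : ℝ) ^ 30 * (c : ℝ) ^ 3 * ((t : ℝ) * s) ^ 4 := by ring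
      _ ≤ (2 : ℝ) ^ 30 * (8 * x ^ 3) * (16 * (M : ℝ) ^ 4) :=
          mul_le_mul (mul_le_mul_of_nonneg_left h1 (by positivity)) h2 (by positivity)
            (by positivity)
      _ = _ := by rw [← hx3]; ring
  exact_mod_cast hfin

/-- The region of exactness, every dimension. -/
theorem region_real : ∃ C : ℝ, 0 < C ∧ ∀ r M : ℕ, 1 ≤ r → 1 ≤ M → ∀ d : ℕ,
    C * M * (1 + (M : ℝ) / r) ^ 3 * (M : ℝ) ^ (22 / (r : ℝ)) ≤ d →
    ∀ (k : ℕ) (m : Fin k → ℕ), (∀ i, m i ≤ M) →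
    ForGeneralPoints r k fun p => ImposesMaximalConditions r d p m := by
  obtain ⟨K, hK⟩ := PE.cF
  refine ⟨2 ^ 162 + 8 * K, by positivity, fun r M hr hM d hd k m hm => ?_⟩
  have hM0 : (1 : ℝ) ≤ M := by exact_mod_cast hM
  have hMpos : (0 : ℝ) < M := by linarith only [hM0]
  have hK0 : (0 : ℝ) ≤ K := Nat.cast_nonneg K
  have hr0 : (0 : ℝ) < r := by exact_mod_cast hr
  have hpow : 1 ≤ (M : ℝ) ^ (22 / (r : ℝ)) := Real.one_le_rpow hM0 (by positivity)
  have hq : 1 ≤ 1 + (M : ℝ) / r := by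
    have : 0 ≤ (M : ℝ) / r := by positivity
    linarith only [this]
  have hq3 : 1 ≤ (1 + (M : ℝ) / r) ^ 3 := one_le_pow₀ hq
  have hlin : (2 : ℝ) ^ 162 * M ≤ d := by
    refine le_trans ?_ hd
    calc (2 : ℝ) ^ 162 * M = 2 ^ 162 * M * 1 * 1 := by ring
      _ ≤ (2 ^ 162 + 8 * K) * M * (1 + (M : ℝ) / r) ^ 3 * (M : ℝ) ^ (22 / (r : ℝ)) := by
          refine mul_le_mul (mul_le_mul (mul_le_mul_of_nonneg_right (by linarith only) hMpos.le) hq3
            (by norm_num) (by positivity)) hpow (by norm_num) (by positivity)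
  rcases Nat.lt_or_ge r 3 with h3 | h3
  · rcases Nat.lt_or_ge r 2 with h2 | h2
    · obtain rfl : r = 1 := by omega
      refine exact_fat 0 M hM d ?_ k m hm
      change 1 ≤ d
      have : (1 : ℝ) ≤ d := le_trans (by nlinarith only [hM0]) hlin
      exact_mod_cast this
    · obtain rfl : r = 2 := by omega
      refine exact_fat 1 M hM d (le_trans (hK M hM) ?_) k m hm
      have h4 : (K : ℝ) * (M : ℝ) ^ 15 ≤ d := by
        refine le_trans ?_ hd
        have e1 : (M : ℝ) ^ (22 / ((2 : ℕ) : ℝ)) = (M : ℝ) ^ 11 := by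
          rw [← Real.rpow_natCast]
          congr 1
          norm_num
        rw [e1]
        have e2 : (M : ℝ) ^ 3 / 8 ≤ (1 + (M : ℝ) / ((2 : ℕ) : ℝ)) ^ 3 := by
          calc (M : ℝ) ^ 3 / 8 = ((M : ℝ) / ((2 : ℕ) : ℝ)) ^ 3 := by
                push_cast
                ring
            _ ≤ _ := pow_le_pow_left₀ (by positivity) (by linarith only) 3
        calc (K : ℝ) * (M : ℝ) ^ 15 = (8 * K) * M * ((M : ℝ) ^ 3 / 8) * (M : ℝ) ^ 11 := by ring
          _ ≤ (2 ^ 162 + 8 * K) * M * (1 + (M : ℝ) / ((2 : ℕ) : ℝ)) ^ 3 * (M : ℝ) ^ 11 := by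
              refine mul_le_mul_of_nonneg_right (mul_le_mul (mul_le_mul_of_nonneg_right
                ?_ hMpos.le) e2 (by positivity) (by positivity)) (by positivity)
              have : (0 : ℝ) ≤ 2 ^ 162 := by positivity
              linarith only
      exact_mod_cast h4
  · obtain ⟨s, rfl⟩ : ∃ s, r = s + 1 := ⟨r - 1, by omega⟩
    rcases Nat.lt_or_ge s M with hsM | hsM
    · refine region_mid s M (by omega) hM hsM.le d ?_ k m hm
      refine le_trans ?_ hd
      have hs2 : (2 : ℝ) ≤ s := by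
        have : 2 ≤ s := by omega
        exact_mod_cast this
      have hs0 : (0 : ℝ) < s := by linarith only [hs2]
      have e1 : (M : ℝ) ^ (12 / (s : ℝ)) ≤ (M : ℝ) ^ (22 / ((s + 1 : ℕ) : ℝ)) := by
        refine Real.rpow_le_rpow_of_exponent_le hM0 ?_
        rw [div_le_div_iff₀ hs0 (by positivity)]
        push_cast
        linarith only [hs2]
      have e2 : (M : ℝ) ^ 3 / s ^ 3 ≤ 4 * (1 + (M : ℝ) / ((s + 1 : ℕ) : ℝ)) ^ 3 := by
        have h5 : (M : ℝ) / s ≤ 3 / 2 * ((M : ℝ) / ((s + 1 : ℕ) : ℝ)) := by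
          rw [← mul_div_assoc, div_le_div_iff₀ hs0 (by positivity)]
          push_cast
          nlinarith only [hs2]
        have h6 : 0 ≤ (M : ℝ) / ((s + 1 : ℕ) : ℝ) := by positivity
        calc (M : ℝ) ^ 3 / s ^ 3 = ((M : ℝ) / s) ^ 3 := by rw [div_pow]
          _ ≤ (3 / 2 * ((M : ℝ) / ((s + 1 : ℕ) : ℝ))) ^ 3 :=
              pow_le_pow_left₀ (by positivity) h5 3
          _ = 27 / 8 * ((M : ℝ) / ((s + 1 : ℕ) : ℝ)) ^ 3 := by ring
          _ ≤ 4 * ((M : ℝ) / ((s + 1 : ℕ) : ℝ)) ^ 3 :=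
              mul_le_mul_of_nonneg_right (by norm_num) (by positivity)
          _ ≤ _ := mul_le_mul_of_nonneg_left (pow_le_pow_left₀ h6 (by linarith only) 3) (by norm_num)
      calc (2 : ℝ) ^ 37 * (M : ℝ) ^ (12 / (s : ℝ)) * M ^ 4 / s ^ 3 =
          (2 : ℝ) ^ 37 * M * ((M : ℝ) ^ 3 / s ^ 3) * (M : ℝ) ^ (12 / (s : ℝ)) := by ring
        _ ≤ (2 : ℝ) ^ 37 * M * (4 * (1 + (M : ℝ) / ((s + 1 : ℕ) : ℝ)) ^ 3) *
            (M : ℝ) ^ (22 / ((s + 1 : ℕ) : ℝ)) :=
            mul_le_mul (mul_le_mul_of_nonneg_left e2 (by positivity)) e1 (by positivity)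
              (by positivity)
        _ = (2 ^ 37 * 4) * M * (1 + (M : ℝ) / ((s + 1 : ℕ) : ℝ)) ^ 3 *
            (M : ℝ) ^ (22 / ((s + 1 : ℕ) : ℝ)) := by ring
        _ ≤ _ := by
            refine mul_le_mul_of_nonneg_right (mul_le_mul_of_nonneg_right
              (mul_le_mul_of_nonneg_right ?_ hMpos.le) (by positivity)) (by positivity)
            have : (2 : ℝ) ^ 37 * 4 ≤ 2 ^ 162 := by norm_num
            linarith only
    · refine region_two s M (by omega) hM hsM d ?_ k m hm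
      exact_mod_cast hlin

end Pool.Agent.H21.NX

end

section

/-!
# Project TB: final theorems
-/

namespace Pool.Agent.H51.TB

open Finset MvPolynomial Pool.Agent.H18.Fat Pool.Agent.H18.Ex Pool.Agent.H21.NX

/-- Bounded multiplicities. -/
theorem bounded (η : ℝ) (hη : 0 < η) : ∃ C : ℝ, 0 < C ∧ ∃ r₀ K : ℕ → ℕ, ∀ r M d k : ℕ, 1 ≤ r →
    1 ≤ M → ∀ m : Fin k → ℕ, (∀ i, 1 ≤ m i ∧ m i ≤ M) →
    (C * M * (1 + (M : ℝ) / r) ^ 3 * (M : ℝ) ^ (22 / (r : ℝ)) ≤ d ∨
      (r₀ M ≤ r ∧ 2 * M ≤ d) ∨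
      (r₀ M ≤ r ∧ 2 * M ≤ d + 1 ∧
        (((univ.filter fun i => m i = M).card * (M + r - 1).choose r : ℕ) : ℝ) ≤
          (1 - η) * ((d + r).choose r : ℝ)) ∨
      (r₀ M ≤ r ∧ 2 * M ≤ d + 1 ∧ ∃ μ, 1 ≤ μ ∧ 2 * μ + M ≤ d + 1 ∧
        K M * r ^ (d - μ) ≤ (univ.filter fun i => m i = μ).card)) →
    ForGeneralPoints r k fun p => ImposesMaximalConditions r d p m := by
  obtain ⟨C, hC, h1⟩ := Pool.Agent.H21.NX.region_real
  choose r₁ K h2 using Pool.Agent.H21.NX.exact_high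
  choose R hR using fun d => pairs_all d (min η 1) (lt_min hη one_pos)
  have key : ∀ M r d k : ℕ, r₁ M + (range (3 * M)).sup R ≤ r → 2 * M ≤ d + 1 →
      ∀ m : Fin k → ℕ, (∀ i, 1 ≤ m i ∧ m i ≤ M) →
      (2 * M ≤ d ∨ (((univ.filter fun i => m i = M).card * (M + r - 1).choose r : ℕ) : ℝ) ≤
          (1 - η) * ((d + r).choose r : ℝ)) →
      ForGeneralPoints r k fun p => ImposesMaximalConditions r d p m := by
    intro M r d k hr hd m hm hcase
    by_cases h3 : 3 * M ≤ d + 1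
    · exact h2 M r d (by omega) hd k m (fun i => (hm i).2) (Or.inl h3)
    · have hRd : R d ≤ (range (3 * M)).sup R := le_sup (f := R) (mem_range.2 (by omega))
      refine hR d r (by omega) k m (fun i => (hm i).1) (fun i j _ => ?_) ?_
      · have := (hm i).2
        have := (hm j).2
        omega
      · have hN : (0 : ℝ) ≤ ((d + r).choose r : ℝ) := Nat.cast_nonneg _
        have e1 : min η 1 ≤ η := min_le_left _ _
        have e2 : min η 1 ≤ 1 := min_le_right _ _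
        by_cases h4 : 2 * M ≤ d
        · have hempty : (univ.filter fun i => 2 * m i = d + 1) = ∅ := by
            rw [filter_eq_empty_iff]
            intro i _ hi
            have := (hm i).2
            omega
          rw [hempty, sum_empty, Nat.cast_zero]
          nlinarith
        · rcases hcase with h5 | h5
          · exact absurd h5 h4
          · have hf : (univ.filter fun i => 2 * m i = d + 1) = univ.filter fun i => m i = M := by
              refine filter_congr fun i _ => ?_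
              constructor <;> intro h <;> omega
            have hs : ∑ i ∈ univ.filter (fun i => 2 * m i = d + 1), ell r (m i) =
                (univ.filter fun i => m i = M).card * (M + r - 1).choose r := by
              rw [hf]
              rw [sum_congr rfl (g := fun _ => (M + r - 1).choose r)]
              · rw [sum_const, smul_eq_mul]
              · intro i hi
                rw [(mem_filter.1 hi).2]
                rfl
            rw [hs]
            refine h5.trans ?_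
            nlinarith
  refine ⟨C, hC, fun M => r₁ M + (range (3 * M)).sup R, K, fun r M d k hr hM m hm hcase => ?_⟩
  rcases hcase with h | ⟨h3, h4⟩ | ⟨h3, h4, h5⟩ | ⟨h3, h4, h5⟩
  · exact h1 r M hr hM d h k m (fun i => (hm i).2)
  · exact key M r d k h3 (by omega) m hm (Or.inl h4)
  · exact key M r d k h3 h4 m hm (Or.inr h5)
  · have h6 : r₁ M + (range (3 * M)).sup R ≤ r := h3
    exact h2 M r d (by omega) h4 k m (fun i => (hm i).2) (Or.inr h5)

end Pool.Agent.H51.TB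

end
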