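import Pool.Agent.H94.LP2.M19
import Pool.Agent.H94.LP2.M21
import Pool.Agent.H94.LP2.M39

/-! The parts of this file: H21.TC.Bnd, H21.TC.Mov, H21.TC.Adj. -/

section

/-!
# TC5: lower bounds for the masses, for general weights

As `Pool/Agent/H51/TB/Bnd.lean` (complete; copy it): `Eg a b g` becomes `W a b g`, `wt a b d μ x j` becomes
`wtw d μ (W a b) x j`, `asy` becomes `hW`, and `1 ≤ a → 1 ≤ b` becomes `2 ≤ a → 2 ≤ b`.
-/

namespace Pool.Agent.H21.TC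

open Finset Pool.Agent.H18.Ex Pool.Agent.H21.NX Pool.Agent.H18.Ta Pool.Agent.H51.TB

theorem W_ge (d : ℕ) (W : ℕ → ℕ → ℕ × ℕ → ℕ) (hW : AsyW W) :
    ∃ κ : ℝ, 0 < κ ∧ ∃ ε : ℝ, 0 < ε ∧ ∃ n₀ : ℕ, ∀ a b : ℕ, 2 ≤ a → 2 ≤ b →
    n₀ ≤ a + b → |(a : ℝ) - b| ≤ ε * (a + b : ℕ) → ∀ g : ℕ × ℕ, g.1 + g.2 ≤ d →
    κ * (ell (a + b - 1) (g.1 + g.2 + 1) : ℝ) ≤ (W a b g : ℝ) := by
  have hδ : (0 : ℝ) < 1 / 2 ^ (d + 1) := by positivity
  choose ε hε n0 h using fun p q : ℕ => hW p q (1 / 2 ^ (d + 1)) hδ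
  obtain ⟨S, hS⟩ : ∃ S : Finset (ℕ × ℕ), S = range (d + 1) ×ˢ range (d + 1) := ⟨_, rfl⟩
  have hne : S.Nonempty := by
    rw [hS]
    exact ⟨(0, 0), by simp⟩
  refine ⟨1 / 2 ^ (d + 1), hδ, S.inf' hne fun x => ε x.1 x.2, ?_, S.sup fun x => n0 x.1 x.2, ?_⟩
  · rw [Finset.lt_inf'_iff]
    exact fun x _ => hε x.1 x.2
  · intro a b ha hb hn hab g hg
    have hgS : g ∈ S := by
      rw [hS, mem_product, mem_range, mem_range]
      omega
    have h1 : n0 g.1 g.2 ≤ a + b := (Finset.le_sup (f := fun x : ℕ × ℕ => n0 x.1 x.2) hgS).trans hn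
    have h2 : |(a : ℝ) - b| ≤ ε g.1 g.2 * (a + b : ℕ) := by
      refine hab.trans (mul_le_mul_of_nonneg_right ?_ (Nat.cast_nonneg _))
      exact Finset.inf'_le (fun x : ℕ × ℕ => ε x.1 x.2) hgS
    have h3 := h g.1 g.2 a b ha hb h1 h2
    have h4 := (abs_le.1 h3).1
    have h5 : (1 : ℝ) / 2 ^ d ≤ ((g.1 + g.2).choose g.2 : ℝ) / 2 ^ (g.1 + g.2) := by
      have h6 : (1 : ℝ) ≤ ((g.1 + g.2).choose g.2 : ℝ) := by
        exact_mod_cast Nat.choose_pos (Nat.le_add_left g.2 g.1)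
      have h7 : (2 : ℝ) ^ (g.1 + g.2) ≤ 2 ^ d := pow_le_pow_right₀ (by norm_num) hg
      have h8 : (0 : ℝ) < 2 ^ (g.1 + g.2) := by positivity
      calc (1 : ℝ) / 2 ^ d ≤ 1 / 2 ^ (g.1 + g.2) := one_div_le_one_div_of_le h8 h7
        _ ≤ ((g.1 + g.2).choose g.2 : ℝ) / 2 ^ (g.1 + g.2) := div_le_div_of_nonneg_right h6 h8.le
    have h6 : (1 : ℝ) / 2 ^ d = 2 * (1 / 2 ^ (d + 1)) := by
      rw [pow_succ]
      field_simp
    have h7 : (0 : ℝ) ≤ (ell (a + b - 1) (g.1 + g.2 + 1) : ℝ) := Nat.cast_nonneg _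
    have h8 := mul_le_mul_of_nonneg_right h5 h7
    have h9 : (W a b g : ℝ) = (W a b (g.1, g.2) : ℝ) := rfl
    rw [h9]
    rw [h6] at h8
    linarith

theorem massw (d : ℕ) (κ : ℝ) (hκ : 0 < κ) (W : ℕ → ℕ → ℕ × ℕ → ℕ) (hW : AsyW W) :
    ∃ ε : ℝ, 0 < ε ∧ ∃ n₀ : ℕ, ∀ a b : ℕ, 2 ≤ a → 2 ≤ b →
    n₀ ≤ a + b → |(a : ℝ) - b| ≤ ε * (a + b : ℕ) → ∀ M μ : ℕ, 1 ≤ μ → μ ≤ M → μ + M ≤ d →
    ∀ c : ℕ × ℕ → ℕ,
    (∀ x ∈ KK d, x.2 ≤ μ →
      κ * (ell (a + b - 1) (d + 1) : ℝ) ≤ (c x : ℝ) * (ell (a + b - 1) μ : ℝ)) →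
    (∀ j ≤ d, ∀ t, 1 ≤ t → t < μ → ell (a + b) (t + 1) * ell (a + b) M ≤
      ∑ x ∈ KK d, if cls d μ x j = t then c x * wtw d μ (W a b) x j else 0) ∧
    (∀ j ≤ d, ell (a + b) (d + 1 - M) * ell (a + b) M ≤
      ∑ x ∈ KK d, if cls d μ x j = μ then c x * wtw d μ (W a b) x j else 0) := by
  obtain ⟨κ₀, hκ₀, ε, hε, n1, hE⟩ := W_ge d W hW
  obtain ⟨n2, h2⟩ := grow_three d (1 / (κ * κ₀))
  obtain ⟨n3, h3⟩ := grow_big d (1 / (κ * κ₀))
  refine ⟨ε, hε, max n1 (max n2 n3), ?_⟩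
  intro a b ha hb hn hab M μ hμ hμM hMd c hc
  have hn1 : n1 ≤ a + b := (le_max_left _ _).trans hn
  have hn2 : n2 ≤ a + b := ((le_max_left _ _).trans (le_max_right _ _)).trans hn
  have hn3 : n3 ≤ a + b := ((le_max_right _ _).trans (le_max_right _ _)).trans hn
  have hKK : 0 < κ * κ₀ := mul_pos hκ hκ₀
  have hkey : ∀ j ≤ d, ∀ t, 1 ≤ t → t ≤ μ → ∃ s : ℕ,
      s ≤ (∑ x ∈ KK d, if cls d μ x j = t then c x * wtw d μ (W a b) x j else 0) ∧
      κ * κ₀ * ((ell (a + b - 1) t : ℝ) * ell (a + b - 1) (d + 1)) ≤ (s : ℝ) * (ell (a + b - 1) μ : ℝ) := by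
    intro j hj t ht htμ
    obtain ⟨x, hx, hxμ, hxt⟩ := cell (d := d) (μ := μ) (j := j) (t := t) (by omega) hj ht htμ
    obtain ⟨g, hg, hgt⟩ := cls_attained (d := d) (m := μ) (j := j) x (by omega)
    refine ⟨c x * wtw d μ (W a b) x j, ?_, ?_⟩
    · have h4 := Finset.single_le_sum (f := fun x => if cls d μ x j = t then c x * wtw d μ (W a b) x j else 0)
        (fun y _ => Nat.zero_le _) hx
      rw [if_pos hxt] at h4
      exact h4
    · have h4 : W a b g ≤ wtw d μ (W a b) x j :=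
        Finset.single_le_sum (f := fun g => W a b g) (fun y _ => Nat.zero_le _) hg
      have h5 := hE a b ha hb hn1 hab g (by omega)
      rw [hgt, hxt] at h5
      have h6 := hc x hx hxμ
      have h7 : (W a b g : ℝ) ≤ (wtw d μ (W a b) x j : ℝ) := by exact_mod_cast h4
      have h8 : κ₀ * (ell (a + b - 1) t : ℝ) ≤ (wtw d μ (W a b) x j : ℝ) := h5.trans h7
      have h9 : 0 ≤ κ₀ * (ell (a + b - 1) t : ℝ) := by positivity
      have h10 : (0 : ℝ) ≤ (c x : ℝ) * (ell (a + b - 1) μ : ℝ) := by positivity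
      push_cast
      calc κ * κ₀ * ((ell (a + b - 1) t : ℝ) * ell (a + b - 1) (d + 1))
          = (κ * (ell (a + b - 1) (d + 1) : ℝ)) * (κ₀ * (ell (a + b - 1) t : ℝ)) := by ring
        _ ≤ ((c x : ℝ) * (ell (a + b - 1) μ : ℝ)) * (κ₀ * (ell (a + b - 1) t : ℝ)) :=
            mul_le_mul_of_nonneg_right h6 h9
        _ ≤ ((c x : ℝ) * (ell (a + b - 1) μ : ℝ)) * (wtw d μ (W a b) x j : ℝ) :=
            mul_le_mul_of_nonneg_left h8 h10
        _ = (c x : ℝ) * (wtw d μ (W a b) x j : ℝ) * (ell (a + b - 1) μ : ℝ) := by ring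
  have hμpos : (0 : ℝ) < (ell (a + b - 1) μ : ℝ) := by
    have h4 : 0 < ell (a + b - 1) μ := by
      unfold ell
      exact Nat.choose_pos (by omega)
    exact_mod_cast h4
  constructor
  · intro j hj t ht htμ
    obtain ⟨s, hs1, hs2⟩ := hkey j hj t ht htμ.le
    refine le_trans ?_ hs1
    have h4 := h2 (a + b) hn2 t M μ ht (by omega) hμ (by omega) (by omega)
    rw [one_div, inv_mul_le_iff₀ hKK] at h4
    have h5 := h4.trans hs2
    have h6 : (ell (a + b) (t + 1) : ℝ) * ell (a + b) M ≤ s := le_of_mul_le_mul_right h5 hμpos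
    exact_mod_cast h6
  · intro j hj
    obtain ⟨s, hs1, hs2⟩ := hkey j hj μ hμ le_rfl
    refine le_trans ?_ hs1
    have h4 := h3 (a + b) hn3 M (by omega) (by omega)
    rw [one_div, inv_mul_le_iff₀ hKK] at h4
    have h5 : κ * κ₀ * (ell (a + b - 1) (d + 1) : ℝ) ≤ s := by
      have h6 : κ * κ₀ * (ell (a + b - 1) (d + 1) : ℝ) * (ell (a + b - 1) μ : ℝ) ≤ s * (ell (a + b - 1) μ : ℝ) := by
        calc κ * κ₀ * (ell (a + b - 1) (d + 1) : ℝ) * (ell (a + b - 1) μ : ℝ)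
            = κ * κ₀ * ((ell (a + b - 1) μ : ℝ) * ell (a + b - 1) (d + 1)) := by ring
          _ ≤ _ := hs2
      exact le_of_mul_le_mul_right h6 hμpos
    have h6 := h4.trans h5
    exact_mod_cast h6

end Pool.Agent.H21.TC

end

section

/-!
# TC2: moving a point, for a general weight

As `Pool/Agent/H51/TB/Mov.lean` (complete; copy it and replace `Eg a b g` by `w g`).  `Mvw_one`, `Mvw_two`,
`Mvw_zero`: the filter is `{(0, 0)}`, `{(1, 0), (0, 1)}`, `{(t, 0)}`; use `IsWt` (`multichoose (a - 1) 0 = 1`,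
`multichoose (a - 1) 1 = a - 1`).  `Mvw_le`: `Mvw d m w s ρ ≤ Mv a b d m s ρ ≤ ell (a + b) m` (`IsWt.le`, the
public `Mv_le` of `Pool/Agent/H51/TB/Mov.lean`; import that file).
-/

namespace Pool.Agent.H21.TC

open Finset Pool.Agent.H18.Ex Pool.Agent.H21.NX Pool.Agent.H18.Ta Pool.Agent.H51.TB

private theorem MovT_wr_ne {d s ρ j : ℕ} (hs : s + ρ + 1 ≤ d) (hj : j ≤ d) (g : ℕ × ℕ) (h1 : j ≠ s)
    (h2 : j ≠ s + ρ + 1) : wr d (s, ρ + 1) g j = wr d (s, ρ) g j := by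
  unfold wr
  congr 1
  refine filter_congr fun i hi => ?_
  have hi' : i < d + 1 := mem_range.1 hi
  have hk : rk (d + 1) s (ρ + 1) i < rk (d + 1) s (ρ + 1) j ↔ rk (d + 1) s ρ i < rk (d + 1) s ρ j := by
    unfold rk
    split_ifs <;> omega
  show (g.2 ≤ i ∧ i + g.1 ≤ d ∧ rk (d + 1) s (ρ + 1) i < rk (d + 1) s (ρ + 1) j) ↔
    (g.2 ≤ i ∧ i + g.1 ≤ d ∧ rk (d + 1) s ρ i < rk (d + 1) s ρ j)
  rw [hk]

/-- both levels in the window -/
private theorem MovT_wr_both {d s ρ : ℕ} (hs : s + ρ + 1 ≤ d) (g : ℕ × ℕ) (h1 : g.2 ≤ s)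
    (h2 : g.1 + s + ρ + 1 ≤ d) : wr d (s, ρ) g s = ρ ∧ wr d (s, ρ + 1) g s = ρ + 1 ∧
      wr d (s, ρ) g (s + ρ + 1) = ρ + 1 ∧ wr d (s, ρ + 1) g (s + ρ + 1) = ρ := by
  refine ⟨?_, ?_, ?_, ?_⟩
  · have h : ((range (d + 1)).filter fun i => g.2 ≤ i ∧ i + g.1 ≤ d ∧
        rk (d + 1) s ρ i < rk (d + 1) s ρ s) = Ioc s (s + ρ) := by
      ext i
      rw [mem_filter, mem_range, mem_Ioc]
      unfold rk
      split_ifs <;> omega
    unfold wr
    show ((range (d + 1)).filter fun i => g.2 ≤ i ∧ i + g.1 ≤ d ∧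
        rk (d + 1) s ρ i < rk (d + 1) s ρ s).card = ρ
    rw [h, Nat.card_Ioc]
    omega
  · have h : ((range (d + 1)).filter fun i => g.2 ≤ i ∧ i + g.1 ≤ d ∧
        rk (d + 1) s (ρ + 1) i < rk (d + 1) s (ρ + 1) s) = Ioc s (s + ρ + 1) := by
      ext i
      rw [mem_filter, mem_range, mem_Ioc]
      unfold rk
      split_ifs <;> omega
    unfold wr
    show ((range (d + 1)).filter fun i => g.2 ≤ i ∧ i + g.1 ≤ d ∧
        rk (d + 1) s (ρ + 1) i < rk (d + 1) s (ρ + 1) s).card = ρ + 1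
    rw [h, Nat.card_Ioc]
    omega
  · have h : ((range (d + 1)).filter fun i => g.2 ≤ i ∧ i + g.1 ≤ d ∧
        rk (d + 1) s ρ i < rk (d + 1) s ρ (s + ρ + 1)) = Icc s (s + ρ) := by
      ext i
      rw [mem_filter, mem_range, mem_Icc]
      unfold rk
      split_ifs <;> omega
    unfold wr
    show ((range (d + 1)).filter fun i => g.2 ≤ i ∧ i + g.1 ≤ d ∧
        rk (d + 1) s ρ i < rk (d + 1) s ρ (s + ρ + 1)).card = ρ + 1
    rw [h, Nat.card_Icc]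
    omega
  · have h : ((range (d + 1)).filter fun i => g.2 ≤ i ∧ i + g.1 ≤ d ∧
        rk (d + 1) s (ρ + 1) i < rk (d + 1) s (ρ + 1) (s + ρ + 1)) = Ioc s (s + ρ) := by
      ext i
      rw [mem_filter, mem_range, mem_Ioc]
      unfold rk
      split_ifs <;> omega
    unfold wr
    show ((range (d + 1)).filter fun i => g.2 ≤ i ∧ i + g.1 ≤ d ∧
        rk (d + 1) s (ρ + 1) i < rk (d + 1) s (ρ + 1) (s + ρ + 1)).card = ρ
    rw [h, Nat.card_Ioc]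
    omega

private theorem MovT_wr_lo {d s ρ : ℕ} (hs : s + ρ + 1 ≤ d) (g : ℕ × ℕ)
    (h2 : ¬ g.1 + s + ρ + 1 ≤ d) : wr d (s, ρ + 1) g s = wr d (s, ρ) g s := by
  unfold wr
  congr 1
  refine filter_congr fun i hi => ?_
  have hi' : i < d + 1 := mem_range.1 hi
  show (g.2 ≤ i ∧ i + g.1 ≤ d ∧ rk (d + 1) s (ρ + 1) i < rk (d + 1) s (ρ + 1) s) ↔
    (g.2 ≤ i ∧ i + g.1 ≤ d ∧ rk (d + 1) s ρ i < rk (d + 1) s ρ s)
  unfold rk
  split_ifs <;> omega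

private theorem MovT_wr_hi {d s ρ : ℕ} (hs : s + ρ + 1 ≤ d) (g : ℕ × ℕ)
    (h1 : ¬ g.2 ≤ s) : wr d (s, ρ + 1) g (s + ρ + 1) = wr d (s, ρ) g (s + ρ + 1) := by
  unfold wr
  congr 1
  refine filter_congr fun i hi => ?_
  have hi' : i < d + 1 := mem_range.1 hi
  show (g.2 ≤ i ∧ i + g.1 ≤ d ∧ rk (d + 1) s (ρ + 1) i < rk (d + 1) s (ρ + 1) (s + ρ + 1)) ↔
    (g.2 ≤ i ∧ i + g.1 ≤ d ∧ rk (d + 1) s ρ i < rk (d + 1) s ρ (s + ρ + 1))
  unfold rk
  split_ifs <;> omega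

private theorem MovT_point {d m s ρ j : ℕ} (hs : s + ρ + 1 ≤ d) (hj : j ≤ d) (g : ℕ × ℕ) (E : ℕ) :
    (if g.2 ≤ j ∧ j + g.1 ≤ d ∧ g.1 + g.2 + wr d (s, ρ + 1) g j < m then E else 0) +
      (if j = s then (if g.1 + g.2 + ρ + 1 = m ∧ g.2 ≤ s ∧ g.1 + s + ρ + 1 ≤ d then E else 0) else 0) =
    (if g.2 ≤ j ∧ j + g.1 ≤ d ∧ g.1 + g.2 + wr d (s, ρ) g j < m then E else 0) +
      (if j = s + ρ + 1 then
        (if g.1 + g.2 + ρ + 1 = m ∧ g.2 ≤ s ∧ g.1 + s + ρ + 1 ≤ d then E else 0) else 0) := by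
  by_cases h1 : j = s
  · subst h1
    by_cases h2 : g.1 + j + ρ + 1 ≤ d
    · by_cases h3 : g.2 ≤ j
      · obtain ⟨w1, w2, -, -⟩ := MovT_wr_both hs g h3 h2
        rw [w1, w2]
        split_ifs <;> omega
      · split_ifs <;> omega
    · rw [MovT_wr_lo hs g h2]
      split_ifs <;> omega
  · by_cases h4 : j = s + ρ + 1
    · subst h4
      by_cases h3 : g.2 ≤ s
      · by_cases h2 : g.1 + s + ρ + 1 ≤ d
        · obtain ⟨-, -, w1, w2⟩ := MovT_wr_both hs g h3 h2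
          rw [w1, w2]
          split_ifs <;> omega
        · split_ifs <;> omega
      · rw [MovT_wr_hi hs g h3]
        split_ifs <;> omega
    · rw [MovT_wr_ne hs hj g h1 h4, if_neg h1, if_neg h4]

theorem wtw_move {d m s ρ : ℕ} (w : ℕ × ℕ → ℕ) (hs : s + ρ + 1 ≤ d) (j : ℕ) (hj : j ≤ d) :
    wtw d m w (s, ρ + 1) j + (if j = s then Mvw d m w s ρ else 0) =
      wtw d m w (s, ρ) j + (if j = s + ρ + 1 then Mvw d m w s ρ else 0) := by
  have hM : ∀ P : Prop, ∀ _ : Decidable P, (if P then Mvw d m w s ρ else 0) =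
      ∑ g ∈ range m ×ˢ range m, (if P then
        (if g.1 + g.2 + ρ + 1 = m ∧ g.2 ≤ s ∧ g.1 + s + ρ + 1 ≤ d then w g else 0) else 0) := by
    intro P _
    by_cases hP : P
    · rw [if_pos hP]
      unfold Mvw
      rw [sum_filter]
      exact sum_congr rfl fun g _ => by rw [if_pos hP]
    · rw [if_neg hP]
      symm
      exact sum_eq_zero fun g _ => by rw [if_neg hP]
  rw [hM, hM]
  unfold wtw Lam
  rw [sum_filter, sum_filter, ← sum_add_distrib, ← sum_add_distrib]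
  exact sum_congr rfl fun g _ => MovT_point hs hj g (w g)

theorem Prw_move {d m s ρ : ℕ} (w : ℕ × ℕ → ℕ) (hs : s + ρ + 1 ≤ d) (j : ℕ) (hj : j ≤ d) :
    Prw d m w (s, ρ + 1) j + (if s ≤ j ∧ j ≤ s + ρ then Mvw d m w s ρ else 0) =
      Prw d m w (s, ρ) j := by
  have h : ∑ i ∈ range (j + 1), (wtw d m w (s, ρ + 1) i + (if i = s then Mvw d m w s ρ else 0)) =
      ∑ i ∈ range (j + 1), (wtw d m w (s, ρ) i + (if i = s + ρ + 1 then Mvw d m w s ρ else 0)) :=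
    sum_congr rfl fun i hi => wtw_move w hs i (by have := mem_range.1 hi; omega)
  rw [sum_add_distrib, sum_add_distrib, sum_ite_eq', sum_ite_eq'] at h
  simp only [mem_range] at h
  unfold Prw
  revert h
  generalize ∑ i ∈ range (j + 1), wtw d m w (s, ρ + 1) i = A
  generalize ∑ i ∈ range (j + 1), wtw d m w (s, ρ) i = B
  generalize Mvw d m w s ρ = C
  intro h
  split_ifs at h ⊢ <;> omega

theorem Mvw_one {a b d m s : ℕ} {w : ℕ × ℕ → ℕ} (hw : IsWt a b w) (hm : 1 ≤ m) (hs : s + m ≤ d) :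
    Mvw d m w s (m - 1) = 1 := by
  have h : ((range m ×ˢ range m).filter fun g : ℕ × ℕ =>
      g.1 + g.2 + (m - 1) + 1 = m ∧ g.2 ≤ s ∧ g.1 + s + (m - 1) + 1 ≤ d) = {((0, 0) : ℕ × ℕ)} := by
    ext g
    rw [mem_filter, mem_product, mem_range, mem_range, mem_singleton, Prod.ext_iff]
    show _ ↔ g.1 = 0 ∧ g.2 = 0
    omega
  unfold Mvw
  rw [h, sum_singleton, hw.zero, Nat.multichoose_zero_right]

theorem Mvw_two {a b d m s : ℕ} {w : ℕ × ℕ → ℕ} (hw : IsWt a b w) (ha : 1 ≤ a) (hb : 1 ≤ b)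
    (hm : 2 ≤ m) (h1 : 1 ≤ s) (hs : s + m ≤ d) : Mvw d m w s (m - 2) = a + b - 2 := by
  have h : ((range m ×ˢ range m).filter fun g : ℕ × ℕ =>
      g.1 + g.2 + (m - 2) + 1 = m ∧ g.2 ≤ s ∧ g.1 + s + (m - 2) + 1 ≤ d) =
      {((1, 0) : ℕ × ℕ), ((0, 1) : ℕ × ℕ)} := by
    ext g
    rw [mem_filter, mem_product, mem_range, mem_range, mem_insert, mem_singleton, Prod.ext_iff,
      Prod.ext_iff]
    show _ ↔ (g.1 = 1 ∧ g.2 = 0) ∨ (g.1 = 0 ∧ g.2 = 1)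
    omega
  unfold Mvw
  rw [h, sum_pair (by decide), hw.zero, hw.one, Nat.multichoose_one_right]
  omega

theorem Mvw_zero {a b d m t : ℕ} {w : ℕ × ℕ → ℕ} (hw : IsWt a b w) (hm : m ≤ d) (ht : t + 1 ≤ m) :
    Mvw d m w 0 (m - 1 - t) = Nat.multichoose (a - 1) t := by
  have h : ((range m ×ˢ range m).filter fun g : ℕ × ℕ =>
      g.1 + g.2 + (m - 1 - t) + 1 = m ∧ g.2 ≤ 0 ∧ g.1 + 0 + (m - 1 - t) + 1 ≤ d) = {((t, 0) : ℕ × ℕ)} := by
    ext g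
    rw [mem_filter, mem_product, mem_range, mem_range, mem_singleton, Prod.ext_iff]
    show _ ↔ g.1 = t ∧ g.2 = 0
    omega
  unfold Mvw
  rw [h, sum_singleton, hw.zero]

theorem Mvw_le {a b d m s ρ : ℕ} {w : ℕ × ℕ → ℕ} (hw : IsWt a b w) (ha : 1 ≤ a) (hb : 1 ≤ b) :
    Mvw d m w s ρ ≤ ell (a + b) m := by
  refine le_trans ?_ (Mv_le (a := a) (b := b) (d := d) (m := m) (s := s) (ρ := ρ) ha hb)
  unfold Mvw Mv
  exact sum_le_sum fun g _ => hw.le g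

theorem Mvw_ge {d m s : ℕ} (w : ℕ × ℕ → ℕ) (hm : 1 ≤ m) (hmd : m ≤ d) (hs : s < d) :
    ∃ g : ℕ × ℕ, g.1 + g.2 + 1 = m ∧ w g ≤ Mvw d m w s 0 := by
  have key : ∀ g : ℕ × ℕ, g.1 + g.2 + 1 = m → g.2 ≤ s → g.1 + s + 1 ≤ d → w g ≤ Mvw d m w s 0 := by
    intro g h1 h2 h3
    unfold Mvw
    refine single_le_sum (f := fun g => w g) (fun _ _ => Nat.zero_le _) ?_
    rw [mem_filter, mem_product, mem_range, mem_range]
    omega
  by_cases h : m - 1 ≤ s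
  · refine ⟨(0, m - 1), ?_, key _ ?_ ?_ ?_⟩ <;> show _ <;> dsimp only <;> omega
  · refine ⟨(m - 1 - s, s), ?_, key _ ?_ ?_ ?_⟩ <;> show _ <;> dsimp only <;> omega

end Pool.Agent.H21.TC

end

section

/-!
# TC6: exact adjustment of the number of conditions, for a general weight

As `Pool/Agent/H51/TB/Adj.lean` (complete; copy it): `Mv a b d μ s ρ` becomes `Mvw d μ w s ρ`, `Pre a b d μ x j`
becomes `Prw d μ w x j`, `Mv_one`, … become `Mvw_one hw`, …; `1 ≤ Eg a b g` (there by `multichoose`) is the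
hypothesis `hpos`.
-/

namespace Pool.Agent.H21.TC

open Finset Pool.Agent.H18.Ex Pool.Agent.H21.NX Pool.Agent.H18.Ta Pool.Agent.H51.TB

/-- The change of the number of points of the cell `x`. -/
private def AdjT_w (d μ : ℕ) (z : ℕ → ℕ → ℤ) (x : ℕ × ℕ) : ℤ :=
  (if 1 ≤ x.2 ∧ x.2 ≤ μ then z x.1 (x.2 - 1) else 0) -
    (if x.2 < μ ∧ x.1 + x.2 + 1 ≤ d then z x.1 x.2 else 0)

private theorem AdjT_sum (d μ : ℕ) (z : ℕ → ℕ → ℤ) (f : ℕ × ℕ → ℤ) :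
    ∑ x ∈ KK d, AdjT_w d μ z x * f x = ∑ s ∈ range d, ∑ ρ ∈ range μ,
      if s + ρ + 1 ≤ d then z s ρ * (f (s, ρ + 1) - f (s, ρ)) else 0 := by
  have h0 : ∑ s ∈ range d, ∑ ρ ∈ range μ,
      (if s + ρ + 1 ≤ d then z s ρ * (f (s, ρ + 1) - f (s, ρ)) else 0) =
      ∑ p ∈ (range d ×ˢ range μ).filter (fun p : ℕ × ℕ => p.1 + p.2 + 1 ≤ d),
        z p.1 p.2 * (f (p.1, p.2 + 1) - f (p.1, p.2)) := by
    rw [sum_filter, sum_product]
  have h1 : ∑ x ∈ KK d, (if 1 ≤ x.2 ∧ x.2 ≤ μ then z x.1 (x.2 - 1) else 0) * f x =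
      ∑ p ∈ (range d ×ˢ range μ).filter (fun p : ℕ × ℕ => p.1 + p.2 + 1 ≤ d),
        z p.1 p.2 * f (p.1, p.2 + 1) := by
    rw [sum_congr rfl (g := fun x : ℕ × ℕ => if 1 ≤ x.2 ∧ x.2 ≤ μ then z x.1 (x.2 - 1) * f x else 0)
      (fun x _ => by rw [ite_mul, zero_mul]), ← sum_filter]
    refine sum_nbij' (fun x => (x.1, x.2 - 1)) (fun p => (p.1, p.2 + 1)) ?_ ?_ ?_ ?_ ?_
    · intro x hx
      rw [mem_filter, mem_KK] at hx
      rw [mem_filter, mem_product, mem_range, mem_range]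
      simp only
      omega
    · intro p hp
      rw [mem_filter, mem_product, mem_range, mem_range] at hp
      rw [mem_filter, mem_KK]
      simp only
      omega
    · intro x hx
      rw [mem_filter, mem_KK] at hx
      ext
      · rfl
      · simp only
        omega
    · intro p _
      simp
    · intro x hx
      rw [mem_filter, mem_KK] at hx
      simp only
      have h : x.2 - 1 + 1 = x.2 := by omega
      rw [h]
  have h2 : ∑ x ∈ KK d, (if x.2 < μ ∧ x.1 + x.2 + 1 ≤ d then z x.1 x.2 else 0) * f x =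
      ∑ p ∈ (range d ×ˢ range μ).filter (fun p : ℕ × ℕ => p.1 + p.2 + 1 ≤ d),
        z p.1 p.2 * f (p.1, p.2) := by
    rw [sum_congr rfl (g := fun x : ℕ × ℕ => if x.2 < μ ∧ x.1 + x.2 + 1 ≤ d then z x.1 x.2 * f x
      else 0) (fun x _ => by rw [ite_mul, zero_mul]), ← sum_filter]
    refine sum_congr ?_ fun x _ => rfl
    ext x
    rw [mem_filter, mem_KK, mem_filter, mem_product, mem_range, mem_range]
    omega
  have h3 : ∑ p ∈ (range d ×ˢ range μ).filter (fun p : ℕ × ℕ => p.1 + p.2 + 1 ≤ d),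
        z p.1 p.2 * (f (p.1, p.2 + 1) - f (p.1, p.2)) =
      ∑ p ∈ (range d ×ˢ range μ).filter (fun p : ℕ × ℕ => p.1 + p.2 + 1 ≤ d),
        z p.1 p.2 * f (p.1, p.2 + 1) -
      ∑ p ∈ (range d ×ˢ range μ).filter (fun p : ℕ × ℕ => p.1 + p.2 + 1 ≤ d),
        z p.1 p.2 * f (p.1, p.2) := by
    rw [← sum_sub_distrib]
    exact sum_congr rfl fun x _ => by rw [mul_sub]
  rw [h0, h3, ← h1, ← h2, ← sum_sub_distrib]
  refine sum_congr rfl fun x _ => ?_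
  unfold AdjT_w
  ring

private theorem AdjT_abs (d μ : ℕ) (z : ℕ → ℕ → ℤ) (F : ℤ) (hz : ∀ s ρ, |z s ρ| ≤ F) (x : ℕ × ℕ) :
    |AdjT_w d μ z x| ≤ 2 * F := by
  have hF : 0 ≤ F := le_trans (abs_nonneg _) (hz 0 0)
  have h1 : |(if 1 ≤ x.2 ∧ x.2 ≤ μ then z x.1 (x.2 - 1) else 0 : ℤ)| ≤ F := by
    split_ifs
    · exact hz _ _
    · simpa using hF
  have h2 : |(if x.2 < μ ∧ x.1 + x.2 + 1 ≤ d then z x.1 x.2 else 0 : ℤ)| ≤ F := by
    split_ifs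
    · exact hz _ _
    · simpa using hF
  unfold AdjT_w
  calc _ ≤ _ := abs_sub _ _
    _ ≤ 2 * F := by linarith

theorem adjustw (d μ : ℕ) (hμ : 1 ≤ μ) (h2 : 2 * μ ≤ d) : ∃ K : ℕ, 1 ≤ K ∧
    ∀ a b : ℕ, 2 ≤ a → 2 ≤ b → ∀ w : ℕ × ℕ → ℕ, IsWt a b w →
    (∀ g : ℕ × ℕ, g.1 + g.2 + 1 = μ → 1 ≤ w g) →
    (∀ t, 1 ≤ t → t < μ → Nat.Coprime (Nat.multichoose (a - 1) t) (a + b - 2)) →
    ∀ (c₀ : ℕ × ℕ → ℕ) (E : ℕ) (P : ℕ → ℤ), (∀ x ∈ KK d, x.2 ≤ μ → E ≤ c₀ x) →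
    K * ((a + b) * ell (a + b) μ) ≤ E →
    (∀ s < d, (K : ℤ) * |P s| ≤ (E : ℤ) * (Mvw d μ w s 0 : ℤ)) →
    ∃ c₁ : ℕ × ℕ → ℕ, ∑ x ∈ KK d, c₁ x = ∑ x ∈ KK d, c₀ x ∧
      (∀ x ∈ KK d, x.2 ≤ μ → E ≤ 2 * c₁ x) ∧
      ∀ j < d, ∑ x ∈ KK d, (c₁ x : ℤ) * (Prw d μ w x j : ℤ) =
        ∑ x ∈ KK d, (c₀ x : ℤ) * (Prw d μ w x j : ℤ) - P j := by
  obtain ⟨K, hK1, hK⟩ := solve d μ hμ h2
  refine ⟨16 * K, by omega, ?_⟩
  intro a b ha hb w hw hwpos hcop c₀ E P hE hKE hP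
  have hell : 1 ≤ ell (a + b) μ := by
    unfold ell
    exact Nat.choose_pos (by omega)
  have hE64 : 64 ≤ E := by
    have h1 : 4 * 1 ≤ (a + b) * ell (a + b) μ := Nat.mul_le_mul (by omega) hell
    have h3 : 16 * 1 * (4 * 1) ≤ 16 * K * ((a + b) * ell (a + b) μ) :=
      Nat.mul_le_mul (Nat.mul_le_mul le_rfl hK1) h1
    omega
  have hE16 : E ≤ 16 * (E / 8) := by omega
  have hE8 : 8 * (E / 8) ≤ E := by omega
  set E' : ℕ := E / 8 with hE'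
  have hab : ((a + b - 2 : ℕ) : ℤ) = (a : ℤ) + b - 2 := by
    rw [Nat.cast_sub (by omega)]
    push_cast
    ring
  obtain ⟨z, hz, hzP⟩ := hK (fun s ρ => (Mvw d μ w s ρ : ℤ)) ((a + b - 2 : ℕ) : ℤ)
    (ell (a + b) μ : ℤ) (E' : ℤ) P (by rw [hab]; omega) (by exact_mod_cast hell)
    (fun s hs => by
      rw [Mvw_one hw hμ hs]
      rfl)
    (fun hm s h1 hs => by
      rw [Mvw_two hw (by omega) (by omega) hm h1 hs])
    (fun t ht1 ht2 => by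
      rw [Mvw_zero hw (by omega) (by omega)]
      exact Nat.isCoprime_iff_coprime.mpr (hcop t ht1 ht2))
    (fun s hs => by
      obtain ⟨g, hg0, hg⟩ := Mvw_ge w hμ (by omega) hs
      exact_mod_cast le_trans (hwpos g hg0) hg)
    (fun s _ ρ _ => by
      rw [Nat.abs_cast]
      exact_mod_cast Mvw_le hw (by omega) (by omega))
    (by
      have h1 : K * ((a + b - 2) * ell (a + b) μ) ≤ E' := by
        have h3 : 16 * (K * ((a + b - 2) * ell (a + b) μ)) ≤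
            16 * K * ((a + b) * ell (a + b) μ) := by
          rw [Nat.mul_assoc]
          exact Nat.mul_le_mul le_rfl (Nat.mul_le_mul le_rfl
            (Nat.mul_le_mul (Nat.sub_le _ _) le_rfl))
        omega
      exact_mod_cast h1)
    (fun s hs => by
      have h1 := hP s hs
      push_cast at h1
      have h3 : (1 : ℤ) ≤ K := by exact_mod_cast hK1
      have h4 : (16 : ℤ) * |P s| ≤ 16 * K * |P s| := by
        nlinarith [abs_nonneg (P s)]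
      have h5 : (E : ℤ) * (Mvw d μ w s 0 : ℤ) ≤ 16 * E' * (Mvw d μ w s 0 : ℤ) := by
        refine mul_le_mul_of_nonneg_right ?_ (Nat.cast_nonneg _)
        exact_mod_cast hE16
      linarith)
  have hww : ∀ x ∈ KK d, x.2 ≤ μ → (E : ℤ) ≤ 2 * ((c₀ x : ℤ) + AdjT_w d μ z x) := by
    intro x hx hx2
    have h1 := hE x hx hx2
    have h3 := AdjT_abs d μ z (2 * (E' : ℤ)) hz x
    have h4 := (abs_le.mp h3).1
    omega
  have hpos : ∀ x ∈ KK d, 0 ≤ (c₀ x : ℤ) + AdjT_w d μ z x := by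
    intro x hx
    by_cases hx2 : x.2 ≤ μ
    · have := hww x hx hx2
      omega
    · unfold AdjT_w
      rw [if_neg (by omega), if_neg (by omega)]
      simp
  refine ⟨fun x => ((c₀ x : ℤ) + AdjT_w d μ z x).toNat, ?_, ?_, ?_⟩
  · have h1 : ∑ x ∈ KK d, AdjT_w d μ z x = 0 := by
      have h3 := AdjT_sum d μ z (fun _ => 1)
      simp only [mul_one, sub_self, mul_zero, ite_self, sum_const_zero] at h3
      exact h3
    have h3 : ((∑ x ∈ KK d, ((c₀ x : ℤ) + AdjT_w d μ z x).toNat : ℕ) : ℤ) =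
        ((∑ x ∈ KK d, c₀ x : ℕ) : ℤ) := by
      rw [Nat.cast_sum, Nat.cast_sum, sum_congr rfl fun x hx => Int.toNat_of_nonneg (hpos x hx),
        sum_add_distrib, h1, add_zero]
    exact_mod_cast h3
  · intro x hx hx2
    have h1 := hww x hx hx2
    simp only
    omega
  · intro j hj
    rw [sum_congr rfl (g := fun x => (c₀ x : ℤ) * (Prw d μ w x j : ℤ) +
      AdjT_w d μ z x * (Prw d μ w x j : ℤ)) (fun x hx => by
        simp only
        rw [Int.toNat_of_nonneg (hpos x hx)]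
        ring), sum_add_distrib, AdjT_sum, hzP j hj, sub_eq_add_neg, ← sum_neg_distrib]
    congr 1
    refine sum_congr rfl fun s _ => ?_
    rw [← sum_neg_distrib]
    refine sum_congr rfl fun ρ _ => ?_
    by_cases hs : s + ρ + 1 ≤ d
    · rw [if_pos hs]
      have h1 := Prw_move (m := μ) w hs j (by omega)
      by_cases h3 : s ≤ j ∧ j ≤ s + ρ
      · rw [if_pos h3] at h1
        rw [if_pos ⟨h3.1, h3.2, hs⟩]
        have h4 : (Prw d μ w (s, ρ + 1) j : ℤ) + (Mvw d μ w s ρ : ℤ) =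
            (Prw d μ w (s, ρ) j : ℤ) := by exact_mod_cast h1
        rw [← h4]
        ring
      · rw [if_neg h3, add_zero] at h1
        rw [if_neg (fun h => h3 ⟨h.1, h.2.1⟩), h1]
        ring
    · rw [if_neg hs, if_neg (fun h => hs h.2.2), neg_zero]

end Pool.Agent.H21.TC

end
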