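import Pool.Agent.H94.LP2.M12
import Pool.Agent.H94.LP2.M18
import Pool.Agent.H94.LP2.M21
import Pool.Agent.H94.LP2.M39

/-! The parts of this file: H21.TC.Low, H21.TC.Two, H21.TC.Mcr, H21.TC.CardW, H21.TC.EAsy, H21.TC.RankW, H21.TC.SpanW, H21.TC.Cnt. -/

section

/-!
# TC17: the lower bound for the dimension

Add the points `j ≠ i₀` one after the other.  `finrank_fat_le_add` (`Pool/Agent/H21/HD/BridgeC.lean`), applied
with `i₀ := j`, `e := d + 1 - m j` to the multiplicities already present (`0` for the others): the dimension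
drops by at most `dim V_{m j - 1}` of the multiplicities `m i - (d + 1 - m j)`, which is `0` for all points
already present except the point `i₀` (`m i + m j ≤ d + 1`), where it is `m i₀ + m j - (d + 1)`.  For a general
position this dimension is `binom (m j - 1 + r, r) - ell r (m i₀ + m j - (d + 1)) = ell r (m j) -
ell r (m i₀ + m j - (d + 1))`: it is at least this (not needed) and at most this for general points
(`gdim_single`, with multiplicity `m i₀ + m j - (d + 1) ≤ m j`, `choose_eq_ell`; `general_finrank_le` or `gdim`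
to pass to general points; points of multiplicity `0` give no condition).  The start is
`dim V_d(m i₀) ≥ binom (d + r, r) - ell r (m i₀)` (`finrank_fatForms_ge`, points with first coordinate `≠ 0`:
`ForGeneralPoints.coord_ne_zero`).  All this for the points `p` in one open set: the finitely many `j`.
(`Function.update` or `fun i => if i ∈ A then m i else 0` with induction over the finset `A`.)
-/

namespace Pool.Agent.H21.TC

open Finset MvPolynomial Pool.Agent.H18.Fat Pool.Agent.H18.Ex Pool.Agent.H21.NX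

/-- The multiplicities of the points of `A`. -/
private def LowT_mu {k : ℕ} (m : Fin k → ℕ) (A : Finset (Fin k)) (i : Fin k) : ℕ :=
  if i ∈ A then m i else 0

private theorem LowT_single_le (r d k : ℕ) (hr : 1 ≤ r) (i₀ : Fin k) (t : ℕ) (ht : t ≤ d + 1) :
    gdim r d (fun i : Fin k => if i = i₀ then t else 0) + ell r t ≤ ell r (d + 1) := by
  have h1 := gdim_single r d hr t ht
  rw [WindowX.choose_eq_ell] at h1
  obtain ⟨p₀, hp₀⟩ := GenBX.gdim_attained r d (fun _ : Unit => t)
  have h2 := gdim_le r d (fun i : Fin k => if i = i₀ then t else 0) (fun _ => p₀ ())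
  have hfin := GenBX.finite_fat (d := d) p₀ (fun _ : Unit => t)
  have h3 : Module.finrank ℂ (fatForms r d (fun _ : Fin k => p₀ ())
      (fun i : Fin k => if i = i₀ then t else 0)) ≤
      Module.finrank ℂ (fatForms r d p₀ (fun _ : Unit => t)) := by
    apply Submodule.finrank_mono
    intro F hF
    refine ⟨hF.1, fun i => ?_⟩
    have h4 := hF.2 i₀
    simp only [if_true] at h4
    exact h4
  omega

private theorem LowT_step {r d k : ℕ} (hr : 1 ≤ r) (m : Fin k → ℕ) (i₀ : Fin k)
    (hm : ∀ i, 1 ≤ m i ∧ m i ≤ d)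
    (hp : ∀ i j, i ≠ j → i ≠ i₀ → j ≠ i₀ → m i + m j ≤ d + 1)
    (p : Fin k → Fin (r + 1) → ℂ)
    (hcoord : ∀ i, p i 0 ≠ 0)
    (hgen : ∀ j : Fin k, Module.finrank ℂ (fatForms r (m j - 1) p
      (fun i : Fin k => if i = i₀ then m j + m i₀ - (d + 1) else 0)) =
        gdim r (m j - 1) (fun i : Fin k => if i = i₀ then m j + m i₀ - (d + 1) else 0))
    (A : Finset (Fin k)) (hA : i₀ ∉ A) :
    (d + r).choose r + ∑ i ∈ A, ell r (m i + m i₀ - (d + 1)) ≤
        Module.finrank ℂ (fatForms r d p (LowT_mu m (insert i₀ A))) +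
          ∑ i ∈ insert i₀ A, ell r (m i) := by
  classical
  induction A using Finset.induction_on with
  | empty =>
    have h1 := finrank_fatForms_ge (d := d) hr hcoord (LowT_mu m (insert i₀ ∅))
    have h2 : ∑ i, ((LowT_mu m (insert i₀ ∅) i + r - 1).choose r : ℤ) =
        ((∑ i ∈ insert i₀ (∅ : Finset (Fin k)), ell r (m i) : ℕ) : ℤ) := by
      rw [Finset.sum_eq_single i₀]
      · simp [LowT_mu, ell]
      · intro b _ hb
        have h3 : LowT_mu m (insert i₀ ∅) b = 0 := by simp [LowT_mu, hb]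
        rw [h3]
        have h4 := ell_zero hr
        unfold ell at h4
        exact_mod_cast h4
      · intro h
        exact absurd (mem_univ _) h
    rw [h2] at h1
    rw [Finset.sum_empty, add_zero]
    omega
  | insert j A hjA ih =>
    have hji : j ≠ i₀ := fun h => hA (by rw [← h]; exact mem_insert_self j A)
    have hiA : i₀ ∉ A := fun h => hA (mem_insert_of_mem h)
    have ih := ih hiA
    obtain ⟨hj1, hjd⟩ := hm j
    have hi₀ := hm i₀
    have h0 : LowT_mu m (insert i₀ A) j = 0 := by simp [LowT_mu, hji, hjA]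
    have h1 := Pool.Agent.H21.HD.finrank_fat_le_add d p (LowT_mu m (insert i₀ A)) j (d + 1 - m j)
      (by omega) h0
    obtain ⟨B, hB⟩ : ∃ B, B = insert i₀ A := ⟨_, rfl⟩
    obtain ⟨C, hC⟩ : ∃ C, C = insert i₀ (insert j A) := ⟨_, rfl⟩
    have h2 : ∀ inst : DecidableEq (Fin k),
        @Function.update (Fin k) (fun _ => ℕ) inst (LowT_mu m B) j
          (d + 1 - (d + 1 - m j)) = LowT_mu m C := by
      intro inst
      rw [hB, hC]
      funext i
      by_cases hij : i = j
      · subst hij
        rw [Function.update_self]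
        simp only [LowT_mu, mem_insert, true_or, or_true, if_true]
        omega
      · rw [Function.update_of_ne hij]
        simp [LowT_mu, hij]
    have h3 : (fun i => LowT_mu m (insert i₀ A) i - (d + 1 - m j)) =
        (fun i : Fin k => if i = i₀ then m j + m i₀ - (d + 1) else 0) := by
      funext i
      by_cases hii : i = i₀
      · subst hii
        simp only [LowT_mu, mem_insert, true_or, if_true]
        omega
      · rw [if_neg hii]
        unfold LowT_mu
        split_ifs with hi
        · have hiA' : i ∈ A := (mem_insert.1 hi).resolve_left hii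
          have hij : i ≠ j := fun h => hjA (h ▸ hiA')
          have := hp i j hij hii hji
          omega
        · omega
    have h4 : d - (d + 1 - m j) = m j - 1 := by omega
    rw [h3, h4, hgen j, ← hB, h2, hB, hC] at h1
    have h5 := LowT_single_le r (m j - 1) k hr i₀ (m j + m i₀ - (d + 1)) (by omega)
    rw [show m j - 1 + 1 = m j by omega] at h5
    have h6 : ∑ i ∈ insert i₀ (insert j A), ell r (m i) =
        ell r (m j) + ∑ i ∈ insert i₀ A, ell r (m i) := by
      rw [Finset.sum_insert hA, Finset.sum_insert hjA, Finset.sum_insert hiA]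
      ring
    rw [Finset.sum_insert hjA, h6]
    omega

theorem low (r d k : ℕ) (hr : 1 ≤ r) (m : Fin k → ℕ) (i₀ : Fin k) (hm : ∀ i, 1 ≤ m i ∧ m i ≤ d)
    (hp : ∀ i j, i ≠ j → i ≠ i₀ → j ≠ i₀ → m i + m j ≤ d + 1) :
    ForGeneralPoints r k fun p =>
      (d + r).choose r + ∑ i ∈ univ.erase i₀, ell r (m i + m i₀ - (d + 1)) ≤
        Module.finrank ℂ (fatForms r d p m) + ∑ i, ell r (m i) := by
  classical
  have h1 : Gen r (Fin k) fun p => ∀ j ∈ (univ : Finset (Fin k)),
      Module.finrank ℂ (fatForms r (m j - 1) p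
        (fun i : Fin k => if i = i₀ then m j + m i₀ - (d + 1) else 0)) =
          gdim r (m j - 1) (fun i : Fin k => if i = i₀ then m j + m i₀ - (d + 1) else 0) :=
    Gen.all univ fun j _ => gen_gdim r (m j - 1) _
  refine (h1.and (Gen.coord_ne_zero r (Fin k))).mono fun p hP => ?_
  have h2 := LowT_step hr m i₀ hm hp p (fun i => hP.2 i 0) (fun j => hP.1 j (mem_univ j))
    (univ.erase i₀) (notMem_erase i₀ _)
  rw [insert_erase (mem_univ i₀)] at h2
  have h3 : LowT_mu m univ = m := by
    funext i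
    simp [LowT_mu]
  rw [h3] at h2
  exact h2

end Pool.Agent.H21.TC

end

section

/-!
# TC18: two large points and simple points

`GM_cons'`: the proof of `GM_cons` (`Pool/Agent/H51/TB/UPt.lean`) for a subset `A` of `Sx ι d`.

`card_two`: for `o ≠ o'` the number of the `α ∈ Sx (Fin (r + 1)) d` with `α o > e` is `ell r (d - e)` (subtract
`e + 1`: `Sx _ (d - e - 1)`, `card = multichoose (r + 1) (d - e - 1) = ell r (d - e)`; `0` if `e = d`), those with
`α o' ≥ 1`: `ell r d`, those with both: `ell r (d - e - 1)`; inclusion and exclusion.  `lam r e d = ell r d -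
ell r (d - (e + 1))`.

`two_large`: `GM_cons'` for `o = 0` (`M = d - e`), then for `o' = 1` (`M = d`), then `GM.of_card`
(`A.card ≤ X` simple points).
-/

namespace Pool.Agent.H21.TC

open Finset Pool.Agent.H18.Ex Pool.Agent.H21.NX Pool.Agent.H18.Ta Pool.Agent.H51.TB

private theorem TwoT_tcr_eq {ι : Type} [Fintype ι] [DecidableEq ι] (o : ι) (a : ι → ℕ) :
    tcr (fun i => if i = o then (1 : ℂ) else 0) a (Function.update a o 0) = 1 := by
  unfold tcr
  refine prod_eq_one fun i _ => ?_
  beta_reduce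
  by_cases hi : i = o
  · subst hi
    rw [Function.update_self, if_pos rfl, Nat.choose_zero_right, one_pow, Nat.cast_one, one_mul]
  · rw [Function.update_of_ne hi, if_neg hi, Nat.choose_self, Nat.sub_self, pow_zero, Nat.cast_one,
      one_mul]

private theorem TwoT_tcr_zero {ι : Type} [Fintype ι] [DecidableEq ι] (o : ι) (a c : ι → ℕ)
    (h : ∑ i, a i = ∑ i, c i) (hne : c ≠ a) :
    tcr (fun i => if i = o then (1 : ℂ) else 0) c (Function.update a o 0) = 0 := by
  by_contra h00
  apply hne
  unfold tcr at h00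
  have h0 := prod_ne_zero_iff.1 h00
  have h1 : ∀ i, i ≠ o → c i = a i := by
    intro i hi
    have h2 := h0 i (mem_univ i)
    beta_reduce at h2
    rw [Function.update_of_ne hi, if_neg hi] at h2
    have h3 : ((c i).choose (a i) : ℂ) ≠ 0 := left_ne_zero_of_mul h2
    have h4 : (0 : ℂ) ^ (c i - a i) ≠ 0 := right_ne_zero_of_mul h2
    have h5 : a i ≤ c i := by
      by_contra h6
      apply h3
      rw [Nat.choose_eq_zero_of_lt (by omega), Nat.cast_zero]
    have h7 : c i - a i = 0 := by
      by_contra h8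
      exact h4 (zero_pow h8)
    omega
  have h9 : c o = a o := by
    have e1 := Finset.add_sum_erase univ a (mem_univ o)
    have e2 := Finset.add_sum_erase univ c (mem_univ o)
    have e3 : ∑ i ∈ univ.erase o, c i = ∑ i ∈ univ.erase o, a i :=
      sum_congr rfl fun i hi => h1 i (ne_of_mem_erase hi)
    omega
  funext i
  by_cases hi : i = o
  · rw [hi]; exact h9
  · exact h1 i hi

theorem GM_cons' {ι : Type} [Fintype ι] [DecidableEq ι] (o : ι) (d M : ℕ) (A : Finset (ι → ℕ))
    (hA : A ⊆ Sx ι d) (S : Multiset (Kind ι)) (h : GM (A.filter fun α => α o + M ≤ d) S) :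
    GM A (Kind.free M ::ₘ S) := by
  obtain ⟨n, k, rfl, pos, hpos⟩ := h
  refine ⟨n + 1, Fin.cons (Kind.free M) k, ?_,
    Fin.cons (fun i => if i = o then (1 : ℂ) else 0) pos, ?_⟩
  · rw [Fin.univ_val_map, Fin.univ_val_map, List.ofFn_cons]
    rfl
  · intro f hf
    have hz : ∀ a ∈ A, d < a o + M → f a = 0 := by
      intro a ha hao
      have h1 := hf 0 (Function.update a o 0)
      rw [Fin.cons_zero, Fin.cons_zero] at h1
      have ha' := mem_Sx.1 (hA ha)
      have h2 : ∑ i, Function.update a o 0 i < M := by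
        have e1 := Finset.add_sum_erase univ a (mem_univ o)
        have e2 := Finset.add_sum_erase univ (Function.update a o 0) (mem_univ o)
        have e3 : ∑ i ∈ univ.erase o, Function.update a o 0 i = ∑ i ∈ univ.erase o, a i :=
          sum_congr rfl fun i hi => Function.update_of_ne (ne_of_mem_erase hi) _ _
        rw [Function.update_self] at e2
        omega
      have h3 := h1 h2
      rw [sum_eq_single a] at h3
      · have h4 : (Kind.free M : Kind ι).pt (fun i => if i = o then (1 : ℂ) else 0) =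
            fun i => if i = o then (1 : ℂ) else 0 := rfl
        rw [h4, TwoT_tcr_eq, mul_one] at h3
        exact h3
      · intro c hc hca
        have h4 : (Kind.free M : Kind ι).pt (fun i => if i = o then (1 : ℂ) else 0) =
            fun i => if i = o then (1 : ℂ) else 0 := rfl
        rw [h4, TwoT_tcr_zero o a c (by rw [ha', mem_Sx.1 (hA hc)]) hca, mul_zero]
      · intro hn
        exact absurd ha hn
    have hA' : ∀ a ∈ A.filter fun α => α o + M ≤ d, f a = 0 := by
      refine hpos f fun j b hb => ?_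
      have h1 := hf j.succ b
      rw [Fin.cons_succ, Fin.cons_succ] at h1
      rw [← h1 hb]
      refine sum_subset (filter_subset _ _) fun a ha hna => ?_
      rw [mem_filter, not_and] at hna
      rw [hz a ha (by have := hna ha; omega), zero_mul]
    intro a ha
    by_cases hao : a o + M ≤ d
    · exact hA' a (mem_filter.2 ⟨ha, hao⟩)
    · exact hz a ha (by omega)

private theorem TwoT_update {r : ℕ} (α : Fin (r + 1) → ℕ) (o : Fin (r + 1)) (v : ℕ) :
    ∑ i, Function.update α o v i + α o = ∑ i, α i + v := by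
  have e1 := Finset.add_sum_erase univ α (mem_univ o)
  have e2 := Finset.add_sum_erase univ (Function.update α o v) (mem_univ o)
  have e3 : ∑ i ∈ univ.erase o, Function.update α o v i = ∑ i ∈ univ.erase o, α i :=
    sum_congr rfl fun i hi => Function.update_of_ne (ne_of_mem_erase hi) _ _
  rw [Function.update_self] at e2
  omega

private theorem TwoT_card_Sx (r n : ℕ) : (Sx (Fin (r + 1)) n).card = ell r (n + 1) := by
  have h : (Sx (Fin (r + 1)) n).card = Nat.multichoose (Fintype.card (Fin (r + 1))) n := by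
    rw [← card_univ, ← card_finsuppAntidiag_nat_eq_multichoose]
    symm
    apply card_bij (fun (α : Fin (r + 1) →₀ ℕ) _ => (⇑α : Fin (r + 1) → ℕ))
    · intro α hα
      rw [mem_finsuppAntidiag] at hα
      exact mem_Sx.2 hα.1
    · intro α _ β _ h
      exact DFunLike.coe_injective h
    · intro f hf
      refine ⟨Finsupp.equivFunOnFinite.symm f, ?_, rfl⟩
      rw [mem_finsuppAntidiag]
      exact ⟨mem_Sx.1 hf, subset_univ _⟩
  rw [h, Fintype.card_fin, Nat.multichoose_eq]
  unfold ell
  have h1 : r + 1 + n - 1 = r + n := by omega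
  have h2 : n + 1 + r - 1 = r + n := by omega
  rw [h1, h2]
  exact Nat.choose_symm_add.symm

/-- The number of the exponents with `α o ≥ s`, `α o' ≥ t`. -/
private theorem TwoT_hi {r d : ℕ} (hr : 1 ≤ r) (o o' : Fin (r + 1)) (h : o ≠ o') (s t : ℕ) :
    ((Sx (Fin (r + 1)) d).filter fun α => s ≤ α o ∧ t ≤ α o').card = ell r (d + 1 - (s + t)) := by
  by_cases hst : s + t ≤ d
  · have h1 : d + 1 - (s + t) = (d - (s + t)) + 1 := by omega
    rw [h1, ← TwoT_card_Sx]
    symm
    refine card_bij'
      (fun α _ => Function.update (Function.update α o (α o + s)) o' (α o' + t))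
      (fun α _ => Function.update (Function.update α o (α o - s)) o' (α o' - t)) ?_ ?_ ?_ ?_
    · intro α hα
      rw [mem_Sx] at hα
      have h2 := TwoT_update α o (α o + s)
      have h3 := TwoT_update (Function.update α o (α o + s)) o' (α o' + t)
      rw [Function.update_of_ne h.symm] at h3
      rw [mem_filter, mem_Sx, Function.update_self, Function.update_of_ne h, Function.update_self]
      omega
    · intro α hα
      rw [mem_filter, mem_Sx] at hα
      have h2 := TwoT_update α o (α o - s)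
      have h3 := TwoT_update (Function.update α o (α o - s)) o' (α o' - t)
      rw [Function.update_of_ne h.symm] at h3
      rw [mem_Sx]
      omega
    · intro α _
      funext i
      by_cases hi' : i = o'
      · subst hi'
        simp
      · by_cases hi : i = o
        · subst hi
          simp [Function.update_of_ne hi']
        · simp [Function.update_of_ne hi', Function.update_of_ne hi]
    · intro α hα
      rw [mem_filter] at hα
      obtain ⟨-, hs, ht⟩ := hα
      funext i
      by_cases hi' : i = o'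
      · subst hi'
        simp only [Function.update_self]
        omega
      · by_cases hi : i = o
        · subst hi
          simp only [Function.update_of_ne hi', Function.update_self]
          omega
        · simp [Function.update_of_ne hi', Function.update_of_ne hi]
  · have h1 : d + 1 - (s + t) = 0 := by omega
    rw [h1, ell_zero hr, card_eq_zero, filter_eq_empty_iff]
    intro α hα
    rw [mem_Sx] at hα
    rintro ⟨h2, h3⟩
    have e1 := Finset.add_sum_erase univ α (mem_univ o)
    have e2 := single_le_sum (f := α) (fun i _ => Nat.zero_le _)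
      (mem_erase.2 ⟨h.symm, mem_univ o'⟩)
    omega

theorem card_two {r d e : ℕ} (hr : 1 ≤ r) (he : e ≤ d) (o o' : Fin (r + 1)) (h : o ≠ o') :
    (((Sx (Fin (r + 1)) d).filter fun α => α o + (d - e) ≤ d).filter
      fun α => α o' + d ≤ d).card + ell r (d - e) + lam r e d = ell r (d + 1) := by
  classical
  have hN1 := TwoT_hi (d := d) hr o o' h (e + 1) 0
  have hN2 := TwoT_hi (d := d) hr o o' h 0 1
  have hN3 := TwoT_hi (d := d) hr o o' h (e + 1) 1
  have h0 := TwoT_card_Sx r d
  have hm : ell r (d - (e + 1)) ≤ ell r d := ell_mono r (by omega)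
  have e1 : d + 1 - (e + 1 + 0) = d - e := by omega
  have e2 : d + 1 - (0 + 1) = d := by omega
  have e3 : d + 1 - (e + 1 + 1) = d - (e + 1) := by omega
  rw [e1] at hN1
  rw [e2] at hN2
  rw [e3] at hN3
  set A := (Sx (Fin (r + 1)) d).filter fun α => e + 1 ≤ α o ∧ 0 ≤ α o' with hAdef
  set B := (Sx (Fin (r + 1)) d).filter fun α => 0 ≤ α o ∧ 1 ≤ α o' with hBdef
  have hAB : A ∩ B = (Sx (Fin (r + 1)) d).filter fun α => e + 1 ≤ α o ∧ 1 ≤ α o' := by
    ext α
    rw [mem_inter, mem_filter, mem_filter, mem_filter]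
    constructor
    · rintro ⟨⟨h1, h2, -⟩, -, -, h3⟩
      exact ⟨h1, h2, h3⟩
    · rintro ⟨h1, h2, h3⟩
      exact ⟨⟨h1, h2, Nat.zero_le _⟩, h1, Nat.zero_le _, h3⟩
  have hsub : A ∪ B ⊆ Sx (Fin (r + 1)) d := union_subset (filter_subset _ _) (filter_subset _ _)
  have hF : (((Sx (Fin (r + 1)) d).filter fun α => α o + (d - e) ≤ d).filter
      fun α => α o' + d ≤ d) = Sx (Fin (r + 1)) d \ (A ∪ B) := by
    ext α
    rw [mem_filter, mem_filter, mem_sdiff, mem_union, mem_filter, mem_filter]
    constructor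
    · rintro ⟨⟨h1, h2⟩, h3⟩
      refine ⟨h1, ?_⟩
      rintro (⟨-, h4, -⟩ | ⟨-, -, h4⟩)
      · omega
      · omega
    · rintro ⟨h1, h2⟩
      refine ⟨⟨h1, ?_⟩, ?_⟩
      · by_contra h3
        exact h2 (Or.inl ⟨h1, by omega, Nat.zero_le _⟩)
      · by_contra h3
        exact h2 (Or.inr ⟨h1, Nat.zero_le _, by omega⟩)
  have h1 := card_union_add_card_inter A B
  rw [hAB, hN3, hN1, hN2] at h1
  have h2 := card_sdiff_add_card_eq_card hsub
  rw [h0] at h2
  rw [hF]
  unfold lam
  omega

theorem two_large {r d e X : ℕ} (hr : 1 ≤ r) (he : e ≤ d)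
    (hX : ell r (d + 1) ≤ ell r (d - e) + lam r e d + X) :
    GM (Sx (Fin (r + 1)) d) (((d - e) ::ₘ d ::ₘ Multiset.replicate X 1).map Kind.free) := by
  have hne : (0 : Fin (r + 1)) ≠ Fin.last r := by
    intro h
    have h1 := congrArg Fin.val h
    rw [Fin.val_zero, Fin.val_last] at h1
    omega
  have hc := card_two hr he 0 (Fin.last r) hne
  rw [Multiset.map_cons, Multiset.map_cons]
  refine GM_cons' 0 d (d - e) _ (Subset.refl _) _ ?_
  refine GM_cons' (Fin.last r) d d _ (filter_subset _ _) _ ?_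
  have h1 := GM.of_card (((Sx (Fin (r + 1)) d).filter fun α => α 0 + (d - e) ≤ d).filter
    fun α => α (Fin.last r) + d ≤ d) (Multiset.replicate X 1) 0
    (fun m hm => by rw [Multiset.eq_of_mem_replicate hm]) (by
      rw [Multiset.card_replicate]
      omega)
  rw [add_zero] at h1
  exact h1

end Pool.Agent.H21.TC

end

section

/-!
# TC9: the weights of the problem: exact properties

`mcr n e v = ∑_{i ≤ min e v} multichoose (n - 1) (v - i)` counts the monomials of degree `v` in `n` variables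
with the first exponent `≤ e`; `∑_{i ≤ v} multichoose (n - 1) (v - i) = multichoose n v` (`n ≥ 1`; see
`Tot_sum1` in `Pool/Agent/H51/TB/Tot.lean` or `UPt_mc` in `UPt.lean`), and the terms with `i > e` sum up to
`multichoose n (v - (e + 1))`.

`lamw_Ew`: `∑_{|g| = k} Ew g + ∑_{|g'| = k - (e+1)} Eg g' = ∑_{|g| = k} Eg g` (`mcr_add`, shift of `g.2` by `e + 1`), so
`lamw m (Ew) + lamw (m - (e+1)) (Eg) = lamw m (Eg)`, and `lamw m (Eg a b) = ell (a + b - 1) m` (see `lamw_le`
in `Tot.lean`; it is `sum_wt` and `sum_wtw`, with `d := m`, `c := (0, 0)`).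
`sum_Bt`: `Bt a b d e j + multichoose a (d - j) * multichoose b (j - (e + 1)) = bet a b d j` for `j > e` and
`sum_bet` for `d` and for `d - e - 1` (`sum_bet ha hb (d - e - 1) = ell (a + b - 1) (d - e)` if `e < d`; for `e = d`
there are no `j > e`, and `ell (a + b - 1) 0 = 0`).
-/

namespace Pool.Agent.H21.TC

open Finset Pool.Agent.H18.Ex Pool.Agent.H21.NX Pool.Agent.H18.Ta Pool.Agent.H51.TB

private theorem McrT_sum1 (v : ℕ) : ∀ m : ℕ, ∑ k ∈ range (m + 1), Nat.multichoose v k =
    Nat.multichoose (v + 1) m := by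
  intro m
  induction m with
  | zero => rw [Finset.sum_range_one, Nat.multichoose_zero_right, Nat.multichoose_zero_right]
  | succ m ih =>
    rw [Finset.sum_range_succ, ih, Nat.multichoose_succ_succ, Nat.add_comm]

private theorem McrT_full {n v : ℕ} (hn : 1 ≤ n) :
    ∑ i ∈ range (v + 1), Nat.multichoose (n - 1) (v - i) = Nat.multichoose n v := by
  have h1 := Finset.sum_range_reflect (fun i => Nat.multichoose (n - 1) i) (v + 1)
  have h2 := McrT_sum1 (n - 1) v
  rw [Nat.sub_add_cancel hn] at h2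
  rw [← h2, ← h1]
  refine Finset.sum_congr rfl fun i _ => ?_
  rw [Nat.add_sub_cancel]

theorem mcr_of_le {n e v : ℕ} (hn : 1 ≤ n) (h : v ≤ e) : mcr n e v = Nat.multichoose n v := by
  unfold mcr
  rw [Nat.min_eq_right h]
  exact McrT_full hn

theorem mcr_add {n e v : ℕ} (hn : 1 ≤ n) (h : e < v) :
    mcr n e v + Nat.multichoose n (v - (e + 1)) = Nat.multichoose n v := by
  unfold mcr
  have h1 := Finset.sum_range_add (fun i => Nat.multichoose (n - 1) (v - i)) (e + 1)
    (v - (e + 1) + 1)
  rw [show e + 1 + (v - (e + 1) + 1) = v + 1 by omega, McrT_full hn] at h1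
  rw [Nat.min_eq_left h.le, h1, ← McrT_full hn (v := v - (e + 1))]
  refine congrArg _ (Finset.sum_congr rfl fun i _ => ?_)
  rw [Nat.sub_sub]

theorem mcr_le {n e v : ℕ} (hn : 1 ≤ n) : mcr n e v ≤ Nat.multichoose n v := by
  rcases Nat.lt_or_ge e v with h | h
  · have := mcr_add hn h
    omega
  · exact (mcr_of_le hn h).le

theorem isWt_Ew {a b e : ℕ} (ha : 2 ≤ a) (hb : 2 ≤ b) (he : 1 ≤ e) : IsWt a b (Ew a b e) := by
  refine ⟨fun g => ?_, fun t => ?_, ?_⟩
  · unfold Ew Eg
    exact Nat.mul_le_mul_left _ (mcr_le (by omega))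
  · show Nat.multichoose (a - 1) t * mcr (b - 1) e 0 = _
    rw [mcr_of_le (by omega) (Nat.zero_le e), Nat.multichoose_zero_right, Nat.mul_one]
  · show Nat.multichoose (a - 1) 0 * mcr (b - 1) e 1 = _
    rw [mcr_of_le (by omega) he, Nat.multichoose_zero_right, Nat.one_mul, Nat.multichoose_one_right]

private theorem McrT_lamw_Eg {a b m : ℕ} (ha : 1 ≤ a) (hb : 1 ≤ b) :
    lamw m (Eg a b) = ell (a + b - 1) m := by
  have h1 := sum_wtw (d := m) (m := m) (by omega) (c := (0, 0)) (Nat.zero_le m) (Eg a b)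
  have h2 := sum_wt (d := m) (m := m) ha hb (by omega) (c := (0, 0)) (Nat.zero_le m)
  rw [← h1, ← h2]
  rfl

private theorem McrT_row {b e m g1 c1 : ℕ} (hb : 2 ≤ b) :
    ∑ h ∈ range m, (m - (g1 + h)) * (c1 * Nat.multichoose (b - 1) h) =
      ∑ h ∈ range m, (m - (g1 + h)) * (c1 * mcr (b - 1) e h) +
        ∑ h ∈ range (m - (e + 1)), (m - (e + 1) - (g1 + h)) *
          (c1 * Nat.multichoose (b - 1) h) := by
  rcases Nat.lt_or_ge m (e + 2) with hm | hm
  · rw [show m - (e + 1) = 0 by omega, Finset.sum_range_zero, Nat.add_zero]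
    refine Finset.sum_congr rfl fun h hh => ?_
    rw [mem_range] at hh
    rw [mcr_of_le (by omega) (by omega)]
  · obtain ⟨M, rfl⟩ : ∃ M, m = (e + 1) + M := ⟨m - (e + 1), by omega⟩
    have h1 := Finset.sum_range_add
      (fun h => (e + 1 + M - (g1 + h)) * (c1 * Nat.multichoose (b - 1) h)) (e + 1) M
    have h2 := Finset.sum_range_add
      (fun h => (e + 1 + M - (g1 + h)) * (c1 * mcr (b - 1) e h)) (e + 1) M
    have h3 : ∑ h ∈ range (e + 1), (e + 1 + M - (g1 + h)) * (c1 * Nat.multichoose (b - 1) h) =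
        ∑ h ∈ range (e + 1), (e + 1 + M - (g1 + h)) * (c1 * mcr (b - 1) e h) := by
      refine Finset.sum_congr rfl fun h hh => ?_
      rw [mem_range] at hh
      rw [mcr_of_le (by omega) (by omega)]
    have h4 : ∑ h ∈ range M, (e + 1 + M - (g1 + (e + 1 + h))) *
          (c1 * Nat.multichoose (b - 1) (e + 1 + h)) =
        ∑ h ∈ range M, (e + 1 + M - (g1 + (e + 1 + h))) * (c1 * mcr (b - 1) e (e + 1 + h)) +
          ∑ h ∈ range M, (M - (g1 + h)) * (c1 * Nat.multichoose (b - 1) h) := by
      rw [← Finset.sum_add_distrib]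
      refine Finset.sum_congr rfl fun h _ => ?_
      have h5 : mcr (b - 1) e (e + 1 + h) + Nat.multichoose (b - 1) h =
          Nat.multichoose (b - 1) (e + 1 + h) := by
        have h6 := mcr_add (n := b - 1) (e := e) (v := e + 1 + h) (by omega) (by omega)
        rwa [Nat.add_sub_cancel_left] at h6
      rw [← h5, show e + 1 + M - (g1 + (e + 1 + h)) = M - (g1 + h) by omega]
      ring
    rw [Nat.add_sub_cancel_left, h1, h2, h3, h4]
    exact (Nat.add_assoc _ _ _).symm

private theorem McrT_prod (m : ℕ) (w : ℕ × ℕ → ℕ) : lamw m w =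
    ∑ g1 ∈ range m, ∑ h ∈ range m, (m - (g1 + h)) * w (g1, h) := by
  unfold lamw
  rw [Finset.sum_product]

private theorem McrT_add (a b e m : ℕ) (hb : 2 ≤ b) :
    lamw m (Eg a b) = lamw m (Ew a b e) + lamw (m - (e + 1)) (Eg a b) := by
  rw [McrT_prod, McrT_prod, McrT_prod]
  have h1 : ∑ g1 ∈ range (m - (e + 1)), ∑ h ∈ range (m - (e + 1)),
      (m - (e + 1) - (g1 + h)) * Eg a b (g1, h) =
      ∑ g1 ∈ range m, ∑ h ∈ range (m - (e + 1)), (m - (e + 1) - (g1 + h)) * Eg a b (g1, h) := by
    refine Finset.sum_subset (range_subset_range.2 (by omega)) fun g1 _ hg => ?_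
    rw [mem_range, Nat.not_lt] at hg
    refine Finset.sum_eq_zero fun h _ => ?_
    rw [show m - (e + 1) - (g1 + h) = 0 by omega, Nat.zero_mul]
  rw [h1, ← Finset.sum_add_distrib]
  refine Finset.sum_congr rfl fun g1 _ => ?_
  exact McrT_row (b := b) (e := e) (m := m) (g1 := g1) (c1 := Nat.multichoose (a - 1) g1) hb

theorem lamw_Ew {a b e m : ℕ} (ha : 2 ≤ a) (hb : 2 ≤ b) :
    lamw m (Ew a b e) = lam (a + b - 1) e m := by
  have h1 := McrT_add a b e m hb
  rw [McrT_lamw_Eg (by omega) (by omega), McrT_lamw_Eg (by omega) (by omega)] at h1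
  unfold lam
  omega

theorem sum_Bt {a b d e : ℕ} (ha : 1 ≤ a) (hb : 1 ≤ b) (he : e ≤ d) :
    ∑ j ∈ range (d + 1), Bt a b d e j + ell (a + b - 1) (d - e) = ell (a + b - 1) (d + 1) := by
  have hsplit : d + 1 = (e + 1) + (d - e) := by omega
  have h1 := sum_bet ha hb d
  have h2 : ∑ h ∈ range (d - e), Nat.multichoose a (d - (e + 1 + h)) * Nat.multichoose b h =
      ell (a + b - 1) (d - e) := by
    rcases Nat.eq_zero_or_pos (d - e) with h0 | h0
    · rw [h0, Finset.sum_range_zero, ell_zero (by omega)]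
    · have h3 := sum_bet ha hb (d - e - 1)
      rw [Nat.sub_add_cancel h0] at h3
      rw [← h3]
      refine Finset.sum_congr rfl fun h _ => ?_
      unfold bet
      rw [show d - (e + 1 + h) = d - e - 1 - h by omega]
  rw [← h2, ← h1, hsplit, Finset.sum_range_add _ (e + 1) (d - e),
    Finset.sum_range_add _ (e + 1) (d - e), Nat.add_assoc]
  refine congrArg₂ _ ?_ ?_
  · refine Finset.sum_congr rfl fun j hj => ?_
    rw [mem_range] at hj
    unfold Bt bet
    rw [mcr_of_le hb (by omega)]
  · rw [← Finset.sum_add_distrib]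
    refine Finset.sum_congr rfl fun h _ => ?_
    unfold Bt bet
    have h4 := mcr_add (n := b) (e := e) (v := e + 1 + h) hb (by omega)
    rw [Nat.add_sub_cancel_left] at h4
    rw [← h4, Nat.mul_add]

end Pool.Agent.H21.TC

end

section

/-!
# TC10: the number of exponents of a level

The exponents `α` of `Bx a b d j` with `α (inr o) > e` are in bijection with `Bx a b (d - (e + 1)) (j - (e + 1))`
(subtract `e + 1` at `inr o`; `j > e`), so their number is `multichoose a (d - j) * multichoose b (j - (e + 1))`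
(`card_Bx`); see `UPt_hi` in `Pool/Agent/H51/TB/UPt.lean` for the same argument for an `X`-variable.  Then
`mcr b e j = multichoose b j - multichoose b (j - (e + 1))` (`j > e`), see `Mcr.lean` (`mcr_add`, `mcr_of_le`:
-/

namespace Pool.Agent.H21.TC

open Finset Pool.Agent.H18.Ex Pool.Agent.H21.NX Pool.Agent.H18.Ta Pool.Agent.H51.TB

private theorem CardWT_hi {a b d j : ℕ} (hj : j ≤ d) (o : Fin b) (e : ℕ) :
    ((Bx a b d j).filter fun α => ¬ α (Sum.inr o) ≤ e).card =
      if e < j then Nat.multichoose a (d - j) * Nat.multichoose b (j - (e + 1)) else 0 := by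
  have hyd : ∀ α : Z a b → ℕ, α (Sum.inr o) ≤ yd α := by
    intro α
    unfold yd
    exact single_le_sum (f := fun i => α (Sum.inr i)) (fun i _ => Nat.zero_le _) (mem_univ o)
  split_ifs with h
  · have hcard : (Bx a b (d - (e + 1)) (j - (e + 1))).card =
        Nat.multichoose a (d - j) * Nat.multichoose b (j - (e + 1)) := by
      rw [card_Bx (a := a) (b := b) (d := d - (e + 1)) (j := j - (e + 1)) (by omega)]
      unfold bet
      have h1 : d - (e + 1) - (j - (e + 1)) = d - j := by omega
      rw [h1]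
    rw [← hcard]
    symm
    have hup : ∀ (α : Z a b → ℕ) (v : ℕ),
        yd (Function.update α (Sum.inr o) v) + α (Sum.inr o) = yd α + v ∧
          xd (Function.update α (Sum.inr o) v) = xd α := by
      intro α v
      constructor
      · unfold yd
        have e1 := Finset.add_sum_erase univ (fun i => α (Sum.inr i)) (mem_univ o)
        have e2 := Finset.add_sum_erase univ
          (fun i => Function.update α (Sum.inr o) v (Sum.inr i)) (mem_univ o)
        have e3 : ∑ i ∈ univ.erase o, Function.update α (Sum.inr o) v (Sum.inr i) =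
            ∑ i ∈ univ.erase o, α (Sum.inr i) :=
          sum_congr rfl fun i hi => Function.update_of_ne
            (fun hh => ne_of_mem_erase hi (Sum.inr_injective hh)) _ _
        simp only [Function.update_self] at e2
        beta_reduce at e1 e2
        omega
      · unfold xd
        exact sum_congr rfl fun i _ => Function.update_of_ne (by exact Sum.inl_ne_inr) _ _
    refine card_bij' (fun α _ => Function.update α (Sum.inr o) (α (Sum.inr o) + (e + 1)))
      (fun α _ => Function.update α (Sum.inr o) (α (Sum.inr o) - (e + 1))) ?_ ?_ ?_ ?_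
    · intro α hα
      rw [mem_Bx] at hα
      have h1 := hup α (α (Sum.inr o) + (e + 1))
      rw [mem_filter, mem_Bx, Function.update_self]
      omega
    · intro α hα
      rw [mem_filter, mem_Bx] at hα
      have h1 := hup α (α (Sum.inr o) - (e + 1))
      rw [mem_Bx]
      omega
    · intro α _
      rw [Function.update_self, Function.update_idem]
      have h1 : α (Sum.inr o) + (e + 1) - (e + 1) = α (Sum.inr o) := by omega
      rw [h1, Function.update_eq_self]
    · intro α hα
      rw [mem_filter] at hα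
      rw [Function.update_self, Function.update_idem]
      have h1 : α (Sum.inr o) - (e + 1) + (e + 1) = α (Sum.inr o) := by omega
      rw [h1, Function.update_eq_self]
  · rw [card_eq_zero, filter_eq_empty_iff]
    intro α hα
    rw [mem_Bx] at hα
    have h1 := hyd α
    omega

theorem card_Bw {a b d j : ℕ} (ha : 1 ≤ a) (hj : j ≤ d) (o : Fin b) (e : ℕ) :
    (Bw a b d j o e).card = Bt a b d e j := by
  have hb : 1 ≤ b := by
    have := o.isLt
    omega
  have h1 : (Bw a b d j o e).card + ((Bx a b d j).filter fun α => ¬ α (Sum.inr o) ≤ e).card =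
      (Bx a b d j).card := by
    unfold Bw
    exact card_filter_add_card_filter_not _
  rw [CardWT_hi hj o e, card_Bx hj] at h1
  unfold Bt
  unfold bet at h1
  split_ifs at h1 with h
  · have h2 := mcr_add (n := b) (e := e) (v := j) hb h
    rw [← h2, Nat.mul_add] at h1
    omega
  · rw [mcr_of_le hb (by omega)]
    omega

end Pool.Agent.H21.TC

end

section

/-!
# TC11: the weights of the problem: asymptotics

`Ew a b e (p, q) = multichoose (a - 1) p * mcr (b - 1) e q`; for `q ≤ e` it is `Eg` (`mcr_of_le`), and for `q > e`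
`Eg a b (p, q) - Ew a b e (p, q) = multichoose (a - 1) p * multichoose (b - 1) (q - (e + 1)) ≤
multichoose (a + b - 2) (p + q - (e + 1))` (`sum_multichoose`, one term) `≤ ell (a + b - 1) (p + q)`, which is at most
`δ / 2 * ell (a + b - 1) (p + q + 1)` for `a + b` large (ratio `(p + q) / (p + q + a + b - 1)`, see `Lead_ratio` in
`Pool/Agent/H51/TB/Lead.lean`).  Together with `asy`.  The same for `Bt` with `asy'`, `multichoose a p *
multichoose b (q - (e + 1)) ≤ multichoose (a + b) (d - (e + 1)) ≤ ell (a + b - 1) d`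
(`multichoose (n + 1) c = ell n (c + 1)`).
-/

namespace Pool.Agent.H21.TC

open Finset Pool.Agent.H18.Ex Pool.Agent.H21.NX Pool.Agent.H18.Ta Pool.Agent.H51.TB

private theorem EAsyT_mcl (n k : ℕ) : Nat.multichoose n k ≤ Nat.multichoose (n + 1) k := by
  rcases k with _ | k
  · simp
  · rw [Nat.multichoose_succ_succ]
    exact Nat.le_add_right _ _

private theorem EAsyT_mcr (n k : ℕ) :
    Nat.multichoose (n + 1) k ≤ Nat.multichoose (n + 1) (k + 1) := by
  rw [Nat.multichoose_succ_succ]
  exact Nat.le_add_left _ _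

private theorem EAsyT_mono {v w n s t k : ℕ} (hn : v + w ≤ n + 1) (hk : s + t ≤ k) :
    Nat.multichoose v s * Nat.multichoose w t ≤ Nat.multichoose (n + 1) k := by
  have h1 : Nat.multichoose v s * Nat.multichoose w t ≤ Nat.multichoose (v + w) (s + t) := by
    rw [← sum_multichoose]
    exact Finset.single_le_sum (f := fun g : ℕ × ℕ => Nat.multichoose v g.1 * Nat.multichoose w g.2)
      (fun _ _ => Nat.zero_le _) (mem_antidiagonal.2 rfl : (s, t) ∈ antidiagonal (s + t))
  have h2 : Monotone fun m => Nat.multichoose m (s + t) :=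
    monotone_nat_of_le_succ fun m => EAsyT_mcl m _
  have h3 : Monotone fun j => Nat.multichoose (n + 1) j :=
    monotone_nat_of_le_succ fun j => EAsyT_mcr n j
  exact h1.trans ((h2 hn).trans (h3 hk))

private theorem EAsyT_ell (n k : ℕ) : ell n (k + 1) = Nat.multichoose (n + 1) k := by
  rw [Nat.multichoose_eq]
  unfold ell
  rw [show k + 1 + n - 1 = n + k by omega, show n + 1 + k - 1 = n + k by omega,
    Nat.choose_symm_add]

private theorem EAsyT_ratio {n c : ℕ} (hc : 1 ≤ c) : ell n c * (c + n) = ell n (c + 1) * c := by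
  unfold ell
  have := Nat.choose_mul_succ_eq (c + n - 1) n
  rw [show c + n - 1 + 1 = c + n by omega, show c + n - n = c by omega] at this
  rw [this, show c + 1 + n - 1 = c + n by omega]

/-- the terms of smaller degree are small -/
private theorem EAsyT_small (k : ℕ) (δ : ℝ) (hδ : 0 < δ) : ∃ n₁ : ℕ, ∀ n : ℕ, n₁ ≤ n →
    ∀ v w s t : ℕ, v + w ≤ n + 1 → s + t < k →
      ((Nat.multichoose v s * Nat.multichoose w t : ℕ) : ℝ) ≤ δ * (ell n (k + 1) : ℝ) := by
  obtain ⟨n₁, hn₁⟩ := exists_nat_ge ((k : ℝ) / δ)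
  refine ⟨n₁, fun n hn v w s t hv hs => ?_⟩
  have hk : 1 ≤ k := by omega
  have h1 := EAsyT_mono (n := n) (k := k - 1) hv (show s + t ≤ k - 1 by omega)
  rw [← EAsyT_ell, show k - 1 + 1 = k by omega] at h1
  have h2 := EAsyT_ratio (n := n) hk
  have h3 : ((Nat.multichoose v s * Nat.multichoose w t : ℕ) : ℝ) ≤ (ell n k : ℝ) := by
    exact_mod_cast h1
  have h4 : (ell n k : ℝ) * ((k : ℝ) + n) = (ell n (k + 1) : ℝ) * k := by exact_mod_cast h2
  have h5 : (0 : ℝ) < k := by exact_mod_cast hk
  have h6 : (k : ℝ) ≤ δ * ((k : ℝ) + n) := by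
    rw [div_le_iff₀ hδ] at hn₁
    have h7 : (n₁ : ℝ) ≤ n := by exact_mod_cast hn
    have h8 : (n₁ : ℝ) * δ ≤ n * δ := mul_le_mul_of_nonneg_right h7 hδ.le
    nlinarith
  have h7 : (0 : ℝ) < (k : ℝ) + n := by positivity
  have h8 : (0 : ℝ) ≤ (ell n (k + 1) : ℝ) := Nat.cast_nonneg _
  refine h3.trans (le_of_mul_le_mul_right ?_ h7)
  rw [h4]
  calc (ell n (k + 1) : ℝ) * k ≤ (ell n (k + 1) : ℝ) * (δ * ((k : ℝ) + n)) :=
        mul_le_mul_of_nonneg_left h6 h8
    _ = δ * (ell n (k + 1) : ℝ) * ((k : ℝ) + n) := by ring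

private theorem EAsyT_abs {x s y c E δ : ℝ} (h : x + s = y) (hs : 0 ≤ s) (hs' : s ≤ δ / 2 * E)
    (h1 : |y - c| ≤ δ / 2 * E) : |x - c| ≤ δ * E := by
  rw [abs_le] at h1 ⊢
  constructor <;> linarith [h1.1, h1.2]

theorem asy_Ew (e : ℕ) : AsyW fun a b => Ew a b e := by
  intro p q δ hδ
  obtain ⟨ε, hε, n₀, h⟩ := asy p q (δ / 2) (by linarith)
  obtain ⟨n₁, h1⟩ := EAsyT_small (p + q) (δ / 2) (by linarith)
  refine ⟨ε, hε, max n₀ (n₁ + 1), fun a b ha hb hn hab => ?_⟩
  have hn0 : n₀ ≤ a + b := (le_max_left _ _).trans hn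
  have hn1 : n₁ + 1 ≤ a + b := (le_max_right _ _).trans hn
  have h2 := h a b (by omega) (by omega) hn0 hab
  have hE : (0 : ℝ) ≤ (ell (a + b - 1) (p + q + 1) : ℝ) := Nat.cast_nonneg _
  show |(Ew a b e (p, q) : ℝ) - _| ≤ _
  rcases Nat.lt_or_ge e q with hq | hq
  · have h3 := mcr_add (n := b - 1) (e := e) (v := q) (by omega) hq
    have h4 : Ew a b e (p, q) + Nat.multichoose (a - 1) p * Nat.multichoose (b - 1) (q - (e + 1)) =
        Nat.multichoose (a - 1) p * Nat.multichoose (b - 1) q := by
      unfold Ew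
      rw [← mul_add, h3]
    have h5 := h1 (a + b - 1) (by omega) (a - 1) (b - 1) p (q - (e + 1)) (by omega) (by omega)
    refine EAsyT_abs ?_ (Nat.cast_nonneg _) h5 h2
    exact_mod_cast h4
  · have h3 : Ew a b e (p, q) = Nat.multichoose (a - 1) p * Nat.multichoose (b - 1) q := by
      unfold Ew
      rw [mcr_of_le (by omega) hq]
    rw [h3]
    refine EAsyT_abs (s := 0) (add_zero _) le_rfl (by positivity) h2

theorem asy_Bt (d e : ℕ) : AsyB d fun a b => Bt a b d e := by
  intro q hqd δ hδ
  obtain ⟨ε, hε, n₀, h⟩ := asy' (d - q) q (δ / 2) (by linarith)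
  obtain ⟨n₁, h1⟩ := EAsyT_small d (δ / 2) (by linarith)
  refine ⟨ε, hε, max n₀ (n₁ + 1), fun a b ha hb hn hab => ?_⟩
  have hn0 : n₀ ≤ a + b := (le_max_left _ _).trans hn
  have hn1 : n₁ + 1 ≤ a + b := (le_max_right _ _).trans hn
  have h2 := h a b (by omega) (by omega) hn0 hab
  rw [Nat.sub_add_cancel hqd] at h2
  have hE : (0 : ℝ) ≤ (ell (a + b - 1) (d + 1) : ℝ) := Nat.cast_nonneg _
  show |(Bt a b d e q : ℝ) - _| ≤ _
  rcases Nat.lt_or_ge e q with hq | hq
  · have h3 := mcr_add (n := b) (e := e) (v := q) (by omega) hq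
    have h4 : Bt a b d e q + Nat.multichoose a (d - q) * Nat.multichoose b (q - (e + 1)) =
        Nat.multichoose a (d - q) * Nat.multichoose b q := by
      unfold Bt
      rw [← mul_add, h3]
    have h5 := h1 (a + b - 1) (by omega) a b (d - q) (q - (e + 1)) (by omega) (by omega)
    refine EAsyT_abs ?_ (Nat.cast_nonneg _) h5 h2
    exact_mod_cast h4
  · have h3 : Bt a b d e q = Nat.multichoose a (d - q) * Nat.multichoose b q := by
      unfold Bt
      rw [mcr_of_le (by omega) hq]
    rw [h3]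
    refine EAsyT_abs (s := 0) (add_zero _) le_rfl (by positivity) h2

end Pool.Agent.H21.TC

end

section

/-!
# TC13: the number of independent conditions of a type

As `le_size_U` in `Pool/Agent/H51/TB/URank.lean` (complete; the proof and its private lemmas can be copied):
the position `q` is `1` at the first `X`-variable `c = ⟨0, _⟩` and at a `Y`-variable `c' ≠ o` (`2 ≤ b`), `0` at the
other variables.  The solutions of a type `Λ` at `q` vanish at all `α ∈ Bw a b d j o e` for which the
exponent `β` obtained by putting `0` at `c` and `c'` has bidegree in `Λ` (`β ↦ α` is unique).  The number of these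
`α`: for every `g ∈ Λ` (`g.1 ≤ d - j`, `g.2 ≤ j`) the exponents of degree `g.1` in the `a - 1` variables `≠ c` times
those of degree `g.2` in the `b - 1` variables `≠ c'` with exponent `≤ e` at `o`, i.e.
`multichoose (a - 1) g.1 * mcr (b - 1) e g.2 = Ew a b e g` (`mcr` splits by the exponent at `o`: the other
`b - 2` variables have degree `g.2 - i`).
-/

namespace Pool.Agent.H21.TC

open Finset MvPolynomial Pool.Agent.H18.Ex Pool.Agent.H21.NX Pool.Agent.H18.Ta Pool.Agent.H51.TB

private theorem RankWT_card_Sx {ι : Type} [Fintype ι] [DecidableEq ι] (n : ℕ) :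
    (Sx ι n).card = Nat.multichoose (Fintype.card ι) n := by
  rw [← card_univ, ← card_finsuppAntidiag_nat_eq_multichoose]
  symm
  apply card_bij (fun (α : ι →₀ ℕ) _ => (⇑α : ι → ℕ))
  · intro α hα
    rw [mem_finsuppAntidiag] at hα
    exact mem_Sx.2 hα.1
  · intro α _ β _ h
    exact DFunLike.coe_injective h
  · intro f hf
    refine ⟨Finsupp.equivFunOnFinite.symm f, ?_, rfl⟩
    rw [mem_finsuppAntidiag]
    exact ⟨mem_Sx.1 hf, subset_univ _⟩

/-- the special variables -/
private def RankWT_sp {a b : ℕ} (c : Fin a) (c' : Fin b) : Z a b → Prop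
  | Sum.inl i => i = c
  | Sum.inr i => i = c'

private instance {a b : ℕ} (c : Fin a) (c' : Fin b) : DecidablePred (RankWT_sp c c') := fun z => by
  rcases z with i | i <;> unfold RankWT_sp <;> infer_instance

/-- the special position -/
private noncomputable def RankWT_q {a b : ℕ} (c : Fin a) (c' : Fin b) (z : Z a b) : ℂ :=
  if RankWT_sp c c' z then 1 else 0

/-- `α` with the special coordinates removed -/
private def RankWT_red {a b : ℕ} (c : Fin a) (c' : Fin b) (α : Z a b → ℕ) (z : Z a b) : ℕ :=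
  if RankWT_sp c c' z then 0 else α z

private theorem RankWT_sp_inl {a b : ℕ} (c : Fin a) (c' : Fin b) : RankWT_sp c c' (Sum.inl c) := rfl

private theorem RankWT_sp_inr {a b : ℕ} (c : Fin a) (c' : Fin b) : RankWT_sp c c' (Sum.inr c') := rfl

private theorem RankWT_nsp_inl {a b : ℕ} (c : Fin a) (c' : Fin b) {i : Fin a} (h : i ≠ c) :
    ¬ RankWT_sp c c' (Sum.inl i) := h

private theorem RankWT_nsp_inr {a b : ℕ} (c : Fin a) (c' : Fin b) {i : Fin b} (h : i ≠ c') :
    ¬ RankWT_sp c c' (Sum.inr i) := h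

private theorem RankWT_xd' {a b : ℕ} (c : Fin a) (α : Z a b → ℕ) :
    xd α = α (Sum.inl c) + ∑ i : {i // i ≠ c}, α (Sum.inl i.1) := by
  unfold xd
  exact Fintype.sum_eq_add_sum_subtype_ne (fun i => α (Sum.inl i)) c

private theorem RankWT_yd' {a b : ℕ} (c' : Fin b) (α : Z a b → ℕ) :
    yd α = α (Sum.inr c') + ∑ i : {i // i ≠ c'}, α (Sum.inr i.1) := by
  unfold yd
  exact Fintype.sum_eq_add_sum_subtype_ne (fun i => α (Sum.inr i)) c'

private theorem RankWT_xd_red {a b : ℕ} (c : Fin a) (c' : Fin b) (α : Z a b → ℕ) :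
    xd (RankWT_red c c' α) = ∑ i : {i // i ≠ c}, α (Sum.inl i.1) := by
  rw [RankWT_xd' c]
  have h0 : RankWT_red c c' α (Sum.inl c) = 0 := by
    unfold RankWT_red
    rw [if_pos (RankWT_sp_inl c c')]
  rw [h0, Nat.zero_add]
  refine sum_congr rfl fun i _ => ?_
  unfold RankWT_red
  rw [if_neg (RankWT_nsp_inl c c' i.2)]

private theorem RankWT_yd_red {a b : ℕ} (c : Fin a) (c' : Fin b) (α : Z a b → ℕ) :
    yd (RankWT_red c c' α) = ∑ i : {i // i ≠ c'}, α (Sum.inr i.1) := by
  rw [RankWT_yd' c']
  have h0 : RankWT_red c c' α (Sum.inr c') = 0 := by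
    unfold RankWT_red
    rw [if_pos (RankWT_sp_inr c c')]
  rw [h0, Nat.zero_add]
  refine sum_congr rfl fun i _ => ?_
  unfold RankWT_red
  rw [if_neg (RankWT_nsp_inr c c' i.2)]

private theorem RankWT_xd {a b : ℕ} (c : Fin a) (c' : Fin b) (α : Z a b → ℕ) :
    xd α = α (Sum.inl c) + xd (RankWT_red c c' α) := by
  rw [RankWT_xd_red, RankWT_xd' c]

private theorem RankWT_yd {a b : ℕ} (c : Fin a) (c' : Fin b) (α : Z a b → ℕ) :
    yd α = α (Sum.inr c') + yd (RankWT_red c c' α) := by
  rw [RankWT_yd_red, RankWT_yd' c']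

private theorem RankWT_eq {a b d j : ℕ} (c : Fin a) (c' : Fin b) {α α' : Z a b → ℕ}
    (h : α ∈ Bx a b d j) (h' : α' ∈ Bx a b d j) (hr : RankWT_red c c' α = RankWT_red c c' α') :
    α = α' := by
  rw [mem_Bx] at h h'
  have hx := RankWT_xd c c' α
  have hx' := RankWT_xd c c' α'
  have hy := RankWT_yd c c' α
  have hy' := RankWT_yd c c' α'
  rw [hr] at hx hy
  funext z
  by_cases hz : RankWT_sp c c' z
  · rcases z with i | i
    · have : i = c := hz
      subst this
      omega
    · have : i = c' := hz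
      subst this
      omega
  · have := congrFun hr z
    unfold RankWT_red at this
    rwa [if_neg hz, if_neg hz] at this

private theorem RankWT_tcr {a b : ℕ} (c : Fin a) (c' : Fin b) (α β : Z a b → ℕ) :
    tcr (RankWT_q c c') α (RankWT_red c c' β) =
      if RankWT_red c c' α = RankWT_red c c' β then 1 else 0 := by
  unfold tcr
  split_ifs with h
  · apply prod_eq_one
    intro z _
    have h1 := congrFun h z
    unfold RankWT_q
    by_cases hz : RankWT_sp c c' z
    · have h2 : RankWT_red c c' β z = 0 := by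
        unfold RankWT_red
        rw [if_pos hz]
      rw [if_pos hz, h2]
      simp
    · have h2 : RankWT_red c c' α z = α z := by
        unfold RankWT_red
        rw [if_neg hz]
      rw [if_neg hz, ← h1, h2]
      simp
  · have h1 : ∃ z, RankWT_red c c' α z ≠ RankWT_red c c' β z := by
      by_contra hc
      push Not at hc
      exact h (funext hc)
    obtain ⟨z, hz⟩ := h1
    apply prod_eq_zero (mem_univ z)
    have hsp : ¬ RankWT_sp c c' z := by
      intro hs
      apply hz
      unfold RankWT_red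
      rw [if_pos hs, if_pos hs]
    have h2 : RankWT_red c c' α z = α z := by
      unfold RankWT_red
      rw [if_neg hsp]
    rw [h2] at hz
    unfold RankWT_q
    rw [if_neg hsp]
    rcases Nat.lt_or_gt_of_ne hz with h3 | h3
    · rw [Nat.choose_eq_zero_of_lt h3]
      simp
    · rw [zero_pow (by omega), mul_zero]

/-- the exponents whose coefficients vanish -/
private def RankWT_T {a b : ℕ} (d j : ℕ) (o : Fin b) (e : ℕ) (c : Fin a) (c' : Fin b)
    (Λ : Finset (ℕ × ℕ)) : Finset (Z a b → ℕ) :=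
  (Bw a b d j o e).filter fun α => (xd (RankWT_red c c' α), yd (RankWT_red c c' α)) ∈ Λ

/-- the exponent with given coordinates off the special variables -/
private def RankWT_ext {a b : ℕ} (c : Fin a) (c' : Fin b) (s s' : ℕ)
    (w : ({i : Fin a // i ≠ c} → ℕ) × ({i : Fin b // i ≠ c'} → ℕ)) : Z a b → ℕ
  | Sum.inl i => if h : i = c then s else w.1 ⟨i, h⟩
  | Sum.inr i => if h : i = c' then s' else w.2 ⟨i, h⟩

private theorem RankWT_ext_inl {a b : ℕ} (c : Fin a) (c' : Fin b) (s s' : ℕ)
    (w : ({i : Fin a // i ≠ c} → ℕ) × ({i : Fin b // i ≠ c'} → ℕ)) (i : {i : Fin a // i ≠ c}) :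
    RankWT_ext c c' s s' w (Sum.inl i.1) = w.1 i := by
  unfold RankWT_ext
  simp only
  rw [dif_neg i.2]

private theorem RankWT_ext_inr {a b : ℕ} (c : Fin a) (c' : Fin b) (s s' : ℕ)
    (w : ({i : Fin a // i ≠ c} → ℕ) × ({i : Fin b // i ≠ c'} → ℕ)) (i : {i : Fin b // i ≠ c'}) :
    RankWT_ext c c' s s' w (Sum.inr i.1) = w.2 i := by
  unfold RankWT_ext
  simp only
  rw [dif_neg i.2]

/-- the extension of `w` by `i` at `o` -/
private def RankWT_ins {ι : Type} [DecidableEq ι] (o : ι) (i : ℕ) (w : {x : ι // x ≠ o} → ℕ) (x : ι) : ℕ :=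
  if h : x = o then i else w ⟨x, h⟩

private theorem RankWT_ins_same {ι : Type} [DecidableEq ι] (o : ι) (i : ℕ) (w : {x : ι // x ≠ o} → ℕ) :
    RankWT_ins o i w o = i := by
  unfold RankWT_ins
  rw [dif_pos rfl]

private theorem RankWT_ins_ne {ι : Type} [DecidableEq ι] (o : ι) (i : ℕ) (w : {x : ι // x ≠ o} → ℕ)
    (x : {x : ι // x ≠ o}) : RankWT_ins o i w x.1 = w x := by
  unfold RankWT_ins
  rw [dif_neg x.2]

private theorem RankWT_fib {ι : Type} [Fintype ι] [DecidableEq ι] (o : ι) (e v i : ℕ)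
    (hi : i ≤ e) (hv : i ≤ v) : Nat.multichoose (Fintype.card ι - 1) (v - i) ≤
      (((Sx ι v).filter fun f => f o ≤ e).filter fun f => f o = i).card := by
  have h1 := RankWT_card_Sx (ι := {x : ι // x ≠ o}) (v - i)
  have h3 : Fintype.card {x : ι // x ≠ o} = Fintype.card ι - 1 := by
    have h := Fintype.card_subtype_compl (fun x : ι => x = o)
    rw [Fintype.card_subtype_eq] at h
    exact h
  rw [h3] at h1
  rw [← h1]
  apply card_le_card_of_injOn (RankWT_ins o i)
  · intro w hw
    rw [Finset.mem_coe, mem_Sx] at hw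
    rw [Finset.mem_coe, mem_filter, mem_filter, mem_Sx]
    refine ⟨⟨?_, ?_⟩, RankWT_ins_same o i w⟩
    · rw [Fintype.sum_eq_add_sum_subtype_ne (RankWT_ins o i w) o, RankWT_ins_same,
        sum_congr rfl fun x _ => RankWT_ins_ne o i w x, hw]
      omega
    · rw [RankWT_ins_same]
      exact hi
  · intro w _ w' _ h
    funext x
    have h6 := congrFun h x.1
    rwa [RankWT_ins_ne, RankWT_ins_ne] at h6

private theorem RankWT_mcr {ι : Type} [Fintype ι] [DecidableEq ι] (o : ι) (e v : ℕ) :
    mcr (Fintype.card ι) e v ≤ ((Sx ι v).filter fun f => f o ≤ e).card := by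
  have h1 : ((Sx ι v).filter fun f => f o ≤ e).card = ∑ i ∈ range (min e v + 1),
      (((Sx ι v).filter fun f => f o ≤ e).filter fun f => f o = i).card := by
    apply card_eq_sum_card_fiberwise
    intro f hf
    rw [Finset.mem_coe, mem_filter, mem_Sx] at hf
    rw [Finset.mem_coe, mem_range]
    have h2 : f o ≤ ∑ x, f x := single_le_sum (f := f) (fun i _ => Nat.zero_le _) (mem_univ o)
    have h3 : f o ≤ min e v := le_min hf.2 (by omega)
    exact Nat.lt_succ_of_le h3
  rw [h1]
  unfold mcr
  refine sum_le_sum fun i hi => ?_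
  rw [mem_range] at hi
  have h4 : i ≤ min e v := by omega
  exact RankWT_fib o e v i (h4.trans (min_le_left _ _)) (h4.trans (min_le_right _ _))

private theorem RankWT_card_fib {a b d j : ℕ} (hj : j ≤ d) (o : Fin b) (e : ℕ) (c : Fin a)
    (c' : Fin b) (hoc : o ≠ c') (g : ℕ × ℕ) (hg : j + g.1 ≤ d ∧ g.2 ≤ j) :
    Ew a b e g ≤ ((Bw a b d j o e).filter fun α =>
      (xd (RankWT_red c c' α), yd (RankWT_red c c' α)) = g).card := by
  have h1 := RankWT_card_Sx (ι := {i : Fin a // i ≠ c}) g.1
  have h2 := RankWT_mcr (ι := {i : Fin b // i ≠ c'}) ⟨o, hoc⟩ e g.2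
  have h3 : Fintype.card {i : Fin a // i ≠ c} = a - 1 := by
    rw [Fintype.card_subtype_compl, Fintype.card_fin, Fintype.card_unique]
  have h4 : Fintype.card {i : Fin b // i ≠ c'} = b - 1 := by
    rw [Fintype.card_subtype_compl, Fintype.card_fin, Fintype.card_unique]
  rw [h3] at h1
  rw [h4] at h2
  unfold Ew
  rw [← h1]
  refine (Nat.mul_le_mul_left _ h2).trans ?_
  rw [← card_product]
  apply card_le_card_of_injOn (RankWT_ext c c' (d - j - g.1) (j - g.2))
  · intro w hw
    rw [Finset.mem_coe, mem_product, mem_filter, mem_Sx, mem_Sx] at hw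
    rw [Finset.mem_coe, mem_filter]
    have e1 : xd (RankWT_red c c' (RankWT_ext c c' (d - j - g.1) (j - g.2) w)) = g.1 := by
      rw [RankWT_xd_red, ← hw.1]
      exact sum_congr rfl fun i _ => RankWT_ext_inl c c' _ _ w i
    have e2 : yd (RankWT_red c c' (RankWT_ext c c' (d - j - g.1) (j - g.2) w)) = g.2 := by
      rw [RankWT_yd_red, ← hw.2.1]
      exact sum_congr rfl fun i _ => RankWT_ext_inr c c' _ _ w i
    have e3 : RankWT_ext c c' (d - j - g.1) (j - g.2) w (Sum.inl c) = d - j - g.1 := by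
      unfold RankWT_ext
      simp
    have e4 : RankWT_ext c c' (d - j - g.1) (j - g.2) w (Sum.inr c') = j - g.2 := by
      unfold RankWT_ext
      simp
    have e5 : RankWT_ext c c' (d - j - g.1) (j - g.2) w (Sum.inr o) ≤ e := by
      rw [RankWT_ext_inr c c' _ _ w ⟨o, hoc⟩]
      exact hw.2.2
    have hx := RankWT_xd c c' (RankWT_ext c c' (d - j - g.1) (j - g.2) w)
    have hy := RankWT_yd c c' (RankWT_ext c c' (d - j - g.1) (j - g.2) w)
    rw [e1, e3] at hx
    rw [e2, e4] at hy
    refine ⟨?_, by rw [e1, e2]⟩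
    unfold Bw
    rw [mem_filter, mem_Bx]
    exact ⟨⟨by omega, by omega⟩, e5⟩
  · intro w _ w' _ h
    ext i
    · have := congrFun h (Sum.inl i.1)
      rwa [RankWT_ext_inl, RankWT_ext_inl] at this
    · have := congrFun h (Sum.inr i.1)
      rwa [RankWT_ext_inr, RankWT_ext_inr] at this

private theorem RankWT_card_T {a b d j : ℕ} (hj : j ≤ d) (o : Fin b) (e : ℕ) (c : Fin a)
    (c' : Fin b) (hoc : o ≠ c') (Λ : Finset (ℕ × ℕ))
    (hΛ : ∀ g ∈ Λ, j + g.1 ≤ d ∧ g.2 ≤ j) :
    ∑ g ∈ Λ, Ew a b e g ≤ (RankWT_T d j o e c c' Λ).card := by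
  have h1 : (RankWT_T d j o e c c' Λ).card =
      ∑ g ∈ Λ, ((RankWT_T d j o e c c' Λ).filter fun α =>
        (xd (RankWT_red c c' α), yd (RankWT_red c c' α)) = g).card := by
    apply card_eq_sum_card_fiberwise
    intro α hα
    unfold RankWT_T at hα
    rw [Finset.mem_coe, mem_filter] at hα
    exact hα.2
  rw [h1]
  refine sum_le_sum fun g hg => ?_
  refine (RankWT_card_fib hj o e c c' hoc g (hΛ g hg)).trans (card_le_card ?_)
  intro α hα
  rw [mem_filter] at hα
  unfold RankWT_T
  rw [mem_filter, mem_filter]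
  exact ⟨⟨hα.1, by rw [hα.2]; exact hg⟩, hα.2⟩

theorem le_size_W {a b d j : ℕ} (ha : 1 ≤ a) (hb : 2 ≤ b) (hj : j ≤ d) (o : Fin b) (e : ℕ)
    (Λ : Finset (ℕ × ℕ)) (hΛ : ∀ g ∈ Λ, j + g.1 ≤ d ∧ g.2 ≤ j) :
    ∑ g ∈ Λ, Ew a b e g ≤ (ASys (Bw a b d j o e)).size Λ := by
  obtain ⟨c', hoc⟩ : ∃ c' : Fin b, o ≠ c' := by
    have : Nontrivial (Fin b) := Fin.nontrivial_iff_two_le.mpr hb
    obtain ⟨c, hc⟩ := exists_ne o
    exact ⟨c, hc.symm⟩
  let c : Fin a := ⟨0, by omega⟩
  refine (RankWT_card_T hj o e c c' hoc Λ hΛ).trans ?_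
  let T : Finset {α // α ∈ Bw a b d j o e} := univ.filter fun α => α.1 ∈ RankWT_T d j o e c c' Λ
  have hT : T.card = (RankWT_T d j o e c c' Λ).card := by
    apply card_bij (fun (α : {α // α ∈ Bw a b d j o e}) _ => α.1)
    · intro α hα
      exact (mem_filter.1 hα).2
    · intro α _ β _ h
      exact Subtype.ext h
    · intro α hα
      have h1 : α ∈ Bw a b d j o e := by
        unfold RankWT_T at hα
        exact (mem_filter.1 hα).1
      exact ⟨⟨α, h1⟩, mem_filter.2 ⟨mem_univ _, hα⟩, rfl⟩
  have hBx : ∀ α : {α // α ∈ Bw a b d j o e}, α.1 ∈ Bx a b d j := by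
    intro α
    have h1 := α.2
    unfold Bw at h1
    exact (mem_filter.1 h1).1
  -- the solutions vanish on `T`
  have hvan : ∀ f ∈ (ASys (Bw a b d j o e)).V (fun _ : Unit => Λ) (fun _ => RankWT_q c c'),
      ∀ α ∈ T, f α = 0 := by
    intro f hf α hα
    rw [mem_AV] at hf
    have hα' : (xd (RankWT_red c c' α.1), yd (RankWT_red c c' α.1)) ∈ Λ := by
      have := (mem_filter.1 hα).2
      unfold RankWT_T at this
      exact (mem_filter.1 this).2
    have h1 := hf () (RankWT_red c c' α.1) hα'
    rw [sum_eq_single α] at h1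
    · rw [RankWT_tcr, if_pos rfl, one_mul] at h1
      exact h1
    · intro β _ hβ
      rw [RankWT_tcr, if_neg, zero_mul]
      intro h
      exact hβ (Subtype.ext (RankWT_eq c c' (hBx β) (hBx α) h))
    · intro h
      exact absurd (mem_univ α) h
  have hfin : Module.finrank ℂ ((ASys (Bw a b d j o e)).V (fun _ : Unit => Λ)
      (fun _ => RankWT_q c c')) ≤ Fintype.card {α // α ∈ Bw a b d j o e} - T.card := by
    let φ : (ASys (Bw a b d j o e)).V (fun _ : Unit => Λ) (fun _ => RankWT_q c c') →ₗ[ℂ]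
        ({α // α ∉ T} → ℂ) :=
      (LinearMap.funLeft ℂ ℂ (fun α : {α // α ∉ T} => α.1)).comp (Submodule.subtype _)
    have hφ : Function.Injective φ := by
      rw [← LinearMap.ker_eq_bot, LinearMap.ker_eq_bot']
      intro f hf
      apply Subtype.ext
      funext α
      by_cases hα : α ∈ T
      · exact hvan f.1 f.2 α hα
      · exact congrFun hf ⟨α, hα⟩
    have h1 := LinearMap.finrank_le_finrank_of_injective hφ
    rw [Module.finrank_fintype_fun_eq_card] at h1
    have h2 : Fintype.card {α // α ∉ T} = Fintype.card {α // α ∈ Bw a b d j o e} - T.card := by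
      rw [Fintype.card_subtype_compl, Fintype.card_coe, Fintype.card_coe]
    rw [h2] at h1
    exact h1
  have hgd := gd_le (ASys (Bw a b d j o e)) (fun _ : Unit => Λ) (fun _ => RankWT_q c c')
  have hc : T.card ≤ Fintype.card {α // α ∈ Bw a b d j o e} := card_le_univ T
  unfold Sys.size
  omega

end Pool.Agent.H21.TC

end

section

/-!
# TC12: the span property with the restricted variable among the `Y`-variables

Transport of `span_U` (restricted variable `o : Fin a` among the `X`-variables, `2 ≤ a`) by exchanging the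
two blocks.  Let `σ : Z b a ≃ Z a b` be `Sum.swap`.  For `α' : Z b a → ℕ` put `α = α' ∘ σ.symm`; this is a
bijection from `Bu b a d (d - j) o e` (levels: `yd α' = d - j`, i.e. `xd α = d - j`, `yd α = j`, `j ≤ d`) onto
`Bw a b d j o e`.  `tcr q α β = tcr (q ∘ σ) α' β'` (`tcr` is a product over the variables: `Fintype.prod_equiv`),
`(xd β, yd β) ∈ Λ ↔ (xd β', yd β') ∈ Λ.image Prod.swap`.  So (`mem_AV`) `f ↦ (α' ↦ f (α' ∘ σ.symm))` is a linear
bijection from `V m p` (for `Bw`) to `V (fun i => (m i).image Prod.swap) (fun i => p i ∘ σ)` (for `Bu`), and a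
functional `φ ≠ 0` and a `Gn` statement (positions: the polynomial is renamed by `σ` in the second factor)
are transported as well; `gd` of the two are equal (only `gd = 0` is needed: `gd_attained`, `gd_le`).

It may be convenient to prove first a general lemma: systems `S : Sys E ν T`, `S' : Sys E' ν' T'`, `E ≃ E'`,
`ν' ≃ ν`, `τ : T → T'` with `f ∈ S.V m p ↔ f ∘ e.symm ∈ S'.V (τ ∘ m) (fun i => p i ∘ v)`; then
`S'.Span → S.Span`.
-/

namespace Pool.Agent.H21.TC

open Finset MvPolynomial Pool.Agent.H18.Ex Pool.Agent.H21.NX Pool.Agent.H18.Ta Pool.Agent.H51.TB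

/-- Transport of the span property. -/
private theorem SpanWT_transport {E E' ν ν' T T' : Type} [Fintype E] [Fintype E']
    (S : Sys E ν T) (S' : Sys E' ν' T') (u : E ≃ E') (v : ν' ≃ ν) (τ : T → T')
    (h : ∀ (κ : Type) (m : κ → T) (p : κ → ν → ℂ) (f : E → ℂ),
      f ∈ S.V m p ↔ (fun x => f (u.symm x)) ∈ S'.V (fun i => τ (m i)) fun i x => p i (v x))
    (hS : S'.Span) : S.Span := by
  intro κ _ m φ hφ hG
  have h0 : S'.gd (fun i => τ (m i)) = 0 := by
    refine hS κ (fun i => τ (m i)) (φ.comp (LinearMap.funLeft ℂ ℂ u)) ?_ ?_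
    · intro hcon
      apply hφ
      refine LinearMap.ext fun f => ?_
      have h1 := LinearMap.congr_fun hcon (fun x => f (u.symm x))
      rw [LinearMap.comp_apply, LinearMap.zero_apply] at h1
      have h2 : LinearMap.funLeft ℂ ℂ u (fun x => f (u.symm x)) = f := by
        funext x
        rw [LinearMap.funLeft_apply, Equiv.symm_apply_apply]
      rw [h2] at h1
      rw [h1, LinearMap.zero_apply]
    · obtain ⟨G, hG0, hG1⟩ := hG
      have hinj : Function.Injective (fun x : κ × ν => (x.1, v.symm x.2)) := by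
        intro x y hxy
        have h1 := congrArg Prod.fst hxy
        have h2 := congrArg Prod.snd hxy
        exact Prod.ext h1 (v.symm.injective h2)
      refine ⟨rename (fun x : κ × ν => (x.1, v.symm x.2)) G, ?_, fun p' hp' => ?_⟩
      · intro hcon
        apply hG0
        apply rename_injective _ hinj
        rw [hcon, map_zero]
      · rw [eval_rename] at hp'
        have h1 := hG1 (fun i x => p' i (v.symm x)) hp'
        intro f' hf'
        rw [LinearMap.mem_ker, LinearMap.comp_apply]
        rw [← LinearMap.mem_ker]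
        apply h1
        rw [h]
        have e1 : (fun x => LinearMap.funLeft ℂ ℂ u f' (u.symm x)) = f' := by
          funext x
          rw [LinearMap.funLeft_apply, Equiv.apply_symm_apply]
        have e2 : (fun i x => p' i (v.symm (v x))) = p' := by
          funext i x
          rw [Equiv.symm_apply_apply]
        rw [e1, e2]
        exact hf'
  obtain ⟨p', hp'⟩ := gd_attained S' (fun i => τ (m i))
  rw [h0, Submodule.finrank_eq_zero] at hp'
  have h1 : S.V m (fun i x => p' i (v.symm x)) = ⊥ := by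
    rw [eq_bot_iff]
    intro f hf
    rw [h] at hf
    have e2 : (fun i x => p' i (v.symm (v x))) = p' := by
      funext i x
      rw [Equiv.symm_apply_apply]
    rw [e2, hp', Submodule.mem_bot] at hf
    rw [Submodule.mem_bot]
    funext x
    have h2 := congrFun hf (u x)
    rw [Equiv.symm_apply_apply] at h2
    exact h2
  have h2 := gd_le S m (fun i x => p' i (v.symm x))
  rw [h1, finrank_bot] at h2
  exact Nat.le_zero.1 h2

private theorem SpanWT_xd {a b : ℕ} (α : Z a b → ℕ) :
    xd (a := b) (b := a) (fun x => α (Equiv.sumComm _ _ x)) = yd α := rfl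

private theorem SpanWT_yd {a b : ℕ} (α : Z a b → ℕ) :
    yd (a := b) (b := a) (fun x => α (Equiv.sumComm _ _ x)) = xd α := rfl

private theorem SpanWT_mem {a b d j : ℕ} (hj : j ≤ d) (o : Fin b) (e : ℕ) (α : Z a b → ℕ) :
    α ∈ Bw a b d j o e ↔
      (fun x => α (Equiv.sumComm _ _ x)) ∈ Bu b a d (d - j) o e := by
  unfold Bw Bu
  rw [mem_filter, mem_filter, mem_Bx, mem_Bx, SpanWT_xd, SpanWT_yd]
  have h1 : (fun x => α (Equiv.sumComm (Fin b) (Fin a) x)) (Sum.inl o) = α (Sum.inr o) := rfl
  rw [h1]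
  constructor
  · rintro ⟨⟨h2, h3⟩, h4⟩
    exact ⟨⟨by omega, by omega⟩, h4⟩
  · rintro ⟨⟨h2, h3⟩, h4⟩
    exact ⟨⟨by omega, by omega⟩, h4⟩

/-- Exchange of the blocks of the exponents. -/
private def SpanWT_equiv {a b d j : ℕ} (hj : j ≤ d) (o : Fin b) (e : ℕ) :
    {α // α ∈ Bw a b d j o e} ≃ {α // α ∈ Bu b a d (d - j) o e} where
  toFun α := ⟨fun x => α.1 (Equiv.sumComm _ _ x), (SpanWT_mem hj o e α.1).1 α.2⟩
  invFun α := ⟨fun x => α.1 (Equiv.sumComm _ _ x), (SpanWT_mem hj o e _).2 (by
    have h : (fun x => (fun x => α.1 (Equiv.sumComm (Fin a) (Fin b) x))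
        (Equiv.sumComm (Fin b) (Fin a) x)) = α.1 := by
      funext x
      rcases x with x | x <;> rfl
    rw [h]
    exact α.2)⟩
  left_inv α := by
    apply Subtype.ext
    funext x
    rcases x with x | x <;> rfl
  right_inv α := by
    apply Subtype.ext
    funext x
    rcases x with x | x <;> rfl

private theorem SpanWT_tcr {a b : ℕ} (q : Z a b → ℂ) (α β : Z a b → ℕ) :
    tcr (fun x => q (Equiv.sumComm (Fin b) (Fin a) x)) (fun x => α (Equiv.sumComm _ _ x))
      (fun x => β (Equiv.sumComm _ _ x)) = tcr q α β := by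
  unfold tcr
  exact Equiv.prod_comp (Equiv.sumComm (Fin b) (Fin a))
    fun i => (((α i).choose (β i) : ℕ) : ℂ) * q i ^ (α i - β i)

theorem span_W {a b d j : ℕ} (ha : 1 ≤ a) (hb : 2 ≤ b) (hj : j ≤ d) (o : Fin b) (e : ℕ) :
    (ASys (Bw a b d j o e)).Span := by
  classical
  refine SpanWT_transport (ASys (Bw a b d j o e)) (ASys (Bu b a d (d - j) o e))
    (SpanWT_equiv hj o e) (Equiv.sumComm (Fin b) (Fin a)) (fun Λ => Λ.image Prod.swap) ?_
    (span_U hb ha (Nat.sub_le _ _) o e)
  intro κ m p f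
  rw [mem_AV, mem_AV]
  have key : ∀ (i : κ) (β : Z a b → ℕ),
      ∑ α : {α // α ∈ Bu b a d (d - j) o e},
        tcr (fun x => p i (Equiv.sumComm (Fin b) (Fin a) x)) α.1
          (fun x => β (Equiv.sumComm _ _ x)) * f ((SpanWT_equiv hj o e).symm α) =
      ∑ α : {α // α ∈ Bw a b d j o e}, tcr (p i) α.1 β * f α := by
    intro i β
    rw [← Equiv.sum_comp (SpanWT_equiv hj o e)]
    refine sum_congr rfl fun α _ => ?_
    rw [Equiv.symm_apply_apply]
    have h1 : ((SpanWT_equiv hj o e) α).1 = fun x => α.1 (Equiv.sumComm _ _ x) := rfl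
    rw [h1, SpanWT_tcr]
  constructor
  · intro h i β' hβ'
    have e1 : β' = fun x => (fun y => β' (Equiv.sumComm (Fin a) (Fin b) y))
        (Equiv.sumComm (Fin b) (Fin a) x) := by
      funext x
      rcases x with x | x <;> rfl
    rw [e1]
    refine (key i (fun y => β' (Equiv.sumComm (Fin a) (Fin b) y))).trans ?_
    apply h
    rw [mem_image] at hβ'
    obtain ⟨g, hg, hg'⟩ := hβ'
    have h2 : xd (a := a) (b := b) (fun y => β' (Equiv.sumComm (Fin a) (Fin b) y)) = yd β' := rfl
    have h3 : yd (a := a) (b := b) (fun y => β' (Equiv.sumComm (Fin a) (Fin b) y)) = xd β' := rfl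
    rw [h2, h3]
    have h4 := congrArg Prod.swap hg'
    rw [Prod.swap_swap, Prod.swap_prod_mk] at h4
    rw [← h4]
    exact hg
  · intro h i β hβ
    refine (key i β).symm.trans ?_
    apply h
    rw [mem_image]
    exact ⟨(xd β, yd β), hβ, rfl⟩

end Pool.Agent.H21.TC

end

section

/-!
# TC14: from the numbers of points in the cells to `GM`

As `GM_of_counts_U` in `Pool/Agent/H51/TB/UCnt.lean` (complete; copy it) with the following changes.
* The point of multiplicity `d - e` is put at the coordinate point of the `Y`-variable `o = ⟨0, _⟩ : Fin b`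
  (`GM_cons (Sum.inr o) d (d - e)`): it remains to show `GM` on the exponents with `α_o + (d - e) ≤ d`, i.e.
  `α_o ≤ e`; the level `j` is `Bw a b d j o e`.
* The point `i₀ = Sum.inl ()` of `level` is now a real point of multiplicity `M` in the cell `(0, 0)`
  (type `Lam d M (0, 0) j`, class `0` by definition), as in `GM_of_counts` of `Cnt.lean` (index type
  `Unit ⊕ UCnt_I d c`); so there is no need for `UCnt_drop`.
* `le_size_W`, `span_W`, `card_Bw` instead of `le_size_U`, `span_U`, `card_Bu_add`; the weights are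
  `wtw d m (Ew a b e)`.
-/

namespace Pool.Agent.H21.TC

open Finset Pool.Agent.H18.Ex Pool.Agent.H21.NX Pool.Agent.H18.Ta Pool.Agent.H51.TB

private abbrev CntT_I (d : ℕ) (c : ℕ → ℕ × ℕ → ℕ) : Type :=
  Σ y : {y : ℕ × (ℕ × ℕ) // y ∈ range (d + 1) ×ˢ KK d}, Fin (c y.1.1 y.1.2)

private theorem CntT_sum {M : Type} [AddCommMonoid M] (d : ℕ) (c : ℕ → ℕ × ℕ → ℕ)
    (F : ℕ → ℕ × ℕ → M) :
    ∑ s : CntT_I d c, F s.1.1.1 s.1.1.2 = ∑ m ∈ range (d + 1), ∑ x ∈ KK d, c m x • F m x := by
  rw [Fintype.sum_sigma]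
  have h1 : ∀ y : {y : ℕ × (ℕ × ℕ) // y ∈ range (d + 1) ×ˢ KK d},
      ∑ _t : Fin (c y.1.1 y.1.2), F y.1.1 y.1.2 =
        (fun z : ℕ × (ℕ × ℕ) => c z.1 z.2 • F z.1 z.2) y.1 := by
    intro y
    rw [sum_const, card_univ, Fintype.card_fin]
  rw [sum_congr rfl fun y _ => h1 y]
  rw [← Finset.sum_product']
  exact Finset.sum_coe_sort (range (d + 1) ×ˢ KK d) fun z : ℕ × (ℕ × ℕ) => c z.1 z.2 • F z.1 z.2

private theorem CntT_univ_map {κ X : Type} [Fintype κ] (f : κ → X) :
    (univ : Finset κ).val.map f = ∑ i, ({f i} : Multiset X) := by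
  show _ = ((univ : Finset κ).val.map fun i => ({f i} : Multiset X)).sum
  have h := Multiset.sum_map_singleton ((univ : Finset κ).val.map f)
  rw [Multiset.map_map] at h
  exact h.symm

theorem GM_of_counts_W {a b d M μ e : ℕ} (ha : 2 ≤ a) (hb : 2 ≤ b) (hμ : 1 ≤ μ) (hμM : μ ≤ M)
    (hM : μ + M ≤ d) (he : e ≤ d) (A : ℕ → ℕ)
    (hA : ∀ m, A m ≠ 0 → 1 ≤ m ∧ m ≤ M ∧ m + M ≤ d + 1) (c : ℕ → ℕ × ℕ → ℕ)
    (hc : ∀ m ∈ range (d + 1), ∑ x ∈ KK d, c m x = A m)
    (h1 : ∀ j ≤ d, Bt a b d e j ≤ wtw d M (Ew a b e) (0, 0) j +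
      ∑ m ∈ range (d + 1), ∑ x ∈ KK d, c m x * wtw d m (Ew a b e) x j)
    (h2 : ∀ j ≤ d, ∀ t, 1 ≤ t → t < μ → ell (a + b) (t + 1) * ell (a + b) M ≤
      ∑ m ∈ range (d + 1), ∑ x ∈ KK d,
        if cls d m x j = t then c m x * wtw d m (Ew a b e) x j else 0)
    (h3 : ∀ j ≤ d, ell (a + b) (d + 1 - M) * ell (a + b) M ≤
      ∑ m ∈ range (d + 1), ∑ x ∈ KK d,
        if cls d m x j = μ then c m x * wtw d m (Ew a b e) x j else 0) :
    GM (Sx (Z a b) d) (((d - e) ::ₘ M ::ₘ ∑ m ∈ range (d + 1), Multiset.replicate (A m) m).map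
      Kind.free) := by
  classical
  have hn1 : 1 ≤ a + b := by omega
  let o : Fin b := ⟨0, by omega⟩
  rw [Multiset.map_cons]
  refine GM_cons (Sum.inr o) d (d - e) _ ?_
  let mult : Unit ⊕ CntT_I d c → ℕ := Sum.elim (fun _ => M) fun s => s.1.1.1
  let cell : Unit ⊕ CntT_I d c → ℕ × ℕ := Sum.elim (fun _ => (0, 0)) fun s => s.1.1.2
  have hmul : (univ : Finset (Unit ⊕ CntT_I d c)).val.map mult =
      M ::ₘ ∑ m ∈ range (d + 1), Multiset.replicate (A m) m := by
    rw [CntT_univ_map, Fintype.sum_sum_type]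
    have h4 : ∑ s : CntT_I d c, ({mult (Sum.inr s)} : Multiset ℕ) =
        ∑ m ∈ range (d + 1), Multiset.replicate (A m) m := by
      refine (CntT_sum d c (fun m _ => ({m} : Multiset ℕ))).trans ?_
      refine sum_congr rfl fun m hm => ?_
      rw [← Finset.sum_smul, hc m hm, Multiset.nsmul_singleton]
    rw [h4]
    simp [mult]
  rw [← hmul, Multiset.map_map, GM_iff]
  -- the range of the multiplicities
  have hi : ∀ s : CntT_I d c, A s.1.1.1 ≠ 0 := by
    intro s
    have h5 := s.1.2
    rw [mem_product] at h5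
    rw [← hc _ h5.1]
    have h6 : 0 < c s.1.1.1 s.1.1.2 := lt_of_le_of_lt (Nat.zero_le _) s.2.2
    have h7 : c s.1.1.1 s.1.1.2 ≤ ∑ x ∈ KK d, c s.1.1.1 x :=
      single_le_sum (fun x _ => Nat.zero_le (c s.1.1.1 x)) h5.2
    omega
  have hcell : ∀ i, (cell i).1 + (cell i).2 ≤ d := by
    rintro (i | s)
    · exact Nat.zero_le d
    · have h5 := s.1.2
      rw [mem_product] at h5
      exact mem_KK.1 h5.2
  have hmM : ∀ i, mult i ≤ M := by
    rintro (i | s)
    · exact le_refl M
    · exact (hA _ (hi s)).2.1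
  refine limit_A _ (filter_subset _ _) mult cell hcell fun j hj => ?_
  have hlev : ((Sx (Z a b) d).filter fun α => α (Sum.inr o) + (d - e) ≤ d).filter
      (fun α => yd α = j) = Bw a b d j o e := by
    unfold Bw Bx
    ext α
    simp only [mem_filter]
    constructor
    · rintro ⟨⟨h4, h5⟩, h6⟩
      exact ⟨⟨h4, h6⟩, by omega⟩
    · rintro ⟨⟨h4, h6⟩, h5⟩
      exact ⟨⟨h4, by omega⟩, h6⟩
  rw [hlev]
  -- sizes
  have hle : ∀ i, wtw d (mult i) (Ew a b e) (cell i) j ≤
      (ASys (Bw a b d j o e)).size (Lam d (mult i) (cell i) j) := by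
    intro i
    unfold wtw
    refine le_size_W (by omega) hb hj o e _ fun g hg => ?_
    unfold Lam at hg
    rw [mem_filter] at hg
    exact ⟨hg.2.2.1, hg.2.1⟩
  have hsz : ∀ i t, cls d (mult i) (cell i) j ≤ t →
      (ASys (Bw a b d j o e)).size (Lam d (mult i) (cell i) j) ≤ ell (a + b) t := by
    intro i t ht
    refine size_le_A (by omega) _ _ t fun g hg => ?_
    have h5 : g.1 + g.2 + 1 ≤ cls d (mult i) (cell i) j :=
      le_sup (f := fun g : ℕ × ℕ => g.1 + g.2 + 1) hg
    omega
  let B : Finset (ℕ × ℕ) := (range M ×ˢ range M).filter fun g => g.1 + g.2 < M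
  have hB : (ASys (Bw a b d j o e)).size B ≤ ell (a + b) M := by
    refine size_le_A (by omega) _ _ M fun g hg => ?_
    exact (mem_filter.1 hg).2
  have hdom : ∀ i, (ASys (Bw a b d j o e)).Dom B (Lam d (mult i) (cell i) j) := by
    intro i
    refine dom_A _ fun g hg => ?_
    have h5 := hmM i
    unfold Lam at hg
    rw [mem_filter] at hg
    rw [mem_filter, mem_product, mem_range, mem_range]
    omega
  -- sums
  have hsumF : ∀ F : ℕ → ℕ × ℕ → ℕ, (∑ s : CntT_I d c, F (mult (Sum.inr s)) (cell (Sum.inr s))) =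
      ∑ m ∈ range (d + 1), ∑ x ∈ KK d, c m x * F m x := by
    intro F
    exact CntT_sum d c F
  have hsumt : ∀ t, (∑ m ∈ range (d + 1), ∑ x ∈ KK d,
      if cls d m x j = t then c m x * wtw d m (Ew a b e) x j else 0) ≤
      ∑ i ∈ univ.filter (fun i : Unit ⊕ CntT_I d c =>
          i ≠ Sum.inl () ∧ cls d (mult i) (cell i) j = t),
        (ASys (Bw a b d j o e)).size (Lam d (mult i) (cell i) j) := by
    intro t
    rw [sum_filter, Fintype.sum_sum_type]
    have h5 := hsumF fun m x => if cls d m x j = t then wtw d m (Ew a b e) x j else 0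
    have h6 : (∑ m ∈ range (d + 1), ∑ x ∈ KK d,
        if cls d m x j = t then c m x * wtw d m (Ew a b e) x j else 0) =
        ∑ m ∈ range (d + 1), ∑ x ∈ KK d,
          c m x * if cls d m x j = t then wtw d m (Ew a b e) x j else 0 := by
      refine sum_congr rfl fun m _ => sum_congr rfl fun x _ => ?_
      split_ifs
      · rfl
      · rw [mul_zero]
    rw [h6, ← h5]
    refine le_trans (sum_le_sum fun s _ => ?_) (Nat.le_add_left _ _)
    by_cases h7 : cls d (mult (Sum.inr s)) (cell (Sum.inr s)) j = t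
    · rw [if_pos h7, if_pos ⟨Sum.inr_ne_inl, h7⟩]
      exact hle (Sum.inr s)
    · rw [if_neg h7]
      exact Nat.zero_le _
  refine level (ASys (Bw a b d j o e)) (span_W (by omega) hb hj o e)
    (fun i => Lam d (mult i) (cell i) j) B hdom (Sum.inl ())
    (fun i => cls d (mult i) (cell i) j) μ hμ
    (fun t => if t ≤ 1 then 0 else ell (a + b) t * ell (a + b) M)
    (ell (a + b) (d + 1 - M) * ell (a + b) M) (if_pos (by omega)) (if_pos (by omega))
    ?_ ?_ ?_ ?_ ?_
  · intro i _ _
    show ((ASys (Bw a b d j o e)).size (Lam d (mult i) (cell i) j) - 1) *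
        (ASys (Bw a b d j o e)).size B ≤
      if cls d (mult i) (cell i) j ≤ 1 then 0
        else ell (a + b) (cls d (mult i) (cell i) j) * ell (a + b) M
    split_ifs with h5
    · have h6 := hsz i 1 h5
      rw [ell_one] at h6
      have h7 : (ASys (Bw a b d j o e)).size (Lam d (mult i) (cell i) j) - 1 = 0 := by omega
      rw [h7, zero_mul]
    · exact Nat.mul_le_mul ((Nat.sub_le _ _).trans (hsz i _ le_rfl)) hB
  · rintro (i | s) hne _
    · exact absurd rfl hne
    · have h5 := (hA _ (hi s)).2.2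
      have h6 : cls d (mult (Sum.inr s)) (cell (Sum.inr s)) j ≤ d + 1 - M := by
        refine (cls_le _).trans ?_
        show s.1.1.1 ≤ d + 1 - M
        omega
      exact Nat.mul_le_mul ((Nat.sub_le _ _).trans (hsz _ _ h6)) hB
  · intro t ht1 htμ
    show (if t + 1 ≤ 1 then 0 else ell (a + b) (t + 1) * ell (a + b) M) ≤ _
    rw [if_neg (by omega)]
    exact (h2 j hj t ht1 htμ).trans (hsumt t)
  · exact (h3 j hj).trans (hsumt μ)
  · rw [Fintype.card_coe, card_Bw (by omega) hj, Fintype.sum_sum_type]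
    refine (h1 j hj).trans (Nat.add_le_add ?_ ?_)
    · refine le_trans (hle (Sum.inl ())) ?_
      rw [Fintype.sum_unique]
    · rw [← hsumF fun m x => wtw d m (Ew a b e) x j]
      exact sum_le_sum fun s _ => hle (Sum.inr s)

end Pool.Agent.H21.TC

end
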