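import Pool.Agent.H94.LP2.M23
import Pool.Agent.H94.LP2.M40
import Pool.Agent.H94.LP2.M41

/-! The parts of this file: H21.TC.Num, H21.TC.Core, H21.TC.All, H21.TC.Fin. -/

section

/-!
# TC8: the numerical theorem, for general weights

As `Pool/Agent/H51/TB/Num.lean` (complete; copy it), with `startw`, `W_ge`, `adjustw`, `massw`, `Mvw_ge`,
`sum_wtw` instead of `start`, `Eg_ge`, `adjust`, `mass`, `Mv_ge`, `sum_wt`; the dimension of the level `j` is
`B a b j`, the total is `∑ B` (no `sum_bet` needed).  The hypothesis `hpos` of `adjustw` is `W_ge` with `d`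
(`ell (n - 1) (|g| + 1) ≥ 1`, `κ₀ > 0`).
-/

namespace Pool.Agent.H21.TC

open Finset Pool.Agent.H18.Ex Pool.Agent.H21.NX Pool.Agent.H18.Ta Pool.Agent.H51.TB

/-- Prefix sums determine the terms, and the last one is bounded below. -/
private theorem NumT_prefix {d : ℕ} {f g : ℕ → ℕ}
    (h : ∀ j < d, ∑ i ∈ range (j + 1), f i = ∑ i ∈ range (j + 1), g i)
    (h' : ∑ i ∈ range (d + 1), g i ≤ ∑ i ∈ range (d + 1), f i) : ∀ j ≤ d, g j ≤ f j := by
  intro j hj
  have h1 : ∑ i ∈ range j, f i = ∑ i ∈ range j, g i := by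
    rcases Nat.eq_zero_or_pos j with h0 | h0
    · rw [h0, range_zero, sum_empty, sum_empty]
    · obtain ⟨k, rfl⟩ : ∃ k, j = k + 1 := ⟨j - 1, by omega⟩
      exact h k (by omega)
  have h2 : ∑ i ∈ range (j + 1), g i ≤ ∑ i ∈ range (j + 1), f i := by
    rcases Nat.lt_or_ge j d with h0 | h0
    · exact (h j h0).ge
    · have h3 : j = d := by omega
      rw [h3]
      exact h'
  rw [sum_range_succ, sum_range_succ, h1] at h2
  omega

/-- The prefix sums of the masses. -/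
private theorem NumT_Pre {d m₀ : ℕ} (w : ℕ × ℕ → ℕ) (c : ℕ → ℕ × ℕ → ℕ) (j : ℕ) :
    ∑ i ∈ range (j + 1), (wtw d m₀ w (0, 0) i +
      ∑ m ∈ range (d + 1), ∑ x ∈ KK d, c m x * wtw d m w x i) =
    Prw d m₀ w (0, 0) j + ∑ m ∈ range (d + 1), ∑ x ∈ KK d, c m x * Prw d m w x j := by
  rw [sum_add_distrib, sum_comm]
  unfold Prw
  congr 1
  refine sum_congr rfl fun m _ => ?_
  rw [sum_comm]
  refine sum_congr rfl fun x _ => ?_
  rw [mul_sum]

/-- The total mass. -/
private theorem NumT_total {d m₀ : ℕ} (hm₀ : m₀ ≤ d + 1) (w : ℕ × ℕ → ℕ)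
    (c : ℕ → ℕ × ℕ → ℕ) (A : ℕ → ℕ) (hA : ∀ m ∈ range (d + 1), ∑ x ∈ KK d, c m x = A m) :
    ∑ i ∈ range (d + 1), (wtw d m₀ w (0, 0) i +
      ∑ m ∈ range (d + 1), ∑ x ∈ KK d, c m x * wtw d m w x i) =
    lamw m₀ w + ∑ m ∈ range (d + 1), A m * lamw m w := by
  rw [NumT_Pre]
  unfold Prw
  rw [sum_wtw hm₀ (by simp)]
  congr 1
  refine sum_congr rfl fun m hm => ?_
  rw [← hA m hm, sum_mul]
  refine sum_congr rfl fun x hx => ?_
  rw [sum_wtw (by rw [mem_range] at hm; omega) (mem_KK.1 hx)]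

theorem numw (d : ℕ) (η : ℝ) (hη : 0 < η) (W : ℕ → ℕ → ℕ × ℕ → ℕ)
    (hwt : ∀ a b, 2 ≤ a → 2 ≤ b → IsWt a b (W a b)) (hW : AsyW W)
    (B : ℕ → ℕ → ℕ → ℕ) (hB : AsyB d B) : ∃ n₀ : ℕ, ∀ n : ℕ, n₀ ≤ n →
    ∃ a b : ℕ, 2 ≤ a ∧ 2 ≤ b ∧ a + b = n ∧ ∀ (M μ m₀ : ℕ) (A : ℕ → ℕ),
    1 ≤ μ → μ ≤ M → μ + M ≤ d → m₀ ≤ d →
    (∀ m, A m ≠ 0 → 1 ≤ m ∧ m ≤ M ∧ m + M ≤ d + 1) →
    ∑ i ∈ range (d + 1), B a b i ≤
      lamw m₀ (W a b) + ∑ m ∈ range (d + 1), A m * lamw m (W a b) →
    lamw m₀ (W a b) + ∑ m ∈ range (d + 1), A m * lamw m (W a b) ≤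
      ∑ i ∈ range (d + 1), B a b i + ell (a + b - 1) d →
    η * (ell (a + b - 1) (d + 1) : ℝ) ≤ ((A μ * ell (a + b - 1) μ : ℕ) : ℝ) →
    ∃ c : ℕ → ℕ × ℕ → ℕ, (∀ m ∈ range (d + 1), ∑ x ∈ KK d, c m x = A m) ∧
      (∀ j ≤ d, B a b j ≤ wtw d m₀ (W a b) (0, 0) j +
        ∑ m ∈ range (d + 1), ∑ x ∈ KK d, c m x * wtw d m (W a b) x j) ∧
      (∀ j ≤ d, ∀ t, 1 ≤ t → t < μ → ell (a + b) (t + 1) * ell (a + b) M ≤
        ∑ m ∈ range (d + 1), ∑ x ∈ KK d,
          if cls d m x j = t then c m x * wtw d m (W a b) x j else 0) ∧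
      (∀ j ≤ d, ell (a + b) (d + 1 - M) * ell (a + b) M ≤
        ∑ m ∈ range (d + 1), ∑ x ∈ KK d,
          if cls d m x j = μ then c m x * wtw d m (W a b) x j else 0) := by
  obtain ⟨e, he, hstart⟩ := startw d W (fun a b ha hb => (hwt a b ha hb).le) hW B hB
  obtain ⟨κ₀, hκ₀, ε₁, hε₁, n₁, hEg⟩ := W_ge d W hW
  -- the constants of `adjustw`
  have hadj : ∀ μ : ℕ, ∃ K : ℕ, 1 ≤ K ∧ (1 ≤ μ → 2 * μ ≤ d → ∀ a b : ℕ, 2 ≤ a → 2 ≤ b →
      ∀ w : ℕ × ℕ → ℕ, IsWt a b w → (∀ g : ℕ × ℕ, g.1 + g.2 + 1 = μ → 1 ≤ w g) →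
      (∀ t, 1 ≤ t → t < μ → Nat.Coprime (Nat.multichoose (a - 1) t) (a + b - 2)) →
      ∀ (c₀ : ℕ × ℕ → ℕ) (E : ℕ) (P : ℕ → ℤ), (∀ x ∈ KK d, x.2 ≤ μ → E ≤ c₀ x) →
      K * ((a + b) * ell (a + b) μ) ≤ E →
      (∀ s < d, (K : ℤ) * |P s| ≤ (E : ℤ) * (Mvw d μ w s 0 : ℤ)) →
      ∃ c₁ : ℕ × ℕ → ℕ, ∑ x ∈ KK d, c₁ x = ∑ x ∈ KK d, c₀ x ∧
        (∀ x ∈ KK d, x.2 ≤ μ → E ≤ 2 * c₁ x) ∧
        ∀ j < d, ∑ x ∈ KK d, (c₁ x : ℤ) * (Prw d μ w x j : ℤ) =
          ∑ x ∈ KK d, (c₀ x : ℤ) * (Prw d μ w x j : ℤ) - P j) := by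
    intro μ
    by_cases h : 1 ≤ μ ∧ 2 * μ ≤ d
    · obtain ⟨K, hK1, hK2⟩ := adjustw d μ h.1 h.2
      exact ⟨K, hK1, fun _ _ => hK2⟩
    · exact ⟨1, le_rfl, fun h1 h2 => absurd ⟨h1, h2⟩ h⟩
  choose Kf hKf1 hKf2 using hadj
  set K : ℕ := 1 + ∑ μ ∈ range (d + 1), Kf μ with hK
  have hKf3 : ∀ μ ≤ d, Kf μ ≤ K := by
    intro μ hμ
    have : Kf μ ≤ ∑ μ ∈ range (d + 1), Kf μ :=
      single_le_sum (fun _ _ => Nat.zero_le _) (mem_range.2 (by omega))
    omega
  have hK0 : (0 : ℝ) < K := by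
    have : 0 < K := by omega
    exact_mod_cast this
  have heη : 0 < e * η := by positivity
  set δ : ℝ := e * η * κ₀ / (2 * K) with hδ
  have hδ0 : 0 < δ := by positivity
  obtain ⟨ε₂, hε₂, n₂, hst⟩ := hstart δ hδ0
  obtain ⟨ε₃, hε₃, n₃, hmass⟩ := massw d (e * η / 4) (by positivity) W hW
  obtain ⟨n₄, hcop⟩ := exists_coprime d (min ε₁ (min ε₂ ε₃)) (lt_min hε₁ (lt_min hε₂ hε₃))
  obtain ⟨n₅, hsq⟩ := grow_sq d (2 * K / (e * η))
  obtain ⟨n₆, hone⟩ := grow_one d (2 / (e * η))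
  refine ⟨max (max (max n₁ n₂) (max n₃ n₄)) (max (max n₅ n₆) 2), fun n hn => ?_⟩
  have hn1 : n₁ ≤ n := le_trans ((le_max_left _ _).trans ((le_max_left _ _).trans (le_max_left _ _))) hn
  have hn2 : n₂ ≤ n := le_trans ((le_max_right _ _).trans ((le_max_left _ _).trans (le_max_left _ _))) hn
  have hn3 : n₃ ≤ n := le_trans ((le_max_left _ _).trans ((le_max_right _ _).trans (le_max_left _ _))) hn
  have hn4 : n₄ ≤ n := le_trans ((le_max_right _ _).trans ((le_max_right _ _).trans (le_max_left _ _))) hn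
  have hn5 : n₅ ≤ n := le_trans ((le_max_left _ _).trans ((le_max_left _ _).trans (le_max_right _ _))) hn
  have hn6 : n₆ ≤ n := le_trans ((le_max_right _ _).trans ((le_max_left _ _).trans (le_max_right _ _))) hn
  obtain ⟨a, ha2, hab, habs, hco⟩ := hcop n hn4
  obtain ⟨b, rfl⟩ : ∃ b, n = a + b := ⟨n - a, by omega⟩
  have hb2 : 2 ≤ b := by omega
  have habs' : ∀ ε : ℝ, min ε₁ (min ε₂ ε₃) ≤ ε → |(a : ℝ) - b| ≤ ε * ((a + b : ℕ) : ℝ) := by
    intro ε hε
    have h1 : (a : ℝ) - b = 2 * (a : ℝ) - ((a + b : ℕ) : ℝ) := by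
      push_cast
      ring
    rw [h1]
    exact habs.trans (mul_le_mul_of_nonneg_right hε (Nat.cast_nonneg _))
  have hab1 := habs' ε₁ (min_le_left _ _)
  have hab2 := habs' ε₂ ((min_le_right _ _).trans (min_le_left _ _))
  have hab3 := habs' ε₃ ((min_le_right _ _).trans (min_le_right _ _))
  refine ⟨a, b, ha2, hb2, rfl, ?_⟩
  intro M μ m₀ A hμ hμM hμd hm₀ hA hL1 hL2 hη'
  have hμd' : 2 * μ ≤ d := by omega
  have hμle : μ ≤ d := by omega
  set N : ℝ := (ell (a + b - 1) (d + 1) : ℝ) with hN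
  set l : ℝ := (ell (a + b - 1) μ : ℝ) with hl
  have hl0 : 0 < l := by
    have := ell_pos (a + b - 1) hμ
    rw [hl]
    exact_mod_cast this
  have hN0 : 0 ≤ N := Nat.cast_nonneg _
  set E : ℕ := ⌊e * A μ⌋₊ with hE
  have hE1 : (E : ℝ) ≤ e * A μ := Nat.floor_le (by positivity)
  have hE2 : e * A μ < E + 1 := Nat.lt_floor_add_one _
  have hAμ : η * N ≤ A μ * l := by
    have := hη'
    push_cast at this
    exact this
  -- `E l ≥ (e η / 2) N`
  have hlN : l ≤ e * η / 2 * N := by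
    have h1 := hone (a + b) hn6 μ hμle
    have h2 : l ≤ (ell (a + b) μ : ℝ) := by
      have h3 : ell (a + b - 1) μ ≤ ell (a + b) μ := by
        obtain ⟨k, hk⟩ : ∃ k, a + b = k + 1 := ⟨a + b - 1, by omega⟩
        obtain ⟨c', hc'⟩ : ∃ c', μ = c' + 1 := ⟨μ - 1, by omega⟩
        rw [hk, Nat.add_sub_cancel, hc', ell_succ]
        omega
      show ((ell (a + b - 1) μ : ℕ) : ℝ) ≤ _
      exact Nat.cast_le.2 h3
    have h4 : 2 / (e * η) * l ≤ N := (mul_le_mul_of_nonneg_left h2 (by positivity)).trans h1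
    have h5 : l = e * η / 2 * (2 / (e * η) * l) := by
      field_simp
    rw [h5]
    exact mul_le_mul_of_nonneg_left h4 (by positivity)
  have hEl : e * η / 2 * N ≤ E * l := by
    have h1 : (e * A μ) * l ≤ (E + 1) * l := mul_le_mul_of_nonneg_right hE2.le hl0.le
    have h2 : e * (η * N) ≤ e * (A μ * l) := mul_le_mul_of_nonneg_left hAμ he.le
    nlinarith only [hlN, h1, h2]
  -- the initial distribution
  obtain ⟨c₀, hc₀1, hc₀2, hc₀3⟩ := hst a b ha2 hb2 hn2 hab2 M μ m₀ A hμ hμM hμd hm₀ hA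
    hL1 hL2 E hE1
  set P : ℕ → ℤ := fun j => ((Prw d m₀ (W a b) (0, 0) j +
    ∑ m ∈ range (d + 1), ∑ x ∈ KK d, c₀ m x * Prw d m (W a b) x j : ℕ) : ℤ) -
    ((∑ i ∈ range (j + 1), B a b i : ℕ) : ℤ) with hP
  have hPabs : ∀ j ≤ d, ((|P j| : ℤ) : ℝ) ≤ δ * N := by
    intro j hj
    have h1 := hc₀3 j hj
    rw [Int.cast_abs]
    have h2 : ((P j : ℤ) : ℝ) = ((Prw d m₀ (W a b) (0, 0) j +
        ∑ m ∈ range (d + 1), ∑ x ∈ KK d, c₀ m x * Prw d m (W a b) x j : ℕ) : ℝ) -
        ((∑ i ∈ range (j + 1), B a b i : ℕ) : ℝ) := by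
      rw [hP]
      simp only [Int.cast_sub, Int.cast_natCast]
    rw [h2]
    exact h1
  -- the adjustment
  have hKμ : ((Kf μ : ℕ) : ℝ) ≤ K := by exact_mod_cast hKf3 μ hμle
  have hbig : Kf μ * ((a + b) * ell (a + b) μ) ≤ E := by
    have h1 := hsq (a + b) hn5 μ hμ hμd'
    have h2 : (K : ℝ) * (((a + b : ℕ) : ℝ) * ell (a + b) μ) * l ≤ E * l := by
      have h3 : (K : ℝ) * (((a + b : ℕ) : ℝ) * ell (a + b) μ) * l =
          e * η / 2 * (2 * K / (e * η) * (((a + b : ℕ) : ℝ) * ell (a + b) μ * ell (a + b - 1) μ)) := by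
        rw [hl]
        field_simp
      rw [h3]
      exact (mul_le_mul_of_nonneg_left h1 (by positivity)).trans hEl
    have h4 : (K : ℝ) * (((a + b : ℕ) : ℝ) * ell (a + b) μ) ≤ E := le_of_mul_le_mul_right h2 hl0
    have h5 : ((Kf μ * ((a + b) * ell (a + b) μ) : ℕ) : ℝ) ≤ E := by
      push_cast
      push_cast at h4
      exact (mul_le_mul_of_nonneg_right hKμ (by positivity)).trans h4
    exact_mod_cast h5
  have hPM : ∀ s < d, (Kf μ : ℤ) * |P s| ≤ (E : ℤ) * (Mvw d μ (W a b) s 0 : ℤ) := by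
    intro s hs
    obtain ⟨g, hg1, hg2⟩ := Mvw_ge (W a b) hμ hμle hs
    have h1 := hEg a b ha2 hb2 hn1 hab1 g (by omega)
    rw [hg1] at h1
    have h2 : κ₀ * l ≤ (Mvw d μ (W a b) s 0 : ℝ) := by
      have : (W a b g : ℝ) ≤ (Mvw d μ (W a b) s 0 : ℝ) := by exact_mod_cast hg2
      linarith only [h1, this]
    have h3 : (Kf μ : ℝ) * ((|P s| : ℤ) : ℝ) ≤ K * (δ * N) := by
      have h31 := hPabs s hs.le
      have h32 : (0 : ℝ) ≤ ((|P s| : ℤ) : ℝ) := by
        exact_mod_cast abs_nonneg (P s)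
      exact mul_le_mul hKμ h31 h32 hK0.le
    have h4 : (K : ℝ) * (δ * N) = κ₀ * (e * η / 2 * N) := by
      rw [hδ]
      field_simp
    have h5 : κ₀ * (e * η / 2 * N) ≤ κ₀ * (E * l) := mul_le_mul_of_nonneg_left hEl hκ₀.le
    have h6 : κ₀ * (E * l) ≤ E * (Mvw d μ (W a b) s 0 : ℝ) := by
      have : κ₀ * (E * l) = E * (κ₀ * l) := by ring
      rw [this]
      exact mul_le_mul_of_nonneg_left h2 (Nat.cast_nonneg _)
    have h7 : (Kf μ : ℝ) * ((|P s| : ℤ) : ℝ) ≤ E * (Mvw d μ (W a b) s 0 : ℝ) := by linarith only [h3, h4, h5, h6]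
    exact_mod_cast h7
  have hpos : ∀ g : ℕ × ℕ, g.1 + g.2 + 1 = μ → 1 ≤ W a b g := by
    intro g hg
    have h1 := hEg a b ha2 hb2 hn1 hab1 g (by omega)
    rw [hg] at h1
    have h2 : (0 : ℝ) < (W a b g : ℝ) := lt_of_lt_of_le (mul_pos hκ₀ hl0) h1
    exact_mod_cast h2
  obtain ⟨c₁, hc₁1, hc₁2, hc₁3⟩ := hKf2 μ hμ hμd' a b ha2 hb2 (W a b) (hwt a b ha2 hb2) hpos
    (fun t ht1 ht2 => hco t ht1 (by omega)) (c₀ μ) E P hc₀2 hbig hPM
  have hμr : μ ∈ range (d + 1) := mem_range.2 (by omega)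
  set c : ℕ → ℕ × ℕ → ℕ := Function.update c₀ μ c₁ with hc
  have hcμ : c μ = c₁ := Function.update_self _ _ _
  have hcm : ∀ m, m ≠ μ → c m = c₀ m := fun m hm => Function.update_of_ne hm _ _
  have hcA : ∀ m ∈ range (d + 1), ∑ x ∈ KK d, c m x = A m := by
    intro m hm
    by_cases h : m = μ
    · rw [h, hcμ, hc₁1]
      exact hc₀1 μ hμr
    · rw [hcm m h]
      exact hc₀1 m hm
  refine ⟨c, hcA, ?_, ?_, ?_⟩
  · -- the masses
    refine NumT_prefix (fun j hj => ?_) ?_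
    · rw [NumT_Pre]
      have h1 := hc₁3 j hj
      have h2 : ((∑ m ∈ range (d + 1), ∑ x ∈ KK d, c m x * Prw d m (W a b) x j : ℕ) : ℤ) =
          ((∑ m ∈ range (d + 1), ∑ x ∈ KK d, c₀ m x * Prw d m (W a b) x j : ℕ) : ℤ) - P j := by
        rw [← add_sum_erase _ _ hμr, ← add_sum_erase (range (d + 1))
          (fun m => ∑ x ∈ KK d, c₀ m x * Prw d m (W a b) x j) hμr]
        have h3 : ∑ m ∈ (range (d + 1)).erase μ, ∑ x ∈ KK d, c m x * Prw d m (W a b) x j =
            ∑ m ∈ (range (d + 1)).erase μ, ∑ x ∈ KK d, c₀ m x * Prw d m (W a b) x j := by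
          refine sum_congr rfl fun m hm => ?_
          rw [hcm m (ne_of_mem_erase hm)]
        rw [h3, hcμ]
        push_cast
        rw [h1]
        ring
      have h4 : P j = ((Prw d m₀ (W a b) (0, 0) j +
        ∑ m ∈ range (d + 1), ∑ x ∈ KK d, c₀ m x * Prw d m (W a b) x j : ℕ) : ℤ) -
        ((∑ i ∈ range (j + 1), B a b i : ℕ) : ℤ) := rfl
      rw [h4] at h2
      have h5 : ((Prw d m₀ (W a b) (0, 0) j +
          ∑ m ∈ range (d + 1), ∑ x ∈ KK d, c m x * Prw d m (W a b) x j : ℕ) : ℤ) =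
          ((∑ i ∈ range (j + 1), B a b i : ℕ) : ℤ) := by
        rw [Nat.cast_add, h2, Nat.cast_add]
        ring
      exact_mod_cast h5
    · rw [NumT_total (by omega) (W a b) c A hcA]
      exact hL1
  · -- the small classes
    intro j hj t ht1 ht2
    have hm := hmass a b ha2 hb2 hn3 hab3 M μ hμ hμM hμd c₁ (fun x hx hx2 => by
      have h1 := hc₁2 x hx hx2
      have h2 : (E : ℝ) ≤ 2 * c₁ x := by exact_mod_cast h1
      have h3 : (E : ℝ) * l ≤ 2 * c₁ x * l := mul_le_mul_of_nonneg_right h2 hl0.le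
      show e * η / 4 * N ≤ (c₁ x : ℝ) * l
      linarith only [hEl, h3])
    refine (hm.1 j hj t ht1 ht2).trans ?_
    have h1 := single_le_sum (f := fun m => ∑ x ∈ KK d,
      if cls d m x j = t then c m x * wtw d m (W a b) x j else 0) (fun _ _ => Nat.zero_le _) hμr
    simp only [hcμ] at h1
    exact h1
  · intro j hj
    have hm := hmass a b ha2 hb2 hn3 hab3 M μ hμ hμM hμd c₁ (fun x hx hx2 => by
      have h1 := hc₁2 x hx hx2
      have h2 : (E : ℝ) ≤ 2 * c₁ x := by exact_mod_cast h1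
      have h3 : (E : ℝ) * l ≤ 2 * c₁ x * l := mul_le_mul_of_nonneg_right h2 hl0.le
      show e * η / 4 * N ≤ (c₁ x : ℝ) * l
      linarith only [hEl, h3])
    refine (hm.2 j hj).trans ?_
    have h1 := single_le_sum (f := fun m => ∑ x ∈ KK d,
      if cls d m x j = μ then c m x * wtw d m (W a b) x j else 0) (fun _ _ => Nat.zero_le _) hμr
    simp only [hcμ] at h1
    exact h1

end Pool.Agent.H21.TC

end

section

/-!
# TC15: the core theorem, `e ≥ 1`

As `core` in `Pool/Agent/H51/TB/Core.lean` (complete; copy it, with its private lemmas; see also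
`UCore.lean`).  For every `e` with `1 ≤ e ≤ d` apply `numw` to `W a b = Ew a b e`, `B a b = Bt a b d e`
(`isWt_Ew`, `asy_Ew`, `asy_Bt`) and take the maximum of the finitely many `n₀`.  `lamw_Ew`:
`lamw m (Ew a b e) = lam (a + b - 1) e m`; `sum_Bt`: `∑ B = ell r (d + 1) - ell r (d - e)`.  `choose_part` is used
with `w = lam r e`, `B = ell r d` (`lam r e m ≤ ell r m ≤ ell r d`), `e₀ = lam r e M`,
`N = ell r (d + 1) - ell r (d - e)`; `2 * lam r e M ≤ N` since `4 * ell r d ≤ ell r (d + 1)` for large `r`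
(`grow_one`), `1 ≤ M ≤ d - 1`.  In its last alternative `N ≤ 2 * (T.count μ * lam r e μ)`, so
`ell r (d + 1) / 2 ≤ N ≤ 2 * (T.count μ * ell r μ)`.  (`m₀` of `numw` is `M`.)
-/

namespace Pool.Agent.H21.TC

open Finset Pool.Agent.H18.Ex Pool.Agent.H21.NX Pool.Agent.H18.Ta Pool.Agent.H51.TB

private theorem CoreT_ell_up (r c : ℕ) (hr : 1 ≤ r) : ell (r - 1) (c + 1) ≤ ell r (c + 1) := by
  obtain ⟨k, rfl⟩ : ∃ k, r = k + 1 := ⟨r - 1, by omega⟩
  rw [Nat.add_sub_cancel, ell_succ k c]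
  exact Nat.le_add_left _ _

private theorem CoreT_sum_replicate (d : ℕ) (T : Multiset ℕ) (hT : ∀ m ∈ T, m ≤ d) :
    ∑ m ∈ range (d + 1), Multiset.replicate (T.count m) m = T := by
  ext x
  rw [Multiset.count_sum']
  simp only [Multiset.count_replicate]
  by_cases hx : x ∈ T
  · have h1 : x ∈ range (d + 1) := mem_range.2 (Nat.lt_succ_of_le (hT x hx))
    rw [Finset.sum_ite_eq' (range (d + 1)) x (fun m => T.count m), if_pos h1]
  · rw [Multiset.count_eq_zero_of_notMem hx]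
    apply Finset.sum_eq_zero
    intro m _
    split_ifs with h
    · rw [h]
      exact Multiset.count_eq_zero_of_notMem hx
    · rfl

private theorem CoreT_sum_tot (w : ℕ → ℕ) (d : ℕ) (T : Multiset ℕ) (hT : ∀ m ∈ T, m ≤ d) :
    ∑ m ∈ range (d + 1), T.count m * w m = (T.map w).sum := by
  rw [Finset.sum_multiset_map_count]
  symm
  have h1 : T.toFinset ⊆ range (d + 1) := by
    intro x hx
    exact mem_range.2 (Nat.lt_succ_of_le (hT x (Multiset.mem_toFinset.1 hx)))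
  refine (Finset.sum_subset h1 ?_).trans ?_
  · intro x _ hx
    rw [Multiset.mem_toFinset] at hx
    rw [Multiset.count_eq_zero_of_notMem hx, zero_smul]
  · exact Finset.sum_congr rfl fun m _ => smul_eq_mul _ _

theorem core_W (d : ℕ) (η : ℝ) (hη : 0 < η) : ∃ r₀ : ℕ, ∀ r : ℕ, r₀ ≤ r → ∀ (e M μ : ℕ)
    (S : Multiset ℕ), 1 ≤ e → e ≤ d → 1 ≤ μ → μ ≤ M → μ + M ≤ d →
    (∀ m ∈ S, 1 ≤ m ∧ m ≤ M ∧ m + M ≤ d + 1) →
    ell r (d + 1) ≤ ell r (d - e) + lam r e M + (S.map (lam r e)).sum →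
    η * (ell r (d + 1) : ℝ) ≤ ((S.count μ * ell r μ : ℕ) : ℝ) →
    GM (Sx (Fin (r + 1)) d) (((d - e) ::ₘ M ::ₘ S).map Kind.free) := by
  have hnumw := fun e => numw d (min η (1 / 4)) (lt_min hη (by norm_num)) (fun a b => Ew a b (e + 1))
    (fun a b ha hb => isWt_Ew ha hb (Nat.le_add_left 1 e)) (asy_Ew (e + 1))
    (fun a b => Bt a b d (e + 1)) (asy_Bt d (e + 1))
  choose f hf using hnumw
  obtain ⟨n₂, h₂⟩ := grow_one d 4
  refine ⟨max ((range (d + 1)).sup f) (max n₂ 1),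
    fun r hr e M μ S he1 hed hμ hμM hM hS hN hη' => ?_⟩
  obtain ⟨e', rfl⟩ : ∃ e', e = e' + 1 := ⟨e - 1, by omega⟩
  have hr1 : f e' ≤ r + 1 := by
    have h1 : f e' ≤ (range (d + 1)).sup f := Finset.le_sup (mem_range.2 (by omega))
    exact (h1.trans ((le_max_left _ _).trans hr)).trans (Nat.le_succ r)
  have hr2 : n₂ ≤ r := ((le_max_left _ _).trans (le_max_right _ _)).trans hr
  have hr3 : 1 ≤ r := ((le_max_right _ _).trans (le_max_right _ _)).trans hr
  have hsmall : ∀ m, m ≤ d → 4 * ell r m ≤ ell r (d + 1) := by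
    intro m hm
    have h3 := h₂ r hr2 m hm
    have h4 : 4 * ell r m ≤ ell (r - 1) (d + 1) := by exact_mod_cast h3
    exact h4.trans (CoreT_ell_up r d hr3)
  have hlam : ∀ m, lam r (e' + 1) m ≤ ell r m := fun m => Nat.sub_le _ _
  obtain ⟨N, hNdef⟩ : ∃ N, N = ell r (d + 1) - ell r (d - (e' + 1)) := ⟨_, rfl⟩
  have hde := hsmall (d - (e' + 1)) (Nat.sub_le _ _)
  have hMs := hsmall M (by omega)
  have hlM := hlam M
  have he : 2 * lam r (e' + 1) M ≤ N := by omega
  obtain ⟨T, hTS, hT1, hT2, hT3⟩ := choose_part (lam r (e' + 1)) (ell r d) N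
    (lam r (e' + 1) M) μ S
    (fun m hm => (hlam m).trans (ell_mono r (by have := hS m hm; omega))) he (by omega)
  have hTm : ∀ m ∈ T, 1 ≤ m ∧ m ≤ M ∧ m + M ≤ d + 1 := fun m hm => hS m (Multiset.mem_of_le hTS hm)
  have hTd : ∀ m ∈ T, m ≤ d := fun m hm => by have := hTm m hm; omega
  have hsum := CoreT_sum_tot (lam r (e' + 1)) d T hTd
  obtain ⟨a, b, ha, hb, hab, hnum⟩ := hf e' (r + 1) hr1
  have habr : a + b - 1 = r := by omega
  have hA : ∀ m, T.count m ≠ 0 → 1 ≤ m ∧ m ≤ M ∧ m + M ≤ d + 1 := fun m hm =>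
    hTm m (Multiset.count_ne_zero.1 hm)
  have hlw : ∀ m, lamw m (Ew a b (e' + 1)) = lam r (e' + 1) m := fun m => by
    rw [lamw_Ew ha hb, habr]
  have hB : ∑ i ∈ range (d + 1), Bt a b d (e' + 1) i = N := by
    have h5 := sum_Bt (a := a) (b := b) (d := d) (e := e' + 1) (by omega) (by omega) hed
    rw [habr] at h5
    omega
  have hsum' : ∑ m ∈ range (d + 1), T.count m * lamw m (Ew a b (e' + 1)) =
      (T.map (lam r (e' + 1))).sum := by
    rw [← hsum]
    exact Finset.sum_congr rfl fun m _ => by rw [hlw]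
  have hdom : min η (1 / 4) * (ell r (d + 1) : ℝ) ≤ ((T.count μ * ell r μ : ℕ) : ℝ) := by
    have h0 : (0 : ℝ) ≤ (ell r (d + 1) : ℝ) := Nat.cast_nonneg _
    rcases hT3 with h | h
    · rw [h]
      exact (mul_le_mul_of_nonneg_right (min_le_left _ _) h0).trans hη'
    · have h5 : ell r (d + 1) ≤ 4 * (T.count μ * ell r μ) := by
        have h7 : T.count μ * lam r (e' + 1) μ ≤ T.count μ * ell r μ :=
          Nat.mul_le_mul_left _ (hlam μ)
        omega
      have h5' : (ell r (d + 1) : ℝ) ≤ 4 * ((T.count μ * ell r μ : ℕ) : ℝ) := by exact_mod_cast h5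
      have h6 := mul_le_mul_of_nonneg_right (min_le_right η (1 / 4)) h0
      linarith
  obtain ⟨c, hc, k1, k2, k3⟩ := hnum M μ M (fun m => T.count m) hμ hμM hM (by omega) hA
    (by rw [hlw, hsum', hB]; exact hT1)
    (by rw [hlw, hsum', hB, habr]; exact hT2) (by rw [habr]; exact hdom)
  have hGM := GM_of_counts_W ha hb hμ hμM hM hed (fun m => T.count m) hA c hc k1 k2 k3
  rw [CoreT_sum_replicate d T hTd] at hGM
  have hGM2 := GM_equiv (finSumFinEquiv.trans (finCongr hab)) d ((d - (e' + 1)) ::ₘ M ::ₘ T) hGM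
  exact GM.mono (Multiset.map_le_map ((Multiset.cons_le_cons_iff _).2
    ((Multiset.cons_le_cons_iff M).2 hTS))) hGM2

end Pool.Agent.H21.TC

end

section

/-!
# TC16: the core theorem, `e = 0` (cones)

`GM_face`: a form with exponents `α`, `α_last = 0` is a form in the first `r` variables
(`α ∘ Fin.castSucc`); take the positions of `h` extended by `0` (or anything) in the last variable; only the
conditions `β` with `β_last = 0` are needed (`tcr` is a product, `Fin.prod_univ_castSucc`, the last factor is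
`1`).  `GM` is an existence statement over index types: see `GM_iff`, `GM_equiv` in
`Pool/Agent/H51/TB/Ridx.lean` for how to deal with it.

`core_cone`: the point of multiplicity `d` is put at the coordinate point of the last variable (`GM_cons`,
`Pool/Agent/H51/TB/UPt.lean`), then `GM_face` and `core` (`Pool/Agent/H51/TB/Core.lean`) for `r - 1` with
`m₀ := M`, `η := η / 2`.  `lam r 0 m = ell r m - ell r (m - 1) = ell (r - 1) m` for `m ≥ 1`, `r ≥ 2` (`ell_succ`), and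
`ell r (d + 1) - ell r d = ell (r - 1) (d + 1)`.  The mass: `ell r μ * r = ell (r - 1) μ * (μ + r - 1)`, so
`ell (r - 1) μ ≥ ell r μ / 2` for `r ≥ d`, and `ell (r - 1) (d + 1) ≤ ell r (d + 1)`.
-/

namespace Pool.Agent.H21.TC

open Finset Pool.Agent.H18.Ex Pool.Agent.H21.NX Pool.Agent.H18.Ta Pool.Agent.H51.TB

private theorem AllT_sum {r : ℕ} (a : Fin r → ℕ) :
    ∑ i, (Fin.snoc a 0 : Fin (r + 1) → ℕ) i = ∑ i, a i := by
  rw [Fin.sum_univ_castSucc]
  simp only [Fin.snoc_castSucc, Fin.snoc_last, add_zero]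

private theorem AllT_tcr {r : ℕ} (q : Fin r → ℂ) (a b : Fin r → ℕ) :
    tcr (Fin.snoc q 0 : Fin (r + 1) → ℂ) (Fin.snoc a 0 : Fin (r + 1) → ℕ)
      (Fin.snoc b 0 : Fin (r + 1) → ℕ) = tcr q a b := by
  unfold tcr
  rw [Fin.prod_univ_castSucc]
  simp only [Fin.snoc_castSucc, Fin.snoc_last, Nat.choose_self, Nat.cast_one, Nat.sub_self,
    pow_zero, mul_one]

theorem GM_face {r d : ℕ} (S : Multiset ℕ) (h : GM (Sx (Fin r) d) (S.map Kind.free)) :
    GM ((Sx (Fin (r + 1)) d).filter fun α => α (Fin.last r) + d ≤ d) (S.map Kind.free) := by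
  obtain ⟨m, t, rfl⟩ := multi_exists_fin S
  rw [Multiset.map_map, GM_iff] at h ⊢
  obtain ⟨pos, hpos⟩ := h
  refine ⟨fun i => (Fin.snoc (pos i) 0 : Fin (r + 1) → ℂ), fun f hf α hα => ?_⟩
  have hmem : ∀ a : Fin r → ℕ, (Fin.snoc a 0 : Fin (r + 1) → ℕ) ∈
      (Sx (Fin (r + 1)) d).filter (fun α => α (Fin.last r) + d ≤ d) ↔ a ∈ Sx (Fin r) d := by
    intro a
    rw [mem_filter, mem_Sx, mem_Sx, AllT_sum, Fin.snoc_last]
    omega
  have hback : ∀ α : Fin (r + 1) → ℕ, α ∈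
      (Sx (Fin (r + 1)) d).filter (fun α => α (Fin.last r) + d ≤ d) →
      (Fin.snoc (Fin.init α) 0 : Fin (r + 1) → ℕ) = α := by
    intro α hα
    rw [mem_filter] at hα
    have h0 : α (Fin.last r) = 0 := by omega
    have h1 := Fin.snoc_init_self α
    rw [h0] at h1
    exact h1
  have key : ∀ a ∈ Sx (Fin r) d,
      (fun a : Fin r → ℕ => f (Fin.snoc a 0 : Fin (r + 1) → ℕ)) a = 0 := by
    refine hpos _ fun i b hb => ?_
    have hb' : ∑ j, b j < t i := hb
    have h1 : ∑ a ∈ (Sx (Fin (r + 1)) d).filter (fun α => α (Fin.last r) + d ≤ d),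
        f a * tcr (Fin.snoc (pos i) 0 : Fin (r + 1) → ℂ) a
          (Fin.snoc b 0 : Fin (r + 1) → ℕ) = 0 := by
      refine hf i (Fin.snoc b 0 : Fin (r + 1) → ℕ) ?_
      show ∑ j, (Fin.snoc b 0 : Fin (r + 1) → ℕ) j < t i
      rw [AllT_sum]
      exact hb'
    rw [← h1]
    show ∑ a ∈ Sx (Fin r) d, f (Fin.snoc a 0 : Fin (r + 1) → ℕ) * tcr (pos i) a b = _
    refine Finset.sum_bij (fun a _ => (Fin.snoc a 0 : Fin (r + 1) → ℕ))
      (fun a ha => (hmem a).2 ha) (fun a _ c _ hac => ?_)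
      (fun α hα => ⟨Fin.init α, ?_, hback α hα⟩) (fun a _ => ?_)
    · have h2 : Fin.init (Fin.snoc a 0 : Fin (r + 1) → ℕ) =
          Fin.init (Fin.snoc c 0 : Fin (r + 1) → ℕ) := by rw [hac]
      rw [Fin.init_snoc, Fin.init_snoc] at h2
      exact h2
    · rw [← hmem, hback α hα]
      exact hα
    · rw [AllT_tcr]
  have h3 := key (Fin.init α) (by
    rw [← hmem, hback α hα]
    exact hα)
  beta_reduce at h3
  rw [hback α hα] at h3
  exact h3

/-- `(c + s) * ell s c = (s + 1) * ell (s + 1) c` -/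
private theorem AllT_mul (s c : ℕ) (hs : 1 ≤ s) : (c + s) * ell s c = (s + 1) * ell (s + 1) c := by
  rcases Nat.eq_zero_or_pos c with h | h
  · subst h
    rw [ell_zero hs, ell_zero (by omega), mul_zero, mul_zero]
  unfold ell
  have := Nat.add_one_mul_choose_eq (c + s - 1) s
  rw [show c + s - 1 + 1 = c + s by omega] at this
  rw [show c + (s + 1) - 1 = c + s by omega, this, mul_comm]

private theorem AllT_lam (r m : ℕ) (hm : 1 ≤ m) : lam (r + 1) 0 m = ell r m := by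
  obtain ⟨k, rfl⟩ : ∃ k, m = k + 1 := ⟨m - 1, by omega⟩
  unfold lam
  rw [Nat.zero_add, Nat.add_sub_cancel, ell_succ, Nat.add_sub_cancel_left]

theorem core_cone (d : ℕ) (η : ℝ) (hη : 0 < η) : ∃ r₀ : ℕ, ∀ r : ℕ, r₀ ≤ r → ∀ (M μ : ℕ)
    (S : Multiset ℕ), 1 ≤ μ → μ ≤ M → μ + M ≤ d →
    (∀ m ∈ S, 1 ≤ m ∧ m ≤ M ∧ m + M ≤ d + 1) →
    ell r (d + 1) ≤ ell r d + lam r 0 M + (S.map (lam r 0)).sum →
    η * (ell r (d + 1) : ℝ) ≤ ((S.count μ * ell r μ : ℕ) : ℝ) →
    GM (Sx (Fin (r + 1)) d) ((d ::ₘ M ::ₘ S).map Kind.free) := by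
  obtain ⟨r₁, h₁⟩ := core d (η / 2) (by positivity)
  refine ⟨max (r₁ + 1) (max d 2), fun r hr M μ S hμ hμM hM hS hN hη' => ?_⟩
  have hr1 : r₁ + 1 ≤ r := (le_max_left _ _).trans hr
  have hr2 : d ≤ r := ((le_max_left _ _).trans (le_max_right _ _)).trans hr
  have hr3 : 2 ≤ r := ((le_max_right _ _).trans (le_max_right _ _)).trans hr
  obtain ⟨s, rfl⟩ : ∃ s, r = s + 1 := ⟨r - 1, by omega⟩
  rw [Multiset.map_cons]
  refine GM_cons (Fin.last (s + 1)) d d _ (GM_face (M ::ₘ S) ?_)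
  refine h₁ s (by omega) M μ M S hμ hμM hM le_rfl hS ?_ ?_
  · have hS' : (S.map (lam (s + 1) 0)).sum = tot s S := by
      unfold tot
      rw [Multiset.map_congr rfl fun m hm => AllT_lam s m (hS m hm).1]
    rw [hS', AllT_lam s M (by omega), ell_succ] at hN
    omega
  · have e1 := AllT_mul s μ (by omega)
    have e2 : ell (s + 1) μ ≤ 2 * ell s μ := by
      have e3 : (s + 1) * ell (s + 1) μ ≤ (s + 1) * (2 * ell s μ) := by
        rw [← e1]
        calc (μ + s) * ell s μ ≤ (2 * (s + 1)) * ell s μ := Nat.mul_le_mul_right _ (by omega)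
          _ = (s + 1) * (2 * ell s μ) := by ring
      exact Nat.le_of_mul_le_mul_left e3 (Nat.succ_pos s)
    have e4 : ell s (d + 1) ≤ ell (s + 1) (d + 1) := by
      rw [ell_succ]
      exact Nat.le_add_left _ _
    have e5 : ((S.count μ * ell (s + 1) μ : ℕ) : ℝ) ≤ 2 * ((S.count μ * ell s μ : ℕ) : ℝ) := by
      have e6 : S.count μ * ell (s + 1) μ ≤ 2 * (S.count μ * ell s μ) := by
        calc S.count μ * ell (s + 1) μ ≤ S.count μ * (2 * ell s μ) := Nat.mul_le_mul_left _ e2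
          _ = 2 * (S.count μ * ell s μ) := by ring
      exact_mod_cast e6
    have e7 : η * (ell s (d + 1) : ℝ) ≤ η * (ell (s + 1) (d + 1) : ℝ) := by
      have e8 : (ell s (d + 1) : ℝ) ≤ (ell (s + 1) (d + 1) : ℝ) := by exact_mod_cast e4
      exact mul_le_mul_of_nonneg_left e8 hη.le
    linarith

end Pool.Agent.H21.TC

end

section

/-!
# TC19: one point of arbitrary multiplicity: the exact dimension

Let `e = d - m i₀`, `r` large, `lam r e (m i) = ell r (m i) - ell r (m i + m i₀ - (d + 1))` and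
`X = binom (d + r, r) - ell r (m i₀) - ∑_{i ≠ i₀} lam r e (m i)` (truncated).  By `low` the dimension is at
least `X` for general points.  It is at most `X` if `GM` holds for the `m i` together with `X` simple points
(`MaxGMX.special`, `general_finrank_le`).  This is shown as follows.

* `k = 1` (no other points): then put `M = 1` if `X ≥ 1` (one of the `X` simple points plays the role of the
  `M`-point), and continue as below; `X = 0` is impossible (`ell r (m i₀) ≤ ell r d < binom (d + r, r)`).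
  (Or use `gdim_single`.)
* Otherwise let `M` be the largest `m i`, `i ≠ i₀`, at the index `i₁`.  If `M = d`: all `m i`, `i ≠ i₀, i₁`, are `1`
  (`hp`), `two_large`.
* `M < d`: `S` = the `m i` for `i ≠ i₀, i₁` together with the `X` simple points.  The total
  `ell r (d - e) + lam M + ∑_S lam ≥ ell r (d + 1)` (`lam r e 1 = 1` for `e ≥ 1`, and for `e = 0`: `ell r 1 - ell r 0 = 1`).
  The points of `S` with `m + M ≤ d` (all others have `m + M = d + 1` by `hp`; the simple ones are among them)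
  have mass `∑ ell r m ≥ ell r (d + 1) - ell r (d - e) - ell r M - (1 - η) ell r (d + 1) ≥ η / 2 * ell r (d + 1)`
  for large `r` (`grow_one`: `ell r d` is small), so some `μ ≤ M`, `μ + M ≤ d` has mass
  `≥ η / (2 (d + 1)) * ell r (d + 1)` (pigeonhole as in `UCore.lean`).  `core_W` (`e ≥ 1`) or `core_cone` (`e = 0`).

`one_large_le`: the version with pair sums at most `d`: then a point with `m i + M = d + 1` is the `M`-point
itself, and `ell r M ≤ ell r d ≤ (1 - η) binom (d + r, r)` for large `r`, with `η = 1 / 2`.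
-/

namespace Pool.Agent.H21.TC

open Finset MvPolynomial Pool.Agent.H18.Fat Pool.Agent.H18.Ex Pool.Agent.H21.NX Pool.Agent.H51.TB

private theorem FinT_ell_up (r c : ℕ) (hr : 1 ≤ r) : ell (r - 1) (c + 1) ≤ ell r (c + 1) := by
  obtain ⟨k, rfl⟩ : ∃ k, r = k + 1 := ⟨r - 1, by omega⟩
  rw [Nat.add_sub_cancel, ell_succ k c]
  exact Nat.le_add_left _ _

private theorem FinT_choose (r d : ℕ) : (d + r).choose r = ell r (d + 1) := by
  unfold ell
  rw [show d + 1 + r - 1 = d + r by omega]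

private theorem FinT_grow (d : ℕ) (K : ℝ) : ∃ r₀ : ℕ, ∀ r : ℕ, r₀ ≤ r →
    K * (ell r d : ℝ) ≤ (ell r (d + 1) : ℝ) := by
  obtain ⟨n₀, h⟩ := grow_one d K
  refine ⟨max n₀ 1, fun r hr => (h r ((le_max_left _ _).trans hr) d le_rfl).trans ?_⟩
  exact_mod_cast FinT_ell_up r d ((le_max_right _ _).trans hr)

private theorem FinT_sum_tot (r d : ℕ) (T : Multiset ℕ) (hT : ∀ m ∈ T, m ≤ d) :
    ∑ m ∈ range (d + 1), T.count m * ell r m = (T.map (ell r)).sum := by
  rw [Finset.sum_multiset_map_count]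
  symm
  have h1 : T.toFinset ⊆ range (d + 1) := by
    intro x hx
    exact mem_range.2 (Nat.lt_succ_of_le (hT x (Multiset.mem_toFinset.1 hx)))
  refine (Finset.sum_subset h1 ?_).trans ?_
  · intro x _ hx
    rw [Multiset.mem_toFinset] at hx
    rw [Multiset.count_eq_zero_of_notMem hx, zero_smul]
  · exact Finset.sum_congr rfl fun m _ => smul_eq_mul _ _

private theorem FinT_pigeon (r d : ℕ) (B : Multiset ℕ) (hB : ∀ m ∈ B, m ≤ d) (c : ℝ)
    (hc : c ≤ (((B.map (ell r)).sum : ℕ) : ℝ)) :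
    ∃ μ, c ≤ ((d : ℝ) + 1) * ((B.count μ * ell r μ : ℕ) : ℝ) := by
  by_contra hcon
  push Not at hcon
  have h1 := FinT_sum_tot r d B hB
  have h2 : ∑ m ∈ range (d + 1), ((d : ℝ) + 1) * ((B.count m * ell r m : ℕ) : ℝ) <
      ∑ _m ∈ range (d + 1), c :=
    Finset.sum_lt_sum_of_nonempty ⟨0, by simp⟩ fun m _ => hcon m
  rw [← Finset.mul_sum, ← Nat.cast_sum, h1, Finset.sum_const, card_range, nsmul_eq_mul] at h2
  push_cast at h2
  have h3 : (0 : ℝ) < (d : ℝ) + 1 := by positivity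
  have h4 := lt_of_mul_lt_mul_left h2 h3.le
  push_cast at hc
  linarith

private theorem FinT_lam_one {r : ℕ} (hr : 1 ≤ r) (e : ℕ) : lam r e 1 = 1 := by
  unfold lam
  rw [show 1 - (e + 1) = 0 by omega, ell_zero hr, ell_one]

private theorem FinT_lam_le (r e m : ℕ) : lam r e m ≤ ell r m := by
  unfold lam
  exact Nat.sub_le _ _

private theorem FinT_key (d : ℕ) (η : ℝ) (hη : 0 < η) : ∃ r₀ : ℕ, ∀ r : ℕ, r₀ ≤ r →
    ∀ (ι : Type) [Fintype ι] [DecidableEq ι] (n : ι → ℕ) (e : ℕ), e ≤ d →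
    (∀ i, 1 ≤ n i ∧ n i ≤ d) → (∀ i j, i ≠ j → n i + n j ≤ d + 1) →
    (∀ i, n i < d → (∀ j, n j ≤ n i) →
      ((∑ j ∈ univ.filter (fun j => n j + n i = d + 1), ell r (n j) : ℕ) : ℝ) ≤
        (1 - η) * (ell r (d + 1) : ℝ)) →
    ell r (d + 1) ≤ ell r (d - e) + ∑ i, lam r e (n i) →
    GM (Sx (Fin (r + 1)) d) (((d - e) ::ₘ univ.val.map n).map Kind.free) := by
  set η' : ℝ := η / (2 * ((d : ℝ) + 1)) with hη'def
  have hη' : 0 < η' := by positivity
  obtain ⟨r₁, h₁⟩ := core_W d η' hη'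
  obtain ⟨r₂, h₂⟩ := core_cone d η' hη'
  obtain ⟨r₃, h₃⟩ := FinT_grow d (4 / η)
  obtain ⟨r₄, h₄⟩ := FinT_grow d 2
  refine ⟨max (max r₁ r₂) (max (max r₃ r₄) 1), ?_⟩
  intro r hr ι _ _ n e he hn hp hC htot
  have hr1 : r₁ ≤ r := ((le_max_left _ _).trans (le_max_left _ _)).trans hr
  have hr2 : r₂ ≤ r := ((le_max_right _ _).trans (le_max_left _ _)).trans hr
  have hr3 : r₃ ≤ r := ((le_max_left _ _).trans ((le_max_left _ _).trans (le_max_right _ _))).trans hr
  have hr4 : r₄ ≤ r := ((le_max_right _ _).trans ((le_max_left _ _).trans (le_max_right _ _))).trans hr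
  have hr5 : 1 ≤ r := ((le_max_right _ _).trans (le_max_right _ _)).trans hr
  have g3 := h₃ r hr3
  have g4 : 2 * ell r d ≤ ell r (d + 1) := by exact_mod_cast h₄ r hr4
  have hNpos : 1 ≤ ell r (d + 1) := ell_pos r (by omega)
  have hde : ell r (d - e) ≤ ell r d := ell_mono r (Nat.sub_le _ _)
  -- the largest multiplicity
  have hne : Nonempty ι := by
    by_contra hcon
    rw [not_nonempty_iff] at hcon
    rw [Finset.univ_eq_empty, Finset.sum_empty] at htot
    omega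
  obtain ⟨i₁, hi₁⟩ := Finite.exists_max n
  set M := n i₁ with hM
  set S : Multiset ℕ := (univ.erase i₁).val.map n with hS
  have hTS : (univ : Finset ι).val.map n = M ::ₘ S := by
    have h0 : (univ : Finset ι) = insert i₁ (univ.erase i₁) :=
      (Finset.insert_erase (mem_univ i₁)).symm
    conv_lhs => rw [h0]
    rw [Finset.insert_val_of_notMem (Finset.notMem_erase i₁ univ), Multiset.map_cons]
  have hSmem : ∀ m ∈ S, ∃ j, j ≠ i₁ ∧ n j = m := by
    intro m hm
    obtain ⟨j, hj, hjm⟩ := Multiset.mem_map.1 hm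
    exact ⟨j, (Finset.mem_erase.1 hj).1, hjm⟩
  have hSok : ∀ m ∈ S, 1 ≤ m ∧ m ≤ M ∧ m + M ≤ d + 1 := by
    intro m hm
    obtain ⟨j, hj, rfl⟩ := hSmem m hm
    exact ⟨(hn j).1, hi₁ j, hp j i₁ hj⟩
  have hsumS : ∑ i, lam r e (n i) = lam r e M + (S.map (lam r e)).sum := by
    have h0 : ∑ i, lam r e (n i) = (((univ : Finset ι).val.map n).map (lam r e)).sum := by
      rw [Multiset.map_map]
      rfl
    rw [h0, hTS, Multiset.map_cons, Multiset.sum_cons]
  have htot' : ell r (d + 1) ≤ ell r (d - e) + lam r e M + (S.map (lam r e)).sum := by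
    rw [hsumS] at htot
    omega
  rw [hTS]
  have hM1 := hn i₁
  rcases Nat.lt_or_ge M d with hMd | hMd
  · -- `M < d`
    have hCM := hC i₁ hMd hi₁
    set B : Finset ι := (univ.erase i₁).filter fun j => n j + M ≤ d with hB
    have hcover : ∑ i, lam r e (n i) ≤
        (∑ j ∈ univ.filter (fun j => n j + M = d + 1), ell r (n j)) + ell r M +
          ∑ j ∈ B, ell r (n j) := by
      have h1 : ∀ j ∈ (univ.erase i₁ : Finset ι), lam r e (n j) ≤
          (if n j + M = d + 1 then ell r (n j) else 0) + (if n j + M ≤ d then ell r (n j) else 0) := by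
        intro j hj
        have h2 := hp j i₁ (Finset.mem_erase.1 hj).1
        have h3 := FinT_lam_le r e (n j)
        rcases Nat.lt_or_ge d (n j + M) with h4 | h4
        · rw [if_pos (by omega)]
          omega
        · rw [if_pos h4]
          omega
      have h5 : ∑ i, lam r e (n i) = lam r e (n i₁) + ∑ j ∈ univ.erase i₁, lam r e (n j) :=
        (Finset.add_sum_erase _ _ (mem_univ i₁)).symm
      have h6 : ∑ j ∈ univ.erase i₁, lam r e (n j) ≤
          (∑ j ∈ univ.erase i₁, if n j + M = d + 1 then ell r (n j) else 0) +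
            ∑ j ∈ univ.erase i₁, if n j + M ≤ d then ell r (n j) else 0 := by
        rw [← Finset.sum_add_distrib]
        exact Finset.sum_le_sum h1
      have h7 : (∑ j ∈ univ.erase i₁, if n j + M = d + 1 then ell r (n j) else 0) ≤
          ∑ j ∈ univ.filter (fun j => n j + M = d + 1), ell r (n j) := by
        rw [Finset.sum_filter]
        exact Finset.sum_le_sum_of_subset (Finset.erase_subset _ _)
      have h8 : (∑ j ∈ univ.erase i₁, if n j + M ≤ d then ell r (n j) else 0) =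
          ∑ j ∈ B, ell r (n j) := by
        rw [hB, Finset.sum_filter]
      have h9 : lam r e (n i₁) ≤ ell r M := FinT_lam_le r e _
      omega
    have hBsum : η / 2 * (ell r (d + 1) : ℝ) ≤ ((((B.val.map n).map (ell r)).sum : ℕ) : ℝ) := by
      have h1 : ((B.val.map n).map (ell r)).sum = ∑ j ∈ B, ell r (n j) := by
        rw [Multiset.map_map]
        rfl
      rw [h1]
      have h2 : ell r M ≤ ell r d := ell_mono r hMd.le
      have h3 : (ell r (d + 1) : ℝ) ≤ (ell r d : ℝ) +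
          (((∑ j ∈ univ.filter (fun j => n j + M = d + 1), ell r (n j) : ℕ) : ℝ) + (ell r d : ℝ) +
            ((∑ j ∈ B, ell r (n j) : ℕ) : ℝ)) := by
        have h4 : ell r (d + 1) ≤ ell r d +
            ((∑ j ∈ univ.filter (fun j => n j + M = d + 1), ell r (n j)) + ell r d +
              ∑ j ∈ B, ell r (n j)) := by
          omega
        exact_mod_cast h4
      have h5 : 2 * (ell r d : ℝ) ≤ η / 2 * (ell r (d + 1) : ℝ) := by
        have h6 := mul_le_mul_of_nonneg_left g3 (show (0 : ℝ) ≤ η / 2 by positivity)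
        have h7 : η / 2 * (4 / η * (ell r d : ℝ)) = 2 * (ell r d : ℝ) := by
          field_simp
          ring
        rw [h7] at h6
        exact h6
      linarith
    have hBd : ∀ m ∈ B.val.map n, m ≤ d := by
      intro m hm
      obtain ⟨j, _, rfl⟩ := Multiset.mem_map.1 hm
      exact (hn j).2
    obtain ⟨μ, hμ⟩ := FinT_pigeon r d (B.val.map n) hBd _ hBsum
    have hNr : (0 : ℝ) < (ell r (d + 1) : ℝ) := by exact_mod_cast hNpos
    have hμB : μ ∈ B.val.map n := by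
      rw [← Multiset.count_ne_zero]
      intro h0
      rw [h0, Nat.zero_mul, Nat.cast_zero, mul_zero] at hμ
      have : 0 < η / 2 * (ell r (d + 1) : ℝ) := by positivity
      linarith
    obtain ⟨j, hjB, hjμ⟩ := Multiset.mem_map.1 hμB
    have hjB' := Finset.mem_filter.1 hjB
    have hμ1 : 1 ≤ μ := hjμ ▸ (hn j).1
    have hμM : μ ≤ M := hjμ ▸ hi₁ j
    have hμMd : μ + M ≤ d := hjμ ▸ hjB'.2
    have hcount : (B.val.map n).count μ ≤ S.count μ := by
      apply Multiset.count_le_of_le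
      apply Multiset.map_le_map
      exact Finset.val_le_iff.2 (Finset.filter_subset _ _)
    have hmass : η' * (ell r (d + 1) : ℝ) ≤ ((S.count μ * ell r μ : ℕ) : ℝ) := by
      have h1 : (((B.val.map n).count μ * ell r μ : ℕ) : ℝ) ≤ ((S.count μ * ell r μ : ℕ) : ℝ) := by
        exact_mod_cast Nat.mul_le_mul_right _ hcount
      refine le_trans ?_ h1
      have h2 : (0 : ℝ) < (d : ℝ) + 1 := by positivity
      have h3 : η' * (ell r (d + 1) : ℝ) = η / 2 * (ell r (d + 1) : ℝ) / ((d : ℝ) + 1) := by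
        rw [hη'def]
        field_simp
      rw [h3, div_le_iff₀ h2]
      calc η / 2 * (ell r (d + 1) : ℝ) ≤ _ := hμ
        _ = _ := mul_comm _ _
    rcases Nat.eq_zero_or_pos e with he0 | he1
    · subst he0
      rw [Nat.sub_zero] at htot' ⊢
      exact h₂ r hr2 M μ S hμ1 hμM hμMd hSok htot' hmass
    · exact h₁ r hr1 e M μ S he1 he hμ1 hμM hμMd hSok htot' hmass
  · -- `M = d`
    have hMd' : M = d := le_antisymm hM1.2 hMd
    have hS1 : S = Multiset.replicate (Multiset.card S) 1 := by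
      apply Multiset.eq_replicate_card.2
      intro m hm
      have := hSok m hm
      omega
    have hlam : (S.map (lam r e)).sum = Multiset.card S := by
      rw [hS1, Multiset.map_replicate, Multiset.sum_replicate, FinT_lam_one hr5,
        Multiset.card_replicate, smul_eq_mul, mul_one]
    rw [hlam, hMd'] at htot'
    rw [hMd', hS1]
    exact two_large hr5 he htot'

theorem one_large (d : ℕ) (η : ℝ) (hη : 0 < η) : ∃ r₀ : ℕ, ∀ r : ℕ, r₀ ≤ r → ∀ (k : ℕ)
    (m : Fin k → ℕ) (i₀ : Fin k), (∀ i, 1 ≤ m i ∧ m i ≤ d) →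
    (∀ i j, i ≠ j → i ≠ i₀ → j ≠ i₀ → m i + m j ≤ d + 1) →
    (∀ M < d, (∀ i, i ≠ i₀ → m i ≤ M) → (∃ i, i ≠ i₀ ∧ m i = M) →
      ((∑ i ∈ univ.filter (fun i => i ≠ i₀ ∧ m i + M = d + 1), ell r (m i) : ℕ) : ℝ) ≤
        (1 - η) * ((d + r).choose r : ℝ)) →
    ForGeneralPoints r k fun p => Module.finrank ℂ (fatForms r d p m) =
      ((d + r).choose r + ∑ i ∈ univ.erase i₀, ell r (m i + m i₀ - (d + 1))) -
        ∑ i, ell r (m i) := by
  obtain ⟨r₀, h₀⟩ := FinT_key d (min η 1) (lt_min hη one_pos)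
  refine ⟨max r₀ 1, ?_⟩
  intro r hr k m i₀ hm hp hC
  have hr0 : r₀ ≤ r := (le_max_left _ _).trans hr
  have hr1 : 1 ≤ r := (le_max_right _ _).trans hr
  set X : ℕ := ((d + r).choose r + ∑ i ∈ univ.erase i₀, ell r (m i + m i₀ - (d + 1))) -
    ∑ i, ell r (m i) with hX
  set e := d - m i₀ with he
  have hed : e ≤ d := Nat.sub_le _ _
  have hde : d - e = m i₀ := by
    have := (hm i₀).2
    omega
  let n : ↥(univ.erase i₀ : Finset (Fin k)) ⊕ Fin X → ℕ := Sum.elim (fun i => m i.1) fun _ => 1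
  have hNe := FinT_choose r d
  have key := h₀ r hr0 (↥(univ.erase i₀ : Finset (Fin k)) ⊕ Fin X) n e hed ?_ ?_ ?_ ?_
  · -- conclusion
    have hGM : GM (Sx (Fin (r + 1)) d) ((univ.val.map fun i => Kind.free (m i)) +
        Multiset.replicate X (Kind.free 1)) := by
      have h1 : ((d - e) ::ₘ (univ : Finset (↥(univ.erase i₀ : Finset (Fin k)) ⊕ Fin X)).val.map
          n).map (Kind.free (ι := Fin (r + 1))) = (univ.val.map fun i => Kind.free (m i)) +
            Multiset.replicate X (Kind.free 1) := by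
        rw [Multiset.map_cons, Multiset.map_map]
        have h2 : (univ : Finset (↥(univ.erase i₀ : Finset (Fin k)) ⊕ Fin X)).val.map
            (Kind.free (ι := Fin (r + 1)) ∘ n) =
            (univ : Finset ↥(univ.erase i₀ : Finset (Fin k))).val.map (fun i => Kind.free (m i.1)) +
              (univ : Finset (Fin X)).val.map fun _ => Kind.free 1 := by
          rw [← multi_map_sum]
          apply Multiset.map_congr rfl
          intro x _
          rcases x with x | x <;> rfl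
        rw [h2, Finset.univ_eq_attach]
        have h3 : (univ.erase i₀ : Finset (Fin k)).attach.val.map
            (fun i => (Kind.free (m i.1) : Kind (Fin (r + 1)))) =
            (univ.erase i₀ : Finset (Fin k)).val.map fun i => Kind.free (m i) :=
          Multiset.attach_map_val' (univ.erase i₀ : Finset (Fin k)).val
            (fun i => (Kind.free (m i) : Kind (Fin (r + 1))))
        rw [h3, Multiset.map_const', Finset.card_val, card_univ, Fintype.card_fin,
          ← Multiset.cons_add, hde]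
        congr 1
        have h4 : (univ : Finset (Fin k)) = insert i₀ (univ.erase i₀) :=
          (Finset.insert_erase (mem_univ i₀)).symm
        conv_rhs => rw [h4]
        rw [Finset.insert_val_of_notMem (Finset.notMem_erase i₀ univ), Multiset.map_cons]
      rw [← h1]
      exact key
    obtain ⟨p₀, hp₀⟩ := MaxGMX.special r k d X m hGM
    refine ((general_finrank_le d p₀ m).and (low r d k hr1 m i₀ hm hp)).mono ?_
    rintro p ⟨hp1, hp2⟩
    omega
  · -- positive multiplicities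
    rintro (i | j)
    · exact hm i.1
    · exact ⟨le_rfl, (hm i₀).1.trans (hm i₀).2⟩
  · -- pairs
    have hd1 : 1 ≤ d := (hm i₀).1.trans (hm i₀).2
    rintro (i | i) (j | j) hij
    · refine hp i.1 j.1 ?_ (Finset.mem_erase.1 i.2).1 (Finset.mem_erase.1 j.2).1
      intro h0
      exact hij (congrArg Sum.inl (Subtype.ext h0))
    · have := (hm i.1).2
      show m i.1 + 1 ≤ d + 1
      omega
    · have := (hm j.1).2
      show 1 + m j.1 ≤ d + 1
      omega
    · show 1 + 1 ≤ d + 1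
      omega
  · -- mass
    intro i hid hmax
    set M := n i with hMdef
    have h1 : (∑ j ∈ univ.filter (fun j => n j + M = d + 1), ell r (n j)) =
        ∑ i ∈ univ.filter (fun i => i ≠ i₀ ∧ m i + M = d + 1), ell r (m i) := by
      rw [Finset.sum_filter, Fintype.sum_sum_type]
      have h2 : ∑ x : Fin X, (if n (Sum.inr x) + M = d + 1 then ell r (n (Sum.inr x)) else 0) = 0 := by
        apply Finset.sum_eq_zero
        intro x _
        have h3 : n (Sum.inr x) = 1 := rfl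
        rw [h3, if_neg (by omega)]
      rw [h2, add_zero]
      have h4 : ∑ x : ↥(univ.erase i₀ : Finset (Fin k)),
          (if n (Sum.inl x) + M = d + 1 then ell r (n (Sum.inl x)) else 0) =
          ∑ i ∈ univ.erase i₀, if m i + M = d + 1 then ell r (m i) else 0 :=
        Finset.sum_coe_sort (univ.erase i₀) (fun i => if m i + M = d + 1 then ell r (m i) else 0)
      rw [h4, ← Finset.sum_filter]
      apply Finset.sum_congr _ fun _ _ => rfl
      ext j
      simp only [Finset.mem_filter, Finset.mem_erase, Finset.mem_univ, and_true, true_and]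
    rw [h1]
    by_cases hex : ∃ i', i' ≠ i₀ ∧ m i' = M
    · have h2 := hC M hid (fun i' hi' => hmax (Sum.inl ⟨i', Finset.mem_erase.2 ⟨hi', mem_univ _⟩⟩)) hex
      rw [hNe] at h2
      refine h2.trans ?_
      apply mul_le_mul_of_nonneg_right _ (Nat.cast_nonneg _)
      have := min_le_left η 1
      linarith
    · have hemp : (univ.filter fun i' => i' ≠ i₀ ∧ m i' + M = d + 1) = (∅ : Finset (Fin k)) := by
        apply Finset.filter_eq_empty_iff.2
        rintro i' _ ⟨h3, h4⟩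
        apply hex
        refine ⟨i', h3, ?_⟩
        have h5 : m i' ≤ M := hmax (Sum.inl ⟨i', Finset.mem_erase.2 ⟨h3, mem_univ _⟩⟩)
        rcases i with i | i
        · exact absurd ⟨i.1, (Finset.mem_erase.1 i.2).1, rfl⟩ hex
        · have h6 : M = 1 := rfl
          have := (hm i').1
          omega
      rw [hemp, Finset.sum_empty, Nat.cast_zero]
      apply mul_nonneg _ (Nat.cast_nonneg _)
      have := min_le_right η 1
      linarith
  · -- total
    rw [hde, Fintype.sum_sum_type]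
    have h1 : ∑ x : Fin X, lam r e (n (Sum.inr x)) = X := by
      have h2 : ∀ x : Fin X, lam r e (n (Sum.inr x)) = 1 := fun x => FinT_lam_one hr1 e
      rw [Finset.sum_congr rfl fun x _ => h2 x, Finset.sum_const, card_univ, Fintype.card_fin,
        smul_eq_mul, mul_one]
    have h3 : ∑ x : ↥(univ.erase i₀ : Finset (Fin k)), lam r e (n (Sum.inl x)) =
        ∑ i ∈ univ.erase i₀, lam r e (m i) :=
      Finset.sum_coe_sort (univ.erase i₀) (fun i => lam r e (m i))
    rw [h1, h3]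
    have h4 : ∑ i ∈ univ.erase i₀, lam r e (m i) +
        ∑ i ∈ univ.erase i₀, ell r (m i + m i₀ - (d + 1)) = ∑ i ∈ univ.erase i₀, ell r (m i) := by
      rw [← Finset.sum_add_distrib]
      apply Finset.sum_congr rfl
      intro i _
      unfold lam
      have h5 : m i + m i₀ - (d + 1) = m i - (e + 1) := by
        have := (hm i₀).2
        omega
      rw [h5]
      exact Nat.sub_add_cancel (ell_mono r (Nat.sub_le _ _))
    have h6 : ∑ i, ell r (m i) = ell r (m i₀) + ∑ i ∈ univ.erase i₀, ell r (m i) :=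
      (Finset.add_sum_erase _ _ (mem_univ i₀)).symm
    omega

theorem one_large_le (d : ℕ) : ∃ r₀ : ℕ, ∀ r : ℕ, r₀ ≤ r → ∀ (k : ℕ)
    (m : Fin k → ℕ) (i₀ : Fin k), (∀ i, 1 ≤ m i ∧ m i ≤ d) →
    (∀ i j, i ≠ j → i ≠ i₀ → j ≠ i₀ → m i + m j ≤ d) →
    ForGeneralPoints r k fun p => Module.finrank ℂ (fatForms r d p m) =
      ((d + r).choose r + ∑ i ∈ univ.erase i₀, ell r (m i + m i₀ - (d + 1))) -
        ∑ i, ell r (m i) := by
  obtain ⟨r₁, h₁⟩ := one_large d (1 / 2) (by norm_num)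
  obtain ⟨r₂, h₂⟩ := FinT_grow d 2
  refine ⟨max r₁ r₂, ?_⟩
  intro r hr k m i₀ hm hp
  refine h₁ r ((le_max_left _ _).trans hr) k m i₀ hm
    (fun i j hij hi hj => (hp i j hij hi hj).trans (Nat.le_succ d)) ?_
  intro M hMd _ hex
  obtain ⟨i₁, hi₁, hi₁M⟩ := hex
  have h3 := h₂ r ((le_max_right _ _).trans hr)
  have hsub : (univ.filter fun i => i ≠ i₀ ∧ m i + M = d + 1) ⊆ ({i₁} : Finset (Fin k)) := by
    intro i hi
    obtain ⟨_, hi0, hiM⟩ := Finset.mem_filter.1 hi
    rw [Finset.mem_singleton]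
    by_contra hne
    have := hp i i₁ hne hi0 hi₁
    omega
  have h4 : ∑ i ∈ univ.filter (fun i => i ≠ i₀ ∧ m i + M = d + 1), ell r (m i) ≤ ell r d := by
    refine (Finset.sum_le_sum_of_subset hsub).trans ?_
    rw [Finset.sum_singleton]
    exact ell_mono r (hm i₁).2
  have h5 : ((∑ i ∈ univ.filter (fun i => i ≠ i₀ ∧ m i + M = d + 1), ell r (m i) : ℕ) : ℝ) ≤
      (ell r d : ℝ) := by exact_mod_cast h4
  rw [FinT_choose]
  linarith

end Pool.Agent.H21.TC

end
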