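import Pool.Agent.H94.LP2.H21.HD.Main_1
import Pool.Agent.H94.LP2.H51.TB.Fin
import Pool.Agent.H94.LP2.M33

/-! The parts of this file: H18.Iso.High, H18.Iso.High_1. -/

section

/-!
# High dimension: systems with pair sums at most `d + 1`
-/

namespace Pool.Agent.H18.Iso

open Finset Pool.Agent.H18.Fat Pool.Agent.H21.HD

theorem fro_small {P : Type} [DecidableEq P] (r : ℕ) (e : P → ℕ) (I : Finset P) (j : ℕ)
    (h : ∀ i ∈ I, j < e i) : fro r e I j = ((r + j).choose r : ℤ) := by
  induction I using Finset.induction_on with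
  | empty => simp [fro]
  | insert a s ha ih =>
    rw [fro_insert' r e s a ha, ih fun i hi => h i (mem_insert_of_mem hi),
      if_neg (by have := h a (mem_insert_self a s); omega), sub_zero]

theorem fro_pairs {P : Type} [DecidableEq P] (r d : ℕ) (e : P → ℕ) (I : Finset P)
    (h : ∀ i ∈ I, ∀ j ∈ I, i ≠ j → d + 1 ≤ e i + e j) (he : ∀ i ∈ I, e i ≤ d) :
    fro r e I d = ((r + d).choose r : ℤ) - ∑ i ∈ I, ((r + (d - e i)).choose r : ℤ) := by
  induction I using Finset.induction_on with
  | empty => simp [fro]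
  | insert a s ha ih =>
    rw [fro_insert' r e s a ha, ih (fun i hi j hj => h i (mem_insert_of_mem hi) j
      (mem_insert_of_mem hj)) (fun i hi => he i (mem_insert_of_mem hi)),
      if_pos (he a (mem_insert_self a s)), sum_insert ha, fro_small r e s (d - e a) fun i hi => ?_]
    · ring
    · have h1 := he a (mem_insert_self a s)
      have h2 := h a (mem_insert_self a s) i (mem_insert_of_mem hi) fun h3 => ha (h3 ▸ hi)
      omega

end Pool.Agent.H18.Iso

end

section

/-!
# High dimension: systems with pair sums at most `d + 1`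
-/

namespace Pool.Agent.H18.Iso

open Finset Pool.Agent.H18.Fat Pool.Agent.H21.HD

theorem high (η : ℝ) (hη : 0 < η) : ∃ C : ℝ, 0 < C ∧ ∃ n₀ K : ℕ → ℕ, ∀ n d M h : ℕ, 1 ≤ n →
    1 ≤ M → ∀ m : Fin h → ℕ, (∀ i, 1 ≤ m i ∧ m i ≤ M) →
    (C * M * (1 + (M : ℝ) / n) ^ 3 * (M : ℝ) ^ (22 / (n : ℝ)) ≤ d ∨
      (n₀ M ≤ n ∧ (Even d ∨ 2 * M ≤ d ∨
        ((∑ i ∈ univ.filter (fun i => 2 * m i = d + 1), (m i + n - 1).choose n : ℕ) : ℝ) ≤
          (1 - η) * ((d + n).choose n : ℝ) ∨
        (1 + η) * ((d + n).choose n : ℝ) ≤ ((∑ i, (m i + n - 1).choose n : ℕ) : ℝ) ∨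
        ∃ μ, 1 ≤ μ ∧ 4 * μ ≤ d + 1 ∧ K M * n ^ (d - μ) ≤ (univ.filter fun i => m i = μ).card))) →
    (∀ i j, i ≠ j → m i + m j ≤ d + 1) →
    ForGeneralPoints n h fun p => ImposesMaximalConditions n d p m := by
  classical
  obtain ⟨C, hC, r₀, K₀, hb⟩ := Pool.Agent.H51.TB.bounded η hη
  choose r₁ K₁ h₁ using fun d => Pool.Agent.H51.TB.fixed_one d (min η 1) (lt_min hη one_pos)
  choose r₂ h₂ using fun d => Pool.Agent.H21.HD.main d η hη
  refine ⟨C, hC, fun M => r₀ M + (range (2 * M)).sup r₁ + (range (2 * M)).sup r₂,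
    fun M => (range (2 * M)).sup K₁, fun n d M h hn hM m hm hcase hp => ?_⟩
  rcases hcase with hcase | ⟨hn0, hcase⟩
  · exact hb n M d h hn hM m hm (Or.inl hcase)
  · replace hn0 : r₀ M + (range (2 * M)).sup r₁ + (range (2 * M)).sup r₂ ≤ n := hn0
    by_cases hd : 2 * M ≤ d
    · exact hb n M d h hn hM m hm (Or.inr (Or.inl ⟨by omega, hd⟩))
    · have hdr : d ∈ range (2 * M) := mem_range.2 (by omega)
      have hr1 : r₁ d ≤ n := by
        have : r₁ d ≤ (range (2 * M)).sup r₁ := le_sup (f := r₁) hdr
        omega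
      have hr2 : r₂ d ≤ n := by
        have : r₂ d ≤ (range (2 * M)).sup r₂ := le_sup (f := r₂) hdr
        omega
      have hK : K₁ d ≤ (range (2 * M)).sup K₁ := le_sup (f := K₁) hdr
      have hN : (0 : ℝ) ≤ ((d + n).choose n : ℝ) := Nat.cast_nonneg _
      have hmin : min η 1 ≤ η := min_le_left _ _
      have hmin1 : min η 1 ≤ 1 := min_le_right _ _
      rcases hcase with he | hd' | hs | hs | hμ
      · -- `d` even
        refine h₁ d n hr1 h m (fun i => (hm i).1) hp (Or.inl ?_)
        have h0 : univ.filter (fun i => 2 * m i = d + 1) = ∅ := by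
          rw [filter_eq_empty_iff]
          intro i _ h3
          obtain ⟨c, hc⟩ := he
          omega
        rw [h0, sum_empty, Nat.cast_zero]
        nlinarith
      · exact absurd hd' hd
      · refine h₁ d n hr1 h m (fun i => (hm i).1) hp (Or.inl ?_)
        have h4 : ((∑ i ∈ univ.filter (fun i => 2 * m i = d + 1),
            Pool.Agent.H18.Ex.ell n (m i) : ℕ) : ℝ) ≤ (1 - η) * ((d + n).choose n : ℝ) := hs
        refine h4.trans ?_
        nlinarith
      · -- too many conditions
        by_cases hbig : ∃ i, d < m i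
        · exact ((h₂ d n hr2 h m (fun i => (hm i).1)).2 (Or.inl hbig)).mono fun p hp => hp.2
        · push Not at hbig
          refine ((h₂ d n hr2 h m (fun i => (hm i).1)).2 (Or.inr ⟨univ, fun i _ => hbig i, d,
            le_rfl, ?_⟩)).mono fun p hp => hp.2
          rw [fro_pairs n d (fun i => d + 1 - m i) univ
            (fun i _ j _ hij => by
              have := hp i j hij
              have := hbig i
              have := hbig j
              show d + 1 ≤ d + 1 - m i + (d + 1 - m j)
              omega)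
            (fun i _ => by
              have := (hm i).1
              show d + 1 - m i ≤ d
              omega)]
          have h6 : ∑ i, ((n + (d - (d + 1 - m i))).choose n : ℤ) =
              ((∑ i, (m i + n - 1).choose n : ℕ) : ℤ) := by
            rw [Nat.cast_sum]
            refine sum_congr rfl fun i _ => ?_
            have := (hm i).1
            have := hbig i
            have h7 : n + (d - (d + 1 - m i)) = m i + n - 1 := by omega
            rw [h7]
          rw [h6]
          have h7 : n + d = d + n := add_comm _ _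
          rw [h7]
          push_cast
          push_cast at hs
          linarith
      · obtain ⟨μ, hμ1, hμ4, hμ⟩ := hμ
        refine h₁ d n hr1 h m (fun i => (hm i).1) hp (Or.inr ⟨μ, hμ1, hμ4, le_trans ?_ hμ⟩)
        exact Nat.mul_le_mul_right _ hK

end Pool.Agent.H18.Iso

end
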